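import Mathlib

/-! Parts: WarR.Num4, WarR.Win4, WarR.Win4k -/

section

/-!
# MP_db021c_ag, d = 2: the numerical assignment of the stars   (helper4)

`stars`: every `F ≤ C(r,2)` is a sum of distinct star sizes `r-1-i` (greedy, few stars).
`flow`: the cyclic assignment with two suppliers (notes 2404, 2407, 2408), both sides at once.
-/

set_option autoImplicit false

namespace Pool.Agent.WarR.N4

/-- Every `F ≤ C(r,2)` is a sum of distinct star sizes `r-1-i`, and the greedy choice uses at most `t` stars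
as soon as `F` is at most the sum of the `t` largest. -/
theorem stars (r : ℕ) : ∀ F : ℕ, 2 * F ≤ r * (r - 1) → ∃ S : Finset (Fin r),
    (∑ i ∈ S, (r - 1 - (i : ℕ))) = F ∧ ∀ t : ℕ, t ≤ r → 2 * F ≤ t * (2 * r - 1 - t) → S.card ≤ t := by
  induction r with
  | zero =>
    intro F hF
    refine ⟨∅, ?_, fun t _ _ => by simp⟩
    simp at hF ⊢
    omega
  | succ r ih =>
    intro F hF
    rcases Nat.lt_or_ge F r with h | h
    · -- one star
      rcases Nat.eq_zero_or_pos F with h0 | h0
      · exact ⟨∅, by simp [h0], fun t _ _ => by simp⟩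
      · refine ⟨{⟨r - F, by omega⟩}, ?_, fun t _ ht => ?_⟩
        · simp only [Finset.sum_singleton]
          omega
        · rw [Finset.card_singleton]
          rcases Nat.eq_zero_or_pos t with h1 | h1
          · subst h1; omega
          · exact h1
    · rcases Nat.eq_zero_or_pos F with h0 | h0
      · exact ⟨∅, by simp [h0], fun t _ _ => by simp⟩
      obtain ⟨S, hS, hc⟩ := ih (F - r) (by
        have : (r + 1) * (r + 1 - 1) = r * (r - 1) + 2 * r := by
          rcases r with _ | r
          · simp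
          · simp only [Nat.add_sub_cancel]; ring
        omega)
      refine ⟨insert 0 (S.map (Fin.succEmb r)), ?_, fun t ht h2 => ?_⟩
      · rw [Finset.sum_insert (by simp [Fin.succ_ne_zero])]
        rw [Finset.sum_map]
        simp only [Fin.val_zero, Fin.coe_succEmb, Fin.val_succ]
        have h3 : ∀ i ∈ S, r + 1 - 1 - ((i : ℕ) + 1) = r - 1 - (i : ℕ) := fun i _ => by omega
        rw [Finset.sum_congr rfl h3, hS]
        omega
      · rw [Finset.card_insert_of_notMem (by simp [Fin.succ_ne_zero]), Finset.card_map]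
        rcases t with _ | t
        · omega
        · have h4 : S.card ≤ t := by
            refine hc t (by omega) ?_
            have e1 : (t + 1) * (2 * (r + 1) - 1 - (t + 1)) = t * (2 * r - 1 - t) + 2 * r := by
              obtain ⟨u, hu⟩ : ∃ u, r = t + u := ⟨r - t, by omega⟩
              subst hu
              rcases Nat.eq_zero_or_pos t with h5 | h5
              · subst h5
                simp
                omega
              · have a1 : 2 * (t + u + 1) - 1 - (t + 1) = t + 2 * u := by omega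
                have a2 : 2 * (t + u) - 1 - t = t + 2 * u - 1 := by omega
                rw [a1, a2]
                obtain ⟨v, hv⟩ : ∃ v, t + 2 * u = v + 1 := ⟨t + 2 * u - 1, by omega⟩
                rw [hv, Nat.add_sub_cancel]
                have : 2 * (t + u) = t + (v + 1) := by omega
                rw [this]
                ring
            omega
          omega

open Finset

section Flow

variable (n b x : ℕ)

/-- the residue `j x mod b` -/
def rho (j : ℕ) : ℕ := (j * x) % b
/-- `floor (j x / b)` -/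
def RR (j : ℕ) : ℕ := (j * x) / b
/-- `floor (n ρ_j / b)` -/
def cc (j : ℕ) : ℕ := (n * rho b x j) / b
/-- the size of the group `j` -/
def rr (j : ℕ) : ℕ := RR b x (j + 1) - RR b x j
/-- the number `W_j`, the floor or the ceiling of `n x / b` -/
def WW (j : ℕ) : ℕ := (j + 1) * (n * x) / b - j * (n * x) / b

theorem RR_rho (j : ℕ) : b * RR b x j + rho b x j = j * x := by
  unfold RR rho
  exact Nat.div_add_mod _ _

variable {b} (hb : 0 < b)
include hb

theorem rho_lt (j : ℕ) : rho b x j < b := Nat.mod_lt _ hb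

/-- one step -/
theorem stepR {q s : ℕ} (hx : b * q + s = x) (hs : s < b) (j : ℕ) :
    (RR b x (j + 1) = RR b x j + q ∧ rho b x (j + 1) = rho b x j + s) ∨
    (RR b x (j + 1) = RR b x j + q + 1 ∧ rho b x (j + 1) + b = rho b x j + s) := by
  have h1 := RR_rho b x j
  have h2 := RR_rho b x (j + 1)
  have h3 := rho_lt x hb j
  have h4 := rho_lt x hb (j + 1)
  have h7 : (j + 1) * x = j * x + x := by ring
  rw [h7] at h2
  rcases Nat.lt_or_ge (rho b x j + s) b with h | h
  · left
    have h8 : b * (RR b x j + q) + (rho b x j + s) = j * x + x := by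
      rw [Nat.mul_add]; omega
    have h9 : RR b x (j + 1) = RR b x j + q := by
      have e1 : RR b x (j + 1) = (j * x + x) / b := by unfold RR; rw [h7]
      rw [e1, ← h8, Nat.mul_add_div hb, Nat.div_eq_of_lt h, Nat.add_zero]
    refine ⟨h9, ?_⟩
    rw [h9] at h2
    omega
  · right
    have h8 : b * (RR b x j + q + 1) + (rho b x j + s - b) = j * x + x := by
      rw [Nat.mul_add, Nat.mul_add, Nat.mul_one]; omega
    have h9 : RR b x (j + 1) = RR b x j + q + 1 := by
      have e1 : RR b x (j + 1) = (j * x + x) / b := by unfold RR; rw [h7]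
      have e3 : rho b x j + s - b < b := by omega
      rw [e1, ← h8, Nat.mul_add_div hb, Nat.div_eq_of_lt e3, Nat.add_zero]
    refine ⟨h9, ?_⟩
    rw [h9] at h2
    omega

theorem RR_mono (j : ℕ) : RR b x j ≤ RR b x (j + 1) := by
  have h := stepR x hb (Nat.div_add_mod x b) (Nat.mod_lt x hb) j
  generalize x / b = q at h
  rcases h with ⟨h1, _⟩ | ⟨h1, _⟩
  · rw [h1]; exact Nat.le_add_right _ _
  · rw [h1, Nat.add_assoc]; exact Nat.le_add_right _ _

theorem rr_cases {q s : ℕ} (hx : b * q + s = x) (hs : s < b) (j : ℕ) :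
    (rr b x j = q ∧ s ≤ rho b x (j + 1)) ∨ (rr b x j = q + 1 ∧ rho b x (j + 1) < s) := by
  have h := rho_lt x hb j
  unfold rr
  rcases stepR x hb hx hs j with ⟨h1, h2⟩ | ⟨h1, h2⟩
  · left; omega
  · right; omega

theorem cc_lt (hn : 0 < n) (j : ℕ) : cc n b x j < n := by
  unfold cc
  rw [Nat.div_lt_iff_lt_mul hb]
  exact Nat.mul_lt_mul_of_pos_left (rho_lt x hb j) hn

theorem A_eq (j : ℕ) : j * (n * x) / b = n * RR b x j + cc n b x j := by
  have h : j * (n * x) = b * (n * RR b x j) + n * rho b x j := by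
    have := RR_rho b x j
    calc j * (n * x) = n * (j * x) := by ring
      _ = n * (b * RR b x j + rho b x j) := by rw [this]
      _ = _ := by ring
  rw [h, Nat.mul_add_div hb]
  rfl

theorem WW_cc (j : ℕ) : WW n b x j + cc n b x j = cc n b x (j + 1) + n * rr b x j := by
  unfold WW rr
  rw [A_eq n x hb, A_eq n x hb]
  have h1 : RR b x j ≤ RR b x (j + 1) := RR_mono x hb j
  have h2 : n * RR b x j + cc n b x j ≤ n * RR b x (j + 1) + cc n b x (j + 1) := by
    rw [← A_eq n x hb, ← A_eq n x hb]
    exact Nat.div_le_div_right (Nat.mul_le_mul_right _ (Nat.le_succ j))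
  have h3 : n * (RR b x (j + 1) - RR b x j) + n * RR b x j = n * RR b x (j + 1) := by
    rw [← Nat.mul_add, Nat.sub_add_cancel h1]
  omega

theorem RR_add (j : ℕ) : RR b x (j + b) = RR b x j + x := by
  unfold RR
  rw [Nat.add_mul, Nat.add_mul_div_left _ _ hb]

theorem rho_add (j : ℕ) : rho b x (j + b) = rho b x j := by
  unfold rho
  rw [Nat.add_mul, Nat.add_mul_mod_self_left]

theorem cc_add (j : ℕ) : cc n b x (j + b) = cc n b x j := by
  unfold cc
  rw [rho_add x hb]

theorem rr_add (j : ℕ) : rr b x (j + b) = rr b x j := by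
  unfold rr
  have : j + b + 1 = j + 1 + b := by omega
  rw [this, RR_add x hb, RR_add x hb]
  omega

theorem WW_add (j : ℕ) : WW n b x (j + b) = WW n b x j := by
  unfold WW
  have e1 : (j + b + 1) * (n * x) = (j + 1) * (n * x) + b * (n * x) := by ring
  have e2 : (j + b) * (n * x) = j * (n * x) + b * (n * x) := by ring
  rw [e1, e2, Nat.add_mul_div_left _ _ hb, Nat.add_mul_div_left _ _ hb]
  omega

theorem sum_rr : ∑ j ∈ range b, rr b x j = x := by
  have h : ∀ m, ∑ j ∈ range m, rr b x j = RR b x m := by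
    intro m
    induction m with
    | zero => simp [RR]
    | succ m ih =>
      rw [sum_range_succ, ih]
      unfold rr
      have := RR_mono x hb m
      omega
  rw [h]
  unfold RR
  exact Nat.mul_div_cancel_left _ hb

theorem sum_WW : ∑ j ∈ range b, WW n b x j = n * x := by
  have h : ∀ m, ∑ j ∈ range m, WW n b x j = m * (n * x) / b := by
    intro m
    induction m with
    | zero => simp
    | succ m ih =>
      rw [sum_range_succ, ih]
      unfold WW
      have : m * (n * x) / b ≤ (m + 1) * (n * x) / b :=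
        Nat.div_le_div_right (Nat.mul_le_mul_right _ (Nat.le_succ m))
      omega
  rw [h]
  exact Nat.mul_div_cancel_left _ hb

theorem WW_bounds (j : ℕ) : (n * x) / b ≤ WW n b x j ∧ b * WW n b x j < n * x + b := by
  have h1 : (j + 1) * (n * x) = j * (n * x) + n * x := by ring
  unfold WW
  rw [h1]
  have h2 := Nat.div_add_mod (j * (n * x)) b
  have h3 := Nat.div_add_mod (j * (n * x) + n * x) b
  have h4 := Nat.mod_lt (j * (n * x)) hb
  have h5 := Nat.mod_lt (j * (n * x) + n * x) hb
  have h6 : j * (n * x) / b + (n * x) / b ≤ (j * (n * x) + n * x) / b := Nat.div_add_div_le_add_div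
  refine ⟨by omega, ?_⟩
  rw [Nat.mul_sub]
  omega

end Flow

/-- **The numerical assignment.** Groups and forms are numbered by integers mod `b` (all functions have period `b`),
`x = b q + s`. `r j` = size of the group `j`; group `j` sends `F j` pairs to the form `j + 2` and
`C(r j, 2) - F j` pairs to the form `j + 1`; so the form `j + 2` receives
`F j + (C(r (j+1), 2) - F (j+1)) = W (j+2) + C(r (j+2), 2) - n r (j+2)`. -/
theorem flow (n b x q s : ℕ) (hn : 0 < n) (hx : b * q + s = x) (hs : s < b) : ∃ r F W : ℕ → ℕ,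
    (∀ j, r (j + b) = r j) ∧ (∀ j, F (j + b) = F j) ∧ (∀ j, W (j + b) = W j) ∧
    (∀ j, r j = q ∨ r j = q + 1) ∧ (∑ j ∈ range b, r j = x) ∧
    (∑ j ∈ range b, W j = n * x) ∧ (∀ j, (n * x) / b ≤ W j ∧ b * W j < n * x + b) ∧
    (∀ j, F j ≤ max (n - 1) q) ∧
    ∀ j, F j + (r (j + 1)).choose 2 + n * r (j + 2) = W (j + 2) + (r (j + 2)).choose 2 + F (j + 1) := by
  classical
  have hb : 0 < b := by omega
  let v : ℕ → ℕ := fun i => (rr b x i).choose 2 + cc n b x (i + 1)
  have vadd : ∀ i, v (i + b) = v i := by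
    intro i
    simp only [v]
    have : i + b + 1 = i + 1 + b := by omega
    rw [this, rr_add x hb, cc_add n x hb]
  have hne : (range b).Nonempty := ⟨0, mem_range.2 hb⟩
  let M : ℕ := (range b).sup' hne v
  have vmod : ∀ i, v i = v (i % b) := by
    intro i
    induction i using Nat.strong_induction_on with
    | _ i ih =>
      rcases Nat.lt_or_ge i b with h | h
      · rw [Nat.mod_eq_of_lt h]
      · have h1 := ih (i - b) (by omega)
        have h2 := vadd (i - b)
        rw [Nat.sub_add_cancel h] at h2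
        rw [h2, h1, ← Nat.mod_eq_sub_mod h]
  have vM : ∀ i, v i ≤ M := by
    intro i
    rw [vmod i]
    exact le_sup' v (mem_range.2 (Nat.mod_lt _ hb))
  have Mv : ∃ i, M = v i := by
    obtain ⟨i, _, hi⟩ := exists_mem_eq_sup' hne v
    exact ⟨i, hi⟩
  have diff : ∀ i k, v i ≤ v k + max (n - 1) q := by
    intro i k
    have c1 := cc_lt n x hb hn (i + 1)
    have m1 : n - 1 ≤ max (n - 1) q := le_max_left _ _
    have m2 : q ≤ max (n - 1) q := le_max_right _ _
    simp only [v]
    rcases rr_cases x hb hx hs i with ⟨h1, h2⟩ | ⟨h1, h2⟩ <;>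
      rcases rr_cases x hb hx hs k with ⟨h3, h4⟩ | ⟨h3, h4⟩ <;> rw [h1, h3]
    · omega
    · have : q.choose 2 ≤ (q + 1).choose 2 := Nat.choose_le_choose 2 (Nat.le_succ _)
      omega
    · have e1 : (q + 1).choose 2 = q.choose 2 + q := by
        rw [Nat.choose_succ_succ' q 1, Nat.choose_one_right]
        exact Nat.add_comm _ _
      have e2 : cc n b x (i + 1) ≤ cc n b x (k + 1) := by
        unfold cc
        exact Nat.div_le_div_right (Nat.mul_le_mul_left _ (by omega))
      omega
    · omega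
  refine ⟨rr b x, fun j => M - v (j + 1), WW n b x, rr_add x hb, ?_, WW_add n x hb, ?_, sum_rr x hb,
    sum_WW n x hb, WW_bounds n x hb, ?_, ?_⟩
  · intro j
    have : j + b + 1 = j + 1 + b := by omega
    simp only [this, vadd]
  · intro j
    rcases rr_cases x hb hx hs j with ⟨h1, _⟩ | ⟨h1, _⟩
    · exact Or.inl h1
    · exact Or.inr h1
  · intro j
    obtain ⟨i, hi⟩ := Mv
    have := diff i (j + 1)
    simp only
    omega
  · intro j
    have h1 := vM (j + 1)
    have h2 := vM (j + 2)
    have h3 := WW_cc n x hb (j + 2)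
    simp only [v] at h1 h2 ⊢
    have e1 : j + 1 + 1 = j + 2 := rfl
    have e2 : j + 2 + 1 = j + 3 := rfl
    simp only [e1, e2] at h1 h2 h3 ⊢
    omega

end Pool.Agent.WarR.N4


end

section

/-!
# MP_db021c_ag, d = 2: the windows, arithmetic   (helper4)

`CW n b x`: the numerical data of the chain (closed form `flow`) with all its side conditions.
`cw_large`: they exist for `39 ≤ n`, `7 ≤ b ≤ n + 1` and all `x` in the window
`b N(n-1) < x (n-1+b)`, `(x - 1) (n+b) ≤ b N(n)`.
-/

set_option autoImplicit false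

namespace Pool.Agent.WarR.N4

open Finset

/-- The rank condition for the form `j + 2`: `a`, `b`, `c` points in the groups `j`, `j + 1`, `j + 2`, and `F` pairs
of the group `j` go to this form. -/
def RS (n a b c F : ℕ) : Prop :=
  a + b + c ≤ n + 1 ∨ (a + c ≤ n + 1 ∧ ∃ t, t ≤ a ∧ 2 * F ≤ t * (2 * a - 1 - t) ∧ b + t + c ≤ n)

/-- the closed form -/
def vv (n b x i : ℕ) : ℕ := (rr b x i).choose 2 + cc n b x (i + 1)

section

variable (n : ℕ) {b : ℕ} (x : ℕ) (hb : 0 < b)
include hb

theorem vv_add (i : ℕ) : vv n b x (i + b) = vv n b x i := by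
  unfold vv
  have : i + b + 1 = i + 1 + b := by omega
  rw [this, rr_add x hb, cc_add n x hb]

theorem vv_mod (i : ℕ) : vv n b x i = vv n b x (i % b) := by
  induction i using Nat.strong_induction_on with
  | _ i ih =>
    rcases Nat.lt_or_ge i b with h | h
    · rw [Nat.mod_eq_of_lt h]
    · have h1 := ih (i - b) (by omega)
      have h2 := vv_add n x hb (i - b)
      rw [Nat.sub_add_cancel h] at h2
      rw [h2, h1, ← Nat.mod_eq_sub_mod h]

theorem rr_mod (i : ℕ) : rr b x i = rr b x (i % b) := by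
  induction i using Nat.strong_induction_on with
  | _ i ih =>
    rcases Nat.lt_or_ge i b with h | h
    · rw [Nat.mod_eq_of_lt h]
    · have h1 := ih (i - b) (by omega)
      have h2 := rr_add x hb (i - b)
      rw [Nat.sub_add_cancel h] at h2
      rw [h2, h1, ← Nat.mod_eq_sub_mod h]

/-- the values `vv` differ by at most `n - 1` -/
theorem vv_diff {q s : ℕ} (hn : 0 < n) (hx : b * q + s = x) (hs : s < b) (hq : q ≤ n - 1) (i k : ℕ) :
    vv n b x i ≤ vv n b x k + (n - 1) := by
  have c1 := cc_lt n x hb hn (i + 1)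
  simp only [vv]
  rcases rr_cases x hb hx hs i with ⟨h1, h2⟩ | ⟨h1, h2⟩ <;>
    rcases rr_cases x hb hx hs k with ⟨h3, h4⟩ | ⟨h3, h4⟩ <;> rw [h1, h3]
  · omega
  · have : q.choose 2 ≤ (q + 1).choose 2 := Nat.choose_le_choose 2 (Nat.le_succ _)
    omega
  · have e1 : (q + 1).choose 2 = q.choose 2 + q := by
      rw [Nat.choose_succ_succ' q 1, Nat.choose_one_right]
      exact Nat.add_comm _ _
    have e2 : cc n b x (i + 1) ≤ cc n b x (k + 1) := by
      unfold cc
      exact Nat.div_le_div_right (Nat.mul_le_mul_left _ (by omega))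
    omega
  · omega

/-- two neighbouring groups -/
theorem rr_two (j : ℕ) : b * (rr b x j + rr b x (j + 1)) < 2 * x + b := by
  have h0 := RR_mono x hb j
  have h1 := RR_mono x hb (j + 1)
  have h2 := RR_rho b x j
  have h3 := RR_rho b x (j + 2)
  have h4 := rho_lt x hb j
  have e : rr b x j + rr b x (j + 1) + RR b x j = RR b x (j + 2) := by
    unfold rr
    have e1 : j + 1 + 1 = j + 2 := rfl
    rw [e1] at h1 ⊢
    omega
  have h5 : b * (rr b x j + rr b x (j + 1)) + b * RR b x j = b * RR b x (j + 2) := by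
    rw [← Nat.mul_add, e]
  have h6 : (j + 2) * x = j * x + 2 * x := by ring
  omega

end

theorem vv_max (n b x : ℕ) (hb : 0 < b) : ∃ i, i < b ∧ ∀ j, vv n b x j ≤ vv n b x i := by
  have hne : (range b).Nonempty := ⟨0, mem_range.2 hb⟩
  obtain ⟨i, hi, hi'⟩ := exists_max_image (range b) (vv n b x) hne
  refine ⟨i, mem_range.1 hi, fun j => ?_⟩
  rw [vv_mod n x hb]
  exact hi' _ (mem_range.2 (Nat.mod_lt _ hb))

/-- the conditions for one `j`, with the upper bound `M` -/
def CJ (n b x M j : ℕ) : Prop :=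
  2 * (M - vv n b x (j + 1)) ≤ rr b x j * (rr b x j - 1) ∧
  RS n (rr b x j) (rr b x (j + 1)) (rr b x (j + 2)) (M - vv n b x (j + 1))

/-- the data of the chain for `(n, b, x)` -/
def CW (n b x : ℕ) : Prop := ∃ M, (∀ j, j < b → vv n b x j ≤ M) ∧ ∀ j, j < b → CJ n b x M j

theorem cw_large {n b x : ℕ} (hn : 39 ≤ n) (hb : 7 ≤ b) (hbn : b ≤ n + 1)
    (h1 : b * (n * (n + 1)) < 2 * (x * (n + b - 1)))
    (h2 : 2 * (x * (n + b)) ≤ b * ((n + 1) * (n + 2)) + 2 * (n + b)) : CW n b x := by
  have hb0 : 0 < b := by omega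
  obtain ⟨q, s, hx, hs⟩ : ∃ q s, b * q + s = x ∧ s < b :=
    ⟨x / b, x % b, Nat.div_add_mod x b, Nat.mod_lt x (by omega)⟩
  -- the lower bound of `q`
  have c1 : n ≤ 4 * q + 2 := by
    by_contra hcon
    push Not at hcon
    have e1 : 4 * x ≤ b * (n + 1) := by
      have : b * (4 * (q + 1)) ≤ b * (n + 1) := Nat.mul_le_mul_left _ (by omega)
      have e : b * (4 * (q + 1)) = 4 * (b * q) + 4 * b := by ring
      omega
    have e2 : x * (n + b - 1) ≤ x * (2 * n) := Nat.mul_le_mul_left _ (by omega)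
    have e3 : 2 * (x * (2 * n)) = 4 * x * n := by ring
    have e4 : 4 * x * n ≤ b * (n + 1) * n := Nat.mul_le_mul_right _ e1
    have e5 : b * (n + 1) * n = b * (n * (n + 1)) := by ring
    omega
  -- the upper bound of two groups
  have c2 : ∀ B, b * B < 2 * x + b → B + 3 ≤ n := by
    intro B hB
    by_contra hcon
    push Not at hcon
    have e1 : b * (n - 2) ≤ b * B := Nat.mul_le_mul_left _ (by omega)
    have e2 : (b * (n - 2) + 1) * (n + b) ≤ (2 * x + b) * (n + b) := Nat.mul_le_mul_right _ (by omega)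
    have e3 : (2 * x + b) * (n + b) = 2 * (x * (n + b)) + b * (n + b) := by ring
    obtain ⟨u, rfl⟩ : ∃ u, n = u + 39 := ⟨n - 39, by omega⟩
    obtain ⟨w, rfl⟩ : ∃ w, b = w + 7 := ⟨b - 7, by omega⟩
    have e4 : u + 39 - 2 = u + 37 := by omega
    rw [e4] at e2
    have e5 : ((w + 7) * (u + 37) + 1) * (u + 39 + (w + 7)) ≤
        (w + 7) * ((u + 39 + 1) * (u + 39 + 2)) + 2 * (u + 39 + (w + 7)) +
          (w + 7) * (u + 39 + (w + 7)) := by omega
    nlinarith [Nat.zero_le (w * u), Nat.zero_le (w * w * u), Nat.zero_le (w * w)]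
  have hr2 : ∀ j, rr b x j + rr b x (j + 1) + 3 ≤ n := fun j => c2 _ (rr_two x hb0 j)
  have hr : ∀ j, q ≤ rr b x j ∧ rr b x j ≤ q + 1 := fun j => by
    rcases rr_cases x hb0 hx hs j with ⟨h, _⟩ | ⟨h, _⟩ <;> omega
  have c3 : 2 * q + 3 ≤ n := by
    have a1 := hr2 0
    have a2 := hr 0
    have a3 := hr (0 + 1)
    omega
  have hq : 10 ≤ q := by omega
  obtain ⟨i, _, hi⟩ := vv_max n b x hb0
  have hF : ∀ j, vv n b x i - vv n b x (j + 1) ≤ n - 1 := fun j => by
    have := vv_diff n x hb0 (by omega) hx hs (by omega) i (j + 1)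
    omega
  refine ⟨vv n b x i, fun j _ => hi j, fun j _ => ?_⟩
  have a1 := hF j
  obtain ⟨a2, a3⟩ := hr j
  obtain ⟨b2, b3⟩ := hr (j + 1)
  obtain ⟨d2, d3⟩ := hr (j + 2)
  have a4 := hr2 (j + 1)
  have e0 : j + 1 + 1 = j + 2 := rfl
  rw [e0] at a4
  unfold CJ RS
  generalize vv n b x i - vv n b x (j + 1) = F at *
  generalize rr b x j = r at *
  generalize rr b x (j + 1) = r' at *
  generalize rr b x (j + 2) = r'' at *
  constructor
  · obtain ⟨p, rfl⟩ : ∃ p, r = p + 10 := ⟨r - 10, by omega⟩
    have e1 : p + 10 - 1 = p + 9 := by omega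
    rw [e1]
    have e2 : (p + 10) * (p + 9) = p * p + 19 * p + 90 := by ring
    have e3 : 0 ≤ p * p := Nat.zero_le _
    omega
  · rcases Nat.lt_or_ge (n + 1) (3 * q + 3) with h | h
    · right
      refine ⟨by omega, ?_⟩
      rcases Nat.lt_or_ge (3 * q) (n + 5) with h' | h'
      · exact ⟨4, by omega, by omega, by omega⟩
      · exact ⟨3, by omega, by omega, by omega⟩
    · left
      omega

end Pool.Agent.WarR.N4


end

section

/-!
# MP_db021c_ag, d = 2: the windows for `32 ≤ n ≤ 38`, by the kernel   (helper4)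
-/

set_option autoImplicit false

namespace Pool.Agent.WarR.N4

open Finset

/-- for the kernel -/
def allN (p : ℕ → Bool) : ℕ → Bool
  | 0 => true
  | k + 1 => p k && allN p k

theorem allN_spec {p : ℕ → Bool} : ∀ {m : ℕ}, allN p m = true → ∀ j, j < m → p j = true
  | 0, _, j, hj => absurd hj (Nat.not_lt_zero j)
  | m + 1, h, j, hj => by
    rw [allN, Bool.and_eq_true] at h
    rcases Nat.lt_succ_iff_lt_or_eq.1 hj with h1 | h1
    · exact allN_spec h.2 j h1
    · rw [h1]
      exact h.1

/-- the maximum -/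
def mxN (f : ℕ → ℕ) : ℕ → ℕ
  | 0 => 0
  | k + 1 => if f k ≤ mxN f k then mxN f k else f k

theorem mxN_spec {f : ℕ → ℕ} : ∀ {m : ℕ} (j : ℕ), j < m → f j ≤ mxN f m
  | 0, j, hj => absurd hj (Nat.not_lt_zero j)
  | m + 1, j, hj => by
    rw [mxN]
    rcases Nat.lt_succ_iff_lt_or_eq.1 hj with h1 | h1
    · have := mxN_spec (f := f) j h1
      split_ifs with h
      · exact this
      · omega
    · subst h1
      split_ifs with h
      · exact h
      · exact le_rfl

/-- `rr` for the kernel -/
def rk (b x i : ℕ) : ℕ := (i + 1) * x / b - i * x / b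

/-- `vv` for the kernel -/
def vk (n b x i : ℕ) : ℕ := rk b x i * (rk b x i - 1) / 2 + n * ((i + 1) * x % b) / b

theorem rk_eq (b x i : ℕ) : rk b x i = rr b x i := rfl

theorem vk_eq (n b x i : ℕ) : vk n b x i = vv n b x i := by
  unfold vk vv
  rw [Nat.choose_two_right, rk_eq]
  rfl

/-- the rank condition for the kernel -/
def rsk (n a b c F : ℕ) : Bool :=
  Nat.ble (a + b + c) (n + 1) ||
    (Nat.ble (a + c) (n + 1) && (Nat.ble (b + c) n &&
      Nat.ble (2 * F) (Nat.min a (n - b - c) * (2 * a - 1 - Nat.min a (n - b - c)))))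

theorem rsk_spec {n a b c F : ℕ} (h : rsk n a b c F = true) : RS n a b c F := by
  unfold rsk at h
  simp only [Bool.and_eq_true, Bool.or_eq_true, Nat.ble_eq] at h
  unfold RS
  rcases h with h2 | ⟨h2, h3, h4⟩
  · exact Or.inl h2
  · refine Or.inr ⟨h2, _, Nat.min_le_left _ _, h4, ?_⟩
    have := Nat.min_le_right a (n - b - c)
    change b + min a (n - b - c) + _ ≤ _
    omega

/-- the check for one `j` -/
def cj (n b x M j : ℕ) : Bool :=
  Nat.ble (2 * (M - vk n b x (j + 1))) (rk b x j * (rk b x j - 1)) &&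
    rsk n (rk b x j) (rk b x (j + 1)) (rk b x (j + 2)) (M - vk n b x (j + 1))

theorem cj_spec {n b x M j : ℕ} (h : cj n b x M j = true) : CJ n b x M j := by
  unfold cj at h
  rw [Bool.and_eq_true] at h
  have h1 := rsk_spec h.2
  have h2 := h.1
  rw [Nat.ble_eq] at h2
  simp only [vk_eq, rk_eq] at h1 h2
  exact ⟨h2, h1⟩

/-- the check for one triple -/
def okW (n b x : ℕ) : Bool := allN (cj n b x (mxN (vk n b x) b)) b

theorem okW_spec {n b x : ℕ} (h : okW n b x = true) : CW n b x := by
  refine ⟨mxN (vk n b x) b, fun j hj => ?_, fun j hj => ?_⟩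
  · rw [← vk_eq]
    exact mxN_spec j hj
  · exact cj_spec (allN_spec h j hj)

/-- lower end of the window -/
def loW (n b : ℕ) : ℕ := b * (n * (n + 1)) / (2 * (n + b - 1)) + 1

/-- upper end of the window -/
def hiW (n b : ℕ) : ℕ := (b * ((n + 1) * (n + 2)) + 2 * (n + b)) / (2 * (n + b))

theorem mem_win {n b x : ℕ} (hn : 1 ≤ n) (hb : 1 ≤ b) (h1 : b * (n * (n + 1)) < 2 * (x * (n + b - 1)))
    (h2 : 2 * (x * (n + b)) ≤ b * ((n + 1) * (n + 2)) + 2 * (n + b)) :
    loW n b ≤ x ∧ x ≤ hiW n b := by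
  constructor
  · unfold loW
    rw [Nat.succ_le_iff, Nat.div_lt_iff_lt_mul (by omega)]
    calc _ < _ := h1
      _ = _ := by ring
  · unfold hiW
    rw [Nat.le_div_iff_mul_le (by omega)]
    have : x * (2 * (n + b)) = 2 * (x * (n + b)) := by ring
    omega

/-- all `x` of the window of `(n, b)`, except the `x` with `ex` -/
def okB (ex : ℕ → ℕ → Bool) (n b : ℕ) : Bool :=
  allN (fun k => ex b (loW n b + k) || okW n b (loW n b + k)) (hiW n b + 1 - loW n b)

/-- all `b` with `lo ≤ b < lo + m` -/
def okN (ex : ℕ → ℕ → Bool) (n lo m : ℕ) : Bool := allN (fun k => okB ex n (lo + k)) m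

theorem okN_spec {ex : ℕ → ℕ → Bool} {n lo m : ℕ} (h : okN ex n lo m = true) {b x : ℕ} (hn : 1 ≤ n)
    (hb : 1 ≤ b) (hlo : lo ≤ b) (hm : b < lo + m) (h1 : b * (n * (n + 1)) < 2 * (x * (n + b - 1)))
    (h2 : 2 * (x * (n + b)) ≤ b * ((n + 1) * (n + 2)) + 2 * (n + b)) (hex : ex b x = false) :
    CW n b x := by
  have k1 := allN_spec h (b - lo) (by omega)
  rw [show lo + (b - lo) = b by omega] at k1
  obtain ⟨w1, w2⟩ := mem_win hn hb h1 h2
  have k2 := allN_spec k1 (x - loW n b) (by omega)
  rw [show loW n b + (x - loW n b) = x by omega, hex, Bool.false_or] at k2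
  exact okW_spec k2

/-- no exceptions -/
def ex0 (_ _ : ℕ) : Bool := false

theorem k32 : okN ex0 32 7 27 = true := by decide +kernel

theorem k33 : okN ex0 33 7 28 = true := by decide +kernel

theorem k34 : okN ex0 34 7 29 = true := by decide +kernel

theorem k35 : okN ex0 35 7 30 = true := by decide +kernel

theorem k36 : okN ex0 36 7 31 = true := by decide +kernel

theorem k37 : okN ex0 37 7 32 = true := by decide +kernel

theorem k38 : okN ex0 38 7 33 = true := by decide +kernel

/-- **The windows for `32 ≤ n ≤ 38`.** -/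
theorem cw_small {n b x : ℕ} (hn : 32 ≤ n) (hn' : n ≤ 38) (hb : 7 ≤ b) (hbn : b ≤ n + 1)
    (h1 : b * (n * (n + 1)) < 2 * (x * (n + b - 1)))
    (h2 : 2 * (x * (n + b)) ≤ b * ((n + 1) * (n + 2)) + 2 * (n + b)) : CW n b x := by
  obtain rfl | rfl | rfl | rfl | rfl | rfl | rfl :
      n = 32 ∨ n = 33 ∨ n = 34 ∨ n = 35 ∨ n = 36 ∨ n = 37 ∨ n = 38 := by omega
  · exact okN_spec k32 (by omega) (by omega) hb (by omega) h1 h2 rfl
  · exact okN_spec k33 (by omega) (by omega) hb (by omega) h1 h2 rfl
  · exact okN_spec k34 (by omega) (by omega) hb (by omega) h1 h2 rfl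
  · exact okN_spec k35 (by omega) (by omega) hb (by omega) h1 h2 rfl
  · exact okN_spec k36 (by omega) (by omega) hb (by omega) h1 h2 rfl
  · exact okN_spec k37 (by omega) (by omega) hb (by omega) h1 h2 rfl
  · exact okN_spec k38 (by omega) (by omega) hb (by omega) h1 h2 rfl

end Pool.Agent.WarR.N4


end
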