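import Mathlib

/-! Parts: War.Tool, War.Pol, War.Stmts, War.Hor, War.WAH, WarS.Stmts, WarQ.Stmts -/

section

/-!
# Simultaneous Waring decompositions (MP_db021c_ag): toolkit   (helper46)

Functions polynomial along lines, generic properties, families of subspaces cut out by functionals
depending polynomially on a parameter, semicontinuity, general members of a family of functionals.
-/

set_option autoImplicit false

open Module

namespace Pool.Agent.War

section LP

variable {K : Type*} [Field K] {X Y : Type*} [AddCommGroup X] [Module K X] [AddCommGroup Y]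
  [Module K Y]

/-- functions which are polynomial along every line -/
def LP (F : X → K) : Prop :=
  ∀ x y : X, ∃ p : Polynomial K, ∀ t : K, F (x + t • y) = p.eval t

theorem LP.const (c : K) : LP (fun _ : X => c) := fun _ _ => ⟨Polynomial.C c, by simp⟩

theorem LP.add {F G : X → K} (hF : LP F) (hG : LP G) : LP fun x => F x + G x := by
  intro x y
  obtain ⟨p, hp⟩ := hF x y
  obtain ⟨q, hq⟩ := hG x y
  exact ⟨p + q, fun t => by simp [hp, hq]⟩

theorem LP.mul {F G : X → K} (hF : LP F) (hG : LP G) : LP fun x => F x * G x := by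
  intro x y
  obtain ⟨p, hp⟩ := hF x y
  obtain ⟨q, hq⟩ := hG x y
  exact ⟨p * q, fun t => by simp [hp, hq]⟩

theorem LP.sum {ι : Type*} (s : Finset ι) {F : ι → X → K} (hF : ∀ i ∈ s, LP (F i)) :
    LP fun x => ∑ i ∈ s, F i x := by
  classical
  induction s using Finset.induction_on with
  | empty => simpa using LP.const (X := X) (0 : K)
  | insert a s ha ih =>
    simp only [Finset.sum_insert ha]
    exact (hF a (by simp)).add (ih fun i hi => hF i (by simp [hi]))

theorem LP.prod {ι : Type*} (s : Finset ι) {F : ι → X → K} (hF : ∀ i ∈ s, LP (F i)) :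
    LP fun x => ∏ i ∈ s, F i x := by
  classical
  induction s using Finset.induction_on with
  | empty => simpa using LP.const (X := X) (1 : K)
  | insert a s ha ih =>
    simp only [Finset.prod_insert ha]
    exact (hF a (by simp)).mul (ih fun i hi => hF i (by simp [hi]))

theorem LP.linear (φ : X →ₗ[K] K) : LP fun x => φ x := by
  intro x y
  refine ⟨Polynomial.C (φ x) + Polynomial.C (φ y) * Polynomial.X, fun t => ?_⟩
  change φ (x + t • y) = _
  rw [map_add, map_smul, smul_eq_mul, Polynomial.eval_add, Polynomial.eval_mul,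
    Polynomial.eval_C, Polynomial.eval_C, Polynomial.eval_X, mul_comm]

theorem LP.comp_affine {F : X → K} (hF : LP F) (L : Y →ₗ[K] X) (c : X) :
    LP fun y => F (L y + c) := by
  intro x y
  obtain ⟨p, hp⟩ := hF (L x + c) (L y)
  refine ⟨p, fun t => ?_⟩
  rw [← hp]
  change F (L (x + t • y) + c) = _
  congr 1
  rw [map_add, map_smul, add_right_comm]

theorem LP.comp_linear {F : X → K} (hF : LP F) (L : Y →ₗ[K] X) : LP fun y => F (L y) := by
  simpa using hF.comp_affine L 0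

/-- evaluation of a polynomial at a point with `LP` coordinates -/
theorem LP.eval {σ : Type*} (f : MvPolynomial σ K) {Z : σ → X → K} (hZ : ∀ k, LP (Z k)) :
    LP fun x => MvPolynomial.eval (fun k => Z k x) f := by
  induction f using MvPolynomial.induction_on with
  | C a => simpa using LP.const a
  | add p q hp hq => simpa using hp.add hq
  | mul_X p k hp => simpa using hp.mul (hZ k)

theorem LP.det {n : Type*} [Fintype n] [DecidableEq n] {M : X → Matrix n n K}
    (hM : ∀ i j, LP fun x => M x i j) : LP fun x => (M x).det := by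
  simp only [Matrix.det_apply']
  refine LP.sum _ fun σ _ => ?_
  exact (LP.const _).mul (LP.prod _ fun i _ => hM _ _)

end LP

section Gen

variable (K : Type*) [Field K] {X Y : Type*} [AddCommGroup X] [Module K X] [AddCommGroup Y]
  [Module K Y]

/-- generic properties: true where some nonzero `LP` function does not vanish -/
def Gen (P : X → Prop) : Prop :=
  ∃ F : X → K, LP F ∧ (∃ x, F x ≠ 0) ∧ ∀ x, F x ≠ 0 → P x

variable {K}

theorem Gen.exists {P : X → Prop} (h : Gen K P) : ∃ x, P x := by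
  obtain ⟨F, -, ⟨x, hx⟩, hF⟩ := h
  exact ⟨x, hF x hx⟩

theorem Gen.mono {P Q : X → Prop} (h : Gen K P) (hPQ : ∀ x, P x → Q x) : Gen K Q := by
  obtain ⟨F, h1, h2, h3⟩ := h
  exact ⟨F, h1, h2, fun x hx => hPQ x (h3 x hx)⟩

theorem Gen.true : Gen K (fun _ : X => True) :=
  ⟨fun _ => 1, LP.const 1, ⟨0, one_ne_zero⟩, fun _ _ => trivial⟩

theorem Gen.of_forall {P : X → Prop} (h : ∀ x, P x) : Gen K P := Gen.true.mono fun x _ => h x

theorem Gen.and [Infinite K] {P Q : X → Prop} (hP : Gen K P) (hQ : Gen K Q) :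
    Gen K fun x => P x ∧ Q x := by
  obtain ⟨F, F1, ⟨x, hx⟩, F3⟩ := hP
  obtain ⟨G, G1, ⟨y, hy⟩, G3⟩ := hQ
  refine ⟨fun z => F z * G z, F1.mul G1, ?_, fun z hz => ⟨F3 z (left_ne_zero_of_mul hz),
    G3 z (right_ne_zero_of_mul hz)⟩⟩
  obtain ⟨p, hp⟩ := F1 x (y - x)
  obtain ⟨q, hq⟩ := G1 x (y - x)
  have hp0 : p ≠ 0 := by
    rintro rfl
    have := hp 0
    simp at this
    exact hx this
  have hq0 : q ≠ 0 := by
    rintro rfl
    have := hq 1
    simp at this
    exact hy this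
  obtain ⟨t, ht⟩ : ∃ t, (p * q).eval t ≠ 0 := by
    by_contra hc
    push Not at hc
    exact mul_ne_zero hp0 hq0 (Polynomial.funext fun t => by simpa using hc t)
  refine ⟨x + t • (y - x), ?_⟩
  change F (x + t • (y - x)) * G (x + t • (y - x)) ≠ 0
  rw [hp, hq, ← Polynomial.eval_mul]
  exact ht

theorem Gen.finset [Infinite K] {ι : Type*} (s : Finset ι) {P : ι → X → Prop}
    (h : ∀ i ∈ s, Gen K (P i)) : Gen K fun x => ∀ i ∈ s, P i x := by
  classical
  induction s using Finset.induction_on with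
  | empty => exact Gen.of_forall (by simp)
  | insert a s ha ih =>
    refine ((h a (by simp)).and (ih fun i hi => h i (by simp [hi]))).mono ?_
    rintro x ⟨h1, h2⟩ i hi
    rcases Finset.mem_insert.1 hi with rfl | hi
    · exact h1
    · exact h2 i hi

theorem Gen.forall [Infinite K] {ι : Type*} [Finite ι] {P : ι → X → Prop}
    (h : ∀ i, Gen K (P i)) : Gen K fun x => ∀ i, P i x := by
  cases nonempty_fintype ι
  exact (Gen.finset Finset.univ fun i _ => h i).mono fun x hx i => hx i (Finset.mem_univ i)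

theorem Gen.comp {P : X → Prop} (h : Gen K P) (L : Y →ₗ[K] X) (hL : Function.Surjective L) :
    Gen K fun y => P (L y) := by
  obtain ⟨F, h1, ⟨x, hx⟩, h3⟩ := h
  obtain ⟨y, rfl⟩ := hL x
  exact ⟨fun y => F (L y), h1.comp_linear L, ⟨y, hx⟩, fun y hy => h3 _ hy⟩

/-- nonvanishing of an `LP` function -/
theorem Gen.ne {F : X → K} (hF : LP F) (x : X) (hx : F x ≠ 0) : Gen K fun x => F x ≠ 0 :=
  ⟨F, hF, ⟨x, hx⟩, fun _ h => h⟩

end Gen

section PK

variable {K : Type*} [Field K] {X Y : Type*} [AddCommGroup X] [Module K X] [AddCommGroup Y]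
  [Module K Y] {V : Type*} [AddCommGroup V] [Module K V]

/-- families of subspaces cut out by finitely many functionals depending polynomially on the
parameter -/
def PK (Z : X → Submodule K V) : Prop :=
  ∃ (ι : Type) (_ : Fintype ι) (φ : ι → X → V →ₗ[K] K),
    (∀ i v, LP fun x => φ i x v) ∧ ∀ x v, v ∈ Z x ↔ ∀ i, φ i x v = 0

theorem PK.inf {Z W : X → Submodule K V} (hZ : PK Z) (hW : PK W) : PK fun x => Z x ⊓ W x := by
  obtain ⟨ι, _, φ, h1, h2⟩ := hZ
  obtain ⟨κ, _, ψ, k1, k2⟩ := hW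
  refine ⟨ι ⊕ κ, inferInstance, Sum.elim φ ψ, ?_, fun x v => ?_⟩
  · rintro (i | i) v
    · exact h1 i v
    · exact k1 i v
  · rw [Submodule.mem_inf, h2, k2]
    simp

theorem PK.top : PK fun _ : X => (⊤ : Submodule K V) :=
  ⟨Empty, inferInstance, fun i => i.elim, fun i => i.elim, fun x v => by simp⟩

theorem PK.iInf {α : Type} [Finite α] {Z : α → X → Submodule K V} (hZ : ∀ a, PK (Z a)) :
    PK fun x => ⨅ a, Z a x := by
  cases nonempty_fintype α
  choose ι hι φ h1 h2 using hZ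
  refine ⟨(a : α) × ι a, inferInstance, fun p => φ p.1 p.2, fun p v => h1 p.1 p.2 v,
    fun x v => ?_⟩
  rw [Submodule.mem_iInf]
  constructor
  · rintro h ⟨a, i⟩
    exact (h2 a x v).1 (h a) i
  · intro h a
    exact (h2 a x v).2 fun i => h ⟨a, i⟩

theorem PK.one {φ : X → V →ₗ[K] K} (h : ∀ v, LP fun x => φ x v) :
    PK fun x => LinearMap.ker (φ x) :=
  ⟨Unit, inferInstance, fun _ => φ, fun _ => h, fun x v => by simp⟩

theorem PK.comp {Z : X → Submodule K V} (hZ : PK Z) (L : Y →ₗ[K] X) : PK fun y => Z (L y) := by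
  obtain ⟨ι, _, φ, h1, h2⟩ := hZ
  exact ⟨ι, inferInstance, fun i y => φ i (L y), fun i v => (h1 i v).comp_linear L,
    fun y v => h2 (L y) v⟩

theorem PK.comp_affine {Z : X → Submodule K V} (hZ : PK Z) (L : Y →ₗ[K] X) (c : X) :
    PK fun y => Z (L y + c) := by
  obtain ⟨ι, _, φ, h1, h2⟩ := hZ
  exact ⟨ι, inferInstance, fun i y => φ i (L y + c), fun i v => (h1 i v).comp_affine L c,
    fun y v => h2 (L y + c) v⟩

theorem PK.comap {V' : Type*} [AddCommGroup V'] [Module K V'] {Z : X → Submodule K V}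
    (hZ : PK Z) (A : V' →ₗ[K] V) : PK fun x => (Z x).comap A := by
  obtain ⟨ι, _, φ, h1, h2⟩ := hZ
  exact ⟨ι, inferInstance, fun i x => (φ i x).comp A, fun i v => h1 i (A v),
    fun x v => by rw [Submodule.mem_comap, h2]; rfl⟩

theorem PK.congr {Z W : X → Submodule K V} (hZ : PK Z) (h : ∀ x, Z x = W x) : PK W := by
  have : W = Z := funext fun x => (h x).symm
  rw [this]; exact hZ

/-- injectivity is a generic property -/
theorem PK.gen_bot [FiniteDimensional K V] {Z : X → Submodule K V} (hZ : PK Z) {x₀ : X}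
    (h0 : Z x₀ = ⊥) : Gen K fun x => Z x = ⊥ := by
  classical
  obtain ⟨ι, _, φ, h1, h2⟩ := hZ
  set A : X → V →ₗ[K] (ι → K) := fun x => LinearMap.pi fun i => φ i x with hA
  have hker : ∀ x, LinearMap.ker (A x) = Z x := by
    intro x
    ext v
    rw [LinearMap.mem_ker, h2]
    exact ⟨fun h i => congrFun h i, fun h => funext h⟩
  obtain ⟨L, hL⟩ := (A x₀).exists_leftInverse_of_injective ((hker x₀).trans h0)
  let b := Module.finBasis K V
  refine ⟨fun x => (LinearMap.toMatrix b b (L ∘ₗ A x)).det, LP.det fun i j => ?_, ⟨x₀, ?_⟩,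
    fun x hx => ?_⟩
  · simp only [LinearMap.toMatrix_apply, LinearMap.comp_apply]
    have e : ∀ x, b.repr (L (A x (b j))) i = ∑ k, (φ k x (b j)) * b.repr (L (Pi.single k 1)) i := by
      intro x
      have : A x (b j) = ∑ k, (φ k x (b j)) • (Pi.single k (1 : K) : ι → K) := by
        ext k
        simp [hA, Finset.sum_apply, Pi.single_apply]
      rw [this]
      simp [map_sum, Finsupp.finsetSum_apply]
    simp only [e]
    exact LP.sum _ fun k _ => (h1 k _).mul (LP.const _)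
  · simp only
    rw [hL, LinearMap.toMatrix_id, Matrix.det_one]
    exact one_ne_zero
  · simp only [LinearMap.det_toMatrix] at hx
    change Z x = ⊥
    rw [← hker x, LinearMap.ker_eq_bot']
    intro v hv
    have hinj : LinearMap.ker (L ∘ₗ A x) = ⊥ := by
      by_contra hne
      exact hx (LinearMap.det_eq_zero_iff_ker_ne_bot.2 hne)
    have : (L ∘ₗ A x) v = 0 := by simp [hv]
    have hv' : v ∈ LinearMap.ker (L ∘ₗ A x) := this
    rw [hinj] at hv'
    simpa using hv'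

/-- semicontinuity of the dimension -/
theorem PK.gen_finrank [FiniteDimensional K V] {Z : X → Submodule K V} (hZ : PK Z) {x₀ : X} {k : ℕ}
    (h0 : finrank K (Z x₀) ≤ k) : Gen K fun x => finrank K (Z x) ≤ k := by
  obtain ⟨C, hC⟩ := Submodule.exists_isCompl (Z x₀)
  have h1 : PK fun x => (Z x).comap C.subtype := hZ.comap _
  have h2 : (Z x₀).comap C.subtype = ⊥ := by
    rw [← Submodule.disjoint_iff_comap_eq_bot]
    exact hC.symm.disjoint
  refine (h1.gen_bot h2).mono fun x hx => ?_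
  rw [← Submodule.disjoint_iff_comap_eq_bot] at hx
  have h3 := Submodule.finrank_add_finrank_le_of_disjoint hx
  have h4 := Submodule.finrank_add_eq_of_isCompl hC
  omega

end PK

section RED

variable {K : Type*} [Field K] {V : Type*} [AddCommGroup V] [Module K V] [FiniteDimensional K V]
  {Y : Type*}

/-- general members of a family of functionals lower the dimension by one -/
theorem red (Ω : Y → V →ₗ[K] K) (W W' : Submodule K V)
    (h : ∀ w ∈ W, w ∉ W' → ∃ y, Ω y w ≠ 0) (k : ℕ) [Nonempty Y] :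
    ∃ y : Fin k → Y, finrank K ↥(W ⊓ ⨅ i, LinearMap.ker (Ω (y i))) ≤
      max (finrank K W - k) (finrank K W') := by
  induction k with
  | zero =>
    refine ⟨fun i => i.elim0, le_max_of_le_left ?_⟩
    exact Submodule.finrank_mono inf_le_left
  | succ k ih =>
    obtain ⟨y, hy⟩ := ih
    set U := W ⊓ ⨅ i, LinearMap.ker (Ω (y i)) with hU
    by_cases hUW : U ≤ W'
    · refine ⟨Fin.cons (Classical.arbitrary Y) y, le_max_of_le_right ?_⟩
      refine (Submodule.finrank_mono ?_).trans (Submodule.finrank_mono hUW)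
      refine inf_le_inf_left _ (le_iInf fun i => ?_)
      exact (iInf_le _ i.succ).trans (by simp)
    · obtain ⟨w, hwU, hwW⟩ := SetLike.not_le_iff_exists.1 hUW
      obtain ⟨y₀, hy₀⟩ := h w hwU.1 hwW
      refine ⟨Fin.cons y₀ y, ?_⟩
      have hlt : finrank K ↥(W ⊓ ⨅ i : Fin (k + 1), LinearMap.ker (Ω ((Fin.cons y₀ y : Fin (k + 1) → Y) i)))
          < finrank K U := by
        refine Submodule.finrank_lt_finrank_of_lt (lt_of_le_of_ne ?_ ?_)
        · refine inf_le_inf_left _ (le_iInf fun i => ?_)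
          exact (iInf_le _ i.succ).trans (by simp)
        · intro he
          rw [← he] at hwU
          have := (Submodule.mem_iInf _).1 hwU.2 0
          simp at this
          exact hy₀ this
      rcases le_total (finrank K W - k) (finrank K W') with h1 | h1
      · rw [max_eq_right h1] at hy
        exact le_max_of_le_right (by omega)
      · rw [max_eq_left h1] at hy
        exact le_max_of_le_left (by omega)

/-- rank-nullity for subspaces -/
theorem finrank_le_map_add_ker {V' : Type*} [AddCommGroup V'] [Module K V'] (ρ : V →ₗ[K] V')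
    (Z : Submodule K V) :
    finrank K Z ≤ finrank K (Z.map ρ) + finrank K ↥(Z ⊓ LinearMap.ker ρ) := by
  have h := (ρ.domRestrict Z).finrank_range_add_finrank_ker
  have h1 : LinearMap.range (ρ.domRestrict Z) = Z.map ρ := by
    rw [LinearMap.domRestrict, LinearMap.range_comp, Submodule.range_subtype]
  have h2 : finrank K (LinearMap.ker (ρ.domRestrict Z)) = finrank K ↥(Z ⊓ LinearMap.ker ρ) := by
    have e : LinearMap.ker (ρ.domRestrict Z) = (LinearMap.ker ρ).comap Z.subtype := by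
      ext v; simp
    rw [e]
    have h3 := (Submodule.comapSubtypeEquivOfLe (p := Z ⊓ LinearMap.ker ρ) (q := Z) inf_le_left)
    have h4 : (LinearMap.ker ρ).comap Z.subtype = (Z ⊓ LinearMap.ker ρ).comap Z.subtype := by
      ext v; simp
    rw [h4, h3.finrank_eq]
  rw [h1] at h
  omega

end RED

end Pool.Agent.War


end

section

/-!
# Simultaneous Waring decompositions (MP_db021c_ag): polynomials of bounded degree   (helper46)

`Pol n d`: polynomials of total degree `≤ d` in `n` variables over `ℂ`; the restriction to the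
hyperplane `x₀ = 0` and its kernel.
-/

set_option autoImplicit false

open Module MvPolynomial

namespace Pool.Agent.War

/-- number of monomials of degree `≤ d` in `n` variables -/
abbrev NN (n d : ℕ) : ℕ := (n + d).choose n

/-- polynomials of degree `≤ d` in `n` variables -/
noncomputable abbrev Pol (n d : ℕ) : Submodule ℂ (MvPolynomial (Fin n) ℂ) := restrictTotalDegree (Fin n) ℂ d

theorem mem_Pol {n d : ℕ} {f : MvPolynomial (Fin n) ℂ} : f ∈ Pol n d ↔ f.totalDegree ≤ d :=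
  mem_restrictTotalDegree _ _ _

theorem NN_zero_right (n : ℕ) : NN n 0 = 1 := by simp [NN]

theorem NN_zero_left (d : ℕ) : NN 0 d = 1 := by simp [NN]

theorem NN_succ (n d : ℕ) : NN (n + 1) (d + 1) = NN n (d + 1) + NN (n + 1) d := by
  unfold NN
  rw [show n + 1 + (d + 1) = (n + d + 1) + 1 by ring, Nat.choose_succ_succ,
    show n + (d + 1) = n + d + 1 by ring, show n + 1 + d = n + d + 1 by ring]

theorem NN_pos (n d : ℕ) : 0 < NN n d := Nat.choose_pos (by omega)

theorem NN_mono_right {n d d' : ℕ} (h : d ≤ d') : NN n d ≤ NN n d' :=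
  Nat.choose_le_choose _ (by omega)

theorem NN_one (d : ℕ) : NN 1 d = d + 1 := by simp [NN]; ring

theorem NN_right_one (n : ℕ) : NN n 1 = n + 1 := by simp [NN]

/-! ### restriction to the hyperplane `x₀ = 0` -/

/-- restriction to `x₀ = 0` -/
noncomputable def res (n : ℕ) : MvPolynomial (Fin (n + 1)) ℂ →ₐ[ℂ] MvPolynomial (Fin n) ℂ :=
  aeval (Fin.cons 0 X : Fin (n + 1) → MvPolynomial (Fin n) ℂ)

theorem res_X_zero (n : ℕ) : res n (X 0) = 0 := by simp [res]

theorem res_X_succ (n : ℕ) (i : Fin n) : res n (X i.succ) = X i := by simp [res]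

theorem res_C (n : ℕ) (c : ℂ) : res n (C c) = C c := by simp [res]

/-- point of the hyperplane -/
def hp {n : ℕ} (z : Fin n → ℂ) : Fin (n + 1) → ℂ := Fin.cons 0 z

@[simp] theorem hp_zero {n : ℕ} (z : Fin n → ℂ) : hp z 0 = 0 := rfl

@[simp] theorem hp_succ {n : ℕ} (z : Fin n → ℂ) (i : Fin n) : hp z i.succ = z i := rfl

theorem eval_hp {n : ℕ} (z : Fin n → ℂ) (f : MvPolynomial (Fin (n + 1)) ℂ) :
    eval (hp z) f = eval z (res n f) := by
  induction f using MvPolynomial.induction_on with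
  | C a => simp [res_C]
  | add p q hp hq => simp [hp, hq]
  | mul_X p k hp =>
    refine Fin.cases ?_ (fun i => ?_) k
    · simp [res_X_zero]
    · simp [res_X_succ, hp]

theorem res_pderiv {n : ℕ} (i : Fin n) (f : MvPolynomial (Fin (n + 1)) ℂ) :
    res n (pderiv i.succ f) = pderiv i (res n f) := by
  induction f using MvPolynomial.induction_on with
  | C a => simp [res_C]
  | add p q hp hq => simp [hp, hq]
  | mul_X p k hp =>
    refine Fin.cases ?_ (fun j => ?_) k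
    · simp [res_X_zero, Derivation.leibniz, hp, pderiv_X_of_ne (Fin.succ_ne_zero i).symm]
    · by_cases hij : j = i
      · subst hij
        simp [res_X_succ, Derivation.leibniz, hp]
      · have h1 : j.succ ≠ i.succ := fun h => hij (Fin.succ_injective _ h)
        simp [res_X_succ, Derivation.leibniz, hp, pderiv_X_of_ne hij, pderiv_X_of_ne h1]

theorem eval_hp_pderiv {n : ℕ} (z : Fin n → ℂ) (i : Fin n) (f : MvPolynomial (Fin (n + 1)) ℂ) :
    eval (hp z) (pderiv i.succ f) = eval z (pderiv i (res n f)) := by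
  rw [eval_hp, res_pderiv]

theorem res_eq_coeff {n : ℕ} (f : MvPolynomial (Fin (n + 1)) ℂ) :
    res n f = (finSuccEquiv ℂ n f).coeff 0 := by
  have h : (Polynomial.constantCoeff : Polynomial (MvPolynomial (Fin n) ℂ) →+* _).comp
      (finSuccEquiv ℂ n : MvPolynomial (Fin (n + 1)) ℂ →+* _) = (res n : _ →+* _) := by
    apply MvPolynomial.ringHom_ext
    · intro r
      simp [finSuccEquiv_apply, res_C]
    · intro i
      refine Fin.cases ?_ (fun j => ?_) i
      · simp [finSuccEquiv_X_zero, res_X_zero]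
      · simp [finSuccEquiv_X_succ, res_X_succ]
  have := congrArg (fun g => g f) h
  simpa using this.symm

theorem res_totalDegree_le {n : ℕ} (f : MvPolynomial (Fin (n + 1)) ℂ) :
    (res n f).totalDegree ≤ f.totalDegree := by
  rw [res_eq_coeff]
  by_cases h : (finSuccEquiv ℂ n f).coeff 0 = 0
  · rw [h]; simp
  · have := totalDegree_coeff_finSuccEquiv_add_le f 0 h
    omega

theorem exists_of_res_eq_zero {n : ℕ} {f : MvPolynomial (Fin (n + 1)) ℂ} (h : res n f = 0) :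
    ∃ g, f = X 0 * g := by
  rw [res_eq_coeff] at h
  obtain ⟨q, hq⟩ := Polynomial.X_dvd_iff.2 h
  refine ⟨(finSuccEquiv ℂ n).symm q, ?_⟩
  apply (finSuccEquiv ℂ n).injective
  rw [map_mul, finSuccEquiv_X_zero, AlgEquiv.apply_symm_apply, hq]

theorem totalDegree_X_mul {n : ℕ} {g : MvPolynomial (Fin (n + 1)) ℂ} (hg : g ≠ 0) :
    (X 0 * g).totalDegree = g.totalDegree + 1 := by
  rw [totalDegree_mul_of_isDomain (X_ne_zero 0) hg, totalDegree_X, add_comm]

/-- kernel of the restriction -/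
theorem exists_of_res {n d : ℕ} {f : MvPolynomial (Fin (n + 1)) ℂ} (hf : f.totalDegree ≤ d + 1)
    (h : res n f = 0) : ∃ g, g.totalDegree ≤ d ∧ f = X 0 * g := by
  obtain ⟨g, rfl⟩ := exists_of_res_eq_zero h
  by_cases hg : g = 0
  · exact ⟨0, by simp, by simp [hg]⟩
  · rw [totalDegree_X_mul hg] at hf
    exact ⟨g, by omega, rfl⟩

/-- restriction as a linear map of the spaces `Pol` -/
noncomputable def resL (n d : ℕ) : Pol (n + 1) d →ₗ[ℂ] Pol n d :=
  (res n).toLinearMap.restrict fun f hf => by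
    rw [mem_Pol] at hf ⊢
    exact (res_totalDegree_le f).trans hf

@[simp] theorem resL_coe (n d : ℕ) (f : Pol (n + 1) d) :
    ((resL n d f : Pol n d) : MvPolynomial (Fin n) ℂ) = res n f := rfl

/-- multiplication by `x₀` -/
noncomputable def mulX (n d : ℕ) : Pol (n + 1) d →ₗ[ℂ] Pol (n + 1) (d + 1) :=
  (LinearMap.mulLeft ℂ (X 0 : MvPolynomial (Fin (n + 1)) ℂ)).restrict fun f hf => by
    rw [mem_Pol] at hf ⊢
    rw [LinearMap.mulLeft_apply]
    refine (totalDegree_mul _ _).trans ?_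
    rw [totalDegree_X]
    omega

@[simp] theorem mulX_coe (n d : ℕ) (f : Pol (n + 1) d) :
    ((mulX n d f : Pol (n + 1) (d + 1)) : MvPolynomial (Fin (n + 1)) ℂ) =
      X 0 * (f : MvPolynomial (Fin (n + 1)) ℂ) := rfl

theorem mulX_injective (n d : ℕ) : Function.Injective (mulX n d) := by
  intro f g h
  have h1 : (X 0 : MvPolynomial (Fin (n + 1)) ℂ) * (f : MvPolynomial (Fin (n + 1)) ℂ) =
    X 0 * (g : MvPolynomial (Fin (n + 1)) ℂ) := congrArg Subtype.val h
  exact Subtype.ext (mul_left_cancel₀ (X_ne_zero 0) h1)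

theorem ker_resL (n d : ℕ) : LinearMap.ker (resL n (d + 1)) = LinearMap.range (mulX n d) := by
  ext f
  constructor
  · intro hf
    have h1 : res n (f : MvPolynomial (Fin (n + 1)) ℂ) = 0 := congrArg Subtype.val hf
    obtain ⟨g, hg, hfg⟩ := exists_of_res (mem_Pol.1 f.2) h1
    exact ⟨⟨g, mem_Pol.2 hg⟩, Subtype.ext hfg.symm⟩
  · rintro ⟨g, rfl⟩
    rw [LinearMap.mem_ker]
    apply Subtype.ext
    rw [resL_coe, mulX_coe, map_mul, res_X_zero, zero_mul]
    rfl

instance (n d : ℕ) : FiniteDimensional ℂ (Pol n d) := by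
  have hfin : Set.Finite {m : Fin n →₀ ℕ | (m.sum fun _ e => e) ≤ d} := by
    refine Set.Finite.subset (Finset.finite_toSet (Finset.Iic (Finsupp.equivFunOnFinite.symm
      (fun _ => d) : Fin n →₀ ℕ))) fun m hm => ?_
    rw [Finset.mem_coe, Finset.mem_Iic]
    intro i
    have : m i ≤ m.sum fun _ e => e := by
      by_cases hi : i ∈ m.support
      · exact Finset.single_le_sum (f := fun i => m i) (fun _ _ => Nat.zero_le _) hi
      · simp [Finsupp.notMem_support_iff.1 hi]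
    exact this.trans hm
  have : Finite {m : Fin n →₀ ℕ | (m.sum fun _ e => e) ≤ d} := hfin
  exact Module.Finite.of_basis (basisRestrictSupport ℂ {m : Fin n →₀ ℕ | (m.sum fun _ e => e) ≤ d})

theorem finrank_Pol_const {n d : ℕ} (h : ∀ f ∈ Pol n d, ∃ c, f = C c) :
    finrank ℂ (Pol n d) ≤ 1 := by
  have h1 : Pol n d ≤ LinearMap.range (Algebra.linearMap ℂ (MvPolynomial (Fin n) ℂ)) := by
    intro f hf
    obtain ⟨c, rfl⟩ := h f hf
    exact ⟨c, rfl⟩
  exact (Submodule.finrank_mono h1).trans ((LinearMap.finrank_range_le _).trans (by simp))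

theorem finrank_Pol_le (n : ℕ) : ∀ d, finrank ℂ (Pol n d) ≤ NN n d := by
  induction n with
  | zero =>
    intro d
    rw [NN_zero_left]
    refine finrank_Pol_const fun f _ => ?_
    obtain ⟨c, hc⟩ := C_surjective (R := ℂ) (Fin 0) f
    exact ⟨c, hc.symm⟩
  | succ n ihn =>
    intro d
    induction d with
    | zero =>
      rw [NN_zero_right]
      refine finrank_Pol_const fun f hf => ⟨f.coeff 0, ?_⟩
      exact totalDegree_eq_zero_iff_eq_C.1 (Nat.le_zero.1 (mem_Pol.1 hf))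
    | succ d ihd =>
      have h := finrank_le_map_add_ker (resL n (d + 1)) ⊤
      rw [top_inf_eq, ker_resL, finrank_top] at h
      have h1 : finrank ℂ (LinearMap.range (mulX n d)) = finrank ℂ (Pol (n + 1) d) :=
        LinearMap.finrank_range_of_inj (mulX_injective n d)
      have h2 : finrank ℂ ((⊤ : Submodule ℂ (Pol (n + 1) (d + 1))).map (resL n (d + 1))) ≤
          finrank ℂ (Pol n (d + 1)) := Submodule.finrank_le _
      have h3 := ihn (d + 1)
      rw [NN_succ]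
      omega

end Pool.Agent.War


end

section

/-!
# Simultaneous Waring decompositions (MP_db021c_ag): statements   (helper46)

Paper proof: note 1540 of the team database (also `Pool/Agent/War/PAPER.md`).
`S_X` is proved by a theorem `X : S_X`, or `X (h : S_Y) .. : S_X` when it uses other modules.
-/

set_option autoImplicit false

open Module MvPolynomial

namespace Pool.Agent.War

/-- polynomials of degree `≤ d` vanishing at all the points `z i`, doubly at those with `i ∈ P` -/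
def Dbl (n d : ℕ) {I : Type} (P : Finset I) (z : I → Fin n → ℂ) : Submodule ℂ (Pol n d) where
  carrier := {f | (∀ i, eval (z i) (f : MvPolynomial (Fin n) ℂ) = 0) ∧
    ∀ i ∈ P, ∀ k, eval (z i) (pderiv k (f : MvPolynomial (Fin n) ℂ)) = 0}
  add_mem' := by
    rintro f g ⟨h1, h2⟩ ⟨k1, k2⟩
    refine ⟨fun i => ?_, fun i hi k => ?_⟩
    · rw [Submodule.coe_add, map_add, h1, k1, add_zero]
    · rw [Submodule.coe_add, map_add, map_add, h2 i hi, k2 i hi, add_zero]
  zero_mem' := by simp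
  smul_mem' := by
    rintro c f ⟨h1, h2⟩
    refine ⟨fun i => ?_, fun i hi k => ?_⟩
    · rw [Submodule.coe_smul, smul_eval, h1, mul_zero]
    · rw [Submodule.coe_smul, (pderiv k).map_smul, smul_eval, h2 i hi, mul_zero]

theorem mem_Dbl {n d : ℕ} {I : Type} {P : Finset I} {z : I → Fin n → ℂ} {f : Pol n d} :
    f ∈ Dbl n d P z ↔ (∀ i, eval (z i) (f : MvPolynomial (Fin n) ℂ) = 0) ∧
      ∀ i ∈ P, ∀ k, eval (z i) (pderiv k (f : MvPolynomial (Fin n) ℂ)) = 0 := Iff.rfl

/-- evaluation at a point of `Pol n d` -/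
noncomputable def ev (n d : ℕ) (z : Fin n → ℂ) : Pol n d →ₗ[ℂ] ℂ :=
  (MvPolynomial.aeval z : MvPolynomial (Fin n) ℂ →ₐ[ℂ] ℂ).toLinearMap.comp (Pol n d).subtype

/-- evaluation of a partial derivative -/
noncomputable def dv (n d : ℕ) (k : Fin n) (z : Fin n → ℂ) : Pol n d →ₗ[ℂ] ℂ :=
  (MvPolynomial.aeval z : MvPolynomial (Fin n) ℂ →ₐ[ℂ] ℂ).toLinearMap.comp
    ((pderiv k).toLinearMap.comp (Pol n d).subtype)

theorem ev_apply {n d : ℕ} (z : Fin n → ℂ) (f : Pol n d) :
    ev n d z f = eval z (f : MvPolynomial (Fin n) ℂ) := by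
  simp [ev, MvPolynomial.aeval_eq_eval]

theorem dv_apply {n d : ℕ} (k : Fin n) (z : Fin n → ℂ) (f : Pol n d) :
    dv n d k z f = eval z (pderiv k (f : MvPolynomial (Fin n) ℂ)) := by
  simp [dv, MvPolynomial.aeval_eq_eval]

/-- the point `i` of a configuration -/
def pt {n : ℕ} {I : Type} (i : I) : (I → Fin n → ℂ) →ₗ[ℂ] (Fin n → ℂ) := LinearMap.proj i

theorem LP_coord {n : ℕ} (k : Fin n) : LP (K := ℂ) (X := Fin n → ℂ) fun z => z k := by
  have h := LP.linear (K := ℂ) (X := Fin n → ℂ) (LinearMap.proj k : (Fin n → ℂ) →ₗ[ℂ] ℂ)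
  exact h

theorem LP_eval {n : ℕ} (f : MvPolynomial (Fin n) ℂ) :
    LP (K := ℂ) (X := Fin n → ℂ) fun z => eval z f := by
  have h := LP.eval (K := ℂ) (X := Fin n → ℂ) f (Z := fun k z => z k) LP_coord
  exact h

theorem PK_Dbl (n d : ℕ) {I : Type} [Finite I] (P : Finset I) :
    PK fun z : I → Fin n → ℂ => Dbl n d P z := by
  have h1 : PK fun z : I → Fin n → ℂ => ⨅ i : I, LinearMap.ker (ev n d (z i)) := by
    refine PK.iInf fun i => PK.one (φ := fun z : I → Fin n → ℂ => ev n d (z i)) fun f => ?_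
    simp only [ev_apply]
    exact (LP_eval (f : MvPolynomial (Fin n) ℂ)).comp_linear (pt i)
  have h2 : PK fun z : I → Fin n → ℂ => ⨅ q : {i // i ∈ P} × Fin n,
      LinearMap.ker (dv n d q.2 (z q.1.1)) := by
    refine PK.iInf fun q => PK.one (φ := fun z : I → Fin n → ℂ => dv n d q.2 (z q.1.1))
      fun f => ?_
    simp only [dv_apply]
    exact (LP_eval (pderiv q.2 (f : MvPolynomial (Fin n) ℂ))).comp_linear (pt q.1.1)
  refine (h1.inf h2).congr fun z => ?_
  ext f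
  simp only [Submodule.mem_inf, Submodule.mem_iInf, LinearMap.mem_ker, ev_apply, dv_apply, mem_Dbl]
  constructor
  · rintro ⟨k1, k2⟩
    exact ⟨k1, fun i hi k => k2 (⟨i, hi⟩, k)⟩
  · rintro ⟨k1, k2⟩
    exact ⟨k1, fun q => k2 q.1.1 q.1.2 q.2⟩

/-- full points `(z i, a i)` and simple points `y i` kill `P_{n,d}^γ` -/
def Kill (n d : ℕ) {α β γ : Type} [Fintype γ] (z : α → Fin n → ℂ) (a : α → γ → ℂ)
    (y : β → Fin n → ℂ) : Prop :=
  ∀ f : γ → MvPolynomial (Fin n) ℂ, (∀ j, (f j).totalDegree ≤ d) →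
    (∀ i j, eval (z i) (f j) = 0) →
    (∀ i k, ∑ j, a i j * eval (z i) (pderiv k (f j)) = 0) →
    (∀ i j, eval (y i) (f j) = 0) → ∀ j, f j = 0

/-- block lemma for `b` forms, `μ = N - h`: `m = ⌈bμ/n⌉` full points and `N - μ - m` simple ones -/
def Block (n d b μ : ℕ) : Prop :=
  ∃ (z : Fin ((b * μ + n - 1) / n) → Fin n → ℂ) (a : Fin ((b * μ + n - 1) / n) → Fin b → ℂ)
    (y : Fin (NN n d - μ - (b * μ + n - 1) / n) → Fin n → ℂ), Kill n d z a y

/-! ## The modules -/

/-- (1) weak Alexander-Hirschowitz -/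
def S_WAH : Prop := ∀ n d p : ℕ, 1 ≤ n → 2 * n ≤ d → (n + 2) * p ≤ NN n (d - 2 * n) →
  ∃ z : Fin p → Fin n → ℂ, finrank ℂ (Dbl n d Finset.univ z) + (n + 1) * p ≤ NN n d

/-- (2) scalar lemma: double points `z i`, `i ∈ P`, and simple points `z i`, `i ∉ P` -/
def S_SC : Prop := ∀ (n d : ℕ) (I : Type) [Fintype I] (P : Finset I), 1 ≤ n →
  (P.card = 0 ∨ (2 * n ≤ d ∧ (n + 2) * P.card ≤ NN n (d - 2 * n))) →
  Gen ℂ fun z : I → Fin n → ℂ =>
    finrank ℂ (Dbl n d P z) ≤ NN n d - (n * P.card + Fintype.card I)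

/-- arithmetic -/
def S_AR : Prop := ∀ n d : ℕ, 2 ≤ n → n ^ 3 + 60 ≤ d →
  (n + 2) * NN n d ≤ (2 * n + 1) * NN n (d - 2 * n - 2) ∧
  (2 * n + 1) * NN (n - 1) d ≤ NN n d ∧ 2 * n ^ 2 ≤ NN (n - 1) (d - 2 * n - 2)

/-- hypotheses of the block lemma -/
def BH (n d b μ : ℕ) : Prop :=
  2 ≤ n ∧ n ^ 3 + 60 ≤ d ∧ 1 ≤ b ∧ b ≤ n ∧ n ≤ μ ∧ (2 * n + 1) * μ ≤ n * NN n d

/-- (3), first case -/
def S_C0 : Prop := ∀ n d b μ : ℕ, BH n d b μ → μ % n = 0 → Block n d b μ

/-- (3), second case -/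
def S_C1 : Prop := ∀ n d b μ : ℕ, BH n d b μ → μ % n ≠ 0 → n ≤ μ / n + μ % n → Block n d b μ

/-- (3), third case: points in `X` (moment curve graph) impose independent conditions.
`E` edges; edge `e` joins `z (src e)` and `w (tgt e)`, all on the moment curve. -/
def S_X : Prop := ∀ (n d m μ E : ℕ) (src : Fin E → Fin m) (tgt : Fin E → Fin μ), 3 ≤ n →
  Function.Surjective src → Function.Surjective tgt →
  (∀ e e', src e = src e' → tgt e = tgt e' → e = e') →
  (∀ i, (Finset.univ.filter fun e => src e = i).card ≤ n) →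
  (∀ k, (Finset.univ.filter fun e => tgt e = k).card ≤ n) →
  E + 1 ≤ d → m + μ ≤ d + 1 →
  ∀ (u : Fin m ⊕ Fin μ → ℂ) (τ : Fin (d - 1) → ℂ), Function.Injective u → Function.Injective τ →
  (∀ l, τ l ≠ 0 ∧ τ l ≠ 1) →
  ∀ c : (Fin m ⊕ Fin μ) ⊕ (Fin E × Fin (d - 1)) → ℂ, ∃ f : Pol n d,
    (∀ v, eval (fun k : Fin n => u v ^ (k.val + 1)) (f : MvPolynomial (Fin n) ℂ) =
      c (Sum.inl v)) ∧
    ∀ e l, eval (fun k : Fin n => (1 - τ l) * u (Sum.inl (src e)) ^ (k.val + 1) +
      τ l * u (Sum.inr (tgt e)) ^ (k.val + 1)) (f : MvPolynomial (Fin n) ℂ) = c (Sum.inr (e, l))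

/-- (3), third case -/
def S_C2 : Prop := ∀ n d b μ : ℕ, BH n d b μ → μ % n ≠ 0 → μ / n + μ % n < n → Block n d b μ

/-- (3) -/
def S_BLK : Prop := ∀ n d b μ : ℕ, BH n d b μ → Block n d b μ

/-- (4) -/
def S_TOP : Prop := ∀ n d s h : ℕ, 2 ≤ n → n ^ 3 + 60 ≤ d → n + 1 ≤ s → s ≤ h → h < NN n d →
  s * NN n d ≤ h * (n + s) →
  ∃ (z : Fin h → Fin n → ℂ) (a : Fin h → Fin s → ℂ) (y : Fin 0 → Fin n → ℂ), Kill n d z a y

end Pool.Agent.War


end

section

/-!
# The Horace step for double points (MP_db021c_ag)   (helper46)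
-/

set_option autoImplicit false

open Module MvPolynomial

namespace Pool.Agent.War

/-- `hp` as a linear map -/
def hpL (n : ℕ) : (Fin n → ℂ) →ₗ[ℂ] (Fin (n + 1) → ℂ) where
  toFun := hp
  map_add' x y := by
    ext i
    refine Fin.cases ?_ (fun j => ?_) i <;> simp
  map_smul' c x := by
    ext i
    refine Fin.cases ?_ (fun j => ?_) i <;> simp

@[simp] theorem hpL_apply {n : ℕ} (z : Fin n → ℂ) : hpL n z = hp z := rfl

theorem eval_mulX {n d : ℕ} (z : Fin (n + 1) → ℂ) (g : Pol (n + 1) d) :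
    eval z (mulX n d g : MvPolynomial (Fin (n + 1)) ℂ) =
      z 0 * eval z (g : MvPolynomial (Fin (n + 1)) ℂ) := by
  simp

theorem eval_pderiv_mulX_zero {n d : ℕ} (z : Fin (n + 1) → ℂ) (g : Pol (n + 1) d) :
    eval z (pderiv 0 (mulX n d g : MvPolynomial (Fin (n + 1)) ℂ)) =
      z 0 * eval z (pderiv 0 (g : MvPolynomial (Fin (n + 1)) ℂ)) +
        eval z (g : MvPolynomial (Fin (n + 1)) ℂ) := by
  rw [mulX_coe, Derivation.leibniz]
  simp [pderiv_X_self]

theorem eval_pderiv_mulX_succ {n d : ℕ} (z : Fin (n + 1) → ℂ) (g : Pol (n + 1) d) (k : Fin n) :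
    eval z (pderiv k.succ (mulX n d g : MvPolynomial (Fin (n + 1)) ℂ)) =
      z 0 * eval z (pderiv k.succ (g : MvPolynomial (Fin (n + 1)) ℂ)) := by
  rw [mulX_coe, Derivation.leibniz]
  simp [pderiv_X_of_ne (Fin.succ_ne_zero k).symm]

/-- residual part -/
theorem finrank_inf_ker_le {n d : ℕ} (Z : Submodule ℂ (Pol (n + 1) (d + 1)))
    (E : Submodule ℂ (Pol (n + 1) d)) (h : ∀ g, mulX n d g ∈ Z → g ∈ E) :
    finrank ℂ ↥(Z ⊓ LinearMap.ker (resL n (d + 1))) ≤ finrank ℂ E := by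
  have h1 : Z ⊓ LinearMap.ker (resL n (d + 1)) ≤ E.map (mulX n d) := by
    rintro f ⟨hf1, hf2⟩
    rw [ker_resL] at hf2
    obtain ⟨g, rfl⟩ := hf2
    exact ⟨g, h g hf1, rfl⟩
  refine (Submodule.finrank_mono h1).trans ?_
  exact Submodule.finrank_map_le _ _

/-- residual conditions at a point off the hyperplane -/
theorem off_hyp {n d : ℕ} {z : Fin (n + 1) → ℂ} (hz : z 0 ≠ 0) {g : Pol (n + 1) d}
    (h0 : eval z (mulX n d g : MvPolynomial (Fin (n + 1)) ℂ) = 0)
    (h1 : ∀ k, eval z (pderiv k (mulX n d g : MvPolynomial (Fin (n + 1)) ℂ)) = 0) :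
    eval z (g : MvPolynomial (Fin (n + 1)) ℂ) = 0 ∧
      ∀ k, eval z (pderiv k (g : MvPolynomial (Fin (n + 1)) ℂ)) = 0 := by
  rw [eval_mulX] at h0
  have h2 := (mul_eq_zero.1 h0).resolve_left hz
  refine ⟨h2, fun k => ?_⟩
  refine Fin.cases ?_ (fun j => ?_) k
  · have := h1 0
    rw [eval_pderiv_mulX_zero, h2, add_zero] at this
    exact (mul_eq_zero.1 this).resolve_left hz
  · have := h1 j.succ
    rw [eval_pderiv_mulX_succ] at this
    exact (mul_eq_zero.1 this).resolve_left hz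

/-- `p` double points can be independent in degree `d` -/
def GG (n d p : ℕ) : Prop :=
  ∃ z : Fin p → Fin n → ℂ, finrank ℂ (Dbl n d Finset.univ z) + (n + 1) * p ≤ NN n d

theorem GG.le {n d p : ℕ} (h : GG n d p) : (n + 1) * p ≤ NN n d := by
  obtain ⟨z, hz⟩ := h
  omega

theorem GG.gen {n d p : ℕ} (h : GG n d p) :
    Gen ℂ fun z : Fin p → Fin n → ℂ =>
      finrank ℂ (Dbl n d Finset.univ z) ≤ NN n d - (n + 1) * p := by
  obtain ⟨z, hz⟩ := h
  exact (PK_Dbl n d Finset.univ).gen_finrank (x₀ := z) (by omega)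

theorem GG.zero (n d : ℕ) : GG n d 0 := by
  refine ⟨fun i => i.elim0, ?_⟩
  rw [mul_zero, add_zero]
  exact (Submodule.finrank_le _).trans (finrank_Pol_le n d)

/-- monotonicity in the set of points -/
theorem Dbl_le_comp {n d : ℕ} {I J : Type} [Fintype I] [Fintype J] (φ : J → I)
    (z : I → Fin n → ℂ) :
    Dbl n d (Finset.univ : Finset I) z ≤ Dbl n d (Finset.univ : Finset J) fun j => z (φ j) := by
  intro f hf
  exact ⟨fun j => hf.1 (φ j), fun j _ k => hf.2 (φ j) (Finset.mem_univ _) k⟩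

/-- restriction of a configuration -/
def restr {n : ℕ} {I J : Type} (φ : J → I) : (I → Fin n → ℂ) →ₗ[ℂ] (J → Fin n → ℂ) where
  toFun z j := z (φ j)
  map_add' _ _ := rfl
  map_smul' _ _ := rfl

theorem restr_surjective {n : ℕ} {I J : Type} {φ : J → I} (hφ : Function.Injective φ) :
    Function.Surjective (restr (n := n) φ) := by
  intro w
  classical
  refine ⟨fun i => if h : ∃ j, φ j = i then w h.choose else 0, ?_⟩
  funext j
  have h : ∃ j', φ j' = φ j := ⟨j, rfl⟩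
  have h2 : h.choose = j := hφ h.choose_spec
  change (if h : ∃ j', φ j' = φ j then w h.choose else 0) = w j
  rw [dif_pos h, h2]

/-- points of a generic configuration are off the hyperplane `x₀ = 0` -/
theorem gen_off {n : ℕ} {I : Type} [Finite I] :
    Gen ℂ fun z : I → Fin (n + 1) → ℂ => ∀ i, z i 0 ≠ 0 := by
  refine Gen.forall fun i => ?_
  have h : LP (K := ℂ) (X := I → Fin (n + 1) → ℂ) fun z => z i 0 := by
    have := (LP_coord (n := n + 1) 0).comp_linear (pt (I := I) i)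
    exact this
  exact Gen.ne h (fun _ _ => 1) one_ne_zero

/-- simple points on the hyperplane, residual of double points -/
theorem gen_simple {n d u : ℕ} (E : Submodule ℂ (Pol (n + 1) d)) (hE : PK fun _ : Fin u → Fin n → ℂ => E)
    (B : ℕ) (h1 : finrank ℂ E ≤ B + u)
    (h2 : finrank ℂ ↥(E ⊓ LinearMap.ker (resL n d)) ≤ B) :
    Gen ℂ fun y : Fin u → Fin n → ℂ =>
      finrank ℂ ↥(E ⊓ ⨅ i, LinearMap.ker (ev (n + 1) d (hp (y i)))) ≤ B := by
  have hred := red (fun y : Fin n → ℂ => ev (n + 1) d (hp y)) E (E ⊓ LinearMap.ker (resL n d))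
    (fun w hw hw' => by
      have h3 : res n (w : MvPolynomial (Fin (n + 1)) ℂ) ≠ 0 := by
        intro h
        apply hw'
        refine ⟨hw, LinearMap.mem_ker.2 (Subtype.ext h)⟩
      by_contra hc
      push Not at hc
      apply h3
      refine MvPolynomial.funext fun y => ?_
      have := hc y
      rw [ev_apply, eval_hp] at this
      simpa using this) u
  obtain ⟨y, hy⟩ := hred
  refine PK.gen_finrank (x₀ := y) (hE.inf (PK.iInf fun i => PK.one
    (φ := fun y : Fin u → Fin n → ℂ => ev (n + 1) d (hp (y i))) fun f => ?_)) ?_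
  · simp only [ev_apply]
    have := ((LP_eval (f : MvPolynomial (Fin (n + 1)) ℂ)).comp_linear (hpL n)).comp_linear
      (pt (I := Fin u) i)
    exact this
  · refine hy.trans (max_le (by omega) h2)

/-- **Horace step** -/
theorem horace {n d u q p₂ : ℕ} (ha : GG n (d + 2) u) (hb : GG (n + 1) (d + 1) q)
    (hc : GG (n + 1) d p₂) (hp₂ : p₂ ≤ q)
    (hnum : NN (n + 1) d + u + (n + 2) * q ≤ NN (n + 1) (d + 1) + (n + 2) * p₂) :
    GG (n + 1) (d + 2) (u + q) := by
  have hcle : (n + 2) * p₂ ≤ NN (n + 1) d := hc.le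
  -- choice of the points off the hyperplane
  have g3 := hc.gen.comp (restr (n := n + 1) (Fin.castLE hp₂))
    (restr_surjective (Fin.castLE_injective hp₂))
  obtain ⟨w, ⟨hw1, hw2⟩, hw3⟩ := ((hb.gen.and g3).and gen_off).exists
  set E := Dbl (n + 1) (d + 1) Finset.univ w with hE
  have hw1' : finrank ℂ E ≤ NN (n + 1) (d + 1) - (n + 2) * q := hw1
  -- elements vanishing on the hyperplane
  have hE2 : finrank ℂ ↥(E ⊓ LinearMap.ker (resL n (d + 1))) ≤ NN (n + 1) d - (n + 2) * p₂ := by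
    refine (finrank_inf_ker_le E (Dbl (n + 1) d Finset.univ w) fun g hg => ?_).trans ?_
    · refine ⟨fun i => (off_hyp (hw3 i) (hg.1 i) (hg.2 i (Finset.mem_univ _))).1, fun i _ k =>
        (off_hyp (hw3 i) (hg.1 i) (hg.2 i (Finset.mem_univ _))).2 k⟩
    · refine (Submodule.finrank_mono (Dbl_le_comp (Fin.castLE hp₂) w)).trans ?_
      exact hw2
  have hbl : (n + 2) * q ≤ NN (n + 1) (d + 1) := hb.le
  -- choice of the points on the hyperplane
  have g4 := gen_simple (u := u) E ((PK_Dbl (n + 1) (d + 1) Finset.univ).comp_affine 0 w |>.congr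
    fun _ => by simp [hE]) (NN (n + 1) (d + 1) - (n + 2) * q - u) (by omega) (by omega)
  obtain ⟨y, hy1, hy2⟩ := (ha.gen.and g4).exists
  have hal := ha.le
  refine ⟨Fin.append (fun i => hp (y i)) w, ?_⟩
  set Z := Dbl (n + 1) (d + 2) Finset.univ (Fin.append (fun i => hp (y i)) w) with hZ
  have h1 := finrank_le_map_add_ker (resL n (d + 2)) Z
  have h2 : finrank ℂ (Z.map (resL n (d + 2))) ≤ NN n (d + 2) - (n + 1) * u := by
    refine (Submodule.finrank_mono ?_).trans hy1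
    rintro _ ⟨f, hf, rfl⟩
    refine ⟨fun i => ?_, fun i _ k => ?_⟩
    · have := hf.1 (Fin.castAdd q i)
      rw [Fin.append_left, eval_hp] at this
      exact this
    · have := hf.2 (Fin.castAdd q i) (Finset.mem_univ _) k.succ
      rw [Fin.append_left, eval_hp_pderiv] at this
      exact this
  have h3 : finrank ℂ ↥(Z ⊓ LinearMap.ker (resL n (d + 2))) ≤
      NN (n + 1) (d + 1) - (n + 2) * q - u := by
    refine (finrank_inf_ker_le Z _ fun g hg => ?_).trans hy2
    refine ⟨⟨fun i => ?_, fun i _ k => ?_⟩, ?_⟩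
    · have h4 := hg.1 (Fin.natAdd u i)
      have h5 := hg.2 (Fin.natAdd u i) (Finset.mem_univ _)
      rw [Fin.append_right] at h4 h5
      exact (off_hyp (hw3 i) h4 h5).1
    · have h4 := hg.1 (Fin.natAdd u i)
      have h5 := hg.2 (Fin.natAdd u i) (Finset.mem_univ _)
      rw [Fin.append_right] at h4 h5
      exact (off_hyp (hw3 i) h4 h5).2 k
    · rw [SetLike.mem_coe, Submodule.mem_iInf]
      intro i
      have h5 := hg.2 (Fin.castAdd q i) (Finset.mem_univ _) 0
      rw [Fin.append_left, eval_pderiv_mulX_zero, hp_zero, zero_mul, zero_add] at h5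
      rw [LinearMap.mem_ker, ev_apply]
      exact h5
  have e1 : NN (n + 1) (d + 2) = NN n (d + 2) + NN (n + 1) (d + 1) := NN_succ n (d + 1)
  have e2 : (n + 1 + 1) * (u + q) = (n + 1) * u + u + (n + 2) * q := by ring
  rw [e2, e1]
  omega

end Pool.Agent.War


end

section

/-!
# Weak Alexander-Hirschowitz theorem (MP_db021c_ag)   (helper46)
-/

set_option autoImplicit false

open Module MvPolynomial

namespace Pool.Agent.War

theorem NN_step {m : ℕ} (k : ℕ) (hm : 1 ≤ m) : NN m k + m ≤ NN m (k + 1) := by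
  obtain ⟨m', rfl⟩ : ∃ m', m = m' + 1 := ⟨m - 1, by omega⟩
  rw [NN_succ]
  have h1 : NN m' 1 ≤ NN m' (k + 1) := NN_mono_right (by omega)
  rw [NN_right_one] at h1
  omega

theorem GG_zero_one (d : ℕ) : GG 0 d 1 := by
  refine ⟨fun _ i => i.elim0, ?_⟩
  have h : Dbl 0 d (Finset.univ : Finset (Fin 1)) (fun _ i => i.elim0) = ⊥ := by
    rw [Submodule.eq_bot_iff]
    intro f hf
    obtain ⟨c, hc⟩ := C_surjective (R := ℂ) (Fin 0) (f : MvPolynomial (Fin 0) ℂ)
    have h1 := hf.1 0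
    rw [← hc, eval_C] at h1
    apply Subtype.ext
    rw [← hc, h1, C_0]
    rfl
  rw [h, finrank_bot, NN_zero_left]

theorem GG_one : ∀ d p : ℕ, 2 * p ≤ d → GG 1 d p := by
  intro d
  induction d using Nat.strong_induction_on with
  | _ d ih =>
    intro p hp
    rcases Nat.eq_zero_or_pos p with rfl | hp0
    · exact GG.zero _ _
    · obtain ⟨e, rfl⟩ : ∃ e, d = e + 2 := ⟨d - 2, by omega⟩
      obtain ⟨q, rfl⟩ : ∃ q, p = 1 + q := ⟨p - 1, by omega⟩
      have h := horace (n := 0) (d := e) (u := 1) (q := q) (p₂ := q) (GG_zero_one _)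
        (ih (e + 1) (by omega) q (by omega)) (ih e (by omega) q (by omega)) le_rfl
        (by rw [NN_one, NN_one])
      exact h

/-- the induction step -/
theorem GG_step {m : ℕ} (hm : 1 ≤ m)
    (ihm : ∀ d p : ℕ, 2 * m ≤ d → (m + 2) * p ≤ NN m (d - 2 * m) → GG m d p) :
    ∀ d p : ℕ, (p = 0 ∨ (2 * (m + 1) ≤ d ∧ (m + 3) * p ≤ NN (m + 1) (d - 2 * (m + 1)))) →
      GG (m + 1) d p := by
  intro d
  induction d using Nat.strong_induction_on with
  | _ d ih =>
    intro p hp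
    rcases hp with rfl | ⟨hd, hp⟩
    · exact GG.zero _ _
    rcases Nat.eq_zero_or_pos p with rfl | hp0
    · exact GG.zero _ _
    -- `k = d - 2 (m + 1) ≥ 1`
    obtain ⟨k, rfl⟩ : ∃ k, d = (2 * m + k) + 2 := ⟨d - 2 * (m + 1), by omega⟩
    have ek : 2 * m + k + 2 - 2 * (m + 1) = k := by omega
    rw [ek] at hp
    have hk : 1 ≤ k := by
      by_contra hc
      have : k = 0 := by omega
      subst this
      rw [NN_zero_right] at hp
      nlinarith
    obtain ⟨k', rfl⟩ : ∃ k', k = k' + 1 := ⟨k - 1, by omega⟩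
    -- number of points on the hyperplane
    obtain ⟨u₀, hu₀⟩ : ∃ u₀, u₀ = (NN m (k' + 1) + (m + 2)) / (m + 3) := ⟨_, rfl⟩
    have hu1 : (m + 3) * u₀ ≤ NN m (k' + 1) + (m + 2) := by
      rw [hu₀]; exact Nat.mul_div_le _ _
    have hu2 : NN m (k' + 1) ≤ (m + 3) * u₀ := by
      have := Nat.lt_mul_div_succ (NN m (k' + 1) + (m + 2)) (show 0 < m + 3 by omega)
      rw [← hu₀] at this
      have e : (m + 3) * (u₀ + 1) = (m + 3) * u₀ + (m + 3) := by ring
      omega
    obtain ⟨u, hu⟩ : ∃ u, u = min p u₀ := ⟨_, rfl⟩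
    have hup : u ≤ p := by rw [hu]; exact min_le_left _ _
    have huu : u ≤ u₀ := by rw [hu]; exact min_le_right _ _
    have hmu : (m + 3) * u ≤ NN m (k' + 1) + (m + 2) :=
      (Nat.mul_le_mul_left _ huu).trans hu1
    obtain ⟨q, rfl⟩ : ∃ q, p = u + q := ⟨p - u, by omega⟩
    have hN := NN_succ m k'
    -- residual points
    have hq : q = 0 ∨ (m + 3) * q ≤ NN (m + 1) k' := by
      rcases Nat.eq_zero_or_pos q with h | h
      · exact Or.inl h
      · right
        have : u = u₀ := by omega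
        rw [this] at hp
        have e : (m + 3) * (u₀ + q) = (m + 3) * u₀ + (m + 3) * q := by ring
        omega
    -- (a)
    have s1 := NN_step (k' + 1) hm
    have s2 := NN_step (k' + 1 + 1) hm
    have s3 := NN_step (k' + 1 + 1 + 1) hm
    have hN1 : 1 ≤ NN m (k' + 1) := NN_pos _ _
    have ha : GG m (2 * m + (k' + 1) + 2) u := by
      refine ihm _ _ (by omega) ?_
      have e : 2 * m + (k' + 1) + 2 - 2 * m = k' + 1 + 1 + 1 := by omega
      rw [e]
      have h5 : (m + 3) * ((m + 2) * u) ≤ (m + 3) * NN m (k' + 1 + 1 + 1) := by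
        have h6 : (m + 3) * ((m + 2) * u) ≤ (m + 2) * (NN m (k' + 1) + (m + 2)) := by
          calc (m + 3) * ((m + 2) * u) = (m + 2) * ((m + 3) * u) := by ring
            _ ≤ _ := Nat.mul_le_mul_left _ hmu
        have h7 : (m + 2) * (NN m (k' + 1) + (m + 2)) ≤ (m + 3) * (NN m (k' + 1) + 2 * m) := by
          nlinarith
        have h8 : (m + 3) * (NN m (k' + 1) + 2 * m) ≤ (m + 3) * NN m (k' + 1 + 1 + 1) :=
          Nat.mul_le_mul_left _ (by omega)
        exact h6.trans (h7.trans h8)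
      exact Nat.le_of_mul_le_mul_left h5 (by omega)
    -- (b)
    have hb : GG (m + 1) (2 * m + (k' + 1) + 1) q := by
      refine ih _ (by omega) q ?_
      rcases hq with h | h
      · exact Or.inl h
      · right
        refine ⟨by omega, ?_⟩
        have e : 2 * m + (k' + 1) + 1 - 2 * (m + 1) = k' := by omega
        rw [e]
        exact h
    -- (c)
    obtain ⟨p₂, hp₂q, hc, hc2⟩ : ∃ p₂, p₂ ≤ q ∧ GG (m + 1) (2 * m + (k' + 1)) p₂ ∧
        (p₂ = q ∨ (m + 3) * q ≤ (m + 3) * p₂ + NN m k' + (m + 2)) := by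
      rcases Nat.eq_zero_or_pos k' with h0 | h0
      · subst h0
        have hq0 : q = 0 := by
          rcases hq with h | h
          · exact h
          · rw [NN_zero_right] at h
            by_contra hc
            have : 1 ≤ q := by omega
            nlinarith
        exact ⟨0, by omega, GG.zero _ _, Or.inl hq0.symm⟩
      · obtain ⟨j, rfl⟩ : ∃ j, k' = j + 1 := ⟨k' - 1, by omega⟩
        obtain ⟨r, hr⟩ : ∃ r, r = NN (m + 1) j / (m + 3) := ⟨_, rfl⟩
        have hr1 : (m + 3) * r ≤ NN (m + 1) j := by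
          rw [hr]; exact Nat.mul_div_le _ _
        have hr2 : NN (m + 1) j ≤ (m + 3) * r + (m + 2) := by
          have := Nat.lt_mul_div_succ (NN (m + 1) j) (show 0 < m + 3 by omega)
          rw [← hr] at this
          have e : (m + 3) * (r + 1) = (m + 3) * r + (m + 3) := by ring
          omega
        have hNj := NN_succ m j
        refine ⟨min q r, min_le_left _ _, ih _ (by omega) _ (Or.inr ⟨by omega, ?_⟩), ?_⟩
        · have e : 2 * m + (j + 1 + 1) - 2 * (m + 1) = j := by omega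
          rw [e]
          exact (Nat.mul_le_mul_left _ (min_le_right _ _)).trans hr1
        · rcases le_total q r with h | h
          · exact Or.inl (min_eq_left h)
          · right
            rw [min_eq_right h]
            rcases hq with h' | h'
            · subst h'
              omega
            · omega
    -- numbers
    have hd := NN_succ m (2 * m + (k' + 1))
    have hmono : NN m (k' + 1 + 1 + 1 + 1) ≤ NN m (2 * m + (k' + 1) + 1) :=
      NN_mono_right (by omega)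
    have hnum : u + (m + 2) * q ≤ NN m (2 * m + (k' + 1) + 1) + (m + 2) * p₂ := by
      rcases hc2 with h | h
      · subst h
        have : (m + 3) * u ≤ (m + 3) * NN m (k' + 1) := by nlinarith
        have := Nat.le_of_mul_le_mul_left this (by omega)
        omega
      · have h1 : NN m k' ≤ NN m (k' + 1) := NN_mono_right (by omega)
        have h2 : (m + 3) * (u + (m + 2) * q) ≤
            (m + 3) * (NN m (k' + 1) + (m + 2) + (m + 2) * p₂) := by
          have h3 : (m + 3) * ((m + 2) * q) ≤ (m + 2) * ((m + 3) * p₂ + NN m k' + (m + 2)) := by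
            calc (m + 3) * ((m + 2) * q) = (m + 2) * ((m + 3) * q) := by ring
              _ ≤ _ := Nat.mul_le_mul_left _ h
          nlinarith
        have := Nat.le_of_mul_le_mul_left h2 (by omega)
        omega
    exact horace ha hb hc hp₂q (by rw [hd]; linarith)

/-- section (1) -/
theorem WAH : S_WAH := by
  intro n d p hn
  induction n, hn using Nat.le_induction generalizing d p with
  | base =>
    intro hd hp
    have e : NN 1 (d - 2 * 1) = d - 2 * 1 + 1 := NN_one _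
    rw [e] at hp
    exact GG_one d p (by omega)
  | succ m hm ihm =>
    intro hd hp
    exact GG_step hm (fun d p h1 h2 => ihm d p h1 h2) d p (Or.inr ⟨hd, hp⟩)

end Pool.Agent.War


end

section

/-!
# Simultaneous Waring decompositions (MP_db021c_ag), few forms: statements   (helper88)

Range 2 ≤ s ≤ n (n variables of the affine chart), d large.  See PAPER.md in this directory.
In this file the number of variables is n + 1 (hyperplane x₀ = 0 with n variables), the number of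
forms is s = r + 1 (the first form, with index 0, is special), the degree is d + 2.
S_X is proved by a theorem X : S_X, or X (h : S_Y) .. : S_X when it uses other modules.
-/

set_option autoImplicit false

open Module MvPolynomial
open Pool.Agent.War

namespace Pool.Agent.WarS

/-! ## scalar facts -/

/-- strong form of the weak Alexander-Hirschowitz theorem -/
def S_SW : Prop := ∀ m d p : ℕ, 2 ≤ m → (m + 1) * (p + d + 1) ≤ NN m (d - (2 * m - 2)) → GG m d p

/-- the form which is used -/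
def S_GD : Prop := ∀ m d p : ℕ, 1 ≤ m → 4 * m ^ 2 * (m + 2) ≤ d + 3 →
  (m + 2) * p ≤ NN m (d + 2) → GG m d p

/-- scalar lemma: double points z i, i ∈ P, and simple points z i, i ∉ P -/
def S_SG : Prop := ∀ (n d : ℕ) (I : Type) [Fintype I] (P : Finset I), 1 ≤ n → GG n d P.card →
  Gen ℂ fun z : I → Fin n → ℂ =>
    finrank ℂ (Dbl n d P z) ≤ NN n d - (n * P.card + Fintype.card I)

/-- double points w i, i ∈ P, simple points w i, i ∉ P, and points hp (z k) which are double along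
the hyperplane -/
noncomputable def DblH (n d : ℕ) {I : Type} {y : ℕ} (P : Finset I) (w : I → Fin (n + 1) → ℂ)
    (z : Fin y → Fin n → ℂ) : Submodule ℂ (Pol (n + 1) d) :=
  Dbl (n + 1) d P w ⊓ (Dbl n d Finset.univ z).comap (resL n d)

/-- points which are double along the hyperplane -/
def S_HD : Prop := ∀ (n d y : ℕ) (I : Type) [Fintype I] (P : Finset I), 1 ≤ n →
  GG (n + 1) d P.card → GG n (d + 1) y →
  NN (n + 1) d ≤ (n + 1) * P.card + Fintype.card I →
  Gen ℂ fun x : (I → Fin (n + 1) → ℂ) × (Fin y → Fin n → ℂ) =>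
    finrank ℂ (DblH n (d + 1) P x.1 x.2) ≤
      NN (n + 1) (d + 1) - ((n + 1) * P.card + Fintype.card I + (n + 1) * y)

/-! ## residual conditions -/

/-- number of the points of type j -/
def fib {I : Type} [Fintype I] {s : ℕ} (π : I → Fin s) (j : Fin s) : ℕ :=
  (Finset.univ.filter fun i => π i = j).card

/-- residual conditions: points w off the hyperplane, of type π; points z1 (first form), z2 with
vectors a (all forms), and z0 (first form, double along the hyperplane) on the hyperplane -/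
structure ResC {n r u v y : ℕ} {I : Type} (π : I → Fin (r + 1)) (w : I → Fin (n + 1) → ℂ)
    (z1 : Fin u → Fin n → ℂ) (z2 : Fin v → Fin n → ℂ) (a : Fin v → Fin (r + 1) → ℂ)
    (z0 : Fin y → Fin n → ℂ) (g : Fin (r + 1) → MvPolynomial (Fin (n + 1)) ℂ) : Prop where
  off0 : ∀ i j, eval (w i) (g j) = 0
  off1 : ∀ i k, eval (w i) (pderiv k (g (π i))) = 0
  p1 : ∀ i, eval (hp (z1 i)) (g 0) = 0
  p2 : ∀ i, ∑ j, a i j * eval (hp (z2 i)) (g j) = 0
  h0 : ∀ i, eval (hp (z0 i)) (g 0) = 0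
  h1 : ∀ i (k : Fin n), eval (hp (z0 i)) (pderiv k.succ (g 0)) = 0

/-- the residual conditions have no solution of degree ≤ d + 1 -/
def ResZ (d : ℕ) {n r u v y : ℕ} {I : Type} (π : I → Fin (r + 1)) (w : I → Fin (n + 1) → ℂ)
    (z1 : Fin u → Fin n → ℂ) (z2 : Fin v → Fin n → ℂ) (a : Fin v → Fin (r + 1) → ℂ)
    (z0 : Fin y → Fin n → ℂ) : Prop :=
  ∀ g : Fin (r + 1) → MvPolynomial (Fin (n + 1)) ℂ, (∀ j, (g j).totalDegree ≤ d + 1) →
    ResC π w z1 z2 a z0 g → ∀ j, g j = 0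

/-- residual lemma -/
def S_RES : Prop := ∀ (n d r u v y : ℕ) (I : Type) [Fintype I] (π : I → Fin (r + 1)), 1 ≤ n →
  (∀ j, GG (n + 1) d (fib π j)) → (∀ j, GG (n + 1) (d + 1) (fib π j)) → GG n (d + 1) y →
  (∀ j, NN (n + 1) d ≤ (n + 1) * fib π j + Fintype.card I) →
  (n + 1) * fib π 0 + Fintype.card I + (n + 1) * y + u ≤ NN (n + 1) (d + 1) →
  (∀ j, (n + 1) * fib π j + Fintype.card I ≤ NN (n + 1) (d + 1)) →
  (r + 1) * NN (n + 1) (d + 1) ≤ (n + r + 2) * Fintype.card I + (n + 1) * y + u + v →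
  Gen ℂ fun x : (I → Fin (n + 1) → ℂ) × (Fin u → Fin n → ℂ) × (Fin v → Fin n → ℂ) ×
      (Fin v → Fin (r + 1) → ℂ) × (Fin y → Fin n → ℂ) =>
    ResZ d π x.1 x.2.1 x.2.2.1 x.2.2.2.1 x.2.2.2.2

/-! ## trace conditions -/

/-- scalar trace conditions: double points z1, simple points z2 and z0 -/
def TraS {n u v y : ℕ} (d : ℕ) (z1 : Fin u → Fin n → ℂ) (z2 : Fin v → Fin n → ℂ)
    (z0 : Fin y → Fin n → ℂ) : Prop :=
  ∀ f : MvPolynomial (Fin n) ℂ, f.totalDegree ≤ d + 2 → (∀ i, eval (z1 i) f = 0) →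
    (∀ i k, eval (z1 i) (pderiv k f) = 0) → (∀ i, eval (z2 i) f = 0) →
    (∀ i, eval (z0 i) f = 0) → f = 0

/-- trace conditions: full points (z1, e_0), full points (z2, a), simple points z0 -/
def TraV {n r u v y : ℕ} (d : ℕ) (z1 : Fin u → Fin n → ℂ) (z2 : Fin v → Fin n → ℂ)
    (a : Fin v → Fin (r + 1) → ℂ) (z0 : Fin y → Fin n → ℂ) : Prop :=
  ∀ f : Fin (r + 1) → MvPolynomial (Fin n) ℂ, (∀ j, (f j).totalDegree ≤ d + 2) →
    (∀ i j, eval (z1 i) (f j) = 0) → (∀ i k, eval (z1 i) (pderiv k (f 0)) = 0) →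
    (∀ i j, eval (z2 i) (f j) = 0) →
    (∀ i k, ∑ j, a i j * eval (z2 i) (pderiv k (f j)) = 0) →
    (∀ i j, eval (z0 i) (f j) = 0) → ∀ j, f j = 0

/-- trace lemma -/
def S_TRA : Prop := ∀ (n d r u y : ℕ), 1 ≤ n → GG n (d + 2) u →
  NN n (d + 2) ≤ (n + r + 1) * u + y →
  Gen ℂ fun x : (Fin u → Fin n → ℂ) × (Fin (r * u) → Fin n → ℂ) ×
      (Fin (r * u) → Fin (r + 1) → ℂ) × (Fin y → Fin n → ℂ) =>
    TraS d x.1 x.2.1 x.2.2.2 ∧ TraV d x.1 x.2.1 x.2.2.1 x.2.2.2

/-! ## the differential Horace step -/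

/-- the conditions on f of degree ≤ d + 2: full points (w i, e_(π i)), (hp (z1 i), e_0),
(hp (z2 i), a i), ((t, z0 i), e_0) kill -/
def KillT (d : ℕ) {n r u v y : ℕ} {I : Type} (π : I → Fin (r + 1)) (w : I → Fin (n + 1) → ℂ)
    (z1 : Fin u → Fin n → ℂ) (z2 : Fin v → Fin n → ℂ) (a : Fin v → Fin (r + 1) → ℂ)
    (z0 : Fin y → Fin n → ℂ) (t : ℂ) : Prop :=
  ∀ f : Fin (r + 1) → MvPolynomial (Fin (n + 1)) ℂ, (∀ j, (f j).totalDegree ≤ d + 2) →
    (∀ i j, eval (w i) (f j) = 0) → (∀ i k, eval (w i) (pderiv k (f (π i))) = 0) →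
    (∀ i j, eval (hp (z1 i)) (f j) = 0) → (∀ i k, eval (hp (z1 i)) (pderiv k (f 0)) = 0) →
    (∀ i j, eval (hp (z2 i)) (f j) = 0) →
    (∀ i k, ∑ j, a i j * eval (hp (z2 i)) (pderiv k (f j)) = 0) →
    (∀ i j, eval (Fin.cons t (z0 i) : Fin (n + 1) → ℂ) (f j) = 0) →
    (∀ i k, eval (Fin.cons t (z0 i) : Fin (n + 1) → ℂ) (pderiv k (f 0)) = 0) → ∀ j, f j = 0

/-- differential Horace -/
def S_DH : Prop := ∀ (n d r u v y : ℕ) (I : Type) [Finite I] (π : I → Fin (r + 1))
  (w : I → Fin (n + 1) → ℂ) (z1 : Fin u → Fin n → ℂ) (z2 : Fin v → Fin n → ℂ)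
  (a : Fin v → Fin (r + 1) → ℂ) (z0 : Fin y → Fin n → ℂ), (∀ i, w i 0 ≠ 0) →
  TraS d z1 z2 z0 → TraV d z1 z2 a z0 → ResZ d π w z1 z2 a z0 →
  ∃ t : ℂ, KillT d π w z1 z2 a z0 t

/-! ## numbers -/

/-- the choice of the numbers -/
def S_NUM : Prop := ∀ n d r : ℕ, 1 ≤ n → 1 ≤ r → r ≤ n → 4 * (n + 1) ^ 2 * (n + 3) ≤ d + 3 →
  ∀ h : ℕ, (r + 1) * NN (n + 1) (d + 2) ≤ (n + r + 2) * h →
    (n + r + 2) * h < (r + 1) * NN (n + 1) (d + 2) + (n + r + 2) →
  ∃ (u y : ℕ) (p : Fin (r + 1) → ℕ), NN n (d + 2) = (n + r + 1) * u + y ∧ y ≤ n + r ∧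
    (r + 1) * u + y + ∑ j, p j = h ∧
    (∀ j, NN (n + 1) d ≤ (n + 1) * p j + ∑ i, p i) ∧
    (n + 1) * p 0 + ∑ i, p i + (n + 1) * y + u ≤ NN (n + 1) (d + 1) ∧
    (∀ j, (n + 1) * p j + ∑ i, p i ≤ NN (n + 1) (d + 1)) ∧
    (∀ j, (n + 3) * p j ≤ NN (n + 1) (d + 2))

/-! ## the result -/

/-- few forms -/
def S_FEW : Prop := ∀ n d r h : ℕ, 1 ≤ n → 1 ≤ r → r ≤ n → 4 * (n + 1) ^ 2 * (n + 3) ≤ d + 3 →
  (r + 1) * NN (n + 1) (d + 2) ≤ (n + r + 2) * h →
  ∃ (z : Fin h → Fin (n + 1) → ℂ) (a : Fin h → Fin (r + 1) → ℂ) (y : Fin 0 → Fin (n + 1) → ℂ),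
    Kill (n + 1) (d + 2) z a y

end Pool.Agent.WarS


end

section

/-!
# Simultaneous Waring decompositions (MP_db021c_ag): the block lemma for small q   (helper34)

The block lemma of `Pool/Agent/War` for `μ = n q + D`, `q + D < n`, in all degrees `≥ 4`.
`QB n d b c D`: `b + c` full points and the right number of simple points kill `b` forms of degree
`≤ d` (this is the case `q = 1`). It is proved in degree 3 by two explicit models, lifted to all
degrees (`S_UP`), and gives the case of small `q` in degree `d + 1` (`S_SB`).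
A statement `S_X` is proved by a theorem `x_X : S_X`, or `x_X (h : S_Y) ... : S_X` if it uses others.
-/

set_option autoImplicit false

open Module MvPolynomial
open Pool.Agent.War Pool.Agent.WarS

namespace Pool.Agent.WarQ

/-- the case `q = 1` of the block lemma: `μ = n + D`, `m = b + c` -/
def QB (n d b c D : ℕ) : Prop :=
  ∃ (z : Fin (b + c) → Fin n → ℂ) (a : Fin (b + c) → Fin b → ℂ)
    (y : Fin (NN n d - (n + D) - (b + c)) → Fin n → ℂ), Kill n d z a y

/-! ## 1. A linear system of cubics with `n + 1` special points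

`bar n 0, ..., bar n n` are the barycentric coordinates of `ℂⁿ` (their sum is `1`), `ww n m` is the
vertex where `bar n m = 1`. `uu n l = bar l * ∑_j (l - j) (bar j)²`. `BL n` is the set of common
zeros of the `uu n l`. -/

/-- barycentric coordinates -/
noncomputable def bar (n : ℕ) : Fin (n + 1) → MvPolynomial (Fin n) ℂ :=
  Fin.cons (1 - ∑ i, X i) X

/-- the cubics -/
noncomputable def uu (n : ℕ) (l : Fin (n + 1)) : MvPolynomial (Fin n) ℂ :=
  bar n l * ∑ j : Fin (n + 1), C ((l.val : ℂ) - (j.val : ℂ)) * bar n j ^ 2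

/-- the vertices -/
def ww (n : ℕ) (m : Fin (n + 1)) : Fin n → ℂ := fun i => if i.succ = m then 1 else 0

/-- the base points -/
def BL (n : ℕ) : Set (Fin n → ℂ) := {x | ∀ l, eval x (uu n l) = 0}

/-- Easy facts. (1) degree. (2) vertices are base points: `bar l (w_m) = δ_lm`, and for `l = m` the sum
`∑_j (m - j) (bar j)²` is `0` at `w_m`. (3) gradients at `w_m`: for `l ≠ m` the gradient of `uu l` is
`(l - m) d(bar l)` and for `l = m` it is `0`; the `d(bar l)`, `l ≠ m`, are linearly independent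
(`∑_l d(bar l) = 0` is the only relation). (4) a point with `uu 0 ≠ 0`: `bar 0 = bar 1 = 1/2`, i.e.
`x 0 = 1/2`, other coordinates `0` (value `-1/8`). -/
def S_D0 : Prop := ∀ n : ℕ,
  (∀ l, (uu n l).totalDegree ≤ 3) ∧ (∀ l, (bar n l).totalDegree ≤ 1) ∧
  (∀ l m, eval (ww n m) (bar n l) = if l = m then 1 else 0) ∧
  (∀ m, ww n m ∈ BL n) ∧
  (∀ (m : Fin (n + 1)) (γ : Fin (n + 1) → ℂ),
    (∀ k : Fin n, ∑ l, γ l * eval (ww n m) (pderiv k (uu n l)) = 0) → ∀ l, l ≠ m → γ l = 0) ∧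
  (1 ≤ n → ∃ y : Fin n → ℂ, eval y (uu n 0) ≠ 0)

/-- The cubics through `BL n` are the combinations of the `uu n l`, and no quadric contains `BL n`.
Proof. For distinct `i, j, k` take complex `p, q, r` with `p² = j - k`, `q² = k - i`, `r² = i - j` (numbers
`i, j, k` as real numbers). The four sums `σ = ± p ± q ± r` are nonzero: `∏ (±) = -2 (p⁴ + q⁴ + r⁴)` up to sign,
as `p² + q² + r² = 0` (and `p⁴ = (j-k)²` etc. are positive). The points with barycentric coordinates
`(± p, ± q, ± r)/σ` at `i, j, k` (others `0`) are in `BL n`: with `A = ∑ bar², B = ∑ j bar_j²` one has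
`uu l = bar l (l A - B)` and `p² + q² + r² = 0`, `i p² + j q² + k r² = 0`. The vertices are in `BL n`.
Every `f` of degree `≤ 3` can be written `f = ∑_{a,b,c} B_abc bar_a bar_b bar_c`, `B` symmetric (all
monomials of degree `≤ 3` are products of three elements of `{1, X_i}`, which lie in the span of the `bar`'s);
let `F(X) = ∑ B_abc X_a X_b X_c` for `X ∈ ℂ^(n+1)`; `F(X) = 0` if `X/∑X ∈ BL n`, `f` vanishes on `BL n`.
Vertices: `B_aaa = 0`. Sign points: `F(p, q, r) = 6 B_ijk p q r + 3 p (B_jji q² + B_kki r²) + 3 q (B_iij p² + B_kkj r²)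
+ 3 r (B_iik p² + B_jjk q²)`, vanishing for all signs of `q` and `r`: so all four terms vanish (characters of the
group of signs; `p, q, r ≠ 0`): `B_ijk = 0` and `B_jji (k - i) + B_kki (i - j) = 0`, i.e. `B_jji / (i - j) = B_kki / (i - k)`:
the number `γ_i = 3 B_jji / (i - j)` does not depend on `j ≠ i` (`n ≥ 2`). So
`F = ∑_{i ≠ j} 3 B_jji X_j² X_i = ∑_i γ_i X_i ∑_j (i - j) X_j²`. Quadrics: the same with
`F = ∑ B_ab X_a X_b`: `B_aa = 0`, and `B_ij p q + B_ik p r + B_jk q r = 0` for all signs, so `B_ij = 0`. -/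
def S_D1 : Prop := ∀ n : ℕ, 2 ≤ n →
  (∀ f : MvPolynomial (Fin n) ℂ, f.totalDegree ≤ 2 → (∀ x ∈ BL n, eval x f = 0) → f = 0) ∧
  ∀ f : MvPolynomial (Fin n) ℂ, f.totalDegree ≤ 3 → (∀ x ∈ BL n, eval x f = 0) →
    ∃ γ : Fin (n + 1) → ℂ, f = ∑ l, C (γ l) * uu n l

/-! ## 2. Products -/

/-- Products. Cubics which vanish on a product of sets, none of which lies on a quadric, are sums
of cubics in the groups of variables. Proof. Two groups `x`, `y`, sets `Z`, `W` (neither contained in a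
quadric; in particular nonempty). Let `f(x,y)` have degree `≤ 3` and vanish on `Z × W`. For fixed `y, y'` the
polynomial `x ↦ f(x,y) - f(x,y')` has degree `≤ 2` (monomials `x^α y^β`: those with `|α| = 3` cancel).
(i) If `y, y' ∈ W` it vanishes on `Z`, so it is `0`. (ii) For arbitrary `x`, and fixed `x₀ ∈ Z`, `y₀ ∈ W`, the
polynomial `y ↦ f(x,y) - f(x₀,y) - f(x,y₀) + f(x₀,y₀)` has degree `≤ 2` and vanishes on `W` by (i), so it is `0`:
`f(x,y) = f(x,y₀) + f(x₀,y)`. And: no quadric contains `Z × W` (if `f` has degree `≤ 2`: for `y ∈ W`, `f(·,y) = 0`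
identically; then for every `x`, `f(x,·)` vanishes on `W`, so it is `0`). Then induction on the set of groups which are
varied, the other groups being fixed at a point of the product: for `A ⊆ J` and points `x`, `y ∈ ∏ Z`,
`f(x on A, y off A) = ∑_{j ∈ A} f(x on j, y off j)`. -/
def S_PROD : Prop := ∀ (J : Type) [Fintype J] (sz : J → ℕ) (Z : ∀ j, Set (Fin (sz j) → ℂ)),
  (∀ j, ∀ f : MvPolynomial (Fin (sz j)) ℂ, f.totalDegree ≤ 2 → (∀ p ∈ Z j, eval p f = 0) →
    f = 0) →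
  ∀ f : MvPolynomial ((j : J) × Fin (sz j)) ℂ, f.totalDegree ≤ 3 →
    (∀ p : ∀ j, Fin (sz j) → ℂ, (∀ j, p j ∈ Z j) → eval (fun v => p v.1 v.2) f = 0) →
    ∃ g : ∀ j, MvPolynomial (Fin (sz j)) ℂ,
      (∀ j, (g j).totalDegree ≤ 3 ∧ ∀ p ∈ Z j, eval p (g j) = 0) ∧
      f = ∑ j, rename (fun i => (⟨j, i⟩ : (j : J) × Fin (sz j))) (g j)

/-! ## 3. Choice of the simple points -/

/-- Selection. If the `z i ∈ Y` are independent for cubics and at least `k` independent cubics vanish on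
`Y`, then `N - k - m` points of `Y` can be chosen such that every cubic vanishing there and at the `z i`
vanishes on `Y`. Proof: `War.red` with `Y` as parameter set, `W` = cubics through the `z i` (dimension `≤ N - m`:
the evaluation `Pol n 3 → ℂᵐ` is onto; `finrank_Pol_le`), `W'` = cubics through `Y` (dimension `≥ k`). -/
def S_SEL : Prop := ∀ (n m k : ℕ) (Y : Set (Fin n → ℂ)) (z : Fin m → Fin n → ℂ), Y.Nonempty →
  (∀ i, z i ∈ Y) →
  (∀ i, ∃ h : MvPolynomial (Fin n) ℂ, h.totalDegree ≤ 3 ∧ eval (z i) h ≠ 0 ∧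
    ∀ i', i' ≠ i → eval (z i') h = 0) →
  (∃ v : Fin k → MvPolynomial (Fin n) ℂ, LinearIndependent ℂ v ∧
    ∀ j, (v j).totalDegree ≤ 3 ∧ ∀ y ∈ Y, eval y (v j) = 0) →
  ∃ y : Fin (NN n 3 - k - m) → Fin n → ℂ, (∀ j, y j ∈ Y) ∧
    ∀ f : MvPolynomial (Fin n) ℂ, f.totalDegree ≤ 3 → (∀ i, eval (z i) f = 0) →
      (∀ j, eval (y j) f = 0) → ∀ p ∈ Y, eval p f = 0

/-! ## 4. The model with groups of variables -/

/-- the points all of whose group components are base points; `e` numbers the variables -/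
def PT {n K : ℕ} {sz : Fin K → ℕ} (e : ((g : Fin K) × Fin (sz g)) ≃ Fin n) :
    Set (Fin n → ℂ) :=
  {p | ∀ g, (fun i => p (e ⟨g, i⟩)) ∈ BL (sz g)}

/-- the point with group components the vertices `κ g i` -/
def zz {n K m : ℕ} {sz : Fin K → ℕ} (e : ((g : Fin K) × Fin (sz g)) ≃ Fin n)
    (κ : ∀ g, Fin m → Fin (sz g + 1)) (i : Fin m) : Fin n → ℂ :=
  fun v => ww (sz (e.symm v).1) (κ (e.symm v).1 i) (e.symm v).2

/-- the cubic `uu w` in the variables of group `g` -/
noncomputable def ug {n K : ℕ} {sz : Fin K → ℕ} (e : ((g : Fin K) × Fin (sz g)) ≃ Fin n)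
    (g : Fin K) (w : Fin (sz g + 1)) : MvPolynomial (Fin n) ℂ :=
  rename (fun i => e ⟨g, i⟩) (uu (sz g) w)

/-- Kernel of the full conditions in the group model. By `S_PROD` (transported by `e`) and `S_D1` every
`f j` is `∑ γ g w j * ug g w`. The `g`-components of the full condition at `zz i` read
`∑_w (a_i · γ g w) ∇uu w (ww (κ g i)) = 0`, and `S_D0` (3) gives `a_i · γ g w = 0` for `w ≠ κ g i`. -/
def S_GR : Prop := ∀ (n K m b : ℕ) (sz : Fin K → ℕ) (e : ((g : Fin K) × Fin (sz g)) ≃ Fin n)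
  (κ : ∀ g, Fin m → Fin (sz g + 1)) (a : Fin m → Fin b → ℂ)
  (f : Fin b → MvPolynomial (Fin n) ℂ), (∀ g, 2 ≤ sz g) → (∀ j, (f j).totalDegree ≤ 3) →
  (∀ j, ∀ p ∈ PT e, eval p (f j) = 0) →
  (∀ i k, ∑ j, a i j * eval (zz e κ i) (pderiv k (f j)) = 0) →
  ∃ γ : ∀ g, Fin (sz g + 1) → Fin b → ℂ,
    (∀ j, f j = ∑ g, ∑ w, C (γ g w j) * ug e g w) ∧
    ∀ g w i, κ g i ≠ w → ∑ j, a i j * γ g w j = 0

/-- Points and independence in the group model: (1) `zz i ∈ PT`; (2) the `ug g w` vanish on `PT`, have degree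
`≤ 3`, and are linearly independent (a relation `∑ γ g w ug g w = 0` gives, by the derivatives in the
variables of group `g` at the points all of whose components are vertices `0`, resp. vertices `1`, that
`γ g w = 0` for `w ≠ 0`, resp. `w ≠ 1`; `S_D0` (3)); (3) if `(κ g₁ i, κ g₂ i)` determines `i` then the
`zz i` are independent for cubics: `h = bar (κ g₁ i) (group g₁) * bar (κ g₂ i) (group g₂)`, degree `≤ 2`;
(4) there is a point `y₀` (component `y` of `S_D0` (4) in every group) where all `ug g 0`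
are nonzero. -/
def S_GI : Prop := ∀ (n K m : ℕ) (sz : Fin K → ℕ) (e : ((g : Fin K) × Fin (sz g)) ≃ Fin n)
  (κ : ∀ g, Fin m → Fin (sz g + 1)), (∀ g, 2 ≤ sz g) →
  (∀ i, zz e κ i ∈ PT e) ∧
  (∀ g w, (ug e g w).totalDegree ≤ 3 ∧ ∀ p ∈ PT e, eval p (ug e g w) = 0) ∧
  (LinearIndependent ℂ fun q : (g : Fin K) × Fin (sz g + 1) => ug e q.1 q.2) ∧
  (∀ g₁ g₂, (∀ i i', κ g₁ i = κ g₁ i' → κ g₂ i = κ g₂ i' → i = i') →
    ∀ i, ∃ h : MvPolynomial (Fin n) ℂ, h.totalDegree ≤ 3 ∧ eval (zz e κ i) h ≠ 0 ∧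
      ∀ i', i' ≠ i → eval (zz e κ i') h = 0) ∧
  ∃ y₀ : Fin n → ℂ, ∀ g, eval y₀ (ug e g 0) ≠ 0

/-- number of the indices of type `v` -/
def cnt {m k : ℕ} (κ : Fin m → Fin k) (v : Fin k) : ℕ := (Finset.univ.filter fun i => κ i = v).card

/-- Case A: `D` groups, all classes of size `≤ c`. Take `a i j = i ^ j` (a nonzero polynomial of degree `< b`
does not have `b` zeros: a vector orthogonal to `b` of the `a i` is `0`). `S_GR` with `m = b + c`: `γ g w` is
orthogonal to the `a i` with `κ g i ≠ w`, at least `b` of them, so `γ = 0`. The space of cubics through `PT`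
has dimension `≥ ∑ (sz g + 1) = n + D` (`S_GI`); `S_SEL` with `Y = PT e`, `k = n + D`, `m = b + c`. -/
def S_TA : Prop := ∀ (n b c D : ℕ) (sz : Fin D → ℕ) (κ : ∀ g, Fin (b + c) → Fin (sz g + 1)),
  1 ≤ b → 1 ≤ D → ∑ g, sz g = n → (∀ g, 2 ≤ sz g) → (∀ g v, cnt (κ g) v ≤ c) →
  (∃ g₁ g₂, ∀ i i', κ g₁ i = κ g₁ i' → κ g₂ i = κ g₂ i' → i = i') → QB n 3 b c D

/-- Case B: `D + 1` groups and one more simple point. `Y = PT e ∪ {y₀}`, `y₀` from `S_GI` (4), `a i j = i ^ j`.
Cubics through `Y`: dimension `≥ ∑ (sz g + 1) - 1 = n + D` (the kernel of evaluation at `y₀` on the span of the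
`ug`). By `S_GR` `γ g w ⊥ a i` if `κ g i ≠ w`; so `γ g w = 0` for `w ≠ 0` (class of size `≤ c`). Evaluation at `y₀`:
`∑_g ν_g γ g 0 = 0` with `ν_g = ug g 0 (y₀) ≠ 0`. For `i ∈ E j`: `a i ⊥ γ g 0` for all groups `g ≠ j + 1`, so also
`a i ⊥ γ (j + 1) 0`. So `γ (j + 1) 0 ⊥ a i` for all `i` except at most `c`: `γ (j + 1) 0 = 0` for all `j`, and then
`γ 0 0 = 0`. -/
def S_TB : Prop := ∀ (n b c D : ℕ) (sz : Fin (D + 1) → ℕ)
  (κ : ∀ g, Fin (b + c) → Fin (sz g + 1)) (E : Fin D → Finset (Fin (b + c))),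
  1 ≤ b → ∑ g, sz g = n → (∀ g, 2 ≤ sz g) → (∀ g v, v ≠ 0 → cnt (κ g) v ≤ c) →
  (∀ j, ∀ i ∈ E j, κ 0 i ≠ 0 ∧ ∀ j', j' ≠ j → κ (Fin.succ j') i ≠ 0) →
  (∀ j, (Finset.univ.filter fun i => κ (Fin.succ j) i = 0 ∧ i ∉ E j).card ≤ c) →
  (∃ g₁ g₂, ∀ i i', κ g₁ i = κ g₁ i' → κ g₂ i = κ g₂ i' → i = i') → QB n 3 b c D

/-- Combinatorics of case A: `s = ⌈b/c⌉`, sizes `s, ..., s, n - (D-1) s`; `κ 0 i = ⌊i/c⌋`,
`κ g i = i mod (s + 1)` for `g ≥ 1`. Class sizes: at most `c` (`b + c ≤ c (s + 1)`). `(κ 0, κ 1)` determines `i`, as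
`c ≤ s + 1`; if `D = 1` then `c = 1` and `κ 0` is injective. -/
def S_CA : Prop := ∀ n b c D : ℕ, 1 ≤ c → c < b → 1 ≤ D → (D = 1 → c = 1) → c * c ≤ b →
  D * ((b + c - 1) / c) ≤ n →
  ∃ (sz : Fin D → ℕ) (κ : ∀ g, Fin (b + c) → Fin (sz g + 1)),
    ∑ g, sz g = n ∧ (∀ g, 2 ≤ sz g) ∧ (∀ g v, cnt (κ g) v ≤ c) ∧
    ∃ g₁ g₂, ∀ i i', κ g₁ i = κ g₁ i' → κ g₂ i = κ g₂ i' → i = i'

/-- Combinatorics of case B. Write `b = β c + ρ`, `1 ≤ ρ < c`, `β ≥ 2 D ≥ 2 c`, `n = D β + ρ'`, `1 ≤ ρ' < D`,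
`D ρ ≤ ρ' c`. Number the `b + c` indices as pairs `(m,o)`, `0 ≤ m ≤ β`, `0 ≤ o < c`, and `ρ` extra ones `*_e`.
Groups `1, ..., D` (they are `Fin.succ j`, `j = g - 1`) and group `0`.
If `ρ' ≥ 2` (case B1): sizes `β` for the groups `1..D`, `ρ'` for group `0`. If `ρ' = 1` (case B2) then `D = c`, `ρ = 1`:
sizes `β`, but `β - 1` for group 2 and `2` for group 0.
`κ 1`: `(m,o) ↦ m`, `*_e ↦ 0`; `E 1 = {*_e}`.
`κ 2`: `(m,o) ↦ (m + o) mod (β + 1)`, except `(e+1, c-1) ↦ 0` for `e < ρ`; `*_e ↦ c + e`;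
`E 2 = {(e+1, c-1)}`. In case B2 moreover the class `{(m,o) : m + o = c + 1}` is also sent to `0` (and added to `E 2`),
and the labels `> c + 1` are lowered by `1`.
`κ g`, `g ≥ 3`, with `k = g - 2`: `(m,o) ↦ m`, except `(k,o) ↦ 0` for `o < ρ`; `*_e ↦ k`; `E g = {(k,o) : o < ρ}`.
All nonzero classes have size `≤ c`; the zero class minus `E g` is `{(0,o)}` (`g ≠ 2`), `{m + o ≡ 0}` (`g = 2`), of size `c`;
`E g` is disjoint from the zero classes of the other groups `1..D`; `(κ 1, κ 2)` determines the index.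
(All this was checked by computer for `n < 90`; for `β + 1 - o` note `β + 2 - c ≥ c + 2`.)
`κ 0`: `∪ E g` has `D ρ ≤ ρ' c` elements (B1), resp. `(c - 1) + (c + 1) = 2 c` (B2); give them nonzero labels, every label at
most `c` times, all other indices the label `0`. -/
def S_CB : Prop := ∀ n b c D : ℕ, 1 ≤ c → c < b → b ≤ n → b * D ≤ n * c → n * c < b * (D + 1) →
  2 * D * D ≤ b → n < D * ((b + c - 1) / c) →
  ∃ (sz : Fin (D + 1) → ℕ) (κ : ∀ g, Fin (b + c) → Fin (sz g + 1))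
    (E : Fin D → Finset (Fin (b + c))),
    ∑ g, sz g = n ∧ (∀ g, 2 ≤ sz g) ∧ (∀ g v, v ≠ 0 → cnt (κ g) v ≤ c) ∧
    (∀ j, ∀ i ∈ E j, κ 0 i ≠ 0 ∧ ∀ j', j' ≠ j → κ (Fin.succ j') i ≠ 0) ∧
    (∀ j, (Finset.univ.filter fun i => κ (Fin.succ j) i = 0 ∧ i ∉ E j).card ≤ c) ∧
    ∃ g₁ g₂, ∀ i i', κ g₁ i = κ g₁ i' → κ g₂ i = κ g₂ i' → i = i'

/-- First model: many forms (`2 D² ≤ b`). From `S_TA`, `S_TB`, `S_CA`, `S_CB`; `c ≤ D` as `b ≤ n` (from
`n c < b (D+1)`), so `c² ≤ b`; if `D = 1` then `c = 1`. -/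
def S_T : Prop := ∀ n b c D : ℕ, 1 ≤ c → c < b → b ≤ n → b * D ≤ n * c → n * c < b * (D + 1) →
  2 * D * D ≤ b → QB n 3 b c D

/-! ## 5. The model with a linear space

Variables `x j`, `j < D` (`Sum.inl j`), and `y i`, `i < k` (`Sum.inr i`); `Λ = {y = 0}`;
`hh i j = 1/(i + j + 1)`. Quadrics `u₁ i = y_i (1 - ∑_j hh i j x_j - y_i)`, `u₂ j = x_j ∑_i hh i j y_i`. -/

/-- Hilbert matrix -/
noncomputable def hh (i j : ℕ) : ℂ := ((i : ℂ) + (j : ℂ) + 1)⁻¹

/-- the quadric `∑ γ₁ i u₁ i + ∑ γ₂ j u₂ j` -/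
noncomputable def qq {D k : ℕ} (γ₁ : Fin k → ℂ) (γ₂ : Fin D → ℂ) :
    MvPolynomial (Fin D ⊕ Fin k) ℂ :=
  (∑ i : Fin k, C (γ₁ i) * (X (Sum.inr i) *
    (1 - ∑ j : Fin D, C (hh i j) * X (Sum.inl j) - X (Sum.inr i)))) +
  ∑ j : Fin D, C (γ₂ j) * (X (Sum.inl j) * ∑ i : Fin k, C (hh i j) * X (Sum.inr i))

/-- base points `(0, e_i)` (for `i = l`) and `(0, e_i + e_l)` -/
def pa {D k : ℕ} (i l : Fin k) : Fin D ⊕ Fin k → ℂ :=
  Sum.elim 0 fun t => if t = i ∨ t = l then 1 else 0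

/-- base points `x = ξ e_j`, `y = (1 - ξ a) e_0 + (1 - ξ b) e_(i+1)` with `a = hh 0 j`,
`b = hh (i + 1) j`, `ξ = (a + b)/(a² + b²)` -/
noncomputable def pb {D k : ℕ} (j : Fin D) (i : Fin (k + 1)) : Fin D ⊕ Fin (k + 2) → ℂ :=
  Sum.elim
    (fun l => if l = j then (hh 0 j + hh (i.val + 1) j) / (hh 0 j ^ 2 + hh (i.val + 1) j ^ 2)
      else 0)
    fun t => if t = 0 then
        1 - (hh 0 j + hh (i.val + 1) j) / (hh 0 j ^ 2 + hh (i.val + 1) j ^ 2) * hh 0 j
      else if t.val = i.val + 1 then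
        1 - (hh 0 j + hh (i.val + 1) j) / (hh 0 j ^ 2 + hh (i.val + 1) j ^ 2) * hh (i.val + 1) j
      else 0

/-- Nodes. `hh i j = 1/(s_j - t_i)` with `t_i = -i`, `s_j = j + 1`. Let `S₂'` be the complement of `S₂`, so
`|S₁| = |S₂'|`. The polynomial `P(T) = ∏_{i ∈ S₁} (T - t_i) - ∏_{j ∈ S₂'} (T - s_j)` has degree `< |S₂'|`, so by
Lagrange interpolation `∏_{i ∈ S₁} (T - t_i) / ∏_{j ∈ S₂'} (T - s_j) = 1 - ∑_{j ∈ S₂'} x_j / (s_j - T)` with
`x_j = P(s_j) / ∏_{j' ≠ j} (s_j - s_j')`, `P(s_j) = ∏_{i ∈ S₁} (s_j - t_i) ≠ 0`; `x_j = 0` for `j ∈ S₂`. At `T = t_i`: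
`1 - ∑_j hh i j x_j = ∏_{i' ∈ S₁} (t_i - t_i') / ∏ (t_i - s_j)`, which is `0` iff `i ∈ S₁`.
Last statement: for `i ∈ S₁`: `∑_{j ∈ S₂'} γ₂ j / (s_j - t_i) = 0`; the numerator of `∑ γ₂ j / (s_j - T)` has degree
`< |S₂'| = |S₁|` and the zeros `t_i`, so it is `0`, and its values at the `s_j` give `γ₂ = 0`; then `γ₁ = 0`. -/
def S_NOD : Prop := ∀ (D k : ℕ) (S₁ : Finset (Fin k)) (S₂ : Finset (Fin D)),
  S₁.card + S₂.card = D → ∃ x : Fin D → ℂ, (∀ j, x j = 0 ↔ j ∈ S₂) ∧
    (∀ i : Fin k, ∑ j : Fin D, hh i j * x j = 1 ↔ i ∈ S₁) ∧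
    ∀ (γ₁ : Fin k → ℂ) (γ₂ : Fin D → ℂ), (∀ i ∈ S₁, γ₁ i = 0) → (∀ j ∈ S₂, γ₂ j = 0) →
      (∀ i : Fin k, γ₁ i + ∑ j : Fin D, hh i j * γ₂ j = 0) → γ₁ = 0 ∧ γ₂ = 0

/-- The quadrics through `Λ` and the base points are the `qq γ₁ γ₂`. Proof. `g` of degree `≤ 2` vanishing on `Λ`
is `∑ y_i (α_i + ∑_j β_ij x_j) + ∑_{i ≤ l} δ_il y_i y_l`. At `(0, e_i)`: `δ_ii = -α_i`; at `(0, e_i + e_l)`: `δ_il = 0`. So
`g - qq α 0 = ∑ β'_ij x_j y_i`. At `pb j i`, with `ξ ≠ 0`: `β'_0j y_0 + β'_(i+1)j y_(i+1) = 0`, where with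
`a = hh 0 j, b = hh (i+1) j` (positive reals, `a ≠ b`) `y_0 = 1 - ξ a = b (b - a)/(a² + b²) ≠ 0`, `y_(i+1) = a (a - b)/(a² + b²)`:
so `β'_(i+1)j a = β'_0j b`, i.e. `β'_ij = γ₂ j hh i j` with `γ₂ j = β'_0j / hh 0 j`. -/
def S_LQ : Prop := ∀ (D k : ℕ) (g : MvPolynomial (Fin D ⊕ Fin (k + 2)) ℂ), g.totalDegree ≤ 2 →
  (∀ x : Fin D → ℂ, eval (Sum.elim x 0) g = 0) → (∀ i l, eval (pa i l) g = 0) →
  (∀ j i, eval (pb j i) g = 0) → ∃ γ₁ γ₂, g = qq γ₁ γ₂

/-- Computations with `qq`. (1) `qq` vanishes at the points `pa`, `pb` and on `Λ`. (2) normal derivatives at a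
point of `Λ`. (3) the gradients of the `u`'s at the point `pb j 0` are linearly independent: with `a = hh 0 j`, `b = hh 1 j`, `ξ`
as in `pb`, `y_0 = 1 - ξ a`, `y_1 = 1 - ξ b`, the derivatives of `qq γ₁ γ₂` at `pb j 0` are
in direction `y_i`, `i ≥ 2`: `γ₁ i (1 - ξ hh i j) + γ₂ j ξ hh i j`; direction `y_0`: `-γ₁ 0 y_0 + γ₂ j ξ a`; `y_1`:
`-γ₁ 1 y_1 + γ₂ j ξ b`; direction `x_l`: `-γ₁ 0 y_0 hh 0 l - γ₁ 1 y_1 hh 1 l + γ₂ l (hh 0 l y_0 + hh 1 l y_1)` (for `l = j` the
last bracket is `0`, for `l ≠ j` it is not, as `hh 0 l hh 1 j ≠ hh 1 l hh 0 j`). If all vanish: `x_j`: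
`γ₂ j ξ (a² + b²) = 0`, so `γ₂ j = 0`, `γ₁ 0 = γ₁ 1 = 0`, `γ₂ l = 0`, and `γ₁ i = 0` as `1 - ξ hh i j > 0`:
`ξ hh i j < 1` because `hh i j < b < a` and `ξ ≤ 1/b`. -/
def S_LG : Prop := ∀ (D k : ℕ) (γ₁ : Fin (k + 2) → ℂ) (γ₂ : Fin D → ℂ),
  ((∀ i l, eval (pa i l) (qq γ₁ γ₂) = 0) ∧ (∀ j i, eval (pb j i) (qq γ₁ γ₂) = 0) ∧
    ∀ x : Fin D → ℂ, eval (Sum.elim x 0) (qq γ₁ γ₂) = 0) ∧
  (∀ (x : Fin D → ℂ) (i : Fin (k + 2)), eval (Sum.elim x 0) (pderiv (Sum.inr i) (qq γ₁ γ₂)) =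
    γ₁ i * (1 - ∑ j : Fin D, hh i j * x j) + ∑ j : Fin D, hh i j * (γ₂ j * x j)) ∧
  ∀ j : Fin D, (∀ v, eval (pb j 0) (pderiv v (qq γ₁ γ₂)) = 0) → γ₁ = 0 ∧ γ₂ = 0

/-- Cyclic intervals: `S i = {i D, i D + 1, ..., i D + D - 1} mod n`, `i < b`. The element `r` is covered by at most
`⌈b D / n⌉ ≤ c` of them (the `b D ≤ n c` integers `0, ..., b D - 1` contain at most `c` integers `≡ r`, and a set
`S i` contains `r` at most once since `D ≤ n`). -/
def S_CYC : Prop := ∀ n b c D : ℕ, D ≤ n → b * D ≤ n * c → ∃ S : Fin b → Finset (Fin n),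
  (∀ i, (S i).card = D) ∧ ∀ r, (Finset.univ.filter fun i => r ∈ S i).card ≤ c

/-- number of the base points: `D (k + 1) + (k + 2)(k + 3)/2` for `k + 2` variables `y` -/
def eo (D k : ℕ) : ℕ := D * (k + 1) + (k + 3).choose 2

/-- conditions on quadrics vanishing on `Λ`: points `(x i, 0)`, `i < b`, with the normal derivatives, full points
`w l`, simple points `p t` -/
def RC {D k b c e : ℕ} (x : Fin b → Fin D → ℂ) (a : Fin b ⊕ Fin c → Fin b → ℂ)
    (w : Fin c → Fin D ⊕ Fin k → ℂ) (p : Fin e → Fin D ⊕ Fin k → ℂ)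
    (g : Fin b → MvPolynomial (Fin D ⊕ Fin k) ℂ) : Prop :=
  (∀ j (x : Fin D → ℂ), eval (Sum.elim x 0) (g j) = 0) ∧
  (∀ i t, ∑ j, a (Sum.inl i) j * eval (Sum.elim (x i) 0) (pderiv (Sum.inr t) (g j)) = 0) ∧
  (∀ l j, eval (w l) (g j) = 0) ∧
  (∀ l v, ∑ j, a (Sum.inr l) j * eval (w l) (pderiv v (g j)) = 0) ∧
  ∀ t j, eval (p t) (g j) = 0

/-- Residual lemma for the linear space. `n = D + k + 2`. Take the cyclic sets `S i` of `S_CYC` in
`Fin D ⊕ Fin (k+2)` (numbered), `x i` from `S_NOD` with `S₁, S₂` the parts of `S i`; `a = (τ^0, ..., τ^(b-1))` for `b + c`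
different `τ`; `w l = pb l 0`, `l < c ≤ D`; `p` = all the other base points `pa i l`, `i ≤ l`, and `pb j i`. By `S_LQ` every
`g j` is `qq (γ₁ j) (γ₂ j)`. For a vector `a`, `∑ a_j g_j = qq (a·γ₁) (a·γ₂)`. Full points: `a (inr l)·γ = 0` (`S_LG` (3)). Points
`x i`: `S_LG` (2) and `S_NOD` with `γ₁ r (1 - ∑ hh r j x_j)`, `γ₂ j x_j` in place of `γ₁, γ₂`: `a (inl i)·γ_r = 0` for `r ∉ S i`.
So every `γ_r ∈ ℂ^b` is orthogonal to at least `(b - c) + c` of the `a`'s and vanishes. -/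
def S_LR : Prop := ∀ D k b c : ℕ, 1 ≤ b → c ≤ D → c ≤ b → b * D ≤ (D + (k + 2)) * c →
  ∃ (x : Fin b → Fin D → ℂ) (a : Fin b ⊕ Fin c → Fin b → ℂ) (w : Fin c → Fin D ⊕ Fin (k + 2) → ℂ)
    (p : Fin (eo D k - c) → Fin D ⊕ Fin (k + 2) → ℂ),
    ∀ g : Fin b → MvPolynomial (Fin D ⊕ Fin (k + 2)) ℂ, (∀ j, (g j).totalDegree ≤ 2) →
      RC x a w p g → ∀ j, g j = 0

/-- Trace on `Λ`: cubics in `D` variables, `b` forms: `b` full points and `N(D,3) - D - b` simple points kill, generically.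
Special case `a i = e_i`: the form `j` has one double point `x j` and `N(D,3) - D - 1` simple points; `GG D 3 1`, `WarS.S_SG` with
`P = {j}`; then semicontinuity (`PK.gen_bot`), exactly as in `War.traceC1` with `u = 1`. -/
def S_LT : Prop := ∀ D b : ℕ, 1 ≤ D → b + D ≤ NN D 3 →
  Gen ℂ fun q : (Fin b → Fin D → ℂ) × (Fin b → Fin b → ℂ) × (Fin (NN D 3 - D - b) → Fin D → ℂ) =>
    ∀ f : Fin b → MvPolynomial (Fin D) ℂ, (∀ j, (f j).totalDegree ≤ 3) →
      (∀ i j, eval (q.1 i) (f j) = 0) →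
      (∀ i v, ∑ j, q.2.1 i j * eval (q.1 i) (pderiv v (f j)) = 0) →
      (∀ t j, eval (q.2.2 t) (f j) = 0) → ∀ j, f j = 0

/-- Points on the hyperplane. The space of cubics `h` in the variables `Fin δ ⊕ Fin K` which vanish on `{y = 0}` has
dimension at most `N(δ+K,3) - N(δ,3)` (kernel of the surjective restriction to `MvPolynomial (Fin δ)`; `finrank_Pol_le` for the whole
space, and for `Fin δ` the dimension is at least `N(δ,3)`: count of monomials, `GG.le`-type bound or induction with `NN_succ`); general points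
lower the dimension by one each (`War.red`). -/
def S_LH : Prop := ∀ δ K : ℕ, ∃ y : Fin (NN (δ + K) 3 - NN δ 3) → Fin δ ⊕ Fin K → ℂ,
  ∀ h : MvPolynomial (Fin δ ⊕ Fin K) ℂ, h.totalDegree ≤ 3 →
    (∀ x : Fin δ → ℂ, eval (Sum.elim x 0) h = 0) → (∀ t, eval (y t) h = 0) → h = 0

/-- `S_LR` is a generic property (semicontinuity: the tuples `g` of degree `≤ 2` with `RC` form a family of subspaces of a finite
dimensional space cut out by functionals depending polynomially on the parameters, intersected with the fixed subspace of the tuples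
vanishing on `Λ`; `PK.gen_bot`, `PK.comap`). -/
def S_LS : Prop := ∀ D k b c : ℕ, 1 ≤ b → c ≤ D → c ≤ b → b * D ≤ (D + (k + 2)) * c →
  Gen ℂ fun q : (Fin b → Fin D → ℂ) × (Fin b ⊕ Fin c → Fin b → ℂ) ×
      (Fin c → Fin D ⊕ Fin (k + 2) → ℂ) × (Fin (eo D k - c) → Fin D ⊕ Fin (k + 2) → ℂ) =>
    ∀ g : Fin b → MvPolynomial (Fin D ⊕ Fin (k + 2)) ℂ, (∀ j, (g j).totalDegree ≤ 2) →
      RC q.1 q.2.1 q.2.2.1 q.2.2.2 g → ∀ j, g j = 0

/-- The hyperplane `x_0 = 0` in the variables `Fin (δ + 1) ⊕ Fin K`: (1) restriction: for `f` there is `h` in the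
variables `Fin δ ⊕ Fin K` (substitute `x_0 = 0`), of degree `≤ deg f`, with the values of `f` at the points with `x_0 = 0`; (2) if these values
are all `0` then `f = x_0 g` with `deg g ≤ d` if `deg f ≤ d + 1`; (3) `x_0 g` at a point `p` with `x_0 ≠ 0`. -/
def S_LX : Prop := ∀ δ K : ℕ,
  (∀ f : MvPolynomial (Fin (δ + 1) ⊕ Fin K) ℂ, ∃ h : MvPolynomial (Fin δ ⊕ Fin K) ℂ,
    h.totalDegree ≤ f.totalDegree ∧ ∀ (x : Fin δ → ℂ) (y : Fin K → ℂ),
      eval (Sum.elim x y) h = eval (Sum.elim (Fin.cons 0 x) y) f) ∧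
  (∀ (d : ℕ) (f : MvPolynomial (Fin (δ + 1) ⊕ Fin K) ℂ), f.totalDegree ≤ d + 1 →
    (∀ p : Fin (δ + 1) ⊕ Fin K → ℂ, p (Sum.inl 0) = 0 → eval p f = 0) →
    ∃ g : MvPolynomial (Fin (δ + 1) ⊕ Fin K) ℂ, g.totalDegree ≤ d ∧ f = X (Sum.inl 0) * g) ∧
  ∀ (g : MvPolynomial (Fin (δ + 1) ⊕ Fin K) ℂ) (p : Fin (δ + 1) ⊕ Fin K → ℂ),
    p (Sum.inl 0) ≠ 0 → eval p (X (Sum.inl 0) * g) = 0 → eval p g = 0 ∧
      ∀ v, eval p (pderiv v (X (Sum.inl 0) * g)) = p (Sum.inl 0) * eval p (pderiv v g)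

/-- Change of the names of the variables and of the points (`rename`, `pderiv_rename`). -/
def S_TRP : Prop := ∀ (V α β : Type) [Fintype V] [Fintype α] [Fintype β] (n d b m e : ℕ),
  Fintype.card V = n → Fintype.card α = m → Fintype.card β = e →
  ∀ (z : α → V → ℂ) (a : α → Fin b → ℂ) (y : β → V → ℂ),
    (∀ f : Fin b → MvPolynomial V ℂ, (∀ j, (f j).totalDegree ≤ d) →
      (∀ i j, eval (z i) (f j) = 0) → (∀ i v, ∑ j, a i j * eval (z i) (pderiv v (f j)) = 0) →
      (∀ i j, eval (y i) (f j) = 0) → ∀ j, f j = 0) →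
    ∃ (z' : Fin m → Fin n → ℂ) (a' : Fin m → Fin b → ℂ) (y' : Fin e → Fin n → ℂ),
      Kill n d z' a' y'

/-- Second model: `b < 2 D²`. `n = D + k + 2`. Let `ν = n - 1`; the variables of `ℂⁿ` are numbered such that `x_0` is the
first variable (`D ≥ 1`); `H = {x_0 = 0}`.
(1) On `Λ`: `b` full points `x i` and `N(D,3) - D - b ≥ 0` simple points, generic, as in `S_LT`.
(2) `N(n-1,3) - N(D-1,3)` simple points on `H` from `S_LH` (`δ = D - 1`, `K = k + 2`).
(3) off points: `c` full points `w`, `eo D k - c` simple points `p`, generic, as in `S_LS`. Choose `(x, a)` generic for (1) and (3) at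
the same time (`Gen.comp`, `Gen.and`), all of `x i`, `w`, `p` with `x_0 ≠ 0` (`Gen.ne`).
Kill: `f|Λ = 0` by (1); then `f|H = 0` by (2); `f = x_0 g`, `g` of degree `≤ 2`, vanishes on `Λ`, and satisfies `RC` since
`x_0 ≠ 0` at the points (`∂(x_0 g) = x_0 ∂g` where `g = 0`). Numbers: `N(D,3) - D - b`, `N(n-1,3) - N(D-1,3)`, `eo D k - c` add
up to `N(n,3) - (n + D) - (b + c)` (then `S_TRP`), as `eo D k = N(n,2) - N(D,2) - n`. And `b ≤ 2 D² - 1 ≤ N(D,3) - D`
(`D³ - 6 D² + 5 D + 12 = (D+1)(D-3)(D-4) ≥ 0`). -/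
def S_L : Prop := ∀ n b c D : ℕ, 1 ≤ c → c ≤ D → c < b → b * D ≤ n * c → b < 2 * D * D →
  D + 2 ≤ n → QB n 3 b c D

/-! ## 6. Assembly -/

/-- degree 3: `S_T` and `S_L` -/
def S_Q3 : Prop := ∀ n b c D : ℕ, 1 ≤ c → c < b → b ≤ n → b * D ≤ n * c → n * c < b * (D + 1) →
  D + 2 ≤ n → QB n 3 b c D

/-- Lifting the degree: `N(n-1,d+1)` simple points on `H = {x_0 = 0}` kill `f|H`; then `f = x_0 g`, and the points of
`QB n d b c D` (generic, so off `H`; `Kill` is a generic property) kill `g`. -/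
def S_UP : Prop := ∀ n d b c D : ℕ, 1 ≤ n → (n + D) + (b + c) ≤ NN n d → QB n d b c D →
  QB n (d + 1) b c D

/-- Small `q`, here with `q + 1` in place of `q`. `n = ν + 1`. On `H`: `b q` full points, `e_H = N(ν,d+1) - (ν + b) q`
simple points; trace: with pure `a` the form `j` has `q` double points and `(b - 1) q + e_H` simple ones, kernel `0`
(`GG ν (d+1) q`, `WarS.S_SG`), so for general `a` too. Off `H`: `b + c` full points, `e' = N(n,d) - (n + D + q) - (b + c)` simple ones.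
Residual, degree `d`: `V = {g : conditions at the off points}` has dimension `≤ b q` for a suitable choice (the points of `QB n d b c D`,
`q` simple points removed: the evaluation at the removed points is injective on `V`), so for a general choice (semicontinuity; then the
points are off `H` and kill scalar polynomials of degree `≤ d - 1`, as `b + c + e' ≥ N(n,d-1)`). A `g ∈ V` vanishing on `H` is
`x_0 g'`, `g'` of degree `≤ d - 1` vanishing at the off points, so `g = 0`. Hence `b q` general partial conditions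
`∑ a_j g_j(z) = 0`, `z ∈ H` (`War.red`, `OmC1`) kill `V`, and this is generic in `(z, a)`; combine with the trace. As in `War.C1_core`,
with this `V` in place of the product of scalar spaces. Numbers: `e_H + e' = N(n,d+1) - (n(q+1) + D) - (b (q+1) + c)`. -/
def S_SB : Prop := ∀ ν d b c D q : ℕ, 1 ≤ ν → 1 ≤ d → 1 ≤ b →
  GG ν (d + 1) q → (ν + b) * q ≤ NN ν (d + 1) → (ν + 1 + D + q) + (b + c) ≤ NN (ν + 1) d →
  ν + 1 + D + q ≤ NN ν d → QB (ν + 1) d b c D →
  ∃ (z : Fin (b * (q + 1) + c) → Fin (ν + 1) → ℂ) (a : Fin (b * (q + 1) + c) → Fin b → ℂ)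
    (y : Fin (NN (ν + 1) (d + 1) - ((ν + 1) * (q + 1) + D) - (b * (q + 1) + c)) →
      Fin (ν + 1) → ℂ), Kill (ν + 1) (d + 1) z a y

/-- Result: `Block` for small `q`, `D = ⌊n c / b⌋`. For `q = 1` it is `QB`, otherwise `S_SB` with `q - 1`; `Block n d b (n q + D)`
has `⌈b (n q + D)/n⌉ = b q + c` full points. `S_Q3`, `S_UP`, `S_SB`; the double points: `GG ν d (q - 1)` from the hypothesis
`S_AH` (`(2 ν + 1) (q - 1) ≤ N(ν,d)`, since `q ≤ n - 2` and `(2n - 1)(n - 3) ≤ N(n-1,4)`). -/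
def S_SMALL : Prop := (∀ n d p : ℕ, 1 ≤ n → 3 ≤ d → (2 * n + 1) * p ≤ NN n d → GG n d p) →
  ∀ n d b c D q : ℕ, 4 ≤ d → 1 ≤ c → c < b → b ≤ n → b * D ≤ n * c → n * c < b * (D + 1) →
  1 ≤ q → q + D < n → Block n d b (n * q + D)

end Pool.Agent.WarQ


end
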