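import Mathlib
import Pool.Agent.CLAM.C02

/-! Parts: WarR.Defs, WarR.Res, WarR.Split, WarR.Step, WarR.Tools, WarR.Star, WarR.Peel, WarR.Chain -/

section

/-!
# Tuples of quadratic forms with full and simple points (MP_db021c_ag, degree 2)   (helper14)

`SF K m`: symmetric `m × m` matrices; `bf A x y`: the bilinear form. A configuration consists of full
points `(z i, a i)` and simple points `y l`. `ZK` is the space of the `b`-tuples `F` of quadratic forms on
`K ^ m` with `F(z i, z i) = 0`, `∑_j a i j F_j(z i, ·) = 0` and `F(y l, y l) = 0`. `KQ m b x s r`: for some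
(equivalently: for a general) configuration with `x` full and `s` simple points, `dim ZK ≤ r`.
-/

set_option autoImplicit false

open Module

namespace Pool.Agent.WarR

open Pool.Agent.War

/-- symmetric matrices -/
def SF (K : Type*) [Field K] (m : ℕ) : Submodule K (Fin m → Fin m → K) where
  carrier := {A | ∀ i j, A i j = A j i}
  add_mem' := by
    intro A B hA hB i j
    simp only [Pi.add_apply, hA i j, hB i j]
  zero_mem' := fun _ _ => rfl
  smul_mem' := by
    intro c A hA i j
    simp only [Pi.smul_apply, hA i j]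

section

variable {K : Type*} [Field K]

/-- the bilinear form with the matrix `A` -/
def bf {m : ℕ} (A : Fin m → Fin m → K) (x y : Fin m → K) : K := ∑ i, ∑ j, x i * y j * A i j

theorem bf_add {m : ℕ} (A B : Fin m → Fin m → K) (x y : Fin m → K) :
    bf (A + B) x y = bf A x y + bf B x y := by
  simp only [bf, Pi.add_apply, mul_add, Finset.sum_add_distrib]

theorem bf_smul {m : ℕ} (c : K) (A : Fin m → Fin m → K) (x y : Fin m → K) :
    bf (c • A) x y = c * bf A x y := by
  simp only [bf, Pi.smul_apply, smul_eq_mul, Finset.mul_sum]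
  refine Finset.sum_congr rfl fun i _ => Finset.sum_congr rfl fun j _ => by ring

theorem bf_zero {m : ℕ} (x y : Fin m → K) : bf (0 : Fin m → Fin m → K) x y = 0 := by
  simp [bf]

theorem bf_add_right {m : ℕ} (A : Fin m → Fin m → K) (x y z : Fin m → K) :
    bf A x (y + z) = bf A x y + bf A x z := by
  simp only [bf, Pi.add_apply, mul_add, add_mul, Finset.sum_add_distrib]

theorem bf_smul_right {m : ℕ} (c : K) (A : Fin m → Fin m → K) (x y : Fin m → K) :
    bf A x (c • y) = c * bf A x y := by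
  simp only [bf, Pi.smul_apply, smul_eq_mul, Finset.mul_sum]
  refine Finset.sum_congr rfl fun i _ => Finset.sum_congr rfl fun j _ => by ring

theorem bf_comm {m : ℕ} {A : Fin m → Fin m → K} (hA : A ∈ SF K m) (x y : Fin m → K) :
    bf A x y = bf A y x := by
  unfold bf
  rw [Finset.sum_comm]
  refine Finset.sum_congr rfl fun i _ => Finset.sum_congr rfl fun j _ => ?_
  rw [hA j i]
  ring

theorem bf_single {m : ℕ} (A : Fin m → Fin m → K) (i j : Fin m) :
    bf A (Pi.single i 1) (Pi.single j 1) = A i j := by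
  classical
  unfold bf
  rw [Finset.sum_eq_single i, Finset.sum_eq_single j]
  · simp
  · intro k _ hk
    simp [hk]
  · simp
  · intro k _ hk
    simp [hk]
  · simp

/-- `bf` as a linear function of the matrix -/
def bfL {m : ℕ} (x y : Fin m → K) : (Fin m → Fin m → K) →ₗ[K] K where
  toFun A := bf A x y
  map_add' A B := bf_add A B x y
  map_smul' c A := bf_smul c A x y

@[simp] theorem bfL_apply {m : ℕ} (x y : Fin m → K) (A : Fin m → Fin m → K) :
    bfL x y A = bf A x y := rfl

/-- the parameters: full points, their vectors, simple points -/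
abbrev Cfg (K : Type*) [Field K] (m b : ℕ) (I J : Type) : Type _ :=
  (I → Fin m → K) × (I → Fin b → K) × (J → Fin m → K)

/-- the tuples of quadratic forms with the conditions -/
def ZK {m b : ℕ} {I J : Type} (c : Cfg K m b I J) : Submodule K (Fin b → SF K m) where
  carrier := {F | (∀ i j, bf (F j : Fin m → Fin m → K) (c.1 i) (c.1 i) = 0) ∧
    (∀ i v, ∑ j, c.2.1 i j * bf (F j : Fin m → Fin m → K) (c.1 i) v = 0) ∧
    ∀ l j, bf (F j : Fin m → Fin m → K) (c.2.2 l) (c.2.2 l) = 0}
  add_mem' := by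
    rintro F G ⟨h1, h2, h3⟩ ⟨k1, k2, k3⟩
    refine ⟨fun i j => ?_, fun i v => ?_, fun l j => ?_⟩
    · rw [Pi.add_apply, Submodule.coe_add, bf_add, h1, k1, add_zero]
    · simp only [Pi.add_apply, Submodule.coe_add, bf_add, mul_add, Finset.sum_add_distrib, h2 i v,
        k2 i v, add_zero]
    · rw [Pi.add_apply, Submodule.coe_add, bf_add, h3, k3, add_zero]
  zero_mem' := by
    refine ⟨fun i j => ?_, fun i v => ?_, fun l j => ?_⟩ <;> simp [bf_zero]
  smul_mem' := by
    rintro r F ⟨h1, h2, h3⟩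
    refine ⟨fun i j => ?_, fun i v => ?_, fun l j => ?_⟩
    · rw [Pi.smul_apply, Submodule.coe_smul, bf_smul, h1, mul_zero]
    · simp only [Pi.smul_apply, Submodule.coe_smul, bf_smul]
      have : ∀ j, c.2.1 i j * (r * bf (F j : Fin m → Fin m → K) (c.1 i) v) =
          r * (c.2.1 i j * bf (F j : Fin m → Fin m → K) (c.1 i) v) := fun j => by ring
      simp only [this, ← Finset.mul_sum, h2 i v, mul_zero]
    · rw [Pi.smul_apply, Submodule.coe_smul, bf_smul, h3, mul_zero]

theorem mem_ZK {m b : ℕ} {I J : Type} {c : Cfg K m b I J} {F : Fin b → SF K m} : F ∈ ZK c ↔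
    (∀ i j, bf (F j : Fin m → Fin m → K) (c.1 i) (c.1 i) = 0) ∧
    (∀ i v, ∑ j, c.2.1 i j * bf (F j : Fin m → Fin m → K) (c.1 i) v = 0) ∧
    ∀ l j, bf (F j : Fin m → Fin m → K) (c.2.2 l) (c.2.2 l) = 0 := Iff.rfl

/-- the basis vectors are enough -/
theorem full_iff {m b : ℕ} (F : Fin b → Fin m → Fin m → K) (a : Fin b → K) (z : Fin m → K) :
    (∀ v, ∑ j, a j * bf (F j) z v = 0) ↔ ∀ k : Fin m, ∑ j, a j * bf (F j) z (Pi.single k 1) = 0 := by
  classical
  constructor
  · intro h k
    exact h _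
  · intro h v
    have e1 : v = ∑ k, v k • (Pi.single k (1 : K) : Fin m → K) := by
      funext i
      simp [Finset.sum_apply, Pi.single_apply]
    have e2 : ∀ j, bf (F j) z v = ∑ k, v k * bf (F j) z (Pi.single k 1) := by
      intro j
      conv_lhs => rw [e1]
      have : ∀ s : Finset (Fin m), bf (F j) z (∑ k ∈ s, v k • (Pi.single k (1 : K) : Fin m → K)) =
          ∑ k ∈ s, v k * bf (F j) z (Pi.single k 1) := by
        intro s
        induction s using Finset.induction_on with
        | empty => simp [bf]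
        | insert k s hk ih =>
          rw [Finset.sum_insert hk, Finset.sum_insert hk, bf_add_right, bf_smul_right, ih]
      exact this _
    simp only [e2, Finset.mul_sum]
    rw [Finset.sum_comm]
    refine Finset.sum_eq_zero fun k _ => ?_
    have : ∀ j, a j * (v k * bf (F j) z (Pi.single k 1)) =
        v k * (a j * bf (F j) z (Pi.single k 1)) := fun j => by ring
    simp only [this, ← Finset.mul_sum, h k, mul_zero]

theorem LP_apply {X : Type*} [AddCommGroup X] [Module K X] {m : ℕ} (L : X →ₗ[K] (Fin m → K))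
    (k : Fin m) : LP fun x => L x k :=
  LP.linear ((LinearMap.proj k : (Fin m → K) →ₗ[K] K).comp L)

theorem LP_bf {X : Type*} [AddCommGroup X] [Module K X] {m : ℕ} (A : Fin m → Fin m → K)
    {x y : X → Fin m → K} (hx : ∀ k, LP fun p => x p k) (hy : ∀ k, LP fun p => y p k) :
    LP fun p => bf A (x p) (y p) := by
  unfold bf
  exact LP.sum _ fun i _ => LP.sum _ fun j _ => ((hx i).mul (hy j)).mul (LP.const _)

/-- a value of one form -/
def evF {m b : ℕ} (z : Fin m → K) (j : Fin b) : (Fin b → SF K m) →ₗ[K] K where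
  toFun F := bf (F j : Fin m → Fin m → K) z z
  map_add' F G := by rw [Pi.add_apply, Submodule.coe_add, bf_add]
  map_smul' r F := by rw [Pi.smul_apply, Submodule.coe_smul, bf_smul]; rfl

@[simp] theorem evF_apply {m b : ℕ} (z : Fin m → K) (j : Fin b) (F : Fin b → SF K m) :
    evF z j F = bf (F j : Fin m → Fin m → K) z z := rfl

/-- a mixed polar value -/
def dvF {m b : ℕ} (a : Fin b → K) (z v : Fin m → K) : (Fin b → SF K m) →ₗ[K] K where
  toFun F := ∑ j, a j * bf (F j : Fin m → Fin m → K) z v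
  map_add' F G := by
    simp only [Pi.add_apply, Submodule.coe_add, bf_add, mul_add, Finset.sum_add_distrib]
  map_smul' r F := by
    simp only [Pi.smul_apply, Submodule.coe_smul, bf_smul, RingHom.id_apply, smul_eq_mul,
      Finset.mul_sum]
    exact Finset.sum_congr rfl fun j _ => by ring

@[simp] theorem dvF_apply {m b : ℕ} (a : Fin b → K) (z v : Fin m → K) (F : Fin b → SF K m) :
    dvF a z v F = ∑ j, a j * bf (F j : Fin m → Fin m → K) z v := rfl

theorem LP_c1 {m b : ℕ} {I J : Type} (i : I) (k : Fin m) : LP fun c : Cfg K m b I J => c.1 i k :=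
  LP_apply ((LinearMap.proj i : (I → Fin m → K) →ₗ[K] (Fin m → K)).comp
    (LinearMap.fst K (I → Fin m → K) ((I → Fin b → K) × (J → Fin m → K)))) k

theorem LP_c2 {m b : ℕ} {I J : Type} (i : I) (k : Fin b) :
    LP fun c : Cfg K m b I J => c.2.1 i k :=
  LP_apply (((LinearMap.proj i : (I → Fin b → K) →ₗ[K] (Fin b → K)).comp
    (LinearMap.fst K (I → Fin b → K) (J → Fin m → K))).comp
    (LinearMap.snd K (I → Fin m → K) ((I → Fin b → K) × (J → Fin m → K)))) k

theorem LP_c3 {m b : ℕ} {I J : Type} (i : J) (k : Fin m) :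
    LP fun c : Cfg K m b I J => c.2.2 i k :=
  LP_apply (((LinearMap.proj i : (J → Fin m → K) →ₗ[K] (Fin m → K)).comp
    (LinearMap.snd K (I → Fin b → K) (J → Fin m → K))).comp
    (LinearMap.snd K (I → Fin m → K) ((I → Fin b → K) × (J → Fin m → K)))) k

/-- the configurations form a polynomial family -/
theorem PK_ZK {m b : ℕ} {I J : Type} [Finite I] [Finite J] :
    PK fun c : Cfg K m b I J => ZK c := by
  have h1 : PK fun c : Cfg K m b I J => ⨅ q : I × Fin b, LinearMap.ker (evF (c.1 q.1) q.2) := by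
    refine PK.iInf fun q => PK.one (φ := fun c : Cfg K m b I J => evF (c.1 q.1) q.2) fun F => ?_
    simp only [evF_apply]
    exact LP_bf _ (LP_c1 q.1) (LP_c1 q.1)
  have h2 : PK fun c : Cfg K m b I J => ⨅ q : I × Fin m,
      LinearMap.ker (dvF (c.2.1 q.1) (c.1 q.1) (Pi.single q.2 1)) := by
    refine PK.iInf fun q => PK.one (φ := fun c : Cfg K m b I J =>
      dvF (c.2.1 q.1) (c.1 q.1) (Pi.single q.2 1)) fun F => ?_
    simp only [dvF_apply]
    exact LP.sum _ fun j _ => (LP_c2 q.1 j).mul (LP_bf _ (LP_c1 q.1) fun k => LP.const _)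
  have h3 : PK fun c : Cfg K m b I J => ⨅ q : J × Fin b, LinearMap.ker (evF (c.2.2 q.1) q.2) := by
    refine PK.iInf fun q => PK.one (φ := fun c : Cfg K m b I J => evF (c.2.2 q.1) q.2) fun F => ?_
    simp only [evF_apply]
    exact LP_bf _ (LP_c3 q.1) (LP_c3 q.1)
  refine ((h1.inf h2).inf h3).congr fun c => ?_
  ext F
  have e : ∀ i : I, (∀ v, ∑ j, c.2.1 i j * bf (F j : Fin m → Fin m → K) (c.1 i) v = 0) ↔
      ∀ k : Fin m, ∑ j, c.2.1 i j * bf (F j : Fin m → Fin m → K) (c.1 i) (Pi.single k 1) = 0 :=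
    fun i => full_iff (fun j => (F j : Fin m → Fin m → K)) _ _
  simp only [Submodule.mem_inf, Submodule.mem_iInf, LinearMap.mem_ker, evF_apply, dvF_apply,
    mem_ZK, e, Prod.forall, and_assoc]

/-- there are `x` full points and `s` simple points with `dim ZK ≤ r` -/
def KQ (K : Type*) [Field K] (m b x s r : ℕ) : Prop :=
  ∃ c : Cfg K m b (Fin x) (Fin s), finrank K (ZK c) ≤ r

theorem KQ.gen {m b x s r : ℕ} (h : KQ K m b x s r) :
    Gen K fun c : Cfg K m b (Fin x) (Fin s) => finrank K (ZK c) ≤ r := by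
  obtain ⟨c, hc⟩ := h
  exact PK_ZK.gen_finrank hc

/-- reindexing -/
theorem ZK_reindex {m b : ℕ} {I J I' J' : Type} (e : I' ≃ I) (e' : J' ≃ J) (c : Cfg K m b I J) :
    ZK (c.1 ∘ e, c.2.1 ∘ e, c.2.2 ∘ e') = ZK c := by
  ext F
  rw [mem_ZK, mem_ZK]
  refine and_congr ?_ (and_congr ?_ ?_)
  · exact ⟨fun h i j => by simpa using h (e.symm i) j, fun h i j => h (e i) j⟩
  · exact ⟨fun h i j => by simpa using h (e.symm i) j, fun h i j => h (e i) j⟩
  · exact ⟨fun h i j => by simpa using h (e'.symm i) j, fun h i j => h (e' i) j⟩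

theorem KQ.of_cfg {m b x s r : ℕ} {I J : Type} [Fintype I] [Fintype J] (c : Cfg K m b I J)
    (hI : Fintype.card I = x) (hJ : Fintype.card J = s) (h : finrank K (ZK c) ≤ r) :
    KQ K m b x s r := by
  refine ⟨(c.1 ∘ (Fintype.equivFinOfCardEq hI).symm, c.2.1 ∘ (Fintype.equivFinOfCardEq hI).symm,
    c.2.2 ∘ (Fintype.equivFinOfCardEq hJ).symm), ?_⟩
  rw [ZK_reindex]
  exact h

end

end Pool.Agent.WarR


end

section

/-!
# The residual lemma of the split simple point   (helper14, after note 2390 of helper51)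

`H = K ^ m`, `G : H → K ^ b` linear, given by its rows `G j`.
-/

set_option autoImplicit false

open Module

namespace Pool.Agent.WarR

open Pool.Agent.War

section

variable {K : Type*} [Field K]

/-- the value of the linear map with the rows `G j` -/
def lv {m b : ℕ} (v : Fin m → K) : (Fin b → Fin m → K) →ₗ[K] (Fin b → K) where
  toFun G j := ∑ k, v k * G j k
  map_add' F G := by
    funext j
    simp only [Pi.add_apply, mul_add, Finset.sum_add_distrib]
  map_smul' r F := by
    funext j
    simp only [Pi.smul_apply, smul_eq_mul, RingHom.id_apply, Finset.mul_sum]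
    exact Finset.sum_congr rfl fun k _ => by ring

theorem lv_apply {m b : ℕ} (v : Fin m → K) (G : Fin b → Fin m → K) (j : Fin b) :
    lv v G j = ∑ k, v k * G j k := rfl

theorem lv_add {m b : ℕ} (v w : Fin m → K) (G : Fin b → Fin m → K) :
    lv (v + w) G = lv v G + lv w G := by
  funext j
  simp only [lv_apply, Pi.add_apply, add_mul, Finset.sum_add_distrib]

theorem lv_smul {m b : ℕ} (r : K) (v : Fin m → K) (G : Fin b → Fin m → K) :
    lv (r • v) G = r • lv v G := by
  funext j
  simp only [lv_apply, Pi.smul_apply, smul_eq_mul, Finset.mul_sum]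
  exact Finset.sum_congr rfl fun k _ => by ring

theorem lv_single {m b : ℕ} (k : Fin m) (G : Fin b → Fin m → K) (j : Fin b) :
    lv (Pi.single k 1) G j = G j k := by
  classical
  rw [lv_apply, Finset.sum_eq_single k]
  · simp
  · intro i _ hi
    simp [hi]
  · simp

/-- scalar product with `a` -/
def dt {b : ℕ} (a : Fin b → K) : (Fin b → K) →ₗ[K] K where
  toFun g := ∑ j, a j * g j
  map_add' f g := by simp only [Pi.add_apply, mul_add, Finset.sum_add_distrib]
  map_smul' r f := by
    simp only [Pi.smul_apply, smul_eq_mul, RingHom.id_apply, Finset.mul_sum]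
    exact Finset.sum_congr rfl fun k _ => by ring

theorem dt_apply {b : ℕ} (a g : Fin b → K) : dt a g = ∑ j, a j * g j := rfl

/-- a functional of rank one -/
def ro {m b : ℕ} (q : (Fin b → K) × (Fin m → K)) : (Fin b → Fin m → K) →ₗ[K] K :=
  (dt q.1).comp (lv q.2)

theorem ro_apply {m b : ℕ} (q : (Fin b → K) × (Fin m → K)) (G : Fin b → Fin m → K) :
    ro q G = ∑ j, q.1 j * ∑ k, q.2 k * G j k := rfl

/-- choice of `k` vectors which cut down a subspace `R` -/
theorem choose_cut {b x : ℕ} (a : Fin x → Fin b → K) (ha : ∀ g, (∀ i, dt (a i) g = 0) → g = 0)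
    (R : Submodule K (Fin b → K)) (k : ℕ) (hk : k ≤ x) :
    ∃ I : Finset (Fin x), I.card = k ∧
      finrank K ↥(R ⊓ ⨅ i ∈ I, LinearMap.ker (dt (a i))) ≤ finrank K R - k := by
  classical
  induction k with
  | zero => exact ⟨∅, rfl, Submodule.finrank_mono inf_le_left⟩
  | succ k ih =>
    obtain ⟨I, hI, hI2⟩ := ih (by omega)
    set U := R ⊓ ⨅ i ∈ I, LinearMap.ker (dt (a i)) with hU
    have hmono : ∀ i₀, R ⊓ ⨅ i ∈ insert i₀ I, LinearMap.ker (dt (a i)) ≤ U := by
      intro i₀
      refine inf_le_inf_left _ ?_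
      exact biInf_mono fun i hi => Finset.mem_insert_of_mem hi
    by_cases hU0 : U = ⊥
    · -- an arbitrary new element
      obtain ⟨i₀, hi₀⟩ : ∃ i₀, i₀ ∉ I := by
        by_contra hcon
        push Not at hcon
        have h1 : (Finset.univ : Finset (Fin x)) ⊆ I := fun i _ => hcon i
        have h2 := Finset.card_le_card h1
        rw [Finset.card_univ, Fintype.card_fin] at h2
        omega
      refine ⟨insert i₀ I, by rw [Finset.card_insert_of_notMem hi₀, hI], ?_⟩
      refine (Submodule.finrank_mono (hmono i₀)).trans ?_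
      rw [hU0, finrank_bot]
      exact Nat.zero_le _
    · obtain ⟨u, hu, hu0⟩ := (Submodule.ne_bot_iff U).1 hU0
      obtain ⟨i₀, hi₀⟩ : ∃ i₀, dt (a i₀) u ≠ 0 := by
        by_contra hcon
        push Not at hcon
        exact hu0 (ha u hcon)
      have hiI : i₀ ∉ I := by
        intro h
        apply hi₀
        have h1 := hu.2
        rw [SetLike.mem_coe, Submodule.mem_iInf] at h1
        have h2 := h1 i₀
        rw [Submodule.mem_iInf] at h2
        exact h2 h
      refine ⟨insert i₀ I, by rw [Finset.card_insert_of_notMem hiI, hI], ?_⟩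
      have hlt : finrank K ↥(R ⊓ ⨅ i ∈ insert i₀ I, LinearMap.ker (dt (a i))) < finrank K U := by
        refine Submodule.finrank_lt_finrank_of_lt (lt_of_le_of_ne (hmono i₀) ?_)
        intro he
        rw [← he] at hu
        have h1 := hu.2
        rw [SetLike.mem_coe, Submodule.mem_iInf] at h1
        have h2 := h1 i₀
        rw [Submodule.mem_iInf] at h2
        exact hi₀ (h2 (Finset.mem_insert_self _ _))
      omega

/-- the last part of the residual space -/
def E1 {m b x s : ℕ} (I : Finset (Fin x)) (c : (Fin x → Fin m → K) × (Fin x → Fin b → K) ×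
    (Fin m → K) × (Fin s → Fin m → K)) : Submodule K (Fin b → Fin m → K) :=
  (LinearMap.ker (lv c.2.2.1) ⊓ ⨅ l, LinearMap.ker (lv (c.2.2.2 l))) ⊓
    ((⨅ i : {i // i ∈ I}, LinearMap.ker (lv (c.1 i))) ⊓
      ⨅ i : {i // i ∉ I}, LinearMap.ker (ro (c.2.1 i, c.1 i)))

theorem mem_E1 {m b x s : ℕ} {I : Finset (Fin x)} {c : (Fin x → Fin m → K) ×
    (Fin x → Fin b → K) × (Fin m → K) × (Fin s → Fin m → K)} {G : Fin b → Fin m → K} :
    G ∈ E1 I c ↔ (lv c.2.2.1 G = 0 ∧ ∀ l, lv (c.2.2.2 l) G = 0) ∧
      (∀ i ∈ I, lv (c.1 i) G = 0) ∧ ∀ i ∉ I, ro (c.2.1 i, c.1 i) G = 0 := by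
  simp only [E1, Submodule.mem_inf, Submodule.mem_iInf, LinearMap.mem_ker, Subtype.forall]

theorem LP_lv {X : Type*} [AddCommGroup X] [Module K X] {m b : ℕ} (G : Fin b → Fin m → K)
    {v : X → Fin m → K} (hv : ∀ k, LP fun p => v p k) (j : Fin b) : LP fun p => lv (v p) G j := by
  simp only [lv_apply]
  exact LP.sum _ fun k _ => (hv k).mul (LP.const _)

theorem PK_lv {X : Type*} [AddCommGroup X] [Module K X] {m b : ℕ} {v : X → Fin m → K}
    (hv : ∀ k, LP fun p => v p k) :
    PK fun p => LinearMap.ker (lv (K := K) (b := b) (v p)) := by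
  have h : PK fun p => ⨅ j : Fin b, LinearMap.ker
      ((LinearMap.proj j : (Fin b → K) →ₗ[K] K).comp (lv (v p))) := by
    refine PK.iInf fun j => PK.one (φ := fun p =>
      (LinearMap.proj j : (Fin b → K) →ₗ[K] K).comp (lv (v p))) fun G => ?_
    exact LP_lv G hv j
  refine h.congr fun p => ?_
  ext G
  simp only [Submodule.mem_iInf, LinearMap.mem_ker, LinearMap.comp_apply, LinearMap.proj_apply]
  exact ⟨fun h => funext h, fun h j => congrFun h j⟩

theorem PK_ro {X : Type*} [AddCommGroup X] [Module K X] {m b : ℕ} {v : X → Fin m → K}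
    {a : X → Fin b → K} (hv : ∀ k, LP fun p => v p k) (ha : ∀ j, LP fun p => a p j) :
    PK fun p => LinearMap.ker (ro (a p, v p)) := by
  refine PK.one (φ := fun p => ro (a p, v p)) fun G => ?_
  simp only [ro_apply]
  exact LP.sum _ fun j _ => (ha j).mul (LP.sum _ fun k _ => (hv k).mul (LP.const _))

theorem PK_E1 {m b x s : ℕ} (I : Finset (Fin x)) :
    PK fun c : (Fin x → Fin m → K) × (Fin x → Fin b → K) × (Fin m → K) × (Fin s → Fin m → K) =>
      E1 I c := by
  let X : Type _ := (Fin x → Fin m → K) × (Fin x → Fin b → K) × (Fin m → K) ×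
    (Fin s → Fin m → K)
  have l1 : ∀ (i : Fin x) (k : Fin m), LP fun c : X => c.1 i k := fun i k =>
    LP_apply ((LinearMap.proj i : (Fin x → Fin m → K) →ₗ[K] (Fin m → K)).comp
      (LinearMap.fst K (Fin x → Fin m → K) ((Fin x → Fin b → K) × (Fin m → K) ×
        (Fin s → Fin m → K)))) k
  have l2 : ∀ (i : Fin x) (k : Fin b), LP fun c : X => c.2.1 i k := fun i k =>
    LP_apply (((LinearMap.proj i : (Fin x → Fin b → K) →ₗ[K] (Fin b → K)).comp
      (LinearMap.fst K (Fin x → Fin b → K) ((Fin m → K) × (Fin s → Fin m → K)))).comp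
      (LinearMap.snd K (Fin x → Fin m → K) ((Fin x → Fin b → K) × (Fin m → K) ×
        (Fin s → Fin m → K)))) k
  have l3 : ∀ (k : Fin m), LP fun c : X => c.2.2.1 k := fun k =>
    LP_apply (((LinearMap.fst K (Fin m → K) (Fin s → Fin m → K)).comp
      (LinearMap.snd K (Fin x → Fin b → K) ((Fin m → K) × (Fin s → Fin m → K)))).comp
      (LinearMap.snd K (Fin x → Fin m → K) ((Fin x → Fin b → K) × (Fin m → K) ×
        (Fin s → Fin m → K)))) k
  have l4 : ∀ (i : Fin s) (k : Fin m), LP fun c : X => c.2.2.2 i k := fun i k =>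
    LP_apply ((((LinearMap.proj i : (Fin s → Fin m → K) →ₗ[K] (Fin m → K)).comp
      (LinearMap.snd K (Fin m → K) (Fin s → Fin m → K))).comp
      (LinearMap.snd K (Fin x → Fin b → K) ((Fin m → K) × (Fin s → Fin m → K)))).comp
      (LinearMap.snd K (Fin x → Fin m → K) ((Fin x → Fin b → K) × (Fin m → K) ×
        (Fin s → Fin m → K)))) k
  exact ((PK_lv l3).inf (PK.iInf fun l => PK_lv (l4 l))).inf
    ((PK.iInf fun i : {i // i ∈ I} => PK_lv (l1 i)).inf
      (PK.iInf fun i : {i // i ∉ I} => PK_ro (l1 i) (l2 i)))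

/-- general position of the last part of the residual space -/
theorem E1_gen {m b x s k p : ℕ} (I : Finset (Fin x)) (hI : I.card = k) (hm : 1 + k + s + p = m) :
    Gen K fun c : (Fin x → Fin m → K) × (Fin x → Fin b → K) × (Fin m → K) ×
      (Fin s → Fin m → K) => finrank K (E1 I c) ≤ b * p - (x - k) := by
  classical
  -- coordinates
  have hcard : Fintype.card (Unit ⊕ (Fin k ⊕ (Fin s ⊕ Fin p))) = m := by
    simp only [Fintype.card_sum, Fintype.card_unit, Fintype.card_fin]
    omega
  let e : Unit ⊕ (Fin k ⊕ (Fin s ⊕ Fin p)) ≃ Fin m := Fintype.equivFinOfCardEq hcard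
  let W : Submodule K (Fin b → Fin m → K) :=
    ⨅ q : Fin b × (Unit ⊕ (Fin k ⊕ Fin s)), LinearMap.ker
      ((LinearMap.proj (e (Sum.elim Sum.inl (Sum.elim (fun i => Sum.inr (Sum.inl i))
        fun i => Sum.inr (Sum.inr (Sum.inl i))) q.2)) : (Fin m → K) →ₗ[K] K).comp
        (LinearMap.proj q.1 : (Fin b → Fin m → K) →ₗ[K] (Fin m → K)))
  have hW : ∀ G, G ∈ W ↔ ∀ j, G j (e (Sum.inl ())) = 0 ∧ (∀ i, G j (e (Sum.inr (Sum.inl i))) = 0) ∧
      ∀ i, G j (e (Sum.inr (Sum.inr (Sum.inl i)))) = 0 := by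
    intro G
    simp only [W, Submodule.mem_iInf, LinearMap.mem_ker, LinearMap.comp_apply,
      LinearMap.proj_apply, Prod.forall]
    constructor
    · intro h j
      exact ⟨h j (Sum.inl ()), fun i => h j (Sum.inr (Sum.inl i)),
        fun i => h j (Sum.inr (Sum.inr i))⟩
    · rintro h j (u | i | i)
      · exact (h j).1
      · exact (h j).2.1 i
      · exact (h j).2.2 i
  have hWdim : finrank K W ≤ b * p := by
    let T : (Fin b → Fin m → K) →ₗ[K] (Fin b → Fin p → K) :=
      { toFun := fun G j l => G j (e (Sum.inr (Sum.inr (Sum.inr l))))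
        map_add' := fun _ _ => rfl
        map_smul' := fun _ _ => rfl }
    have hinj : Function.Injective (T.comp W.subtype) := by
      rw [← LinearMap.ker_eq_bot, LinearMap.ker_eq_bot']
      intro G hG
      have h1 := (hW G).1 G.2
      have h2 : ∀ j l, (G : Fin b → Fin m → K) j (e (Sum.inr (Sum.inr (Sum.inr l)))) = 0 :=
        fun j l => congrFun (congrFun hG j) l
      apply Subtype.ext
      funext j i
      obtain ⟨q, rfl⟩ := e.surjective i
      rcases q with u | i | i | i
      · exact (h1 j).1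
      · exact (h1 j).2.1 i
      · exact (h1 j).2.2 i
      · exact h2 j i
    have := LinearMap.finrank_le_finrank_of_injective hinj
    refine this.trans ?_
    rw [Module.finrank_pi_fintype]
    simp
  -- the free full points
  obtain ⟨y, hy⟩ := red (K := K) (ro (K := K) (m := m) (b := b)) W ⊥ (fun w _ hw => by
    rw [Submodule.mem_bot] at hw
    by_contra hcon
    push Not at hcon
    apply hw
    funext j i
    have := hcon (Pi.single j 1, Pi.single i 1)
    have h2 : ro ((Pi.single j 1 : Fin b → K), (Pi.single i 1 : Fin m → K)) w = w j i := by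
      rw [ro_apply, Finset.sum_eq_single j]
      · have := lv_single i w j
        rw [lv_apply] at this
        simp only [Pi.single_eq_same, one_mul]
        exact this
      · intro l _ hl
        simp [hl]
      · simp
    rw [← h2, this]
    rfl) (x - k)
  have hI2 : Fintype.card {i // i ∈ I} = k := by rw [Fintype.card_coe, hI]
  have hI3 : Fintype.card {i // i ∉ I} = x - k := by
    have h1 := Fintype.card_subtype_compl (fun i : Fin x => i ∈ I)
    rw [Fintype.card_fin] at h1
    rw [h1, ← hI2]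
  let e1 : {i // i ∈ I} ≃ Fin k := Fintype.equivFinOfCardEq hI2
  let e2 : {i // i ∉ I} ≃ Fin (x - k) := Fintype.equivFinOfCardEq hI3
  let z : Fin x → Fin m → K := fun i => if h : i ∈ I then
    Pi.single (e (Sum.inr (Sum.inl (e1 ⟨i, h⟩)))) 1 else (y (e2 ⟨i, h⟩)).2
  let a : Fin x → Fin b → K := fun i => if h : i ∈ I then 0 else (y (e2 ⟨i, h⟩)).1
  refine (PK_E1 I).gen_finrank (x₀ := (z, a, Pi.single (e (Sum.inl ())) 1,
    fun l => Pi.single (e (Sum.inr (Sum.inr (Sum.inl l)))) 1)) ?_
  have h3 : E1 I (z, a, Pi.single (e (Sum.inl ())) 1,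
      fun l => Pi.single (e (Sum.inr (Sum.inr (Sum.inl l)))) 1) ≤
      W ⊓ ⨅ i, LinearMap.ker (ro (y i)) := by
    intro G hG
    rw [mem_E1] at hG
    obtain ⟨⟨g1, g2⟩, g3, g4⟩ := hG
    refine ⟨(hW G).2 fun j => ⟨?_, fun i => ?_, fun i => ?_⟩, ?_⟩
    · rw [← lv_single (e (Sum.inl ())) G j]
      exact congrFun g1 j
    · have h4 := g3 (e1.symm i) (e1.symm i).2
      have h5 : z (e1.symm i) = Pi.single (e (Sum.inr (Sum.inl i))) 1 := by
        simp only [z]
        rw [dif_pos (e1.symm i).2]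
        congr 4
        exact e1.apply_symm_apply i
      simp only [h5] at h4
      rw [← lv_single (e (Sum.inr (Sum.inl i))) G j]
      exact congrFun h4 j
    · rw [← lv_single (e (Sum.inr (Sum.inr (Sum.inl i)))) G j]
      exact congrFun (g2 i) j
    · rw [SetLike.mem_coe, Submodule.mem_iInf]
      intro i
      have h4 := g4 (e2.symm i) (e2.symm i).2
      have h5 : z (e2.symm i) = (y i).2 := by
        simp only [z]
        rw [dif_neg (e2.symm i).2]
        congr 2
        exact e2.apply_symm_apply i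
      have h6 : a (e2.symm i) = (y i).1 := by
        simp only [a]
        rw [dif_neg (e2.symm i).2]
        congr 2
        exact e2.apply_symm_apply i
      simp only [h5, h6] at h4
      exact h4
  refine (Submodule.finrank_mono h3).trans (hy.trans ?_)
  rw [finrank_bot]
  refine max_le ?_ (Nat.zero_le _)
  omega

/-- the residual space -/
theorem resid {m b x s B1 B2 : ℕ} (I : Finset (Fin x)) (z : Fin x → Fin m → K)
    (a : Fin x → Fin b → K) (z0 : Fin m → K) (μ : Fin s → Fin m → K)
    (R : Submodule K (Fin b → K)) (h1 : finrank K (E1 I (z, a, z0, μ)) ≤ B1)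
    (h2 : finrank K ↥(R ⊓ ⨅ i ∈ I, LinearMap.ker (dt (a i))) ≤ B2)
    (E : Submodule K (Fin b → Fin m → K)) (hE : ∀ G ∈ E, (∀ i, ro (a i, z i) G = 0) ∧
      (∀ i ∈ I, lv (z i) G = lv z0 G) ∧ (∀ l, lv (μ l) G = 0) ∧ lv z0 G ∈ R) :
    finrank K E ≤ B2 + B1 := by
  refine (finrank_le_map_add_ker (lv z0) E).trans (Nat.add_le_add ?_ ?_)
  · refine (Submodule.finrank_mono ?_).trans h2
    rintro _ ⟨G, hG, rfl⟩
    obtain ⟨g1, g2, g3, g4⟩ := hE G hG
    refine ⟨g4, ?_⟩
    rw [SetLike.mem_coe, Submodule.mem_iInf]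
    intro i
    rw [Submodule.mem_iInf]
    intro hi
    rw [LinearMap.mem_ker, ← g2 i hi]
    exact g1 i
  · refine (Submodule.finrank_mono ?_).trans h1
    rintro G ⟨hG, hG0⟩
    obtain ⟨g1, g2, g3, g4⟩ := hE G hG
    rw [SetLike.mem_coe, LinearMap.mem_ker] at hG0
    rw [mem_E1]
    exact ⟨⟨hG0, g3⟩, fun i hi => by rw [g2 i hi, hG0], fun i _ => g1 i⟩

end

end Pool.Agent.WarR


end

section

/-!
# The split simple point: from the limit system to a configuration   (helper14)

`V = K ^ (m + 1)`, `H = {x 0 = 0}`, `F(p) = F_H(p') + 2 p_0 L(p)`. All full points and `y₁` simple points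
on `H`, simple points `(1, lam o)` off `H`, one simple point `(t, z0)`. `NT t`: the system for
`(t⁻¹ F_H, L)`.
-/

set_option autoImplicit false

open Module

namespace Pool.Agent.WarR

open Pool.Agent.War

section

variable {K : Type*} [Field K]

/-- the functional of an off point -/
def fO {m b : ℕ} (lam : Fin m → K) (j : Fin b) (t : K) :
    ((Fin b → SF K m) × (Fin b → Fin (m + 1) → K)) →ₗ[K] K where
  toFun p := t * bf (p.1 j : Fin m → Fin m → K) lam lam + 2 * lv (Fin.cons 1 lam) p.2 j
  map_add' p q := by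
    rw [Prod.fst_add, Prod.snd_add, Pi.add_apply, Submodule.coe_add, bf_add, map_add, Pi.add_apply]
    ring
  map_smul' r p := by
    rw [Prod.smul_fst, Prod.smul_snd, Pi.smul_apply, Submodule.coe_smul, bf_smul, map_smul,
      Pi.smul_apply, smul_eq_mul, RingHom.id_apply, smul_eq_mul]
    ring

theorem fO_apply {m b : ℕ} (lam : Fin m → K) (j : Fin b) (t : K)
    (p : (Fin b → SF K m) × (Fin b → Fin (m + 1) → K)) : fO lam j t p =
      t * bf (p.1 j : Fin m → Fin m → K) lam lam + 2 * lv (Fin.cons 1 lam) p.2 j := rfl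

/-- the functional of the split point -/
def fZ {m b : ℕ} (z0 : Fin m → K) (j : Fin b) (t : K) :
    ((Fin b → SF K m) × (Fin b → Fin (m + 1) → K)) →ₗ[K] K where
  toFun p := bf (p.1 j : Fin m → Fin m → K) z0 z0 + 2 * lv (Fin.cons t z0) p.2 j
  map_add' p q := by
    rw [Prod.fst_add, Prod.snd_add, Pi.add_apply, Submodule.coe_add, bf_add, map_add, Pi.add_apply]
    ring
  map_smul' r p := by
    rw [Prod.smul_fst, Prod.smul_snd, Pi.smul_apply, Submodule.coe_smul, bf_smul, map_smul,
      Pi.smul_apply, smul_eq_mul, RingHom.id_apply, smul_eq_mul]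
    ring

theorem fZ_apply {m b : ℕ} (z0 : Fin m → K) (j : Fin b) (t : K)
    (p : (Fin b → SF K m) × (Fin b → Fin (m + 1) → K)) : fZ z0 j t p =
      bf (p.1 j : Fin m → Fin m → K) z0 z0 + 2 * lv (Fin.cons t z0) p.2 j := rfl

/-- the system -/
def NT {m b : ℕ} {I J O : Type} (c : Cfg K m b I J) (z0 : Fin m → K) (lam : O → Fin m → K)
    (t : K) : Submodule K ((Fin b → SF K m) × (Fin b → Fin (m + 1) → K)) :=
  ((ZK c).comap (LinearMap.fst K _ _) ⊓
    ⨅ i : I, (LinearMap.ker (ro (c.2.1 i, Fin.cons 0 (c.1 i)))).comap (LinearMap.snd K _ _)) ⊓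
    ((⨅ q : O × Fin b, LinearMap.ker (fO (lam q.1) q.2 t)) ⊓
      ⨅ j : Fin b, LinearMap.ker (fZ z0 j t))

theorem mem_NT {m b : ℕ} {I J O : Type} {c : Cfg K m b I J} {z0 : Fin m → K}
    {lam : O → Fin m → K} {t : K} {p : (Fin b → SF K m) × (Fin b → Fin (m + 1) → K)} :
    p ∈ NT c z0 lam t ↔ (p.1 ∈ ZK c ∧ ∀ i, ro (c.2.1 i, Fin.cons 0 (c.1 i)) p.2 = 0) ∧
      (∀ o j, t * bf (p.1 j : Fin m → Fin m → K) (lam o) (lam o) +
        2 * lv (Fin.cons 1 (lam o)) p.2 j = 0) ∧
      ∀ j, bf (p.1 j : Fin m → Fin m → K) z0 z0 + 2 * lv (Fin.cons t z0) p.2 j = 0 := by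
  simp only [NT, Submodule.mem_inf, Submodule.mem_iInf, Submodule.mem_comap, LinearMap.mem_ker,
    LinearMap.fst_apply, LinearMap.snd_apply, fO_apply, fZ_apply, Prod.forall]

theorem PK_NT {m b : ℕ} {I J O : Type} [Finite I] [Finite J] [Finite O] (c : Cfg K m b I J)
    (z0 : Fin m → K) (lam : O → Fin m → K) : PK fun t : K => NT c z0 lam t := by
  have lt : LP fun t : K => t := LP.linear (LinearMap.id : K →ₗ[K] K)
  have h1 : PK fun _ : K => ZK c := by
    have := (PK_ZK (K := K) (m := m) (b := b) (I := I) (J := J)).comp_affine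
      (0 : K →ₗ[K] Cfg K m b I J) c
    refine this.congr fun t => ?_
    rw [LinearMap.zero_apply, zero_add]
  have h2 : PK fun _ : K => ⨅ i : I,
      (LinearMap.ker (ro (c.2.1 i, Fin.cons 0 (c.1 i)))).comap
        (LinearMap.snd K (Fin b → SF K m) (Fin b → Fin (m + 1) → K)) := by
    refine PK.iInf fun i => PK.comap ?_ _
    exact PK_ro (fun k => LP.const _) fun j => LP.const _
  refine ((h1.comap (LinearMap.fst K (Fin b → SF K m) (Fin b → Fin (m + 1) → K))).inf h2).inf
    ((PK.iInf fun q : O × Fin b => PK.one (φ := fun t : K => fO (lam q.1) q.2 t) fun p => ?_).inf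
      (PK.iInf fun j : Fin b => PK.one (φ := fun t : K => fZ z0 j t) fun p => ?_))
  · simp only [fO_apply]
    exact (lt.mul (LP.const _)).add (LP.const _)
  · simp only [fZ_apply]
    refine (LP.const _).add ((LP.const _).mul (LP_lv _ (fun k => ?_) j))
    refine Fin.cases ?_ (fun k => ?_) k
    · exact lt
    · exact LP.const _

/-- the part on the hyperplane -/
def resH {m : ℕ} : SF K (m + 1) →ₗ[K] SF K m where
  toFun A := ⟨fun i j => (A : Fin (m + 1) → Fin (m + 1) → K) i.succ j.succ,
    fun i j => A.2 i.succ j.succ⟩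
  map_add' _ _ := rfl
  map_smul' _ _ := rfl

theorem resH_apply {m : ℕ} (A : SF K (m + 1)) (i j : Fin m) :
    (resH A : Fin m → Fin m → K) i j = (A : Fin (m + 1) → Fin (m + 1) → K) i.succ j.succ := rfl

/-- the linear part -/
def linL {m : ℕ} : SF K (m + 1) →ₗ[K] (Fin (m + 1) → K) where
  toFun A := Fin.cons ((A : Fin (m + 1) → Fin (m + 1) → K) 0 0 / 2)
    fun k => (A : Fin (m + 1) → Fin (m + 1) → K) 0 k.succ
  map_add' A B := by
    funext k
    refine Fin.cases ?_ (fun k => ?_) k
    · simp only [Submodule.coe_add, Pi.add_apply, Fin.cons_zero]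
      ring
    · simp only [Submodule.coe_add, Pi.add_apply, Fin.cons_succ]
  map_smul' r A := by
    funext k
    refine Fin.cases ?_ (fun k => ?_) k
    · simp only [Submodule.coe_smul, Pi.smul_apply, Fin.cons_zero, smul_eq_mul, RingHom.id_apply]
      ring
    · simp only [Submodule.coe_smul, Pi.smul_apply, Fin.cons_succ, RingHom.id_apply]

theorem linL_zero {m : ℕ} (A : SF K (m + 1)) :
    linL A 0 = (A : Fin (m + 1) → Fin (m + 1) → K) 0 0 / 2 := rfl

theorem linL_succ {m : ℕ} (A : SF K (m + 1)) (k : Fin m) :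
    linL A k.succ = (A : Fin (m + 1) → Fin (m + 1) → K) 0 k.succ := rfl

/-- decomposition of the bilinear form -/
theorem bf_decomp [NeZero (2 : K)] {m : ℕ} (A : SF K (m + 1)) (x y : Fin (m + 1) → K) :
    bf (A : Fin (m + 1) → Fin (m + 1) → K) x y =
      bf (resH A : Fin m → Fin m → K) (fun k => x k.succ) (fun k => y k.succ) +
        x 0 * (∑ k, y k * linL A k) + y 0 * ∑ k, x k * linL A k := by
  have h2 : (2 : K) ≠ 0 := NeZero.ne 2
  have e0 : ∀ i : Fin m, (A : Fin (m + 1) → Fin (m + 1) → K) i.succ 0 =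
      (A : Fin (m + 1) → Fin (m + 1) → K) 0 i.succ := fun i => A.2 i.succ 0
  unfold bf
  simp only [Fin.sum_univ_succ, resH_apply, linL_zero, linL_succ, e0, Finset.sum_add_distrib,
    mul_add, Finset.mul_sum]
  have e1 : x 0 * (y 0 * ((A : Fin (m + 1) → Fin (m + 1) → K) 0 0 / 2)) +
      y 0 * (x 0 * ((A : Fin (m + 1) → Fin (m + 1) → K) 0 0 / 2)) =
      x 0 * y 0 * (A : Fin (m + 1) → Fin (m + 1) → K) 0 0 := by
    field_simp
    ring
  have e2 : ∀ i : Fin m, x 0 * (y i.succ * (A : Fin (m + 1) → Fin (m + 1) → K) 0 i.succ) =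
      x 0 * y i.succ * (A : Fin (m + 1) → Fin (m + 1) → K) 0 i.succ := fun i => by ring
  have e3 : ∀ i : Fin m, y 0 * (x i.succ * (A : Fin (m + 1) → Fin (m + 1) → K) 0 i.succ) =
      x i.succ * y 0 * (A : Fin (m + 1) → Fin (m + 1) → K) 0 i.succ := fun i => by ring
  simp only [e2, e3]
  linear_combination -e1

theorem resH_linL_inj [NeZero (2 : K)] {m : ℕ} {A : SF K (m + 1)} (h1 : resH A = 0)
    (h2 : linL A = 0) : A = 0 := by
  have h : ∀ x y : Fin (m + 1) → K, bf (A : Fin (m + 1) → Fin (m + 1) → K) x y = 0 := by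
    intro x y
    rw [bf_decomp, h1, h2]
    simp [bf]
  apply Subtype.ext
  funext i j
  have := h (Pi.single i 1) (Pi.single j 1)
  rw [bf_single] at this
  exact this

/-- the configuration with the parameter `t` -/
def cfgT {m b : ℕ} {I J O : Type} (c : Cfg K m b I J) (z0 : Fin m → K) (lam : O → Fin m → K)
    (t : K) : Cfg K (m + 1) b I ((J ⊕ Unit) ⊕ O) :=
  (fun i => Fin.cons 0 (c.1 i), c.2.1,
    Sum.elim (Sum.elim (fun l => Fin.cons 0 (c.2.2 l)) fun _ => Fin.cons t z0)
      fun o => Fin.cons 1 (lam o))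

theorem finrank_cfgT [NeZero (2 : K)] {m b : ℕ} {I J O : Type} (c : Cfg K m b I J)
    (z0 : Fin m → K) (lam : O → Fin m → K) {t : K} (ht : t ≠ 0) :
    finrank K (ZK (cfgT c z0 lam t)) ≤ finrank K (NT c z0 lam t) := by
  let Ψ : (Fin b → SF K (m + 1)) →ₗ[K] ((Fin b → SF K m) × (Fin b → Fin (m + 1) → K)) :=
    { toFun := fun F => (fun j => t⁻¹ • resH (F j), fun j => linL (F j))
      map_add' := fun F G => by
        refine Prod.ext ?_ ?_
        · funext j
          simp only [Pi.add_apply, map_add, smul_add, Prod.fst_add]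
        · funext j
          simp only [Pi.add_apply, map_add, Prod.snd_add]
      map_smul' := fun r F => by
        refine Prod.ext ?_ ?_
        · funext j
          simp only [Pi.smul_apply, map_smul, RingHom.id_apply, Prod.smul_fst]
          rw [smul_comm]
        · funext j
          simp only [Pi.smul_apply, map_smul, RingHom.id_apply, Prod.smul_snd] }
  have hinj : Function.Injective Ψ := by
    rw [← LinearMap.ker_eq_bot, LinearMap.ker_eq_bot']
    intro F hF
    funext j
    have h1 : t⁻¹ • resH (F j) = 0 := congrFun (congrArg Prod.fst hF) j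
    have h2 : linL (F j) = 0 := congrFun (congrArg Prod.snd hF) j
    have h3 : resH (F j) = 0 := by
      rcases smul_eq_zero.1 h1 with h | h
      · exact absurd h (inv_ne_zero ht)
      · exact h
    exact resH_linL_inj h3 h2
  have hmap : (ZK (cfgT c z0 lam t)).map Ψ ≤ NT c z0 lam t := by
    rintro _ ⟨F, hF, rfl⟩
    obtain ⟨h1, h2, h3⟩ := mem_ZK.1 hF
    have hbf : ∀ j x y, bf ((Ψ F).1 j : Fin m → Fin m → K) x y =
        t⁻¹ * bf (resH (F j) : Fin m → Fin m → K) x y := by
      intro j x y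
      change bf (t⁻¹ • (resH (F j) : Fin m → Fin m → K)) x y = _
      rw [bf_smul]
    have hlv : ∀ v j, lv v (Ψ F).2 j = ∑ k, v k * linL (F j) k := fun v j => rfl
    have hd : ∀ j (s : K) (v : Fin m → K), bf (F j : Fin (m + 1) → Fin (m + 1) → K)
        (Fin.cons s v) (Fin.cons s v) = bf (resH (F j) : Fin m → Fin m → K) v v +
          2 * s * lv (Fin.cons s v) (Ψ F).2 j := by
      intro j s v
      rw [bf_decomp, hlv]
      simp only [Fin.cons_zero, Fin.cons_succ]
      ring
    have hd2 : ∀ j (v w : Fin m → K), bf (F j : Fin (m + 1) → Fin (m + 1) → K)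
        (Fin.cons 0 v) (Fin.cons 0 w) = bf (resH (F j) : Fin m → Fin m → K) v w := by
      intro j v w
      rw [bf_decomp]
      simp only [Fin.cons_zero, Fin.cons_succ, zero_mul, add_zero]
    have hd3 : ∀ j (v : Fin m → K), bf (F j : Fin (m + 1) → Fin (m + 1) → K)
        (Fin.cons 0 v) (Pi.single 0 1) = lv (Fin.cons 0 v) (Ψ F).2 j := by
      intro j v
      rw [bf_decomp, hlv]
      have e1 : bf (resH (F j) : Fin m → Fin m → K) (fun k => (Fin.cons 0 v : Fin (m + 1) → K) k.succ)
          (fun k : Fin m => (Pi.single 0 1 : Fin (m + 1) → K) k.succ) = 0 := by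
        unfold bf
        refine Finset.sum_eq_zero fun i _ => Finset.sum_eq_zero fun k _ => ?_
        have : (Pi.single 0 1 : Fin (m + 1) → K) k.succ = 0 :=
          Pi.single_eq_of_ne (Fin.succ_ne_zero k) 1
        simp only [this, mul_zero, zero_mul]
      rw [e1, Fin.cons_zero, Pi.single_eq_same]
      ring
    rw [mem_NT]
    refine ⟨⟨mem_ZK.2 ⟨fun i j => ?_, fun i v => ?_, fun l j => ?_⟩, fun i => ?_⟩,
      fun o j => ?_, fun j => ?_⟩
    · have := h1 i j
      change bf (F j : Fin (m + 1) → Fin (m + 1) → K) (Fin.cons 0 (c.1 i)) (Fin.cons 0 (c.1 i)) = 0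
        at this
      rw [hd2] at this
      rw [hbf, this, mul_zero]
    · have := h2 i (Fin.cons 0 v)
      change ∑ j, c.2.1 i j * bf (F j : Fin (m + 1) → Fin (m + 1) → K) (Fin.cons 0 (c.1 i))
        (Fin.cons 0 v) = 0 at this
      simp only [hd2] at this
      have e : ∀ j, c.2.1 i j * bf ((Ψ F).1 j : Fin m → Fin m → K) (c.1 i) v =
          t⁻¹ * (c.2.1 i j * bf (resH (F j) : Fin m → Fin m → K) (c.1 i) v) := fun j => by
        rw [hbf]; ring
      simp only [e, ← Finset.mul_sum, this, mul_zero]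
    · have := h3 (Sum.inl (Sum.inl l)) j
      change bf (F j : Fin (m + 1) → Fin (m + 1) → K) (Fin.cons 0 (c.2.2 l))
        (Fin.cons 0 (c.2.2 l)) = 0 at this
      rw [hd2] at this
      rw [hbf, this, mul_zero]
    · have := h2 i (Pi.single 0 1)
      change ∑ j, c.2.1 i j * bf (F j : Fin (m + 1) → Fin (m + 1) → K) (Fin.cons 0 (c.1 i))
        (Pi.single 0 1) = 0 at this
      simp only [hd3] at this
      exact this
    · have := h3 (Sum.inr o) j
      change bf (F j : Fin (m + 1) → Fin (m + 1) → K) (Fin.cons 1 (lam o))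
        (Fin.cons 1 (lam o)) = 0 at this
      rw [hd, mul_one] at this
      rw [hbf, mul_inv_cancel_left₀ ht]
      exact this
    · have := h3 (Sum.inl (Sum.inr ())) j
      change bf (F j : Fin (m + 1) → Fin (m + 1) → K) (Fin.cons t z0)
        (Fin.cons t z0) = 0 at this
      rw [hd] at this
      rw [hbf]
      have e : t⁻¹ * (bf (resH (F j) : Fin m → Fin m → K) z0 z0 +
          2 * t * lv (Fin.cons t z0) (Ψ F).2 j) = t⁻¹ * bf (resH (F j) : Fin m → Fin m → K) z0 z0 +
          2 * lv (Fin.cons t z0) (Ψ F).2 j := by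
        field_simp
      rw [← e, this, mul_zero]
  have h := LinearMap.finrank_le_finrank_of_injective
    (f := (Ψ.restrict (p := ZK (cfgT c z0 lam t)) (q := NT c z0 lam t)
      fun F hF => hmap ⟨F, hF, rfl⟩)) (fun F G hFG => by
      apply Subtype.ext
      apply hinj
      exact congrArg Subtype.val hFG)
  exact h

end

end Pool.Agent.WarR


end

section

/-!
# The split simple point: a lossless step `n - 1 → n`   (helper14, after note 2390 of helper51)
-/

set_option autoImplicit false

open Module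

namespace Pool.Agent.WarR

open Pool.Agent.War

section

variable {K : Type*} [Field K]

/-- the values of all the forms at a point -/
def evA {m b : ℕ} (z : Fin m → K) : (Fin b → SF K m) →ₗ[K] (Fin b → K) where
  toFun F j := bf (F j : Fin m → Fin m → K) z z
  map_add' F G := by
    funext j
    rw [Pi.add_apply, Submodule.coe_add, bf_add, Pi.add_apply]
  map_smul' r F := by
    funext j
    rw [Pi.smul_apply, Submodule.coe_smul, bf_smul]; rfl

theorem evA_apply {m b : ℕ} (z : Fin m → K) (F : Fin b → SF K m) (j : Fin b) :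
    evA z F j = bf (F j : Fin m → Fin m → K) z z := rfl

theorem bf_zero_zero {m : ℕ} (A : Fin m → Fin m → K) : bf A 0 0 = 0 := by simp [bf]

theorem lv_cons {m b : ℕ} (s : K) (v : Fin m → K) (L : Fin b → Fin (m + 1) → K) (j : Fin b) :
    lv (Fin.cons s v) L j = s * L j 0 + lv v (fun j k => L j k.succ) j := by
  rw [lv_apply, lv_apply, Fin.sum_univ_succ]
  simp only [Fin.cons_zero, Fin.cons_succ]

/-- spanning vectors -/
theorem span_gen {b x : ℕ} (hbx : b ≤ x) : Gen K fun a : Fin x → Fin b → K =>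
    ∀ g, (∀ i, dt (a i) g = 0) → g = 0 := by
  classical
  have h : PK fun a : Fin x → Fin b → K => ⨅ i, LinearMap.ker (dt (a i)) := by
    refine PK.iInf fun i => PK.one (φ := fun a : Fin x → Fin b → K => dt (a i)) fun g => ?_
    simp only [dt_apply]
    exact LP.sum _ fun j _ => (LP_apply (LinearMap.proj i : (Fin x → Fin b → K) →ₗ[K] (Fin b → K))
      j).mul (LP.const _)
  refine (h.gen_bot (x₀ := fun i => if hi : (i : ℕ) < b then Pi.single ⟨i, hi⟩ 1 else 0) ?_).mono
    fun a ha g hg => ?_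
  · rw [eq_bot_iff]
    intro g hg
    rw [Submodule.mem_iInf] at hg
    rw [Submodule.mem_bot]
    funext j
    have h1 := hg (Fin.castLE hbx j)
    rw [LinearMap.mem_ker, dt_apply] at h1
    have h2 : ((Fin.castLE hbx j : Fin x) : ℕ) < b := j.2
    beta_reduce at h1
    rw [dif_pos h2, Finset.sum_eq_single j] at h1
    · have h3 : (⟨((Fin.castLE hbx j : Fin x) : ℕ), h2⟩ : Fin b) = j := rfl
      rw [h3, Pi.single_eq_same, one_mul] at h1
      exact h1
    · intro l _ hl
      have h3 : (⟨((Fin.castLE hbx j : Fin x) : ℕ), h2⟩ : Fin b) = j := rfl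
      rw [h3, Pi.single_eq_of_ne hl, zero_mul]
    · simp
  · have : g ∈ (⨅ i, LinearMap.ker (dt (a i)) : Submodule K (Fin b → K)) :=
      (Submodule.mem_iInf _).2 fun i => hg i
    rw [ha] at this
    exact this

/-- **The split simple point.** Both sides in dimension `m` imply the bound in dimension `m + 1`. -/
theorem step' [CharZero K] {m b x y1 p ρ r : ℕ} (h1 : KQ K m b x y1 ρ) (h2 : KQ K m b x (y1 + 1) 0)
    (hbx : b ≤ x) (hp : min ρ (x - b * p) + p + 1 ≤ m) (hr : b * p + ρ ≤ r + x) :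
    KQ K (m + 1) b x (y1 + 1 + (m - p)) r := by
  classical
  obtain ⟨k, hk⟩ : ∃ k, k = min ρ (x - b * p) := ⟨_, rfl⟩
  have hkρ : k ≤ ρ := hk ▸ min_le_left _ _
  have hkx : k ≤ x := (hk ▸ min_le_right _ _ : k ≤ x - b * p).trans (Nat.sub_le _ _)
  obtain ⟨s, hs⟩ : ∃ s, 1 + k + s + p = m := ⟨m - (1 + k + p), by omega⟩
  -- general configuration
  let X : Type _ := Cfg K m b (Fin x) (Fin (y1 + 1)) × (Fin s → Fin m → K)
  let L1 : X →ₗ[K] Cfg K m b (Fin x) (Fin y1) :=
    { toFun := fun q => (q.1.1, q.1.2.1, fun l => q.1.2.2 l.castSucc)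
      map_add' := fun _ _ => rfl
      map_smul' := fun _ _ => rfl }
  have hL1 : Function.Surjective L1 := by
    rintro ⟨z, a, y⟩
    refine ⟨((z, a, Fin.snoc y 0), 0), ?_⟩
    refine Prod.ext rfl (Prod.ext rfl ?_)
    funext l
    change (Fin.snoc y 0 : Fin (y1 + 1) → Fin m → K) l.castSucc = y l
    rw [Fin.snoc_castSucc]
  let L2 : X →ₗ[K] (Fin x → Fin m → K) × (Fin x → Fin b → K) × (Fin m → K) ×
      (Fin s → Fin m → K) :=
    { toFun := fun q => (q.1.1, q.1.2.1, q.1.2.2 (Fin.last y1), q.2)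
      map_add' := fun _ _ => rfl
      map_smul' := fun _ _ => rfl }
  have hL2 : Function.Surjective L2 := by
    rintro ⟨z, a, z0, μ⟩
    exact ⟨((z, a, fun _ => z0), μ), rfl⟩
  let L3 : X →ₗ[K] (Fin x → Fin b → K) :=
    { toFun := fun q => q.1.2.1
      map_add' := fun _ _ => rfl
      map_smul' := fun _ _ => rfl }
  have hL3 : Function.Surjective L3 := fun a => ⟨((0, a, 0), 0), rfl⟩
  have hL4 : Function.Surjective (LinearMap.fst K (Cfg K m b (Fin x) (Fin (y1 + 1)))
      (Fin s → Fin m → K)) := fun c => ⟨(c, 0), rfl⟩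
  have g4 : Gen K fun q : X => ∀ I : Finset (Fin x), I.card = k →
      finrank K (E1 I (L2 q)) ≤ b * p - (x - k) := by
    refine Gen.forall fun I => ?_
    by_cases hI : I.card = k
    · exact ((E1_gen (p := p) I hI hs).comp L2 hL2).mono fun q hq _ => hq
    · exact Gen.of_forall fun q h => absurd h hI
  obtain ⟨⟨⟨z, a, y⟩, μ⟩, ⟨⟨k1, k2⟩, k3⟩, k4⟩ := (((h1.gen.comp L1 hL1).and
    (h2.gen.comp _ hL4)).and ((span_gen hbx).comp L3 hL3)).and g4 |>.exists
  change finrank K (ZK (z, a, fun l : Fin y1 => y l.castSucc)) ≤ ρ at k1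
  change finrank K (ZK (z, a, y)) ≤ 0 at k2
  change ∀ g, (∀ i, dt (a i) g = 0) → g = 0 at k3
  change ∀ I : Finset (Fin x), I.card = k →
      finrank K (E1 I (z, a, y (Fin.last y1), μ)) ≤ b * p - (x - k) at k4
  obtain ⟨z0, hz0⟩ : ∃ z0, z0 = y (Fin.last y1) := ⟨_, rfl⟩
  rw [← hz0] at k4
  let c : Cfg K m b (Fin x) (Fin y1) := (z, a, fun l : Fin y1 => y l.castSucc)
  -- the space of the values at `z0`
  let R : Submodule K (Fin b → K) := (ZK c).map (evA z0)
  have hR : finrank K R ≤ ρ := (Submodule.finrank_map_le _ _).trans k1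
  obtain ⟨I, hI, hIR⟩ := choose_cut a k3 R k hkx
  -- the off points
  let O : Type := Unit ⊕ ({i // i ∈ I} ⊕ Fin s)
  let lam : O → Fin m → K := Sum.elim (fun _ => 0) (Sum.elim (fun i => z i - z0) μ)
  -- the limit system
  let Θ : ((Fin b → SF K m) × (Fin b → Fin (m + 1) → K)) →ₗ[K] (Fin b → Fin m → K) :=
    { toFun := fun q j k => q.2 j k.succ
      map_add' := fun _ _ => rfl
      map_smul' := fun _ _ => rfl }
  have h2K : (2 : K) ≠ 0 := two_ne_zero
  have key : ∀ q ∈ NT c z0 lam 0, (∀ j, q.2 j 0 = 0) ∧ (∀ i, ro (a i, z i) (Θ q) = 0) ∧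
      (∀ i ∈ I, lv (z i) (Θ q) = lv z0 (Θ q)) ∧ (∀ l, lv (μ l) (Θ q) = 0) ∧
      ∀ j, bf (q.1 j : Fin m → Fin m → K) z0 z0 + 2 * lv z0 (Θ q) j = 0 := by
    intro q hq
    obtain ⟨⟨q1, q2⟩, q3, q4⟩ := mem_NT.1 hq
    have hΘ : (fun j k => q.2 j k.succ : Fin b → Fin m → K) = Θ q := rfl
    have q3' : ∀ o j, q.2 j 0 + lv (lam o) (Θ q) j = 0 := by
      intro o j
      have := q3 o j
      rw [zero_mul, zero_add, lv_cons, one_mul, hΘ] at this
      exact (mul_eq_zero.1 this).resolve_left h2K
    have q30 : ∀ j, q.2 j 0 = 0 := by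
      intro j
      have := q3' (Sum.inl ()) j
      have e : lv (lam (Sum.inl ())) (Θ q) j = 0 := by
        rw [lv_apply]
        exact Finset.sum_eq_zero fun k _ => by simp [lam]
      rwa [e, add_zero] at this
    have q31 : ∀ o j, lv (lam o) (Θ q) j = 0 := by
      intro o j
      have := q3' o j
      rwa [q30 j, zero_add] at this
    refine ⟨q30, fun i => ?_, fun i hi => ?_, fun l => ?_, fun j => ?_⟩
    · have := q2 i
      rw [ro_apply] at this ⊢
      simp only [Fin.sum_univ_succ, Fin.cons_zero, Fin.cons_succ, zero_mul, zero_add] at this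
      exact this
    · funext j
      have := q31 (Sum.inr (Sum.inl ⟨i, hi⟩)) j
      have e : lv (lam (Sum.inr (Sum.inl ⟨i, hi⟩))) (Θ q) j = lv (z i) (Θ q) j -
          lv z0 (Θ q) j := by
        simp only [lv_apply, ← Finset.sum_sub_distrib]
        refine Finset.sum_congr rfl fun k _ => ?_
        change (z i k - z0 k) * _ = _
        ring
      rw [e] at this
      exact sub_eq_zero.1 this
    · funext j
      exact q31 (Sum.inr (Sum.inr l)) j
    · have := q4 j
      rw [lv_cons, zero_mul, zero_add, hΘ] at this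
      exact this
  have hinj : ∀ q ∈ NT c z0 lam 0, Θ q = 0 → q = 0 := by
    intro q hq hq0
    obtain ⟨q1, -, -, -, q5⟩ := key q hq
    have hq2 : q.2 = 0 := by
      funext j k
      refine Fin.cases (q1 j) (fun k => ?_) k
      exact congrFun (congrFun hq0 j) k
    have hq1 : q.1 ∈ ZK (z, a, y) := by
      obtain ⟨w1, w2, w3⟩ := mem_ZK.1 (mem_NT.1 hq).1.1
      refine mem_ZK.2 ⟨w1, w2, fun l j => ?_⟩
      refine Fin.lastCases ?_ (fun l => ?_) l
      · have := q5 j
        rw [hq0, map_zero, Pi.zero_apply, mul_zero, add_zero, hz0] at this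
        exact this
      · exact w3 l j
    have hbot : ZK (z, a, y) = ⊥ := Submodule.finrank_eq_zero.1 (Nat.le_zero.1 k2)
    rw [hbot, Submodule.mem_bot] at hq1
    exact Prod.ext hq1 hq2
  have hN0 : finrank K (NT c z0 lam 0) ≤ r := by
    have e1 : finrank K (NT c z0 lam 0) ≤ finrank K ((NT c z0 lam 0).map Θ) := by
      have := finrank_le_map_add_ker Θ (NT c z0 lam 0)
      have e2 : NT c z0 lam 0 ⊓ LinearMap.ker Θ = ⊥ := by
        rw [eq_bot_iff]
        rintro q ⟨hq, hq0⟩
        rw [Submodule.mem_bot]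
        exact hinj q hq hq0
      rw [e2, finrank_bot, add_zero] at this
      exact this
    refine e1.trans ?_
    have e3 := resid (B1 := b * p - (x - k)) (B2 := ρ - k) I z a z0 μ R (k4 I hI)
      (hIR.trans (by omega)) ((NT c z0 lam 0).map Θ) (by
        rintro _ ⟨q, hq, rfl⟩
        obtain ⟨-, q2, q3, q4, q5⟩ := key q hq
        refine ⟨q2, q3, q4, ?_⟩
        have hmem : evA z0 ((-(2 : K)⁻¹) • q.1) = lv z0 (Θ q) := by
          funext j
          rw [map_smul, Pi.smul_apply, evA_apply, smul_eq_mul]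
          have := q5 j
          have e : bf (q.1 j : Fin m → Fin m → K) z0 z0 = -(2 * lv z0 (Θ q) j) :=
            eq_neg_of_add_eq_zero_left this
          rw [e]
          field_simp
        rw [← hmem]
        exact ⟨_, (ZK c).smul_mem _ (mem_NT.1 hq).1.1, rfl⟩)
    refine e3.trans ?_
    rcases le_total x (b * p) with hc | hc
    · have : k = 0 := by rw [hk]; simp [Nat.sub_eq_zero_of_le hc]
      omega
    · rcases le_total ρ (x - b * p) with hc2 | hc2
      · have : k = ρ := by rw [hk, min_eq_left hc2]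
        omega
      · have : k = x - b * p := by rw [hk, min_eq_right hc2]
        omega
  obtain ⟨t, ht, ht0⟩ := (((PK_NT c z0 lam).gen_finrank hN0).and
    (Gen.ne (K := K) (F := fun t : K => t) (LP.linear (LinearMap.id : K →ₗ[K] K)) 1
      one_ne_zero)).exists
  refine KQ.of_cfg (cfgT c z0 lam t) (Fintype.card_fin x) ?_
    ((finrank_cfgT c z0 lam ht0).trans ht)
  have hc1 : Fintype.card {i // i ∈ I} = k := by rw [Fintype.card_coe, hI]
  change Fintype.card ((Fin y1 ⊕ Unit) ⊕ (Unit ⊕ ({i // i ∈ I} ⊕ Fin s))) = _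
  rw [Fintype.card_sum, Fintype.card_sum, Fintype.card_sum, Fintype.card_sum, hc1,
    Fintype.card_unit, Fintype.card_fin, Fintype.card_fin]
  omega

theorem step [CharZero K] {m b x y1 p ρ r : ℕ} (h1 : KQ K m b x y1 ρ) (h2 : KQ K m b x (y1 + 1) 0)
    (hbx : b ≤ x) (hp : ρ + p + 1 ≤ m) (hr : b * p + ρ ≤ r + x) :
    KQ K (m + 1) b x (y1 + 1 + (m - p)) r :=
  step' h1 h2 hbx (by have := min_le_left ρ (x - b * p); omega) hr

end

end Pool.Agent.WarR


end

section

/-!
# Blocks, simple points, the step without split point   (helper14)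
-/

set_option autoImplicit false

open Module

namespace Pool.Agent.WarR

open Pool.Agent.War

section

variable {K : Type*} [Field K]

theorem KQ.mono {m b x s r r' : ℕ} (h : KQ K m b x s r) (hr : r ≤ r') : KQ K m b x s r' := by
  obtain ⟨c, hc⟩ := h
  exact ⟨c, hc.trans hr⟩

/-- the tuple of forms vanishes if all values vanish -/
theorem eq_zero_of_values [NeZero (2 : K)] {m : ℕ} {A : SF K m}
    (h : ∀ z, bf (A : Fin m → Fin m → K) z z = 0) : A = 0 := by
  have h2 : (2 : K) ≠ 0 := NeZero.ne 2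
  apply Subtype.ext
  funext i j
  have e : bf (A : Fin m → Fin m → K) (Pi.single i 1 + Pi.single j 1)
      (Pi.single i 1 + Pi.single j 1) = bf (A : Fin m → Fin m → K) (Pi.single i 1) (Pi.single i 1) +
      2 * (A : Fin m → Fin m → K) i j + bf (A : Fin m → Fin m → K) (Pi.single j 1)
        (Pi.single j 1) := by
    rw [bf_add_right, bf_comm A.2 _ (Pi.single i 1), bf_comm A.2 _ (Pi.single j 1), bf_add_right,
      bf_add_right, bf_single, bf_single, bf_single, bf_single, A.2 j i]
    ring
  rw [h, h, h] at e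
  have e2 : 2 * (A : Fin m → Fin m → K) i j = 0 := by linear_combination -e
  exact (mul_eq_zero.1 e2).resolve_left h2

/-- a general simple point lowers the dimension -/
theorem KQ.add_simple [CharZero K] {m b x s r : ℕ} (k : ℕ) (h : KQ K m b x s r) :
    KQ K m b x (s + k) (r - k) := by
  classical
  obtain ⟨⟨z, a, y⟩, hc⟩ := h
  obtain ⟨w, hw⟩ := red (K := K) (fun q : (Fin m → K) × (Fin b → K) => dvF (K := K) q.2 q.1 q.1)
    (ZK (z, a, y)) ⊥ (fun F _ hF => by
      by_contra hcon
      push Not at hcon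
      apply hF
      rw [Submodule.mem_bot]
      funext j
      refine eq_zero_of_values fun z => ?_
      have := hcon (z, Pi.single j 1)
      rw [dvF_apply, Finset.sum_eq_single j] at this
      · beta_reduce at this
        simp only [Pi.single_eq_same, one_mul] at this
        exact this
      · intro l _ hl
        simp only [Pi.single_eq_of_ne hl, zero_mul]
      · simp) k
  refine KQ.of_cfg (I := Fin x) (J := Fin s ⊕ Fin k)
    (z, a, Sum.elim y fun i => (w i).1) (Fintype.card_fin x) (by simp) ?_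
  rw [finrank_bot, max_eq_left (Nat.zero_le _)] at hw
  refine (Submodule.finrank_mono ?_).trans (hw.trans (by omega))
  intro F hF
  obtain ⟨h1, h2, h3⟩ := mem_ZK.1 hF
  refine ⟨mem_ZK.2 ⟨h1, h2, fun l j => h3 (Sum.inl l) j⟩, ?_⟩
  rw [SetLike.mem_coe, Submodule.mem_iInf]
  intro i
  rw [LinearMap.mem_ker, dvF_apply]
  exact Finset.sum_eq_zero fun j _ => by
    have := h3 (Sum.inr i) j
    change bf (F j : Fin m → Fin m → K) (w i).1 (w i).1 = 0 at this
    rw [this, mul_zero]

/-- a full point instead of a simple point -/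
theorem KQ.simple_to_full {m b x s r : ℕ} (h : KQ K m b x (s + 1) r) : KQ K m b (x + 1) s r := by
  obtain ⟨⟨z, a, y⟩, hc⟩ := h
  refine KQ.of_cfg (I := Fin x ⊕ Unit) (J := Fin s)
    (Sum.elim z fun _ => y (Fin.last s), Sum.elim a 0, fun l => y l.castSucc) (by simp) (by simp) ?_
  refine (Submodule.finrank_mono ?_).trans hc
  intro F hF
  obtain ⟨w1, w2, w3⟩ := mem_ZK.1 hF
  refine mem_ZK.2 ⟨fun i j => w1 (Sum.inl i) j, fun i v => w2 (Sum.inl i) v, fun l j => ?_⟩
  refine Fin.lastCases ?_ (fun l => ?_) l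
  · exact w1 (Sum.inr ()) j
  · exact w3 l j

/-- a simple point instead of a full point: at most `m - 1` more dimensions -/
theorem KQ.full_to_simple [CharZero K] {m b x s r : ℕ} (h : KQ K m b (x + 1) s r) :
    KQ K m b x (s + 1) (r + m) := by
  classical
  obtain ⟨⟨z, a, y⟩, hc⟩ := h
  refine KQ.of_cfg (I := Fin x) (J := Fin s ⊕ Unit)
    (fun i => z i.castSucc, fun i => a i.castSucc, Sum.elim y fun _ => z (Fin.last x)) (by simp)
    (by simp) ?_
  let T : (Fin b → SF K m) →ₗ[K] (Fin m → K) :=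
    LinearMap.pi fun k => dvF (a (Fin.last x)) (z (Fin.last x)) (Pi.single k 1)
  refine (finrank_le_map_add_ker T _).trans ?_
  have h1 : finrank K ((ZK (I := Fin x) (J := Fin s ⊕ Unit) (fun i => z i.castSucc,
      fun i => a i.castSucc, Sum.elim y fun _ => z (Fin.last x))).map T) ≤ m := by
    refine (Submodule.finrank_le _).trans ?_
    rw [Module.finrank_fin_fun]
  refine (Nat.add_le_add h1 ((Submodule.finrank_mono ?_).trans hc)).trans (by omega)
  rintro F ⟨hF, hF2⟩
  obtain ⟨w1, w2, w3⟩ := mem_ZK.1 hF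
  refine mem_ZK.2 ⟨fun i j => ?_, fun i => ?_, fun l j => w3 (Sum.inl l) j⟩
  · refine Fin.lastCases ?_ (fun i => ?_) i
    · exact w3 (Sum.inr ()) j
    · exact w1 i j
  · rw [full_iff (fun j => (F j : Fin m → Fin m → K))]
    intro k
    refine Fin.lastCases ?_ (fun i => ?_) i
    · exact congrFun (LinearMap.mem_ker.1 hF2) k
    · exact w2 i _

/-- without a simple point the dimension is larger by at most `b` -/
theorem KQ.drop_simple {m b x s r : ℕ} (h : KQ K m b x (s + 1) r) : KQ K m b x s (r + b) := by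
  obtain ⟨⟨z, a, y⟩, hc⟩ := h
  refine ⟨(z, a, fun l => y l.castSucc), ?_⟩
  have h1 := finrank_le_map_add_ker (evA (K := K) (b := b) (y (Fin.last s)))
    (ZK (z, a, fun l : Fin s => y l.castSucc))
  have h2 : finrank K ((ZK (z, a, fun l : Fin s => y l.castSucc)).map
      (evA (K := K) (b := b) (y (Fin.last s)))) ≤ b := by
    refine (Submodule.finrank_le _).trans ?_
    rw [Module.finrank_fin_fun]
  have h3 : finrank K ↥(ZK (z, a, fun l : Fin s => y l.castSucc) ⊓
      LinearMap.ker (evA (K := K) (b := b) (y (Fin.last s)))) ≤ r := by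
    refine (Submodule.finrank_mono ?_).trans hc
    rintro F ⟨hF, hF2⟩
    obtain ⟨w1, w2, w3⟩ := mem_ZK.1 hF
    refine mem_ZK.2 ⟨w1, w2, fun l j => ?_⟩
    refine Fin.lastCases ?_ (fun l => ?_) l
    · exact congrFun (LinearMap.mem_ker.1 hF2) j
    · exact w3 l j
  omega

/-- a subspace of a product -/
theorem finrank_two {V V1 V2 : Type*} [AddCommGroup V] [Module K V] [AddCommGroup V1] [Module K V1]
    [AddCommGroup V2] [Module K V2] [FiniteDimensional K V] [FiniteDimensional K V1]
    [FiniteDimensional K V2] (S : Submodule K V) (S1 : Submodule K V1) (S2 : Submodule K V2)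
    (Ψ1 : V →ₗ[K] V1) (Ψ2 : V →ₗ[K] V2) (h1 : ∀ v ∈ S, Ψ1 v ∈ S1)
    (h2 : ∀ v ∈ S, Ψ1 v = 0 → Ψ2 v ∈ S2) (hinj : ∀ v ∈ S, Ψ1 v = 0 → Ψ2 v = 0 → v = 0) :
    finrank K S ≤ finrank K S1 + finrank K S2 := by
  have e1 := finrank_le_map_add_ker Ψ1 S
  have e2 : finrank K (S.map Ψ1) ≤ finrank K S1 := Submodule.finrank_mono (by
    rintro _ ⟨v, hv, rfl⟩
    exact h1 v hv)
  have e3 := finrank_le_map_add_ker Ψ2 (S ⊓ LinearMap.ker Ψ1)
  have e4 : (S ⊓ LinearMap.ker Ψ1) ⊓ LinearMap.ker Ψ2 = ⊥ := by
    rw [eq_bot_iff]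
    rintro v ⟨⟨hv, hv1⟩, hv2⟩
    rw [Submodule.mem_bot]
    exact hinj v hv hv1 hv2
  have e5 : finrank K ((S ⊓ LinearMap.ker Ψ1).map Ψ2) ≤ finrank K S2 := Submodule.finrank_mono (by
    rintro _ ⟨v, ⟨hv, hv1⟩, rfl⟩
    exact h2 v hv hv1)
  rw [e4, finrank_bot] at e3
  omega

/-- **Blocks.** -/
theorem KQ.blocks [CharZero K] {m b1 b2 x1 x2 y r1 r2 : ℕ} (h1 : KQ K m b1 x1 (y + x2) r1)
    (h2 : KQ K m b2 x2 (y + x1) r2) : KQ K m (b1 + b2) (x1 + x2) y (r1 + r2) := by
  classical
  let X : Type _ := ((Fin x1 → Fin m → K) × (Fin x2 → Fin m → K) × (Fin y → Fin m → K)) ×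
    (Fin x1 → Fin b1 → K) × (Fin x2 → Fin b2 → K)
  let e1 : Fin y ⊕ Fin x2 ≃ Fin (y + x2) := finSumFinEquiv
  let e2 : Fin y ⊕ Fin x1 ≃ Fin (y + x1) := finSumFinEquiv
  let L1 : X →ₗ[K] Cfg K m b1 (Fin x1) (Fin (y + x2)) :=
    { toFun := fun q => (q.1.1, q.2.1, fun l => Sum.elim q.1.2.2 q.1.2.1 (e1.symm l))
      map_add' := fun p q => by
        refine Prod.ext rfl (Prod.ext rfl ?_)
        funext l
        change Sum.elim (p + q).1.2.2 (p + q).1.2.1 (e1.symm l) = Sum.elim p.1.2.2 p.1.2.1 (e1.symm l)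
          + Sum.elim q.1.2.2 q.1.2.1 (e1.symm l)
        rcases e1.symm l with i | i <;> rfl
      map_smul' := fun r p => by
        refine Prod.ext rfl (Prod.ext rfl ?_)
        funext l
        change Sum.elim (r • p).1.2.2 (r • p).1.2.1 (e1.symm l) =
          r • Sum.elim p.1.2.2 p.1.2.1 (e1.symm l)
        rcases e1.symm l with i | i <;> rfl }
  let L2 : X →ₗ[K] Cfg K m b2 (Fin x2) (Fin (y + x1)) :=
    { toFun := fun q => (q.1.2.1, q.2.2, fun l => Sum.elim q.1.2.2 q.1.1 (e2.symm l))
      map_add' := fun p q => by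
        refine Prod.ext rfl (Prod.ext rfl ?_)
        funext l
        change Sum.elim (p + q).1.2.2 (p + q).1.1 (e2.symm l) = Sum.elim p.1.2.2 p.1.1 (e2.symm l)
          + Sum.elim q.1.2.2 q.1.1 (e2.symm l)
        rcases e2.symm l with i | i <;> rfl
      map_smul' := fun r p => by
        refine Prod.ext rfl (Prod.ext rfl ?_)
        funext l
        change Sum.elim (r • p).1.2.2 (r • p).1.1 (e2.symm l) =
          r • Sum.elim p.1.2.2 p.1.1 (e2.symm l)
        rcases e2.symm l with i | i <;> rfl }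
  have hL1 : Function.Surjective L1 := by
    rintro ⟨z, a, w⟩
    refine ⟨((z, fun i => w (e1 (Sum.inr i)), fun i => w (e1 (Sum.inl i))), a, 0), ?_⟩
    refine Prod.ext rfl (Prod.ext rfl ?_)
    funext l
    obtain ⟨l, rfl⟩ := e1.surjective l
    change Sum.elim _ _ (e1.symm (e1 l)) = _
    rw [e1.symm_apply_apply]
    rcases l with i | i <;> rfl
  have hL2 : Function.Surjective L2 := by
    rintro ⟨z, a, w⟩
    refine ⟨((fun i => w (e2 (Sum.inr i)), z, fun i => w (e2 (Sum.inl i))), 0, a), ?_⟩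
    refine Prod.ext rfl (Prod.ext rfl ?_)
    funext l
    obtain ⟨l, rfl⟩ := e2.surjective l
    change Sum.elim _ _ (e2.symm (e2 l)) = _
    rw [e2.symm_apply_apply]
    rcases l with i | i <;> rfl
  obtain ⟨⟨⟨z1, z2, w⟩, a1, a2⟩, k1, k2⟩ := ((h1.gen.comp L1 hL1).and (h2.gen.comp L2 hL2)).exists
  let c : Cfg K m (b1 + b2) (Fin x1 ⊕ Fin x2) (Fin y) :=
    (Sum.elim z1 z2, Sum.elim (fun i => Fin.append (a1 i) 0) fun i => Fin.append 0 (a2 i), w)
  refine KQ.of_cfg c (by simp) (by simp) ?_
  let Ψ1 : (Fin (b1 + b2) → SF K m) →ₗ[K] (Fin b1 → SF K m) :=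
    { toFun := fun F j => F (Fin.castAdd b2 j)
      map_add' := fun _ _ => rfl
      map_smul' := fun _ _ => rfl }
  let Ψ2 : (Fin (b1 + b2) → SF K m) →ₗ[K] (Fin b2 → SF K m) :=
    { toFun := fun F j => F (Fin.natAdd b1 j)
      map_add' := fun _ _ => rfl
      map_smul' := fun _ _ => rfl }
  have hmem : ∀ F ∈ ZK c, Ψ1 F ∈ ZK (L1 ((z1, z2, w), a1, a2)) ∧
      Ψ2 F ∈ ZK (L2 ((z1, z2, w), a1, a2)) := by
    intro F hF
    obtain ⟨w1, w2, w3⟩ := mem_ZK.1 hF
    refine ⟨mem_ZK.2 ⟨fun i j => w1 (Sum.inl i) _, fun i v => ?_, fun l j => ?_⟩,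
      mem_ZK.2 ⟨fun i j => w1 (Sum.inr i) _, fun i v => ?_, fun l j => ?_⟩⟩
    · have := w2 (Sum.inl i) v
      rw [Fin.sum_univ_add] at this
      have e : ∀ j : Fin b2, c.2.1 (Sum.inl i) (Fin.natAdd b1 j) = 0 := fun j => by
        change Fin.append (a1 i) 0 (Fin.natAdd b1 j) = 0
        rw [Fin.append_right]; rfl
      have e' : ∀ j : Fin b1, c.2.1 (Sum.inl i) (Fin.castAdd b2 j) = a1 i j := fun j => by
        change Fin.append (a1 i) 0 (Fin.castAdd b2 j) = _
        rw [Fin.append_left]
      simp only [e, e', zero_mul, Finset.sum_const_zero, add_zero] at this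
      exact this
    · obtain ⟨l, rfl⟩ := e1.surjective l
      change bf (F (Fin.castAdd b2 j) : Fin m → Fin m → K) (Sum.elim w z2 (e1.symm (e1 l)))
        (Sum.elim w z2 (e1.symm (e1 l))) = 0
      rw [e1.symm_apply_apply]
      rcases l with i | i
      · exact w3 i _
      · exact w1 (Sum.inr i) _
    · have := w2 (Sum.inr i) v
      rw [Fin.sum_univ_add] at this
      have e : ∀ j : Fin b1, c.2.1 (Sum.inr i) (Fin.castAdd b2 j) = 0 := fun j => by
        change Fin.append 0 (a2 i) (Fin.castAdd b2 j) = 0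
        rw [Fin.append_left]; rfl
      have e' : ∀ j : Fin b2, c.2.1 (Sum.inr i) (Fin.natAdd b1 j) = a2 i j := fun j => by
        change Fin.append 0 (a2 i) (Fin.natAdd b1 j) = _
        rw [Fin.append_right]
      simp only [e, e', zero_mul, Finset.sum_const_zero, zero_add] at this
      exact this
    · obtain ⟨l, rfl⟩ := e2.surjective l
      change bf (F (Fin.natAdd b1 j) : Fin m → Fin m → K) (Sum.elim w z1 (e2.symm (e2 l)))
        (Sum.elim w z1 (e2.symm (e2 l))) = 0
      rw [e2.symm_apply_apply]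
      rcases l with i | i
      · exact w3 i _
      · exact w1 (Sum.inl i) _
  refine (finrank_two (ZK c) _ _ Ψ1 Ψ2 (fun F hF => (hmem F hF).1) (fun F hF _ => (hmem F hF).2)
    fun F _ h3 h4 => ?_).trans (Nat.add_le_add k1 k2)
  funext j
  refine Fin.addCases (fun j => ?_) (fun j => ?_) j
  · exact congrFun h3 j
  · exact congrFun h4 j

end

end Pool.Agent.WarR


end

section

/-!
# The star limit (MP_db021c_ag, degree 2)   (helper26)

The full points `z i` are divided in groups, `g i : Fin b` is the group of the point `i`, `ord` orders every group, and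
every point has a label `lab i : Fin b`. The vectors of the full points are `e_(g i) + ε η ^ (ord i) e_(lab i)`.
For two points `i, i'` of one group, `ord i < ord i'`, the difference of the full condition of `i` in the direction
`z i'` and of the full condition of `i'` in the direction `z i` says (for `ε η ≠ 0`) that
`F_(lab i)(z i, z i') = η ^ (ord i' - ord i) F_(lab i')(z i, z i')`. In the limit `ε = η = 0` the system is
decoupled: the form `k` is singular at the points of the group `k`, vanishes at all points, and `F_k(z i, z i') = 0`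
for all `i, i'` in one group with `ord i < ord i'` and `lab i = k` (`SD`). So the kernel of a general configuration has
at most the dimension `∑ k, dim SD k` (`star`).
-/

set_option autoImplicit false

open Module

namespace Pool.Agent.WarR

open Pool.Agent.War

section Star

variable {K : Type*} [Field K]

/-- the decoupled system for the form `k` -/
def SD {m b : ℕ} {I J : Type} (z : I → Fin m → K) (y : J → Fin m → K) (g lab : I → Fin b)
    (ord : I → ℕ) (k : Fin b) : Submodule K (SF K m) where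
  carrier := {A | (∀ i, bf (A : Fin m → Fin m → K) (z i) (z i) = 0) ∧
    (∀ l, bf (A : Fin m → Fin m → K) (y l) (y l) = 0) ∧
    (∀ i, g i = k → ∀ v, bf (A : Fin m → Fin m → K) (z i) v = 0) ∧
    ∀ i i', g i = g i' → ord i < ord i' → lab i = k →
      bf (A : Fin m → Fin m → K) (z i) (z i') = 0}
  add_mem' := by
    rintro A B ⟨h1, h2, h3, h4⟩ ⟨k1, k2, k3, k4⟩
    refine ⟨fun i => ?_, fun l => ?_, fun i hi v => ?_, fun i i' e1 e2 e3 => ?_⟩
    · rw [Submodule.coe_add, bf_add, h1, k1, add_zero]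
    · rw [Submodule.coe_add, bf_add, h2, k2, add_zero]
    · rw [Submodule.coe_add, bf_add, h3 i hi, k3 i hi, add_zero]
    · rw [Submodule.coe_add, bf_add, h4 i i' e1 e2 e3, k4 i i' e1 e2 e3, add_zero]
  zero_mem' := by
    refine ⟨fun i => ?_, fun l => ?_, fun i hi v => ?_, fun i i' e1 e2 e3 => ?_⟩ <;>
      simp [bf_zero]
  smul_mem' := by
    rintro r A ⟨h1, h2, h3, h4⟩
    refine ⟨fun i => ?_, fun l => ?_, fun i hi v => ?_, fun i i' e1 e2 e3 => ?_⟩
    · rw [Submodule.coe_smul, bf_smul, h1, mul_zero]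
    · rw [Submodule.coe_smul, bf_smul, h2, mul_zero]
    · rw [Submodule.coe_smul, bf_smul, h3 i hi, mul_zero]
    · rw [Submodule.coe_smul, bf_smul, h4 i i' e1 e2 e3, mul_zero]

theorem mem_SD {m b : ℕ} {I J : Type} {z : I → Fin m → K} {y : J → Fin m → K} {g lab : I → Fin b}
    {ord : I → ℕ} {k : Fin b} {A : SF K m} : A ∈ SD z y g lab ord k ↔
    (∀ i, bf (A : Fin m → Fin m → K) (z i) (z i) = 0) ∧
    (∀ l, bf (A : Fin m → Fin m → K) (y l) (y l) = 0) ∧
    (∀ i, g i = k → ∀ v, bf (A : Fin m → Fin m → K) (z i) v = 0) ∧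
    ∀ i i', g i = g i' → ord i < ord i' → lab i = k →
      bf (A : Fin m → Fin m → K) (z i) (z i') = 0 := Iff.rfl

theorem LP_pow {X : Type*} [AddCommGroup X] [Module K X] {f : X → K} (hf : LP f) (n : ℕ) :
    LP fun x => f x ^ n := by
  have h := LP.prod (Finset.range n) (F := fun _ : ℕ => f) fun _ _ => hf
  simpa using h

/-- the vectors of the full points -/
def starA {b : ℕ} {I : Type} (g lab : I → Fin b) (ord : I → ℕ) (q : K × K) (i : I) (j : Fin b) :
    K :=
  (if j = g i then 1 else 0) + q.1 * q.2 ^ ord i * (if j = lab i then 1 else 0)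

/-- the vectors of the pair conditions -/
def starC {b : ℕ} {I : Type} (lab : I → Fin b) (ord : I → ℕ) (q : K × K) (i i' : I) (j : Fin b) :
    K :=
  (if j = lab i then 1 else 0) + (-1) * q.2 ^ (ord i' - ord i) * (if j = lab i' then 1 else 0)

theorem sum_two {b : ℕ} (k l : Fin b) (c : K) (x : Fin b → K) :
    ∑ j, ((if j = k then 1 else 0) + c * (if j = l then 1 else 0)) * x j = x k + c * x l := by
  simp [add_mul, Finset.sum_add_distrib]

/-- the family of systems which contains the kernels and whose member at `0` is decoupled -/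
def starZ {m b : ℕ} {I J : Type} (z : I → Fin m → K) (y : J → Fin m → K) (g lab : I → Fin b)
    (ord : I → ℕ) (q : K × K) : Submodule K (Fin b → SF K m) :=
  ((⨅ p : I × Fin b, LinearMap.ker (evF (z p.1) p.2)) ⊓
    ⨅ p : J × Fin b, LinearMap.ker (evF (y p.1) p.2)) ⊓
    ((⨅ p : I × Fin m, LinearMap.ker (dvF (starA g lab ord q p.1) (z p.1) (Pi.single p.2 1))) ⊓
    ⨅ p : {p : I × I // g p.1 = g p.2 ∧ ord p.1 < ord p.2},
      LinearMap.ker (dvF (starC lab ord q p.1.1 p.1.2) (z p.1.1) (z p.1.2)))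

theorem PK_starZ {m b : ℕ} {I J : Type} [Finite I] [Finite J] (z : I → Fin m → K)
    (y : J → Fin m → K) (g lab : I → Fin b) (ord : I → ℕ) :
    PK fun q : K × K => starZ z y g lab ord q := by
  have hε : LP fun q : K × K => q.1 := LP.linear (LinearMap.fst K K K)
  have hη : LP fun q : K × K => q.2 := LP.linear (LinearMap.snd K K K)
  have h1 : PK fun _ : K × K => ⨅ p : I × Fin b, LinearMap.ker (evF (z p.1) p.2) := by
    refine PK.iInf fun p => PK.one (φ := fun _ : K × K => evF (z p.1) p.2) fun F => LP.const _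
  have h2 : PK fun _ : K × K => ⨅ p : J × Fin b, LinearMap.ker (evF (y p.1) p.2) := by
    refine PK.iInf fun p => PK.one (φ := fun _ : K × K => evF (y p.1) p.2) fun F => LP.const _
  have h3 : PK fun q : K × K => ⨅ p : I × Fin m,
      LinearMap.ker (dvF (starA g lab ord q p.1) (z p.1) (Pi.single p.2 1)) := by
    refine PK.iInf fun p => PK.one (φ := fun q : K × K =>
      dvF (starA g lab ord q p.1) (z p.1) (Pi.single p.2 1)) fun F => ?_
    simp only [dvF_apply, starA]
    exact LP.sum _ fun j _ => ((LP.const _).add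
      ((hε.mul (LP_pow hη _)).mul (LP.const _))).mul (LP.const _)
  have h4 : PK fun q : K × K => ⨅ p : {p : I × I // g p.1 = g p.2 ∧ ord p.1 < ord p.2},
      LinearMap.ker (dvF (starC lab ord q p.1.1 p.1.2) (z p.1.1) (z p.1.2)) := by
    refine PK.iInf fun p => PK.one (φ := fun q : K × K =>
      dvF (starC lab ord q p.1.1 p.1.2) (z p.1.1) (z p.1.2)) fun F => ?_
    simp only [dvF_apply, starC]
    exact LP.sum _ fun j _ => ((LP.const _).add
      (((LP.const _).mul (LP_pow hη _)).mul (LP.const _))).mul (LP.const _)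
  exact (h1.inf h2).inf (h3.inf h4)

theorem mem_starZ {m b : ℕ} {I J : Type} {z : I → Fin m → K} {y : J → Fin m → K}
    {g lab : I → Fin b} {ord : I → ℕ} {q : K × K} {F : Fin b → SF K m} :
    F ∈ starZ z y g lab ord q ↔
    ((∀ i j, bf (F j : Fin m → Fin m → K) (z i) (z i) = 0) ∧
    ∀ l j, bf (F j : Fin m → Fin m → K) (y l) (y l) = 0) ∧
    (∀ i v, bf (F (g i) : Fin m → Fin m → K) (z i) v +
      q.1 * q.2 ^ ord i * bf (F (lab i) : Fin m → Fin m → K) (z i) v = 0) ∧
    ∀ i i', g i = g i' → ord i < ord i' →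
      bf (F (lab i) : Fin m → Fin m → K) (z i) (z i') +
      (-1) * q.2 ^ (ord i' - ord i) * bf (F (lab i') : Fin m → Fin m → K) (z i) (z i') = 0 := by
  have e : ∀ i : I, (∀ k : Fin m, ∑ j, starA g lab ord q i j *
      bf (F j : Fin m → Fin m → K) (z i) (Pi.single k 1) = 0) ↔
      ∀ v, bf (F (g i) : Fin m → Fin m → K) (z i) v +
      q.1 * q.2 ^ ord i * bf (F (lab i) : Fin m → Fin m → K) (z i) v = 0 := by
    intro i
    rw [← full_iff (fun j => (F j : Fin m → Fin m → K))]
    refine forall_congr' fun v => ?_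
    simp only [starA]
    rw [sum_two (g i) (lab i) (q.1 * q.2 ^ ord i)
      (fun j => bf (F j : Fin m → Fin m → K) (z i) v)]
  have e' : ∀ i i' : I, (∑ j, starC lab ord q i i' j *
      bf (F j : Fin m → Fin m → K) (z i) (z i')) =
      bf (F (lab i) : Fin m → Fin m → K) (z i) (z i') +
      (-1) * q.2 ^ (ord i' - ord i) * bf (F (lab i') : Fin m → Fin m → K) (z i) (z i') := by
    intro i i'
    simp only [starC]
    rw [sum_two (lab i) (lab i') ((-1) * q.2 ^ (ord i' - ord i))
      (fun j => bf (F j : Fin m → Fin m → K) (z i) (z i'))]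
  simp only [starZ, Submodule.mem_inf, Submodule.mem_iInf, LinearMap.mem_ker, evF_apply,
    dvF_apply, Prod.forall, e, e', Subtype.forall]
  refine and_congr Iff.rfl (and_congr Iff.rfl ?_)
  exact ⟨fun h i i' h1 h2 => h i i' ⟨h1, h2⟩, fun h i i' h1 => h i i' h1.1 h1.2⟩

theorem finrank_starZ_zero {m b : ℕ} {I J : Type} (z : I → Fin m → K)
    (y : J → Fin m → K) (g lab : I → Fin b) (ord : I → ℕ) (r : Fin b → ℕ)
    (h : ∀ k, finrank K (SD z y g lab ord k) ≤ r k) :
    finrank K (starZ z y g lab ord (0 : K × K)) ≤ ∑ k, r k := by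
  have hm : ∀ F : Fin b → SF K m, F ∈ starZ z y g lab ord (0 : K × K) →
      ∀ k, F k ∈ SD z y g lab ord k := by
    intro F hF k
    obtain ⟨⟨h1, h2⟩, h3, h4⟩ := mem_starZ.1 hF
    refine mem_SD.2 ⟨fun i => h1 i k, fun l => h2 l k, fun i hi v => ?_, fun i i' e1 e2 e3 => ?_⟩
    · have h5 := h3 i v
      rw [hi] at h5
      simpa using h5
    · have h5 := h4 i i' e1 e2
      have h6 : ord i' - ord i ≠ 0 := by omega
      rw [e3] at h5
      simpa [h6] using h5
  let L : starZ z y g lab ord (0 : K × K) →ₗ[K] ((k : Fin b) → SD z y g lab ord k) :=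
    LinearMap.pi fun k => LinearMap.codRestrict (SD z y g lab ord k)
      ((LinearMap.proj k : (Fin b → SF K m) →ₗ[K] SF K m).comp
        (starZ z y g lab ord (0 : K × K)).subtype) fun F => hm F.1 F.2 k
  have hL : Function.Injective L := by
    intro F G hFG
    apply Subtype.ext
    funext k
    have h1 := congrFun hFG k
    exact congrArg Subtype.val h1
  have h1 := LinearMap.finrank_le_finrank_of_injective hL
  have hf : ∀ k : Fin b, Module.Free K (SD z y g lab ord k) := fun k =>
    Module.Free.of_divisionRing K (SD z y g lab ord k)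
  rw [Module.finrank_pi_fintype] at h1
  exact h1.trans (Finset.sum_le_sum fun k _ => h k)

theorem ZK_le_starZ {m b : ℕ} {I J : Type} (z : I → Fin m → K)
    (y : J → Fin m → K) (g lab : I → Fin b) (ord : I → ℕ) (q : K × K) (h1 : q.1 ≠ 0)
    (h2 : q.2 ≠ 0) :
    ZK (z, starA g lab ord q, y) ≤ starZ z y g lab ord q := by
  intro F hF
  obtain ⟨k1, k2, k3⟩ := mem_ZK.1 hF
  have k2' : ∀ i v, bf (F (g i) : Fin m → Fin m → K) (z i) v +
      q.1 * q.2 ^ ord i * bf (F (lab i) : Fin m → Fin m → K) (z i) v = 0 := by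
    intro i v
    have h := k2 i v
    simp only [starA] at h
    rw [sum_two (g i) (lab i) (q.1 * q.2 ^ ord i)
      (fun j => bf (F j : Fin m → Fin m → K) (z i) v)] at h
    exact h
  refine mem_starZ.2 ⟨⟨k1, k3⟩, k2', fun i i' e1 e2 => ?_⟩
  have a1 := k2' i (z i')
  have a2 := k2' i' (z i)
  rw [bf_comm (F (g i')).2 (z i') (z i), bf_comm (F (lab i')).2 (z i') (z i), ← e1] at a2
  have a3 : q.2 ^ ord i' = q.2 ^ ord i * q.2 ^ (ord i' - ord i) := by
    rw [← pow_add]
    congr 1
    omega
  rw [a3] at a2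
  have a4 : q.1 * q.2 ^ ord i * (bf (F (lab i) : Fin m → Fin m → K) (z i) (z i') +
      (-1) * q.2 ^ (ord i' - ord i) * bf (F (lab i') : Fin m → Fin m → K) (z i) (z i')) = 0 := by
    linear_combination a1 - a2
  exact (mul_eq_zero.1 a4).resolve_left (mul_ne_zero h1 (pow_ne_zero _ h2))

/-- the star limit, for given points -/
theorem star_cfg [Infinite K] {m b : ℕ} {I J : Type} [Finite I] [Finite J] (z : I → Fin m → K)
    (y : J → Fin m → K) (g lab : I → Fin b) (ord : I → ℕ) (r : Fin b → ℕ)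
    (h : ∀ k, finrank K (SD z y g lab ord k) ≤ r k) :
    ∃ a : I → Fin b → K, finrank K (ZK ((z, a, y) : Cfg K m b I J)) ≤ ∑ k, r k := by
  have hg := (PK_starZ z y g lab ord).gen_finrank (finrank_starZ_zero z y g lab ord r h)
  have hε : Gen K fun q : K × K => q.1 ≠ 0 :=
    Gen.ne (LP.linear (LinearMap.fst K K K)) (1, 1) one_ne_zero
  have hη : Gen K fun q : K × K => q.2 ≠ 0 :=
    Gen.ne (LP.linear (LinearMap.snd K K K)) (1, 1) one_ne_zero
  obtain ⟨q, hq, h1, h2⟩ := (hg.and (hε.and hη)).exists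
  exact ⟨starA g lab ord q,
    (Submodule.finrank_mono (ZK_le_starZ z y g lab ord q h1 h2)).trans hq⟩

/-- **The star limit.** -/
theorem star [Infinite K] {m b : ℕ} {I J : Type} [Fintype I] [Fintype J] (z : I → Fin m → K)
    (y : J → Fin m → K) (g lab : I → Fin b) (ord : I → ℕ) (r : Fin b → ℕ)
    (h : ∀ k, finrank K (SD z y g lab ord k) ≤ r k) :
    KQ K m b (Fintype.card I) (Fintype.card J) (∑ k, r k) := by
  obtain ⟨a, ha⟩ := star_cfg z y g lab ord r h
  exact KQ.of_cfg (z, a, y) rfl rfl ha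

end Star

end Pool.Agent.WarR


end

section

/-!
# The peeling rank lemma (MP_db021c_ag, degree 2)   (helper62, after helper42, note 2404)

`GD E S z`: the symmetric matrices which vanish at the points `z u`, `u ∈ S`, and at the pairs of `E` inside `S`.
`Ind K m E S`: for some (equivalently: for general) points the conditions are independent, written as
`finrank (GD E S z) + (|S| + number of pairs) ≤ C(m+1, 2)`.

* `Ind.peel`: a point with at most `m` neighbours may be removed together with one dimension.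
* `Ind.isolated`: a point without neighbours costs one condition.
* `Ind.clique`: at most `m` points: every graph is allowed.
* `Ind.centres`: note 2404 of helper42.
* `Ind.SD`: the decoupled system `SD` of the star limit.
-/

set_option autoImplicit false

open Module

namespace Pool.Agent.WarR

open Pool.Agent.War

section Peel

variable {K : Type*} [Field K]

/-- the matrices which vanish on the points of `S` and on the pairs of `E` inside `S` -/
def GD {m : ℕ} {U : Type} (E : U → U → Prop) (S : Finset U) (z : U → Fin m → K) :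
    Submodule K (SF K m) where
  carrier := {A | (∀ u ∈ S, bf (A : Fin m → Fin m → K) (z u) (z u) = 0) ∧
    ∀ u ∈ S, ∀ v ∈ S, E u v → bf (A : Fin m → Fin m → K) (z u) (z v) = 0}
  add_mem' := by
    rintro A B ⟨h1, h2⟩ ⟨k1, k2⟩
    refine ⟨fun u hu => ?_, fun u hu v hv e => ?_⟩
    · rw [Submodule.coe_add, bf_add, h1 u hu, k1 u hu, add_zero]
    · rw [Submodule.coe_add, bf_add, h2 u hu v hv e, k2 u hu v hv e, add_zero]
  zero_mem' := by
    refine ⟨fun u hu => ?_, fun u hu v hv e => ?_⟩ <;> simp [bf_zero]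
  smul_mem' := by
    rintro r A ⟨h1, h2⟩
    refine ⟨fun u hu => ?_, fun u hu v hv e => ?_⟩
    · rw [Submodule.coe_smul, bf_smul, h1 u hu, mul_zero]
    · rw [Submodule.coe_smul, bf_smul, h2 u hu v hv e, mul_zero]

theorem mem_GD {m : ℕ} {U : Type} {E : U → U → Prop} {S : Finset U} {z : U → Fin m → K}
    {A : SF K m} : A ∈ GD E S z ↔
    (∀ u ∈ S, bf (A : Fin m → Fin m → K) (z u) (z u) = 0) ∧
    ∀ u ∈ S, ∀ v ∈ S, E u v → bf (A : Fin m → Fin m → K) (z u) (z v) = 0 := Iff.rfl

/-- the value at a pair -/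
def evB {m : ℕ} (x y : Fin m → K) : SF K m →ₗ[K] K := (bfL x y).comp (SF K m).subtype

@[simp] theorem evB_apply {m : ℕ} (x y : Fin m → K) (A : SF K m) :
    evB x y A = bf (A : Fin m → Fin m → K) x y := rfl

theorem LP_pt {m : ℕ} {U : Type} (u : U) (k : Fin m) :
    LP fun z : U → Fin m → K => z u k :=
  LP_apply (LinearMap.proj u : (U → Fin m → K) →ₗ[K] (Fin m → K)) k

theorem PK_GD {m : ℕ} {U : Type} [Finite U] (E : U → U → Prop) (S : Finset U) :
    PK fun z : U → Fin m → K => GD E S z := by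
  have h1 : PK fun z : U → Fin m → K => ⨅ u : {u // u ∈ S}, LinearMap.ker (evB (z u) (z u)) := by
    refine PK.iInf fun u => PK.one (φ := fun z : U → Fin m → K => evB (z u) (z u)) fun A => ?_
    simp only [evB_apply]
    exact LP_bf _ (LP_pt u.1) (LP_pt u.1)
  have h2 : PK fun z : U → Fin m → K => ⨅ p : {p : U × U // p.1 ∈ S ∧ p.2 ∈ S ∧ E p.1 p.2},
      LinearMap.ker (evB (z p.1.1) (z p.1.2)) := by
    refine PK.iInf fun p => PK.one (φ := fun z : U → Fin m → K => evB (z p.1.1) (z p.1.2))
      fun A => ?_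
    simp only [evB_apply]
    exact LP_bf _ (LP_pt p.1.1) (LP_pt p.1.2)
  refine (h1.inf h2).congr fun z => ?_
  ext A
  simp only [Submodule.mem_inf, Submodule.mem_iInf, LinearMap.mem_ker, evB_apply, mem_GD,
    Subtype.forall, Prod.forall]
  constructor
  · rintro ⟨k1, k2⟩
    exact ⟨k1, fun u hu v hv e => k2 u v ⟨hu, hv, e⟩⟩
  · rintro ⟨k1, k2⟩
    exact ⟨k1, fun u v e => k2 u e.1 v e.2.1 e.2.2⟩

theorem finrank_SF_le (m : ℕ) : finrank K (SF K m) ≤ (m + 1).choose 2 := by
  classical
  let L : SF K m →ₗ[K] (Sym2 (Fin m) → K) :=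
    { toFun := fun A s => Sym2.lift ⟨fun i j => (A : Fin m → Fin m → K) i j, fun i j => A.2 i j⟩ s
      map_add' := fun A B => by
        funext s
        induction s using Sym2.inductionOn with
        | _ i j => rfl
      map_smul' := fun r A => by
        funext s
        induction s using Sym2.inductionOn with
        | _ i j => rfl }
  have hL : Function.Injective L := by
    intro A B h
    apply Subtype.ext
    funext i j
    exact congrFun h s(i, j)
  have := LinearMap.finrank_le_finrank_of_injective hL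
  rw [Module.finrank_fintype_fun_eq_card, Sym2.card, Fintype.card_fin] at this
  exact this

open Classical in
/-- the neighbours of `c` in `S` -/
noncomputable def nb {U : Type} (E : U → U → Prop) (S : Finset U) (c : U) : Finset U :=
  S.filter fun u => E c u ∨ E u c

open Classical in
/-- the pairs of `E` inside `S` -/
noncomputable def ep {U : Type} (E : U → U → Prop) (S : Finset U) : Finset (U × U) :=
  (S ×ˢ S).filter fun p => E p.1 p.2

theorem mem_nb {U : Type} {E : U → U → Prop} {S : Finset U} {c u : U} :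
    u ∈ nb E S c ↔ u ∈ S ∧ (E c u ∨ E u c) := by
  simp [nb]

theorem mem_ep {U : Type} {E : U → U → Prop} {S : Finset U} {p : U × U} :
    p ∈ ep E S ↔ (p.1 ∈ S ∧ p.2 ∈ S) ∧ E p.1 p.2 := by
  simp [ep]

/-- asymmetric relations -/
def Asy {U : Type} (E : U → U → Prop) : Prop := ∀ u v, E u v → ¬ E v u

theorem Asy.irr {U : Type} {E : U → U → Prop} (h : Asy E) (u : U) : ¬ E u u := fun e => h u u e e

theorem card_ep_insert {U : Type} [DecidableEq U] {E : U → U → Prop} (hE : Asy E) {S : Finset U}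
    {c : U} (hc : c ∉ S) : (ep E (insert c S)).card = (ep E S).card + (nb E S c).card := by
  classical
  have e1 : ep E (insert c S) = ep E S ∪
      ((nb E S c).image fun u => if E c u then (c, u) else (u, c)) := by
    ext ⟨u, v⟩
    simp only [mem_ep, Finset.mem_union, Finset.mem_image, mem_nb, Finset.mem_insert]
    constructor
    · rintro ⟨⟨rfl | hu, rfl | hv⟩, e⟩
      · exact absurd e (hE.irr _)
      · exact Or.inr ⟨v, ⟨hv, Or.inl e⟩, by rw [if_pos e]⟩
      · refine Or.inr ⟨u, ⟨hu, Or.inr e⟩, ?_⟩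
        rw [if_neg (hE _ _ e)]
      · exact Or.inl ⟨⟨hu, hv⟩, e⟩
    · rintro (⟨⟨hu, hv⟩, e⟩ | ⟨w, ⟨hw, e⟩, h⟩)
      · exact ⟨⟨Or.inr hu, Or.inr hv⟩, e⟩
      · by_cases hcw : E c w
        · rw [if_pos hcw] at h
          obtain ⟨rfl, rfl⟩ := Prod.ext_iff.1 h
          exact ⟨⟨Or.inl rfl, Or.inr hw⟩, hcw⟩
        · rw [if_neg hcw] at h
          obtain ⟨rfl, rfl⟩ := Prod.ext_iff.1 h
          exact ⟨⟨Or.inr hw, Or.inl rfl⟩, e.resolve_left hcw⟩
  rw [e1, Finset.card_union_of_disjoint, Finset.card_image_of_injOn]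
  · intro u hu v hv h
    have hu' := (mem_nb.1 hu).1
    have hv' := (mem_nb.1 hv).1
    simp only at h
    by_cases h1 : E c u <;> by_cases h2 : E c v <;> simp only [h1, h2, if_true, if_false] at h
    · exact (Prod.ext_iff.1 h).2
    · exact absurd ((show c = v from (Prod.ext_iff.1 h).1) ▸ hv') hc
    · exact absurd ((show u = c from (Prod.ext_iff.1 h).1) ▸ hu') hc
    · exact (Prod.ext_iff.1 h).1
  · rw [Finset.disjoint_left]
    rintro ⟨u, v⟩ h1 h2
    obtain ⟨w, hw, h⟩ := Finset.mem_image.1 h2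
    have h3 := (mem_ep.1 h1).1
    by_cases hcw : E c w
    · rw [if_pos hcw] at h
      obtain ⟨rfl, rfl⟩ := Prod.ext_iff.1 h
      exact hc h3.1
    · rw [if_neg hcw] at h
      obtain ⟨rfl, rfl⟩ := Prod.ext_iff.1 h
      exact hc h3.2

/-- independence of the conditions -/
def Ind (K : Type*) [Field K] (m : ℕ) {U : Type} (E : U → U → Prop) (S : Finset U) : Prop :=
  ∃ z : U → Fin m → K, finrank K (GD E S z) + (S.card + (ep E S).card) ≤ (m + 1).choose 2

theorem Ind.gen {m : ℕ} {U : Type} [Finite U] {E : U → U → Prop} {S : Finset U}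
    (h : Ind K m E S) : Gen K fun z : U → Fin m → K =>
      finrank K (GD E S z) + (S.card + (ep E S).card) ≤ (m + 1).choose 2 := by
  obtain ⟨z, hz⟩ := h
  have h1 := (PK_GD E S).gen_finrank (x₀ := z)
    (k := (m + 1).choose 2 - (S.card + (ep E S).card)) (by omega)
  exact h1.mono fun x hx => by omega

theorem Ind.count {m : ℕ} {U : Type} {E : U → U → Prop} {S : Finset U}
    (h : Ind K m E S) : S.card + (ep E S).card ≤ (m + 1).choose 2 := by
  obtain ⟨z, hz⟩ := h
  omega

theorem Ind.empty (m : ℕ) {U : Type} (E : U → U → Prop) : Ind K m E (∅ : Finset U) := by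
  refine ⟨0, ?_⟩
  have h1 : (ep E (∅ : Finset U)).card = 0 := by
    simp [ep]
  rw [h1, Finset.card_empty]
  exact (Submodule.finrank_le _).trans (finrank_SF_le m)

/-- linear independence of at most `m` points is a generic property -/
theorem gen_indep {m : ℕ} {U : Type} [Finite U] (N : Finset U) (hN : N.card ≤ m) :
    Gen K fun z : U → Fin m → K => LinearIndependent K fun u : N => z u := by
  classical
  have hPK : PK fun z : U → Fin m → K => ⨅ k : Fin m,
      LinearMap.ker (∑ u : N, (z u k) • (LinearMap.proj u : (N → K) →ₗ[K] K)) := by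
    refine PK.iInf fun k => PK.one
      (φ := fun z : U → Fin m → K => ∑ u : N, (z u k) • (LinearMap.proj u : (N → K) →ₗ[K] K))
      fun a => ?_
    simp only [LinearMap.sum_apply, LinearMap.smul_apply, LinearMap.proj_apply, smul_eq_mul]
    exact LP.sum _ fun u _ => (LP_pt u.1 k).mul (LP.const _)
  obtain ⟨f⟩ : Nonempty (N ↪ Fin m) := Function.Embedding.nonempty_of_card_le (by simpa using hN)
  have h0 : (⨅ k : Fin m, LinearMap.ker (∑ u : N, ((fun u k => if h : u ∈ N then
      (Pi.single (f ⟨u, h⟩) (1 : K) : Fin m → K) k else 0) (u : U) k) •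
        (LinearMap.proj u : (N → K) →ₗ[K] K))) = ⊥ := by
    rw [eq_bot_iff]
    intro a ha
    rw [Submodule.mem_bot]
    funext u
    have h1 := (Submodule.mem_iInf _).1 ha (f u)
    rw [LinearMap.mem_ker] at h1
    simp only [LinearMap.sum_apply, LinearMap.smul_apply, LinearMap.proj_apply, smul_eq_mul] at h1
    rw [Finset.sum_eq_single u] at h1
    · simpa using h1
    · intro v _ hv
      have : f u ≠ f v := fun h => hv (f.injective h).symm
      simp [Pi.single_apply, this]
    · simp
  refine (hPK.gen_bot (x₀ := fun u k => if h : u ∈ N then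
      (Pi.single (f ⟨u, h⟩) (1 : K) : Fin m → K) k else 0) h0).mono fun z hz => ?_
  rw [Fintype.linearIndependent_iff]
  intro a ha u
  have h1 : a ∈ (⨅ k : Fin m,
      LinearMap.ker (∑ u : N, (z u k) • (LinearMap.proj u : (N → K) →ₗ[K] K))) := by
    rw [Submodule.mem_iInf]
    intro k
    rw [LinearMap.mem_ker]
    have := congrFun ha k
    simp only [Finset.sum_apply, Pi.smul_apply, smul_eq_mul, Pi.zero_apply] at this
    simp only [LinearMap.sum_apply, LinearMap.smul_apply, LinearMap.proj_apply, smul_eq_mul]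
    rw [← this]
    exact Finset.sum_congr rfl fun u _ => mul_comm _ _
  rw [hz, Submodule.mem_bot] at h1
  rw [h1]
  rfl

theorem bf_cons {m : ℕ} (A : Fin (m + 1) → Fin (m + 1) → K) (w w' : Fin m → K) :
    bf A (Fin.cons 0 w) (Fin.cons 0 w') = bf (fun i j => A i.succ j.succ) w w' := by
  unfold bf
  simp [Fin.sum_univ_succ]

theorem bf_single_cons {m : ℕ} (A : Fin (m + 1) → Fin (m + 1) → K) (w : Fin m → K) :
    bf A (Pi.single 0 1) (Fin.cons 0 w) = ∑ j, w j * A 0 j.succ := by
  unfold bf
  simp [Fin.sum_univ_succ]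

/-- the row without the diagonal entry -/
def row0 {m : ℕ} : SF K (m + 1) →ₗ[K] (Fin m → K) where
  toFun A := fun k => (A : Fin (m + 1) → Fin (m + 1) → K) 0 k.succ
  map_add' _ _ := rfl
  map_smul' _ _ := rfl

/-- **Peeling.** -/
theorem Ind.peel [Infinite K] {m : ℕ} {U : Type} [Finite U] [DecidableEq U] {E : U → U → Prop}
    (hE : Asy E) {S : Finset U} {c : U} (hc : c ∉ S) (hnb : (nb E S c).card ≤ m)
    (h : Ind K m E S) : Ind K (m + 1) E (insert c S) := by
  classical
  obtain ⟨z, hz, hli⟩ := (h.gen.and (gen_indep (nb E S c) hnb)).exists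
  let M : Matrix (nb E S c) (Fin m) K := Matrix.of fun u j => z u j
  have hM : M.rank = (nb E S c).card := by
    have h1 : LinearIndependent K M.row := hli
    rw [h1.rank_matrix]
    simp
  have hk : finrank K (LinearMap.ker M.mulVecLin) = m - (nb E S c).card := by
    have h1 := LinearMap.finrank_range_add_finrank_ker M.mulVecLin
    rw [Module.finrank_fintype_fun_eq_card, Fintype.card_fin] at h1
    have h2 : finrank K (LinearMap.range M.mulVecLin) = (nb E S c).card := hM
    omega
  let z' : U → Fin (m + 1) → K := fun u => if u = c then Pi.single 0 1 else Fin.cons 0 (z u)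
  have hzc : z' c = Pi.single 0 1 := by simp [z']
  have hzu : ∀ u, u ≠ c → z' u = Fin.cons 0 (z u) := fun u hu => by simp [z', hu]
  have hne : ∀ u ∈ S, u ≠ c := fun u hu h => hc (h ▸ hu)
  have key : finrank K (GD E (insert c S) z') ≤
      finrank K (LinearMap.ker M.mulVecLin) + finrank K (GD E S z) := by
    refine finrank_two (GD E (insert c S) z') (LinearMap.ker M.mulVecLin) (GD E S z) row0 resH
      ?_ ?_ ?_
    · intro A hA
      rw [LinearMap.mem_ker]
      funext u
      rw [Matrix.mulVecLin_apply]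
      change ∑ j, z u j * (A : Fin (m + 1) → Fin (m + 1) → K) 0 j.succ = 0
      rw [← bf_single_cons]
      have hu := mem_nb.1 u.2
      have h1 := hzu u (hne u hu.1)
      rw [← h1, ← hzc]
      rcases hu.2 with e | e
      · exact hA.2 c (Finset.mem_insert_self _ _) u (Finset.mem_insert_of_mem hu.1) e
      · rw [bf_comm A.2]
        exact hA.2 u (Finset.mem_insert_of_mem hu.1) c (Finset.mem_insert_self _ _) e
    · intro A hA _
      refine ⟨fun u hu => ?_, fun u hu v hv e => ?_⟩
      · have := hA.1 u (Finset.mem_insert_of_mem hu)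
        rw [hzu u (hne u hu), bf_cons] at this
        exact this
      · have := hA.2 u (Finset.mem_insert_of_mem hu) v (Finset.mem_insert_of_mem hv) e
        rw [hzu u (hne u hu), hzu v (hne v hv), bf_cons] at this
        exact this
    · intro A hA h1 h2
      apply Subtype.ext
      funext i j
      have h00 : (A : Fin (m + 1) → Fin (m + 1) → K) 0 0 = 0 := by
        have := hA.1 c (Finset.mem_insert_self _ _)
        rw [hzc, bf_single] at this
        exact this
      have h0 : ∀ j : Fin m, (A : Fin (m + 1) → Fin (m + 1) → K) 0 j.succ = 0 :=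
        fun j => congrFun h1 j
      have h3 : ∀ i j : Fin m, (A : Fin (m + 1) → Fin (m + 1) → K) i.succ j.succ = 0 := by
        intro i j
        have := congrArg (fun B : SF K m => (B : Fin m → Fin m → K) i j) h2
        simpa [resH_apply] using this
      refine Fin.cases ?_ (fun i => ?_) i
      · refine Fin.cases ?_ (fun j => ?_) j
        · exact h00
        · exact h0 j
      · refine Fin.cases ?_ (fun j => ?_) j
        · rw [A.2 i.succ 0]
          exact h0 i
        · exact h3 i j
  refine ⟨z', ?_⟩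
  rw [card_ep_insert hE hc, Finset.card_insert_of_notMem hc]
  have hch : (m + 1 + 1).choose 2 = (m + 1) + (m + 1).choose 2 := by
    rw [Nat.choose_succ_succ' (m + 1) 1, Nat.choose_one_right]
  omega

/-- the kernel has at most the expected dimension -/
def Fil (K : Type*) [Field K] (m : ℕ) {U : Type} (E : U → U → Prop) (T : Finset U) : Prop :=
  ∃ z : U → Fin m → K, finrank K (GD E T z) ≤ (m + 1).choose 2 - (T.card + (ep E T).card)

theorem Ind.fil {m : ℕ} {U : Type} {E : U → U → Prop} {S : Finset U} (h : Ind K m E S) :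
    Fil K m E S := by
  obtain ⟨z, hz⟩ := h
  exact ⟨z, by omega⟩

theorem Fil.ind {m : ℕ} {U : Type} {E : U → U → Prop} {S : Finset U} (h : Fil K m E S)
    (hc : S.card + (ep E S).card ≤ (m + 1).choose 2) : Ind K m E S := by
  obtain ⟨z, hz⟩ := h
  exact ⟨z, by omega⟩

/-- a point without neighbours lowers the dimension by one -/
theorem Fil.isolated [CharZero K] {m : ℕ} {U : Type} [DecidableEq U] {E : U → U → Prop}
    (hE : Asy E) {S : Finset U} {c : U} (hc : c ∉ S) (hnb : nb E S c = ∅)
    (h : Fil K m E S) : Fil K m E (insert c S) := by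
  classical
  obtain ⟨z, hz⟩ := h
  have hne : ∀ u ∈ S, u ≠ c := fun u hu h => hc (h ▸ hu)
  have hle : ∀ w : Fin m → K, GD E (insert c S) (Function.update z c w) ≤
      GD E S z ⊓ LinearMap.ker (evB w w) := by
    intro w A hA
    refine ⟨⟨fun u hu => ?_, fun u hu v hv e => ?_⟩, ?_⟩
    · have := hA.1 u (Finset.mem_insert_of_mem hu)
      rwa [Function.update_of_ne (hne u hu)] at this
    · have := hA.2 u (Finset.mem_insert_of_mem hu) v (Finset.mem_insert_of_mem hv) e
      rwa [Function.update_of_ne (hne u hu), Function.update_of_ne (hne v hv)] at this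
    · have := hA.1 c (Finset.mem_insert_self _ _)
      rw [Function.update_self] at this
      exact this
  have e1 : (ep E (insert c S)).card = (ep E S).card := by
    rw [card_ep_insert hE hc, hnb, Finset.card_empty, add_zero]
  obtain ⟨y, hy⟩ := red (K := K) (fun w : Fin m → K => evB w w) (GD E S z) ⊥ (fun A _ hA => by
    by_contra hcon
    push Not at hcon
    exact hA (by
      rw [Submodule.mem_bot]
      exact eq_zero_of_values fun z => hcon z)) 1
  rw [finrank_bot, max_eq_left (Nat.zero_le _)] at hy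
  refine ⟨Function.update z c (y 0), ?_⟩
  have h2 : finrank K (GD E (insert c S) (Function.update z c (y 0))) ≤
      finrank K (GD E S z) - 1 := by
    refine (Submodule.finrank_mono ((hle (y 0)).trans ?_)).trans hy
    refine inf_le_inf_left _ (le_iInf fun i => ?_)
    rw [Subsingleton.elim i 0]
  rw [e1, Finset.card_insert_of_notMem hc]
  omega

/-- a set of points without neighbours: `T` contains `S`, and all pairs inside `T` are pairs
inside `S` -/
theorem Fil.extend [CharZero K] {m : ℕ} {U : Type} {E : U → U → Prop} (hE : Asy E)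
    {S T : Finset U} (hST : S ⊆ T) (hT : ∀ u ∈ T, ∀ v ∈ T, E u v → u ∈ S ∧ v ∈ S)
    (h : Fil K m E S) : Fil K m E T := by
  classical
  obtain ⟨R, hR, rfl⟩ : ∃ R : Finset U, Disjoint R S ∧ T = R ∪ S := by
    refine ⟨T \ S, Finset.sdiff_disjoint, ?_⟩
    rw [Finset.sdiff_union_of_subset hST]
  clear hST
  induction R using Finset.induction_on with
  | empty => simpa using h
  | insert c R hc ih =>
    rw [Finset.disjoint_insert_left] at hR
    have h1 := ih hR.2 (fun u hu v hv e => hT u (by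
      rw [Finset.insert_union]; exact Finset.mem_insert_of_mem hu) v (by
      rw [Finset.insert_union]; exact Finset.mem_insert_of_mem hv) e)
    rw [Finset.insert_union]
    refine h1.isolated hE (by simp [hc, hR.1]) ?_
    rw [Finset.eq_empty_iff_forall_notMem]
    intro u hu
    obtain ⟨h2, h3⟩ := mem_nb.1 hu
    have hcT : c ∈ insert c R ∪ S := by simp
    have huT : u ∈ insert c R ∪ S := by
      rw [Finset.insert_union]; exact Finset.mem_insert_of_mem h2
    rcases h3 with e | e
    · exact hR.1 (hT c hcT u huT e).1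
    · exact hR.1 (hT u huT c hcT e).2

/-- **Few points.** -/
theorem Ind.clique [Infinite K] {m : ℕ} {U : Type} [Finite U] {E : U → U → Prop} (hE : Asy E)
    {S : Finset U} (hS : S.card ≤ m) : Ind K m E S := by
  classical
  induction S using Finset.induction_on generalizing m with
  | empty => exact Ind.empty m E
  | insert c S hc ih =>
    rw [Finset.card_insert_of_notMem hc] at hS
    obtain ⟨m, rfl⟩ : ∃ m', m = m' + 1 := ⟨m - 1, by omega⟩
    refine (ih (m := m) (by omega)).peel hE hc ?_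
    have : (nb E S c).card ≤ S.card := Finset.card_le_card fun u hu => (mem_nb.1 hu).1
    omega

/-- **Centres.** Every point of `C` has at most `m` neighbours outside `C`. -/
theorem Ind.centres [Infinite K] {m : ℕ} {U : Type} [Finite U] [DecidableEq U]
    {E : U → U → Prop} (hE : Asy E) {C R : Finset U} (hCR : Disjoint C R)
    (hC : ∀ c ∈ C, (nb E R c).card ≤ m) (hR : Ind K m E R) : Ind K (m + C.card) E (C ∪ R) := by
  classical
  induction C using Finset.induction_on with
  | empty => simpa using hR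
  | insert c C hc ih =>
    rw [Finset.disjoint_insert_left] at hCR
    have h1 := ih hCR.2 fun c' hc' => hC c' (Finset.mem_insert_of_mem hc')
    rw [Finset.card_insert_of_notMem hc, Finset.insert_union]
    refine h1.peel hE (by simp [hc, hCR.1]) ?_
    have h2 : nb E (C ∪ R) c ⊆ C ∪ nb E R c := by
      intro u hu
      obtain ⟨h3, h4⟩ := mem_nb.1 hu
      rcases Finset.mem_union.1 h3 with h5 | h5
      · exact Finset.mem_union_left _ h5
      · exact Finset.mem_union_right _ (mem_nb.2 ⟨h5, h4⟩)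
    have h3 := (Finset.card_le_card h2).trans (Finset.card_union_le _ _)
    have h4 := hC c (Finset.mem_insert_self _ _)
    change (nb E (C ∪ R) c).card ≤ m + C.card
    omega

/-- **The peeling lemma** (helper42, note 2404): `C` the centres, `P` at most `m` further points, `L` points such
that all pairs inside `P ∪ L` are pairs inside `P`. -/
theorem Ind.note [CharZero K] {m : ℕ} {U : Type} [Finite U] [DecidableEq U]
    {E : U → U → Prop} (hE : Asy E) {C P L : Finset U} (hC : Disjoint C (P ∪ L))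
    (hCn : ∀ c ∈ C, (nb E (P ∪ L) c).card ≤ m) (hP : P.card ≤ m)
    (hL : ∀ u ∈ P ∪ L, ∀ v ∈ P ∪ L, E u v → u ∈ P ∧ v ∈ P)
    (hct : (P ∪ L).card + (ep E (P ∪ L)).card ≤ (m + 1).choose 2) :
    Ind K (m + C.card) E (C ∪ (P ∪ L)) := by
  classical
  have : Infinite K := CharZero.infinite K
  refine Ind.centres hE hC hCn (Fil.ind ?_ hct)
  exact (Ind.clique hE hP).fil.extend hE Finset.subset_union_left hL

/-- as `GD`, and singular at the points of `Z` -/
def HD {m : ℕ} {U : Type} (E : U → U → Prop) (Z T : Finset U) (z : U → Fin m → K) :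
    Submodule K (SF K m) where
  carrier := {A | A ∈ GD E T z ∧ ∀ u ∈ Z, ∀ v, bf (A : Fin m → Fin m → K) (z u) v = 0}
  add_mem' := by
    rintro A B ⟨h1, h2⟩ ⟨k1, k2⟩
    refine ⟨add_mem h1 k1, fun u hu v => ?_⟩
    rw [Submodule.coe_add, bf_add, h2 u hu, k2 u hu, add_zero]
  zero_mem' := ⟨zero_mem _, fun u hu v => by simp [bf_zero]⟩
  smul_mem' := by
    rintro r A ⟨h1, h2⟩
    refine ⟨Submodule.smul_mem _ _ h1, fun u hu v => ?_⟩
    rw [Submodule.coe_smul, bf_smul, h2 u hu, mul_zero]

/-- one more singular point, one more dimension -/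
theorem HD_step {m r : ℕ} {U : Type} [DecidableEq U] {E : U → U → Prop} {Z T : Finset U} {c : U}
    (hZ : c ∉ Z) (hT : c ∉ T) (h : ∃ z : U → Fin m → K, finrank K (HD E Z T z) ≤ r) :
    ∃ z : U → Fin (m + 1) → K, finrank K (HD E (insert c Z) T z) ≤ r := by
  classical
  obtain ⟨z, hz⟩ := h
  let z' : U → Fin (m + 1) → K := fun u => if u = c then Pi.single 0 1 else Fin.cons 0 (z u)
  have hzc : z' c = Pi.single 0 1 := by simp [z']
  have hzu : ∀ u, u ≠ c → z' u = Fin.cons 0 (z u) := fun u hu => by simp [z', hu]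
  have hneT : ∀ u ∈ T, u ≠ c := fun u hu h => hT (h ▸ hu)
  have hneZ : ∀ u ∈ Z, u ≠ c := fun u hu h => hZ (h ▸ hu)
  refine ⟨z', le_trans ?_ hz⟩
  have h0 : ∀ A ∈ HD E (insert c Z) T z', ∀ j,
      (A : Fin (m + 1) → Fin (m + 1) → K) 0 j = 0 := by
    intro A hA j
    have := hA.2 c (Finset.mem_insert_self _ _) (Pi.single j 1)
    rw [hzc, bf_single] at this
    exact this
  have key := finrank_two (HD E (insert c Z) T z') (⊥ : Submodule K (Fin m → K)) (HD E Z T z)
    row0 resH
    (fun A hA => by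
      rw [Submodule.mem_bot]
      funext j
      exact h0 A hA j.succ)
    (fun A hA _ => by
      refine ⟨⟨fun u hu => ?_, fun u hu v hv e => ?_⟩, fun u hu v => ?_⟩
      · have := hA.1.1 u hu
        rw [hzu u (hneT u hu), bf_cons] at this
        exact this
      · have := hA.1.2 u hu v hv e
        rw [hzu u (hneT u hu), hzu v (hneT v hv), bf_cons] at this
        exact this
      · have := hA.2 u (Finset.mem_insert_of_mem hu) (Fin.cons 0 v)
        rw [hzu u (hneZ u hu), bf_cons] at this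
        exact this)
    (fun A hA _ h2 => by
      apply Subtype.ext
      funext i j
      have h3 : ∀ i j : Fin m, (A : Fin (m + 1) → Fin (m + 1) → K) i.succ j.succ = 0 := by
        intro i j
        have := congrArg (fun B : SF K m => (B : Fin m → Fin m → K) i j) h2
        simpa [resH_apply] using this
      refine Fin.cases ?_ (fun i => ?_) i
      · exact h0 A hA j
      · refine Fin.cases ?_ (fun j => ?_) j
        · rw [A.2 i.succ 0]
          exact h0 A hA i.succ
        · exact h3 i j)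
  rw [finrank_bot, zero_add] at key
  exact key

theorem HD_ex {m r : ℕ} {U : Type} {E : U → U → Prop} {Z T : Finset U}
    (hZT : Disjoint Z T) (h : ∃ z : U → Fin m → K, finrank K (GD E T z) ≤ r) :
    ∃ z : U → Fin (m + Z.card) → K, finrank K (HD E Z T z) ≤ r := by
  classical
  induction Z using Finset.induction_on with
  | empty =>
    obtain ⟨z, hz⟩ := h
    exact ⟨z, (Submodule.finrank_mono fun A (hA : A ∈ HD E ∅ T z) => hA.1).trans hz⟩
  | insert c Z hc ih =>
    rw [Finset.disjoint_insert_left] at hZT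
    rw [Finset.card_insert_of_notMem hc]
    exact HD_step hc hZT.1 (ih hZT.2)

/-- the pairs of the form `k` in the star limit, outside the group `k` -/
def SE {b : ℕ} {I J : Type} (g lab : I → Fin b) (ord : I → ℕ) (k : Fin b) :
    I ⊕ J → I ⊕ J → Prop
  | Sum.inl i, Sum.inl i' => g i = g i' ∧ ord i < ord i' ∧ lab i = k
  | _, _ => False

theorem SE_asy {b : ℕ} {I J : Type} (g lab : I → Fin b) (ord : I → ℕ) (k : Fin b) :
    Asy (SE (J := J) g lab ord k) := by
  rintro (i | i) (j | j) h1 h2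
  · exact absurd (lt_trans h1.2.1 h2.2.1) (lt_irrefl _)
  · exact h1
  · exact h1
  · exact h1

open Classical in
/-- the points outside the group `k` -/
noncomputable def ST {b : ℕ} {I J : Type} [Fintype I] [Fintype J] (g : I → Fin b) (k : Fin b) :
    Finset (I ⊕ J) := Finset.univ.filter fun u => ∀ i, u = Sum.inl i → g i ≠ k

theorem PK_SD {m b : ℕ} {I J : Type} [Finite I] [Finite J] (g lab : I → Fin b) (ord : I → ℕ)
    (k : Fin b) : PK fun q : (I → Fin m → K) × (J → Fin m → K) => SD q.1 q.2 g lab ord k := by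
  have l1 : ∀ (i : I) (a : Fin m), LP fun q : (I → Fin m → K) × (J → Fin m → K) => q.1 i a :=
    fun i a => (LP_pt i a).comp_linear (LinearMap.fst K (I → Fin m → K) (J → Fin m → K))
  have l2 : ∀ (l : J) (a : Fin m), LP fun q : (I → Fin m → K) × (J → Fin m → K) => q.2 l a :=
    fun l a => (LP_pt l a).comp_linear (LinearMap.snd K (I → Fin m → K) (J → Fin m → K))
  have h1 : PK fun q : (I → Fin m → K) × (J → Fin m → K) =>
      ⨅ i : I, LinearMap.ker (evB (q.1 i) (q.1 i)) := by
    refine PK.iInf fun i => PK.one (φ := fun q : (I → Fin m → K) × (J → Fin m → K) =>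
      evB (q.1 i) (q.1 i)) fun A => ?_
    simp only [evB_apply]
    exact LP_bf _ (l1 i) (l1 i)
  have h2 : PK fun q : (I → Fin m → K) × (J → Fin m → K) =>
      ⨅ i : J, LinearMap.ker (evB (q.2 i) (q.2 i)) := by
    refine PK.iInf fun i => PK.one (φ := fun q : (I → Fin m → K) × (J → Fin m → K) =>
      evB (q.2 i) (q.2 i)) fun A => ?_
    simp only [evB_apply]
    exact LP_bf _ (l2 i) (l2 i)
  have h3 : PK fun q : (I → Fin m → K) × (J → Fin m → K) =>
      ⨅ i : {p : I × Fin m // g p.1 = k}, LinearMap.ker (evB (q.1 i.1.1) (Pi.single i.1.2 1)) := by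
    refine PK.iInf fun i => PK.one (φ := fun q : (I → Fin m → K) × (J → Fin m → K) =>
      evB (q.1 i.1.1) (Pi.single i.1.2 1)) fun A => ?_
    simp only [evB_apply]
    exact LP_bf _ (l1 i.1.1) fun _ => LP.const _
  have h4 : PK fun q : (I → Fin m → K) × (J → Fin m → K) =>
      ⨅ p : {p : I × I // g p.1 = g p.2 ∧ ord p.1 < ord p.2 ∧ lab p.1 = k},
        LinearMap.ker (evB (q.1 p.1.1) (q.1 p.1.2)) := by
    refine PK.iInf fun p => PK.one (φ := fun q : (I → Fin m → K) × (J → Fin m → K) =>
      evB (q.1 p.1.1) (q.1 p.1.2)) fun A => ?_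
    simp only [evB_apply]
    exact LP_bf _ (l1 p.1.1) (l1 p.1.2)
  refine (((h1.inf h2).inf h3).inf h4).congr fun q => ?_
  ext A
  simp only [Submodule.mem_inf, Submodule.mem_iInf, LinearMap.mem_ker, evB_apply, mem_SD,
    Subtype.forall, Prod.forall]
  have e : ∀ i, (∀ v, bf (A : Fin m → Fin m → K) (q.1 i) v = 0) ↔
      ∀ a : Fin m, bf (A : Fin m → Fin m → K) (q.1 i) (Pi.single a 1) = 0 := by
    intro i
    have := full_iff (b := 1) (fun _ => (A : Fin m → Fin m → K)) (fun _ => 1) (q.1 i)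
    simpa using this
  constructor
  · rintro ⟨⟨⟨k1, k2⟩, k3⟩, k4⟩
    exact ⟨k1, k2, fun i hi => (e i).2 fun a => k3 i a hi, fun i i' e1 e2 e3 => k4 i i' ⟨e1, e2, e3⟩⟩
  · rintro ⟨k1, k2, k3, k4⟩
    exact ⟨⟨⟨k1, k2⟩, fun i a hi => (e i).1 (k3 i hi) a⟩, fun i i' ⟨e1, e2, e3⟩ => k4 i i' e1 e2 e3⟩

open Classical in
/-- **The rank lemma for the star limit.** If the conditions of a set `S` of points outside the group `k`, which contains
all the pairs of the form `k`, are independent in dimension `m` (= total dimension minus the size of the group), then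
for general points the decoupled system `SD` has at most the expected dimension. -/
theorem SD_gen [CharZero K] {m M b : ℕ} {I J : Type} [Fintype I] [Fintype J] (g lab : I → Fin b)
    (ord : I → ℕ) (k : Fin b) (hM : M = m + (Finset.univ.filter fun i => g i = k).card)
    (S : Finset (I ⊕ J)) (hS : S ⊆ ST g k)
    (hE : ∀ i i', g i ≠ k → g i = g i' → ord i < ord i' → lab i = k →
      Sum.inl i ∈ S ∧ Sum.inl i' ∈ S)
    (hI : Ind K m (SE g lab ord k) S) :
    Gen K fun q : (I → Fin M → K) × (J → Fin M → K) => finrank K (SD q.1 q.2 g lab ord k) ≤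
      (m + 1).choose 2 - ((ST (J := J) g k).card + (ep (SE g lab ord k) (ST (J := J) g k)).card) := by
  subst hM
  have hT : ∀ u ∈ ST (J := J) g k, ∀ v ∈ ST (J := J) g k, SE g lab ord k u v → u ∈ S ∧ v ∈ S := by
    rintro (i | i) hi (j | j) hj e
    · exact hE i j ((Finset.mem_filter.1 hi).2 i rfl) e.1 e.2.1 e.2.2
    · exact absurd e id
    · exact absurd e id
    · exact absurd e id
  have h1 := hI.fil.extend (SE_asy g lab ord k) hS hT
  let Z : Finset (I ⊕ J) := (Finset.univ.filter fun i => g i = k).map Function.Embedding.inl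
  have hZ : Z.card = (Finset.univ.filter fun i => g i = k).card := Finset.card_map _
  have hd : Disjoint Z (ST g k) := by
    rw [Finset.disjoint_left]
    intro u hu hu'
    obtain ⟨i, hi, rfl⟩ := Finset.mem_map.1 hu
    exact (Finset.mem_filter.1 hu').2 i rfl (Finset.mem_filter.1 hi).2
  have h2 := HD_ex hd h1
  rw [hZ] at h2
  obtain ⟨z, hz⟩ := h2
  refine (PK_SD g lab ord k).gen_finrank
    (x₀ := (fun i => z (Sum.inl i), fun j => z (Sum.inr j))) ((Submodule.finrank_mono ?_).trans hz)
  intro A hA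
  obtain ⟨k1, k2, k3, k4⟩ := mem_SD.1 hA
  refine ⟨⟨?_, ?_⟩, ?_⟩
  · rintro (i | i) _
    · exact k1 i
    · exact k2 i
  · rintro (i | i) _ (j | j) _ e
    · exact k4 i j e.1 e.2.1 e.2.2
    · exact absurd e id
    · exact absurd e id
    · exact absurd e id
  · intro u hu v
    obtain ⟨i, hi, rfl⟩ := Finset.mem_map.1 hu
    exact k3 i (Finset.mem_filter.1 hi).2 v

end Peel

end Pool.Agent.WarR


end

section

/-!
# The chain assignment (MP_db021c_ag, degree 2)   (helper42)

`b ≥ 3` groups, `r k` full points in the group `k` (`k : Fin b`, cyclic). The star of the point `i` of the group `j`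
(the pairs `i < i'`) goes to the form `j + 2` if `i ∈ S j` and to the form `j + 1` otherwise. The form `k` gets
`cs (S (k - 2)) + cs (S (k - 1))ᶜ` pairs; `cs A` is the number of the pairs `i < i'` with `i ∈ A`.
`chain_sets`: if every form satisfies one of three rank conditions then the kernel of a general configuration of
`∑ r k` full points and `y` simple points has dimension at most the expected one, form by form.
-/

set_option autoImplicit false

open Module

namespace Pool.Agent.WarR

open Pool.Agent.War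

/-- number of the pairs `i < i'` with `i ∈ A` -/
def cs {r : ℕ} (A : Finset (Fin r)) : ℕ := ∑ i ∈ A, (r - 1 - (i : ℕ))

/-- the pairs `i < i'` with `i ∈ A` -/
def Qp {r : ℕ} (A : Finset (Fin r)) : Finset (Fin r × Fin r) :=
  (A ×ˢ Finset.univ).filter fun p => p.1 < p.2

theorem mem_Qp {r : ℕ} {A : Finset (Fin r)} {p : Fin r × Fin r} :
    p ∈ Qp A ↔ p.1 ∈ A ∧ p.1 < p.2 := by
  simp [Qp]

theorem card_Qp {r : ℕ} (A : Finset (Fin r)) : (Qp A).card = cs A := by
  unfold Qp cs
  rw [Finset.card_filter, Finset.sum_product]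
  refine Finset.sum_congr rfl fun i _ => ?_
  rw [← Finset.card_filter]
  have e : (Finset.univ.filter fun j => i < j) = Finset.Ioi i := by
    ext j
    simp
  rw [e, Fin.card_Ioi]

/-- all the pairs -/
theorem cs_add_compl {r : ℕ} (A : Finset (Fin r)) : cs A + cs Aᶜ = r.choose 2 := by
  have h1 : cs A + cs Aᶜ = ∑ i : Fin r, (r - 1 - (i : ℕ)) := by
    unfold cs
    rw [← Finset.sum_union disjoint_compl_right, Finset.union_compl]
  rw [h1, Fin.sum_univ_eq_sum_range (fun i => r - 1 - i) r, Finset.sum_range_reflect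
    (fun i => i) r, Finset.sum_range_id, Nat.choose_two_right]

open Classical in
theorem mem_ST {b : ℕ} {I J : Type} [Fintype I] [Fintype J] {g : I → Fin b} {k : Fin b}
    {u : I ⊕ J} : u ∈ ST g k ↔ ∀ i, u = Sum.inl i → g i ≠ k := by
  unfold ST
  rw [Finset.mem_filter]
  exact ⟨fun h => h.2, fun h => ⟨Finset.mem_univ _, h⟩⟩

namespace Chain

section

variable {b : ℕ} {r : Fin b → ℕ}

/-- the full points -/
abbrev CI (r : Fin b → ℕ) : Type := (k : Fin b) × Fin (r k)

/-- the group -/
def cg (i : CI r) : Fin b := i.1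

/-- the order -/
def co (i : CI r) : ℕ := (i.2 : ℕ)

/-- the label -/
def cl [NeZero b] (S : ∀ j, Finset (Fin (r j))) (i : CI r) : Fin b :=
  if i.2 ∈ S i.1 then i.1 + 2 else i.1 + 1

/-- some points of one group -/
def gi {y : ℕ} (j : Fin b) (A : Finset (Fin (r j))) : Finset (CI r ⊕ Fin y) :=
  A.map ⟨fun i => Sum.inl ⟨j, i⟩, fun i i' h => by
    have h1 : (⟨j, i⟩ : CI r) = ⟨j, i'⟩ := Sum.inl_injective h
    rw [Sigma.mk.injEq] at h1
    exact eq_of_heq h1.2⟩

theorem mem_gi {y : ℕ} {j : Fin b} {A : Finset (Fin (r j))} {u : CI r ⊕ Fin y} :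
    u ∈ gi j A ↔ ∃ i ∈ A, Sum.inl ⟨j, i⟩ = u := by
  unfold gi
  rw [Finset.mem_map]
  exact Iff.rfl

theorem mem_gi' {y : ℕ} {j : Fin b} {A : Finset (Fin (r j))} {i : Fin (r j)} :
    (Sum.inl ⟨j, i⟩ : CI r ⊕ Fin y) ∈ gi j A ↔ i ∈ A := by
  rw [mem_gi]
  constructor
  · rintro ⟨i', hi', h⟩
    have h1 : (⟨j, i'⟩ : CI r) = ⟨j, i⟩ := Sum.inl_injective h
    rw [Sigma.mk.injEq] at h1
    rw [← eq_of_heq h1.2]
    exact hi'
  · intro h
    exact ⟨i, h, rfl⟩

theorem card_gi {y : ℕ} (j : Fin b) (A : Finset (Fin (r j))) :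
    (gi (y := y) j A).card = A.card := Finset.card_map _

theorem gi_disjoint {y : ℕ} {j j' : Fin b} (h : j ≠ j') (A : Finset (Fin (r j)))
    (B : Finset (Fin (r j'))) : Disjoint (gi (y := y) j A) (gi j' B) := by
  rw [Finset.disjoint_left]
  intro u hu hv
  obtain ⟨i, _, rfl⟩ := mem_gi.1 hu
  obtain ⟨i', _, h2⟩ := mem_gi.1 hv
  have h1 : (⟨j', i'⟩ : CI r) = ⟨j, i⟩ := Sum.inl_injective h2
  rw [Sigma.mk.injEq] at h1
  exact h h1.1.symm

theorem card_group (k : Fin b) : (Finset.univ.filter fun i : CI r => cg i = k).card = r k := by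
  classical
  have e : (Finset.univ.filter fun i : CI r => cg i = k) =
      Finset.univ.map ⟨fun i : Fin (r k) => (⟨k, i⟩ : CI r), fun i i' h => by
        have h' : (⟨k, i⟩ : CI r) = ⟨k, i'⟩ := h
        rw [Sigma.mk.injEq] at h'
        exact eq_of_heq h'.2⟩ := by
    ext ⟨j, i⟩
    constructor
    · intro h
      have h' : j = k := (Finset.mem_filter.1 h).2
      subst h'
      exact Finset.mem_map.2 ⟨i, Finset.mem_univ _, rfl⟩
    · intro h
      obtain ⟨i', _, h'⟩ := Finset.mem_map.1 h
      have h2 : (⟨k, i'⟩ : CI r) = ⟨j, i⟩ := h'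
      rw [Sigma.mk.injEq] at h2
      exact Finset.mem_filter.2 ⟨Finset.mem_univ _, h2.1.symm⟩
  rw [e, Finset.card_map, Finset.card_univ, Fintype.card_fin]

theorem card_ST {y : ℕ} (k : Fin b) : (ST (J := Fin y) (cg (r := r)) k).card + r k =
    ∑ j, r j + y := by
  classical
  have h1 : (ST (J := Fin y) (cg (r := r)) k) = (gi k Finset.univ)ᶜ := by
    ext u
    rw [Finset.mem_compl]
    constructor
    · intro h hu
      obtain ⟨i, _, rfl⟩ := mem_gi.1 hu
      exact mem_ST.1 h _ rfl rfl
    · intro h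
      refine mem_ST.2 ?_
      rintro ⟨j, i⟩ rfl hj
      have hj' : j = k := hj
      subst hj'
      exact h (mem_gi'.2 (Finset.mem_univ _))
  have h2 : Fintype.card (CI r ⊕ Fin y) = ∑ j, r j + y := by
    rw [Fintype.card_sum, Fintype.card_fin, Fintype.card_sigma]
    simp
  have h3 := Finset.card_add_card_compl (gi (r := r) (y := y) k Finset.univ)
  rw [card_gi, Finset.card_univ, Fintype.card_fin, h2] at h3
  rw [h1]
  omega

end

section

variable {b : ℕ} [NeZero b] {r : Fin b → ℕ}

theorem fin_ne (hb : 3 ≤ b) (k : Fin b) : k - 1 ≠ k ∧ k - 2 ≠ k ∧ k - 2 ≠ k - 1 := by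
  obtain ⟨b, rfl⟩ : ∃ b', b = b' + 3 := ⟨b - 3, by omega⟩
  have h1 : (1 : Fin (b + 3)) ≠ 0 := by
    intro h
    have := congrArg Fin.val h
    simp at this
  have h2 : (2 : Fin (b + 3)) ≠ 0 := by
    intro h
    have := congrArg Fin.val h
    rw [Fin.val_two] at this
    simp at this
  have h3 : (2 : Fin (b + 3)) ≠ 1 := by
    intro h
    have := congrArg Fin.val h
    rw [Fin.val_two, Fin.val_one] at this
    omega
  refine ⟨fun h => h1 ?_, fun h => h2 ?_, fun h => h3 ?_⟩
  · rwa [sub_eq_self] at h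
  · rwa [sub_eq_self] at h
  · rwa [sub_right_inj] at h

theorem cl_eq (S : ∀ j, Finset (Fin (r j))) (k : Fin b) (i : CI r) :
    cl S i = k ↔ (i.1 = k - 2 ∧ i.2 ∈ S i.1) ∨ (i.1 = k - 1 ∧ i.2 ∉ S i.1) := by
  unfold cl
  split_ifs with h
  · rw [← eq_sub_iff_add_eq]
    constructor
    · intro e
      exact Or.inl ⟨e, h⟩
    · rintro (⟨e, _⟩ | ⟨_, h'⟩)
      · exact e
      · exact absurd h h'
  · rw [← eq_sub_iff_add_eq]
    constructor
    · intro e
      exact Or.inr ⟨e, h⟩
    · rintro (⟨_, h'⟩ | ⟨e, _⟩)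
      · exact absurd h' h
      · exact e

/-- the pairs of the form `k` -/
theorem SE_iff {y : ℕ} (S : ∀ j, Finset (Fin (r j))) (k : Fin b)
    (u v : CI r ⊕ Fin y) : SE cg (cl S) co k u v ↔
      (∃ i i' : Fin (r (k - 2)), i ∈ S (k - 2) ∧ i < i' ∧ u = Sum.inl ⟨k - 2, i⟩ ∧
        v = Sum.inl ⟨k - 2, i'⟩) ∨
      ∃ i i' : Fin (r (k - 1)), i ∉ S (k - 1) ∧ i < i' ∧ u = Sum.inl ⟨k - 1, i⟩ ∧
        v = Sum.inl ⟨k - 1, i'⟩ := by
  constructor
  · intro h
    rcases u with ⟨j, i⟩ | l
    · rcases v with ⟨j', i'⟩ | l'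
      · obtain ⟨h1, h2, h3⟩ := h
        have h1' : j = j' := h1
        subst h1'
        have h2' : i < i' := h2
        rcases (cl_eq S k ⟨j, i⟩).1 h3 with ⟨e, hi⟩ | ⟨e, hi⟩
        · left
          have e' : j = k - 2 := e
          subst e'
          exact ⟨i, i', hi, h2', rfl, rfl⟩
        · right
          have e' : j = k - 1 := e
          subst e'
          exact ⟨i, i', hi, h2', rfl, rfl⟩
      · exact absurd h id
    · exact absurd h id
  · rintro (⟨i, i', hi, hlt, rfl, rfl⟩ | ⟨i, i', hi, hlt, rfl, rfl⟩)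
    · exact ⟨rfl, hlt, (cl_eq S k _).2 (Or.inl ⟨rfl, hi⟩)⟩
    · exact ⟨rfl, hlt, (cl_eq S k _).2 (Or.inr ⟨rfl, hi⟩)⟩

/-- the pairs of two points of the group `j` -/
def em (y : ℕ) (j : Fin b) : Fin (r j) × Fin (r j) ↪ (CI r ⊕ Fin y) × (CI r ⊕ Fin y) :=
  ⟨fun p => (Sum.inl ⟨j, p.1⟩, Sum.inl ⟨j, p.2⟩), fun p q h => by
    have h' : ((Sum.inl ⟨j, p.1⟩, Sum.inl ⟨j, p.2⟩) : (CI r ⊕ Fin y) × (CI r ⊕ Fin y)) =
      (Sum.inl ⟨j, q.1⟩, Sum.inl ⟨j, q.2⟩) := h
    rw [Prod.mk.injEq] at h'
    have h1 : (⟨j, p.1⟩ : CI r) = ⟨j, q.1⟩ := Sum.inl_injective h'.1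
    have h2 : (⟨j, p.2⟩ : CI r) = ⟨j, q.2⟩ := Sum.inl_injective h'.2
    rw [Sigma.mk.injEq] at h1 h2
    exact Prod.ext (eq_of_heq h1.2) (eq_of_heq h2.2)⟩

omit [NeZero b] in
theorem em_apply {y : ℕ} (j : Fin b) (p : Fin (r j) × Fin (r j)) :
    em y j p = (Sum.inl ⟨j, p.1⟩, Sum.inl ⟨j, p.2⟩) := rfl

theorem card_ep_ge {y : ℕ} (hb : 3 ≤ b) (S : ∀ j, Finset (Fin (r j))) (k : Fin b) :
    cs (S (k - 2)) + cs (S (k - 1))ᶜ ≤
      (ep (SE cg (cl S) co k) (ST (J := Fin y) (cg (r := r)) k)).card := by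
  classical
  obtain ⟨n1, n2, n3⟩ := fin_ne hb k
  have hST : ∀ j (i : Fin (r j)), j ≠ k → (Sum.inl ⟨j, i⟩ : CI r ⊕ Fin y) ∈
      ST (J := Fin y) (cg (r := r)) k := by
    intro j i hj
    refine mem_ST.2 ?_
    rintro i' h
    have : i' = ⟨j, i⟩ := (Sum.inl_injective h).symm
    subst this
    exact hj
  have h1 : (Qp (S (k - 2))).map (em y (k - 2)) ∪ (Qp (S (k - 1))ᶜ).map (em y (k - 1)) ⊆
      ep (SE cg (cl S) co k) (ST (J := Fin y) (cg (r := r)) k) := by
    intro p hp
    rw [mem_ep]
    rcases Finset.mem_union.1 hp with hp | hp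
    · obtain ⟨q, hq, rfl⟩ := Finset.mem_map.1 hp
      rw [em_apply]
      obtain ⟨hq1, hq2⟩ := mem_Qp.1 hq
      exact ⟨⟨hST _ _ n2, hST _ _ n2⟩, (SE_iff S k _ _).2 (Or.inl ⟨_, _, hq1, hq2, rfl, rfl⟩)⟩
    · obtain ⟨q, hq, rfl⟩ := Finset.mem_map.1 hp
      rw [em_apply]
      obtain ⟨hq1, hq2⟩ := mem_Qp.1 hq
      exact ⟨⟨hST _ _ n1, hST _ _ n1⟩, (SE_iff S k _ _).2
        (Or.inr ⟨_, _, Finset.mem_compl.1 hq1, hq2, rfl, rfl⟩)⟩
  have h2 : Disjoint ((Qp (S (k - 2))).map (em y (k - 2)))
      ((Qp (S (k - 1))ᶜ).map (em y (k - 1))) := by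
    rw [Finset.disjoint_left]
    intro p hp hp'
    obtain ⟨q, _, rfl⟩ := Finset.mem_map.1 hp
    obtain ⟨q', _, h⟩ := Finset.mem_map.1 hp'
    rw [em_apply, em_apply, Prod.mk.injEq] at h
    have h3 : (⟨k - 1, q'.1⟩ : CI r) = ⟨k - 2, q.1⟩ := Sum.inl_injective h.1
    rw [Sigma.mk.injEq] at h3
    exact n3 h3.1.symm
  have h3 := Finset.card_le_card h1
  rw [Finset.card_union_of_disjoint h2, Finset.card_map, Finset.card_map, card_Qp, card_Qp] at h3
  exact h3

end

end Chain

open _root_.Pool.Agent.WarR.Chain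

/-- **The chain theorem**, with the sets of the stars. -/
theorem chain_sets {K : Type*} [Field K] [CharZero K] {m b y : ℕ} [NeZero b] (hb : 3 ≤ b)
    (r : Fin b → ℕ) (S : ∀ j, Finset (Fin (r j))) (tp : Fin b → ℕ)
    (htp : ∀ j (i : Fin (r j)), (i : ℕ) < tp j → i ∈ S j) (hr : ∀ k, r k ≤ m)
    (hR : ∀ k, r k + r (k - 1) + r (k - 2) ≤ m ∨
      (S (k - 2) = ∅ ∧ r k + (r (k - 1) - tp (k - 1)) ≤ m) ∨
      (r k + r (k - 2) ≤ m ∧ r k + (r (k - 1) - tp (k - 1)) + (S (k - 2)).card ≤ m ∧
        (r (k - 1) - tp (k - 1)) + (r (k - 2) - (S (k - 2)).card) + cs (S (k - 1))ᶜ ≤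
          (m - r k - (S (k - 2)).card + 1).choose 2)) :
    KQ K m b (∑ k, r k) y (∑ k, ((m + 1 - r k).choose 2 -
      ((∑ j, r j - r k) + y + cs (S (k - 2)) + cs (S (k - 1))ᶜ))) := by
  classical
  have : Infinite K := CharZero.infinite K
  have key : ∀ k, Gen K fun q : (CI r → Fin m → K) × (Fin y → Fin m → K) =>
      finrank K (SD q.1 q.2 cg (cl S) co k) ≤ (m + 1 - r k).choose 2 -
        ((∑ j, r j - r k) + y + cs (S (k - 2)) + cs (S (k - 1))ᶜ) := by
    intro k
    obtain ⟨n1, n2, n3⟩ := fin_ne hb k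
    obtain ⟨m', hm'⟩ : ∃ m', m = m' + r k := ⟨m - r k, by have := hr k; omega⟩
    have hE := SE_asy (J := Fin y) (cg (r := r)) (cl S) co k
    have hmono : ∀ T : Finset (CI r ⊕ Fin y), T ⊆ ST cg k →
        (∀ i i' : Fin (r (k - 2)), i ∈ S (k - 2) → i < i' →
          Sum.inl ⟨k - 2, i⟩ ∈ T ∧ Sum.inl ⟨k - 2, i'⟩ ∈ T) →
        (∀ i i' : Fin (r (k - 1)), i ∉ S (k - 1) → i < i' →
          Sum.inl ⟨k - 1, i⟩ ∈ T ∧ Sum.inl ⟨k - 1, i'⟩ ∈ T) →
        Ind K m' (SE cg (cl S) co k) T →
        Gen K fun q : (CI r → Fin m → K) × (Fin y → Fin m → K) =>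
          finrank K (SD q.1 q.2 cg (cl S) co k) ≤ (m + 1 - r k).choose 2 -
            ((∑ j, r j - r k) + y + cs (S (k - 2)) + cs (S (k - 1))ᶜ) := by
      intro T hT hT2 hT1 hI
      refine (SD_gen (m := m') (M := m) cg (cl S) co k ?_ T hT ?_ hI).mono fun q hq =>
        hq.trans ?_
      · rw [card_group]
        exact hm'
      · rintro ⟨j, i⟩ ⟨j', i'⟩ hj hjj hlt hl
        have hjj' : j = j' := hjj
        subst hjj'
        have hlt' : i < i' := hlt
        rcases (cl_eq S k ⟨j, i⟩).1 hl with ⟨e, hi⟩ | ⟨e, hi⟩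
        · have e' : j = k - 2 := e
          subst e'
          exact hT2 i i' hi hlt'
        · have e' : j = k - 1 := e
          subst e'
          exact hT1 i i' hi hlt'
      · have h1 := card_ST (r := r) (y := y) k
        have h2 := card_ep_ge (y := y) hb S k
        have h3 : m + 1 - r k = m' + 1 := by omega
        have h4 : r k ≤ ∑ j, r j := Finset.single_le_sum (fun _ _ => Nat.zero_le _)
          (Finset.mem_univ k)
        rw [h3]
        apply Nat.sub_le_sub_left
        omega
    have hg : ∀ j (A : Finset (Fin (r j))), j ≠ k → gi (y := y) j A ⊆ ST cg k := by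
      intro j A hj u hu
      obtain ⟨i, _, rfl⟩ := mem_gi.1 hu
      refine mem_ST.2 ?_
      rintro i' h
      have : i' = ⟨j, i⟩ := (Sum.inl_injective h).symm
      subst this
      exact hj
    rcases hR k with h | ⟨hS, h⟩ | ⟨h1, h2, h3⟩
    · -- the three groups are small
      refine hmono (gi (k - 1) Finset.univ ∪ gi (k - 2) Finset.univ)
        (Finset.union_subset (hg _ _ n1) (hg _ _ n2)) (fun i i' _ _ => ?_) (fun i i' _ _ => ?_)
        (Ind.clique hE ?_)
      · exact ⟨Finset.mem_union_right _ (mem_gi'.2 (Finset.mem_univ _)),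
          Finset.mem_union_right _ (mem_gi'.2 (Finset.mem_univ _))⟩
      · exact ⟨Finset.mem_union_left _ (mem_gi'.2 (Finset.mem_univ _)),
          Finset.mem_union_left _ (mem_gi'.2 (Finset.mem_univ _))⟩
      · refine (Finset.card_union_le _ _).trans ?_
        rw [card_gi, card_gi, Finset.card_univ, Finset.card_univ, Fintype.card_fin,
          Fintype.card_fin]
        omega
    · -- no star from the group `k - 2`
      have hcl : (gi (r := r) (y := y) (k - 1)
          (Finset.univ.filter fun i => tp (k - 1) ≤ (i : ℕ))).card ≤ r (k - 1) - tp (k - 1) := by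
        rw [card_gi]
        have e : (Finset.univ.filter fun i : Fin (r (k - 1)) => tp (k - 1) ≤ (i : ℕ)).card =
            r (k - 1) - tp (k - 1) := by
          have h5 : (Finset.univ.filter fun i : Fin (r (k - 1)) => tp (k - 1) ≤ (i : ℕ)).map
              Fin.valEmbedding = Finset.Ico (tp (k - 1)) (r (k - 1)) := by
            ext a
            simp only [Finset.mem_map, Finset.mem_filter, Finset.mem_univ, true_and,
              Fin.valEmbedding_apply, Finset.mem_Ico]
            constructor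
            · rintro ⟨i, hi, rfl⟩
              exact ⟨hi, i.2⟩
            · rintro ⟨ha, hb'⟩
              exact ⟨⟨a, hb'⟩, ha, rfl⟩
          rw [← Finset.card_map Fin.valEmbedding, h5, Nat.card_Ico]
        exact e.le
      refine hmono (gi (k - 1) (Finset.univ.filter fun i => tp (k - 1) ≤ (i : ℕ))) (hg _ _ n1)
        (fun i i' hi _ => ?_) (fun i i' hi hlt => ?_) (Ind.clique hE (hcl.trans (by omega)))
      · rw [hS] at hi
        exact absurd hi (Finset.notMem_empty _)
      · have hi1 : tp (k - 1) ≤ (i : ℕ) := by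
          by_contra hlt'
          exact hi (htp _ _ (not_le.1 hlt'))
        have hi2 : tp (k - 1) ≤ (i' : ℕ) := hi1.trans (le_of_lt hlt)
        exact ⟨mem_gi'.2 (Finset.mem_filter.2 ⟨Finset.mem_univ _, hi1⟩),
          mem_gi'.2 (Finset.mem_filter.2 ⟨Finset.mem_univ _, hi2⟩)⟩
    · -- centres in the group `k - 2`
      have e0 : (Finset.univ.filter fun i : Fin (r (k - 1)) => tp (k - 1) ≤ (i : ℕ)).card =
          r (k - 1) - tp (k - 1) := by
        have h5 : (Finset.univ.filter fun i : Fin (r (k - 1)) => tp (k - 1) ≤ (i : ℕ)).map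
            Fin.valEmbedding = Finset.Ico (tp (k - 1)) (r (k - 1)) := by
          ext a
          simp only [Finset.mem_map, Finset.mem_filter, Finset.mem_univ, true_and,
            Fin.valEmbedding_apply, Finset.mem_Ico]
          constructor
          · rintro ⟨i, hi, rfl⟩
            exact ⟨hi, i.2⟩
          · rintro ⟨ha, hb'⟩
            exact ⟨⟨a, hb'⟩, ha, rfl⟩
        rw [← Finset.card_map Fin.valEmbedding, h5, Nat.card_Ico]
      set C : Finset (CI r ⊕ Fin y) := gi (k - 2) (S (k - 2)) with hC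
      set P : Finset (CI r ⊕ Fin y) := gi (k - 1)
        (Finset.univ.filter fun i => tp (k - 1) ≤ (i : ℕ)) with hP
      set L : Finset (CI r ⊕ Fin y) := gi (k - 2) (S (k - 2))ᶜ with hL
      have cC : C.card = (S (k - 2)).card := card_gi _ _
      have cP : P.card = r (k - 1) - tp (k - 1) := (card_gi _ _).trans e0
      have cL : L.card = r (k - 2) - (S (k - 2)).card := by
        rw [hL, card_gi, Finset.card_compl, Fintype.card_fin]
      have hSc : (S (k - 2)).card ≤ r (k - 2) := by
        have := Finset.card_le_univ (S (k - 2))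
        rwa [Fintype.card_fin] at this
      obtain ⟨m₀, hm₀⟩ : ∃ m₀, m' = m₀ + C.card := ⟨m' - C.card, by rw [cC]; omega⟩
      have hCPL : Disjoint C (P ∪ L) := by
        rw [Finset.disjoint_union_right]
        refine ⟨gi_disjoint n3 _ _, ?_⟩
        rw [Finset.disjoint_left]
        intro u hu hv
        obtain ⟨i, hi, rfl⟩ := mem_gi.1 hu
        exact (Finset.mem_compl.1 (mem_gi'.1 hv)) hi
      have hPL : ∀ u ∈ P ∪ L, ∀ v ∈ P ∪ L, SE cg (cl S) co k u v →
          ∃ i i' : Fin (r (k - 1)), i ∉ S (k - 1) ∧ i < i' ∧ u = Sum.inl ⟨k - 1, i⟩ ∧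
            v = Sum.inl ⟨k - 1, i'⟩ := by
        intro u hu v hv e
        rcases (SE_iff S k u v).1 e with ⟨i, i', hi, _, rfl, _⟩ | h
        · exfalso
          exact Finset.disjoint_left.1 hCPL (mem_gi'.2 hi) hu
        · exact h
      have hInd : Ind K (m₀ + C.card) (SE cg (cl S) co k) (C ∪ (P ∪ L)) := by
        refine Ind.note hE hCPL ?_ (by rw [cP]; omega) ?_ ?_
        · -- neighbours of the centres
          intro c hc
          obtain ⟨i, hi, rfl⟩ := mem_gi.1 hc
          have h5 : nb (SE cg (cl S) co k) (P ∪ L) (Sum.inl ⟨k - 2, i⟩) ⊆ L := by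
            intro u hu
            obtain ⟨hu1, hu2⟩ := mem_nb.1 hu
            have hgrp : ∃ i' : Fin (r (k - 2)), u = Sum.inl ⟨k - 2, i'⟩ := by
              rcases hu2 with e | e
              · rcases (SE_iff S k _ _).1 e with ⟨a, a', _, _, _, rfl⟩ | ⟨a, a', _, _, ha, _⟩
                · exact ⟨a', rfl⟩
                · exfalso
                  have h6 : (⟨k - 2, i⟩ : CI r) = ⟨k - 1, a⟩ := Sum.inl_injective ha
                  rw [Sigma.mk.injEq] at h6
                  exact n3 h6.1
              · rcases (SE_iff S k _ _).1 e with ⟨a, a', _, _, rfl, _⟩ | ⟨a, a', _, _, _, ha⟩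
                · exact ⟨a, rfl⟩
                · exfalso
                  have h6 : (⟨k - 2, i⟩ : CI r) = ⟨k - 1, a'⟩ := Sum.inl_injective ha
                  rw [Sigma.mk.injEq] at h6
                  exact n3 h6.1
            obtain ⟨i', rfl⟩ := hgrp
            rcases Finset.mem_union.1 hu1 with h7 | h7
            · exfalso
              exact Finset.disjoint_left.1 (gi_disjoint (y := y) n3 Finset.univ
                (Finset.univ.filter fun i => tp (k - 1) ≤ (i : ℕ))) (mem_gi'.2 (Finset.mem_univ _)) h7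
            · exact h7
          refine (Finset.card_le_card h5).trans ?_
          rw [cL]
          omega
        · intro u hu v hv e
          obtain ⟨i, i', hi, hlt, rfl, rfl⟩ := hPL u hu v hv e
          have hi1 : tp (k - 1) ≤ (i : ℕ) := by
            by_contra hlt'
            exact hi (htp _ _ (not_le.1 hlt'))
          have hi2 : tp (k - 1) ≤ (i' : ℕ) := hi1.trans (le_of_lt hlt)
          exact ⟨mem_gi'.2 (Finset.mem_filter.2 ⟨Finset.mem_univ _, hi1⟩),
            mem_gi'.2 (Finset.mem_filter.2 ⟨Finset.mem_univ _, hi2⟩)⟩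
        · -- the count
          have h5 : ep (SE cg (cl S) co k) (P ∪ L) ⊆ (Qp (S (k - 1))ᶜ).map (em y (k - 1)) := by
            intro p hp
            obtain ⟨⟨hp1, hp2⟩, hp3⟩ := mem_ep.1 hp
            obtain ⟨i, i', hi, hlt, e1, e2⟩ := hPL _ hp1 _ hp2 hp3
            refine Finset.mem_map.2 ⟨(i, i'), mem_Qp.2 ⟨Finset.mem_compl.2 hi, hlt⟩, ?_⟩
            rw [em_apply]
            exact Prod.ext e1.symm e2.symm
          have h6 := Finset.card_le_card h5
          rw [Finset.card_map, card_Qp] at h6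
          have h7 : (P ∪ L).card ≤ P.card + L.card := Finset.card_union_le _ _
          have h8 : m₀ = m - r k - (S (k - 2)).card := by rw [cC] at hm₀; omega
          rw [← h8] at h3
          rw [cP, cL] at h7
          omega
      rw [← hm₀] at hInd
      refine hmono (C ∪ (P ∪ L)) ?_ (fun i i' hi hlt => ?_) (fun i i' hi hlt => ?_) hInd
      · exact Finset.union_subset (hg _ _ n2) (Finset.union_subset (hg _ _ n1) (hg _ _ n2))
      · have hall : ∀ a : Fin (r (k - 2)), (Sum.inl ⟨k - 2, a⟩ : CI r ⊕ Fin y) ∈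
            C ∪ (P ∪ L) := by
          intro a
          by_cases ha : a ∈ S (k - 2)
          · exact Finset.mem_union_left _ (mem_gi'.2 ha)
          · exact Finset.mem_union_right _ (Finset.mem_union_right _
              (mem_gi'.2 (Finset.mem_compl.2 ha)))
        exact ⟨hall i, hall i'⟩
      · have hi1 : tp (k - 1) ≤ (i : ℕ) := by
          by_contra hlt'
          exact hi (htp _ _ (not_le.1 hlt'))
        have hi2 : tp (k - 1) ≤ (i' : ℕ) := hi1.trans (le_of_lt hlt)
        exact ⟨Finset.mem_union_right _ (Finset.mem_union_left _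
            (mem_gi'.2 (Finset.mem_filter.2 ⟨Finset.mem_univ _, hi1⟩))),
          Finset.mem_union_right _ (Finset.mem_union_left _
            (mem_gi'.2 (Finset.mem_filter.2 ⟨Finset.mem_univ _, hi2⟩)))⟩
  obtain ⟨q, hq⟩ := (Gen.forall key).exists
  have hst := star q.1 q.2 cg (cl S) co _ hq
  have e1 : Fintype.card (CI r) = ∑ k, r k := by
    rw [Fintype.card_sigma]
    simp
  rw [e1, Fintype.card_fin] at hst
  exact hst

end Pool.Agent.WarR


end
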