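import Mathlib
import Pool.Agent.CLAM.C03

/-! Parts: WarR.Plain, WarR.Pencil, WarR.Sdef, WarR.As, WarR.Chain2, WarR.Flow, WarR.Cod2, WarR.B3, WarR.ChainN -/

section

/-!
# The step without split point   (helper14)

All full points and `y₁` simple points on `H`, `m - p + 1` simple points off `H`.
-/

set_option autoImplicit false

open Module

namespace Pool.Agent.WarR

open Pool.Agent.War

section

variable {K : Type*} [Field K]

/-- the residual space for the off points `(1, lam o)` -/
def E0 {m b : ℕ} {I O : Type} (lam : O → Fin m → K) (c : (I → Fin m → K) × (I → Fin b → K)) :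
    Submodule K (Fin b → Fin m → K) :=
  (⨅ o, LinearMap.ker (lv (lam o))) ⊓ ⨅ i, LinearMap.ker (ro (c.2 i, c.1 i))

theorem mem_E0 {m b : ℕ} {I O : Type} {lam : O → Fin m → K}
    {c : (I → Fin m → K) × (I → Fin b → K)} {G : Fin b → Fin m → K} :
    G ∈ E0 lam c ↔ (∀ o, lv (lam o) G = 0) ∧ ∀ i, ro (c.2 i, c.1 i) G = 0 := by
  simp only [E0, Submodule.mem_inf, Submodule.mem_iInf, LinearMap.mem_ker]

theorem PK_E0 {m b x : ℕ} {O : Type} [Finite O] (lam : O → Fin m → K) :
    PK fun c : (Fin x → Fin m → K) × (Fin x → Fin b → K) => E0 lam c := by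
  have l1 : ∀ (i : Fin x) (k : Fin m),
      LP fun c : (Fin x → Fin m → K) × (Fin x → Fin b → K) => c.1 i k := fun i k =>
    LP_apply ((LinearMap.proj i : (Fin x → Fin m → K) →ₗ[K] (Fin m → K)).comp
      (LinearMap.fst K (Fin x → Fin m → K) (Fin x → Fin b → K))) k
  have l2 : ∀ (i : Fin x) (k : Fin b),
      LP fun c : (Fin x → Fin m → K) × (Fin x → Fin b → K) => c.2 i k := fun i k =>
    LP_apply ((LinearMap.proj i : (Fin x → Fin b → K) →ₗ[K] (Fin b → K)).comp
      (LinearMap.snd K (Fin x → Fin m → K) (Fin x → Fin b → K))) k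
  have h1 : ∀ o, PK fun _ : (Fin x → Fin m → K) × (Fin x → Fin b → K) =>
      LinearMap.ker (lv (K := K) (b := b) (lam o)) := fun o =>
    PK_lv (v := fun _ => lam o) fun k => LP.const _
  have h2 : ∀ i : Fin x, PK fun c : (Fin x → Fin m → K) × (Fin x → Fin b → K) =>
      LinearMap.ker (ro (c.2 i, c.1 i)) := fun i => PK_ro (l1 i) (l2 i)
  exact (PK.iInf h1).inf (PK.iInf h2)

/-- a linear map vanishing on `m - p` basis vectors, with general rank one conditions -/
theorem E0_gen {m b x p : ℕ} (hp : p ≤ m) : ∃ lam : Fin (m - p) → Fin m → K,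
    Gen K fun c : (Fin x → Fin m → K) × (Fin x → Fin b → K) =>
      finrank K (E0 lam c) ≤ b * p - x := by
  classical
  have hcard : Fintype.card (Fin (m - p) ⊕ Fin p) = m := by
    simp only [Fintype.card_sum, Fintype.card_fin]
    omega
  let e : Fin (m - p) ⊕ Fin p ≃ Fin m := Fintype.equivFinOfCardEq hcard
  refine ⟨fun o => Pi.single (e (Sum.inl o)) 1, ?_⟩
  let W : Submodule K (Fin b → Fin m → K) :=
    ⨅ o : Fin (m - p), LinearMap.ker (lv (Pi.single (e (Sum.inl o)) 1))
  have hW : ∀ G ∈ W, ∀ j o, G j (e (Sum.inl o)) = 0 := by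
    intro G hG j o
    rw [Submodule.mem_iInf] at hG
    rw [← lv_single (e (Sum.inl o)) G j]
    exact congrFun (LinearMap.mem_ker.1 (hG o)) j
  have hWdim : finrank K W ≤ b * p := by
    let T : (Fin b → Fin m → K) →ₗ[K] (Fin b → Fin p → K) :=
      { toFun := fun G j l => G j (e (Sum.inr l))
        map_add' := fun _ _ => rfl
        map_smul' := fun _ _ => rfl }
    have hinj : Function.Injective (T.comp W.subtype) := by
      rw [← LinearMap.ker_eq_bot, LinearMap.ker_eq_bot']
      intro G hG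
      have h2 : ∀ j l, (G : Fin b → Fin m → K) j (e (Sum.inr l)) = 0 :=
        fun j l => congrFun (congrFun hG j) l
      apply Subtype.ext
      funext j i
      obtain ⟨q, rfl⟩ := e.surjective i
      rcases q with i | i
      · exact hW G G.2 j i
      · exact h2 j i
    have := LinearMap.finrank_le_finrank_of_injective hinj
    refine this.trans ?_
    rw [Module.finrank_pi_fintype]
    simp
  obtain ⟨y, hy⟩ := red (K := K) (ro (K := K) (m := m) (b := b)) W ⊥ (fun w _ hw => by
    rw [Submodule.mem_bot] at hw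
    by_contra hcon
    push Not at hcon
    apply hw
    funext j i
    have := hcon (Pi.single j 1, Pi.single i 1)
    have h2 : ro ((Pi.single j 1 : Fin b → K), (Pi.single i 1 : Fin m → K)) w = w j i := by
      rw [ro_apply, Finset.sum_eq_single j]
      · have := lv_single i w j
        rw [lv_apply] at this
        simp only [Pi.single_eq_same, one_mul]
        exact this
      · intro l _ hl
        simp [hl]
      · simp
    rw [← h2, this]
    rfl) x
  refine (PK_E0 _).gen_finrank (x₀ := (fun i => (y i).2, fun i => (y i).1)) ?_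
  refine (Submodule.finrank_mono (fun G hG => ?_)).trans (hy.trans ?_)
  · obtain ⟨g1, g2⟩ := mem_E0.1 hG
    refine ⟨?_, ?_⟩
    · rw [SetLike.mem_coe, Submodule.mem_iInf]
      exact fun o => g1 o
    · rw [SetLike.mem_coe, Submodule.mem_iInf]
      exact fun i => g2 i
  · rw [finrank_bot]
    refine max_le ?_ (Nat.zero_le _)
    omega

/-- **The step without split point.** -/
theorem step0 [CharZero K] {m b x y1 p ρ : ℕ} (h1 : KQ K m b x y1 ρ) (hp : p ≤ m) :
    KQ K (m + 1) b x (y1 + (m - p + 1)) (ρ + (b * p - x)) := by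
  classical
  have h2K : (2 : K) ≠ 0 := two_ne_zero
  obtain ⟨lam, hlam⟩ := E0_gen (K := K) (b := b) (x := x) hp
  let L : Cfg K m b (Fin x) (Fin y1) →ₗ[K] (Fin x → Fin m → K) × (Fin x → Fin b → K) :=
    { toFun := fun q => (q.1, q.2.1)
      map_add' := fun _ _ => rfl
      map_smul' := fun _ _ => rfl }
  obtain ⟨⟨z, a, y⟩, k1, k2⟩ := (h1.gen.and (hlam.comp L fun q => ⟨(q.1, q.2, 0), rfl⟩)).exists
  change finrank K (E0 lam (z, a)) ≤ b * p - x at k2
  let O : Type := Unit ⊕ Fin (m - p)
  let lm : O → Fin m → K := Sum.elim (fun _ => 0) lam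
  let c : Cfg K (m + 1) b (Fin x) (Fin y1 ⊕ O) :=
    (fun i => Fin.cons 0 (z i), a, Sum.elim (fun l => Fin.cons 0 (y l)) fun o => Fin.cons 1 (lm o))
  refine KQ.of_cfg c (Fintype.card_fin x) ?_ ?_
  · change Fintype.card (Fin y1 ⊕ (Unit ⊕ Fin (m - p))) = _
    rw [Fintype.card_sum, Fintype.card_sum, Fintype.card_unit, Fintype.card_fin,
      Fintype.card_fin]
    omega
  let Ψ1 : (Fin b → SF K (m + 1)) →ₗ[K] (Fin b → SF K m) :=
    { toFun := fun F j => resH (F j)
      map_add' := fun F G => by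
        funext j
        simp only [Pi.add_apply, map_add]
      map_smul' := fun r F => by
        funext j
        simp only [Pi.smul_apply, map_smul, RingHom.id_apply] }
  let Ψ2 : (Fin b → SF K (m + 1)) →ₗ[K] (Fin b → Fin m → K) :=
    { toFun := fun F j k => linL (F j) k.succ
      map_add' := fun F G => by
        funext j k
        simp only [Pi.add_apply, map_add]
      map_smul' := fun r F => by
        funext j k
        simp only [Pi.smul_apply, map_smul, RingHom.id_apply] }
  have hlv : ∀ (F : Fin b → SF K (m + 1)) v j, lv v (Ψ2 F) j = ∑ k, v k * linL (F j) k.succ :=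
    fun F v j => rfl
  have hd : ∀ (F : Fin b → SF K (m + 1)) j (s : K) (v : Fin m → K),
      bf (F j : Fin (m + 1) → Fin (m + 1) → K) (Fin.cons s v) (Fin.cons s v) =
        bf (resH (F j) : Fin m → Fin m → K) v v +
          2 * s * (s * linL (F j) 0 + lv v (Ψ2 F) j) := by
    intro F j s v
    rw [bf_decomp, hlv]
    simp only [Fin.sum_univ_succ, Fin.cons_zero, Fin.cons_succ]
    ring
  have hd2 : ∀ (F : Fin b → SF K (m + 1)) j (v w : Fin m → K),
      bf (F j : Fin (m + 1) → Fin (m + 1) → K)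
      (Fin.cons 0 v) (Fin.cons 0 w) = bf (resH (F j) : Fin m → Fin m → K) v w := by
    intro F j v w
    rw [bf_decomp]
    simp only [Fin.cons_zero, Fin.cons_succ, zero_mul, add_zero]
  have hd3 : ∀ (F : Fin b → SF K (m + 1)) j (v : Fin m → K),
      bf (F j : Fin (m + 1) → Fin (m + 1) → K)
      (Fin.cons 0 v) (Pi.single 0 1) = lv v (Ψ2 F) j := by
    intro F j v
    rw [bf_decomp, hlv]
    have e1 : bf (resH (F j) : Fin m → Fin m → K) (fun k => (Fin.cons 0 v : Fin (m + 1) → K) k.succ)
        (fun k : Fin m => (Pi.single 0 1 : Fin (m + 1) → K) k.succ) = 0 := by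
      unfold bf
      refine Finset.sum_eq_zero fun i _ => Finset.sum_eq_zero fun k _ => ?_
      have : (Pi.single 0 1 : Fin (m + 1) → K) k.succ = 0 :=
        Pi.single_eq_of_ne (Fin.succ_ne_zero k) 1
      simp only [this, mul_zero, zero_mul]
    rw [e1]
    simp only [Fin.sum_univ_succ, Fin.cons_zero, Fin.cons_succ, Pi.single_eq_same]
    ring
  have key : ∀ F ∈ ZK c, Ψ1 F = 0 → (∀ j, linL (F j) 0 = 0) ∧ ∀ o, lv (lam o) (Ψ2 F) = 0 := by
    intro F hF hF0
    obtain ⟨w1, w2, w3⟩ := mem_ZK.1 hF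
    have hr : ∀ j, resH (F j) = 0 := fun j => congrFun hF0 j
    have e : ∀ o j, linL (F j) 0 + lv (lm o) (Ψ2 F) j = 0 := by
      intro o j
      have := w3 (Sum.inr o) j
      change bf (F j : Fin (m + 1) → Fin (m + 1) → K) (Fin.cons 1 (lm o)) (Fin.cons 1 (lm o)) = 0
        at this
      rw [hd, hr, Submodule.coe_zero, bf_zero, zero_add, mul_one, one_mul] at this
      exact (mul_eq_zero.1 this).resolve_left h2K
    have e0 : ∀ j, linL (F j) 0 = 0 := by
      intro j
      have := e (Sum.inl ()) j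
      have e' : lv (lm (Sum.inl ())) (Ψ2 F) j = 0 := by
        rw [lv_apply]
        exact Finset.sum_eq_zero fun k _ => by simp [lm]
      rwa [e', add_zero] at this
    refine ⟨e0, fun o => ?_⟩
    funext j
    have := e (Sum.inr o) j
    rw [e0 j, zero_add] at this
    exact this
  refine (finrank_two (ZK c) (ZK (z, a, y)) (E0 lam (z, a)) Ψ1 Ψ2 (fun F hF => ?_)
    (fun F hF hF0 => ?_) fun F hF h3 h4 => ?_).trans (Nat.add_le_add k1 k2)
  · obtain ⟨w1, w2, w3⟩ := mem_ZK.1 hF
    refine mem_ZK.2 ⟨fun i j => ?_, fun i v => ?_, fun l j => ?_⟩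
    · have := w1 i j
      change bf (F j : Fin (m + 1) → Fin (m + 1) → K) (Fin.cons 0 (z i)) (Fin.cons 0 (z i)) = 0
        at this
      rw [hd2] at this
      exact this
    · have := w2 i (Fin.cons 0 v)
      change ∑ j, a i j * bf (F j : Fin (m + 1) → Fin (m + 1) → K) (Fin.cons 0 (z i))
        (Fin.cons 0 v) = 0 at this
      simp only [hd2] at this
      exact this
    · have := w3 (Sum.inl l) j
      change bf (F j : Fin (m + 1) → Fin (m + 1) → K) (Fin.cons 0 (y l)) (Fin.cons 0 (y l)) = 0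
        at this
      rw [hd2] at this
      exact this
  · refine mem_E0.2 ⟨(key F hF hF0).2, fun i => ?_⟩
    have := (mem_ZK.1 hF).2.1 i (Pi.single 0 1)
    change ∑ j, a i j * bf (F j : Fin (m + 1) → Fin (m + 1) → K) (Fin.cons 0 (z i))
      (Pi.single 0 1) = 0 at this
    simp only [hd3] at this
    exact this
  · funext j
    refine resH_linL_inj (congrFun h3 j) ?_
    funext k
    refine Fin.cases ((key F hF h3).1 j) (fun k => ?_) k
    exact congrFun (congrFun h4 j) k

end

end Pool.Agent.WarR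


end

section

/-!
# Pencils of quadratic forms with full and simple points   (helper41)

`KQ K m 2 x s ((m - x) (m + 1) - 2 s)` for `2 ≤ x ≤ m`, and `KQ K m 2 x s 0` for `m ≤ x`. Explicit
configuration: the full points are coordinate vectors, the simple points are sums of at most four of them.
-/

set_option autoImplicit false

open Module

namespace Pool.Agent.WarR

open Pool.Agent.War

namespace Pen

section

variable {K : Type*} [Field K]

/-- a coordinate vector -/
def u (K : Type*) [Field K] (m a : ℕ) : Fin m → K := fun t => if (t : ℕ) = a then 1 else 0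

theorem u_eq {m : ℕ} (a : Fin m) : u K m a = Pi.single a 1 := by
  funext t
  rw [u, Pi.single_apply]
  simp only [Fin.ext_iff]

theorem bf_u {m : ℕ} (A : Fin m → Fin m → K) (a b : Fin m) : bf A (u K m a) (u K m b) = A a b := by
  rw [u_eq, u_eq, bf_single]

theorem bf_add_left {m : ℕ} (A : Fin m → Fin m → K) (x y z : Fin m → K) :
    bf A (x + y) z = bf A x z + bf A y z := by
  simp only [bf, Pi.add_apply, add_mul, Finset.sum_add_distrib]

/-! ### general lemmas -/

theorem mono_full {m b x s r : ℕ} (h : KQ K m b x s r) : KQ K m b (x + 1) s r := by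
  obtain ⟨c, hc⟩ := h
  refine KQ.of_cfg (I := Option (Fin x)) (J := Fin s)
    ((fun i => i.elim 0 c.1, fun i => i.elim 0 c.2.1, c.2.2) : Cfg K m b (Option (Fin x)) (Fin s))
    (by simp) (Fintype.card_fin s) ((Submodule.finrank_mono ?_).trans hc)
  intro F hF
  obtain ⟨h1, h2, h3⟩ := mem_ZK.1 hF
  exact mem_ZK.2 ⟨fun i j => h1 (some i) j, fun i v => h2 (some i) v, h3⟩

theorem mono_simple {m b x s r : ℕ} (h : KQ K m b x s r) : KQ K m b x (s + 1) r := by
  obtain ⟨c, hc⟩ := h
  refine KQ.of_cfg (I := Fin x) (J := Option (Fin s))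
    ((c.1, c.2.1, fun i => i.elim 0 c.2.2) : Cfg K m b (Fin x) (Option (Fin s)))
    (Fintype.card_fin x) (by simp) ((Submodule.finrank_mono ?_).trans hc)
  intro F hF
  obtain ⟨h1, h2, h3⟩ := mem_ZK.1 hF
  exact mem_ZK.2 ⟨h1, h2, fun i j => h3 (some i) j⟩

/-- the values of all the forms at a point -/
def evB {m b : ℕ} (z : Fin m → K) : (Fin b → SF K m) →ₗ[K] (Fin b → K) where
  toFun F j := bf (F j : Fin m → Fin m → K) z z
  map_add' F G := by
    funext j
    rw [Pi.add_apply, Submodule.coe_add, bf_add, Pi.add_apply]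
  map_smul' r F := by
    funext j
    rw [Pi.smul_apply, Submodule.coe_smul, bf_smul]; rfl

/-- one simple point costs at most `b` -/
theorem rm_simple {m b x s r : ℕ} (h : KQ K m b x (s + 1) r) : KQ K m b x s (r + b) := by
  obtain ⟨c, hc⟩ := h
  refine ⟨(c.1, c.2.1, fun l => c.2.2 l.castSucc), ?_⟩
  have h1 := finrank_le_map_add_ker (evB (c.2.2 (Fin.last s)))
    (ZK ((c.1, c.2.1, fun l => c.2.2 l.castSucc) : Cfg K m b (Fin x) (Fin s)))
  have h2 : finrank K ((ZK ((c.1, c.2.1, fun l => c.2.2 l.castSucc) :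
      Cfg K m b (Fin x) (Fin s))).map (evB (c.2.2 (Fin.last s)))) ≤ b :=
    (Submodule.finrank_le _).trans (by simp)
  have h3 : ZK ((c.1, c.2.1, fun l => c.2.2 l.castSucc) : Cfg K m b (Fin x) (Fin s)) ⊓
      LinearMap.ker (evB (c.2.2 (Fin.last s))) ≤ ZK c := by
    rintro F ⟨hF, hF0⟩
    obtain ⟨k1, k2, k3⟩ := mem_ZK.1 hF
    refine mem_ZK.2 ⟨k1, k2, fun l j => ?_⟩
    refine Fin.lastCases ?_ (fun l => k3 l j) l
    exact congrFun (LinearMap.mem_ker.1 hF0) j
  have h4 := Submodule.finrank_mono h3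
  omega

theorem rm_simples {m b x s r : ℕ} : ∀ t : ℕ, KQ K m b x (s + t) r → KQ K m b x s (r + b * t)
  | 0, h => by simpa using h
  | t + 1, h => by
    have h1 := rm_simples t (rm_simple (s := s + t) h)
    rwa [show r + b + b * t = r + b * (t + 1) by ring] at h1

/-- a nonzero quadratic form has a nonzero value -/
theorem exists_val [CharZero K] {m : ℕ} {A : Fin m → Fin m → K} (hA : A ∈ SF K m) (h : A ≠ 0) :
    ∃ z, bf A z z ≠ 0 := by
  by_contra hcon
  push Not at hcon
  apply h
  funext i j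
  have h1 := hcon (u K m i + u K m j)
  rw [bf_add_left, bf_add_right, bf_add_right, hcon, hcon, bf_comm hA (u K m j) (u K m i), bf_u] at h1
  have h2 : 2 * A i j = 0 := by linear_combination h1
  exact (mul_eq_zero.1 h2).resolve_left two_ne_zero

/-- one more simple point lowers a positive dimension -/
theorem add_simple [CharZero K] {m b x s r : ℕ} (h : KQ K m b x s (r + 1)) :
    KQ K m b x (s + 1) r := by
  obtain ⟨c, hc⟩ := h
  by_cases h0 : ZK c = ⊥
  · refine mono_simple ⟨c, ?_⟩
    rw [h0, finrank_bot]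
    exact Nat.zero_le _
  · obtain ⟨F, hF, hF0⟩ := (Submodule.ne_bot_iff _).1 h0
    obtain ⟨j, hj⟩ : ∃ j, F j ≠ 0 := by
      by_contra hcon
      push Not at hcon
      exact hF0 (funext hcon)
    obtain ⟨z, hz⟩ := exists_val (F j).2 (fun h => hj (Subtype.ext h))
    let c' : Cfg K m b (Fin x) (Option (Fin s)) := (c.1, c.2.1, fun i => i.elim z c.2.2)
    refine KQ.of_cfg c' (Fintype.card_fin x) (by simp) ?_
    have hlt : ZK c' < ZK c := by
      refine lt_of_le_of_ne ?_ ?_
      · intro G hG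
        obtain ⟨h1, h2, h3⟩ := mem_ZK.1 hG
        exact mem_ZK.2 ⟨h1, h2, fun i j => h3 (some i) j⟩
      · intro he
        rw [← he] at hF
        exact hz ((mem_ZK.1 hF).2.2 none j)
    have := Submodule.finrank_lt_finrank_of_lt hlt
    omega

/-! ### the equations -/

theorem core [CharZero K] (h o M : ℕ) (ho : o ≤ 1) (hh : 1 ≤ h) (G0 G1 : ℕ → ℕ → K)
    (s0 : ∀ a b, G0 a b = G0 b a) (s1 : ∀ a b, G1 a b = G1 b a)
    (full : ∀ i < 2 * h + o, ∀ c, G0 i c + i * G1 i c = 0)
    (diag : ∀ i < 2 * h + o, G0 i i = 0 ∧ G1 i i = 0)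
    (p1 : ∀ k < M, G0 (2 * h + o + k) (2 * h + o + k) = 0 ∧ G1 (2 * h + o + k) (2 * h + o + k) = 0)
    (p2 : ∀ k < M, ∀ j < h, ∀ G ∈ ({G0, G1} : Set (ℕ → ℕ → K)),
      G (2 * h + o + k) (2 * j + o * (k % 2)) + G (2 * h + o + k) (2 * j + o * (k % 2) + 1) = 0)
    (p3 : ∀ k < M, ∀ k' < k, G0 (2 * h + o + k) (2 * h + o + k') = 0 ∧
      G1 (2 * h + o + k) (2 * h + o + k') = 0)
    (p4 : ∀ t, o = 1 → 2 * t + 1 < M → ∀ G ∈ ({G0, G1} : Set (ℕ → ℕ → K)),
      G (2 * h + o + 2 * t) 0 + G (2 * h + o + 2 * t) (2 * h) +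
        (G (2 * h + o + (2 * t + 1)) 0 + G (2 * h + o + (2 * t + 1)) (2 * h)) = 0)
    (hl : o = 1 → ∀ k, k + 1 = M → k % 2 = 0 → G1 (2 * h + o + k) (2 * h) = 0) :
    ∀ a < 2 * h + o + M, ∀ b < 2 * h + o + M, G0 a b = 0 ∧ G1 a b = 0 := by
  -- full points
  have hii : ∀ i < 2 * h + o, ∀ i' < 2 * h + o, G0 i i' = 0 ∧ G1 i i' = 0 := by
    intro i hi i' hi'
    by_cases hne : i = i'
    · subst hne
      exact diag i hi
    have e1 := full i hi i'
    have e2 := full i' hi' i
    rw [s0 i' i, s1 i' i] at e2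
    have e3 : ((i : K) - i') * G1 i i' = 0 := by linear_combination e1 - e2
    have e4 : (i : K) - i' ≠ 0 := by
      intro h0
      exact hne (Nat.cast_injective (sub_eq_zero.1 h0))
    have e5 := (mul_eq_zero.1 e3).resolve_left e4
    refine ⟨?_, e5⟩
    rw [e5] at e1
    linear_combination e1
  -- the zeroth row from the first row
  have h01 : ∀ k, ∀ i < 2 * h + o, G1 (2 * h + o + k) i = 0 → G0 (2 * h + o + k) i = 0 := by
    intro k i hi h1
    have e1 := full i hi (2 * h + o + k)
    rw [s1, h1, mul_zero, add_zero, s0] at e1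
    exact e1
  have hf : ∀ k, ∀ i < 2 * h + o, G0 (2 * h + o + k) i = - (i * G1 (2 * h + o + k) i) := by
    intro k i hi
    have e1 := full i hi (2 * h + o + k)
    rw [s0, s1] at e1
    linear_combination e1
  -- covered indices
  have hpair : ∀ k < M, ∀ j < h, G1 (2 * h + o + k) (2 * j + o * (k % 2)) = 0 ∧
      G1 (2 * h + o + k) (2 * j + o * (k % 2) + 1) = 0 := by
    intro k hk j hj
    have e0 := p2 k hk j hj G0 (by simp)
    have e1 := p2 k hk j hj G1 (by simp)
    have hlt : 2 * j + o * (k % 2) + 1 < 2 * h + o := by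
      have : o * (k % 2) ≤ o := by
        have : k % 2 ≤ 1 := by omega
        nlinarith
      omega
    rw [hf k _ (by omega), hf k _ hlt] at e0
    push_cast at e0
    have e2 : G1 (2 * h + o + k) (2 * j + o * (k % 2) + 1) = 0 := by
      linear_combination -e0 - (2 * (j : K) + o * ((k % 2 : ℕ) : K)) * e1
    refine ⟨?_, e2⟩
    rw [e2, add_zero] at e1
    exact e1
  have hcov : ∀ k < M, ∀ i, o * (k % 2) ≤ i → i < 2 * h + o * (k % 2) →
      G1 (2 * h + o + k) i = 0 := by
    intro k hk i hi1 hi2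
    obtain ⟨w, hw⟩ : ∃ w, i = w + o * (k % 2) := ⟨i - o * (k % 2), by omega⟩
    rcases Nat.even_or_odd' w with ⟨j, hj | hj⟩
    · have := (hpair k hk j (by omega)).1
      rw [hw, hj]
      exact this
    · have := (hpair k hk j (by omega)).2
      rw [hw, hj]
      rw [show 2 * j + 1 + o * (k % 2) = 2 * j + o * (k % 2) + 1 by ring]
      exact this
  -- the leftovers
  have hleft : ∀ t, o = 1 → 2 * t + 1 < M → G1 (2 * h + o + 2 * t) (2 * h) = 0 ∧
      G1 (2 * h + o + (2 * t + 1)) 0 = 0 := by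
    intro t ho1 ht
    have c1 : G1 (2 * h + o + 2 * t) 0 = 0 := by
      refine hcov (2 * t) (by omega) 0 ?_ ?_
      · rw [Nat.mul_mod_right, mul_zero]
      · rw [Nat.mul_mod_right, mul_zero]
        omega
    have c2 : G1 (2 * h + o + (2 * t + 1)) (2 * h) = 0 := by
      have hm : (2 * t + 1) % 2 = 1 := by omega
      refine hcov (2 * t + 1) ht (2 * h) ?_ ?_
      · rw [hm, ho1]
        omega
      · rw [hm, ho1]
        omega
    have e0 := p4 t ho1 ht G0 (by simp)
    have e1 := p4 t ho1 ht G1 (by simp)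
    rw [hf _ 0 (by omega), hf _ (2 * h) (by omega), hf _ 0 (by omega), hf _ (2 * h) (by omega),
      c1, c2] at e0
    rw [c1, c2] at e1
    push_cast at e0
    have e2 : (2 * (h : K)) * G1 (2 * h + o + 2 * t) (2 * h) = 0 := by linear_combination -e0
    have e3 : (2 * (h : K)) ≠ 0 := by
      have : (h : K) ≠ 0 := Nat.cast_ne_zero.2 (by omega)
      exact mul_ne_zero two_ne_zero this
    have e4 := (mul_eq_zero.1 e2).resolve_left e3
    refine ⟨e4, ?_⟩
    rw [e4] at e1
    linear_combination e1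
  have hki : ∀ k < M, ∀ i < 2 * h + o, G1 (2 * h + o + k) i = 0 := by
    intro k hk i hi
    by_cases hc : o * (k % 2) ≤ i ∧ i < 2 * h + o * (k % 2)
    · exact hcov k hk i hc.1 hc.2
    · have ho1 : o = 1 := by
        by_contra h0
        have : o = 0 := by omega
        subst this
        apply hc
        constructor <;> omega
      rcases Nat.mod_two_eq_zero_or_one k with hk2 | hk2
      · rw [hk2, mul_zero] at hc
        have hi2 : i = 2 * h := by omega
        rw [hi2]
        by_cases hkM : k + 1 < M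
        · have := (hleft (k / 2) ho1 (by omega)).1
          rwa [show 2 * (k / 2) = k by omega] at this
        · exact hl ho1 k (by omega) hk2
      · rw [hk2, ho1] at hc
        have hi2 : i = 0 := by omega
        rw [hi2]
        have := (hleft (k / 2) ho1 (by omega)).2
        rwa [show 2 * (k / 2) + 1 = k by omega] at this
  -- all the entries
  intro a ha b hb
  by_cases ha1 : a < 2 * h + o
  · by_cases hb1 : b < 2 * h + o
    · exact hii a ha1 b hb1
    · obtain ⟨k, hk⟩ : ∃ k, b = 2 * h + o + k := ⟨b - (2 * h + o), by omega⟩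
      rw [s0, s1, hk]
      have h1 := hki k (by omega) a ha1
      exact ⟨h01 k a ha1 h1, h1⟩
  · obtain ⟨k, hk⟩ : ∃ k, a = 2 * h + o + k := ⟨a - (2 * h + o), by omega⟩
    by_cases hb1 : b < 2 * h + o
    · rw [hk]
      have h1 := hki k (by omega) b hb1
      exact ⟨h01 k b hb1 h1, h1⟩
    · obtain ⟨k', hk'⟩ : ∃ k', b = 2 * h + o + k' := ⟨b - (2 * h + o), by omega⟩
      rcases lt_trichotomy k' k with h1 | h1 | h1
      · rw [hk, hk']
        exact p3 k (by omega) k' h1
      · rw [hk, hk', h1]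
        exact p1 k (by omega)
      · rw [s0, s1, hk, hk']
        exact p3 k' (by omega) k h1

/-! ### the configuration -/

/-- the simple points -/
abbrev JT (h o M : ℕ) : Type :=
  Fin M ⊕ ((Fin M × Fin h) ⊕ (((k : Fin M) × Fin k) ⊕ Fin (o * (M / 2))))

/-- the configuration -/
def cfgP (K : Type*) [Field K] (h o M : ℕ) :
    Cfg K (2 * h + o + M) 2 (Fin (2 * h + o)) (JT h o M) :=
  (fun i => u K _ i, fun i j => if j = 0 then 1 else (i : K),
    Sum.elim (fun k => u K _ (2 * h + o + k))
      (Sum.elim (fun q => u K _ (2 * h + o + q.1) + (u K _ (2 * (q.2 : ℕ) + o * ((q.1 : ℕ) % 2)) +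
          u K _ (2 * (q.2 : ℕ) + o * ((q.1 : ℕ) % 2) + 1)))
        (Sum.elim (fun q => u K _ (2 * h + o + q.1) + u K _ (2 * h + o + q.2))
          fun t => (u K _ (2 * h + o + 2 * (t : ℕ)) + u K _ (2 * h + o + (2 * (t : ℕ) + 1))) +
            (u K _ 0 + u K _ (2 * h)))))

theorem card_JT (h o M : ℕ) : 2 * Fintype.card (JT h o M) + o * (M % 2) =
    M * (2 * h + o + M + 1) := by
  have h1 : (∑ k : Fin M, (k : ℕ)) * 2 = M * (M - 1) := by
    rw [Fin.sum_univ_eq_sum_range (fun i => i) M]
    exact Finset.sum_range_id_mul_two M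
  have h2 : Fintype.card (JT h o M) = M + (M * h + ((∑ k : Fin M, (k : ℕ)) + o * (M / 2))) := by
    simp [JT, Fintype.card_sum, Fintype.card_sigma]
  have h3 : M * (M - 1) + M = M * M := by
    cases M with
    | zero => rfl
    | succ M => rw [Nat.add_sub_cancel]; ring
  have h4 : o * (M / 2) * 2 + o * (M % 2) = o * M := by
    have := Nat.div_add_mod M 2
    calc o * (M / 2) * 2 + o * (M % 2) = o * (2 * (M / 2) + M % 2) := by ring
      _ = o * M := by rw [this]
  rw [h2]
  nlinarith

theorem quad2 {m : ℕ} {A : Fin m → Fin m → K} (hA : A ∈ SF K m) (x y : Fin m → K) :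
    bf A (x + y) (x + y) = bf A x x + bf A y y + 2 * bf A x y := by
  rw [bf_add_left, bf_add_right, bf_add_right, bf_comm hA y x]
  ring

/-- the kernel of the configuration -/
theorem pen_ker [CharZero K] {h o M : ℕ} (ho : o ≤ 1) (hh : 1 ≤ h) {F : Fin 2 → SF K (2 * h + o + M)}
    (hF : F ∈ ZK (cfgP K h o M))
    (hl : o = 1 → ∀ k, k + 1 = M → k % 2 = 0 →
      bf (F 1 : Fin (2 * h + o + M) → Fin (2 * h + o + M) → K) (u K _ (2 * h + o + k))
        (u K _ (2 * h)) = 0) : F = 0 := by
  obtain ⟨h1, h2, h3⟩ := mem_ZK.1 hF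
  have hs : ∀ j, ∀ x y, bf (F j : Fin (2 * h + o + M) → Fin (2 * h + o + M) → K) x y =
      bf (F j : Fin (2 * h + o + M) → Fin (2 * h + o + M) → K) y x := fun j x y =>
    bf_comm (F j).2 x y
  have hdiag : ∀ j, ∀ i < 2 * h + o, bf (F j : Fin (2 * h + o + M) → Fin (2 * h + o + M) → K)
      (u K _ i) (u K _ i) = 0 := fun j i hi => h1 ⟨i, hi⟩ j
  have hfull : ∀ i < 2 * h + o, ∀ v,
      bf (F 0 : Fin (2 * h + o + M) → Fin (2 * h + o + M) → K) (u K _ i) v +
        i * bf (F 1 : Fin (2 * h + o + M) → Fin (2 * h + o + M) → K) (u K _ i) v = 0 := by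
    intro i hi v
    have := h2 ⟨i, hi⟩ v
    rw [Fin.sum_univ_two] at this
    change (if (0 : Fin 2) = 0 then (1 : K) else (i : K)) * bf (F 0 : _ → _ → K) (u K _ i) v +
      (if (1 : Fin 2) = 0 then (1 : K) else (i : K)) * bf (F 1 : _ → _ → K) (u K _ i) v = 0 at this
    rw [if_pos rfl, if_neg (by decide), one_mul] at this
    exact this
  -- entries of the full points
  have hii : ∀ j, ∀ i < 2 * h + o, ∀ i' < 2 * h + o,
      bf (F j : Fin (2 * h + o + M) → Fin (2 * h + o + M) → K) (u K _ i) (u K _ i') = 0 := by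
    intro j i hi i' hi'
    by_cases hne : i = i'
    · subst hne
      exact hdiag j i hi
    have e1 := hfull i hi (u K _ i')
    have e2 := hfull i' hi' (u K _ i)
    rw [hs 0 (u K _ i'), hs 1 (u K _ i')] at e2
    have e3 : ((i : K) - i') * bf (F 1 : Fin (2 * h + o + M) → Fin (2 * h + o + M) → K)
        (u K _ i) (u K _ i') = 0 := by linear_combination e1 - e2
    have e4 : (i : K) - i' ≠ 0 := by
      intro h0
      exact hne (Nat.cast_injective (sub_eq_zero.1 h0))
    have e5 := (mul_eq_zero.1 e3).resolve_left e4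
    rw [e5, mul_zero, add_zero] at e1
    fin_cases j
    · exact e1
    · exact e5
  have hp1 : ∀ j, ∀ k < M, bf (F j : Fin (2 * h + o + M) → Fin (2 * h + o + M) → K)
      (u K _ (2 * h + o + k)) (u K _ (2 * h + o + k)) = 0 := fun j k hk => h3 (Sum.inl ⟨k, hk⟩) j
  have hp2 : ∀ j, ∀ k < M, ∀ l < h, bf (F j : Fin (2 * h + o + M) → Fin (2 * h + o + M) → K)
      (u K _ (2 * h + o + k)) (u K _ (2 * l + o * (k % 2))) +
      bf (F j : Fin (2 * h + o + M) → Fin (2 * h + o + M) → K)
      (u K _ (2 * h + o + k)) (u K _ (2 * l + o * (k % 2) + 1)) = 0 := by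
    intro j k hk l hl2
    have h4 : bf (F j : Fin (2 * h + o + M) → Fin (2 * h + o + M) → K)
        (u K _ (2 * h + o + k) + (u K _ (2 * l + o * (k % 2)) + u K _ (2 * l + o * (k % 2) + 1)))
        (u K _ (2 * h + o + k) + (u K _ (2 * l + o * (k % 2)) + u K _ (2 * l + o * (k % 2) + 1)))
        = 0 := h3 (Sum.inr (Sum.inl (⟨k, hk⟩, ⟨l, hl2⟩))) j
    have hlt : 2 * l + o * (k % 2) + 1 < 2 * h + o := by
      have : o * (k % 2) ≤ o := by
        have : k % 2 ≤ 1 := by omega
        nlinarith
      omega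
    rw [quad2 (F j).2, quad2 (F j).2, bf_add_right, hp1 j k hk, hdiag j _ (by omega),
      hdiag j _ hlt, hii j _ (by omega) _ hlt] at h4
    have h5 : 2 * (bf (F j : Fin (2 * h + o + M) → Fin (2 * h + o + M) → K)
      (u K _ (2 * h + o + k)) (u K _ (2 * l + o * (k % 2))) +
      bf (F j : Fin (2 * h + o + M) → Fin (2 * h + o + M) → K)
      (u K _ (2 * h + o + k)) (u K _ (2 * l + o * (k % 2) + 1))) = 0 := by
      linear_combination h4
    exact (mul_eq_zero.1 h5).resolve_left two_ne_zero
  have hp3 : ∀ j, ∀ k < M, ∀ k' < k, bf (F j : Fin (2 * h + o + M) → Fin (2 * h + o + M) → K)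
      (u K _ (2 * h + o + k)) (u K _ (2 * h + o + k')) = 0 := by
    intro j k hk k' hk'
    have h4 : bf (F j : Fin (2 * h + o + M) → Fin (2 * h + o + M) → K)
        (u K _ (2 * h + o + k) + u K _ (2 * h + o + k'))
        (u K _ (2 * h + o + k) + u K _ (2 * h + o + k')) = 0 :=
      h3 (Sum.inr (Sum.inr (Sum.inl ⟨⟨k, hk⟩, ⟨k', hk'⟩⟩))) j
    rw [quad2 (F j).2, hp1 j k hk, hp1 j k' (by omega)] at h4
    have h5 : 2 * bf (F j : Fin (2 * h + o + M) → Fin (2 * h + o + M) → K)
      (u K _ (2 * h + o + k)) (u K _ (2 * h + o + k')) = 0 := by linear_combination h4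
    exact (mul_eq_zero.1 h5).resolve_left two_ne_zero
  have hp4 : ∀ j, ∀ t, o = 1 → 2 * t + 1 < M →
      bf (F j : Fin (2 * h + o + M) → Fin (2 * h + o + M) → K) (u K _ (2 * h + o + 2 * t)) (u K _ 0) +
      bf (F j : Fin (2 * h + o + M) → Fin (2 * h + o + M) → K) (u K _ (2 * h + o + 2 * t))
        (u K _ (2 * h)) +
      (bf (F j : Fin (2 * h + o + M) → Fin (2 * h + o + M) → K) (u K _ (2 * h + o + (2 * t + 1)))
        (u K _ 0) +
      bf (F j : Fin (2 * h + o + M) → Fin (2 * h + o + M) → K) (u K _ (2 * h + o + (2 * t + 1)))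
        (u K _ (2 * h))) = 0 := by
    intro j t ho1 ht
    have ht2 : t < o * (M / 2) := by
      rw [ho1, one_mul]
      omega
    have h4 : bf (F j : Fin (2 * h + o + M) → Fin (2 * h + o + M) → K)
        ((u K _ (2 * h + o + 2 * t) + u K _ (2 * h + o + (2 * t + 1))) +
            (u K _ 0 + u K _ (2 * h)))
        ((u K _ (2 * h + o + 2 * t) + u K _ (2 * h + o + (2 * t + 1))) +
            (u K _ 0 + u K _ (2 * h))) = 0 :=
      h3 (Sum.inr (Sum.inr (Sum.inr ⟨t, ht2⟩))) j
    have h6 := hp3 j (2 * t + 1) ht (2 * t) (by omega)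
    rw [hs] at h6
    rw [quad2 (F j).2, quad2 (F j).2, quad2 (F j).2, bf_add_left, bf_add_right, bf_add_right,
      hp1 j _ (by omega), hp1 j _ ht, hdiag j 0 (by omega), hdiag j (2 * h) (by omega),
      hii j 0 (by omega) (2 * h) (by omega), h6] at h4
    have h5 : 2 * (bf (F j : Fin (2 * h + o + M) → Fin (2 * h + o + M) → K)
        (u K _ (2 * h + o + 2 * t)) (u K _ 0) +
      bf (F j : Fin (2 * h + o + M) → Fin (2 * h + o + M) → K) (u K _ (2 * h + o + 2 * t))
        (u K _ (2 * h)) +
      (bf (F j : Fin (2 * h + o + M) → Fin (2 * h + o + M) → K) (u K _ (2 * h + o + (2 * t + 1)))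
        (u K _ 0) +
      bf (F j : Fin (2 * h + o + M) → Fin (2 * h + o + M) → K) (u K _ (2 * h + o + (2 * t + 1)))
        (u K _ (2 * h)))) = 0 := by
      linear_combination h4
    exact (mul_eq_zero.1 h5).resolve_left two_ne_zero
  have hc := core (K := K) h o M ho hh
    (fun a b => bf (F 0 : Fin (2 * h + o + M) → Fin (2 * h + o + M) → K) (u K _ a) (u K _ b))
    (fun a b => bf (F 1 : Fin (2 * h + o + M) → Fin (2 * h + o + M) → K) (u K _ a) (u K _ b))
    (fun a b => hs 0 _ _) (fun a b => hs 1 _ _) (fun i hi c => hfull i hi _)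
    (fun i hi => ⟨hdiag 0 i hi, hdiag 1 i hi⟩) (fun k hk => ⟨hp1 0 k hk, hp1 1 k hk⟩)
    (fun k hk j hj G hG => by
      rcases hG with rfl | rfl
      · exact hp2 0 k hk j hj
      · exact hp2 1 k hk j hj)
    (fun k hk k' hk' => ⟨hp3 0 k hk k' hk', hp3 1 k hk k' hk'⟩)
    (fun t ho1 ht G hG => by
      rcases hG with rfl | rfl
      · exact hp4 0 t ho1 ht
      · exact hp4 1 t ho1 ht) hl
  funext j
  apply Subtype.ext
  funext a b
  have h7 := hc a a.2 b b.2
  simp only [bf_u] at h7
  fin_cases j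
  · exact h7.1
  · exact h7.2

/-- the base configuration: the dimension is at most the parity -/
theorem pen_base [CharZero K] (h o M : ℕ) (ho : o ≤ 1) (hh : 1 ≤ h) :
    KQ K (2 * h + o + M) 2 (2 * h + o) (Fintype.card (JT h o M)) (o * (M % 2)) := by
  refine KQ.of_cfg (cfgP K h o M) (Fintype.card_fin _) rfl ?_
  by_cases hcase : o = 1 ∧ M % 2 = 1
  · obtain ⟨ho1, hM⟩ := hcase
    have he : o * (M % 2) = 1 := by rw [ho1, hM]
    rw [he]
    let φ : (Fin 2 → SF K (2 * h + o + M)) →ₗ[K] K :=
      { toFun := fun F => bf (F 1 : Fin (2 * h + o + M) → Fin (2 * h + o + M) → K)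
          (u K _ (2 * h + o + (M - 1))) (u K _ (2 * h))
        map_add' := fun F G => by rw [Pi.add_apply, Submodule.coe_add, bf_add]
        map_smul' := fun r F => by rw [Pi.smul_apply, Submodule.coe_smul, bf_smul]; rfl }
    have h1 := finrank_le_map_add_ker φ (ZK (cfgP K h o M))
    have h2 : finrank K ((ZK (cfgP K h o M)).map φ) ≤ 1 :=
      (Submodule.finrank_le _).trans (by simp)
    have h3 : ZK (cfgP K h o M) ⊓ LinearMap.ker φ = ⊥ := by
      rw [eq_bot_iff]
      rintro F ⟨hF, hF0⟩
      rw [Submodule.mem_bot]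
      refine pen_ker ho hh hF fun _ k hk _ => ?_
      have h4 : k = M - 1 := by omega
      rw [h4]
      exact hF0
    rw [h3, finrank_bot] at h1
    omega
  · have h3 : ZK (cfgP K h o M) = ⊥ := by
      rw [eq_bot_iff]
      intro F hF
      rw [Submodule.mem_bot]
      refine pen_ker ho hh hF fun ho1 k hk hk2 => ?_
      exact absurd ⟨ho1, by omega⟩ hcase
    rw [h3, finrank_bot]
    exact Nat.zero_le _

end

end Pen

open _root_.Pool.Agent.WarR.Pen

/-- **Pencils**, `2 ≤ x ≤ m` full points and any number of simple points. -/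
theorem pencil {K : Type*} [Field K] [CharZero K] {m x : ℕ} (hx : 2 ≤ x) (hxm : x ≤ m) (s : ℕ) :
    KQ K m 2 x s ((m - x) * (m + 1) - 2 * s) := by
  obtain ⟨h, o, ho, rfl⟩ : ∃ h o, o ≤ 1 ∧ x = 2 * h + o :=
    ⟨x / 2, x % 2, by omega, by omega⟩
  obtain ⟨M, rfl⟩ : ∃ M, m = 2 * h + o + M := ⟨m - (2 * h + o), by omega⟩
  have hb := pen_base (K := K) h o M ho (by omega)
  have hc := card_JT h o M
  rw [Nat.add_sub_cancel_left]
  set T := Fintype.card (JT h o M) with hT
  rcases le_total s T with hs | hs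
  · obtain ⟨t, ht⟩ : ∃ t, T = s + t := ⟨T - s, by omega⟩
    rw [ht] at hb
    have h1 := rm_simples t hb
    have h2 : M * (2 * h + o + M + 1) - 2 * s = o * (M % 2) + 2 * t := by omega
    rw [h2]
    exact h1
  · have h0 : ∀ t, KQ K (2 * h + o + M) 2 (2 * h + o) (T + t)
        (M * (2 * h + o + M + 1) - 2 * (T + t)) := by
      intro t
      induction t with
      | zero =>
        rw [add_zero]
        have : M * (2 * h + o + M + 1) - 2 * T = o * (M % 2) := by omega
        rw [this]
        exact hb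
      | succ t ih =>
        have h2 : M * (2 * h + o + M + 1) - 2 * (T + (t + 1)) = 0 := by
          have : o * (M % 2) ≤ 1 := by
            have : M % 2 ≤ 1 := by omega
            nlinarith
          omega
        rw [h2]
        refine add_simple (r := 0) ?_
        obtain ⟨c, hc'⟩ := ih
        refine ⟨c, hc'.trans ?_⟩
        have : o * (M % 2) ≤ 1 := by
          have : M % 2 ≤ 1 := by omega
          nlinarith
        omega
    obtain ⟨t, ht⟩ : ∃ t, s = T + t := ⟨s - T, by omega⟩
    rw [ht]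
    exact h0 t

/-- **Pencils** with at least `m` full points. -/
theorem pencil_zero {K : Type*} [Field K] [CharZero K] {m x : ℕ} (hxm : m ≤ x) (s : ℕ) :
    KQ K m 2 x s 0 := by
  have h0 : KQ K m 2 m 0 0 := by
    refine ⟨(fun i => u K _ i, fun i j => if j = 0 then 1 else (i : K), fun l => l.elim0), ?_⟩
    have h3 : ZK ((fun i => u K _ i, fun i j => if j = 0 then 1 else (i : K), fun l => l.elim0) :
        Cfg K m 2 (Fin m) (Fin 0)) = ⊥ := by
      rw [eq_bot_iff]
      intro F hF
      rw [Submodule.mem_bot]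
      obtain ⟨h1, h2, -⟩ := mem_ZK.1 hF
      have hfull : ∀ i k : Fin m, (F 0 : Fin m → Fin m → K) i k +
          (i : ℕ) * (F 1 : Fin m → Fin m → K) i k = 0 := by
        intro i k
        have := h2 i (u K m k)
        rw [Fin.sum_univ_two] at this
        change (if (0 : Fin 2) = 0 then (1 : K) else ((i : ℕ) : K)) *
          bf (F 0 : Fin m → Fin m → K) (u K m i) (u K m k) +
          (if (1 : Fin 2) = 0 then (1 : K) else ((i : ℕ) : K)) *
          bf (F 1 : Fin m → Fin m → K) (u K m i) (u K m k) = 0 at this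
        rw [if_pos rfl, if_neg (by decide), one_mul, bf_u, bf_u] at this
        exact this
      have hdiag : ∀ (j : Fin 2) (i : Fin m), (F j : Fin m → Fin m → K) i i = 0 := by
        intro j i
        have := h1 i j
        change bf (F j : Fin m → Fin m → K) (u K m i) (u K m i) = 0 at this
        rwa [bf_u] at this
      have hall : ∀ i k : Fin m, (F 0 : Fin m → Fin m → K) i k = 0 ∧
          (F 1 : Fin m → Fin m → K) i k = 0 := by
        intro i k
        by_cases hne : i = k
        · subst hne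
          exact ⟨hdiag 0 i, hdiag 1 i⟩
        have e1 := hfull i k
        have e2 := hfull k i
        rw [(F 0).2 k i, (F 1).2 k i] at e2
        have e3 : (((i : ℕ) : K) - ((k : ℕ) : K)) * (F 1 : Fin m → Fin m → K) i k = 0 := by
          linear_combination e1 - e2
        have e4 : ((i : ℕ) : K) - ((k : ℕ) : K) ≠ 0 := by
          intro h0
          exact hne (Fin.ext (Nat.cast_injective (sub_eq_zero.1 h0)))
        have e5 := (mul_eq_zero.1 e3).resolve_left e4
        rw [e5, mul_zero, add_zero] at e1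
        exact ⟨e1, e5⟩
      funext j
      apply Subtype.ext
      funext i k
      fin_cases j
      · exact (hall i k).1
      · exact (hall i k).2
    rw [h3, finrank_bot]
  have h1 : ∀ t, KQ K m 2 (m + t) 0 0 := by
    intro t
    induction t with
    | zero => exact h0
    | succ t ih => exact mono_full ih
  obtain ⟨t, rfl⟩ : ∃ t, x = m + t := ⟨x - m, by omega⟩
  induction s with
  | zero => exact h1 t
  | succ s ih => exact mono_simple ih

end Pool.Agent.WarR


end

section

/-!
# The two sides `Sup`, `Sub` for `b` quadratic forms in `m` variables and `x` full points   (helper9)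

`NV m = m (m + 1) / 2`; `w` is the dimension of the quadrics through all the points, so there are
`s = NV m - x - w` simple points.  `SS K m b x` = both sides.
-/

set_option autoImplicit false

namespace Pool.Agent.WarR

/-- the dimension of the quadratic forms in `m` variables -/
def NV (m : ℕ) : ℕ := m * (m + 1) / 2

theorem two_NV (m : ℕ) : 2 * NV m = m * (m + 1) :=
  Nat.mul_div_cancel' (Nat.even_mul_succ_self m).two_dvd

theorem NV_succ (m : ℕ) : NV (m + 1) = NV m + (m + 1) := by
  have h1 := two_NV m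
  have h2 := two_NV (m + 1)
  nlinarith

/-- kernel `0` as soon as `b w ≤ (m - 1) x` -/
def Sup (K : Type*) [Field K] (m b x : ℕ) : Prop :=
  ∀ s w, s + x + w = NV m → b * w ≤ (m - 1) * x → KQ K m b x s 0

/-- kernel of the expected dimension as soon as `(m - 1) x ≤ b w` -/
def Sub (K : Type*) [Field K] (m b x : ℕ) : Prop :=
  ∀ s w, s + x + w = NV m → (m - 1) * x ≤ b * w → KQ K m b x s (b * w - (m - 1) * x)

/-- not the exception: three forms in `n + 1` variables, `n` odd, `(3 n + 1) / 2` points -/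
def Good (n b x : ℕ) : Prop := ¬ (b = 3 ∧ 2 * x = 3 * n + 1)

/-- both sides -/
def SS (K : Type*) [Field K] (m b x : ℕ) : Prop := Sup K m b x ∧ Sub K m b x

section

variable {K : Type*} [Field K]

theorem KQ.more_simple [CharZero K] {m b x s : ℕ} (h : KQ K m b x s 0) {s' : ℕ} (hs : s ≤ s') :
    KQ K m b x s' 0 := by
  obtain ⟨k, rfl⟩ := Nat.exists_eq_add_of_le hs
  simpa using h.add_simple k

theorem KQ.less_simple {m b x s r : ℕ} (k : ℕ) (h : KQ K m b x (s + k) r) :
    KQ K m b x s (r + b * k) := by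
  induction k generalizing r with
  | zero => exact h
  | succ k ih =>
    have := ih (r := r + b) (by
      have h' : KQ K m b x (s + k + 1) r := h
      exact h'.drop_simple)
    rw [Nat.mul_add, Nat.mul_one, Nat.add_comm (b * k) b, ← Nat.add_assoc]
    exact this

/-- more full points -/
theorem KQ.more_full [CharZero K] {m b x s : ℕ} (h : KQ K m b x s 0) (k : ℕ) :
    KQ K m b (x + k) s 0 := by
  induction k with
  | zero => exact h
  | succ k ih => exact (ih.more_simple (Nat.le_succ s)).simple_to_full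

/-- it is enough to know both sides at the critical number -/
theorem SS.of_crit [CharZero K] {m b x s w : ℕ} (hs : s + x + w = NV m) (h1 : (m - 1) * x ≤ b * w)
    (h2 : b * w < (m - 1) * x + b) (k1 : KQ K m b x s (b * w - (m - 1) * x))
    (k2 : KQ K m b x (s + 1) 0) : SS K m b x := by
  constructor
  · intro s' w' hs' h
    rcases Nat.lt_or_ge s' (s + 1) with hlt | hge
    · have hw : w ≤ w' := by omega
      have : b * w ≤ b * w' := Nat.mul_le_mul_left b hw
      have hb : b * w = (m - 1) * x := by omega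
      have k1' : KQ K m b x s 0 := by
        rw [hb, Nat.sub_self] at k1
        exact k1
      rcases Nat.eq_or_lt_of_le hw with he | hl
      · have : s' = s := by omega
        rw [this]
        exact k1'
      · -- `b = 0`
        have hb0 : b = 0 := by
          by_contra hb0
          have : b * w < b * w' := Nat.mul_lt_mul_of_pos_left hl (Nat.pos_of_ne_zero hb0)
          omega
        omega
    · exact k2.more_simple hge
  · intro s' w' hs' h
    rcases Nat.lt_or_ge s s' with hlt | hge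
    · -- `w' < w`, impossible unless perfect
      have hw : w' < w := by omega
      have h3 : b * w' + b ≤ b * w := by
        have h4 : b * (w' + 1) ≤ b * w := Nat.mul_le_mul_left b hw
        rw [Nat.mul_add, Nat.mul_one] at h4
        exact h4
      omega
    · obtain ⟨k, rfl⟩ := Nat.exists_eq_add_of_le hge
      have hw : w' = w + k := by omega
      subst hw
      have := k1.less_simple k
      have e : b * (w + k) - (m - 1) * x = b * w - (m - 1) * x + b * k := by
        rw [Nat.mul_add]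
        omega
      rw [e]
      exact this

/-- no room for simple points: only the kernel without simple points -/
theorem SS.of_neg [CharZero K] {m b x : ℕ} (hE : b * NV m < x * (m - 1 + b)) (hx : x ≤ NV m)
    (k : KQ K m b x 0 0) : SS K m b x := by
  constructor
  · intro s w _ _
    exact k.more_simple (Nat.zero_le s)
  · intro s w hs h
    exfalso
    have h1 : b * w ≤ b * (NV m - x) := Nat.mul_le_mul_left b (by omega)
    have h2 : b * (NV m - x) + b * x = b * NV m := by
      rw [← Nat.mul_add, Nat.sub_add_cancel hx]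
    have h3 : x * (m - 1 + b) = (m - 1) * x + b * x := by ring
    omega

/-- the critical number exists if there is room -/
theorem exists_crit {m b x : ℕ} (hb : 0 < b) (hE : x * (m - 1 + b) ≤ b * NV m) :
    ∃ s w, s + x + w = NV m ∧ (m - 1) * x ≤ b * w ∧ b * w < (m - 1) * x + b := by
  obtain ⟨w, h1, h2⟩ : ∃ w, (m - 1) * x ≤ b * w ∧ b * w < (m - 1) * x + b := by
    refine ⟨((m - 1) * x + b - 1) / b, ?_, ?_⟩
    · have := Nat.div_add_mod ((m - 1) * x + b - 1) b
      have := Nat.mod_lt ((m - 1) * x + b - 1) hb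
      omega
    · have := Nat.div_add_mod ((m - 1) * x + b - 1) b
      omega
  have h3 : x + w ≤ NV m := by
    have h4 : x * (m - 1 + b) = (m - 1) * x + b * x := by ring
    have h5 : b * (x + w) < b * (NV m + 1) := by
      rw [Nat.mul_add, Nat.mul_add, Nat.mul_one]
      omega
    have := Nat.lt_of_mul_lt_mul_left h5
    omega
  exact ⟨NV m - (x + w), w, by omega, h1, h2⟩

end

end Pool.Agent.WarR


end

section

/-!
# Assembly for quadratic forms (MP_db021c_ag, degree 2): the induction on the dimension   (helper9)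

Dimension `m` = number of variables; `b` forms, `x` full points.
-/

set_option autoImplicit false

namespace Pool.Agent.WarR

/-- the step of helper68 (all the full points on the hyperplane, one simple point near it) -/
def HorStmt (K : Type*) [Field K] : Prop :=
  ∀ m b x y1 ρ w r : ℕ, KQ K m b x y1 ρ → KQ K m b x (y1 + 1) 0 → b ≤ x → x ≤ b * w →
    b * (w - 1) < x → b ≤ 2 * (m - w) → ρ + b * w ≤ r + b + x →
    KQ K (m + 1) b x (y1 + 1 + (m + 1 - w)) r

/-- the condition `b ≤ 2 (m - w)` of the step is automatic -/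
theorem hor_cond {n b x w : ℕ} (hn : 4 ≤ n) (hb : 3 ≤ b) (hbn : b ≤ n + 2)
    (hE : x * (n + b) ≤ b * NV (n + 1)) (hw : b * (w - 1) < x) : b ≤ 2 * (n + 1 - w) := by
  by_contra hcon
  have h2 := two_NV (n + 1)
  obtain ⟨u, hu⟩ : ∃ u, w = u + 1 ∨ w = 0 := ⟨w - 1, by omega⟩
  rcases hu with rfl | rfl
  · have hw' : b * u < x := by simpa using hw
    -- `2 * (n - u) < b`
    have h3 : 2 * n + 1 ≤ b + 2 * u := by omega
    have h4 : 2 * (b * u + 1) * (n + b) ≤ b * ((n + 1) * (n + 2)) := by
      have : (b * u + 1) * (n + b) ≤ x * (n + b) := Nat.mul_le_mul_right _ hw'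
      nlinarith
    have h5 : 2 * u * (n + b) < (n + 1) * (n + 2) := by
      by_contra h
      have h := Nat.not_lt.1 h
      have : b * ((n + 1) * (n + 2)) ≤ b * (2 * u * (n + b)) := Nat.mul_le_mul_left _ h
      nlinarith
    -- `(2n + 1 - b)(n + b) ≤ 2u(n+b) < (n+1)(n+2)`
    obtain ⟨t, ht⟩ : ∃ t, n + 2 = b + t := ⟨n + 2 - b, by omega⟩
    have h6 : (2 * n + 1 - b) ≤ 2 * u := by omega
    obtain ⟨v, hv⟩ : ∃ v, 2 * n + 1 = b + v := ⟨2 * n + 1 - b, by omega⟩
    have h7 : v ≤ 2 * u := by omega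
    have h8 : v * (n + b) < (n + 1) * (n + 2) := lt_of_le_of_lt (Nat.mul_le_mul_right _ h7) h5
    -- with b = 3 + i, t + b = n + 2
    obtain ⟨i, rfl⟩ := Nat.exists_eq_add_of_le hb
    have hn' : n = 1 + i + t := by omega
    have hv' : v = i + 2 * t := by omega
    subst hn' hv'
    nlinarith [Nat.zero_le (i * t), Nat.zero_le (t * t), Nat.zero_le (i * i)]
  · omega

section

variable {K : Type*} [Field K]

/-- **The step `m → m + 1`.** -/
theorem SS.hor [CharZero K] (HH : HorStmt K) {m b x : ℕ} (hm : 5 ≤ m) (hb : 3 ≤ b)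
    (hbm : b ≤ m + 1) (hbx : b ≤ x) (hE : x * (m - 1 + b) ≤ b * NV m) (h : SS K m b x) :
    SS K (m + 1) b x := by
  obtain ⟨n, rfl⟩ : ∃ n, m = n + 1 := ⟨m - 1, by omega⟩
  simp only [Nat.add_sub_cancel] at hE
  have hb0 : 0 < b := by omega
  -- the critical number of H
  obtain ⟨y1, c', hy1, hc1, hc2⟩ := exists_crit (m := n + 1) (b := b) (x := x) hb0
    (by simpa only [Nat.add_sub_cancel] using hE)
  simp only [Nat.add_sub_cancel] at hc1 hc2
  obtain ⟨ρ, hρ⟩ : ∃ ρ, b * c' = n * x + ρ := Nat.exists_eq_add_of_le hc1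
  have hρb : ρ < b := by omega
  have hx0 : 0 < n * x := Nat.mul_pos (by omega) (by omega)
  have hc0 : 1 ≤ c' := by
    by_contra hc
    have : c' = 0 := by omega
    subst this
    omega
  have k1 : KQ K (n + 1) b x y1 ρ := by
    have := h.2 y1 c' hy1 (by simpa only [Nat.add_sub_cancel] using hc1)
    rwa [Nat.add_sub_cancel, hρ, Nat.add_sub_cancel_left] at this
  have k2 : KQ K (n + 1) b x (y1 + 1) 0 := by
    refine h.1 (y1 + 1) (c' - 1) (by omega) ?_
    rw [Nat.add_sub_cancel, Nat.mul_sub, Nat.mul_one]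
    omega
  obtain ⟨q, β, hq, hβ⟩ : ∃ q β, x = b * q + β ∧ β < b :=
    ⟨x / b, x % b, (Nat.div_add_mod x b).symm, Nat.mod_lt _ hb0⟩
  have hq1 : 1 ≤ q := by
    by_contra hq0
    have : q = 0 := by omega
    subst this
    simp at hq
    omega
  have hNN := NV_succ (n + 1)
  -- `q + 1 ≤ n + 2`
  have hqn : q + 1 ≤ n + 2 := by
    have h2 := two_NV (n + 1)
    have h3 : b * q * (n + b) ≤ b * NV (n + 1) := le_trans (Nat.mul_le_mul_right _ (by omega)) hE
    have h4 : q * (n + b) ≤ NV (n + 1) := by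
      by_contra hc
      have hc := Nat.not_le.1 hc
      have : b * NV (n + 1) < b * (q * (n + b)) := Nat.mul_lt_mul_of_pos_left hc hb0
      nlinarith
    by_contra hc
    have hc : n + 2 ≤ q := by omega
    have : (n + 2) * (n + b) ≤ q * (n + b) := Nat.mul_le_mul_right _ hc
    nlinarith
  -- the four constructions
  have S1 : β = 0 → KQ K (n + 2) b x (y1 + (n + 2 - q)) ρ := by
    intro h0
    have := step0 (p := q) k1 (by omega)
    have e1 : n + 1 - q + 1 = n + 2 - q := by omega
    have e2 : b * q - x = 0 := by omega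
    rwa [e1, e2, Nat.add_zero] at this
  have S2 : KQ K (n + 2) b x (y1 + 1 + (n + 2 - q)) 0 := by
    have := step0 (p := q) k2 (by omega)
    have e1 : n + 1 - q + 1 = n + 2 - q := by omega
    have e2 : b * q - x = 0 := by omega
    rwa [e1, e2, Nat.add_zero] at this
  have S3 : q + 1 ≤ n + 1 → KQ K (n + 2) b x (y1 + (n + 2 - (q + 1))) (ρ + (b - β)) := by
    intro hq2
    have := step0 (p := q + 1) k1 hq2
    have e1 : n + 1 - (q + 1) + 1 = n + 2 - (q + 1) := by omega
    have e2 : b * (q + 1) - x = b - β := by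
      rw [Nat.mul_add, Nat.mul_one]
      omega
    rwa [e1, e2] at this
  have hw : b ≤ 2 * (n + 1 - (q + 1)) ∨ β = 0 := by
    by_cases h0 : β = 0
    · exact Or.inr h0
    · left
      exact hor_cond (by omega) hb hbm hE (by simp only [Nat.add_sub_cancel]; omega)
  have S4 : 0 < β → ∀ r, ρ ≤ r + β → KQ K (n + 2) b x (y1 + 1 + (n + 2 - (q + 1))) r := by
    intro h0 r hr
    have hw' : b ≤ 2 * (n + 1 - (q + 1)) := by
      rcases hw with h | h
      · exact h
      · omega
    refine HH (n + 1) b x y1 ρ (q + 1) r k1 k2 hbx ?_ ?_ hw' ?_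
    · rw [Nat.mul_add, Nat.mul_one]; omega
    · simp only [Nat.add_sub_cancel]; omega
    · rw [Nat.mul_add, Nat.mul_one]; omega
  have key : b * (c' + q) + β = (n + 1) * x + ρ := by
    have : b * (c' + q) = b * c' + b * q := Nat.mul_add _ _ _
    rw [this, hρ, Nat.add_mul, Nat.one_mul]
    omega
  have hmul : ∀ a : ℕ, b * (a + 1) = b * a + b := fun a => by ring
  rcases Nat.lt_or_ge ρ β with hlt | hge
  · -- critical `c' + q + 1`
    have hval : b * (c' + q + 1) - (n + 1) * x = ρ + (b - β) := by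
      have := hmul (c' + q)
      omega
    have hq2 : q + 1 ≤ n + 1 := by
      rcases hw with h | h <;> omega
    refine SS.of_crit (s := y1 + (n + 2 - (q + 1))) (w := c' + q + 1) ?_ ?_ ?_ ?_ ?_
    · rw [hNN]; omega
    · have := hmul (c' + q)
      simp only [Nat.add_sub_cancel]
      omega
    · have := hmul (c' + q)
      simp only [Nat.add_sub_cancel]
      omega
    · simp only [Nat.add_sub_cancel]
      rw [hval]
      exact S3 hq2
    · have := S4 (by omega) 0 (by omega)
      have e : y1 + 1 + (n + 2 - (q + 1)) = y1 + (n + 2 - (q + 1)) + 1 := by omega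
      rwa [e] at this
  · -- critical `c' + q`
    have hval : b * (c' + q) - (n + 1) * x = ρ - β := by omega
    refine SS.of_crit (s := y1 + (n + 2 - q)) (w := c' + q) ?_ ?_ ?_ ?_ ?_
    · rw [hNN]; omega
    · simp only [Nat.add_sub_cancel]
      omega
    · simp only [Nat.add_sub_cancel]
      omega
    · simp only [Nat.add_sub_cancel]
      rw [hval]
      rcases Nat.eq_zero_or_pos β with h0 | h0
      · rw [h0, Nat.sub_zero]
        exact S1 h0
      · have := S4 h0 (ρ - β) (by omega)
        have e : y1 + 1 + (n + 2 - (q + 1)) = y1 + (n + 2 - q) := by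
          have : q + 1 ≤ n + 1 := by
            rcases hw with h | h <;> omega
          omega
        rwa [e] at this
    · have e : y1 + 1 + (n + 2 - q) = y1 + (n + 2 - q) + 1 := by omega
      have := S2
      rwa [e] at this

/-- pencils -/
theorem SS.two [CharZero K] {m x : ℕ} (hx : 2 ≤ x) : SS K m 2 x := by
  rcases Nat.lt_or_ge m x with h | h
  · constructor
    · intro s w _ _
      exact pencil_zero h.le s
    · intro s w hs hw
      exact (pencil_zero h.le s).mono (Nat.zero_le _)
  · obtain ⟨t, rfl⟩ := Nat.exists_eq_add_of_le h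
    obtain ⟨n, hn⟩ : ∃ n, x + t = n + 1 := ⟨x + t - 1, by omega⟩
    have h2 := two_NV (x + t)
    have key : ∀ s w, s + x + w = NV (x + t) →
        (x + t - x) * (x + t + 1) + (x + t - 1) * x = 2 * w + 2 * s := by
      intro s w hs
      have e1 : x + t - x = t := by omega
      have e2 : x + t - 1 = n := by omega
      rw [e1, e2]
      have e3 : 2 * s + 2 * x + 2 * w = (x + t) * (x + t + 1) := by omega
      have e4 : (x + t) * (x + t + 1) = t * (x + t + 1) + x * (n + 2) := by
        have : x + t + 1 = n + 2 := by omega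
        rw [this]; ring
      have e5 : x * (n + 2) = n * x + 2 * x := by ring
      omega
    constructor
    · intro s w hs hw
      have k := key s w hs
      refine (pencil hx h s).mono ?_
      omega
    · intro s w hs hw
      have k := key s w hs
      refine (pencil hx h s).mono ?_
      omega

/-- `b = m + 1` forms: the block `m - 1` and a pencil -/
theorem SS.split [CharZero K] {m x : ℕ} (hm : 3 ≤ m) (hx : m + 1 ≤ x)
    (hE : x * (m - 1 + (m + 1)) ≤ (m + 1) * NV m)
    (H : ∀ w, m - 1 ≤ w → w ≤ NV m → SS K m (m - 1) w) : SS K m (m + 1) x := by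
  obtain ⟨n, rfl⟩ : ∃ n, m = n + 1 := ⟨m - 1, by omega⟩
  obtain ⟨s, w, hs, h1, h2⟩ := exists_crit (m := n + 1) (b := n + 1 + 1) (x := x) (by omega) hE
  simp only [Nat.add_sub_cancel] at H h1 h2
  have e1 : (n + 1 + 1) * w = n * w + 2 * w := by ring
  -- `n ≤ w`
  have hw : n ≤ w := by
    by_contra hc
    have hc : w + 1 ≤ n := by omega
    have a1 : n * (n + 2) ≤ n * x := Nat.mul_le_mul_left _ hx
    have a2 : (n + 1 + 1) * (w + 1) ≤ (n + 1 + 1) * n := Nat.mul_le_mul_left _ hc
    nlinarith
  -- `w + 2 ≤ x`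
  have hwx : w + 2 ≤ x := by
    by_contra hc
    have hc : x ≤ w + 1 := by omega
    have a1 : n * x ≤ n * (w + 1) := Nat.mul_le_mul_left _ hc
    have a2 : n * (w + 1) = n * w + n := by ring
    -- `(n+2) w < n x + n + 2 ≤ n w + 2 n + 2` so `w ≤ n`, `w = n`, `x ≥ n + 2`
    omega
  obtain ⟨x2, rfl⟩ := Nat.exists_eq_add_of_le (show w ≤ x by omega)
  have e2 : n * (w + x2) = n * w + n * x2 := by ring
  have P1 := H w hw (by omega)
  have P2 : SS K (n + 1) 2 x2 := SS.two (by omega)
  have e3 : n + 1 + 1 = n + 2 := by ring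
  -- the exact side
  have k1 : KQ K (n + 1) (n + 2) (w + x2) s ((n + 1 + 1) * w - n * (w + x2)) := by
    have a1 : KQ K (n + 1) n w (s + x2) 0 := P1.1 _ w (by omega) (by simp)
    have a2 : KQ K (n + 1) 2 x2 (s + w) (2 * w - n * x2) := by
      have := P2.2 (s + w) w (by omega) (by simp only [Nat.add_sub_cancel]; omega)
      simpa only [Nat.add_sub_cancel] using this
    have a3 := a1.blocks a2
    refine a3.mono ?_
    omega
  rw [← e3] at k1
  refine SS.of_crit (s := s) (w := w) (by omega) (by simpa only [Nat.add_sub_cancel] using h1)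
    (by simpa only [Nat.add_sub_cancel] using h2) (by simpa only [Nat.add_sub_cancel] using k1) ?_
  rcases Nat.eq_or_lt_of_le hw with h0 | h0
  · -- `w = n`: perfect
    have hp : (n + 1 + 1) * w - n * (w + x2) = 0 := by
      subst h0
      have a1 : n * (n + 2) ≤ n * (n + x2) := Nat.mul_le_mul_left _ hx
      have : (n + 1 + 1) * n = n * (n + 2) := by ring
      omega
    rw [hp] at k1
    exact k1.more_simple (Nat.le_succ s)
  · obtain ⟨v, rfl⟩ : ∃ v, w = v + 1 := ⟨w - 1, by omega⟩
    have P3 := H v (by omega) (by omega)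
    have P4 : SS K (n + 1) 2 (x2 + 1) := SS.two (by omega)
    have a1 : KQ K (n + 1) n v (s + 1 + (x2 + 1)) 0 := P3.1 _ v (by omega) (by simp)
    have a2 : KQ K (n + 1) 2 (x2 + 1) (s + 1 + v) 0 := by
      refine P4.1 _ v (by omega) ?_
      simp only [Nat.add_sub_cancel]
      have b1 : (n + 1 + 1) * (v + 1) = n * v + n + 2 * v + 2 := by ring
      have b2 : n * (v + 1 + x2) = n * v + n * (x2 + 1) := by ring
      omega
    have a3 := a1.blocks a2
    have e4 : v + (x2 + 1) = v + 1 + x2 := by omega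
    rwa [e4] at a3

/-- the level `n` (`n + 1` variables): both sides for all `2 ≤ b ≤ n + 1`, without the exception -/
def LV (K : Type*) [Field K] (n : ℕ) : Prop :=
  ∀ b x, 2 ≤ b → b ≤ n + 1 → b ≤ x → Good n b x → SS K (n + 1) b x

/-- the cases `b = 3`, `b = 4` -/
def SS34 (K : Type*) [Field K] (n : ℕ) : Prop :=
  ∀ b x, (b = 3 ∨ b = 4) → b ≤ x → Good n b x → SS K (n + 1) b x

/-- base windows: the pairs `(b, x)` which cannot be reached from the hyperplane, up to the
smallest number of full points without room -/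
def Win (K : Type*) [Field K] (n : ℕ) : Prop :=
  ∀ b x, 5 ≤ b → b ≤ n + 1 → b * NV n < x * (n - 1 + b) → (x - 1) * (n + b) ≤ b * NV (n + 1) →
    (∀ b' x', 2 ≤ b' → b' < b → b' ≤ x' → Good n b' x' → SS K (n + 1) b' x') → SS K (n + 1) b x

/-- more points than coefficients -/
theorem SS.big {m b x : ℕ} (hx : NV m < x) : SS K m b x :=
  ⟨fun s w hs _ => absurd hs (by omega), fun s w hs _ => absurd hs (by omega)⟩

/-- the minimal number of points without room -/
theorem exists_min {n b x : ℕ} (hn : 1 ≤ n) (hb : 1 ≤ b) (hbx : b ≤ x) (hbn : b ≤ n + 1)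
    (hE : b * NV (n + 1) < x * (n + b)) : ∃ x0, b ≤ x0 ∧ x0 ≤ x ∧
      b * NV (n + 1) < x0 * (n + b) ∧ (x0 - 1) * (n + b) ≤ b * NV (n + 1) := by
  induction x with
  | zero => simp at hE
  | succ x ih =>
    rcases Nat.lt_or_ge (b * NV (n + 1)) (x * (n + b)) with h | h
    · rcases Nat.lt_or_ge x b with h1 | h1
      · -- `x + 1 = b`, but `(b - 1) (n + b) ≤ b NV (n + 1)`
        exfalso
        have h2 := two_NV (n + 1)
        have hx : x + 1 = b := by omega
        subst hx
        have h5 : 2 * (x * (n + (x + 1))) ≤ (x + 1) * ((n + 1) * (n + 1 + 1)) := by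
          have h6 : x ≤ n := by omega
          obtain ⟨t, rfl⟩ := Nat.exists_eq_add_of_le h6
          nlinarith [Nat.zero_le (x * t), Nat.zero_le (t * t), Nat.zero_le (x * x),
            Nat.zero_le (x * x * x), Nat.zero_le (x * x * t), Nat.zero_le (x * t * t)]
        nlinarith
      · obtain ⟨x0, a1, a2, a3, a4⟩ := ih h1 h
        exact ⟨x0, a1, by omega, a3, a4⟩
    · exact ⟨x + 1, hbx, le_rfl, hE, by simpa using h⟩

/-- the windows give the whole level -/
theorem LV.succ [CharZero K] (HH : HorStmt K) {n : ℕ} (hn : 4 ≤ n) (h : LV K n)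
    (h34 : SS34 K (n + 1)) (hw : Win K (n + 1)) : LV K (n + 1) := by
  intro b
  induction b using Nat.strong_induction_on with
  | _ b ih =>
  intro x hb hbm hbx hex
  rcases Nat.lt_or_ge b 5 with hb5 | hb5
  · rcases Nat.eq_or_lt_of_le hb with rfl | hb3
    · exact SS.two hbx
    · exact h34 b x (by omega) hbx hex
  rcases Nat.lt_or_ge (NV (n + 1 + 1)) x with hxN | hxN
  · exact SS.big hxN
  have IH : ∀ b' x', 2 ≤ b' → b' < b → b' ≤ x' → Good (n + 1) b' x' → SS K (n + 1 + 1) b' x' :=
    fun b' x' h1 h2 h3 h4 => ih b' h2 x' h1 (by omega) h3 h4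
  rcases Nat.lt_or_ge (b * NV (n + 1)) (x * (n + b)) with hE | hE
  · -- windows
    rcases Nat.lt_or_ge (b * NV (n + 1 + 1)) (x * (n + 1 + b)) with hE' | hE'
    · -- no room
      obtain ⟨x0, a1, a2, a3, a4⟩ := exists_min (n := n + 1) (by omega) (by omega) hbx hbm hE'
      have hlo : b * NV (n + 1) < x0 * (n + b) := by
        have e1 := NV_succ (n + 1)
        rw [e1] at a3
        rcases Nat.lt_or_ge (b * (n + 1 + 1)) x0 with h1 | h1
        · have h2 := two_NV (n + 1)
          have h3 : b * (n + 1 + 1) * (n + b) ≤ x0 * (n + b) := Nat.mul_le_mul_right _ h1.le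
          have h4 : b * NV (n + 1) < b * ((n + 1 + 1) * (n + b)) := by
            refine Nat.mul_lt_mul_of_pos_left ?_ (by omega)
            nlinarith
          nlinarith
        · nlinarith
      have k := hw b x0 hb5 hbm (by
        have e1 : n + 1 - 1 = n := by omega
        rw [e1]
        exact hlo) a4 IH
      have k0 : KQ K (n + 1 + 1) b x0 0 0 := by
        obtain ⟨w, hw0⟩ := Nat.exists_eq_add_of_le (show x0 ≤ NV (n + 1 + 1) by omega)
        refine k.1 0 w (by omega) ?_
        rw [hw0] at a3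
        have e1 : b * (x0 + w) = b * x0 + b * w := by ring
        have e2 : x0 * (n + 1 + b) = (n + 1) * x0 + b * x0 := by ring
        simp only [Nat.add_sub_cancel]
        omega
      refine SS.of_neg (by simpa only [Nat.add_sub_cancel] using hE') hxN ?_
      obtain ⟨k, rfl⟩ := Nat.exists_eq_add_of_le a2
      exact k0.more_full k
    · refine hw b x hb5 hbm (by
        have e1 : n + 1 - 1 = n := by omega
        rw [e1]
        exact hE) ?_ IH
      exact le_trans (Nat.mul_le_mul_right _ (Nat.sub_le x 1)) hE'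
  · -- the step
    refine SS.hor HH (by omega) (by omega) hbm hbx (by simpa only [Nat.add_sub_cancel] using hE) ?_
    rcases Nat.eq_or_lt_of_le hbm with rfl | hbm'
    · refine SS.split (by omega) hbx (by simpa only [Nat.add_sub_cancel] using hE) ?_
      intro w hw1 hw2
      rw [Nat.add_sub_cancel] at hw1 ⊢
      rcases Nat.lt_or_ge n 5 with h5 | h5
      · -- `n = 4`
        exact h n w (by omega) (by omega) hw1 (fun hc => by omega)
      · exact h n w (by omega) (by omega) hw1 (fun hc => by omega)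
    · exact h b x hb (by omega) hbx (fun hc => by omega)

/-- all levels -/
theorem LV.all [CharZero K] (HH : HorStmt K) (h4 : LV K 4) (h34 : ∀ n, 5 ≤ n → SS34 K n)
    (hw : ∀ n, 5 ≤ n → Win K n) : ∀ n, 4 ≤ n → LV K n := by
  intro n hn
  induction n, hn using Nat.le_induction with
  | base => exact h4
  | succ n hn ih => exact LV.succ HH hn ih (h34 _ (by omega)) (hw _ (by omega))

/-- one form, one full point -/
theorem one_one [CharZero K] (n s : ℕ) : KQ K (n + 1) 1 1 s (NV n - s) := by
  have h0 : KQ K (n + 1) 1 1 0 (NV n) := by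
    refine ⟨(fun _ => Pi.single 0 1, fun _ _ => 1, fun l => l.elim0), ?_⟩
    have e : NV n = (n + 1).choose 2 := by
      unfold NV
      rw [Nat.choose_two_right, Nat.add_sub_cancel, Nat.mul_comm]
    rw [e]
    refine le_trans ?_ (finrank_SF_le (K := K) n)
    let T : (Fin 1 → SF K (n + 1)) →ₗ[K] SF K n :=
      { toFun := fun F => ⟨fun i j => (F 0 : Fin (n + 1) → Fin (n + 1) → K) i.succ j.succ,
          fun i j => (F 0).2 _ _⟩
        map_add' := fun _ _ => rfl
        map_smul' := fun _ _ => rfl }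
    refine LinearMap.finrank_le_finrank_of_injective (f := T.domRestrict _) ?_
    refine (injective_iff_map_eq_zero _).2 ?_
    rintro ⟨F, hF⟩ hT
    obtain ⟨-, h2, -⟩ := mem_ZK.1 hF
    apply Subtype.ext
    change F = 0
    have h3 : ∀ k : Fin (n + 1), (F 0 : Fin (n + 1) → Fin (n + 1) → K) 0 k = 0 := by
      intro k
      have := h2 0 (Pi.single k 1)
      simpa [bf_single] using this
    have h5 : ∀ i j : Fin n, (F 0 : Fin (n + 1) → Fin (n + 1) → K) i.succ j.succ = 0 := by
      intro i j
      exact congrFun (congrFun (congrArg Subtype.val hT) i) j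
    funext l
    obtain rfl : l = 0 := Subsingleton.elim _ _
    apply Subtype.ext
    funext i j
    change (F 0 : Fin (n + 1) → Fin (n + 1) → K) i j = 0
    refine Fin.cases ?_ (fun i => ?_) i
    · exact h3 j
    · refine Fin.cases ?_ (fun j => h5 i j) j
      rw [(F 0).2]
      exact h3 _
  simpa using h0.add_simple s

/-- `n = 4` -/
theorem LV.four [CharZero K] (h34 : SS34 K 4) : LV K 4 := by
  intro b x hb hbm hbx hex
  rcases Nat.lt_or_ge b 5 with hb5 | hb5
  · rcases Nat.eq_or_lt_of_le hb with rfl | hb3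
    · exact SS.two hbx
    · exact h34 b x (by omega) hbx hex
  obtain rfl : b = 5 := by omega
  have N4 : NV 4 = 10 := rfl
  have N5 : NV (4 + 1) = 15 := rfl
  -- the general scheme: critical `s`, `w`; exact side = block `1` + block `4`, other side
  -- = block `2` + block `3`
  have two : ∀ y, 2 ≤ y → ∀ s w, s + y + w = 15 → 2 * w ≤ 4 * y → KQ K 5 2 y s 0 := by
    intro y hy s w hs hw
    exact (SS.two (K := K) (m := 4 + 1) hy).1 s w (by omega) (by omega)
  have three : ∀ y, 3 ≤ y → ∀ s w, s + y + w = 15 → 3 * w ≤ 4 * y → KQ K 5 3 y s 0 := by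
    intro y hy s w hs hw
    exact (h34 3 y (Or.inl rfl) hy (fun hc => by omega)).1 s w (by omega) (by omega)
  have four : ∀ y, 4 ≤ y → ∀ s w, s + y + w = 15 → 4 * w ≤ 4 * y → KQ K 5 4 y s 0 := by
    intro y hy s w hs hw
    exact (h34 4 y (Or.inr rfl) hy (fun hc => by omega)).1 s w (by omega) (by omega)
  have k9 : KQ K 5 5 9 0 0 :=
    KQ.blocks (b1 := 2) (b2 := 3) (x1 := 4) (x2 := 5) (y := 0) (r1 := 0) (r2 := 0)
      (two 4 (by omega) 5 6 (by omega) (by omega)) (three 5 (by omega) 4 6 (by omega) (by omega))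
  rcases Nat.lt_or_ge 8 x with h9 | h9
  · obtain ⟨k, rfl⟩ := Nat.exists_eq_add_of_le (show 9 ≤ x from h9)
    rcases Nat.lt_or_ge (NV (4 + 1)) (9 + k) with hN | hN
    · exact SS.big hN
    · exact SS.of_neg (by omega) hN (k9.more_full k)
  · have hx : x = 5 ∨ x = 6 ∨ x = 7 ∨ x = 8 := by omega
    rcases hx with rfl | rfl | rfl | rfl
    · have a := KQ.blocks (b1 := 2) (b2 := 3) (x1 := 2) (x2 := 3) (y := 6) (r1 := 0) (r2 := 0)
        (two 2 (by omega) 9 4 (by omega) (by omega)) (three 3 (by omega) 8 4 (by omega) (by omega))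
      exact SS.of_crit (s := 6) (w := 4) (by omega) (by omega) (by omega) (by simpa using a)
        (KQ.more_simple a (by omega))
    · have a := KQ.blocks (b1 := 1) (b2 := 4) (x1 := 1) (x2 := 5) (y := 4) (r1 := 1) (r2 := 0)
        (by simpa [N4] using one_one (K := K) 4 9) (four 5 (by omega) 5 5 (by omega) (by omega))
      have b := KQ.blocks (b1 := 2) (b2 := 3) (x1 := 2) (x2 := 4) (y := 5) (r1 := 0) (r2 := 0)
        (two 2 (by omega) 9 4 (by omega) (by omega)) (three 4 (by omega) 7 4 (by omega) (by omega))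
      exact SS.of_crit (s := 4) (w := 5) (by omega) (by omega) (by omega) (by simpa using a) b
    · have a := KQ.blocks (b1 := 1) (b2 := 4) (x1 := 1) (x2 := 6) (y := 2) (r1 := 2) (r2 := 0)
        (by simpa [N4] using one_one (K := K) 4 8) (four 6 (by omega) 3 6 (by omega) (by omega))
      have b := KQ.blocks (b1 := 2) (b2 := 3) (x1 := 3) (x2 := 4) (y := 3) (r1 := 0) (r2 := 0)
        (two 3 (by omega) 7 5 (by omega) (by omega)) (three 4 (by omega) 6 5 (by omega) (by omega))
      exact SS.of_crit (s := 2) (w := 6) (by omega) (by omega) (by omega) (by simpa using a) b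
    · have a := KQ.blocks (b1 := 1) (b2 := 4) (x1 := 1) (x2 := 7) (y := 0) (r1 := 3) (r2 := 0)
        (by simpa [N4] using one_one (K := K) 4 7) (four 7 (by omega) 1 7 (by omega) (by omega))
      have b := KQ.blocks (b1 := 2) (b2 := 3) (x1 := 3) (x2 := 5) (y := 1) (r1 := 0) (r2 := 0)
        (two 3 (by omega) 6 6 (by omega) (by omega)) (three 5 (by omega) 4 6 (by omega) (by omega))
      exact SS.of_crit (s := 0) (w := 7) (by omega) (by omega) (by omega) (by simpa using a) b

/-- kernel `0` for any number of forms -/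
theorem LV.sup [CharZero K] {n : ℕ} (hn : 4 ≤ n) (h : LV K n) :
    ∀ b x s w, 2 ≤ b → b ≤ x → s + x + w = NV (n + 1) → b * w ≤ n * x →
      Good n b x → (n + 1 < b → w * 4 ≤ (n + 1) * (n + 1)) → KQ K (n + 1) b x s 0 := by
  intro b
  induction b using Nat.strong_induction_on with
  | _ b ih =>
    intro x s w hb hbx hs hw hex hbig
    rcases Nat.lt_or_ge (n + 1) b with hbm | hbm
    · have hbig' := hbig hbm
      clear hbig
      -- blocks `n` and `b - n`
      obtain ⟨b2, rfl⟩ := Nat.exists_eq_add_of_le (show n ≤ b by omega)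
      obtain ⟨x1, hx1⟩ : ∃ x1, x1 = max w n := ⟨_, rfl⟩
      have hw1 : w ≤ x1 := by omega
      have hn1 : n ≤ x1 := by omega
      have e1 : (n + b2) * w = n * w + b2 * w := by ring
      -- the rest has enough points
      have hrest : x1 + b2 ≤ x ∧ b2 * w ≤ n * (x - x1) := by
        rcases Nat.lt_or_ge w n with h1 | h1
        · have : x1 = n := by omega
          subst this
          refine ⟨by omega, ?_⟩
          have a1 : b2 * w ≤ b2 * x1 := Nat.mul_le_mul_left _ h1.le
          have a2 : x1 * b2 ≤ x1 * (x - x1) := Nat.mul_le_mul_left _ (by omega)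
          nlinarith
        · have : x1 = w := by omega
          subst this
          have a0 : x1 ≤ x := by
            by_contra hc
            have hc : x + 1 ≤ x1 := by omega
            have a1 : n * (x + 1) ≤ n * x1 := Nat.mul_le_mul_left _ hc
            have a2 : n * (x + 1) = n * x + n := by ring
            omega
          obtain ⟨t, rfl⟩ := Nat.exists_eq_add_of_le a0
          have a3 : n * (x1 + t) = n * x1 + n * t := by ring
          have a4 : b2 * x1 ≤ n * t := by omega
          refine ⟨?_, ?_⟩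
          · have a5 : b2 * n ≤ b2 * x1 := Nat.mul_le_mul_left _ h1
            have a6 : n * b2 ≤ n * t := by nlinarith
            have := Nat.le_of_mul_le_mul_left a6 (by omega)
            omega
          · have : x1 + t - x1 = t := by omega
            rw [this]
            exact a4
      obtain ⟨hr1, hr2⟩ := hrest
      obtain ⟨x2, rfl⟩ := Nat.exists_eq_add_of_le (show x1 ≤ x by omega)
      rw [Nat.add_sub_cancel_left] at hr2
      have q1 : KQ K (n + 1) n x1 (s + x2) 0 := by
        refine (h n x1 (by omega) (by omega) hn1 (fun hc => by omega)).1 _ w (by omega) ?_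
        simp only [Nat.add_sub_cancel]
        exact Nat.mul_le_mul_left _ hw1
      have q2 : KQ K (n + 1) b2 x2 (s + x1) 0 := by
        by_cases hexc : b2 = 3 ∧ 2 * x2 = 3 * n + 1
        · -- one point is superfluous
          obtain ⟨rfl, hx2⟩ := hexc
          obtain ⟨y, rfl⟩ : ∃ y, x2 = y + 1 := ⟨x2 - 1, by omega⟩
          refine KQ.simple_to_full ?_
          refine ih 3 (by omega) y (s + x1 + 1) w (by omega) (by omega) (by omega) ?_
            (fun hc => by omega) (fun hc => by omega)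
          nlinarith
        · exact ih b2 (by omega) x2 (s + x1) w (by omega) (by omega) (by omega) hr2 hexc
            (fun _ => hbig')
      exact q1.blocks q2
    · exact (h b x hb hbm hbx hex).1 s w hs
        (by simpa only [Nat.add_sub_cancel] using hw)

/-- **All targets**: no simple points. -/
theorem LV.target [CharZero K] {n : ℕ} (hn : 4 ≤ n) (h : LV K n) {b x : ℕ} (hb : 2 ≤ b)
    (hbN : b ≤ NV (n + 1)) (hbx : b ≤ x) (hE : b * NV (n + 1) ≤ x * (n + b)) (hex : Good n b x) :
    KQ K (n + 1) b x 0 0 := by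
  rcases Nat.le_total x (NV (n + 1)) with hx | hx
  · obtain ⟨w, hw⟩ := Nat.exists_eq_add_of_le hx
    refine LV.sup hn h b x 0 w hb hbx (by omega) ?_ hex ?_
    · rw [hw] at hE
      have e1 : b * (x + w) = b * x + b * w := by ring
      have e2 : x * (n + b) = n * x + b * x := by ring
      omega
    · intro hbm
      have h2 := two_NV (n + 1)
      rw [hw] at hE h2
      have h3 : b * w ≤ n * x := by nlinarith
      have h4 : (n + 2) * w ≤ n * x := le_trans (Nat.mul_le_mul_right _ (by omega)) h3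
      nlinarith
  · have k : KQ K (n + 1) b (NV (n + 1)) 0 0 := by
      refine LV.sup hn h b _ 0 0 hb hbN (by omega) (by simp) ?_ (by simp)
      rintro ⟨-, h3⟩
      have h2 := two_NV (n + 1)
      rw [h2] at h3
      nlinarith
    obtain ⟨t, rfl⟩ := Nat.exists_eq_add_of_le hx
    exact k.more_full t

end

end Pool.Agent.WarR


end

section

/-!
# The chain assignment, refined rank condition (MP_db021c_ag, degree 2)   (helper41, after `Chain.lean` of helper42)

As `chain_sets`; the points of the group `k - 2` which are not leaves of a star of `S (k - 2)` (the first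
`tq (k - 2)` points) are not counted in the rank condition.
-/

set_option autoImplicit false

open Module

namespace Pool.Agent.WarR

open Pool.Agent.War Chain

/-- **The chain theorem**, refined: only the leaves of the stars of `S (k - 2)` are counted. -/
theorem chain_sets' {K : Type*} [Field K] [CharZero K] {m b y : ℕ} [NeZero b] (hb : 3 ≤ b)
    (r : Fin b → ℕ) (S : ∀ j, Finset (Fin (r j))) (tp tq : Fin b → ℕ)
    (htp : ∀ j (i : Fin (r j)), (i : ℕ) < tp j → i ∈ S j)
    (htq : ∀ j, ∀ i ∈ S j, tq j ≤ (i : ℕ)) (hr : ∀ k, r k ≤ m)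
    (hR : ∀ k, r k + r (k - 1) + r (k - 2) ≤ m ∨
      (S (k - 2) = ∅ ∧ r k + (r (k - 1) - tp (k - 1)) ≤ m) ∨
      (r k + (r (k - 2) - tq (k - 2)) ≤ m ∧
        r k + (r (k - 1) - tp (k - 1)) + (S (k - 2)).card ≤ m ∧
        (r (k - 1) - tp (k - 1)) + (r (k - 2) - tq (k - 2) - (S (k - 2)).card) +
          cs (S (k - 1))ᶜ ≤ (m - r k - (S (k - 2)).card + 1).choose 2)) :
    KQ K m b (∑ k, r k) y (∑ k, ((m + 1 - r k).choose 2 -
      ((∑ j, r j - r k) + y + cs (S (k - 2)) + cs (S (k - 1))ᶜ))) := by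
  classical
  have : Infinite K := CharZero.infinite K
  have key : ∀ k, Gen K fun q : (CI r → Fin m → K) × (Fin y → Fin m → K) =>
      finrank K (SD q.1 q.2 cg (cl S) co k) ≤ (m + 1 - r k).choose 2 -
        ((∑ j, r j - r k) + y + cs (S (k - 2)) + cs (S (k - 1))ᶜ) := by
    intro k
    obtain ⟨n1, n2, n3⟩ := fin_ne hb k
    obtain ⟨m', hm'⟩ : ∃ m', m = m' + r k := ⟨m - r k, by have := hr k; omega⟩
    have hE := SE_asy (J := Fin y) (cg (r := r)) (cl S) co k
    have hmono : ∀ T : Finset (CI r ⊕ Fin y), T ⊆ ST cg k →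
        (∀ i i' : Fin (r (k - 2)), i ∈ S (k - 2) → i < i' →
          Sum.inl ⟨k - 2, i⟩ ∈ T ∧ Sum.inl ⟨k - 2, i'⟩ ∈ T) →
        (∀ i i' : Fin (r (k - 1)), i ∉ S (k - 1) → i < i' →
          Sum.inl ⟨k - 1, i⟩ ∈ T ∧ Sum.inl ⟨k - 1, i'⟩ ∈ T) →
        Ind K m' (SE cg (cl S) co k) T →
        Gen K fun q : (CI r → Fin m → K) × (Fin y → Fin m → K) =>
          finrank K (SD q.1 q.2 cg (cl S) co k) ≤ (m + 1 - r k).choose 2 -
            ((∑ j, r j - r k) + y + cs (S (k - 2)) + cs (S (k - 1))ᶜ) := by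
      intro T hT hT2 hT1 hI
      refine (SD_gen (m := m') (M := m) cg (cl S) co k ?_ T hT ?_ hI).mono fun q hq =>
        hq.trans ?_
      · rw [card_group]
        exact hm'
      · rintro ⟨j, i⟩ ⟨j', i'⟩ hj hjj hlt hl
        have hjj' : j = j' := hjj
        subst hjj'
        have hlt' : i < i' := hlt
        rcases (cl_eq S k ⟨j, i⟩).1 hl with ⟨e, hi⟩ | ⟨e, hi⟩
        · have e' : j = k - 2 := e
          subst e'
          exact hT2 i i' hi hlt'
        · have e' : j = k - 1 := e
          subst e'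
          exact hT1 i i' hi hlt'
      · have h1 := card_ST (r := r) (y := y) k
        have h2 := card_ep_ge (y := y) hb S k
        have h3 : m + 1 - r k = m' + 1 := by omega
        have h4 : r k ≤ ∑ j, r j := Finset.single_le_sum (fun _ _ => Nat.zero_le _)
          (Finset.mem_univ k)
        rw [h3]
        apply Nat.sub_le_sub_left
        omega
    have hg : ∀ j (A : Finset (Fin (r j))), j ≠ k → gi (y := y) j A ⊆ ST cg k := by
      intro j A hj u hu
      obtain ⟨i, _, rfl⟩ := mem_gi.1 hu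
      refine mem_ST.2 ?_
      rintro i' h
      have : i' = ⟨j, i⟩ := (Sum.inl_injective h).symm
      subst this
      exact hj
    rcases hR k with h | ⟨hS, h⟩ | ⟨h1, h2, h3⟩
    · -- the three groups are small
      refine hmono (gi (k - 1) Finset.univ ∪ gi (k - 2) Finset.univ)
        (Finset.union_subset (hg _ _ n1) (hg _ _ n2)) (fun i i' _ _ => ?_) (fun i i' _ _ => ?_)
        (Ind.clique hE ?_)
      · exact ⟨Finset.mem_union_right _ (mem_gi'.2 (Finset.mem_univ _)),
          Finset.mem_union_right _ (mem_gi'.2 (Finset.mem_univ _))⟩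
      · exact ⟨Finset.mem_union_left _ (mem_gi'.2 (Finset.mem_univ _)),
          Finset.mem_union_left _ (mem_gi'.2 (Finset.mem_univ _))⟩
      · refine (Finset.card_union_le _ _).trans ?_
        rw [card_gi, card_gi, Finset.card_univ, Finset.card_univ, Fintype.card_fin,
          Fintype.card_fin]
        omega
    · -- no star from the group `k - 2`
      have hcl : (gi (r := r) (y := y) (k - 1)
          (Finset.univ.filter fun i => tp (k - 1) ≤ (i : ℕ))).card ≤ r (k - 1) - tp (k - 1) := by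
        rw [card_gi]
        have e : (Finset.univ.filter fun i : Fin (r (k - 1)) => tp (k - 1) ≤ (i : ℕ)).card =
            r (k - 1) - tp (k - 1) := by
          have h5 : (Finset.univ.filter fun i : Fin (r (k - 1)) => tp (k - 1) ≤ (i : ℕ)).map
              Fin.valEmbedding = Finset.Ico (tp (k - 1)) (r (k - 1)) := by
            ext a
            simp only [Finset.mem_map, Finset.mem_filter, Finset.mem_univ, true_and,
              Fin.valEmbedding_apply, Finset.mem_Ico]
            constructor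
            · rintro ⟨i, hi, rfl⟩
              exact ⟨hi, i.2⟩
            · rintro ⟨ha, hb'⟩
              exact ⟨⟨a, hb'⟩, ha, rfl⟩
          rw [← Finset.card_map Fin.valEmbedding, h5, Nat.card_Ico]
        exact e.le
      refine hmono (gi (k - 1) (Finset.univ.filter fun i => tp (k - 1) ≤ (i : ℕ))) (hg _ _ n1)
        (fun i i' hi _ => ?_) (fun i i' hi hlt => ?_) (Ind.clique hE (hcl.trans (by omega)))
      · rw [hS] at hi
        exact absurd hi (Finset.notMem_empty _)
      · have hi1 : tp (k - 1) ≤ (i : ℕ) := by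
          by_contra hlt'
          exact hi (htp _ _ (not_le.1 hlt'))
        have hi2 : tp (k - 1) ≤ (i' : ℕ) := hi1.trans (le_of_lt hlt)
        exact ⟨mem_gi'.2 (Finset.mem_filter.2 ⟨Finset.mem_univ _, hi1⟩),
          mem_gi'.2 (Finset.mem_filter.2 ⟨Finset.mem_univ _, hi2⟩)⟩
    · -- centres in the group `k - 2`
      have e0 : (Finset.univ.filter fun i : Fin (r (k - 1)) => tp (k - 1) ≤ (i : ℕ)).card =
          r (k - 1) - tp (k - 1) := by
        have h5 : (Finset.univ.filter fun i : Fin (r (k - 1)) => tp (k - 1) ≤ (i : ℕ)).map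
            Fin.valEmbedding = Finset.Ico (tp (k - 1)) (r (k - 1)) := by
          ext a
          simp only [Finset.mem_map, Finset.mem_filter, Finset.mem_univ, true_and,
            Fin.valEmbedding_apply, Finset.mem_Ico]
          constructor
          · rintro ⟨i, hi, rfl⟩
            exact ⟨hi, i.2⟩
          · rintro ⟨ha, hb'⟩
            exact ⟨⟨a, hb'⟩, ha, rfl⟩
        rw [← Finset.card_map Fin.valEmbedding, h5, Nat.card_Ico]
      set C : Finset (CI r ⊕ Fin y) := gi (k - 2) (S (k - 2)) with hC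
      set P : Finset (CI r ⊕ Fin y) := gi (k - 1)
        (Finset.univ.filter fun i => tp (k - 1) ≤ (i : ℕ)) with hP
      set L : Finset (CI r ⊕ Fin y) := gi (k - 2)
        ((Finset.univ.filter fun i => tq (k - 2) ≤ (i : ℕ)) \ S (k - 2)) with hL
      have f0 : (Finset.univ.filter fun i : Fin (r (k - 2)) => tq (k - 2) ≤ (i : ℕ)).card =
          r (k - 2) - tq (k - 2) := by
        have h5 : (Finset.univ.filter fun i : Fin (r (k - 2)) => tq (k - 2) ≤ (i : ℕ)).map
            Fin.valEmbedding = Finset.Ico (tq (k - 2)) (r (k - 2)) := by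
          ext a
          simp only [Finset.mem_map, Finset.mem_filter, Finset.mem_univ, true_and,
            Fin.valEmbedding_apply, Finset.mem_Ico]
          constructor
          · rintro ⟨i, hi, rfl⟩
            exact ⟨hi, i.2⟩
          · rintro ⟨ha, hb'⟩
            exact ⟨⟨a, hb'⟩, ha, rfl⟩
        rw [← Finset.card_map Fin.valEmbedding, h5, Nat.card_Ico]
      have f1 : S (k - 2) ⊆ Finset.univ.filter fun i : Fin (r (k - 2)) => tq (k - 2) ≤ (i : ℕ) :=
        fun i hi => Finset.mem_filter.2 ⟨Finset.mem_univ _, htq _ i hi⟩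
      have cC : C.card = (S (k - 2)).card := card_gi _ _
      have cP : P.card = r (k - 1) - tp (k - 1) := (card_gi _ _).trans e0
      have cL : L.card = r (k - 2) - tq (k - 2) - (S (k - 2)).card := by
        rw [hL, card_gi, Finset.card_sdiff_of_subset f1, f0]
      have hSc : (S (k - 2)).card ≤ r (k - 2) - tq (k - 2) := by
        have := Finset.card_le_card f1
        rwa [f0] at this
      obtain ⟨m₀, hm₀⟩ : ∃ m₀, m' = m₀ + C.card := ⟨m' - C.card, by rw [cC]; omega⟩
      have hCPL : Disjoint C (P ∪ L) := by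
        rw [Finset.disjoint_union_right]
        refine ⟨gi_disjoint n3 _ _, ?_⟩
        rw [Finset.disjoint_left]
        intro u hu hv
        obtain ⟨i, hi, rfl⟩ := mem_gi.1 hu
        exact (Finset.mem_sdiff.1 (mem_gi'.1 hv)).2 hi
      have hPL : ∀ u ∈ P ∪ L, ∀ v ∈ P ∪ L, SE cg (cl S) co k u v →
          ∃ i i' : Fin (r (k - 1)), i ∉ S (k - 1) ∧ i < i' ∧ u = Sum.inl ⟨k - 1, i⟩ ∧
            v = Sum.inl ⟨k - 1, i'⟩ := by
        intro u hu v hv e
        rcases (SE_iff S k u v).1 e with ⟨i, i', hi, _, rfl, _⟩ | h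
        · exfalso
          exact Finset.disjoint_left.1 hCPL (mem_gi'.2 hi) hu
        · exact h
      have hInd : Ind K (m₀ + C.card) (SE cg (cl S) co k) (C ∪ (P ∪ L)) := by
        refine Ind.note hE hCPL ?_ (by rw [cP]; omega) ?_ ?_
        · -- neighbours of the centres
          intro c hc
          obtain ⟨i, hi, rfl⟩ := mem_gi.1 hc
          have h5 : nb (SE cg (cl S) co k) (P ∪ L) (Sum.inl ⟨k - 2, i⟩) ⊆ L := by
            intro u hu
            obtain ⟨hu1, hu2⟩ := mem_nb.1 hu
            have hgrp : ∃ i' : Fin (r (k - 2)), u = Sum.inl ⟨k - 2, i'⟩ := by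
              rcases hu2 with e | e
              · rcases (SE_iff S k _ _).1 e with ⟨a, a', _, _, _, rfl⟩ | ⟨a, a', _, _, ha, _⟩
                · exact ⟨a', rfl⟩
                · exfalso
                  have h6 : (⟨k - 2, i⟩ : CI r) = ⟨k - 1, a⟩ := Sum.inl_injective ha
                  rw [Sigma.mk.injEq] at h6
                  exact n3 h6.1
              · rcases (SE_iff S k _ _).1 e with ⟨a, a', _, _, rfl, _⟩ | ⟨a, a', _, _, _, ha⟩
                · exact ⟨a, rfl⟩
                · exfalso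
                  have h6 : (⟨k - 2, i⟩ : CI r) = ⟨k - 1, a'⟩ := Sum.inl_injective ha
                  rw [Sigma.mk.injEq] at h6
                  exact n3 h6.1
            obtain ⟨i', rfl⟩ := hgrp
            rcases Finset.mem_union.1 hu1 with h7 | h7
            · exfalso
              exact Finset.disjoint_left.1 (gi_disjoint (y := y) n3 Finset.univ
                (Finset.univ.filter fun i => tp (k - 1) ≤ (i : ℕ))) (mem_gi'.2 (Finset.mem_univ _)) h7
            · exact h7
          refine (Finset.card_le_card h5).trans ?_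
          rw [cL]
          omega
        · intro u hu v hv e
          obtain ⟨i, i', hi, hlt, rfl, rfl⟩ := hPL u hu v hv e
          have hi1 : tp (k - 1) ≤ (i : ℕ) := by
            by_contra hlt'
            exact hi (htp _ _ (not_le.1 hlt'))
          have hi2 : tp (k - 1) ≤ (i' : ℕ) := hi1.trans (le_of_lt hlt)
          exact ⟨mem_gi'.2 (Finset.mem_filter.2 ⟨Finset.mem_univ _, hi1⟩),
            mem_gi'.2 (Finset.mem_filter.2 ⟨Finset.mem_univ _, hi2⟩)⟩
        · -- the count
          have h5 : ep (SE cg (cl S) co k) (P ∪ L) ⊆ (Qp (S (k - 1))ᶜ).map (em y (k - 1)) := by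
            intro p hp
            obtain ⟨⟨hp1, hp2⟩, hp3⟩ := mem_ep.1 hp
            obtain ⟨i, i', hi, hlt, e1, e2⟩ := hPL _ hp1 _ hp2 hp3
            refine Finset.mem_map.2 ⟨(i, i'), mem_Qp.2 ⟨Finset.mem_compl.2 hi, hlt⟩, ?_⟩
            rw [em_apply]
            exact Prod.ext e1.symm e2.symm
          have h6 := Finset.card_le_card h5
          rw [Finset.card_map, card_Qp] at h6
          have h7 : (P ∪ L).card ≤ P.card + L.card := Finset.card_union_le _ _
          have h8 : m₀ = m - r k - (S (k - 2)).card := by rw [cC] at hm₀; omega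
          rw [← h8] at h3
          rw [cP, cL] at h7
          omega
      rw [← hm₀] at hInd
      refine hmono (C ∪ (P ∪ L)) ?_ (fun i i' hi hlt => ?_) (fun i i' hi hlt => ?_) hInd
      · exact Finset.union_subset (hg _ _ n2) (Finset.union_subset (hg _ _ n1) (hg _ _ n2))
      · have hall : ∀ a : Fin (r (k - 2)), tq (k - 2) ≤ (a : ℕ) →
            (Sum.inl ⟨k - 2, a⟩ : CI r ⊕ Fin y) ∈ C ∪ (P ∪ L) := by
          intro a hta
          by_cases ha : a ∈ S (k - 2)
          · exact Finset.mem_union_left _ (mem_gi'.2 ha)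
          · exact Finset.mem_union_right _ (Finset.mem_union_right _
              (mem_gi'.2 (Finset.mem_sdiff.2 ⟨Finset.mem_filter.2 ⟨Finset.mem_univ _, hta⟩, ha⟩)))
        have hti := htq _ i hi
        exact ⟨hall i hti, hall i' (hti.trans (le_of_lt hlt))⟩
      · have hi1 : tp (k - 1) ≤ (i : ℕ) := by
          by_contra hlt'
          exact hi (htp _ _ (not_le.1 hlt'))
        have hi2 : tp (k - 1) ≤ (i' : ℕ) := hi1.trans (le_of_lt hlt)
        exact ⟨Finset.mem_union_right _ (Finset.mem_union_left _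
            (mem_gi'.2 (Finset.mem_filter.2 ⟨Finset.mem_univ _, hi1⟩))),
          Finset.mem_union_right _ (Finset.mem_union_left _
            (mem_gi'.2 (Finset.mem_filter.2 ⟨Finset.mem_univ _, hi2⟩)))⟩
  obtain ⟨q, hq⟩ := (Gen.forall key).exists
  have hst := star q.1 q.2 cg (cl S) co _ hq
  have e1 : Fintype.card (CI r) = ∑ k, r k := by
    rw [Fintype.card_sigma]
    simp
  rw [e1, Fintype.card_fin] at hst
  exact hst

end Pool.Agent.WarR


end

section

/-!
# Chain assignments given by flows (MP_db021c_ag, degree 2)   (helper41)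

`st r u`: at most two stars of a group of `r` points, of total size `u`. `flow_chain`: the chain assignment in which
the group `j` gives stars of total size `u j` to the form `j + 2`, and all the other pairs to the form `j + 1`.
`chain3`, `chain4`: the numerical conditions for `b = 3, 4`.
-/

set_option autoImplicit false

open Module

namespace Pool.Agent.WarR

open Pool.Agent.War Chain

/-- at most two stars of total size `u` -/
def st (r u : ℕ) : Finset (Fin r) :=
  Finset.univ.filter fun i => (0 < u ∧ (i : ℕ) + u + 1 = r) ∨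
    (r ≤ u ∧ ((i : ℕ) = 0 ∨ (i : ℕ) + u + 2 = 2 * r))

theorem mem_st {r u : ℕ} {i : Fin r} : i ∈ st r u ↔ (0 < u ∧ (i : ℕ) + u + 1 = r) ∨
    (r ≤ u ∧ ((i : ℕ) = 0 ∨ (i : ℕ) + u + 2 = 2 * r)) := by
  unfold st
  rw [Finset.mem_filter]
  exact ⟨fun h => h.2, fun h => ⟨Finset.mem_univ _, h⟩⟩

/-- number of the stars -/
def nc (r u : ℕ) : ℕ := if u = 0 then 0 else if u < r then 1 else 2

/-- is the largest star among them -/
def tpp (r u : ℕ) : ℕ := if 0 < u ∧ r ≤ u + 1 then 1 else 0

/-- number of points which are neither centres nor leaves -/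
def tqq (r u : ℕ) : ℕ := if u < r then r - 1 - u else 0

theorem st_zero (r : ℕ) : st r 0 = ∅ := by
  rw [Finset.eq_empty_iff_forall_notMem]
  intro i hi
  have := i.2
  rcases mem_st.1 hi with h | h <;> omega

theorem st_one {r u : ℕ} (h0 : 0 < u) (h : u < r) : st r u = {⟨r - 1 - u, by omega⟩} := by
  ext i
  rw [Finset.mem_singleton, mem_st, Fin.ext_iff]
  change _ ↔ (i : ℕ) = r - 1 - u
  omega

theorem st_two {r u : ℕ} (h : r ≤ u) (h2 : u + 3 ≤ 2 * r) :
    st r u = {⟨0, by omega⟩, ⟨2 * r - 2 - u, by omega⟩} := by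
  ext i
  rw [Finset.mem_insert, Finset.mem_singleton, mem_st, Fin.ext_iff, Fin.ext_iff]
  change _ ↔ (i : ℕ) = 0 ∨ (i : ℕ) = 2 * r - 2 - u
  omega

theorem cs_st {r u : ℕ} (h : u < r ∨ u + 3 ≤ 2 * r) : cs (st r u) = u := by
  rcases Nat.eq_zero_or_pos u with rfl | h0
  · rw [st_zero]
    rfl
  rcases Nat.lt_or_ge u r with h1 | h1
  · rw [st_one h0 h1, cs, Finset.sum_singleton]
    change r - 1 - (r - 1 - u) = u
    omega
  · have h2 : u + 3 ≤ 2 * r := by omega
    rw [st_two h1 h2, cs, Finset.sum_pair]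
    · change r - 1 - 0 + (r - 1 - (2 * r - 2 - u)) = u
      omega
    · intro e
      have := congrArg Fin.val e
      change 0 = 2 * r - 2 - u at this
      omega

theorem card_st {r u : ℕ} (h : u < r ∨ u + 3 ≤ 2 * r) : (st r u).card = nc r u := by
  unfold nc
  rcases Nat.eq_zero_or_pos u with rfl | h0
  · rw [st_zero, if_pos rfl]
    rfl
  rw [if_neg (by omega)]
  rcases Nat.lt_or_ge u r with h1 | h1
  · rw [st_one h0 h1, Finset.card_singleton, if_pos h1]
  · have h2 : u + 3 ≤ 2 * r := by omega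
    rw [st_two h1 h2, Finset.card_pair, if_neg (by omega)]
    intro e
    have := congrArg Fin.val e
    change 0 = 2 * r - 2 - u at this
    omega

theorem tpp_st {r u : ℕ} (i : Fin r) (h : (i : ℕ) < tpp r u) : i ∈ st r u := by
  rw [mem_st]
  unfold tpp at h
  split_ifs at h with h1
  · omega
  · omega

theorem tqq_st {r u : ℕ} (i : Fin r) (h : i ∈ st r u) : tqq r u ≤ (i : ℕ) := by
  rw [mem_st] at h
  unfold tqq
  split_ifs with h1
  · omega
  · omega

/-- the rank condition for a form with its own `rk` points, the previous group (`rp` points, flow `up`)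
and the group before (`rpp` points, flow `upp`) -/
def cnd (m rk rp up rpp upp : ℕ) : Prop :=
  rk + rp + rpp ≤ m ∨ (upp = 0 ∧ rk + (rp - tpp rp up) ≤ m) ∨
    (rk + (rpp - tqq rpp upp) ≤ m ∧ rk + (rp - tpp rp up) + nc rpp upp ≤ m ∧
      (rp - tpp rp up) + (rpp - tqq rpp upp - nc rpp upp) + (rp.choose 2 - up) ≤
        (m - rk - nc rpp upp + 1).choose 2)

/-- the dimension for this form -/
def dfc (m x y rk rp up upp : ℕ) : ℕ :=
  (m + 1 - rk).choose 2 - ((x - rk) + y + upp + (rp.choose 2 - up))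

theorem flow_chain {K : Type*} [Field K] [CharZero K] {m b y : ℕ} [NeZero b] (hb : 3 ≤ b)
    (r u : Fin b → ℕ) (hu : ∀ j, u j < r j ∨ u j + 3 ≤ 2 * r j) (hr : ∀ k, r k ≤ m)
    (hR : ∀ k, cnd m (r k) (r (k - 1)) (u (k - 1)) (r (k - 2)) (u (k - 2))) :
    KQ K m b (∑ k, r k) y
      (∑ k, dfc m (∑ j, r j) y (r k) (r (k - 1)) (u (k - 1)) (u (k - 2))) := by
  have hcc : ∀ j, cs (st (r j) (u j))ᶜ = (r j).choose 2 - u j := by
    intro j
    have h1 := cs_add_compl (st (r j) (u j))
    rw [cs_st (hu j)] at h1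
    omega
  have h := chain_sets' (K := K) (y := y) hb r (fun j => st (r j) (u j)) (fun j => tpp (r j) (u j))
    (fun j => tqq (r j) (u j)) (fun j i hi => tpp_st i hi) (fun j i hi => tqq_st i hi) hr (by
      intro k
      rcases hR k with h | ⟨h1, h2⟩ | ⟨h1, h2, h3⟩
      · exact Or.inl h
      · exact Or.inr (Or.inl ⟨by rw [h1, st_zero], h2⟩)
      · refine Or.inr (Or.inr ⟨h1, ?_, ?_⟩)
        · rw [card_st (hu _)]
          exact h2
        · rw [card_st (hu _), hcc]
          exact h3)
  simp only [cs_st (hu _), hcc] at h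
  exact h

theorem chain3 {K : Type*} [Field K] [CharZero K] {m x y R : ℕ} (r0 r1 r2 u0 u1 u2 : ℕ)
    (hx : r0 + r1 + r2 = x) (hm : r0 ≤ m ∧ r1 ≤ m ∧ r2 ≤ m)
    (h0 : u0 < r0 ∨ u0 + 3 ≤ 2 * r0) (h1 : u1 < r1 ∨ u1 + 3 ≤ 2 * r1)
    (h2 : u2 < r2 ∨ u2 + 3 ≤ 2 * r2)
    (c0 : cnd m r0 r2 u2 r1 u1) (c1 : cnd m r1 r0 u0 r2 u2) (c2 : cnd m r2 r1 u1 r0 u0)
    (hR : dfc m x y r0 r2 u2 u1 + dfc m x y r1 r0 u0 u2 + dfc m x y r2 r1 u1 u0 ≤ R) :
    KQ K m 3 x y R := by
  have h := flow_chain (K := K) (m := m) (b := 3) (y := y) le_rfl ![r0, r1, r2] ![u0, u1, u2] (by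
    intro j
    fin_cases j
    · exact h0
    · exact h1
    · exact h2) (by
    intro j
    fin_cases j
    · exact hm.1
    · exact hm.2.1
    · exact hm.2.2) (by
    intro j
    fin_cases j
    · exact c0
    · exact c1
    · exact c2)
  have e1 : ∑ k, ![r0, r1, r2] k = x := by
    rw [Fin.sum_univ_three]
    exact hx
  rw [e1, Fin.sum_univ_three] at h
  exact h.mono hR

theorem chain4 {K : Type*} [Field K] [CharZero K] {m x y R : ℕ} (r0 r1 r2 r3 u0 u1 u2 u3 : ℕ)
    (hx : r0 + r1 + r2 + r3 = x) (hm : r0 ≤ m ∧ r1 ≤ m ∧ r2 ≤ m ∧ r3 ≤ m)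
    (h0 : u0 < r0 ∨ u0 + 3 ≤ 2 * r0) (h1 : u1 < r1 ∨ u1 + 3 ≤ 2 * r1)
    (h2 : u2 < r2 ∨ u2 + 3 ≤ 2 * r2) (h3 : u3 < r3 ∨ u3 + 3 ≤ 2 * r3)
    (c0 : cnd m r0 r3 u3 r2 u2) (c1 : cnd m r1 r0 u0 r3 u3) (c2 : cnd m r2 r1 u1 r0 u0)
    (c3 : cnd m r3 r2 u2 r1 u1)
    (hR : dfc m x y r0 r3 u3 u2 + dfc m x y r1 r0 u0 u3 + dfc m x y r2 r1 u1 u0 +
      dfc m x y r3 r2 u2 u1 ≤ R) :
    KQ K m 4 x y R := by
  have h := flow_chain (K := K) (m := m) (b := 4) (y := y) (by norm_num) ![r0, r1, r2, r3]
    ![u0, u1, u2, u3] (by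
    intro j
    fin_cases j
    · exact h0
    · exact h1
    · exact h2
    · exact h3) (by
    intro j
    fin_cases j
    · exact hm.1
    · exact hm.2.1
    · exact hm.2.2.1
    · exact hm.2.2.2) (by
    intro j
    fin_cases j
    · exact c0
    · exact c1
    · exact c2
    · exact c3)
  have e1 : ∑ k, ![r0, r1, r2, r3] k = x := by
    rw [Fin.sum_univ_four]
    exact hx
  rw [e1, Fin.sum_univ_four] at h
  exact h.mono hR

end Pool.Agent.WarR


end

section

/-!
# The codimension two step   (helper41)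

`b` full points off a subspace of codimension two, with pairwise independent directions and the standard
basis vectors as labels. The residual system is the system of a multigraph.
-/

set_option autoImplicit false

open Module

namespace Pool.Agent.WarR

open Pool.Agent.War

namespace Cod2

section

variable {K : Type*} [Field K]

/-- first coordinate of the direction of the point `j` -/
def pp (K : Type*) [Field K] (j : ℕ) : K := if j = 1 then 0 else 1

/-- second coordinate of the direction of the point `j` -/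
def qq (K : Type*) [Field K] (j : ℕ) : K := (j : K)

/-- the rest of the point `j` -/
def PP (K : Type*) [Field K] (m j : ℕ) : Fin m → K := fun k => if (k : ℕ) + 2 = j then 1 else 0

theorem pp_one : pp K 1 = 0 := if_pos rfl

theorem pp_ne {j : ℕ} (h : j ≠ 1) : pp K j = 1 := if_neg h

theorem qq_ne [CharZero K] {j : ℕ} (h : j ≠ 0) : qq K j ≠ 0 := Nat.cast_ne_zero.2 h

theorem pq_ne [CharZero K] {i j : ℕ} (h : i ≠ j) : pp K i * qq K j - pp K j * qq K i ≠ 0 := by
  by_cases hi : i = 1
  · subst hi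
    rw [pp_one, pp_ne h.symm]
    simp [qq]
  · by_cases hj : j = 1
    · subst hj
      rw [pp_one, pp_ne hi]
      simp [qq]
    · rw [pp_ne hi, pp_ne hj, one_mul, one_mul]
      intro h0
      exact h (Nat.cast_injective (sub_eq_zero.1 h0)).symm

/-- a row -/
def r0 {m : ℕ} (A : Fin (m + 2) → Fin (m + 2) → K) (v : Fin m → K) : K :=
  ∑ k, v k * A 0 k.succ.succ

/-- a row -/
def r1 {m : ℕ} (A : Fin (m + 2) → Fin (m + 2) → K) (v : Fin m → K) : K :=
  ∑ k, v k * A 1 k.succ.succ

/-- the restriction -/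
def rs {m : ℕ} (A : Fin (m + 2) → Fin (m + 2) → K) : Fin m → Fin m → K :=
  fun i j => A i.succ.succ j.succ.succ

theorem expand {m : ℕ} {A : Fin (m + 2) → Fin (m + 2) → K} (hA : A ∈ SF K (m + 2))
    (s t s' t' : K) (v v' : Fin m → K) :
    bf A (Fin.cons s (Fin.cons t v)) (Fin.cons s' (Fin.cons t' v')) =
      s * s' * A 0 0 + (s * t' + t * s') * A 0 1 + t * t' * A 1 1 + s * r0 A v' + s' * r0 A v +
        t * r1 A v' + t' * r1 A v + bf (rs A) v v' := by
  have e1 : ∑ i : Fin m, v i * s' * A i.succ.succ 0 = s' * r0 A v := by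
    rw [r0, Finset.mul_sum]
    refine Finset.sum_congr rfl fun i _ => ?_
    rw [hA i.succ.succ 0]
    ring
  have e2 : ∑ i : Fin m, v i * t' * A i.succ.succ 1 = t' * r1 A v := by
    rw [r1, Finset.mul_sum]
    refine Finset.sum_congr rfl fun i _ => ?_
    rw [hA i.succ.succ 1]
    ring
  have e3 : ∑ j : Fin m, s * v' j * A 0 j.succ.succ = s * r0 A v' := by
    rw [r0, Finset.mul_sum]
    refine Finset.sum_congr rfl fun i _ => ?_
    ring
  have e4 : ∑ j : Fin m, t * v' j * A 1 j.succ.succ = t * r1 A v' := by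
    rw [r1, Finset.mul_sum]
    refine Finset.sum_congr rfl fun i _ => ?_
    ring
  have e5 : A 1 0 = A 0 1 := hA 1 0
  unfold bf rs
  simp only [Fin.sum_univ_succ, Fin.cons_zero, Fin.cons_succ, Fin.succ_zero_eq_one,
    Finset.sum_add_distrib]
  rw [e1, e2, e3, e4, e5]
  ring

/-- the points off the subspace -/
def zz (K : Type*) [Field K] (m j : ℕ) : Fin (m + 2) → K :=
  Fin.cons (pp K j) (Fin.cons (qq K j) (PP K m j))

/-- the points on the subspace -/
def hh {m : ℕ} (z : Fin m → K) : Fin (m + 2) → K := Fin.cons 0 (Fin.cons 0 z)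

theorem r0_zero {m : ℕ} (A : Fin (m + 2) → Fin (m + 2) → K) : r0 A 0 = 0 := by simp [r0]

theorem r1_zero {m : ℕ} (A : Fin (m + 2) → Fin (m + 2) → K) : r1 A 0 = 0 := by simp [r1]

theorem r0_PP {m : ℕ} (A : Fin (m + 2) → Fin (m + 2) → K) (k : Fin m) :
    r0 A (PP K m ((k : ℕ) + 2)) = A 0 k.succ.succ := by
  unfold r0 PP
  rw [Finset.sum_eq_single k]
  · simp
  · intro l _ hl
    have : (l : ℕ) + 2 ≠ (k : ℕ) + 2 := fun h => hl (Fin.ext (by omega))
    rw [if_neg this, zero_mul]
  · simp

theorem r1_PP {m : ℕ} (A : Fin (m + 2) → Fin (m + 2) → K) (k : Fin m) :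
    r1 A (PP K m ((k : ℕ) + 2)) = A 1 k.succ.succ := by
  unfold r1 PP
  rw [Finset.sum_eq_single k]
  · simp
  · intro l _ hl
    have : (l : ℕ) + 2 ≠ (k : ℕ) + 2 := fun h => hl (Fin.ext (by omega))
    rw [if_neg this, zero_mul]
  · simp

theorem PP_zero (m : ℕ) : PP K m 0 = 0 := by
  funext k
  exact if_neg (by omega)

theorem PP_one (m : ℕ) : PP K m 1 = 0 := by
  funext k
  exact if_neg (by omega)

/-- the linear form of the `j`-th form -/
def bet {m : ℕ} (j : ℕ) (A : Fin (m + 2) → Fin (m + 2) → K) : Fin m → K := fun k =>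
  if j = 1 then A 0 k.succ.succ else - A 1 k.succ.succ

/-- the data of the forms which vanish on the subspace -/
theorem local_j [CharZero K] {m : ℕ} (b : ℕ) (hb : 2 ≤ b) (j : ℕ)
    (A : Fin (m + 2) → Fin (m + 2) → K) (hA : A ∈ SF K (m + 2)) (h0 : rs A = 0)
    (h1 : ∀ l < b, bf A (zz K m l) (zz K m l) = 0) (h2 : ∀ v, bf A (zz K m j) v = 0) :
    A 0 0 = 0 ∧ A 0 1 = 0 ∧ A 1 1 = 0 ∧ (∀ k : Fin m, A 0 k.succ.succ = qq K j * bet j A k) ∧
      (∀ k : Fin m, A 1 k.succ.succ = - (pp K j * bet j A k)) ∧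
      ∀ k : Fin m, (k : ℕ) + 2 < b → bet j A k = 0 := by
  have hbf0 : ∀ v v' : Fin m → K, bf (rs A) v v' = 0 := fun v v' => by rw [h0, bf_zero]
  have a00 : A 0 0 = 0 := by
    have := h1 0 (by omega)
    rw [zz, expand hA, PP_zero, pp_ne (by norm_num), hbf0, r0_zero, r1_zero] at this
    simpa [qq] using this
  have a11 : A 1 1 = 0 := by
    have := h1 1 (by omega)
    rw [zz, expand hA, PP_one, pp_one, hbf0, r0_zero, r1_zero] at this
    simpa [qq] using this
  -- the conditions of the point `j`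
  have c0 : qq K j * A 0 1 + r0 A (PP K m j) = 0 := by
    have := h2 (Fin.cons 1 (Fin.cons 0 0))
    rw [zz, expand hA, hbf0, r0_zero, r1_zero, a00] at this
    linear_combination this
  have c1 : pp K j * A 0 1 + r1 A (PP K m j) = 0 := by
    have := h2 (Fin.cons 0 (Fin.cons 1 0))
    rw [zz, expand hA, hbf0, r0_zero, r1_zero, a11] at this
    linear_combination this
  have c2 : ∀ v : Fin m → K, pp K j * r0 A v + qq K j * r1 A v = 0 := by
    intro v
    have := h2 (Fin.cons 0 (Fin.cons 0 v))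
    rw [zz, expand hA, hbf0] at this
    linear_combination this
  have c3 : ∀ k : Fin m, pp K j * A 0 k.succ.succ + qq K j * A 1 k.succ.succ = 0 := by
    intro k
    have := c2 (PP K m ((k : ℕ) + 2))
    rwa [r0_PP, r1_PP] at this
  have a01 : A 0 1 = 0 := by
    by_cases hj0 : j = 0
    · subst hj0
      rw [PP_zero, r1_zero, pp_ne (by norm_num)] at c1
      linear_combination c1
    · by_cases hj1 : j = 1
      · subst hj1
        rw [PP_one, r0_zero] at c0
        simpa [qq] using c0
      · have h3 := c2 (PP K m j)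
        have h4 : pp K j = 1 := pp_ne hj1
        rw [h4] at c1 h3
        have h5 : 2 * (qq K j * A 0 1) = 0 := by linear_combination c0 + qq K j * c1 - h3
        have h6 := qq_ne (K := K) hj0
        have h7 := (mul_eq_zero.1 h5).resolve_left two_ne_zero
        exact (mul_eq_zero.1 h7).resolve_left h6
  have b0 : ∀ k : Fin m, A 0 k.succ.succ = qq K j * bet j A k := by
    intro k
    by_cases hj1 : j = 1
    · subst hj1
      simp [bet, qq]
    · have h3 := c3 k
      rw [pp_ne hj1] at h3
      rw [bet, if_neg hj1]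
      linear_combination h3
  have b1 : ∀ k : Fin m, A 1 k.succ.succ = - (pp K j * bet j A k) := by
    intro k
    by_cases hj1 : j = 1
    · subst hj1
      have h3 := c3 k
      rw [pp_one] at h3 ⊢
      have h4 : qq K 1 = 1 := by simp [qq]
      rw [h4] at h3
      linear_combination h3
    · rw [bet, if_neg hj1, pp_ne hj1]
      ring
  refine ⟨a00, a01, a11, b0, b1, fun k hk => ?_⟩
  have hbe : r0 A (PP K m ((k : ℕ) + 2)) = qq K j * bet j A k := by rw [r0_PP, b0]
  have hbe1 : r1 A (PP K m ((k : ℕ) + 2)) = - (pp K j * bet j A k) := by rw [r1_PP, b1]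
  by_cases hkj : (k : ℕ) + 2 = j
  · have h4 : qq K j ≠ 0 := qq_ne (by omega)
    rw [a01, mul_zero, zero_add, ← hkj, hbe] at c0
    exact (mul_eq_zero.1 c0).resolve_left h4
  · have h3 := h1 ((k : ℕ) + 2) hk
    rw [zz, expand hA, hbf0, a00, a01, a11, hbe, hbe1] at h3
    have h4 := pq_ne (K := K) hkj
    have h5 : 2 * ((pp K ((k : ℕ) + 2) * qq K j - pp K j * qq K ((k : ℕ) + 2)) * bet j A k) = 0 := by
      linear_combination h3
    have h7 := (mul_eq_zero.1 h5).resolve_left two_ne_zero
    exact (mul_eq_zero.1 h7).resolve_left h4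

/-! ### the residual system -/

/-- the functional of a point on the subspace -/
def om {m b : ℕ} (w : Fin b → K) (a : Fin b → K) (z : Fin m → K) :
    (Fin b → Fin m → K) →ₗ[K] K where
  toFun β := ∑ j, a j * (w j * ∑ k, z k * β j k)
  map_add' β γ := by
    simp only [Pi.add_apply, mul_add, Finset.sum_add_distrib]
  map_smul' c β := by
    simp only [Pi.smul_apply, smul_eq_mul, RingHom.id_apply, Finset.mul_sum]
    refine Finset.sum_congr rfl fun j _ => Finset.sum_congr rfl fun k _ => by ring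

@[simp] theorem om_apply {m b : ℕ} (w : Fin b → K) (a : Fin b → K) (z : Fin m → K)
    (β : Fin b → Fin m → K) : om w a z β = ∑ j, a j * (w j * ∑ k, z k * β j k) := rfl

/-- the coordinate functional -/
def co {m b : ℕ} (j : Fin b) (k : Fin m) : (Fin b → Fin m → K) →ₗ[K] K :=
  (LinearMap.proj k : (Fin m → K) →ₗ[K] K).comp (LinearMap.proj j)

/-- the residual system -/
def RS {m b : ℕ} (p q : Fin b → K) {x s : ℕ} (c : Cfg K m b (Fin x) (Fin s)) :
    Submodule K (Fin b → Fin m → K) :=
  (⨅ t : Fin b × {k : Fin m // (k : ℕ) + 2 < b}, LinearMap.ker (co t.1 t.2.1)) ⊓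
    ((⨅ i, LinearMap.ker (om p (c.2.1 i) (c.1 i))) ⊓ ⨅ i, LinearMap.ker (om q (c.2.1 i) (c.1 i)))

theorem mem_RS {m b : ℕ} {p q : Fin b → K} {x s : ℕ} {c : Cfg K m b (Fin x) (Fin s)}
    {β : Fin b → Fin m → K} : β ∈ RS p q c ↔
      (∀ (j : Fin b) (k : Fin m), (k : ℕ) + 2 < b → β j k = 0) ∧
      (∀ i, ∑ j, c.2.1 i j * (p j * ∑ k, c.1 i k * β j k) = 0) ∧
      ∀ i, ∑ j, c.2.1 i j * (q j * ∑ k, c.1 i k * β j k) = 0 := by
  simp only [RS, Submodule.mem_inf, Submodule.mem_iInf, LinearMap.mem_ker, om_apply, co,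
    LinearMap.comp_apply, LinearMap.proj_apply, Prod.forall, Subtype.forall]

theorem PK_RS {m b : ℕ} (p q : Fin b → K) {x s : ℕ} :
    PK fun c : Cfg K m b (Fin x) (Fin s) => RS p q c := by
  have h1 : ∀ w : Fin b → K, PK fun c : Cfg K m b (Fin x) (Fin s) =>
      ⨅ i, LinearMap.ker (om w (c.2.1 i) (c.1 i)) := fun w => by
    refine PK.iInf fun i => PK.one (φ := fun c : Cfg K m b (Fin x) (Fin s) =>
      om w (c.2.1 i) (c.1 i)) fun β => ?_
    simp only [om_apply]
    exact LP.sum _ fun j _ => (LP_c2 i j).mul ((LP.const _).mul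
      (LP.sum _ fun k _ => (LP_c1 i k).mul (LP.const _)))
  have h0 : PK fun _ : Cfg K m b (Fin x) (Fin s) =>
      (⨅ t : Fin b × {k : Fin m // (k : ℕ) + 2 < b}, LinearMap.ker (co (K := K) t.1 t.2.1)) :=
    PK.iInf fun t => PK.one (φ := fun _ : Cfg K m b (Fin x) (Fin s) =>
      (co t.1 t.2.1 : (Fin b → Fin m → K) →ₗ[K] K)) fun β => LP.const _
  exact h0.inf ((h1 p).inf (h1 q))

/-- the labels of the multigraph -/
def lab (K : Type*) [Field K] (b i : ℕ) : Fin b → K := fun j =>
  (if (2 * i) % b = j then 1 else 0) + if (2 * i + 1) % b = j then 1 else 0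

/-- points on the moment curve -/
def mom (K : Type*) [Field K] (m i : ℕ) : Fin m → K := fun k => ((i : K) + 1) ^ (k : ℕ)

theorem sum_lab {b i : ℕ} (hb : 2 ≤ b) (g : Fin b → K) :
    ∑ j, lab K b i j * g j = g ⟨(2 * i) % b, Nat.mod_lt _ (by omega)⟩ +
      g ⟨(2 * i + 1) % b, Nat.mod_lt _ (by omega)⟩ := by
  unfold lab
  simp only [add_mul, Finset.sum_add_distrib, ite_mul, one_mul, zero_mul]
  congr 1
  · rw [Finset.sum_eq_single ⟨(2 * i) % b, Nat.mod_lt _ (by omega)⟩]
    · simp
    · intro j _ hj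
      rw [if_neg]
      intro h
      exact hj (Fin.ext h.symm)
    · simp
  · rw [Finset.sum_eq_single ⟨(2 * i + 1) % b, Nat.mod_lt _ (by omega)⟩]
    · simp
    · intro j _ hj
      rw [if_neg]
      intro h
      exact hj (Fin.ext h.symm)
    · simp

theorem mod_ne {b i : ℕ} (hb : 2 ≤ b) : (2 * i) % b ≠ (2 * i + 1) % b := by
  intro h
  have h1 : (2 * i) ≡ (2 * i + 1) [MOD b] := h
  have h2 := (Nat.modEq_iff_dvd' (by omega)).1 h1
  rw [Nat.add_sub_cancel_left] at h2
  have := Nat.le_of_dvd one_pos h2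
  omega

/-- the residual system is injective for the multigraph -/
theorem RS_bot [CharZero K] (e d x s : ℕ) (h : (e + 2) * d ≤ 2 * x) :
    RS (m := e + d) (b := e + 2) (fun j => pp K j) (fun j => qq K j)
      ((fun i => mom K (e + d) i, fun i => lab K (e + 2) i, fun _ => 0) :
        Cfg K (e + d) (e + 2) (Fin x) (Fin s)) = ⊥ := by
  rw [eq_bot_iff]
  intro β hβ
  rw [mem_RS] at hβ
  obtain ⟨h1, h2, h3⟩ := hβ
  rw [Submodule.mem_bot]
  -- the values at the points of the edges
  have hval : ∀ i : Fin x, (∑ k, mom K (e + d) i k *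
      β ⟨(2 * (i : ℕ)) % (e + 2), Nat.mod_lt _ (by omega)⟩ k = 0) ∧
      ∑ k, mom K (e + d) i k *
        β ⟨(2 * (i : ℕ) + 1) % (e + 2), Nat.mod_lt _ (by omega)⟩ k = 0 := by
    intro i
    have k2 := h2 i
    have k3 := h3 i
    change ∑ j, lab K (e + 2) i j * (pp K j * ∑ k, mom K (e + d) i k * β j k) = 0 at k2
    change ∑ j, lab K (e + 2) i j * (qq K j * ∑ k, mom K (e + d) i k * β j k) = 0 at k3
    rw [sum_lab (by omega)] at k2 k3
    have hne := pq_ne (K := K) (mod_ne (b := e + 2) (i := (i : ℕ)) (by omega))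
    simp only at k2 k3
    set S := ∑ k, mom K (e + d) i k *
      β ⟨(2 * (i : ℕ)) % (e + 2), Nat.mod_lt _ (by omega)⟩ k
    set T := ∑ k, mom K (e + d) i k *
      β ⟨(2 * (i : ℕ) + 1) % (e + 2), Nat.mod_lt _ (by omega)⟩ k
    set ps := pp K ((2 * (i : ℕ)) % (e + 2))
    set pt := pp K ((2 * (i : ℕ) + 1) % (e + 2))
    set qs := qq K ((2 * (i : ℕ)) % (e + 2))
    set qt := qq K ((2 * (i : ℕ) + 1) % (e + 2))
    constructor
    · have : (ps * qt - pt * qs) * S = 0 := by linear_combination qt * k2 - pt * k3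
      exact (mul_eq_zero.1 this).resolve_left hne
    · have : (ps * qt - pt * qs) * T = 0 := by linear_combination ps * k3 - qs * k2
      exact (mul_eq_zero.1 this).resolve_left hne
  -- the rows
  have hrow : ∀ j : Fin (e + 2), ∀ c < d, ∃ i : ℕ, i < x ∧ i = ((j : ℕ) + c * (e + 2)) / 2 ∧
      ∑ k, mom K (e + d) i k * β j k = 0 := by
    intro j c hc
    have hj := j.2
    have hlt : (j : ℕ) + c * (e + 2) < 2 * x := by
      have : (c + 1) * (e + 2) ≤ d * (e + 2) := Nat.mul_le_mul_right _ hc
      nlinarith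
    have hmod : ((j : ℕ) + c * (e + 2)) % (e + 2) = j := by
      rw [Nat.add_mul_mod_self_right, Nat.mod_eq_of_lt hj]
    refine ⟨((j : ℕ) + c * (e + 2)) / 2, by omega, rfl, ?_⟩
    obtain ⟨v1, v2⟩ := hval ⟨((j : ℕ) + c * (e + 2)) / 2, by omega⟩
    simp only at v1 v2
    rcases Nat.even_or_odd' ((j : ℕ) + c * (e + 2)) with ⟨u, hu | hu⟩
    · have e1 : 2 * (((j : ℕ) + c * (e + 2)) / 2) = (j : ℕ) + c * (e + 2) := by omega
      have e2 : (⟨(2 * (((j : ℕ) + c * (e + 2)) / 2)) % (e + 2), Nat.mod_lt _ (by omega)⟩ :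
          Fin (e + 2)) = j := Fin.ext (by
        show _ % _ = _
        rw [e1, hmod])
      rwa [e2] at v1
    · have e1 : 2 * (((j : ℕ) + c * (e + 2)) / 2) + 1 = (j : ℕ) + c * (e + 2) := by omega
      have e2 : (⟨(2 * (((j : ℕ) + c * (e + 2)) / 2) + 1) % (e + 2), Nat.mod_lt _ (by omega)⟩ :
          Fin (e + 2)) = j := Fin.ext (by
        show _ % _ = _
        rw [e1, hmod])
      rwa [e2] at v2
  funext j
  have hd : (fun k : Fin d => β j (Fin.natAdd e k)) = 0 := by
    refine Matrix.eq_zero_of_forall_index_sum_pow_mul_eq_zero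
      (f := fun c : Fin d => (((((j : ℕ) + c * (e + 2)) / 2 : ℕ) : K) + 1)) ?_ ?_
    · intro c c' hcc
      have h4 : ((j : ℕ) + c * (e + 2)) / 2 = ((j : ℕ) + c' * (e + 2)) / 2 :=
        Nat.cast_injective (R := K) (add_right_cancel hcc)
      apply Fin.ext
      by_contra hne
      rcases lt_or_gt_of_ne hne with h5 | h5
      · have : ((c : ℕ) + 1) * (e + 2) ≤ c' * (e + 2) := Nat.mul_le_mul_right _ h5
        have h6 : (c : ℕ) * (e + 2) + 2 ≤ c' * (e + 2) := by nlinarith
        omega
      · have : ((c' : ℕ) + 1) * (e + 2) ≤ c * (e + 2) := Nat.mul_le_mul_right _ h5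
        have h6 : (c' : ℕ) * (e + 2) + 2 ≤ c * (e + 2) := by nlinarith
        omega
    · intro c
      obtain ⟨i, -, hi, h6⟩ := hrow j c c.2
      rw [Fin.sum_univ_add] at h6
      have h7 : ∑ k : Fin e, mom K (e + d) i (Fin.castAdd d k) * β j (Fin.castAdd d k) = 0 := by
        refine Finset.sum_eq_zero fun k _ => ?_
        rw [h1 j (Fin.castAdd d k) (by rw [Fin.val_castAdd]; omega), mul_zero]
      rw [h7, zero_add] at h6
      have h8 : ((i : K) + 1) ^ e * ∑ k : Fin d, ((i : K) + 1) ^ (k : ℕ) * β j (Fin.natAdd e k) =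
          0 := by
        rw [← h6, Finset.mul_sum]
        refine Finset.sum_congr rfl fun k _ => ?_
        rw [mom, Fin.val_natAdd, pow_add]
        ring
      have h9 : ((i : K) + 1) ≠ 0 := by exact_mod_cast Nat.succ_ne_zero i
      have h10 := (mul_eq_zero.1 h8).resolve_left (pow_ne_zero _ h9)
      rw [hi] at h10
      exact h10
  funext k
  refine Fin.addCases (fun k => ?_) (fun k => ?_) k
  · exact h1 j (Fin.castAdd d k) (by rw [Fin.val_castAdd]; omega)
  · exact congrFun hd k

theorem rs_mem {m : ℕ} {A : Fin (m + 2) → Fin (m + 2) → K} (hA : A ∈ SF K (m + 2)) :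
    rs A ∈ SF K m := fun i j => hA i.succ.succ j.succ.succ

/-- the restriction of the tuples -/
def rst (K : Type*) [Field K] (m b : ℕ) : (Fin b → SF K (m + 2)) →ₗ[K] (Fin b → SF K m) where
  toFun F j := ⟨rs (F j : Fin (m + 2) → Fin (m + 2) → K), rs_mem (F j).2⟩
  map_add' _ _ := rfl
  map_smul' _ _ := rfl

theorem bf_hh {m : ℕ} {A : Fin (m + 2) → Fin (m + 2) → K} (hA : A ∈ SF K (m + 2))
    (z v : Fin m → K) : bf A (hh z) (hh v) = bf (rs A) z v := by
  rw [hh, hh, expand hA]
  ring

theorem bf_hh0 {m : ℕ} {A : Fin (m + 2) → Fin (m + 2) → K} (hA : A ∈ SF K (m + 2))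
    (z : Fin m → K) : bf A (hh z) (Fin.cons 1 (Fin.cons 0 0)) = r0 A z := by
  rw [hh, expand hA, r0_zero, r1_zero]
  have : bf (rs A) z 0 = 0 := by simp [bf]
  rw [this]
  ring

theorem bf_hh1 {m : ℕ} {A : Fin (m + 2) → Fin (m + 2) → K} (hA : A ∈ SF K (m + 2))
    (z : Fin m → K) : bf A (hh z) (Fin.cons 0 (Fin.cons 1 0)) = r1 A z := by
  rw [hh, expand hA, r0_zero, r1_zero]
  have : bf (rs A) z 0 = 0 := by simp [bf]
  rw [this]
  ring

/-- the configuration of the step -/
def cfg2 {m b x s : ℕ} (c : Cfg K m b (Fin x) (Fin s)) :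
    Cfg K (m + 2) b (Fin x ⊕ Fin b) (Fin s) :=
  (Sum.elim (fun i => hh (c.1 i)) fun l => zz K m l,
    Sum.elim c.2.1 fun l => Pi.single l 1, fun l => hh (c.2.2 l))

end

end Cod2

open _root_.Pool.Agent.WarR.Cod2 in
/-- **The codimension two step.** `b` full points off a subspace of codimension two. -/
theorem cod2 {K : Type*} [Field K] [CharZero K] {m b x s r : ℕ} (hb : 2 ≤ b) (hbm : b ≤ m + 2)
    (hx : b * (m + 2 - b) ≤ 2 * x) (H : KQ K m b x s r) : KQ K (m + 2) b (x + b) s r := by
  classical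
  obtain ⟨e, rfl⟩ : ∃ e, b = e + 2 := ⟨b - 2, by omega⟩
  obtain ⟨d, rfl⟩ : ∃ d, m = e + d := ⟨m - e, by omega⟩
  have hd : e + d + 2 - (e + 2) = d := by omega
  rw [hd] at hx
  obtain ⟨c, hc1, hc2⟩ := (H.gen.and ((PK_RS (K := K) (m := e + d) (b := e + 2) (x := x) (s := s)
    (fun j => pp K j) (fun j => qq K j)).gen_bot (RS_bot e d x s hx))).exists
  refine KQ.of_cfg (cfg2 c) (by simp) (Fintype.card_fin s) ?_
  have hker : ZK (cfg2 c) ⊓ LinearMap.ker (rst K (e + d) (e + 2)) = ⊥ := by
    rw [eq_bot_iff]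
    rintro F ⟨hF, hF0⟩
    rw [Submodule.mem_bot]
    obtain ⟨h1, h2, h3⟩ := mem_ZK.1 hF
    have hrs : ∀ j, rs (F j : Fin (e + d + 2) → Fin (e + d + 2) → K) = 0 := fun j =>
      congrArg Subtype.val (congrFun (LinearMap.mem_ker.1 hF0) j)
    have hloc : ∀ j : Fin (e + 2), _ := fun j => local_j (e + 2) (by omega) (j : ℕ)
      (F j : Fin (e + d + 2) → Fin (e + d + 2) → K) (F j).2 (hrs j)
      (fun l hl => h1 (Sum.inr ⟨l, hl⟩) j) (fun v => by
        have := h2 (Sum.inr j) v
        change ∑ l, (Pi.single j (1 : K) : Fin (e + 2) → K) l *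
          bf (F l : Fin (e + d + 2) → Fin (e + d + 2) → K) (zz K (e + d) j) v = 0 at this
        rw [Finset.sum_eq_single j, Pi.single_eq_same, one_mul] at this
        · exact this
        · intro l _ hl
          rw [Pi.single_eq_of_ne hl, zero_mul]
        · simp)
    let β : Fin (e + 2) → Fin (e + d) → K := fun j =>
      bet j (F j : Fin (e + d + 2) → Fin (e + d + 2) → K)
    have hr0 : ∀ (j : Fin (e + 2)) (z : Fin (e + d) → K),
        r0 (F j : Fin (e + d + 2) → Fin (e + d + 2) → K) z = qq K j * ∑ k, z k * β j k := by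
      intro j z
      rw [r0, Finset.mul_sum]
      refine Finset.sum_congr rfl fun k _ => ?_
      rw [(hloc j).2.2.2.1 k]
      ring
    have hr1 : ∀ (j : Fin (e + 2)) (z : Fin (e + d) → K),
        r1 (F j : Fin (e + d + 2) → Fin (e + d + 2) → K) z = - (pp K j * ∑ k, z k * β j k) := by
      intro j z
      rw [r1, Finset.mul_sum, ← Finset.sum_neg_distrib]
      refine Finset.sum_congr rfl fun k _ => ?_
      rw [(hloc j).2.2.2.2.1 k]
      ring
    have hβ : β ∈ RS (fun j : Fin (e + 2) => pp K j) (fun j => qq K j) c := by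
      refine mem_RS.2 ⟨fun j k hk => (hloc j).2.2.2.2.2 k hk, fun i => ?_, fun i => ?_⟩
      · have := h2 (Sum.inl i) (Fin.cons 0 (Fin.cons 1 0))
        change ∑ j, c.2.1 i j * bf (F j : Fin (e + d + 2) → Fin (e + d + 2) → K) (hh (c.1 i))
          (Fin.cons 0 (Fin.cons 1 0)) = 0 at this
        simp only [bf_hh1 (F _).2, hr1, mul_neg, Finset.sum_neg_distrib, neg_eq_zero] at this
        exact this
      · have := h2 (Sum.inl i) (Fin.cons 1 (Fin.cons 0 0))
        change ∑ j, c.2.1 i j * bf (F j : Fin (e + d + 2) → Fin (e + d + 2) → K) (hh (c.1 i))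
          (Fin.cons 1 (Fin.cons 0 0)) = 0 at this
        simp only [bf_hh0 (F _).2, hr0] at this
        exact this
    rw [hc2, Submodule.mem_bot] at hβ
    funext j
    apply Subtype.ext
    funext i k
    have hA := (F j).2
    obtain ⟨a1, a2, a3, a4, a5, -⟩ := hloc j
    have hβj : ∀ k, bet j (F j : Fin (e + d + 2) → Fin (e + d + 2) → K) k = 0 := fun k =>
      congrFun (congrFun hβ j) k
    have b4 : ∀ k : Fin (e + d), (F j : Fin (e + d + 2) → Fin (e + d + 2) → K) 0 k.succ.succ = 0 :=
      fun k => by rw [a4, hβj, mul_zero]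
    have b5 : ∀ k : Fin (e + d), (F j : Fin (e + d + 2) → Fin (e + d + 2) → K) 1 k.succ.succ = 0 :=
      fun k => by rw [a5, hβj, mul_zero, neg_zero]
    change (F j : Fin (e + d + 2) → Fin (e + d + 2) → K) i k = 0
    refine Fin.cases ?_ (fun i => Fin.cases ?_ (fun i => ?_) i) i
    · refine Fin.cases a1 (fun k => Fin.cases a2 (fun k => b4 k) k) k
    · refine Fin.cases ?_ (fun k => Fin.cases a3 (fun k => b5 k) k) k
      exact (hA _ _).trans a2
    · refine Fin.cases ?_ (fun k => Fin.cases ?_ (fun k => ?_) k) k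
      · exact (hA _ _).trans (b4 i)
      · exact (hA _ _).trans (b5 i)
      · exact congrFun (congrFun (hrs j) i) k
  have hmap : (ZK (cfg2 c)).map (rst K (e + d) (e + 2)) ≤ ZK c := by
    rintro _ ⟨F, hF, rfl⟩
    obtain ⟨h1, h2, h3⟩ := mem_ZK.1 hF
    refine mem_ZK.2 ⟨fun i j => ?_, fun i v => ?_, fun l j => ?_⟩
    · have := h1 (Sum.inl i) j
      exact (bf_hh (F j).2 (c.1 i) (c.1 i)).symm.trans this
    · have := h2 (Sum.inl i) (hh v)
      change ∑ j, c.2.1 i j * bf (F j : Fin (e + d + 2) → Fin (e + d + 2) → K) (hh (c.1 i))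
        (hh v) = 0 at this
      simp only [bf_hh (F _).2] at this
      exact this
    · have := h3 l j
      exact (bf_hh (F j).2 (c.2.2 l) (c.2.2 l)).symm.trans this
  have h5 := finrank_le_map_add_ker (rst K (e + d) (e + 2)) (ZK (cfg2 c))
  rw [hker, finrank_bot, add_zero] at h5
  exact h5.trans ((Submodule.finrank_mono hmap).trans hc1)

end Pool.Agent.WarR


end

section

/-!
# Three quadratic forms, both sides (MP_db021c_ag, degree 2)   (helper41)
-/

set_option autoImplicit false

open Module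

namespace Pool.Agent.WarR

open Pool.Agent.War

section

variable {K : Type*} [Field K]

/-- one level up, by the split simple point -/
theorem SS.step [CharZero K] {m b x : ℕ} (hm : 2 ≤ m) (hb : 0 < b) (hbx : b ≤ x)
    (hE : x * (m - 1 + b) ≤ b * NV m) (h : SS K m b x)
    (hs : ∀ ρ p, ρ < b → b * p + ρ < x + b → min ρ (x - b * p) + p + 1 ≤ m) :
    SS K (m + 1) b x := by
  obtain ⟨s, w, h1, h2, h3⟩ := exists_crit hb hE
  have hm1 : 0 < (m - 1) * x := Nat.mul_pos (by omega) (by omega)
  obtain ⟨w', rfl⟩ : ∃ w', w = w' + 1 := by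
    refine ⟨w - 1, ?_⟩
    have : w ≠ 0 := by
      rintro rfl
      omega
    omega
  have hmx : (m - 1) * x + x = m * x := by
    obtain ⟨m', rfl⟩ : ∃ m', m = m' + 1 := ⟨m - 1, by omega⟩
    rw [Nat.add_sub_cancel]
    ring
  have hbw : b * (w' + 1) = b * w' + b := by ring
  have k1 := h.2 s (w' + 1) h1 h2
  have k2 := h.1 (s + 1) w' (by omega) (by omega)
  obtain ⟨ρ, hρ⟩ : ∃ ρ, b * (w' + 1) - (m - 1) * x = ρ := ⟨_, rfl⟩
  rw [hρ] at k1
  have hρb : ρ < b := by omega
  obtain ⟨p, hp1, hp2⟩ : ∃ p, x ≤ b * (p + 1) + ρ ∧ b * p + ρ < x := by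
    refine ⟨(x - ρ - 1) / b, ?_, ?_⟩
    · have e1 := Nat.div_add_mod (x - ρ - 1) b
      have e2 := Nat.mod_lt (x - ρ - 1) hb
      rw [Nat.mul_add, Nat.mul_one]
      omega
    · have e1 := Nat.div_add_mod (x - ρ - 1) b
      omega
  have hbp : b * (p + 1) = b * p + b := by ring
  have hs1 := hs ρ (p + 1) hρb (by omega)
  have hs2 := hs ρ p hρb (by omega)
  have hpm : p + 1 ≤ m := by omega
  have e3 : b * (w' + 1 + (p + 1)) = b * (w' + 1) + b * (p + 1) := by ring
  have e4 : b * (w' + 1 + p) = b * (w' + 1) + b * p := by ring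
  have q1 := step' (r := b * (w' + 1 + (p + 1)) - m * x) k1 k2 hbx hs1 (by omega)
  have q2 := step' (r := 0) k1 k2 hbx hs2 (by omega)
  refine SS.of_crit (s := s + 1 + (m - (p + 1))) (w := w' + 1 + (p + 1)) ?_ ?_ ?_ ?_ ?_
  · rw [NV_succ]
    omega
  · rw [Nat.add_sub_cancel]
    omega
  · rw [Nat.add_sub_cancel]
    omega
  · rw [Nat.add_sub_cancel]
    exact q1
  · have : s + 1 + (m - (p + 1)) + 1 = s + 1 + (m - p) := by omega
    rw [this]
    exact q2

/-! ### the rank conditions -/

theorem cnd_of0 {m rk rp up rpp : ℕ} (h : rk + rp ≤ m) : cnd m rk rp up rpp 0 :=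
  Or.inr (Or.inl ⟨rfl, by omega⟩)

theorem cnd_of1 {m rk rp up rpp upp : ℕ} (h0 : 0 < upp) (h1 : upp < rpp)
    (h2 : rk + upp + 1 ≤ m) (h3 : rk + rp + 1 ≤ m)
    (h4 : rp + upp + (rp.choose 2 - up) ≤ (m - rk).choose 2) : cnd m rk rp up rpp upp := by
  have e1 : nc rpp upp = 1 := by
    unfold nc
    rw [if_neg (by omega), if_pos h1]
  have e2 : tqq rpp upp = rpp - 1 - upp := by
    unfold tqq
    rw [if_pos h1]
  refine Or.inr (Or.inr ⟨?_, ?_, ?_⟩)
  · rw [e2]
    omega
  · rw [e1]
    omega
  · rw [e1, e2]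
    have : m - rk - 1 + 1 = m - rk := by omega
    rw [this]
    omega

theorem cnd_of2 {m rk rp up rpp upp : ℕ} (h1 : rpp ≤ upp) (h0 : 0 < rpp)
    (h2 : rk + rpp ≤ m) (h3 : rk + rp + 2 ≤ m)
    (h4 : rp + (rpp - 2) + (rp.choose 2 - up) ≤ (m - rk - 1).choose 2) :
    cnd m rk rp up rpp upp := by
  have e1 : nc rpp upp = 2 := by
    unfold nc
    rw [if_neg (by omega), if_neg (by omega)]
  have e2 : tqq rpp upp = 0 := by
    unfold tqq
    rw [if_neg (by omega)]
  refine Or.inr (Or.inr ⟨?_, ?_, ?_⟩)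
  · rw [e2]
    omega
  · rw [e1]
    omega
  · rw [e1, e2]
    have : m - rk - 2 + 1 = m - rk - 1 := by omega
    rw [this]
    omega

theorem ch_succ (k : ℕ) : (k + 1).choose 2 = k.choose 2 + k := by
  rw [Nat.choose_succ_succ' k 1, Nat.choose_one_right, add_comm]

/-! ### three forms -/

theorem b3_even0 : KQ K 1 3 0 1 0 := by
  refine ⟨(fun l => l.elim0, fun l => l.elim0, fun _ _ => 1), ?_⟩
  have h3 : ZK ((fun l => l.elim0, fun l => l.elim0, fun _ _ => 1) :
      Cfg K 1 3 (Fin 0) (Fin 1)) = ⊥ := by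
    rw [eq_bot_iff]
    intro F hF
    rw [Submodule.mem_bot]
    obtain ⟨-, -, h3⟩ := mem_ZK.1 hF
    funext j
    apply Subtype.ext
    funext a c
    have h := h3 0 j
    rw [Subsingleton.elim a 0, Subsingleton.elim c 0]
    unfold bf at h
    simpa using h
  rw [h3, finrank_bot]

theorem b3_even [CharZero K] (k : ℕ) : KQ K (2 * k + 1) 3 (3 * k) 1 0 := by
  induction k with
  | zero => exact b3_even0
  | succ k ih =>
    have h := cod2 (K := K) (b := 3) (by norm_num) (by omega) (by omega) ih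
    exact h

theorem b3_odd0 [CharZero K] : KQ K 2 3 2 1 0 := by
  refine ⟨(fun i => Pi.single i 1, fun _ _ => 0, fun _ _ => 1), ?_⟩
  have h3 : ZK ((fun i => Pi.single i 1, fun _ _ => 0, fun _ _ => 1) :
      Cfg K 2 3 (Fin 2) (Fin 1)) = ⊥ := by
    rw [eq_bot_iff]
    intro F hF
    rw [Submodule.mem_bot]
    obtain ⟨h1, -, h3⟩ := mem_ZK.1 hF
    funext j
    apply Subtype.ext
    have e0 := h1 0 j
    have e1 := h1 1 j
    have e2 := h3 0 j
    change bf (F j : Fin 2 → Fin 2 → K) (Pi.single 0 1) (Pi.single 0 1) = 0 at e0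
    change bf (F j : Fin 2 → Fin 2 → K) (Pi.single 1 1) (Pi.single 1 1) = 0 at e1
    change bf (F j : Fin 2 → Fin 2 → K) (fun _ => 1) (fun _ => 1) = 0 at e2
    have e3 : (F j : Fin 2 → Fin 2 → K) 1 0 = (F j : Fin 2 → Fin 2 → K) 0 1 := (F j).2 1 0
    rw [bf_single] at e0 e1
    unfold bf at e2
    simp only [Fin.sum_univ_two, e0, e1, e3, mul_one, one_mul, zero_add, add_zero] at e2
    have e4 : 2 * (F j : Fin 2 → Fin 2 → K) 0 1 = 0 := by linear_combination e2
    have e5 := (mul_eq_zero.1 e4).resolve_left two_ne_zero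
    funext a c
    change (F j : Fin 2 → Fin 2 → K) a c = 0
    fin_cases a <;> fin_cases c
    · exact e0
    · exact e5
    · exact e3.trans e5
    · exact e1
  rw [h3, finrank_bot]

theorem b3_odd [CharZero K] (k : ℕ) : KQ K (2 * k + 2) 3 (3 * k + 2) 1 0 := by
  induction k with
  | zero => exact b3_odd0
  | succ k ih =>
    have h := cod2 (K := K) (b := 3) (by norm_num) (by omega) (by omega) ih
    exact h

theorem sq_ch (k : ℕ) : k * k = 2 * k.choose 2 + k := by
  have hT := Nat.choose_two_right k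
  have h3 : k * (k - 1) / 2 * 2 = k * (k - 1) :=
    Nat.div_mul_cancel (Nat.even_mul_pred_self k).two_dvd
  rcases Nat.eq_zero_or_pos k with rfl | h0
  · rfl
  obtain ⟨j, rfl⟩ : ∃ j, k = j + 1 := ⟨k - 1, by omega⟩
  rw [Nat.add_sub_cancel] at hT h3
  have h2 : (j + 1) * j + (j + 1) = (j + 1) * (j + 1) := by ring
  omega

theorem b3c_aux [CharZero K] {k s u v R : ℕ} (hu0 : 0 < u) (hu : u < k) (hv0 : 0 < v)
    (hv : v ≤ k) (huv : u ≤ v)
    (hR : (2 + v - (s + u)) + (k + 2 - (s + v)) + (1 + u - s) ≤ R) :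
    KQ K (2 * k + 2) 3 (3 * k + 1) s R := by
  have c1 := ch_succ k
  have c2 : (k + 2).choose 2 = (k + 1).choose 2 + (k + 1) := ch_succ (k + 1)
  have c3 : (k + 3).choose 2 = (k + 2).choose 2 + (k + 2) := ch_succ (k + 2)
  have hT := sq_ch k
  have hkk : k * 2 ≤ k * k := Nat.mul_le_mul_left k (by omega)
  have a1 : 2 * k + 2 - k = k + 2 := by omega
  have a2 : 2 * k + 2 + 1 - k = k + 3 := by omega
  have a3 : 2 * k + 2 + 1 - (k + 1) = k + 2 := by omega
  refine chain3 k k (k + 1) 0 u v (by omega) (by omega) (by omega) (by omega) (by omega)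
    (cnd_of1 hu0 (by omega) (by omega) (by omega) ?_)
    (cnd_of1 hv0 (by omega) (by omega) (by omega) ?_) (cnd_of0 (by omega)) ?_
  · rw [a1]
    omega
  · rw [a1]
    omega
  · have d0 : dfc (2 * k + 2) (3 * k + 1) s k (k + 1) v u ≤ 2 + v - (s + u) := by
      unfold dfc
      rw [a2]
      omega
    have d1 : dfc (2 * k + 2) (3 * k + 1) s k k 0 v ≤ k + 2 - (s + v) := by
      unfold dfc
      rw [a2]
      omega
    have d2 : dfc (2 * k + 2) (3 * k + 1) s (k + 1) k u 0 ≤ 1 + u - s := by
      unfold dfc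
      rw [a3]
      omega
    exact (Nat.add_le_add (Nat.add_le_add d0 d1) d2).trans hR

/-- `n` odd, both sides at the last number -/
theorem b3c [CharZero K] {k : ℕ} (hk : 2 ≤ k) : SS K (2 * k + 2) 3 (3 * k + 1) := by
  have hkk := sq_ch k
  have hNV : NV (2 * k + 2) = 4 * k.choose 2 + 7 * k + 3 := by
    have h1 := two_NV (2 * k + 2)
    have h2 : (2 * k + 2) * (2 * k + 2 + 1) = 4 * (k * k) + 10 * k + 6 := by ring
    omega
  have hmx : (2 * k + 2 - 1) * (3 * k + 1) = 12 * k.choose 2 + 11 * k + 1 := by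
    have h2 : (2 * k + 2 - 1) = 2 * k + 1 := by omega
    have h3 : (2 * k + 1) * (3 * k + 1) = 6 * (k * k) + 5 * k + 1 := by ring
    rw [h2, h3]
    omega
  obtain ⟨s, hs1, hs2⟩ : ∃ s, 3 * s ≤ k + 5 ∧ k + 5 < 3 * s + 3 := ⟨(k + 5) / 3, by omega, by omega⟩
  refine SS.of_crit (s := s) (w := 4 * k.choose 2 + 4 * k + 2 - s) ?_ ?_ ?_ ?_ ?_
  · rw [hNV]
    omega
  · rw [hmx]
    omega
  · rw [hmx]
    omega
  · rw [hmx]
    refine b3c_aux (u := s - 1) (v := k + 2 - s) (by omega) (by omega) (by omega) (by omega)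
      (by omega) ?_
    omega
  · refine b3c_aux (u := min s (k + 1 - s)) (v := k + 1 - s) (by omega) (by omega) (by omega)
      (by omega) (by omega) ?_
    omega

theorem b3b_aux [CharZero K] {j s u v R : ℕ} (hj : 1 ≤ j) (hu : u ≤ j) (hv : v ≤ j)
    (hR : (2 + v - s) + (j + 4 + u - (s + v)) + (j + 2 - (s + u)) ≤ R) :
    KQ K (2 * j + 3) 3 (3 * j + 2) s R := by
  have c1 := ch_succ j
  have c2 : (j + 2).choose 2 = (j + 1).choose 2 + (j + 1) := ch_succ (j + 1)
  have c3 : (j + 3).choose 2 = (j + 2).choose 2 + (j + 2) := ch_succ (j + 2)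
  have c4 : (j + 4).choose 2 = (j + 3).choose 2 + (j + 3) := ch_succ (j + 3)
  have hT := sq_ch j
  have a1 : 2 * j + 3 - j = j + 3 := by omega
  have a2 : 2 * j + 3 - (j + 1) = j + 2 := by omega
  have a3 : 2 * j + 3 + 1 - (j + 1) = j + 3 := by omega
  have a4 : 2 * j + 3 + 1 - j = j + 4 := by omega
  have q1 : cnd (2 * j + 3) j (j + 1) u (j + 1) v := by
    rcases Nat.eq_zero_or_pos v with rfl | hv0
    · exact cnd_of0 (by omega)
    · refine cnd_of1 hv0 (by omega) (by omega) (by omega) ?_
      rw [a1]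
      omega
  have q2 : cnd (2 * j + 3) (j + 1) j 0 (j + 1) u := by
    rcases Nat.eq_zero_or_pos u with rfl | hu0
    · exact cnd_of0 (by omega)
    · refine cnd_of1 hu0 (by omega) (by omega) (by omega) ?_
      rw [a2]
      omega
  refine chain3 (j + 1) j (j + 1) u 0 v (by omega) (by omega) (by omega) (by omega) (by omega)
    (cnd_of0 (by omega)) q1 q2 ?_
  have d0 : dfc (2 * j + 3) (3 * j + 2) s (j + 1) (j + 1) v 0 ≤ 2 + v - s := by
    unfold dfc
    rw [a3]
    omega
  have d1 : dfc (2 * j + 3) (3 * j + 2) s j (j + 1) u v ≤ j + 4 + u - (s + v) := by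
    unfold dfc
    rw [a4]
    omega
  have d2 : dfc (2 * j + 3) (3 * j + 2) s (j + 1) j 0 u ≤ j + 2 - (s + u) := by
    unfold dfc
    rw [a3]
    omega
  exact (Nat.add_le_add (Nat.add_le_add d0 d1) d2).trans hR

/-- `n` even, both sides at the number before the last -/
theorem b3b [CharZero K] {j : ℕ} (hj : 1 ≤ j) : SS K (2 * j + 3) 3 (3 * j + 2) := by
  have hkk := sq_ch j
  have hNV : NV (2 * j + 3) = 4 * j.choose 2 + 9 * j + 6 := by
    have h1 := two_NV (2 * j + 3)
    have h2 : (2 * j + 3) * (2 * j + 3 + 1) = 4 * (j * j) + 14 * j + 12 := by ring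
    omega
  have hmx : (2 * j + 3 - 1) * (3 * j + 2) = 12 * j.choose 2 + 16 * j + 4 := by
    have h2 : (2 * j + 3 - 1) = 2 * j + 2 := by omega
    have h3 : (2 * j + 2) * (3 * j + 2) = 6 * (j * j) + 10 * j + 4 := by ring
    rw [h2, h3]
    omega
  obtain ⟨s, hs1, hs2⟩ : ∃ s, 3 * s ≤ 2 * j + 8 ∧ 2 * j + 8 < 3 * s + 3 :=
    ⟨(2 * j + 8) / 3, by omega, by omega⟩
  refine SS.of_crit (s := s) (w := 4 * j.choose 2 + 6 * j + 4 - s) ?_ ?_ ?_ ?_ ?_
  · rw [hNV]
    omega
  · rw [hmx]
    omega
  · rw [hmx]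
    omega
  · rw [hmx]
    refine b3b_aux hj (u := j + 2 - s) (v := s - 2) (by omega) (by omega) ?_
    omega
  · refine b3b_aux hj (u := j + 1 - s) (v := min (s - 1) j) (by omega) (by omega) ?_
    omega

/-- `n` even, the perfect number -/
theorem b3a [CharZero K] (k : ℕ) : SS K (2 * k + 1) 3 (3 * k) := by
  have hNV : NV (2 * k + 1) = 2 * (k * k) + 3 * k + 1 := by
    have h1 := two_NV (2 * k + 1)
    have h2 : (2 * k + 1) * (2 * k + 1 + 1) = 2 * (2 * (k * k) + 3 * k + 1) := by ring
    omega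
  have hmx : (2 * k + 1 - 1) * (3 * k) = 6 * (k * k) := by
    rw [Nat.add_sub_cancel]
    ring
  refine SS.of_crit (s := 1) (w := 2 * (k * k)) ?_ ?_ ?_ ?_ ?_
  · rw [hNV]
    omega
  · rw [hmx]
    omega
  · rw [hmx]
    omega
  · exact (b3_even k).mono (Nat.zero_le _)
  · exact (b3_even k).more_simple (by norm_num)

/-- large `x`, `n` even -/
theorem b3_big_even [CharZero K] {k x : ℕ} (hx : 3 * k + 1 ≤ x) : KQ K (2 * k + 1) 3 x 0 0 := by
  obtain ⟨t, rfl⟩ := Nat.exists_eq_add_of_le hx
  exact ((b3_even k).simple_to_full (s := 0)).more_full t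

/-- large `x`, `n` odd -/
theorem b3_big_odd [CharZero K] {k x : ℕ} (hx : 3 * k + 3 ≤ x) : KQ K (2 * k + 2) 3 x 0 0 := by
  obtain ⟨t, rfl⟩ := Nat.exists_eq_add_of_le hx
  exact ((b3_odd k).simple_to_full (s := 0)).more_full t

/-- negative: no room for simple points -/
theorem SS.neg [CharZero K] {m b x : ℕ} (hE : b * NV m < x * (m - 1 + b))
    (k : KQ K m b x 0 0) : SS K m b x := by
  rcases Nat.lt_or_ge (NV m) x with h | h
  · exact SS.big h
  · exact SS.of_neg hE h k

/-- the level `n = 4`; `h1` is the only seed -/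
theorem ss3_four [CharZero K] (h1 : KQ K 5 3 4 6 0) {x : ℕ} (hx : 3 ≤ x) : SS K 5 3 x := by
  have hN : NV 5 = 15 := rfl
  rcases Nat.lt_or_ge x 7 with h | h
  · have h' : x = 3 ∨ x = 4 ∨ x = 5 ∨ x = 6 := by omega
    rcases h' with rfl | rfl | rfl | rfl
    · have k1 : KQ K 5 3 3 8 0 := by
        refine chain3 1 1 1 0 0 0 rfl (by omega) (by omega) (by omega) (by omega)
          (cnd_of0 (by omega)) (cnd_of0 (by omega)) (cnd_of0 (by omega)) ?_
        decide
      exact SS.of_crit (s := 8) (w := 4) rfl (by norm_num) (by norm_num)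
        (k1.mono (Nat.zero_le _)) (k1.more_simple (by norm_num))
    · have k1 : KQ K 5 2 3 6 0 := by
        have h := pencil (K := K) (m := 5) (x := 3) (by norm_num) (by norm_num) 6
        exact h
      have k2 : KQ K 5 1 1 8 2 := by
        have h := one_one (K := K) 4 8
        exact h
      have k3 : KQ K 5 (2 + 1) (3 + 1) 5 (0 + 2) := KQ.blocks k1 k2
      exact SS.of_crit (s := 5) (w := 6) rfl (by norm_num) (by norm_num) k3 h1
    · exact b3b (K := K) (j := 1) le_rfl
    · exact b3a (K := K) 2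
  · refine SS.neg ?_ (b3_big_even (k := 2) (by omega))
    rw [hN]
    omega

/-- **Three forms.** -/
theorem ss3 [CharZero K] (h1 : KQ K 5 3 4 6 0) {n : ℕ} (hn : 4 ≤ n) :
    ∀ x, 3 ≤ x → 2 * x ≠ 3 * n + 1 → SS K (n + 1) 3 x := by
  induction n, hn using Nat.le_induction with
  | base =>
    intro x hx _
    exact ss3_four h1 hx
  | succ n hn ih =>
    intro x hx hg
    rcases Nat.even_or_odd' (n + 1) with ⟨k, hk | hk⟩
    · -- `n + 1 = 2 k`
      have hk3 : 3 ≤ k := by omega
      have hNV : NV (2 * k + 1) = 2 * (k * k) + 3 * k + 1 := by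
        have h1 := two_NV (2 * k + 1)
        have h2 : (2 * k + 1) * (2 * k + 1 + 1) = 2 * (2 * (k * k) + 3 * k + 1) := by ring
        omega
      have hNV' : NV (2 * k) = 2 * (k * k) + k := by
        have h1 := two_NV (2 * k)
        have h2 : (2 * k) * (2 * k + 1) = 2 * (2 * (k * k) + k) := by ring
        omega
      rcases Nat.lt_or_ge x (3 * k - 1) with h | h
      · have hE : x * (n + 1 - 1 + 3) ≤ 3 * NV (n + 1) := by
          rw [hk, hNV']
          have h2 : x * (2 * k - 1 + 3) ≤ (3 * k - 2) * (2 * k - 1 + 3) :=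
            Nat.mul_le_mul_right _ (by omega)
          obtain ⟨j, rfl⟩ : ∃ j, k = j + 1 := ⟨k - 1, by omega⟩
          have e1 : 3 * (j + 1) - 2 = 3 * j + 1 := by omega
          have e2 : 2 * (j + 1) - 1 + 3 = 2 * j + 4 := by omega
          rw [e1, e2] at h2
          rw [e2]
          refine h2.trans ?_
          have e3 : (3 * j + 1) * (2 * j + 4) = 6 * (j * j) + 14 * j + 4 := by ring
          have e4 : 3 * (2 * ((j + 1) * (j + 1)) + (j + 1)) = 6 * (j * j) + 15 * j + 9 := by ring
          omega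
        refine SS.step (by omega) (by norm_num) hx hE (ih x hx (by omega)) ?_
        intro ρ p hρ hp
        omega
      · rw [hk]
        rcases Nat.lt_or_ge x (3 * k + 1) with h' | h'
        · have h'' : x = 3 * k - 1 ∨ x = 3 * k := by omega
          rcases h'' with rfl | rfl
          · obtain ⟨j, rfl⟩ : ∃ j, k = j + 1 := ⟨k - 1, by omega⟩
            have e := b3b (K := K) (j := j) (by omega)
            have e1 : 3 * (j + 1) - 1 = 3 * j + 2 := by omega
            rw [e1]
            exact e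
          · exact b3a k
        · refine SS.neg ?_ (b3_big_even h')
          rw [hNV]
          have h2 : (3 * k + 1) * (2 * k + 1 - 1 + 3) ≤ x * (2 * k + 1 - 1 + 3) :=
            Nat.mul_le_mul_right _ h'
          refine lt_of_lt_of_le ?_ h2
          have e2 : 2 * k + 1 - 1 + 3 = 2 * k + 3 := by omega
          rw [e2]
          have e3 : (3 * k + 1) * (2 * k + 3) = 6 * (k * k) + 11 * k + 3 := by ring
          omega
    · -- `n + 1 = 2 k + 1`
      have hk3 : 2 ≤ k := by omega
      have hNV : NV (2 * k + 1 + 1) = 2 * (k * k) + 5 * k + 3 := by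
        have h1 := two_NV (2 * k + 1 + 1)
        have h2 : (2 * k + 1 + 1) * (2 * k + 1 + 1 + 1) = 2 * (2 * (k * k) + 5 * k + 3) := by ring
        omega
      have hNV' : NV (2 * k + 1) = 2 * (k * k) + 3 * k + 1 := by
        have h1 := two_NV (2 * k + 1)
        have h2 : (2 * k + 1) * (2 * k + 1 + 1) = 2 * (2 * (k * k) + 3 * k + 1) := by ring
        omega
      rcases Nat.lt_or_ge x (3 * k + 1) with h | h
      · have hE : x * (n + 1 - 1 + 3) ≤ 3 * NV (n + 1) := by
          rw [hk, hNV']
          have h2 : x * (2 * k + 1 - 1 + 3) ≤ (3 * k) * (2 * k + 1 - 1 + 3) :=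
            Nat.mul_le_mul_right _ (by omega)
          refine h2.trans ?_
          have e2 : 2 * k + 1 - 1 + 3 = 2 * k + 3 := by omega
          rw [e2]
          have e3 : (3 * k) * (2 * k + 3) = 6 * (k * k) + 9 * k := by ring
          omega
        refine SS.step (by omega) (by norm_num) hx hE (ih x hx (by omega)) ?_
        intro ρ p hρ hp
        omega
      · rw [hk]
        rcases Nat.lt_or_ge x (3 * k + 3) with h' | h'
        · have h'' : x = 3 * k + 1 := by omega
          subst h''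
          exact b3c hk3
        · refine SS.neg ?_ (b3_big_odd h')
          rw [hNV]
          have h2 : (3 * k + 3) * (2 * k + 1 + 1 - 1 + 3) ≤ x * (2 * k + 1 + 1 - 1 + 3) :=
            Nat.mul_le_mul_right _ h'
          refine lt_of_lt_of_le ?_ h2
          have e2 : 2 * k + 1 + 1 - 1 + 3 = 2 * k + 4 := by omega
          rw [e2]
          have e3 : (3 * k + 3) * (2 * k + 4) = 6 * (k * k) + 18 * k + 12 := by ring
          omega

end

end Pool.Agent.WarR


end

section

/-!
# The chain assignment with numbers (MP_db021c_ag, degree 2)   (helper42)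

`gre r F = (t, e)`: `F` pairs are taken from the group of `r` points as the `t` largest stars `r-1, r-2, ..` and one
partial star of size `e` (`e = 0`: none). `chain_flow`: the group `k` sends `F k` pairs to the form `k + 2` and the
others to the form `k + 1`.
-/

set_option autoImplicit false

open Module

namespace Pool.Agent.WarR

open Pool.Agent.War

/-- greedy: the number of complete stars and the size of the partial star -/
def gre : ℕ → ℕ → ℕ × ℕ
  | 0, F => (0, F)
  | r + 1, F => if 0 < r ∧ r ≤ F then ((gre r (F - r)).1 + 1, (gre r (F - r)).2) else (0, F)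

/-- number of complete stars -/
def gt (r F : ℕ) : ℕ := (gre r F).1

/-- number of stars -/
def gs (r F : ℕ) : ℕ := (gre r F).1 + if (gre r F).2 = 0 then 0 else 1

/-- the stars -/
theorem gre_set (r : ℕ) : ∀ F : ℕ, 2 * F ≤ r * (r - 1) → ∃ S : Finset (Fin r),
    cs S = F ∧ S.card = gs r F ∧ ∀ i : Fin r, (i : ℕ) < gt r F → i ∈ S := by
  induction r with
  | zero =>
    intro F hF
    have : F = 0 := by omega
    subst this
    exact ⟨∅, rfl, rfl, fun i => i.elim0⟩
  | succ r ih =>
    intro F hF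
    by_cases h : 0 < r ∧ r ≤ F
    · obtain ⟨S, h1, h2, h3⟩ := ih (F - r) (by
        have : (r + 1) * (r + 1 - 1) = r * (r - 1) + 2 * r := by
          obtain ⟨s, rfl⟩ : ∃ s, r = s + 1 := ⟨r - 1, by omega⟩
          simp only [Nat.add_sub_cancel]
          ring
        omega)
      refine ⟨insert 0 (S.map (Fin.succEmb r)), ?_, ?_, ?_⟩
      · have h4 : cs (S.map (Fin.succEmb r)) = cs S := by
          unfold cs
          rw [Finset.sum_map]
          refine Finset.sum_congr rfl fun i _ => ?_
          simp only [Fin.coe_succEmb, Fin.val_succ]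
          omega
        have h5 : cs (insert 0 (S.map (Fin.succEmb r))) = r + cs (S.map (Fin.succEmb r)) := by
          unfold cs
          rw [Finset.sum_insert (by simp [Fin.succ_ne_zero])]
          simp
        rw [h5, h4, h1]
        omega
      · rw [Finset.card_insert_of_notMem (by simp [Fin.succ_ne_zero]), Finset.card_map, h2]
        unfold gs
        rw [gre, if_pos h]
        simp only
        omega
      · intro i hi
        refine Fin.cases (fun _ => ?_) (fun j hj => ?_) i hi
        · exact Finset.mem_insert_self _ _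
        · refine Finset.mem_insert_of_mem (Finset.mem_map.2 ⟨j, h3 j ?_, rfl⟩)
          have h6 : gt (r + 1) F = gt r (F - r) + 1 := by
            unfold gt
            rw [gre, if_pos h]
          rw [h6, Fin.val_succ] at hj
          omega
    · have hg : gre (r + 1) F = (0, F) := by rw [gre, if_neg h]
      by_cases h0 : F = 0
      · subst h0
        refine ⟨∅, rfl, ?_, ?_⟩
        · unfold gs
          rw [hg]
          simp
        · intro i hi
          unfold gt at hi
          rw [hg] at hi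
          exact absurd hi (Nat.not_lt_zero _)
      · have hr : 0 < r := by
          rcases Nat.eq_zero_or_pos r with h1 | h1
          · subst h1
            simp at hF
            exact absurd hF h0
          · exact h1
        have hFr : F < r := by
          by_contra hc
          exact h ⟨hr, by omega⟩
        refine ⟨{⟨r - F, by omega⟩}, ?_, ?_, ?_⟩
        · unfold cs
          rw [Finset.sum_singleton]
          simp only
          omega
        · unfold gs
          rw [hg, Finset.card_singleton]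
          simp [h0]
        · intro i hi
          unfold gt at hi
          rw [hg] at hi
          exact absurd hi (Nat.not_lt_zero _)

/-- upper bound for the number of the stars -/
theorem gs_le (r : ℕ) : ∀ F t : ℕ, 2 * F ≤ t * (2 * r - 1 - t) → t ≤ r → gs r F ≤ t := by
  induction r with
  | zero =>
    intro F t h ht
    have : t = 0 := by omega
    subst this
    have : F = 0 := by omega
    subst this
    simp [gs, gre]
  | succ r ih =>
    intro F t h ht
    by_cases hc : 0 < r ∧ r ≤ F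
    · have e : gs (r + 1) F = gs r (F - r) + 1 := by
        unfold gs
        rw [gre, if_pos hc]
        simp only
        omega
      rw [e]
      rcases t with _ | t
      · omega
      · have h2 : gs r (F - r) ≤ t := by
          refine ih (F - r) t ?_ (by omega)
          have e1 : (t + 1) * (2 * (r + 1) - 1 - (t + 1)) ≤ t * (2 * r - 1 - t) + 2 * r := by
            obtain ⟨u, hu⟩ : ∃ u, r = t + u := ⟨r - t, by omega⟩
            subst hu
            rcases Nat.eq_zero_or_pos t with h5 | h5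
            · subst h5
              simp
              omega
            · have a1 : 2 * (t + u + 1) - 1 - (t + 1) = t + 2 * u := by omega
              have a2 : 2 * (t + u) - 1 - t = t + 2 * u - 1 := by omega
              rw [a1, a2]
              obtain ⟨v, hv⟩ : ∃ v, t + 2 * u = v + 1 := ⟨t + 2 * u - 1, by omega⟩
              rw [hv, Nat.add_sub_cancel]
              have h6 : 2 * (t + u) = t + (v + 1) := by omega
              rw [h6]
              apply le_of_eq
              ring
          omega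
        omega
    · unfold gs
      rw [gre, if_neg hc]
      simp only
      by_cases h0 : F = 0
      · simp [h0]
      · rw [if_neg h0]
        rcases t with _ | t
        · omega
        · omega

/-- lower bound for the number of the complete stars -/
theorem le_gt (r : ℕ) : ∀ F t : ℕ, t * (2 * r - 1 - t) ≤ 2 * F → t < r → t ≤ gt r F := by
  induction r with
  | zero =>
    intro F t h ht
    omega
  | succ r ih =>
    intro F t h ht
    rcases t with _ | t
    · exact Nat.zero_le _
    · have e1 : (t + 1) * (2 * (r + 1) - 1 - (t + 1)) = t * (2 * r - 1 - t) + 2 * r := by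
        obtain ⟨u, hu⟩ : ∃ u, r = t + u + 1 := ⟨r - t - 1, by omega⟩
        subst hu
        have a1 : 2 * (t + u + 1 + 1) - 1 - (t + 1) = t + 2 * u + 2 := by omega
        have a2 : 2 * (t + u + 1) - 1 - t = t + 2 * u + 1 := by omega
        rw [a1, a2]
        ring
      have hrF : r ≤ F := by
        have : 2 * r ≤ 2 * F := by omega
        omega
      have hr : 0 < r := by omega
      have e2 : gt (r + 1) F = gt r (F - r) + 1 := by
        unfold gt
        rw [gre, if_pos ⟨hr, hrF⟩]
      rw [e2]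
      have := ih (F - r) t (by omega) (by omega)
      omega

/-- the rank condition for the form of a group of `r₀` points; the group before has `r₁` points and sends `F₁` pairs
on, the group before that has `r₂` points and sends `F₂` pairs to this form -/
def RC (m r₀ r₁ r₂ F₁ F₂ : ℕ) : Prop :=
  r₀ + r₁ + r₂ ≤ m ∨ (F₂ = 0 ∧ r₀ + (r₁ - gt r₁ F₁) ≤ m) ∨
    (r₀ + r₂ ≤ m ∧ r₀ + (r₁ - gt r₁ F₁) + gs r₂ F₂ ≤ m ∧
      (r₁ - gt r₁ F₁) + (r₂ - gs r₂ F₂) + (r₁.choose 2 - F₁) ≤ (m - r₀ - gs r₂ F₂ + 1).choose 2)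

instance (m r₀ r₁ r₂ F₁ F₂ : ℕ) : Decidable (RC m r₀ r₁ r₂ F₁ F₂) := by
  unfold RC
  infer_instance

theorem gs_zero (r : ℕ) : gs r 0 = 0 := by
  have := gs_le r 0 0 (by simp) (Nat.zero_le _)
  omega

/-- **The chain theorem**, `Fin b` version. -/
theorem chain_fin {K : Type*} [Field K] [CharZero K] {m b y : ℕ} [NeZero b] (hb : 3 ≤ b)
    (r F : Fin b → ℕ) (hF : ∀ k, 2 * F k ≤ r k * (r k - 1)) (hr : ∀ k, r k ≤ m)
    (hR : ∀ k, RC m (r k) (r (k - 1)) (r (k - 2)) (F (k - 1)) (F (k - 2))) :
    KQ K m b (∑ k, r k) y (∑ k, ((m + 1 - r k).choose 2 -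
      ((∑ j, r j - r k) + y + F (k - 2) + ((r (k - 1)).choose 2 - F (k - 1))))) := by
  choose S h1 h2 h3 using fun k => gre_set (r k) (F k) (hF k)
  have h4 : ∀ k, cs (S k)ᶜ = (r k).choose 2 - F k := by
    intro k
    have := cs_add_compl (S k)
    rw [h1] at this
    omega
  have key := chain_sets (K := K) (m := m) (y := y) hb r S (fun k => gt (r k) (F k)) h3 hr (by
    intro k
    rcases hR k with h | ⟨h, h'⟩ | ⟨h, h', h''⟩
    · exact Or.inl h
    · refine Or.inr (Or.inl ⟨?_, h'⟩)
      have : (S (k - 2)).card = 0 := by rw [h2, h, gs_zero]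
      exact Finset.card_eq_zero.1 this
    · refine Or.inr (Or.inr ⟨h, ?_, ?_⟩)
      · rw [h2]
        exact h'
      · rw [h2, h4]
        exact h'')
  have e : ∀ k, (m + 1 - r k).choose 2 - ((∑ j, r j - r k) + y + cs (S (k - 2)) +
      cs (S (k - 1))ᶜ) = (m + 1 - r k).choose 2 - ((∑ j, r j - r k) + y + F (k - 2) +
        ((r (k - 1)).choose 2 - F (k - 1))) := by
    intro k
    rw [h1, h4]
  rw [Finset.sum_congr rfl fun k _ => e k] at key
  exact key

theorem per_mod {b : ℕ} {r : ℕ → ℕ} (h : ∀ k, r (k + b) = r k) (k : ℕ) : r (k % b) = r k := by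
  have h1 : ∀ a j, r (j + b * a) = r j := by
    intro a
    induction a with
    | zero => intro j; simp
    | succ a ih =>
      intro j
      rw [show j + b * (a + 1) = (j + b * a) + b by ring, h, ih]
  have h2 := h1 (k / b) (k % b)
  rwa [Nat.mod_add_div, eq_comm] at h2

/-- **The chain theorem**, periodic functions. -/
theorem chain_per {K : Type*} [Field K] [CharZero K] {m b x y : ℕ} (hb : 3 ≤ b)
    (r F : ℕ → ℕ) (rp : ∀ k, r (k + b) = r k) (Fp : ∀ k, F (k + b) = F k)
    (hx : ∑ k ∈ Finset.range b, r k = x)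
    (hF : ∀ k, 2 * F k ≤ r k * (r k - 1)) (hr : ∀ k, r k ≤ m)
    (hR : ∀ k, RC m (r (k + 2)) (r (k + 1)) (r k) (F (k + 1)) (F k)) :
    KQ K m b x y (∑ k ∈ Finset.range b, ((m + 1 - r (k + 2)).choose 2 -
      ((x - r (k + 2)) + y + F k + ((r (k + 1)).choose 2 - F (k + 1))))) := by
  have hne : NeZero b := ⟨by omega⟩
  have c1 : ∀ (f : ℕ → ℕ), (∀ k, f (k + b) = f k) → ∀ k : Fin b,
      f ((k - 1 : Fin b) : ℕ) = f ((k : ℕ) + b - 1) := by
    intro f hf k
    have h1 : ((k - 1 : Fin b) : ℕ) = ((k : ℕ) + b - 1) % b := by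
      have h2 : ((1 : Fin b) : ℕ) = 1 := by
        rw [Fin.val_one']
        exact Nat.mod_eq_of_lt (by omega)
      rw [Fin.sub_def]
      simp only [h2]
      congr 1
      omega
    rw [h1, per_mod hf]
  have c2 : ∀ (f : ℕ → ℕ), (∀ k, f (k + b) = f k) → ∀ k : Fin b,
      f ((k - 2 : Fin b) : ℕ) = f ((k : ℕ) + b - 2) := by
    intro f hf k
    have h1 : ((k - 2 : Fin b) : ℕ) = ((k : ℕ) + b - 2) % b := by
      have h2 : ((2 : Fin b) : ℕ) = 2 := by
        have : ((2 : Fin b) : ℕ) = 2 % b := rfl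
        rw [this]
        exact Nat.mod_eq_of_lt (by omega)
      rw [Fin.sub_def]
      simp only [h2]
      congr 1
      omega
    rw [h1, per_mod hf]
  have key := chain_fin (K := K) (m := m) (y := y) hb (fun k : Fin b => r k) (fun k : Fin b => F k)
    (fun k => hF _) (fun k => hr _) (by
      intro k
      simp only [c1 r rp, c2 r rp, c1 F Fp, c2 F Fp]
      have h := hR ((k : ℕ) + b - 2)
      have e1 : (k : ℕ) + b - 2 + 1 = (k : ℕ) + b - 1 := by omega
      have e2 : (k : ℕ) + b - 2 + 2 = (k : ℕ) + b := by omega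
      rw [e1, e2, rp] at h
      exact h)
  simp only [c1 r rp, c1 F Fp, c2 F Fp] at key
  rw [Fin.sum_univ_eq_sum_range (fun k => r k) b, hx] at key
  have e3 := Fin.sum_univ_eq_sum_range (fun k => (m + 1 - r k).choose 2 -
    (x - r k + y + F (k + b - 2) + ((r (k + b - 1)).choose 2 - F (k + b - 1)))) b
  rw [e3] at key
  have e4 : ∑ k ∈ Finset.range b, ((m + 1 - r k).choose 2 -
      (x - r k + y + F (k + b - 2) + ((r (k + b - 1)).choose 2 - F (k + b - 1)))) =
      ∑ k ∈ Finset.range b, ((m + 1 - r (k + 2)).choose 2 -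
      ((x - r (k + 2)) + y + F k + ((r (k + 1)).choose 2 - F (k + 1)))) := by
    have hper : ∀ G : ℕ → ℕ, (∀ k, G (k + b) = G k) →
        ∑ k ∈ Finset.range b, G k = ∑ k ∈ Finset.range b, G (k + 2) := by
      intro G hG
      have h1 : ∀ G : ℕ → ℕ, (∀ k, G (k + b) = G k) →
          ∑ k ∈ Finset.range b, G k = ∑ k ∈ Finset.range b, G (k + 1) := by
        intro G hG
        have h2 := Finset.sum_range_succ G b
        have h3 := Finset.sum_range_succ' G b
        have h4 := hG 0
        rw [zero_add] at h4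
        omega
      rw [h1 G hG, h1 (fun k => G (k + 1)) (fun k => by rw [add_right_comm, hG])]
    let G : ℕ → ℕ := fun k => (m + 1 - r k).choose 2 -
      (x - r k + y + F (k + b - 2) + ((r (k + b - 1)).choose 2 - F (k + b - 1)))
    have hG : ∀ k, G (k + b) = G k := by
      intro k
      simp only [G]
      have e5 : k + b + b - 2 = (k + b - 2) + b := by omega
      have e6 : k + b + b - 1 = (k + b - 1) + b := by omega
      rw [rp, e5, e6, Fp, Fp, rp]
    refine (hper G hG).trans (Finset.sum_congr rfl fun k _ => ?_)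
    simp only [G]
    have e5 : k + 2 + b - 2 = k + b := by omega
    have e6 : k + 2 + b - 1 = (k + 1) + b := by omega
    rw [e5, e6, Fp, Fp, rp]
  rw [e4] at key
  exact key

/-- **The chain theorem**, for a flow: `n + 1 = m`, `x + y + c = N`. -/
theorem chain_flow {K : Type*} [Field K] [CharZero K] {n b x y c : ℕ} (hb : 3 ≤ b)
    (r F W : ℕ → ℕ) (rp : ∀ k, r (k + b) = r k) (Fp : ∀ k, F (k + b) = F k)
    (hx : ∑ k ∈ Finset.range b, r k = x) (hc : x + y + c = (n + 2).choose 2)
    (hF : ∀ k, 2 * F k ≤ r k * (r k - 1)) (hr : ∀ k, r k ≤ n + 1)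
    (hW : ∀ k, F k + (r (k + 1)).choose 2 + n * r (k + 2) =
      W (k + 2) + (r (k + 2)).choose 2 + F (k + 1))
    (hR : ∀ k, RC (n + 1) (r (k + 2)) (r (k + 1)) (r k) (F (k + 1)) (F k)) :
    KQ K (n + 1) b x y (∑ k ∈ Finset.range b, (c - W (k + 2))) := by
  have key := chain_per (K := K) (m := n + 1) (y := y) hb r F rp Fp hx hF hr hR
  have e : ∀ k ∈ Finset.range b, (n + 1 + 1 - r (k + 2)).choose 2 -
      ((x - r (k + 2)) + y + F k + ((r (k + 1)).choose 2 - F (k + 1))) = c - W (k + 2) := by
    intro k _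
    have h1 := hF (k + 1)
    have h2 : (r (k + 1)).choose 2 * 2 = r (k + 1) * (r (k + 1) - 1) := by
      rw [Nat.choose_two_right, Nat.div_mul_cancel (Nat.even_mul_pred_self _).two_dvd]
    have h3 := hW k
    have h4 := hr (k + 2)
    have hk : r (k + 2) ≤ x := by
      rw [← hx, ← per_mod rp (k + 2)]
      exact Finset.single_le_sum (fun _ _ => Nat.zero_le _)
        (Finset.mem_range.2 (Nat.mod_lt _ (by omega)))
    -- C(n+2-ρ,2) + ρ(n+1) = N + C(ρ,2)
    have h5 : (n + 1 + 1 - r (k + 2)).choose 2 + r (k + 2) * (n + 1) =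
        (n + 2).choose 2 + (r (k + 2)).choose 2 := by
      obtain ⟨a, ha⟩ : ∃ a, n + 1 = r (k + 2) + a := ⟨n + 1 - r (k + 2), by omega⟩
      have e1 : n + 1 + 1 - r (k + 2) = a + 1 := by omega
      have e2 : n + 2 = r (k + 2) + a + 1 := by omega
      rw [e1, ha, e2]
      generalize r (k + 2) = ρ
      have t : ∀ z : ℕ, (z + 1).choose 2 * 2 = (z + 1) * z := by
        intro z
        rw [Nat.choose_two_right, Nat.div_mul_cancel (Nat.even_mul_pred_self _).two_dvd]
        simp
      have t1 := t a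
      have t2 := t (ρ + a)
      rcases ρ with _ | ρ
      · simp
      · have t3 := t ρ
        have : ((a + 1).choose 2 + (ρ + 1) * (ρ + 1 + a)) * 2 =
            ((ρ + 1 + a + 1).choose 2 + (ρ + 1).choose 2) * 2 := by
          calc ((a + 1).choose 2 + (ρ + 1) * (ρ + 1 + a)) * 2
              = (a + 1).choose 2 * 2 + (ρ + 1) * (ρ + 1 + a) * 2 := by ring
            _ = (ρ + 1 + a + 1) * (ρ + 1 + a) + (ρ + 1) * ρ := by rw [t1]; ring
            _ = (ρ + 1 + a + 1).choose 2 * 2 + (ρ + 1).choose 2 * 2 := by rw [t2, t3]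
            _ = ((ρ + 1 + a + 1).choose 2 + (ρ + 1).choose 2) * 2 := by ring
        exact Nat.eq_of_mul_eq_mul_right (by norm_num) this
    have h6 : r (k + 2) * (n + 1) = n * r (k + 2) + r (k + 2) := by ring
    omega
  rw [Finset.sum_congr rfl e] at key
  exact key

/-- both sides -/
theorem chain_sup {K : Type*} [Field K] [CharZero K] {n b x y c : ℕ} (hb : 3 ≤ b)
    (r F W : ℕ → ℕ) (rp : ∀ k, r (k + b) = r k) (Fp : ∀ k, F (k + b) = F k)
    (hx : ∑ k ∈ Finset.range b, r k = x) (hc : x + y + c = (n + 2).choose 2)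
    (hF : ∀ k, 2 * F k ≤ r k * (r k - 1)) (hr : ∀ k, r k ≤ n + 1)
    (hW : ∀ k, F k + (r (k + 1)).choose 2 + n * r (k + 2) =
      W (k + 2) + (r (k + 2)).choose 2 + F (k + 1))
    (hR : ∀ k, RC (n + 1) (r (k + 2)) (r (k + 1)) (r k) (F (k + 1)) (F k))
    (hs : ∀ k, c ≤ W k) : KQ K (n + 1) b x y 0 := by
  have key := chain_flow (K := K) hb r F W rp Fp hx hc hF hr hW hR
  rwa [Finset.sum_eq_zero fun k _ => Nat.sub_eq_zero_of_le (hs _)] at key

theorem chain_sub {K : Type*} [Field K] [CharZero K] {n b x y c : ℕ} (hb : 3 ≤ b)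
    (r F W : ℕ → ℕ) (rp : ∀ k, r (k + b) = r k) (Fp : ∀ k, F (k + b) = F k)
    (Wp : ∀ k, W (k + b) = W k)
    (hx : ∑ k ∈ Finset.range b, r k = x) (hc : x + y + c = (n + 2).choose 2)
    (hF : ∀ k, 2 * F k ≤ r k * (r k - 1)) (hr : ∀ k, r k ≤ n + 1)
    (hW : ∀ k, F k + (r (k + 1)).choose 2 + n * r (k + 2) =
      W (k + 2) + (r (k + 2)).choose 2 + F (k + 1))
    (hR : ∀ k, RC (n + 1) (r (k + 2)) (r (k + 1)) (r k) (F (k + 1)) (F k))
    (hs : ∀ k, W k ≤ c) (hWs : ∑ k ∈ Finset.range b, W k = n * x) :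
    KQ K (n + 1) b x y (b * c - n * x) := by
  have key := chain_flow (K := K) hb r F W rp Fp hx hc hF hr hW hR
  have h1 : ∑ k ∈ Finset.range b, W (k + 2) = ∑ k ∈ Finset.range b, W k := by
    have h1 : ∀ G : ℕ → ℕ, (∀ k, G (k + b) = G k) →
        ∑ k ∈ Finset.range b, G k = ∑ k ∈ Finset.range b, G (k + 1) := by
      intro G hG
      have h2 := Finset.sum_range_succ G b
      have h3 := Finset.sum_range_succ' G b
      have h4 := hG 0
      rw [zero_add] at h4
      omega
    rw [h1 W Wp, h1 (fun k => W (k + 1)) (fun k => by rw [add_right_comm, Wp])]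
  have h2 : ∑ k ∈ Finset.range b, (c - W (k + 2)) + ∑ k ∈ Finset.range b, W (k + 2) = b * c := by
    rw [← Finset.sum_add_distrib, Finset.sum_congr rfl fun k _ => Nat.sub_add_cancel (hs (k + 2))]
    simp
  have h3 : ∑ k ∈ Finset.range b, (c - W (k + 2)) = b * c - n * x := by
    rw [h1, hWs] at h2
    omega
  rwa [h3] at key

end Pool.Agent.WarR


end
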