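import Mathlib
import Pool.Agent.CLAM.C03

/-! Parts: WarR.StarT, WarR.S4, WarR.Cert2, WarR.SeedT -/

section

/-!
# The star limit with plane transfers (MP_db021c_ag, degree 2)   (helper31)

As in `Star.lean`: the vectors of the full points are `e_(g i) + ε η ^ (ord i) e_(lab i)`. Let `p, q` be two full
points of one group, `ord p < ord q`, let `w` be another point (full or simple) and let `w + z p + z q` be a further
point of the configuration. Then for `ε η ≠ 0` (and `2 ≠ 0`)
`F_(lab p)(z p, w) = η ^ (ord q - ord p) F_(lab q)(z p, w)`, so in the limit the form `lab p` gets the additional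
condition `F_(lab p)(z p, w) = 0`, while the form `g p` loses the condition at the point `w + z p + z q`
(a transfer of exactly one condition from the form `g p` to the form `lab p`).

`star_param`: the points depend linearly on parameters `c` (with constant coefficients), and the decoupled system of
every form `k` may be estimated at its own parameters `c k`.
-/

set_option autoImplicit false

open Module

namespace Pool.Agent.WarR

open Pool.Agent.War

section StarT

variable {K : Type*} [Field K]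

/-- the decoupled system for the form `k` with the transfers `t : T` -/
def SDT {m b : ℕ} {I J T : Type} (z : I → Fin m → K) (y : J → Fin m → K) (g lab : I → Fin b)
    (ord : I → ℕ) (p : T → I) (w : T → Fin m → K) (k : Fin b) : Submodule K (SF K m) :=
  SD z y g lab ord k ⊓ ⨅ t : {t : T // lab (p t) = k},
    LinearMap.ker ((bfL (z (p t.1)) (w t.1)).comp (SF K m).subtype)

theorem mem_SDT {m b : ℕ} {I J T : Type} {z : I → Fin m → K} {y : J → Fin m → K}
    {g lab : I → Fin b} {ord : I → ℕ} {p : T → I} {w : T → Fin m → K} {k : Fin b} {A : SF K m} :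
    A ∈ SDT z y g lab ord p w k ↔ A ∈ SD z y g lab ord k ∧
      ∀ t, lab (p t) = k → bf (A : Fin m → Fin m → K) (z (p t)) (w t) = 0 := by
  simp only [SDT, Submodule.mem_inf, Submodule.mem_iInf, LinearMap.mem_ker,
    LinearMap.comp_apply, Submodule.subtype_apply, bfL_apply, Subtype.forall]

/-- the family of systems with the transfers -/
def starTZ {m b : ℕ} {I J T : Type} (z : I → Fin m → K) (y : J → Fin m → K) (g lab : I → Fin b)
    (ord : I → ℕ) (p q : T → I) (w : T → Fin m → K) (e : K × K) :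
    Submodule K (Fin b → SF K m) :=
  starZ z y g lab ord e ⊓
    ⨅ t : T, LinearMap.ker (dvF (starC lab ord e (p t) (q t)) (z (p t)) (w t))

theorem PK_starTZ {m b : ℕ} {I J T : Type} [Finite I] [Finite J] [Finite T] (z : I → Fin m → K)
    (y : J → Fin m → K) (g lab : I → Fin b) (ord : I → ℕ) (p q : T → I) (w : T → Fin m → K) :
    PK fun e : K × K => starTZ z y g lab ord p q w e := by
  have hη : LP fun e : K × K => e.2 := LP.linear (LinearMap.snd K K K)
  refine (PK_starZ z y g lab ord).inf (PK.iInf fun t => PK.one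
    (φ := fun e : K × K => dvF (starC lab ord e (p t) (q t)) (z (p t)) (w t)) fun F => ?_)
  simp only [dvF_apply, starC]
  exact LP.sum _ fun j _ => ((LP.const _).add
    (((LP.const _).mul (LP_pow hη _)).mul (LP.const _))).mul (LP.const _)

theorem mem_starTZ {m b : ℕ} {I J T : Type} {z : I → Fin m → K} {y : J → Fin m → K}
    {g lab : I → Fin b} {ord : I → ℕ} {p q : T → I} {w : T → Fin m → K} {e : K × K}
    {F : Fin b → SF K m} :
    F ∈ starTZ z y g lab ord p q w e ↔ F ∈ starZ z y g lab ord e ∧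
    ∀ t, bf (F (lab (p t)) : Fin m → Fin m → K) (z (p t)) (w t) +
      (-1) * e.2 ^ (ord (q t) - ord (p t)) *
        bf (F (lab (q t)) : Fin m → Fin m → K) (z (p t)) (w t) = 0 := by
  have e' : ∀ t : T, (∑ j, starC lab ord e (p t) (q t) j *
      bf (F j : Fin m → Fin m → K) (z (p t)) (w t)) =
      bf (F (lab (p t)) : Fin m → Fin m → K) (z (p t)) (w t) +
      (-1) * e.2 ^ (ord (q t) - ord (p t)) *
        bf (F (lab (q t)) : Fin m → Fin m → K) (z (p t)) (w t) := by
    intro t
    simp only [starC]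
    rw [sum_two (lab (p t)) (lab (q t)) ((-1) * e.2 ^ (ord (q t) - ord (p t)))
      (fun j => bf (F j : Fin m → Fin m → K) (z (p t)) (w t))]
  simp only [starTZ, Submodule.mem_inf, Submodule.mem_iInf, LinearMap.mem_ker, dvF_apply, e']

theorem finrank_starTZ_zero {m b : ℕ} {I J T : Type} (z : I → Fin m → K)
    (y : J → Fin m → K) (g lab : I → Fin b) (ord : I → ℕ) (p q : T → I) (w : T → Fin m → K)
    (hpq : ∀ t, g (p t) = g (q t) ∧ ord (p t) < ord (q t)) (r : Fin b → ℕ)
    (h : ∀ k, finrank K (SDT z y g lab ord p w k) ≤ r k) :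
    finrank K (starTZ z y g lab ord p q w (0 : K × K)) ≤ ∑ k, r k := by
  have hm : ∀ F : Fin b → SF K m, F ∈ starTZ z y g lab ord p q w (0 : K × K) →
      ∀ k, F k ∈ SDT z y g lab ord p w k := by
    intro F hF k
    obtain ⟨hF', h5⟩ := mem_starTZ.1 hF
    obtain ⟨⟨h1, h2⟩, h3, h4⟩ := mem_starZ.1 hF'
    refine mem_SDT.2 ⟨mem_SD.2 ⟨fun i => h1 i k, fun l => h2 l k, fun i hi v => ?_,
      fun i i' e1 e2 e3 => ?_⟩, fun t ht => ?_⟩
    · have h6 := h3 i v
      rw [hi] at h6
      simpa using h6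
    · have h6 := h4 i i' e1 e2
      have h7 : ord i' - ord i ≠ 0 := by omega
      rw [e3] at h6
      simpa [h7] using h6
    · have h6 := h5 t
      have h7 : ord (q t) - ord (p t) ≠ 0 := by have := (hpq t).2; omega
      rw [ht] at h6
      simpa [h7] using h6
  let L : starTZ z y g lab ord p q w (0 : K × K) →ₗ[K]
      ((k : Fin b) → SDT z y g lab ord p w k) :=
    LinearMap.pi fun k => LinearMap.codRestrict (SDT z y g lab ord p w k)
      ((LinearMap.proj k : (Fin b → SF K m) →ₗ[K] SF K m).comp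
        (starTZ z y g lab ord p q w (0 : K × K)).subtype) fun F => hm F.1 F.2 k
  have hL : Function.Injective L := by
    intro F G hFG
    apply Subtype.ext
    funext k
    have h1 := congrFun hFG k
    exact congrArg Subtype.val h1
  have h1 := LinearMap.finrank_le_finrank_of_injective hL
  have hf : ∀ k : Fin b, Module.Free K (SDT z y g lab ord p w k) := fun k =>
    Module.Free.of_divisionRing K (SDT z y g lab ord p w k)
  rw [Module.finrank_pi_fintype] at h1
  exact h1.trans (Finset.sum_le_sum fun k _ => h k)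

theorem bf_add_left {m : ℕ} (A : Fin m → Fin m → K) (x y z : Fin m → K) :
    bf A (x + y) z = bf A x z + bf A y z := by
  simp only [bf, Pi.add_apply, add_mul, Finset.sum_add_distrib]

/-- the value at `w + x + y` -/
theorem bf_three {m : ℕ} {A : Fin m → Fin m → K} (hA : A ∈ SF K m) (w x y : Fin m → K)
    (hw : bf A w w = 0) (hx : bf A x x = 0) (hy : bf A y y = 0)
    (h : bf A (w + x + y) (w + x + y) = 0) :
    2 * (bf A x w + bf A y w + bf A x y) = 0 := by
  simp only [bf_add_left, bf_add_right] at h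
  rw [bf_comm hA w x, bf_comm hA w y, bf_comm hA y x, hw, hx, hy] at h
  linear_combination h

theorem ZK_le_starTZ {m b : ℕ} {I J T : Type} (h2 : (2 : K) ≠ 0) (z : I → Fin m → K)
    (y : J → Fin m → K) (g lab : I → Fin b) (ord : I → ℕ) (p q : T → I) (w : T → Fin m → K)
    (hpq : ∀ t, g (p t) = g (q t) ∧ ord (p t) < ord (q t))
    (hw : ∀ t, ∃ s : I ⊕ J, Sum.elim z y s = w t)
    (hu : ∀ t, ∃ s : I ⊕ J, Sum.elim z y s = w t + z (p t) + z (q t))
    (e : K × K) (he1 : e.1 ≠ 0) (he2 : e.2 ≠ 0) :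
    ZK (z, starA g lab ord e, y) ≤ starTZ z y g lab ord p q w e := by
  intro F hF
  have hF' := ZK_le_starZ z y g lab ord e he1 he2 hF
  refine mem_starTZ.2 ⟨hF', fun t => ?_⟩
  obtain ⟨⟨k1, k2⟩, k3, k4⟩ := mem_starZ.1 hF'
  have k0 : ∀ (s : I ⊕ J) (j : Fin b),
      bf (F j : Fin m → Fin m → K) (Sum.elim z y s) (Sum.elim z y s) = 0 := by
    rintro (i | l) j
    · exact k1 i j
    · exact k2 l j
  have hw' : ∀ j, bf (F j : Fin m → Fin m → K) (w t) (w t) = 0 := by
    obtain ⟨s, hs⟩ := hw t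
    intro j
    rw [← hs]
    exact k0 s j
  have hR : ∀ j, bf (F j : Fin m → Fin m → K) (z (p t)) (w t) +
      bf (F j : Fin m → Fin m → K) (z (q t)) (w t) +
      bf (F j : Fin m → Fin m → K) (z (p t)) (z (q t)) = 0 := by
    obtain ⟨s, hs⟩ := hu t
    intro j
    have h3 := bf_three (F j).2 (w t) (z (p t)) (z (q t)) (hw' j) (k1 _ j) (k1 _ j)
      (by rw [← hs]; exact k0 s j)
    exact (mul_eq_zero.1 h3).resolve_left h2
  obtain ⟨h3, h4⟩ := hpq t
  have a1 := k3 (p t) (w t)
  have a2 := k3 (q t) (w t)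
  have a3 := k3 (p t) (z (q t))
  have a4 := k4 (p t) (q t) h3 h4
  rw [← h3] at a2
  have a5 : e.2 ^ ord (q t) = e.2 ^ ord (p t) * e.2 ^ (ord (q t) - ord (p t)) := by
    rw [← pow_add]
    congr 1
    omega
  rw [a5] at a2
  have r1 := hR (g (p t))
  have r2 := hR (lab (q t))
  have a6 : e.1 * e.2 ^ ord (p t) * (bf (F (lab (p t)) : Fin m → Fin m → K) (z (p t)) (w t) +
      (-1) * e.2 ^ (ord (q t) - ord (p t)) *
        bf (F (lab (q t)) : Fin m → Fin m → K) (z (p t)) (w t)) = 0 := by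
    linear_combination a1 + a2 + a3 - r1 - e.1 * e.2 ^ ord (p t) *
      e.2 ^ (ord (q t) - ord (p t)) * r2 - e.1 * e.2 ^ ord (p t) * a4
  exact (mul_eq_zero.1 a6).resolve_left (mul_ne_zero he1 (pow_ne_zero _ he2))

/-- the star limit with transfers, for given points -/
theorem starT_cfg [Infinite K] (h2 : (2 : K) ≠ 0) {m b : ℕ} {I J T : Type} [Finite I] [Finite J]
    [Finite T] (z : I → Fin m → K) (y : J → Fin m → K) (g lab : I → Fin b) (ord : I → ℕ)
    (p q : T → I) (w : T → Fin m → K)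
    (hpq : ∀ t, g (p t) = g (q t) ∧ ord (p t) < ord (q t))
    (hw : ∀ t, ∃ s : I ⊕ J, Sum.elim z y s = w t)
    (hu : ∀ t, ∃ s : I ⊕ J, Sum.elim z y s = w t + z (p t) + z (q t)) (r : Fin b → ℕ)
    (h : ∀ k, finrank K (SDT z y g lab ord p w k) ≤ r k) :
    ∃ a : I → Fin b → K, finrank K (ZK ((z, a, y) : Cfg K m b I J)) ≤ ∑ k, r k := by
  have hg := (PK_starTZ z y g lab ord p q w).gen_finrank
    (finrank_starTZ_zero z y g lab ord p q w hpq r h)
  have hε : Gen K fun e : K × K => e.1 ≠ 0 :=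
    Gen.ne (LP.linear (LinearMap.fst K K K)) (1, 1) one_ne_zero
  have hη : Gen K fun e : K × K => e.2 ≠ 0 :=
    Gen.ne (LP.linear (LinearMap.snd K K K)) (1, 1) one_ne_zero
  obtain ⟨e, he, h3, h4⟩ := (hg.and (hε.and hη)).exists
  exact ⟨starA g lab ord e,
    (Submodule.finrank_mono (ZK_le_starTZ h2 z y g lab ord p q w hpq hw hu e h3 h4)).trans he⟩

/-- **The star limit with transfers.** -/
theorem starT [Infinite K] (h2 : (2 : K) ≠ 0) {m b : ℕ} {I J T : Type} [Fintype I] [Fintype J]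
    [Finite T] (z : I → Fin m → K) (y : J → Fin m → K) (g lab : I → Fin b) (ord : I → ℕ)
    (p q : T → I) (w : T → Fin m → K)
    (hpq : ∀ t, g (p t) = g (q t) ∧ ord (p t) < ord (q t))
    (hw : ∀ t, ∃ s : I ⊕ J, Sum.elim z y s = w t)
    (hu : ∀ t, ∃ s : I ⊕ J, Sum.elim z y s = w t + z (p t) + z (q t)) (r : Fin b → ℕ)
    (h : ∀ k, finrank K (SDT z y g lab ord p w k) ≤ r k) :
    KQ K m b (Fintype.card I) (Fintype.card J) (∑ k, r k) := by
  obtain ⟨a, ha⟩ := starT_cfg h2 z y g lab ord p q w hpq hw hu r h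
  exact KQ.of_cfg (z, a, y) rfl rfl ha

/-- points depending linearly on parameters -/
def lin {m : ℕ} {X I : Type} [Fintype X] (M : I → X → K) (c : X → Fin m → K) (i : I) :
    Fin m → K := ∑ x, M i x • c x

theorem LP_lin {m : ℕ} {X I : Type} [Fintype X] (M : I → X → K) (i : I) (k : Fin m) :
    LP fun c : X → Fin m → K => lin M c i k := by
  have h : ∀ c : X → Fin m → K, lin M c i k = ∑ x, M i x * c x k := by
    intro c
    simp [lin, Finset.sum_apply]
  simp only [h]
  refine LP.sum _ fun x _ => (LP.const _).mul ?_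
  exact LP_apply (LinearMap.proj x : (X → Fin m → K) →ₗ[K] (Fin m → K)) k

theorem PK_SDT {m b : ℕ} {X I J T : Type} [Fintype X] [Finite I] [Finite J] [Finite T]
    (M : I → X → K) (N : J → X → K) (g lab : I → Fin b) (ord : I → ℕ) (p : T → I)
    (W : T → X → K) (k : Fin b) :
    PK fun c : X → Fin m → K => SDT (lin M c) (lin N c) g lab ord p (lin W c) k := by
  have h1 : PK fun c : X → Fin m → K => ⨅ i : I, LinearMap.ker
      ((bfL (lin M c i) (lin M c i)).comp (SF K m).subtype) := by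
    refine PK.iInf fun i => PK.one (φ := fun c : X → Fin m → K =>
      (bfL (lin M c i) (lin M c i)).comp (SF K m).subtype) fun A => ?_
    simp only [LinearMap.comp_apply, bfL_apply]
    exact LP_bf _ (LP_lin M i) (LP_lin M i)
  have h2 : PK fun c : X → Fin m → K => ⨅ l : J, LinearMap.ker
      ((bfL (lin N c l) (lin N c l)).comp (SF K m).subtype) := by
    refine PK.iInf fun l => PK.one (φ := fun c : X → Fin m → K =>
      (bfL (lin N c l) (lin N c l)).comp (SF K m).subtype) fun A => ?_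
    simp only [LinearMap.comp_apply, bfL_apply]
    exact LP_bf _ (LP_lin N l) (LP_lin N l)
  have h3 : PK fun c : X → Fin m → K => ⨅ s : {s : I × Fin m // g s.1 = k}, LinearMap.ker
      ((bfL (lin M c s.1.1) (Pi.single s.1.2 1)).comp (SF K m).subtype) := by
    refine PK.iInf fun s => PK.one (φ := fun c : X → Fin m → K =>
      (bfL (lin M c s.1.1) (Pi.single s.1.2 1)).comp (SF K m).subtype) fun A => ?_
    simp only [LinearMap.comp_apply, bfL_apply]
    exact LP_bf _ (LP_lin M s.1.1) fun k => LP.const _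
  have h4 : PK fun c : X → Fin m → K =>
      ⨅ s : {s : I × I // g s.1 = g s.2 ∧ ord s.1 < ord s.2 ∧ lab s.1 = k}, LinearMap.ker
      ((bfL (lin M c s.1.1) (lin M c s.1.2)).comp (SF K m).subtype) := by
    refine PK.iInf fun s => PK.one (φ := fun c : X → Fin m → K =>
      (bfL (lin M c s.1.1) (lin M c s.1.2)).comp (SF K m).subtype) fun A => ?_
    simp only [LinearMap.comp_apply, bfL_apply]
    exact LP_bf _ (LP_lin M s.1.1) (LP_lin M s.1.2)
  have h5 : PK fun c : X → Fin m → K =>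
      ⨅ t : {t : T // lab (p t) = k}, LinearMap.ker
      ((bfL (lin M c (p t.1)) (lin W c t.1)).comp (SF K m).subtype) := by
    refine PK.iInf fun t => PK.one (φ := fun c : X → Fin m → K =>
      (bfL (lin M c (p t.1)) (lin W c t.1)).comp (SF K m).subtype) fun A => ?_
    simp only [LinearMap.comp_apply, bfL_apply]
    exact LP_bf _ (LP_lin M (p t.1)) (LP_lin W t.1)
  refine ((h1.inf h2).inf (h3.inf (h4.inf h5))).congr fun c => ?_
  ext A
  have e : ∀ i : I, (∀ v, bf (A : Fin m → Fin m → K) (lin M c i) v = 0) ↔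
      ∀ j : Fin m, bf (A : Fin m → Fin m → K) (lin M c i) (Pi.single j 1) = 0 := by
    intro i
    have h := full_iff (b := 1) (fun _ => (A : Fin m → Fin m → K)) (fun _ => 1) (lin M c i)
    simpa using h
  simp only [Submodule.mem_inf, Submodule.mem_iInf, LinearMap.mem_ker, LinearMap.comp_apply,
    Submodule.subtype_apply, bfL_apply, mem_SDT, mem_SD, Subtype.forall, Prod.forall, e]
  constructor
  · rintro ⟨⟨a1, a2⟩, a3, a4, a5⟩
    exact ⟨⟨a1, a2, fun i hi j => a3 i j hi, fun i i' e1 e2 e3 => a4 i i' ⟨e1, e2, e3⟩⟩, a5⟩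
  · rintro ⟨⟨a1, a2, a3, a4⟩, a5⟩
    exact ⟨⟨a1, a2⟩, fun i j hi => a3 i hi j, fun i i' h => a4 i i' h.1 h.2.1 h.2.2, a5⟩

/-- **The star limit with transfers, every form at its own parameters.** -/
theorem star_param [Infinite K] (h2 : (2 : K) ≠ 0) {m b : ℕ} {X I J T : Type} [Fintype X]
    [Fintype I] [Fintype J] [Finite T] (M : I → X → K) (N : J → X → K) (g lab : I → Fin b)
    (ord : I → ℕ) (p q : T → I) (W : T → X → K)
    (hpq : ∀ t, g (p t) = g (q t) ∧ ord (p t) < ord (q t))
    (hw : ∀ t, ∃ s : I ⊕ J, Sum.elim M N s = W t)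
    (hu : ∀ t, ∃ s : I ⊕ J, Sum.elim M N s = W t + M (p t) + M (q t)) (r : Fin b → ℕ)
    (h : ∀ k, ∃ c : X → Fin m → K,
      finrank K (SDT (lin M c) (lin N c) g lab ord p (lin W c) k) ≤ r k) :
    KQ K m b (Fintype.card I) (Fintype.card J) (∑ k, r k) := by
  have hg : Gen K fun c : X → Fin m → K => ∀ k,
      finrank K (SDT (lin M c) (lin N c) g lab ord p (lin W c) k) ≤ r k := by
    refine Gen.forall fun k => ?_
    obtain ⟨c, hc⟩ := h k
    exact (PK_SDT M N g lab ord p W k).gen_finrank hc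
  obtain ⟨c, hc⟩ := hg.exists
  have key : ∀ (s : I ⊕ J) (V : X → K), Sum.elim M N s = V →
      Sum.elim (lin M c) (lin N c) s = ∑ x, V x • c x := by
    rintro (i | l) V rfl <;> rfl
  refine starT h2 (lin M c) (lin N c) g lab ord p q (lin W c) hpq (fun t => ?_) (fun t => ?_) r hc
  · obtain ⟨s, hs⟩ := hw t
    exact ⟨s, key s _ hs⟩
  · obtain ⟨s, hs⟩ := hu t
    refine ⟨s, (key s _ hs).trans ?_⟩
    simp only [lin, Pi.add_apply, add_smul, Finset.sum_add_distrib]

end StarT

end Pool.Agent.WarR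


end

section

/-!
# A seed of the chain: 4 quadratic forms in 9 variables, 15 full points   (helper68)

Groups of 4, 4, 4, 3 points; the stars (assignment of helper51): form 3 gets the clique of group 0
and the star of size 3 of group 1, form 0 the stars of size 3 and 1 of group 2, form 1 the stars of
size 2 of the groups 2 and 3, form 2 the stars of size 2 and 1 of group 1 and the star of size 1 of
group 3. For every form the points are basis vectors and sums of two basis vectors.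
-/

set_option autoImplicit false

open Module

namespace Pool.Agent.WarR

open Pool.Agent.War

section

variable {K : Type*} [Field K]

/-- the star limit without simple points and transfers, every form at its own points -/
theorem star_free [CharZero K] {m b : ℕ} {I : Type} [Fintype I] [DecidableEq I]
    (g lab : I → Fin b) (ord : I → ℕ)
    (h : ∀ k, ∃ z : I → Fin m → K, ∀ A : SF K m,
      (∀ i, bf (A : Fin m → Fin m → K) (z i) (z i) = 0) →
      (∀ i, g i = k → ∀ v, bf (A : Fin m → Fin m → K) (z i) v = 0) →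
      (∀ i i', g i = g i' → ord i < ord i' → lab i = k →
        bf (A : Fin m → Fin m → K) (z i) (z i') = 0) → A = 0) :
    KQ K m b (Fintype.card I) 0 0 := by
  classical
  have h1 := star_param (K := K) (two_ne_zero) (m := m) (b := b) (X := I) (I := I) (J := Fin 0)
    (T := Fin 0) (fun i x => if i = x then 1 else 0) (fun l => l.elim0) g lab ord
    (fun t => t.elim0) (fun t => t.elim0) (fun t => t.elim0) (fun t => t.elim0)
    (fun t => t.elim0) (fun t => t.elim0) (fun _ => 0) (fun k => by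
      obtain ⟨z, hz⟩ := h k
      refine ⟨z, ?_⟩
      have e : lin (fun i x : I => if i = x then (1 : K) else 0) z = z := by
        funext i
        simp [lin]
      rw [e, Nat.le_zero]
      have : SDT z (lin (fun l : Fin 0 => l.elim0) z) g lab ord (fun t : Fin 0 => t.elim0)
          (lin (fun t : Fin 0 => t.elim0) z) k = (⊥ : Submodule K (SF K m)) := by
        rw [eq_bot_iff]
        intro A hA
        obtain ⟨h2, -⟩ := mem_SDT.1 hA
        obtain ⟨h3, -, h4, h5⟩ := mem_SD.1 h2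
        exact hz A h3 h4 h5
      rw [this]
      exact finrank_bot K _)
  simpa using h1

namespace S4Aux

theorem bf_add_l {m : ℕ} (A : Fin m → Fin m → K) (x y z : Fin m → K) :
    bf A (x + y) z = bf A x z + bf A y z := by
  simp only [bf, Pi.add_apply, add_mul, Finset.sum_add_distrib]

/-- basis vectors -/
def E (p : Fin 9) : Fin 9 → K := Pi.single p 1

theorem bf_E (A : Fin 9 → Fin 9 → K) (p q : Fin 9) : bf A (E p) (E q) = A p q := bf_single A p q

theorem sq_EE [CharZero K] {A : SF K 9} {p q : Fin 9}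
    (h : bf (A : Fin 9 → Fin 9 → K) (E p + E q) (E p + E q) = 0)
    (hp : (A : Fin 9 → Fin 9 → K) p p = 0) (hq : (A : Fin 9 → Fin 9 → K) q q = 0) :
    (A : Fin 9 → Fin 9 → K) p q = 0 := by
  rw [bf_add_l, bf_add_right, bf_add_right, bf_E, bf_E, bf_E, bf_E, hp, hq, A.2 q p] at h
  have h2 : (2 : K) * (A : Fin 9 → Fin 9 → K) p q = 0 := by linear_combination h
  exact (mul_eq_zero.1 h2).resolve_left two_ne_zero

/-- groups -/
def gr : Fin 15 → Fin 4 := ![0, 0, 0, 0, 1, 1, 1, 1, 2, 2, 2, 2, 3, 3, 3]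

/-- labels -/
def lb : Fin 15 → Fin 4 := ![3, 3, 3, 3, 3, 2, 2, 2, 0, 1, 0, 0, 1, 2, 2]

/-- points of form 0 -/
def z0 : Fin 15 → Fin 9 → K := ![E 0, E 1, E 2, E 3, E 8, E 4 + E 8, E 5 + E 6, E 5 + E 7, E 4, E 5, E 6, E 7, E 5 + E 8, E 6 + E 8, E 7 + E 8]

/-- points of form 1 -/
def z1 : Fin 15 → Fin 9 → K := ![E 4 + E 7, E 4 + E 8, E 5 + E 6, E 6 + E 7, E 0, E 1, E 2, E 3, E 6 + E 8, E 4, E 5, E 6, E 7, E 8, E 8 + E 5]

/-- points of form 2 -/
def z2 : Fin 15 → Fin 9 → K := ![E 4 + E 7, E 4 + E 8, E 5 + E 7, E 5 + E 8, E 6 + E 7, E 4, E 5, E 6, E 0, E 1, E 2, E 3, E 6 + E 8, E 7, E 8]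

/-- points of form 3 -/
def z3 : Fin 15 → Fin 9 → K := ![E 3, E 4, E 5, E 6, E 7, E 8, E 8 + E 3, E 8 + E 4, E 5 + E 7, E 5 + E 8, E 6 + E 7, E 6 + E 8, E 0, E 1, E 2]

theorem zero_of {A : SF K 9} (h : ∀ p q : Fin 9, p ≤ q → (A : Fin 9 → Fin 9 → K) p q = 0) :
    A = 0 := by
  apply Subtype.ext
  funext p q
  rcases le_total p q with hpq | hpq
  · exact h p q hpq
  · rw [A.2 p q]
    exact h q p hpq

theorem form0 [CharZero K] (A : SF K 9)
    (hs : ∀ i, bf (A : Fin 9 → Fin 9 → K) (z0 i) (z0 i) = 0)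
    (hg : ∀ i, gr i = 0 → ∀ v, bf (A : Fin 9 → Fin 9 → K) (z0 i) v = 0)
    (hp : ∀ i i' : Fin 15, gr i = gr i' → (i : ℕ) < i' → lb i = 0 →
      bf (A : Fin 9 → Fin 9 → K) (z0 i) (z0 i') = 0) : A = 0 := by
  have r0 : ∀ q, (A : Fin 9 → Fin 9 → K) 0 q = 0 := fun q => by
    have := hg 0 rfl (E q)
    change bf (A : Fin 9 → Fin 9 → K) (E 0) (E q) = 0 at this
    rwa [bf_E] at this
  have r1 : ∀ q, (A : Fin 9 → Fin 9 → K) 1 q = 0 := fun q => by
    have := hg 1 rfl (E q)
    change bf (A : Fin 9 → Fin 9 → K) (E 1) (E q) = 0 at this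
    rwa [bf_E] at this
  have r2 : ∀ q, (A : Fin 9 → Fin 9 → K) 2 q = 0 := fun q => by
    have := hg 2 rfl (E q)
    change bf (A : Fin 9 → Fin 9 → K) (E 2) (E q) = 0 at this
    rwa [bf_E] at this
  have r3 : ∀ q, (A : Fin 9 → Fin 9 → K) 3 q = 0 := fun q => by
    have := hg 3 rfl (E q)
    change bf (A : Fin 9 → Fin 9 → K) (E 3) (E q) = 0 at this
    rwa [bf_E] at this
  have a88 : (A : Fin 9 → Fin 9 → K) 8 8 = 0 := by
    have := hs 4
    change bf (A : Fin 9 → Fin 9 → K) (E 8) (E 8) = 0 at this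
    rwa [bf_E] at this
  have a44 : (A : Fin 9 → Fin 9 → K) 4 4 = 0 := by
    have := hs 8
    change bf (A : Fin 9 → Fin 9 → K) (E 4) (E 4) = 0 at this
    rwa [bf_E] at this
  have a55 : (A : Fin 9 → Fin 9 → K) 5 5 = 0 := by
    have := hs 9
    change bf (A : Fin 9 → Fin 9 → K) (E 5) (E 5) = 0 at this
    rwa [bf_E] at this
  have a66 : (A : Fin 9 → Fin 9 → K) 6 6 = 0 := by
    have := hs 10
    change bf (A : Fin 9 → Fin 9 → K) (E 6) (E 6) = 0 at this
    rwa [bf_E] at this
  have a77 : (A : Fin 9 → Fin 9 → K) 7 7 = 0 := by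
    have := hs 11
    change bf (A : Fin 9 → Fin 9 → K) (E 7) (E 7) = 0 at this
    rwa [bf_E] at this
  have a45 : (A : Fin 9 → Fin 9 → K) 4 5 = 0 := by
    have := hp 8 9 rfl (by decide) rfl
    change bf (A : Fin 9 → Fin 9 → K) (E 4) (E 5) = 0 at this
    rwa [bf_E] at this
  have a46 : (A : Fin 9 → Fin 9 → K) 4 6 = 0 := by
    have := hp 8 10 rfl (by decide) rfl
    change bf (A : Fin 9 → Fin 9 → K) (E 4) (E 6) = 0 at this
    rwa [bf_E] at this
  have a47 : (A : Fin 9 → Fin 9 → K) 4 7 = 0 := by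
    have := hp 8 11 rfl (by decide) rfl
    change bf (A : Fin 9 → Fin 9 → K) (E 4) (E 7) = 0 at this
    rwa [bf_E] at this
  have a67 : (A : Fin 9 → Fin 9 → K) 6 7 = 0 := by
    have := hp 10 11 rfl (by decide) rfl
    change bf (A : Fin 9 → Fin 9 → K) (E 6) (E 7) = 0 at this
    rwa [bf_E] at this
  have a48 : (A : Fin 9 → Fin 9 → K) 4 8 = 0 := sq_EE (hs 5) a44 a88
  have a56 : (A : Fin 9 → Fin 9 → K) 5 6 = 0 := sq_EE (hs 6) a55 a66
  have a57 : (A : Fin 9 → Fin 9 → K) 5 7 = 0 := sq_EE (hs 7) a55 a77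
  have a58 : (A : Fin 9 → Fin 9 → K) 5 8 = 0 := sq_EE (hs 12) a55 a88
  have a68 : (A : Fin 9 → Fin 9 → K) 6 8 = 0 := sq_EE (hs 13) a66 a88
  have a78 : (A : Fin 9 → Fin 9 → K) 7 8 = 0 := sq_EE (hs 14) a77 a88
  refine zero_of fun p q hpq => ?_
  fin_cases p <;> fin_cases q <;> first
    | exact absurd hpq (by decide)
    | exact r0 _
    | exact r1 _
    | exact r2 _
    | exact r3 _
    | exact a44
    | exact a45
    | exact a46
    | exact a47
    | exact a48
    | exact a55
    | exact a56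
    | exact a57
    | exact a58
    | exact a66
    | exact a67
    | exact a68
    | exact a77
    | exact a78
    | exact a88

theorem form1 [CharZero K] (A : SF K 9)
    (hs : ∀ i, bf (A : Fin 9 → Fin 9 → K) (z1 i) (z1 i) = 0)
    (hg : ∀ i, gr i = 1 → ∀ v, bf (A : Fin 9 → Fin 9 → K) (z1 i) v = 0)
    (hp : ∀ i i' : Fin 15, gr i = gr i' → (i : ℕ) < i' → lb i = 1 →
      bf (A : Fin 9 → Fin 9 → K) (z1 i) (z1 i') = 0) : A = 0 := by
  have r0 : ∀ q, (A : Fin 9 → Fin 9 → K) 0 q = 0 := fun q => by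
    have := hg 4 rfl (E q)
    change bf (A : Fin 9 → Fin 9 → K) (E 0) (E q) = 0 at this
    rwa [bf_E] at this
  have r1 : ∀ q, (A : Fin 9 → Fin 9 → K) 1 q = 0 := fun q => by
    have := hg 5 rfl (E q)
    change bf (A : Fin 9 → Fin 9 → K) (E 1) (E q) = 0 at this
    rwa [bf_E] at this
  have r2 : ∀ q, (A : Fin 9 → Fin 9 → K) 2 q = 0 := fun q => by
    have := hg 6 rfl (E q)
    change bf (A : Fin 9 → Fin 9 → K) (E 2) (E q) = 0 at this
    rwa [bf_E] at this
  have r3 : ∀ q, (A : Fin 9 → Fin 9 → K) 3 q = 0 := fun q => by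
    have := hg 7 rfl (E q)
    change bf (A : Fin 9 → Fin 9 → K) (E 3) (E q) = 0 at this
    rwa [bf_E] at this
  have a44 : (A : Fin 9 → Fin 9 → K) 4 4 = 0 := by
    have := hs 9
    change bf (A : Fin 9 → Fin 9 → K) (E 4) (E 4) = 0 at this
    rwa [bf_E] at this
  have a55 : (A : Fin 9 → Fin 9 → K) 5 5 = 0 := by
    have := hs 10
    change bf (A : Fin 9 → Fin 9 → K) (E 5) (E 5) = 0 at this
    rwa [bf_E] at this
  have a66 : (A : Fin 9 → Fin 9 → K) 6 6 = 0 := by
    have := hs 11
    change bf (A : Fin 9 → Fin 9 → K) (E 6) (E 6) = 0 at this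
    rwa [bf_E] at this
  have a77 : (A : Fin 9 → Fin 9 → K) 7 7 = 0 := by
    have := hs 12
    change bf (A : Fin 9 → Fin 9 → K) (E 7) (E 7) = 0 at this
    rwa [bf_E] at this
  have a88 : (A : Fin 9 → Fin 9 → K) 8 8 = 0 := by
    have := hs 13
    change bf (A : Fin 9 → Fin 9 → K) (E 8) (E 8) = 0 at this
    rwa [bf_E] at this
  have a45 : (A : Fin 9 → Fin 9 → K) 4 5 = 0 := by
    have := hp 9 10 rfl (by decide) rfl
    change bf (A : Fin 9 → Fin 9 → K) (E 4) (E 5) = 0 at this
    rwa [bf_E] at this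
  have a46 : (A : Fin 9 → Fin 9 → K) 4 6 = 0 := by
    have := hp 9 11 rfl (by decide) rfl
    change bf (A : Fin 9 → Fin 9 → K) (E 4) (E 6) = 0 at this
    rwa [bf_E] at this
  have a78 : (A : Fin 9 → Fin 9 → K) 7 8 = 0 := by
    have := hp 12 13 rfl (by decide) rfl
    change bf (A : Fin 9 → Fin 9 → K) (E 7) (E 8) = 0 at this
    rwa [bf_E] at this
  have a57 : (A : Fin 9 → Fin 9 → K) 5 7 = 0 := by
    have := hp 12 14 rfl (by decide) rfl
    change bf (A : Fin 9 → Fin 9 → K) (E 7) (E 8 + E 5) = 0 at this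
    rw [bf_add_right, bf_E, bf_E, a78, zero_add, A.2 7 5] at this
    exact this
  have a47 : (A : Fin 9 → Fin 9 → K) 4 7 = 0 := sq_EE (hs 0) a44 a77
  have a48 : (A : Fin 9 → Fin 9 → K) 4 8 = 0 := sq_EE (hs 1) a44 a88
  have a56 : (A : Fin 9 → Fin 9 → K) 5 6 = 0 := sq_EE (hs 2) a55 a66
  have a67 : (A : Fin 9 → Fin 9 → K) 6 7 = 0 := sq_EE (hs 3) a66 a77
  have a68 : (A : Fin 9 → Fin 9 → K) 6 8 = 0 := sq_EE (hs 8) a66 a88
  have a58 : (A : Fin 9 → Fin 9 → K) 5 8 = 0 := by
    rw [A.2 5 8]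
    exact sq_EE (hs 14) a88 a55
  refine zero_of fun p q hpq => ?_
  fin_cases p <;> fin_cases q <;> first
    | exact absurd hpq (by decide)
    | exact r0 _
    | exact r1 _
    | exact r2 _
    | exact r3 _
    | exact a44
    | exact a45
    | exact a46
    | exact a47
    | exact a48
    | exact a55
    | exact a56
    | exact a57
    | exact a58
    | exact a66
    | exact a67
    | exact a68
    | exact a77
    | exact a78
    | exact a88

theorem form2 [CharZero K] (A : SF K 9)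
    (hs : ∀ i, bf (A : Fin 9 → Fin 9 → K) (z2 i) (z2 i) = 0)
    (hg : ∀ i, gr i = 2 → ∀ v, bf (A : Fin 9 → Fin 9 → K) (z2 i) v = 0)
    (hp : ∀ i i' : Fin 15, gr i = gr i' → (i : ℕ) < i' → lb i = 2 →
      bf (A : Fin 9 → Fin 9 → K) (z2 i) (z2 i') = 0) : A = 0 := by
  have r0 : ∀ q, (A : Fin 9 → Fin 9 → K) 0 q = 0 := fun q => by
    have := hg 8 rfl (E q)
    change bf (A : Fin 9 → Fin 9 → K) (E 0) (E q) = 0 at this
    rwa [bf_E] at this
  have r1 : ∀ q, (A : Fin 9 → Fin 9 → K) 1 q = 0 := fun q => by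
    have := hg 9 rfl (E q)
    change bf (A : Fin 9 → Fin 9 → K) (E 1) (E q) = 0 at this
    rwa [bf_E] at this
  have r2 : ∀ q, (A : Fin 9 → Fin 9 → K) 2 q = 0 := fun q => by
    have := hg 10 rfl (E q)
    change bf (A : Fin 9 → Fin 9 → K) (E 2) (E q) = 0 at this
    rwa [bf_E] at this
  have r3 : ∀ q, (A : Fin 9 → Fin 9 → K) 3 q = 0 := fun q => by
    have := hg 11 rfl (E q)
    change bf (A : Fin 9 → Fin 9 → K) (E 3) (E q) = 0 at this
    rwa [bf_E] at this
  have a44 : (A : Fin 9 → Fin 9 → K) 4 4 = 0 := by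
    have := hs 5
    change bf (A : Fin 9 → Fin 9 → K) (E 4) (E 4) = 0 at this
    rwa [bf_E] at this
  have a55 : (A : Fin 9 → Fin 9 → K) 5 5 = 0 := by
    have := hs 6
    change bf (A : Fin 9 → Fin 9 → K) (E 5) (E 5) = 0 at this
    rwa [bf_E] at this
  have a66 : (A : Fin 9 → Fin 9 → K) 6 6 = 0 := by
    have := hs 7
    change bf (A : Fin 9 → Fin 9 → K) (E 6) (E 6) = 0 at this
    rwa [bf_E] at this
  have a77 : (A : Fin 9 → Fin 9 → K) 7 7 = 0 := by
    have := hs 13
    change bf (A : Fin 9 → Fin 9 → K) (E 7) (E 7) = 0 at this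
    rwa [bf_E] at this
  have a88 : (A : Fin 9 → Fin 9 → K) 8 8 = 0 := by
    have := hs 14
    change bf (A : Fin 9 → Fin 9 → K) (E 8) (E 8) = 0 at this
    rwa [bf_E] at this
  have a45 : (A : Fin 9 → Fin 9 → K) 4 5 = 0 := by
    have := hp 5 6 rfl (by decide) rfl
    change bf (A : Fin 9 → Fin 9 → K) (E 4) (E 5) = 0 at this
    rwa [bf_E] at this
  have a46 : (A : Fin 9 → Fin 9 → K) 4 6 = 0 := by
    have := hp 5 7 rfl (by decide) rfl
    change bf (A : Fin 9 → Fin 9 → K) (E 4) (E 6) = 0 at this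
    rwa [bf_E] at this
  have a56 : (A : Fin 9 → Fin 9 → K) 5 6 = 0 := by
    have := hp 6 7 rfl (by decide) rfl
    change bf (A : Fin 9 → Fin 9 → K) (E 5) (E 6) = 0 at this
    rwa [bf_E] at this
  have a78 : (A : Fin 9 → Fin 9 → K) 7 8 = 0 := by
    have := hp 13 14 rfl (by decide) rfl
    change bf (A : Fin 9 → Fin 9 → K) (E 7) (E 8) = 0 at this
    rwa [bf_E] at this
  have a47 : (A : Fin 9 → Fin 9 → K) 4 7 = 0 := sq_EE (hs 0) a44 a77
  have a48 : (A : Fin 9 → Fin 9 → K) 4 8 = 0 := sq_EE (hs 1) a44 a88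
  have a57 : (A : Fin 9 → Fin 9 → K) 5 7 = 0 := sq_EE (hs 2) a55 a77
  have a58 : (A : Fin 9 → Fin 9 → K) 5 8 = 0 := sq_EE (hs 3) a55 a88
  have a67 : (A : Fin 9 → Fin 9 → K) 6 7 = 0 := sq_EE (hs 4) a66 a77
  have a68 : (A : Fin 9 → Fin 9 → K) 6 8 = 0 := sq_EE (hs 12) a66 a88
  refine zero_of fun p q hpq => ?_
  fin_cases p <;> fin_cases q <;> first
    | exact absurd hpq (by decide)
    | exact r0 _
    | exact r1 _
    | exact r2 _
    | exact r3 _
    | exact a44
    | exact a45
    | exact a46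
    | exact a47
    | exact a48
    | exact a55
    | exact a56
    | exact a57
    | exact a58
    | exact a66
    | exact a67
    | exact a68
    | exact a77
    | exact a78
    | exact a88

theorem form3 [CharZero K] (A : SF K 9)
    (hs : ∀ i, bf (A : Fin 9 → Fin 9 → K) (z3 i) (z3 i) = 0)
    (hg : ∀ i, gr i = 3 → ∀ v, bf (A : Fin 9 → Fin 9 → K) (z3 i) v = 0)
    (hp : ∀ i i' : Fin 15, gr i = gr i' → (i : ℕ) < i' → lb i = 3 →
      bf (A : Fin 9 → Fin 9 → K) (z3 i) (z3 i') = 0) : A = 0 := by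
  have r0 : ∀ q, (A : Fin 9 → Fin 9 → K) 0 q = 0 := fun q => by
    have := hg 12 rfl (E q)
    change bf (A : Fin 9 → Fin 9 → K) (E 0) (E q) = 0 at this
    rwa [bf_E] at this
  have r1 : ∀ q, (A : Fin 9 → Fin 9 → K) 1 q = 0 := fun q => by
    have := hg 13 rfl (E q)
    change bf (A : Fin 9 → Fin 9 → K) (E 1) (E q) = 0 at this
    rwa [bf_E] at this
  have r2 : ∀ q, (A : Fin 9 → Fin 9 → K) 2 q = 0 := fun q => by
    have := hg 14 rfl (E q)
    change bf (A : Fin 9 → Fin 9 → K) (E 2) (E q) = 0 at this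
    rwa [bf_E] at this
  have a33 : (A : Fin 9 → Fin 9 → K) 3 3 = 0 := by
    have := hs 0
    change bf (A : Fin 9 → Fin 9 → K) (E 3) (E 3) = 0 at this
    rwa [bf_E] at this
  have a44 : (A : Fin 9 → Fin 9 → K) 4 4 = 0 := by
    have := hs 1
    change bf (A : Fin 9 → Fin 9 → K) (E 4) (E 4) = 0 at this
    rwa [bf_E] at this
  have a55 : (A : Fin 9 → Fin 9 → K) 5 5 = 0 := by
    have := hs 2
    change bf (A : Fin 9 → Fin 9 → K) (E 5) (E 5) = 0 at this
    rwa [bf_E] at this
  have a66 : (A : Fin 9 → Fin 9 → K) 6 6 = 0 := by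
    have := hs 3
    change bf (A : Fin 9 → Fin 9 → K) (E 6) (E 6) = 0 at this
    rwa [bf_E] at this
  have a77 : (A : Fin 9 → Fin 9 → K) 7 7 = 0 := by
    have := hs 4
    change bf (A : Fin 9 → Fin 9 → K) (E 7) (E 7) = 0 at this
    rwa [bf_E] at this
  have a88 : (A : Fin 9 → Fin 9 → K) 8 8 = 0 := by
    have := hs 5
    change bf (A : Fin 9 → Fin 9 → K) (E 8) (E 8) = 0 at this
    rwa [bf_E] at this
  have a34 : (A : Fin 9 → Fin 9 → K) 3 4 = 0 := by
    have := hp 0 1 rfl (by decide) rfl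
    change bf (A : Fin 9 → Fin 9 → K) (E 3) (E 4) = 0 at this
    rwa [bf_E] at this
  have a35 : (A : Fin 9 → Fin 9 → K) 3 5 = 0 := by
    have := hp 0 2 rfl (by decide) rfl
    change bf (A : Fin 9 → Fin 9 → K) (E 3) (E 5) = 0 at this
    rwa [bf_E] at this
  have a36 : (A : Fin 9 → Fin 9 → K) 3 6 = 0 := by
    have := hp 0 3 rfl (by decide) rfl
    change bf (A : Fin 9 → Fin 9 → K) (E 3) (E 6) = 0 at this
    rwa [bf_E] at this
  have a45 : (A : Fin 9 → Fin 9 → K) 4 5 = 0 := by
    have := hp 1 2 rfl (by decide) rfl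
    change bf (A : Fin 9 → Fin 9 → K) (E 4) (E 5) = 0 at this
    rwa [bf_E] at this
  have a46 : (A : Fin 9 → Fin 9 → K) 4 6 = 0 := by
    have := hp 1 3 rfl (by decide) rfl
    change bf (A : Fin 9 → Fin 9 → K) (E 4) (E 6) = 0 at this
    rwa [bf_E] at this
  have a56 : (A : Fin 9 → Fin 9 → K) 5 6 = 0 := by
    have := hp 2 3 rfl (by decide) rfl
    change bf (A : Fin 9 → Fin 9 → K) (E 5) (E 6) = 0 at this
    rwa [bf_E] at this
  have a78 : (A : Fin 9 → Fin 9 → K) 7 8 = 0 := by
    have := hp 4 5 rfl (by decide) rfl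
    change bf (A : Fin 9 → Fin 9 → K) (E 7) (E 8) = 0 at this
    rwa [bf_E] at this
  have a37 : (A : Fin 9 → Fin 9 → K) 3 7 = 0 := by
    have := hp 4 6 rfl (by decide) rfl
    change bf (A : Fin 9 → Fin 9 → K) (E 7) (E 8 + E 3) = 0 at this
    rw [bf_add_right, bf_E, bf_E, a78, zero_add, A.2 7 3] at this
    exact this
  have a47 : (A : Fin 9 → Fin 9 → K) 4 7 = 0 := by
    have := hp 4 7 rfl (by decide) rfl
    change bf (A : Fin 9 → Fin 9 → K) (E 7) (E 8 + E 4) = 0 at this
    rw [bf_add_right, bf_E, bf_E, a78, zero_add, A.2 7 4] at this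
    exact this
  have a38 : (A : Fin 9 → Fin 9 → K) 3 8 = 0 := by
    rw [A.2 3 8]
    exact sq_EE (hs 6) a88 a33
  have a48 : (A : Fin 9 → Fin 9 → K) 4 8 = 0 := by
    rw [A.2 4 8]
    exact sq_EE (hs 7) a88 a44
  have a57 : (A : Fin 9 → Fin 9 → K) 5 7 = 0 := sq_EE (hs 8) a55 a77
  have a58 : (A : Fin 9 → Fin 9 → K) 5 8 = 0 := sq_EE (hs 9) a55 a88
  have a67 : (A : Fin 9 → Fin 9 → K) 6 7 = 0 := sq_EE (hs 10) a66 a77
  have a68 : (A : Fin 9 → Fin 9 → K) 6 8 = 0 := sq_EE (hs 11) a66 a88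
  refine zero_of fun p q hpq => ?_
  fin_cases p <;> fin_cases q <;> first
    | exact absurd hpq (by decide)
    | exact r0 _
    | exact r1 _
    | exact r2 _
    | exact a33
    | exact a34
    | exact a35
    | exact a36
    | exact a37
    | exact a38
    | exact a44
    | exact a45
    | exact a46
    | exact a47
    | exact a48
    | exact a55
    | exact a56
    | exact a57
    | exact a58
    | exact a66
    | exact a67
    | exact a68
    | exact a77
    | exact a78
    | exact a88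

end S4Aux

open _root_.Pool.Agent.WarR.S4Aux in
theorem s4 [CharZero K] : KQ K 9 4 15 0 0 := by
  have h := star_free (K := K) (m := 9) gr lb (fun i : Fin 15 => (i : ℕ)) (fun k => by
    fin_cases k
    · exact ⟨z0, form0⟩
    · exact ⟨z1, form1⟩
    · exact ⟨z2, form2⟩
    · exact ⟨z3, form3⟩)
  simpa using h

end

end Pool.Agent.WarR


end

section

/-!
# Certificates modulo 2 for the decoupled forms (MP_db021c_ag, degree 2)   (helper31)

`surj_of_odd`: functionals whose values on some vectors are integers congruent to the identity matrix modulo 2 are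
linearly independent. `cert`: an upper bound for the dimension of a space of symmetric matrices which satisfy
conditions `bf A u u = 0` and `bf A u v = 0` for vectors of natural numbers, checked with bit operations.
-/

set_option autoImplicit false

open Module

namespace Pool.Agent.WarR

open Pool.Agent.War

section Cert

variable {K : Type*} [Field K]

theorem surj_of_odd [CharZero K] {V : Type*} [AddCommGroup V] [Module K V] {D : ℕ}
    (Φ : V →ₗ[K] (Fin D → K)) (E : Fin D → V) (W : Fin D → Fin D → ℤ)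
    (hW : ∀ s t, Φ (E t) s = (W s t : K))
    (hodd : ∀ s t, ((W s t : ℤ) : ZMod 2) = if s = t then 1 else 0) : Function.Surjective Φ := by
  classical
  let A : Matrix (Fin D) (Fin D) ℤ := Matrix.of W
  have h1 : A.map (Int.castRingHom (ZMod 2)) = 1 := by
    ext s t
    simp only [A, Matrix.map_apply, Matrix.of_apply, Int.coe_castRingHom, Matrix.one_apply]
    exact hodd s t
  have h2 : A.det ≠ 0 := by
    intro h
    have h3 : (Int.castRingHom (ZMod 2)) A.det = (A.map (Int.castRingHom (ZMod 2))).det :=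
      RingHom.map_det _ _
    rw [h1, Matrix.det_one, h, map_zero] at h3
    exact zero_ne_one h3
  let B : Matrix (Fin D) (Fin D) K := A.map (Int.castRingHom K)
  have h3 : B.det ≠ 0 := by
    have h4 : (Int.castRingHom K) A.det = B.det := RingHom.map_det _ _
    rw [← h4]
    simpa using h2
  have h4 : IsUnit B.det := isUnit_iff_ne_zero.2 h3
  intro τ
  refine ⟨∑ t, (B⁻¹.mulVec τ) t • E t, ?_⟩
  funext s
  have h5 : B.mulVec (B⁻¹.mulVec τ) = τ := by
    rw [Matrix.mulVec_mulVec, Matrix.mul_nonsing_inv _ h4, Matrix.one_mulVec]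
  rw [map_sum]
  simp only [map_smul, Finset.sum_apply, Pi.smul_apply, smul_eq_mul, hW]
  conv_rhs => rw [← h5]
  simp only [Matrix.mulVec, dotProduct, B, A, Matrix.map_apply, Matrix.of_apply,
    Int.coe_castRingHom]
  exact Finset.sum_congr rfl fun t _ => mul_comm _ _

/-- a basis element of the symmetric matrices -/
def Eb (K : Type*) [Field K] (m : ℕ) (i j : Fin m) : SF K m :=
  ⟨fun a c => (if a = i ∧ c = j then (1 / 2 : K) else 0) + (if a = j ∧ c = i then (1 / 2 : K) else 0),
    by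
      intro a c
      show (if a = i ∧ c = j then (1 / 2 : K) else 0) + (if a = j ∧ c = i then (1 / 2 : K) else 0) =
        (if c = i ∧ a = j then (1 / 2 : K) else 0) + (if c = j ∧ a = i then (1 / 2 : K) else 0)
      simp only [and_comm (a := c = i), and_comm (a := c = j)]
      exact add_comm _ _⟩

theorem bf_Eb {m : ℕ} (i j : Fin m) (u v : Fin m → K) :
    bf (Eb K m i j : Fin m → Fin m → K) u v = (u i * v j + u j * v i) / 2 := by
  have h : ∀ a c : Fin m, (Eb K m i j : Fin m → Fin m → K) a c =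
      (if a = i ∧ c = j then (1 / 2 : K) else 0) + (if a = j ∧ c = i then (1 / 2 : K) else 0) :=
    fun a c => rfl
  unfold bf
  simp only [h, mul_add, Finset.sum_add_distrib]
  have h1 : ∀ i j : Fin m, ∑ a, ∑ c, u a * v c * (if a = i ∧ c = j then (1 / 2 : K) else 0) =
      u i * v j / 2 := by
    intro i j
    rw [Finset.sum_eq_single i, Finset.sum_eq_single j]
    · simp
      ring
    · intro c _ hc
      simp [hc]
    · simp
    · intro a _ ha
      simp [ha]
    · simp
  rw [h1, h1]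
  ring

/-- the bit as an element of a ring -/
def bt (R : Type*) [Zero R] [One R] (t n : ℕ) : R := if n.testBit t then 1 else 0

theorem bt_xor (t a b : ℕ) : bt (ZMod 2) t (a ^^^ b) = bt (ZMod 2) t a + bt (ZMod 2) t b := by
  unfold bt
  rw [Nat.testBit_xor]
  cases a.testBit t <;> cases b.testBit t <;> decide

theorem bt_zero (t : ℕ) : bt (ZMod 2) t 0 = 0 := by
  simp [bt]

theorem bt_two_pow (t s : ℕ) : bt (ZMod 2) t (2 ^ s) = if s = t then 1 else 0 := by
  unfold bt
  rw [Nat.testBit_two_pow]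
  simp

/-- exclusive or of a list -/
def xl (l : List ℕ) : ℕ := l.foldr (fun a b => a ^^^ b) 0

theorem bt_xl (t : ℕ) (l : List ℕ) : bt (ZMod 2) t (xl l) = (l.map (bt (ZMod 2) t)).sum := by
  induction l with
  | nil => simp [xl, bt_zero]
  | cons a l ih =>
    have : xl (a :: l) = a ^^^ xl l := rfl
    rw [this, bt_xor, ih, List.map_cons, List.sum_cons]

/-- the positions of the bits below `m` -/
def supp (m mu : ℕ) : List ℕ := (List.range m).filter fun a => mu.testBit a

theorem sum_range_filter (l : List ℕ) (mu : ℕ) (F : ℕ → ZMod 2) :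
    ((l.filter fun a => mu.testBit a).map F).sum = (l.map fun a => bt (ZMod 2) a mu * F a).sum := by
  induction l with
  | nil => rfl
  | cons a l ih =>
    rw [List.filter_cons]
    by_cases h : mu.testBit a
    · rw [if_pos h, List.map_cons, List.sum_cons, ih, List.map_cons, List.sum_cons]
      simp [bt, h]
    · rw [if_neg h, ih, List.map_cons, List.sum_cons]
      simp [bt, h]

theorem sum_supp (m mu : ℕ) (F : ℕ → ZMod 2) :
    ((supp m mu).map F).sum = ∑ a : Fin m, bt (ZMod 2) (a : ℕ) mu * F a := by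
  rw [supp, sum_range_filter, Fin.sum_univ_eq_sum_range (fun a => bt (ZMod 2) a mu * F a) m,
    Finset.sum_list_map_count]
  rw [List.toFinset_range]
  refine Finset.sum_congr rfl fun a ha => ?_
  rw [List.count_eq_one_of_mem (List.nodup_range) (List.mem_range.2 (Finset.mem_range.1 ha)),
    one_smul]

/-- the entries of a triangular table -/
def tb (T : List (List ℕ)) (i j : ℕ) : ℕ := (T.getD (min i j) []).getD (max i j - min i j) 0

theorem tb_comm (T : List (List ℕ)) (i j : ℕ) : tb T i j = tb T j i := by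
  unfold tb
  rw [min_comm, max_comm]

/-- the value for a square -/
def xsq (m : ℕ) (T : List (List ℕ)) (mu : ℕ) : ℕ :=
  xl ((supp m mu).map fun i => xl ((supp m mu).map fun j => if i ≤ j then tb T i j else 0))

/-- the value for a polar value -/
def xpol (m : ℕ) (T : List (List ℕ)) (mu nu : ℕ) : ℕ :=
  xl ((supp m mu).map fun i => xl ((supp m nu).map fun j => if i = j then 0 else tb T i j))

theorem bt_xsq (m : ℕ) (T : List (List ℕ)) (mu t : ℕ) : bt (ZMod 2) t (xsq m T mu) =
    ∑ i : Fin m, ∑ j : Fin m, if i ≤ j then bt (ZMod 2) t (tb T i j) *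
      (bt (ZMod 2) (i : ℕ) mu * bt (ZMod 2) (j : ℕ) mu) else 0 := by
  have h1 : ∀ i : ℕ, bt (ZMod 2) t (xl ((supp m mu).map fun j => if i ≤ j then tb T i j else 0)) =
      ∑ j : Fin m, bt (ZMod 2) (j : ℕ) mu *
        (if i ≤ (j : ℕ) then bt (ZMod 2) t (tb T i j) else 0) := by
    intro i
    rw [bt_xl, List.map_map, ← sum_supp m mu fun j => if i ≤ j then bt (ZMod 2) t (tb T i j) else 0]
    congr 1
    refine List.map_congr_left fun j _ => ?_
    simp only [Function.comp]
    split_ifs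
    · rfl
    · exact bt_zero t
  rw [xsq, bt_xl, List.map_map]
  have h2 : ∀ F : ℕ → ℕ, ((supp m mu).map (bt (ZMod 2) t ∘ F)).sum =
      ∑ i : Fin m, bt (ZMod 2) (i : ℕ) mu * bt (ZMod 2) t (F i) := fun F =>
    sum_supp m mu fun i => bt (ZMod 2) t (F i)
  rw [h2]
  refine Finset.sum_congr rfl fun i _ => ?_
  rw [h1, Finset.mul_sum]
  refine Finset.sum_congr rfl fun j _ => ?_
  by_cases h : i ≤ j
  · rw [if_pos h, if_pos (by exact h)]
    ring
  · rw [if_neg h, if_neg (by exact h)]
    ring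

theorem bt_xpol (m : ℕ) (T : List (List ℕ)) (mu nu t : ℕ) : bt (ZMod 2) t (xpol m T mu nu) =
    ∑ i : Fin m, ∑ j : Fin m, if i = j then 0 else bt (ZMod 2) t (tb T i j) *
      (bt (ZMod 2) (i : ℕ) mu * bt (ZMod 2) (j : ℕ) nu) := by
  have h1 : ∀ i : ℕ, bt (ZMod 2) t (xl ((supp m nu).map fun j => if i = j then 0 else tb T i j)) =
      ∑ j : Fin m, bt (ZMod 2) (j : ℕ) nu *
        (if i = (j : ℕ) then 0 else bt (ZMod 2) t (tb T i j)) := by
    intro i
    rw [bt_xl, List.map_map, ← sum_supp m nu fun j => if i = j then 0 else bt (ZMod 2) t (tb T i j)]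
    congr 1
    refine List.map_congr_left fun j _ => ?_
    simp only [Function.comp]
    split_ifs
    · exact bt_zero t
    · rfl
  rw [xpol, bt_xl, List.map_map]
  have h2 : ∀ F : ℕ → ℕ, ((supp m mu).map (bt (ZMod 2) t ∘ F)).sum =
      ∑ i : Fin m, bt (ZMod 2) (i : ℕ) mu * bt (ZMod 2) t (F i) := fun F =>
    sum_supp m mu fun i => bt (ZMod 2) t (F i)
  rw [h2]
  refine Finset.sum_congr rfl fun i _ => ?_
  rw [h1, Finset.mul_sum]
  refine Finset.sum_congr rfl fun j _ => ?_
  by_cases h : i = j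
  · rw [if_pos h, if_pos (by rw [h])]
    ring
  · rw [if_neg h, if_neg (fun h' => h (Fin.ext h'))]
    ring

/-- the dual vectors of the certificate -/
def dualE (K : Type*) [Field K] (m : ℕ) (T : List (List ℕ)) (t : ℕ) : SF K m :=
  ∑ i : Fin m, ∑ j : Fin m, (if i ≤ j then bt K t (tb T i j) else 0) • Eb K m i j

theorem bf_sum {m : ℕ} {ι : Type*} (s : Finset ι) (A : ι → SF K m) (u v : Fin m → K) :
    bf ((∑ i ∈ s, A i : SF K m) : Fin m → Fin m → K) u v =
      ∑ i ∈ s, bf (A i : Fin m → Fin m → K) u v := by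
  classical
  induction s using Finset.induction_on with
  | empty => simp [bf_zero]
  | insert a s ha ih =>
    rw [Finset.sum_insert ha, Finset.sum_insert ha, Submodule.coe_add, bf_add, ih]

theorem bf_dualE {m : ℕ} (T : List (List ℕ)) (t : ℕ) (u v : Fin m → K) :
    bf (dualE K m T t : Fin m → Fin m → K) u v =
      ∑ i : Fin m, ∑ j : Fin m, (if i ≤ j then bt K t (tb T i j) else 0) *
        ((u i * v j + u j * v i) / 2) := by
  unfold dualE
  rw [bf_sum]
  refine Finset.sum_congr rfl fun i _ => ?_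
  rw [bf_sum]
  refine Finset.sum_congr rfl fun j _ => ?_
  rw [Submodule.coe_smul, bf_smul, bf_Eb]

/-- the integer for a square -/
def Wsq (m : ℕ) (T : List (List ℕ)) (u : Fin m → ℕ) (t : ℕ) : ℤ :=
  ∑ i : Fin m, ∑ j : Fin m, if i ≤ j then bt ℤ t (tb T i j) * (u i * u j) else 0

/-- the integer for a polar value -/
def Wpol (m : ℕ) (T : List (List ℕ)) (u v : Fin m → ℕ) (t : ℕ) : ℤ :=
  ∑ i : Fin m, ∑ j : Fin m, if i ≤ j then bt ℤ t (tb T i j) * (u i * v j + u j * v i) else 0

theorem cast_bt (R : Type*) [Ring R] (t n : ℕ) : ((bt ℤ t n : ℤ) : R) = bt R t n := by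
  unfold bt
  split_ifs <;> simp

theorem bf_dualE_sq [CharZero K] {m : ℕ} (T : List (List ℕ)) (t : ℕ) (u : Fin m → ℕ) :
    bf (dualE K m T t : Fin m → Fin m → K) (fun i => (u i : K)) (fun i => (u i : K)) =
      (Wsq m T u t : K) := by
  rw [bf_dualE, Wsq]
  push_cast
  refine Finset.sum_congr rfl fun i _ => Finset.sum_congr rfl fun j _ => ?_
  split_ifs
  · rw [cast_bt]
    ring
  · ring

theorem bf_dualE_pol [CharZero K] {m : ℕ} (T : List (List ℕ)) (t : ℕ) (u v : Fin m → ℕ) :
    2 * bf (dualE K m T t : Fin m → Fin m → K) (fun i => (u i : K)) (fun i => (v i : K)) =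
      (Wpol m T u v t : K) := by
  rw [bf_dualE, Wpol, Finset.mul_sum]
  push_cast
  refine Finset.sum_congr rfl fun i _ => ?_
  rw [Finset.mul_sum]
  refine Finset.sum_congr rfl fun j _ => ?_
  split_ifs
  · rw [cast_bt]
    ring
  · ring

theorem Wsq_odd {m : ℕ} (T : List (List ℕ)) (t : ℕ) (u : Fin m → ℕ) (mu : ℕ)
    (hu : ∀ i : Fin m, (u i : ZMod 2) = bt (ZMod 2) (i : ℕ) mu) :
    ((Wsq m T u t : ℤ) : ZMod 2) = bt (ZMod 2) t (xsq m T mu) := by
  rw [bt_xsq, Wsq]
  push_cast
  refine Finset.sum_congr rfl fun i _ => Finset.sum_congr rfl fun j _ => ?_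
  split_ifs
  · rw [cast_bt, hu, hu]
  · rfl

theorem Wpol_odd {m : ℕ} (T : List (List ℕ)) (t : ℕ) (u v : Fin m → ℕ) (mu nu : ℕ)
    (hu : ∀ i : Fin m, (u i : ZMod 2) = bt (ZMod 2) (i : ℕ) mu)
    (hv : ∀ i : Fin m, (v i : ZMod 2) = bt (ZMod 2) (i : ℕ) nu) :
    ((Wpol m T u v t : ℤ) : ZMod 2) = bt (ZMod 2) t (xpol m T mu nu) := by
  rw [bt_xpol, Wpol]
  push_cast
  set f : Fin m → Fin m → ZMod 2 := fun i j => bt (ZMod 2) t (tb T i j) *
    (bt (ZMod 2) (i : ℕ) mu * bt (ZMod 2) (j : ℕ) nu) with hf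
  have h1 : ∀ i j : Fin m, (if i ≤ j then ((bt ℤ t (tb T i j) : ℤ) : ZMod 2) *
      ((u i : ZMod 2) * (v j : ZMod 2) + (u j : ZMod 2) * (v i : ZMod 2)) else 0) =
      (if i ≤ j then f i j else 0) + (if i ≤ j then f j i else 0) := by
    intro i j
    split_ifs
    · rw [cast_bt, hu, hu, hv, hv, hf]
      simp only
      rw [tb_comm T (j : ℕ) (i : ℕ)]
      ring
    · simp
  simp only [h1, Finset.sum_add_distrib]
  have h2 : ∑ i : Fin m, ∑ j : Fin m, (if i ≤ j then f j i else 0) =
      ∑ i : Fin m, ∑ j : Fin m, if j ≤ i then f i j else 0 := Finset.sum_comm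
  rw [h2, ← Finset.sum_add_distrib]
  refine Finset.sum_congr rfl fun i _ => ?_
  rw [← Finset.sum_add_distrib]
  refine Finset.sum_congr rfl fun j _ => ?_
  rcases lt_trichotomy i j with h | h | h
  · rw [if_pos h.le, if_neg (not_le.2 h), if_neg h.ne, add_zero]
  · rw [if_pos h.le, if_pos h.ge, if_pos h]
    exact CharTwo.add_self_eq_zero _
  · rw [if_neg (not_le.2 h), if_pos h.le, if_neg h.ne', zero_add]

/-- **The certificate.** `sq s = true`: the `s`-th condition is `bf A (u s) (u s) = 0`, otherwise it is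
`bf A (u s) (v s) = 0`; `mu`, `nu` are the parities. -/
theorem cert [CharZero K] {m D : ℕ} (Z : Submodule K (SF K m)) (T : List (List ℕ))
    (sq : Fin D → Bool) (u v : Fin D → Fin m → ℕ) (mu nu : Fin D → ℕ)
    (hu : ∀ s (i : Fin m), (u s i : ZMod 2) = bt (ZMod 2) (i : ℕ) (mu s))
    (hv : ∀ s (i : Fin m), (v s i : ZMod 2) = bt (ZMod 2) (i : ℕ) (nu s))
    (h1 : ∀ s, sq s = true → ∀ A ∈ Z,
      bf (A : Fin m → Fin m → K) (fun i => (u s i : K)) (fun i => (u s i : K)) = 0)
    (h2 : ∀ s, sq s = false → ∀ A ∈ Z,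
      bf (A : Fin m → Fin m → K) (fun i => (u s i : K)) (fun i => (v s i : K)) = 0)
    (h3 : ∀ s : Fin D, (if sq s then xsq m T (mu s) else xpol m T (mu s) (nu s)) = 2 ^ (s : ℕ)) :
    finrank K Z + D ≤ (m + 1).choose 2 := by
  classical
  let Φ : SF K m →ₗ[K] (Fin D → K) := LinearMap.pi fun s =>
    if sq s then (bfL (fun i => (u s i : K)) (fun i => (u s i : K))).comp (SF K m).subtype
    else (2 : K) • (bfL (fun i => (u s i : K)) (fun i => (v s i : K))).comp (SF K m).subtype
  have hΦ : ∀ (A : SF K m) (s : Fin D), Φ A s = if sq s then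
      bf (A : Fin m → Fin m → K) (fun i => (u s i : K)) (fun i => (u s i : K)) else
      2 * bf (A : Fin m → Fin m → K) (fun i => (u s i : K)) (fun i => (v s i : K)) := by
    intro A s
    simp only [Φ, LinearMap.pi_apply]
    split_ifs <;> rfl
  have hsurj : Function.Surjective Φ := by
    refine surj_of_odd Φ (fun t => dualE K m T t)
      (fun s t => if sq s then Wsq m T (u s) t else Wpol m T (u s) (v s) t) (fun s t => ?_)
      fun s t => ?_
    · rw [hΦ]
      split_ifs
      · exact bf_dualE_sq T t (u s)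
      · exact bf_dualE_pol T t (u s) (v s)
    · have h4 := congrArg (bt (ZMod 2) (t : ℕ)) (h3 s)
      rw [bt_two_pow] at h4
      have h5 : ((s : ℕ) = (t : ℕ)) ↔ s = t := Fin.ext_iff.symm
      simp only [h5] at h4
      rw [← h4]
      split_ifs
      · exact Wsq_odd T t (u s) (mu s) (hu s)
      · exact Wpol_odd T t (u s) (v s) (mu s) (nu s) (hu s) (hv s)
  have hker : Z ≤ LinearMap.ker Φ := by
    intro A hA
    rw [LinearMap.mem_ker]
    funext s
    rw [hΦ]
    by_cases hs : sq s = true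
    · rw [if_pos hs, h1 s hs A hA]
      rfl
    · rw [if_neg hs, h2 s (by simpa using hs) A hA]
      simp
  have h6 := Φ.finrank_range_add_finrank_ker
  have h7 : LinearMap.range Φ = ⊤ := LinearMap.range_eq_top.2 hsurj
  rw [h7, finrank_top, Module.finrank_fin_fun] at h6
  have h8 := Submodule.finrank_mono hker
  have h9 := finrank_SF_le (K := K) m
  omega

end Cert

end Pool.Agent.WarR


end

section

/-!
# Seeds by the star limit with transfers and certificates modulo 2 (MP_db021c_ag, degree 2)   (helper31)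

`SeedD`: the combinatorial data of a configuration (every point is a sum of free parameters, given by a list of
indices). `SeedD.form`: for the form `k` the parameters are 0/1 vectors (bit masks), `eqs` lists conditions of the
decoupled system and `T` the rows of the inverse matrix modulo 2.
-/

set_option autoImplicit false

open Module

namespace Pool.Agent.WarR

open Pool.Agent.War

section Lin

variable {K : Type*} [Field K]

theorem PK_SDT_lin {m b : ℕ} {X : Type*} [AddCommGroup X] [Module K X] {I J T : Type} [Finite I]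
    [Finite J] [Finite T] (M : I → X →ₗ[K] (Fin m → K)) (N : J → X →ₗ[K] (Fin m → K))
    (g lab : I → Fin b) (ord : I → ℕ) (p : T → I) (W : T → X →ₗ[K] (Fin m → K)) (k : Fin b) :
    PK fun c : X => SDT (fun i => M i c) (fun l => N l c) g lab ord p (fun t => W t c) k := by
  have hM : ∀ (i : I) (k : Fin m), LP fun c : X => M i c k := fun i k => LP_apply (M i) k
  have hN : ∀ (i : J) (k : Fin m), LP fun c : X => N i c k := fun i k => LP_apply (N i) k
  have hW : ∀ (i : T) (k : Fin m), LP fun c : X => W i c k := fun i k => LP_apply (W i) k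
  have h1 : PK fun c : X => ⨅ i : I, LinearMap.ker
      ((bfL (M i c) (M i c)).comp (SF K m).subtype) := by
    refine PK.iInf fun i => PK.one (φ := fun c : X =>
      (bfL (M i c) (M i c)).comp (SF K m).subtype) fun A => ?_
    simp only [LinearMap.comp_apply, bfL_apply]
    exact LP_bf _ (hM i) (hM i)
  have h2 : PK fun c : X => ⨅ l : J, LinearMap.ker
      ((bfL (N l c) (N l c)).comp (SF K m).subtype) := by
    refine PK.iInf fun l => PK.one (φ := fun c : X =>
      (bfL (N l c) (N l c)).comp (SF K m).subtype) fun A => ?_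
    simp only [LinearMap.comp_apply, bfL_apply]
    exact LP_bf _ (hN l) (hN l)
  have h3 : PK fun c : X => ⨅ s : {s : I × Fin m // g s.1 = k}, LinearMap.ker
      ((bfL (M s.1.1 c) (Pi.single s.1.2 1)).comp (SF K m).subtype) := by
    refine PK.iInf fun s => PK.one (φ := fun c : X =>
      (bfL (M s.1.1 c) (Pi.single s.1.2 1)).comp (SF K m).subtype) fun A => ?_
    simp only [LinearMap.comp_apply, bfL_apply]
    exact LP_bf _ (hM s.1.1) fun k => LP.const _
  have h4 : PK fun c : X =>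
      ⨅ s : {s : I × I // g s.1 = g s.2 ∧ ord s.1 < ord s.2 ∧ lab s.1 = k}, LinearMap.ker
      ((bfL (M s.1.1 c) (M s.1.2 c)).comp (SF K m).subtype) := by
    refine PK.iInf fun s => PK.one (φ := fun c : X =>
      (bfL (M s.1.1 c) (M s.1.2 c)).comp (SF K m).subtype) fun A => ?_
    simp only [LinearMap.comp_apply, bfL_apply]
    exact LP_bf _ (hM s.1.1) (hM s.1.2)
  have h5 : PK fun c : X => ⨅ t : {t : T // lab (p t) = k}, LinearMap.ker
      ((bfL (M (p t.1) c) (W t.1 c)).comp (SF K m).subtype) := by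
    refine PK.iInf fun t => PK.one (φ := fun c : X =>
      (bfL (M (p t.1) c) (W t.1 c)).comp (SF K m).subtype) fun A => ?_
    simp only [LinearMap.comp_apply, bfL_apply]
    exact LP_bf _ (hM (p t.1)) (hW t.1)
  refine ((h1.inf h2).inf (h3.inf (h4.inf h5))).congr fun c => ?_
  ext A
  have e : ∀ i : I, (∀ v, bf (A : Fin m → Fin m → K) (M i c) v = 0) ↔
      ∀ j : Fin m, bf (A : Fin m → Fin m → K) (M i c) (Pi.single j 1) = 0 := by
    intro i
    have h := full_iff (b := 1) (fun _ => (A : Fin m → Fin m → K)) (fun _ => 1) (M i c)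
    simpa using h
  simp only [Submodule.mem_inf, Submodule.mem_iInf, LinearMap.mem_ker, LinearMap.comp_apply,
    Submodule.subtype_apply, bfL_apply, mem_SDT, mem_SD, Subtype.forall, Prod.forall, e]
  constructor
  · rintro ⟨⟨a1, a2⟩, a3, a4, a5⟩
    exact ⟨⟨a1, a2, fun i hi j => a3 i j hi, fun i i' e1 e2 e3 => a4 i i' ⟨e1, e2, e3⟩⟩, a5⟩
  · rintro ⟨⟨a1, a2, a3, a4⟩, a5⟩
    exact ⟨⟨a1, a2⟩, fun i j hi => a3 i hi j, fun i i' h => a4 i i' h.1 h.2.1 h.2.2, a5⟩

/-- **The star limit with transfers, points depending linearly on a parameter.** -/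
theorem star_lin [Infinite K] (h2 : (2 : K) ≠ 0) {m b : ℕ} {X : Type*} [AddCommGroup X]
    [Module K X] {I J T : Type} [Fintype I] [Fintype J] [Finite T]
    (M : I → X →ₗ[K] (Fin m → K)) (N : J → X →ₗ[K] (Fin m → K)) (g lab : I → Fin b)
    (ord : I → ℕ) (p q : T → I) (W : T → X →ₗ[K] (Fin m → K))
    (hpq : ∀ t, g (p t) = g (q t) ∧ ord (p t) < ord (q t))
    (hw : ∀ t, ∃ s : I ⊕ J, Sum.elim M N s = W t)
    (hu : ∀ t, ∃ s : I ⊕ J, Sum.elim M N s = W t + M (p t) + M (q t)) (r : Fin b → ℕ)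
    (h : ∀ k, ∃ c : X, finrank K
      (SDT (fun i => M i c) (fun l => N l c) g lab ord p (fun t => W t c) k) ≤ r k) :
    KQ K m b (Fintype.card I) (Fintype.card J) (∑ k, r k) := by
  have hg : Gen K fun c : X => ∀ k, finrank K
      (SDT (fun i => M i c) (fun l => N l c) g lab ord p (fun t => W t c) k) ≤ r k := by
    refine Gen.forall fun k => ?_
    obtain ⟨c, hc⟩ := h k
    exact (PK_SDT_lin M N g lab ord p W k).gen_finrank hc
  obtain ⟨c, hc⟩ := hg.exists
  have key : ∀ (s : I ⊕ J) (V : X →ₗ[K] (Fin m → K)), Sum.elim M N s = V →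
      Sum.elim (fun i => M i c) (fun l => N l c) s = V c := by
    rintro (i | l) V rfl <;> rfl
  refine starT h2 (fun i => M i c) (fun l => N l c) g lab ord p q (fun t => W t c) hpq
    (fun t => ?_) (fun t => ?_) r hc
  · obtain ⟨s, hs⟩ := hw t
    exact ⟨s, key s _ hs⟩
  · obtain ⟨s, hs⟩ := hu t
    exact ⟨s, key s _ hs⟩

end Lin

/-- the data of a seed -/
structure SeedD where
  m : ℕ
  b : ℕ
  x : ℕ
  y : ℕ
  rI : List (List ℕ)
  rJ : List (List ℕ)
  g : List ℕ
  lab : List ℕ
  ord : List ℕ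
  tr : List (ℕ × ℕ × ℕ × ℕ)

namespace SeedD

/-- the parameters of the full points -/
def ri (S : SeedD) (i : ℕ) : List ℕ := S.rI.getD i []

/-- the parameters of the simple points -/
def rj (S : SeedD) (i : ℕ) : List ℕ := S.rJ.getD i []

/-- the parameters of all the points -/
def row (S : SeedD) (s : ℕ) : List ℕ := if s < S.x then S.ri s else S.rj (s - S.x)

/-- the group -/
def gg (S : SeedD) (i : ℕ) : ℕ := S.g.getD i 0 % S.b

/-- the label -/
def ll (S : SeedD) (i : ℕ) : ℕ := S.lab.getD i 0 % S.b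

/-- the position in the group -/
def oo (S : SeedD) (i : ℕ) : ℕ := S.ord.getD i 0

/-- the transfers -/
def tt (S : SeedD) (t : ℕ) : ℕ × ℕ × ℕ × ℕ := S.tr.getD t (0, 0, 0, 0)

/-- the check of the transfers -/
def glob (S : SeedD) : Bool :=
  decide (0 < S.b) && decide (0 < S.x) && S.tr.all fun t =>
    decide (t.1 < S.x) && decide (t.2.1 < S.x) && decide (t.2.2.1 < S.x + S.y) &&
    decide (t.2.2.2 < S.x + S.y) && decide (S.gg t.1 = S.gg t.2.1) &&
    decide (S.oo t.1 < S.oo t.2.1) &&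
    decide (S.row t.2.2.2 = S.row t.2.2.1 ++ S.ri t.1 ++ S.ri t.2.1)

/-- the mask of a sum of parameters -/
def msk (C : List ℕ) (l : List ℕ) : ℕ := xl (l.map fun a => C.getD a 0)

/-- the side conditions of an equation of the form `k` -/
def ok1 (S : SeedD) (k : ℕ) (e : ℕ × ℕ × ℕ) : Bool :=
  match e.1 with
  | 0 => decide (e.2.1 < S.x)
  | 1 => decide (e.2.1 < S.y)
  | 2 => decide (e.2.1 < S.x) && decide (e.2.2 < S.m) && decide (S.gg e.2.1 = k)
  | 3 => decide (e.2.1 < S.x) && decide (e.2.2 < S.x) && decide (S.gg e.2.1 = S.gg e.2.2) &&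
      decide (S.oo e.2.1 < S.oo e.2.2) && decide (S.ll e.2.1 = k)
  | _ => decide (e.2.1 < S.tr.length) && decide (S.ll (S.tt e.2.1).1 = k)

/-- the first vector of an equation -/
def ru (S : SeedD) (e : ℕ × ℕ × ℕ) : List ℕ :=
  match e.1 with
  | 0 => S.ri e.2.1
  | 1 => S.rj e.2.1
  | 2 => S.ri e.2.1
  | 3 => S.ri e.2.1
  | _ => S.ri (S.tt e.2.1).1

/-- the second vector of an equation (not used for squares and for the kind 2) -/
def rv (S : SeedD) (e : ℕ × ℕ × ℕ) : List ℕ :=
  match e.1 with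
  | 0 => []
  | 1 => []
  | 2 => []
  | 3 => S.ri e.2.2
  | _ => S.row (S.tt e.2.1).2.2.1

/-- the value of an equation -/
def val (S : SeedD) (C : List ℕ) (T : List (List ℕ)) (e : ℕ × ℕ × ℕ) : ℕ :=
  if e.1 < 2 then xsq S.m T (msk C (S.ru e)) else
    xpol S.m T (msk C (S.ru e)) (if e.1 = 2 then 2 ^ e.2.2 else msk C (S.rv e))

/-- all elements of a list with their position -/
def goAll (f : ℕ → ℕ × ℕ × ℕ → Bool) : ℕ → List (ℕ × ℕ × ℕ) → Bool
  | _, [] => true
  | s, e :: l => f s e && goAll f (s + 1) l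

theorem goAll_iff (f : ℕ → ℕ × ℕ × ℕ → Bool) (l : List (ℕ × ℕ × ℕ)) (s : ℕ)
    (h : goAll f s l = true) (i : ℕ) (hi : i < l.length) : f (s + i) l[i] = true := by
  induction l generalizing s i with
  | nil => simp at hi
  | cons e l ih =>
    rw [goAll, Bool.and_eq_true] at h
    cases i with
    | zero => exact h.1
    | succ i =>
      have h1 := ih (s + 1) h.2 i (by simpa using hi)
      rw [show s + (i + 1) = s + 1 + i by omega]
      exact h1

/-- the check of the form `k`: masks `C`, equations `E`, table `T`, dimension `r` -/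
def form (S : SeedD) (k : ℕ) (C : List ℕ) (E : List (ℕ × ℕ × ℕ)) (T : List (List ℕ)) (r : ℕ) :
    Bool :=
  decide (S.m * (S.m + 1) / 2 ≤ E.length + r) &&
    goAll (fun s e => S.ok1 k e && decide (S.val C T e = 2 ^ s)) 0 E

section

variable {K : Type*} [Field K]

/-- a sum of parameters -/
def rowL (K : Type*) [Field K] (m : ℕ) (l : List ℕ) : (ℕ → Fin m → K) →ₗ[K] (Fin m → K) :=
  (l.map fun a => LinearMap.proj a).sum

theorem rowL_append (m : ℕ) (l l' : List ℕ) : rowL K m (l ++ l') = rowL K m l + rowL K m l' := by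
  simp [rowL]

/-- the natural numbers -/
def nv (C : List ℕ) (l : List ℕ) (j : ℕ) : ℕ := (l.map fun a => bt ℕ j (C.getD a 0)).sum

theorem bt_cast (R : Type*) [Semiring R] (t n : ℕ) : ((bt ℕ t n : ℕ) : R) = bt R t n := by
  unfold bt
  split_ifs <;> simp

theorem rowL_apply {m : ℕ} (C : List ℕ) (l : List ℕ) (j : Fin m) :
    rowL K m l (fun a j => bt K (j : ℕ) (C.getD a 0)) j = (nv C l j : K) := by
  induction l with
  | nil => simp [rowL, nv]
  | cons a l ih =>
    have h1 : rowL K m (a :: l) = LinearMap.proj a + rowL K m l := rfl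
    have h2 : nv C (a :: l) j = bt ℕ j (C.getD a 0) + nv C l j := rfl
    rw [h1, h2, LinearMap.add_apply, Pi.add_apply, ih, Nat.cast_add, bt_cast]
    rfl

theorem nv_odd (C : List ℕ) (l : List ℕ) (j : ℕ) :
    (nv C l j : ZMod 2) = bt (ZMod 2) j (msk C l) := by
  rw [msk, bt_xl, nv]
  induction l with
  | nil => simp
  | cons a l ih =>
    rw [List.map_cons, List.sum_cons, Nat.cast_add, ih, bt_cast]
    rfl

theorem bf_bound {m : ℕ} {A : Fin m → Fin m → K} {u u' v v' : Fin m → K} (h1 : u = u')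
    (h2 : v = v') (h : bf A u' v' = 0) : bf A u v = 0 := by
  rw [h1, h2, h]

/-- **A seed.** -/
theorem main [CharZero K] (S : SeedD) (hg : S.glob = true) (r : ℕ → ℕ) (R : ℕ)
    (hf : ∀ k, k < S.b → ∃ C E T, S.form k C E T (r k) = true)
    (hR : ∑ k ∈ Finset.range S.b, r k ≤ R) : KQ K S.m S.b S.x S.y R := by
  classical
  rw [glob, Bool.and_eq_true, Bool.and_eq_true, List.all_eq_true] at hg
  obtain ⟨⟨hb, hx⟩, ht⟩ := hg
  have hb' : 0 < S.b := of_decide_eq_true hb
  have hx' : 0 < S.x := of_decide_eq_true hx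
  have htt : ∀ t : Fin S.tr.length, S.tt t = S.tr[t] := by
    intro t
    simp [tt]
  have ht' : ∀ t : Fin S.tr.length, (S.tt t).1 < S.x ∧ (S.tt t).2.1 < S.x ∧
      (S.tt t).2.2.1 < S.x + S.y ∧ (S.tt t).2.2.2 < S.x + S.y ∧
      S.gg (S.tt t).1 = S.gg (S.tt t).2.1 ∧ S.oo (S.tt t).1 < S.oo (S.tt t).2.1 ∧
      S.row (S.tt t).2.2.2 = S.row (S.tt t).2.2.1 ++ S.ri (S.tt t).1 ++ S.ri (S.tt t).2.1 := by
    intro t
    have h := ht (S.tr[t]) (List.getElem_mem _)
    rw [← htt] at h
    simp only [Bool.and_eq_true, decide_eq_true_eq] at h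
    obtain ⟨⟨⟨⟨⟨⟨h1, h2⟩, h3⟩, h4⟩, h5⟩, h6⟩, h7⟩ := h
    exact ⟨h1, h2, h3, h4, h5, h6, h7⟩
  let M : Fin S.x → (ℕ → Fin S.m → K) →ₗ[K] (Fin S.m → K) := fun i => rowL K S.m (S.ri i)
  let N : Fin S.y → (ℕ → Fin S.m → K) →ₗ[K] (Fin S.m → K) := fun i => rowL K S.m (S.rj i)
  let g : Fin S.x → Fin S.b := fun i => ⟨S.gg i, Nat.mod_lt _ hb'⟩
  let lab : Fin S.x → Fin S.b := fun i => ⟨S.ll i, Nat.mod_lt _ hb'⟩
  let ord : Fin S.x → ℕ := fun i => S.oo i
  let p : Fin S.tr.length → Fin S.x := fun t => ⟨(S.tt t).1, (ht' t).1⟩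
  let q : Fin S.tr.length → Fin S.x := fun t => ⟨(S.tt t).2.1, (ht' t).2.1⟩
  let W : Fin S.tr.length → (ℕ → Fin S.m → K) →ₗ[K] (Fin S.m → K) := fun t =>
    rowL K S.m (S.row (S.tt t).2.2.1)
  have hrow : ∀ s, s < S.x + S.y → ∃ s' : Fin S.x ⊕ Fin S.y,
      Sum.elim M N s' = rowL K S.m (S.row s) := by
    intro s hs
    by_cases h : s < S.x
    · refine ⟨Sum.inl ⟨s, h⟩, ?_⟩
      simp only [Sum.elim_inl, M, row, if_pos h]
    · refine ⟨Sum.inr ⟨s - S.x, by omega⟩, ?_⟩
      simp only [Sum.elim_inr, N, row, if_neg h]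
  have key := star_lin (K := K) two_ne_zero M N g lab ord p q W
    (fun t => ⟨Fin.ext (ht' t).2.2.2.2.1, (ht' t).2.2.2.2.2.1⟩)
    (fun t => hrow _ (ht' t).2.2.1)
    (fun t => by
      obtain ⟨s', hs'⟩ := hrow _ (ht' t).2.2.2.1
      refine ⟨s', hs'.trans ?_⟩
      rw [(ht' t).2.2.2.2.2.2, rowL_append, rowL_append])
    (fun k => r k) (fun k => ?_)
  · rw [Fintype.card_fin, Fintype.card_fin] at key
    obtain ⟨c, hc⟩ := key
    refine ⟨c, hc.trans ?_⟩
    rw [Fin.sum_univ_eq_sum_range (fun k => r k) S.b]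
    exact hR
  · obtain ⟨C, E, T, hF⟩ := hf k k.2
    rw [form, Bool.and_eq_true, decide_eq_true_eq] at hF
    obtain ⟨hF1, hF2⟩ := hF
    have hF3 : ∀ s : Fin E.length, S.ok1 k E[s] = true ∧ S.val C T E[s] = 2 ^ (s : ℕ) := by
      intro s
      have h := goAll_iff _ E 0 hF2 s s.2
      simp only [Bool.and_eq_true, decide_eq_true_eq, Nat.zero_add] at h
      exact h
    let c : ℕ → Fin S.m → K := fun a j => bt K (j : ℕ) (C.getD a 0)
    refine ⟨c, ?_⟩
    set Z := SDT (fun i => M i c) (fun l => N l c) g lab ord p (fun t => W t c) k with hZ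
    have hrl : ∀ l : List ℕ, rowL K S.m l c = fun j : Fin S.m => (nv C l j : K) := fun l =>
      funext fun j => rowL_apply C l j
    have hmem : ∀ A ∈ Z, (∀ i, bf (A : Fin S.m → Fin S.m → K) (M i c) (M i c) = 0) ∧
        (∀ l, bf (A : Fin S.m → Fin S.m → K) (N l c) (N l c) = 0) ∧
        (∀ i, g i = k → ∀ v, bf (A : Fin S.m → Fin S.m → K) (M i c) v = 0) ∧
        (∀ i i', g i = g i' → ord i < ord i' → lab i = k →
          bf (A : Fin S.m → Fin S.m → K) (M i c) (M i' c) = 0) ∧
        ∀ t, lab (p t) = k → bf (A : Fin S.m → Fin S.m → K) (M (p t) c) (W t c) = 0 := by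
      intro A hA
      rw [hZ, mem_SDT, mem_SD] at hA
      exact ⟨hA.1.1, hA.1.2.1, hA.1.2.2.1, hA.1.2.2.2, hA.2⟩
    have hfin := cert Z T (fun s : Fin E.length => decide (E[s].1 < 2))
      (fun s j => nv C (S.ru E[s]) j)
      (fun s j => if E[s].1 = 2 then (if (j : ℕ) = E[s].2.2 then 1 else 0)
        else nv C (S.rv E[s]) j)
      (fun s => msk C (S.ru E[s])) (fun s => if E[s].1 = 2 then 2 ^ E[s].2.2 else msk C (S.rv E[s]))
      (fun s j => nv_odd C _ j)
      (fun s j => by
        by_cases h : E[s].1 = 2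
        · simp only [if_pos h]
          rw [bt_two_pow]
          simp only [eq_comm (a := (j : ℕ))]
          split_ifs <;> simp
        · simp only [if_neg h]
          exact nv_odd C _ j)
      (fun s hs A hA => ?_) (fun s hs A hA => ?_) (fun s => ?_)
    · have h10 : (S.m + 1).choose 2 = S.m * (S.m + 1) / 2 := by
        rw [Nat.choose_two_right, Nat.add_sub_cancel, Nat.mul_comm]
      omega
    · -- squares
      have h4 := (hF3 s).1
      have h5 : E[s].1 < 2 := of_decide_eq_true hs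
      obtain ⟨m1, m2, -, -, -⟩ := hmem A hA
      rw [← hrl]
      rcases Nat.lt_or_ge E[s].1 1 with h6 | h6
      · have h7 : E[s].1 = 0 := by omega
        have h8 : S.ru E[s] = S.ri E[s].2.1 := by simp only [ru, h7]
        have h9 : E[s].2.1 < S.x := by
          simp only [ok1, h7, decide_eq_true_eq] at h4
          exact h4
        rw [h8]
        exact m1 ⟨E[s].2.1, h9⟩
      · have h7 : E[s].1 = 1 := by omega
        have h8 : S.ru E[s] = S.rj E[s].2.1 := by simp only [ru, h7]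
        have h9 : E[s].2.1 < S.y := by
          simp only [ok1, h7, decide_eq_true_eq] at h4
          exact h4
        rw [h8]
        exact m2 ⟨E[s].2.1, h9⟩
    · -- polar values
      have h4 := (hF3 s).1
      have h5 : ¬ E[s].1 < 2 := of_decide_eq_false hs
      obtain ⟨-, -, m3, m4, m5⟩ := hmem A hA
      by_cases h6 : E[s].1 = 2
      · have h8 : S.ru E[s] = S.ri E[s].2.1 := by simp only [ru, h6]
        simp only [ok1, h6, Bool.and_eq_true, decide_eq_true_eq] at h4
        refine bf_bound (u' := M ⟨E[s].2.1, h4.1.1⟩ c) ?_ rfl (m3 ⟨E[s].2.1, h4.1.1⟩ ?_ _)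
        · rw [← hrl, h8]
        · exact Fin.ext h4.2
      · by_cases h7 : E[s].1 = 3
        · have h8 : S.ru E[s] = S.ri E[s].2.1 := by simp only [ru, h7]
          have h8' : S.rv E[s] = S.ri E[s].2.2 := by simp only [rv, h7]
          simp only [ok1, h7, Bool.and_eq_true, decide_eq_true_eq] at h4
          obtain ⟨⟨⟨⟨a1, a2⟩, a3⟩, a4⟩, a5⟩ := h4
          refine bf_bound ?_ ?_ (m4 ⟨E[s].2.1, a1⟩ ⟨E[s].2.2, a2⟩ (Fin.ext a3) a4 (Fin.ext a5))
          · rw [← hrl, h8]
          · simp only [if_neg h6]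
            rw [← hrl, h8']
        · have h9 : ∃ n, E[s].1 = n + 4 := ⟨E[s].1 - 4, by omega⟩
          obtain ⟨n, hn⟩ := h9
          have h8 : S.ru E[s] = S.ri (S.tt E[s].2.1).1 := by simp only [ru, hn]
          have h8' : S.rv E[s] = S.row (S.tt E[s].2.1).2.2.1 := by simp only [rv, hn]
          simp only [ok1, hn, Bool.and_eq_true, decide_eq_true_eq] at h4
          obtain ⟨a1, a2⟩ := h4
          refine bf_bound ?_ ?_ (m5 ⟨E[s].2.1, a1⟩ (Fin.ext a2))
          · rw [← hrl, h8]
          · simp only [if_neg h6]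
            rw [← hrl, h8']
    · have h4 := (hF3 s).2
      rw [val] at h4
      rw [← h4]
      by_cases h5 : E[s].1 < 2
      · simp only [h5, decide_true, if_true]
      · simp only [h5, decide_false, if_false, Bool.false_eq_true]

end

end SeedD

end Pool.Agent.WarR


end
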