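import Mathlib
import Pool.Agent.CLAM.C02
import Pool.Agent.CLAM.C06

/-! Parts: WarQ.LS, War.C1, WarC.Stmts, WarC.Stmts2, WarM.Stmts, WarS.SG, WarM.CORE, WarM.ONE, WarM.NUM, WarM.MB, WarQ.Main, WarC.MRA, WarC.PUR, WarC.MR0, WarC.CY, WarC.STEP, WarC.RADO, WarC.GEN, WarC.TL1, WarC.TL0, WarC.UK, WarC.PERT, WarQ.SB, WarQ.SEL, WarQ.TA, War.SC, WarC.Stmts3, WarC.Stmts4, WarC.Few3, WarC.PERTH, WarC.ARR, WarC.TRC, WarC.PERTH2, WarS.HD -/

section

/-!
# Simultaneous Waring decompositions (MP_db021c_ag): `S_LR` is a generic property   (helper48)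
-/

set_option autoImplicit false

open Module MvPolynomial
open Pool.Agent.War Pool.Agent.WarS

namespace Pool.Agent.WarQ

namespace LSaux

variable {D k b c e : ℕ}

/-- polynomials of degree `≤ 2` vanishing on `Λ` -/
noncomputable def WW (D k : ℕ) : Submodule ℂ (MvPolynomial (Fin D ⊕ Fin k) ℂ) :=
  restrictTotalDegree (Fin D ⊕ Fin k) ℂ 2 ⊓
    ⨅ x : Fin D → ℂ, LinearMap.ker
      (MvPolynomial.aeval (Sum.elim x 0) : MvPolynomial (Fin D ⊕ Fin k) ℂ →ₐ[ℂ] ℂ).toLinearMap

theorem mem_WW {f : MvPolynomial (Fin D ⊕ Fin k) ℂ} :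
    f ∈ WW D k ↔ f.totalDegree ≤ 2 ∧ ∀ x : Fin D → ℂ, eval (Sum.elim x 0) f = 0 := by
  unfold WW
  rw [Submodule.mem_inf, mem_restrictTotalDegree, Submodule.mem_iInf]
  refine and_congr_right fun _ => forall_congr' fun x => ?_
  rw [LinearMap.mem_ker, AlgHom.toLinearMap_apply, MvPolynomial.aeval_eq_eval]

instance finRes : FiniteDimensional ℂ (restrictTotalDegree (Fin D ⊕ Fin k) ℂ 2) := by
  have hfin : Set.Finite {m : (Fin D ⊕ Fin k) →₀ ℕ | (m.sum fun _ e => e) ≤ 2} := by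
    refine Set.Finite.subset (Finset.finite_toSet (Finset.Iic (Finsupp.equivFunOnFinite.symm
      (fun _ => 2) : (Fin D ⊕ Fin k) →₀ ℕ))) fun m hm => ?_
    rw [Finset.mem_coe, Finset.mem_Iic]
    intro i
    have : m i ≤ m.sum fun _ e => e := by
      by_cases hi : i ∈ m.support
      · exact Finset.single_le_sum (f := fun i => m i) (fun _ _ => Nat.zero_le _) hi
      · simp [Finsupp.notMem_support_iff.1 hi]
    exact this.trans hm
  have : Finite {m : (Fin D ⊕ Fin k) →₀ ℕ | (m.sum fun _ e => e) ≤ 2} := hfin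
  exact Module.Finite.of_basis
    (basisRestrictSupport ℂ {m : (Fin D ⊕ Fin k) →₀ ℕ | (m.sum fun _ e => e) ≤ 2})

instance finWW : FiniteDimensional ℂ (WW D k) :=
  Submodule.finiteDimensional_of_le (inf_le_left :
    WW D k ≤ restrictTotalDegree (Fin D ⊕ Fin k) ℂ 2)

/-- evaluation -/
noncomputable def evL (z : Fin D ⊕ Fin k → ℂ) : WW D k →ₗ[ℂ] ℂ :=
  (MvPolynomial.aeval z : MvPolynomial (Fin D ⊕ Fin k) ℂ →ₐ[ℂ] ℂ).toLinearMap.comp
    (WW D k).subtype

/-- evaluation of a derivative -/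
noncomputable def dvL (v : Fin D ⊕ Fin k) (z : Fin D ⊕ Fin k → ℂ) : WW D k →ₗ[ℂ] ℂ :=
  (MvPolynomial.aeval z : MvPolynomial (Fin D ⊕ Fin k) ℂ →ₐ[ℂ] ℂ).toLinearMap.comp
    ((pderiv v).toLinearMap.comp (WW D k).subtype)

theorem evL_apply (z : Fin D ⊕ Fin k → ℂ) (f : WW D k) :
    evL z f = eval z (f : MvPolynomial (Fin D ⊕ Fin k) ℂ) := by
  simp [evL, MvPolynomial.aeval_eq_eval]

theorem dvL_apply (v : Fin D ⊕ Fin k) (z : Fin D ⊕ Fin k → ℂ) (f : WW D k) :
    dvL v z f = eval z (pderiv v (f : MvPolynomial (Fin D ⊕ Fin k) ℂ)) := by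
  simp [dvL, MvPolynomial.aeval_eq_eval]

/-- the parameters -/
abbrev QQ (D k b c e : ℕ) : Type := (Fin b → Fin D → ℂ) × (Fin b ⊕ Fin c → Fin b → ℂ) ×
  (Fin c → Fin D ⊕ Fin k → ℂ) × (Fin e → Fin D ⊕ Fin k → ℂ)

theorem lp_x (i : Fin b) (s : Fin D) : LP (K := ℂ) (X := QQ D k b c e) fun q => q.1 i s :=
  LP.linear (X := QQ D k b c e)
    { toFun := fun q => q.1 i s, map_add' := fun _ _ => rfl, map_smul' := fun _ _ => rfl }

theorem lp_a (i : Fin b ⊕ Fin c) (j : Fin b) :
    LP (K := ℂ) (X := QQ D k b c e) fun q => q.2.1 i j :=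
  LP.linear (X := QQ D k b c e)
    { toFun := fun q => q.2.1 i j, map_add' := fun _ _ => rfl, map_smul' := fun _ _ => rfl }

theorem lp_w (l : Fin c) (v : Fin D ⊕ Fin k) :
    LP (K := ℂ) (X := QQ D k b c e) fun q => q.2.2.1 l v :=
  LP.linear (X := QQ D k b c e)
    { toFun := fun q => q.2.2.1 l v, map_add' := fun _ _ => rfl, map_smul' := fun _ _ => rfl }

theorem lp_p (t : Fin e) (v : Fin D ⊕ Fin k) :
    LP (K := ℂ) (X := QQ D k b c e) fun q => q.2.2.2 t v :=
  LP.linear (X := QQ D k b c e)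
    { toFun := fun q => q.2.2.2 t v, map_add' := fun _ _ => rfl, map_smul' := fun _ _ => rfl }

theorem lp_evx (i : Fin b) (f : MvPolynomial (Fin D ⊕ Fin k) ℂ) :
    LP (K := ℂ) (X := QQ D k b c e) fun q => eval (Sum.elim (q.1 i) 0) f := by
  have h := LP.eval (K := ℂ) (X := QQ D k b c e) f
    (Z := fun v q => (Sum.elim (q.1 i) 0 : Fin D ⊕ Fin k → ℂ) v) (by
      rintro (s | s)
      · exact lp_x i s
      · exact LP.const 0)
  exact h

theorem lp_evw (l : Fin c) (f : MvPolynomial (Fin D ⊕ Fin k) ℂ) :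
    LP (K := ℂ) (X := QQ D k b c e) fun q => eval (q.2.2.1 l) f := by
  have h := LP.eval (K := ℂ) (X := QQ D k b c e) f (Z := fun v q => q.2.2.1 l v) (lp_w l)
  exact h

theorem lp_evp (t : Fin e) (f : MvPolynomial (Fin D ⊕ Fin k) ℂ) :
    LP (K := ℂ) (X := QQ D k b c e) fun q => eval (q.2.2.2 t) f := by
  have h := LP.eval (K := ℂ) (X := QQ D k b c e) f (Z := fun v q => q.2.2.2 t v) (lp_p t)
  exact h

/-- a weighted sum of derivatives -/
noncomputable def sd (v : Fin D ⊕ Fin k) (α : Fin b → ℂ) (z : Fin D ⊕ Fin k → ℂ) :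
    (Fin b → WW D k) →ₗ[ℂ] ℂ :=
  ∑ j, α j • (dvL v z).comp (LinearMap.proj j)

theorem sd_apply (v : Fin D ⊕ Fin k) (α : Fin b → ℂ) (z : Fin D ⊕ Fin k → ℂ)
    (g : Fin b → WW D k) :
    sd v α z g = ∑ j, α j * eval z (pderiv v (g j : MvPolynomial (Fin D ⊕ Fin k) ℂ)) := by
  simp only [sd, LinearMap.sum_apply, LinearMap.smul_apply, LinearMap.comp_apply,
    LinearMap.proj_apply, dvL_apply, smul_eq_mul]

/-- the tuples with the conditions -/
noncomputable def ZZ (q : QQ D k b c e) : Submodule ℂ (Fin b → WW D k) :=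
  ((⨅ r : Fin b × Fin k, LinearMap.ker
      (sd (Sum.inr r.2) (q.2.1 (Sum.inl r.1)) (Sum.elim (q.1 r.1) 0))) ⊓
    ⨅ r : Fin c × Fin b, LinearMap.ker ((evL (q.2.2.1 r.1)).comp (LinearMap.proj r.2))) ⊓
  ((⨅ r : Fin c × (Fin D ⊕ Fin k), LinearMap.ker
      (sd r.2 (q.2.1 (Sum.inr r.1)) (q.2.2.1 r.1))) ⊓
    ⨅ r : Fin e × Fin b, LinearMap.ker ((evL (q.2.2.2 r.1)).comp (LinearMap.proj r.2)))

theorem mem_ZZ (q : QQ D k b c e) (g : Fin b → WW D k) : g ∈ ZZ q ↔
    RC q.1 q.2.1 q.2.2.1 q.2.2.2 fun j => (g j : MvPolynomial (Fin D ⊕ Fin k) ℂ) := by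
  unfold ZZ RC
  simp only [Submodule.mem_inf, Submodule.mem_iInf, LinearMap.mem_ker, sd_apply,
    LinearMap.comp_apply, LinearMap.proj_apply, evL_apply, Prod.forall]
  constructor
  · rintro ⟨⟨h1, h2⟩, h3, h4⟩
    exact ⟨fun j => (mem_WW.1 (g j).2).2, h1, h2, h3, h4⟩
  · rintro ⟨-, h1, h2, h3, h4⟩
    exact ⟨⟨h1, h2⟩, h3, h4⟩

theorem pk : PK (K := ℂ) fun q : QQ D k b c e => ZZ q := by
  refine PK.inf (PK.inf (PK.iInf fun r => PK.one
      (φ := fun q : QQ D k b c e => sd (Sum.inr r.2) (q.2.1 (Sum.inl r.1))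
        (Sum.elim (q.1 r.1) 0)) fun g => ?_)
    (PK.iInf fun r => PK.one (φ := fun q : QQ D k b c e =>
      ((evL (q.2.2.1 r.1)).comp (LinearMap.proj r.2) : (Fin b → WW D k) →ₗ[ℂ] ℂ)) fun g => ?_))
    (PK.inf (PK.iInf fun r => PK.one
      (φ := fun q : QQ D k b c e => sd r.2 (q.2.1 (Sum.inr r.1)) (q.2.2.1 r.1)) fun g => ?_)
    (PK.iInf fun r => PK.one (φ := fun q : QQ D k b c e =>
      ((evL (q.2.2.2 r.1)).comp (LinearMap.proj r.2) : (Fin b → WW D k) →ₗ[ℂ] ℂ)) fun g => ?_))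
  · simp only [sd_apply]
    exact LP.sum _ fun j _ => (lp_a _ _).mul (lp_evx _ _)
  · simp only [LinearMap.comp_apply, LinearMap.proj_apply, evL_apply]
    exact lp_evw _ _
  · simp only [sd_apply]
    exact LP.sum _ fun j _ => (lp_a _ _).mul (lp_evw _ _)
  · simp only [LinearMap.comp_apply, LinearMap.proj_apply, evL_apply]
    exact lp_evp _ _

end LSaux

open _root_.Pool.Agent.WarQ.LSaux

theorem x_LS (hR : S_LR) : S_LS := by
  intro D k b c h1 h2 h3 h4
  obtain ⟨x, a, w, p, h⟩ := hR D k b c h1 h2 h3 h4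
  refine ((pk (D := D) (k := k + 2) (b := b) (c := c) (e := eo D k - c)).gen_bot
    (x₀ := (x, a, w, p)) ?_).mono fun q hq g hg hRC => ?_
  · rw [eq_bot_iff]
    intro g hg
    have hg' := (mem_ZZ _ _).1 hg
    rw [Submodule.mem_bot]
    funext j
    exact Subtype.ext (h _ (fun j => (mem_WW.1 (g j).2).1) hg' j)
  · have hz : (fun j => (⟨g j, mem_WW.2 ⟨hg j, hRC.1 j⟩⟩ : WW D (k + 2))) ∈ ZZ q :=
      (mem_ZZ _ _).2 hRC
    have hz' : ZZ q = ⊥ := hq
    rw [hz', Submodule.mem_bot] at hz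
    intro j
    exact congrArg Subtype.val (congrFun hz j)

end Pool.Agent.WarQ


end

section

/-!
# Simultaneous Waring decompositions (MP_db021c_ag): block lemma, second case   (helper76)

Section (3) of `Pool/Agent/War/PAPER.md`, `D ≥ 1`, `q + D ≥ n`.
-/

set_option autoImplicit false

open Module MvPolynomial

namespace Pool.Agent.War

theorem Kill.reindexC1 {n d : ℕ} {α β γ α' β' : Type} [Fintype γ] {z : α → Fin n → ℂ}
    {a : α → γ → ℂ} {y : β → Fin n → ℂ} (h : Kill n d z a y) (e : α' ≃ α) (e' : β' ≃ β) :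
    Kill n d (z ∘ e) (a ∘ e) (y ∘ e') := by
  intro f hf h1 h2 h3
  refine h f hf (fun i j => ?_) (fun i k => ?_) (fun i j => ?_)
  · simpa using h1 (e.symm i) j
  · simpa using h2 (e.symm i) k
  · simpa using h3 (e'.symm i) j

/-- conditions on the restrictions to the hyperplane -/
def TrC1 (ν d : ℕ) {α β γ : Type} [Fintype γ] (x : (α ⊕ β → Fin ν → ℂ) × (α → γ → ℂ)) :
    Submodule ℂ (γ → Pol ν d) where
  carrier := {f | (∀ i j, eval (x.1 i) (f j : MvPolynomial (Fin ν) ℂ) = 0) ∧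
    ∀ i k, ∑ j, x.2 i j * eval (x.1 (Sum.inl i)) (pderiv k (f j : MvPolynomial (Fin ν) ℂ)) = 0}
  add_mem' := by
    rintro f g ⟨h1, h2⟩ ⟨k1, k2⟩
    refine ⟨fun i j => ?_, fun i k => ?_⟩
    · rw [Pi.add_apply, Submodule.coe_add, map_add, h1, k1, add_zero]
    · simp only [Pi.add_apply, Submodule.coe_add, map_add, mul_add, Finset.sum_add_distrib,
        h2 i k, k2 i k, add_zero]
  zero_mem' := by simp
  smul_mem' := by
    rintro c f ⟨h1, h2⟩
    refine ⟨fun i j => ?_, fun i k => ?_⟩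
    · rw [Pi.smul_apply, Submodule.coe_smul, smul_eval, h1, mul_zero]
    · have : ∀ j, x.2 i j * eval (x.1 (Sum.inl i)) (pderiv k ((c • f) j : MvPolynomial (Fin ν) ℂ))
          = c * (x.2 i j * eval (x.1 (Sum.inl i)) (pderiv k (f j : MvPolynomial (Fin ν) ℂ))) := by
        intro j
        rw [Pi.smul_apply, Submodule.coe_smul, (pderiv k).map_smul, smul_eval]
        ring
      simp only [this, ← Finset.mul_sum, h2 i k, mul_zero]

theorem mem_TrC1 {ν d : ℕ} {α β γ : Type} [Fintype γ]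
    {x : (α ⊕ β → Fin ν → ℂ) × (α → γ → ℂ)} {f : γ → Pol ν d} :
    f ∈ TrC1 ν d x ↔ (∀ i j, eval (x.1 i) (f j : MvPolynomial (Fin ν) ℂ) = 0) ∧
    ∀ i k, ∑ j, x.2 i j * eval (x.1 (Sum.inl i)) (pderiv k (f j : MvPolynomial (Fin ν) ℂ)) = 0 :=
  Iff.rfl

theorem LP_fstC1 {ν : ℕ} {α β γ : Type} (i : α ⊕ β) (f : MvPolynomial (Fin ν) ℂ) :
    LP (K := ℂ) (X := (α ⊕ β → Fin ν → ℂ) × (α → γ → ℂ)) fun x => eval (x.1 i) f :=
  (LP_eval f).comp_linear ((pt i).comp (LinearMap.fst ℂ (α ⊕ β → Fin ν → ℂ) (α → γ → ℂ)))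

theorem LP_sndC1 {ν : ℕ} {α β γ : Type} (i : α) (j : γ) :
    LP (K := ℂ) (X := (α ⊕ β → Fin ν → ℂ) × (α → γ → ℂ)) fun x => x.2 i j :=
  LP.linear ((LinearMap.proj j : (γ → ℂ) →ₗ[ℂ] ℂ).comp
    ((LinearMap.proj i : (α → γ → ℂ) →ₗ[ℂ] (γ → ℂ)).comp
      (LinearMap.snd ℂ (α ⊕ β → Fin ν → ℂ) (α → γ → ℂ))))

theorem sum_dvC1 {ν d : ℕ} {α β γ : Type} [Fintype γ]
    (x : (α ⊕ β → Fin ν → ℂ) × (α → γ → ℂ)) (i : α) (k : Fin ν) (v : γ → Pol ν d) :
    (∑ j, x.2 i j • (dv ν d k (x.1 (Sum.inl i))).comp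
      (LinearMap.proj j : (γ → Pol ν d) →ₗ[ℂ] Pol ν d)) v =
    ∑ j, x.2 i j * eval (x.1 (Sum.inl i)) (pderiv k (v j : MvPolynomial (Fin ν) ℂ)) := by
  simp only [LinearMap.sum_apply, LinearMap.smul_apply, LinearMap.comp_apply,
    LinearMap.proj_apply, dv_apply, smul_eq_mul]

theorem PK_TrC1 (ν d : ℕ) {α β γ : Type} [Fintype γ] [Fintype α] [Fintype β] :
    PK (K := ℂ) fun x : (α ⊕ β → Fin ν → ℂ) × (α → γ → ℂ) => TrC1 ν d x := by
  refine ⟨((α ⊕ β) × γ) ⊕ (α × Fin ν), inferInstance,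
    Sum.elim (fun q x => (ev ν d (x.1 q.1)).comp (LinearMap.proj q.2))
      (fun q x => ∑ j, x.2 q.1 j • (dv ν d q.2 (x.1 (Sum.inl q.1))).comp (LinearMap.proj j)),
      ?_, ?_⟩
  · rintro (q | q) v
    · have e1 : ∀ x : (α ⊕ β → Fin ν → ℂ) × (α → γ → ℂ),
          (ev ν d (x.1 q.1)).comp (LinearMap.proj q.2 : (γ → Pol ν d) →ₗ[ℂ] Pol ν d) v =
            eval (x.1 q.1) (v q.2 : MvPolynomial (Fin ν) ℂ) := fun x => ev_apply _ _
      change LP fun x : (α ⊕ β → Fin ν → ℂ) × (α → γ → ℂ) =>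
        (ev ν d (x.1 q.1)).comp (LinearMap.proj q.2 : (γ → Pol ν d) →ₗ[ℂ] Pol ν d) v
      simp only [e1]
      exact LP_fstC1 _ _
    · have e1 : ∀ x : (α ⊕ β → Fin ν → ℂ) × (α → γ → ℂ),
          (∑ j, x.2 q.1 j • (dv ν d q.2 (x.1 (Sum.inl q.1))).comp
            (LinearMap.proj j : (γ → Pol ν d) →ₗ[ℂ] Pol ν d)) v =
            ∑ j, x.2 q.1 j * eval (x.1 (Sum.inl q.1))
              (pderiv q.2 (v j : MvPolynomial (Fin ν) ℂ)) := fun x => sum_dvC1 x _ _ _
      change LP fun x : (α ⊕ β → Fin ν → ℂ) × (α → γ → ℂ) =>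
        (∑ j, x.2 q.1 j • (dv ν d q.2 (x.1 (Sum.inl q.1))).comp
            (LinearMap.proj j : (γ → Pol ν d) →ₗ[ℂ] Pol ν d)) v
      simp only [e1]
      exact LP.sum _ fun j _ => (LP_sndC1 _ _).mul (LP_fstC1 _ _)
  · intro x v
    rw [mem_TrC1]
    constructor
    · rintro ⟨k1, k2⟩ (q | q)
      · exact (ev_apply _ _).trans (k1 q.1 q.2)
      · exact (sum_dvC1 x q.1 q.2 v).trans (k2 q.1 q.2)
    · intro h
      exact ⟨fun i j => (ev_apply _ _).symm.trans (h (Sum.inl (i, j))),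
        fun i k => (sum_dvC1 x i k v).symm.trans (h (Sum.inr (i, k)))⟩

/-- value `∑ a_j g_j(z)` at a point of the hyperplane -/
noncomputable def OmC1 (ν d : ℕ) {γ : Type} [Fintype γ] (p : (Fin ν → ℂ) × (γ → ℂ)) :
    (γ → Pol (ν + 1) d) →ₗ[ℂ] ℂ :=
  ∑ j, p.2 j • (ev (ν + 1) d (hp p.1)).comp (LinearMap.proj j)

theorem OmC1_apply {ν d : ℕ} {γ : Type} [Fintype γ] (p : (Fin ν → ℂ) × (γ → ℂ))
    (g : γ → Pol (ν + 1) d) :
    OmC1 ν d p g = ∑ j, p.2 j * eval (hp p.1) (g j : MvPolynomial (Fin (ν + 1)) ℂ) := by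
  simp only [OmC1, LinearMap.sum_apply, LinearMap.smul_apply, LinearMap.comp_apply,
    LinearMap.proj_apply, ev_apply, smul_eq_mul]

theorem PK_OmC1 (ν d : ℕ) {α β γ : Type} [Fintype γ] [Fintype α] [Fintype β] :
    PK (K := ℂ) fun x : (α ⊕ β → Fin ν → ℂ) × (α → γ → ℂ) =>
      ⨅ i : α, LinearMap.ker (OmC1 ν d (x.1 (Sum.inl i), x.2 i)) := by
  refine PK.iInf fun i => PK.one
    (φ := fun x : (α ⊕ β → Fin ν → ℂ) × (α → γ → ℂ) => OmC1 ν d (x.1 (Sum.inl i), x.2 i))
    fun g => ?_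
  simp only [OmC1_apply, eval_hp]
  exact LP.sum _ fun j _ => (LP_sndC1 _ _).mul (LP_fstC1 _ _)

theorem finrank_pi_leC1 {γ V : Type} [Fintype γ] [AddCommGroup V] [Module ℂ V]
    [FiniteDimensional ℂ V] (W : γ → Submodule ℂ V) :
    finrank ℂ (Submodule.pi Set.univ W) ≤ ∑ j, finrank ℂ (W j) := by
  let L : (Submodule.pi Set.univ W) →ₗ[ℂ] (∀ j, W j) := LinearMap.pi fun j =>
    ((LinearMap.proj j).comp (Submodule.subtype _)).codRestrict (W j) fun f => f.2 j trivial
  have hL : Function.Injective L := by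
    intro f g h
    apply Subtype.ext
    funext j
    exact congrArg Subtype.val (congrFun h j)
  have h1 := LinearMap.finrank_le_finrank_of_injective hL
  rwa [Module.finrank_pi_fintype] at h1

theorem eval_X_mulC1 {ν : ℕ} (z : Fin (ν + 1) → ℂ) (g : MvPolynomial (Fin (ν + 1)) ℂ) :
    eval z (X 0 * g) = z 0 * eval z g := by simp

theorem eval_pderiv_X_mulC1 {ν : ℕ} (z : Fin (ν + 1) → ℂ) (g : MvPolynomial (Fin (ν + 1)) ℂ)
    (k : Fin (ν + 1)) : eval z (pderiv k (X 0 * g)) =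
      z 0 * eval z (pderiv k g) + (if k = 0 then 1 else 0) * eval z g := by
  rw [Derivation.leibniz]
  by_cases hk : k = 0
  · subst hk
    simp
  · rw [pderiv_X_of_ne (Ne.symm hk)]
    simp [hk]

theorem Dbl_of_mulXC1 {ν d : ℕ} {I : Type} {Q : Finset I} {z : I → Fin (ν + 1) → ℂ}
    (hz : ∀ i, z i 0 ≠ 0) {g : Pol (ν + 1) d} (h : mulX ν d g ∈ Dbl (ν + 1) (d + 1) Q z) :
    g ∈ Dbl (ν + 1) d Q z := by
  rw [mem_Dbl] at h ⊢
  obtain ⟨h1, h2⟩ := h
  simp only [mulX_coe] at h1 h2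
  have k1 : ∀ i, eval (z i) (g : MvPolynomial (Fin (ν + 1)) ℂ) = 0 := fun i => by
    have := h1 i
    rw [eval_X_mulC1] at this
    exact (mul_eq_zero.1 this).resolve_left (hz i)
  refine ⟨k1, fun i hi k => ?_⟩
  have := h2 i hi k
  rw [eval_pderiv_X_mulC1, k1, mul_zero, add_zero] at this
  exact (mul_eq_zero.1 this).resolve_left (hz i)

theorem exists_mulXC1 {ν d : ℕ} {f : Pol (ν + 1) (d + 1)}
    (h : res ν (f : MvPolynomial (Fin (ν + 1)) ℂ) = 0) : ∃ g : Pol (ν + 1) d, f = mulX ν d g := by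
  obtain ⟨g, hg, hfg⟩ := exists_of_res (mem_Pol.1 f.2) h
  exact ⟨⟨g, mem_Pol.2 hg⟩, Subtype.ext hfg⟩

theorem Dbl_eq_botC1 {n d : ℕ} {I : Type} {P : Finset I} {z : I → Fin n → ℂ} {k : ℕ}
    (h : finrank ℂ (Dbl n d P z) ≤ k) (hk : k = 0) : Dbl n d P z = ⊥ := by
  subst hk
  exact Submodule.finrank_eq_zero.1 (Nat.le_zero.1 h)

/-- trace: generically no nonzero tuple -/
theorem traceC1 (hSC : S_SC) (ν d b u eH : ℕ) (hν : 1 ≤ ν)
    (h1 : u = 0 ∨ (2 * ν ≤ d ∧ (ν + 2) * u ≤ NN ν (d - 2 * ν)))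
    (h2 : NN ν d ≤ ν * u + (b * u + eH)) :
    Gen ℂ fun x : ((Fin b × Fin u) ⊕ Fin eH → Fin ν → ℂ) × (Fin b × Fin u → Fin b → ℂ) =>
      TrC1 ν d x = ⊥ := by
  classical
  let P : Fin b → Finset ((Fin b × Fin u) ⊕ Fin eH) := fun j =>
    Finset.univ.map ⟨fun i : Fin u => Sum.inl (j, i), fun i i' h => by
      simpa using h⟩
  have hP : ∀ j, (P j).card = u := fun j => by simp [P]
  have hcard : Fintype.card ((Fin b × Fin u) ⊕ Fin eH) = b * u + eH := by simp
  obtain ⟨z0, hz0⟩ := (Gen.forall fun j : Fin b =>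
    hSC ν d ((Fin b × Fin u) ⊕ Fin eH) (P j) hν (by rw [hP]; exact h1)).exists
  have hD : ∀ j, Dbl ν d (P j) z0 = ⊥ := fun j =>
    Dbl_eq_botC1 (hz0 j) (by rw [hP, hcard]; omega)
  refine (PK_TrC1 ν d).gen_bot
    (x₀ := (z0, fun q => (Pi.single q.1 1 : Fin b → ℂ))) ?_
  rw [eq_bot_iff]
  intro f hf
  obtain ⟨k1, k2⟩ := mem_TrC1.1 hf
  rw [Submodule.mem_bot]
  funext j
  have : f j ∈ Dbl ν d (P j) z0 := by
    refine mem_Dbl.2 ⟨fun i => k1 i j, fun i hi k => ?_⟩
    obtain ⟨i', -, rfl⟩ := Finset.mem_map.1 hi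
    have := k2 (j, i') k
    change eval (z0 (Sum.inl (j, i'))) (pderiv k (f j : MvPolynomial (Fin ν) ℂ)) = 0
    simpa [Pi.single_apply] using this
  rw [hD, Submodule.mem_bot] at this
  rw [this]
  rfl

theorem C1_core (hSC : S_SC) (ν δ b u r c eH e : ℕ) (hν : 1 ≤ ν) (hc : c ≤ b)
    (h1 : u = 0 ∨ (2 * ν ≤ δ + 2 ∧ (ν + 2) * u ≤ NN ν (δ + 2 - 2 * ν)))
    (h2 : NN ν (δ + 2) ≤ ν * u + (b * u + eH))
    (h3 : 2 * (ν + 1) ≤ δ) (h3' : (ν + 1 + 2) * (r + 1) ≤ NN (ν + 1) (δ - 2 * (ν + 1)))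
    (h4 : NN (ν + 1) (δ + 1) ≤ (ν + 1) * (r + 1) + (b * r + c + e))
    (h5 : NN (ν + 1) δ ≤ (ν + 1) * r + (b * r + c + e))
    (h6 : (ν + 1) * (b - c) ≤ b * u) :
    ∃ (z : (Fin b × Fin u) ⊕ ((Fin b × Fin r) ⊕ Fin c) → Fin (ν + 1) → ℂ)
      (a : (Fin b × Fin u) ⊕ ((Fin b × Fin r) ⊕ Fin c) → Fin b → ℂ)
      (y : Fin eH ⊕ Fin e → Fin (ν + 1) → ℂ), Kill (ν + 1) (δ + 2) z a y := by
  classical
  -- the off points
  let own : (Fin b × Fin r) ⊕ Fin c → Fin b := Sum.elim Prod.fst (Fin.castLE hc)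
  let Q : Fin b → Finset (((Fin b × Fin r) ⊕ Fin c) ⊕ Fin e) := fun j =>
    (Finset.univ.filter fun q => own q = j).map ⟨Sum.inl, Sum.inl_injective⟩
  have hQ : ∀ j : Fin b, (Q j).card = r + if (j : ℕ) < c then 1 else 0 := by
    intro j
    have e1 : (Q j).card = (Finset.univ.filter fun q => own q = j).card := by simp [Q]
    have e2 : ∀ i : Fin b, (∑ _x : Fin r, if i = j then 1 else 0) = if i = j then r else 0 := by
      intro i
      by_cases h : i = j <;> simp [h]
    rw [e1, Finset.card_filter, Fintype.sum_sum_type, Fintype.sum_prod_type]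
    congr 1
    · change (∑ i : Fin b, ∑ _x : Fin r, if i = j then 1 else 0) = r
      rw [Finset.sum_congr rfl fun i _ => e2 i]
      simp
    · change (∑ t : Fin c, if Fin.castLE hc t = j then 1 else 0) = _
      by_cases h : (j : ℕ) < c
      · rw [if_pos h, Finset.sum_eq_single (⟨j, h⟩ : Fin c)]
        · exact if_pos (Fin.ext rfl)
        · intro t _ ht
          rw [if_neg]
          intro h'
          apply ht
          rw [Fin.ext_iff] at h' ⊢
          simpa using h'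
        · simp
      · rw [if_neg h]
        refine Finset.sum_eq_zero fun t _ => if_neg fun h' => h ?_
        rw [Fin.ext_iff] at h'
        simp only [Fin.val_castLE] at h'
        omega
  have hQ1 : ∀ j, (Q j).card ≤ r + 1 := fun j => by rw [hQ]; split_ifs <;> omega
  have hcard : Fintype.card (((Fin b × Fin r) ⊕ Fin c) ⊕ Fin e) = b * r + c + e := by simp
  have hmono : ∀ j, (ν + 1 + 2) * (Q j).card ≤ NN (ν + 1) (δ - 2 * (ν + 1)) := fun j =>
    (Nat.mul_le_mul_left _ (hQ1 j)).trans h3'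
  obtain ⟨z', ⟨hA, hB⟩, hC⟩ := (((Gen.forall fun j : Fin b =>
    hSC (ν + 1) (δ + 1) (((Fin b × Fin r) ⊕ Fin c) ⊕ Fin e) (Q j) (by omega)
      (Or.inr ⟨by omega, (hmono j).trans (NN_mono_right (by omega))⟩)).and
    (Gen.forall fun j : Fin b =>
      hSC (ν + 1) δ (((Fin b × Fin r) ⊕ Fin c) ⊕ Fin e) (Q j) (by omega)
      (Or.inr ⟨h3, hmono j⟩))).and
    (Gen.forall fun i : ((Fin b × Fin r) ⊕ Fin c) ⊕ Fin e =>
      Gen.ne (K := ℂ) (F := fun z : ((Fin b × Fin r) ⊕ Fin c) ⊕ Fin e → Fin (ν + 1) → ℂ => z i 0)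
        ((LP_coord (0 : Fin (ν + 1))).comp_linear (pt i)) (fun _ _ => 1) one_ne_zero)).exists
  have hB' : ∀ j, Dbl (ν + 1) δ (Q j) z' = ⊥ := fun j => by
    refine Dbl_eq_botC1 (hB j) ?_
    rw [hcard]
    have : (ν + 1) * r ≤ (ν + 1) * (Q j).card := Nat.mul_le_mul_left _ (by rw [hQ]; omega)
    omega
  -- the residual space
  let V : Submodule ℂ (Fin b → Pol (ν + 1) (δ + 1)) :=
    Submodule.pi Set.univ fun j => Dbl (ν + 1) (δ + 1) (Q j) z'
  have hVmem : ∀ g, g ∈ V ↔ ∀ j, g j ∈ Dbl (ν + 1) (δ + 1) (Q j) z' := fun g => by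
    simp [V, Submodule.mem_pi]
  have hV : finrank ℂ V ≤ b * u := by
    refine (finrank_pi_leC1 _).trans ?_
    have e1 : ∀ j : Fin b, finrank ℂ (Dbl (ν + 1) (δ + 1) (Q j) z') ≤
        if (j : ℕ) < c then 0 else ν + 1 := by
      intro j
      refine (hA j).trans ?_
      rw [hcard, hQ]
      split_ifs with h
      · omega
      · rw [add_zero]
        have : (ν + 1) * (r + 1) = (ν + 1) * r + (ν + 1) := by ring
        omega
    refine (Finset.sum_le_sum fun j _ => e1 j).trans ?_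
    have e2 : (∑ j : Fin b, if (j : ℕ) < c then 0 else ν + 1) = (ν + 1) * (b - c) := by
      rw [Fin.sum_univ_eq_sum_range (fun j => if j < c then 0 else ν + 1) b,
        Finset.sum_ite, Finset.sum_const_zero, zero_add, Finset.sum_const, smul_eq_mul, mul_comm]
      congr 1
      have : (Finset.range b).filter (fun x => ¬ x < c) = Finset.Ico c b := by
        ext x
        simp only [Finset.mem_filter, Finset.mem_range, Finset.mem_Ico]
        omega
      rw [this, Nat.card_Ico]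
    rw [e2]
    exact h6
  -- partial points on the hyperplane
  have hred : ∀ w ∈ V, w ∉ (⊥ : Submodule ℂ (Fin b → Pol (ν + 1) (δ + 1))) →
      ∃ y : (Fin ν → ℂ) × (Fin b → ℂ), OmC1 ν (δ + 1) y w ≠ 0 := by
    intro w hw hw0
    by_contra hcon
    push Not at hcon
    apply hw0
    rw [Submodule.mem_bot]
    funext j
    have e1 : ∀ p : Fin ν → ℂ, eval p (res ν (w j : MvPolynomial (Fin (ν + 1)) ℂ)) = 0 := by
      intro p
      have := hcon (p, Pi.single j 1)
      rw [OmC1_apply] at this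
      simpa [Pi.single_apply, eval_hp] using this
    have e2 : res ν (w j : MvPolynomial (Fin (ν + 1)) ℂ) = 0 :=
      MvPolynomial.funext fun p => by rw [e1, map_zero]
    obtain ⟨g, hg⟩ := exists_mulXC1 e2
    have e3 : g ∈ Dbl (ν + 1) δ (Q j) z' :=
      Dbl_of_mulXC1 hC (by rw [← hg]; exact (hVmem w).1 hw j)
    rw [hB', Submodule.mem_bot] at e3
    rw [hg, e3, map_zero]
    rfl
  obtain ⟨yy, hyy⟩ := red (OmC1 ν (δ + 1)) V ⊥ hred (b * u)
  have hyy' : V ⊓ ⨅ i, LinearMap.ker (OmC1 ν (δ + 1) (yy i)) = ⊥ := by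
    apply Submodule.finrank_eq_zero.1
    have : finrank ℂ (⊥ : Submodule ℂ (Fin b → Pol (ν + 1) (δ + 1))) = 0 := finrank_bot _ _
    rw [this] at hyy
    omega
  have hres : Gen ℂ fun x : ((Fin b × Fin u) ⊕ Fin eH → Fin ν → ℂ) × (Fin b × Fin u → Fin b → ℂ) =>
      (⨅ i : Fin b × Fin u, LinearMap.ker (OmC1 ν (δ + 1) (x.1 (Sum.inl i), x.2 i))).comap
        V.subtype = ⊥ := by
    have hPK := PK_OmC1 ν (δ + 1) (α := Fin b × Fin u) (β := Fin eH) (γ := Fin b)
    refine (PK.comap (V' := V) hPK V.subtype).gen_bot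
      (x₀ := (Sum.elim (fun q => (yy (finProdFinEquiv q)).1) (fun _ => 0),
        fun q => (yy (finProdFinEquiv q)).2)) ?_
    rw [eq_bot_iff]
    intro v hv
    rw [Submodule.mem_comap, Submodule.mem_iInf] at hv
    have : (v : Fin b → Pol (ν + 1) (δ + 1)) ∈
        V ⊓ ⨅ i, LinearMap.ker (OmC1 ν (δ + 1) (yy i)) := by
      refine ⟨v.2, (Submodule.mem_iInf _).2 fun i => ?_⟩
      have := hv (finProdFinEquiv.symm i)
      simp only [Sum.elim_inl, Equiv.apply_symm_apply] at this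
      exact this
    rw [hyy', Submodule.mem_bot] at this
    rw [Submodule.mem_bot]
    exact Subtype.ext this
  obtain ⟨x, hx1, hx2⟩ := ((traceC1 hSC ν (δ + 2) b u eH hν h1 h2).and hres).exists
  refine ⟨Sum.elim (fun i => hp (x.1 (Sum.inl i))) (fun i => z' (Sum.inl i)),
    Sum.elim x.2 (fun i => Pi.single (own i) 1),
    Sum.elim (fun i => hp (x.1 (Sum.inr i))) (fun i => z' (Sum.inr i)), ?_⟩
  intro f hf k1 k2 k3
  -- trace
  have t1 : (fun j => resL ν (δ + 2) ⟨f j, mem_Pol.2 (hf j)⟩) ∈ TrC1 ν (δ + 2) x := by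
    refine mem_TrC1.2 ⟨?_, fun i k => ?_⟩
    · rintro (i | i) j
      · have := k1 (Sum.inl i) j
        rw [Sum.elim_inl, eval_hp] at this
        exact this
      · have := k3 (Sum.inl i) j
        rw [Sum.elim_inl, eval_hp] at this
        exact this
    · have := k2 (Sum.inl i) k.succ
      simp only [Sum.elim_inl, eval_hp_pderiv] at this
      exact this
  rw [hx1, Submodule.mem_bot] at t1
  have t2 : ∀ j, ∃ g : Pol (ν + 1) (δ + 1), (⟨f j, mem_Pol.2 (hf j)⟩ : Pol (ν + 1) (δ + 2)) =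
      mulX ν (δ + 1) g := fun j => by
    refine exists_mulXC1 ?_
    have := congrArg Subtype.val (congrFun t1 j)
    simpa using this
  choose g hg using t2
  have hg' : ∀ j, f j = X 0 * (g j : MvPolynomial (Fin (ν + 1)) ℂ) := fun j =>
    congrArg Subtype.val (hg j)
  have t3 : g ∈ V := by
    rw [hVmem]
    intro j
    refine Dbl_of_mulXC1 hC ?_
    rw [← hg j]
    refine mem_Dbl.2 ⟨?_, fun i hi k => ?_⟩
    · rintro (i | i)
      · exact k1 (Sum.inr i) j
      · exact k3 (Sum.inr i) j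
    · obtain ⟨q, hq, rfl⟩ := Finset.mem_map.1 hi
      have hq' : own q = j := (Finset.mem_filter.1 hq).2
      have := k2 (Sum.inr q) k
      simp only [Sum.elim_inr, hq'] at this
      simpa [Pi.single_apply] using this
  have t4 : (⟨g, t3⟩ : V) ∈
      (⨅ i : Fin b × Fin u, LinearMap.ker (OmC1 ν (δ + 1) (x.1 (Sum.inl i), x.2 i))).comap
        V.subtype := by
    rw [Submodule.mem_comap, Submodule.mem_iInf]
    intro i
    rw [LinearMap.mem_ker, Submodule.subtype_apply, OmC1_apply]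
    have := k2 (Sum.inl i) 0
    simp only [Sum.elim_inl, hg', eval_pderiv_X_mulC1, hp_zero, zero_mul, zero_add,
      if_true, one_mul] at this
    exact this
  rw [hx2, Submodule.mem_bot] at t4
  intro j
  have : g j = 0 := congrFun (congrArg Subtype.val t4) j
  rw [hg', this]
  simp

theorem arith1C1 {ν b q r u c D μ N NH N1 N2 NH1 : ℕ} (hμq : (ν + 1) * q + D = μ)
    (hu : u + D = ν + 1) (hr : r + u = q) (hc1 : c ≤ b) (hc2 : c ≤ D) (hbn : b ≤ ν + 1)
    (hc3 : b * D ≤ (ν + 1) * c) (hμ : (2 * (ν + 1) + 1) * μ ≤ (ν + 1) * N)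
    (a2 : (2 * (ν + 1) + 1) * NH ≤ N) (hNs : N = NH + N1) (hNs' : N1 = NH1 + N2)
    (hb4 : 2 * (ν + 1) ^ 2 ≤ NH1) (hb5 : 2 * (ν + 1) ^ 2 ≤ NH) :
    ∃ eH e, NH ≤ ν * u + (b * u + eH) ∧ e + eH + (b * q + c) + μ = N ∧
      N1 ≤ (ν + 1) * (r + 1) + (b * r + c + e) ∧ N2 ≤ (ν + 1) * r + (b * r + c + e) ∧
      (ν + 1) * (b - c) ≤ b * u := by
  have hub : (ν + b) * u ≤ 2 * (ν + 1) ^ 2 := by
    calc (ν + b) * u ≤ (ν + (ν + 1)) * (ν + 1) := Nat.mul_le_mul (by omega) (by omega)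
      _ ≤ 2 * (ν + 1) ^ 2 := by nlinarith
  have hsq : ν + 1 ≤ 2 * (ν + 1) ^ 2 := by nlinarith
  have hmu2 : 2 * μ + NH ≤ N := by
    have : (2 * (ν + 1) + 1) * (2 * μ + NH) ≤ (2 * (ν + 1) + 1) * N := by
      calc (2 * (ν + 1) + 1) * (2 * μ + NH) =
          2 * ((2 * (ν + 1) + 1) * μ) + (2 * (ν + 1) + 1) * NH := by ring
        _ ≤ 2 * ((ν + 1) * N) + N := Nat.add_le_add (Nat.mul_le_mul_left 2 hμ) a2
        _ = (2 * (ν + 1) + 1) * N := by ring
    exact Nat.le_of_mul_le_mul_left this (by omega)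
  have hbq : b * q ≤ (ν + 1) * q := Nat.mul_le_mul_right _ hbn
  have hbr : b * q = b * r + b * u := by rw [← hr]; ring
  have hnr : (ν + 1) * q = (ν + 1) * r + (ν + 1) * u := by rw [← hr]; ring
  have hνbu : (ν + b) * u = ν * u + b * u := by ring
  have hνu : (ν + 1) * u = ν * u + u := by ring
  have hr1 : (ν + 1) * (r + 1) = (ν + 1) * r + (ν + 1) := by ring
  refine ⟨NH - (ν + b) * u, N - (NH - (ν + b) * u + (b * q + c) + μ), by omega, by omega,
    by omega, by omega, ?_⟩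
  have k2 : (ν + 1) * c + (ν + 1) * (b - c) = b * D + b * u := by
    rw [← mul_add, Nat.add_sub_cancel' hc1, ← mul_add, add_comm D u, hu, mul_comm]
  omega

theorem arith2C1 {ν q D μ N M : ℕ} (hμq : (ν + 1) * q + D = μ)
    (hμ : (2 * (ν + 1) + 1) * μ ≤ (ν + 1) * N)
    (a1 : (ν + 1 + 2) * N ≤ (2 * (ν + 1) + 1) * M) : (ν + 1 + 2) * q ≤ M := by
  have k1 : (2 * (ν + 1) + 1) * q ≤ N := by
    refine le_of_mul_le_mul_left (a := ν + 1) ?_ (Nat.succ_pos ν)
    calc (ν + 1) * ((2 * (ν + 1) + 1) * q) = (2 * (ν + 1) + 1) * ((ν + 1) * q) := by ring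
      _ ≤ (2 * (ν + 1) + 1) * μ := Nat.mul_le_mul_left _ (by omega)
      _ ≤ _ := hμ
  refine le_of_mul_le_mul_left (a := 2 * (ν + 1) + 1) ?_ (by omega)
  calc (2 * (ν + 1) + 1) * ((ν + 1 + 2) * q) = (ν + 1 + 2) * ((2 * (ν + 1) + 1) * q) := by ring
    _ ≤ (ν + 1 + 2) * N := Nat.mul_le_mul_left _ k1
    _ ≤ _ := a1

theorem arith3C1 {ν b D : ℕ} (hDlt : D < ν + 1) (hbn : b ≤ ν + 1) :
    (b * D + ν) / (ν + 1) ≤ b ∧ (b * D + ν) / (ν + 1) ≤ D ∧
      b * D ≤ (ν + 1) * ((b * D + ν) / (ν + 1)) := by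
  refine ⟨?_, ?_, ?_⟩
  · rw [← Nat.lt_succ_iff, Nat.div_lt_iff_lt_mul (Nat.succ_pos ν)]
    have : b * D ≤ b * ν := Nat.mul_le_mul_left _ (by omega)
    nlinarith
  · rw [← Nat.lt_succ_iff, Nat.div_lt_iff_lt_mul (Nat.succ_pos ν)]
    have : b * D ≤ (ν + 1) * D := Nat.mul_le_mul_right _ hbn
    nlinarith
  · have h1 := Nat.div_add_mod (b * D + ν) (ν + 1)
    have h2 : (b * D + ν) % (ν + 1) < ν + 1 := Nat.mod_lt _ (by omega)
    omega

theorem arith4C1 {ν b q D μ : ℕ} (hμq : (ν + 1) * q + D = μ) :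
    (b * μ + (ν + 1) - 1) / (ν + 1) = b * q + (b * D + ν) / (ν + 1) := by
  have e1 : b * μ = (ν + 1) * (b * q) + b * D := by rw [← hμq]; ring
  have e2 : b * μ + (ν + 1) - 1 = b * D + ν + (ν + 1) * (b * q) := by omega
  rw [e2, Nat.add_mul_div_left _ _ (Nat.succ_pos ν), add_comm]

/-- (3), second case -/
theorem C1 (hSC : S_SC) (hAR : S_AR) : S_C1 := by
  rintro n d b μ ⟨hn, hd, hb1, hbn, hnμ, hμ⟩ hD hq
  obtain ⟨ν, rfl⟩ : ∃ ν, n = ν + 1 := ⟨n - 1, by omega⟩
  obtain ⟨δ, rfl⟩ : ∃ δ, d = δ + 2 := ⟨d - 2, by omega⟩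
  obtain ⟨a1, a2, a3⟩ := hAR (ν + 1) (δ + 2) hn hd
  have hdeg : 2 * (ν + 1) ≤ δ := by
    have h1 : 2 * 2 ≤ (ν + 1) * (ν + 1) := Nat.mul_le_mul hn hn
    have h2 : (ν + 1) * (2 * 2) ≤ (ν + 1) * ((ν + 1) * (ν + 1)) := Nat.mul_le_mul_left _ h1
    have h3 : (ν + 1) ^ 3 = (ν + 1) * ((ν + 1) * (ν + 1)) := by ring
    omega
  rw [Nat.add_sub_cancel] at a2 a3
  have e1 : δ + 2 - 2 * (ν + 1) - 2 = δ - 2 * (ν + 1) := by omega
  rw [e1] at a1 a3
  have hμq : (ν + 1) * (μ / (ν + 1)) + μ % (ν + 1) = μ := Nat.div_add_mod μ (ν + 1)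
  have hDlt : μ % (ν + 1) < ν + 1 := Nat.mod_lt _ (by omega)
  generalize μ / (ν + 1) = q at hq hμq
  generalize μ % (ν + 1) = D at hq hD hμq hDlt
  obtain ⟨u, hu⟩ : ∃ u, u + D = ν + 1 := ⟨ν + 1 - D, by omega⟩
  obtain ⟨r, hr⟩ : ∃ r, r + u = q := ⟨q - u, by omega⟩
  obtain ⟨hc1, hc2, hc3⟩ := arith3C1 (b := b) hDlt hbn
  have hm := arith4C1 (b := b) hμq
  generalize (b * D + ν) / (ν + 1) = c at hc1 hc2 hc3 hm
  obtain ⟨eH, e, g1, g2, g3, g4, g5⟩ := arith1C1 hμq hu hr hc1 hc2 hbn hc3 hμ a2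
    (NN_succ ν (δ + 1)) (NN_succ ν δ) (a3.trans (NN_mono_right (by omega)))
    (a3.trans (NN_mono_right (by omega)))
  have hqN := arith2C1 hμq hμ a1
  have huν : (ν + 2) * u ≤ 2 * (ν + 1) ^ 2 := by
    have : u ≤ ν + 1 := by omega
    calc (ν + 2) * u ≤ (ν + 2) * (ν + 1) := Nat.mul_le_mul_left _ this
      _ ≤ 2 * (ν + 1) ^ 2 := by nlinarith
  have hr1 : (ν + 1 + 2) * (r + 1) ≤ (ν + 1 + 2) * q := Nat.mul_le_mul_left _ (by omega)
  obtain ⟨z, a, y, hK⟩ := C1_core hSC ν δ b u r c eH e (by omega) hc1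
    (Or.inr ⟨by omega, (huν.trans a3).trans (NN_mono_right (by omega))⟩)
    g1 hdeg (hr1.trans hqN) g3 g4 g5
  have hbr : b * q = b * r + b * u := by rw [← hr]; ring
  have hcα : Fintype.card ((Fin b × Fin u) ⊕ ((Fin b × Fin r) ⊕ Fin c)) =
      (b * μ + (ν + 1) - 1) / (ν + 1) := by
    simp only [Fintype.card_sum, Fintype.card_prod, Fintype.card_fin]
    rw [hm]
    omega
  have hcβ : Fintype.card (Fin eH ⊕ Fin e) =
      NN (ν + 1) (δ + 2) - μ - (b * μ + (ν + 1) - 1) / (ν + 1) := by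
    simp only [Fintype.card_sum, Fintype.card_fin]
    rw [hm]
    clear hcα g1 g3 g4 g5 hqN a1 a2 a3 hμ
    generalize NN (ν + 1) (δ + 2) = N at g2
    omega
  exact ⟨_, _, _, hK.reindexC1 (Fintype.equivFinOfCardEq hcα).symm
    (Fintype.equivFinOfCardEq hcβ).symm⟩

end Pool.Agent.War


end

section

/-!
# Simultaneous Waring decompositions (MP_db021c_ag), cubics, at least `n + 5` forms   (helper25)

`W(3, h, n, s)` for `s ≥ n + 5`. The block lemma of `War/Stmts.lean` in degree 3 for all `μ` with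
`(2 n + 5) μ ≤ n N`. Write `μ = n q + D`. The difficult case is `q + D < n`, `q ≥ 2`; by `WarQ.S_SB` (with
`d = 2`) it follows from a statement on quadrics, `QB n 2 b c D`, which is proved here for all
`n ≥ 4`, `D + 2 ≤ n` (it is false for `n = b = 3`, `c = D = 1`): `S_MRA`.

`MR n D b c`: `b` quadrics, `b` full points with pure vectors (form `k` is double at the point `k`), `c` full
points with arbitrary vectors, and `N(n,2) - (n + D) - (b + c)` simple points: the kernel has dimension at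
most `b D - n c` (truncated subtraction). All these statements were checked by computer
(`n ≤ 9`). Small `b` (`b + D ≤ N(D,2)`): the model with a linear space of `WarQ`. Large `b`: induction on `n` by
the trade lemma `S_TRD`. A statement `S_X` is proved by a theorem `x_X : S_X`, or `x_X (h : S_Y) ... : S_X`
if it uses others. All dimensions are over `ℂ`; conditions `finrank ≤ k` are generic as soon as they hold
at one point (`PK.gen_finrank`, `PK_MZ`).
-/

set_option autoImplicit false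

open Module MvPolynomial
open Pool.Agent.War Pool.Agent.WarS Pool.Agent.WarQ

namespace Pool.Agent.WarC

/-! ## 0. Definitions -/

/-- the vectors of the full points: pure for the first `b`, arbitrary for the last `c` -/
def vec {b c : ℕ} (a : Fin c → Fin b → ℂ) : Fin b ⊕ Fin c → Fin b → ℂ :=
  Sum.elim (fun k => Pi.single k 1) a

/-- parameters: `b` points (pure), `c` points (mixed), `e` simple points, `c` vectors -/
abbrev PT (n b c e : ℕ) : Type :=
  ((Fin b ⊕ Fin c) ⊕ Fin e → Fin n → ℂ) × (Fin c → Fin b → ℂ)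

/-- the `b`-tuples of polynomials of degree `≤ 2` with the conditions -/
def MZ (n : ℕ) {b c e : ℕ} (x : PT n b c e) : Submodule ℂ (Fin b → Pol n 2) :=
  TrC1 n 2 (x.1, vec x.2)

theorem mem_MZ {n b c e : ℕ} {x : PT n b c e} {f : Fin b → Pol n 2} : f ∈ MZ n x ↔
    (∀ i j, eval (x.1 i) (f j : MvPolynomial (Fin n) ℂ) = 0) ∧
    (∀ k v, eval (x.1 (Sum.inl (Sum.inl k))) (pderiv v (f k : MvPolynomial (Fin n) ℂ)) = 0) ∧
    ∀ l v, ∑ j, x.2 l j *
      eval (x.1 (Sum.inl (Sum.inr l))) (pderiv v (f j : MvPolynomial (Fin n) ℂ)) = 0 := by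
  unfold MZ
  rw [mem_TrC1]
  refine and_congr_right fun _ => ⟨fun h => ⟨fun k v => ?_, fun l v => h (Sum.inr l) v⟩,
    fun h => ?_⟩
  · have := h (Sum.inl k) v
    simpa [vec, Pi.single_apply] using this
  · rintro (k | l) v
    · simpa [vec, Pi.single_apply] using h.1 k v
    · exact h.2 l v

theorem PK_MZ (n : ℕ) {b c e : ℕ} : PK (K := ℂ) fun x : PT n b c e => MZ n x := by
  let L : PT n b c e →ₗ[ℂ]
      ((Fin b ⊕ Fin c) ⊕ Fin e → Fin n → ℂ) × (Fin b ⊕ Fin c → Fin b → ℂ) :=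
    { toFun := fun x => (x.1, Sum.elim 0 x.2)
      map_add' := fun x y => by
        refine Prod.ext rfl ?_
        funext i
        rcases i with i | i
        · exact (add_zero (0 : Fin b → ℂ)).symm
        · rfl
      map_smul' := fun r x => by
        refine Prod.ext rfl ?_
        funext i
        rcases i with i | i
        · exact (smul_zero (M := ℂ) (A := Fin b → ℂ) r).symm
        · rfl }
  have hL : ∀ x : PT n b c e,
      L x + (0, Sum.elim (fun k => Pi.single k 1) 0) = (x.1, vec x.2) := by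
    intro x
    refine Prod.ext (add_zero x.1) ?_
    funext i
    rcases i with i | i
    · exact zero_add (Pi.single i (1 : ℂ) : Fin b → ℂ)
    · exact add_zero (x.2 i)
  refine ((PK_TrC1 n 2).comp_affine L (0, Sum.elim (fun k => Pi.single k 1) 0)).congr fun x => ?_
  rw [hL]
  rfl

/-- the statement on quadrics -/
def MR (n D b c : ℕ) : Prop :=
  ∃ x : PT n b c (NN n 2 - (n + D) - (b + c)), finrank ℂ (MZ n x) ≤ b * D - n * c

/-- the combination of the forms with the coefficients `v` -/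
noncomputable def th {ν b : ℕ} (v : Fin b → ℂ) : (Fin b → Pol ν 2) →ₗ[ℂ] Pol ν 2 :=
  ∑ k, v k • LinearMap.proj k

theorem th_apply {ν b : ℕ} (v : Fin b → ℂ) (t : Fin b → Pol ν 2) :
    ((th v t : Pol ν 2) : MvPolynomial (Fin ν) ℂ) =
      ∑ k, C (v k) * (t k : MvPolynomial (Fin ν) ℂ) := by
  unfold th
  rw [LinearMap.sum_apply, Submodule.coe_sum]
  refine Finset.sum_congr rfl fun k _ => ?_
  rw [LinearMap.smul_apply, LinearMap.proj_apply, Submodule.coe_smul, smul_eq_C_mul]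

/-- the elements of `MZ` for which the combinations with the vectors `l ∈ L` vanish -/
noncomputable def TL {ν b c e : ℕ} (x : PT ν b c e) (L : Finset (Fin c)) :
    Submodule ℂ (Fin b → Pol ν 2) :=
  MZ ν x ⊓ ⨅ l ∈ L, LinearMap.ker (th (x.2 l))

/-- parameters of the trade lemma: `y : Fin c → ℂ^ν`, and `ν + 1 - 2 c` points of `ℂ^(ν+1)` -/
abbrev WY (ν c : ℕ) : Type := (Fin c → Fin ν → ℂ) × (Fin (ν + 1 - 2 * c) → Fin (ν + 1) → ℂ)

/-- general position in the trade lemma -/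
def GP {ν b c e : ℕ} (x : PT ν b c e) (q : WY ν c) : Prop :=
  (∀ i, q.2 i 0 ≠ 0) ∧ ∀ (k : Fin b) (g : MvPolynomial (Fin (ν + 1)) ℂ), g.totalDegree ≤ 1 →
    (∀ i, eval (q.2 i) g = 0) → (∀ l, eval (hp (x.1 (Sum.inl (Sum.inr l)))) g = 0) →
    (∀ l, eval (hp (q.1 l)) g = 0) → eval (hp (x.1 (Sum.inl (Sum.inl k)))) g = 0 → g = 0

/-! ## 1. Small `b`: the model with a linear space -/

/-- Change of basis in the space of the forms. The configuration may be taken general (`PK_TrC1`,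
`PK.gen_finrank`), so the first `b` vectors are linearly independent (nonzero determinant: `Gen.ne`, `LP.det`),
`A = (a (inl i) j)`. The map `f ↦ A f`, `g_i = ∑_j a (inl i) j f_j`, is an automorphism of the space of `b`-tuples;
the conditions for `g` are pure at the first `b` points and have the vectors `a (inr l) A⁻¹` at the others. -/
def S_PUR : Prop := ∀ n b c e r : ℕ,
  (∃ x : ((Fin b ⊕ Fin c) ⊕ Fin e → Fin n → ℂ) × (Fin b ⊕ Fin c → Fin b → ℂ),
    finrank ℂ (TrC1 n 2 x) ≤ r) → ∃ x : PT n b c e, finrank ℂ (MZ n x) ≤ r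

/-- No mixed points. `MZ ≤ ∏_k Dbl` (form `k` is double at the point `k`, simple at all the others; total number of
the points `N(n,2) - (n + D)`), dimension `≤ D` for each by `WarS.SG` and `GG n 2 1` (`WarM.ONE`);
`finrank_pi_leC1`. -/
def S_MR0 : Prop := ∀ n D b : ℕ, 1 ≤ n → (n + D) + b ≤ NN n 2 → MR n D b 0

/-- Cyclic intervals `S i = {i D, ..., i D + D - 1} mod n` (as in `WarQ.S_CYC`). The element `r` lies in `k_r` of them,
`k_r` = number of integers `≡ r mod n` in `[0, b D)`, so `|k_r - k_s| ≤ 1`, and `∑ k_r = b D`. If all `k_r ≤ c` the sum is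
`0`; otherwise all `k_r ≥ c` and the sum is `b D - n c`. -/
def S_CY : Prop := ∀ n b D : ℕ, D ≤ n → ∃ S : Fin b → Finset (Fin n), (∀ i, (S i).card = D) ∧
  ∀ c : ℕ, ∑ r, ((Finset.univ.filter fun i => r ∈ S i).card - c) ≤ b * D - n * c

/-- The residual lemma `WarQ.S_LR` with dimensions. Same configuration and same proof as in
`WarQ/LR.lean` (with `S_CY` in place of `S_CYC`; the vectors are `τ^j`): for `g` in the space, `g j = qq (γ₁ j) (γ₂ j)`, and each of the
`n = D + k + 2` vectors `γ_r ∈ ℂ^b` is orthogonal to the `c` vectors of the full points `w` and to the vectors of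
the points `x i` with `r ∉ S i`, i.e. to `b - k_r + c` vectors `τ^j`; these span a space of dimension
`min(b, b - k_r + c)` (Vandermonde), so `γ_r` lies in a space of dimension `≤ k_r - c`. `g ↦ (γ_r)` is injective and
linear (or: extend by more functionals), so the dimension is at most `∑_r (k_r - c) ≤ b D - n c`. -/
def S_LRB : Prop := ∀ D k b c : ℕ, 1 ≤ b → c ≤ D →
  ∃ q : LSaux.QQ D (k + 2) b c (eo D k - c),
    finrank ℂ (LSaux.ZZ q) ≤ b * D - (D + (k + 2)) * c

/-- Trace on the linear space, degree 2 (`WarQ.S_LT` with `2` in place of `3`, same proof). -/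
def S_LT2 : Prop := ∀ D b : ℕ, 1 ≤ D → b + D ≤ NN D 2 →
  Gen ℂ fun q : (Fin b → Fin D → ℂ) × (Fin b → Fin b → ℂ) × (Fin (NN D 2 - D - b) → Fin D → ℂ) =>
    ∀ f : Fin b → MvPolynomial (Fin D) ℂ, (∀ j, (f j).totalDegree ≤ 2) →
      (∀ i j, eval (q.1 i) (f j) = 0) →
      (∀ i v, ∑ j, q.2.1 i j * eval (q.1 i) (pderiv v (f j)) = 0) →
      (∀ t j, eval (q.2.2 t) (f j) = 0) → ∀ j, f j = 0

/-- Small `b`. `n = D + k + 2`, `Λ = {y = 0}` in the variables `Fin D ⊕ Fin (k + 2)` (see `WarQ/Stmts.lean` and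
`WarQ/L.lean`, where cubics are treated; for quadrics there is no hyperplane). On `Λ`: `b` full points and `N(D,2) - D - b`
simple points; by `S_LT2` all `f_j` vanish on `Λ`. Off `Λ`: `c` full points and `eo D k - c` simple points; the `f_j`
are in `LSaux.ZZ` (the `x`-derivatives at the points of `Λ` are automatically `0`). Choose the parameters generic for `S_LRB`
(`LSaux.pk`, `PK.gen_finrank`) and `S_LT2` at the same time. `N(D,2) - D - b + (eo D k - c) = N(n,2) - (n + D) - (b + c)`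
(`Laux.two_NN`, `two_eo`). This gives a configuration with general vectors; `S_PUR` makes it pure; rename the variables. -/
def S_LM : Prop := ∀ n D b c : ℕ, D + 2 ≤ n → 1 ≤ D → 1 ≤ b → c ≤ D → c ≤ b → b + D ≤ NN D 2 →
  MR n D b c

/-! ## 2. The trade lemma -/

/-- A lemma of Rado type. Induction on `c`, for the existence of one `y` (then `PK.gen_finrank`). Choose `y_c` such that
for every `L ⊆ {1..c-1}` for which `θ_c` is not identically zero on `V_L = {v : θ_l ≡ 0, l ∈ L}`, the functional `θ_c(y_c)` is not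
zero on `V_L` (finitely many generic conditions: `Gen.ne`, `Gen.finset`). On `V' = ker θ_c(y_c)` the hypothesis holds with `c - 1`:
if `θ_c` is not identically zero on `V_L` then `dim V'_L ≤ dim V_L - 1`, otherwise `V'_L ≤ V_{L ∪ {c}}`. -/
def S_RADO : Prop := ∀ (V : Type) [AddCommGroup V] [Module ℂ V] [FiniteDimensional ℂ V]
  (Y : Type) [AddCommGroup Y] [Module ℂ Y] (c ρ : ℕ) (θ : Fin c → Y → V →ₗ[ℂ] ℂ),
  (∀ l v, LP (K := ℂ) fun y => θ l y v) →
  (∀ L : Finset (Fin c), finrank ℂ ↥(⨅ l ∈ L, ⨅ y, LinearMap.ker (θ l y)) ≤ (c - L.card) + ρ) →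
  Gen ℂ fun y : Fin c → Y => finrank ℂ ↥(⨅ l, LinearMap.ker (θ l (y l))) ≤ ρ

/-- General position. For fixed `q`, `GP x q` is generic in `x` as soon as it holds for one `x` (for every `k` the subspace of
`Pol (ν+1) 1` cut out by the evaluations is `0`: `PK.gen_bot`, `Gen.forall`), and the same with `x` and `q` exchanged. Example:
all pure points `0`; mixed points `e_1, ..., e_c`, `y_l = e_(c+l)` (basis of `ℂ^ν`, `2 c ≤ ν`), `w_0 = (1, 0)`,
`w_i = (1, e_(2c+i))`, `1 ≤ i ≤ ν - 2 c`: these are `ν + 2` affinely independent points of `ℂ^(ν+1)`. -/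
def S_GEN : Prop := ∀ ν b c e : ℕ, 2 * c ≤ ν →
  Gen ℂ fun x : PT ν b c e => Gen ℂ fun q : WY ν c => GP x q

/-- The trade lemma. All full points are on the hyperplane `H = {x_0 = 0}`: pure points `z_k`, mixed points `Q_l` with vectors
`a_l`, and the `e` simple points, all from `x`. Off `H`, `ν + 1` simple points: `w_i` (`ν + 1 - 2 c` of them),
`w_0 + hp (Q_l - y_l)` (`c` of them), and `p_l = Fin.cons ε (y_l)` (`c` of them), `ε ≠ 0` small.
Every `F_k` of degree `≤ 2` is `t_k + x_0 g_k`, `t_k` without `x_0` (= `rename Fin.succ`), `g_k` of degree `≤ 1`; replace `g_k` by `g_k/ε`: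
for `ε ≠ 0` the map `(t, g) ↦ (t_k + ε⁻¹ x_0 g_k)_k` from `Z = MZ ν x × (Fin b → Pol (ν+1) 1)` is injective and its image contains
the kernel. The conditions on `(t, g) ∈ Z` are: (1) `g_k(hp z_k) = 0`, `∑_k a_lk g_k(hp Q_l) = 0` (derivative `∂_0` at the full points);
(2) `ε t_k(w) + w_0 g_k(w) = 0` for the points `w = w_i` and `w = w_0 + hp(Q_l - y_l)`; (3) `t_k(y_l) + g_k(p_l) = 0`.
They are polynomial in `ε` (`PK` in the parameter `ε ∈ ℂ`), so by `PK.gen_finrank` it is enough that the dimension is `≤ ρ` for `ε = 0`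
(then `Gen.and` with `ε ≠ 0`). Let `ε = 0`. By (2) `g_k` vanishes at all `w`; as `g_k` is affine,
`g_k(w_0 + hp(Q_l - y_l)) - g_k(w_0) = g_k(hp Q_l) - g_k(hp y_l)`, so `g_k(hp Q_l) = g_k(hp y_l) = - t_k(y_l)` by (3), and (1) gives
`∑_k a_lk t_k(y_l) = 0`: `t` is in the space of the hypothesis. If `t = 0` then `g_k` vanishes at `hp y_l`, `hp Q_l`, `w_i` and `hp z_k`,
so `g_k = 0` by `GP`. So the projection to `t` is injective. -/
def S_TRD : Prop := ∀ (ν b c e ρ : ℕ), 2 * c ≤ ν → ∀ (x : PT ν b c e) (q : WY ν c), GP x q →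
  finrank ℂ ↥(MZ ν x ⊓ ⨅ l, LinearMap.ker ((ev ν 2 (q.1 l)).comp (th (x.2 l)))) ≤ ρ →
  ∃ x' : PT (ν + 1) b c (e + (ν + 1)), finrank ℂ (MZ (ν + 1) x') ≤ ρ

/-- Dimension of `TL`, at least one combination vanishes. `TL` is `PK` in `x` (`th (x.2 l) t = 0` is expressed by the coordinates in a
basis of `Pol ν 2`), so one `x` is enough (`PK.gen_finrank`). Let `j = |L| ≥ 1`, `r = b - j ≤ ν`, `c' = min c r`. If `r = 0`, take the vectors
of `L` to be a basis: `TL = 0`. Otherwise take `x'` from `MR ν D r c'`. The vector of the `i`-th element of `L` is `e_(r+i) + α_i`, and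
the vectors with `l ∉ L` are in `ℂ^r` too (the first `r` coordinates). Then `t ∈ TL` is determined by `(t_k)_{k<r}`, `t_(r+i) = - α_i·(t_k)`;
the pure condition at the point `r + i` is the mixed condition for the `r` forms with the vector `- α_i`; so we have `j + (c - j) = c ≥ c'` mixed
conditions, and can match `c'` of them with those of `x'` (other vectors `0`); the points of `L` and all the others are simple; the total number
of points is `N(ν,2) - (ν + D)` in both cases. So `dim TL ≤ r D - ν c'`. If `c' = c` this is `≤ (c - j) + (b D - (ν+1) c)` as `j ≤ j D`;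
if `c' = r < c` it is `0` as `D ≤ ν`. -/
def S_TL1 : Prop := ∀ ν D b c : ℕ, 1 ≤ D → D ≤ ν → 1 ≤ c → c ≤ b → b ≤ ν + 1 →
  (ν + D) + (b + c) ≤ NN ν 2 →
  (∀ b' c', 1 ≤ b' → b' ≤ ν → c' ≤ b' → c' ≤ c → MR ν D b' c') →
  ∀ L : Finset (Fin c), L.Nonempty →
    Gen ℂ fun x : PT ν b c (NN ν 2 - (ν + D) - (b + c)) =>
      finrank ℂ (TL x L) ≤ (c - L.card) + (b * D - (ν + 1) * c)

/-- Dimension of `MZ` on the hyperplane (this is `TL` for `L = ∅`). If `b ≤ ν`: `MR ν D b c`, and `b D - ν c ≤ c + (b D - (ν+1) c)`.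
If `b = ν + 1`: project `t ↦ t_b`; `t_b` vanishes at all points and doubly at the point `b`: dimension `≤ D` generically (`WarS.SG`, `GG ν 2 1`,
`WarM.ONE`; the number of all points is `N(ν,2) - (ν + D)`). Kernel `t_b = 0`: the other `ν` forms are in `MZ` for the configuration with the last
coordinate of the vectors omitted and the point `b` as a simple one: dimension `≤ ν D - ν c` generically by `MR ν D ν c` (`Gen.comp` with
the projection of the parameters). Sum `D + ν (D - c) = c + ((ν+1) D - (ν+1) c)` since `c ≤ D`. -/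
def S_TL0 : Prop := ∀ ν D b c : ℕ, 1 ≤ D → D ≤ ν → 1 ≤ c → c ≤ b → c ≤ D → b ≤ ν + 1 →
  (ν + D) + (b + c) ≤ NN ν 2 →
  (∀ b' c', 1 ≤ b' → b' ≤ ν → c' ≤ b' → c' ≤ c → MR ν D b' c') →
  Gen ℂ fun x : PT ν b c (NN ν 2 - (ν + D) - (b + c)) =>
    finrank ℂ (MZ ν x) ≤ c + (b * D - (ν + 1) * c)

/-- The induction step. Choose `x` generic for `S_TL0`, for `S_TL1` (all `L`) and for `S_GEN`. `S_RADO` for `V = MZ ν x`,
`Y = ℂ^ν`, `θ_l(y) t = ∑_k a_lk t_k(y)`, `ρ = b D - (ν+1) c` (`⨅ y, ker θ_l(y)` is the set of the `t` with `th (a_l) t = 0`); so there are `(y, w)` with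
`GP` and dimension `≤ ρ`; `S_TRD`. Number of simple points: `N(ν,2) - (ν+D) - (b+c) + (ν+1) = N(ν+1,2) - (ν+1+D) - (b+c)`, as
`N(ν+1,2) = N(ν,2) + ν + 2`. -/
def S_STEP : Prop := ∀ ν D b c : ℕ, 1 ≤ D → D ≤ ν → 1 ≤ c → c ≤ b → c ≤ D → b ≤ ν + 1 →
  2 * c ≤ ν → (ν + D) + (b + c) ≤ NN ν 2 →
  (∀ b' c', 1 ≤ b' → b' ≤ ν → c' ≤ b' → c' ≤ c → MR ν D b' c') → MR (ν + 1) D b c

/-- Base of the induction: `n = 4`, `D = 1`, `c = 1`, `b = 3` and `b = 4`. Homogeneous coordinates `X_0 = 1 - x_1 - ... - x_4`,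
`X_i = x_i` of `ℂ⁴`, vertices `v_0 = 0`, `v_i = e_i`. Pure points `v_1, ..., v_b`, mixed point `v_0` with the vector `(1, ..., 1)`, simple points: the
centroids (all three coordinates `1/3`) of the triangles `{i, i+1, i+3}` mod 5, `i = 0, ..., 4`, and for `b = 3` also `v_4`. A quadric vanishing at the
vertices is `∑_{i<j} c_ij X_i X_j`, and at the centroid of `{i,j,k}` iff `c_ij + c_ik + c_jk = 0`; the gradient at the vertex `v_k` is zero iff `c_kj = 0` for all
`j`. For `f_k` (singular at `v_k`) one gets `f_k = λ_k (X_(k+1) X_(k+4) - X_(k+1) X_(k+2) - X_(k+3) X_(k+4))` (indices mod 5). Mixed condition at `v_0`: with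
`c^k` the coefficients of `f_k`, `∑_k c^k_0j = 0` for `j = 1..4`: `λ_1` (`c_02`), `-λ_1` (`c_04`), `-λ_2` (`c_01`), `-λ_3` (`c_04`), `-λ_4` (`c_01`), `λ_4` (`c_03`):
`j = 2`: `λ_1 = 0`; `j = 3`: `λ_4 = 0`; `j = 4`: `λ_3 = 0`; `j = 1`: `λ_2 = 0`. -/
def S_B4 : Prop := MR 4 1 3 1 ∧ MR 4 1 4 1

/-- All quadrics. Induction on `n`. `c = 0`: `S_MR0`. If `b + D ≤ N(D,2)`: `S_LM`. Otherwise `b ≥ (D² + D + 4)/2`. For `n = 4`: `D = 1`, `b ∈ {3,4}`:
`S_B4` (for `D = 2` one has `b + D ≤ 6 = N(2,2)`). For `n ≥ 5`: `n ≥ b ≥ (D² + D + 4)/2 ≥ 2 D + 1`, so `2 c ≤ n - 1`; and `D + 2 ≤ n - 1`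
(for `D = 1` as `n ≥ 5`, for `D ≥ 2` as `(D² + D + 4)/2 ≥ D + 3`); `S_STEP` with `ν = n - 1 ≥ 4`. -/
def S_MRA : Prop := ∀ n D b c : ℕ, 4 ≤ n → 1 ≤ D → D + 2 ≤ n → 1 ≤ b → b ≤ n → c ≤ b → c ≤ D →
  MR n D b c

/-! ## 3. Cubics -/

/-- Small `q` in degree 3. `q = 1`: `WarQ.S_Q3`. `q ≥ 2` (so `n ≥ 4`): `WarQ.x_SB` with `d = 2`, `ν = n - 1`, `q - 1`, and `QB n 2 b c D`, which is
`MR n D b c` since `b D ≤ n c` (`c ≤ D` from `n c < b (D + 1) ≤ n (D + 1)`). `GG ν 3 (q - 1)` from `WarM.AH`: `(2 n - 1)(n - 3) ≤ N(n-1,3)`.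
`Block n 3 b (n q + D)` has `b q + c` full points (`arith4C1`, see `WarM/BLKA.lean`). -/
def S_SM3 : Prop := ∀ n b c D q : ℕ, 1 ≤ c → c < b → b ≤ n → b * D ≤ n * c →
  n * c < b * (D + 1) → 1 ≤ D → 1 ≤ q → q + D < n → Block n 3 b (n * q + D)

/-- The block lemma in degree 3. As `WarM/BLKA.lean` and `WarM/MB.lean`. `μ = n q + D`, `c = ⌈b D / n⌉`. `D = 0`, or `c = b` and `q + D < n`: `WarM.PB`
(`(2 n + 1)(n - 1) ≤ N(n,3)`). `n ≤ q + D`: `WarM.CORE` with `ν = n - 1`, `δ = 1`, `u = q`, `r = 0`, `k = 0`,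
`w = q + D`, `eH = N(ν,3) - (ν + b) q`, `e = N(n,2) - c - w`; `(2 ν + 1) q ≤ N(ν,3)` as `(2 n - 1)(n + 3) ≤ n (2 n + 5)`.
`q + D < n`, `c < b`: `D' = ⌊n c / b⌋ ≥ D`; if `q + D' < n` then `S_SM3`, otherwise `WarM.CORE` with `D'`; `WarM.Block_anti`. -/
def S_BLK3 : Prop := ∀ n b μ : ℕ, 3 ≤ n → 1 ≤ b → b ≤ n → n ≤ μ →
  (2 * n + 5) * μ ≤ n * NN n 3 → Block n 3 b μ

/-- From the block lemma to the theorem; as `WarM/TOPA.lean`. -/
def S_TOP3 : Prop := ∀ n s h : ℕ, 3 ≤ n → n + 5 ≤ s → s ≤ h → h < NN n 3 →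
  s * NN n 3 ≤ h * (n + s) →
  ∃ (z : Fin h → Fin n → ℂ) (a : Fin h → Fin s → ℂ) (y : Fin 0 → Fin n → ℂ), Kill n 3 z a y

end Pool.Agent.WarC


end

section

/-!
# Simultaneous Waring decompositions (MP_db021c_ag), cubics, at least `n + 1` forms   (helper25)

`W(3, h, n, s)` for `s ≥ n + 1`, `n ≥ 3`. The block lemma in degree 3 for all `μ` with `(2 n + 1) μ ≤ n N` (with
three exceptional blocks which are not needed). New: the perturbation lemma `S_PERT` for quadrics with several full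
points for each form. The other cases are in `Stmts.lean` (`S_SM3`).
-/

set_option autoImplicit false

open Module MvPolynomial
open Pool.Agent.War Pool.Agent.WarS Pool.Agent.WarQ

namespace Pool.Agent.WarC

/-- midpoint -/
noncomputable def mid {n : ℕ} (u v : Fin n → ℂ) : Fin n → ℂ := fun i => (u i + v i) / 2

/-- Quadrics which are double at the points `z i` (`i < p`), vanish at the points `y j` (`j < p'`), at the midpoints of the
`y j`, and at the points `s t` (`t < e`): the dimension is generically at most (so, as expected)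
`N(n,2) + binom(p,2) - ((n+1) p + p' + binom(p',2) + e)` (truncated subtraction). Proof. The conditions are `PK` in the parameters, so one
configuration is enough (`PK.gen_finrank`). Take `p + p'` of the `n + 1` vertices `0, e_1, ..., e_n` of the simplex as the `z i`, `y j`. With
the barycentric coordinates `X_0 = 1 - ∑ x_i`, `X_i = x_i`, every `f` of degree `≤ 2` is `∑_{i ≤ j} c_ij X_i X_j`; `f` is double at the vertex `i` iff
`c_ij = 0` for all `j`; vanishes at the vertex `j` iff `c_jj = 0`; then it vanishes at the midpoint of the vertices `j`, `j'` iff `c_jj' = 0`. So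
the space for `e = 0` has dimension `≤ binom(n+2-p, 2) - p' - binom(p', 2)`, and `binom(n+2,2) - binom(n+2-p,2) = (n+1) p - binom(p,2)`.
Then `red`: every general simple point lowers the dimension by one until it is `0`. -/
def S_UK : Prop := ∀ n p p' e : ℕ, 1 ≤ n → p + p' ≤ n + 1 →
  Gen ℂ fun q : (Fin p → Fin n → ℂ) × (Fin p' → Fin n → ℂ) × (Fin e → Fin n → ℂ) =>
    finrank ℂ ↥((⨅ i : Fin p, LinearMap.ker (ev n 2 (q.1 i))) ⊓
      (⨅ i : Fin p × Fin n, LinearMap.ker (dv n 2 i.2 (q.1 i.1))) ⊓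
      (⨅ j : Fin p', LinearMap.ker (ev n 2 (q.2.1 j))) ⊓
      (⨅ j : Fin p' × Fin p', LinearMap.ker (ev n 2 (mid (q.2.1 j.1) (q.2.1 j.2)))) ⊓
      (⨅ t : Fin e, LinearMap.ker (ev n 2 (q.2.2 t)))) ≤
    NN n 2 + p.choose 2 - ((n + 1) * p + p' + p'.choose 2 + e)

/-- The perturbation lemma: `b` quadrics, `r k` full points `(k,i)` for the form `k`, `e` simple points; `σ` is a permutation
without fixed points. Expected kernel dimension `b w - n ∑ r`, `w = N(n,2) - (∑ r + e)`. Proof. The vectors are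
`a (k,i) = e_k + ε τ_i e_(σ k)`, `τ_i = i`, with `ε ≠ 0`. Let `f` be in the kernel, `i ≠ i'` two points `z, z'` of type `k`, `d = z' - z`.
All `f_j` vanish at `z` and `z'` and have degree `≤ 2`: `f_j(z + t d) = λ_j t (1 - t)`, so the derivatives in the direction `d` are `λ_j` at `z` and
`- λ_j` at `z'`, and `λ_j = 4 f_j(mid)`. The full conditions in the direction `d` give `λ_k + ε τ_i λ_(σ k) = 0`, `λ_k + ε τ_i' λ_(σ k) = 0`, so
`λ_(σ k) = 0`: `f_(σ k)` vanishes at `mid z z'`. So for `ε ≠ 0` the kernel is contained in the space `Z_ε` of the `f` with: all `f_j` vanish at all points,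
`∇f_k + ε τ_i ∇f_(σ k) = 0` at the point `(k,i)`, and `f_(σ k)` vanishes at all midpoints of the points of type `k`. `Z_ε` is `PK` in `ε ∈ ℂ`, and for
`ε = 0` it is contained in the product over `k` of the spaces `V_(σ k)`: double at the points of type `σ k`, zero at the points of type `k` and their midpoints, zero
at all the other points. Choose the points generic for `S_UK` for all `k` simultaneously (`Gen.forall`, `Gen.comp`; `p = r (σ k)`, `p' = r k`, the other
`∑ r - r k - r (σ k) + e` points are simple): `dim V_(σ k) ≤ w + binom(r (σ k),2) - n r (σ k) - binom(r k,2)`, and the sum over `k` is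
`b w - n ∑ r`, because each difference is `≥ 0` by the hypothesis. (`finrank_pi_leC1`; then `PK.gen_finrank` in `ε` and `Gen.and` with `ε ≠ 0`.) -/
def S_PERT : Prop := ∀ (n b e w : ℕ) (r : Fin b → ℕ) (σ : Equiv.Perm (Fin b)), 1 ≤ n →
  (∀ k, σ k ≠ k) → (∀ k, r k + r (σ k) ≤ n + 1) →
  (∑ k, r k) + e + w = NN n 2 →
  (∀ k, n * r (σ k) + (r k).choose 2 ≤ w + (r (σ k)).choose 2) →
  ∃ x : (((k : Fin b) × Fin (r k)) ⊕ Fin e → Fin n → ℂ) × (((k : Fin b) × Fin (r k)) → Fin b → ℂ),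
    finrank ℂ (TrC1 n 2 x) ≤ b * w - n * ∑ k, r k

/-- The Horace core in degree 3. As `SBaux.core` in `WarQ/SB.lean` (with `δ = 1`), where the generic bound `gA` now comes from the hypothesis and
`PK_TrC1`; the off points are indexed by `α` (full) and `Fin e` (simple). The polynomials of degree `≤ 1` vanishing at all off points are `0` since there are
at least `ν + 2 = N(ν+1,1)` of them (generic). -/
def S_COR3 : Prop := ∀ (ν b u e eH : ℕ) (α : Type) [Fintype α], 1 ≤ ν →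
  GG ν 3 u → NN ν 3 ≤ ν * u + (b * u + eH) → ν + 2 ≤ Fintype.card α + e →
  (∃ x : (α ⊕ Fin e → Fin (ν + 1) → ℂ) × (α → Fin b → ℂ), finrank ℂ (TrC1 (ν + 1) 2 x) ≤ b * u) →
  ∃ (z : (Fin b × Fin u) ⊕ α → Fin (ν + 1) → ℂ) (a : (Fin b × Fin u) ⊕ α → Fin b → ℂ)
    (y : Fin eH ⊕ Fin e → Fin (ν + 1) → ℂ), Kill (ν + 1) 3 z a y

/-- the exceptional blocks -/
def XB (n b μ : ℕ) : Prop :=
  (n = 4 ∧ b = 4 ∧ μ = 13) ∨ (n = 4 ∧ b = 4 ∧ μ = 15) ∨ (n = 5 ∧ b = 5 ∧ μ = 21)

/-- The choice of the numbers. `u = min q (N(n-1,3) / (2 n - 1))`, except `u = q` for `(n, q, D) = (4,3,1)`, `b ≤ 3`, and `(5,4,1)`, `b ≤ 4`.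
`(2 n + 1) q ≤ N(n,3)`, so `r ≤ (n+1)(n+2)(4 n - 3)/(6 (4 n² - 1)) + 1`. All the inequalities were checked by computer for `3 ≤ n < 60`, all `q, D, b`. The
last line: all forms have `w' := N(n,2) - (b r + c + e) = n r + D + u`. -/
def S_NUMC : Prop := ∀ n b q D c : ℕ, 3 ≤ n → 2 ≤ b → b ≤ n → 1 ≤ D → D < n → n ≤ q + D →
  b * D ≤ n * c → n * c < b * D + n → (2 * n + 1) * (n * q + D) ≤ n * NN n 3 →
  ¬ XB n b (n * q + D) →
  ∃ u r e : ℕ, u + r = q ∧ n ≤ u + D ∧ (n - 1 + b) * u ≤ NN (n - 1) 3 ∧ 9 * u ≤ (n + 2) ^ 2 ∧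
    2 * (r + 1) ≤ n + 1 ∧ (b * r + c) + e + (n * r + D + u) = NN n 2 ∧ n + 1 ≤ (b * r + c) + e

/-- The block lemma in degree 3. `μ = n q + D`, `c = ⌈b D / n⌉`. `D = 0`: `WarM.PB`, `WarM.AH`. `b = 1`: `WarM.PB` with `q + 1` (or `q` if `D = 0`) double points;
`GG n 3 p` for `9 p ≤ (n+3)²` is `War5.CUB` (`Pool/Agent/War5/Cub5.lean`). `q + D < n`: as in `S_BLK3` (`S_SM3`, `WarM.PB`; there `(2 n + 5) μ ≤ n N` is not
needed, `q + D ≤ n - 1` bounds everything; if `D' = ⌊n c / b⌋` has `q + D' ≥ n` use the next case for `n q + D'`, it is not exceptional and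
`(2 n + 1)(n q + D') ≤ (2 n + 1) n (n - 1) ≤ n N`, and `WarM.Block_anti`). `n ≤ q + D`, `b ≥ 2`: `S_NUMC`; residual: `S_PERT` for `σ` = rotation of `Fin b`, `r k = r + 1` for
`k < c`, `r k = r` for `k ≥ c` (`∑ r k = b r + c`; conditions: `n (r+1) + binom(r+1,2) ≤ w + binom(r+1,2)`, `n (r+1) + binom(r,2) ≤ w + binom(r+1,2)`,
`n r + binom(r+1,2) ≤ w + binom(r,2)`, `n r + binom(r,2) ≤ w + binom(r,2)` with `w = n r + D + u`, `D + u ≥ n ≥ r`), kernel dimension
`≤ b (n r + D + u) - n (b r + c) ≤ b u`; then `S_COR3` with `ν = n - 1`, `eH = N(n-1,3) - (n - 1 + b) u`, `GG (n-1) 3 u` from `War5.CUB`. -/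
def S_BLKC : Prop := ∀ n b μ : ℕ, 3 ≤ n → 1 ≤ b → b ≤ n → n ≤ μ →
  (2 * n + 1) * μ ≤ n * NN n 3 → ¬ XB n b μ → Block n 3 b μ

/-- From the block lemma to the theorem; as `WarM/TOPA.lean`, blocks of size `n` and a last one. In the cases where the blocks of size `n` are
exceptional two smaller blocks are used: `(n, μ) = (4, 13)`: `s = 5 = 3 + 2`, `s = 6 = 3 + 3` (`(4 + s) 13 ≤ 140` gives `s ≤ 6`);
`(4, 15)`: `s = 5 = 3 + 2` (`12 + 8 = 20 = h`); `(5, 21)`: `s = 6, 7, 8 = 3 + 3, 4 + 3, 4 + 4` (`26, 30, 34 ≤ 35 = h`). -/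
def S_TOPC : Prop := ∀ n s h : ℕ, 3 ≤ n → n + 1 ≤ s → s ≤ h → h < NN n 3 →
  s * NN n 3 ≤ h * (n + s) →
  ∃ (z : Fin h → Fin n → ℂ) (a : Fin h → Fin s → ℂ) (y : Fin 0 → Fin n → ℂ), Kill n 3 z a y

end Pool.Agent.WarC


end

section

/-!
# Simultaneous Waring decompositions (MP_db021c_ag), all degrees: statements   (helper27)

At least `n + 1` forms, all degrees `d ≥ 4`. The block lemma `Block n d b μ` of `War/Stmts.lean` for all `μ`
with `(2 n + 1) μ ≤ n N`. `GG n d p` (File `War/Hor.lean`): `p` double points can be independent in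
degree `d`.
-/

set_option autoImplicit false

open Module MvPolynomial
open Pool.Agent.War

namespace Pool.Agent.WarM

/-- Half of the Alexander-Hirschowitz range. Cubics: an explicit configuration; `d ≥ 4`: Horace. -/
def S_AH : Prop := ∀ n d p : ℕ, 1 ≤ n → 3 ≤ d → (2 * n + 1) * p ≤ NN n d → GG n d p

/-- One double point. `f ↦ (f(0), ∇ f(0))` is surjective on the polynomials of degree `≤ 1`. -/
def S_ONE : Prop := ∀ n d : ℕ, 1 ≤ d → GG n d 1

/-- The core of the block lemma: Horace with a flexible number of points on the hyperplane.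
As `C1_core` in `War/C1.lean`. On `x₀ = 0`: `b u` full points with general vectors and `eH` simple points.
Off the hyperplane: `b r + c` full points with pure vectors (`r` for each form, one more for the first `c` forms) and
`e` simple points. Trace: pure vectors. Residual: `V = ∏ V_j`, `dim V_j ≤ w - (ν + 1)` for `j < c`,
`≤ w` otherwise; so `dim V ≤ b u`. No element of `V` vanishes on the hyperplane: use only `k` of the double
points of each form in degree `δ`. So `b u` general points with vectors kill `V`. -/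
def S_CORE : Prop := ∀ ν δ b u r c eH e w k : ℕ, 1 ≤ ν → c ≤ b →
  GG ν (δ + 2) u → NN ν (δ + 2) ≤ ν * u + (b * u + eH) →
  GG (ν + 1) (δ + 1) (r + 1) → GG (ν + 1) (δ + 1) r → GG (ν + 1) δ k → k ≤ r →
  NN (ν + 1) (δ + 1) ≤ (b * r + c + e) + (ν + 1) * r + w → ν + 1 ≤ w →
  b * w ≤ b * u + (ν + 1) * c →
  NN (ν + 1) δ ≤ (ν + 1) * k + (b * r + c + e) →
  ∃ (z : (Fin b × Fin u) ⊕ ((Fin b × Fin r) ⊕ Fin c) → Fin (ν + 1) → ℂ)
    (a : (Fin b × Fin u) ⊕ ((Fin b × Fin r) ⊕ Fin c) → Fin b → ℂ)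
    (y : Fin eH ⊕ Fin e → Fin (ν + 1) → ℂ), Kill (ν + 1) (δ + 2) z a y

/-- The choice of the numbers, `n ≥ 3`, `d ≥ 4`: `u = min q (NN (n-1) d / (2n-1))`, `r = q - u`,
`k = min r (NN n (d-2) / (2n+1))` (`min r 1` for `d = 4`), `w = u + D`. -/
def S_NUM : Prop := ∀ n d q D : ℕ, 3 ≤ n → 4 ≤ d → 1 ≤ D → D < n → n ≤ q + D →
  (2 * n + 1) * (n * q + D) ≤ n * NN n d →
  ∃ u r k : ℕ, u + r = q ∧ n ≤ u + D ∧ (2 * n - 1) * u ≤ NN (n - 1) d ∧
    (2 * n + 1) * (r + 1) ≤ NN n (d - 1) ∧ k ≤ r ∧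
    (k ≤ 1 ∨ (5 ≤ d ∧ (2 * n + 1) * k ≤ NN n (d - 2))) ∧
    2 * n * r + u + 2 * D ≤ NN n (d - 1) ∧
    n * r + u + D ≤ NN (n - 1) (d - 1) + n * k

/-- Main case of the block lemma. From `S_CORE`, `S_NUM`, `S_AH`, `S_ONE`, with `c = ⌈b D / n⌉`,
`eH = NN (n-1) d - (n - 1 + b) u`, `e` = the remaining simple points. -/
def S_MB : Prop := ∀ n d b μ : ℕ, 3 ≤ n → 4 ≤ d → 1 ≤ b → b ≤ n →
  (2 * n + 1) * μ ≤ n * NN n d → μ % n ≠ 0 → n ≤ μ / n + μ % n → Block n d b μ

/-- Pure case: `c = 0` or `c = b`: every form has `q` double points. As `War/C0.lean`, with `S_SG`. -/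
def S_PB : Prop := ∀ n d b q μ : ℕ, 1 ≤ n → 1 ≤ b → GG n d q → μ ≤ n * q →
  b * q = (b * μ + n - 1) / n → Block n d b μ

/-- Small case (helper34). -/
def S_SB : Prop := ∀ n d b c q D : ℕ, 3 ≤ n → 4 ≤ d → b ≤ n → 1 ≤ c → c < b → 1 ≤ q →
  D = n * c / b → q + D < n → Block n d b (n * q + D)

/-- The block lemma in all degrees. Let `q = μ / n`, `D = μ % n`, `c = ⌈b D / n⌉`. `D = 0`: `S_PB`. `n ≤ q + D`: `S_MB`.
`q + D < n` and `c = b`: `S_PB` with `q + 1 ≤ n - 1` double points. `c < b`: let `D' = n c / b ≥ D`, `μ' = n q + D'`; then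
`⌈b μ' / n⌉ = b q + c = ⌈b μ / n⌉` and `Block n d b μ'` (`S_MB` or `S_SB`) implies `Block n d b μ` (more simple points). -/
def S_BLKA : Prop := ∀ n d b μ : ℕ, 3 ≤ n → 4 ≤ d → 1 ≤ b → b ≤ n → n ≤ μ →
  (2 * n + 1) * μ ≤ n * NN n d → Block n d b μ

/-- From the block lemma to the theorem; as `War/TOP.lean`. -/
def S_TOPA : Prop := ∀ n d s h : ℕ, 3 ≤ n → 4 ≤ d → n + 1 ≤ s → s ≤ h → h < NN n d →
  s * NN n d ≤ h * (n + s) →
  ∃ (z : Fin h → Fin n → ℂ) (a : Fin h → Fin s → ℂ) (y : Fin 0 → Fin n → ℂ), Kill n d z a y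

end Pool.Agent.WarM


end

section

/-!
# Simultaneous Waring decompositions (MP_db021c_ag), few forms: the scalar lemma   (helper74)

General double points z i, i ∈ P, and general simple points z i, i ∉ P, cut out a space of
polynomials of dimension at most NN n d - (n * |P| + |I|), whenever |P| double points can be
independent.
-/

set_option autoImplicit false

open Module MvPolynomial
open Pool.Agent.War

namespace Pool.Agent.WarS

/-- the double and the simple points -/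
theorem SG_both {n d p : ℕ} (k : ℕ) (h : GG n d p) :
    ∃ (z : Fin p → Fin n → ℂ) (y : Fin k → Fin n → ℂ),
      finrank ℂ ↥(Dbl n d Finset.univ z ⊓ ⨅ i, LinearMap.ker (ev n d (y i))) ≤
        NN n d - ((n + 1) * p + k) := by
  obtain ⟨z, hz⟩ := h
  obtain ⟨y, hy⟩ := red (Y := Fin n → ℂ) (fun y => ev n d y) (Dbl n d Finset.univ z) ⊥ (by
    intro w _ hw
    by_contra hc
    push Not at hc
    apply hw
    rw [Submodule.mem_bot]
    apply Subtype.ext
    apply MvPolynomial.funext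
    intro x
    have := hc x
    rw [ev_apply] at this
    rw [this]
    simp) k
  refine ⟨z, y, hy.trans ?_⟩
  rw [finrank_bot]
  refine max_le ?_ (Nat.zero_le _)
  omega

theorem SG : S_SG := by
  classical
  intro n d I _ P hn hP
  obtain ⟨z, y, hzy⟩ := SG_both (Fintype.card I - P.card) hP
  have e1 : Fintype.card {i // i ∈ P} = P.card := Fintype.card_coe P
  have e2 : Fintype.card {i // ¬ i ∈ P} = Fintype.card I - P.card := by
    rw [Fintype.card_subtype_compl, e1]
  let a : {i // i ∈ P} ≃ Fin P.card := Fintype.equivFinOfCardEq e1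
  let b : {i // ¬ i ∈ P} ≃ Fin (Fintype.card I - P.card) := Fintype.equivFinOfCardEq e2
  let x₀ : I → Fin n → ℂ := fun i => if hi : i ∈ P then z (a ⟨i, hi⟩) else y (b ⟨i, hi⟩)
  have hle : Dbl n d P x₀ ≤ Dbl n d Finset.univ z ⊓ ⨅ i, LinearMap.ker (ev n d (y i)) := by
    intro f hf
    obtain ⟨f1, f2⟩ := mem_Dbl.1 hf
    rw [Submodule.mem_inf, Submodule.mem_iInf, mem_Dbl]
    have key : ∀ i : Fin P.card, x₀ (a.symm i).1 = z i := by
      intro i
      simp only [x₀]
      rw [dif_pos (a.symm i).2]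
      simp
    refine ⟨⟨fun i => ?_, fun i _ k => ?_⟩, fun i => ?_⟩
    · have := f1 (a.symm i).1
      rwa [key] at this
    · have := f2 (a.symm i).1 (a.symm i).2 k
      rwa [key] at this
    · rw [LinearMap.mem_ker, ev_apply]
      have := f1 (b.symm i).1
      simp only [x₀] at this
      rw [dif_neg (b.symm i).2] at this
      simpa using this
  refine (PK_Dbl n d P).gen_finrank (x₀ := x₀) ((Submodule.finrank_mono hle).trans (hzy.trans ?_))
  have h1 : P.card ≤ Fintype.card I := Finset.card_le_univ P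
  have h2 : (n + 1) * P.card = n * P.card + P.card := by ring
  omega

end Pool.Agent.WarS


end

section

/-!
# Simultaneous Waring decompositions (MP_db021c_ag): the core of the block lemma   (helper27)
-/

set_option autoImplicit false

open Module MvPolynomial
open Pool.Agent.War Pool.Agent.WarS

namespace Pool.Agent.WarM

/-- trace: generically no nonzero tuple -/
theorem trace (ν d b u eH : ℕ) (hν : 1 ≤ ν) (h1 : GG ν d u)
    (h2 : NN ν d ≤ ν * u + (b * u + eH)) :
    Gen ℂ fun x : ((Fin b × Fin u) ⊕ Fin eH → Fin ν → ℂ) × (Fin b × Fin u → Fin b → ℂ) =>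
      TrC1 ν d x = ⊥ := by
  classical
  let P : Fin b → Finset ((Fin b × Fin u) ⊕ Fin eH) := fun j =>
    Finset.univ.map ⟨fun i : Fin u => Sum.inl (j, i), fun i i' h => by
      simpa using h⟩
  have hP : ∀ j, (P j).card = u := fun j => by simp [P]
  have hcard : Fintype.card ((Fin b × Fin u) ⊕ Fin eH) = b * u + eH := by simp
  obtain ⟨z0, hz0⟩ := (Gen.forall fun j : Fin b =>
    SG ν d ((Fin b × Fin u) ⊕ Fin eH) (P j) hν (by rw [hP]; exact h1)).exists
  have hD : ∀ j, Dbl ν d (P j) z0 = ⊥ := fun j =>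
    Dbl_eq_botC1 (hz0 j) (by rw [hP, hcard]; omega)
  refine (PK_TrC1 ν d).gen_bot
    (x₀ := (z0, fun q => (Pi.single q.1 1 : Fin b → ℂ))) ?_
  rw [eq_bot_iff]
  intro f hf
  obtain ⟨k1, k2⟩ := mem_TrC1.1 hf
  rw [Submodule.mem_bot]
  funext j
  have : f j ∈ Dbl ν d (P j) z0 := by
    refine mem_Dbl.2 ⟨fun i => k1 i j, fun i hi k => ?_⟩
    obtain ⟨i', -, rfl⟩ := Finset.mem_map.1 hi
    have := k2 (j, i') k
    change eval (z0 (Sum.inl (j, i'))) (pderiv k (f j : MvPolynomial (Fin ν) ℂ)) = 0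
    simpa [Pi.single_apply] using this
  rw [hD, Submodule.mem_bot] at this
  rw [this]
  rfl

theorem Dbl_anti {n d : ℕ} {I : Type} {P P' : Finset I} (h : P' ⊆ P) (z : I → Fin n → ℂ) :
    Dbl n d P z ≤ Dbl n d P' z := by
  intro f hf
  rw [mem_Dbl] at hf ⊢
  exact ⟨hf.1, fun i hi k => hf.2 i (h hi) k⟩

theorem CORE : S_CORE := by
  intro ν δ b u r c eH e w k hν hc h1 h2 h3 h3' hk hkr h4 hw h6 h5
  classical
  -- the off points
  let own : (Fin b × Fin r) ⊕ Fin c → Fin b := Sum.elim Prod.fst (Fin.castLE hc)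
  let Q : Fin b → Finset (((Fin b × Fin r) ⊕ Fin c) ⊕ Fin e) := fun j =>
    (Finset.univ.filter fun q => own q = j).map ⟨Sum.inl, Sum.inl_injective⟩
  have hQ : ∀ j : Fin b, (Q j).card = r + if (j : ℕ) < c then 1 else 0 := by
    intro j
    have e1 : (Q j).card = (Finset.univ.filter fun q => own q = j).card := by simp [Q]
    have e2 : ∀ i : Fin b, (∑ _x : Fin r, if i = j then 1 else 0) = if i = j then r else 0 := by
      intro i
      by_cases h : i = j <;> simp [h]
    rw [e1, Finset.card_filter, Fintype.sum_sum_type, Fintype.sum_prod_type]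
    congr 1
    · change (∑ i : Fin b, ∑ _x : Fin r, if i = j then 1 else 0) = r
      rw [Finset.sum_congr rfl fun i _ => e2 i]
      simp
    · change (∑ t : Fin c, if Fin.castLE hc t = j then 1 else 0) = _
      by_cases h : (j : ℕ) < c
      · rw [if_pos h, Finset.sum_eq_single (⟨j, h⟩ : Fin c)]
        · exact if_pos (Fin.ext rfl)
        · intro t _ ht
          rw [if_neg]
          intro h'
          apply ht
          rw [Fin.ext_iff] at h' ⊢
          simpa using h'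
        · simp
      · rw [if_neg h]
        refine Finset.sum_eq_zero fun t _ => if_neg fun h' => h ?_
        rw [Fin.ext_iff] at h'
        simp only [Fin.val_castLE] at h'
        omega
  have hQG : ∀ j, GG (ν + 1) (δ + 1) (Q j).card := fun j => by
    rw [hQ]
    split_ifs
    · exact h3
    · exact h3'
  have hcard : Fintype.card (((Fin b × Fin r) ⊕ Fin c) ⊕ Fin e) = b * r + c + e := by simp
  -- subsets with `k` elements
  have hR : ∀ j, ∃ R ⊆ Q j, R.card = k := fun j =>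
    Finset.exists_subset_card_eq (by rw [hQ]; omega)
  choose R hRQ hRk using hR
  obtain ⟨z', ⟨hA, hB⟩, hC⟩ := (((Gen.forall fun j : Fin b =>
    SG (ν + 1) (δ + 1) (((Fin b × Fin r) ⊕ Fin c) ⊕ Fin e) (Q j) (by omega) (hQG j)).and
    (Gen.forall fun j : Fin b =>
      SG (ν + 1) δ (((Fin b × Fin r) ⊕ Fin c) ⊕ Fin e) (R j) (by omega)
      (by rw [hRk]; exact hk))).and
    (Gen.forall fun i : ((Fin b × Fin r) ⊕ Fin c) ⊕ Fin e =>
      Gen.ne (K := ℂ) (F := fun z : ((Fin b × Fin r) ⊕ Fin c) ⊕ Fin e → Fin (ν + 1) → ℂ => z i 0)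
        ((LP_coord (0 : Fin (ν + 1))).comp_linear (pt i)) (fun _ _ => 1) one_ne_zero)).exists
  have hB' : ∀ j, Dbl (ν + 1) δ (Q j) z' = ⊥ := fun j => by
    rw [eq_bot_iff]
    refine (Dbl_anti (hRQ j) z').trans ?_
    rw [Dbl_eq_botC1 (hB j) ?_]
    rw [hcard, hRk]
    omega
  -- the residual space
  let V : Submodule ℂ (Fin b → Pol (ν + 1) (δ + 1)) :=
    Submodule.pi Set.univ fun j => Dbl (ν + 1) (δ + 1) (Q j) z'
  have hVmem : ∀ g, g ∈ V ↔ ∀ j, g j ∈ Dbl (ν + 1) (δ + 1) (Q j) z' := fun g => by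
    simp [V, Submodule.mem_pi]
  have hV : finrank ℂ V ≤ b * u := by
    refine (finrank_pi_leC1 _).trans ?_
    have e1 : ∀ j : Fin b, finrank ℂ (Dbl (ν + 1) (δ + 1) (Q j) z') ≤
        if (j : ℕ) < c then w - (ν + 1) else w := by
      intro j
      refine (hA j).trans ?_
      rw [hcard, hQ]
      split_ifs with h
      · have : (ν + 1) * (r + 1) = (ν + 1) * r + (ν + 1) := by ring
        omega
      · rw [add_zero]
        omega
    refine (Finset.sum_le_sum fun j _ => e1 j).trans ?_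
    have e2 : (∑ j : Fin b, if (j : ℕ) < c then w - (ν + 1) else w) =
        c * (w - (ν + 1)) + (b - c) * w := by
      rw [Fin.sum_univ_eq_sum_range (fun j => if j < c then w - (ν + 1) else w) b,
        Finset.sum_ite, Finset.sum_const, Finset.sum_const, smul_eq_mul, smul_eq_mul]
      have f1 : (Finset.range b).filter (fun x => x < c) = Finset.range c := by
        ext x
        simp only [Finset.mem_filter, Finset.mem_range]
        omega
      have f2 : (Finset.range b).filter (fun x => ¬ x < c) = Finset.Ico c b := by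
        ext x
        simp only [Finset.mem_filter, Finset.mem_range, Finset.mem_Ico]
        omega
      rw [f1, f2, Finset.card_range, Nat.card_Ico]
    rw [e2]
    obtain ⟨w', rfl⟩ : ∃ w', w = w' + (ν + 1) := ⟨w - (ν + 1), by omega⟩
    obtain ⟨b', rfl⟩ : ∃ b', b = c + b' := ⟨b - c, by omega⟩
    rw [Nat.add_sub_cancel, Nat.add_sub_cancel_left]
    have f3 : (c + b') * (w' + (ν + 1)) = c * w' + b' * (w' + (ν + 1)) + (ν + 1) * c := by ring
    rw [f3] at h6
    omega
  -- points with vectors on the hyperplane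
  have hred : ∀ w ∈ V, w ∉ (⊥ : Submodule ℂ (Fin b → Pol (ν + 1) (δ + 1))) →
      ∃ y : (Fin ν → ℂ) × (Fin b → ℂ), OmC1 ν (δ + 1) y w ≠ 0 := by
    intro w hw hw0
    by_contra hcon
    push Not at hcon
    apply hw0
    rw [Submodule.mem_bot]
    funext j
    have e1 : ∀ p : Fin ν → ℂ, eval p (res ν (w j : MvPolynomial (Fin (ν + 1)) ℂ)) = 0 := by
      intro p
      have := hcon (p, Pi.single j 1)
      rw [OmC1_apply] at this
      simpa [Pi.single_apply, eval_hp] using this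
    have e2 : res ν (w j : MvPolynomial (Fin (ν + 1)) ℂ) = 0 :=
      MvPolynomial.funext fun p => by rw [e1, map_zero]
    obtain ⟨g, hg⟩ := exists_mulXC1 e2
    have e3 : g ∈ Dbl (ν + 1) δ (Q j) z' :=
      Dbl_of_mulXC1 hC (by rw [← hg]; exact (hVmem w).1 hw j)
    rw [hB', Submodule.mem_bot] at e3
    rw [hg, e3, map_zero]
    rfl
  obtain ⟨yy, hyy⟩ := red (OmC1 ν (δ + 1)) V ⊥ hred (b * u)
  have hyy' : V ⊓ ⨅ i, LinearMap.ker (OmC1 ν (δ + 1) (yy i)) = ⊥ := by
    apply Submodule.finrank_eq_zero.1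
    have : finrank ℂ (⊥ : Submodule ℂ (Fin b → Pol (ν + 1) (δ + 1))) = 0 := finrank_bot _ _
    rw [this] at hyy
    omega
  have hres : Gen ℂ fun x : ((Fin b × Fin u) ⊕ Fin eH → Fin ν → ℂ) × (Fin b × Fin u → Fin b → ℂ) =>
      (⨅ i : Fin b × Fin u, LinearMap.ker (OmC1 ν (δ + 1) (x.1 (Sum.inl i), x.2 i))).comap
        V.subtype = ⊥ := by
    have hPK := PK_OmC1 ν (δ + 1) (α := Fin b × Fin u) (β := Fin eH) (γ := Fin b)
    refine (PK.comap (V' := V) hPK V.subtype).gen_bot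
      (x₀ := (Sum.elim (fun q => (yy (finProdFinEquiv q)).1) (fun _ => 0),
        fun q => (yy (finProdFinEquiv q)).2)) ?_
    rw [eq_bot_iff]
    intro v hv
    rw [Submodule.mem_comap, Submodule.mem_iInf] at hv
    have : (v : Fin b → Pol (ν + 1) (δ + 1)) ∈
        V ⊓ ⨅ i, LinearMap.ker (OmC1 ν (δ + 1) (yy i)) := by
      refine ⟨v.2, (Submodule.mem_iInf _).2 fun i => ?_⟩
      have := hv (finProdFinEquiv.symm i)
      simp only [Sum.elim_inl, Equiv.apply_symm_apply] at this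
      exact this
    rw [hyy', Submodule.mem_bot] at this
    rw [Submodule.mem_bot]
    exact Subtype.ext this
  obtain ⟨x, hx1, hx2⟩ := ((trace ν (δ + 2) b u eH hν h1 h2).and hres).exists
  refine ⟨Sum.elim (fun i => hp (x.1 (Sum.inl i))) (fun i => z' (Sum.inl i)),
    Sum.elim x.2 (fun i => Pi.single (own i) 1),
    Sum.elim (fun i => hp (x.1 (Sum.inr i))) (fun i => z' (Sum.inr i)), ?_⟩
  intro f hf k1 k2 k3
  -- trace
  have t1 : (fun j => resL ν (δ + 2) ⟨f j, mem_Pol.2 (hf j)⟩) ∈ TrC1 ν (δ + 2) x := by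
    refine mem_TrC1.2 ⟨?_, fun i k => ?_⟩
    · rintro (i | i) j
      · have := k1 (Sum.inl i) j
        rw [Sum.elim_inl, eval_hp] at this
        exact this
      · have := k3 (Sum.inl i) j
        rw [Sum.elim_inl, eval_hp] at this
        exact this
    · have := k2 (Sum.inl i) k.succ
      simp only [Sum.elim_inl, eval_hp_pderiv] at this
      exact this
  rw [hx1, Submodule.mem_bot] at t1
  have t2 : ∀ j, ∃ g : Pol (ν + 1) (δ + 1), (⟨f j, mem_Pol.2 (hf j)⟩ : Pol (ν + 1) (δ + 2)) =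
      mulX ν (δ + 1) g := fun j => by
    refine exists_mulXC1 ?_
    have := congrArg Subtype.val (congrFun t1 j)
    simpa using this
  choose g hg using t2
  have hg' : ∀ j, f j = X 0 * (g j : MvPolynomial (Fin (ν + 1)) ℂ) := fun j =>
    congrArg Subtype.val (hg j)
  have t3 : g ∈ V := by
    rw [hVmem]
    intro j
    refine Dbl_of_mulXC1 hC ?_
    rw [← hg j]
    refine mem_Dbl.2 ⟨?_, fun i hi k => ?_⟩
    · rintro (i | i)
      · exact k1 (Sum.inr i) j
      · exact k3 (Sum.inr i) j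
    · obtain ⟨q, hq, rfl⟩ := Finset.mem_map.1 hi
      have hq' : own q = j := (Finset.mem_filter.1 hq).2
      have := k2 (Sum.inr q) k
      simp only [Sum.elim_inr, hq'] at this
      simpa [Pi.single_apply] using this
  have t4 : (⟨g, t3⟩ : V) ∈
      (⨅ i : Fin b × Fin u, LinearMap.ker (OmC1 ν (δ + 1) (x.1 (Sum.inl i), x.2 i))).comap
        V.subtype := by
    rw [Submodule.mem_comap, Submodule.mem_iInf]
    intro i
    rw [LinearMap.mem_ker, Submodule.subtype_apply, OmC1_apply]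
    have := k2 (Sum.inl i) 0
    simp only [Sum.elim_inl, hg', eval_pderiv_X_mulC1, hp_zero, zero_mul, zero_add,
      if_true, one_mul] at this
    exact this
  rw [hx2, Submodule.mem_bot] at t4
  intro j
  have : g j = 0 := congrFun (congrArg Subtype.val t4) j
  rw [hg', this]
  simp

end Pool.Agent.WarM


end

section

/-!
# Simultaneous Waring decompositions (MP_db021c_ag): one double point   (helper27)
-/

set_option autoImplicit false

open Module MvPolynomial
open Pool.Agent.War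

namespace Pool.Agent.WarM

/-- value and derivatives at the origin -/
noncomputable def jet (n d : ℕ) : Pol n d →ₗ[ℂ] Option (Fin n) → ℂ :=
  LinearMap.pi fun o => match o with
    | none => ev n d 0
    | some k => dv n d k 0

theorem jet_surj (n d : ℕ) (hd : 1 ≤ d) : Function.Surjective (jet n d) := by
  intro c
  let f : MvPolynomial (Fin n) ℂ := C (c none) + ∑ k : Fin n, C (c (some k)) * X k
  have hf : f.totalDegree ≤ d := by
    refine (totalDegree_add _ _).trans (max_le (by simp) ?_)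
    refine totalDegree_finsetSum_le fun k _ => ?_
    refine (totalDegree_mul _ _).trans ?_
    rw [totalDegree_C, totalDegree_X]
    omega
  refine ⟨⟨f, mem_Pol.2 hf⟩, ?_⟩
  funext o
  rcases o with _ | k
  · change ev n d 0 _ = _
    rw [ev_apply]
    simp [f]
  · change dv n d k 0 _ = _
    rw [dv_apply]
    simp only [f, map_add, map_sum, pderiv_C, Derivation.leibniz, pderiv_X, zero_add, smul_zero,
      add_zero, smul_eq_mul, map_mul, eval_C, Pi.single_apply]
    rw [Finset.sum_eq_single k]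
    · simp
    · intro i _ hi
      rw [if_neg hi]
      simp
    · simp

theorem ONE : S_ONE := by
  intro n d hd
  refine ⟨fun _ => 0, ?_⟩
  have h1 : Dbl n d (Finset.univ : Finset (Fin 1)) (fun _ => 0) ≤ LinearMap.ker (jet n d) := by
    intro f hf
    rw [mem_Dbl] at hf
    rw [LinearMap.mem_ker]
    funext o
    rcases o with _ | k
    · change ev n d 0 f = 0
      rw [ev_apply]
      exact hf.1 0
    · change dv n d k 0 f = 0
      rw [dv_apply]
      exact hf.2 0 (Finset.mem_univ _) k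
  have h2 := LinearMap.finrank_range_add_finrank_ker (jet n d)
  rw [LinearMap.range_eq_top.2 (jet_surj n d hd), finrank_top, finrank_fintype_fun_eq_card,
    Fintype.card_option, Fintype.card_fin] at h2
  have h3 := finrank_Pol_le n d
  have h4 := Submodule.finrank_mono h1
  omega

end Pool.Agent.WarM


end

section

/-!
# Simultaneous Waring decompositions (MP_db021c_ag): the choice of the numbers   (helper27)
-/

set_option autoImplicit false

open Pool.Agent.War

namespace Pool.Agent.WarM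

theorem NN_recd (m d : ℕ) : (d + 1) * NN m (d + 1) = (m + d + 1) * NN m d := by
  have h := Nat.choose_mul_succ_eq (m + d) m
  rw [show m + d + 1 - m = d + 1 by omega] at h
  unfold NN
  rw [show m + (d + 1) = m + d + 1 by ring]
  linarith

theorem NNb_two (m : ℕ) : 2 * NN m 2 = (m + 2) * (m + 1) := by
  have h := NN_recd m 1
  rw [NN_right_one] at h
  linarith

theorem NNb_three (m : ℕ) : 6 * NN m 3 = (m + 3) * (m + 2) * (m + 1) := by
  have h := NN_recd m 2
  have h2 := NNb_two m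
  norm_num at h
  have : 6 * NN m 3 = (m + 3) * (2 * NN m 2) := by linarith
  rw [this, h2]
  ring

theorem NNb_four (m : ℕ) : 24 * NN m 4 = (m + 4) * (m + 3) * (m + 2) * (m + 1) := by
  have h := NN_recd m 3
  have h2 := NNb_three m
  norm_num at h
  have : 24 * NN m 4 = (m + 4) * (6 * NN m 3) := by linarith
  rw [this, h2]
  ring

theorem NN_five (m : ℕ) : 120 * NN m 5 = (m + 5) * (m + 4) * (m + 3) * (m + 2) * (m + 1) := by
  have h := NN_recd m 4
  have h2 := NNb_four m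
  norm_num at h
  have : 120 * NN m 5 = (m + 5) * (24 * NN m 4) := by linarith
  rw [this, h2]
  ring

/-- `2 u ≤ NN m (e + 1)` -/
theorem num_u {m e u : ℕ} (hm : 2 ≤ m) (he : 2 ≤ e) (hu : (2 * m + 1) * u ≤ NN m (e + 2)) :
    2 * u ≤ NN m (e + 1) := by
  have h1 := NN_recd m (e + 1)
  have h2 : (e + 1 + 1) * ((2 * m + 1) * u) ≤ (m + (e + 1) + 1) * NN m (e + 1) :=
    (Nat.mul_le_mul_left _ hu).trans h1.le
  have h3 : 2 * (m + (e + 1) + 1) ≤ (e + 1 + 1) * (2 * m + 1) := by nlinarith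
  have h4 : (m + (e + 1) + 1) * (2 * u) ≤ (m + (e + 1) + 1) * NN m (e + 1) := by
    calc (m + (e + 1) + 1) * (2 * u) = 2 * (m + (e + 1) + 1) * u := by ring
      _ ≤ (e + 1 + 1) * (2 * m + 1) * u := Nat.mul_le_mul_right _ h3
      _ = (e + 1 + 1) * ((2 * m + 1) * u) := by ring
      _ ≤ _ := h2
  exact Nat.le_of_mul_le_mul_left h4 (by omega)

theorem num_m {m e : ℕ} (hm : 2 ≤ m) (he : 2 ≤ e) : 2 * m ≤ NN m (e + 1) := by
  have h1 : NN m 2 ≤ NN m (e + 1) := NN_mono_right (by omega)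
  have h2 := NNb_two m
  nlinarith

theorem num_big {m e : ℕ} (hm : 2 ≤ m) (he : 2 ≤ e) (h : e ≠ 2 ∨ 5 ≤ m) :
    (2 * m + 1) * (2 * m) ≤ NN m (e + 2) := by
  rcases Nat.lt_or_ge 2 e with he' | he'
  · have h1 : NN m 5 ≤ NN m (e + 2) := NN_mono_right (by omega)
    have h2 := NN_five m
    obtain ⟨t, rfl⟩ : ∃ t, m = t + 2 := ⟨m - 2, by omega⟩
    have h3 : 120 * ((2 * (t + 2) + 1) * (2 * (t + 2))) ≤
        (t + 2 + 5) * (t + 2 + 4) * (t + 2 + 3) * (t + 2 + 2) * (t + 2 + 1) := by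
      have e1 : (t + 2 + 5) * (t + 2 + 4) * (t + 2 + 3) * (t + 2 + 2) * (t + 2 + 1) =
          t ^ 5 + 25 * t ^ 4 + 245 * t ^ 3 + 1175 * t ^ 2 + 2754 * t + 2520 := by ring
      have e2 : 120 * ((2 * (t + 2) + 1) * (2 * (t + 2))) = 480 * t ^ 2 + 2160 * t + 2400 := by
        ring
      rw [e1, e2]
      have : 0 ≤ t ^ 5 + 25 * t ^ 4 + 245 * t ^ 3 + 695 * t ^ 2 := Nat.zero_le _
      omega
    omega
  · have he2 : e = 2 := by omega
    subst he2
    have hm5 : 5 ≤ m := by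
      rcases h with h | h
      · exact absurd rfl h
      · exact h
    have h2 := NNb_four m
    obtain ⟨t, rfl⟩ : ∃ t, m = t + 5 := ⟨m - 5, by omega⟩
    have h3 : 24 * ((2 * (t + 5) + 1) * (2 * (t + 5))) ≤
        (t + 5 + 4) * (t + 5 + 3) * (t + 5 + 2) * (t + 5 + 1) := by
      have e1 : (t + 5 + 4) * (t + 5 + 3) * (t + 5 + 2) * (t + 5 + 1) =
          t ^ 4 + 30 * t ^ 3 + 335 * t ^ 2 + 1650 * t + 3024 := by ring
      have e2 : 24 * ((2 * (t + 5) + 1) * (2 * (t + 5))) = 96 * t ^ 2 + 1008 * t + 2640 := by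
        ring
      rw [e1, e2]
      have : 0 ≤ t ^ 4 + 30 * t ^ 3 + 239 * t ^ 2 := Nat.zero_le _
      omega
    norm_num
    omega

/-- the last condition -/
theorem num_k {m e u r D : ℕ} (hm : 2 ≤ m) (he : 2 ≤ e) (hD : D ≤ m) (hr : 1 ≤ r)
    (hu : (2 * m + 1) * u ≤ NN m (e + 2))
    (h : (2 * m + 3) * r + 2 * u + 2 * D ≤ NN (m + 1) (e + 1) + (2 * m - 1)) :
    ∃ k ≤ r, (k ≤ 1 ∨ (5 ≤ e + 2 ∧ (2 * (m + 1) + 1) * k ≤ NN (m + 1) e)) ∧
      (m + 1) * r + u + D ≤ NN m (e + 1) + (m + 1) * k := by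
  have k1 := num_u hm he hu
  have k2 := num_m hm he
  have hN := NN_succ m e
  rcases Nat.lt_or_ge 2 e with he' | he'
  · -- `d ≥ 5`
    obtain ⟨κ, hκ⟩ : ∃ κ, κ = NN (m + 1) e / (2 * m + 3) := ⟨_, rfl⟩
    have hκ1 : (2 * m + 3) * κ ≤ NN (m + 1) e := by rw [hκ]; exact Nat.mul_div_le _ _
    have hκ2 : NN (m + 1) e < (2 * m + 3) * (κ + 1) := by
      rw [hκ]; exact Nat.lt_mul_div_succ _ (by omega)
    rcases Nat.lt_or_ge r κ with hrk | hrk
    · refine ⟨r, le_rfl, Or.inr ⟨by omega, ?_⟩, by omega⟩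
      refine le_trans ?_ hκ1
      rw [show 2 * (m + 1) + 1 = 2 * m + 3 by ring]
      exact Nat.mul_le_mul_left _ hrk.le
    · refine ⟨κ, hrk, Or.inr ⟨by omega, ?_⟩, ?_⟩
      · rw [show 2 * (m + 1) + 1 = 2 * m + 3 by ring]
        exact hκ1
      · obtain ⟨t, rfl⟩ : ∃ t, r = κ + t := ⟨r - κ, by omega⟩
        have h4 : NN m 4 ≤ NN m (e + 1) := NN_mono_right (by omega)
        have h5 := NNb_four m
        have h6 : 4 * m + 2 ≤ NN m (e + 1) := by
          obtain ⟨s, rfl⟩ : ∃ s, m = s + 2 := ⟨m - 2, by omega⟩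
          have e1 : (s + 2 + 4) * (s + 2 + 3) * (s + 2 + 2) * (s + 2 + 1) =
              s ^ 4 + 18 * s ^ 3 + 119 * s ^ 2 + 342 * s + 360 := by ring
          rw [e1] at h5
          have : 0 ≤ s ^ 4 + 18 * s ^ 3 + 119 * s ^ 2 := Nat.zero_le _
          omega
        have e1 : (2 * m + 3) * (κ + t) = (2 * m + 3) * κ + (2 * m + 3) * t := by ring
        have e2 : (2 * m + 3) * (κ + 1) = (2 * m + 3) * κ + (2 * m + 3) := by ring
        have e3 : (m + 1) * (κ + t) = (m + 1) * κ + (m + 1) * t := by ring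
        rw [e1] at h
        rw [e2] at hκ2
        rw [e3]
        have h7 : (2 * m + 3) * t + 2 * u + 2 * D ≤ NN m (e + 1) + (4 * m + 1) := by omega
        have h8 : (2 * m + 3) * ((m + 1) * t + u + D) ≤ (2 * m + 3) * NN m (e + 1) := by
          have e4 : (2 * m + 3) * ((m + 1) * t + u + D) =
              (m + 1) * ((2 * m + 3) * t + 2 * u + 2 * D) + (u + D) := by ring
          have e5 : (m + 1) * (NN m (e + 1) + (4 * m + 1)) + (u + D) ≤
              (2 * m + 3) * NN m (e + 1) := by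
            have e6 : (m + 1) * (4 * m + 1) ≤ (m + 1) * NN m (e + 1) :=
              Nat.mul_le_mul_left _ (by omega)
            have e7 : (m + 1) * (NN m (e + 1) + (4 * m + 1)) =
              (m + 1) * NN m (e + 1) + (m + 1) * (4 * m + 1) := by ring
            have e8 : (2 * m + 3) * NN m (e + 1) =
              (m + 1) * NN m (e + 1) + (m + 1) * NN m (e + 1) + NN m (e + 1) := by ring
            omega
          rw [e4]
          exact (Nat.add_le_add_right (Nat.mul_le_mul_left _ h7) _).trans e5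
        have h9 := Nat.le_of_mul_le_mul_left h8 (by omega)
        omega
  · have he2 : e = 2 := by omega
    subst he2
    refine ⟨1, hr, Or.inl le_rfl, ?_⟩
    norm_num at *
    -- `n N2 = 3 NH1`
    have h5 := NNb_two (m + 1)
    have h6 := NNb_three m
    have h7 : (m + 1) * NN (m + 1) 2 = 3 * NN m 3 := by
      have : 2 * ((m + 1) * NN (m + 1) 2) = 2 * (3 * NN m 3) := by
        calc 2 * ((m + 1) * NN (m + 1) 2) = (m + 1) * (2 * NN (m + 1) 2) := by ring
          _ = 2 * (3 * NN m 3) := by rw [h5]; linarith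
      omega
    rw [hN] at h
    obtain ⟨l, hl⟩ : ∃ l, l = m - 2 := ⟨_, rfl⟩
    have hml : m = l + 2 := by omega
    have h8 : (2 * m + 3) * ((m + 1) * r + u + D) ≤ (2 * m + 3) * (NN m 3 + (m + 1)) := by
      have e4 : (2 * m + 3) * ((m + 1) * r + u + D) =
          (m + 1) * ((2 * m + 3) * r + 2 * u + 2 * D) + (u + D) := by ring
      have e5 : (m + 1) * (NN m 3 + NN (m + 1) 2 + (2 * m - 1)) + (u + D) ≤
          (2 * m + 3) * (NN m 3 + (m + 1)) := by
        obtain ⟨a, ha⟩ : ∃ a, 2 * m - 1 = a := ⟨_, rfl⟩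
        have ha' : a + 1 = 2 * m := by omega
        rw [ha]
        have e6 : (m + 1) * (NN m 3 + NN (m + 1) 2 + a) =
            (m + 1) * NN m 3 + (m + 1) * NN (m + 1) 2 + (m + 1) * a := by ring
        rw [e6, h7]
        have e7 : (2 * m + 3) * (NN m 3 + (m + 1)) =
          (m + 1) * NN m 3 + 4 * NN m 3 + (m - 2) * NN m 3 + (2 * m + 3) * (m + 1) := by
          rw [← hl, hml]
          ring
        rw [e7]
        have e8 : (m + 1) * a ≤ (2 * m + 3) * (m + 1) := by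
          rw [mul_comm (2 * m + 3)]
          exact Nat.mul_le_mul_left _ (by omega)
        omega
      rw [e4]
      exact (Nat.add_le_add_right (Nat.mul_le_mul_left _ h) _).trans e5
    have h9 := Nat.le_of_mul_le_mul_left h8 (by omega)
    exact h9

theorem NUM : S_NUM := by
  intro n d q D hn hd hD1 hDn hq hμ
  obtain ⟨m, rfl⟩ : ∃ m, n = m + 1 := ⟨n - 1, by omega⟩
  obtain ⟨e, rfl⟩ : ∃ e, d = e + 2 := ⟨d - 2, by omega⟩
  have hm : 2 ≤ m := by omega
  have he : 2 ≤ e := by omega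
  rw [show m + 1 - 1 = m by omega, show e + 2 - 1 = e + 1 by omega, show e + 2 - 2 = e by omega,
    show 2 * (m + 1) - 1 = 2 * m + 1 by omega]
  have hN : NN (m + 1) (e + 2) = NN m (e + 2) + NN (m + 1) (e + 1) := NN_succ m (e + 1)
  have hN1 := NN_succ m e
  -- `(2n+1) q + 2 D + 1 ≤ N`
  have hq1 : (2 * m + 3) * q + 2 * D + 1 ≤ NN (m + 1) (e + 2) := by
    have h1 : (m + 1) * ((2 * m + 3) * q + 2 * D) < (m + 1) * NN (m + 1) (e + 2) := by
      refine lt_of_lt_of_le ?_ hμ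
      have : (2 * (m + 1) + 1) * ((m + 1) * q + D) =
        (m + 1) * ((2 * m + 3) * q + 2 * D) + D := by ring
      omega
    have := Nat.lt_of_mul_lt_mul_left h1
    omega
  obtain ⟨U, hU⟩ : ∃ U, U = NN m (e + 2) / (2 * m + 1) := ⟨_, rfl⟩
  have hU1 : (2 * m + 1) * U ≤ NN m (e + 2) := by rw [hU]; exact Nat.mul_div_le _ _
  have hU2 : NN m (e + 2) < (2 * m + 1) * (U + 1) := by
    rw [hU]; exact Nat.lt_mul_div_succ _ (by omega)
  have k2 := num_m hm he
  have k3 : m + 2 ≤ NN (m + 1) e := by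
    have h1 : NN (m + 1) 1 ≤ NN (m + 1) e := NN_mono_right (by omega)
    rw [NN_right_one] at h1
    exact h1
  rcases Nat.lt_or_ge U q with hUq | hUq
  · -- case B
    obtain ⟨r, rfl⟩ : ∃ r, q = U + r := ⟨q - U, by omega⟩
    have hr : 1 ≤ r := by omega
    have e2 : (2 * m + 1) * (U + 1) = (2 * m + 1) * U + (2 * m + 1) := by ring
    rw [e2] at hU2
    have e3 : (2 * m + 3) * (U + r) = (2 * m + 1) * U + 2 * U + (2 * m + 3) * r := by ring
    rw [e3] at hq1
    have h1 : (2 * m + 3) * r + 2 * U + 2 * D + 1 ≤ NN (m + 1) (e + 1) + 2 * m := by omega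
    obtain ⟨k, hk1, hk2, hk3⟩ := num_k (D := D) hm he (by omega) hr hU1 (by omega)
    have e4 : (2 * (m + 1) + 1) * (r + 1) = (2 * m + 3) * r + (2 * m + 3) := by ring
    have e5 : 2 * (m + 1) * r + r = (2 * m + 3) * r := by ring
    refine ⟨U, r, k, rfl, ?_, hU1, ?_, hk1, hk2, ?_, hk3⟩
    all_goals
      by_cases hex : e ≠ 2 ∨ 5 ≤ m
      · have hb := num_big hm he hex
        have hU3 : 2 * m ≤ U := by
          by_contra hc
          have : (2 * m + 1) * (U + 1) ≤ (2 * m + 1) * (2 * m) :=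
            Nat.mul_le_mul_left _ (by omega)
          omega
        omega
      · push Not at hex
        obtain ⟨hex1, hex2⟩ := hex
        subst hex1
        have f4 := NNb_four m
        have f3 := NNb_three (m + 1)
        norm_num at *
        interval_cases m <;> norm_num at * <;> omega
  · -- case A
    have hu : (2 * m + 1) * q ≤ NN m (e + 2) := (Nat.mul_le_mul_left _ hUq).trans hU1
    have k1 := num_u hm he hu
    refine ⟨q, 0, 0, rfl, hq, hu, ?_, le_rfl, Or.inl (by omega), ?_, ?_⟩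
    · omega
    · omega
    · omega

end Pool.Agent.WarM


end

section

/-!
# Simultaneous Waring decompositions (MP_db021c_ag): main case of the block lemma   (helper27)
-/

set_option autoImplicit false

open Module MvPolynomial
open Pool.Agent.War

namespace Pool.Agent.WarM

theorem MB (hAH : S_AH) : S_MB := by
  intro n d b μ hn hd hb1 hbn hμ hD hq
  obtain ⟨ν, rfl⟩ : ∃ ν, n = ν + 1 := ⟨n - 1, by omega⟩
  obtain ⟨δ, rfl⟩ : ∃ δ, d = δ + 2 := ⟨d - 2, by omega⟩
  have hμq : (ν + 1) * (μ / (ν + 1)) + μ % (ν + 1) = μ := Nat.div_add_mod μ (ν + 1)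
  have hDlt : μ % (ν + 1) < ν + 1 := Nat.mod_lt _ (by omega)
  generalize μ / (ν + 1) = q at hq hμq
  generalize μ % (ν + 1) = D at hq hD hμq hDlt
  obtain ⟨u, r, k, hur, huD, hu, hr, hkr, hk, g1, g2⟩ := NUM (ν + 1) (δ + 2) q D hn hd
    (by omega) hDlt hq (by rw [hμq]; exact hμ)
  rw [show ν + 1 - 1 = ν by omega] at hu g2
  rw [show δ + 2 - 1 = δ + 1 by omega] at hr g1 g2
  rw [show δ + 2 - 2 = δ by omega] at hk
  rw [show 2 * (ν + 1) - 1 = 2 * ν + 1 by omega] at hu
  have hN : NN (ν + 1) (δ + 2) = NN ν (δ + 2) + NN (ν + 1) (δ + 1) := NN_succ ν (δ + 1)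
  have hN1 : NN (ν + 1) (δ + 1) = NN ν (δ + 1) + NN (ν + 1) δ := NN_succ ν δ
  obtain ⟨hc1, hc2, hc3⟩ := arith3C1 (b := b) hDlt hbn
  have hm := arith4C1 (b := b) hμq
  generalize (b * D + ν) / (ν + 1) = c at hc1 hc2 hc3 hm
  have hbu : (ν + b) * u ≤ NN ν (δ + 2) :=
    (Nat.mul_le_mul_right _ (by omega)).trans hu
  have hbr : b * r ≤ (ν + 1) * r := Nat.mul_le_mul_right _ hbn
  have e1 : 2 * (ν + 1) * r = (ν + 1) * r + (ν + 1) * r := by ring
  have e2 : (ν + b) * u = ν * u + b * u := by ring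
  have e3 : b * (u + D) = b * u + b * D := by ring
  have hr' : (2 * (ν + 1) + 1) * r ≤ NN (ν + 1) (δ + 1) :=
    (Nat.mul_le_mul_left _ (by omega)).trans hr
  have hGk : GG (ν + 1) δ k := by
    rcases hk with hk | ⟨h5, hk⟩
    · have : k = 0 ∨ k = 1 := by omega
      rcases this with rfl | rfl
      · exact GG.zero _ _
      · exact ONE _ _ (by omega)
    · exact hAH _ _ _ (by omega) (by omega) hk
  obtain ⟨z, a, y, hK⟩ := CORE ν δ b u r c (NN ν (δ + 2) - (ν + b) * u)
    (NN (ν + 1) (δ + 1) - (u + b * r + c + (ν + 1) * r + D)) (u + D) k (by omega) hc1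
    (hAH _ _ _ (by omega) (by omega) hu) (by omega)
    (hAH _ _ _ (by omega) (by omega) hr) (hAH _ _ _ (by omega) (by omega) hr') hGk hkr
    (by omega) huD (by omega) (by omega)
  have hbq : b * q = b * r + b * u := by rw [← hur]; ring
  have hnq : (ν + 1) * q = (ν + 1) * r + (ν * u + u) := by rw [← hur]; ring
  have hcα : Fintype.card ((Fin b × Fin u) ⊕ ((Fin b × Fin r) ⊕ Fin c)) =
      (b * μ + (ν + 1) - 1) / (ν + 1) := by
    simp only [Fintype.card_sum, Fintype.card_prod, Fintype.card_fin]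
    rw [hm]
    omega
  have hcβ : Fintype.card (Fin (NN ν (δ + 2) - (ν + b) * u) ⊕
      Fin (NN (ν + 1) (δ + 1) - (u + b * r + c + (ν + 1) * r + D))) =
      NN (ν + 1) (δ + 2) - μ - (b * μ + (ν + 1) - 1) / (ν + 1) := by
    simp only [Fintype.card_sum, Fintype.card_fin]
    rw [hm]
    omega
  exact ⟨_, _, _, hK.reindexC1 (Fintype.equivFinOfCardEq hcα).symm
    (Fintype.equivFinOfCardEq hcβ).symm⟩

end Pool.Agent.WarM


end

section

/-!
# The block lemma for small q (MP_db021c_ag): assembly   (helper34)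
-/

set_option autoImplicit false

open Module MvPolynomial
open Pool.Agent.War Pool.Agent.WarS

namespace Pool.Agent.WarQ

theorem x_Q3 (hT : S_T) (hL : S_L) : S_Q3 := by
  intro n b c D hc1 hcb hbn h1 h2 h3
  have hcD : c ≤ D := by
    have h5 : n * c < n * (D + 1) := lt_of_lt_of_le h2 (Nat.mul_le_mul_right _ hbn)
    have := lt_of_mul_lt_mul_left h5 (Nat.zero_le n)
    omega
  by_cases h : 2 * D * D ≤ b
  · exact hT n b c D hc1 hcb hbn h1 h2 h
  · exact hL n b c D hc1 hcD hcb h1 (by omega) h3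

namespace SMALLaux

/-- `6 N(n,3) = (n+1)(n+2)(n+3)` -/
theorem NN_three (n : ℕ) : 6 * NN n 3 = (n + 1) * (n + 2) * (n + 3) := by
  induction n with
  | zero => simp [NN]
  | succ n ih =>
    have h1 : NN (n + 1) 3 = NN n 3 + NN (n + 1) 2 := NN_succ n 2
    have h2 : ∀ m : ℕ, 2 * NN m 2 = (m + 1) * (m + 2) := by
      intro m
      induction m with
      | zero => simp [NN]
      | succ m ihm =>
        have h3 : NN (m + 1) 2 = NN m 2 + NN (m + 1) 1 := NN_succ m 1
        rw [NN_right_one] at h3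
        rw [h3, Nat.mul_add, ihm]
        ring
    have h4 := h2 (n + 1)
    rw [h1]
    have h5 : 6 * (NN n 3 + NN (n + 1) 2) = 6 * NN n 3 + 3 * (2 * NN (n + 1) 2) := by ring
    rw [h5, ih, h4]
    ring

theorem NN_three_ge (n : ℕ) (hn : 3 ≤ n) : 4 * n ≤ NN n 3 := by
  have h := NN_three n
  have h1 : 6 * (4 * n) ≤ (n + 1) * (n + 2) * (n + 3) := by
    obtain ⟨m, rfl⟩ : ∃ m, n = m + 3 := ⟨n - 3, by omega⟩
    have : (m + 3 + 1) * (m + 3 + 2) * (m + 3 + 3) = m ^ 3 + 15 * m ^ 2 + 74 * m + 120 := by ring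
    rw [this]
    nlinarith
  omega

/-- `QB` in all degrees -/
theorem QB_all (hQ : S_Q3) (hU : S_UP) {n b c D : ℕ} (hc : 1 ≤ c) (hcb : c < b) (hbn : b ≤ n)
    (h1 : b * D ≤ n * c) (h2 : n * c < b * (D + 1)) (h3 : D + 2 ≤ n) (d : ℕ) :
    QB n (d + 3) b c D := by
  induction d with
  | zero => exact hQ n b c D hc hcb hbn h1 h2 h3
  | succ d ih =>
    have hD : 1 ≤ D := by
      by_contra h
      have h0 : D = 0 := by omega
      subst h0
      have h3 : n * 1 ≤ n * c := Nat.mul_le_mul_left _ hc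
      omega
    refine hU n (d + 3) b c D (by omega) ?_ ih
    have h4 := NN_three_ge n (by omega)
    have h5 : NN n 3 ≤ NN n (d + 3) := NN_mono_right (by omega)
    omega

theorem ceil_eq {n b c q D : ℕ} (hn : 0 < n) (hc : 1 ≤ c) (hbn : b ≤ n) (h1 : b * D ≤ n * c)
    (h2 : n * c < b * (D + 1)) : (b * (n * q + D) + n - 1) / n = b * q + c := by
  have e : b * (n * q + D) = n * (b * q) + b * D := by ring
  have e2 : b * (D + 1) = b * D + b := by ring
  rw [e]
  apply le_antisymm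
  · rw [← Nat.lt_succ_iff, Nat.div_lt_iff_lt_mul hn, Nat.succ_eq_add_one]
    have : (b * q + c + 1) * n = n * (b * q) + n * c + n := by ring
    omega
  · rw [Nat.le_div_iff_mul_le hn]
    have : (b * q + c) * n = n * (b * q) + n * c := by ring
    omega

end SMALLaux

open _root_.Pool.Agent.WarQ.SMALLaux

theorem x_SMALL (hQ : S_Q3) (hU : S_UP) (hB : S_SB) : S_SMALL := by
  intro hAH n d b c D q hd hc hcb hbn h1 h2 hq hqD
  have hm := ceil_eq (q := q) (by omega : 0 < n) hc hbn h1 h2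
  have hD : 1 ≤ D := by
    by_contra h
    have h0 : D = 0 := by omega
    subst h0
    have h3 : n * 1 ≤ n * c := Nat.mul_le_mul_left _ hc
    omega
  obtain ⟨δ, rfl⟩ : ∃ δ, d = δ + 4 := ⟨d - 4, by omega⟩
  obtain ⟨q', rfl⟩ : ∃ q', q = q' + 1 := ⟨q - 1, by omega⟩
  obtain ⟨ν, rfl⟩ : ∃ ν, n = ν + 1 := ⟨n - 1, by omega⟩
  by_cases hq0 : q' = 0
  · subst hq0
    obtain ⟨z, a, y, hK⟩ := QB_all hQ hU hc hcb hbn h1 h2 (by omega) (δ + 1)
    refine ⟨_, _, _, hK.reindexC1 (finCongr ?_) (finCongr ?_)⟩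
    · rw [hm]; omega
    · rw [hm]
      have e : (ν + 1) * (0 + 1) + D = ν + 1 + D := by ring
      have e' : b * (0 + 1) + c = b + c := by ring
      rw [e, e']
  · have hQB := QB_all hQ hU hc hcb hbn h1 h2 (by omega) δ
    have hν3 : 3 ≤ ν := by omega
    have h4 := NN_three_ge ν hν3
    have h6 := NN_three_ge (ν + 1) (by omega)
    have h7 : NN ν 3 ≤ NN ν (δ + 3) := NN_mono_right (by omega)
    have h8 : NN (ν + 1) 3 ≤ NN (ν + 1) (δ + 3) := NN_mono_right (by omega)
    have h9 : NN ν 4 ≤ NN ν (δ + 3 + 1) := NN_mono_right (by omega)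
    have h10 : NN ν 3 ≤ NN ν 4 := NN_mono_right (by omega)
    -- `(2 ν + 1) q' ≤ N(ν,4)`
    have hq' : q' + 2 ≤ ν := by omega
    have h11 : (2 * ν + 1) * q' ≤ NN ν 4 := by
      obtain ⟨κ, rfl⟩ : ∃ κ, ν = κ + 1 := ⟨ν - 1, by omega⟩
      have h12 : NN (κ + 1) 4 = NN κ 4 + NN (κ + 1) 3 := NN_succ κ 3
      have h13 := NN_three (κ + 1)
      have h14 : ∀ m : ℕ, 24 * NN m 4 = (m + 1) * (m + 2) * (m + 3) * (m + 4) := by
        intro m
        induction m with
        | zero => simp [NN]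
        | succ m ihm =>
          have k1 : NN (m + 1) 4 = NN m 4 + NN (m + 1) 3 := NN_succ m 3
          have k2 := NN_three (m + 1)
          have k3 : 24 * (NN m 4 + NN (m + 1) 3) = 24 * NN m 4 + 4 * (6 * NN (m + 1) 3) := by ring
          rw [k1, k3, ihm, k2]
          ring
      have h15 := h14 (κ + 1)
      have h16 : (2 * (κ + 1) + 1) * q' ≤ (2 * (κ + 1) + 1) * (κ - 1) :=
        Nat.mul_le_mul_left _ (by omega)
      obtain ⟨μ, rfl⟩ : ∃ μ, κ = μ + 2 := ⟨κ - 2, by omega⟩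
      have h17 : 24 * ((2 * (μ + 2 + 1) + 1) * (μ + 2 - 1)) ≤
          (μ + 2 + 1 + 1) * (μ + 2 + 1 + 2) * (μ + 2 + 1 + 3) * (μ + 2 + 1 + 4) := by
        have e1 : μ + 2 - 1 = μ + 1 := by omega
        rw [e1]
        have e2 : (μ + 2 + 1 + 1) * (μ + 2 + 1 + 2) * (μ + 2 + 1 + 3) * (μ + 2 + 1 + 4) =
            μ ^ 4 + 22 * μ ^ 3 + 179 * μ ^ 2 + 638 * μ + 840 := by ring
        have e3 : 24 * ((2 * (μ + 2 + 1) + 1) * (μ + 1)) = 48 * μ ^ 2 + 216 * μ + 168 := by ring
        rw [e2, e3]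
        nlinarith [Nat.zero_le (μ ^ 4), Nat.zero_le (μ ^ 3), Nat.zero_le (μ ^ 2)]
      omega
    have hGG : GG ν (δ + 3 + 1) q' := hAH ν (δ + 3 + 1) q' (by omega) (by omega)
      (h11.trans h9)
    obtain ⟨z, a, y, hK⟩ := hB ν (δ + 3) b c D q' (by omega) (by omega) (by omega) hGG
      ((Nat.mul_le_mul_right q' (by omega : ν + b ≤ 2 * ν + 1)).trans (h11.trans h9))
      (by omega) (by omega) hQB
    refine ⟨_, _, _, hK.reindexC1 (finCongr ?_) (finCongr ?_)⟩
    · rw [hm]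
    · rw [hm]

end Pool.Agent.WarQ


end

section

/-!
# MRA: all quadrics
-/

set_option autoImplicit false

open Pool.Agent.War Pool.Agent.WarS Pool.Agent.WarQ

namespace Pool.Agent.WarC

namespace MRAaux

theorem two_NN (n : ℕ) : 2 * NN n 2 = (n + 2) * (n + 1) := by
  induction n with
  | zero => simp
  | succ n ih =>
    rw [NN_succ, NN_right_one]
    linarith

end MRAaux

open _root_.Pool.Agent.WarC.MRAaux

/-- MODULE MRA -/
theorem x_MRA (hL : S_LM) (h0 : S_MR0) (hS : S_STEP) (hB : S_B4) : S_MRA := by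
  intro n
  induction n with
  | zero => intro D b c h4; omega
  | succ ν ih =>
    intro D b c h4 hD hDn hb hbn hcb hcD
    have hN := two_NN (ν + 1)
    have hN' := two_NN ν
    have hND := two_NN D
    rcases Nat.eq_zero_or_pos c with rfl | hc
    · refine h0 (ν + 1) D b (by omega) ?_
      nlinarith
    · by_cases hbD : b + D ≤ NN D 2
      · exact hL (ν + 1) D b c hDn hD hb hcD hcb hbD
      · rw [not_le] at hbD
        have h1 : D ^ 2 + D + 4 ≤ 2 * b := by nlinarith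
        rcases Nat.lt_or_ge ν 4 with h5 | h5
        · have hν : ν = 3 := by omega
          subst hν
          have hD2 : D = 1 := by
            have : D ≤ 2 := by omega
            interval_cases D
            · rfl
            · omega
          subst hD2
          have hc1 : c = 1 := by omega
          subst hc1
          have hb3 : b = 3 ∨ b = 4 := by omega
          rcases hb3 with rfl | rfl
          · exact hB.1
          · exact hB.2
        · have h2 : 2 * D + 1 ≤ b := by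
            have : 0 ≤ ((D : ℤ) - 1) * (D - 2) := by
              rcases Nat.lt_or_ge D 2 with h | h
              · have : D = 1 := by omega
                subst this
                norm_num
              · have h6 : (2 : ℤ) ≤ D := by exact_mod_cast h
                exact mul_nonneg (by linarith) (by linarith)
            have h7 : ((D : ℤ)) ^ 2 + D + 4 ≤ 2 * b := by exact_mod_cast h1
            have h8 : (2 * (D : ℤ) + 1) ≤ b := by nlinarith
            exact_mod_cast h8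
          have h3 : D + 2 ≤ ν := by
            rcases Nat.lt_or_ge D 2 with h | h
            · omega
            · have h9 : 2 * D ≤ D ^ 2 := by nlinarith
              omega
          refine hS ν D b c hD (by omega) hc hcb hcD hbn (by omega) ?_ ?_
          · have h6 : 2 * (ν + D + (b + c)) ≤ (ν + 2) * (ν + 1) := by
              have h7 : 2 * D ≤ D ^ 2 + 1 := by
                obtain ⟨k, rfl⟩ : ∃ k, D = k + 1 := ⟨D - 1, by omega⟩
                nlinarith
              have h8 : 3 * D ≤ 2 * ν := by omega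
              have h9 : 4 * ν ≤ ν * ν := Nat.mul_le_mul_right ν h5
              nlinarith
            omega
          · intro b' c' hb' hb'ν hc' hc'c
            exact ih D b' c' h5 hD h3 hb' hb'ν hc' (by omega)

end Pool.Agent.WarC


end

section

/-!
# MP_db021c_ag, WC_PUR: change of basis among the forms   (helper76)
-/

set_option autoImplicit false

open Module MvPolynomial
open Pool.Agent.War Pool.Agent.WarS Pool.Agent.WarQ

namespace Pool.Agent.WarC

namespace PURaux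

/-- the linear map of a matrix on tuples of polynomials -/
noncomputable def mul {n b : ℕ} (B : Matrix (Fin b) (Fin b) ℂ) :
    (Fin b → Pol n 2) →ₗ[ℂ] (Fin b → Pol n 2) :=
  LinearMap.pi fun j => ∑ k, B j k • LinearMap.proj k

theorem mul_apply {n b : ℕ} (B : Matrix (Fin b) (Fin b) ℂ) (g : Fin b → Pol n 2) (j : Fin b) :
    mul B g j = ∑ k, B j k • g k := by
  unfold mul
  rw [LinearMap.pi_apply, LinearMap.sum_apply]
  rfl

theorem mul_coe {n b : ℕ} (B : Matrix (Fin b) (Fin b) ℂ) (g : Fin b → Pol n 2) (j : Fin b) :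
    ((mul B g j : Pol n 2) : MvPolynomial (Fin n) ℂ) =
      ∑ k, C (B j k) * (g k : MvPolynomial (Fin n) ℂ) := by
  rw [mul_apply, Submodule.coe_sum]
  refine Finset.sum_congr rfl fun k _ => ?_
  rw [Submodule.coe_smul, smul_eq_C_mul]

theorem eval_mul {n b : ℕ} (B : Matrix (Fin b) (Fin b) ℂ) (g : Fin b → Pol n 2) (j : Fin b)
    (p : Fin n → ℂ) : eval p ((mul B g j : Pol n 2) : MvPolynomial (Fin n) ℂ) =
      ∑ k, B j k * eval p (g k : MvPolynomial (Fin n) ℂ) := by
  rw [mul_coe, map_sum]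
  simp

theorem pder_mul {n b : ℕ} (B : Matrix (Fin b) (Fin b) ℂ) (g : Fin b → Pol n 2) (j : Fin b)
    (p : Fin n → ℂ) (v : Fin n) :
    eval p (pderiv v ((mul B g j : Pol n 2) : MvPolynomial (Fin n) ℂ)) =
      ∑ k, B j k * eval p (pderiv v (g k : MvPolynomial (Fin n) ℂ)) := by
  rw [mul_coe, map_sum, map_sum]
  refine Finset.sum_congr rfl fun k _ => ?_
  rw [pderiv_C_mul, map_mul, eval_C]

theorem mul_mul {n b : ℕ} (A B : Matrix (Fin b) (Fin b) ℂ) (h : A * B = 1)
    (g : Fin b → Pol n 2) : mul A (mul B g) = g := by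
  funext j
  rw [mul_apply]
  have h1 : ∀ k, A j k • mul B g k = ∑ l, (A j k * B k l) • g l := by
    intro k
    rw [mul_apply, Finset.smul_sum]
    refine Finset.sum_congr rfl fun l _ => ?_
    rw [smul_smul]
  rw [Finset.sum_congr rfl fun k _ => h1 k, Finset.sum_comm]
  have h2 : ∀ l, ∑ k, (A j k * B k l) • g l = (A * B) j l • g l := by
    intro l
    rw [← Finset.sum_smul, Matrix.mul_apply]
  rw [Finset.sum_congr rfl fun l _ => h2 l, h]
  simp [Matrix.one_apply]

/-- contraction of a vector with the transformed tuple -/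
theorem contr {b : ℕ} (B : Matrix (Fin b) (Fin b) ℂ) (a : Fin b → ℂ) (e : Fin b → ℂ) :
    ∑ j, a j * ∑ k, B j k * e k = ∑ k, (Matrix.vecMul a B k) * e k := by
  simp only [Matrix.vecMul, dotProduct, Finset.mul_sum, Finset.sum_mul]
  rw [Finset.sum_comm]
  refine Finset.sum_congr rfl fun k _ => Finset.sum_congr rfl fun j _ => ?_
  ring

end PURaux

open _root_.Pool.Agent.WarC.PURaux in
theorem x_PUR : S_PUR := by
  classical
  rintro n b c e r ⟨x₀, hx₀⟩
  have h1 := (PK_TrC1 n 2 (α := Fin b ⊕ Fin c) (β := Fin e) (γ := Fin b)).gen_finrank hx₀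
  have h2 : Gen ℂ fun x : ((Fin b ⊕ Fin c) ⊕ Fin e → Fin n → ℂ) × (Fin b ⊕ Fin c → Fin b → ℂ) =>
      (Matrix.of fun i j : Fin b => x.2 (Sum.inl i) j).det ≠ 0 := by
    refine Gen.ne (LP.det fun i j => ?_)
      ((0 : (Fin b ⊕ Fin c) ⊕ Fin e → Fin n → ℂ), Sum.elim (fun k => Pi.single k 1) 0) ?_
    · exact LP_sndC1 (Sum.inl i) j
    · have : (Matrix.of fun i j : Fin b => (Sum.elim (fun k => (Pi.single k 1 : Fin b → ℂ))
          (0 : Fin c → Fin b → ℂ)) (Sum.inl i) j) = 1 := by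
        ext i j
        simp [Matrix.one_apply, Pi.single_apply, eq_comm]
      change (Matrix.of fun i j : Fin b => (Sum.elim (fun k => (Pi.single k 1 : Fin b → ℂ))
          (0 : Fin c → Fin b → ℂ)) (Sum.inl i) j).det ≠ 0
      rw [this, Matrix.det_one]
      exact one_ne_zero
  obtain ⟨x, hx, hdet⟩ := (h1.and h2).exists
  set A : Matrix (Fin b) (Fin b) ℂ := Matrix.of fun i j : Fin b => x.2 (Sum.inl i) j with hA
  have hAB : A * A⁻¹ = 1 := Matrix.mul_nonsing_inv _ (isUnit_iff_ne_zero.2 hdet)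
  refine ⟨(x.1, fun l => Matrix.vecMul (x.2 (Sum.inr l)) A⁻¹), le_trans ?_ hx⟩
  set T : (Fin b → Pol n 2) →ₗ[ℂ] (Fin b → Pol n 2) := mul A⁻¹ with hT
  have hinj : Function.Injective T := by
    intro g g' hg
    have := congrArg (mul A) hg
    rwa [hT, mul_mul _ _ hAB, mul_mul _ _ hAB] at this
  rw [(Submodule.equivMapOfInjective T hinj _).finrank_eq]
  refine Submodule.finrank_mono ?_
  rintro f ⟨g, hg, rfl⟩
  obtain ⟨g1, g2, g3⟩ := mem_MZ.1 hg
  refine mem_TrC1.2 ⟨fun i j => ?_, ?_⟩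
  · rw [hT, eval_mul]
    exact Finset.sum_eq_zero fun k _ => by rw [g1 i k, mul_zero]
  · rintro (k | l) v
    · simp only [hT, pder_mul]
      rw [contr]
      have h3 : Matrix.vecMul (x.2 (Sum.inl k)) A⁻¹ = Pi.single k 1 := by
        have h4 : x.2 (Sum.inl k) = Matrix.vecMul (Pi.single k 1) A := by
          rw [Matrix.single_one_vecMul]
          rfl
        rw [h4, Matrix.vecMul_vecMul, hAB, Matrix.vecMul_one]
      rw [h3]
      simp only [Pi.single_apply, ite_mul, one_mul, zero_mul, Finset.sum_ite_eq', Finset.mem_univ,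
        if_true]
      exact g2 k v
    · simp only [hT, pder_mul]
      rw [contr]
      exact g3 l v

end Pool.Agent.WarC


end

section

/-!
# Simultaneous Waring decompositions (MP_db021c_ag), cubics: no mixed points   (helper59)

Form `k` is double at the point `k` and vanishes at all the other points: dimension at most `D` for every form.
-/

set_option autoImplicit false

open Module MvPolynomial
open Pool.Agent.War Pool.Agent.WarS Pool.Agent.WarQ

namespace Pool.Agent.WarC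

theorem x_MR0 : S_MR0 := by
  classical
  intro n D b hn hle
  unfold MR
  set e : ℕ := NN n 2 - (n + D) - (b + 0) with he
  have hcard : Fintype.card ((Fin b ⊕ Fin 0) ⊕ Fin e) = b + e := by
    simp
  have hG : Gen ℂ fun z : (Fin b ⊕ Fin 0) ⊕ Fin e → Fin n → ℂ => ∀ k : Fin b,
      finrank ℂ (Dbl n 2 {Sum.inl (Sum.inl k)} z) ≤ D := by
    refine Gen.forall fun k => ?_
    have h1 := Pool.Agent.WarS.SG n 2 ((Fin b ⊕ Fin 0) ⊕ Fin e) {Sum.inl (Sum.inl k)} hn (by
      rw [Finset.card_singleton]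
      exact Pool.Agent.WarM.ONE n 2 (by norm_num))
    refine h1.mono fun z hz => hz.trans ?_
    rw [Finset.card_singleton, hcard]
    omega
  obtain ⟨z, hz⟩ := hG.exists
  refine ⟨(z, fun l => l.elim0), ?_⟩
  have hsub : MZ n ((z, fun l => l.elim0) : PT n b 0 e) ≤
      Submodule.pi Set.univ (fun k : Fin b => Dbl n 2 {Sum.inl (Sum.inl k)} z) := by
    intro f hf
    rw [mem_MZ] at hf
    obtain ⟨f1, f2, -⟩ := hf
    rw [Submodule.mem_pi]
    intro k _
    rw [mem_Dbl]
    refine ⟨fun i => f1 i k, fun i hi v => ?_⟩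
    rw [Finset.mem_singleton] at hi
    subst hi
    exact f2 k v
  refine (Submodule.finrank_mono hsub).trans ((finrank_pi_leC1 _).trans ?_)
  refine (Finset.sum_le_sum fun k _ => hz k).trans ?_
  simp

end Pool.Agent.WarC


end

section

set_option autoImplicit false

namespace Pool.Agent.WarC

namespace CYaux

/-- the cyclic intervals -/
def S (n D : ℕ) (hn : 0 < n) (i : ℕ) : Finset (Fin n) :=
  (Finset.range D).image (fun t => (⟨(i * D + t) % n, Nat.mod_lt _ hn⟩ : Fin n))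

lemma mem_S {n D : ℕ} {hn : 0 < n} {i : ℕ} {r : Fin n} :
    r ∈ S n D hn i ↔ ∃ t < D, (i * D + t) % n = r.val := by
  unfold S
  rw [Finset.mem_image]
  constructor
  · rintro ⟨t, ht, hr⟩
    exact ⟨t, Finset.mem_range.1 ht, congrArg Fin.val hr⟩
  · rintro ⟨t, ht, hr⟩
    exact ⟨t, Finset.mem_range.2 ht, Fin.ext hr⟩

lemma card_S {n D : ℕ} (hn : 0 < n) (hD : D ≤ n) (i : ℕ) : (S n D hn i).card = D := by
  unfold S
  rw [Finset.card_image_of_injOn, Finset.card_range]
  intro t ht t' ht' h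
  have h1 : (i * D + t) % n = (i * D + t') % n := congrArg Fin.val h
  have h2 : t ≡ t' [MOD n] := Nat.ModEq.add_left_cancel' (i * D) h1
  have ht1 : t < D := Finset.mem_range.1 ht
  have ht2 : t' < D := Finset.mem_range.1 ht'
  exact Nat.ModEq.eq_of_lt_of_lt h2 (by omega) (by omega)

/-- the number of the intervals which contain `r` -/
lemma card_r {n D b : ℕ} (hn : 0 < n) (hD : D ≤ n) (r : Fin n) :
    (Finset.univ.filter fun i : Fin b => r ∈ S n D hn i.val).card =
      b * D / n + if r.val < b * D % n then 1 else 0 := by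
  have h0 : b * D / n + (if r.val < b * D % n then 1 else 0) =
      ((Finset.range (b * D)).filter (fun x => x ≡ r.val [MOD n])).card := by
    rw [← Nat.count_eq_card_filter_range, Nat.count_modEq_card (b * D) hn,
      Nat.mod_eq_of_lt r.isLt]
  rw [h0]
  symm
  refine Finset.card_bij (fun x hx => ⟨x / D, ?_⟩) ?_ ?_ ?_
  · have h1 := Finset.mem_range.1 (Finset.mem_filter.1 hx).1
    exact Nat.div_lt_of_lt_mul (by rw [mul_comm]; exact h1)
  · intro x hx
    rw [Finset.mem_filter] at hx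
    obtain ⟨h1, h2⟩ := hx
    rw [Finset.mem_range] at h1
    have hD0 : 0 < D := by
      rcases Nat.eq_zero_or_pos D with h | h
      · rw [h, mul_zero] at h1
        omega
      · exact h
    refine Finset.mem_filter.2 ⟨Finset.mem_univ _, mem_S.2 ⟨x % D, Nat.mod_lt _ hD0, ?_⟩⟩
    show (x / D * D + x % D) % n = r.val
    rw [Nat.div_add_mod' x D]
    have h3 : x % n = r.val % n := h2
    rw [h3, Nat.mod_eq_of_lt r.isLt]
  · intro x hx y hy hxy
    rw [Finset.mem_filter, Finset.mem_range] at hx hy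
    have hD0 : 0 < D := by
      rcases Nat.eq_zero_or_pos D with h | h
      · rw [h, mul_zero] at hx
        omega
      · exact h
    have h1 : x / D = y / D := congrArg Fin.val hxy
    have h2 : x ≡ y [MOD n] := hx.2.trans hy.2.symm
    rw [← Nat.div_add_mod' x D, ← Nat.div_add_mod' y D, h1] at h2
    have h3 : x % D ≡ y % D [MOD n] := Nat.ModEq.add_left_cancel' _ h2
    have h4 := Nat.mod_lt x hD0
    have h5 := Nat.mod_lt y hD0
    have h6 := Nat.ModEq.eq_of_lt_of_lt h3 (by omega) (by omega)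
    rw [← Nat.div_add_mod' x D, ← Nat.div_add_mod' y D, h1, h6]
  · intro i hi
    obtain ⟨t, ht, hr⟩ := mem_S.1 (Finset.mem_filter.1 hi).2
    have h1 : i.val * D + D ≤ b * D := by
      have := Nat.mul_le_mul_right D i.isLt
      calc i.val * D + D = (i.val + 1) * D := by ring
        _ ≤ b * D := this
    refine ⟨i.val * D + t, Finset.mem_filter.2 ⟨Finset.mem_range.2 (by omega), ?_⟩, ?_⟩
    · show (i.val * D + t) % n = r.val % n
      rw [hr, Nat.mod_eq_of_lt r.isLt]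
    · apply Fin.ext
      show (i.val * D + t) / D = i.val
      rw [mul_comm, Nat.mul_add_div (by omega), Nat.div_eq_of_lt ht, add_zero]

lemma sum_ite {n m : ℕ} (hm : m ≤ n) :
    ∑ r : Fin n, (if r.val < m then 1 else 0) = m := by
  rw [Finset.sum_boole, Nat.cast_id]
  have h1 : (Finset.univ.filter fun r : Fin n => r.val < m).card =
      ((Finset.range n).filter fun x => x < m).card := by
    refine Finset.card_bij (fun r _ => r.val) ?_ ?_ ?_
    · intro r hr
      exact Finset.mem_filter.2 ⟨Finset.mem_range.2 r.isLt, (Finset.mem_filter.1 hr).2⟩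
    · intro r _ s _ h
      exact Fin.ext h
    · intro x hx
      rw [Finset.mem_filter, Finset.mem_range] at hx
      exact ⟨⟨x, hx.1⟩, Finset.mem_filter.2 ⟨Finset.mem_univ _, hx.2⟩, rfl⟩
  rw [h1]
  have h2 : (Finset.range n).filter (fun x => x < m) = Finset.range m := by
    ext x
    rw [Finset.mem_filter, Finset.mem_range, Finset.mem_range]
    omega
  rw [h2, Finset.card_range]

end CYaux

open _root_.Pool.Agent.WarC.CYaux in
theorem x_CY : S_CY := by
  intro n b D hD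
  rcases Nat.eq_zero_or_pos n with rfl | hn
  · refine ⟨fun _ => ∅, fun _ => ?_, fun c => ?_⟩
    · rw [Finset.card_empty]
      omega
    · rw [Finset.univ_eq_empty, Finset.sum_empty]
      exact Nat.zero_le _
  refine ⟨fun i => S n D hn i.val, fun i => card_S hn hD i.val, fun c => ?_⟩
  have h1 : ∀ r : Fin n, (Finset.univ.filter fun i : Fin b => r ∈ S n D hn i.val).card - c =
      (b * D / n + if r.val < b * D % n then 1 else 0) - c := fun r => by rw [card_r hn hD r]
  rw [Finset.sum_congr rfl fun r _ => h1 r]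
  rcases Nat.lt_or_ge (b * D / n) c with hc | hc
  · rw [Finset.sum_eq_zero]
    · exact Nat.zero_le _
    · intro r _
      split_ifs <;> omega
  · have h2 : ∀ r : Fin n, (b * D / n + if r.val < b * D % n then 1 else 0) - c =
        (b * D / n - c) + if r.val < b * D % n then 1 else 0 := by
      intro r
      split_ifs <;> omega
    rw [Finset.sum_congr rfl fun r _ => h2 r, Finset.sum_add_distrib, Finset.sum_const,
      Finset.card_univ, Fintype.card_fin, smul_eq_mul, sum_ite (Nat.mod_lt _ hn).le, Nat.mul_sub]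
    have h3 := Nat.div_add_mod (b * D) n
    have h4 : n * c ≤ n * (b * D / n) := Nat.mul_le_mul_left n hc
    omega

end Pool.Agent.WarC


end

section

/-!
# Simultaneous Waring decompositions, cubics: the induction step
-/

set_option autoImplicit false

open Module MvPolynomial
open Pool.Agent.War Pool.Agent.WarS Pool.Agent.WarQ

namespace Pool.Agent.WarC

namespace STEPaux

/-- the functionals of the trade lemma, on the space `MZ` -/
noncomputable def tht {ν b c e : ℕ} (x : PT ν b c e) (l : Fin c) (y : Fin ν → ℂ) :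
    ↥(MZ ν x) →ₗ[ℂ] ℂ :=
  ((ev ν 2 y).comp (th (x.2 l))).comp (MZ ν x).subtype

theorem tht_apply {ν b c e : ℕ} (x : PT ν b c e) (l : Fin c) (y : Fin ν → ℂ) (v : ↥(MZ ν x)) :
    tht x l y v = eval y ((th (x.2 l) (v : Fin b → Pol ν 2) : Pol ν 2) :
      MvPolynomial (Fin ν) ℂ) := by
  unfold tht
  rw [LinearMap.comp_apply, LinearMap.comp_apply, Submodule.subtype_apply, ev_apply]

theorem tht_LP {ν b c e : ℕ} (x : PT ν b c e) (l : Fin c) (v : ↥(MZ ν x)) :
    LP (K := ℂ) fun y => tht x l y v := by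
  simp only [tht_apply]
  exact LP_eval _

theorem map_le {ν b c e : ℕ} (x : PT ν b c e) (L : Finset (Fin c)) :
    (⨅ l ∈ L, ⨅ y, LinearMap.ker (tht x l y)).map (MZ ν x).subtype ≤ TL x L := by
  rintro _ ⟨v, hv, rfl⟩
  rw [TL, Submodule.mem_inf]
  refine ⟨v.2, ?_⟩
  rw [Submodule.mem_iInf]
  intro l
  rw [Submodule.mem_iInf]
  intro hl
  rw [LinearMap.mem_ker]
  apply Subtype.ext
  refine MvPolynomial.funext fun y => ?_
  have h1 := (Submodule.mem_iInf _).1 ((Submodule.mem_iInf _).1 hv l) hl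
  have h2 := (Submodule.mem_iInf _).1 h1 y
  rw [LinearMap.mem_ker, tht_apply] at h2
  rw [Submodule.subtype_apply, h2]
  simp

theorem map_eq {ν b c e : ℕ} (x : PT ν b c e) (y : Fin c → Fin ν → ℂ) :
    (⨅ l, LinearMap.ker (tht x l (y l))).map (MZ ν x).subtype =
      MZ ν x ⊓ ⨅ l, LinearMap.ker ((ev ν 2 (y l)).comp (th (x.2 l))) := by
  rw [← Submodule.map_comap_subtype]
  congr 1
  ext v
  simp only [Submodule.mem_iInf, Submodule.mem_comap, LinearMap.mem_ker]
  rfl

theorem finrank_map_sub {V : Type*} [AddCommGroup V] [Module ℂ V] (p : Submodule ℂ V)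
    (U : Submodule ℂ ↥p) : finrank ℂ ↥(U.map p.subtype) = finrank ℂ U :=
  (LinearEquiv.finrank_eq
    (Submodule.equivMapOfInjective p.subtype (Submodule.injective_subtype p) U)).symm

end STEPaux

open _root_.Pool.Agent.WarC.STEPaux in
theorem x_STEP (hR : S_RADO) (hG : S_GEN) (hT : S_TRD) (h1 : S_TL1) (h0 : S_TL0) : S_STEP := by
  intro ν D b c hD hDν hc hcb hcD hbν hcν hN hMR
  have g0 := h0 ν D b c hD hDν hc hcb hcD hbν hN hMR
  have g1 : ∀ L : Finset (Fin c), Gen ℂ fun x : PT ν b c (NN ν 2 - (ν + D) - (b + c)) =>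
      L.Nonempty → finrank ℂ (TL x L) ≤ (c - L.card) + (b * D - (ν + 1) * c) := by
    intro L
    by_cases hL : L.Nonempty
    · exact (h1 ν D b c hD hDν hc hcb hbν hN hMR L hL).mono fun x hx _ => hx
    · exact Gen.of_forall fun x h => absurd h hL
  obtain ⟨x, hx0, hx1, hx2⟩ :=
    (g0.and ((Gen.forall g1).and (hG ν b c (NN ν 2 - (ν + D) - (b + c)) hcν))).exists
  have hrado := hR ↥(MZ ν x) (Fin ν → ℂ) c (b * D - (ν + 1) * c) (tht x) (tht_LP x) (by
    intro L
    rcases L.eq_empty_or_nonempty with hL | hL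
    · rw [hL, Finset.card_empty, Nat.sub_zero]
      exact (Submodule.finrank_le _).trans hx0
    · rw [← finrank_map_sub]
      exact (Submodule.finrank_mono (map_le x L)).trans (hx1 L hL))
  have hfst : Function.Surjective (LinearMap.fst ℂ (Fin c → Fin ν → ℂ)
      (Fin (ν + 1 - 2 * c) → Fin (ν + 1) → ℂ)) := fun y => ⟨(y, 0), rfl⟩
  obtain ⟨q, hq1, hq2⟩ := ((hrado.comp _ hfst).and hx2).exists
  have hfin : finrank ℂ ↥(MZ ν x ⊓
      ⨅ l, LinearMap.ker ((ev ν 2 (q.1 l)).comp (th (x.2 l)))) ≤ b * D - (ν + 1) * c := by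
    rw [← map_eq, finrank_map_sub]
    exact hq1
  obtain ⟨x', hx'⟩ := hT ν b c _ _ hcν x q hq2 hfin
  have he : NN (ν + 1) 2 - (ν + 1 + D) - (b + c) = NN ν 2 - (ν + D) - (b + c) + (ν + 1) := by
    have e1 : NN (ν + 1) 2 = NN ν 2 + NN (ν + 1) 1 := NN_succ ν 1
    have e2 := NN_right_one (ν + 1)
    omega
  unfold MR
  rw [he]
  exact ⟨x', hx'⟩

end Pool.Agent.WarC


end

section

/-!
# A lemma of Rado type   (helper97)
-/

set_option autoImplicit false

open Module MvPolynomial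
open Pool.Agent.War Pool.Agent.WarS Pool.Agent.WarQ

namespace Pool.Agent.WarC

namespace RADOaux

variable {V : Type} [AddCommGroup V] [Module ℂ V] [FiniteDimensional ℂ V]
  {Y : Type} [AddCommGroup Y] [Module ℂ Y]

/-- the common zeros of all `θ l y`, `l ∈ L` -/
def VL {c : ℕ} (W : Submodule ℂ V) (θ : Fin c → Y → V →ₗ[ℂ] ℂ) (L : Finset (Fin c)) :
    Submodule ℂ V := W ⊓ ⨅ l ∈ L, ⨅ y, LinearMap.ker (θ l y)

omit [FiniteDimensional ℂ V] [AddCommGroup Y] [Module ℂ Y] in
theorem mem_VL {c : ℕ} {W : Submodule ℂ V} {θ : Fin c → Y → V →ₗ[ℂ] ℂ} {L : Finset (Fin c)}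
    {v : V} : v ∈ VL W θ L ↔ v ∈ W ∧ ∀ l ∈ L, ∀ y, θ l y v = 0 := by
  simp [VL, Submodule.mem_iInf]

theorem step {c : ℕ} (ρ : ℕ) (W : Submodule ℂ V) (θ : Fin (c + 1) → Y → V →ₗ[ℂ] ℂ)
    (hLP : ∀ l v, LP (K := ℂ) fun y => θ l y v)
    (h : ∀ L, finrank ℂ (VL W θ L) ≤ (c + 1 - L.card) + ρ) :
    ∃ y₀ : Y, ∀ L : Finset (Fin c),
      finrank ℂ (VL (W ⊓ LinearMap.ker (θ 0 y₀)) (fun l => θ l.succ) L) ≤ (c - L.card) + ρ := by
  classical
  set θ' : Fin c → Y → V →ₗ[ℂ] ℂ := fun l => θ l.succ with hθ'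
  have hgen : ∀ L : Finset (Fin c), Gen ℂ fun y : Y =>
      (∃ y', ∃ v ∈ VL W θ' L, θ 0 y' v ≠ 0) → ∃ v ∈ VL W θ' L, θ 0 y v ≠ 0 := by
    intro L
    by_cases hL : ∃ y', ∃ v ∈ VL W θ' L, θ 0 y' v ≠ 0
    · obtain ⟨y', v, hv, hy'⟩ := hL
      exact (Gen.ne (hLP 0 v) y' hy').mono fun y hy _ => ⟨v, hv, hy⟩
    · exact Gen.of_forall fun y hy => absurd hy hL
  obtain ⟨y₀, hy₀⟩ := (Gen.forall hgen).exists
  refine ⟨y₀, fun L => ?_⟩
  have hcard : L.card ≤ c := by
    have := Finset.card_le_univ L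
    simpa using this
  by_cases hL : ∃ y', ∃ v ∈ VL W θ' L, θ 0 y' v ≠ 0
  · obtain ⟨v, hv, hv0⟩ := hy₀ L hL
    have hlt : VL (W ⊓ LinearMap.ker (θ 0 y₀)) θ' L < VL W θ' L := by
      refine lt_of_le_of_ne ?_ ?_
      · intro u hu
        rw [mem_VL] at hu ⊢
        exact ⟨hu.1.1, hu.2⟩
      · intro he
        rw [← he, mem_VL] at hv
        exact hv0 hv.1.2
    have h1 := Submodule.finrank_lt_finrank_of_lt hlt
    have h2 := h (L.map (Fin.succEmb c))
    rw [Finset.card_map] at h2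
    have h3 : VL W θ' L ≤ VL W θ (L.map (Fin.succEmb c)) := by
      intro u hu
      rw [mem_VL] at hu ⊢
      refine ⟨hu.1, fun l hl y => ?_⟩
      obtain ⟨l', hl', rfl⟩ := Finset.mem_map.1 hl
      exact hu.2 l' hl' y
    have h4 := Submodule.finrank_mono h3
    omega
  · have h2 := h (insert 0 (L.map (Fin.succEmb c)))
    have hn : (0 : Fin (c + 1)) ∉ L.map (Fin.succEmb c) := by
      intro h0
      obtain ⟨l', _, hl'⟩ := Finset.mem_map.1 h0
      exact (Fin.succ_ne_zero l') hl'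
    rw [Finset.card_insert_of_notMem hn, Finset.card_map] at h2
    have h3 : VL (W ⊓ LinearMap.ker (θ 0 y₀)) θ' L ≤
        VL W θ (insert 0 (L.map (Fin.succEmb c))) := by
      intro u hu
      have hu' : u ∈ VL W θ' L := by
        rw [mem_VL] at hu ⊢
        exact ⟨hu.1.1, hu.2⟩
      rw [mem_VL] at hu ⊢
      refine ⟨hu.1.1, fun l hl y => ?_⟩
      rcases Finset.mem_insert.1 hl with rfl | hl
      · by_contra hne
        exact hL ⟨y, u, hu', hne⟩
      · obtain ⟨l', hl', rfl⟩ := Finset.mem_map.1 hl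
        exact hu.2 l' hl' y
    have h4 := Submodule.finrank_mono h3
    omega

theorem main (ρ : ℕ) : ∀ (c : ℕ) (W : Submodule ℂ V) (θ : Fin c → Y → V →ₗ[ℂ] ℂ),
    (∀ l v, LP (K := ℂ) fun y => θ l y v) →
    (∀ L, finrank ℂ (VL W θ L) ≤ (c - L.card) + ρ) →
    ∃ y : Fin c → Y, finrank ℂ ↥(W ⊓ ⨅ l, LinearMap.ker (θ l (y l))) ≤ ρ := by
  intro c
  induction c with
  | zero =>
    intro W θ _ h
    refine ⟨fun i => i.elim0, ?_⟩
    have h1 := h ∅
    simp only [Finset.card_empty, Nat.sub_self, zero_add] at h1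
    refine (Submodule.finrank_mono ?_).trans h1
    intro u hu
    rw [mem_VL]
    exact ⟨hu.1, by simp⟩
  | succ c ih =>
    intro W θ hLP h
    obtain ⟨y₀, hy₀⟩ := step ρ W θ hLP h
    obtain ⟨y, hy⟩ := ih (W ⊓ LinearMap.ker (θ 0 y₀)) (fun l => θ l.succ)
      (fun l v => hLP l.succ v) hy₀
    refine ⟨Fin.cons y₀ y, (Submodule.finrank_mono ?_).trans hy⟩
    intro u hu
    obtain ⟨hu1, hu2⟩ := Submodule.mem_inf.1 hu
    rw [Submodule.mem_iInf] at hu2
    refine Submodule.mem_inf.2 ⟨Submodule.mem_inf.2 ⟨hu1, ?_⟩, ?_⟩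
    · have := hu2 0
      simpa using this
    · rw [Submodule.mem_iInf]
      intro l
      have := hu2 l.succ
      simpa using this

end RADOaux

theorem x_RADO : S_RADO := by
  intro V _ _ _ Y _ _ c ρ θ hLP h
  obtain ⟨y, hy⟩ := RADOaux.main (V := V) (Y := Y) ρ c ⊤ θ hLP (fun L => by
    refine (Submodule.finrank_mono ?_).trans (h L)
    exact inf_le_right)
  have hPK : PK (K := ℂ) fun y : Fin c → Y => ⨅ l, LinearMap.ker (θ l (y l)) :=
    PK.iInf fun l => (PK.one (hLP l)).comp (LinearMap.proj l : (Fin c → Y) →ₗ[ℂ] Y)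
  refine hPK.gen_finrank (x₀ := y) ?_
  rwa [top_inf_eq] at hy

end Pool.Agent.WarC


end

section

/-!
# MP_db021c_ag, cubics: general position in the trade lemma (`S_GEN`)   (helper80)
-/

set_option autoImplicit false

open Module MvPolynomial
open Pool.Agent.War Pool.Agent.WarS Pool.Agent.WarQ

namespace Pool.Agent.WarC

namespace GENaux

/-- polynomials of degree at most one -/
theorem repr_affine {n : ℕ} (g : MvPolynomial (Fin n) ℂ) (h : g.totalDegree ≤ 1) :
    g = C (g.coeff 0) + ∑ j, C (g.coeff (Finsupp.single j 1)) * X j := by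
  ext m
  rw [coeff_add, coeff_C, coeff_sum]
  simp only [coeff_C_mul, coeff_X']
  by_cases h0 : m = 0
  · subst h0
    have h1 : ∀ j : Fin n, Finsupp.single j 1 ≠ (0 : Fin n →₀ ℕ) := fun j => by simp
    simp [h1]
  · rw [if_neg (fun h => h0 h.symm), zero_add]
    by_cases h1 : ∃ j, Finsupp.single j 1 = m
    · obtain ⟨j, rfl⟩ := h1
      rw [Finset.sum_eq_single j]
      · simp
      · intro i _ hi
        rw [if_neg, mul_zero]
        intro he
        exact hi (Finsupp.single_left_injective one_ne_zero he)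
      · intro hj
        exact absurd (Finset.mem_univ j) hj
    · push Not at h1
      rw [Finset.sum_eq_zero (fun j _ => by rw [if_neg (h1 j), mul_zero])]
      apply coeff_eq_zero_of_totalDegree_lt
      refine lt_of_le_of_lt h ?_
      by_contra hc
      push Not at hc
      obtain ⟨j, hj⟩ : ∃ j, m j ≠ 0 := by
        by_contra hn
        push Not at hn
        exact h0 (Finsupp.ext hn)
      have hjs : j ∈ m.support := Finsupp.mem_support_iff.2 hj
      have h2 : m j ≤ ∑ i ∈ m.support, m i :=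
        Finset.single_le_sum (f := fun i => m i) (fun _ _ => Nat.zero_le _) hjs
      apply h1 j
      ext i
      by_cases hij : j = i
      · subst hij
        rw [Finsupp.single_eq_same]
        omega
      · rw [Finsupp.single_eq_of_ne (fun h => hij h.symm)]
        by_contra hi
        have his : i ∈ m.support := Finsupp.mem_support_iff.2 (fun h => hi h.symm)
        have h3 : m j + m i ≤ ∑ i ∈ m.support, m i := by
          rw [← Finset.sum_pair hij]
          refine Finset.sum_le_sum_of_subset (fun k hk => ?_)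
          rcases Finset.mem_insert.1 hk with rfl | hk
          · exact hjs
          · rw [Finset.mem_singleton.1 hk]
            exact his
        have h4 : m i ≠ 0 := fun h => hi h.symm
        omega

theorem eval_affine {n : ℕ} (g : MvPolynomial (Fin n) ℂ) (h : g.totalDegree ≤ 1)
    (z : Fin n → ℂ) :
    eval z g = g.coeff 0 + ∑ j, g.coeff (Finsupp.single j 1) * z j := by
  conv_lhs => rw [repr_affine g h]
  simp

/-- the affine forms vanishing at all the points -/
noncomputable def ZG {ν b c e : ℕ} (k : Fin b) (x : PT ν b c e) (q : WY ν c) :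
    Submodule ℂ (Pol (ν + 1) 1) :=
  ((⨅ i, LinearMap.ker (ev (ν + 1) 1 (q.2 i))) ⊓
    (⨅ l : Fin c, LinearMap.ker (ev (ν + 1) 1 (hp (x.1 (Sum.inl (Sum.inr l))))))) ⊓
  ((⨅ l : Fin c, LinearMap.ker (ev (ν + 1) 1 (hp (q.1 l)))) ⊓
    LinearMap.ker (ev (ν + 1) 1 (hp (x.1 (Sum.inl (Sum.inl k))))))

theorem mem_ZG {ν b c e : ℕ} (k : Fin b) (x : PT ν b c e) (q : WY ν c) (g : Pol (ν + 1) 1) :
    g ∈ ZG k x q ↔ ((∀ i, eval (q.2 i) (g : MvPolynomial (Fin (ν + 1)) ℂ) = 0) ∧
      (∀ l, eval (hp (x.1 (Sum.inl (Sum.inr l)))) (g : MvPolynomial (Fin (ν + 1)) ℂ) = 0)) ∧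
      ((∀ l, eval (hp (q.1 l)) (g : MvPolynomial (Fin (ν + 1)) ℂ) = 0) ∧
      eval (hp (x.1 (Sum.inl (Sum.inl k)))) (g : MvPolynomial (Fin (ν + 1)) ℂ) = 0) := by
  unfold ZG
  simp only [Submodule.mem_inf, Submodule.mem_iInf, LinearMap.mem_ker, ev_apply]

theorem GP_of {ν b c e : ℕ} {x : PT ν b c e} {q : WY ν c} (h0 : ∀ i, q.2 i 0 ≠ 0)
    (h : ∀ k, ZG k x q = ⊥) : GP x q := by
  refine ⟨h0, fun k g hg h1 h2 h3 h4 => ?_⟩
  have hm : (⟨g, mem_Pol.2 hg⟩ : Pol (ν + 1) 1) ∈ ZG k x q :=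
    (mem_ZG k x q _).2 ⟨⟨h1, h2⟩, ⟨h3, h4⟩⟩
  rw [h k, Submodule.mem_bot] at hm
  exact congrArg Subtype.val hm

theorem PK_const_ev {X : Type} [AddCommGroup X] [Module ℂ X] {n : ℕ} (z : Fin n → ℂ) :
    PK (K := ℂ) fun _ : X => LinearMap.ker (ev n 1 z) :=
  PK.one (φ := fun _ : X => ev n 1 z) fun f => LP.const (ev n 1 z f)

theorem PK_hp_ev {X : Type} [AddCommGroup X] [Module ℂ X] {n : ℕ} (L : X →ₗ[ℂ] (Fin n → ℂ)) :
    PK (K := ℂ) fun x : X => LinearMap.ker (ev (n + 1) 1 (hp (L x))) := by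
  refine PK.one (φ := fun x : X => ev (n + 1) 1 (hp (L x))) fun f => ?_
  simp only [ev_apply]
  exact ((LP_eval (f : MvPolynomial (Fin (n + 1)) ℂ)).comp_linear (hpL n)).comp_linear L

theorem PK_x {ν b c e : ℕ} (k : Fin b) (q : WY ν c) :
    PK (K := ℂ) fun x : PT ν b c e => ZG k x q := by
  refine ((PK.iInf fun i => PK_const_ev _).inf (PK.iInf fun l => ?_)).inf
    ((PK.iInf fun l => PK_const_ev _).inf ?_)
  · exact PK_hp_ev ((pt (Sum.inl (Sum.inr l))).comp
      (LinearMap.fst ℂ ((Fin b ⊕ Fin c) ⊕ Fin e → Fin ν → ℂ) (Fin c → Fin b → ℂ)))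
  · exact PK_hp_ev ((pt (Sum.inl (Sum.inl k))).comp
      (LinearMap.fst ℂ ((Fin b ⊕ Fin c) ⊕ Fin e → Fin ν → ℂ) (Fin c → Fin b → ℂ)))

theorem PK_q {ν b c e : ℕ} (k : Fin b) (x : PT ν b c e) :
    PK (K := ℂ) fun q : WY ν c => ZG k x q := by
  refine ((PK.iInf fun i => ?_).inf (PK.iInf fun l => PK_const_ev _)).inf
    ((PK.iInf fun l => ?_).inf (PK_const_ev _))
  · refine PK.one (φ := fun q : WY ν c => ev (ν + 1) 1 (q.2 i)) fun f => ?_
    simp only [ev_apply]
    exact (LP_eval (f : MvPolynomial (Fin (ν + 1)) ℂ)).comp_linear ((pt i).comp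
      (LinearMap.snd ℂ (Fin c → Fin ν → ℂ) (Fin (ν + 1 - 2 * c) → Fin (ν + 1) → ℂ)))
  · exact PK_hp_ev ((pt l).comp
      (LinearMap.fst ℂ (Fin c → Fin ν → ℂ) (Fin (ν + 1 - 2 * c) → Fin (ν + 1) → ℂ)))

/-- the example -/
noncomputable def x0 (ν b c e : ℕ) (h : 2 * c ≤ ν) : PT ν b c e :=
  (Sum.elim (Sum.elim (fun _ => 0) fun l => Pi.single ⟨(l : ℕ), by omega⟩ 1) fun _ => 0, 0)

/-- the example -/
noncomputable def q0 (ν c : ℕ) (h : 2 * c ≤ ν) : WY ν c :=
  (fun l => Pi.single ⟨c + (l : ℕ), by omega⟩ 1,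
    fun i => Fin.cons 1 (if hi : (i : ℕ) = 0 then 0 else
      Pi.single ⟨2 * c + ((i : ℕ) - 1), by omega⟩ 1))

theorem hp_sum {n : ℕ} (a : Fin (n + 1) → ℂ) (z : Fin n → ℂ) :
    ∑ j, a j * hp z j = ∑ j, a j.succ * z j := by
  rw [Fin.sum_univ_succ]
  simp

theorem single_sum {n : ℕ} (a : Fin n → ℂ) (i : Fin n) :
    ∑ j, a j * (Pi.single i 1 : Fin n → ℂ) j = a i := by
  rw [Finset.sum_eq_single i]
  · simp
  · intro j _ hj
    simp [hj]
  · intro h
    exact absurd (Finset.mem_univ i) h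

theorem ZG_bot {ν b c e : ℕ} (h : 2 * c ≤ ν) (k : Fin b) :
    ZG k (x0 ν b c e h) (q0 ν c h) = ⊥ := by
  rw [Submodule.eq_bot_iff]
  intro g hg
  rw [mem_ZG] at hg
  obtain ⟨⟨h1, h2⟩, h3, h4⟩ := hg
  have hd : (g : MvPolynomial (Fin (ν + 1)) ℂ).totalDegree ≤ 1 := mem_Pol.1 g.2
  set G : MvPolynomial (Fin (ν + 1)) ℂ := (g : MvPolynomial (Fin (ν + 1)) ℂ) with hG
  simp only [eval_affine G hd] at h1 h2 h3 h4
  set a : Fin (ν + 1) → ℂ := fun j => G.coeff (Finsupp.single j 1) with ha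
  -- the constant term
  have e0 : G.coeff 0 = 0 := by
    have h5 : G.coeff 0 + ∑ j, a j * hp (0 : Fin ν → ℂ) j = 0 := h4
    rw [hp_sum] at h5
    simpa using h5
  have e1 : a 0 = 0 := by
    have h5 := h1 ⟨0, by omega⟩
    have h6 : G.coeff 0 + ∑ j, a j * (Fin.cons 1 (0 : Fin ν → ℂ) : Fin (ν + 1) → ℂ) j = 0 := by
      have h7 : (q0 ν c h).2 ⟨0, by omega⟩ = (Fin.cons 1 (0 : Fin ν → ℂ) : Fin (ν + 1) → ℂ) := by
        simp [q0]
      rw [h7] at h5
      exact h5
    rw [Fin.sum_univ_succ] at h6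
    simpa [e0] using h6
  have e2 : ∀ j : Fin ν, a j.succ = 0 := by
    intro j
    rcases lt_or_ge (j : ℕ) c with hj | hj
    · have h5 := h2 ⟨(j : ℕ), hj⟩
      have h6 : G.coeff 0 + ∑ i, a i * hp (Pi.single j 1 : Fin ν → ℂ) i = 0 := h5
      rw [hp_sum, single_sum (fun j => a j.succ), e0, zero_add] at h6
      exact h6
    · rcases lt_or_ge (j : ℕ) (2 * c) with hj2 | hj2
      · have h5 := h3 ⟨(j : ℕ) - c, by omega⟩
        have h7 : (q0 ν c h).1 ⟨(j : ℕ) - c, by omega⟩ = (Pi.single j 1 : Fin ν → ℂ) := by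
          have h8 : (⟨c + ((j : ℕ) - c), by omega⟩ : Fin ν) = j := Fin.ext (by simp; omega)
          simp only [q0]
          rw [h8]
        rw [h7] at h5
        have h6 : G.coeff 0 + ∑ i, a i * hp (Pi.single j 1 : Fin ν → ℂ) i = 0 := h5
        rw [hp_sum, single_sum (fun j => a j.succ), e0, zero_add] at h6
        exact h6
      · have h5 := h1 ⟨(j : ℕ) - 2 * c + 1, by omega⟩
        have h7 : (q0 ν c h).2 ⟨(j : ℕ) - 2 * c + 1, by omega⟩ =
            (Fin.cons 1 (Pi.single j 1 : Fin ν → ℂ) : Fin (ν + 1) → ℂ) := by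
          have h8 : (⟨2 * c + ((j : ℕ) - 2 * c + 1 - 1), by omega⟩ : Fin ν) = j :=
            Fin.ext (by simp; omega)
          simp only [q0]
          rw [dif_neg (by omega), h8]
        rw [h7] at h5
        have h6 : G.coeff 0 +
            ∑ i, a i * (Fin.cons 1 (Pi.single j 1 : Fin ν → ℂ) : Fin (ν + 1) → ℂ) i = 0 := h5
        rw [Fin.sum_univ_succ] at h6
        simp only [Fin.cons_zero, Fin.cons_succ, e0, e1, zero_mul, zero_add] at h6
        rw [single_sum (fun j => a j.succ)] at h6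
        exact h6
  have e3 : ∀ j : Fin (ν + 1), G.coeff (Finsupp.single j 1) = 0 := by
    intro j
    refine Fin.cases e1 (fun i => e2 i) j
  apply Subtype.ext
  change G = 0
  rw [repr_affine G hd, e0]
  simp [e3]

end GENaux

open _root_.Pool.Agent.WarC.GENaux in
theorem x_GEN : S_GEN := by
  intro ν b c e h
  have h1 : Gen ℂ fun x : PT ν b c e => ∀ k : Fin b, ZG k x (q0 ν c h) = ⊥ :=
    Gen.forall fun k => (PK_x k (q0 ν c h)).gen_bot (ZG_bot h k)
  refine h1.mono fun x hx => ?_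
  have h2 : Gen ℂ fun q : WY ν c => ∀ k : Fin b, ZG k x q = ⊥ :=
    Gen.forall fun k => (PK_q k x).gen_bot (hx k)
  have h3 : Gen ℂ fun q : WY ν c => ∀ i, q.2 i 0 ≠ 0 :=
    (gen_off (n := ν) (I := Fin (ν + 1 - 2 * c))).comp
      (LinearMap.snd ℂ (Fin c → Fin ν → ℂ) (Fin (ν + 1 - 2 * c) → Fin (ν + 1) → ℂ))
      LinearMap.snd_surjective
  exact (h3.and h2).mono fun q hq => GP_of hq.1 hq.2

end Pool.Agent.WarC


end

section

/-!
# Simultaneous Waring decompositions (MP_db021c_ag): dimension of `TL`   (helper15)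
-/

set_option autoImplicit false

open Module MvPolynomial
open Pool.Agent.War Pool.Agent.WarS Pool.Agent.WarQ

namespace Pool.Agent.WarC

namespace TL1aux

/-- `TL` is cut out by functionals depending polynomially on the parameter -/
theorem PK_TL (ν : ℕ) {b c e : ℕ} (L : Finset (Fin c)) :
    PK (K := ℂ) fun x : PT ν b c e => TL x L := by
  classical
  unfold TL
  refine (PK_MZ ν).inf ?_
  have h1 : PK (K := ℂ) fun x : PT ν b c e =>
      ⨅ l : {l : Fin c // l ∈ L}, LinearMap.ker (th (ν := ν) (x.2 l.1)) := by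
    refine PK.iInf fun l => ?_
    let B := Module.finBasis ℂ (Pol ν 2)
    refine ⟨Fin (finrank ℂ (Pol ν 2)), inferInstance,
      fun i x => (B.coord i).comp (th (x.2 l.1)), fun i v => ?_, fun x v => ?_⟩
    · have e1 : ∀ x : PT ν b c e, (B.coord i).comp (th (x.2 l.1)) v =
          ∑ k, x.2 l.1 k * B.coord i (v k) := by
        intro x
        unfold th
        rw [LinearMap.comp_apply, LinearMap.sum_apply, map_sum]
        refine Finset.sum_congr rfl fun k _ => ?_
        rw [LinearMap.smul_apply, LinearMap.proj_apply, map_smul, smul_eq_mul]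
      simp only [e1]
      refine LP.sum _ fun k _ => ?_
      refine LP.mul ?_ (LP.const _)
      exact LP.linear ((LinearMap.proj k : (Fin b → ℂ) →ₗ[ℂ] ℂ).comp
        ((LinearMap.proj l.1 : (Fin c → Fin b → ℂ) →ₗ[ℂ] (Fin b → ℂ)).comp
          (LinearMap.snd ℂ ((Fin b ⊕ Fin c) ⊕ Fin e → Fin ν → ℂ) (Fin c → Fin b → ℂ))))
    · rw [LinearMap.mem_ker]
      constructor
      · intro h i
        rw [LinearMap.comp_apply, h, map_zero]
      · intro h
        refine B.ext_elem fun i => ?_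
        rw [map_zero, Finsupp.zero_apply]
        exact h i
  refine h1.congr fun x => ?_
  rw [iInf_subtype]

theorem mem_TL {ν b c e : ℕ} {x : PT ν b c e} {L : Finset (Fin c)} {t : Fin b → Pol ν 2} :
    t ∈ TL x L ↔ t ∈ MZ ν x ∧ ∀ l ∈ L, th (x.2 l) t = 0 := by
  unfold TL
  simp only [Submodule.mem_inf, Submodule.mem_iInf, LinearMap.mem_ker]

/-- trivial case without forms -/
theorem MZ_zero (ν : ℕ) {c e : ℕ} (x : PT ν 0 c e) : finrank ℂ (MZ ν x) ≤ 0 := by
  have : finrank ℂ (Fin 0 → Pol ν 2) = 0 := by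
    rw [Module.finrank_pi_fintype]
    simp
  exact (Submodule.finrank_le _).trans this.le

theorem th_append {ν r j : ℕ} (α : Fin r → ℂ) (β : Fin j → ℂ) (t : Fin (r + j) → Pol ν 2) :
    th (Fin.append α β) t =
      ∑ k, α k • t (Fin.castAdd j k) + ∑ k, β k • t (Fin.natAdd r k) := by
  unfold th
  rw [LinearMap.sum_apply, Fin.sum_univ_add]
  congr 1
  · refine Finset.sum_congr rfl fun k _ => ?_
    rw [LinearMap.smul_apply, LinearMap.proj_apply, Fin.append_left]
  · refine Finset.sum_congr rfl fun k _ => ?_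
    rw [LinearMap.smul_apply, LinearMap.proj_apply, Fin.append_right]

/-- one configuration -/
theorem exists_TL (ν r c c' e e' : ℕ) (L : Finset (Fin c)) (hc' : c' ≤ c)
    (hcard : (r + L.card + c) + e = (r + c') + e') (x' : PT ν r c' e') :
    ∃ x : PT ν (r + L.card) c e, finrank ℂ (TL x L) ≤ finrank ℂ (MZ ν x') := by
  classical
  set j := L.card with hj
  have hjc : j ≤ c := by
    have := Finset.card_le_univ L
    rwa [Fintype.card_fin] at this
  -- the set of the mixed conditions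
  let M := Fin j ⊕ {l : Fin c // l ∉ L}
  have hM : Fintype.card M = c := by
    simp only [M, Fintype.card_sum, Fintype.card_fin]
    have : Fintype.card {l : Fin c // l ∉ L} = c - j := by
      rw [Fintype.card_subtype_compl, Fintype.card_fin]
      simp [hj]
    omega
  obtain ⟨ι⟩ : Nonempty (Fin c' ↪ M) := by
    apply Function.Embedding.nonempty_of_card_le
    rw [hM, Fintype.card_fin]
    exact hc'
  let σ : {l // l ∈ L} ≃ Fin j := L.equivFin
  let pt' : M → (Fin (r + j) ⊕ Fin c) ⊕ Fin e :=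
    Sum.elim (fun s => Sum.inl (Sum.inl (Fin.natAdd r s))) (fun l => Sum.inl (Sum.inr l.1))
  have hpt' : Function.Injective pt' := by
    rintro (s | l) (s' | l') h
    · simp only [pt', Sum.elim_inl, Sum.inl.injEq] at h
      exact congrArg Sum.inl (Fin.natAdd_injective _ _ h)
    · simp [pt'] at h
    · simp [pt'] at h
    · simp only [pt', Sum.elim_inr, Sum.inl.injEq, Sum.inr.injEq] at h
      exact congrArg Sum.inr (Subtype.ext h)
  have hpt'c : ∀ (m : M) (k : Fin r), pt' m ≠ Sum.inl (Sum.inl (Fin.castAdd j k)) := by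
    rintro (s | l) k h
    · simp only [pt', Sum.elim_inl, Sum.inl.injEq] at h
      have := congrArg Fin.val h
      simp only [Fin.val_natAdd, Fin.val_castAdd] at this
      omega
    · simp [pt'] at h
  -- the matching of the points
  let g : (Fin r ⊕ Fin c') ⊕ Fin e' → (Fin (r + j) ⊕ Fin c) ⊕ Fin e :=
    Sum.elim (Sum.elim (fun k => Sum.inl (Sum.inl (Fin.castAdd j k))) (fun i => pt' (ι i)))
      (fun _ => if h : 0 < r + j then Sum.inl (Sum.inl ⟨0, h⟩) else
        if h' : 0 < c then Sum.inl (Sum.inr ⟨0, h'⟩) else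
        if h'' : 0 < e then Sum.inr ⟨0, h''⟩ else by
          exfalso
          have : 0 < e' := Fin.pos ‹_›
          omega)
  have hginj : Set.InjOn g ((Finset.univ.filter fun i => i.isLeft = true :
      Finset ((Fin r ⊕ Fin c') ⊕ Fin e'))) := by
    rintro ((k | i) | u) hu ((k' | i') | u') hu' h
    · simp only [g, Sum.elim_inl, Sum.inl.injEq] at h
      rw [Fin.castAdd_injective _ _ h]
    · simp only [g, Sum.elim_inl, Sum.elim_inr] at h
      exact absurd h.symm (hpt'c _ _)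
    · simp at hu'
    · simp only [g, Sum.elim_inl, Sum.elim_inr] at h
      exact absurd h (hpt'c _ _)
    · simp only [g, Sum.elim_inl, Sum.elim_inr] at h
      rw [ι.injective (hpt' h)]
    · simp at hu'
    · simp at hu
    · simp at hu
    · simp at hu
  have hcd : Fintype.card ((Fin r ⊕ Fin c') ⊕ Fin e') =
      (Finset.univ : Finset ((Fin (r + j) ⊕ Fin c) ⊕ Fin e)).card := by
    rw [Finset.card_univ]
    simp only [Fintype.card_sum, Fintype.card_fin]
    omega
  obtain ⟨E0, hE0⟩ := Finset.exists_equiv_extend_of_card_eq hcd (Finset.subset_univ _) hginj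
  let E : (Fin r ⊕ Fin c') ⊕ Fin e' ≃ (Fin (r + j) ⊕ Fin c) ⊕ Fin e :=
    E0.trans (Equiv.subtypeUnivEquiv fun _ => Finset.mem_univ _)
  have hE1 : ∀ k : Fin r, E (Sum.inl (Sum.inl k)) = Sum.inl (Sum.inl (Fin.castAdd j k)) :=
    fun k => hE0 (Sum.inl (Sum.inl k)) (by simp)
  have hE2 : ∀ i : Fin c', E (Sum.inl (Sum.inr i)) = pt' (ι i) :=
    fun i => hE0 (Sum.inl (Sum.inr i)) (by simp)
  let α : M → Fin r → ℂ := Function.extend ι x'.2 0
  have hα : ∀ i, α (ι i) = x'.2 i := fun i => ι.injective.extend_apply _ _ _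
  let a : Fin c → Fin (r + j) → ℂ := fun l =>
    if h : l ∈ L then Fin.append (α (Sum.inl (σ ⟨l, h⟩))) (Pi.single (σ ⟨l, h⟩) 1)
      else Fin.append (α (Sum.inr ⟨l, h⟩)) 0
  have ha1 : ∀ s : Fin j, a (σ.symm s).1 = Fin.append (α (Sum.inl s)) (Pi.single s 1) := by
    intro s
    simp only [a]
    rw [dif_pos (σ.symm s).2]
    simp
  have ha2 : ∀ l : {l : Fin c // l ∉ L}, a l.1 = Fin.append (α (Sum.inr l)) 0 := by
    intro l
    simp only [a]
    rw [dif_neg l.2]
  refine ⟨(fun i => x'.1 (E.symm i), a), ?_⟩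
  set x : PT ν (r + j) c e := (fun i => x'.1 (E.symm i), a) with hx
  have hx1 : ∀ i', x.1 (E i') = x'.1 i' := fun i' => by simp [hx]
  have hx2 : ∀ l, x.2 l = a l := fun _ => rfl
  -- relation for the last forms
  have hrel : ∀ t ∈ TL x L, ∀ s : Fin j,
      ∑ k, α (Sum.inl s) k • t (Fin.castAdd j k) + t (Fin.natAdd r s) = 0 := by
    intro t ht s
    have h1 := (mem_TL.1 ht).2 (σ.symm s).1 (σ.symm s).2
    rw [hx2, ha1, th_append] at h1
    have h2 : ∑ k, (Pi.single s (1 : ℂ) : Fin j → ℂ) k • t (Fin.natAdd r k) =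
        t (Fin.natAdd r s) := by
      rw [Finset.sum_eq_single s]
      · rw [Pi.single_eq_same, one_smul]
      · intro k _ hk
        rw [Pi.single_eq_of_ne hk, zero_smul]
      · intro h
        exact absurd (Finset.mem_univ _) h
    rw [h2] at h1
    exact h1
  let R : (Fin (r + j) → Pol ν 2) →ₗ[ℂ] (Fin r → Pol ν 2) :=
    LinearMap.funLeft ℂ (Pol ν 2) (Fin.castAdd j)
  have hR : ∀ t k, R t k = t (Fin.castAdd j k) := fun _ _ => rfl
  have hmap : ∀ t ∈ TL x L, R t ∈ MZ ν x' := by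
    intro t ht
    obtain ⟨h1, h2, h3⟩ := mem_MZ.1 (mem_TL.1 ht).1
    refine mem_MZ.2 ⟨fun i' k => ?_, fun k v => ?_, fun i v => ?_⟩
    · have := h1 (E i') (Fin.castAdd j k)
      rwa [hx1] at this
    · have := h2 (Fin.castAdd j k) v
      rwa [← hE1, hx1] at this
    · rcases hm : ι i with s | l
      · have hE : E (Sum.inl (Sum.inr i)) = Sum.inl (Sum.inl (Fin.natAdd r s)) := by
          rw [hE2, hm]; rfl
        have k1 := h2 (Fin.natAdd r s) v
        rw [← hE, hx1] at k1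
        have k2 := hrel t ht s
        rw [← hm, hα] at k2
        have k3 : (∑ k, C (x'.2 i k) * (t (Fin.castAdd j k) : MvPolynomial (Fin ν) ℂ)) +
            (t (Fin.natAdd r s) : MvPolynomial (Fin ν) ℂ) = 0 := by
          have := congrArg Subtype.val k2
          rw [Submodule.coe_add, Submodule.coe_sum] at this
          simpa [smul_eq_C_mul] using this
        have k4 := congrArg (fun f => eval (x'.1 (Sum.inl (Sum.inr i))) (pderiv v f)) k3
        simp only [map_add, map_sum, map_zero, k1, add_zero, pderiv_C_mul, map_mul, eval_C]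
          at k4
        simpa [hR] using k4
      · have hE : E (Sum.inl (Sum.inr i)) = Sum.inl (Sum.inr l.1) := by
          rw [hE2, hm]; rfl
        have k1 := h3 l.1 v
        rw [← hE, hx1, hx2, ha2, Fin.sum_univ_add] at k1
        simp only [Fin.append_left, Fin.append_right, Pi.zero_apply, zero_mul,
          Finset.sum_const_zero, add_zero] at k1
        rw [← hm, hα] at k1
        simpa [hR] using k1
  have hinj : ∀ t ∈ TL x L, R t = 0 → t = 0 := by
    intro t ht h0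
    have h1 : ∀ k, t (Fin.castAdd j k) = 0 := fun k => congrFun h0 k
    funext m
    refine Fin.addCases (fun k => h1 k) (fun s => ?_) m
    have := hrel t ht s
    simpa [h1] using this
  let F : TL x L →ₗ[ℂ] MZ ν x' := (R.comp (TL x L).subtype).codRestrict (MZ ν x')
    fun t => hmap t.1 t.2
  refine LinearMap.finrank_le_finrank_of_injective (f := F) ?_
  intro t t' h
  have h1 : R t.1 = R t'.1 := congrArg Subtype.val h
  have h2 := hinj (t.1 - t'.1) (Submodule.sub_mem _ t.2 t'.2) (by rw [map_sub, h1, sub_self])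
  exact Subtype.ext (sub_eq_zero.1 h2)

end TL1aux

open _root_.Pool.Agent.WarC.TL1aux

theorem x_TL1 : S_TL1 := by
  intro ν D b c hD hDν hc hcb hbν hN hMR L hL
  have hj1 : 1 ≤ L.card := hL.card_pos
  have hjc : L.card ≤ c := by
    have := Finset.card_le_univ L
    rwa [Fintype.card_fin] at this
  obtain ⟨r, rfl⟩ : ∃ r, b = r + L.card := ⟨b - L.card, by omega⟩
  have hr : r ≤ ν := by omega
  obtain ⟨x', hx'⟩ : ∃ x' : PT ν r (min c r) (NN ν 2 - (ν + D) - (r + min c r)),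
      finrank ℂ (MZ ν x') ≤ r * D - ν * min c r := by
    rcases Nat.eq_zero_or_pos r with h0 | h0
    · subst h0
      exact ⟨0, (MZ_zero ν _).trans (Nat.zero_le _)⟩
    · exact hMR r (min c r) h0 hr (min_le_right _ _) (min_le_left _ _)
  obtain ⟨x, hx⟩ := exists_TL ν r c (min c r) (NN ν 2 - (ν + D) - (r + L.card + c))
    (NN ν 2 - (ν + D) - (r + min c r)) L (min_le_left _ _) (by
      have : min c r ≤ c := min_le_left _ _
      omega) x'
  refine (PK_TL ν L).gen_finrank (x₀ := x) ((hx.trans hx').trans ?_)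
  rcases le_total c r with h | h
  · rw [min_eq_left h]
    have e1 : (r + L.card) * D = r * D + L.card * D := by ring
    have e2 : (ν + 1) * c = ν * c + c := by ring
    have e3 : L.card ≤ L.card * D := Nat.le_mul_of_pos_right _ hD
    omega
  · rw [min_eq_right h]
    have e1 : r * D ≤ ν * r := by
      rw [mul_comm ν r]
      exact Nat.mul_le_mul_left _ hDν
    omega

end Pool.Agent.WarC


end

section

/-!
# Simultaneous Waring decompositions (MP_db021c_ag): module TL0   (helper46)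

Dimension of `MZ` on the hyperplane.
-/

set_option autoImplicit false

open Module MvPolynomial
open Pool.Agent.War Pool.Agent.WarS Pool.Agent.WarQ

namespace Pool.Agent.WarC

namespace TL0aux

/-- index map: the last pure point becomes the first simple point -/
def phi {ν c e : ℕ} : (Fin ν ⊕ Fin c) ⊕ Fin (e + 1) → (Fin (ν + 1) ⊕ Fin c) ⊕ Fin e :=
  Sum.elim (Sum.elim (fun k => Sum.inl (Sum.inl k.castSucc)) fun l => Sum.inl (Sum.inr l))
    (Fin.cases (Sum.inl (Sum.inl (Fin.last ν))) fun i => Sum.inr i)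

def psi {ν c e : ℕ} : (Fin (ν + 1) ⊕ Fin c) ⊕ Fin e → (Fin ν ⊕ Fin c) ⊕ Fin (e + 1) :=
  Sum.elim (Sum.elim (Fin.lastCases (Sum.inr 0) fun k => Sum.inl (Sum.inl k))
    fun l => Sum.inl (Sum.inr l)) fun i => Sum.inr i.succ

theorem psi_phi {ν c e : ℕ} (i : (Fin ν ⊕ Fin c) ⊕ Fin (e + 1)) : psi (phi i) = i := by
  rcases i with (k | l) | i
  · simp [phi, psi]
  · simp [phi, psi]
  · refine Fin.cases ?_ (fun i => ?_) i
    · simp [phi, psi]
    · simp [phi, psi]

/-- truncation of the configuration -/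
noncomputable def trc (ν c e : ℕ) : PT ν (ν + 1) c e →ₗ[ℂ] PT ν ν c (e + 1) where
  toFun x := (fun i => x.1 (phi i), fun l k => x.2 l k.castSucc)
  map_add' _ _ := rfl
  map_smul' _ _ := rfl

theorem trc_surj (ν c e : ℕ) : Function.Surjective (trc ν c e) := by
  intro x
  refine ⟨(fun i => x.1 (psi i), fun l => Fin.snoc (x.2 l) 0), ?_⟩
  refine Prod.ext ?_ ?_
  · funext i
    change x.1 (psi (phi i)) = x.1 i
    rw [psi_phi]
  · funext l k
    change (Fin.snoc (x.2 l) 0 : Fin (ν + 1) → ℂ) k.castSucc = x.2 l k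
    exact Fin.snoc_castSucc _ _ _

/-- restriction of the tuples to the first coordinates -/
noncomputable def rst (ν : ℕ) : (Fin (ν + 1) → Pol ν 2) →ₗ[ℂ] (Fin ν → Pol ν 2) :=
  LinearMap.pi fun k => LinearMap.proj k.castSucc

theorem main (ν c e D r : ℕ) (hν : 1 ≤ ν)
    (hD : NN ν 2 - (ν * 1 + ((ν + 1 + c) + e)) ≤ D)
    (hx : ∃ x : PT ν ν c (e + 1), finrank ℂ (MZ ν x) ≤ r) :
    ∃ x : PT ν (ν + 1) c e, finrank ℂ (MZ ν x) ≤ D + r := by
  classical
  obtain ⟨x₀, hx₀⟩ := hx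
  have hA := ((PK_MZ ν).gen_finrank (x₀ := x₀) hx₀).comp (trc ν c e) (trc_surj ν c e)
  have hB0 := SG ν 2 ((Fin (ν + 1) ⊕ Fin c) ⊕ Fin e)
    {Sum.inl (Sum.inl (Fin.last ν))} hν (by
      rw [Finset.card_singleton]
      exact WarM.ONE ν 2 (by norm_num))
  have hB := hB0.comp (LinearMap.fst ℂ ((Fin (ν + 1) ⊕ Fin c) ⊕ Fin e → Fin ν → ℂ)
    (Fin c → Fin (ν + 1) → ℂ)) LinearMap.fst_surjective
  obtain ⟨x, hxA, hxB⟩ := (hA.and hB).exists
  refine ⟨x, ?_⟩
  have hxB' : finrank ℂ (Dbl ν 2 {Sum.inl (Sum.inl (Fin.last ν))} x.1) ≤ D := by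
    refine le_trans hxB ?_
    rw [Finset.card_singleton]
    simpa using hD
  set ρ : (Fin (ν + 1) → Pol ν 2) →ₗ[ℂ] Pol ν 2 := LinearMap.proj (Fin.last ν) with hρ
  have h1 := finrank_le_map_add_ker ρ (MZ ν x)
  have h2 : (MZ ν x).map ρ ≤ Dbl ν 2 {Sum.inl (Sum.inl (Fin.last ν))} x.1 := by
    rintro _ ⟨f, hf, rfl⟩
    rw [SetLike.mem_coe, mem_MZ] at hf
    rw [mem_Dbl]
    refine ⟨fun i => hf.1 i _, fun i hi k => ?_⟩
    rw [Finset.mem_singleton] at hi
    subst hi
    exact hf.2.1 _ k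
  have h3 := (Submodule.finrank_mono h2).trans hxB'
  set W : Submodule ℂ (Fin (ν + 1) → Pol ν 2) := MZ ν x ⊓ LinearMap.ker ρ with hW
  have h4 := finrank_le_map_add_ker (rst ν) W
  have h5 : W ⊓ LinearMap.ker (rst ν) = ⊥ := by
    rw [eq_bot_iff]
    rintro f ⟨hf1, hf2⟩
    rw [Submodule.mem_bot]
    have e1 : f (Fin.last ν) = 0 := hf1.2
    rw [SetLike.mem_coe, LinearMap.mem_ker] at hf2
    funext k
    refine Fin.lastCases e1 (fun k => ?_) k
    exact congrFun hf2 k
  have h6 : W.map (rst ν) ≤ MZ ν (trc ν c e x) := by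
    rintro _ ⟨f, hf, rfl⟩
    obtain ⟨hf1, hf2⟩ := hf
    have e1 : f (Fin.last ν) = 0 := hf2
    rw [SetLike.mem_coe, mem_MZ] at hf1
    rw [mem_MZ]
    refine ⟨fun i j => hf1.1 _ _, fun k v => hf1.2.1 _ v, fun l v => ?_⟩
    have e2 := hf1.2.2 l v
    rw [Fin.sum_univ_castSucc, e1] at e2
    have e3 : ∑ i : Fin ν, x.2 l i.castSucc * eval (x.1 (Sum.inl (Sum.inr l)))
        (pderiv v (f i.castSucc : MvPolynomial (Fin ν) ℂ)) = 0 := by simpa using e2
    exact e3
  have h7 := (Submodule.finrank_mono h6).trans hxA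
  rw [h5, finrank_bot] at h4
  omega

end TL0aux

theorem x_TL0 : S_TL0 := by
  intro ν D b c hD hDν hc hcb hcD hb hN hMR
  rcases Nat.lt_or_ge b (ν + 1) with hb' | hb'
  · obtain ⟨x, hx⟩ := hMR b c (by omega) (by omega) hcb le_rfl
    refine (PK_MZ ν).gen_finrank (x₀ := x) (hx.trans ?_)
    have : (ν + 1) * c = ν * c + c := by ring
    omega
  · obtain rfl : b = ν + 1 := le_antisymm hb hb'
    have h := hMR ν c (by omega) le_rfl (by omega) le_rfl
    unfold MR at h
    have he : NN ν 2 - (ν + D) - (ν + c) = (NN ν 2 - (ν + D) - (ν + 1 + c)) + 1 := by omega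
    rw [he] at h
    obtain ⟨x, hx⟩ := TL0aux.main ν c (NN ν 2 - (ν + D) - (ν + 1 + c)) D (ν * D - ν * c)
      (by omega) (by omega) h
    refine (PK_MZ ν).gen_finrank (x₀ := x) (hx.trans ?_)
    obtain ⟨k, rfl⟩ : ∃ k, D = c + k := ⟨D - c, by omega⟩
    have e1 : ν * (c + k) = ν * c + ν * k := by ring
    have e2 : (ν + 1) * (c + k) = (ν + 1) * c + (ν * k + k) := by ring
    rw [e1, e2]
    omega

end Pool.Agent.WarC


end

section

/-!
# MP_db021c_ag, cubics: quadrics with double points and midpoints (`S_UK`)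
-/

set_option autoImplicit false

open Module MvPolynomial
open Pool.Agent.War Pool.Agent.WarS Pool.Agent.WarQ

namespace Pool.Agent.WarC

namespace UKaux

/-! ### polynomials of degree at most two -/

/-- representation of the polynomials of degree at most two -/
def Rp {n : ℕ} (f : MvPolynomial (Fin n) ℂ) : Prop :=
  ∃ (c : ℂ) (a : Fin n → ℂ) (b : Fin n → Fin n → ℂ),
    f = C c + ∑ i, C (a i) * X i + ∑ i, ∑ j, C (b i j) * (X i * X j)

theorem Rp.add {n : ℕ} {f g : MvPolynomial (Fin n) ℂ} (hf : Rp f) (hg : Rp g) : Rp (f + g) := by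
  obtain ⟨c, a, b, rfl⟩ := hf
  obtain ⟨c', a', b', rfl⟩ := hg
  refine ⟨c + c', fun i => a i + a' i, fun i j => b i j + b' i j, ?_⟩
  simp only [C_add, add_mul, Finset.sum_add_distrib]
  ring

theorem Rp.zero {n : ℕ} : Rp (0 : MvPolynomial (Fin n) ℂ) := ⟨0, 0, 0, by simp⟩

theorem Rp.mono {n : ℕ} (m : Fin n →₀ ℕ) (r : ℂ) (hm : (m.sum fun _ e => e) ≤ 2) :
    Rp (monomial m r) := by
  classical
  by_cases h0 : m = 0
  · subst h0
    exact ⟨r, 0, 0, by simp⟩
  · obtain ⟨i, hi⟩ : ∃ i, m i ≠ 0 := by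
      by_contra hn
      push Not at hn
      exact h0 (Finsupp.ext hn)
    have h1 : Finsupp.single i 1 ≤ m := Finsupp.single_le_iff.2 (Nat.one_le_iff_ne_zero.2 hi)
    obtain ⟨m', rfl⟩ : ∃ m', m = Finsupp.single i 1 + m' := ⟨_, (add_tsub_cancel_of_le h1).symm⟩
    rw [Finsupp.sum_add_index' (fun _ => rfl) (fun _ _ _ => rfl),
      Finsupp.sum_single_index rfl] at hm
    have e1 : monomial (Finsupp.single i 1 + m') r = X i * monomial m' r := by
      rw [X, monomial_mul, one_mul]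
    by_cases h2 : m' = 0
    · subst h2
      refine ⟨0, Pi.single i r, 0, ?_⟩
      rw [e1, Finset.sum_eq_single i]
      · simp [mul_comm]
      · intro j _ hj
        simp [hj]
      · simp
    · have h3 : (m'.sum fun _ e => e) = 1 := by
        refine le_antisymm (by omega) (Nat.one_le_iff_ne_zero.2 fun h => h2 ?_)
        ext j
        by_contra hj
        have hj' : j ∈ m'.support := Finsupp.mem_support_iff.2 hj
        have h4 := Finset.single_le_sum (f := fun i => m' i) (fun _ _ => Nat.zero_le _) hj'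
        have h5 : (m'.sum fun _ e => e) = ∑ x ∈ m'.support, m' x := rfl
        have h6 : m' j ≠ 0 := hj
        omega
      obtain ⟨j, rfl⟩ := (Finsupp.sum_eq_one_iff m').1 h3
      refine ⟨0, 0, fun i' j' => if i' = i ∧ j' = j then r else 0, ?_⟩
      simp only [Pi.zero_apply, C_0, zero_mul, Finset.sum_const_zero, zero_add]
      rw [e1, Finset.sum_eq_single i]
      · rw [Finset.sum_eq_single j]
        · have e2 : monomial (Finsupp.single j 1) r = C r * X j := by
            rw [X, C_mul_monomial, mul_one]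
          rw [e2]
          simp
          ring
        · intro j' _ hj'
          simp [hj']
        · simp
      · intro i' _ hi'
        simp [hi']
      · simp

theorem rp_of_deg {n : ℕ} (f : MvPolynomial (Fin n) ℂ) (hf : f.totalDegree ≤ 2) : Rp f := by
  rw [f.as_sum]
  exact Finset.sum_induction _ Rp (fun _ _ => Rp.add) Rp.zero
    fun m hm => Rp.mono m _ ((le_totalDegree hm).trans hf)

section Rep

variable {n : ℕ} (c : ℂ) (a : Fin n → ℂ) (b : Fin n → Fin n → ℂ)

/-- the polynomial with given coefficients -/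
noncomputable def pq : MvPolynomial (Fin n) ℂ :=
  C c + ∑ i, C (a i) * X i + ∑ i, ∑ j, C (b i j) * (X i * X j)

theorem eval_pq (x : Fin n → ℂ) : eval x (pq c a b) =
    c + ∑ i, a i * x i + ∑ i, ∑ j, b i j * (x i * x j) := by
  simp [pq]

theorem eval_pderiv_pq (k : Fin n) (z : Fin n → ℂ) : eval z (pderiv k (pq c a b)) =
    a k + ∑ j, b k j * z j + ∑ i, b i k * z i := by
  classical
  have h1 : ∀ i : Fin n, eval z (pderiv k (X i : MvPolynomial (Fin n) ℂ)) =
      if k = i then 1 else 0 := by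
    intro i
    rw [pderiv_X, Pi.single_apply]
    by_cases h : k = i
    · rw [if_pos h.symm, if_pos h, map_one]
    · rw [if_neg (fun h' => h h'.symm), if_neg h, map_zero]
  have h2 : ∀ i : Fin n, eval z (pderiv k (C (a i) * X i)) = if k = i then a i else 0 := by
    intro i
    rw [pderiv_C_mul, map_mul, eval_C, h1]
    split_ifs <;> simp
  have h3 : ∀ i j : Fin n, eval z (pderiv k (C (b i j) * (X i * X j))) =
      (if k = i then b i j * z j else 0) + (if k = j then b i j * z i else 0) := by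
    intro i j
    rw [pderiv_C_mul, map_mul, eval_C, pderiv_mul, map_add, map_mul, map_mul, h1, h1, eval_X,
      eval_X]
    split_ifs <;> ring
  unfold pq
  rw [map_add (pderiv k), map_add (pderiv k), pderiv_C, zero_add, map_sum, map_sum, map_add,
    map_sum, map_sum]
  simp only [map_sum, h2, h3, Finset.sum_add_distrib, Finset.sum_ite_eq, Finset.mem_univ, if_true]
  rw [add_assoc]
  congr 1
  congr 1
  rw [Finset.sum_comm]
  simp only [Finset.sum_ite_eq, Finset.mem_univ, if_true]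

theorem taylor_pq (z w : Fin n → ℂ) : eval (z + w) (pq c a b) =
    eval z (pq c a b) + ∑ k, eval z (pderiv k (pq c a b)) * w k +
      ∑ i, ∑ j, b i j * (w i * w j) := by
  simp only [eval_pq, eval_pderiv_pq, Pi.add_apply]
  have h1 : ∑ k, (a k + ∑ j, b k j * z j + ∑ i, b i k * z i) * w k =
      ∑ k, a k * w k + ∑ i, ∑ j, b i j * (w i * z j) + ∑ i, ∑ j, b i j * (z i * w j) := by
    rw [Finset.sum_comm (f := fun i j => b i j * (z i * w j)), ← Finset.sum_add_distrib,
      ← Finset.sum_add_distrib]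
    refine Finset.sum_congr rfl fun k _ => ?_
    rw [add_mul, add_mul, Finset.sum_mul, Finset.sum_mul]
    congr 1
    · congr 1
      refine Finset.sum_congr rfl fun j _ => ?_
      ring
    · refine Finset.sum_congr rfl fun j _ => ?_
      ring
  have h2 : ∑ i, ∑ j, b i j * ((z i + w i) * (z j + w j)) = ∑ i, ∑ j, b i j * (z i * z j) +
      ∑ i, ∑ j, b i j * (w i * z j) + ∑ i, ∑ j, b i j * (z i * w j) +
      ∑ i, ∑ j, b i j * (w i * w j) := by
    rw [← Finset.sum_add_distrib, ← Finset.sum_add_distrib, ← Finset.sum_add_distrib]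
    refine Finset.sum_congr rfl fun i _ => ?_
    rw [← Finset.sum_add_distrib, ← Finset.sum_add_distrib, ← Finset.sum_add_distrib]
    refine Finset.sum_congr rfl fun j _ => ?_
    ring
  rw [h1, h2]
  simp only [mul_add, Finset.sum_add_distrib]
  ring

end Rep

/-- a quadric which is double at `z` -/
theorem eval_mid_of_double {n : ℕ} (f : MvPolynomial (Fin n) ℂ) (hf : f.totalDegree ≤ 2)
    (z y : Fin n → ℂ) (h0 : eval z f = 0) (h1 : ∀ k, eval z (pderiv k f) = 0) :
    eval (mid z y) f = eval y f / 4 := by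
  obtain ⟨c, a, b, hr⟩ := rp_of_deg f hf
  have hr' : f = pq c a b := hr
  rw [hr'] at h0 h1 ⊢
  have key : ∀ w : Fin n → ℂ, eval (z + w) (pq c a b) = ∑ i, ∑ j, b i j * (w i * w j) := by
    intro w
    rw [taylor_pq, h0]
    simp [h1]
  have e1 : mid z y = z + fun i => (y i - z i) / 2 := by
    funext i
    simp only [mid, Pi.add_apply]
    ring
  have e2 : y = z + fun i => (y i - z i) := by
    funext i
    simp
  rw [e1, key]
  conv_rhs => rw [e2, key]
  rw [Finset.sum_div]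
  refine Finset.sum_congr rfl fun i _ => ?_
  rw [Finset.sum_div]
  refine Finset.sum_congr rfl fun j _ => ?_
  ring

/-! ### the vertices of the simplex -/

/-- the vertices -/
def V (n j : ℕ) : Fin n → ℂ := fun i => if j = (i : ℕ) + 1 then 1 else 0

theorem V_zero (n : ℕ) : V n 0 = 0 := by
  funext i
  simp [V]

theorem V_succ {n : ℕ} (i : Fin n) : V n ((i : ℕ) + 1) = Pi.single i 1 := by
  funext j
  by_cases h : j = i
  · subst h
    simp [V]
  · have h1 : (i : ℕ) ≠ (j : ℕ) := fun h' => h (Fin.ext (by omega))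
    simp [V, h1, h]

theorem eval_two {n : ℕ} (c : ℂ) (a : Fin n → ℂ) (b : Fin n → Fin n → ℂ) (i j : Fin n)
    (x y : ℂ) : eval (Pi.single i x + Pi.single j y) (pq c a b) =
      c + (a i * x + a j * y) + (b i i * x ^ 2 + b j j * y ^ 2 + (b i j + b j i) * (x * y)) := by
  classical
  rw [eval_pq]
  simp only [Pi.add_apply, mul_add, add_mul, Finset.sum_add_distrib, Pi.single_apply, mul_ite,
    ite_mul, mul_zero, zero_mul, Finset.sum_ite_eq', Finset.mem_univ, if_true]
  ring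

/-- a quadric which vanishes at the vertices and at the midpoints of the edges is zero -/
theorem eq_zero_of_nodes {n : ℕ} (f : MvPolynomial (Fin n) ℂ) (hf : f.totalDegree ≤ 2)
    (h : ∀ j k : ℕ, j ≤ k → k ≤ n → eval (mid (V n j) (V n k)) f = 0) : f = 0 := by
  obtain ⟨c, a, b, hr⟩ := rp_of_deg f hf
  have hr' : f = pq c a b := hr
  rw [hr'] at h ⊢
  have hc : c = 0 := by
    have h1 := h 0 0 le_rfl (Nat.zero_le n)
    have e1 : mid (V n 0) (V n 0) = 0 := by
      rw [V_zero]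
      funext i
      simp [mid]
    rw [e1, eval_pq] at h1
    simpa using h1
  have h2 : ∀ i : Fin n, a i * (1 / 2) + b i i * (1 / 2) ^ 2 = 0 := by
    intro i
    have h1 := h 0 ((i : ℕ) + 1) (Nat.zero_le _) i.2
    have e1 : mid (V n 0) (V n ((i : ℕ) + 1)) = Pi.single i (1 / 2) + Pi.single i 0 := by
      rw [V_zero, V_succ]
      funext k
      by_cases hk : k = i
      · subst hk
        simp [mid]
      · simp [mid, hk]
    rw [e1, eval_two, hc] at h1
    simpa using h1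
  have h3 : ∀ i j : Fin n, a i * (1 / 2) + a j * (1 / 2) + (b i i * (1 / 2) ^ 2 +
      b j j * (1 / 2) ^ 2 + (b i j + b j i) * (1 / 2 * (1 / 2))) = 0 := by
    intro i j
    have h1 : eval (mid (V n ((i : ℕ) + 1)) (V n ((j : ℕ) + 1))) (pq c a b) = 0 := by
      rcases le_total (i : ℕ) (j : ℕ) with hij | hij
      · exact h _ _ (by omega) j.2
      · have e0 : mid (V n ((i : ℕ) + 1)) (V n ((j : ℕ) + 1)) =
            mid (V n ((j : ℕ) + 1)) (V n ((i : ℕ) + 1)) := by
          funext k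
          simp only [mid]
          rw [add_comm]
        rw [e0]
        exact h _ _ (by omega) i.2
    have e1 : mid (V n ((i : ℕ) + 1)) (V n ((j : ℕ) + 1)) =
        Pi.single i (1 / 2) + Pi.single j (1 / 2) := by
      rw [V_succ, V_succ]
      funext k
      simp only [mid, Pi.add_apply, Pi.single_apply]
      split_ifs <;> norm_num
    rw [e1, eval_two, hc, zero_add] at h1
    exact h1
  have h4 : ∀ i j : Fin n, b i j + b j i = 0 := by
    intro i j
    have h5 := h3 i j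
    have h6 := h2 i
    have h7 := h2 j
    linear_combination 4 * h5 - 4 * h6 - 4 * h7
  have h5 : ∀ i : Fin n, a i = 0 := by
    intro i
    have h6 := h2 i
    have h7 := h4 i i
    linear_combination 2 * h6 - (1 / 4) * h7
  have h6 : ∑ i, ∑ j, C (b i j) * (X i * X j : MvPolynomial (Fin n) ℂ) = 0 := by
    have h7 : ∑ i, ∑ j, C (b i j) * (X i * X j : MvPolynomial (Fin n) ℂ) =
        - ∑ i, ∑ j, C (b i j) * (X i * X j : MvPolynomial (Fin n) ℂ) := by
      conv_lhs => rw [Finset.sum_comm]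
      rw [← Finset.sum_neg_distrib]
      refine Finset.sum_congr rfl fun i _ => ?_
      rw [← Finset.sum_neg_distrib]
      refine Finset.sum_congr rfl fun j _ => ?_
      have h8 : b j i = - b i j := by linear_combination h4 i j
      rw [h8, C_neg]
      ring
    exact self_eq_neg.1 h7
  unfold pq
  rw [h6, hc]
  simp [h5]

/-! ### the space -/

/-- the space of the statement without the simple points -/
noncomputable def U0 (n : ℕ) {p p' : ℕ} (z : Fin p → Fin n → ℂ) (y : Fin p' → Fin n → ℂ) :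
    Submodule ℂ (Pol n 2) :=
  ((⨅ i : Fin p, LinearMap.ker (ev n 2 (z i))) ⊓
      (⨅ i : Fin p × Fin n, LinearMap.ker (dv n 2 i.2 (z i.1))) ⊓
      (⨅ j : Fin p', LinearMap.ker (ev n 2 (y j))) ⊓
      (⨅ j : Fin p' × Fin p', LinearMap.ker (ev n 2 (mid (y j.1) (y j.2)))))

theorem mem_U0 {n p p' : ℕ} {z : Fin p → Fin n → ℂ} {y : Fin p' → Fin n → ℂ} {f : Pol n 2} :
    f ∈ U0 n z y ↔ (((∀ i, eval (z i) (f : MvPolynomial (Fin n) ℂ) = 0) ∧
      (∀ i k, eval (z i) (pderiv k (f : MvPolynomial (Fin n) ℂ)) = 0)) ∧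
      (∀ j, eval (y j) (f : MvPolynomial (Fin n) ℂ) = 0)) ∧
      ∀ j k, eval (mid (y j) (y k)) (f : MvPolynomial (Fin n) ℂ) = 0 := by
  unfold U0
  simp only [Submodule.mem_inf, Submodule.mem_iInf, LinearMap.mem_ker, ev_apply, dv_apply,
    Prod.forall]

theorem sum_count (p' : ℕ) : ∀ m : ℕ,
    (∑ k ∈ Finset.range m, (k + p' + 1)) + (p' + p'.choose 2) = (m + p' + 1).choose 2 := by
  intro m
  induction m with
  | zero =>
    rw [Finset.sum_range_zero, zero_add, zero_add, Nat.choose_succ_succ' p' 1, Nat.choose_one_right]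
  | succ m ih =>
    rw [Finset.sum_range_succ, show m + 1 + p' + 1 = (m + p' + 1) + 1 by ring,
      Nat.choose_succ_succ' (m + p' + 1) 1, Nat.choose_one_right, ← ih]
    ring

theorem count2 {n p : ℕ} (hp : p ≤ n + 1) :
    NN n 2 + p.choose 2 = (n + 1) * p + (n + 2 - p).choose 2 := by
  obtain ⟨q, hq⟩ : ∃ q, n + 1 = p + q := ⟨n + 1 - p, by omega⟩
  have e1 : n + 2 - p = q + 1 := by omega
  have e2 : NN n 2 = (p + q + 1).choose 2 := by
    have : NN n 2 = (n + 2).choose 2 := by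
      show (n + 2).choose n = _
      rw [← Nat.choose_symm_add]
    rw [this, show n + 2 = p + q + 1 by omega]
  rw [e1, e2, hq]
  have h : ∀ m : ℕ, (m + 1).choose 2 * 2 = (m + 1) * m := by
    intro m
    rw [Nat.choose_two_right, Nat.add_sub_cancel]
    exact Nat.div_mul_cancel (by
      rw [mul_comm]
      exact (Nat.even_mul_succ_self m).two_dvd)
  have h1 := h (p + q)
  have h2 := h q
  have h3 : p.choose 2 * 2 + p = p * p := by
    rcases p with _ | p
    · simp
    · have := h p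
      rw [this]
      ring
  nlinarith

theorem finrank_U0 {n p p' : ℕ} (h : p + p' ≤ n + 1) :
    finrank ℂ ↥(U0 n (fun i : Fin p => V n i) (fun j : Fin p' => V n (p + j))) ≤
      NN n 2 + p.choose 2 - ((n + 1) * p + p' + p'.choose 2) := by
  classical
  set m : ℕ := n + 1 - (p + p') with hm
  let Φ : Pol n 2 →ₗ[ℂ] ((k : Fin m) × Fin ((k : ℕ) + p' + 1) → ℂ) :=
    LinearMap.pi fun x => ev n 2 (mid (V n (p + x.2)) (V n (p + p' + x.1)))
  have hinj : ∀ f ∈ U0 n (fun i : Fin p => V n i) (fun j : Fin p' => V n (p + j)),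
      Φ f = 0 → f = 0 := by
    intro f hf hΦ
    obtain ⟨⟨⟨h1, h2⟩, h3⟩, h4⟩ := mem_U0.1 hf
    have hd : (f : MvPolynomial (Fin n) ℂ).totalDegree ≤ 2 := mem_Pol.1 f.2
    apply Subtype.ext
    -- the nodes with `p ≤ j`
    have h5 : ∀ j k : ℕ, j ≤ k → k ≤ n → p ≤ j →
        eval (mid (V n j) (V n k)) (f : MvPolynomial (Fin n) ℂ) = 0 := by
      intro j k hjk hk hj
      by_cases hk' : k < p + p'
      · have := h4 ⟨j - p, by omega⟩ ⟨k - p, by omega⟩
        simp only at this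
        rwa [show p + (j - p) = j by omega, show p + (k - p) = k by omega] at this
      · have h6 := congrFun hΦ ⟨⟨k - (p + p'), by omega⟩, ⟨j - p, by simp only; omega⟩⟩
        change ev n 2 (mid (V n (p + (j - p))) (V n (p + p' + (k - (p + p'))))) f = 0 at h6
        rwa [ev_apply, show p + (j - p) = j by omega,
          show p + p' + (k - (p + p')) = k by omega] at h6
    have hself : ∀ k : ℕ, mid (V n k) (V n k) = V n k := by
      intro k
      funext i
      simp only [mid]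
      ring
    have h6 : ∀ k : ℕ, k ≤ n → eval (V n k) (f : MvPolynomial (Fin n) ℂ) = 0 := by
      intro k hk
      by_cases hkp : k < p
      · exact h1 ⟨k, hkp⟩
      · have := h5 k k le_rfl hk (by omega)
        rwa [hself] at this
    refine eq_zero_of_nodes _ hd fun j k hjk hk => ?_
    by_cases hj : p ≤ j
    · exact h5 j k hjk hk hj
    · rw [eval_mid_of_double _ hd (V n j) (V n k) (h1 ⟨j, by omega⟩) (h2 ⟨j, by omega⟩), h6 k hk,
        zero_div]
  have hle : finrank ℂ ↥(U0 n (fun i : Fin p => V n i) (fun j : Fin p' => V n (p + j))) ≤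
      finrank ℂ ((k : Fin m) × Fin ((k : ℕ) + p' + 1) → ℂ) := by
    refine LinearMap.finrank_le_finrank_of_injective (f := Φ.domRestrict _) ?_
    intro f g hfg
    have h0 : Φ ((f : Pol n 2) - (g : Pol n 2)) = 0 := by
      rw [map_sub, sub_eq_zero]
      exact hfg
    exact Subtype.ext (sub_eq_zero.1 (hinj _ (Submodule.sub_mem _ f.2 g.2) h0))
  refine hle.trans (le_of_eq ?_)
  rw [Module.finrank_fintype_fun_eq_card, Fintype.card_sigma]
  simp only [Fintype.card_fin]
  rw [Finset.sum_range (fun k => k + p' + 1) |>.symm]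
  have e1 := sum_count p' m
  have e2 := count2 (n := n) (p := p) (by omega)
  rw [show m + p' + 1 = n + 2 - p by omega] at e1
  omega

/-- the space of the statement -/
noncomputable def UU (n : ℕ) {p p' e : ℕ}
    (q : (Fin p → Fin n → ℂ) × (Fin p' → Fin n → ℂ) × (Fin e → Fin n → ℂ)) :
    Submodule ℂ (Pol n 2) :=
  U0 n q.1 q.2.1 ⊓ (⨅ t : Fin e, LinearMap.ker (ev n 2 (q.2.2 t)))

theorem PK_UU (n p p' e : ℕ) : PK (K := ℂ)
    fun q : (Fin p → Fin n → ℂ) × (Fin p' → Fin n → ℂ) × (Fin e → Fin n → ℂ) => UU n q := by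
  let X : Type := (Fin p → Fin n → ℂ) × (Fin p' → Fin n → ℂ) × (Fin e → Fin n → ℂ)
  let P1 : X →ₗ[ℂ] (Fin p → Fin n → ℂ) := LinearMap.fst ℂ _ _
  let P2 : X →ₗ[ℂ] (Fin p' → Fin n → ℂ) := (LinearMap.fst ℂ _ _).comp (LinearMap.snd ℂ _ _)
  let P3 : X →ₗ[ℂ] (Fin e → Fin n → ℂ) := (LinearMap.snd ℂ _ _).comp (LinearMap.snd ℂ _ _)
  have hev : ∀ L : X →ₗ[ℂ] (Fin n → ℂ), PK fun q : X => LinearMap.ker (ev n 2 (L q)) := by
    intro L
    refine PK.one (φ := fun q : X => ev n 2 (L q)) fun f => ?_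
    simp only [ev_apply]
    exact (LP_eval _).comp_linear L
  have hdv : ∀ (k : Fin n) (L : X →ₗ[ℂ] (Fin n → ℂ)),
      PK fun q : X => LinearMap.ker (dv n 2 k (L q)) := by
    intro k L
    refine PK.one (φ := fun q : X => dv n 2 k (L q)) fun f => ?_
    simp only [dv_apply]
    exact (LP_eval _).comp_linear L
  have h1 : PK fun q : X => ⨅ i : Fin p, LinearMap.ker (ev n 2 (q.1 i)) :=
    PK.iInf fun i => hev ((pt i).comp P1)
  have h2 : PK fun q : X => ⨅ i : Fin p × Fin n, LinearMap.ker (dv n 2 i.2 (q.1 i.1)) :=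
    PK.iInf fun i => hdv i.2 ((pt i.1).comp P1)
  have h3 : PK fun q : X => ⨅ j : Fin p', LinearMap.ker (ev n 2 (q.2.1 j)) :=
    PK.iInf fun j => hev ((pt j).comp P2)
  have h4 : PK fun q : X => ⨅ j : Fin p' × Fin p',
      LinearMap.ker (ev n 2 (mid (q.2.1 j.1) (q.2.1 j.2))) := by
    refine PK.iInf fun j => ?_
    refine (hev ((1 / 2 : ℂ) • ((pt j.1).comp P2 + (pt j.2).comp P2))).congr fun q => ?_
    congr 2
    funext i
    change (1 / 2 : ℂ) * (q.2.1 j.1 i + q.2.1 j.2 i) = (q.2.1 j.1 i + q.2.1 j.2 i) / 2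
    ring
  have h5 : PK fun q : X => ⨅ t : Fin e, LinearMap.ker (ev n 2 (q.2.2 t)) :=
    PK.iInf fun t => hev ((pt t).comp P3)
  exact (((h1.inf h2).inf h3).inf h4).inf h5

end UKaux

open _root_.Pool.Agent.WarC.UKaux in
theorem x_UK : S_UK := by
  intro n p p' e hn hpp
  obtain ⟨s, hs⟩ := red (fun z : Fin n → ℂ => ev n 2 z)
    (U0 n (fun i : Fin p => V n i) (fun j : Fin p' => V n (p + j))) ⊥ (by
      intro f hf hf0
      by_contra hcon
      push Not at hcon
      apply hf0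
      rw [Submodule.mem_bot]
      apply Subtype.ext
      refine MvPolynomial.funext fun z => ?_
      have := hcon z
      rw [ev_apply] at this
      rw [this]
      simp) e
  rw [finrank_bot] at hs
  have h1 : finrank ℂ ↥(UU n ((fun i : Fin p => V n i), (fun j : Fin p' => V n (p + j)), s)) ≤
      NN n 2 + p.choose 2 - ((n + 1) * p + p' + p'.choose 2 + e) := by
    refine le_trans hs (max_le ?_ (Nat.zero_le _))
    have h2 := finrank_U0 (n := n) hpp
    omega
  exact (PK_UU n p p' e).gen_finrank h1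

end Pool.Agent.WarC


end

section

/-!
# MP_db021c_ag, WC_PERT: the perturbation lemma for quadrics   (helper76)
-/

set_option autoImplicit false

open Module MvPolynomial
open Pool.Agent.War Pool.Agent.WarS Pool.Agent.WarQ

namespace Pool.Agent.WarC

namespace PERTaux

open UKaux

theorem tay {n : ℕ} (c : ℂ) (a : Fin n → ℂ) (b : Fin n → Fin n → ℂ) (z d : Fin n → ℂ) (t : ℂ) :
    eval (z + t • d) (pq c a b) = eval z (pq c a b) +
      t * ∑ k, eval z (pderiv k (pq c a b)) * d k + t ^ 2 * ∑ i, ∑ j, b i j * (d i * d j) := by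
  rw [taylor_pq]
  congr 1
  · congr 1
    rw [Finset.mul_sum]
    refine Finset.sum_congr rfl fun k _ => ?_
    simp only [Pi.smul_apply, smul_eq_mul]
    ring
  · rw [Finset.mul_sum]
    refine Finset.sum_congr rfl fun i _ => ?_
    rw [Finset.mul_sum]
    refine Finset.sum_congr rfl fun j _ => ?_
    simp only [Pi.smul_apply, smul_eq_mul]
    ring

/-- a quadric vanishing at two points -/
theorem two_points {n : ℕ} (f : MvPolynomial (Fin n) ℂ) (hf : f.totalDegree ≤ 2)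
    (z z' : Fin n → ℂ) (h0 : eval z f = 0) (h1 : eval z' f = 0) :
    eval (mid z z') f = (∑ k, eval z (pderiv k f) * (z' k - z k)) / 4 ∧
      ∑ k, eval z' (pderiv k f) * (z' k - z k) = -∑ k, eval z (pderiv k f) * (z' k - z k) := by
  obtain ⟨c, a, b, hr⟩ := rp_of_deg f hf
  have hr' : f = pq c a b := hr
  rw [hr'] at h0 h1 ⊢
  have e1 : z' = z + (1 : ℂ) • fun k => z' k - z k := by
    funext i
    simp
  have e2 : z = z' + (-1 : ℂ) • fun k => z' k - z k := by
    funext i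
    simp
  have e3 : mid z z' = z + (1 / 2 : ℂ) • fun k => z' k - z k := by
    funext i
    simp only [mid, Pi.add_apply, Pi.smul_apply, smul_eq_mul]
    ring
  have t1 := tay c a b z (fun k => z' k - z k) 1
  have t2 := tay c a b z' (fun k => z' k - z k) (-1)
  have t3 := tay c a b z (fun k => z' k - z k) (1 / 2)
  rw [← e1, h0, h1] at t1
  rw [← e2, h0, h1] at t2
  rw [← e3, h0] at t3
  rw [t3]
  constructor
  · linear_combination (-1 / 4 : ℂ) * t1
  · linear_combination t2 - t1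

theorem sum_two {b : ℕ} (k m : Fin b) (c : ℂ) (g : Fin b → ℂ) :
    ∑ j, ((Pi.single k 1 : Fin b → ℂ) j + c * (Pi.single m 1 : Fin b → ℂ) j) * g j =
      g k + c * g m := by
  simp [Pi.single_apply, add_mul, Finset.sum_add_distrib]

section Gen

variable {n p p' : ℕ} {S A : Type} [Fintype S]

/-- the space of quadrics attached to one form -/
noncomputable def VV (n : ℕ) (φ : (Fin p ⊕ Fin p') ⊕ S ≃ A) (z : A → Fin n → ℂ) :
    Submodule ℂ (Pol n 2) :=
  UU n ((fun i : Fin p => z (φ (Sum.inl (Sum.inl i)))),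
    (fun j : Fin p' => z (φ (Sum.inl (Sum.inr j)))),
    fun t : Fin (Fintype.card S) => z (φ (Sum.inr ((Fintype.equivFin S).symm t))))

theorem mem_VV {φ : (Fin p ⊕ Fin p') ⊕ S ≃ A} {z : A → Fin n → ℂ} {f : Pol n 2}
    (h1 : ∀ x : A, eval (z x) (f : MvPolynomial (Fin n) ℂ) = 0)
    (h2 : ∀ i v, eval (z (φ (Sum.inl (Sum.inl i)))) (pderiv v (f : MvPolynomial (Fin n) ℂ)) = 0)
    (h3 : ∀ j j', eval (mid (z (φ (Sum.inl (Sum.inr j)))) (z (φ (Sum.inl (Sum.inr j')))))
      (f : MvPolynomial (Fin n) ℂ) = 0) : f ∈ VV n φ z := by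
  refine Submodule.mem_inf.2 ⟨mem_U0.2 ⟨⟨⟨fun i => h1 _, h2⟩, fun j => h1 _⟩, h3⟩, ?_⟩
  refine (Submodule.mem_iInf _).2 fun t => ?_
  rw [LinearMap.mem_ker, ev_apply]
  exact h1 _

theorem gen_VV (hU : S_UK) (φ : (Fin p ⊕ Fin p') ⊕ S ≃ A) (hn : 1 ≤ n) (hp : p + p' ≤ n + 1) :
    Gen ℂ fun z : A → Fin n → ℂ => finrank ℂ (VV n φ z) ≤
      NN n 2 + p.choose 2 - ((n + 1) * p + p' + p'.choose 2 + Fintype.card S) := by
  have h := hU n p p' (Fintype.card S) hn hp
  let L : (A → Fin n → ℂ) →ₗ[ℂ] (Fin p → Fin n → ℂ) × (Fin p' → Fin n → ℂ) ×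
      (Fin (Fintype.card S) → Fin n → ℂ) :=
    (LinearMap.funLeft ℂ (Fin n → ℂ) fun i : Fin p => φ (Sum.inl (Sum.inl i))).prod
      ((LinearMap.funLeft ℂ (Fin n → ℂ) fun j : Fin p' => φ (Sum.inl (Sum.inr j))).prod
        (LinearMap.funLeft ℂ (Fin n → ℂ) fun t : Fin (Fintype.card S) =>
          φ (Sum.inr ((Fintype.equivFin S).symm t))))
  have hL : Function.Surjective L := by
    rintro ⟨u, v, w⟩
    refine ⟨fun x => Sum.elim (Sum.elim u v) (fun s => w (Fintype.equivFin S s)) (φ.symm x), ?_⟩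
    refine Prod.ext ?_ (Prod.ext ?_ ?_)
    · funext i
      change Sum.elim (Sum.elim u v) (fun s => w (Fintype.equivFin S s))
        (φ.symm (φ (Sum.inl (Sum.inl i)))) = u i
      rw [Equiv.symm_apply_apply]
      rfl
    · funext i
      change Sum.elim (Sum.elim u v) (fun s => w (Fintype.equivFin S s))
        (φ.symm (φ (Sum.inl (Sum.inr i)))) = v i
      rw [Equiv.symm_apply_apply]
      rfl
    · funext i
      change Sum.elim (Sum.elim u v) (fun s => w (Fintype.equivFin S s))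
        (φ.symm (φ (Sum.inr ((Fintype.equivFin S).symm i)))) = w i
      rw [Equiv.symm_apply_apply]
      change w (Fintype.equivFin S ((Fintype.equivFin S).symm i)) = w i
      rw [Equiv.apply_symm_apply]
  exact h.comp L hL

end Gen

/-- the points of the types `k` and `m`, and the others -/
theorem split {b e : ℕ} (r : Fin b → ℕ) {k m : Fin b} (hkm : m ≠ k) :
    ∃ (S : Type) (_ : Fintype S) (φ : (Fin (r m) ⊕ Fin (r k)) ⊕ S ≃
      (((k : Fin b) × Fin (r k)) ⊕ Fin e)),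
      (∀ i, φ (Sum.inl (Sum.inl i)) = Sum.inl ⟨m, i⟩) ∧
      (∀ j, φ (Sum.inl (Sum.inr j)) = Sum.inl ⟨k, j⟩) ∧
      r m + r k + Fintype.card S = (∑ k, r k) + e := by
  classical
  let P : (((k : Fin b) × Fin (r k)) ⊕ Fin e) → Prop := fun x =>
    (∃ i : Fin (r m), x = Sum.inl ⟨m, i⟩) ∨ ∃ j : Fin (r k), x = Sum.inl ⟨k, j⟩
  let g : (Fin (r m) ⊕ Fin (r k)) ⊕ {x // ¬ P x} → (((k : Fin b) × Fin (r k)) ⊕ Fin e) :=
    Sum.elim (Sum.elim (fun i => Sum.inl ⟨m, i⟩) (fun j => Sum.inl ⟨k, j⟩)) Subtype.val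
  have hg : Function.Bijective g := by
    constructor
    · rintro ((i | j) | x) ((i' | j') | x') h
      · have h1 : (⟨m, i⟩ : (k : Fin b) × Fin (r k)) = ⟨m, i'⟩ := Sum.inl_injective h
        rw [Sigma.mk.injEq] at h1
        rw [eq_of_heq h1.2]
      · have h1 : (⟨m, i⟩ : (k : Fin b) × Fin (r k)) = ⟨k, j'⟩ := Sum.inl_injective h
        exact absurd (congrArg Sigma.fst h1) hkm
      · exact absurd (Or.inl ⟨i, h.symm⟩) x'.2
      · have h1 : (⟨k, j⟩ : (k : Fin b) × Fin (r k)) = ⟨m, i'⟩ := Sum.inl_injective h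
        exact absurd (congrArg Sigma.fst h1).symm hkm
      · have h1 : (⟨k, j⟩ : (k : Fin b) × Fin (r k)) = ⟨k, j'⟩ := Sum.inl_injective h
        rw [Sigma.mk.injEq] at h1
        rw [eq_of_heq h1.2]
      · exact absurd (Or.inr ⟨j, h.symm⟩) x'.2
      · exact absurd (Or.inl ⟨i', h⟩) x.2
      · exact absurd (Or.inr ⟨j', h⟩) x.2
      · exact congrArg Sum.inr (Subtype.ext h)
    · intro x
      by_cases hx : P x
      · rcases hx with ⟨i, hi⟩ | ⟨j, hj⟩
        · exact ⟨Sum.inl (Sum.inl i), hi.symm⟩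
        · exact ⟨Sum.inl (Sum.inr j), hj.symm⟩
      · exact ⟨Sum.inr ⟨x, hx⟩, rfl⟩
  refine ⟨{x // ¬ P x}, inferInstance, Equiv.ofBijective g hg, fun i => rfl, fun j => rfl, ?_⟩
  have h := Fintype.card_congr (Equiv.ofBijective g hg)
  simpa using h

end PERTaux

open _root_.Pool.Agent.WarC.PERTaux UKaux in
theorem x_PERT (hU : S_UK) : S_PERT := by
  classical
  intro n b e w r σ hn hσ hr hw hineq
  choose S iS φ hφ1 hφ2 hφ3 using fun k : Fin b => split (e := e) r (hσ k)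
  -- the points
  have hgen : Gen ℂ fun z : (((k : Fin b) × Fin (r k)) ⊕ Fin e) → Fin n → ℂ =>
      ∀ k : Fin b, finrank ℂ (VV n (φ k) z) ≤ w + (r (σ k)).choose 2 -
        (n * r (σ k) + (r k).choose 2) := by
    refine Gen.forall fun k => ?_
    refine (gen_VV hU (φ k) hn (by have := hr k; omega)).mono fun z hz => hz.trans ?_
    have h1 := hφ3 k
    have h2 : (n + 1) * r (σ k) = n * r (σ k) + r (σ k) := by ring
    omega
  obtain ⟨z, hz⟩ := hgen.exists
  -- the vectors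
  let A0 : ((k : Fin b) × Fin (r k)) → Fin b → ℂ := fun q => Pi.single q.1 1
  let A1 : ((k : Fin b) × Fin (r k)) → Fin b → ℂ := fun q =>
    ((q.2 : ℕ) : ℂ) • Pi.single (σ q.1) 1
  let L : ℂ →ₗ[ℂ] ((((k : Fin b) × Fin (r k)) ⊕ Fin e) → Fin n → ℂ) ×
      (((k : Fin b) × Fin (r k)) → Fin b → ℂ) :=
    LinearMap.toSpanSingleton ℂ _ (0, A1)
  have hLε : ∀ ε : ℂ, L ε + (z, A0) = (z, fun q j => (Pi.single q.1 1 : Fin b → ℂ) j +
      (ε * ((q.2 : ℕ) : ℂ)) * (Pi.single (σ q.1) 1 : Fin b → ℂ) j) := by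
    intro ε
    refine Prod.ext ?_ ?_
    · change ε • (0 : (((k : Fin b) × Fin (r k)) ⊕ Fin e) → Fin n → ℂ) + z = z
      rw [smul_zero, zero_add]
    · funext q j
      change ε * (((q.2 : ℕ) : ℂ) * (Pi.single (σ q.1) 1 : Fin b → ℂ) j) +
        (Pi.single q.1 1 : Fin b → ℂ) j = _
      ring
  let Z : ℂ → Submodule ℂ (Fin b → Pol n 2) := fun ε => TrC1 n 2 (L ε + (z, A0)) ⊓
    ⨅ q : (k : Fin b) × Fin (r k) × Fin (r k), LinearMap.ker
      ((ev n 2 (mid (z (Sum.inl ⟨q.1, q.2.1⟩)) (z (Sum.inl ⟨q.1, q.2.2⟩)))).comp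
        (LinearMap.proj (σ q.1) : (Fin b → Pol n 2) →ₗ[ℂ] Pol n 2))
  have hPK : PK Z := by
    refine ((PK_TrC1 n 2).comp_affine L (z, A0)).inf (PK.iInf fun q => ?_)
    refine PK.one (φ := fun _ : ℂ =>
      ((ev n 2 (mid (z (Sum.inl ⟨q.1, q.2.1⟩)) (z (Sum.inl ⟨q.1, q.2.2⟩)))).comp
        (LinearMap.proj (σ q.1) : (Fin b → Pol n 2) →ₗ[ℂ] Pol n 2))) fun v => LP.const _
  have hmem : ∀ (ε : ℂ) (f : Fin b → Pol n 2), f ∈ TrC1 n 2 (L ε + (z, A0)) ↔
      (∀ i j, eval (z i) (f j : MvPolynomial (Fin n) ℂ) = 0) ∧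
      ∀ (k : Fin b) (i : Fin (r k)) (v : Fin n),
        eval (z (Sum.inl ⟨k, i⟩)) (pderiv v (f k : MvPolynomial (Fin n) ℂ)) + (ε * ((i : ℕ) : ℂ)) *
          eval (z (Sum.inl ⟨k, i⟩)) (pderiv v (f (σ k) : MvPolynomial (Fin n) ℂ)) = 0 := by
    intro ε f
    rw [hLε, mem_TrC1]
    refine and_congr_right fun _ => ⟨fun h k i v => ?_, fun h q v => ?_⟩
    · have := h ⟨k, i⟩ v
      rw [sum_two] at this
      exact this
    · rw [sum_two]
      exact h q.1 q.2 v
  have hZ : ∀ (ε : ℂ) (f : Fin b → Pol n 2), f ∈ Z ε ↔ f ∈ TrC1 n 2 (L ε + (z, A0)) ∧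
      ∀ (k : Fin b) (i i' : Fin (r k)), eval (mid (z (Sum.inl ⟨k, i⟩)) (z (Sum.inl ⟨k, i'⟩)))
        (f (σ k) : MvPolynomial (Fin n) ℂ) = 0 := by
    intro ε f
    rw [Submodule.mem_inf, Submodule.mem_iInf]
    refine and_congr_right fun _ => ⟨fun h k i i' => ?_, fun h q => ?_⟩
    · have := h ⟨k, i, i'⟩
      rw [LinearMap.mem_ker, LinearMap.comp_apply, ev_apply] at this
      exact this
    · rw [LinearMap.mem_ker, LinearMap.comp_apply, ev_apply]
      exact h q.1 q.2.1 q.2.2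
  -- the dimension for `ε = 0`
  have h0 : finrank ℂ (Z 0) ≤ b * w - n * ∑ k, r k := by
    have h1 : Z 0 ≤ Submodule.pi Set.univ fun m => VV n (φ (σ.symm m)) z := by
      intro f hf
      obtain ⟨hf1, hf2⟩ := (hZ 0 f).1 hf
      obtain ⟨hf3, hf4⟩ := (hmem 0 f).1 hf1
      refine Submodule.mem_pi.2 fun m _ => ?_
      obtain ⟨k, rfl⟩ := σ.surjective m
      rw [Equiv.symm_apply_apply]
      refine mem_VV (fun x => hf3 x _) (fun i v => ?_) (fun j j' => ?_)
      · rw [hφ1]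
        have := hf4 (σ k) i v
        rwa [zero_mul, zero_mul, add_zero] at this
      · rw [hφ2, hφ2]
        exact hf2 k j j'
    refine (Submodule.finrank_mono h1).trans ((finrank_pi_leC1 _).trans ?_)
    refine (Finset.sum_le_sum fun m _ => hz (σ.symm m)).trans ?_
    rw [Equiv.sum_comp σ.symm fun k => w + (r (σ k)).choose 2 - (n * r (σ k) + (r k).choose 2)]
    have h2 : ∑ k, (w + (r (σ k)).choose 2 - (n * r (σ k) + (r k).choose 2)) +
        ∑ k, (n * r (σ k) + (r k).choose 2) = ∑ k, (w + (r (σ k)).choose 2) := by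
      rw [← Finset.sum_add_distrib]
      exact Finset.sum_congr rfl fun k _ => Nat.sub_add_cancel (hineq k)
    rw [Finset.sum_add_distrib, Finset.sum_add_distrib, Equiv.sum_comp σ fun k => (r k).choose 2,
      Equiv.sum_comp σ fun k => n * r k, ← Finset.mul_sum, Finset.sum_const, Finset.card_univ,
      Fintype.card_fin, smul_eq_mul] at h2
    omega
  obtain ⟨ε, hε1, hε2⟩ := ((hPK.gen_finrank h0).and
    (Gen.ne (LP.linear (K := ℂ) LinearMap.id) 1 (by simp))).exists
  have hε : ε ≠ 0 := hε2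
  refine ⟨L ε + (z, A0), (Submodule.finrank_mono ?_).trans hε1⟩
  intro f hf
  obtain ⟨hf1, hf2⟩ := (hmem ε f).1 hf
  refine (hZ ε f).2 ⟨hf, fun k i i' => ?_⟩
  by_cases hii : i = i'
  · subst hii
    have : mid (z (Sum.inl ⟨k, i⟩)) (z (Sum.inl ⟨k, i⟩)) = z (Sum.inl ⟨k, i⟩) := by
      funext v
      simp only [mid]
      ring
    rw [this]
    exact hf1 _ _
  · obtain ⟨a1, a2⟩ := two_points (f (σ k) : MvPolynomial (Fin n) ℂ) (mem_Pol.1 (f (σ k)).2)
      (z (Sum.inl ⟨k, i⟩)) (z (Sum.inl ⟨k, i'⟩)) (hf1 _ _) (hf1 _ _)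
    obtain ⟨-, b2⟩ := two_points (f k : MvPolynomial (Fin n) ℂ) (mem_Pol.1 (f k).2)
      (z (Sum.inl ⟨k, i⟩)) (z (Sum.inl ⟨k, i'⟩)) (hf1 _ _) (hf1 _ _)
    have s1 : ∑ v, eval (z (Sum.inl ⟨k, i⟩)) (pderiv v (f k : MvPolynomial (Fin n) ℂ)) *
        (z (Sum.inl ⟨k, i'⟩) v - z (Sum.inl ⟨k, i⟩) v) + (ε * ((i : ℕ) : ℂ)) *
        ∑ v, eval (z (Sum.inl ⟨k, i⟩)) (pderiv v (f (σ k) : MvPolynomial (Fin n) ℂ)) *
        (z (Sum.inl ⟨k, i'⟩) v - z (Sum.inl ⟨k, i⟩) v) = 0 := by
      rw [Finset.mul_sum, ← Finset.sum_add_distrib]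
      refine Finset.sum_eq_zero fun v _ => ?_
      linear_combination (z (Sum.inl ⟨k, i'⟩) v - z (Sum.inl ⟨k, i⟩) v) * hf2 k i v
    have s2 : ∑ v, eval (z (Sum.inl ⟨k, i'⟩)) (pderiv v (f k : MvPolynomial (Fin n) ℂ)) *
        (z (Sum.inl ⟨k, i'⟩) v - z (Sum.inl ⟨k, i⟩) v) + (ε * ((i' : ℕ) : ℂ)) *
        ∑ v, eval (z (Sum.inl ⟨k, i'⟩)) (pderiv v (f (σ k) : MvPolynomial (Fin n) ℂ)) *
        (z (Sum.inl ⟨k, i'⟩) v - z (Sum.inl ⟨k, i⟩) v) = 0 := by
      rw [Finset.mul_sum, ← Finset.sum_add_distrib]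
      refine Finset.sum_eq_zero fun v _ => ?_
      linear_combination (z (Sum.inl ⟨k, i'⟩) v - z (Sum.inl ⟨k, i⟩) v) * hf2 k i' v
    rw [a2, b2] at s2
    have hne : ε * (((i : ℕ) : ℂ) - ((i' : ℕ) : ℂ)) ≠ 0 := by
      refine mul_ne_zero hε (sub_ne_zero.2 fun h => hii (Fin.ext ?_))
      exact_mod_cast h
    have s3 : (ε * (((i : ℕ) : ℂ) - ((i' : ℕ) : ℂ))) *
        ∑ v, eval (z (Sum.inl ⟨k, i⟩)) (pderiv v (f (σ k) : MvPolynomial (Fin n) ℂ)) *
        (z (Sum.inl ⟨k, i'⟩) v - z (Sum.inl ⟨k, i⟩) v) = 0 := by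
      linear_combination s1 + s2
    rw [a1, (mul_eq_zero.1 s3).resolve_left hne, zero_div]

end Pool.Agent.WarC


end

section

/-!
# Module SB: small q, the Horace step
-/

set_option autoImplicit false

open Module MvPolynomial
open Pool.Agent.War Pool.Agent.WarS

namespace Pool.Agent.WarQ

namespace SBaux

/-- trace: generically no nonzero tuple -/
theorem trace (hSG : S_SG) (ν d b u eH : ℕ) (hν : 1 ≤ ν) (h1 : GG ν d u)
    (h2 : NN ν d ≤ ν * u + (b * u + eH)) :
    Gen ℂ fun x : ((Fin b × Fin u) ⊕ Fin eH → Fin ν → ℂ) × (Fin b × Fin u → Fin b → ℂ) =>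
      TrC1 ν d x = ⊥ := by
  classical
  let P : Fin b → Finset ((Fin b × Fin u) ⊕ Fin eH) := fun j =>
    Finset.univ.map ⟨fun i : Fin u => Sum.inl (j, i), fun i i' h => by
      simpa using h⟩
  have hP : ∀ j, (P j).card = u := fun j => by simp [P]
  have hcard : Fintype.card ((Fin b × Fin u) ⊕ Fin eH) = b * u + eH := by simp
  obtain ⟨z0, hz0⟩ := (Gen.forall fun j : Fin b =>
    hSG ν d ((Fin b × Fin u) ⊕ Fin eH) (P j) hν (by rw [hP]; exact h1)).exists
  have hD : ∀ j, Dbl ν d (P j) z0 = ⊥ := fun j =>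
    Dbl_eq_botC1 (hz0 j) (by rw [hP, hcard]; omega)
  refine (PK_TrC1 ν d).gen_bot
    (x₀ := (z0, fun q => (Pi.single q.1 1 : Fin b → ℂ))) ?_
  rw [eq_bot_iff]
  intro f hf
  obtain ⟨k1, k2⟩ := mem_TrC1.1 hf
  rw [Submodule.mem_bot]
  funext j
  have : f j ∈ Dbl ν d (P j) z0 := by
    refine mem_Dbl.2 ⟨fun i => k1 i j, fun i hi k => ?_⟩
    obtain ⟨i', -, rfl⟩ := Finset.mem_map.1 hi
    have := k2 (j, i') k
    change eval (z0 (Sum.inl (j, i'))) (pderiv k (f j : MvPolynomial (Fin ν) ℂ)) = 0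
    simpa [Pi.single_apply] using this
  rw [hD, Submodule.mem_bot] at this
  rw [this]
  rfl

/-- the residual space has small dimension for general off points -/
theorem resid (n d b c e q : ℕ) (z : Fin (b + c) → Fin n → ℂ) (a : Fin (b + c) → Fin b → ℂ)
    (y : Fin (e + q) → Fin n → ℂ) (hK : Kill n d z a y) :
    Gen ℂ fun x : (Fin (b + c) ⊕ Fin e → Fin n → ℂ) × (Fin (b + c) → Fin b → ℂ) =>
      finrank ℂ (TrC1 n d x) ≤ b * q := by
  classical
  refine (PK_TrC1 n d).gen_finrank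
    (x₀ := (Sum.elim z fun i => y (Fin.castAdd q i), a)) ?_
  set x₀ : (Fin (b + c) ⊕ Fin e → Fin n → ℂ) × (Fin (b + c) → Fin b → ℂ) :=
    (Sum.elim z fun i => y (Fin.castAdd q i), a) with hx₀
  let L : (TrC1 n d x₀) →ₗ[ℂ] (Fin b × Fin q → ℂ) := LinearMap.pi fun p =>
    (ev n d (y (Fin.natAdd e p.2))).comp ((LinearMap.proj p.1).comp (Submodule.subtype _))
  have hL : Function.Injective L := by
    intro g g' hg
    obtain ⟨k1, k2⟩ := mem_TrC1.1 g.2
    obtain ⟨k1', k2'⟩ := mem_TrC1.1 g'.2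
    have h := hK (fun j => ((g : Fin b → Pol n d) j : MvPolynomial (Fin n) ℂ) -
        ((g' : Fin b → Pol n d) j : MvPolynomial (Fin n) ℂ))
      (fun j => mem_Pol.1 (Submodule.sub_mem _ ((g : Fin b → Pol n d) j).2
        ((g' : Fin b → Pol n d) j).2))
      (fun i j => by rw [map_sub]; exact sub_eq_zero.2 ((k1 (Sum.inl i) j).trans (k1' (Sum.inl i) j).symm))
      (fun i k => by
        simp only [map_sub, mul_sub, Finset.sum_sub_distrib]
        exact sub_eq_zero.2 ((k2 i k).trans (k2' i k).symm))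
      (fun i j => by
        rw [map_sub]
        refine Fin.addCases (fun i => ?_) (fun i => ?_) i
        · exact sub_eq_zero.2 ((k1 (Sum.inr i) j).trans (k1' (Sum.inr i) j).symm)
        · have := congrFun hg (j, i)
          exact sub_eq_zero.2 ((ev_apply _ _).symm.trans (this.trans (ev_apply _ _))))
    apply Subtype.ext
    funext j
    exact Subtype.ext (sub_eq_zero.1 (h j))
  have h1 := LinearMap.finrank_le_finrank_of_injective hL
  rw [Module.finrank_fintype_fun_eq_card] at h1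
  simpa using h1

theorem core (hSG : S_SG) (ν δ b c e q eH : ℕ) (hν : 1 ≤ ν)
    (hGG : GG ν (δ + 2) q) (h2 : NN ν (δ + 2) ≤ ν * q + (b * q + eH))
    (h3 : NN (ν + 1) δ ≤ b + c + e)
    (z₀ : Fin (b + c) → Fin (ν + 1) → ℂ) (a₀ : Fin (b + c) → Fin b → ℂ)
    (y₀ : Fin (e + q) → Fin (ν + 1) → ℂ) (hK : Kill (ν + 1) (δ + 1) z₀ a₀ y₀) :
    ∃ (z : (Fin b × Fin q) ⊕ Fin (b + c) → Fin (ν + 1) → ℂ)
      (a : (Fin b × Fin q) ⊕ Fin (b + c) → Fin b → ℂ)
      (y : Fin eH ⊕ Fin e → Fin (ν + 1) → ℂ), Kill (ν + 1) (δ + 2) z a y := by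
  classical
  -- the off points
  have gA := resid (ν + 1) (δ + 1) b c e q z₀ a₀ y₀ hK
  have hfst : Function.Surjective
      (LinearMap.fst ℂ (Fin (b + c) ⊕ Fin e → Fin (ν + 1) → ℂ) (Fin (b + c) → Fin b → ℂ)) :=
    LinearMap.fst_surjective
  have gB := (gen_off (n := ν) (I := Fin (b + c) ⊕ Fin e)).comp
    (LinearMap.fst ℂ (Fin (b + c) ⊕ Fin e → Fin (ν + 1) → ℂ) (Fin (b + c) → Fin b → ℂ)) hfst
  have gC := (hSG (ν + 1) δ (Fin (b + c) ⊕ Fin e) ∅ (by omega)
    (by rw [Finset.card_empty]; exact GG.zero _ _)).comp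
    (LinearMap.fst ℂ (Fin (b + c) ⊕ Fin e → Fin (ν + 1) → ℂ) (Fin (b + c) → Fin b → ℂ)) hfst
  obtain ⟨x', ⟨hV, hoff⟩, hC⟩ := ((gA.and gB).and gC).exists
  simp only [LinearMap.fst_apply] at hoff hC
  have hC' : Dbl (ν + 1) δ ∅ x'.1 = ⊥ := by
    refine Dbl_eq_botC1 hC ?_
    have hc : Fintype.card (Fin (b + c) ⊕ Fin e) = b + c + e := by simp
    rw [hc]
    simp only [Finset.card_empty, mul_zero, zero_add]
    omega
  set V : Submodule ℂ (Fin b → Pol (ν + 1) (δ + 1)) := TrC1 (ν + 1) (δ + 1) x' with hVdef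
  -- points with one condition on the hyperplane
  have hred : ∀ w ∈ V, w ∉ (⊥ : Submodule ℂ (Fin b → Pol (ν + 1) (δ + 1))) →
      ∃ y : (Fin ν → ℂ) × (Fin b → ℂ), OmC1 ν (δ + 1) y w ≠ 0 := by
    intro w hw hw0
    by_contra hcon
    push Not at hcon
    apply hw0
    rw [Submodule.mem_bot]
    funext j
    have e1 : ∀ p : Fin ν → ℂ, eval p (res ν (w j : MvPolynomial (Fin (ν + 1)) ℂ)) = 0 := by
      intro p
      have := hcon (p, Pi.single j 1)
      rw [OmC1_apply] at this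
      simpa [Pi.single_apply, eval_hp] using this
    have e2 : res ν (w j : MvPolynomial (Fin (ν + 1)) ℂ) = 0 :=
      MvPolynomial.funext fun p => by rw [e1, map_zero]
    obtain ⟨g, hg⟩ := exists_mulXC1 e2
    have e3 : g ∈ Dbl (ν + 1) δ ∅ x'.1 := by
      refine Dbl_of_mulXC1 hoff ?_
      rw [← hg]
      exact mem_Dbl.2 ⟨fun i => (mem_TrC1.1 hw).1 i j, fun i hi => absurd hi (Finset.notMem_empty i)⟩
    rw [hC', Submodule.mem_bot] at e3
    rw [hg, e3, map_zero]
    rfl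
  obtain ⟨yy, hyy⟩ := red (OmC1 ν (δ + 1)) V ⊥ hred (b * q)
  have hyy' : V ⊓ ⨅ i, LinearMap.ker (OmC1 ν (δ + 1) (yy i)) = ⊥ := by
    apply Submodule.finrank_eq_zero.1
    have : finrank ℂ (⊥ : Submodule ℂ (Fin b → Pol (ν + 1) (δ + 1))) = 0 := finrank_bot _ _
    rw [this] at hyy
    omega
  have hres : Gen ℂ fun x : ((Fin b × Fin q) ⊕ Fin eH → Fin ν → ℂ) × (Fin b × Fin q → Fin b → ℂ) =>
      (⨅ i : Fin b × Fin q, LinearMap.ker (OmC1 ν (δ + 1) (x.1 (Sum.inl i), x.2 i))).comap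
        V.subtype = ⊥ := by
    have hPK := PK_OmC1 ν (δ + 1) (α := Fin b × Fin q) (β := Fin eH) (γ := Fin b)
    refine (PK.comap (V' := V) hPK V.subtype).gen_bot
      (x₀ := (Sum.elim (fun q => (yy (finProdFinEquiv q)).1) (fun _ => 0),
        fun q => (yy (finProdFinEquiv q)).2)) ?_
    rw [eq_bot_iff]
    intro v hv
    rw [Submodule.mem_comap, Submodule.mem_iInf] at hv
    have : (v : Fin b → Pol (ν + 1) (δ + 1)) ∈
        V ⊓ ⨅ i, LinearMap.ker (OmC1 ν (δ + 1) (yy i)) := by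
      refine ⟨v.2, (Submodule.mem_iInf _).2 fun i => ?_⟩
      have := hv (finProdFinEquiv.symm i)
      simp only [Sum.elim_inl, Equiv.apply_symm_apply] at this
      exact this
    rw [hyy', Submodule.mem_bot] at this
    rw [Submodule.mem_bot]
    exact Subtype.ext this
  obtain ⟨x, hx1, hx2⟩ := ((trace hSG ν (δ + 2) b q eH hν hGG h2).and hres).exists
  refine ⟨Sum.elim (fun i => hp (x.1 (Sum.inl i))) (fun i => x'.1 (Sum.inl i)),
    Sum.elim x.2 x'.2,
    Sum.elim (fun i => hp (x.1 (Sum.inr i))) (fun i => x'.1 (Sum.inr i)), ?_⟩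
  intro f hf k1 k2 k3
  -- trace
  have t1 : (fun j => resL ν (δ + 2) ⟨f j, mem_Pol.2 (hf j)⟩) ∈ TrC1 ν (δ + 2) x := by
    refine mem_TrC1.2 ⟨?_, fun i k => ?_⟩
    · rintro (i | i) j
      · have := k1 (Sum.inl i) j
        rw [Sum.elim_inl, eval_hp] at this
        exact this
      · have := k3 (Sum.inl i) j
        rw [Sum.elim_inl, eval_hp] at this
        exact this
    · have := k2 (Sum.inl i) k.succ
      simp only [Sum.elim_inl, eval_hp_pderiv] at this
      exact this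
  rw [hx1, Submodule.mem_bot] at t1
  have t2 : ∀ j, ∃ g : Pol (ν + 1) (δ + 1), (⟨f j, mem_Pol.2 (hf j)⟩ : Pol (ν + 1) (δ + 2)) =
      mulX ν (δ + 1) g := fun j => by
    refine exists_mulXC1 ?_
    have := congrArg Subtype.val (congrFun t1 j)
    simpa using this
  choose g hg using t2
  have hg' : ∀ j, f j = X 0 * (g j : MvPolynomial (Fin (ν + 1)) ℂ) := fun j =>
    congrArg Subtype.val (hg j)
  have tz : ∀ i j, eval (x'.1 i) (g j : MvPolynomial (Fin (ν + 1)) ℂ) = 0 := by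
    intro i j
    have h : eval (x'.1 i) (f j) = 0 := by
      rcases i with i | i
      · exact k1 (Sum.inr i) j
      · exact k3 (Sum.inr i) j
    rw [hg', eval_X_mulC1] at h
    exact (mul_eq_zero.1 h).resolve_left (hoff i)
  have t3 : g ∈ V := by
    refine mem_TrC1.2 ⟨tz, fun i k => ?_⟩
    have h := k2 (Sum.inr i) k
    simp only [Sum.elim_inr, hg', eval_pderiv_X_mulC1, tz, mul_zero, add_zero] at h
    have h' : x'.1 (Sum.inl i) 0 * ∑ j, x'.2 i j *
        eval (x'.1 (Sum.inl i)) (pderiv k (g j : MvPolynomial (Fin (ν + 1)) ℂ)) = 0 := by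
      rw [Finset.mul_sum, ← h]
      exact Finset.sum_congr rfl fun j _ => by ring
    exact (mul_eq_zero.1 h').resolve_left (hoff (Sum.inl i))
  have t4 : (⟨g, t3⟩ : V) ∈
      (⨅ i : Fin b × Fin q, LinearMap.ker (OmC1 ν (δ + 1) (x.1 (Sum.inl i), x.2 i))).comap
        V.subtype := by
    rw [Submodule.mem_comap, Submodule.mem_iInf]
    intro i
    rw [LinearMap.mem_ker, Submodule.subtype_apply, OmC1_apply]
    have := k2 (Sum.inl i) 0
    simp only [Sum.elim_inl, hg', eval_pderiv_X_mulC1, hp_zero, zero_mul, zero_add,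
      if_true, one_mul] at this
    exact this
  rw [hx2, Submodule.mem_bot] at t4
  intro j
  have : g j = 0 := congrFun (congrArg Subtype.val t4) j
  rw [hg', this]
  simp

end SBaux

open _root_.Pool.Agent.WarQ.SBaux in
theorem x_SB (hSG : S_SG) : S_SB := by
  intro ν d b c D q hν hd hb hGG h1 h2 h3 hQB
  obtain ⟨δ, rfl⟩ : ∃ δ, d = δ + 1 := ⟨d - 1, by omega⟩
  obtain ⟨z₀, a₀, y₀, hK⟩ := hQB
  have e1 : NN (ν + 1) (δ + 1) = NN ν (δ + 1) + NN (ν + 1) δ := NN_succ ν δ
  have e2 : NN (ν + 1) (δ + 1 + 1) = NN ν (δ + 2) + NN (ν + 1) (δ + 1) := NN_succ ν (δ + 1)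
  obtain ⟨e, he⟩ : ∃ e, NN (ν + 1) (δ + 1) = (ν + 1 + D + q) + (b + c) + e :=
    ⟨_, (Nat.add_sub_cancel' h2).symm⟩
  obtain ⟨eH, heH⟩ : ∃ eH, NN ν (δ + 2) = (ν + b) * q + eH := ⟨_, (Nat.add_sub_cancel' h1).symm⟩
  have hbq : (ν + b) * q = ν * q + b * q := add_mul _ _ _
  have hy : NN (ν + 1) (δ + 1) - (ν + 1 + D) - (b + c) = e + q := by omega
  have hK' : Kill (ν + 1) (δ + 1) z₀ a₀ (y₀ ∘ Fin.cast hy.symm) := by
    intro f hf k1 k2 k3
    refine hK f hf k1 k2 fun i j => ?_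
    have := k3 (Fin.cast hy i) j
    simpa using this
  obtain ⟨z, a, y, hKill⟩ := core hSG ν δ b c e q eH hν hGG (by omega) (by omega) z₀ a₀ _ hK'
  have m1 : b * (q + 1) = b * q + b := by ring
  have m2 : (ν + 1) * (q + 1) = ν * q + q + ν + 1 := by ring
  have hcα : Fintype.card ((Fin b × Fin q) ⊕ Fin (b + c)) = b * (q + 1) + c := by
    simp only [Fintype.card_sum, Fintype.card_prod, Fintype.card_fin]
    omega
  have hcβ : Fintype.card (Fin eH ⊕ Fin e) =
      NN (ν + 1) (δ + 1 + 1) - ((ν + 1) * (q + 1) + D) - (b * (q + 1) + c) := by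
    simp only [Fintype.card_sum, Fintype.card_fin]
    omega
  exact ⟨_, _, _, hKill.reindexC1 (Fintype.equivFinOfCardEq hcα).symm
    (Fintype.equivFinOfCardEq hcβ).symm⟩

end Pool.Agent.WarQ


end

section

/-!
# Simultaneous Waring decompositions (MP_db021c_ag): selection of points   (helper59)
-/

set_option autoImplicit false

open Module MvPolynomial
open Pool.Agent.War Pool.Agent.WarS

namespace Pool.Agent.WarQ

namespace SELaux

/-- evaluation at a point as a functional on cubics -/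
noncomputable def evc (n : ℕ) (p : Fin n → ℂ) : Pol n 3 →ₗ[ℂ] ℂ :=
  (MvPolynomial.aeval (R := ℂ) p).toLinearMap.comp (Pol n 3).subtype

theorem evc_apply (n : ℕ) (p : Fin n → ℂ) (f : Pol n 3) :
    evc n p f = eval p (f : MvPolynomial (Fin n) ℂ) := by
  unfold evc
  rw [LinearMap.comp_apply, Submodule.subtype_apply, AlgHom.toLinearMap_apply, aeval_eq_eval]

theorem mem_ker_evc (n : ℕ) (p : Fin n → ℂ) (f : Pol n 3) :
    f ∈ LinearMap.ker (evc n p) ↔ eval p (f : MvPolynomial (Fin n) ℂ) = 0 := by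
  rw [LinearMap.mem_ker, evc_apply]

/-- cubics through a family of points -/
noncomputable def thr (n : ℕ) {ι : Type} (z : ι → Fin n → ℂ) : Submodule ℂ (Pol n 3) :=
  ⨅ i, LinearMap.ker (evc n (z i))

theorem mem_thr (n : ℕ) {ι : Type} (z : ι → Fin n → ℂ) (f : Pol n 3) :
    f ∈ thr n z ↔ ∀ i, eval (z i) (f : MvPolynomial (Fin n) ℂ) = 0 := by
  unfold thr
  rw [Submodule.mem_iInf]
  exact forall_congr' fun i => mem_ker_evc n (z i) f

/-- evaluation at finitely many points -/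
noncomputable def EV (n m : ℕ) (z : Fin m → Fin n → ℂ) : Pol n 3 →ₗ[ℂ] (Fin m → ℂ) :=
  LinearMap.pi fun i => evc n (z i)

theorem EV_apply (n m : ℕ) (z : Fin m → Fin n → ℂ) (f : Pol n 3) (i : Fin m) :
    EV n m z f i = eval (z i) (f : MvPolynomial (Fin n) ℂ) := by
  unfold EV
  rw [LinearMap.pi_apply, evc_apply]

theorem ker_EV (n m : ℕ) (z : Fin m → Fin n → ℂ) : LinearMap.ker (EV n m z) = thr n z := by
  ext f
  rw [LinearMap.mem_ker, mem_thr]
  constructor
  · intro h i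
    rw [← EV_apply, h]
    rfl
  · intro h
    funext i
    rw [EV_apply, h i]
    rfl

theorem EV_surj (n m : ℕ) (z : Fin m → Fin n → ℂ)
    (hz : ∀ i, ∃ h : MvPolynomial (Fin n) ℂ, h.totalDegree ≤ 3 ∧ eval (z i) h ≠ 0 ∧
      ∀ i', i' ≠ i → eval (z i') h = 0) : Function.Surjective (EV n m z) := by
  choose h h1 h2 h3 using hz
  intro c
  refine ⟨∑ i, (c i * (eval (z i) (h i))⁻¹) • (⟨h i, mem_Pol.2 (h1 i)⟩ : Pol n 3), ?_⟩
  funext j
  have e : EV n m z (∑ i, (c i * (eval (z i) (h i))⁻¹) • (⟨h i, mem_Pol.2 (h1 i)⟩ : Pol n 3)) j =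
      ∑ i, (c i * (eval (z i) (h i))⁻¹) * eval (z j) (h i) := by
    rw [map_sum, Finset.sum_apply]
    refine Finset.sum_congr rfl fun i _ => ?_
    rw [map_smul, Pi.smul_apply, EV_apply, smul_eq_mul]
  rw [e, Finset.sum_eq_single j]
  · rw [mul_assoc, inv_mul_cancel₀ (h2 j), mul_one]
  · intro i _ hij
    rw [h3 i j hij.symm, mul_zero]
  · intro hj
    exact absurd (Finset.mem_univ j) hj

theorem finrank_thr (n m : ℕ) (z : Fin m → Fin n → ℂ)
    (hz : ∀ i, ∃ h : MvPolynomial (Fin n) ℂ, h.totalDegree ≤ 3 ∧ eval (z i) h ≠ 0 ∧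
      ∀ i', i' ≠ i → eval (z i') h = 0) :
    finrank ℂ (thr n z) + m = finrank ℂ (Pol n 3) := by
  have h := (EV n m z).finrank_range_add_finrank_ker
  rw [LinearMap.range_eq_top.2 (EV_surj n m z hz), finrank_top, ker_EV] at h
  have h2 : finrank ℂ (Fin m → ℂ) = m := by simp
  omega

end SELaux

open _root_.Pool.Agent.WarQ.SELaux

theorem x_SEL : S_SEL := by
  intro n m k Y z hY hzY hz hv
  have hNe : Nonempty Y := hY.to_subtype
  have memW' : ∀ f : Pol n 3, f ∈ thr n (fun p : Y => p.1) ↔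
      ∀ p ∈ Y, eval p (f : MvPolynomial (Fin n) ℂ) = 0 := by
    intro f
    rw [mem_thr]
    exact ⟨fun h p hp => h ⟨p, hp⟩, fun h p => h p.1 p.2⟩
  have hdim := finrank_thr n m z hz
  have hPol := finrank_Pol_le n 3
  have hk : k ≤ finrank ℂ (thr n (fun p : Y => p.1)) := by
    obtain ⟨v, hv1, hv2⟩ := hv
    let u : Fin k → thr n (fun p : Y => p.1) := fun j =>
      ⟨⟨v j, mem_Pol.2 (hv2 j).1⟩, (memW' _).2 fun p hp => (hv2 j).2 p hp⟩
    have hu : LinearIndependent ℂ u := by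
      have h1 : LinearIndependent ℂ
          (((Pol n 3).subtype.comp (thr n (fun p : Y => p.1)).subtype) ∘ u) := hv1
      exact h1.of_comp _
    simpa using hu.fintype_card_le_finrank
  obtain ⟨y, hy⟩ := red (fun p : Y => evc n p.1) (thr n z) (thr n (fun p : Y => p.1))
    (fun w _ hw' => by
      by_contra hc
      push Not at hc
      refine hw' ((memW' w).2 fun p hp => ?_)
      rw [← evc_apply]
      exact hc ⟨p, hp⟩) (NN n 3 - k - m)
  refine ⟨fun j => (y j).1, fun j => (y j).2, ?_⟩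
  intro f hf hfz hfy p hp
  have hle : thr n (fun p : Y => p.1) ≤ thr n z ⊓ ⨅ i, LinearMap.ker (evc n (y i).1) := by
    refine le_inf ?_ (le_iInf fun i => iInf_le _ (y i))
    intro g hg
    exact (mem_thr n z g).2 fun i => (memW' g).1 hg _ (hzY i)
  have hfin : finrank ℂ ↥(thr n z ⊓ ⨅ i, LinearMap.ker (evc n (y i).1)) ≤
      finrank ℂ (thr n (fun p : Y => p.1)) := by
    refine hy.trans (max_le ?_ le_rfl)
    omega
  have heq := Submodule.eq_of_le_of_finrank_le hle hfin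
  have hfm : (⟨f, mem_Pol.2 hf⟩ : Pol n 3) ∈ thr n z ⊓ ⨅ i, LinearMap.ker (evc n (y i).1) := by
    refine Submodule.mem_inf.2 ⟨(mem_thr n z _).2 hfz, ?_⟩
    rw [Submodule.mem_iInf]
    intro i
    rw [mem_ker_evc]
    exact hfy i
  rw [← heq] at hfm
  exact (memW' _).1 hfm p hp

end Pool.Agent.WarQ


end

section

/-!
# The group model, case A
-/

set_option autoImplicit false

open Module MvPolynomial
open Pool.Agent.War Pool.Agent.WarS

namespace Pool.Agent.WarQ

namespace TAaux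

/-- A vector orthogonal to `b` vectors `(1, i, ..., i ^ (b - 1))` is zero. -/
theorem vand {b c : ℕ} (S : Finset (Fin (b + c))) (hS : b ≤ S.card) (γ : Fin b → ℂ)
    (h : ∀ i ∈ S, ∑ j : Fin b, ((i : ℕ) : ℂ) ^ (j : ℕ) * γ j = 0) : γ = 0 := by
  classical
  let p : Polynomial ℂ := ∑ j : Fin b, Polynomial.C (γ j) * Polynomial.X ^ (j : ℕ)
  have hinj : Function.Injective fun i : Fin (b + c) => ((i : ℕ) : ℂ) := by
    intro i i' hi
    exact Fin.ext (Nat.cast_injective (R := ℂ) hi)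
  have hdeg : p.degree < (S.image fun i : Fin (b + c) => ((i : ℕ) : ℂ)).card := by
    rw [Finset.card_image_of_injective _ hinj]
    refine lt_of_lt_of_le (Polynomial.degree_sum_fin_lt γ) ?_
    exact_mod_cast hS
  have hev : ∀ x ∈ S.image (fun i : Fin (b + c) => ((i : ℕ) : ℂ)), p.eval x = 0 := by
    intro x hx
    obtain ⟨i, hi, rfl⟩ := Finset.mem_image.mp hx
    rw [← h i hi]
    simp only [p, Polynomial.eval_finsetSum, Polynomial.eval_mul, Polynomial.eval_C,
      Polynomial.eval_pow, Polynomial.eval_X]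
    exact Finset.sum_congr rfl fun j _ => mul_comm _ _
  have hp : p = 0 := Polynomial.eq_zero_of_degree_lt_of_eval_finset_eq_zero _ hdeg hev
  funext j
  have h1 : p.coeff j = γ j := by
    simp only [p, Polynomial.finsetSum_coeff, Polynomial.coeff_C_mul, Polynomial.coeff_X_pow]
    rw [Finset.sum_eq_single j]
    · simp
    · intro j' _ hj
      rw [if_neg (fun h => hj (Fin.ext h.symm)), mul_zero]
    · intro h
      exact absurd (Finset.mem_univ j) h
  rw [← h1, hp, Polynomial.coeff_zero]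
  rfl

end TAaux

open _root_.Pool.Agent.WarQ.TAaux in
theorem x_TA (hR : S_GR) (hI : S_GI) (hS : S_SEL) : S_TA := by
  classical
  intro n b c D sz κ hb hD hsum hsz hcnt ⟨g₁, g₂, hdet⟩
  have hcard : Fintype.card ((g : Fin D) × Fin (sz g)) = n := by
    rw [Fintype.card_sigma]
    simpa using hsum
  let e : ((g : Fin D) × Fin (sz g)) ≃ Fin n := Fintype.equivFinOfCardEq hcard
  obtain ⟨h1, h2, h3, h4, -⟩ := hI n D (b + c) sz e κ hsz
  have hcard' : Fintype.card ((g : Fin D) × Fin (sz g + 1)) = n + D := by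
    rw [Fintype.card_sigma]
    simp only [Fintype.card_fin, Finset.sum_add_distrib, Finset.sum_const, Finset.card_univ,
      smul_eq_mul, mul_one, hsum]
  let e' : ((g : Fin D) × Fin (sz g + 1)) ≃ Fin (n + D) := Fintype.equivFinOfCardEq hcard'
  have hk : ∃ v : Fin (n + D) → MvPolynomial (Fin n) ℂ, LinearIndependent ℂ v ∧
      ∀ j, (v j).totalDegree ≤ 3 ∧ ∀ y ∈ PT e, eval y (v j) = 0 := by
    refine ⟨fun j => ug e (e'.symm j).1 (e'.symm j).2, ?_, fun j => h2 _ _⟩
    exact h3.comp e'.symm e'.symm.injective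
  obtain ⟨y, -, hy⟩ := hS n (b + c) (n + D) (PT e) (zz e κ)
    ⟨zz e κ ⟨0, by omega⟩, h1 _⟩ h1 (h4 g₁ g₂ hdet) hk
  refine ⟨zz e κ, fun i j => ((i : ℕ) : ℂ) ^ (j : ℕ), y, ?_⟩
  intro f hf hz ha hyf
  have hPT : ∀ j, ∀ p ∈ PT e, eval p (f j) = 0 := fun j =>
    hy (f j) (hf j) (fun i => hz i j) (fun i => hyf i j)
  obtain ⟨γ, hγ, hort⟩ := hR n D (b + c) b sz e κ _ f hsz hf hPT ha
  have hγ0 : ∀ g w, γ g w = 0 := by
    intro g w
    refine vand (Finset.univ.filter fun i => κ g i ≠ w) ?_ (γ g w) fun i hi =>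
      hort g w i (Finset.mem_filter.mp hi).2
    have h5 := Finset.card_filter_add_card_filter_not (s := Finset.univ)
      (fun i : Fin (b + c) => κ g i = w)
    rw [Finset.card_univ, Fintype.card_fin] at h5
    have h6 := hcnt g w
    unfold cnt at h6
    have h7 : (Finset.univ.filter fun i => κ g i ≠ w).card =
        (Finset.univ.filter fun i => ¬ κ g i = w).card := rfl
    omega
  intro j
  rw [hγ j]
  refine Finset.sum_eq_zero fun g _ => Finset.sum_eq_zero fun w _ => ?_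
  rw [hγ0 g w]
  simp

end Pool.Agent.WarQ


end

section

/-!
# Simultaneous Waring decompositions (MP_db021c_ag): the scalar lemma   (helper22)

General double points `z i`, `i ∈ P`, and general simple points `z i`, `i ∉ P`, cut out a space of
polynomials of dimension at most `NN n d - (n * |P| + |I|)`.
-/

set_option autoImplicit false

open Module MvPolynomial

namespace Pool.Agent.War

/-- the double points: `p` of them in good position -/
theorem SC_double (h : S_WAH) {n d p : ℕ} (hn : 1 ≤ n)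
    (hp : p = 0 ∨ (2 * n ≤ d ∧ (n + 2) * p ≤ NN n (d - 2 * n))) :
    ∃ z : Fin p → Fin n → ℂ, finrank ℂ (Dbl n d Finset.univ z) + (n + 1) * p ≤ NN n d := by
  rcases hp with rfl | ⟨h1, h2⟩
  · refine ⟨fun i => i.elim0, ?_⟩
    have h3 := Submodule.finrank_le (Dbl n d Finset.univ (fun i : Fin 0 => i.elim0))
    have h4 := finrank_Pol_le n d
    omega
  · exact h n d p hn h1 h2

/-- the double and the simple points -/
theorem SC_both (h : S_WAH) {n d p : ℕ} (k : ℕ) (hn : 1 ≤ n)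
    (hp : p = 0 ∨ (2 * n ≤ d ∧ (n + 2) * p ≤ NN n (d - 2 * n))) :
    ∃ (z : Fin p → Fin n → ℂ) (y : Fin k → Fin n → ℂ),
      finrank ℂ ↥(Dbl n d Finset.univ z ⊓ ⨅ i, LinearMap.ker (ev n d (y i))) ≤
        NN n d - ((n + 1) * p + k) := by
  obtain ⟨z, hz⟩ := SC_double h hn hp
  obtain ⟨y, hy⟩ := red (Y := Fin n → ℂ) (fun y => ev n d y) (Dbl n d Finset.univ z) ⊥ (by
    intro w _ hw
    by_contra hc
    push Not at hc
    apply hw
    rw [Submodule.mem_bot]
    apply Subtype.ext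
    apply MvPolynomial.funext
    intro x
    have := hc x
    rw [ev_apply] at this
    rw [this]
    simp) k
  refine ⟨z, y, hy.trans ?_⟩
  rw [finrank_bot]
  refine max_le ?_ (Nat.zero_le _)
  omega

theorem SC (h : S_WAH) : S_SC := by
  classical
  intro n d I _ P hn hP
  obtain ⟨z, y, hzy⟩ := SC_both h (Fintype.card I - P.card) hn hP
  have e1 : Fintype.card {i // i ∈ P} = P.card := Fintype.card_coe P
  have e2 : Fintype.card {i // ¬ i ∈ P} = Fintype.card I - P.card := by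
    rw [Fintype.card_subtype_compl, e1]
  let a : {i // i ∈ P} ≃ Fin P.card := Fintype.equivFinOfCardEq e1
  let b : {i // ¬ i ∈ P} ≃ Fin (Fintype.card I - P.card) := Fintype.equivFinOfCardEq e2
  let x₀ : I → Fin n → ℂ := fun i => if hi : i ∈ P then z (a ⟨i, hi⟩) else y (b ⟨i, hi⟩)
  have hle : Dbl n d P x₀ ≤ Dbl n d Finset.univ z ⊓ ⨅ i, LinearMap.ker (ev n d (y i)) := by
    intro f hf
    obtain ⟨f1, f2⟩ := mem_Dbl.1 hf
    rw [Submodule.mem_inf, Submodule.mem_iInf, mem_Dbl]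
    have key : ∀ i : Fin P.card, x₀ (a.symm i).1 = z i := by
      intro i
      simp only [x₀]
      rw [dif_pos (a.symm i).2]
      simp
    refine ⟨⟨fun i => ?_, fun i _ k => ?_⟩, fun i => ?_⟩
    · have := f1 (a.symm i).1
      rwa [key] at this
    · have := f2 (a.symm i).1 (a.symm i).2 k
      rwa [key] at this
    · rw [LinearMap.mem_ker, ev_apply]
      have := f1 (b.symm i).1
      simp only [x₀] at this
      rw [dif_neg (b.symm i).2] at this
      simpa using this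
  refine (PK_Dbl n d P).gen_finrank (x₀ := x₀) ((Submodule.finrank_mono hle).trans (hzy.trans ?_))
  have h1 : P.card ≤ Fintype.card I := Finset.card_le_univ P
  have h2 : (n + 1) * P.card = n * P.card + P.card := by ring
  omega

end Pool.Agent.War


end

section

/-!
# Simultaneous Waring decompositions (MP_db021c_ag), cubics, `3 ≤ s ≤ n` forms   (helper25)

`W(3, h, n, s)` for `3 ≤ s ≤ n`. Let `Full n s h` say that the space of the `s`-tuples of cubics in `n` variables with `h`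
suitable full points has dimension at most `s N(n,3) - (n + s) h` (truncated), and `AA n s` that this holds for all `h`.
`AA n s` is proved by induction on `n`, starting with `n = s - 1`. The step is a decoupled differential Horace argument: of the `h` full points
`U = ⌊s N(n-1,3) / (n-1+s)⌋` go to the hyperplane, `Y = s N(n-1,3) - (n-1+s) U` go to the hyperplane in the limit `t → 0`, the
other `P` are off the hyperplane. The residual system (quadrics) is bounded by the perturbation lemma, now with some points on the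
hyperplane. The numbers were checked by computer. A statement `S_X` is proved by a theorem `x_X : S_X`, or
`x_X (h : S_Y) ... : S_X` if it uses others. The hyperplane is `x_0 = 0`; the ambient space has `n + 1` variables.
-/

set_option autoImplicit false

open Module MvPolynomial
open Pool.Agent.War Pool.Agent.WarS Pool.Agent.WarQ

namespace Pool.Agent.WarC

/-! ## 0. Definitions -/

section
variable {n d s : ℕ} {I U Y : Type}

/-- `s`-tuples of polynomials of degree `≤ d` with the full points `(z i, a i)` -/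
def FK (n d : ℕ) {s : ℕ} {I : Type} (z : I → Fin n → ℂ) (a : I → Fin s → ℂ) :
    Submodule ℂ (Fin s → Pol n d) :=
  TrC1 n d ((fun q => Sum.elim z (fun e : Empty => e.elim) q, a) :
    (I ⊕ Empty → Fin n → ℂ) × (I → Fin s → ℂ))

theorem mem_FK {z : I → Fin n → ℂ} {a : I → Fin s → ℂ} {f : Fin s → Pol n d} : f ∈ FK n d z a ↔
    (∀ i j, eval (z i) (f j : MvPolynomial (Fin n) ℂ) = 0) ∧
    ∀ i k, ∑ j, a i j * eval (z i) (pderiv k (f j : MvPolynomial (Fin n) ℂ)) = 0 := by
  unfold FK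
  rw [mem_TrC1]
  refine and_congr ⟨fun h i j => h (Sum.inl i) j, fun h i j => ?_⟩ Iff.rfl
  rcases i with i | i
  · exact h i j
  · exact i.elim

theorem PK_FK (n d : ℕ) {s : ℕ} {I : Type} [Fintype I] :
    PK (K := ℂ) fun x : (I → Fin n → ℂ) × (I → Fin s → ℂ) => FK n d x.1 x.2 := by
  let A : (I → Fin n → ℂ) →ₗ[ℂ] (I ⊕ Empty → Fin n → ℂ) :=
    { toFun := fun z q => Sum.elim z (fun e : Empty => e.elim) q
      map_add' := fun x y => by
        funext i
        rcases i with i | i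
        · rfl
        · exact i.elim
      map_smul' := fun r x => by
        funext i
        rcases i with i | i
        · rfl
        · exact i.elim }
  let L : (I → Fin n → ℂ) × (I → Fin s → ℂ) →ₗ[ℂ]
      (I ⊕ Empty → Fin n → ℂ) × (I → Fin s → ℂ) := A.prodMap LinearMap.id
  exact ((PK_TrC1 n d (α := I) (β := Empty) (γ := Fin s)).comp L).congr fun x => rfl

/-- the functional `∑ a_j f_j(z)` -/
noncomputable def om (n d : ℕ) {s : ℕ} (z : Fin n → ℂ) (a : Fin s → ℂ) :
    (Fin s → Pol n d) →ₗ[ℂ] ℂ := ∑ j, a j • (ev n d z).comp (LinearMap.proj j)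

theorem om_apply (z : Fin n → ℂ) (a : Fin s → ℂ) (f : Fin s → Pol n d) :
    om n d z a f = ∑ j, a j * eval z (f j : MvPolynomial (Fin n) ℂ) := by
  simp only [om, LinearMap.sum_apply, LinearMap.smul_apply, LinearMap.comp_apply,
    LinearMap.proj_apply, ev_apply, smul_eq_mul]

/-- the functional `∑ a_j ∂_k f_j(z)` -/
noncomputable def gr (n d : ℕ) {s : ℕ} (k : Fin n) (z : Fin n → ℂ) (a : Fin s → ℂ) :
    (Fin s → Pol n d) →ₗ[ℂ] ℂ := ∑ j, a j • (dv n d k z).comp (LinearMap.proj j)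

theorem gr_apply (k : Fin n) (z : Fin n → ℂ) (a : Fin s → ℂ) (f : Fin s → Pol n d) :
    gr n d k z a f = ∑ j, a j * eval z (pderiv k (f j : MvPolynomial (Fin n) ℂ)) := by
  simp only [gr, LinearMap.sum_apply, LinearMap.smul_apply, LinearMap.comp_apply,
    LinearMap.proj_apply, dv_apply, smul_eq_mul]

/-- points off the hyperplane and points of the hyperplane -/
def jn (w : I → Fin (n + 1) → ℂ) (y : Y → Fin n → ℂ) : I ⊕ Y → Fin (n + 1) → ℂ :=
  Sum.elim w fun i => hp (y i)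

/-- quadrics: full at `(w i, b i)`; vanishing at `hp (y i)` with tangential condition with the vector `α i` -/
noncomputable def RV (n : ℕ) {s : ℕ} {I Y : Type} (w : I → Fin (n + 1) → ℂ) (b : I → Fin s → ℂ)
    (y : Y → Fin n → ℂ) (α : Y → Fin s → ℂ) : Submodule ℂ (Fin s → Pol (n + 1) 2) :=
  FK (n + 1) 2 w b ⊓
    (⨅ q : Y × Fin s, LinearMap.ker ((ev (n + 1) 2 (hp (y q.1))).comp
      (LinearMap.proj q.2 : (Fin s → Pol (n + 1) 2) →ₗ[ℂ] Pol (n + 1) 2))) ⊓
    (⨅ q : Y × Fin n, LinearMap.ker (gr (n + 1) 2 q.2.succ (hp (y q.1)) (α q.1)))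

theorem mem_RV {w : I → Fin (n + 1) → ℂ} {b : I → Fin s → ℂ} {y : Y → Fin n → ℂ}
    {α : Y → Fin s → ℂ} {g : Fin s → Pol (n + 1) 2} : g ∈ RV n w b y α ↔
    g ∈ FK (n + 1) 2 w b ∧
    (∀ i j, eval (hp (y i)) (g j : MvPolynomial (Fin (n + 1)) ℂ) = 0) ∧
    ∀ i (k : Fin n), ∑ j, α i j *
      eval (hp (y i)) (pderiv k.succ (g j : MvPolynomial (Fin (n + 1)) ℂ)) = 0 := by
  unfold RV
  simp only [Submodule.mem_inf, Submodule.mem_iInf, LinearMap.mem_ker, LinearMap.comp_apply,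
    LinearMap.proj_apply, ev_apply, gr_apply, Prod.forall, and_assoc]

/-- the residual space: moreover `∑ a_j g_j = 0` at `hp (z i)` with the vector `a i` -/
noncomputable def RS (n : ℕ) {s : ℕ} {I U Y : Type} (w : I → Fin (n + 1) → ℂ) (b : I → Fin s → ℂ)
    (z : U → Fin n → ℂ) (a : U → Fin s → ℂ) (y : Y → Fin n → ℂ) (α : Y → Fin s → ℂ) :
    Submodule ℂ (Fin s → Pol (n + 1) 2) :=
  RV n w b y α ⊓ ⨅ i, LinearMap.ker (om (n + 1) 2 (hp (z i)) (a i))

/-- the trace space: cubics in `n` variables, full at `(z i, a i)`, with `∑ α_j ρ_j(y) = 0` at `y i` -/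
noncomputable def TS (n : ℕ) {s : ℕ} {U Y : Type} (z : U → Fin n → ℂ) (a : U → Fin s → ℂ)
    (y : Y → Fin n → ℂ) (α : Y → Fin s → ℂ) : Submodule ℂ (Fin s → Pol n 3) :=
  FK n 3 z a ⊓ ⨅ i, LinearMap.ker (om n 3 (y i) (α i))

/-- `h` full points in degree `3` -/
def Full (n s h : ℕ) : Prop := ∃ (z : Fin h → Fin n → ℂ) (a : Fin h → Fin s → ℂ),
  finrank ℂ (FK n 3 z a) ≤ s * NN n 3 - (n + s) * h

def AA (n s : ℕ) : Prop := ∀ h, Full n s h

end

/-! ## 1. The quadrics -/

/-- `S_UK` with some points on the hyperplane `x_0 = 0`: the points `Sum.inr i` are `hp (y i)`. Quadrics which vanish at all points, are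
double at those of `P` and vanish at the midpoints of the points of `Q`. Proof. `PK` in the parameters, so one configuration is enough.
The points of `P ∪ Q` are vertices of the simplex `p_0 = (1, 0)`, `p_(j+1) = (- δ_j, h_j)`, where `h_0 = 0`, `h_j = e_j` (`1 ≤ j ≤ n`) in
`ℂ^n` and `δ_j ∈ {0, 1}`: choose an injection of `P ∪ Q` into `{0, .., n+1}` with the given `inl i ∈ P` to `0`, `δ_j = 0` if the element going to
`j + 1` is an `inr`, and `1` otherwise. These `n + 2` points are affinely independent: `A x = p_0 + ∑ x_j (p_(j+1) - p_0)` is an affine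
automorphism of `ℂ^(n+1)` which maps the standard vertices `0, e_1, .., e_(n+1)` of `S_UK` to them, and `f ↦ f ∘ A` is an
automorphism of `Pol (n+1) 2` (or: write `f` in the barycentric coordinates of the `p_j`); so the space of the quadrics with only the
conditions at `P ∪ Q` has dimension `≤ N + binom(p,2) - ((n+2) p + q + binom(q,2))` (`UKaux` in `UK.lean`: `finrank_U0`, `eq_zero_of_nodes`).
The other points are general, each one lowers the dimension by one until it is `0` (`red`): clear for the points `inl`; a quadric of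
the space which vanishes on the hyperplane is `x_0 l`, and as it is double at `p_0` the affine function `l` and its derivatives vanish there, so `l = 0`.
(In the numbers: `p = |P|`, `q = |Q|`, `(n+1) p + |I ⊕ Y| + binom(q,2) = (n+2) p + q + binom(q,2) + ` number of the other points.) -/
def S_UKH : Prop := ∀ (n : ℕ) (I Y : Type) [Fintype I] [Fintype Y] (P Q : Finset (I ⊕ Y)),
  Disjoint P Q → P.card + Q.card ≤ n + 2 →
  (P.filter fun i => i.isRight = true).card + (Q.filter fun i => i.isRight = true).card ≤ n + 1 →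
  (∃ i, Sum.inl i ∈ P) →
  Gen ℂ fun x : (I → Fin (n + 1) → ℂ) × (Y → Fin n → ℂ) =>
    finrank ℂ ↥(Dbl (n + 1) 2 P (jn x.1 x.2) ⊓
      ⨅ q : {q : (I ⊕ Y) × (I ⊕ Y) // q.1 ∈ Q ∧ q.2 ∈ Q},
        LinearMap.ker (ev (n + 1) 2 (mid (jn x.1 x.2 q.1.1) (jn x.1 x.2 q.1.2)))) ≤
    NN (n + 1) 2 + P.card.choose 2 -
      ((n + 1) * P.card + (Fintype.card I + Fintype.card Y) + Q.card.choose 2)

/-- The perturbation lemma with points on the hyperplane; same proof as `x_PERT` (`PERT.lean`) with `S_UKH` in place of `S_UK`: `κ i` is the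
type of the point `i`, the vectors are `a i = e_(κ i) + ε τ_i e_(σ (κ i))` with different `τ_i`; `P = {κ = σ k}`, `Q = {κ = k}`. -/
def S_PERTH : Prop := ∀ (n s w : ℕ) (I Y : Type) [Fintype I] [Fintype Y] (κ : I ⊕ Y → Fin s)
  (σ : Equiv.Perm (Fin s)), (∀ k, σ k ≠ k) → (∀ k, fib κ k + fib κ (σ k) ≤ n + 2) →
  (∀ k, fib (fun i : Y => κ (Sum.inr i)) k + fib (fun i : Y => κ (Sum.inr i)) (σ k) ≤ n + 1) →
  (∀ k, ∃ i, κ (Sum.inl i) = k) →
  Fintype.card I + Fintype.card Y + w = NN (n + 1) 2 →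
  (∀ k, (n + 1) * fib κ (σ k) + (fib κ k).choose 2 ≤ w + (fib κ (σ k)).choose 2) →
  ∃ (z : I → Fin (n + 1) → ℂ) (y : Y → Fin n → ℂ) (a : I ⊕ Y → Fin s → ℂ),
    finrank ℂ (FK (n + 1) 2 (jn z y) a) ≤ s * w - (n + 1) * (Fintype.card I + Fintype.card Y)

/-- The numerical conditions: `m` variables, `s` forms, `P` points off the hyperplane, `Y` on it, `t = ⌊(P+Y)/s⌋`, `c = (P+Y) % s`. -/
def NC (m s P Y : ℕ) : Prop :=
  P + Y ≤ (m + 1) * (m + 2) / 2 ∧
  ((Y % s ≤ (P + Y) % s ∧ Y / s + 1 ≤ (P + Y) / s) ∨ Y / s + 2 ≤ (P + Y) / s) ∧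
  (((P + Y) % s = 0 ∧ 2 * ((P + Y) / s) ≤ m + 1) ∨ ((P + Y) % s = 1 ∧ 2 * ((P + Y) / s) ≤ m) ∨
    2 * ((P + Y) / s) + 1 ≤ m) ∧
  (((P + Y) % s = 0 ∧ m * ((P + Y) / s) + (P + Y) ≤ (m + 1) * (m + 2) / 2) ∨
    ((P + Y) % s = 1 ∧ m * ((P + Y) / s + 1) + (P + Y) ≤ (m + 1) * (m + 2) / 2 + (P + Y) / s ∧
      (m + 1) * ((P + Y) / s) + (P + Y) ≤ (m + 1) * (m + 2) / 2) ∨
    (m * ((P + Y) / s + 1) + (P + Y) ≤ (m + 1) * (m + 2) / 2 ∧
      (m + 1) * ((P + Y) / s) + (P + Y) ≤ (m + 1) * (m + 2) / 2))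

instance (m s P Y : ℕ) : Decidable (NC m s P Y) := by unfold NC; infer_instance

/-- The types. `σ` = rotation of `Fin s` (`finRotate`). Type `k` gets `t + [k < c]` points, of which `⌊Y/s⌋ + [k < Y % s]` are on the hyperplane (`inr`), the
others (at least one by the second condition of `NC`) are `inl`. Third condition of `NC`: `fib κ k + fib κ (σ k) ≤ n + 2` (if `c = 1` there are no two
adjacent types with `t + 1` points, as `s ≥ 2`). The fourth gives the last condition (cases `(fib κ k, fib κ (σ k)) = (t,t), (t,t+1), (t+1,t), (t+1,t+1)`;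
`binom(t+1,2) = binom(t,2) + t`). `NN m 2 = (m+1)(m+2)/2`. -/
def S_ARR : Prop := ∀ n s P Y : ℕ, 2 ≤ s → NC (n + 1) s P Y →
  ∃ (κ : Fin P ⊕ Fin Y → Fin s) (σ : Equiv.Perm (Fin s)), (∀ k, σ k ≠ k) ∧
    (∀ k, fib κ k + fib κ (σ k) ≤ n + 2) ∧
    (∀ k, fib (fun i : Fin Y => κ (Sum.inr i)) k +
      fib (fun i : Fin Y => κ (Sum.inr i)) (σ k) ≤ n + 1) ∧
    (∀ k, ∃ i, κ (Sum.inl i) = k) ∧ P + Y ≤ NN (n + 1) 2 ∧
    ∀ k, (n + 1) * fib κ (σ k) + (fib κ k).choose 2 ≤
      (NN (n + 1) 2 - (P + Y)) + (fib κ (σ k)).choose 2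

/-- The residual space. Let `(z₀, y₀, a₀)` be as in the hypothesis. `V = RV n w b y α`: for `w = z₀`, `y = y₀` and the vectors `a₀` the space
`V ⊓ ⨅_i ker (gr 0 (hp (y i)) (α i))` is `FK (n+1) 2 (jn w y) _`, so `dim V ≤ B + |Y|` (a functional lowers the dimension by at most one), and this is generic
(`PK`, `PK.gen_finrank`). No element of `V` except `0` vanishes on the hyperplane, generically: `PK` again, for `w i = (1, 0)` and a surjective type `I → Fin s`
(`s ≤ |I|`), pure vectors: `g_j = x_0 l_j`, `l_j` and its derivatives vanish at `w_i`, `i` of type `j`, so `l_j = 0`. Choose `(w, b, y, α)` with both properties; by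
`red` (functionals `om (n+1) 2 (hp z) a`; as `hred` in `COR3.lean`) there are `(z, a)` with `dim RS ≤ B + |Y| - |U|`. `PK.gen_finrank`. -/
def S_RESC : Prop := ∀ (n s B : ℕ) (I U Y : Type) [Fintype I] [Fintype U] [Fintype Y], 1 ≤ s →
  s ≤ Fintype.card I →
  (∃ (z : I → Fin (n + 1) → ℂ) (y : Y → Fin n → ℂ) (a : I ⊕ Y → Fin s → ℂ),
    finrank ℂ (FK (n + 1) 2 (jn z y) a) ≤ B) →
  Gen ℂ fun x : ((I → Fin (n + 1) → ℂ) × (I → Fin s → ℂ)) × ((U → Fin n → ℂ) × (U → Fin s → ℂ)) ×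
      ((Y → Fin n → ℂ) × (Y → Fin s → ℂ)) =>
    finrank ℂ (RS n x.1.1 x.1.2 x.2.1.1 x.2.1.2 x.2.2.1 x.2.2.2) ≤
      (B + Fintype.card Y) - Fintype.card U

/-! ## 2. The Horace step -/

/-- Trace: `U` full points (`Full n s u`) and `Y` general functionals `∑ α_j ρ_j(y)`; `red` (these functionals separate) and `PK.gen_bot`. -/
def S_TRC : Prop := ∀ (n s u v : ℕ), 1 ≤ n → Full n s u → s * NN n 3 ≤ (n + s) * u + v →
  Gen ℂ fun x : ((Fin u → Fin n → ℂ) × (Fin u → Fin s → ℂ)) ×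
      ((Fin v → Fin n → ℂ) × (Fin v → Fin s → ℂ)) => TS n x.1.1 x.1.2 x.2.1 x.2.2 = ⊥

/-- Decoupled differential Horace lemma. For `t ∈ ℂ` let `Z_t` be the space of the `(ρ, g) ∈ (Pol n 3)^s × (Pol (n+1) 2)^s` with: (1) `t ρ + x_0 g` (i.e.
`t • liftL ρ + mulX g`, `ρ` in the variables `x_1, .., x_n`) is full at all `(w i, b i)`; (2) `ρ_j(z i) = 0`, `∑ a_j ∂_k ρ_j(z i) = 0`, `∑ a_j g_j(hp (z i)) = 0`;
(3) `ρ_j(y i) + g_j(t, y i) = 0` for all `j`, `∑ α_j (∂_k ρ_j(y i) + ∂_(k+1) g_j(t, y i)) = 0` for all `k`, `∑ α_j ρ_j(y i) = t ∑ α_j ∂_0 g_j(t, y i)`.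
For `t ≠ 0` the map `(ρ, g) ↦ t ρ + x_0 g` is an isomorphism of `Z_t` with the space on the left (the last condition of (3) is, modulo the first one,
the condition for `∂_0` divided by `-1`), so the latter has dimension `≤ dim Z_t`. `Z_t` is `PK` in `t ∈ ℂ`; by `PK.gen_finrank` `dim Z_t ≤ dim Z_0` for generic `t` (and
`Gen.and` with `t ≠ 0`). If `(ρ, g) ∈ Z_0` then `ρ ∈ TS = ⊥`, so `ρ = 0`; then `g ∈ RS` (`w i 0 ≠ 0`). -/
def S_DHC : Prop := ∀ (n s : ℕ) (I U Y : Type) [Finite I] [Finite U] [Finite Y]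
  (w : I → Fin (n + 1) → ℂ) (b : I → Fin s → ℂ) (z : U → Fin n → ℂ) (a : U → Fin s → ℂ)
  (y : Y → Fin n → ℂ) (α : Y → Fin s → ℂ), (∀ i, w i 0 ≠ 0) → TS n z a y α = ⊥ →
  ∃ t : ℂ, finrank ℂ (FK (n + 1) 3
      (Sum.elim w (Sum.elim (fun i => hp (z i)) fun i => (Fin.cons t (y i) : Fin (n + 1) → ℂ)))
      (Sum.elim b (Sum.elim a α))) ≤
    finrank ℂ (RS n w b z a y α)

/-! ## 3. Numbers -/

/-- exceptional cases of the step -/
def XF (m s h : ℕ) : Prop := (m = 4 ∧ s = 4 ∧ h = 17) ∨ (m = 5 ∧ s = 4 ∧ h = 24) ∨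
  (m = 6 ∧ s = 4 ∧ h = 33) ∨ (m = 6 ∧ s = 4 ∧ h = 34)

/-- the numbers of the step -/
def NF (m s h : ℕ) : Prop :=
  ∃ U Y P : ℕ, (m - 1 + s) * U + Y = s * NN (m - 1) 3 ∧ P + U + Y = h ∧ NC m s P Y

/-- The numbers of the step, small `m`. With `M = N(m-1,3) = m(m+1)(m+2)/6`: `U = s M / (m-1+s)` (quotient), `Y = s M - (m-1+s) U`,
`P = h - U - Y`; `N(m,3) = (m+1)(m+2)(m+3)/6`. Finitely many cases: `decide` for the explicit numbers (checked by computer for `m < 100`). -/
def S_NUMFa : Prop := ∀ m s h : ℕ, 3 ≤ s → s ≤ m → m < 45 →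
  (h = s * NN m 3 / (m + s) ∨ h = (s * NN m 3 + (m + s - 1)) / (m + s)) → ¬ XF m s h → NF m s h

/-- Large `m`, `s ≥ 4`. The same `U`, `Y`, `P`; `T = P + Y = h - U`. Sufficient are `2 s ≤ P` (then `⌊Y/s⌋ + 2 ≤ ⌊T/s⌋`), `2 ⌊T/s⌋ + 1 ≤ m` and
`m (⌊T/s⌋ + 1) + T ≤ N(m,2)` (with `⌊T/s⌋ ≤ m`). Checked by computer for `17 ≤ m < 260`, `s ≥ 4`. Bounds: `s N(m,3) - (m+s) < (m+s) h < s N(m,3) + (m+s)`,
`s M - (m-1+s) < (m-1+s) U ≤ s M`, `Y ≤ m + s - 2`, `N(m,3) = M + N(m,2)`; so `(m+s)(m+s-1) T` differs from `s ((m+s-1) N(m,2) - M)` by less than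
`2 (m+s)²`. Slack for `m ≥ 45`: `P - 2 s ≥ 0.19 m`, `m - 2 ⌊T/s⌋ - 1 ≥ 0.29 m`, third one `≥ 0.067 m²`. If it helps take 60 or 100 in place of 45 (here and in `S_NUMFa`). -/
def S_NUMFb : Prop := ∀ m s h : ℕ, 4 ≤ s → s ≤ m → 45 ≤ m →
  (h = s * NN m 3 / (m + s) ∨ h = (s * NN m 3 + (m + s - 1)) / (m + s)) → NF m s h

/-- `s = 3`. `3 N(m,3) = (m+3) (m+1)(m+2)/2`, so `h = (m+1)(m+2)/2`; `U = m(m+1)/2`, `Y = 0`, `P = m + 1`. (`NC` also for `m = 3, 4, 5, 6`.) -/
def S_NUMFc : Prop := ∀ m h : ℕ, 3 ≤ m →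
  (h = 3 * NN m 3 / (m + 3) ∨ h = (3 * NN m 3 + (m + 3 - 1)) / (m + 3)) → NF m 3 h

/-- Numbers for the base, `n ≠ 5, 9, 12`. As `S_NUMC` with `b = n`, `c = D`, but `μ = n q + D` is the first number with `(2 n + 1) μ > n N`; `u = min q (N(n-1,3)/(2n-1))`,
`r = q - u`, `e = N(n,2) - (n r + D) - (n r + D + u)`. Checked by computer for `n < 80`. For `n ≥ 20` or so: `N(n,3) - 2 μ ≥ 2 n - 2 ≥ N(n-1,3) - (2n-1) u`.
For small `n` the number `μ` is unique (`decide`). -/
def S_NUMB : Prop := ∀ n q D : ℕ, 3 ≤ n → 1 ≤ D → D < n →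
  n * NN n 3 < (2 * n + 1) * (n * q + D) → (2 * n + 1) * (n * q + D) < n * NN n 3 + (2 * n + 1) →
  n ≠ 5 → n ≠ 9 → n ≠ 12 →
  ∃ u r e : ℕ, u + r = q ∧ n ≤ u + D ∧ (2 * n - 1) * u ≤ NN (n - 1) 3 ∧ 9 * u ≤ (n + 2) ^ 2 ∧
    2 * (r + 1) ≤ n + 1 ∧ (n * r + D) + e + (n * r + D + u) = NN n 2 ∧ n + 1 ≤ (n * r + D) + e

/-! ## 4. Assembly -/

/-- `h` full points with the two critical values of `h` are enough: fewer points are a part of the `⌊s N/(n+s)⌋` points (each omitted point raises the dimension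
by at most `n + s`), for more points the space is `0` (the dimension for `⌈s N/(n+s)⌉` is `0`). -/
def S_AAH : Prop := ∀ n s : ℕ, 1 ≤ s → Full n s (s * NN n 3 / (n + s)) →
  Full n s ((s * NN n 3 + (n + s - 1)) / (n + s)) → AA n s

/-- The block of `n` forms for `μ = n q + D`, the first `μ` with `(2 n + 1) μ > n N`. `D = 0`: `WarM.PB`, `GG n 3 q` (`War5.CUB`). `D ≥ 1`, `n ≠ 9, 12`:
`S_NUMB`, `S_PERT` for `b = n`, `r k = r + 1` for `k < D` and `r` for `k ≥ D`, and `S_COR3`, exactly as in `BLKC.lean` (`BLKCaux.main`). `n = 9`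
(`μ = 105`, `q = 11`, `D = 6`): three blocks of `3` forms with `35` full and `80` simple points each (all `115` points are the same for
the three blocks, the full points are disjoint, cf. the cases with two blocks in `TOPC.lean`); such a block: `S_COR3` for
`ν = 8`, `b = 3`, `u = 11`, `eH = 44`, `e = 36`, `α` = 2 points, `S_PERT` with `r = (1, 1, 0)`, `w = 17`. `n = 12` (`μ = 219`, `q = 18`, `D = 3`): three blocks of
`4` forms with `73` full and `163` simple points: `S_COR3` for `ν = 11`, `b = 4`, `u = 18`, `eH = 94`, `e = 69`, `α` = 1 point, `S_PERT` with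
`r = (1, 0, 0, 0)`, `w = 21`. (`GG` from `War5.CUB`.) -/
def S_BLKM : Prop := ∀ n μ : ℕ, 3 ≤ n → n ≠ 5 → n * NN n 3 < (2 * n + 1) * μ →
  (2 * n + 1) * μ < n * NN n 3 + (2 * n + 1) → Block n 3 n μ

/-- The base `s = n + 1`, `n ≥ 3`. `S_AAH`. `h₊ = ⌈(n+1) N/(2n+1)⌉`: `S_TOPC` (`h₊ ≥ n + 1`, `h₊ < N`; the space is `0`). `h₋ = ⌊(n+1) N/(2n+1)⌋`: if `(2n+1) h₋ = (n+1) N`
this is `h₊`. Otherwise `μ = N - h₋` satisfies the hypotheses of `S_BLKM`. `n ≠ 5`: the first `n` forms have `μ` full and `h₋ - μ` simple points (`S_BLKM`; the space is `0`;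
`⌈n μ/n⌉ = μ`, `N - 2 μ = h₋ - μ`); the last form is simple at these `μ` points and double at the other `h₋ - μ` points: dimension `≤ N - h₋ - n (h₋ - μ)
= (n+1) N - (2n+1) h₋` (`WarS.SG`, `GG n 3 (h₋ - μ)` from `War5.CUB` or `WarM.AH`: `(2n+1)(h₋ - μ) ≤ N`). Choose the points general (`Kill` is generic in points and vectors),
vector of a point: in the first `n` coordinates that of the block (first `μ` points) or `0`, last coordinate `0` or `1`. `n = 5`: `h₋ = 30`, each of the `6` forms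
has `5` double and `25` simple points: dimension `≤ 56 - 55 = 1` each (`GG 5 3 5`), sum `6 = 6·56 - 11·30`. -/
def S_BASE : Prop := ∀ n : ℕ, 3 ≤ n → AA n (n + 1)

/-- The exceptional cases. `(4,4,17)`: two blocks of `2` forms; `9` full and `8` simple points: `S_COR3` for `ν = 3`, `b = 2`, `u = 4`, `eH = 0`, `e = 8`, `α` = 1 point,
`S_PERT` with `r = (1, 0)`, `w = 6`: kills. First block: `9` full (points `0..8`) and `8` simple; second: `8` full (points `9..16`) and `9` simple ones (one full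
point replaced by a simple one: the dimension is at most `4`). Sum `4 = 4·35 - 8·17`. `(5,4,24)`: each form has `6` double and `18` simple points, dimension `≤ 2` each
(`GG 5 3 6`), sum `8 = 4·56 - 9·24`. `(6,4,34)`: two blocks of `2` forms, `17` full and `17` simple points each: `S_COR3` for `ν = 5`, `b = 2`, `u = 8`, `eH = 0`,
`e = 17`, `α` = 1 point, `S_PERT` with `r = (1, 0)`, `w = 10`, `GG 5 3 8` (`WarM.CubAH`: `CUBIC`); `34·10 ≥ 4·84`. `(6,4,33)`: the same with `e = 16`, `w = 11`: `17` full and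
`16` simple points kill; second block `16` full and `17` simple ones: dimension `≤ 6 = 4·84 - 10·33`. -/
def S_EXF : Prop := Full 4 4 17 ∧ Full 5 4 24 ∧ Full 6 4 33 ∧ Full 6 4 34

/-- `AA 1 3`: three full points on triples of binary cubics with independent vectors (and four points kill). -/
def S_AA13 : Prop := AA 1 3

end Pool.Agent.WarC


end

section

/-!
# Simultaneous Waring decompositions (MP_db021c_ag), cubics, `s = 2`, `n = 6 k + 2`   (helper25)

`W(3, h, n, 2)` for `n = 6 k + 2`, `k ≥ 1`, `h = (n+1)(n+3)/3 = 12 k² + 16 k + 5`; the count is perfect. Notation of `Stmts3`, the ambient space has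
`n + 1 = 6 k + 2` variables. On the hyperplane `H`: `2 u` full points, `u = 6 k² + 6 k + 1`, pure vectors for the trace, `u` for each form. Off `H`: two
points. Near `H`: `4 k - 1` points with general vectors and two points `p`, `q` with the SAME vector `β`. For a quadric `φ` on a line,
`φ'(0) + φ'(1) = 2 (φ(1) - φ(0))`, so the tangential conditions at these two points in the direction `q - p` add up to a condition for the trace.
A statement `S_X` is proved by a theorem `x_X : S_X`, or `x_X (h : S_Y) ... : S_X` if it uses others.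
-/

set_option autoImplicit false

open Module MvPolynomial
open Pool.Agent.War Pool.Agent.WarS Pool.Agent.WarQ

namespace Pool.Agent.WarC

/-- the functional `∑_k (q_k - p_k) (∂_k f(p) + ∂_k f(q))` on polynomials -/
noncomputable def ec (n d : ℕ) (p q : Fin n → ℂ) : Pol n d →ₗ[ℂ] ℂ :=
  ∑ k, (q k - p k) • (dv n d k p + dv n d k q)

theorem ec_apply {n d : ℕ} (p q : Fin n → ℂ) (f : Pol n d) : ec n d p q f =
    ∑ k, (q k - p k) * (eval p (pderiv k (f : MvPolynomial (Fin n) ℂ)) +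
      eval q (pderiv k (f : MvPolynomial (Fin n) ℂ))) := by
  simp only [ec, LinearMap.sum_apply, LinearMap.smul_apply, LinearMap.add_apply, dv_apply,
    smul_eq_mul]

/-- the same for `∑ β_j f_j` -/
noncomputable def ecs (n d : ℕ) {s : ℕ} (p q : Fin n → ℂ) (β : Fin s → ℂ) :
    (Fin s → Pol n d) →ₗ[ℂ] ℂ := ∑ j, β j • (ec n d p q).comp (LinearMap.proj j)

theorem ecs_apply {n d s : ℕ} (p q : Fin n → ℂ) (β : Fin s → ℂ) (f : Fin s → Pol n d) :
    ecs n d p q β f = ∑ j, β j * ec n d p q (f j) := by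
  simp only [ecs, LinearMap.sum_apply, LinearMap.smul_apply, LinearMap.comp_apply,
    LinearMap.proj_apply, smul_eq_mul]

/-- two points -/
def two {A : Type} (p q : A) : Fin 2 → A := ![p, q]

/-- the trace space with the pair `p`, `q` -/
noncomputable def TS2 (n : ℕ) {s : ℕ} {U Y : Type} (z : U → Fin n → ℂ) (a : U → Fin s → ℂ)
    (y : Y → Fin n → ℂ) (α : Y → Fin s → ℂ) (p q : Fin n → ℂ) (β : Fin s → ℂ) :
    Submodule ℂ (Fin s → Pol n 3) :=
  TS n z a y α ⊓ LinearMap.ker (om n 3 p β) ⊓ LinearMap.ker (om n 3 q β) ⊓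
    LinearMap.ker (ecs n 3 p q β)

/-- One cubic. The functionals `f(p)`, `f(q)`, `ec p q f` are independent on the cubics which are double at `u` points. Proof. Let `z_0, .., z_u` be general points for
`GG n 3 (u+1)` such that no quadric `≠ 0` is double at all of them (generic as `u + 1 ≥ n + 1`: at `0, e_1, .., e_n` a quadric double at all these points is `0`; `PK`,
`PK.gen_bot`). `D` = cubics double at `z_0, .., z_(u-1)`, `p = z_u`, `D₀ = {f ∈ D, f(p) = 0}`, `D₁ = {f ∈ D, f double at p}`: `dim D₁ = N - (n+1)(u+1) > 0`, and `dim D ≥ N - (n+1) u`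
(always), so the value and gradient at `p` are independent on `D`, and the gradient map `D₀ → ℂ^n` is surjective. Claim: there is `d` such that on `D₀` the two
functionals `A_d(f) = f(p + 3 d) - 3 f(p + 2 d) + 3 f(p + d) - f(p)` (`= 6` times the cubic part of `f` at `d`) and `B_d(f) = f(p + d)` are independent. Otherwise
`A_d(f₁) B_d(f₂) = A_d(f₂) B_d(f₁)` for all `d`, `f₁ ∈ D₁`, `f₂ ∈ D₀`. Replace `d` by `x d`, `f_i(p + x d) = x f_i'(d) + x² f_i''(d) + x³ f_i'''(d)`, `f₁' = 0`: the coefficient of `x⁴` gives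
`f₁'''(d) f₂'(d) = 0` for all `d` and `f₂ ∈ D₀`; choose `f₂` with `f₂' ≠ 0` (surjectivity), so `f₁''' = 0` for all `f₁ ∈ D₁`, so the elements of `D₁` are quadrics double at `z_0, .., z_u`,
so `D₁ = 0`, a contradiction. Let `q = p + d`. If `f(p) = f(q) = 0` then `ec p q f = f'''(d)` (`f(p + x d) = c₁ x + c₂ x² + c₃ x³`, `c₁ + c₂ + c₃ = 0`,
`ec = c₁ + (c₁ + 2 c₂ + 3 c₃) = c₃`). So the dimension is `dim D₀ - 2 = N - (n+1) u - 3`. -/
def S_LIN3 : Prop := ∀ n u : ℕ, 1 ≤ n → n ≤ u → GG n 3 (u + 1) → (n + 1) * (u + 1) < NN n 3 →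
  ∃ (z : Fin u → Fin n → ℂ) (p q : Fin n → ℂ),
    finrank ℂ ↥(Dbl n 3 Finset.univ z ⊓ LinearMap.ker (ev n 3 p) ⊓ LinearMap.ker (ev n 3 q) ⊓
      LinearMap.ker (ec n 3 p q)) + ((n + 1) * u + 3) ≤ NN n 3

/-- The trace. `β = e_0`, the first `u` points have the vector `e_0`, the last `u` points `e_1`. Form `0`: double at the first `u` points, `0` at `p`, `q`, `ec p q = 0`: dimension
`≤ N - (n+1) u - 3` by `S_LIN3`, generic (`PK` in `z, p, q`); it vanishes at the other `u` points: `≤ N - (n+2) u - 3` (`red`, and again generic in all the points by `PK`). Form `1`: double at the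
last `u` points, `0` at the first `u`: `≤ N - (n+2) u` (`WarS.SG`). Choose the points generic for both; the `v` functionals `∑ α_j f_j(y)` separate: `red`, `2 (N - (n+2) u) - 3 ≤ v`.
Then `TS2 = ⊥` is generic (`PK`, `PK.gen_bot`). -/
def S_TRC2 : Prop := ∀ n u v : ℕ, 1 ≤ n → n ≤ u → GG n 3 (u + 1) → (n + 1) * (u + 1) < NN n 3 →
  (n + 2) * u + 3 ≤ NN n 3 → 2 * NN n 3 ≤ (n + 2) * (2 * u) + (v + 3) →
  Gen ℂ fun x : ((Fin (2 * u) → Fin n → ℂ) × (Fin (2 * u) → Fin 2 → ℂ)) ×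
      ((Fin v → Fin n → ℂ) × (Fin v → Fin 2 → ℂ)) ×
      ((Fin n → ℂ) × (Fin n → ℂ) × (Fin 2 → ℂ)) =>
    TS2 n x.1.1 x.1.2 x.2.1.1 x.2.1.2 x.2.2.1 x.2.2.2.1 x.2.2.2.2 = ⊥

/-- `S_DHC` with the pair: same proof (`DHC.lean`), near points `Y ⊕ Fin 2`. The space `Z_t` gets the additional condition
`ecs p q β ρ + 2 (∑ β_j ρ_j(p) - ∑ β_j ρ_j(q)) = 0`. It follows for `t ≠ 0` from the others: multiply the conditions `∑_j β_j (∂_k ρ_j + ∂_(k+1) g_j(t, ·)) = 0` at `p` and at `q` by `q_k - p_k`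
and add; the quadric `φ(x) = ∑ β_j g_j(t, p + x (q - p))` has `φ'(0) + φ'(1) = 2 (φ(1) - φ(0))`, `φ(0) = - ∑ β_j ρ_j(p)`, `φ(1) = - ∑ β_j ρ_j(q)`. For `t = 0`: `∑ β_j ρ_j = 0` at `p` and `q`,
so `ecs p q β ρ = 0` and `ρ ∈ TS2 = ⊥`. (`two_points` and `tay` in `PERT.lean` may help for the quadric.) -/
def S_DHC2 : Prop := ∀ (n s : ℕ) (I U Y : Type) [Finite I] [Finite U] [Finite Y]
  (w : I → Fin (n + 1) → ℂ) (b : I → Fin s → ℂ) (z : U → Fin n → ℂ) (a : U → Fin s → ℂ)
  (y : Y → Fin n → ℂ) (α : Y → Fin s → ℂ) (p q : Fin n → ℂ) (β : Fin s → ℂ), (∀ i, w i 0 ≠ 0) →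
  TS2 n z a y α p q β = ⊥ →
  ∃ t : ℂ, finrank ℂ (FK (n + 1) 3
      (Sum.elim w (Sum.elim (fun i => hp (z i))
        fun i => (Fin.cons t (Sum.elim y (two p q) i) : Fin (n + 1) → ℂ)))
      (Sum.elim b (Sum.elim a (Sum.elim α fun _ => β)))) ≤
    finrank ℂ (RS n w b z a (Sum.elim y (two p q)) (Sum.elim α fun _ => β))

/-- `S_PERTH` where two points of the same type get the same vector; same proof (`PERTH.lean`) with `τ` equal at these two points and different otherwise. The midpoint of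
these two points is missing, so the bound for one of the spaces `V_(σ k)` and the final bound are larger by `1` (a functional lowers the dimension by at most one). -/
def S_PERTH2 : Prop := ∀ (n s w : ℕ) (I Y : Type) [Fintype I] [Fintype Y]
  (κ : I ⊕ (Y ⊕ Fin 2) → Fin s) (σ : Equiv.Perm (Fin s)), (∀ k, σ k ≠ k) →
  κ (Sum.inr (Sum.inr 0)) = κ (Sum.inr (Sum.inr 1)) →
  (∀ k, fib κ k + fib κ (σ k) ≤ n + 2) →
  (∀ k, fib (fun i : Y ⊕ Fin 2 => κ (Sum.inr i)) k +
    fib (fun i : Y ⊕ Fin 2 => κ (Sum.inr i)) (σ k) ≤ n + 1) →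
  (∀ k, ∃ i, κ (Sum.inl i) = k) →
  Fintype.card I + (Fintype.card Y + 2) + w = NN (n + 1) 2 →
  (∀ k, (n + 1) * fib κ (σ k) + (fib κ k).choose 2 ≤ w + (fib κ (σ k)).choose 2) →
  ∃ (z : I → Fin (n + 1) → ℂ) (y : Y → Fin n → ℂ) (p q : Fin n → ℂ) (b : I → Fin s → ℂ)
    (α : Y → Fin s → ℂ) (β : Fin s → ℂ),
    finrank ℂ (FK (n + 1) 2 (jn z (Sum.elim y (two p q))) (Sum.elim b (Sum.elim α fun _ => β))) ≤
      s * w - (n + 1) * (Fintype.card I + (Fintype.card Y + 2)) + 1

/-- `S_RESC` for a linear family of near points and vectors; same proof (`RESC.lean`), all `PK` statements are composed with `L` (`PK.comp`). -/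
def S_RESCL : Prop := ∀ (n s B : ℕ) (I U Y : Type) [Fintype I] [Fintype U] [Fintype Y]
  (X : Type) [AddCommGroup X] [Module ℂ X]
  (L : X →ₗ[ℂ] (Y → Fin n → ℂ) × (Y → Fin s → ℂ)), 1 ≤ s → s ≤ Fintype.card I →
  (∃ (z : I → Fin (n + 1) → ℂ) (b : I → Fin s → ℂ) (x : X),
    finrank ℂ (FK (n + 1) 2 (jn z (L x).1) (Sum.elim b (L x).2)) ≤ B) →
  Gen ℂ fun x : ((I → Fin (n + 1) → ℂ) × (I → Fin s → ℂ)) ×
      ((U → Fin n → ℂ) × (U → Fin s → ℂ)) × X =>
    finrank ℂ (RS n x.1.1 x.1.2 x.2.1.1 x.2.1.2 (L x.2.2).1 (L x.2.2).2) ≤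
      (B + Fintype.card Y) - Fintype.card U

end Pool.Agent.WarC


end

section

/-!
# Simultaneous Waring decompositions (MP_db021c_ag), cubics, `3 ≤ s ≤ n` forms: the induction   (helper25)
-/

set_option autoImplicit false

open Module MvPolynomial
open Pool.Agent.War Pool.Agent.WarS Pool.Agent.WarQ

namespace Pool.Agent.WarC

theorem FK_reindex {n d s : ℕ} {I J : Type} (e : J ≃ I) (z : I → Fin n → ℂ) (a : I → Fin s → ℂ) :
    FK n d (fun j => z (e j)) (fun j => a (e j)) = FK n d z a := by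
  ext f
  rw [mem_FK, mem_FK]
  constructor
  · rintro ⟨h1, h2⟩
    refine ⟨fun i j => ?_, fun i k => ?_⟩
    · have := h1 (e.symm i) j
      simpa using this
    · have := h2 (e.symm i) k
      simpa using this
  · rintro ⟨h1, h2⟩
    exact ⟨fun i j => h1 (e i) j, fun i k => h2 (e i) k⟩

theorem Full.of_type {n s h : ℕ} {I : Type} [Fintype I] (hI : Fintype.card I = h)
    (H : ∃ (z : I → Fin n → ℂ) (a : I → Fin s → ℂ),
      finrank ℂ (FK n 3 z a) ≤ s * NN n 3 - (n + s) * h) : Full n s h := by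
  obtain ⟨z, a, hza⟩ := H
  let e := (Fintype.equivFinOfCardEq hI).symm
  exact ⟨fun j => z (e j), fun j => a (e j), by rw [FK_reindex]; exact hza⟩

theorem stepC (hT : S_TRC) (hR : S_RESC) (hD : S_DHC) (hA : S_ARR) (hP : S_PERTH)
    {n s h U Y P : ℕ} (hn : 1 ≤ n) (hs : 2 ≤ s) (hF : Full n s U)
    (hUY : (n + s) * U + Y = s * NN n 3) (hh : P + U + Y = h) (hNC : NC (n + 1) s P Y) :
    Full (n + 1) s h := by
  classical
  obtain ⟨κ, σ, h1, h2, h3, h4, h5, h6⟩ := hA n s P Y hs hNC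
  set w : ℕ := NN (n + 1) 2 - (P + Y) with hw
  have hw' : Fintype.card (Fin P) + Fintype.card (Fin Y) + w = NN (n + 1) 2 := by
    simp only [Fintype.card_fin]
    omega
  have hcfg := hP n s w (Fin P) (Fin Y) κ σ h1 h2 h3 h4 hw' h6
  simp only [Fintype.card_fin] at hcfg
  have hPs : s ≤ Fintype.card (Fin P) := by
    have := Fintype.card_le_of_surjective (fun i : Fin P => κ (Sum.inl i)) h4
    simpa using this
  -- the sum of the conditions
  have hsum : (n + 1) * (P + Y) ≤ s * w := by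
    have e0 : ∑ k, fib κ k = P + Y := by
      have := Finset.card_eq_sum_card_fiberwise (s := (Finset.univ : Finset (Fin P ⊕ Fin Y)))
        (t := (Finset.univ : Finset (Fin s))) (f := κ) (fun _ _ => Finset.mem_coe.2 (Finset.mem_univ _))
      simpa [fib] using this.symm
    have e1 : ∑ k, fib κ (σ k) = P + Y := by
      rw [← e0]
      exact Equiv.sum_comp σ fun k => fib κ k
    have e2 : ∑ k, (fib κ (σ k)).choose 2 = ∑ k, (fib κ k).choose 2 :=
      Equiv.sum_comp σ fun k => (fib κ k).choose 2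
    have e3 := Finset.sum_le_sum fun k (_ : k ∈ (Finset.univ : Finset (Fin s))) => h6 k
    rw [Finset.sum_add_distrib, Finset.sum_add_distrib, ← Finset.mul_sum, e1, e2,
      Finset.sum_const, Finset.card_univ, Fintype.card_fin, smul_eq_mul] at e3
    exact Nat.le_of_add_le_add_right e3
  have gR := hR n s (s * w - (n + 1) * (P + Y)) (Fin P) (Fin U) (Fin Y) (by omega) hPs hcfg
  simp only [Fintype.card_fin] at gR
  have gT := (hT n s U Y hn hF hUY.symm.le).comp
    (LinearMap.snd ℂ ((Fin P → Fin (n + 1) → ℂ) × (Fin P → Fin s → ℂ))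
      (((Fin U → Fin n → ℂ) × (Fin U → Fin s → ℂ)) × ((Fin Y → Fin n → ℂ) × (Fin Y → Fin s → ℂ))))
    LinearMap.snd_surjective
  have gO := (gen_off (n := n) (I := Fin P)).comp
    ((LinearMap.fst ℂ (Fin P → Fin (n + 1) → ℂ) (Fin P → Fin s → ℂ)).comp
      (LinearMap.fst ℂ ((Fin P → Fin (n + 1) → ℂ) × (Fin P → Fin s → ℂ))
      (((Fin U → Fin n → ℂ) × (Fin U → Fin s → ℂ)) × ((Fin Y → Fin n → ℂ) × (Fin Y → Fin s → ℂ)))))
    (by
      rw [LinearMap.coe_comp]
      exact LinearMap.fst_surjective.comp LinearMap.fst_surjective)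
  obtain ⟨x, ⟨hx1, hx2⟩, hx3⟩ := ((gR.and gT).and gO).exists
  simp only [LinearMap.snd_apply, LinearMap.comp_apply, LinearMap.fst_apply] at hx2 hx3
  obtain ⟨t, ht⟩ := hD n s (Fin P) (Fin U) (Fin Y) x.1.1 x.1.2 x.2.1.1 x.2.1.2 x.2.2.1 x.2.2.2
    hx3 hx2
  refine Full.of_type (I := Fin P ⊕ (Fin U ⊕ Fin Y)) (by simp; omega) ⟨_, _, (ht.trans hx1).trans ?_⟩
  have hN : NN (n + 1) 3 = NN n 3 + NN (n + 1) 2 := NN_succ n 2
  have hsN : s * NN (n + 1) 3 = s * NN n 3 + s * (w + (P + Y)) := by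
    rw [hN, mul_add]
    congr 2
    omega
  have e4 : s * (w + (P + Y)) = s * w + s * P + s * Y := by ring
  have e5 : (n + 1 + s) * h = ((n + s) * U + Y) + (n + 1) * (P + Y) + s * P + s * Y + U - Y := by
    have : (n + 1 + s) * h + Y =
        ((n + s) * U + Y) + (n + 1) * (P + Y) + s * P + s * Y + U := by
      rw [← hh]
      ring
    omega
  rw [hsN, e5, e4, hUY]
  clear e5 e4 hsN
  have e6 : Y ≤ s * Y := Nat.le_mul_of_pos_left _ (by omega)
  generalize s * NN n 3 = A at *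
  generalize s * w = B at *
  generalize (n + 1) * (P + Y) = D at *
  omega

/-- the induction step -/
theorem AA_step (hT : S_TRC) (hR : S_RESC) (hD : S_DHC) (hA : S_ARR) (hP : S_PERTH)
    (hH : S_AAH) (hNa : S_NUMFa) (hNb : S_NUMFb) (hNc : S_NUMFc) (hE : S_EXF)
    {n s : ℕ} (hn : 1 ≤ n) (hs : 3 ≤ s) (hsn : s ≤ n + 1) (H : AA n s) : AA (n + 1) s := by
  have key : ∀ h, (h = s * NN (n + 1) 3 / (n + 1 + s) ∨
      h = (s * NN (n + 1) 3 + (n + 1 + s - 1)) / (n + 1 + s)) → Full (n + 1) s h := by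
    intro h hh
    by_cases hX : XF (n + 1) s h
    · rcases hX with ⟨h1, rfl, rfl⟩ | ⟨h1, rfl, rfl⟩ | ⟨h1, rfl, rfl⟩ | ⟨h1, rfl, rfl⟩
      · rw [h1]; exact hE.1
      · rw [h1]; exact hE.2.1
      · rw [h1]; exact hE.2.2.1
      · rw [h1]; exact hE.2.2.2
    · have hN : NF (n + 1) s h := by
        by_cases h45 : n + 1 < 45
        · exact hNa (n + 1) s h hs hsn h45 hh hX
        · by_cases h4 : 4 ≤ s
          · exact hNb (n + 1) s h h4 hsn (by omega) hh
          · have h3 : s = 3 := by omega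
            subst h3
            exact hNc (n + 1) h (by omega) hh
      obtain ⟨U, Y, P, e1, e2, e3⟩ := hN
      exact stepC hT hR hD hA hP hn (by omega) (H U) e1 e2 e3
  exact hH (n + 1) s (by omega) (key _ (Or.inl rfl)) (key _ (Or.inr rfl))

theorem AA23 (hT : S_TRC) (hR : S_RESC) (hD : S_DHC) (hA : S_ARR) (hP : S_PERTH)
    (hH : S_AAH) (h13 : S_AA13) : AA 2 3 := by
  have h6 : Full 2 3 6 := stepC (n := 1) (s := 3) (h := 6) (U := 3) (Y := 0) (P := 3)
    hT hR hD hA hP le_rfl (by norm_num) (h13 3) (by rw [NN_one]) rfl (by decide)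
  have e1 : 3 * NN 2 3 / (2 + 3) = 6 := by decide
  have e2 : (3 * NN 2 3 + (2 + 3 - 1)) / (2 + 3) = 6 := by decide
  exact hH 2 3 (by norm_num) (by rw [e1]; exact h6) (by rw [e2]; exact h6)

theorem AA_few (hT : S_TRC) (hR : S_RESC) (hD : S_DHC) (hA : S_ARR) (hP : S_PERTH)
    (hH : S_AAH) (hNa : S_NUMFa) (hNb : S_NUMFb) (hNc : S_NUMFc) (hE : S_EXF) (h13 : S_AA13)
    (hB : S_BASE) {s : ℕ} (hs : 3 ≤ s) : ∀ n, s ≤ n + 1 → AA n s := by
  intro n
  induction n with
  | zero => intro h; omega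
  | succ n ih =>
    intro h
    rcases Nat.lt_or_ge n (s - 1) with h1 | h1
    · have hn : s = n + 1 + 1 := by omega
      subst hn
      rcases Nat.lt_or_ge n 2 with h2 | h2
      · have h3 : n = 1 := by omega
        subst h3
        exact AA23 hT hR hD hA hP hH h13
      · exact hB (n + 1) (by omega)
    · exact AA_step hT hR hD hA hP hH hNa hNb hNc hE (by omega) hs (by omega) (ih (by omega))

end Pool.Agent.WarC


end

section

/-!
# MP_db021c_ag, WC_PERTH: the perturbation lemma for quadrics with points on the hyperplane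
-/

set_option autoImplicit false

open Module MvPolynomial
open Pool.Agent.War Pool.Agent.WarS Pool.Agent.WarQ

namespace Pool.Agent.WarC

namespace PERTHaux

/-- the space of quadrics attached to one form -/
noncomputable def VH (n : ℕ) {T : Type} (P Q : Finset T) (z : T → Fin n → ℂ) :
    Submodule ℂ (Pol n 2) :=
  Dbl n 2 P z ⊓ ⨅ q : {q : T × T // q.1 ∈ Q ∧ q.2 ∈ Q},
    LinearMap.ker (ev n 2 (mid (z q.1.1) (z q.1.2)))

theorem sum_fib {T : Type} [Fintype T] {s : ℕ} (κ : T → Fin s) :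
    ∑ k, fib κ k = Fintype.card T := by
  unfold fib
  rw [← Finset.card_univ]
  exact (Finset.card_eq_sum_card_fiberwise (f := κ) (s := Finset.univ) (t := Finset.univ)
    fun _ _ => Finset.mem_coe.2 (Finset.mem_univ _)).symm

theorem card_right {I Y : Type} [Fintype I] [Fintype Y] {s : ℕ} (κ : I ⊕ Y → Fin s) (k : Fin s) :
    ((Finset.univ.filter fun i => κ i = k).filter fun i => i.isRight = true).card =
      fib (fun i : Y => κ (Sum.inr i)) k := by
  classical
  unfold fib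
  rw [← Finset.card_map (⟨Sum.inr, Sum.inr_injective⟩ : Y ↪ I ⊕ Y)]
  congr 1
  ext x
  simp only [Finset.mem_filter, Finset.mem_univ, true_and, Finset.mem_map,
    Function.Embedding.coeFn_mk]
  constructor
  · rintro ⟨h1, h2⟩
    rcases x with i | y
    · simp at h2
    · exact ⟨y, h1, rfl⟩
  · rintro ⟨y, h1, rfl⟩
    exact ⟨h1, rfl⟩

end PERTHaux

open _root_.Pool.Agent.WarC.PERTHaux PERTaux in
theorem x_PERTH (hU : S_UKH) : S_PERTH := by
  classical
  intro n s w I Y _ _ κ σ hσ hr hrY hex hw hineq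
  -- the points
  have hgen : Gen ℂ fun x : (I → Fin (n + 1) → ℂ) × (Y → Fin n → ℂ) =>
      ∀ k : Fin s, finrank ℂ (VH (n + 1) (Finset.univ.filter fun i => κ i = σ k)
        (Finset.univ.filter fun i => κ i = k) (jn x.1 x.2)) ≤ w + (fib κ (σ k)).choose 2 -
        ((n + 1) * fib κ (σ k) + (fib κ k).choose 2) := by
    refine Gen.forall fun k => ?_
    have hd : Disjoint (Finset.univ.filter fun i => κ i = σ k)
        (Finset.univ.filter fun i => κ i = k) := by
      rw [Finset.disjoint_left]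
      intro i h1 h2
      rw [Finset.mem_filter] at h1 h2
      exact hσ k (h1.2.symm.trans h2.2)
    have hc : (Finset.univ.filter fun i => κ i = σ k).card +
        (Finset.univ.filter fun i => κ i = k).card ≤ n + 2 := by
      have := hr k
      unfold fib at this
      omega
    have hcY : ((Finset.univ.filter fun i => κ i = σ k).filter fun i => i.isRight = true).card +
        ((Finset.univ.filter fun i => κ i = k).filter fun i => i.isRight = true).card ≤
        n + 1 := by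
      rw [card_right, card_right]
      have := hrY k
      omega
    have he : ∃ i, Sum.inl i ∈ (Finset.univ.filter fun i => κ i = σ k) := by
      obtain ⟨i, hi⟩ := hex (σ k)
      exact ⟨i, Finset.mem_filter.2 ⟨Finset.mem_univ _, hi⟩⟩
    refine (hU n I Y _ _ hd hc hcY he).mono fun x hx => hx.trans ?_
    change NN (n + 1) 2 + (fib κ (σ k)).choose 2 - ((n + 1) * fib κ (σ k) +
      (Fintype.card I + Fintype.card Y) + (fib κ k).choose 2) ≤ _
    omega
  obtain ⟨x, hx⟩ := hgen.exists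
  obtain ⟨z, y⟩ := x
  dsimp only at hx
  obtain ⟨zz, hzz⟩ : ∃ zz : I ⊕ Y → Fin (n + 1) → ℂ, zz = jn z y := ⟨_, rfl⟩
  rw [← hzz] at hx
  -- the vectors
  let τ : I ⊕ Y → ℂ := fun i => ((Fintype.equivFin (I ⊕ Y) i : ℕ) : ℂ)
  have hτ : ∀ i i', τ i = τ i' → i = i' := by
    intro i i' h
    have h1 : ((Fintype.equivFin (I ⊕ Y) i : ℕ) : ℂ) = ((Fintype.equivFin (I ⊕ Y) i' : ℕ) : ℂ) := h
    exact (Fintype.equivFin (I ⊕ Y)).injective (Fin.ext (by exact_mod_cast h1))
  let A0 : I ⊕ Y → Fin s → ℂ := fun i => Pi.single (κ i) 1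
  let A1 : I ⊕ Y → Fin s → ℂ := fun i => τ i • Pi.single (σ (κ i)) 1
  let L : ℂ →ₗ[ℂ] (I ⊕ Y → Fin (n + 1) → ℂ) × (I ⊕ Y → Fin s → ℂ) :=
    LinearMap.toSpanSingleton ℂ _ (0, A1)
  have hLε : ∀ ε : ℂ, L ε + (zz, A0) = (zz, fun i j => (Pi.single (κ i) 1 : Fin s → ℂ) j +
      (ε * τ i) * (Pi.single (σ (κ i)) 1 : Fin s → ℂ) j) := by
    intro ε
    refine Prod.ext ?_ ?_
    · change ε • (0 : I ⊕ Y → Fin (n + 1) → ℂ) + zz = zz
      rw [smul_zero, zero_add]
    · funext i j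
      change ε * (τ i * (Pi.single (σ (κ i)) 1 : Fin s → ℂ) j) +
        (Pi.single (κ i) 1 : Fin s → ℂ) j = _
      ring
  let Z : ℂ → Submodule ℂ (Fin s → Pol (n + 1) 2) := fun ε =>
    FK (n + 1) 2 (L ε + (zz, A0)).1 (L ε + (zz, A0)).2 ⊓
    ⨅ q : {q : (I ⊕ Y) × (I ⊕ Y) // κ q.1 = κ q.2}, LinearMap.ker
      ((ev (n + 1) 2 (mid (zz q.1.1) (zz q.1.2))).comp
        (LinearMap.proj (σ (κ q.1.1)) : (Fin s → Pol (n + 1) 2) →ₗ[ℂ] Pol (n + 1) 2))
  have hPK : PK Z := by
    refine ((PK_FK (n + 1) 2).comp_affine L (zz, A0)).inf (PK.iInf fun q => ?_)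
    refine PK.one (φ := fun _ : ℂ =>
      ((ev (n + 1) 2 (mid (zz q.1.1) (zz q.1.2))).comp
        (LinearMap.proj (σ (κ q.1.1)) : (Fin s → Pol (n + 1) 2) →ₗ[ℂ] Pol (n + 1) 2)))
      fun v => LP.const _
  have hmem : ∀ (ε : ℂ) (f : Fin s → Pol (n + 1) 2),
      f ∈ FK (n + 1) 2 (L ε + (zz, A0)).1 (L ε + (zz, A0)).2 ↔
      (∀ i j, eval (zz i) (f j : MvPolynomial (Fin (n + 1)) ℂ) = 0) ∧
      ∀ (i : I ⊕ Y) (v : Fin (n + 1)),
        eval (zz i) (pderiv v (f (κ i) : MvPolynomial (Fin (n + 1)) ℂ)) + (ε * τ i) *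
          eval (zz i) (pderiv v (f (σ (κ i)) : MvPolynomial (Fin (n + 1)) ℂ)) = 0 := by
    intro ε f
    rw [hLε, mem_FK]
    refine and_congr_right fun _ => ⟨fun h i v => ?_, fun h i v => ?_⟩
    · have := h i v
      rw [sum_two] at this
      exact this
    · rw [sum_two]
      exact h i v
  have hZ : ∀ (ε : ℂ) (f : Fin s → Pol (n + 1) 2), f ∈ Z ε ↔
      f ∈ FK (n + 1) 2 (L ε + (zz, A0)).1 (L ε + (zz, A0)).2 ∧
      ∀ i i' : I ⊕ Y, κ i = κ i' → eval (mid (zz i) (zz i'))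
        (f (σ (κ i)) : MvPolynomial (Fin (n + 1)) ℂ) = 0 := by
    intro ε f
    rw [Submodule.mem_inf, Submodule.mem_iInf]
    refine and_congr_right fun _ => ⟨fun h i i' hii => ?_, fun h q => ?_⟩
    · have := h ⟨(i, i'), hii⟩
      rw [LinearMap.mem_ker, LinearMap.comp_apply, ev_apply] at this
      exact this
    · rw [LinearMap.mem_ker, LinearMap.comp_apply, ev_apply]
      exact h q.1.1 q.1.2 q.2
  -- the dimension for `ε = 0`
  have h0 : finrank ℂ (Z 0) ≤ s * w - (n + 1) * (Fintype.card I + Fintype.card Y) := by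
    have h1 : Z 0 ≤ Submodule.pi Set.univ fun m =>
        VH (n + 1) (Finset.univ.filter fun i => κ i = σ (σ.symm m))
          (Finset.univ.filter fun i => κ i = σ.symm m) zz := by
      intro f hf
      obtain ⟨hf1, hf2⟩ := (hZ 0 f).1 hf
      obtain ⟨hf3, hf4⟩ := (hmem 0 f).1 hf1
      refine Submodule.mem_pi.2 fun m _ => ?_
      obtain ⟨k, rfl⟩ := σ.surjective m
      rw [Equiv.symm_apply_apply]
      refine Submodule.mem_inf.2 ⟨mem_Dbl.2 ⟨fun i => hf3 i _, fun i hi v => ?_⟩, ?_⟩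
      · rw [Finset.mem_filter] at hi
        have := hf4 i v
        rw [zero_mul, zero_mul, add_zero, hi.2] at this
        exact this
      · refine (Submodule.mem_iInf _).2 fun q => ?_
        rw [LinearMap.mem_ker, ev_apply]
        have q1 := (Finset.mem_filter.1 q.2.1).2
        have q2 := (Finset.mem_filter.1 q.2.2).2
        have := hf2 q.1.1 q.1.2 (q1.trans q2.symm)
        rwa [q1] at this
    refine (Submodule.finrank_mono h1).trans ((finrank_pi_leC1 _).trans ?_)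
    refine (Finset.sum_le_sum fun m _ => hx (σ.symm m)).trans ?_
    rw [Equiv.sum_comp σ.symm fun k => w + (fib κ (σ k)).choose 2 -
      ((n + 1) * fib κ (σ k) + (fib κ k).choose 2)]
    have h2 : ∑ k, (w + (fib κ (σ k)).choose 2 -
          ((n + 1) * fib κ (σ k) + (fib κ k).choose 2)) +
        ∑ k, ((n + 1) * fib κ (σ k) + (fib κ k).choose 2) =
        ∑ k, (w + (fib κ (σ k)).choose 2) := by
      rw [← Finset.sum_add_distrib]
      exact Finset.sum_congr rfl fun k _ => Nat.sub_add_cancel (hineq k)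
    rw [Finset.sum_add_distrib, Finset.sum_add_distrib,
      Equiv.sum_comp σ fun k => (fib κ k).choose 2,
      Equiv.sum_comp σ fun k => (n + 1) * fib κ k, ← Finset.mul_sum, Finset.sum_const,
      Finset.card_univ, Fintype.card_fin, smul_eq_mul, sum_fib, Fintype.card_sum] at h2
    omega
  obtain ⟨ε, hε1, hε2⟩ := ((hPK.gen_finrank h0).and
    (Gen.ne (LP.linear (K := ℂ) LinearMap.id) 1 (by simp))).exists
  have hε : ε ≠ 0 := hε2
  refine ⟨z, y, (L ε + (zz, A0)).2, ?_⟩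
  rw [← hzz]
  have hfst : (L ε + (zz, A0)).1 = zz := by rw [hLε]
  refine (Submodule.finrank_mono ?_).trans hε1
  intro f hf
  have hf' : f ∈ FK (n + 1) 2 (L ε + (zz, A0)).1 (L ε + (zz, A0)).2 := by
    rw [hfst]
    exact hf
  obtain ⟨hf1, hf2⟩ := (hmem ε f).1 hf'
  refine (hZ ε f).2 ⟨hf', fun i i' hk => ?_⟩
  by_cases hii : i = i'
  · subst hii
    have : mid (zz i) (zz i) = zz i := by
      funext v
      simp only [mid]
      ring
    rw [this]
    exact hf1 _ _
  · obtain ⟨a1, a2⟩ := two_points (f (σ (κ i)) : MvPolynomial (Fin (n + 1)) ℂ)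
      (mem_Pol.1 (f (σ (κ i))).2) (zz i) (zz i') (hf1 _ _) (hf1 _ _)
    obtain ⟨-, b2⟩ := two_points (f (κ i) : MvPolynomial (Fin (n + 1)) ℂ)
      (mem_Pol.1 (f (κ i)).2) (zz i) (zz i') (hf1 _ _) (hf1 _ _)
    have s1 : ∑ v, eval (zz i) (pderiv v (f (κ i) : MvPolynomial (Fin (n + 1)) ℂ)) *
        (zz i' v - zz i v) + (ε * τ i) *
        ∑ v, eval (zz i) (pderiv v (f (σ (κ i)) : MvPolynomial (Fin (n + 1)) ℂ)) *
        (zz i' v - zz i v) = 0 := by
      rw [Finset.mul_sum, ← Finset.sum_add_distrib]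
      refine Finset.sum_eq_zero fun v _ => ?_
      linear_combination (zz i' v - zz i v) * hf2 i v
    have s2 : ∑ v, eval (zz i') (pderiv v (f (κ i) : MvPolynomial (Fin (n + 1)) ℂ)) *
        (zz i' v - zz i v) + (ε * τ i') *
        ∑ v, eval (zz i') (pderiv v (f (σ (κ i)) : MvPolynomial (Fin (n + 1)) ℂ)) *
        (zz i' v - zz i v) = 0 := by
      rw [Finset.mul_sum, ← Finset.sum_add_distrib]
      refine Finset.sum_eq_zero fun v _ => ?_
      have := hf2 i' v
      rw [← hk] at this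
      linear_combination (zz i' v - zz i v) * this
    rw [a2, b2] at s2
    have hne : ε * (τ i - τ i') ≠ 0 :=
      mul_ne_zero hε (sub_ne_zero.2 fun h => hii (hτ i i' h))
    have s3 : (ε * (τ i - τ i')) *
        ∑ v, eval (zz i) (pderiv v (f (σ (κ i)) : MvPolynomial (Fin (n + 1)) ℂ)) *
        (zz i' v - zz i v) = 0 := by
      linear_combination s1 + s2
    rw [a1, (mul_eq_zero.1 s3).resolve_left hne, zero_div]

end Pool.Agent.WarC


end

section

/-!
# ARR: the types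
-/

set_option autoImplicit false

open Pool.Agent.War Pool.Agent.WarS Pool.Agent.WarQ

namespace Pool.Agent.WarC

namespace ARRaux

theorem NN_two'' (n : ℕ) : NN n 2 = (n + 1) * (n + 2) / 2 := by
  have h : 2 * NN n 2 = (n + 1) * (n + 2) := by
    induction n with
    | zero => simp
    | succ n ih =>
      rw [NN_succ, NN_right_one]
      linarith
  omega

/-- a map with given fibres -/
theorem exists_fib {s : ℕ} (g : Fin s → ℕ) (N : ℕ) (h : ∑ k, g k = N) :
    ∃ κ : Fin N → Fin s, ∀ k, fib κ k = g k := by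
  classical
  have hc : Fintype.card (Fin N) = Fintype.card (Σ k : Fin s, Fin (g k)) := by
    rw [Fintype.card_sigma]
    simp [h]
  let e : Fin N ≃ Σ k : Fin s, Fin (g k) := Fintype.equivOfCardEq hc
  refine ⟨fun i => (e i).1, fun k => ?_⟩
  unfold fib
  have h1 : (Finset.univ.filter fun i : Fin N => (e i).1 = k).card =
      (Finset.univ.filter fun x : Σ k : Fin s, Fin (g k) => x.1 = k).card := by
    refine Finset.card_bij (fun i _ => e i) ?_ ?_ ?_
    · intro i hi
      simpa using hi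
    · intro i _ j _ hij
      exact e.injective hij
    · intro x hx
      refine ⟨e.symm x, ?_, by simp⟩
      simpa using hx
  rw [h1]
  have h2 : (Finset.univ.filter fun x : Σ k : Fin s, Fin (g k) => x.1 = k).card =
      (Finset.univ : Finset (Fin (g k))).card := by
    symm
    refine Finset.card_bij (fun i _ => (⟨k, i⟩ : Σ k : Fin s, Fin (g k))) ?_ ?_ ?_
    · intro i _
      simp
    · intro i _ j _ hij
      simpa using hij
    · rintro ⟨x, i⟩ hx
      simp only [Finset.mem_filter, Finset.mem_univ, true_and] at hx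
      subst hx
      exact ⟨i, Finset.mem_univ _, rfl⟩
  rw [h2]
  simp

theorem fib_elim {P Y s : ℕ} (f : Fin P → Fin s) (g : Fin Y → Fin s) (k : Fin s) :
    fib (Sum.elim f g) k = fib f k + fib g k := by
  unfold fib
  rw [Finset.card_filter, Finset.card_filter, Finset.card_filter, Fintype.sum_sum_type]
  rfl

/-- the fibres of the even distribution -/
def ev' (s T : ℕ) (k : Fin s) : ℕ := T / s + if (k : ℕ) < T % s then 1 else 0

theorem sum_ev {s : ℕ} (hs : 1 ≤ s) (T : ℕ) : ∑ k, ev' s T k = T := by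
  unfold ev'
  rw [Finset.sum_add_distrib, Finset.sum_const, Finset.card_univ, Fintype.card_fin, smul_eq_mul]
  have h : ∑ k : Fin s, (if (k : ℕ) < T % s then 1 else 0) = T % s := by
    rw [Fin.sum_univ_eq_sum_range (fun k => if k < T % s then 1 else 0) s]
    rw [← Finset.card_filter]
    have h1 : (Finset.range s).filter (fun k => k < T % s) = Finset.range (T % s) := by
      ext k
      simp only [Finset.mem_filter, Finset.mem_range]
      have := Nat.mod_lt T hs
      omega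
    rw [h1, Finset.card_range]
  rw [h]
  exact Nat.div_add_mod T s

theorem choose_succ_two (t : ℕ) : (t + 1).choose 2 = t.choose 2 + t := by
  have h := Nat.choose_succ_succ' t 1
  rw [Nat.choose_one_right] at h
  have e : 1 + 1 = 2 := rfl
  rw [e] at h
  omega

end ARRaux

open _root_.Pool.Agent.WarC.ARRaux

/-- MODULE ARR -/
theorem x_ARR : S_ARR := by
  intro n s P Y hs hNC
  obtain ⟨h1, h2, h3, h4⟩ := hNC
  have hN : NN (n + 1) 2 = (n + 1 + 1) * (n + 1 + 2) / 2 := NN_two'' (n + 1)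
  rw [← hN] at h1 h4
  set N := NN (n + 1) 2 with hNdef
  have hle : ∀ k : Fin s, ev' s Y k + 1 ≤ ev' s (P + Y) k := by
    intro k
    unfold ev'
    rcases h2 with ⟨h2a, h2b⟩ | h2
    · split_ifs <;> omega
    · split_ifs <;> omega
  obtain ⟨f, hf⟩ := exists_fib (fun k : Fin s => ev' s (P + Y) k - ev' s Y k) P (by
    have hA := sum_ev (s := s) (by omega) (P + Y)
    have hB := sum_ev (s := s) (by omega) Y
    have hC : ∑ k : Fin s, (ev' s (P + Y) k - ev' s Y k) + ∑ k : Fin s, ev' s Y k =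
        ∑ k : Fin s, ev' s (P + Y) k := by
      rw [← Finset.sum_add_distrib]
      refine Finset.sum_congr rfl fun k _ => ?_
      have := hle k
      omega
    omega)
  obtain ⟨g, hg⟩ := exists_fib (fun k : Fin s => ev' s Y k) Y (sum_ev (by omega) Y)
  have hfib : ∀ k, fib (Sum.elim f g) k = ev' s (P + Y) k := by
    intro k
    rw [fib_elim, hf, hg]
    have := hle k
    omega
  have hrot : ∀ k : Fin s, finRotate s k ≠ k := by
    intro k
    obtain ⟨m, rfl⟩ : ∃ m, s = m + 2 := ⟨s - 2, by omega⟩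
    rw [finRotate_apply]
    intro h
    have := congrArg Fin.val h
    have h5 : ((1 : Fin (m + 2)) : ℕ) = 1 := by simp
    rw [Fin.val_add, h5] at this
    have hk := k.2
    rcases Nat.lt_or_ge ((k : ℕ) + 1) (m + 2) with h6 | h6
    · rw [Nat.mod_eq_of_lt h6] at this
      omega
    · have h7 : (k : ℕ) + 1 = m + 2 := by omega
      rw [h7, Nat.mod_self] at this
      omega
  -- values
  set t := (P + Y) / s with ht
  set c := (P + Y) % s with hc
  have hval : ∀ k : Fin s, ev' s (P + Y) k = t + if (k : ℕ) < c then 1 else 0 := fun k => rfl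
  have hne : ∀ k : Fin s, ¬ (c = 1 ∧ (k : ℕ) < c ∧ (finRotate s k : ℕ) < c) := by
    rintro k ⟨h5, h6, h7⟩
    apply hrot k
    apply Fin.ext
    omega
  refine ⟨Sum.elim f g, finRotate s, hrot, ?_, ?_, ?_, h1, ?_⟩
  · intro k
    rw [hfib, hfib, hval, hval]
    have := hne k
    split_ifs <;> omega
  · intro k
    have e1 : (fun i : Fin Y => (Sum.elim f g : Fin P ⊕ Fin Y → Fin s) (Sum.inr i)) = g := rfl
    rw [e1, hg, hg]
    have h5 := hle k
    have h6 := hle (finRotate s k)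
    rw [hval] at h5 h6
    have := hne k
    split_ifs at h5 h6 <;> omega
  · intro k
    have h5 : 0 < fib f k := by
      rw [hf]
      have := hle k
      omega
    unfold fib at h5
    rw [Finset.card_pos] at h5
    obtain ⟨i, hi⟩ := h5
    refine ⟨i, ?_⟩
    simpa using hi
  · intro k
    rw [hfib, hfib, hval, hval]
    have hk := hne k
    have e2 := choose_succ_two t
    have e3 : (n + 1) * (t + 1) = (n + 1) * t + (n + 1) := by ring
    have e4 : (n + 1 + 1) * t = (n + 1) * t + t := by ring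
    rw [e3, e4] at h4
    by_cases hk1 : (k : ℕ) < c
    · by_cases hk2 : (finRotate s k : ℕ) < c
      · rw [if_pos hk1, if_pos hk2, e3]
        omega
      · rw [if_pos hk1, if_neg hk2, e2, add_zero]
        omega
    · by_cases hk2 : (finRotate s k : ℕ) < c
      · rw [if_neg hk1, if_pos hk2, e3, e2, add_zero]
        omega
      · rw [if_neg hk1, if_neg hk2, add_zero]
        omega

end Pool.Agent.WarC


end

section

/-!
# MP_db021c_ag, cubics: the trace space is zero for general points (`S_TRC`)   (helper50)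
-/

set_option autoImplicit false

open Module MvPolynomial
open Pool.Agent.War Pool.Agent.WarS Pool.Agent.WarQ

namespace Pool.Agent.WarC

namespace TRCaux

/-- the values of the functionals `om` are polynomial along lines -/
theorem LP_om (n d : ℕ) {s : ℕ} {V : Type} (i : V) (f : Fin s → Pol n d) :
    LP (K := ℂ) fun x : (V → Fin n → ℂ) × (V → Fin s → ℂ) => om n d (x.1 i) (x.2 i) f := by
  simp only [om_apply]
  refine LP.sum _ fun j _ => LP.mul ?_ ?_
  · exact ((LP_coord (n := s) j).comp_linear (pt (I := V) i)).comp_linear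
      (LinearMap.snd ℂ (V → Fin n → ℂ) (V → Fin s → ℂ))
  · exact ((LP_eval (f j : MvPolynomial (Fin n) ℂ)).comp_linear (pt (I := V) i)).comp_linear
      (LinearMap.fst ℂ (V → Fin n → ℂ) (V → Fin s → ℂ))

theorem PK_TS (n : ℕ) {s : ℕ} {U V : Type} [Fintype U] [Fintype V] :
    PK (K := ℂ) fun x : ((U → Fin n → ℂ) × (U → Fin s → ℂ)) ×
      ((V → Fin n → ℂ) × (V → Fin s → ℂ)) => TS n x.1.1 x.1.2 x.2.1 x.2.2 := by
  refine PK.inf ((PK_FK n 3 (s := s) (I := U)).comp (LinearMap.fst ℂ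
    ((U → Fin n → ℂ) × (U → Fin s → ℂ)) ((V → Fin n → ℂ) × (V → Fin s → ℂ))))
    (PK.iInf fun i => PK.one (φ := fun x : ((U → Fin n → ℂ) × (U → Fin s → ℂ)) ×
      ((V → Fin n → ℂ) × (V → Fin s → ℂ)) => om n 3 (x.2.1 i) (x.2.2 i)) fun f => ?_)
  exact (LP_om n 3 i f).comp_linear (LinearMap.snd ℂ
    ((U → Fin n → ℂ) × (U → Fin s → ℂ)) ((V → Fin n → ℂ) × (V → Fin s → ℂ)))

theorem exists_om {n d s : ℕ} {w : Fin s → Pol n d} (hw : w ≠ 0) :
    ∃ y : (Fin n → ℂ) × (Fin s → ℂ), om n d y.1 y.2 w ≠ 0 := by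
  by_contra hcon
  push Not at hcon
  apply hw
  funext j
  apply Subtype.ext
  refine MvPolynomial.funext fun p => ?_
  have h := hcon (p, Pi.single j 1)
  rw [om_apply] at h
  simpa [Pi.single_apply] using h

end TRCaux

open _root_.Pool.Agent.WarC.TRCaux

theorem x_TRC : S_TRC := by
  intro n s u v _ hF hnum
  obtain ⟨z, a, hza⟩ := hF
  obtain ⟨y, hy⟩ := red (fun y : (Fin n → ℂ) × (Fin s → ℂ) => om n 3 y.1 y.2) (FK n 3 z a) ⊥
    (fun w _ hw => exists_om fun h => hw (by rw [h]; exact Submodule.zero_mem _)) v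
  have h0 : finrank ℂ (⊥ : Submodule ℂ (Fin s → Pol n 3)) = 0 := finrank_bot _ _
  refine (PK_TS n).gen_bot (x₀ := ((z, a), (fun i => (y i).1, fun i => (y i).2))) ?_
  apply Submodule.finrank_eq_zero.1
  refine Nat.le_zero.1 (hy.trans ?_)
  rw [h0, Nat.max_zero]
  omega

end Pool.Agent.WarC


end

section

/-!
# MP_db021c_ag, WC_PERTH2: the perturbation lemma for quadrics with points on the hyperplane, where two
points of the same type get the same vector
-/

set_option autoImplicit false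

open Module MvPolynomial
open Pool.Agent.War Pool.Agent.WarS Pool.Agent.WarQ

namespace Pool.Agent.WarC

namespace PERTH2aux

theorem mid_comm {n : ℕ} (z z' : Fin n → ℂ) : mid z z' = mid z' z := by
  funext v
  simp only [mid]
  ring

theorem elim_two {Y A : Type} (y : Y ⊕ Fin 2 → A) :
    Sum.elim (fun i => y (Sum.inl i)) (two (y (Sum.inr 0)) (y (Sum.inr 1))) = y := by
  funext i
  rcases i with i | i
  · rfl
  · fin_cases i <;> rfl

/-- one functional lowers the dimension by at most one -/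
theorem finrank_le_one {V : Type} [AddCommGroup V] [Module ℂ V] [FiniteDimensional ℂ V]
    (φ : V →ₗ[ℂ] ℂ) (Z : Submodule ℂ V) :
    finrank ℂ Z ≤ finrank ℂ ↥(Z ⊓ LinearMap.ker φ) + 1 := by
  have h := finrank_le_map_add_ker φ Z
  have h1 : finrank ℂ (Z.map φ) ≤ 1 := by
    have := Submodule.finrank_le (Z.map φ)
    rwa [Module.finrank_self] at this
  omega

end PERTH2aux

open _root_.Pool.Agent.WarC.PERTH2aux PERTHaux PERTaux in
theorem x_PERTH2 (hU : S_UKH) : S_PERTH2 := by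
  classical
  intro n s w I Y _ _ κ σ hσ hκ01 hr hrY hex hw hineq
  have hcardY : Fintype.card (Y ⊕ Fin 2) = Fintype.card Y + 2 := by
    rw [Fintype.card_sum, Fintype.card_fin]
  -- the points
  have hgen : Gen ℂ fun x : (I → Fin (n + 1) → ℂ) × ((Y ⊕ Fin 2) → Fin n → ℂ) =>
      ∀ k : Fin s, finrank ℂ (VH (n + 1) (Finset.univ.filter fun i => κ i = σ k)
        (Finset.univ.filter fun i => κ i = k) (jn x.1 x.2)) ≤ w + (fib κ (σ k)).choose 2 -
        ((n + 1) * fib κ (σ k) + (fib κ k).choose 2) := by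
    refine Gen.forall fun k => ?_
    have hd : Disjoint (Finset.univ.filter fun i => κ i = σ k)
        (Finset.univ.filter fun i => κ i = k) := by
      rw [Finset.disjoint_left]
      intro i h1 h2
      rw [Finset.mem_filter] at h1 h2
      exact hσ k (h1.2.symm.trans h2.2)
    have hc : (Finset.univ.filter fun i => κ i = σ k).card +
        (Finset.univ.filter fun i => κ i = k).card ≤ n + 2 := by
      have := hr k
      unfold fib at this
      omega
    have hcY : ((Finset.univ.filter fun i => κ i = σ k).filter fun i => i.isRight = true).card +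
        ((Finset.univ.filter fun i => κ i = k).filter fun i => i.isRight = true).card ≤
        n + 1 := by
      rw [card_right, card_right]
      have := hrY k
      omega
    have he : ∃ i, Sum.inl i ∈ (Finset.univ.filter fun i => κ i = σ k) := by
      obtain ⟨i, hi⟩ := hex (σ k)
      exact ⟨i, Finset.mem_filter.2 ⟨Finset.mem_univ _, hi⟩⟩
    refine (hU n I (Y ⊕ Fin 2) _ _ hd hc hcY he).mono fun x hx => hx.trans ?_
    change NN (n + 1) 2 + (fib κ (σ k)).choose 2 - ((n + 1) * fib κ (σ k) +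
      (Fintype.card I + Fintype.card (Y ⊕ Fin 2)) + (fib κ k).choose 2) ≤ _
    omega
  obtain ⟨x, hx⟩ := hgen.exists
  obtain ⟨z, y⟩ := x
  dsimp only at hx
  obtain ⟨zz, hzz⟩ : ∃ zz : I ⊕ (Y ⊕ Fin 2) → Fin (n + 1) → ℂ, zz = jn z y := ⟨_, rfl⟩
  rw [← hzz] at hx
  -- the vectors
  obtain ⟨t0, ht0⟩ : ∃ t : I ⊕ (Y ⊕ Fin 2), t = Sum.inr (Sum.inr 0) := ⟨_, rfl⟩
  obtain ⟨t1, ht1⟩ : ∃ t : I ⊕ (Y ⊕ Fin 2), t = Sum.inr (Sum.inr 1) := ⟨_, rfl⟩
  rw [← ht0, ← ht1] at hκ01
  let τ0 : I ⊕ (Y ⊕ Fin 2) → ℂ := fun i => ((Fintype.equivFin (I ⊕ (Y ⊕ Fin 2)) i : ℕ) : ℂ)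
  have hτ0 : ∀ i i', τ0 i = τ0 i' → i = i' := by
    intro i i' h
    have h1 : ((Fintype.equivFin (I ⊕ (Y ⊕ Fin 2)) i : ℕ) : ℂ) =
      ((Fintype.equivFin (I ⊕ (Y ⊕ Fin 2)) i' : ℕ) : ℂ) := h
    exact (Fintype.equivFin (I ⊕ (Y ⊕ Fin 2))).injective (Fin.ext (by exact_mod_cast h1))
  obtain ⟨τ, hτd⟩ : ∃ τ : I ⊕ (Y ⊕ Fin 2) → ℂ, τ = fun i => if i = t1 then τ0 t0 else τ0 i :=
    ⟨_, rfl⟩
  have hτ01 : τ t1 = τ t0 := by
    rw [hτd]
    simp
  have hτ : ∀ i i', τ i = τ i' → i = i' ∨ (i = t0 ∧ i' = t1) ∨ (i = t1 ∧ i' = t0) := by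
    intro i i' h
    rw [hτd] at h
    dsimp only at h
    by_cases h1 : i = t1
    · by_cases h2 : i' = t1
      · exact Or.inl (h1.trans h2.symm)
      · rw [if_pos h1, if_neg h2] at h
        exact Or.inr (Or.inr ⟨h1, (hτ0 _ _ h).symm⟩)
    · by_cases h2 : i' = t1
      · rw [if_neg h1, if_pos h2] at h
        exact Or.inr (Or.inl ⟨hτ0 _ _ h, h2⟩)
      · rw [if_neg h1, if_neg h2] at h
        exact Or.inl (hτ0 _ _ h)
  let A0 : I ⊕ (Y ⊕ Fin 2) → Fin s → ℂ := fun i => Pi.single (κ i) 1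
  let A1 : I ⊕ (Y ⊕ Fin 2) → Fin s → ℂ := fun i => τ i • Pi.single (σ (κ i)) 1
  let L : ℂ →ₗ[ℂ] (I ⊕ (Y ⊕ Fin 2) → Fin (n + 1) → ℂ) × (I ⊕ (Y ⊕ Fin 2) → Fin s → ℂ) :=
    LinearMap.toSpanSingleton ℂ _ (0, A1)
  have hLε : ∀ ε : ℂ, L ε + (zz, A0) = (zz, fun i j => (Pi.single (κ i) 1 : Fin s → ℂ) j +
      (ε * τ i) * (Pi.single (σ (κ i)) 1 : Fin s → ℂ) j) := by
    intro ε
    refine Prod.ext ?_ ?_
    · change ε • (0 : I ⊕ (Y ⊕ Fin 2) → Fin (n + 1) → ℂ) + zz = zz
      rw [smul_zero, zero_add]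
    · funext i j
      change ε * (τ i * (Pi.single (σ (κ i)) 1 : Fin s → ℂ) j) +
        (Pi.single (κ i) 1 : Fin s → ℂ) j = _
      ring
  let Z : ℂ → Submodule ℂ (Fin s → Pol (n + 1) 2) := fun ε =>
    FK (n + 1) 2 (L ε + (zz, A0)).1 (L ε + (zz, A0)).2 ⊓
    ⨅ q : {q : (I ⊕ (Y ⊕ Fin 2)) × (I ⊕ (Y ⊕ Fin 2)) // κ q.1 = κ q.2 ∧
      ¬(q.1 = t0 ∧ q.2 = t1) ∧ ¬(q.1 = t1 ∧ q.2 = t0)}, LinearMap.ker
      ((ev (n + 1) 2 (mid (zz q.1.1) (zz q.1.2))).comp
        (LinearMap.proj (σ (κ q.1.1)) : (Fin s → Pol (n + 1) 2) →ₗ[ℂ] Pol (n + 1) 2))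
  have hPK : PK Z := by
    refine ((PK_FK (n + 1) 2).comp_affine L (zz, A0)).inf (PK.iInf fun q => ?_)
    refine PK.one (φ := fun _ : ℂ =>
      ((ev (n + 1) 2 (mid (zz q.1.1) (zz q.1.2))).comp
        (LinearMap.proj (σ (κ q.1.1)) : (Fin s → Pol (n + 1) 2) →ₗ[ℂ] Pol (n + 1) 2)))
      fun v => LP.const _
  have hmem : ∀ (ε : ℂ) (f : Fin s → Pol (n + 1) 2),
      f ∈ FK (n + 1) 2 (L ε + (zz, A0)).1 (L ε + (zz, A0)).2 ↔
      (∀ i j, eval (zz i) (f j : MvPolynomial (Fin (n + 1)) ℂ) = 0) ∧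
      ∀ (i : I ⊕ (Y ⊕ Fin 2)) (v : Fin (n + 1)),
        eval (zz i) (pderiv v (f (κ i) : MvPolynomial (Fin (n + 1)) ℂ)) + (ε * τ i) *
          eval (zz i) (pderiv v (f (σ (κ i)) : MvPolynomial (Fin (n + 1)) ℂ)) = 0 := by
    intro ε f
    rw [hLε, mem_FK]
    refine and_congr_right fun _ => ⟨fun h i v => ?_, fun h i v => ?_⟩
    · have := h i v
      rw [sum_two] at this
      exact this
    · rw [sum_two]
      exact h i v
  have hZ : ∀ (ε : ℂ) (f : Fin s → Pol (n + 1) 2), f ∈ Z ε ↔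
      f ∈ FK (n + 1) 2 (L ε + (zz, A0)).1 (L ε + (zz, A0)).2 ∧
      ∀ i i' : I ⊕ (Y ⊕ Fin 2), κ i = κ i' → ¬(i = t0 ∧ i' = t1) → ¬(i = t1 ∧ i' = t0) →
        eval (mid (zz i) (zz i'))
        (f (σ (κ i)) : MvPolynomial (Fin (n + 1)) ℂ) = 0 := by
    intro ε f
    rw [Submodule.mem_inf, Submodule.mem_iInf]
    refine and_congr_right fun _ => ⟨fun h i i' hii hn1 hn2 => ?_, fun h q => ?_⟩
    · have := h ⟨(i, i'), hii, hn1, hn2⟩
      rw [LinearMap.mem_ker, LinearMap.comp_apply, ev_apply] at this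
      exact this
    · rw [LinearMap.mem_ker, LinearMap.comp_apply, ev_apply]
      exact h q.1.1 q.1.2 q.2.1 q.2.2.1 q.2.2.2
  -- the dimension for `ε = 0`
  obtain ⟨φ, hφ⟩ : ∃ φ : (Fin s → Pol (n + 1) 2) →ₗ[ℂ] ℂ, φ =
      (ev (n + 1) 2 (mid (zz t0) (zz t1))).comp
        (LinearMap.proj (σ (κ t0)) : (Fin s → Pol (n + 1) 2) →ₗ[ℂ] Pol (n + 1) 2) := ⟨_, rfl⟩
  have h0 : finrank ℂ (Z 0) ≤
      s * w - (n + 1) * (Fintype.card I + (Fintype.card Y + 2)) + 1 := by
    refine (finrank_le_one φ (Z 0)).trans (Nat.add_le_add_right ?_ 1)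
    have h1 : Z 0 ⊓ LinearMap.ker φ ≤ Submodule.pi Set.univ fun m =>
        VH (n + 1) (Finset.univ.filter fun i => κ i = σ (σ.symm m))
          (Finset.univ.filter fun i => κ i = σ.symm m) zz := by
      intro f hf
      obtain ⟨hf1, hf2⟩ := (hZ 0 f).1 (Submodule.mem_inf.1 hf).1
      have hf5 : eval (mid (zz t0) (zz t1))
          (f (σ (κ t0)) : MvPolynomial (Fin (n + 1)) ℂ) = 0 := by
        have := LinearMap.mem_ker.1 (Submodule.mem_inf.1 hf).2
        rwa [hφ, LinearMap.comp_apply, ev_apply] at this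
      obtain ⟨hf3, hf4⟩ := (hmem 0 f).1 hf1
      refine Submodule.mem_pi.2 fun m _ => ?_
      obtain ⟨k, rfl⟩ := σ.surjective m
      rw [Equiv.symm_apply_apply]
      refine Submodule.mem_inf.2 ⟨mem_Dbl.2 ⟨fun i => hf3 i _, fun i hi v => ?_⟩, ?_⟩
      · rw [Finset.mem_filter] at hi
        have := hf4 i v
        rw [zero_mul, zero_mul, add_zero, hi.2] at this
        exact this
      · refine (Submodule.mem_iInf _).2 fun q => ?_
        rw [LinearMap.mem_ker, ev_apply]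
        have q1 := (Finset.mem_filter.1 q.2.1).2
        have q2 := (Finset.mem_filter.1 q.2.2).2
        by_cases hn1 : q.1.1 = t0 ∧ q.1.2 = t1
        · have h6 : κ t0 = k := hn1.1 ▸ q1
          rw [hn1.1, hn1.2, ← h6]
          exact hf5
        by_cases hn2 : q.1.1 = t1 ∧ q.1.2 = t0
        · have h6 : κ t0 = k := hn2.2 ▸ q2
          rw [hn2.1, hn2.2, mid_comm, ← h6]
          exact hf5
        have := hf2 q.1.1 q.1.2 (q1.trans q2.symm) hn1 hn2
        rwa [q1] at this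
    refine (Submodule.finrank_mono h1).trans ((finrank_pi_leC1 _).trans ?_)
    refine (Finset.sum_le_sum fun m _ => hx (σ.symm m)).trans ?_
    rw [Equiv.sum_comp σ.symm fun k => w + (fib κ (σ k)).choose 2 -
      ((n + 1) * fib κ (σ k) + (fib κ k).choose 2)]
    have h2 : ∑ k, (w + (fib κ (σ k)).choose 2 -
          ((n + 1) * fib κ (σ k) + (fib κ k).choose 2)) +
        ∑ k, ((n + 1) * fib κ (σ k) + (fib κ k).choose 2) =
        ∑ k, (w + (fib κ (σ k)).choose 2) := by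
      rw [← Finset.sum_add_distrib]
      exact Finset.sum_congr rfl fun k _ => Nat.sub_add_cancel (hineq k)
    rw [Finset.sum_add_distrib, Finset.sum_add_distrib,
      Equiv.sum_comp σ fun k => (fib κ k).choose 2,
      Equiv.sum_comp σ fun k => (n + 1) * fib κ k, ← Finset.mul_sum, Finset.sum_const,
      Finset.card_univ, Fintype.card_fin, smul_eq_mul, sum_fib, Fintype.card_sum, hcardY] at h2
    omega
  obtain ⟨ε, hε1, hε2⟩ := ((hPK.gen_finrank h0).and
    (Gen.ne (LP.linear (K := ℂ) LinearMap.id) 1 (by simp))).exists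
  have hε : ε ≠ 0 := hε2
  refine ⟨z, fun i => y (Sum.inl i), y (Sum.inr 0), y (Sum.inr 1),
    fun i => (L ε + (zz, A0)).2 (Sum.inl i), fun i => (L ε + (zz, A0)).2 (Sum.inr (Sum.inl i)),
    (L ε + (zz, A0)).2 t0, ?_⟩
  have hvec : Sum.elim (fun i => (L ε + (zz, A0)).2 (Sum.inl i))
      (Sum.elim (fun i => (L ε + (zz, A0)).2 (Sum.inr (Sum.inl i)))
        fun _ : Fin 2 => (L ε + (zz, A0)).2 t0) = (L ε + (zz, A0)).2 := by
    funext i
    rcases i with i | i | i
    · rfl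
    · rfl
    · change (L ε + (zz, A0)).2 t0 = (L ε + (zz, A0)).2 (Sum.inr (Sum.inr i))
      fin_cases i
      · rw [ht0]
        rfl
      · change (L ε + (zz, A0)).2 t0 = (L ε + (zz, A0)).2 (Sum.inr (Sum.inr 1))
        rw [← ht1, hLε]
        dsimp only
        rw [hκ01, hτ01]
  rw [elim_two, hvec, ← hzz]
  have hfst : (L ε + (zz, A0)).1 = zz := by rw [hLε]
  refine (Submodule.finrank_mono ?_).trans hε1
  intro f hf
  have hf' : f ∈ FK (n + 1) 2 (L ε + (zz, A0)).1 (L ε + (zz, A0)).2 := by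
    rw [hfst]
    exact hf
  obtain ⟨hf1, hf2⟩ := (hmem ε f).1 hf'
  refine (hZ ε f).2 ⟨hf', fun i i' hk hn1 hn2 => ?_⟩
  by_cases hii : i = i'
  · subst hii
    have : mid (zz i) (zz i) = zz i := by
      funext v
      simp only [mid]
      ring
    rw [this]
    exact hf1 _ _
  · obtain ⟨a1, a2⟩ := two_points (f (σ (κ i)) : MvPolynomial (Fin (n + 1)) ℂ)
      (mem_Pol.1 (f (σ (κ i))).2) (zz i) (zz i') (hf1 _ _) (hf1 _ _)
    obtain ⟨-, b2⟩ := two_points (f (κ i) : MvPolynomial (Fin (n + 1)) ℂ)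
      (mem_Pol.1 (f (κ i)).2) (zz i) (zz i') (hf1 _ _) (hf1 _ _)
    have s1 : ∑ v, eval (zz i) (pderiv v (f (κ i) : MvPolynomial (Fin (n + 1)) ℂ)) *
        (zz i' v - zz i v) + (ε * τ i) *
        ∑ v, eval (zz i) (pderiv v (f (σ (κ i)) : MvPolynomial (Fin (n + 1)) ℂ)) *
        (zz i' v - zz i v) = 0 := by
      rw [Finset.mul_sum, ← Finset.sum_add_distrib]
      refine Finset.sum_eq_zero fun v _ => ?_
      linear_combination (zz i' v - zz i v) * hf2 i v
    have s2 : ∑ v, eval (zz i') (pderiv v (f (κ i) : MvPolynomial (Fin (n + 1)) ℂ)) *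
        (zz i' v - zz i v) + (ε * τ i') *
        ∑ v, eval (zz i') (pderiv v (f (σ (κ i)) : MvPolynomial (Fin (n + 1)) ℂ)) *
        (zz i' v - zz i v) = 0 := by
      rw [Finset.mul_sum, ← Finset.sum_add_distrib]
      refine Finset.sum_eq_zero fun v _ => ?_
      have := hf2 i' v
      rw [← hk] at this
      linear_combination (zz i' v - zz i v) * this
    rw [a2, b2] at s2
    have hne : ε * (τ i - τ i') ≠ 0 :=
      mul_ne_zero hε (sub_ne_zero.2 fun h => by
        rcases hτ i i' h with h | h | h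
        · exact hii h
        · exact hn1 h
        · exact hn2 h)
    have s3 : (ε * (τ i - τ i')) *
        ∑ v, eval (zz i) (pderiv v (f (σ (κ i)) : MvPolynomial (Fin (n + 1)) ℂ)) *
        (zz i' v - zz i v) = 0 := by
      linear_combination s1 + s2
    rw [a1, (mul_eq_zero.1 s3).resolve_left hne, zero_div]

end Pool.Agent.WarC


end

section

/-!
# Simultaneous Waring decompositions (MP_db021c_ag), few forms: the module HD   (helper9)

General double points, general simple points and points which are double along the hyperplane.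
-/

set_option autoImplicit false

open Module MvPolynomial
open Pool.Agent.War

namespace Pool.Agent.WarS

namespace HDaux

theorem PK_DblH (n d y : ℕ) {I : Type} [Finite I] (P : Finset I) :
    PK fun x : (I → Fin (n + 1) → ℂ) × (Fin y → Fin n → ℂ) => DblH n d P x.1 x.2 := by
  have h1 := PK.comp (K := ℂ) (Y := (I → Fin (n + 1) → ℂ) × (Fin y → Fin n → ℂ))
    (PK_Dbl (n + 1) d P) (LinearMap.fst ℂ (I → Fin (n + 1) → ℂ) (Fin y → Fin n → ℂ))
  have h2 := PK.comp (K := ℂ) (Y := (I → Fin (n + 1) → ℂ) × (Fin y → Fin n → ℂ))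
    (PK_Dbl n d (Finset.univ : Finset (Fin y)))
    (LinearMap.snd ℂ (I → Fin (n + 1) → ℂ) (Fin y → Fin n → ℂ))
  exact h1.inf (h2.comap (resL n d))

/-- the degree goes up by one -/
theorem step {n d y : ℕ} {J : Type} (P : Finset J) (w : J → Fin (n + 1) → ℂ)
    (z : Fin y → Fin n → ℂ) (hw : ∀ i, w i 0 ≠ 0) (h0 : Dbl (n + 1) d P w = ⊥) :
    finrank ℂ (DblH n (d + 1) P w z) ≤ finrank ℂ (Dbl n (d + 1) Finset.univ z) := by
  have h1 := finrank_le_map_add_ker (resL n (d + 1)) (DblH n (d + 1) P w z)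
  have h2 : finrank ℂ ((DblH n (d + 1) P w z).map (resL n (d + 1))) ≤
      finrank ℂ (Dbl n (d + 1) Finset.univ z) := by
    refine Submodule.finrank_mono ?_
    rintro _ ⟨f, hf, rfl⟩
    exact hf.2
  have h3 : finrank ℂ ↥(DblH n (d + 1) P w z ⊓ LinearMap.ker (resL n (d + 1))) ≤
      finrank ℂ (Dbl (n + 1) d P w) := by
    refine finrank_inf_ker_le _ _ fun g hg => ?_
    obtain ⟨⟨g1, g2⟩, -⟩ := hg
    refine ⟨fun i => ?_, fun i hi k => ?_⟩
    · have h4 := g1 i
      rw [eval_mulX] at h4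
      exact (mul_eq_zero.1 h4).resolve_left (hw i)
    · exact (off_hyp (hw i) (g1 i) (g2 i hi)).2 k
  rw [h0, finrank_bot] at h3
  omega

end HDaux

theorem HD (hSG : S_SG) : S_HD := by
  classical
  intro n d y I _ P hn hP hy hnum
  have hPle : (n + 1 + 1) * P.card ≤ NN (n + 1) d := hP.le
  have hPI : P.card ≤ Fintype.card I := Finset.card_le_univ P
  have e0 : (n + 1 + 1) * P.card = (n + 1) * P.card + P.card := by ring
  -- the points of `J`
  obtain ⟨J, hPJ, -, hJ⟩ := Finset.exists_subsuperset_card_eq (Finset.subset_univ P)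
    (n := P.card + (NN (n + 1) d - (n + 1 + 1) * P.card)) (by omega) (by
      rw [Finset.card_univ]; omega)
  let P' : Finset {i // i ∈ J} := P.subtype (fun i => i ∈ J)
  have hP'c : P'.card = P.card := by
    rw [Finset.card_subtype, Finset.filter_true_of_mem fun i hi => hPJ hi]
  have hJc : Fintype.card {i // i ∈ J} = J.card := Fintype.card_coe J
  have g1 := hSG (n + 1) d {i // i ∈ J} P' (by omega) (by rw [hP'c]; exact hP)
  obtain ⟨w, hw1, hw2⟩ := (g1.and (gen_off (n := n) (I := {i // i ∈ J}))).exists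
  have hw0 : Dbl (n + 1) d P' w = ⊥ := by
    apply Submodule.finrank_eq_zero.1
    rw [hP'c, hJc, hJ] at hw1
    omega
  obtain ⟨z, hz⟩ := hy
  have hE := HDaux.step P' w z hw2 hw0
  -- the other simple points
  obtain ⟨v, hv⟩ := red (Y := Fin (n + 1) → ℂ) (fun v => ev (n + 1) (d + 1) v)
    (DblH n (d + 1) P' w z) ⊥ (by
      intro f _ hf
      by_contra hc
      push Not at hc
      apply hf
      rw [Submodule.mem_bot]
      apply Subtype.ext
      apply MvPolynomial.funext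
      intro x
      have := hc x
      rw [ev_apply] at this
      rw [this]
      simp) (Fintype.card I - J.card)
  rw [finrank_bot, Nat.max_zero] at hv
  have e2 : Fintype.card {i // ¬ i ∈ J} = Fintype.card I - J.card := by
    rw [Fintype.card_subtype_compl, hJc]
  let b : {i // ¬ i ∈ J} ≃ Fin (Fintype.card I - J.card) := Fintype.equivFinOfCardEq e2
  let x₀ : I → Fin (n + 1) → ℂ := fun i => if hi : i ∈ J then w ⟨i, hi⟩ else v (b ⟨i, hi⟩)
  have key : ∀ i : {i // i ∈ J}, x₀ i.1 = w i := by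
    intro i
    simp only [x₀]
    rw [dif_pos i.2]
  have hle : DblH n (d + 1) P x₀ z ≤
      DblH n (d + 1) P' w z ⊓ ⨅ i, LinearMap.ker (ev (n + 1) (d + 1) (v i)) := by
    rintro f ⟨⟨f1, f2⟩, f3⟩
    refine ⟨⟨⟨fun i => ?_, fun i hi k => ?_⟩, f3⟩, ?_⟩
    · have := f1 i.1
      rwa [key] at this
    · have := f2 i.1 (Finset.mem_subtype.1 hi) k
      rwa [key] at this
    · rw [SetLike.mem_coe, Submodule.mem_iInf]
      intro i
      rw [LinearMap.mem_ker, ev_apply]
      have := f1 (b.symm i).1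
      simp only [x₀] at this
      rw [dif_neg (b.symm i).2] at this
      simpa using this
  refine (HDaux.PK_DblH n (d + 1) y P).gen_finrank (x₀ := (x₀, z))
    ((Submodule.finrank_mono hle).trans (hv.trans ?_))
  have hs := NN_succ n d
  have hJI : J.card ≤ Fintype.card I := Finset.card_le_univ J
  have hyle : (n + 1) * y ≤ NN n (d + 1) := by omega
  omega

end Pool.Agent.WarS


end
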