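import Mathlib
import Pool.Agent.CLAM.C02

/-! Parts: WarQ.NOD, WarQ.PROD, WarS.SW, War5.Stmts, War5.QD, War5.FEW5, War5.MO, War5.NG3, War5.NG5, War5.P4B, War5.SN5, War5.SN6, War5.SN7, WarS.FEW, WarD.Stmts -/

section

/-!
# The nodes (MP_db021c_ag, module NOD)
-/

set_option autoImplicit false

open Finset Polynomial

namespace Pool.Agent.WarQ

namespace NODaux

/-- the points `s_j = j + 1` -/
noncomputable def sj {D : ℕ} (j : Fin D) : ℂ := (j : ℂ) + 1

/-- the points `t_i = -i` -/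
noncomputable def ti {k : ℕ} (i : Fin k) : ℂ := -(i : ℂ)

theorem sj_inj {D : ℕ} : Function.Injective (sj (D := D)) := by
  intro i j h
  unfold sj at h
  have h1 : ((i : ℕ) : ℂ) = ((j : ℕ) : ℂ) := add_right_cancel h
  exact Fin.ext (by exact_mod_cast h1)

theorem ti_inj {k : ℕ} : Function.Injective (ti (k := k)) := by
  intro i j h
  unfold ti at h
  have h1 : ((i : ℕ) : ℂ) = ((j : ℕ) : ℂ) := neg_injective h
  exact Fin.ext (by exact_mod_cast h1)

theorem st_ne {D k : ℕ} (i : Fin k) (j : Fin D) : sj j - ti i ≠ 0 := by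
  unfold sj ti
  have h : ((j : ℂ) + 1 - -(i : ℂ)) = (((j : ℕ) + 1 + (i : ℕ) : ℕ) : ℂ) := by
    push_cast
    ring
  rw [h]
  exact_mod_cast (by omega : (j : ℕ) + 1 + (i : ℕ) ≠ 0)

theorem ts_ne {D k : ℕ} (i : Fin k) (j : Fin D) : ti i ≠ sj j := fun h =>
  st_ne i j (sub_eq_zero.2 h.symm)

theorem hh_eq {D k : ℕ} (i : Fin k) (j : Fin D) : hh i j = -(ti i - sj j)⁻¹ := by
  unfold hh sj ti
  rw [← inv_neg]
  congr 1
  ring

end NODaux

open _root_.Pool.Agent.WarQ.NODaux in
/-- NOD -/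
theorem x_NOD : S_NOD := by
  classical
  intro D k S₁ S₂ hc
  have hcard : S₁.card = (S₂ᶜ).card := by
    rw [Finset.card_compl, Fintype.card_fin]
    omega
  set A := S₂ᶜ with hA
  have hinjA : Set.InjOn (sj (D := D)) A := sj_inj.injOn
  have hmA : ∀ j, j ∈ A ↔ j ∉ S₂ := fun j => by rw [hA, Finset.mem_compl]
  set N : ℂ[X] := Lagrange.nodal S₁ ti with hN
  set M : ℂ[X] := Lagrange.nodal A sj with hM
  have hdeg : (N - M).degree < A.card := by
    have h1 : N.degree = M.degree := by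
      rw [hN, hM, Lagrange.degree_nodal, Lagrange.degree_nodal, hcard]
    have h2 := Polynomial.degree_sub_lt_left h1 (Lagrange.nodal_monic).ne_zero
      ((Lagrange.nodal_monic (s := S₁) (v := ti)).leadingCoeff.trans
        (Lagrange.nodal_monic (s := A) (v := sj)).leadingCoeff.symm)
    rw [hN, Lagrange.degree_nodal] at h2
    rw [← hcard]
    exact h2
  have hN0 : ∀ j : Fin D, N.eval (sj j) ≠ 0 := by
    intro j
    rw [hN]
    exact Lagrange.eval_nodal_not_at_node fun i _ => (ts_ne i j).symm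
  have hM0 : ∀ i : Fin k, M.eval (ti i) ≠ 0 := by
    intro i
    rw [hM]
    exact Lagrange.eval_nodal_not_at_node fun j _ => ts_ne i j
  have hPs : ∀ j ∈ A, (N - M).eval (sj j) = N.eval (sj j) := by
    intro j hj
    rw [eval_sub, hM, Lagrange.eval_nodal_at_node hj, sub_zero]
  refine ⟨fun j => if j ∈ A then Lagrange.nodalWeight A sj j * N.eval (sj j) else 0, ?_, ?_, ?_⟩
  · intro j
    by_cases hj : j ∈ A
    · simp only [if_pos hj]
      constructor
      · intro h
        exact absurd h (mul_ne_zero (Lagrange.nodalWeight_ne_zero hinjA hj) (hN0 j))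
      · intro h
        exact absurd h ((hmA j).1 hj)
    · simp only [if_neg hj, true_iff]
      by_contra h
      exact hj ((hmA j).2 h)
  · intro i
    have h1 : (N - M).eval (ti i) = M.eval (ti i) *
        ∑ j ∈ A, Lagrange.nodalWeight A sj j * (ti i - sj j)⁻¹ * (N - M).eval (sj j) := by
      have e := Lagrange.eq_interpolate hinjA hdeg
      have e2 := Lagrange.eval_interpolate_not_at_node (s := A) (v := sj (D := D))
        (fun j => (N - M).eval (sj j)) (x := ti i) (fun j _ => ts_ne i j)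
      rw [← e] at e2
      exact e2
    have h2 : ∑ j ∈ A, Lagrange.nodalWeight A sj j * (ti i - sj j)⁻¹ * (N - M).eval (sj j) =
        -∑ j : Fin D, hh i j * (if j ∈ A then Lagrange.nodalWeight A sj j * N.eval (sj j) else 0) := by
      rw [← Finset.sum_subset (Finset.subset_univ A)
        (f := fun j : Fin D => hh i j * (if j ∈ A then Lagrange.nodalWeight A sj j * N.eval (sj j) else 0))
        (fun j _ hj => by simp only [if_neg hj, mul_zero])]
      rw [← Finset.sum_neg_distrib]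
      apply Finset.sum_congr rfl
      intro j hj
      rw [if_pos hj, hPs j hj, hh_eq]
      ring
    rw [h2, eval_sub] at h1
    have h3 : N.eval (ti i) = M.eval (ti i) * (1 - ∑ j : Fin D, hh i j *
        (if j ∈ A then Lagrange.nodalWeight A sj j * N.eval (sj j) else 0)) := by
      linear_combination h1
    have h4 : N.eval (ti i) = 0 ↔ i ∈ S₁ := by
      constructor
      · intro h
        by_contra hi
        refine Lagrange.eval_nodal_not_at_node (s := S₁) (v := ti) (x := ti i) ?_ h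
        intro i' hi' he
        exact hi (ti_inj he ▸ hi')
      · intro h
        exact Lagrange.eval_nodal_at_node h
    rw [← h4, h3]
    constructor
    · intro h
      rw [h, sub_self, mul_zero]
    · intro h
      rcases mul_eq_zero.1 h with h | h
      · exact absurd h (hM0 i)
      · exact (sub_eq_zero.1 h).symm
  · intro γ₁ γ₂ h1 h2 h3
    have hz : Lagrange.interpolate A sj (fun j => γ₂ j / Lagrange.nodalWeight A sj j) = 0 := by
      apply Polynomial.eq_zero_of_degree_lt_of_eval_index_eq_zero (s := S₁) (v := ti)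
      · exact ti_inj.injOn
      · rw [hcard]
        exact Lagrange.degree_interpolate_lt _ hinjA
      · intro i hi
        rw [Lagrange.eval_interpolate_not_at_node _ (fun j _ => ts_ne i j)]
        apply mul_eq_zero_of_right
        have h4 := h3 i
        rw [h1 i hi, zero_add] at h4
        rw [← Finset.sum_subset (Finset.subset_univ A) (f := fun j : Fin D => hh i j * γ₂ j)
          (fun j _ hj => by
            have hj2 : j ∈ S₂ := by
              by_contra h
              exact hj ((hmA j).2 h)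
            simp only [h2 j hj2, mul_zero])] at h4
        have h5 : ∑ j ∈ A, Lagrange.nodalWeight A sj j * (ti i - sj j)⁻¹ *
            (γ₂ j / Lagrange.nodalWeight A sj j) = -∑ j ∈ A, hh i j * γ₂ j := by
          rw [← Finset.sum_neg_distrib]
          apply Finset.sum_congr rfl
          intro j hj
          have hw := Lagrange.nodalWeight_ne_zero hinjA hj
          rw [hh_eq]
          field_simp
        rw [h5, h4, neg_zero]
    have hg : γ₂ = 0 := by
      funext j
      by_cases hj : j ∈ A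
      · have h4 := Lagrange.eval_interpolate_at_node
          (fun j => γ₂ j / Lagrange.nodalWeight A sj j) hinjA hj
        rw [hz, eval_zero] at h4
        have hw := Lagrange.nodalWeight_ne_zero hinjA hj
        have h5 := h4.symm
        rw [div_eq_zero_iff] at h5
        rcases h5 with h5 | h5
        · exact h5
        · exact absurd h5 hw
      · apply h2 j
        by_contra h
        exact hj ((hmA j).2 h)
    refine ⟨?_, hg⟩
    funext i
    have h4 := h3 i
    rw [hg] at h4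
    simpa using h4

end Pool.Agent.WarQ


end

section

/-!
# Cubics which vanish on a product of sets
-/

set_option autoImplicit false

open Module MvPolynomial
open Pool.Agent.War Pool.Agent.WarS

namespace Pool.Agent.WarQ

namespace PRODaux

variable {J : Type} {sz : J → ℕ}

/-- the value at a point given by its components -/
noncomputable def F (f : MvPolynomial ((j : J) × Fin (sz j)) ℂ) (p : ∀ j, Fin (sz j) → ℂ) : ℂ :=
  eval (fun v => p v.1 v.2) f

open Classical in
/-- the variables of the group `j0`, constants for the other groups -/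
noncomputable def gen (j0 : J) (p : ∀ j, Fin (sz j) → ℂ) :
    ∀ j, Fin (sz j) → MvPolynomial (Fin (sz j0)) ℂ :=
  Function.update (fun j i => C (p j i)) j0 (fun i => X i)

open Classical in
theorem eval_gen (j0 : J) (p : ∀ j, Fin (sz j) → ℂ) (x : Fin (sz j0) → ℂ) (j : J)
    (i : Fin (sz j)) : eval x (gen j0 p j i) = Function.update p j0 x j i := by
  unfold gen
  by_cases h : j = j0
  · subst h
    rw [Function.update_self, Function.update_self, eval_X]
  · rw [Function.update_of_ne h, Function.update_of_ne h, eval_C]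

theorem deg_gen (j0 : J) (p : ∀ j, Fin (sz j) → ℂ) (j : J) (i : Fin (sz j)) :
    (gen j0 p j i).totalDegree ≤ 1 := by
  classical
  unfold gen
  by_cases h : j = j0
  · subst h
    rw [Function.update_self, totalDegree_X]
  · rw [Function.update_of_ne h, totalDegree_C]
    exact Nat.zero_le 1

theorem deg_gen' (j0 : J) (p : ∀ j, Fin (sz j) → ℂ) {j : J} (hj : j ≠ j0) (i : Fin (sz j)) :
    (gen j0 p j i).totalDegree = 0 := by
  classical
  unfold gen
  rw [Function.update_of_ne hj, totalDegree_C]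

/-- substitution -/
noncomputable def phi (j0 : J) (p : ∀ j, Fin (sz j) → ℂ)
    (f : MvPolynomial ((j : J) × Fin (sz j)) ℂ) : MvPolynomial (Fin (sz j0)) ℂ :=
  eval₂ C (fun v => gen j0 p v.1 v.2) f

open Classical in
theorem eval_phi (j0 : J) (p : ∀ j, Fin (sz j) → ℂ)
    (f : MvPolynomial ((j : J) × Fin (sz j)) ℂ) (x : Fin (sz j0) → ℂ) :
    eval x (phi j0 p f) = F f (Function.update p j0 x) := by
  unfold phi F
  rw [eval₂_comp_left (eval x) C (fun v => gen j0 p v.1 v.2) f]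
  have h1 : (eval x).comp (C : ℂ →+* MvPolynomial (Fin (sz j0)) ℂ) = RingHom.id ℂ := by
    ext a
    simp
  rw [h1]
  have h2 : ((eval x) ∘ fun v : (j : J) × Fin (sz j) => gen j0 p v.1 v.2) =
      fun v => Function.update p j0 x v.1 v.2 := by
    funext v
    exact eval_gen j0 p x v.1 v.2
  rw [h2]
  rfl

/-- the degree of the image of a product -/
theorem deg_prod (j0 : J) (p : ∀ j, Fin (sz j) → ℂ) (m : ((j : J) × Fin (sz j)) →₀ ℕ) :
    (∏ v ∈ m.support, gen j0 p v.1 v.2 ^ m v).totalDegree ≤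
      ∑ v ∈ m.support, m v * (gen j0 p v.1 v.2).totalDegree :=
  (totalDegree_finsetProd _ _).trans (Finset.sum_le_sum fun _ _ => totalDegree_pow _ _)

theorem deg_phi (j0 : J) (p : ∀ j, Fin (sz j) → ℂ)
    (f : MvPolynomial ((j : J) × Fin (sz j)) ℂ) (hf : f.totalDegree ≤ 3) :
    (phi j0 p f).totalDegree ≤ 3 := by
  unfold phi
  rw [eval₂_eq]
  refine totalDegree_finsetSum_le fun m hm => ?_
  refine (totalDegree_mul _ _).trans ?_
  rw [totalDegree_C, zero_add]
  refine (deg_prod j0 p m).trans ?_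
  have h1 : (m.sum fun _ e => e) ≤ 3 := (le_totalDegree hm).trans hf
  refine le_trans (Finset.sum_le_sum fun v _ => ?_) h1
  calc m v * (gen j0 p v.1 v.2).totalDegree ≤ m v * 1 :=
        Nat.mul_le_mul_left _ (deg_gen j0 p v.1 v.2)
    _ = m v := mul_one _

open Classical in
/-- differences have degree at most two -/
theorem quad (f : MvPolynomial ((j : J) × Fin (sz j)) ℂ) (hf : f.totalDegree ≤ 3) (j0 : J)
    (p p' : ∀ j, Fin (sz j) → ℂ) : ∃ h : MvPolynomial (Fin (sz j0)) ℂ, h.totalDegree ≤ 2 ∧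
      ∀ x, eval x h = F f (Function.update p j0 x) - F f (Function.update p' j0 x) := by
  refine ⟨phi j0 p f - phi j0 p' f, ?_, fun x => by rw [map_sub, eval_phi, eval_phi]⟩
  unfold phi
  rw [eval₂_eq, eval₂_eq, ← Finset.sum_sub_distrib]
  refine totalDegree_finsetSum_le fun m hm => ?_
  rw [← mul_sub]
  refine (totalDegree_mul _ _).trans ?_
  rw [totalDegree_C, zero_add]
  have h1 : (m.sum fun _ e => e) ≤ 3 := (le_totalDegree hm).trans hf
  by_cases hv : ∃ v ∈ m.support, v.1 ≠ j0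
  · obtain ⟨v0, hv0, hne⟩ := hv
    have key : ∀ p : ∀ j, Fin (sz j) → ℂ,
        (∏ v ∈ m.support, gen j0 p v.1 v.2 ^ m v).totalDegree ≤ 2 := by
      intro p
      refine (deg_prod j0 p m).trans ?_
      have h2 : (m.sum fun _ e => e) = m v0 + ∑ v ∈ m.support.erase v0, m v := by
        rw [Finsupp.sum, ← Finset.add_sum_erase _ _ hv0]
      have h3 : 1 ≤ m v0 := Nat.one_le_iff_ne_zero.2 (Finsupp.mem_support_iff.1 hv0)
      rw [← Finset.add_sum_erase _ _ hv0, deg_gen' j0 p hne, mul_zero, zero_add]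
      have h4 : ∑ v ∈ m.support.erase v0, m v * (gen j0 p v.1 v.2).totalDegree ≤
          ∑ v ∈ m.support.erase v0, m v := Finset.sum_le_sum fun v _ => by
        calc m v * (gen j0 p v.1 v.2).totalDegree ≤ m v * 1 :=
              Nat.mul_le_mul_left _ (deg_gen j0 p v.1 v.2)
          _ = m v := mul_one _
      omega
    exact (totalDegree_sub _ _).trans (max_le (key p) (key p'))
  · push Not at hv
    have h2 : ∏ v ∈ m.support, gen j0 p v.1 v.2 ^ m v =
        ∏ v ∈ m.support, gen j0 p' v.1 v.2 ^ m v := by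
      refine Finset.prod_congr rfl fun v hv' => ?_
      have h3 := hv v hv'
      obtain ⟨j, i⟩ := v
      simp only at h3
      subst h3
      unfold gen
      simp only [Function.update_self]
    rw [h2, sub_self, totalDegree_zero]
    exact Nat.zero_le 2

variable {Z : ∀ j, Set (Fin (sz j) → ℂ)}

open Classical in
/-- the values at points of `Z j0` do not depend on the point -/
theorem indep (hZ : ∀ j, ∀ f : MvPolynomial (Fin (sz j)) ℂ, f.totalDegree ≤ 2 →
      (∀ p ∈ Z j, eval p f = 0) → f = 0)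
    (f : MvPolynomial ((j : J) × Fin (sz j)) ℂ) (hf : f.totalDegree ≤ 3)
    (hv : ∀ p : ∀ j, Fin (sz j) → ℂ, (∀ j, p j ∈ Z j) → F f p = 0) (j0 : J)
    {x x' : Fin (sz j0) → ℂ} (hx : x ∈ Z j0) (hx' : x' ∈ Z j0) (B : Finset J) :
    j0 ∉ B → ∀ p : ∀ j, Fin (sz j) → ℂ, (∀ j, j ∉ B → j ≠ j0 → p j ∈ Z j) →
      F f (Function.update p j0 x) = F f (Function.update p j0 x') := by
  induction B using Finset.induction_on with
  | empty =>
    intro _ p hp
    have h : ∀ x ∈ Z j0, F f (Function.update p j0 x) = 0 := by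
      intro x hx
      apply hv
      intro j
      by_cases hj : j = j0
      · subst hj
        rw [Function.update_self]
        exact hx
      · rw [Function.update_of_ne hj]
        exact hp j (Finset.notMem_empty j) hj
    rw [h x hx, h x' hx']
  | insert k B hk ih =>
    intro hj0 p hp
    have hk0 : k ≠ j0 := fun h => hj0 (h ▸ Finset.mem_insert_self k B)
    have hB : j0 ∉ B := fun h => hj0 (Finset.mem_insert_of_mem h)
    obtain ⟨h, hh, he⟩ := quad f hf k (Function.update p j0 x) (Function.update p j0 x')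
    have h0 : h = 0 := by
      apply hZ k h hh
      intro y hy
      rw [he, Function.update_comm hk0.symm, Function.update_comm hk0.symm, sub_eq_zero]
      apply ih hB
      intro j hj hj'
      by_cases hjk : j = k
      · subst hjk
        rw [Function.update_self]
        exact hy
      · rw [Function.update_of_ne hjk]
        apply hp j _ hj'
        intro hm
        rcases Finset.mem_insert.1 hm with h1 | h1
        · exact hjk h1
        · exact hj h1
    have h1 := he (p k)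
    rw [h0, map_zero, Function.update_comm hk0.symm, Function.update_comm hk0.symm,
      Function.update_eq_self] at h1
    exact (sub_eq_zero.1 h1.symm)

open Classical in
/-- the basic decomposition -/
theorem split (hZ : ∀ j, ∀ f : MvPolynomial (Fin (sz j)) ℂ, f.totalDegree ≤ 2 →
      (∀ p ∈ Z j, eval p f = 0) → f = 0)
    (f : MvPolynomial ((j : J) × Fin (sz j)) ℂ) (hf : f.totalDegree ≤ 3)
    (hv : ∀ p : ∀ j, Fin (sz j) → ℂ, (∀ j, p j ∈ Z j) → F f p = 0) [Fintype J]
    (z : ∀ j, Fin (sz j) → ℂ) (hz : ∀ j, z j ∈ Z j) (j0 : J) (p : ∀ j, Fin (sz j) → ℂ)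
    (hp : p j0 = z j0) (x : Fin (sz j0) → ℂ) :
    F f (Function.update p j0 x) = F f p + F f (Function.update z j0 x) := by
  obtain ⟨h, hh, he⟩ := quad f hf j0 p z
  have hz0 : F f z = 0 := hv z hz
  have h0 : h - C (F f p) = 0 := by
    apply hZ j0
    · refine (totalDegree_sub _ _).trans (max_le hh ?_)
      rw [totalDegree_C]
      exact Nat.zero_le 2
    · intro y hy
      rw [map_sub, eval_C, he, sub_eq_zero]
      have h1 : F f (Function.update p j0 y) = F f (Function.update p j0 (z j0)) :=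
        indep hZ f hf hv j0 hy (hz j0) (Finset.univ.erase j0) (Finset.notMem_erase _ _) p
          (fun j hj hj' => absurd (Finset.mem_erase.2 ⟨hj', Finset.mem_univ j⟩) hj)
      have h2 : F f (Function.update z j0 y) = 0 := by
        apply hv
        intro j
        by_cases hj : j = j0
        · subst hj
          rw [Function.update_self]
          exact hy
        · rw [Function.update_of_ne hj]
          exact hz j
      rw [h1, h2, sub_zero, ← hp, Function.update_eq_self]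
  have h1 := he x
  rw [sub_eq_zero.1 h0, eval_C] at h1
  rw [h1]
  ring

end PRODaux

open _root_.Pool.Agent.WarQ.PRODaux in
theorem x_PROD : S_PROD := by
  classical
  intro J _ sz Z hZ f hf hv
  have hv' : ∀ p : ∀ j, Fin (sz j) → ℂ, (∀ j, p j ∈ Z j) → F f p = 0 := hv
  have hne : ∀ j, ∃ x, x ∈ Z j := by
    intro j
    by_contra h
    push Not at h
    have := hZ j 1 (by rw [totalDegree_one]; exact Nat.zero_le 2) (fun p hp => absurd hp (h p))
    exact one_ne_zero this
  choose z hz using hne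
  refine ⟨fun j => phi j z f, fun j => ⟨deg_phi j z f hf, ?_⟩, ?_⟩
  · intro x hx
    rw [eval_phi]
    apply hv'
    intro k
    by_cases hk : k = j
    · subst hk
      rw [Function.update_self]
      exact hx
    · rw [Function.update_of_ne hk]
      exact hz k
  · apply MvPolynomial.funext
    intro w
    rw [map_sum]
    have h1 : ∀ j, eval w (rename (fun i => (⟨j, i⟩ : (j : J) × Fin (sz j))) (phi j z f)) =
        F f (Function.update z j (fun i => w ⟨j, i⟩)) := by
      intro j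
      rw [eval_rename, ← eval_phi]
      rfl
    rw [Finset.sum_congr rfl fun j _ => h1 j]
    set p : ∀ j, Fin (sz j) → ℂ := fun j i => w ⟨j, i⟩ with hp
    have h2 : ∀ A : Finset J, F f (fun j => if j ∈ A then p j else z j) =
        ∑ j ∈ A, F f (Function.update z j (p j)) := by
      intro A
      induction A using Finset.induction_on with
      | empty =>
        simp only [Finset.notMem_empty, if_false, Finset.sum_empty]
        exact hv' z hz
      | insert k A hk ih =>
        rw [Finset.sum_insert hk, ← ih]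
        have h3 := split hZ f hf hv' z hz k (fun j => if j ∈ A then p j else z j)
          (by simp only [hk, if_false]) (p k)
        rw [add_comm, ← h3]
        congr 1
        funext j
        by_cases hj : j = k
        · subst hj
          rw [Function.update_self, if_pos (Finset.mem_insert_self _ _)]
        · rw [Function.update_of_ne hj]
          by_cases hjA : j ∈ A
          · rw [if_pos hjA, if_pos (Finset.mem_insert_of_mem hjA)]
          · rw [if_neg hjA, if_neg]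
            intro h
            rcases Finset.mem_insert.1 h with h | h
            · exact hj h
            · exact hjA h
    have h4 := h2 Finset.univ
    simp only [Finset.mem_univ, if_true] at h4
    rw [← h4]
    rfl

end Pool.Agent.WarQ


end

section

/-!
# Strong form of the weak Alexander-Hirschowitz theorem (MP_db021c_ag)   (helper14)

Section SW of PAPER.md: double points in the space and simple points on the hyperplane.
-/

set_option autoImplicit false

open Module MvPolynomial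
open Pool.Agent.War

namespace Pool.Agent.WarS

namespace SWaux

/-- double points `w` in the space, simple points `y` on the hyperplane -/
noncomputable def DS (n d : ℕ) {p l : ℕ} (w : Fin p → Fin (n + 1) → ℂ) (y : Fin l → Fin n → ℂ) :
    Submodule ℂ (Pol (n + 1) d) :=
  Dbl (n + 1) d Finset.univ w ⊓ ⨅ i, LinearMap.ker (ev (n + 1) d (hp (y i)))

/-- `p` double points and `l` simple points of the hyperplane can be independent -/
def A (n d p l : ℕ) : Prop :=
  ∃ (w : Fin p → Fin (n + 1) → ℂ) (y : Fin l → Fin n → ℂ),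
    finrank ℂ (DS n d w y) + ((n + 2) * p + l) ≤ NN (n + 1) d

theorem PK_S (n d l : ℕ) : PK fun y : Fin l → Fin n → ℂ =>
    ⨅ i, LinearMap.ker (ev (n + 1) d (hp (y i))) := by
  refine PK.iInf fun i => PK.one
    (φ := fun y : Fin l → Fin n → ℂ => ev (n + 1) d (hp (y i))) fun f => ?_
  simp only [ev_apply]
  have := ((LP_eval (f : MvPolynomial (Fin (n + 1)) ℂ)).comp_linear (hpL n)).comp_linear
    (pt (I := Fin l) i)
  exact this

theorem PK_DS (n d p l : ℕ) :
    PK fun x : (Fin p → Fin (n + 1) → ℂ) × (Fin l → Fin n → ℂ) => DS n d x.1 x.2 := by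
  have h1 := (PK_Dbl (n + 1) d (I := Fin p) Finset.univ).comp
    (LinearMap.fst ℂ (Fin p → Fin (n + 1) → ℂ) (Fin l → Fin n → ℂ))
  have h2 := (PK_S n d l).comp (LinearMap.snd ℂ (Fin p → Fin (n + 1) → ℂ) (Fin l → Fin n → ℂ))
  exact h1.inf h2

theorem A.gen {n d p l : ℕ} (h : A n d p l) :
    Gen ℂ fun x : (Fin p → Fin (n + 1) → ℂ) × (Fin l → Fin n → ℂ) =>
      finrank ℂ (DS n d x.1 x.2) ≤ NN (n + 1) d - ((n + 2) * p + l) := by
  obtain ⟨w, y, h⟩ := h
  exact (PK_DS n d p l).gen_finrank (x₀ := (w, y)) (by simp only; omega)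

theorem A.le {n d p l : ℕ} (h : A n d p l) : (n + 2) * p + l ≤ NN (n + 1) d := by
  obtain ⟨w, y, h⟩ := h
  omega

/-- adding simple points on the hyperplane to a configuration of double points -/
theorem add_simple {n d p l : ℕ} (w : Fin p → Fin (n + 1) → ℂ)
    (h0 : (n + 2) * p + l ≤ NN (n + 1) d)
    (h1 : finrank ℂ (Dbl (n + 1) d Finset.univ w) ≤ NN (n + 1) d - (n + 2) * p)
    (h2 : finrank ℂ ↥(Dbl (n + 1) d Finset.univ w ⊓ LinearMap.ker (resL n d)) ≤
      NN (n + 1) d - ((n + 2) * p + l)) : A n d p l := by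
  obtain ⟨y, hy⟩ := (gen_simple (u := l) (Dbl (n + 1) d Finset.univ w)
    (((PK_Dbl (n + 1) d Finset.univ).comp_affine 0 w).congr fun _ => by simp)
    (NN (n + 1) d - ((n + 2) * p + l)) (by omega) h2).exists
  refine ⟨w, y, ?_⟩
  have : finrank ℂ (DS n d w y) ≤ NN (n + 1) d - ((n + 2) * p + l) := hy
  omega

/-- no double points -/
theorem A_zero {n d l : ℕ} (hl : l ≤ NN n d) : A n d 0 l := by
  have h3 := finrank_Pol_le (n + 1) d
  have hN : NN n d ≤ NN (n + 1) d := by
    rcases Nat.eq_zero_or_pos d with rfl | hd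
    · rw [NN_zero_right, NN_zero_right]
    · obtain ⟨e, rfl⟩ : ∃ e, d = e + 1 := ⟨d - 1, by omega⟩
      rw [NN_succ]
      exact Nat.le_add_right _ _
  refine add_simple (w := fun i => i.elim0) (by omega) ?_ ?_
  · refine (Submodule.finrank_le _).trans ?_
    simpa using h3
  · rcases Nat.eq_zero_or_pos d with rfl | hd
    · -- degree zero
      have h4 : LinearMap.ker (resL n 0) = ⊥ := by
        rw [Submodule.eq_bot_iff]
        intro f hf
        have h5 : res n (f : MvPolynomial (Fin (n + 1)) ℂ) = 0 := congrArg Subtype.val hf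
        have h6 := totalDegree_eq_zero_iff_eq_C.1 (Nat.le_zero.1 (mem_Pol.1 f.2))
        rw [h6, res_C] at h5
        apply Subtype.ext
        rw [h6, C_eq_zero.1 h5, C_0]
        rfl
      rw [h4, inf_bot_eq, finrank_bot]
      exact Nat.zero_le _
    · obtain ⟨e, rfl⟩ : ∃ e, d = e + 1 := ⟨d - 1, by omega⟩
      have h5 := finrank_inf_ker_le (Dbl (n + 1) (e + 1) (Finset.univ : Finset (Fin 0))
        (fun i => i.elim0)) (⊤ : Submodule ℂ (Pol (n + 1) e)) (fun g _ => Submodule.mem_top)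
      rw [finrank_top] at h5
      have h6 := finrank_Pol_le (n + 1) e
      have h7 := NN_succ n e
      refine h5.trans ?_
      omega

/-- the step: `u` of the double points on the hyperplane -/
theorem A_step {n d u q l : ℕ} (ha : GG n (d + 1) u) (hb : A n d q u)
    (hnum : (n + 1) * u + l ≤ NN n (d + 1)) : A n (d + 1) (u + q) l := by
  have hbl := hb.le
  have hal := ha.le
  -- choice of the points
  have g1 : Gen ℂ fun x : (Fin q → Fin (n + 1) → ℂ) × (Fin u → Fin n → ℂ) =>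
      finrank ℂ (Dbl n (d + 1) Finset.univ x.2) ≤ NN n (d + 1) - (n + 1) * u :=
    ha.gen.comp (LinearMap.snd ℂ (Fin q → Fin (n + 1) → ℂ) (Fin u → Fin n → ℂ))
      LinearMap.snd_surjective
  have g2 : Gen ℂ fun x : (Fin q → Fin (n + 1) → ℂ) × (Fin u → Fin n → ℂ) =>
      ∀ i, x.1 i 0 ≠ 0 :=
    (gen_off (n := n) (I := Fin q)).comp
      (LinearMap.fst ℂ (Fin q → Fin (n + 1) → ℂ) (Fin u → Fin n → ℂ)) LinearMap.fst_surjective
  obtain ⟨⟨w, y⟩, ⟨hwy, hy1⟩, hw3⟩ := ((hb.gen.and g1).and g2).exists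
  simp only at hwy hy1 hw3
  have e1 : NN (n + 1) (d + 1) = NN n (d + 1) + NN (n + 1) d := NN_succ n d
  have e2 : (n + 2) * (u + q) = (n + 1) * u + u + (n + 2) * q := by ring
  -- residual part
  have h3 : finrank ℂ ↥(Dbl (n + 1) (d + 1) Finset.univ (Fin.append (fun i => hp (y i)) w) ⊓
      LinearMap.ker (resL n (d + 1))) ≤ NN (n + 1) d - ((n + 2) * q + u) := by
    refine (finrank_inf_ker_le _ _ fun g hg => ?_).trans hwy
    refine ⟨⟨fun i => ?_, fun i _ k => ?_⟩, ?_⟩
    · have h4 := hg.1 (Fin.natAdd u i)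
      have h5 := hg.2 (Fin.natAdd u i) (Finset.mem_univ _)
      rw [Fin.append_right] at h4 h5
      exact (off_hyp (hw3 i) h4 h5).1
    · have h4 := hg.1 (Fin.natAdd u i)
      have h5 := hg.2 (Fin.natAdd u i) (Finset.mem_univ _)
      rw [Fin.append_right] at h4 h5
      exact (off_hyp (hw3 i) h4 h5).2 k
    · rw [SetLike.mem_coe, Submodule.mem_iInf]
      intro i
      have h5 := hg.2 (Fin.castAdd q i) (Finset.mem_univ _) 0
      rw [Fin.append_left, eval_pderiv_mulX_zero, hp_zero, zero_mul, zero_add] at h5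
      rw [LinearMap.mem_ker, ev_apply]
      exact h5
  refine add_simple (Fin.append (fun i => hp (y i)) w) (by omega) ?_ ?_
  · have h1 := finrank_le_map_add_ker (resL n (d + 1))
      (Dbl (n + 1) (d + 1) Finset.univ (Fin.append (fun i => hp (y i)) w))
    have h2 : finrank ℂ ((Dbl (n + 1) (d + 1) Finset.univ
        (Fin.append (fun i => hp (y i)) w)).map (resL n (d + 1))) ≤
          NN n (d + 1) - (n + 1) * u := by
      refine (Submodule.finrank_mono ?_).trans hy1
      rintro _ ⟨f, hf, rfl⟩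
      refine ⟨fun i => ?_, fun i _ k => ?_⟩
      · have := hf.1 (Fin.castAdd q i)
        rw [Fin.append_left, eval_hp] at this
        exact this
      · have := hf.2 (Fin.castAdd q i) (Finset.mem_univ _) k.succ
        rw [Fin.append_left, eval_hp_pderiv] at this
        exact this
    omega
  · refine h3.trans ?_
    omega

/-- the induction -/
theorem A_main {n : ℕ} (hn : 1 ≤ n) : ∀ d p l : ℕ,
    (l = 0 ∨ (2 * n ≤ d + 1 ∧ (n + 2) * l ≤ NN n (d + 1 - 2 * n))) →
    (p = 0 ∨ (n + 2) * (p + d + 1) ≤ NN (n + 1) (d - 2 * n)) → A n d p l := by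
  intro d
  induction d with
  | zero =>
    intro p l hl hp
    have hl0 : l = 0 := by
      rcases hl with h | ⟨h, -⟩
      · exact h
      · omega
    have hp0 : p = 0 := by
      rcases hp with h | h
      · exact h
      · rw [Nat.zero_sub, NN_zero_right] at h
        nlinarith
    subst hl0 hp0
    exact A_zero (Nat.zero_le _)
  | succ d ih =>
    intro p l hl hp
    have hl' : (n + 2) * l ≤ NN n (d + 1) := by
      rcases hl with h | ⟨-, h⟩
      · subst h; simp
      · exact h.trans (NN_mono_right (by omega))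
    rcases hp with rfl | hp
    · exact A_zero (by nlinarith)
    rcases Nat.eq_zero_or_pos p with rfl | hp0
    · exact A_zero (by nlinarith)
    -- `d + 1 - 2 n = k + 1`
    have hd : 2 * n ≤ d := by
      by_contra hc
      have e : d + 1 - 2 * n = 0 := by omega
      rw [e, NN_zero_right] at hp
      nlinarith
    obtain ⟨k, hk⟩ : ∃ k, d = 2 * n + k := ⟨d - 2 * n, by omega⟩
    have e1 : d + 1 - 2 * n = k + 1 := by omega
    have e2 : d - 2 * n = k := by omega
    rw [e1, NN_succ] at hp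
    obtain ⟨U, hU⟩ : ∃ U, U = NN n (k + 1) / (n + 2) := ⟨_, rfl⟩
    have hU1 : (n + 2) * U ≤ NN n (k + 1) := by rw [hU]; exact Nat.mul_div_le _ _
    have hU2 : NN n (k + 1) ≤ (n + 2) * (U + 1) := by
      have := Nat.lt_mul_div_succ (NN n (k + 1)) (show 0 < n + 2 by omega)
      rw [← hU] at this
      exact this.le
    obtain ⟨u, hu⟩ : ∃ u, u = min p U := ⟨_, rfl⟩
    have hup : u ≤ p := by rw [hu]; exact min_le_left _ _
    have huU : u ≤ U := by rw [hu]; exact min_le_right _ _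
    obtain ⟨q, rfl⟩ : ∃ q, p = u + q := ⟨p - u, by omega⟩
    have hu1 : (n + 2) * u ≤ NN n (k + 1) := (Nat.mul_le_mul_left _ huU).trans hU1
    refine A_step (WAH n (d + 1) u hn (by omega) (by rw [e1]; exact hu1)) (ih q u ?_ ?_) ?_
    · right
      exact ⟨by omega, by rw [e1]; exact hu1⟩
    · rcases Nat.eq_zero_or_pos q with h | h
      · exact Or.inl h
      · right
        have : u = U := by omega
        subst this
        rw [e2]
        have e3 : (n + 2) * (u + q + (d + 1) + 1) = (n + 2) * (u + 1) + (n + 2) * (q + d + 1) := by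
          ring
        omega
    · have h1 : NN n (k + 1) ≤ NN n (d + 1) := NN_mono_right (by omega)
      have h2 : (n + 2) * ((n + 1) * u + l) ≤ (n + 2) * NN n (d + 1) := by
        calc (n + 2) * ((n + 1) * u + l) = (n + 1) * ((n + 2) * u) + (n + 2) * l := by ring
          _ ≤ (n + 1) * NN n (d + 1) + NN n (d + 1) :=
            Nat.add_le_add (Nat.mul_le_mul_left _ (hu1.trans h1)) hl'
          _ = _ := by ring
      exact Nat.le_of_mul_le_mul_left h2 (by omega)

end SWaux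

open _root_.Pool.Agent.WarS.SWaux in
/-- strong form of the weak Alexander-Hirschowitz theorem -/
theorem SW : S_SW := by
  intro m d p hm hp
  obtain ⟨n, rfl⟩ : ∃ n, m = n + 1 := ⟨m - 1, by omega⟩
  have e : d - (2 * (n + 1) - 2) = d - 2 * n := by omega
  rw [e] at hp
  obtain ⟨w, y, h⟩ := A_main (n := n) (by omega) d p 0 (Or.inl rfl) (Or.inr hp)
  refine ⟨w, ?_⟩
  have h1 : DS n d w y = Dbl (n + 1) d Finset.univ w := by
    unfold DS
    rw [iInf_of_empty, inf_top_eq]
  rw [h1] at h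
  exact h

end Pool.Agent.WarS


end

section

/-!
# Simultaneous Waring decompositions (MP_db021c_ag), few forms, all degrees ≥ 5   (helper54)

Range 2 ≤ s ≤ n, d ≥ 5. See PAPER.md in this directory. As in WarS/Stmts.lean the number of affine
variables is `n + 1` (hyperplane `x₀ = 0` with `n` variables), the number of forms is `r + 1`, the
degree is `d + 2`. `S_X` is proved by a theorem `X : S_X`, or `X (h : S_Y) .. : S_X` when it uses
other modules. In the comments `m = n + 1`, `s = r + 1`, `N(m,d) = NN m d`.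
-/

set_option autoImplicit false

open Module MvPolynomial
open Pool.Agent.War Pool.Agent.WarS

namespace Pool.Agent.War5

/-! ## 1. Double points -/

/-- the kernel of `p` general double points has dimension at most `k` -/
def KD (n d p k : ℕ) : Prop :=
  ∃ z : Fin p → Fin n → ℂ, finrank ℂ (Dbl n d Finset.univ z) ≤ k

/-- number of double points for quartics -/
def P4 (n : ℕ) : ℕ := ∑ k ∈ Finset.range (n + 1), (k + 3) ^ 2 / 9

/-- guaranteed number of independent double points in `n` variables and degree `d ≥ 3` -/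
def gg (n d : ℕ) : ℕ :=
  if n = 1 then (d + 1) / 2 else if d = 3 then (n + 3) ^ 2 / 9 else if d = 4 then P4 n
  else if n = 2 then 2 * NN 2 d / 7 else NN n d / (n + 2)

/-- bound for the dimension of the kernel of `q` general double points -/
def kap (m d q : ℕ) : ℕ :=
  if d = 2 then (if m + 1 ≤ q then 0 else (m + 2 - q) * (m + 1 - q) / 2)
  else NN m d - (m + 1) * min q (gg m d) - (if d = 3 then 2 * (q - min q (gg m d)) else 0)

/-- MO: monotonicity.

Proof. `GG.gen` (Hor.lean) gives a generic configuration; leaving out a double point raises the dimension of the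
kernel by at most `n + 1` (one value and `n` derivatives), leaving out a simple point of the hyperplane by at
most one. So `finrank (Dbl of the first p' points) ≤ finrank (Dbl of all p points) + (n + 1) (p - p')`. -/
def S_MO : Prop := (∀ n d p p' : ℕ, GG n d p → p' ≤ p → GG n d p') ∧
  ∀ n d p l p' l' : ℕ, SWaux.A n d p l → p' ≤ p → l' ≤ l → SWaux.A n d p' l'

/-- G1: one variable. Proof: `2 p ≤ d + 1`, distinct points `z_i`: a polynomial of degree `≤ d` which vanishes doubly at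
all the points is divisible by `∏ (X - z_i)²`, of degree `2 p`; the kernel has dimension `d + 1 - 2 p`. (Or: GG_one in
War/WAH.lean, which has `2 p ≤ d`, for `d` odd, `2 p = d + 1`: then the kernel for `p` points is `0`.) -/
def S_G1 : Prop := ∀ d p : ℕ, 2 * p ≤ d + 1 → GG 1 d p

/-- C9: cubics (helper68, `War5/Cub5.lean`). -/
def S_C9 : Prop := ∀ n p : ℕ, 9 * p ≤ (n + 3) ^ 2 → GG n 3 p

/-- QD: quadrics. Proof: the points `0, e_1, .., e_{q-1}` (`e_0 .. ` = unit vectors). A polynomial of degree `≤ 2` which is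
double at `0` is a quadratic form `Q`; it is double at `e_i` iff `∂_k Q (e_i) = 0` for all `k`, i.e. `Q` does not
contain `x_i`. So the kernel is the space of the quadratic forms in the other `n - q + 1` variables, of dimension
`(n - q + 2)(n - q + 1)/2` (`0` for `q = n + 1`; for `q > n + 1` add arbitrary points). -/
def S_QD : Prop := ∀ n q : ℕ, 1 ≤ q → KD n 2 q (if n + 1 ≤ q then 0 else (n + 2 - q) * (n + 1 - q) / 2)

/-- DR: one more general double point lowers the dimension of the kernel by at least two.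

Proof. Let `W` be the kernel for `p` points, `dim W ≤ k`. If `dim W ≤ 1` take a point where a generator does not vanish.
Let `dim W ≥ 2` and suppose that for every `z` the double vanishing at `z` has codimension `≤ 1` in `W`. Take independent
`f, g ∈ W`. For every `z` with `g z ≠ 0`, `h = f - (f z / g z) g` vanishes at `z`; as vanishing at `z` has codimension 1 (because
of `g`) it implies double vanishing, so `∂_k h (z) = 0`: `g ∂_k f - f ∂_k g` vanishes at all `z` with `g z ≠ 0`, so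
`g ∂_k f = f ∂_k g` as polynomials, for all `k`. This implies that `f` and `g` are proportional: choose `z₀` with `g z₀ ≠ 0`; replace
`f` by `f - (f z₀ / g z₀) g`: then `f z₀ = 0`; on a line through `z₀` put `F, G` (one variable `t`, `G 0 ≠ 0`, `F 0 = 0`): `F' G = F G'`. If
`F ≠ 0` vanishes of order `e ≥ 1` at `0` the left side vanishes of order `e - 1`, the right side of order `≥ e`: contradiction
(characteristic 0). So `F = 0` on every line through `z₀`, `f = 0`: contradiction. -/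
def S_DR : Prop := ∀ n d p k : ℕ, 1 ≤ n → KD n d p k → KD n d (p + 1) (k - 2)

/-- AK: simple points on the hyperplane. Proof: `SWaux.add_simple` (WarS/SW.lean): generic double points off the
hyperplane; the elements of the kernel which vanish on the hyperplane are `x₀ g`, `g` in the kernel in degree `d`
(as in `horace`, War/Hor.lean; `finrank_inf_ker_le`, `off_hyp`). -/
def S_AK : Prop := ∀ n d q l k : ℕ, GG (n + 1) (d + 1) q → KD (n + 1) d q k →
  k + l + (n + 2) * q ≤ NN (n + 1) (d + 1) → SWaux.A n (d + 1) q l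

/-- KAP: the bound `kap` (uses MO, QD, DR). Proof: `d = 2`: QD. `d ≥ 3`: `GG m d (min q (gg m d))` (hypothesis) gives
`KD m d (min q (gg m d)) (NN m d - (m+1) * min ..)`; more points only lower the kernel; for `d = 3` apply DR
`q - min ..` times. -/
def S_KAP : Prop := ∀ m d q : ℕ, 2 ≤ m → 1 ≤ q → 2 ≤ d → (3 ≤ d → GG m d (gg m d)) → KD m d q (kap m d q)

/-- CF: closed forms. -/
def S_CF : Prop := ∀ n : ℕ, 2 * NN n 2 = (n + 1) * (n + 2) ∧
  6 * NN n 3 = (n + 1) * (n + 2) * (n + 3) ∧ 24 * NN n 4 = (n + 1) * (n + 2) * (n + 3) * (n + 4) ∧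
  120 * NN n 5 = (n + 1) * (n + 2) * (n + 3) * (n + 4) * (n + 5) ∧
  720 * NN n 6 = (n + 1) * (n + 2) * (n + 3) * (n + 4) * (n + 5) * (n + 6)

/-- P4B: bounds for `P4` (induction; `x - 8 ≤ 9 * (x / 9) ≤ x`). -/
def S_P4B : Prop := ∀ n : ℕ, 54 * P4 n + 30 ≤ (n + 3) * (n + 4) * (2 * n + 7) ∧
  (n + 3) * (n + 4) * (2 * n + 7) ≤ 54 * P4 n + 30 + 48 * (n + 1)

/-- the numerical condition of the Horace step, target degree `d + 1` in `n + 1` variables -/
def SN (n d : ℕ) : Prop := gg n (d + 1) ≤ gg (n + 1) (d + 1) ∧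
  gg (n + 1) (d + 1) ≤ gg n (d + 1) + gg (n + 1) d ∧
  kap (n + 1) (d - 1) (gg (n + 1) (d + 1) - gg n (d + 1)) + gg n (d + 1) +
    (n + 2) * (gg (n + 1) (d + 1) - gg n (d + 1)) ≤ NN (n + 1) d

/-! The numerical modules. Notation: `m = n + 1`, `G = gg m (d+1)`, `U = gg n (d+1)`, `Q = G - U`, `T_k = N(n,k)`. See PAPER.md. -/

def S_SN3 : Prop := ∀ n : ℕ, 1 ≤ n → SN n 3
def S_SN4 : Prop := ∀ n : ℕ, 1 ≤ n → SN n 4
def S_SN5 : Prop := ∀ n : ℕ, 1 ≤ n → SN n 5
def S_SN6 : Prop := ∀ n d : ℕ, 3 ≤ n → 6 ≤ d → SN n d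
def S_SN7 : Prop := ∀ n d : ℕ, 1 ≤ n → n ≤ 2 → 6 ≤ d → SN n d

/-- AG: the conclusion (uses G1, C9, AK, KAP and all SN).

Proof. `GG n d (gg n d)` by induction on `n`, then on `d`: `n = 1`: G1. `n ≥ 2`, `d = 3`: C9. `n = n' + 1`, degree `d + 1 ≥ 4`: `U = gg n' (d+1)`,
`Q = gg n (d+1) - U`, `GG n' (d+1) U`, `GG n d Q` (MO), KAP in degree `d - 1` (its hypothesis by induction if `d - 1 ≥ 3`), so by AK
`A n' d Q U`, and `SWaux.A_step` with `l = 0` gives `A n' (d+1) (U+Q) 0`, i.e. `GG n (d+1) (gg n (d+1))`. (If `Q = 0` then `A n' d 0 U` by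
`SWaux.A_zero`: `U ≤ NN n' d`; but `Q ≥ 1` always, which may be easier: it is not needed if you treat `Q = 0` this way:
`(n'+1) U ≤ NN n' (d+1)` and `NN n' (d+1) ≤ (n'+1) NN n' d`.) -/
def S_AG : Prop := (∀ n d p : ℕ, 1 ≤ n → 3 ≤ d → p ≤ gg n d → GG n d p) ∧
  ∀ n d : ℕ, 1 ≤ n → 3 ≤ d → ∀ q l : ℕ, q ≤ gg (n + 1) (d + 1) - gg n (d + 1) → l ≤ gg n (d + 1) →
    SWaux.A n d q l

/-! ## 2. Residual conditions -/

/-- HD5: points which are double along the hyperplane; `u` of the double points are specialised to the hyperplane.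

Proof. `q = |P| - u`. By `SWaux.A.gen` and `GG.gen` choose generic `w : Fin q → ..` off the hyperplane and `z : Fin (u + y) → ..`
such that `DS n d w (z restricted to the first u)` has dimension `≤ NN (n+1) d - ((n+2) q + u)` and `Dbl n (d+1) univ z` has
dimension `≤ NN n (d+1) - (n+1)(u+y)`. Identify `P` with `Fin u ⊕ Fin q`; the double points are `hp (z_i)`, `i < u`, and `w_j`; the points
double along `H` are the other `z`. For `f` in `DblH`: `res f ∈ Dbl n (d+1) univ z`, and if `res f = 0`, `f = x₀ g`, `g ∈ DS n d w z`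
(`eval_pderiv_mulX_zero` at the points on `H`, `off_hyp` off `H`). So the dimension is
`≤ NN (n+1) (d+1) - (n+2) |P| - (n+1) y`. Then the simple points `I \ P` lower it by one each (`red`), as in WarS/HD.lean, which
is the template. -/
def S_HD5 : Prop := ∀ (n d u y : ℕ) (I : Type) [Fintype I] (P : Finset I), 1 ≤ n → u ≤ P.card →
  GG n (d + 1) (u + y) → SWaux.A n d (P.card - u) u →
  Gen ℂ fun x : (I → Fin (n + 1) → ℂ) × (Fin y → Fin n → ℂ) =>
    finrank ℂ (DblH n (d + 1) P x.1 x.2) ≤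
      NN (n + 1) (d + 1) - ((n + 1) * P.card + Fintype.card I + (n + 1) * y)

/-- RES5: residual lemma (uses `WarS.S_SG`, HD5). Proof: as WarS/RES.lean; `hA` by HD5; `hC'` (nothing in degree `d`): for a
subset `Q` of the points of type `j` with `q` elements `S_SG` gives `Dbl n d Q w = ⊥`, and `Dbl` is smaller for more double
points. -/
def S_RES5 : Prop := ∀ (n d r u v y : ℕ) (I : Type) [Fintype I] (π : I → Fin (r + 1)), 1 ≤ n →
  (∃ u' ≤ fib π 0, GG n (d + 1) (u' + y) ∧ SWaux.A n d (fib π 0 - u') u') →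
  (∀ j, ∃ q ≤ fib π j, GG (n + 1) d q ∧ NN (n + 1) d ≤ (n + 1) * q + Fintype.card I) →
  (∀ j, GG (n + 1) (d + 1) (fib π j)) →
  (n + 1) * fib π 0 + Fintype.card I + (n + 1) * y + u ≤ NN (n + 1) (d + 1) →
  (∀ j, (n + 1) * fib π j + Fintype.card I ≤ NN (n + 1) (d + 1)) →
  (r + 1) * NN (n + 1) (d + 1) ≤ (n + r + 2) * Fintype.card I + (n + 1) * y + u + v →
  Gen ℂ fun x : (I → Fin (n + 1) → ℂ) × (Fin u → Fin n → ℂ) × (Fin v → Fin n → ℂ) ×
      (Fin v → Fin (r + 1) → ℂ) × (Fin y → Fin n → ℂ) =>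
    ResZ d π x.1 x.2.1 x.2.2.1 x.2.2.2.1 x.2.2.2.2

/-! ## 3. Numbers -/

/-- the numbers which are needed -/
def Numb (n d r h : ℕ) : Prop := ∃ (u y : ℕ) (p : Fin (r + 1) → ℕ),
  NN n (d + 2) = (n + r + 1) * u + y ∧ u ≤ gg n (d + 2) ∧ y ≤ gg n (d + 1) ∧
  (r + 1) * u + y + ∑ j, p j = h ∧ (∀ j, p j ≤ gg (n + 1) (d + 1)) ∧
  p 0 + y ≤ gg (n + 1) (d + 1) ∧
  (∀ j, ∃ q, q ≤ p j ∧ q ≤ gg (n + 1) d ∧ NN (n + 1) d ≤ (n + 1) * q + ∑ i, p i) ∧
  (n + 1) * p 0 + ∑ i, p i + (n + 1) * y + u ≤ NN (n + 1) (d + 1) ∧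
  ∀ j, (n + 1) * p j + ∑ i, p i ≤ NN (n + 1) (d + 1)

/-- `h` is the critical number -/
def Crit (n d r h : ℕ) : Prop := (r + 1) * NN (n + 1) (d + 2) ≤ (n + r + 2) * h ∧
  (n + r + 2) * h < (r + 1) * NN (n + 1) (d + 2) + (n + r + 2)

/-- the general conditions, `u`, `y` = quotient and remainder of `NN n (d+2)` by `n + r + 1` -/
structure GC (n d r u y : ℕ) : Prop where
  g1 : 3 * (n + 1) ≤ u
  g2 : u + (n + 1) * y + (n + 1) ≤ NN n (d + 1)
  g3 : ∀ p : ℕ, (n + r + 2) * p + u ≤ NN (n + 1) (d + 1) + y + 2 * (n + r + 2) →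
    p ≤ gg (n + 1) (d + 1)
  g4 : ∀ t : ℕ, (r + 1) * NN (n + 1) (d + 1) ≤ (n + r + 2) * t + (r + 1) * u + (n + 1) * y →
    NN (n + 1) d ≤ (n + 1) * gg (n + 1) d + t
  g5 : u ≤ gg n (d + 2)
  g6 : y ≤ gg n (d + 1)

/-- the small cases -/
def Small (n d r : ℕ) : Prop := (n = 1 ∧ d ≤ 14) ∨ (n = 2 ∧ d ≤ 5) ∨ (n = 3 ∧ d = 3) ∨
  (n = 4 ∧ d = 3 ∧ r = 4)

/-- NC: the general case. Proof in PAPER.md; the template is `core` in WarS/NUM.lean. -/
def S_NC : Prop := ∀ n d r h u y : ℕ, 1 ≤ n → 1 ≤ r → r ≤ n → 3 ≤ d → Crit n d r h →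
  NN n (d + 2) = (n + r + 1) * u + y → y ≤ n + r → GC n d r u y → Numb n d r h

/-- NS: the 22 small cases (explicit numbers, script). -/
def S_NS : Prop := ∀ n d r h : ℕ, 1 ≤ n → 1 ≤ r → r ≤ n → 3 ≤ d → Small n d r → Crit n d r h →
  Numb n d r h

/-- NG3: degree 5 (`d = 3`). -/
def S_NG3 : Prop := ∀ n r u y : ℕ, 1 ≤ r → r ≤ n → ¬ Small n 3 r →
  NN n 5 = (n + r + 1) * u + y → y ≤ n + r → GC n 3 r u y

/-- NG4: degree 6 (`d = 4`). -/
def S_NG4 : Prop := ∀ n r u y : ℕ, 1 ≤ r → r ≤ n → ¬ Small n 4 r →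
  NN n 6 = (n + r + 1) * u + y → y ≤ n + r → GC n 4 r u y

/-- NG5: degrees `≥ 7`, at least four variables (`n ≥ 3`). -/
def S_NG5 : Prop := ∀ n d r u y : ℕ, 3 ≤ n → 5 ≤ d → 1 ≤ r → r ≤ n →
  NN n (d + 2) = (n + r + 1) * u + y → y ≤ n + r → GC n d r u y

/-- NG6: degrees `≥ 7`, two or three variables. -/
def S_NG6 : Prop := ∀ n d r u y : ℕ, 1 ≤ n → n ≤ 2 → 5 ≤ d → 1 ≤ r → r ≤ n → ¬ Small n d r →
  NN n (d + 2) = (n + r + 1) * u + y → y ≤ n + r → GC n d r u y

/-! ## 4. The result -/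

/-- FEW5 (uses AG, RES5, `WarS.S_TRA`, `WarS.S_DH`, NC, NS, NG3, NG4, NG5, NG6): the template is WarS/FEW.lean. -/
def S_FEW5 : Prop := ∀ n d r h : ℕ, 1 ≤ n → 1 ≤ r → r ≤ n → 3 ≤ d →
  (r + 1) * NN (n + 1) (d + 2) ≤ (n + r + 2) * h →
  ∃ (z : Fin h → Fin (n + 1) → ℂ) (a : Fin h → Fin (r + 1) → ℂ) (y : Fin 0 → Fin (n + 1) → ℂ),
    Kill (n + 1) (d + 2) z a y

end Pool.Agent.War5


end

section

/-!
# Quadrics with `q` double points (MP_db021c_ag)   (helper78)
-/

set_option autoImplicit false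

open Module MvPolynomial
open Pool.Agent.War Pool.Agent.WarS

namespace Pool.Agent.War5

namespace QDaux

theorem pderiv_of_deg_one {n : ℕ} (k : Fin n) {g : MvPolynomial (Fin n) ℂ}
    (hg : g.totalDegree ≤ 1) : pderiv k g = C (g.coeff (Finsupp.single k 1)) := by
  ext m
  rw [coeff_pderiv, coeff_C]
  by_cases hm : m = 0
  · subst hm
    simp
  · rw [if_neg (fun h => hm h.symm), coeff_eq_zero_of_totalDegree_lt, zero_mul]
    obtain ⟨i, hi⟩ : ∃ i, m i ≠ 0 := by
      by_contra hcon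
      push Not at hcon
      exact hm (Finsupp.ext hcon)
    refine lt_of_le_of_lt hg ?_
    have h1 : (m + Finsupp.single k 1).sum (fun _ e => e) = (m.sum fun _ e => e) + 1 := by
      rw [Finsupp.sum_add_index' (fun _ => rfl) (fun _ _ _ => rfl), Finsupp.sum_single_index rfl]
    have h2 : 1 ≤ m.sum fun _ e => e := by
      have : m i ≤ m.sum fun _ e => e :=
        Finset.single_le_sum (f := fun i => m i) (fun _ _ => Nat.zero_le _)
          (Finsupp.mem_support_iff.2 hi)
      omega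
    change 1 < (m + Finsupp.single k 1).sum (fun _ e => e)
    omega

/-- degree one: a double point kills everything -/
theorem lin_zero {n : ℕ} {g : MvPolynomial (Fin n) ℂ} (hg : g.totalDegree ≤ 1)
    (h0 : eval 0 g = 0) {z : Fin n → ℂ} (h1 : ∀ k, eval z (pderiv k g) = 0) : g = 0 := by
  have h2 : ∀ k, pderiv k g = 0 := by
    intro k
    have h := h1 k
    rw [pderiv_of_deg_one k hg, eval_C] at h
    rw [pderiv_of_deg_one k hg, h, C_0]
  ext m
  rw [coeff_zero]
  by_cases hm : m = 0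
  · subst hm
    have h3 : constantCoeff g = 0 := by
      rw [← h0]
      simp
    exact h3
  · obtain ⟨i, hi⟩ : ∃ i, m i ≠ 0 := by
      by_contra hcon
      push Not at hcon
      exact hm (Finsupp.ext hcon)
    have h3 : m - Finsupp.single i 1 + Finsupp.single i 1 = m := by
      ext j
      by_cases hj : j = i
      · subst hj
        simp
        omega
      · simp [Ne.symm hj]
    have h4 := coeff_pderiv (i := i) g (m - Finsupp.single i 1)
    rw [h2 i, coeff_zero, h3] at h4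
    rcases mul_eq_zero.1 h4.symm with h5 | h5
    · exact h5
    · exfalso
      exact Nat.cast_add_one_ne_zero _ h5

theorem map_le {n q : ℕ} {z : Fin (q + 1) → Fin n → ℂ} {z' : Fin (q + 2) → Fin (n + 1) → ℂ}
    (h : ∀ j : Fin (q + 1), z' j.castSucc = hp (z j)) :
    (Dbl (n + 1) 2 Finset.univ z').map (resL n 2) ≤ Dbl n 2 Finset.univ z := by
  rintro _ ⟨f, hf, rfl⟩
  refine ⟨fun j => ?_, fun j _ k => ?_⟩
  · rw [resL_coe, ← eval_hp, ← h j]
    exact hf.1 _
  · rw [resL_coe, ← eval_hp_pderiv, ← h j]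
    exact hf.2 _ (Finset.mem_univ _) _

theorem ker_le {n q : ℕ} {z' : Fin (q + 2) → Fin (n + 1) → ℂ}
    (h0 : z' 0 = 0) (h1 : z' (Fin.last _) 0 ≠ 0) :
    finrank ℂ ↥(Dbl (n + 1) 2 Finset.univ z' ⊓ LinearMap.ker (resL n 2)) ≤ 0 := by
  refine (finrank_inf_ker_le (d := 1) _ (⊥ : Submodule ℂ (Pol (n + 1) 1)) fun g hg => ?_).trans
    (by simp)
  have h2 := off_hyp h1 (hg.1 _) (hg.2 _ (Finset.mem_univ _))
  have h3 := hg.2 0 (Finset.mem_univ _) 0
  rw [eval_pderiv_mulX_zero, h0] at h3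
  have h4 : eval (0 : Fin (n + 1) → ℂ) (g : MvPolynomial (Fin (n + 1)) ℂ) = 0 := by
    simpa using h3
  rw [Submodule.mem_bot]
  exact Subtype.ext (lin_zero (mem_Pol.1 g.2) h4 h2.2)

/-- the double point `0` -/
theorem one_point : ∀ n : ℕ,
    finrank ℂ (Dbl n 2 Finset.univ (fun _ : Fin 1 => (0 : Fin n → ℂ))) ≤ (n + 1) * n / 2
  | 0 => by
    rw [mul_zero, Nat.zero_div, Nat.le_zero, Submodule.finrank_eq_zero, eq_bot_iff]
    intro f hf
    rw [Submodule.mem_bot]
    apply Subtype.ext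
    obtain ⟨c, hc⟩ := C_surjective (R := ℂ) (Fin 0) (f : MvPolynomial (Fin 0) ℂ)
    have h := hf.1 0
    rw [← hc, eval_C] at h
    rw [← hc, h, C_0]
    rfl
  | n + 1 => by
    have ih := one_point n
    have h := finrank_le_map_add_ker (resL n 2) (Dbl (n + 1) 2 Finset.univ
      (fun _ : Fin 1 => (0 : Fin (n + 1) → ℂ)))
    have hp0 : (0 : Fin (n + 1) → ℂ) = hp (0 : Fin n → ℂ) := by
      ext i
      refine Fin.cases ?_ (fun j => ?_) i <;> simp
    have h1 : (Dbl (n + 1) 2 Finset.univ (fun _ : Fin 1 => (0 : Fin (n + 1) → ℂ))).map (resL n 2) ≤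
        Dbl n 2 Finset.univ (fun _ : Fin 1 => (0 : Fin n → ℂ)) := by
      rintro _ ⟨f, hf, rfl⟩
      refine ⟨fun j => ?_, fun j _ k => ?_⟩
      · rw [resL_coe, ← eval_hp, ← hp0]
        exact hf.1 j
      · rw [resL_coe, ← eval_hp_pderiv, ← hp0]
        exact hf.2 j (Finset.mem_univ _) _
    have h2 := Submodule.finrank_mono h1
    have h3 : finrank ℂ ↥(Dbl (n + 1) 2 Finset.univ (fun _ : Fin 1 => (0 : Fin (n + 1) → ℂ)) ⊓
        LinearMap.ker (resL n 2)) ≤ n + 1 := by
      refine (finrank_inf_ker_le (d := 1) _ (LinearMap.ker (ev (n + 1) 1 0)) fun g hg => ?_).trans ?_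
      · have h3 := hg.2 0 (Finset.mem_univ _) 0
        rw [eval_pderiv_mulX_zero] at h3
        rw [LinearMap.mem_ker, ev_apply]
        simpa using h3
      · have h4 : LinearMap.ker (ev (n + 1) 1 0) < ⊤ := by
          rw [lt_top_iff_ne_top]
          intro h5
          have h6 : (⟨1, mem_Pol.2 (by simp)⟩ : Pol (n + 1) 1) ∈ LinearMap.ker (ev (n + 1) 1 0) := by
            rw [h5]; trivial
          rw [LinearMap.mem_ker, ev_apply] at h6
          simp at h6
        have h5 := Submodule.finrank_lt_finrank_of_lt h4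
        rw [finrank_top] at h5
        have h6 := finrank_Pol_le (n + 1) 1
        rw [NN_right_one] at h6
        omega
    have h4 : (n + 1) * n / 2 + (n + 1) = (n + 1 + 1) * (n + 1) / 2 := by
      rw [show (n + 1 + 1) * (n + 1) = (n + 1) * n + (n + 1) * 2 by ring,
        Nat.add_mul_div_right _ _ (by norm_num)]
    omega

theorem main : ∀ n q : ℕ, ∃ z : Fin (q + 1) → Fin n → ℂ, z 0 = 0 ∧
    finrank ℂ (Dbl n 2 Finset.univ z) ≤ (n + 1 - q) * (n - q) / 2
  | 0, q => by
    refine ⟨fun _ => 0, rfl, ?_⟩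
    rw [Nat.zero_sub, mul_zero, Nat.zero_div]
    have h := one_point 0
    simp only [mul_zero, Nat.zero_div] at h
    exact (Submodule.finrank_mono (Dbl_le_comp (fun _ : Fin 1 => (0 : Fin (q + 1))) _)).trans h
  | n + 1, 0 => ⟨fun _ => 0, rfl, one_point (n + 1)⟩
  | n + 1, q + 1 => by
    obtain ⟨z, hz0, hz⟩ := main n q
    let z' : Fin (q + 2) → Fin (n + 1) → ℂ :=
      Fin.lastCases (Fin.cons 1 0) (fun j => hp (z j))
    have h1 : ∀ j : Fin (q + 1), z' j.castSucc = hp (z j) := fun j => by simp [z']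
    have h2 : z' (Fin.last _) 0 ≠ 0 := by simp [z']
    have h0 : z' 0 = 0 := by
      have := h1 0
      rw [Fin.castSucc_zero, hz0] at this
      rw [this]
      ext i
      refine Fin.cases ?_ (fun j => ?_) i <;> simp
    refine ⟨z', h0, ?_⟩
    have h := finrank_le_map_add_ker (resL n 2) (Dbl (n + 1) 2 Finset.univ z')
    have h3 := Submodule.finrank_mono (map_le h1)
    have h4 := ker_le h0 h2
    rw [show n + 1 + 1 - (q + 1) = n + 1 - q by omega, show n + 1 - (q + 1) = n - q by omega]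
    omega

end QDaux

theorem x_QD : S_QD := by
  intro n q hq
  obtain ⟨q, rfl⟩ : ∃ q', q = q' + 1 := ⟨q - 1, by omega⟩
  obtain ⟨z, -, hz⟩ := QDaux.main n q
  refine ⟨z, hz.trans (le_of_eq ?_)⟩
  split_ifs with h
  · rw [show n - q = 0 by omega, mul_zero, Nat.zero_div]
  · rw [show n + 2 - (q + 1) = n + 1 - q by omega, show n + 1 - (q + 1) = n - q by omega]

end Pool.Agent.War5


end

section

/-!
# Simultaneous Waring decompositions (MP_db021c_ag), few forms, all degrees: assembly   (helper61)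

Adapted from WarS/FEW.lean (helper88).
-/

set_option autoImplicit false

open Module MvPolynomial
open Pool.Agent.War Pool.Agent.WarS

namespace Pool.Agent.War5

namespace FEW5aux

theorem fib_sigma {s : ℕ} (p : Fin s → ℕ) (j : Fin s) :
    fib (fun i : (j : Fin s) × Fin (p j) => i.1) j = p j := by
  unfold fib
  have h : (Finset.univ.filter fun i : (j : Fin s) × Fin (p j) => i.1 = j) =
      Finset.univ.image fun k : Fin (p j) => (⟨j, k⟩ : (j : Fin s) × Fin (p j)) := by
    ext ⟨i, k⟩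
    simp only [Finset.mem_filter, Finset.mem_univ, true_and, Finset.mem_image]
    constructor
    · rintro rfl
      exact ⟨k, rfl⟩
    · rintro ⟨k', hk⟩
      have := congrArg Sigma.fst hk
      exact this.symm
  rw [h, Finset.card_image_of_injective]
  · simp
  · intro k k' hk
    simpa using hk

/-- the critical case, as a statement on the sum type of all points -/
theorem crit (hAG : S_AG) (hRES5 : S_RES5) (hTRA : S_TRA) (hDH : S_DH)
    {n d r : ℕ} (hn : 1 ≤ n) (hd : 3 ≤ d) {h : ℕ} (hNum : Numb n d r h)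
    (h1 : (r + 1) * NN (n + 1) (d + 2) ≤ (n + r + 2) * h) :
    ∃ (z : Fin h → Fin (n + 1) → ℂ) (a : Fin h → Fin (r + 1) → ℂ),
      ∀ f : Fin (r + 1) → MvPolynomial (Fin (n + 1)) ℂ, (∀ j, (f j).totalDegree ≤ d + 2) →
        (∀ i j, eval (z i) (f j) = 0) →
        (∀ i k, ∑ j, a i j * eval (z i) (pderiv k (f j)) = 0) → ∀ j, f j = 0 := by
  obtain ⟨u, y, p, e1, hu, hy, e2, c0, c00, c1, c2, c3⟩ := hNum
  let I := (j : Fin (r + 1)) × Fin (p j)
  let π : I → Fin (r + 1) := fun i => i.1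
  have hfib : ∀ j, fib π j = p j := fib_sigma p
  have hcard : Fintype.card I = ∑ j, p j := by
    rw [Fintype.card_sigma]
    simp
  set m := ∑ j, p j with hm
  -- double points
  have g2 : ∀ j, GG (n + 1) (d + 1) (fib π j) := fun j => by
    rw [hfib]
    exact hAG.1 (n + 1) (d + 1) (p j) (by omega) (by omega) (c0 j)
  have g4 : GG n (d + 2) u := hAG.1 n (d + 2) u hn (by omega) hu
  have q1 : ∃ u' ≤ fib π 0, GG n (d + 1) (u' + y) ∧ SWaux.A n d (fib π 0 - u') u' := by
    rw [hfib]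
    refine ⟨min (p 0) (gg n (d + 1) - y), min_le_left _ _, ?_, ?_⟩
    · refine hAG.1 n (d + 1) _ hn (by omega) ?_
      have := min_le_right (p 0) (gg n (d + 1) - y)
      omega
    · refine hAG.2 n d hn hd _ _ ?_ ?_
      · rcases le_total (p 0) (gg n (d + 1) - y) with hc | hc
        · rw [min_eq_left hc]
          omega
        · rw [min_eq_right hc]
          omega
      · exact (min_le_right _ _).trans (Nat.sub_le _ _)
  have q2 : ∀ j, ∃ q ≤ fib π j, GG (n + 1) d q ∧
      NN (n + 1) d ≤ (n + 1) * q + Fintype.card I := by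
    intro j
    obtain ⟨q, a1, a2, a3⟩ := c1 j
    rw [hfib, hcard]
    exact ⟨q, a1, hAG.1 (n + 1) d q (by omega) hd a2, a3⟩
  have hN := NN_succ n (d + 1)
  have key : (r + 1) * NN (n + 1) (d + 1) ≤
      (n + r + 2) * Fintype.card I + (n + 1) * y + u + r * u := by
    rw [hcard]
    rw [← e2, hN, e1] at h1
    nlinarith
  have R := hRES5 n d r u (r * u) y I π hn q1 q2 g2
    (by rw [hfib, hcard]; exact c2) (fun j => by rw [hfib, hcard]; exact c3 j) key
  have T := hTRA n d r u y hn g4 (le_of_eq e1)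
  have O : Gen ℂ fun z : I → Fin (n + 1) → ℂ => ∀ i, z i 0 ≠ 0 := gen_off
  have T' := T.comp (LinearMap.snd ℂ (I → Fin (n + 1) → ℂ) ((Fin u → Fin n → ℂ) ×
    (Fin (r * u) → Fin n → ℂ) × (Fin (r * u) → Fin (r + 1) → ℂ) × (Fin y → Fin n → ℂ)))
    Prod.snd_surjective
  have O' := O.comp (LinearMap.fst ℂ (I → Fin (n + 1) → ℂ) ((Fin u → Fin n → ℂ) ×
    (Fin (r * u) → Fin n → ℂ) × (Fin (r * u) → Fin (r + 1) → ℂ) × (Fin y → Fin n → ℂ)))
    Prod.fst_surjective
  obtain ⟨⟨w, z1, z2, a, z0⟩, ⟨hR, hT⟩, hO⟩ := ((R.and T').and O').exists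
  obtain ⟨t, ht⟩ := hDH n d r u (r * u) y I π w z1 z2 a z0 hO hT.1 hT.2 hR
  -- all points
  let α := I ⊕ (Fin u ⊕ (Fin (r * u) ⊕ Fin y))
  have hα : Fintype.card α = h := by
    simp only [α, Fintype.card_sum, Fintype.card_fin]
    rw [hcard, ← e2]
    ring
  let e : α ≃ Fin h := Fintype.equivFinOfCardEq hα
  let Z : α → Fin (n + 1) → ℂ := Sum.elim w (Sum.elim (fun i => hp (z1 i))
    (Sum.elim (fun i => hp (z2 i)) (fun i => Fin.cons t (z0 i))))
  let A : α → Fin (r + 1) → ℂ := Sum.elim (fun i => Pi.single (π i) 1)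
    (Sum.elim (fun _ => Pi.single 0 1) (Sum.elim a (fun _ => Pi.single 0 1)))
  have hs : ∀ (k : Fin (r + 1)) (g : Fin (r + 1) → ℂ),
      ∑ j, (Pi.single k 1 : Fin (r + 1) → ℂ) j * g j = g k := by
    intro k g
    rw [Finset.sum_eq_single k]
    · rw [Pi.single_eq_same, one_mul]
    · intro j _ hj
      rw [Pi.single_eq_of_ne hj, zero_mul]
    · intro hk
      exact absurd (Finset.mem_univ k) hk
  refine ⟨fun i => Z (e.symm i), fun i => A (e.symm i), fun f hf hf0 hf1 => ?_⟩
  have k0 : ∀ x : α, ∀ j, eval (Z x) (f j) = 0 := fun x j => by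
    have := hf0 (e x) j
    simpa only [Equiv.symm_apply_apply] using this
  have k1 : ∀ x : α, ∀ k, ∑ j, A x j * eval (Z x) (pderiv k (f j)) = 0 := fun x k => by
    have := hf1 (e x) k
    simpa only [Equiv.symm_apply_apply] using this
  refine ht f hf (fun i j => k0 (Sum.inl i) j) (fun i k => ?_)
    (fun i j => k0 (Sum.inr (Sum.inl i)) j) (fun i k => ?_)
    (fun i j => k0 (Sum.inr (Sum.inr (Sum.inl i))) j)
    (fun i k => k1 (Sum.inr (Sum.inr (Sum.inl i))) k)
    (fun i j => k0 (Sum.inr (Sum.inr (Sum.inr i))) j) (fun i k => ?_)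
  · have := k1 (Sum.inl i) k
    rw [← hs (π i) (fun j => eval (w i) (pderiv k (f j)))]
    exact this
  · have := k1 (Sum.inr (Sum.inl i)) k
    rw [← hs 0 (fun j => eval (hp (z1 i)) (pderiv k (f j)))]
    exact this
  · have := k1 (Sum.inr (Sum.inr (Sum.inr i))) k
    rw [← hs 0 (fun j => eval (Fin.cons t (z0 i) : Fin (n + 1) → ℂ) (pderiv k (f j)))]
    exact this

/-- the numbers exist -/
theorem numb (hNC : S_NC) (hNS : S_NS) (h3 : S_NG3) (h4 : S_NG4) (h5 : S_NG5) (h6 : S_NG6)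
    {n d r h : ℕ} (hn : 1 ≤ n) (hr : 1 ≤ r) (hrn : r ≤ n) (hd : 3 ≤ d) (hC : Crit n d r h) :
    Numb n d r h := by
  by_cases hS : Small n d r
  · exact hNS n d r h hn hr hrn hd hS hC
  · have e1 : NN n (d + 2) = (n + r + 1) * (NN n (d + 2) / (n + r + 1)) +
        NN n (d + 2) % (n + r + 1) := (Nat.div_add_mod _ _).symm
    have e2 : NN n (d + 2) % (n + r + 1) ≤ n + r :=
      Nat.le_of_lt_succ (Nat.mod_lt _ (by omega))
    refine hNC n d r h _ _ hn hr hrn hd hC e1 e2 ?_
    rcases Nat.lt_or_ge d 5 with hd5 | hd5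
    · rcases Nat.lt_or_ge d 4 with hd4 | hd4
      · obtain rfl : d = 3 := by omega
        exact h3 n r _ _ hr hrn hS e1 e2
      · obtain rfl : d = 4 := by omega
        exact h4 n r _ _ hr hrn hS e1 e2
    · rcases Nat.lt_or_ge n 3 with hn3 | hn3
      · exact h6 n d r _ _ hn (by omega) hd5 hr hrn hS e1 e2
      · exact h5 n d r _ _ hn3 hd5 hr hrn e1 e2

end FEW5aux

open _root_.Pool.Agent.War5.FEW5aux in
/-- few forms, all degrees at least five -/
theorem x_FEW5 (hAG : S_AG) (hRES5 : S_RES5) (hTRA : S_TRA) (hDH : S_DH) (hNC : S_NC)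
    (hNS : S_NS) (h3 : S_NG3) (h4 : S_NG4) (h5 : S_NG5) (h6 : S_NG6) : S_FEW5 := by
  intro n d r h hn hr hrn hd hh
  -- the critical value
  set D := n + r + 2 with hD
  have hDp : 0 < D := by omega
  set B := (r + 1) * NN (n + 1) (d + 2) with hB
  set h0 := (B + (D - 1)) / D with hh0
  have a1 : B ≤ D * h0 := by
    have := Nat.lt_mul_div_succ (B + (D - 1)) hDp
    rw [← hh0, Nat.mul_add, mul_one] at this
    omega
  have a2 : D * h0 < B + D := by
    have : D * h0 ≤ B + (D - 1) := by rw [hh0]; exact Nat.mul_div_le _ _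
    omega
  have a3 : h0 ≤ h := by
    by_contra hc
    push Not at hc
    have : D * (h + 1) ≤ D * h0 := Nat.mul_le_mul_left _ hc
    rw [Nat.mul_add, mul_one] at this
    omega
  obtain ⟨z, a, hz⟩ := crit hAG hRES5 hTRA hDH hn hd
    (numb hNC hNS h3 h4 h5 h6 hn hr hrn hd ⟨a1, a2⟩) a1
  refine ⟨fun i => if hi : i.val < h0 then z ⟨i.val, hi⟩ else 0,
    fun i => if hi : i.val < h0 then a ⟨i.val, hi⟩ else 0, fun i => i.elim0, ?_⟩
  intro f hf hf0 hf1 _
  refine hz f hf (fun i j => ?_) (fun i k => ?_)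
  · have := hf0 (Fin.castLE a3 i) j
    simpa using this
  · have := hf1 (Fin.castLE a3 i) k
    simpa using this

end Pool.Agent.War5


end

section

/-!
# MO: monotonicity (MP_db021c_ag)
-/

set_option autoImplicit false

open Module MvPolynomial
open Pool.Agent.War Pool.Agent.WarS

namespace Pool.Agent.War5

namespace MOaux

/-- value and derivatives at finitely many points -/
noncomputable def rho (n d : ℕ) {e : ℕ} (z : Fin e → Fin n → ℂ) :
    Pol n d →ₗ[ℂ] (Fin e × Option (Fin n) → ℂ) :=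
  LinearMap.pi fun q => q.2.elim (ev n d (z q.1)) fun k => dv n d k (z q.1)

theorem mem_ker_rho {n d e : ℕ} {z : Fin e → Fin n → ℂ} {f : Pol n d}
    (h : f ∈ LinearMap.ker (rho n d z)) (i : Fin e) :
    eval (z i) (f : MvPolynomial (Fin n) ℂ) = 0 ∧
      ∀ k, eval (z i) (pderiv k (f : MvPolynomial (Fin n) ℂ)) = 0 := by
  rw [LinearMap.mem_ker] at h
  refine ⟨?_, fun k => ?_⟩
  · have h1 := congrFun h (i, none)
    change ev n d (z i) f = 0 at h1
    rwa [ev_apply] at h1
  · have h1 := congrFun h (i, some k)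
    change dv n d k (z i) f = 0 at h1
    rwa [dv_apply] at h1

theorem finrank_map_rho {n d e : ℕ} (z : Fin e → Fin n → ℂ) (Z : Submodule ℂ (Pol n d)) :
    finrank ℂ (Z.map (rho n d z)) ≤ (n + 1) * e := by
  refine (Submodule.finrank_le _).trans (le_of_eq ?_)
  rw [Module.finrank_fintype_fun_eq_card]
  simp [mul_comm]

/-- leaving out double points -/
theorem dbl {n d p e : ℕ} (z : Fin (p + e) → Fin n → ℂ) :
    finrank ℂ (Dbl n d Finset.univ fun i : Fin p => z (Fin.castAdd e i)) ≤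
      finrank ℂ (Dbl n d Finset.univ z) + (n + 1) * e := by
  have h1 := finrank_le_map_add_ker (rho n d fun i : Fin e => z (Fin.natAdd p i))
    (Dbl n d Finset.univ fun i : Fin p => z (Fin.castAdd e i))
  have h2 := finrank_map_rho (fun i : Fin e => z (Fin.natAdd p i))
    (Dbl n d Finset.univ fun i : Fin p => z (Fin.castAdd e i))
  have h3 : (Dbl n d Finset.univ fun i : Fin p => z (Fin.castAdd e i)) ⊓
      LinearMap.ker (rho n d fun i : Fin e => z (Fin.natAdd p i)) ≤ Dbl n d Finset.univ z := by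
    rintro f ⟨hf1, hf2⟩
    refine ⟨fun i => ?_, fun i _ k => ?_⟩
    · refine Fin.addCases (fun j => ?_) (fun j => ?_) i
      · exact hf1.1 j
      · exact (mem_ker_rho hf2 j).1
    · revert k
      refine Fin.addCases (fun j => ?_) (fun j => ?_) i
      · exact hf1.2 j (Finset.mem_univ _)
      · exact (mem_ker_rho hf2 j).2
  have h4 := Submodule.finrank_mono h3
  omega

/-- leaving out simple points of the hyperplane -/
theorem simple {n d l e : ℕ} (Z : Submodule ℂ (Pol (n + 1) d)) (y : Fin (l + e) → Fin n → ℂ) :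
    finrank ℂ ↥(Z ⊓ ⨅ i : Fin l, LinearMap.ker (ev (n + 1) d (hp (y (Fin.castAdd e i))))) ≤
      finrank ℂ ↥(Z ⊓ ⨅ i, LinearMap.ker (ev (n + 1) d (hp (y i)))) + e := by
  obtain ⟨ρ, hρ⟩ : ∃ ρ : Pol (n + 1) d →ₗ[ℂ] (Fin e → ℂ),
      ρ = LinearMap.pi fun i => ev (n + 1) d (hp (y (Fin.natAdd l i))) := ⟨_, rfl⟩
  have h1 := finrank_le_map_add_ker ρ
    (Z ⊓ ⨅ i : Fin l, LinearMap.ker (ev (n + 1) d (hp (y (Fin.castAdd e i)))))
  have h2 : finrank ℂ ((Z ⊓ ⨅ i : Fin l,
      LinearMap.ker (ev (n + 1) d (hp (y (Fin.castAdd e i))))).map ρ) ≤ e := by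
    refine (Submodule.finrank_le _).trans (le_of_eq ?_)
    rw [Module.finrank_fintype_fun_eq_card, Fintype.card_fin]
  have h3 : (Z ⊓ ⨅ i : Fin l, LinearMap.ker (ev (n + 1) d (hp (y (Fin.castAdd e i))))) ⊓
      LinearMap.ker ρ ≤ Z ⊓ ⨅ i, LinearMap.ker (ev (n + 1) d (hp (y i))) := by
    rintro f ⟨⟨hf1, hf2⟩, hf3⟩
    refine ⟨hf1, ?_⟩
    rw [SetLike.mem_coe, Submodule.mem_iInf] at hf2 ⊢
    intro i
    refine Fin.addCases (fun j => hf2 j) (fun j => ?_) i
    rw [SetLike.mem_coe, LinearMap.mem_ker, hρ] at hf3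
    exact congrFun hf3 j
  have h4 := Submodule.finrank_mono h3
  omega

end MOaux

open _root_.Pool.Agent.War5.MOaux in
theorem x_MO : S_MO := by
  constructor
  · rintro n d p p' ⟨z, hz⟩ hp
    obtain ⟨e, rfl⟩ : ∃ e, p = p' + e := ⟨p - p', by omega⟩
    refine ⟨fun i => z (Fin.castAdd e i), ?_⟩
    have h1 := dbl (d := d) z
    have h2 : (n + 1) * (p' + e) = (n + 1) * p' + (n + 1) * e := by ring
    omega
  · rintro n d p l p' l' ⟨w, y, hw⟩ hpp hll
    obtain ⟨e, rfl⟩ : ∃ e, p = p' + e := ⟨p - p', by omega⟩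
    obtain ⟨f, rfl⟩ : ∃ f, l = l' + f := ⟨l - l', by omega⟩
    refine ⟨fun i => w (Fin.castAdd e i), fun i => y (Fin.castAdd f i), ?_⟩
    have h1 : finrank ℂ (SWaux.DS n d (fun i : Fin p' => w (Fin.castAdd e i))
        fun i : Fin l' => y (Fin.castAdd f i)) ≤
        finrank ℂ ↥((Dbl (n + 1) d Finset.univ fun i : Fin p' => w (Fin.castAdd e i)) ⊓
          ⨅ i, LinearMap.ker (ev (n + 1) d (hp (y i)))) + f :=
      simple (e := f) (Dbl (n + 1) d Finset.univ fun i : Fin p' => w (Fin.castAdd e i)) y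
    have h2 : finrank ℂ ↥((Dbl (n + 1) d Finset.univ fun i : Fin p' => w (Fin.castAdd e i)) ⊓
        ⨅ i, LinearMap.ker (ev (n + 1) d (hp (y i)))) ≤
        finrank ℂ (SWaux.DS n d w y) + (n + 2) * e := by
      have k1 := finrank_le_map_add_ker (rho (n + 1) d fun i : Fin e => w (Fin.natAdd p' i))
        ((Dbl (n + 1) d Finset.univ fun i : Fin p' => w (Fin.castAdd e i)) ⊓
        ⨅ i, LinearMap.ker (ev (n + 1) d (hp (y i))))
      have k2 := finrank_map_rho (fun i : Fin e => w (Fin.natAdd p' i))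
        ((Dbl (n + 1) d Finset.univ fun i : Fin p' => w (Fin.castAdd e i)) ⊓
        ⨅ i, LinearMap.ker (ev (n + 1) d (hp (y i))))
      have k3 : ((Dbl (n + 1) d Finset.univ fun i : Fin p' => w (Fin.castAdd e i)) ⊓
          ⨅ i, LinearMap.ker (ev (n + 1) d (hp (y i)))) ⊓
          LinearMap.ker (rho (n + 1) d fun i : Fin e => w (Fin.natAdd p' i)) ≤
          SWaux.DS n d w y := by
        rintro f ⟨⟨hf1, hf2⟩, hf3⟩
        refine ⟨⟨fun i => ?_, fun i _ k => ?_⟩, hf2⟩
        · refine Fin.addCases (fun j => ?_) (fun j => ?_) i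
          · exact hf1.1 j
          · exact (mem_ker_rho hf3 j).1
        · revert k
          refine Fin.addCases (fun j => ?_) (fun j => ?_) i
          · exact hf1.2 j (Finset.mem_univ _)
          · exact (mem_ker_rho hf3 j).2
      have k4 := Submodule.finrank_mono k3
      have k5 : (n + 1 + 1) * e = (n + 2) * e := rfl
      omega
    have h3 : (n + 2) * (p' + e) = (n + 2) * p' + (n + 2) * e := by ring
    omega

end Pool.Agent.War5


end

section

/-!
# Simultaneous Waring decompositions, module NG3: the general conditions in degree 5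
-/

set_option autoImplicit false

open Pool.Agent.War Pool.Agent.WarS

namespace Pool.Agent.War5

namespace NG3aux

theorem gg4 (n : ℕ) (hn : 2 ≤ n) : gg n 4 = P4 n := by
  unfold gg
  rw [if_neg (by omega), if_neg (by omega), if_pos rfl]

theorem gg3 (n : ℕ) (hn : 2 ≤ n) : gg n 3 = (n + 3) ^ 2 / 9 := by
  unfold gg
  rw [if_neg (by omega), if_pos rfl]

theorem gg5 (n : ℕ) (hn : 3 ≤ n) : gg n 5 = NN n 5 / (n + 2) := by
  unfold gg
  rw [if_neg (by omega), if_neg (by omega), if_neg (by omega), if_neg (by omega)]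

theorem P45 : P4 5 = 20 := by
  simp [P4, Finset.sum_range_succ]

theorem P44 : P4 4 = 13 := by
  simp [P4, Finset.sum_range_succ]

/-- The arithmetic of `g3`: the comparison for `c = c₀ + j`. -/
theorem g3arith (n c M N5 P : ℤ) (hn : 5 ≤ n) (hc : n + 2 ≤ c)
    (hM : 24 * M = (n + 2) * (n + 3) * (n + 4) * (n + 5))
    (hN : 120 * N5 = (n + 1) * (n + 2) * (n + 3) * (n + 4) * (n + 5))
    (hP : (n + 4) * (n + 5) * (2 * n + 9) ≤ 54 * P + 30 + 48 * (n + 2)) :
    c * M < c * (c + 1) * (P - 2) + c + 1 + N5 := by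
  obtain ⟨k, hk, rfl⟩ : ∃ k : ℤ, 0 ≤ k ∧ n = k + 5 := ⟨n - 5, by linarith, by ring⟩
  obtain ⟨j, hj, rfl⟩ : ∃ j : ℤ, 0 ≤ j ∧ c = k + 5 + 2 + j := ⟨c - (k + 5 + 2), by linarith, by ring⟩
  have hP2 : (k + 9) * (k + 10) * (2 * k + 19) - 48 * k - 474 ≤ 54 * (P - 2) := by
    nlinarith [hP]
  have hPpos : 0 ≤ P - 2 := by nlinarith [mul_nonneg hk hk, mul_nonneg (mul_nonneg hk hk) hk]
  have hA : M ≤ (2 * k + 15) * (P - 2) := by
    have h1 : 54 * ((k + 7) * (k + 8) * (k + 9) * (k + 10)) ≤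
        24 * (2 * k + 15) * ((k + 9) * (k + 10) * (2 * k + 19) - 48 * k - 474) := by
      have h2 : 24 * (2 * k + 15) * ((k + 9) * (k + 10) * (2 * k + 19) - 48 * k - 474) -
          54 * ((k + 7) * (k + 8) * (k + 9) * (k + 10)) =
          42 * k ^ 4 + 1620 * k ^ 3 + 20910 * k ^ 2 + 106452 * k + 172800 := by ring
      have h3 : (0 : ℤ) ≤ 42 * k ^ 4 + 1620 * k ^ 3 + 20910 * k ^ 2 + 106452 * k + 172800 := by positivity
      linarith
    have h4 : 24 * (2 * k + 15) * ((k + 9) * (k + 10) * (2 * k + 19) - 48 * k - 474) ≤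
        24 * (2 * k + 15) * (54 * (P - 2)) := mul_le_mul_of_nonneg_left hP2 (by positivity)
    nlinarith [hM]
  have hB : (k + 7) * M < (k + 7) * (k + 8) * (P - 2) + (k + 7) + 1 + N5 := by
    have h5 : 54 * ((k + 9) * (k + 10) * (4 * k + 29)) ≤
        120 * ((k + 9) * (k + 10) * (2 * k + 19) - 48 * k - 474) := by
      have h6 : 120 * ((k + 9) * (k + 10) * (2 * k + 19) - 48 * k - 474) -
          54 * ((k + 9) * (k + 10) * (4 * k + 29)) =
          24 * k ^ 3 + 1170 * k ^ 2 + 9966 * k + 7380 := by ring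
      have h7 : (0 : ℤ) ≤ 24 * k ^ 3 + 1170 * k ^ 2 + 9966 * k + 7380 := by positivity
      linarith
    have h8 : 54 * ((k + 9) * (k + 10) * (4 * k + 29)) ≤ 120 * (54 * (P - 2)) :=
      h5.trans (mul_le_mul_of_nonneg_left hP2 (by norm_num))
    have h9 := mul_le_mul_of_nonneg_left h8 (show (0 : ℤ) ≤ (k + 7) * (k + 8) by positivity)
    nlinarith [hM, hN]
  have h10 : 0 ≤ j * ((2 * k + 15) * (P - 2) - M) := mul_nonneg hj (by linarith)
  have h11 : 0 ≤ j * j * (P - 2) := by positivity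
  nlinarith [hB, h10, h11]

theorem g1arith (n c u y N5 : ℤ) (hn : 5 ≤ n) (hc0 : 0 ≤ c) (hc : c ≤ 2 * n + 1) (hu : 0 ≤ u)
    (hy : y ≤ c - 1) (h : N5 = c * u + y)
    (hN : 120 * N5 = (n + 1) * (n + 2) * (n + 3) * (n + 4) * (n + 5)) : 3 * (n + 1) ≤ u := by
  by_contra hcon
  have hu2 : u ≤ 3 * n + 2 := by linarith [Int.not_le.1 hcon]
  have h1 : c * u ≤ (2 * n + 1) * (3 * n + 2) := mul_le_mul hc hu2 hu (by linarith)
  obtain ⟨k, hk, rfl⟩ : ∃ k : ℤ, 0 ≤ k ∧ n = k + 5 := ⟨n - 5, by linarith, by ring⟩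
  have h2 : (k + 5 + 1) * (k + 5 + 2) * (k + 5 + 3) * (k + 5 + 4) * (k + 5 + 5) -
      120 * ((2 * (k + 5) + 1) * (3 * (k + 5) + 2) + 2 * (k + 5)) =
      k ^ 5 + 40 * k ^ 4 + 635 * k ^ 3 + 4280 * k ^ 2 + 11244 * k + 6600 := by ring
  have h3 : (0 : ℤ) < k ^ 5 + 40 * k ^ 4 + 635 * k ^ 3 + 4280 * k ^ 2 + 11244 * k + 6600 := by
    positivity
  linarith

theorem g2arith (n u y N4 N5 : ℤ) (hn : 5 ≤ n) (hu : (n + 2) * u ≤ N5) (hy : y ≤ 2 * n)
    (h4 : 24 * N4 = (n + 1) * (n + 2) * (n + 3) * (n + 4))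
    (h5 : 120 * N5 = (n + 1) * (n + 2) * (n + 3) * (n + 4) * (n + 5)) :
    u + (n + 1) * y + (n + 1) ≤ N4 := by
  obtain ⟨k, hk, rfl⟩ : ∃ k : ℤ, 0 ≤ k ∧ n = k + 5 := ⟨n - 5, by linarith, by ring⟩
  have h1 : (k + 5 + 3) * (k + 5 + 4) * (4 * (k + 5) + 5) - 120 * (2 * (k + 5) + 1) =
      4 * k ^ 3 + 93 * k ^ 2 + 473 * k + 480 := by ring
  have h2 : (0 : ℤ) ≤ 4 * k ^ 3 + 93 * k ^ 2 + 473 * k + 480 := by positivity
  have h3 : (k + 5 + 1) * y ≤ (k + 5 + 1) * (2 * (k + 5)) :=
    mul_le_mul_of_nonneg_left hy (by linarith)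
  have h6 : 0 ≤ (k + 5 + 1) * (k + 5 + 2) *
      ((k + 5 + 3) * (k + 5 + 4) * (4 * (k + 5) + 5) - 120 * (2 * (k + 5) + 1)) := by
    rw [h1]
    positivity
  have h7 : 120 * ((k + 5 + 2) * (u + (k + 5 + 1) * y + (k + 5 + 1))) ≤ 120 * ((k + 5 + 2) * N4) := by
    have h8 : (k + 5 + 2) * ((k + 5 + 1) * y) ≤ (k + 5 + 2) * ((k + 5 + 1) * (2 * (k + 5))) :=
      mul_le_mul_of_nonneg_left h3 (by linarith)
    have h9 : 120 * ((k + 5 + 2) * N4) = 5 * (k + 5 + 2) * (24 * N4) := by ring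
    rw [h9, h4]
    nlinarith [h5, h6, h8, hu]
  have h10 : (k + 5 + 2) * (u + (k + 5 + 1) * y + (k + 5 + 1)) ≤ (k + 5 + 2) * N4 := by linarith
  exact le_of_mul_le_mul_left h10 (by linarith)

theorem g6arith (n y P : ℤ) (hn : 5 ≤ n) (hy : y ≤ 2 * n)
    (hP : (n + 3) * (n + 4) * (2 * n + 7) ≤ 54 * P + 30 + 48 * (n + 1)) : y ≤ P := by
  obtain ⟨k, hk, rfl⟩ : ∃ k : ℤ, 0 ≤ k ∧ n = k + 5 := ⟨n - 5, by linarith, by ring⟩
  have h1 : (k + 5 + 3) * (k + 5 + 4) * (2 * (k + 5) + 7) - 30 - 48 * (k + 5 + 1) - 108 * (k + 5) =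
      2 * k ^ 3 + 51 * k ^ 2 + 277 * k + 366 := by ring
  have h2 : (0 : ℤ) ≤ 2 * k ^ 3 + 51 * k ^ 2 + 277 * k + 366 := by positivity
  linarith

theorem g4arith (n r t u y M N5 N3 q : ℤ) (hn : 5 ≤ n) (hr : 1 ≤ r)
    (hu : (n + 2) * u ≤ N5) (hy : y ≤ n + r)
    (hM : 24 * M = (n + 2) * (n + 3) * (n + 4) * (n + 5))
    (h5 : 120 * N5 = (n + 1) * (n + 2) * (n + 3) * (n + 4) * (n + 5))
    (h3 : 6 * N3 = (n + 2) * (n + 3) * (n + 4)) (hq : (n + 4) ^ 2 ≤ 9 * q + 8)
    (ht : (r + 1) * M ≤ (n + r + 2) * t + (r + 1) * u + (n + 1) * y) :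
    N3 ≤ (n + 1) * q + t := by
  have s0 : 5 * N5 = (n + 1) * M := by
    have e : 24 * (5 * N5) = 24 * ((n + 1) * M) := by
      calc 24 * (5 * N5) = 120 * N5 := by ring
        _ = (n + 1) * (24 * M) := by rw [h5, hM]; ring
        _ = 24 * ((n + 1) * M) := by ring
    linarith
  have hMpos : 0 < M := by
    have : 0 < 24 * M := by rw [hM]; positivity
    linarith
  have s1 : 0 ≤ M - u := by
    have e : 0 ≤ (n + 2) * (M - u) := by nlinarith
    exact nonneg_of_mul_nonneg_right e (by linarith)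
  have s2 : 0 ≤ (n + r + 2) * ((n + 3) * t - 2 * (M - u) + (n + 3) * (n + 1)) := by
    have e1 : 0 ≤ (n + 1) * (r - 1) * (M - u) :=
      mul_nonneg (mul_nonneg (by linarith) (by linarith)) s1
    have e2 : (n + 3) * ((n + 1) * y) ≤ (n + 3) * ((n + 1) * (n + r + 2)) :=
      mul_le_mul_of_nonneg_left (mul_le_mul_of_nonneg_left (by linarith) (by linarith)) (by linarith)
    have e3 : (n + 3) * ((r + 1) * M) ≤ (n + 3) * ((n + r + 2) * t + (r + 1) * u + (n + 1) * y) :=
      mul_le_mul_of_nonneg_left ht (by linarith)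
    nlinarith [e1, e2, e3]
  have s3 : 0 ≤ (n + 3) * t - 2 * (M - u) + (n + 3) * (n + 1) :=
    nonneg_of_mul_nonneg_right s2 (by linarith)
  have s4 : 0 ≤ (n + 2) * (n + 3) * (120 * t - ((n + 4) * (n + 5) * (8 * n + 18) - 120 * (n + 1))) := by
    have e1 : 0 ≤ (n + 2) * ((n + 3) * t - 2 * (M - u) + (n + 3) * (n + 1)) :=
      mul_nonneg (by linarith) s3
    nlinarith [e1, hM, h5, hu]
  have s5 : 0 ≤ 120 * t - ((n + 4) * (n + 5) * (8 * n + 18) - 120 * (n + 1)) :=
    nonneg_of_mul_nonneg_right s4 (by positivity)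
  have s6 : (n + 1) * (n + 4) ^ 2 ≤ (n + 1) * (9 * q + 8) := mul_le_mul_of_nonneg_left hq (by linarith)
  have s7 : 0 ≤ 3 * ((n + 4) * (n + 5) * (8 * n + 18) - 120 * (n + 1)) +
      40 * (n + 1) * ((n + 4) ^ 2 - 8) - 60 * (n + 2) * (n + 3) * (n + 4) := by
    obtain ⟨k, hk, rfl⟩ : ∃ k : ℤ, 0 ≤ k ∧ n = k + 5 := ⟨n - 5, by linarith, by ring⟩
    have e : 3 * ((k + 5 + 4) * (k + 5 + 5) * (8 * (k + 5) + 18) - 120 * (k + 5 + 1)) +
      40 * (k + 5 + 1) * ((k + 5 + 4) ^ 2 - 8) - 60 * (k + 5 + 2) * (k + 5 + 3) * (k + 5 + 4) =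
      4 * k ^ 3 + 150 * k ^ 2 + 886 * k + 780 := by ring
    rw [e]
    positivity
  nlinarith [s5, s6, s7, h3]

end NG3aux

open _root_.Pool.Agent.War5.NG3aux in
theorem x_NG3 (hCF : S_CF) (hP : S_P4B) : S_NG3 := by
  intro n r u y hr hrn hS hN hy
  have hn4 : 4 ≤ n := by
    by_contra hcon
    apply hS
    unfold Small
    omega
  obtain ⟨-, -, cf4, cf5, -⟩ := hCF n
  obtain ⟨-, cf3', cf4', -, -⟩ := hCF (n + 1)
  obtain ⟨-, hP1⟩ := hP n
  obtain ⟨-, hP2⟩ := hP (n + 1)
  have e1 : gg (n + 1) 4 = P4 (n + 1) := gg4 _ (by omega)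
  have e2 : gg (n + 1) 3 = (n + 1 + 3) ^ 2 / 9 := gg3 _ (by omega)
  have e3 : gg n 5 = NN n 5 / (n + 2) := gg5 _ (by omega)
  have e4 : gg n 4 = P4 n := gg4 _ (by omega)
  rcases Nat.eq_or_lt_of_le hn4 with h4 | h5
  · subst h4
    have hr3 : r ≤ 3 := by
      by_contra hcon
      apply hS
      unfold Small
      omega
    norm_num at cf4 cf5 cf3' cf4'
    have N44 : NN 4 4 = 70 := by omega
    have N45 : NN 4 5 = 126 := by omega
    have N53 : NN 5 3 = 56 := by omega
    have N54 : NN 5 4 = 126 := by omega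
    rw [N45] at hN
    refine ⟨?_, ?_, ?_, ?_, ?_, ?_⟩
    · interval_cases r <;> omega
    · show u + (4 + 1) * y + (4 + 1) ≤ NN 4 4
      rw [N44]
      interval_cases r <;> omega
    · intro p hp
      have hp' : (4 + r + 2) * p + u ≤ NN 5 4 + y + 2 * (4 + r + 2) := hp
      rw [N54] at hp'
      show p ≤ gg 5 4
      rw [gg4 5 (by omega), P45]
      interval_cases r <;> omega
    · intro t ht
      have ht' : (r + 1) * NN 5 4 ≤ (4 + r + 2) * t + (r + 1) * u + (4 + 1) * y := ht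
      rw [N54] at ht'
      show NN 5 3 ≤ (4 + 1) * gg 5 3 + t
      rw [N53, gg3 5 (by omega)]
      norm_num
      interval_cases r <;> omega
    · show u ≤ gg 4 5
      rw [gg5 4 (by omega), N45]
      norm_num
      interval_cases r <;> omega
    · show y ≤ gg 4 4
      rw [gg4 4 (by omega), P44]
      interval_cases r <;> omega
  · have h5n : 5 ≤ n := h5
    have hyc : y ≤ n + r := hy
    have hcu : (n + r + 1) * u ≤ NN n 5 := by rw [hN]; omega
    have hu2 : (n + 2) * u ≤ NN n 5 := (Nat.mul_le_mul_right u (by omega)).trans hcu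
    refine ⟨?_, ?_, ?_, ?_, ?_, ?_⟩
    · have h := g1arith n (n + r + 1) u y (NN n 5) (by exact_mod_cast h5n) (by positivity)
        (by push_cast; linarith [(by exact_mod_cast hrn : (r : ℤ) ≤ n)]) (by positivity)
        (by linarith [(by exact_mod_cast hyc : (y : ℤ) ≤ n + r)]) (by exact_mod_cast hN)
        (by exact_mod_cast cf5)
      exact_mod_cast h
    · have h := g2arith n u y (NN n 4) (NN n 5) (by exact_mod_cast h5n) (by exact_mod_cast hu2)
        (by linarith [(by exact_mod_cast hyc : (y : ℤ) ≤ n + r), (by exact_mod_cast hrn : (r : ℤ) ≤ n)])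
        (by exact_mod_cast cf4) (by exact_mod_cast cf5)
      exact_mod_cast h
    · intro p hp
      have hp' : (n + r + 2) * p + u ≤ NN (n + 1) 4 + y + 2 * (n + r + 2) := hp
      show p ≤ gg (n + 1) 4
      rw [e1]
      by_contra hcon
      have hpP : P4 (n + 1) + 1 ≤ p := Nat.lt_of_not_le hcon
      have h := g3arith n (n + r + 1) (NN (n + 1) 4) (NN n 5) (P4 (n + 1)) (by exact_mod_cast h5n)
        (by linarith [(by exact_mod_cast hr : (1 : ℤ) ≤ r)])
        (by
          have e : ((24 * NN (n + 1) 4 : ℕ) : ℤ) =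
              (((n + 1 + 1) * (n + 1 + 2) * (n + 1 + 3) * (n + 1 + 4) : ℕ) : ℤ) := by rw [cf4']
          push_cast at e
          linarith)
        (by exact_mod_cast cf5)
        (by
          have e : (((n + 1 + 3) * (n + 1 + 4) * (2 * (n + 1) + 7) : ℕ) : ℤ) ≤
              ((54 * P4 (n + 1) + 30 + 48 * (n + 1 + 1) : ℕ) : ℤ) := by exact_mod_cast hP2
          push_cast at e
          linarith)
      have hpz : ((P4 (n + 1) : ℤ)) + 1 ≤ p := by exact_mod_cast hpP
      have hp2 : ((n : ℤ) + r + 2) * p + u ≤ NN (n + 1) 4 + y + 2 * (n + r + 2) := by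
        exact_mod_cast hp'
      have hN' : (NN n 5 : ℤ) = (n + r + 1) * u + y := by exact_mod_cast hN
      have hyz : (y : ℤ) ≤ n + r := by exact_mod_cast hyc
      have hm : ((n : ℤ) + r + 2) * (P4 (n + 1) + 1) ≤ (n + r + 2) * p :=
        mul_le_mul_of_nonneg_left hpz (by positivity)
      have hk : ((n : ℤ) + r + 1) * ((n + r + 2) * (P4 (n + 1) + 1) + u) ≤
          (n + r + 1) * (NN (n + 1) 4 + y + 2 * (n + r + 2)) :=
        mul_le_mul_of_nonneg_left (by linarith) (by positivity)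
      have hyy : ((n : ℤ) + r + 2) * y ≤ (n + r + 2) * (n + r) :=
        mul_le_mul_of_nonneg_left hyz (by positivity)
      nlinarith [h, hk, hyy, hN']
    · intro t ht
      have ht' : (r + 1) * NN (n + 1) 4 ≤ (n + r + 2) * t + (r + 1) * u + (n + 1) * y := ht
      show NN (n + 1) 3 ≤ (n + 1) * gg (n + 1) 3 + t
      rw [e2]
      have hq : (n + 4) ^ 2 ≤ 9 * ((n + 1 + 3) ^ 2 / 9) + 8 := by
        have e : n + 1 + 3 = n + 4 := by omega
        rw [e]
        omega
      have h := g4arith n r t u y (NN (n + 1) 4) (NN n 5) (NN (n + 1) 3)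
        (((n + 1 + 3) ^ 2 / 9 : ℕ) : ℤ) (by exact_mod_cast h5n) (by exact_mod_cast hr)
        (by exact_mod_cast hu2) (by exact_mod_cast hyc)
        (by
          have e : ((24 * NN (n + 1) 4 : ℕ) : ℤ) =
              (((n + 1 + 1) * (n + 1 + 2) * (n + 1 + 3) * (n + 1 + 4) : ℕ) : ℤ) := by rw [cf4']
          push_cast at e
          linarith)
        (by exact_mod_cast cf5)
        (by
          have e : ((6 * NN (n + 1) 3 : ℕ) : ℤ) =
              (((n + 1 + 1) * (n + 1 + 2) * (n + 1 + 3) : ℕ) : ℤ) := by rw [cf3']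
          push_cast at e
          linarith)
        (by exact_mod_cast hq) (by exact_mod_cast ht')
      exact_mod_cast h
    · show u ≤ gg n 5
      rw [e3, Nat.le_div_iff_mul_le (by omega), mul_comm]
      exact hu2
    · show y ≤ gg n 4
      rw [e4]
      have h := g6arith n y (P4 n) (by exact_mod_cast h5n)
        (by linarith [(by exact_mod_cast hyc : (y : ℤ) ≤ n + r), (by exact_mod_cast hrn : (r : ℤ) ≤ n)])
        (by exact_mod_cast hP1)
      exact_mod_cast h

end Pool.Agent.War5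


end

section

/-!
# NG5: the numerical conditions in degrees `≥ 7`, at least four variables

`x_NG5 : S_CF → S_NG5` (PAPER.md, section 4).
-/

set_option autoImplicit false

open Pool.Agent.War Pool.Agent.WarS

namespace Pool.Agent.War5

namespace NG5aux

theorem ratio (n d : ℕ) : NN n d * (n + d + 1) = NN n (d + 1) * (d + 1) := by
  have h := Nat.choose_mul_succ_eq (n + d) n
  have h1 : n + d + 1 - n = d + 1 := by omega
  rw [h1] at h
  exact h

/-- `T_7` -/
theorem T7 (hCF : S_CF) (n : ℕ) :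
    5040 * NN n 7 = (n + 1) * (n + 2) * (n + 3) * (n + 4) * (n + 5) * (n + 6) * (n + 7) := by
  have h := (hCF n).2.2.2.2
  have h2 := ratio n 6
  have h3 : NN n 6 * (n + 7) = NN n 7 * 7 := h2
  calc 5040 * NN n 7 = 720 * (NN n 7 * 7) := by ring
    _ = 720 * (NN n 6 * (n + 7)) := by rw [h3]
    _ = (720 * NN n 6) * (n + 7) := by ring
    _ = _ := by rw [h]

theorem b1 (n : ℕ) (hn : 3 ≤ n) :
    15120 * (2 * n + 1) ≤ (n + 2) * (n + 3) * (n + 4) * (n + 5) * (n + 6) * (n + 7) := by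
  obtain ⟨k, rfl⟩ := Nat.exists_eq_add_of_le hn
  nlinarith [Nat.zero_le (k ^ 2), Nat.zero_le (k ^ 3), Nat.zero_le (k ^ 4), Nat.zero_le (k ^ 5),
    Nat.zero_le (k ^ 6)]

theorem b2 (n : ℕ) (hn : 3 ≤ n) :
    5040 * (3 * n + 8) ≤ (n + 1) * (n + 3) * (n + 4) * (n + 5) * (n + 6) * (n + 7) := by
  obtain ⟨k, rfl⟩ := Nat.exists_eq_add_of_le hn
  nlinarith [Nat.zero_le (k ^ 2), Nat.zero_le (k ^ 3), Nat.zero_le (k ^ 4), Nat.zero_le (k ^ 5),
    Nat.zero_le (k ^ 6)]

theorem b3 (n : ℕ) (hn : 3 ≤ n) :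
    5040 * (2 * n + 1) ≤ (n + 3) * (n + 4) * (n + 5) * (n + 6) * (6 * n + 7) := by
  obtain ⟨k, rfl⟩ := Nat.exists_eq_add_of_le hn
  nlinarith [Nat.zero_le (k ^ 2), Nat.zero_le (k ^ 3), Nat.zero_le (k ^ 4), Nat.zero_le (k ^ 5)]

theorem b4 (n : ℕ) (hn : 3 ≤ n) :
    720 * (2 * n * (n + 2)) ≤ (n + 1) * (n + 2) * (n + 3) * (n + 4) * (n + 5) * (n + 6) := by
  obtain ⟨k, rfl⟩ := Nat.exists_eq_add_of_le hn
  nlinarith [Nat.zero_le (k ^ 2), Nat.zero_le (k ^ 3), Nat.zero_le (k ^ 4), Nat.zero_le (k ^ 5),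
    Nat.zero_le (k ^ 6)]

theorem b5 (n : ℕ) (hn : 3 ≤ n) :
    720 * (6 * (n + 3)) ≤ (n + 2) * (n + 3) * (n + 4) * (n + 5) * (n + 6) * (n + 7) := by
  obtain ⟨k, rfl⟩ := Nat.exists_eq_add_of_le hn
  nlinarith [Nat.zero_le (k ^ 2), Nat.zero_le (k ^ 3), Nat.zero_le (k ^ 4), Nat.zero_le (k ^ 5),
    Nat.zero_le (k ^ 6)]

theorem gg_eq {n k : ℕ} (h1 : 3 ≤ n) (h2 : 5 ≤ k) : gg n k = NN n k / (n + 2) := by
  unfold gg
  rw [if_neg (by omega), if_neg (by omega), if_neg (by omega), if_neg (by omega)]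

end NG5aux

open _root_.Pool.Agent.War5.NG5aux in
theorem x_NG5 (hCF : S_CF) : S_NG5 := by
  intro n d r u y hn hd hr hrn hT hy
  have hT7 : NN n 7 ≤ NN n (d + 2) := NN_mono_right (by omega)
  have hT6 : NN n 6 ≤ NN n (d + 1) := NN_mono_right (by omega)
  have hM6 : NN (n + 1) 6 ≤ NN (n + 1) (d + 1) := NN_mono_right (by omega)
  have e7 := T7 hCF n
  have e6 : 720 * NN n 6 = (n + 1) * (n + 2) * (n + 3) * (n + 4) * (n + 5) * (n + 6) :=
    (hCF n).2.2.2.2
  have eM : 720 * NN (n + 1) 6 = (n + 2) * (n + 3) * (n + 4) * (n + 5) * (n + 6) * (n + 7) :=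
    (hCF (n + 1)).2.2.2.2
  -- `T_7 ≥ 3 m (2 m - 1)`
  have c1 : 3 * (n + 1) * (2 * n + 1) ≤ NN n 7 := by
    have := Nat.mul_le_mul_left (n + 1) (b1 n hn)
    have h2 : 5040 * (3 * (n + 1) * (2 * n + 1)) ≤ 5040 * NN n 7 := by
      rw [e7]
      calc 5040 * (3 * (n + 1) * (2 * n + 1)) = (n + 1) * (15120 * (2 * n + 1)) := by ring
        _ ≤ _ := this
        _ = _ := by ring
    exact Nat.le_of_mul_le_mul_left h2 (by norm_num)
  have c2 : (n + 2) * (3 * n + 8) ≤ NN n 7 := by
    have := Nat.mul_le_mul_left (n + 2) (b2 n hn)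
    have h2 : 5040 * ((n + 2) * (3 * n + 8)) ≤ 5040 * NN n 7 := by
      rw [e7]
      calc 5040 * ((n + 2) * (3 * n + 8)) = (n + 2) * (5040 * (3 * n + 8)) := by ring
        _ ≤ _ := this
        _ = _ := by ring
    exact Nat.le_of_mul_le_mul_left h2 (by norm_num)
  have c4 : 2 * n * (n + 2) ≤ NN n 6 := by
    have := b4 n hn
    rw [← e6] at this
    exact Nat.le_of_mul_le_mul_left this (by norm_num)
  have c5 : 6 * (n + 3) ≤ NN (n + 1) 6 := by
    have := b5 n hn
    rw [← eM] at this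
    exact Nat.le_of_mul_le_mul_left this (by norm_num)
  -- `u ≥ 3 m`
  have g1 : 3 * (n + 1) ≤ u := by
    by_contra hlt
    push Not at hlt
    have h1 : (n + r + 1) * u ≤ (2 * n + 1) * (3 * n + 2) :=
      Nat.mul_le_mul (by omega) (by omega)
    nlinarith
  -- `(m + 1) u ≤ T`
  have hu : (n + 2) * u ≤ NN n (d + 2) := by
    have : (n + 2) * u ≤ (n + r + 1) * u := Nat.mul_le_mul_right _ (by omega)
    omega
  -- `T_{d+1} - u ≥ m (2 m - 1)`
  have key : u + (n + 1) * (2 * n + 1) ≤ NN n (d + 1) := by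
    have hrat : NN n (d + 1) * (n + d + 2) = NN n (d + 2) * (d + 2) := ratio n (d + 1)
    have h1 : (n + 2) * ((n + 1) * (2 * n + 1)) * 7 ≤ NN n (d + 1) * (6 * n + 7) := by
      have h2 : 720 * ((n + 2) * ((n + 1) * (2 * n + 1)) * 7) ≤ 720 * (NN n 6 * (6 * n + 7)) := by
        calc 720 * ((n + 2) * ((n + 1) * (2 * n + 1)) * 7)
            = (n + 2) * (n + 1) * (5040 * (2 * n + 1)) := by ring
          _ ≤ (n + 2) * (n + 1) * ((n + 3) * (n + 4) * (n + 5) * (n + 6) * (6 * n + 7)) :=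
              Nat.mul_le_mul_left _ (b3 n hn)
          _ = (720 * NN n 6) * (6 * n + 7) := by rw [e6]; ring
          _ = _ := by ring
      have h3 := Nat.le_of_mul_le_mul_left h2 (by norm_num)
      exact h3.trans (Nat.mul_le_mul_right _ hT6)
    -- `(d+2) ((m+1) T_{d+1} - T_{d+2}) = T_{d+1} (m (d+1) + 1)`
    have h4 : (d + 2) * ((n + 2) * NN n (d + 1)) =
        (d + 2) * NN n (d + 2) + NN n (d + 1) * ((n + 1) * (d + 1) + 1) := by
      have : (d + 2) * NN n (d + 2) = NN n (d + 1) * (n + d + 2) := by rw [hrat]; ring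
      rw [this]
      ring
    have h5 : (6 * n + 7) * (d + 2) ≤ 7 * ((n + 1) * (d + 1) + 1) := by
      obtain ⟨e, rfl⟩ := Nat.exists_eq_add_of_le hd
      nlinarith [Nat.zero_le (n * e)]
    have h6 : (n + 2) * (u + (n + 1) * (2 * n + 1)) ≤ (n + 2) * NN n (d + 1) := by
      have h7 : (7 * (d + 2)) * ((n + 2) * (u + (n + 1) * (2 * n + 1))) ≤
          (7 * (d + 2)) * ((n + 2) * NN n (d + 1)) := by
        have h8 : NN n (d + 1) * ((6 * n + 7) * (d + 2)) ≤
            NN n (d + 1) * (7 * ((n + 1) * (d + 1) + 1)) := Nat.mul_le_mul_left _ h5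
        have h9 : (d + 2) * ((n + 2) * ((n + 1) * (2 * n + 1)) * 7) ≤
            (d + 2) * (NN n (d + 1) * (6 * n + 7)) := Nat.mul_le_mul_left _ h1
        have h10 : (7 * (d + 2)) * ((n + 2) * u) ≤ (7 * (d + 2)) * NN n (d + 2) :=
          Nat.mul_le_mul_left _ hu
        calc (7 * (d + 2)) * ((n + 2) * (u + (n + 1) * (2 * n + 1)))
            = (7 * (d + 2)) * ((n + 2) * u) + (d + 2) * ((n + 2) * ((n + 1) * (2 * n + 1)) * 7) := by
              ring
          _ ≤ (7 * (d + 2)) * NN n (d + 2) + (d + 2) * (NN n (d + 1) * (6 * n + 7)) :=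
              Nat.add_le_add h10 h9
          _ = (7 * (d + 2)) * NN n (d + 2) + NN n (d + 1) * ((6 * n + 7) * (d + 2)) := by ring
          _ ≤ (7 * (d + 2)) * NN n (d + 2) + NN n (d + 1) * (7 * ((n + 1) * (d + 1) + 1)) :=
              Nat.add_le_add_left h8 _
          _ = 7 * ((d + 2) * NN n (d + 2) + NN n (d + 1) * ((n + 1) * (d + 1) + 1)) := by ring
          _ = 7 * ((d + 2) * ((n + 2) * NN n (d + 1))) := by rw [h4]
          _ = _ := by ring
      exact Nat.le_of_mul_le_mul_left h7 (by positivity)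
    exact Nat.le_of_mul_le_mul_left h6 (by positivity)
  have hy2 : y ≤ 2 * n := by omega
  have hMs : NN (n + 1) (d + 1) = NN n (d + 1) + NN (n + 1) d := NN_succ n d
  refine ⟨g1, ?_, ?_, ?_, ?_, ?_⟩
  · -- g2
    have : (n + 1) * y ≤ (n + 1) * (2 * n) := Nat.mul_le_mul_left _ hy2
    nlinarith
  · -- g3
    intro p hp
    rw [gg_eq (by omega) (by omega)]
    rw [Nat.le_div_iff_mul_le (by omega)]
    by_contra hlt
    push Not at hlt
    have hp6 : 7 ≤ p := by
      by_contra h6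
      push Not at h6
      have : p * (n + 1 + 2) ≤ 6 * (n + 1 + 2) := Nat.mul_le_mul_right _ (by omega)
      have h2 := c5.trans hM6
      omega
    obtain ⟨s, rfl⟩ := Nat.exists_eq_add_of_le hr
    have hexp : (n + (1 + s) + 2) * p = p * (n + 1 + 2) + s * p := by ring
    rw [hexp] at hp
    rcases Nat.eq_zero_or_pos s with rfl | hs
    · -- r = 1
      have hu3 : 3 * n + 7 ≤ u := by
        by_contra h3
        push Not at h3
        have h4 : (n + (1 + 0) + 1) * u ≤ (n + 2) * (3 * n + 6) :=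
          Nat.mul_le_mul (by omega) (by omega)
        nlinarith
      omega
    · have h7 : s * 7 ≤ s * p := Nat.mul_le_mul_left _ hp6
      omega
  · -- g4
    intro t ht
    rw [gg_eq (by omega) hd]
    have hq : NN (n + 1) d ≤ (n + 3) * (NN (n + 1) d / (n + 1 + 2)) + (n + 2) := by
      have h1 := Nat.div_add_mod (NN (n + 1) d) (n + 1 + 2)
      have h2 := Nat.mod_lt (NN (n + 1) d) (show 0 < n + 1 + 2 by omega)
      have h3 : (n + 1 + 2) * (NN (n + 1) d / (n + 1 + 2)) =
        (n + 3) * (NN (n + 1) d / (n + 1 + 2)) := by ring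
      omega
    set q := NN (n + 1) d / (n + 1 + 2) with hqdef
    -- `(m+2) t + m (m+2) ≥ 2 (M - u)`
    have h1 : 2 * NN (n + 1) (d + 1) ≤ (n + 3) * t + (n + 1) * (n + 3) + 2 * u := by
      have hMu : u ≤ NN (n + 1) (d + 1) := by omega
      obtain ⟨w, hw⟩ := Nat.exists_eq_add_of_le hMu
      rw [hw] at ht ⊢
      have ht' : (r + 1) * w ≤ (n + r + 2) * t + (n + 1) * y := by nlinarith
      have hy3 : (n + 1) * y ≤ (n + 1) * (n + r) := Nat.mul_le_mul_left _ hy
      have h2 : (n + r + 2) * (2 * w) ≤ (n + r + 2) * ((n + 3) * t + (n + 1) * (n + 3)) := by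
        have h3 : (n + r + 2) * (2 * w) ≤ (n + 3) * ((r + 1) * w) := by
          have : (n + r + 2) * 2 ≤ (n + 3) * (r + 1) := by
            obtain ⟨s, rfl⟩ := Nat.exists_eq_add_of_le hr
            nlinarith [Nat.zero_le (n * s)]
          calc (n + r + 2) * (2 * w) = ((n + r + 2) * 2) * w := by ring
            _ ≤ ((n + 3) * (r + 1)) * w := Nat.mul_le_mul_right _ this
            _ = _ := by ring
        calc (n + r + 2) * (2 * w) ≤ (n + 3) * ((r + 1) * w) := h3
          _ ≤ (n + 3) * ((n + r + 2) * t + (n + 1) * y) := Nat.mul_le_mul_left _ ht'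
          _ ≤ (n + 3) * ((n + r + 2) * t + (n + 1) * (n + r)) := by
              exact Nat.mul_le_mul_left _ (Nat.add_le_add_left hy3 _)
          _ ≤ (n + 3) * ((n + r + 2) * t + (n + 1) * (n + r + 2)) := by
              refine Nat.mul_le_mul_left _ (Nat.add_le_add_left (Nat.mul_le_mul_left _ ?_) _)
              omega
          _ = _ := by ring
      have h4 := Nat.le_of_mul_le_mul_left h2 (by omega)
      omega
    -- conclusion
    have h5 : (n + 3) * NN (n + 1) d ≤ (n + 3) * ((n + 1) * q + t) := by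
      have h6 : (n + 1) * NN (n + 1) d ≤ (n + 1) * ((n + 3) * q + (n + 2)) :=
        Nat.mul_le_mul_left _ hq
      rw [hMs] at h1
      nlinarith
    exact Nat.le_of_mul_le_mul_left h5 (by omega)
  · -- g5
    rw [gg_eq hn (by omega), Nat.le_div_iff_mul_le (by omega)]
    rw [mul_comm]
    exact hu
  · -- g6
    rw [gg_eq hn (by omega), Nat.le_div_iff_mul_le (by omega)]
    have : y * (n + 2) ≤ 2 * n * (n + 2) := Nat.mul_le_mul_right _ hy2
    omega

end Pool.Agent.War5


end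

section

set_option autoImplicit false

namespace Pool.Agent.War5

/-- the recursion of `P4` -/
theorem P4Baux.succ (n : ℕ) : P4 (n + 1) = P4 n + (n + 4) ^ 2 / 9 := by
  unfold P4
  rw [Finset.sum_range_succ]

theorem x_P4B : S_P4B := by
  intro n
  induction n with
  | zero => decide
  | succ n ih =>
    obtain ⟨h1, h2⟩ := ih
    have hs := P4Baux.succ n
    have h3 : 9 * ((n + 4) ^ 2 / 9) ≤ (n + 4) ^ 2 := Nat.mul_div_le _ _
    have h4 : (n + 4) ^ 2 < 9 * ((n + 4) ^ 2 / 9) + 9 := by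
      have := Nat.lt_mul_div_succ ((n + 4) ^ 2) (show 0 < 9 by norm_num)
      omega
    rw [hs]
    generalize hx : (n + 4) ^ 2 / 9 = x at *
    have e : (n + 1 + 3) * (n + 1 + 4) * (2 * (n + 1) + 7) =
        (n + 3) * (n + 4) * (2 * n + 7) + 6 * (n + 4) ^ 2 := by ring
    rw [e]
    constructor
    · omega
    · omega

end Pool.Agent.War5


end

section

/-!
# W5_SN5: the numerical condition of the Horace step, target degree 6
-/

set_option autoImplicit false

open Module MvPolynomial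
open Pool.Agent.War Pool.Agent.WarS

namespace Pool.Agent.War5

namespace SN5aux

lemma div_bd (C N k A : ℕ) (hC : 0 < C) (hk : 0 < k) (h : C * N = k * A) :
    C * (N / k) ≤ A ∧ A < C * (N / k) + C := by
  have h1 : N / k * k ≤ N := Nat.div_mul_le_self N k
  have h2 : N < (N / k + 1) * k := by
    have h3 := Nat.div_add_mod N k
    have h4 := Nat.mod_lt N hk
    nlinarith
  constructor
  · refine Nat.le_of_mul_le_mul_left ?_ hk
    calc k * (C * (N / k)) = C * (N / k * k) := by ring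
      _ ≤ C * N := Nat.mul_le_mul_left _ h1
      _ = k * A := h
  · refine Nat.lt_of_mul_lt_mul_left (a := k) ?_
    calc k * A = C * N := h.symm
      _ < C * ((N / k + 1) * k) := Nat.mul_lt_mul_of_pos_left h2 hC
      _ = k * (C * (N / k) + C) := by ring

/-- the arithmetic core, `m = k + 5` -/
lemma core (k G U Q P N4 N5 F : ℤ)
    (hG1 : 720 * G ≤ (k + 6) * (k + 8) * (k + 9) * (k + 10) * (k + 11))
    (hG2 : (k + 6) * (k + 8) * (k + 9) * (k + 10) * (k + 11) < 720 * G + 720)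
    (hU1 : 720 * U ≤ (k + 5) * (k + 7) * (k + 8) * (k + 9) * (k + 10))
    (hU2 : (k + 5) * (k + 7) * (k + 8) * (k + 9) * (k + 10) < 720 * U + 720)
    (hF : (k + 6) * (k + 8) * (k + 9) * (k + 10) < 120 * F + 120)
    (hk : 0 ≤ k) (hQ : Q = G - U)
    (h4 : 24 * N4 = (k + 6) * (k + 7) * (k + 8) * (k + 9))
    (h5 : 120 * N5 = (k + 6) * (k + 7) * (k + 8) * (k + 9) * (k + 10))
    (hP : (k + 8) * (k + 9) * (2 * k + 17) ≤ 54 * P + 30 + 48 * (k + 6)) :
    U ≤ G ∧ Q ≤ F ∧ N4 + U ≤ N5 ∧ U + (k + 6) * Q ≤ N5 ∧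
      N4 - (k + 6) * P + U + (k + 6) * Q ≤ N5 := by
  have k2 : 0 ≤ k ^ 2 := by positivity
  have k3 : 0 ≤ k ^ 3 := by positivity
  have k4 : 0 ≤ k ^ 4 := by positivity
  have k5 : 0 ≤ k ^ 5 := by positivity
  refine ⟨by nlinarith, by nlinarith, by nlinarith, ?_, ?_⟩
  · have h1 : 720 * (U + (k + 6) * Q) = 720 * G + (k + 5) * (720 * G - 720 * U) := by
      rw [hQ]; ring
    have h2 : (k + 5) * (720 * G - 720 * U) ≤ (k + 5) *
        ((k + 6) * (k + 8) * (k + 9) * (k + 10) * (k + 11) -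
          (k + 5) * (k + 7) * (k + 8) * (k + 9) * (k + 10) + 720) :=
      mul_le_mul_of_nonneg_left (by linarith) (by linarith)
    nlinarith
  · have h1 : 720 * (U + (k + 6) * Q) = 720 * G + (k + 5) * (720 * G - 720 * U) := by
      rw [hQ]; ring
    have h2 : (k + 5) * (720 * G - 720 * U) ≤ (k + 5) *
        ((k + 6) * (k + 8) * (k + 9) * (k + 10) * (k + 11) -
          (k + 5) * (k + 7) * (k + 8) * (k + 9) * (k + 10) + 720) :=
      mul_le_mul_of_nonneg_left (by linarith) (by linarith)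
    have h3 : (k + 6) * ((k + 8) * (k + 9) * (2 * k + 17)) ≤
        (k + 6) * (54 * P + 30 + 48 * (k + 6)) := mul_le_mul_of_nonneg_left hP (by linarith)
    nlinarith

end SN5aux

open _root_.Pool.Agent.War5.SN5aux in
theorem x_SN5 (hCF : S_CF) (hP : S_P4B) : S_SN5 := by
  intro n hn
  rcases Nat.lt_or_ge n 4 with h | h
  · interval_cases n
    · unfold SN; decide
    · unfold SN; decide
    · unfold SN; decide
  obtain ⟨k, rfl⟩ := Nat.exists_eq_add_of_le' h
  obtain ⟨-, -, c4, c5, c6⟩ := hCF (k + 4 + 1)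
  obtain ⟨-, -, -, -, d6⟩ := hCF (k + 4)
  have g1 : gg (k + 4) 6 = NN (k + 4) 6 / (k + 4 + 2) := by
    unfold gg
    rw [if_neg (by omega), if_neg (by omega), if_neg (by omega), if_neg (by omega)]
  have g2 : gg (k + 4 + 1) 6 = NN (k + 4 + 1) 6 / (k + 4 + 1 + 2) := by
    unfold gg
    rw [if_neg (by omega), if_neg (by omega), if_neg (by omega), if_neg (by omega)]
  have g3 : gg (k + 4 + 1) 5 = NN (k + 4 + 1) 5 / (k + 4 + 1 + 2) := by
    unfold gg
    rw [if_neg (by omega), if_neg (by omega), if_neg (by omega), if_neg (by omega)]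
  have g4 : gg (k + 4 + 1) 4 = P4 (k + 4 + 1) := by
    unfold gg
    rw [if_neg (by omega), if_neg (by omega), if_pos rfl]
  have b1 := div_bd 720 (NN (k + 4 + 1) 6) (k + 4 + 1 + 2)
    ((k + 6) * (k + 8) * (k + 9) * (k + 10) * (k + 11)) (by norm_num) (by omega) (by rw [c6]; ring)
  have b2 := div_bd 720 (NN (k + 4) 6) (k + 4 + 2)
    ((k + 5) * (k + 7) * (k + 8) * (k + 9) * (k + 10)) (by norm_num) (by omega) (by rw [d6]; ring)
  have b3 := div_bd 120 (NN (k + 4 + 1) 5) (k + 4 + 1 + 2)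
    ((k + 6) * (k + 8) * (k + 9) * (k + 10)) (by norm_num) (by omega) (by rw [c5]; ring)
  rw [← g1] at b2
  rw [← g2] at b1
  rw [← g3] at b3
  have p1 := (hP (k + 4 + 1)).2
  unfold SN
  have e5 : (5 : ℕ) + 1 = 6 := rfl
  have e4 : (5 : ℕ) - 1 = 4 := rfl
  rw [e5, e4]
  generalize gg (k + 4 + 1) 6 = G at *
  generalize gg (k + 4) 6 = U at *
  generalize gg (k + 4 + 1) 5 = F at *
  have hkap : ∀ q : ℕ, kap (k + 4 + 1) 4 q =
      NN (k + 4 + 1) 4 - (k + 4 + 1 + 1) * min q (P4 (k + 4 + 1)) := by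
    intro q
    unfold kap
    rw [if_neg (by omega), if_neg (by omega), g4, Nat.sub_zero]
  rw [hkap]
  generalize P4 (k + 4 + 1) = P at *
  generalize NN (k + 4 + 1) 4 = N4 at *
  generalize NN (k + 4 + 1) 5 = N5 at *
  have hGU : U ≤ G := by
    have h0 := (core k G U (G - U) P N4 N5 F (by exact_mod_cast b1.1) (by exact_mod_cast b1.2)
      (by exact_mod_cast b2.1) (by exact_mod_cast b2.2) (by exact_mod_cast b3.2) (by positivity)
      rfl (by zify at c4; linarith) (by zify at c5; linarith) (by zify at p1; linarith)).1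
    exact_mod_cast h0
  obtain ⟨Q, hQ⟩ := Nat.exists_eq_add_of_le hGU
  have hQ' : G - U = Q := by omega
  rw [hQ']
  obtain ⟨-, h2, h3, h4, h5⟩ := core k G U Q P N4 N5 F (by exact_mod_cast b1.1)
      (by exact_mod_cast b1.2)
      (by exact_mod_cast b2.1) (by exact_mod_cast b2.2) (by exact_mod_cast b3.2) (by positivity)
      (by rw [hQ]; push_cast; ring) (by zify at c4; linarith) (by zify at c5; linarith)
      (by zify at p1; linarith)
  refine ⟨hGU, by zify; linarith, ?_⟩
  have e6 : k + 4 + 1 + 1 = k + 6 := by omega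
  have e7 : k + 4 + 2 = k + 6 := by omega
  rw [e6, e7]
  rcases le_total ((k + 6) * min Q P) N4 with hc | hc
  · rcases le_total Q P with hq | hq
    · rw [min_eq_left hq] at hc ⊢
      zify
      rw [Nat.cast_sub hc]
      push_cast
      linarith
    · rw [min_eq_right hq] at hc ⊢
      zify
      rw [Nat.cast_sub hc]
      push_cast
      linarith
  · rw [Nat.sub_eq_zero_of_le hc, zero_add]
    zify
    linarith

end Pool.Agent.War5


end

section

/-!
# Module SN6: the numerical condition of the Horace step, degree at least seven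
-/

set_option autoImplicit false

open Module MvPolynomial
open Pool.Agent.War Pool.Agent.WarS

namespace Pool.Agent.War5

namespace SN6aux

theorem gg_eq {n d : ℕ} (hn : 3 ≤ n) (hd : 5 ≤ d) : gg n d = NN n d / (n + 2) := by
  unfold gg
  rw [if_neg (by omega), if_neg (by omega), if_neg (by omega), if_neg (by omega)]

theorem kap_eq {m d q : ℕ} (hd : 5 ≤ d) :
    kap m d q = NN m d - (m + 1) * min q (gg m d) := by
  unfold kap
  rw [if_neg (by omega), if_neg (by omega), Nat.sub_zero]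

theorem ratio (n d : ℕ) : NN n d * (n + d + 1) = NN n (d + 1) * (d + 1) := by
  have h := Nat.choose_mul_succ_eq (n + d) n
  have h1 : n + d + 1 - n = d + 1 := by omega
  rw [h1] at h
  exact h

theorem lt_div (a c : ℕ) (hc : 0 < c) : a < c * (a / c) + c := by
  have h1 := Nat.div_add_mod a c
  have h2 := Nat.mod_lt a hc
  omega

/-- the arithmetic: `T = T_(d+1)`, `T' = T_d`, `C = N(m,d-1)`, `m = k + 4`, `d = e + 6` -/
theorem arith (k e T T' C S : ℕ) (hT : T' * (k + e + 10) = T * (e + 7)) (hS : S ≤ T')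
    (hS6 : 720 * S = (k + 4) * (k + 5) * (k + 6) * (k + 7) * (k + 8) * (k + 9)) :
    T / (k + 5) ≤ (T + (T' + C)) / (k + 6) ∧
    (T + (T' + C)) / (k + 6) ≤ T / (k + 5) + (T' + C) / (k + 6) ∧
    (C - (k + 5) * min ((T + (T' + C)) / (k + 6) - T / (k + 5)) (C / (k + 6))) + T / (k + 5) +
      (k + 5) * ((T + (T' + C)) / (k + 6) - T / (k + 5)) ≤ T' + C := by
  -- `T ≤ (m+1) T'`, `T' ≤ T`
  have hT1 : T ≤ T' * (k + 5) := by
    have h1 : T * (e + 7) ≤ T' * (k + 5) * (e + 7) := by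
      rw [← hT, mul_assoc]
      refine Nat.mul_le_mul_left _ ?_
      have e1 : (k + 5) * (e + 7) = k * e + 7 * k + 5 * e + 35 := by ring
      rw [e1]
      have := Nat.zero_le (k * e)
      omega
    exact Nat.le_of_mul_le_mul_right h1 (by omega)
  have hT2 : T' ≤ T := by
    have h1 : T' * (e + 7) ≤ T * (e + 7) := by
      rw [← hT]
      exact Nat.mul_le_mul_left _ (by omega)
    exact Nat.le_of_mul_le_mul_right h1 (by omega)
  have hUT' : T / (k + 5) ≤ T' := by
    rw [Nat.div_le_iff_le_mul_add_pred (by omega)]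
    have e1 : (k + 5) * T' = T' * (k + 5) := mul_comm _ _
    omega
  have hUm : k + 4 ≤ T / (k + 5) := by
    rw [Nat.le_div_iff_mul_le (by omega)]
    have h1 : 720 * ((k + 4) * (k + 5)) ≤ 720 * S := by
      rw [hS6]
      have e1 : (k + 4) * (k + 5) * (k + 6) * (k + 7) * (k + 8) * (k + 9) =
          720 * ((k + 4) * (k + 5)) + (46080 + 53736 * k + 23854 * k ^ 2 + 5265 * k ^ 3 +
            625 * k ^ 4 + 39 * k ^ 5 + k ^ 6) := by ring
      rw [e1]
      exact Nat.le_add_right _ _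
    omega
  -- the main inequality `T + (m+1)^3 + m^2 (m+2) ≤ (m+1) T'`
  have hmain : T + ((k + 5) ^ 3 + (k + 4) ^ 2 * (k + 6)) ≤ (k + 5) * T' := by
    have h1 : 5040 * ((k + 5) ^ 3 + (k + 4) ^ 2 * (k + 6)) ≤ 720 * (T' * (6 * k + 25)) := by
      have h2 : 720 * (S * (6 * k + 25)) ≤ 720 * (T' * (6 * k + 25)) :=
        Nat.mul_le_mul_left _ (Nat.mul_le_mul_right _ hS)
      refine le_trans ?_ h2
      have e0 : 720 * (S * (6 * k + 25)) = 720 * S * (6 * k + 25) := by ring
      rw [e0, hS6]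
      have e1 : (k + 4) * (k + 5) * (k + 6) * (k + 7) * (k + 8) * (k + 9) * (6 * k + 25) =
          5040 * ((k + 5) ^ 3 + (k + 4) ^ 2 * (k + 6)) + (398160 + 1167720 * k + 829486 * k ^ 2 +
            268989 * k ^ 3 + 47215 * k ^ 4 + 4725 * k ^ 5 + 259 * k ^ 6 + 6 * k ^ 7) := by ring
      rw [e1]
      exact Nat.le_add_right _ _
    have h3 : 7 * ((k + 5) ^ 3 + (k + 4) ^ 2 * (k + 6)) ≤ T' * (6 * k + 25) := by omega
    -- `(d+1) ((m+1) T' - T) = T' (m d + 1)`, `7 (m d + 1) ≥ (6 m + 1) (d + 1)`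
    have h4 : T' * (6 * k + 25) * (e + 7) ≤ 7 * (T' * ((k + 4) * (e + 6) + 1)) := by
      have e1 : 7 * (T' * ((k + 4) * (e + 6) + 1)) = T' * (7 * ((k + 4) * (e + 6) + 1)) := by ring
      rw [e1, mul_assoc]
      refine Nat.mul_le_mul_left _ ?_
      have e2 : 7 * ((k + 4) * (e + 6) + 1) = (6 * k + 25) * (e + 7) + (k * e + 3 * e) := by ring
      rw [e2]
      exact Nat.le_add_right _ _
    have h5 : (k + 5) * T' * (e + 7) = T * (e + 7) + T' * ((k + 4) * (e + 6) + 1) := by
      rw [← hT]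
      ring
    have h6 : (7 * ((k + 5) ^ 3 + (k + 4) ^ 2 * (k + 6))) * (e + 7) ≤
        T' * (6 * k + 25) * (e + 7) := Nat.mul_le_mul_right _ h3
    have h7 : (T + ((k + 5) ^ 3 + (k + 4) ^ 2 * (k + 6))) * (e + 7) ≤
        (k + 5) * T' * (e + 7) := by
      have e3 : (7 * ((k + 5) ^ 3 + (k + 4) ^ 2 * (k + 6))) * (e + 7) =
        7 * (((k + 5) ^ 3 + (k + 4) ^ 2 * (k + 6)) * (e + 7)) := by ring
      rw [e3] at h6
      rw [add_mul, h5]
      omega
    exact Nat.le_of_mul_le_mul_right h7 (by omega)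
  -- division facts
  have dU1 : (k + 5) * (T / (k + 5)) ≤ T := Nat.mul_div_le _ _
  have dU2 : T < (k + 5) * (T / (k + 5)) + (k + 5) := lt_div T (k + 5) (by omega)
  have dG1 : (k + 6) * ((T + (T' + C)) / (k + 6)) ≤ T + (T' + C) := Nat.mul_div_le _ _
  have dB2 : T' + C < (k + 6) * ((T' + C) / (k + 6)) + (k + 6) := lt_div _ (k + 6) (by omega)
  have dg1 : (k + 6) * (C / (k + 6)) ≤ C := Nat.mul_div_le _ _
  have dg2 : C < (k + 6) * (C / (k + 6)) + (k + 6) := lt_div _ (k + 6) (by omega)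
  have hUG : T / (k + 5) ≤ (T + (T' + C)) / (k + 6) := by
    rw [Nat.le_div_iff_mul_le (by omega)]
    have e1 : T / (k + 5) * (k + 6) = (k + 5) * (T / (k + 5)) + T / (k + 5) := by ring
    omega
  generalize T / (k + 5) = U at *
  generalize (T + (T' + C)) / (k + 6) = G at *
  generalize (T' + C) / (k + 6) = gd at *
  generalize C / (k + 6) = g at *
  refine ⟨hUG, ?_, ?_⟩
  · by_contra hcon
    have h1 : U + gd + 1 ≤ G := by omega
    have h2 : (k + 6) * (U + gd + 1) ≤ (k + 6) * G := Nat.mul_le_mul_left _ h1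
    have e1 : (k + 6) * (U + gd + 1) = (k + 5) * U + U + (k + 6) * gd + (k + 6) := by ring
    rw [e1] at h2
    omega
  · obtain ⟨Q, rfl⟩ : ∃ Q, G = U + Q := ⟨G - U, by omega⟩
    rw [Nat.add_sub_cancel_left]
    rcases Nat.le_total Q g with hQ | hQ
    · rw [min_eq_left hQ]
      have h1 : (k + 5) * Q ≤ (k + 5) * g := Nat.mul_le_mul_left _ hQ
      have h2 : (k + 6) * g = (k + 5) * g + g := by ring
      omega
    · rw [min_eq_right hQ]
      have h2 : (k + 6) * g = (k + 5) * g + g := by ring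
      have key : U + (k + 5) * Q ≤ T' + (k + 5) * g := by
        have h3 : ((k + 5) * (k + 6)) * (U + (k + 5) * Q) ≤
            ((k + 5) * (k + 6)) * (T' + (k + 5) * g) := by
          have a1 : (k + 5) ^ 2 * ((k + 6) * (U + Q)) ≤ (k + 5) ^ 2 * (T + (T' + C)) :=
            Nat.mul_le_mul_left _ dG1
          have a2 : (k + 5) ^ 2 * C ≤ (k + 5) ^ 2 * ((k + 6) * g + (k + 5)) :=
            Nat.mul_le_mul_left _ (by omega)
          have a3 : (k + 4) * (k + 6) * T ≤ (k + 4) * (k + 6) * ((k + 5) * U + (k + 4)) :=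
            Nat.mul_le_mul_left _ (by omega)
          zify at a1 a2 a3 hmain ⊢
          linarith
        exact Nat.le_of_mul_le_mul_left h3 (by positivity)
      omega

end SN6aux

open _root_.Pool.Agent.War5.SN6aux

theorem x_SN6 (hCF : S_CF) : S_SN6 := by
  intro n d hn hd
  obtain ⟨k, rfl⟩ : ∃ k, n = k + 3 := ⟨n - 3, by omega⟩
  obtain ⟨e, rfl⟩ : ∃ e, d = e + 6 := ⟨d - 6, by omega⟩
  have hA : NN (k + 3 + 1) (e + 6 + 1) = NN (k + 3) (e + 6 + 1) + NN (k + 3 + 1) (e + 6) :=
    NN_succ (k + 3) (e + 6)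
  have hB : NN (k + 3 + 1) (e + 6) = NN (k + 3) (e + 6) + NN (k + 3 + 1) (e + 5) :=
    NN_succ (k + 3) (e + 5)
  have hT := ratio (k + 3) (e + 6)
  have hS : NN (k + 3) 6 ≤ NN (k + 3) (e + 6) := NN_mono_right (by omega)
  have hS6 := (hCF (k + 3)).2.2.2.2
  have key := arith k e (NN (k + 3) (e + 6 + 1)) (NN (k + 3) (e + 6)) (NN (k + 3 + 1) (e + 5))
    (NN (k + 3) 6) (by
      have e1 : k + 3 + (e + 6) + 1 = k + e + 10 := by ring
      rw [e1] at hT
      exact hT) hS (by rw [hS6])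
  unfold SN
  have e5 : e + 6 - 1 = e + 5 := by omega
  rw [gg_eq (n := k + 3) (by omega) (by omega), gg_eq (n := k + 3 + 1) (by omega) (by omega),
    gg_eq (n := k + 3 + 1) (by omega) (by omega), e5, kap_eq (by omega),
    gg_eq (n := k + 3 + 1) (by omega) (by omega), hA, hB]
  exact key

end Pool.Agent.War5


end

section

set_option autoImplicit false

open Module MvPolynomial
open Pool.Agent.War Pool.Agent.WarS

namespace Pool.Agent.War5

namespace SN7aux

theorem NN2 (k : ℕ) : 2 * NN 2 k = (k + 1) * (k + 2) := by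
  induction k with
  | zero => simp
  | succ k ih =>
    rw [NN_succ, NN_one, mul_add, ih]
    ring

theorem NN3_ge (k : ℕ) (hk : 5 ≤ k) : k + 3 ≤ NN 3 k := by
  induction k, hk using Nat.le_induction with
  | base => decide
  | succ k hk ih =>
    have h1 := NN_succ 2 k
    have h2 : 0 < NN 2 (k + 1) := NN_pos _ _
    have h3 : NN 3 (k + 1) = NN 2 (k + 1) + NN 3 k := h1
    omega

theorem gg1 (k : ℕ) : gg 1 k = (k + 1) / 2 := by simp [gg]

theorem gg2 (k : ℕ) (hk : 5 ≤ k) : gg 2 k = 2 * NN 2 k / 7 := by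
  unfold gg
  rw [if_neg (by omega), if_neg (by omega), if_neg (by omega), if_pos rfl]

theorem gg3 (k : ℕ) (hk : 5 ≤ k) : gg 3 k = NN 3 k / 5 := by
  unfold gg
  rw [if_neg (by omega), if_neg (by omega), if_neg (by omega), if_neg (by omega)]

theorem kap_eq (m e q : ℕ) (he : 5 ≤ e) : kap m e q = NN m e - (m + 1) * min q (gg m e) := by
  unfold kap
  rw [if_neg (by omega), if_neg (by omega), Nat.sub_zero]

theorem case1 (e : ℕ) (he : 5 ≤ e) : SN 1 (e + 1) := by
  have a0 := NN2 e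
  have a1 : NN 2 (e + 1) = e + 2 + NN 2 e := by
    have h := NN_succ 1 e
    rw [NN_one] at h
    have h3 : NN 2 (e + 1) = e + 1 + 1 + NN 2 e := h
    omega
  have a2 : NN 2 (e + 1 + 1) = e + 3 + NN 2 (e + 1) := by
    have h := NN_succ 1 (e + 1)
    rw [NN_one] at h
    have h3 : NN 2 (e + 1 + 1) = e + 1 + 1 + 1 + NN 2 (e + 1) := h
    omega
  have g1 := gg1 (e + 1 + 1)
  have g2 := gg2 (e + 1 + 1) (by omega)
  have g3 := gg2 (e + 1) (by omega)
  have g4 := gg2 e he
  have hk := kap_eq 2 e (gg 2 (e + 1 + 1) - gg 1 (e + 1 + 1)) he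
  unfold SN
  show gg 1 (e + 1 + 1) ≤ gg 2 (e + 1 + 1) ∧ gg 2 (e + 1 + 1) ≤ gg 1 (e + 1 + 1) + gg 2 (e + 1) ∧
    kap 2 e (gg 2 (e + 1 + 1) - gg 1 (e + 1 + 1)) + gg 1 (e + 1 + 1) +
      3 * (gg 2 (e + 1 + 1) - gg 1 (e + 1 + 1)) ≤ NN 2 (e + 1)
  rw [hk, g1, g2, g3, g4, a2, a1]
  generalize hN : NN 2 e = N at *
  have hb : 7 * e + 7 ≤ 2 * N := by
    rw [a0]
    nlinarith
  by_cases h10 : 10 ≤ e
  · refine ⟨by omega, by omega, ?_⟩
    rw [Nat.min_def]
    split_ifs <;> omega
  · have h5 : e = 5 ∨ e = 6 ∨ e = 7 ∨ e = 8 ∨ e = 9 := by omega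
    rcases h5 with rfl | rfl | rfl | rfl | rfl
    · have : N = 21 := by omega
      subst this
      decide
    · have : N = 28 := by omega
      subst this
      decide
    · have : N = 36 := by omega
      subst this
      decide
    · have : N = 45 := by omega
      subst this
      decide
    · have : N = 55 := by omega
      subst this
      decide

theorem case2 (e : ℕ) (he : 5 ≤ e) : SN 2 (e + 1) := by
  have a0 := NN2 e
  have a1 : NN 2 (e + 1) = e + 2 + NN 2 e := by
    have h := NN_succ 1 e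
    rw [NN_one] at h
    have h3 : NN 2 (e + 1) = e + 1 + 1 + NN 2 e := h
    omega
  have a2 : NN 2 (e + 1 + 1) = e + 3 + NN 2 (e + 1) := by
    have h := NN_succ 1 (e + 1)
    rw [NN_one] at h
    have h3 : NN 2 (e + 1 + 1) = e + 1 + 1 + 1 + NN 2 (e + 1) := h
    omega
  have b1 : NN 3 (e + 1) = NN 2 (e + 1) + NN 3 e := NN_succ 2 e
  have b2 : NN 3 (e + 1 + 1) = NN 2 (e + 1 + 1) + NN 3 (e + 1) := NN_succ 2 (e + 1)
  have b3 := NN3_ge e he
  have g1 := gg2 (e + 1 + 1) (by omega)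
  have g2 := gg3 (e + 1 + 1) (by omega)
  have g3 := gg3 (e + 1) (by omega)
  have g4 := gg3 e he
  have hk := kap_eq 3 e (gg 3 (e + 1 + 1) - gg 2 (e + 1 + 1)) he
  unfold SN
  show gg 2 (e + 1 + 1) ≤ gg 3 (e + 1 + 1) ∧ gg 3 (e + 1 + 1) ≤ gg 2 (e + 1 + 1) + gg 3 (e + 1) ∧
    kap 3 e (gg 3 (e + 1 + 1) - gg 2 (e + 1 + 1)) + gg 2 (e + 1 + 1) +
      4 * (gg 3 (e + 1 + 1) - gg 2 (e + 1 + 1)) ≤ NN 3 (e + 1)
  rw [hk, g1, g2, g3, g4, b2, b1, a2, a1]
  generalize NN 2 e = N at *
  generalize NN 3 e = M at *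
  have hb : 7 * e + 7 ≤ 2 * N := by
    rw [a0]
    nlinarith
  clear a0
  refine ⟨by omega, by omega, ?_⟩
  rw [Nat.min_def]
  split_ifs <;> omega

end SN7aux

open _root_.Pool.Agent.War5.SN7aux in
/-- SN7. -/
theorem x_SN7 : S_SN7 := by
  intro n d h1 h2 h3
  obtain ⟨e, rfl⟩ : ∃ e, d = e + 1 := ⟨d - 1, by omega⟩
  have hn : n = 1 ∨ n = 2 := by omega
  rcases hn with rfl | rfl
  · exact case1 e (by omega)
  · exact case2 e (by omega)

end Pool.Agent.War5


end

section

/-!
# Simultaneous Waring decompositions (MP_db021c_ag), few forms: assembly   (helper88)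
-/

set_option autoImplicit false

open Module MvPolynomial
open Pool.Agent.War

namespace Pool.Agent.WarS

namespace FEWm

theorem fib_sigma {s : ℕ} (p : Fin s → ℕ) (j : Fin s) :
    fib (fun i : (j : Fin s) × Fin (p j) => i.1) j = p j := by
  unfold fib
  have h : (Finset.univ.filter fun i : (j : Fin s) × Fin (p j) => i.1 = j) =
      Finset.univ.image fun k : Fin (p j) => (⟨j, k⟩ : (j : Fin s) × Fin (p j)) := by
    ext ⟨i, k⟩
    simp only [Finset.mem_filter, Finset.mem_univ, true_and, Finset.mem_image]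
    constructor
    · rintro rfl
      exact ⟨k, rfl⟩
    · rintro ⟨k', hk⟩
      have := congrArg Sigma.fst hk
      exact this.symm
  rw [h, Finset.card_image_of_injective]
  · simp
  · intro k k' hk
    simpa using hk

/-- the critical case, as a statement on the sum type of all points -/
theorem crit (hGD : S_GD) (hRES : S_RES) (hTRA : S_TRA) (hDH : S_DH) (hNUM : S_NUM)
    {n d r : ℕ} (hn : 1 ≤ n) (hr : 1 ≤ r) (hrn : r ≤ n)
    (hd : 4 * (n + 1) ^ 2 * (n + 3) ≤ d + 3) {h : ℕ}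
    (h1 : (r + 1) * NN (n + 1) (d + 2) ≤ (n + r + 2) * h)
    (h2 : (n + r + 2) * h < (r + 1) * NN (n + 1) (d + 2) + (n + r + 2)) :
    ∃ (z : Fin h → Fin (n + 1) → ℂ) (a : Fin h → Fin (r + 1) → ℂ),
      ∀ f : Fin (r + 1) → MvPolynomial (Fin (n + 1)) ℂ, (∀ j, (f j).totalDegree ≤ d + 2) →
        (∀ i j, eval (z i) (f j) = 0) →
        (∀ i k, ∑ j, a i j * eval (z i) (pderiv k (f j)) = 0) → ∀ j, f j = 0 := by
  obtain ⟨u, y, p, e1, hy, e2, c1, c2, c3, c4⟩ := hNUM n d r hn hr hrn hd h h1 h2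
  let I := (j : Fin (r + 1)) × Fin (p j)
  let π : I → Fin (r + 1) := fun i => i.1
  have hfib : ∀ j, fib π j = p j := fib_sigma p
  have hcard : Fintype.card I = ∑ j, p j := by
    rw [Fintype.card_sigma]
    simp
  set m := ∑ j, p j with hm
  have hn2 : 4 * n ^ 2 * (n + 2) ≤ 4 * (n + 1) ^ 2 * (n + 3) := by
    have : n ^ 2 ≤ (n + 1) ^ 2 := Nat.pow_le_pow_left (by omega) 2
    exact Nat.mul_le_mul (Nat.mul_le_mul_left 4 this) (by omega)
  have hlin : ∀ k : ℕ, k + 1 ≤ NN n k := by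
    intro k
    obtain ⟨n', rfl⟩ : ∃ n', n = n' + 1 := ⟨n - 1, by omega⟩
    clear * -
    induction k with
    | zero => rw [NN_zero_right]
    | succ k ih =>
      rw [NN_succ]
      have := NN_pos n' (k + 1)
      omega
  -- double points
  have g1 : ∀ j, GG (n + 1) d (fib π j) := fun j => by
    rw [hfib]
    exact hGD (n + 1) d (p j) (by omega) hd (c4 j)
  have g2 : ∀ j, GG (n + 1) (d + 1) (fib π j) := fun j => by
    rw [hfib]
    exact hGD (n + 1) (d + 1) (p j) (by omega) (hd.trans (by omega))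
      ((c4 j).trans (NN_mono_right (by omega)))
  have g3 : GG n (d + 1) y := by
    refine hGD n (d + 1) y hn (hn2.trans (hd.trans (by omega))) ?_
    have a1 := hlin (d + 1 + 2)
    have a2 : (n + 2) * y ≤ (n + 2) * (2 * n) := Nat.mul_le_mul_left _ (by omega)
    have a3 : (n + 2) * (2 * n) ≤ 4 * (n + 1) ^ 2 * (n + 3) := by nlinarith
    omega
  have g4 : GG n (d + 2) u := by
    refine hGD n (d + 2) u hn (hn2.trans (hd.trans (by omega))) ?_
    have a1 : NN n (d + 2) ≤ NN n (d + 2 + 2) := NN_mono_right (by omega)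
    have a2 : (n + 2) * u ≤ (n + r + 1) * u := Nat.mul_le_mul_right _ (by omega)
    omega
  have hN := NN_succ n (d + 1)
  have key : (r + 1) * NN (n + 1) (d + 1) ≤
      (n + r + 2) * Fintype.card I + (n + 1) * y + u + r * u := by
    rw [hcard]
    rw [← e2, hN, e1] at h1
    nlinarith
  have R := hRES n d r u (r * u) y I π hn g1 g2 g3 (fun j => by rw [hfib, hcard]; exact c1 j)
    (by rw [hfib, hcard]; exact c2) (fun j => by rw [hfib, hcard]; exact c3 j) key
  have T := hTRA n d r u y hn g4 (le_of_eq e1)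
  have O : Gen ℂ fun z : I → Fin (n + 1) → ℂ => ∀ i, z i 0 ≠ 0 := gen_off
  have T' := T.comp (LinearMap.snd ℂ (I → Fin (n + 1) → ℂ) ((Fin u → Fin n → ℂ) ×
    (Fin (r * u) → Fin n → ℂ) × (Fin (r * u) → Fin (r + 1) → ℂ) × (Fin y → Fin n → ℂ)))
    Prod.snd_surjective
  have O' := O.comp (LinearMap.fst ℂ (I → Fin (n + 1) → ℂ) ((Fin u → Fin n → ℂ) ×
    (Fin (r * u) → Fin n → ℂ) × (Fin (r * u) → Fin (r + 1) → ℂ) × (Fin y → Fin n → ℂ)))
    Prod.fst_surjective
  obtain ⟨⟨w, z1, z2, a, z0⟩, ⟨hR, hT⟩, hO⟩ := ((R.and T').and O').exists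
  obtain ⟨t, ht⟩ := hDH n d r u (r * u) y I π w z1 z2 a z0 hO hT.1 hT.2 hR
  -- all points
  let α := I ⊕ (Fin u ⊕ (Fin (r * u) ⊕ Fin y))
  have hα : Fintype.card α = h := by
    simp only [α, Fintype.card_sum, Fintype.card_fin]
    rw [hcard, ← e2]
    ring
  let e : α ≃ Fin h := Fintype.equivFinOfCardEq hα
  let Z : α → Fin (n + 1) → ℂ := Sum.elim w (Sum.elim (fun i => hp (z1 i))
    (Sum.elim (fun i => hp (z2 i)) (fun i => Fin.cons t (z0 i))))
  let A : α → Fin (r + 1) → ℂ := Sum.elim (fun i => Pi.single (π i) 1)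
    (Sum.elim (fun _ => Pi.single 0 1) (Sum.elim a (fun _ => Pi.single 0 1)))
  have hs : ∀ (k : Fin (r + 1)) (g : Fin (r + 1) → ℂ),
      ∑ j, (Pi.single k 1 : Fin (r + 1) → ℂ) j * g j = g k := by
    intro k g
    rw [Finset.sum_eq_single k]
    · rw [Pi.single_eq_same, one_mul]
    · intro j _ hj
      rw [Pi.single_eq_of_ne hj, zero_mul]
    · intro hk
      exact absurd (Finset.mem_univ k) hk
  refine ⟨fun i => Z (e.symm i), fun i => A (e.symm i), fun f hf hf0 hf1 => ?_⟩
  have k0 : ∀ x : α, ∀ j, eval (Z x) (f j) = 0 := fun x j => by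
    have := hf0 (e x) j
    simpa only [Equiv.symm_apply_apply] using this
  have k1 : ∀ x : α, ∀ k, ∑ j, A x j * eval (Z x) (pderiv k (f j)) = 0 := fun x k => by
    have := hf1 (e x) k
    simpa only [Equiv.symm_apply_apply] using this
  refine ht f hf (fun i j => k0 (Sum.inl i) j) (fun i k => ?_)
    (fun i j => k0 (Sum.inr (Sum.inl i)) j) (fun i k => ?_)
    (fun i j => k0 (Sum.inr (Sum.inr (Sum.inl i))) j)
    (fun i k => k1 (Sum.inr (Sum.inr (Sum.inl i))) k)
    (fun i j => k0 (Sum.inr (Sum.inr (Sum.inr i))) j) (fun i k => ?_)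
  · have := k1 (Sum.inl i) k
    rw [← hs (π i) (fun j => eval (w i) (pderiv k (f j)))]
    exact this
  · have := k1 (Sum.inr (Sum.inl i)) k
    rw [← hs 0 (fun j => eval (hp (z1 i)) (pderiv k (f j)))]
    exact this
  · have := k1 (Sum.inr (Sum.inr (Sum.inr i))) k
    rw [← hs 0 (fun j => eval (Fin.cons t (z0 i) : Fin (n + 1) → ℂ) (pderiv k (f j)))]
    exact this

end FEWm

open _root_.Pool.Agent.WarS.FEWm in
/-- few forms -/
theorem FEW (hGD : S_GD) (hRES : S_RES) (hTRA : S_TRA) (hDH : S_DH) (hNUM : S_NUM) : S_FEW := by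
  intro n d r h hn hr hrn hd hh
  -- the critical value
  set D := n + r + 2 with hD
  have hDp : 0 < D := by omega
  set B := (r + 1) * NN (n + 1) (d + 2) with hB
  set h0 := (B + (D - 1)) / D with hh0
  have a1 : B ≤ D * h0 := by
    have := Nat.lt_mul_div_succ (B + (D - 1)) hDp
    rw [← hh0, Nat.mul_add, mul_one] at this
    omega
  have a2 : D * h0 < B + D := by
    have : D * h0 ≤ B + (D - 1) := by rw [hh0]; exact Nat.mul_div_le _ _
    omega
  have a3 : h0 ≤ h := by
    by_contra hc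
    push Not at hc
    have : D * (h + 1) ≤ D * h0 := Nat.mul_le_mul_left _ hc
    rw [Nat.mul_add, mul_one] at this
    omega
  obtain ⟨z, a, hz⟩ := crit hGD hRES hTRA hDH hNUM hn hr hrn hd a1 a2
  refine ⟨fun i => if hi : i.val < h0 then z ⟨i.val, hi⟩ else 0,
    fun i => if hi : i.val < h0 then a ⟨i.val, hi⟩ else 0, fun i => i.elim0, ?_⟩
  intro f hf hf0 hf1 _
  refine hz f hf (fun i j => ?_) (fun i k => ?_)
  · have := hf0 (Fin.castLE a3 i) j
    simpa using this
  · have := hf1 (Fin.castLE a3 i) k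
    simpa using this

end Pool.Agent.WarS


end

section

/-!
# Simultaneous Waring decompositions (MP_db021c_ag): decoupled differential Horace step   (helper27)

The idea is due to helper25. The number of affine variables is `n + 1` (hyperplane `x₀ = 0`), the number
of forms `r + 1`, the degree `d + 2`. Points: `(w i, b i)` off the hyperplane, `(z i, a i)` on the
hyperplane, `((t, y i), α i)` near the hyperplane. For `t → 0` the trace system for
`ρ ∈ (Pol n (d+2))^(r+1)` and the residual system for `g ∈ (Pol (n+1) (d+1))^(r+1)` decouple.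
-/

set_option autoImplicit false

open Module MvPolynomial
open Pool.Agent.War Pool.Agent.WarS

namespace Pool.Agent.WarD

/-- trace system -/
def TrB (d : ℕ) {n r : ℕ} {U Y : Type} (z : U → Fin n → ℂ) (a : U → Fin (r + 1) → ℂ)
    (y : Y → Fin n → ℂ) (α : Y → Fin (r + 1) → ℂ) : Prop :=
  ∀ f : Fin (r + 1) → MvPolynomial (Fin n) ℂ, (∀ j, (f j).totalDegree ≤ d + 2) →
    (∀ i j, eval (z i) (f j) = 0) → (∀ i k, ∑ j, a i j * eval (z i) (pderiv k (f j)) = 0) →
    (∀ i, ∑ j, α i j * eval (y i) (f j) = 0) → ∀ j, f j = 0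

/-- residual system -/
def ReB (d : ℕ) {n r : ℕ} {I U Y : Type} (w : I → Fin (n + 1) → ℂ) (b : I → Fin (r + 1) → ℂ)
    (z : U → Fin n → ℂ) (a : U → Fin (r + 1) → ℂ) (y : Y → Fin n → ℂ)
    (α : Y → Fin (r + 1) → ℂ) : Prop :=
  ∀ g : Fin (r + 1) → MvPolynomial (Fin (n + 1)) ℂ, (∀ j, (g j).totalDegree ≤ d + 1) →
    (∀ i j, eval (w i) (g j) = 0) → (∀ i k, ∑ j, b i j * eval (w i) (pderiv k (g j)) = 0) →
    (∀ i, ∑ j, a i j * eval (hp (z i)) (g j) = 0) →
    (∀ i j, eval (hp (y i)) (g j) = 0) →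
    (∀ i (k : Fin n), ∑ j, α i j * eval (hp (y i)) (pderiv k.succ (g j)) = 0) → ∀ j, g j = 0

/-- the full points kill -/
def KiB (d : ℕ) {n r : ℕ} {I U Y : Type} (w : I → Fin (n + 1) → ℂ) (b : I → Fin (r + 1) → ℂ)
    (z : U → Fin n → ℂ) (a : U → Fin (r + 1) → ℂ) (y : Y → Fin n → ℂ)
    (α : Y → Fin (r + 1) → ℂ) (t : ℂ) : Prop :=
  ∀ f : Fin (r + 1) → MvPolynomial (Fin (n + 1)) ℂ, (∀ j, (f j).totalDegree ≤ d + 2) →
    (∀ i j, eval (w i) (f j) = 0) → (∀ i k, ∑ j, b i j * eval (w i) (pderiv k (f j)) = 0) →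
    (∀ i j, eval (hp (z i)) (f j) = 0) →
    (∀ i k, ∑ j, a i j * eval (hp (z i)) (pderiv k (f j)) = 0) →
    (∀ i j, eval (Fin.cons t (y i) : Fin (n + 1) → ℂ) (f j) = 0) →
    (∀ i k, ∑ j, α i j * eval (Fin.cons t (y i) : Fin (n + 1) → ℂ) (pderiv k (f j)) = 0) →
    ∀ j, f j = 0

/-- DHB. For `t ≠ 0` write `f = t ρ + x₀ g`. Near points: `ρ_j(y) + g_j(t,y) = 0` for all `j`,
`∑ α_j (∂_k ρ_j(y) + ∂_k g_j(t,y)) = 0`, `∑ α_j (g_j(t,y) + t ∂_0 g_j(t,y)) = 0`. At `t = 0`:
`∑ α_j ρ_j(y) = 0`, so `ρ = 0` by the trace system, then `g = 0` by the residual system. -/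
def S_DHB : Prop := ∀ (n d r : ℕ) (I U Y : Type) [Finite I] [Finite U] [Finite Y]
  (w : I → Fin (n + 1) → ℂ) (b : I → Fin (r + 1) → ℂ) (z : U → Fin n → ℂ)
  (a : U → Fin (r + 1) → ℂ) (y : Y → Fin n → ℂ) (α : Y → Fin (r + 1) → ℂ), (∀ i, w i 0 ≠ 0) →
  TrB d z a y α → ReB d w b z a y α → ∃ t : ℂ, KiB d w b z a y α t

/-- number of the points of type `j` -/
abbrev fb {I : Type} [Fintype I] {s : ℕ} (π : I → Fin s) (j : Fin s) : ℕ := fib π j

/-- TRB. At pure vectors `a i = e_(υ i)` the solutions of the conditions at the points `z i` form the space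
`∏ Dbl n (d+2) {υ = j} z`, of dimension `≤ ∑_j (NN n (d+2) - (n u_j + U))` (`S_SG`); the functionals
`f ↦ ∑ α_j f_j(y)` separate, so `Y` general ones kill it (`red`). Then `PK.gen_bot`. -/
def S_TRB : Prop := ∀ (n d r : ℕ) (U Y : Type) [Fintype U] [Fintype Y] (υ : U → Fin (r + 1)),
  1 ≤ n → (∀ j, GG n (d + 2) (fib υ j)) →
  ∑ j, (NN n (d + 2) - (n * fib υ j + Fintype.card U)) ≤ Fintype.card Y →
  Gen ℂ fun x : (U → Fin n → ℂ) × (U → Fin (r + 1) → ℂ) × (Y → Fin n → ℂ) ×
      (Y → Fin (r + 1) → ℂ) => TrB d x.1 x.2.1 x.2.2.1 x.2.2.2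

/-- HD for one form: double at `w i`, `i ∈ P`, simple at the other `w i`, double along the hyperplane at
`y i`, `i ∈ R`, simple at the other `y i`. -/
noncomputable def DbS (n d : ℕ) {I Y : Type} (P : Finset I) (w : I → Fin (n + 1) → ℂ)
    (R : Finset Y) (y : Y → Fin n → ℂ) : Submodule ℂ (Pol (n + 1) d) :=
  Dbl (n + 1) d P w ⊓ (Dbl n d R y).comap (resL n d)

/-- REB. At pure vectors `b i = e_(π i)`, `α i = e_(τ i)`: the solutions of all the conditions except those at the
points `z i` form the space `V = ∏_j DbS n (d+1) {π = j} w {τ = j} y`; no nonzero element of `V` vanishes on the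
hyperplane (nothing in degree `d`), so the functionals `g ↦ ∑ a_j g_j(hp z)` separate it, and `U` general
ones kill it (`red`). Then `PK.gen_bot`. -/
def S_REB : Prop := ∀ (n d r : ℕ) (I U Y : Type) [Fintype I] [Fintype U] [Fintype Y]
  (π : I → Fin (r + 1)) (τ : Y → Fin (r + 1)) (v : Fin (r + 1) → ℕ), 1 ≤ n →
  (∀ j, Gen ℂ fun w : I → Fin (n + 1) → ℂ =>
    Dbl (n + 1) d (Finset.univ.filter fun i => π i = j) w = ⊥) →
  (∀ j, Gen ℂ fun x : (I → Fin (n + 1) → ℂ) × (Y → Fin n → ℂ) =>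
    finrank ℂ (DbS n (d + 1) (Finset.univ.filter fun i => π i = j) x.1
      (Finset.univ.filter fun i => τ i = j) x.2) ≤ v j) →
  ∑ j, v j ≤ Fintype.card U →
  Gen ℂ fun x : ((I → Fin (n + 1) → ℂ) × (I → Fin (r + 1) → ℂ)) × (U → Fin n → ℂ) ×
      (U → Fin (r + 1) → ℂ) × (Y → Fin n → ℂ) × (Y → Fin (r + 1) → ℂ) =>
    ReB d x.1.1 x.1.2 x.2.1 x.2.2.1 x.2.2.2.1 x.2.2.2.2

/-- SDB. One form. `u` of the double points go to the hyperplane (as in `S_HD5` of War5). -/
def S_SDB : Prop := ∀ (n d u : ℕ) (I Y : Type) [Fintype I] [Fintype Y] (P : Finset I)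
  (R : Finset Y), 1 ≤ n → u ≤ P.card → GG n (d + 1) (u + R.card) → SWaux.A n d (P.card - u) u →
  (Gen ℂ fun w : I → Fin (n + 1) → ℂ => Dbl (n + 1) d P w = ⊥) →
  Gen ℂ fun x : (I → Fin (n + 1) → ℂ) × (Y → Fin n → ℂ) =>
    finrank ℂ (DbS n (d + 1) P x.1 R x.2) ≤
      NN (n + 1) (d + 1) - ((n + 1) * P.card + Fintype.card I + (n * R.card + Fintype.card Y))

end Pool.Agent.WarD


end
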