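import Mathlib
import Pool.Agent.CLAM.C02

/-! Parts: WarM.Dual, War5.Cub5, WarM.Cub, WarM.Num, WarQ.CYC, WarM.CubS, WarM.CubR, WarM.CubG, WarM.Chk32, WarM.Chk4 -/

section

/-!
# Independent double points in degree three: dual criterion

`T` is the set of homogeneous coordinates (`n + 1` of them), `P i` the points.
-/

set_option autoImplicit false

open Module MvPolynomial Pool.Agent.War

namespace Pool.Agent.WarM

/-- the relations between the functionals `∂_v` at the points `P i` on cubic forms -/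
def Rel {I T : Type} [Fintype I] (P Λ : I → T → ℂ) : Prop :=
  ∀ u v w, ∑ i, (Λ i u * P i v * P i w + Λ i v * P i u * P i w + Λ i w * P i u * P i v) = 0

section
variable {n : ℕ} {T : Type} [Fintype T] (e : T ≃ Fin (n + 1))

/-- homogeneous coordinates as affine functions with sum `1` -/
noncomputable def ell (v : T) : MvPolynomial (Fin n) ℂ :=
  Fin.cases (1 - ∑ k, X k) (fun k => X k) (e v)

/-- their derivatives -/
noncomputable def cc (k : Fin n) (v : T) : ℂ :=
  Fin.cases (-1) (fun k' => if k' = k then 1 else 0) (e v)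

/-- the affine point -/
noncomputable def zz (Q : T → ℂ) : Fin n → ℂ := fun k => Q (e.symm k.succ) / ∑ v, Q v

theorem totalDegree_ell (v : T) : (ell e v).totalDegree ≤ 1 := by
  unfold ell
  refine Fin.cases ?_ (fun k => ?_) (e v)
  · rw [Fin.cases_zero]
    refine (totalDegree_sub _ _).trans ?_
    rw [totalDegree_one]
    refine max_le (Nat.zero_le _) ?_
    refine totalDegree_finsetSum_le fun k _ => ?_
    rw [totalDegree_X]
  · rw [Fin.cases_succ, totalDegree_X]

theorem pderiv_ell (k : Fin n) (v : T) : pderiv k (ell e v) = C (cc e k v) := by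
  unfold ell cc
  refine Fin.cases ?_ (fun k' => ?_) (e v)
  · rw [Fin.cases_zero, Fin.cases_zero, map_sub, map_sum]
    have h1 : pderiv k (1 : MvPolynomial (Fin n) ℂ) = 0 := pderiv_one
    rw [h1, Finset.sum_eq_single k]
    · rw [pderiv_X_self, zero_sub, C_neg, C_1]
    · intro j _ hj
      exact pderiv_X_of_ne hj
    · intro h
      exact absurd (Finset.mem_univ k) h
  · rw [Fin.cases_succ, Fin.cases_succ]
    split_ifs with h
    · rw [h, pderiv_X_self, C_1]
    · rw [pderiv_X_of_ne h, C_0]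

theorem sum_cc (k : Fin n) : ∑ v, cc e k v = 0 := by
  unfold cc
  rw [← e.symm.sum_comp, Fin.sum_univ_succ]
  simp

theorem eval_ell (Q : T → ℂ) (hQ : ∑ v, Q v ≠ 0) (v : T) :
    eval (zz e Q) (ell e v) = Q v / ∑ v, Q v := by
  obtain ⟨j, rfl⟩ : ∃ j, v = e.symm j := ⟨e v, by simp⟩
  unfold ell
  rw [Equiv.apply_symm_apply]
  refine Fin.cases ?_ (fun k => ?_) j
  · have h : ∑ v, Q v = Q (e.symm 0) + ∑ k : Fin n, Q (e.symm k.succ) := by
      rw [← e.symm.sum_comp, Fin.sum_univ_succ]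
    rw [Fin.cases_zero, map_sub, map_one, map_sum]
    simp only [eval_X, zz]
    rw [← Finset.sum_div]
    field_simp
    rw [h]
    ring
  · rw [Fin.cases_succ, eval_X]
    rfl

end

/-- **Dual criterion.** -/
theorem gg_of_dual {n p : ℕ} (T I : Type) [Fintype T] [Fintype I] (hT : Fintype.card T = n + 1)
    (P : I → T → ℂ) (hσ : ∀ i, ∑ v, P i v ≠ 0)
    (hind : ∀ Λ : I → T → ℂ, Rel P Λ → ∀ i v, Λ i v = 0) (hp : p ≤ Fintype.card I) :
    GG n 3 p := by
  classical
  have e : T ≃ Fin (n + 1) := Fintype.equivFinOfCardEq hT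
  obtain ⟨φ⟩ : Nonempty (Fin p ↪ I) := by
    apply Function.Embedding.nonempty_of_card_le
    rwa [Fintype.card_fin]
  set z : Fin p → Fin n → ℂ := fun j => zz e (P (φ j)) with hz
  refine ⟨z, ?_⟩
  -- the map given by the functionals
  let L : Pol n 3 →ₗ[ℂ] (Fin p × Fin (n + 1) → ℂ) :=
    LinearMap.pi fun x => Fin.cases (ev n 3 (z x.1)) (fun k => dv n 3 k (z x.1)) x.2
  have hker : Dbl n 3 Finset.univ z = LinearMap.ker L := by
    ext f
    rw [mem_Dbl, LinearMap.mem_ker]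
    constructor
    · rintro ⟨h1, h2⟩
      funext x
      obtain ⟨i, j⟩ := x
      refine Fin.cases ?_ (fun k => ?_) j
      · change ev n 3 (z i) f = 0
        rw [ev_apply]
        exact h1 i
      · change dv n 3 k (z i) f = 0
        rw [dv_apply]
        exact h2 i (Finset.mem_univ _) k
    · intro h
      refine ⟨fun i => ?_, fun i _ k => ?_⟩
      · have h1 : ev n 3 (z i) f = 0 := congrFun h (i, 0)
        rwa [ev_apply] at h1
      · have h1 : dv n 3 k (z i) f = 0 := congrFun h (i, k.succ)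
        rwa [dv_apply] at h1
  have hsurj : LinearMap.range L = ⊤ := by
    by_contra hne
    obtain ⟨ψ, hψ0, hψ⟩ := Submodule.exists_dual_map_eq_bot_of_lt_top (lt_top_iff_ne_top.2 hne)
      inferInstance
    apply hψ0
    -- coefficients
    set co : Fin p → Fin (n + 1) → ℂ := fun i j => ψ (Pi.single (i, j) 1) with hco
    have hψs : ∀ w : Fin p × Fin (n + 1) → ℂ, ψ w = ∑ i, ∑ j, w (i, j) * co i j := by
      intro w
      conv_lhs => rw [pi_eq_sum_univ' w]
      rw [map_sum, Fintype.sum_prod_type]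
      refine Finset.sum_congr rfl fun i _ => Finset.sum_congr rfl fun j _ => ?_
      rw [map_smul, smul_eq_mul, hco]
    have hL : ∀ f : Pol n 3, ∑ i, (ev n 3 (z i) f * co i 0 +
        ∑ k : Fin n, dv n 3 k (z i) f * co i k.succ) = 0 := by
      intro f
      have h1 : ψ (L f) = 0 := by
        have h2 : ψ (L f) ∈ Submodule.map ψ (LinearMap.range L) :=
          Submodule.mem_map_of_mem (LinearMap.mem_range_self L f)
        rw [hψ] at h2
        exact (Submodule.mem_bot ℂ).1 h2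
      rw [hψs] at h1
      rw [← h1]
      refine Finset.sum_congr rfl fun i _ => ?_
      rw [Fin.sum_univ_succ]
      rfl
    set σ : Fin p → ℂ := fun i => ∑ v, P (φ i) v with hσdef
    -- the vectors
    set Λ0 : Fin p → T → ℂ := fun i v => (co i 0 / 3 * (P (φ i) v / σ i) +
      ∑ k, cc e k v * co i k.succ) / σ i ^ 2 with hΛ0
    have hσ0 : ∀ i, σ i ≠ 0 := fun i => hσ (φ i)
    have hrel0 : ∀ u v w, ∑ i : Fin p, (Λ0 i u * P (φ i) v * P (φ i) w +
        Λ0 i v * P (φ i) u * P (φ i) w + Λ0 i w * P (φ i) u * P (φ i) v) = 0 := by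
      intro u v w
      have hf : (ell e u * ell e v * ell e w).totalDegree ≤ 3 := by
        have h1 := totalDegree_mul (ell e u * ell e v) (ell e w)
        have h2 := totalDegree_mul (ell e u) (ell e v)
        have h3 := totalDegree_ell e u
        have h4 := totalDegree_ell e v
        have h5 := totalDegree_ell e w
        omega
      have h := hL ⟨_, mem_Pol.2 hf⟩
      rw [← h]
      refine Finset.sum_congr rfl fun i _ => ?_
      rw [ev_apply]
      simp only [dv_apply, Derivation.leibniz, pderiv_ell, map_mul, map_add, smul_eq_mul, eval_C]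
      rw [hz]
      simp only [eval_ell e (P (φ i)) (hσ (φ i))]
      have hs := hσ0 i
      rw [hΛ0]
      simp only
      change _ = P (φ i) u / σ i * (P (φ i) v / σ i) * (P (φ i) w / σ i) * co i 0 +
        ∑ k : Fin n, (P (φ i) u / σ i * (P (φ i) v / σ i) * cc e k w +
          P (φ i) w / σ i * (P (φ i) u / σ i * cc e k v + P (φ i) v / σ i * cc e k u)) *
          co i k.succ
      have e1 : ∑ k : Fin n, (P (φ i) u / σ i * (P (φ i) v / σ i) * cc e k w +
          P (φ i) w / σ i * (P (φ i) u / σ i * cc e k v + P (φ i) v / σ i * cc e k u)) *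
          co i k.succ = P (φ i) u / σ i * (P (φ i) v / σ i) * ∑ k, cc e k w * co i k.succ +
          P (φ i) w / σ i * (P (φ i) u / σ i) * ∑ k, cc e k v * co i k.succ +
          P (φ i) w / σ i * (P (φ i) v / σ i) * ∑ k, cc e k u * co i k.succ := by
        rw [Finset.mul_sum, Finset.mul_sum, Finset.mul_sum, ← Finset.sum_add_distrib,
          ← Finset.sum_add_distrib]
        refine Finset.sum_congr rfl fun k _ => ?_
        ring
      rw [e1]
      field_simp
      ring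
    -- extend by zero
    have hΛ : ∀ i v, Λ0 i v = 0 := by
      have h := hind (fun x v => ∑ j : Fin p, if φ j = x then Λ0 j v else 0) ?_
      · intro i v
        have h1 := h (φ i) v
        rw [← h1, Finset.sum_eq_single i]
        · rw [if_pos rfl]
        · intro j _ hj
          rw [if_neg fun h => hj (φ.injective h)]
        · intro h
          exact absurd (Finset.mem_univ i) h
      · intro u v w
        refine Eq.trans ?_ (hrel0 u v w)
        have h2 : ∀ x : I, (∑ j : Fin p, if φ j = x then Λ0 j u else 0) * P x v * P x w +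
            (∑ j : Fin p, if φ j = x then Λ0 j v else 0) * P x u * P x w +
            (∑ j : Fin p, if φ j = x then Λ0 j w else 0) * P x u * P x v =
            ∑ j : Fin p, if φ j = x then (Λ0 j u * P (φ j) v * P (φ j) w +
              Λ0 j v * P (φ j) u * P (φ j) w + Λ0 j w * P (φ j) u * P (φ j) v) else 0 := by
          intro x
          rw [Finset.sum_mul, Finset.sum_mul, Finset.sum_mul, Finset.sum_mul, Finset.sum_mul,
            Finset.sum_mul, ← Finset.sum_add_distrib, ← Finset.sum_add_distrib]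
          refine Finset.sum_congr rfl fun j _ => ?_
          split_ifs with hj
          · rw [hj]
          · ring
        simp only [h2]
        rw [Finset.sum_comm]
        refine Finset.sum_congr rfl fun j _ => ?_
        rw [Finset.sum_ite_eq, if_pos (Finset.mem_univ _)]
    -- conclusion
    have h1 : ∀ i v, co i 0 / 3 * (P (φ i) v / σ i) + ∑ k, cc e k v * co i k.succ = 0 := by
      intro i v
      have h2 := hΛ i v
      rw [hΛ0] at h2
      simp only [div_eq_zero_iff] at h2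
      rcases h2 with h2 | h2
      · exact h2
      · exact absurd h2 (pow_ne_zero 2 (hσ0 i))
    have h2 : ∀ i, co i 0 = 0 := by
      intro i
      have h3 : ∑ v, (co i 0 / 3 * (P (φ i) v / σ i) + ∑ k, cc e k v * co i k.succ) = 0 :=
        Finset.sum_eq_zero fun v _ => h1 i v
      rw [Finset.sum_add_distrib, ← Finset.mul_sum, ← Finset.sum_div, Finset.sum_comm] at h3
      have h4 : ∑ k : Fin n, ∑ v, cc e k v * co i k.succ = 0 := by
        refine Finset.sum_eq_zero fun k _ => ?_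
        rw [← Finset.sum_mul, sum_cc, zero_mul]
      rw [h4, add_zero] at h3
      have h5 : (∑ v, P (φ i) v) / σ i = 1 := div_self (hσ0 i)
      rw [h5, mul_one] at h3
      simpa using h3
    have h3 : ∀ i (k : Fin n), co i k.succ = 0 := by
      intro i k
      have h4 := h1 i (e.symm k.succ)
      rw [h2 i, zero_div, zero_mul, zero_add, Finset.sum_eq_single k] at h4
      · unfold cc at h4
        rw [Equiv.apply_symm_apply, Fin.cases_succ, if_pos rfl, one_mul] at h4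
        exact h4
      · intro j _ hj
        unfold cc
        rw [Equiv.apply_symm_apply, Fin.cases_succ, if_neg (Ne.symm hj), zero_mul]
      · intro h
        exact absurd (Finset.mem_univ k) h
    apply LinearMap.ext
    intro w
    rw [hψs, LinearMap.zero_apply]
    refine Finset.sum_eq_zero fun i _ => Finset.sum_eq_zero fun j _ => ?_
    refine Fin.cases ?_ (fun k => ?_) j
    · rw [h2, mul_zero]
    · rw [h3, mul_zero]
  rw [hker]
  have h1 := LinearMap.finrank_range_add_finrank_ker L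
  rw [hsurj, finrank_top] at h1
  have h2 : finrank ℂ (Fin p × Fin (n + 1) → ℂ) = p * (n + 1) := by
    rw [Module.finrank_fintype_fun_eq_card, Fintype.card_prod, Fintype.card_fin, Fintype.card_fin]
  rw [h2] at h1
  have h3 := finrank_Pol_le n 3
  have h4 : (n + 1) * p = p * (n + 1) := mul_comm _ _
  omega

end Pool.Agent.WarM


end

section

/-!
# Cubics: `q₂ q₃ + q₁ + q₂` independent double points, `n + 1 = q₁ + q₂ + q₃`

Coordinates `a_i` (`i < q₁`), `b_j` (`j < q₂`), `c_k` (`k < q₃`), `q₁ ≥ q₂ ≥ q₃`. Points: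
`a_i + 2^k b_j + 2^(i+j) c_k`, `i = f j k = j + k mod q₁`, and the coordinate points `a_i`, `b_j`.
-/

set_option autoImplicit false

open Module Pool.Agent.War Pool.Agent.WarM

namespace Pool.Agent.War5

/-- **The walk.** -/
theorem walk {α X Y Z : Type} [Fintype α] [DecidableEq X] [DecidableEq Y] [DecidableEq Z]
    (x : α → X) (y : α → Y) (z : α → Z) (ex ey ez w : α → ℕ) (h : X → ℕ) (L : α → X → ℂ)
    (hxy : ∀ P Q, x P = x Q → y P = y Q → P = Q) (hxz : ∀ P Q, x P = x Q → z P = z Q → P = Q)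
    (rz : ∀ a a', a ≠ a' → ∀ c, ∑ P, (if x P = a' ∧ z P = c then L P a * 2 ^ ex P * 2 ^ ez P else 0) +
      ∑ P, (if x P = a ∧ z P = c then L P a' * 2 ^ ex P * 2 ^ ez P else 0) = 0)
    (ry : ∀ a a', a ≠ a' → ∀ c, ∑ P, (if x P = a' ∧ y P = c then L P a * 2 ^ ex P * 2 ^ ey P else 0) +
      ∑ P, (if x P = a ∧ y P = c then L P a' * 2 ^ ex P * 2 ^ ey P else 0) = 0)
    (hw : ∀ P P' P₂, x P = x P₂ → z P = z P' → y P' = y P₂ →
      ey P' + ex P + ez P + w P₂ + h (x P') = h (x P) + ez P' + ex P₂ + ey P₂ + w P)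
    (a a' : X) (hh : h a' < h a) :
    (∀ P, x P = a → L P a' = 0) ∧ ∀ P, x P = a' → L P a = 0 := by
  have hne : a ≠ a' := by
    rintro rfl
    exact lt_irrefl _ hh
  -- unique terms
  have uz : ∀ (P : α) (b : X), ∑ Q, (if x Q = x P ∧ z Q = z P then L Q b * 2 ^ ex Q * 2 ^ ez Q
      else 0) = L P b * 2 ^ ex P * 2 ^ ez P := by
    intro P b
    rw [Finset.sum_eq_single P]
    · rw [if_pos ⟨rfl, rfl⟩]
    · intro Q _ hQ
      rw [if_neg fun h' => hQ (hxz Q P h'.1 h'.2)]
    · intro h'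
      exact absurd (Finset.mem_univ P) h'
  have uy : ∀ (P : α) (b : X), ∑ Q, (if x Q = x P ∧ y Q = y P then L Q b * 2 ^ ex Q * 2 ^ ey Q
      else 0) = L P b * 2 ^ ex P * 2 ^ ey P := by
    intro P b
    rw [Finset.sum_eq_single P]
    · rw [if_pos ⟨rfl, rfl⟩]
    · intro Q _ hQ
      rw [if_neg fun h' => hQ (hxy Q P h'.1 h'.2)]
    · intro h'
      exact absurd (Finset.mem_univ P) h'
  have two_ne : ∀ m : ℕ, (2 : ℂ) ^ m ≠ 0 := fun m => pow_ne_zero _ two_ne_zero
  -- the step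
  have step : ∀ P, x P = a → L P a' ≠ 0 → ∃ P₂, x P₂ = a ∧
      (2 : ℝ) ^ h a' * (2 ^ w P₂ * ‖L P₂ a'‖) = 2 ^ h a * (2 ^ w P * ‖L P a'‖) := by
    intro P hP hL
    have h1 := rz a a' hne (z P)
    rw [← hP, uz P a'] at h1
    by_cases hP' : ∃ P', x P' = a' ∧ z P' = z P
    swap
    · exfalso
      rw [Finset.sum_eq_zero, zero_add] at h1
      · rcases mul_eq_zero.1 h1 with h2 | h2
        · rcases mul_eq_zero.1 h2 with h3 | h3
          · exact hL h3
          · exact two_ne _ h3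
        · exact two_ne _ h2
      · intro Q _
        rw [if_neg fun h' => hP' ⟨Q, h'⟩]
    obtain ⟨P', hx', hz'⟩ := hP'
    rw [← hx', ← hz', uz P' (x P), hP, hx'] at h1
    have h2 := ry a a' hne (y P')
    rw [← hx', uy P' a, hx'] at h2
    have hL' : L P' a ≠ 0 := by
      intro h0
      rw [h0, zero_mul, zero_mul, zero_add] at h1
      rcases mul_eq_zero.1 h1 with h2 | h2
      · rcases mul_eq_zero.1 h2 with h3 | h3
        · exact hL h3
        · exact two_ne _ h3
      · exact two_ne _ h2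
    by_cases hP₂ : ∃ P₂, x P₂ = a ∧ y P₂ = y P'
    swap
    · exfalso
      have h3 : ∑ Q, (if x Q = a ∧ y Q = y P' then L Q a' * 2 ^ ex Q * 2 ^ ey Q else 0) = 0 :=
        Finset.sum_eq_zero fun Q _ => by rw [if_neg fun h' => hP₂ ⟨Q, h'⟩]
      rw [h3, add_zero] at h2
      rcases mul_eq_zero.1 h2 with h2 | h2
      · rcases mul_eq_zero.1 h2 with h3 | h3
        · exact hL' h3
        · exact two_ne _ h3
      · exact two_ne _ h2
    obtain ⟨P₂, hx₂, hy₂⟩ := hP₂
    rw [← hx₂, ← hy₂, uy P₂ a', hx₂] at h2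
    refine ⟨P₂, hx₂, ?_⟩
    have n1 : ‖L P' a‖ * 2 ^ ex P' * 2 ^ ez P' = ‖L P a'‖ * 2 ^ ex P * 2 ^ ez P := by
      have := congrArg norm (eq_neg_of_add_eq_zero_left h1)
      rw [norm_neg] at this
      simpa using this
    have n2 : ‖L P' a‖ * 2 ^ ex P' * 2 ^ ey P' = ‖L P₂ a'‖ * 2 ^ ex P₂ * 2 ^ ey P₂ := by
      have := congrArg norm (eq_neg_of_add_eq_zero_left h2)
      rw [norm_neg] at this
      simpa using this
    have n3 := hw P P' P₂ (by rw [hP, hx₂]) hz'.symm hy₂.symm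
    rw [hx', hP] at n3
    have n4 : (2 : ℝ) ^ (h a' + w P₂) * ‖L P₂ a'‖ * 2 ^ (ez P' + ex P₂ + ey P₂) =
        2 ^ (h a + w P) * ‖L P a'‖ * 2 ^ (ez P' + ex P₂ + ey P₂) := by
      calc (2 : ℝ) ^ (h a' + w P₂) * ‖L P₂ a'‖ * 2 ^ (ez P' + ex P₂ + ey P₂)
          = 2 ^ (h a' + w P₂) * 2 ^ ez P' * (‖L P₂ a'‖ * 2 ^ ex P₂ * 2 ^ ey P₂) := by
            rw [pow_add, pow_add]; ring
        _ = 2 ^ (h a' + w P₂) * 2 ^ ey P' * (‖L P' a‖ * 2 ^ ex P' * 2 ^ ez P') := by
            rw [← n2]; ring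
        _ = 2 ^ (ey P' + ex P + ez P + w P₂ + h a') * ‖L P a'‖ := by
            rw [n1, pow_add, pow_add, pow_add, pow_add, pow_add]; ring
        _ = 2 ^ (h a + ez P' + ex P₂ + ey P₂ + w P) * ‖L P a'‖ := by rw [n3]
        _ = _ := by
            rw [pow_add, pow_add, pow_add, pow_add, pow_add, pow_add, pow_add]; ring
    have n5 := mul_right_cancel₀ (pow_ne_zero _ two_ne_zero) n4
    rw [pow_add, pow_add, mul_assoc, mul_assoc] at n5
    exact n5
  have first : ∀ P, x P = a → L P a' = 0 := by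
    by_contra hcon
    push Not at hcon
    obtain ⟨P₀, hP₀, hL₀⟩ := hcon
    obtain ⟨P, hPm, hPmax⟩ := Finset.exists_max_image
      ((Finset.univ : Finset α).filter fun P => x P = a) (fun P => (2 : ℝ) ^ w P * ‖L P a'‖)
      ⟨P₀, by rw [Finset.mem_filter]; exact ⟨Finset.mem_univ _, hP₀⟩⟩
    rw [Finset.mem_filter] at hPm
    have hpos : 0 < (2 : ℝ) ^ w P * ‖L P a'‖ := by
      refine lt_of_lt_of_le ?_ (hPmax P₀ (by rw [Finset.mem_filter]; exact ⟨Finset.mem_univ _, hP₀⟩))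
      have := norm_pos_iff.2 hL₀
      positivity
    have hL : L P a' ≠ 0 := by
      intro h0
      rw [h0, norm_zero, mul_zero] at hpos
      exact lt_irrefl _ hpos
    obtain ⟨P₂, hx₂, he⟩ := step P hPm.2 hL
    have h3 := hPmax P₂ (by rw [Finset.mem_filter]; exact ⟨Finset.mem_univ _, hx₂⟩)
    have h4 : (2 : ℝ) ^ h a' < 2 ^ h a := pow_lt_pow_right₀ one_lt_two hh
    have h5 : (0 : ℝ) < 2 ^ h a' := by positivity
    nlinarith
  refine ⟨first, fun P' hP' => ?_⟩
  have h1 := rz a a' hne (z P')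
  rw [← hP', uz P' a] at h1
  have h3 : ∑ Q, (if x Q = a ∧ z Q = z P' then L Q (x P') * 2 ^ ex Q * 2 ^ ez Q else 0) = 0 := by
    refine Finset.sum_eq_zero fun Q _ => ?_
    split_ifs with h4
    · rw [hP', first Q h4.1, zero_mul, zero_mul]
    · rfl
  rw [h3, add_zero] at h1
  rcases mul_eq_zero.1 h1 with h2 | h2
  · rcases mul_eq_zero.1 h2 with h3 | h3
    · exact h3
    · exact absurd h3 (two_ne _)
  · exact absurd h2 (two_ne _)

/-- coordinates -/
abbrev T5 (q₁ q₂ q₃ : ℕ) := Fin q₁ ⊕ Fin q₂ ⊕ Fin q₃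

/-- points -/
abbrev I5 (q₁ q₂ q₃ : ℕ) := (Fin q₂ × Fin q₃) ⊕ Fin q₁ ⊕ Fin q₂

section
variable {q₁ q₂ q₃ : ℕ}

/-- the coordinate `a_i` -/
abbrev ca (i : Fin q₁) : T5 q₁ q₂ q₃ := Sum.inl i
/-- the coordinate `b_j` -/
abbrev cb (j : Fin q₂) : T5 q₁ q₂ q₃ := Sum.inr (Sum.inl j)
/-- the coordinate `c_k` -/
abbrev cd (k : Fin q₃) : T5 q₁ q₂ q₃ := Sum.inr (Sum.inr k)

/-- the points -/
def P5 (f : Fin q₂ × Fin q₃ → Fin q₁) : I5 q₁ q₂ q₃ → T5 q₁ q₂ q₃ → ℂ
  | Sum.inl P, Sum.inl i' => if f P = i' then 1 else 0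
  | Sum.inl P, Sum.inr (Sum.inl j') => if P.1 = j' then 2 ^ (P.2 : ℕ) else 0
  | Sum.inl P, Sum.inr (Sum.inr k') => if P.2 = k' then 2 ^ ((f P : ℕ) + (P.1 : ℕ)) else 0
  | Sum.inr (Sum.inl i), Sum.inl i' => if i = i' then 1 else 0
  | Sum.inr (Sum.inr j), Sum.inr (Sum.inl j') => if j = j' then 1 else 0
  | _, _ => 0

variable (f : Fin q₂ × Fin q₃ → Fin q₁) (Λ : I5 q₁ q₂ q₃ → T5 q₁ q₂ q₃ → ℂ)

/-- the term of a block -/
def bt (u v w : T5 q₁ q₂ q₃) (P : Fin q₂ × Fin q₃) : ℂ :=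
  Λ (Sum.inl P) u * P5 f (Sum.inl P) v * P5 f (Sum.inl P) w +
    Λ (Sum.inl P) v * P5 f (Sum.inl P) u * P5 f (Sum.inl P) w +
    Λ (Sum.inl P) w * P5 f (Sum.inl P) u * P5 f (Sum.inl P) v

theorem rel5 (h : Rel (P5 f) Λ) (u v w : T5 q₁ q₂ q₃) :
    ∑ P, bt f Λ u v w P +
    ((∑ i : Fin q₁, (Λ (Sum.inr (Sum.inl i)) u * P5 f (Sum.inr (Sum.inl i)) v *
      P5 f (Sum.inr (Sum.inl i)) w + Λ (Sum.inr (Sum.inl i)) v * P5 f (Sum.inr (Sum.inl i)) u *
      P5 f (Sum.inr (Sum.inl i)) w + Λ (Sum.inr (Sum.inl i)) w * P5 f (Sum.inr (Sum.inl i)) u *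
      P5 f (Sum.inr (Sum.inl i)) v)) +
    ∑ j : Fin q₂, (Λ (Sum.inr (Sum.inr j)) u * P5 f (Sum.inr (Sum.inr j)) v *
      P5 f (Sum.inr (Sum.inr j)) w + Λ (Sum.inr (Sum.inr j)) v * P5 f (Sum.inr (Sum.inr j)) u *
      P5 f (Sum.inr (Sum.inr j)) w + Λ (Sum.inr (Sum.inr j)) w * P5 f (Sum.inr (Sum.inr j)) u *
      P5 f (Sum.inr (Sum.inr j)) v)) = 0 := by
  have h1 := h u v w
  rw [Fintype.sum_sum_type, Fintype.sum_sum_type] at h1
  exact h1

/-- `a a' b` -/
theorem R_aab (h : Rel (P5 f) Λ) (a a' : Fin q₁) (hne : a ≠ a') (c : Fin q₂) :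
    ∑ P, bt f Λ (ca a) (ca a') (cb c) P = 0 := by
  have h1 := rel5 f Λ h (ca a) (ca a') (cb c)
  simpa [P5, Finset.sum_add_distrib, hne, Ne.symm hne] using h1

/-- `a a' c` -/
theorem R_aac (h : Rel (P5 f) Λ) (a a' : Fin q₁) (hne : a ≠ a') (c : Fin q₃) :
    ∑ P, bt f Λ (ca a) (ca a') (cd c) P = 0 := by
  have h1 := rel5 f Λ h (ca a) (ca a') (cd c)
  simpa [P5, Finset.sum_add_distrib, hne, Ne.symm hne] using h1

/-- `b b' a` -/
theorem R_bba (h : Rel (P5 f) Λ) (a a' : Fin q₂) (hne : a ≠ a') (c : Fin q₁) :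
    ∑ P, bt f Λ (cb a) (cb a') (ca c) P = 0 := by
  have h1 := rel5 f Λ h (cb a) (cb a') (ca c)
  simpa [P5, Finset.sum_add_distrib, hne, Ne.symm hne] using h1

/-- `b b' c` -/
theorem R_bbc (h : Rel (P5 f) Λ) (a a' : Fin q₂) (hne : a ≠ a') (c : Fin q₃) :
    ∑ P, bt f Λ (cb a) (cb a') (cd c) P = 0 := by
  have h1 := rel5 f Λ h (cb a) (cb a') (cd c)
  simpa [P5, Finset.sum_add_distrib, hne, Ne.symm hne] using h1

/-- `c c' v` -/
theorem R_cc (h : Rel (P5 f) Λ) (a a' : Fin q₃) (v : T5 q₁ q₂ q₃) :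
    ∑ P, bt f Λ (cd a) (cd a') v P = 0 := by
  have h1 := rel5 f Λ h (cd a) (cd a') v
  simpa [P5] using h1

/-- `a b c` -/
theorem R_abc (h : Rel (P5 f) Λ) (a : Fin q₁) (b : Fin q₂) (c : Fin q₃) :
    ∑ P, bt f Λ (ca a) (cb b) (cd c) P = 0 := by
  have h1 := rel5 f Λ h (ca a) (cb b) (cd c)
  simpa [P5] using h1

/-- rewriting a sum of block terms as two sums -/
theorem two_sums (u v w : T5 q₁ q₂ q₃) (p p' : Fin q₂ × Fin q₃ → Prop) [DecidablePred p]
    [DecidablePred p'] (A A' : Fin q₂ × Fin q₃ → ℂ)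
    (h : ∑ P, bt f Λ u v w P = 0)
    (he : ∀ P, bt f Λ u v w P = (if p P then A P else 0) + (if p' P then A' P else 0)) :
    ∑ P, (if p P then A P else 0) + ∑ P, (if p' P then A' P else 0) = 0 := by
  rw [← Finset.sum_add_distrib]
  refine Eq.trans (Finset.sum_congr rfl fun P _ => (he P).symm) h

variable (hf1 : ∀ P Q : Fin q₂ × Fin q₃, f P = f Q → P.1 = Q.1 → P = Q)
  (hf2 : ∀ P Q : Fin q₂ × Fin q₃, f P = f Q → P.2 = Q.2 → P = Q)

include hf1 hf2

/-- pairs `a a'` -/
theorem A_off (h : Rel (P5 f) Λ) (a : Fin q₁) (P : Fin q₂ × Fin q₃) (hne : a ≠ f P) :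
    Λ (Sum.inl P) (ca a) = 0 := by
  have key := fun (a a' : Fin q₁) (hh : (a' : ℕ) < a) => walk f Prod.fst Prod.snd (fun _ => 0)
    (fun P => (P.2 : ℕ)) (fun P => (f P : ℕ) + (P.1 : ℕ)) (fun P => (P.1 : ℕ) + (P.2 : ℕ))
    (fun i : Fin q₁ => (i : ℕ)) (fun P a => Λ (Sum.inl P) (ca a)) hf1 hf2 (fun a a' hne c => ?_)
    (fun a a' hne c => ?_) (fun P P' P₂ h1 h2 h3 => ?_) a a' hh
  · rcases lt_or_gt_of_ne (fun h' => hne (Fin.ext h') : (a : ℕ) ≠ (f P : ℕ)) with h1 | h1
    · exact (key (f P) a h1).1 P rfl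
    · exact (key a (f P) h1).2 P rfl
  · refine two_sums f Λ (ca a) (ca a') (cd c) _ _ _ _ (R_aac f Λ h a a' hne c) fun P => ?_
    simp only [bt, P5]
    have e4 : ¬ (f P = a ∧ f P = a') := fun h' => hne (h'.1.symm.trans h'.2)
    by_cases e1 : P.2 = c <;> by_cases e2 : f P = a <;> by_cases e3 : f P = a' <;>
      simp only [e1, e2, e3, hne, Ne.symm hne, if_true, if_false, mul_zero, mul_one, zero_mul,
        add_zero, zero_add, and_true, and_false, pow_zero, and_self] at e4 ⊢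
  · refine two_sums f Λ (ca a) (ca a') (cb c) _ _ _ _ (R_aab f Λ h a a' hne c) fun P => ?_
    simp only [bt, P5]
    have e4 : ¬ (f P = a ∧ f P = a') := fun h' => hne (h'.1.symm.trans h'.2)
    by_cases e1 : P.1 = c <;> by_cases e2 : f P = a <;> by_cases e3 : f P = a' <;>
      simp only [e1, e2, e3, hne, Ne.symm hne, if_true, if_false, mul_zero, mul_one, zero_mul,
        add_zero, zero_add, and_true, and_false, pow_zero, and_self] at e4 ⊢
  · rw [h1, h2, h3]
    omega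

/-- pairs `b b'` -/
theorem B_off (h : Rel (P5 f) Λ) (a : Fin q₂) (P : Fin q₂ × Fin q₃) (hne : a ≠ P.1) :
    Λ (Sum.inl P) (cb a) = 0 := by
  have key := fun (a a' : Fin q₂) (hh : (a' : ℕ) < a) => walk Prod.fst f Prod.snd
    (fun P => (P.2 : ℕ)) (fun _ => 0) (fun P => (f P : ℕ) + (P.1 : ℕ))
    (fun P => (P.2 : ℕ) + (f P : ℕ)) (fun i : Fin q₂ => (i : ℕ))
    (fun P a => Λ (Sum.inl P) (cb a)) (fun P Q h1 h2 => hf1 P Q h2 h1)
    (fun P Q h1 h2 => Prod.ext h1 h2) (fun a a' hne c => ?_)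
    (fun a a' hne c => ?_) (fun P P' P₂ h1 h2 h3 => ?_) a a' hh
  · rcases lt_or_gt_of_ne (fun h' => hne (Fin.ext h') : (a : ℕ) ≠ (P.1 : ℕ)) with h1 | h1
    · exact (key P.1 a h1).1 P rfl
    · exact (key a P.1 h1).2 P rfl
  · refine two_sums f Λ (cb a) (cb a') (cd c) _ _ _ _ (R_bbc f Λ h a a' hne c) fun P => ?_
    simp only [bt, P5]
    have e4 : ¬ (P.1 = a ∧ P.1 = a') := fun h' => hne (h'.1.symm.trans h'.2)
    by_cases e1 : P.2 = c <;> by_cases e2 : P.1 = a <;> by_cases e3 : P.1 = a' <;>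
      simp only [e1, e2, e3, hne, Ne.symm hne, if_true, if_false, mul_zero, mul_one, zero_mul,
        add_zero, zero_add, and_true, and_false, pow_zero, and_self] at e4 ⊢
  · refine two_sums f Λ (cb a) (cb a') (ca c) _ _ _ _ (R_bba f Λ h a a' hne c) fun P => ?_
    simp only [bt, P5]
    have e4 : ¬ (P.1 = a ∧ P.1 = a') := fun h' => hne (h'.1.symm.trans h'.2)
    by_cases e1 : f P = c <;> by_cases e2 : P.1 = a <;> by_cases e3 : P.1 = a' <;>
      simp only [e1, e2, e3, hne, Ne.symm hne, if_true, if_false, mul_zero, mul_one, zero_mul,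
        add_zero, zero_add, and_true, and_false, pow_zero, and_self] at e4 ⊢
  · rw [h1, h2, h3]
    omega

/-- pairs `c c'` -/
theorem C_off (h : Rel (P5 f) Λ) (a : Fin q₃) (P : Fin q₂ × Fin q₃) (hne : a ≠ P.2) :
    Λ (Sum.inl P) (cd a) = 0 := by
  have key := fun (a a' : Fin q₃) (hh : (a' : ℕ) < a) => walk Prod.snd f Prod.fst
    (fun P => (f P : ℕ) + (P.1 : ℕ)) (fun _ => 0) (fun P => (P.2 : ℕ))
    (fun P => (f P : ℕ) + (P.1 : ℕ)) (fun i : Fin q₃ => (i : ℕ))
    (fun P a => Λ (Sum.inl P) (cd a)) (fun P Q h1 h2 => hf2 P Q h2 h1)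
    (fun P Q h1 h2 => Prod.ext h2 h1) (fun a a' hne c => ?_)
    (fun a a' hne c => ?_) (fun P P' P₂ h1 h2 h3 => ?_) a a' hh
  · rcases lt_or_gt_of_ne (fun h' => hne (Fin.ext h') : (a : ℕ) ≠ (P.2 : ℕ)) with h1 | h1
    · exact (key P.2 a h1).1 P rfl
    · exact (key a P.2 h1).2 P rfl
  · refine two_sums f Λ (cd a) (cd a') (cb c) _ _ _ _ (R_cc f Λ h a a' (cb c)) fun P => ?_
    simp only [bt, P5]
    have e4 : ¬ (P.2 = a ∧ P.2 = a') := fun h' => hne (h'.1.symm.trans h'.2)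
    by_cases e1 : P.1 = c <;> by_cases e2 : P.2 = a <;> by_cases e3 : P.2 = a' <;>
      simp only [e1, e2, e3, hne, Ne.symm hne, if_true, if_false, mul_zero, mul_one, zero_mul,
        add_zero, zero_add, and_true, and_false, pow_zero, and_self] at e4 ⊢
  · refine two_sums f Λ (cd a) (cd a') (ca c) _ _ _ _ (R_cc f Λ h a a' (ca c)) fun P => ?_
    simp only [bt, P5]
    have e4 : ¬ (P.2 = a ∧ P.2 = a') := fun h' => hne (h'.1.symm.trans h'.2)
    by_cases e1 : f P = c <;> by_cases e2 : P.2 = a <;> by_cases e3 : P.2 = a' <;>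
      simp only [e1, e2, e3, hne, Ne.symm hne, if_true, if_false, mul_zero, mul_one, zero_mul,
        add_zero, zero_add, and_true, and_false, pow_zero, and_self] at e4 ⊢
  · rw [h1, h2]
    omega

/-- the block monomials -/
theorem block (h : Rel (P5 f) Λ) (P : Fin q₂ × Fin q₃) :
    Λ (Sum.inl P) (ca (f P)) = 0 ∧ Λ (Sum.inl P) (cb P.1) = 0 ∧ Λ (Sum.inl P) (cd P.2) = 0 := by
  have hβ : (2 : ℂ) ^ (P.2 : ℕ) ≠ 0 := pow_ne_zero _ two_ne_zero
  have hγ : (2 : ℂ) ^ ((f P : ℕ) + (P.1 : ℕ)) ≠ 0 := pow_ne_zero _ two_ne_zero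
  have e1 := R_abc f Λ h (f P) P.1 P.2
  have e2 := R_cc f Λ h P.2 P.2 (ca (f P))
  have e3 := R_cc f Λ h P.2 P.2 (cb P.1)
  rw [Finset.sum_eq_single P] at e1 e2 e3
  rotate_left
  · intro Q _ hQ
    simp only [bt, P5]
    by_cases a2 : Q.2 = P.2
    · by_cases a1 : Q.1 = P.1
      · exact absurd (Prod.ext a1 a2) hQ
      · have h0 := B_off f Λ hf1 hf2 h P.1 Q (Ne.symm a1)
        have h1 : Λ (Sum.inl Q) (Sum.inr (Sum.inl P.1)) = 0 := h0
        rw [if_neg a1, h1]
        ring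
    · rw [if_neg a2]
      ring
  · intro h'
    exact absurd (Finset.mem_univ P) h'
  · intro Q _ hQ
    simp only [bt, P5]
    by_cases a2 : Q.2 = P.2
    · by_cases a1 : f Q = f P
      · exact absurd (hf2 Q P a1 a2) hQ
      · have h0 := A_off f Λ hf1 hf2 h (f P) Q (Ne.symm a1)
        have h1 : Λ (Sum.inl Q) (Sum.inl (f P)) = 0 := h0
        rw [if_neg a1, h1]
        ring
    · rw [if_neg a2]
      ring
  · intro h'
    exact absurd (Finset.mem_univ P) h'
  · intro Q _ hQ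
    simp only [bt, P5]
    by_cases a2 : Q.2 = P.2
    · by_cases a1 : Q.1 = P.1
      · exact absurd (Prod.ext a1 a2) hQ
      · by_cases a3 : f Q = f P
        · exact absurd (hf2 Q P a3 a2) hQ
        · rw [if_neg a1, if_neg a3]
          ring
    · by_cases a1 : Q.1 = P.1
      · by_cases a3 : f Q = f P
        · exact absurd (hf1 Q P a3 a1) hQ
        · rw [if_neg a2, if_neg a3]
          ring
      · rw [if_neg a1, if_neg a2]
        ring
  · intro h'
    exact absurd (Finset.mem_univ P) h'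
  simp only [bt, P5, if_true] at e1 e2 e3
  generalize (2 : ℂ) ^ (P.2 : ℕ) = β at *
  generalize (2 : ℂ) ^ ((f P : ℕ) + (P.1 : ℕ)) = γ at *
  have hc : Λ (Sum.inl P) (cd P.2) = 0 := by
    have e4 : γ * β * (-3 * Λ (Sum.inl P) (cd P.2)) = 0 := by
      linear_combination γ * e1 - β * e2 - e3
    rcases mul_eq_zero.1 e4 with h1 | h1
    · rcases mul_eq_zero.1 h1 with h2 | h2
      · exact absurd h2 hγ
      · exact absurd h2 hβ
    · rcases mul_eq_zero.1 h1 with h2 | h2
      · norm_num at h2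
      · exact h2
  have hc' : Λ (Sum.inl P) (Sum.inr (Sum.inr P.2)) = 0 := hc
  refine ⟨?_, ?_, hc⟩
  · rw [hc'] at e2
    have e4 : γ * γ * Λ (Sum.inl P) (ca (f P)) = 0 := by linear_combination e2
    rcases mul_eq_zero.1 e4 with h1 | h1
    · exact absurd (mul_self_eq_zero.1 h1) hγ
    · exact h1
  · rw [hc'] at e3
    have e4 : γ * γ * Λ (Sum.inl P) (cb P.1) = 0 := by linear_combination e3
    rcases mul_eq_zero.1 e4 with h1 | h1
    · exact absurd (mul_self_eq_zero.1 h1) hγ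
    · exact h1

theorem blocks_zero (h : Rel (P5 f) Λ) (P : Fin q₂ × Fin q₃) (v : T5 q₁ q₂ q₃) :
    Λ (Sum.inl P) v = 0 := by
  obtain ⟨ha, hb, hc⟩ := block f Λ hf1 hf2 h P
  rcases v with a | b | c
  · by_cases e : a = f P
    · rw [e]; exact ha
    · exact A_off f Λ hf1 hf2 h a P e
  · by_cases e : b = P.1
    · rw [e]; exact hb
    · exact B_off f Λ hf1 hf2 h b P e
  · by_cases e : c = P.2
    · rw [e]; exact hc
    · exact C_off f Λ hf1 hf2 h c P e

theorem all_zero (h : Rel (P5 f) Λ) (i : I5 q₁ q₂ q₃) (v : T5 q₁ q₂ q₃) : Λ i v = 0 := by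
  rcases i with P | i | j
  · exact blocks_zero f Λ hf1 hf2 h P v
  · have h1 := rel5 f Λ h (ca i) (ca i) v
    simp only [bt, blocks_zero f Λ hf1 hf2 h, zero_mul, add_zero, Finset.sum_const_zero,
      zero_add] at h1
    rcases v with a | b | c
    · by_cases hb : i = a
      · rw [← hb] at h1 ⊢
        simp [P5, Finset.sum_add_distrib] at h1
        have h2 : (3 : ℂ) * Λ (Sum.inr (Sum.inl i)) (Sum.inl i) = 0 := by
          linear_combination h1
        rcases mul_eq_zero.1 h2 with h3 | h3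
        · norm_num at h3
        · exact h3
      · simpa [P5, Finset.sum_add_distrib, hb, Ne.symm hb] using h1
    · simpa [P5] using h1
    · simpa [P5] using h1
  · have h1 := rel5 f Λ h (cb j) (cb j) v
    simp only [bt, blocks_zero f Λ hf1 hf2 h, zero_mul, add_zero, Finset.sum_const_zero,
      zero_add] at h1
    rcases v with a | b | c
    · simpa [P5] using h1
    · by_cases hb : j = b
      · rw [← hb] at h1 ⊢
        simp [P5, Finset.sum_add_distrib] at h1
        have h2 : (3 : ℂ) * Λ (Sum.inr (Sum.inr j)) (Sum.inr (Sum.inl j)) = 0 := by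
          linear_combination h1
        rcases mul_eq_zero.1 h2 with h3 | h3
        · norm_num at h3
        · exact h3
      · simpa [P5, Finset.sum_add_distrib, hb, Ne.symm hb] using h1
    · simpa [P5] using h1

omit hf1 hf2 in
theorem sum_P5 (i : I5 q₁ q₂ q₃) : ∑ v, P5 f i v ≠ 0 := by
  rcases i with P | i | j
  · simp only [Fintype.sum_sum_type, P5, Finset.sum_ite_eq, Finset.mem_univ, if_true]
    have h1 : (1 : ℂ) + (2 ^ (P.2 : ℕ) + 2 ^ ((f P : ℕ) + (P.1 : ℕ))) =
        ((1 + (2 ^ (P.2 : ℕ) + 2 ^ ((f P : ℕ) + (P.1 : ℕ))) : ℕ) : ℂ) := by push_cast; rfl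
    rw [h1]
    exact Nat.cast_ne_zero.2 (by positivity)
  · simp [Fintype.sum_sum_type, P5]
  · simp [Fintype.sum_sum_type, P5]

end

/-- the general form -/
theorem cubic5 (q₁ q₂ q₃ n p : ℕ) (h12 : q₂ ≤ q₁) (h23 : q₃ ≤ q₂) (hn : n + 1 = q₁ + q₂ + q₃)
    (hp : p ≤ q₂ * q₃ + q₁ + q₂) : GG n 3 p := by
  let f : Fin q₂ × Fin q₃ → Fin q₁ := fun P => ⟨((P.1 : ℕ) + (P.2 : ℕ)) % q₁,
    Nat.mod_lt _ (lt_of_lt_of_le P.1.pos h12)⟩
  have hf1 : ∀ P Q : Fin q₂ × Fin q₃, f P = f Q → P.1 = Q.1 → P = Q := by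
    intro P Q h1 h2
    refine Prod.ext h2 ?_
    have h3 : ((P.1 : ℕ) + (P.2 : ℕ)) % q₁ = ((Q.1 : ℕ) + (Q.2 : ℕ)) % q₁ :=
      congrArg Fin.val h1
    rw [h2] at h3
    have h4 : (P.2 : ℕ) ≡ (Q.2 : ℕ) [MOD q₁] := Nat.ModEq.add_left_cancel' _ h3
    exact Fin.ext (Nat.ModEq.eq_of_lt_of_lt h4
      (lt_of_lt_of_le P.2.2 (h23.trans h12)) (lt_of_lt_of_le Q.2.2 (h23.trans h12)))
  have hf2 : ∀ P Q : Fin q₂ × Fin q₃, f P = f Q → P.2 = Q.2 → P = Q := by
    intro P Q h1 h2
    refine Prod.ext ?_ h2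
    have h3 : ((P.1 : ℕ) + (P.2 : ℕ)) % q₁ = ((Q.1 : ℕ) + (Q.2 : ℕ)) % q₁ :=
      congrArg Fin.val h1
    rw [h2] at h3
    have h4 : (P.1 : ℕ) ≡ (Q.1 : ℕ) [MOD q₁] := Nat.ModEq.add_right_cancel' _ h3
    exact Fin.ext (Nat.ModEq.eq_of_lt_of_lt h4
      (lt_of_lt_of_le P.1.2 h12) (lt_of_lt_of_le Q.1.2 h12))
  refine gg_of_dual (T5 q₁ q₂ q₃) (I5 q₁ q₂ q₃) ?_ (P5 f) (sum_P5 f) (fun Λ h i v => ?_) ?_
  · simp only [Fintype.card_sum, Fintype.card_fin]
    omega
  · exact all_zero f Λ hf1 hf2 h i v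
  · simp only [Fintype.card_sum, Fintype.card_prod, Fintype.card_fin]
    omega

/-- **Cubics**, density `2/3`. -/
theorem CUB (n p : ℕ) (hp : 9 * p ≤ (n + 3) ^ 2) : GG n 3 p := by
  obtain ⟨k, r, hk, hr⟩ : ∃ k r, n = 3 * k + r ∧ r ≤ 2 := ⟨n / 3, n % 3, by omega, by omega⟩
  subst hk
  interval_cases r
  · refine cubic5 (k + 1) k k _ p (by omega) le_rfl (by ring) ?_
    have h1 : 9 * p ≤ 9 * ((k + 1) * (k + 1)) := by
      refine hp.trans (le_of_eq ?_)
      ring
    have h2 := Nat.le_of_mul_le_mul_left h1 (by norm_num)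
    refine h2.trans (le_of_eq ?_)
    ring
  · refine cubic5 (k + 1) (k + 1) k _ p le_rfl (by omega) (by ring) ?_
    have h1 : 9 * p ≤ 9 * ((k + 1) * k + (k + 1) + (k + 1)) := by
      refine hp.trans ?_
      nlinarith
    exact Nat.le_of_mul_le_mul_left h1 (by norm_num)
  · refine cubic5 (k + 1) (k + 1) (k + 1) _ p le_rfl le_rfl (by ring) ?_
    have h1 : 9 * p ≤ 9 * ((k + 1) * (k + 1) + (k + 1) + (k + 1)) := by
      refine hp.trans ?_
      nlinarith
    exact Nat.le_of_mul_le_mul_left h1 (by norm_num)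

end Pool.Agent.War5


end

section

/-!
# Cubics: `k² + k + e` independent double points, `n + 1 = 3k + e`

Coordinates `a_i, b_i, c_i` (`i < k`), `x_l` (`l < e`). Points `z_ij = a_i + b_j + (i+1) c_j + (j+1) c_i`
(`i ≠ j`), `z_ii = a_i + b_i + 3k c_i`, and the coordinate points `b_j`, `x_l`.
-/

set_option autoImplicit false

open Module Pool.Agent.War

namespace Pool.Agent.WarM

/-- coordinates -/
abbrev TT (k e : ℕ) := Fin k ⊕ Fin k ⊕ Fin k ⊕ Fin e

/-- points -/
abbrev II (k e : ℕ) := (Fin k × Fin k) ⊕ Fin k ⊕ Fin e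

/-- the coordinate `a_i` -/
abbrev va {k e : ℕ} (i : Fin k) : TT k e := Sum.inl i
/-- the coordinate `b_i` -/
abbrev vb {k e : ℕ} (i : Fin k) : TT k e := Sum.inr (Sum.inl i)
/-- the coordinate `c_i` -/
abbrev vc {k e : ℕ} (i : Fin k) : TT k e := Sum.inr (Sum.inr (Sum.inl i))
/-- the coordinate `x_l` -/
abbrev vx {k e : ℕ} (l : Fin e) : TT k e := Sum.inr (Sum.inr (Sum.inr l))

/-- the `c`-coordinates of `z_ij` -/
def Cf {k : ℕ} (i j m : Fin k) : ℂ :=
  if i = j then (if m = i then 3 * (k : ℂ) else 0)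
  else (if m = j then ((i : ℕ) : ℂ) + 1 else 0) + (if m = i then ((j : ℕ) : ℂ) + 1 else 0)

theorem Cf_other {k : ℕ} {i j m : Fin k} (h1 : m ≠ i) (h2 : m ≠ j) : Cf i j m = 0 := by
  unfold Cf
  rw [if_neg h1, if_neg h1, if_neg h2, add_zero, ite_self]

theorem Cf_right {k : ℕ} {i j : Fin k} (h : i ≠ j) : Cf i j j = ((i : ℕ) : ℂ) + 1 := by
  unfold Cf
  rw [if_neg h, if_pos rfl, if_neg (Ne.symm h), add_zero]

theorem Cf_left {k : ℕ} {i j : Fin k} (h : i ≠ j) : Cf i j i = ((j : ℕ) : ℂ) + 1 := by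
  unfold Cf
  rw [if_neg h, if_neg h, if_pos rfl, zero_add]

theorem Cf_diag {k : ℕ} (i : Fin k) : Cf i i i = 3 * (k : ℂ) := by
  unfold Cf
  rw [if_pos rfl, if_pos rfl]

/-- the points -/
def PT (k e : ℕ) : II k e → TT k e → ℂ
  | Sum.inl (i, _), Sum.inl i' => if i' = i then 1 else 0
  | Sum.inl (_, j), Sum.inr (Sum.inl j') => if j' = j then 1 else 0
  | Sum.inl (i, j), Sum.inr (Sum.inr (Sum.inl m)) => Cf i j m
  | Sum.inl _, Sum.inr (Sum.inr (Sum.inr _)) => 0
  | Sum.inr (Sum.inl j), Sum.inr (Sum.inl j') => if j' = j then 1 else 0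
  | Sum.inr (Sum.inr l), Sum.inr (Sum.inr (Sum.inr l')) => if l' = l then 1 else 0
  | _, _ => 0

section
variable {k e : ℕ} (Λ : II k e → TT k e → ℂ)

/-- the part of the relation from the points `z_ij` -/
theorem rel_split (h : Rel (PT k e) Λ) (u v w : TT k e) :
    (∑ i : Fin k, ∑ j : Fin k, (Λ (Sum.inl (i, j)) u * PT k e (Sum.inl (i, j)) v *
      PT k e (Sum.inl (i, j)) w + Λ (Sum.inl (i, j)) v * PT k e (Sum.inl (i, j)) u *
      PT k e (Sum.inl (i, j)) w + Λ (Sum.inl (i, j)) w * PT k e (Sum.inl (i, j)) u *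
      PT k e (Sum.inl (i, j)) v)) +
    ((∑ j : Fin k, (Λ (Sum.inr (Sum.inl j)) u * PT k e (Sum.inr (Sum.inl j)) v *
      PT k e (Sum.inr (Sum.inl j)) w + Λ (Sum.inr (Sum.inl j)) v * PT k e (Sum.inr (Sum.inl j)) u *
      PT k e (Sum.inr (Sum.inl j)) w + Λ (Sum.inr (Sum.inl j)) w * PT k e (Sum.inr (Sum.inl j)) u *
      PT k e (Sum.inr (Sum.inl j)) v)) +
    ∑ l : Fin e, (Λ (Sum.inr (Sum.inr l)) u * PT k e (Sum.inr (Sum.inr l)) v *
      PT k e (Sum.inr (Sum.inr l)) w + Λ (Sum.inr (Sum.inr l)) v * PT k e (Sum.inr (Sum.inr l)) u *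
      PT k e (Sum.inr (Sum.inr l)) w + Λ (Sum.inr (Sum.inr l)) w * PT k e (Sum.inr (Sum.inr l)) u *
      PT k e (Sum.inr (Sum.inr l)) v)) = 0 := by
  have h1 := h u v w
  rw [Fintype.sum_sum_type, Fintype.sum_sum_type, Fintype.sum_prod_type] at h1
  exact h1

/-- `a_i b_j x_l` -/
theorem E_abx (h : Rel (PT k e) Λ) (i j : Fin k) (l : Fin e) :
    Λ (Sum.inl (i, j)) (vx l) = 0 := by
  have h1 := rel_split Λ h (va i) (vb j) (vx l)
  simp [PT] at h1
  exact h1

/-- `a_i a_l b_j` -/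
theorem E_aab (h : Rel (PT k e) Λ) (i l j : Fin k) (hil : i ≠ l) :
    Λ (Sum.inl (l, j)) (va i) + Λ (Sum.inl (i, j)) (va l) = 0 := by
  have h1 := rel_split Λ h (va i) (va l) (vb j)
  simpa [PT, Finset.sum_add_distrib, hil] using h1

/-- `a_i b_j b_l` -/
theorem E_abb (h : Rel (PT k e) Λ) (i j l : Fin k) (hjl : j ≠ l) :
    Λ (Sum.inl (i, l)) (vb j) + Λ (Sum.inl (i, j)) (vb l) = 0 := by
  have h1 := rel_split Λ h (va i) (vb j) (vb l)
  simpa [PT, Finset.sum_add_distrib, hjl] using h1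

/-- `a_i a_l c_m` -/
theorem E_aac (h : Rel (PT k e) Λ) (i l m : Fin k) (hil : i ≠ l) :
    ∑ x, Λ (Sum.inl (l, x)) (va i) * Cf l x m + ∑ x, Λ (Sum.inl (i, x)) (va l) * Cf i x m = 0 := by
  have h1 := rel_split Λ h (va i) (va l) (vc m)
  simpa [PT, Finset.sum_add_distrib, hil] using h1

/-- `b_j b_l c_m` -/
theorem E_bbc (h : Rel (PT k e) Λ) (j l m : Fin k) (hjl : j ≠ l) :
    ∑ x, Λ (Sum.inl (x, l)) (vb j) * Cf x l m + ∑ x, Λ (Sum.inl (x, j)) (vb l) * Cf x j m = 0 := by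
  have h1 := rel_split Λ h (vb j) (vb l) (vc m)
  simpa [PT, Finset.sum_add_distrib, hjl] using h1

/-- `a_i b_j c_m` -/
theorem E_abc (h : Rel (PT k e) Λ) (i j m : Fin k) :
    ∑ x, Λ (Sum.inl (x, j)) (va i) * Cf x j m + ∑ x, Λ (Sum.inl (i, x)) (vb j) * Cf i x m +
      Λ (Sum.inl (i, j)) (vc m) = 0 := by
  have h1 := rel_split Λ h (va i) (vb j) (vc m)
  simpa [PT, Finset.sum_add_distrib] using h1

/-- `a_i a_i c_m` -/
theorem E_a2c (h : Rel (PT k e) Λ) (i m : Fin k) :
    ∑ x, Λ (Sum.inl (i, x)) (va i) * Cf i x m + ∑ x, Λ (Sum.inl (i, x)) (va i) * Cf i x m +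
      ∑ x, Λ (Sum.inl (i, x)) (vc m) = 0 := by
  have h1 := rel_split Λ h (va i) (va i) (vc m)
  simpa [PT, Finset.sum_add_distrib] using h1

/-- `a_i c_m c_m` -/
theorem E_ac2 (h : Rel (PT k e) Λ) (i m : Fin k) :
    ∑ x, ∑ y, Λ (Sum.inl (x, y)) (va i) * Cf x y m * Cf x y m +
      ∑ x, Λ (Sum.inl (i, x)) (vc m) * Cf i x m + ∑ x, Λ (Sum.inl (i, x)) (vc m) * Cf i x m = 0 := by
  have h1 := rel_split Λ h (va i) (vc m) (vc m)
  simpa [PT, Finset.sum_add_distrib] using h1

end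

theorem Cf_symm {k : ℕ} (i j m : Fin k) : Cf i j m = Cf j i m := by
  by_cases h : i = j
  · rw [h]
  · unfold Cf
    rw [if_neg h, if_neg (Ne.symm h), add_comm]

theorem succ_ne {k : ℕ} (i : Fin k) : ((i : ℕ) : ℂ) + 1 ≠ 0 := Nat.cast_add_one_ne_zero _

/-- first elimination lemma -/
theorem elim1 {k : ℕ} (A : Fin k → ℂ) (i l : Fin k) (hil : i ≠ l)
    (h : ∀ m, ∑ j, A j * Cf l j m - ∑ j, A j * Cf i j m = 0) : ∀ j, A j = 0 := by
  have h' : ∀ m, ∑ j, A j * (Cf l j m - Cf i j m) = 0 := by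
    intro m
    rw [← h m, ← Finset.sum_sub_distrib]
    exact Finset.sum_congr rfl fun j _ => mul_sub _ _ _
  have h1 : ∀ m, m ≠ i → m ≠ l → A m = 0 := by
    intro m hmi hml
    have h2 := h' m
    rw [Finset.sum_eq_single m] at h2
    · rw [Cf_right (Ne.symm hml), Cf_right (Ne.symm hmi)] at h2
      rcases mul_eq_zero.1 h2 with h3 | h3
      · exact h3
      · exfalso
        have h4 : ((l : ℕ) : ℂ) = ((i : ℕ) : ℂ) := by linear_combination h3
        exact hil (Fin.ext (Nat.cast_injective h4.symm))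
    · intro j _ hj
      rw [Cf_other hml (Ne.symm hj), Cf_other hmi (Ne.symm hj), sub_zero, mul_zero]
    · intro h3
      exact absurd (Finset.mem_univ m) h3
  have hsum : ∀ m, A i * (Cf l i m - Cf i i m) + A l * (Cf l l m - Cf i l m) = 0 := by
    intro m
    have h2 : ∑ j ∈ ({i, l} : Finset (Fin k)), A j * (Cf l j m - Cf i j m) = 0 := by
      rw [← h' m]
      apply Finset.sum_subset (Finset.subset_univ _)
      intro j _ hj
      rw [Finset.mem_insert, Finset.mem_singleton, not_or] at hj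
      rw [h1 j hj.1 hj.2, zero_mul]
    rwa [Finset.sum_pair hil] at h2
  have e1 := hsum l
  have e2 := hsum i
  rw [Cf_left (Ne.symm hil), Cf_other (Ne.symm hil) (Ne.symm hil), Cf_diag, Cf_right hil] at e1
  rw [Cf_right (Ne.symm hil), Cf_diag, Cf_other hil hil, Cf_left hil] at e2
  have hk : (0 : ℝ) < k := by
    have := i.pos
    exact_mod_cast this
  have hA : A i = 0 := by
    have e3 : A i * (3 * (k : ℂ) * (3 * k - (((i : ℕ) : ℂ) + 1) - (((l : ℕ) : ℂ) + 1))) = 0 := by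
      linear_combination (-(((l : ℕ) : ℂ) + 1)) * e1 - (3 * (k : ℂ) - (((i : ℕ) : ℂ) + 1)) * e2
    rcases mul_eq_zero.1 e3 with e4 | e4
    · exact e4
    · exfalso
      have hi := i.2
      have hl := l.2
      rcases mul_eq_zero.1 e4 with e5 | e5
      · have : (k : ℂ) ≠ 0 := by
          have := i.pos
          exact_mod_cast this.ne'
        rcases mul_eq_zero.1 e5 with e6 | e6
        · norm_num at e6
        · exact this e6
      · have e6 : ((3 * k : ℕ) : ℂ) = (((i : ℕ) + 1 + (l + 1) : ℕ) : ℂ) := by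
          push_cast
          linear_combination e5
        have e7 : 3 * k = (i : ℕ) + 1 + (l + 1) := by exact_mod_cast e6
        omega
  have hB : A l = 0 := by
    rw [hA, zero_mul, zero_add, zero_sub] at e2
    rcases mul_eq_zero.1 e2 with e4 | e4
    · exact e4
    · exact absurd (neg_eq_zero.1 e4) (succ_ne l)
  intro j
  by_cases hj : j = i
  · rw [hj, hA]
  · by_cases hj' : j = l
    · rw [hj', hB]
    · exact h1 j hj hj'

/-- second elimination lemma -/
theorem elim2 {k : ℕ} (D : Fin k → ℂ) (i : Fin k) (r : ℕ) (hr : r ≠ 0)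
    (h : ∀ m, ∑ j, D j * Cf i j m ^ r = 0) : ∀ j, D j = 0 := by
  have h1 : ∀ m, m ≠ i → D m = 0 := by
    intro m hmi
    have h2 := h m
    rw [Finset.sum_eq_single m] at h2
    · rw [Cf_right (Ne.symm hmi)] at h2
      rcases mul_eq_zero.1 h2 with h3 | h3
      · exact h3
      · exact absurd (pow_eq_zero_iff hr |>.1 h3) (succ_ne i)
    · intro j _ hj
      rw [Cf_other hmi (Ne.symm hj), zero_pow hr, mul_zero]
    · intro h3
      exact absurd (Finset.mem_univ m) h3
  intro j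
  by_cases hj : j = i
  · have h2 := h i
    rw [Finset.sum_eq_single i] at h2
    · rw [Cf_diag] at h2
      rw [hj]
      rcases mul_eq_zero.1 h2 with h3 | h3
      · exact h3
      · exfalso
        have h4 := pow_eq_zero_iff hr |>.1 h3
        have : (k : ℂ) ≠ 0 := by
          have := i.pos
          exact_mod_cast this.ne'
        rcases mul_eq_zero.1 h4 with e6 | e6
        · norm_num at e6
        · exact this e6
    · intro j' _ hj'
      rw [h1 j' hj', zero_mul]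
    · intro h3
      exact absurd (Finset.mem_univ i) h3
  · exact h1 j hj

section
variable {k e : ℕ} (Λ : II k e → TT k e → ℂ)

theorem L_a_off (h : Rel (PT k e) Λ) (i l j : Fin k) (hil : i ≠ l) :
    Λ (Sum.inl (l, j)) (va i) = 0 := by
  refine elim1 (fun j => Λ (Sum.inl (l, j)) (va i)) i l hil (fun m => ?_) j
  rw [← E_aac Λ h i l m hil, sub_eq_add_neg, ← Finset.sum_neg_distrib]
  congr 1
  refine Finset.sum_congr rfl fun x _ => ?_
  have h1 := E_aab Λ h i l x hil
  rw [← neg_mul, eq_neg_of_add_eq_zero_left h1, neg_neg]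

theorem L_b_off (h : Rel (PT k e) Λ) (j l i : Fin k) (hjl : j ≠ l) :
    Λ (Sum.inl (i, l)) (vb j) = 0 := by
  refine elim1 (fun i => Λ (Sum.inl (i, l)) (vb j)) j l hjl (fun m => ?_) i
  rw [← E_bbc Λ h j l m hjl, sub_eq_add_neg, ← Finset.sum_neg_distrib]
  congr 1
  · exact Finset.sum_congr rfl fun x _ => by rw [Cf_symm]
  · refine Finset.sum_congr rfl fun x _ => ?_
    have h1 := E_abb Λ h x j l hjl
    rw [← neg_mul, eq_neg_of_add_eq_zero_left h1, neg_neg, Cf_symm]

theorem L_c (h : Rel (PT k e) Λ) (i j m : Fin k) : Λ (Sum.inl (i, j)) (vc m) =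
    -(Λ (Sum.inl (i, j)) (va i) + Λ (Sum.inl (i, j)) (vb j)) * Cf i j m := by
  have h1 := E_abc Λ h i j m
  rw [Finset.sum_eq_single i, Finset.sum_eq_single j] at h1
  · linear_combination h1
  · intro x _ hx
    rw [L_b_off Λ h j x i (Ne.symm hx), zero_mul]
  · intro h3
    exact absurd (Finset.mem_univ j) h3
  · intro x _ hx
    rw [L_a_off Λ h i x j (Ne.symm hx), zero_mul]
  · intro h3
    exact absurd (Finset.mem_univ i) h3

theorem L_ab (h : Rel (PT k e) Λ) (i j : Fin k) :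
    Λ (Sum.inl (i, j)) (va i) - Λ (Sum.inl (i, j)) (vb j) = 0 := by
  refine elim2 (fun j => Λ (Sum.inl (i, j)) (va i) - Λ (Sum.inl (i, j)) (vb j)) i 1 one_ne_zero
    (fun m => ?_) j
  rw [← E_a2c Λ h i m, ← Finset.sum_add_distrib, ← Finset.sum_add_distrib]
  refine Finset.sum_congr rfl fun x _ => ?_
  rw [L_c Λ h]
  ring

theorem L_a (h : Rel (PT k e) Λ) (i j : Fin k) : Λ (Sum.inl (i, j)) (va i) = 0 := by
  have h0 : -3 * Λ (Sum.inl (i, j)) (va i) = 0 := by
    refine elim2 (fun j => -3 * Λ (Sum.inl (i, j)) (va i)) i 2 two_ne_zero (fun m => ?_) j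
    have h1 := E_ac2 Λ h i m
    rw [Finset.sum_eq_single i] at h1
    · rw [← h1, ← Finset.sum_add_distrib, ← Finset.sum_add_distrib]
      refine Finset.sum_congr rfl fun x _ => ?_
      rw [L_c Λ h]
      linear_combination (2 * Cf i x m ^ 2) * (- L_ab Λ h i x)
    · intro x _ hx
      refine Finset.sum_eq_zero fun y _ => ?_
      rw [L_a_off Λ h i x y (Ne.symm hx), zero_mul, zero_mul]
    · intro h3
      exact absurd (Finset.mem_univ i) h3
  rcases mul_eq_zero.1 h0 with h1 | h1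
  · norm_num at h1
  · exact h1

theorem L_zero (h : Rel (PT k e) Λ) (i j : Fin k) (v : TT k e) : Λ (Sum.inl (i, j)) v = 0 := by
  have hb : Λ (Sum.inl (i, j)) (vb j) = 0 := by
    have h1 := L_ab Λ h i j
    rw [L_a Λ h, zero_sub] at h1
    exact neg_eq_zero.1 h1
  rcases v with a | b | c | x
  · by_cases ha : a = i
    · rw [ha]
      exact L_a Λ h i j
    · exact L_a_off Λ h a i j ha
  · by_cases hb' : b = j
    · rw [hb']
      exact hb
    · exact L_b_off Λ h b j i hb'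
  · have h1 := L_c Λ h i j c
    rw [L_a Λ h, hb, add_zero, neg_zero, zero_mul] at h1
    exact h1
  · exact E_abx Λ h i j x

theorem M_zero (h : Rel (PT k e) Λ) (j : Fin k) (v : TT k e) :
    Λ (Sum.inr (Sum.inl j)) v = 0 := by
  have h1 := rel_split Λ h (vb j) (vb j) v
  simp only [L_zero Λ h, zero_mul, add_zero, Finset.sum_const_zero, zero_add] at h1
  rcases v with a | b | c | x
  · simpa [PT] using h1
  · by_cases hb : b = j
    · rw [hb] at h1 ⊢
      simp [PT, Finset.sum_add_distrib] at h1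
      have h2 : (3 : ℂ) * Λ (Sum.inr (Sum.inl j)) (Sum.inr (Sum.inl j)) = 0 := by
        linear_combination h1
      rcases mul_eq_zero.1 h2 with h3 | h3
      · norm_num at h3
      · exact h3
    · simpa [PT, Finset.sum_add_distrib, hb, Ne.symm hb] using h1
  · simpa [PT] using h1
  · simpa [PT] using h1

theorem N_zero (h : Rel (PT k e) Λ) (l : Fin e) (v : TT k e) :
    Λ (Sum.inr (Sum.inr l)) v = 0 := by
  have h1 := rel_split Λ h (vx l) (vx l) v
  simp only [L_zero Λ h, M_zero Λ h, zero_mul, add_zero, Finset.sum_const_zero, zero_add] at h1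
  rcases v with a | b | c | x
  · simpa [PT] using h1
  · simpa [PT] using h1
  · simpa [PT] using h1
  · by_cases hb : x = l
    · rw [hb] at h1 ⊢
      simp [PT, Finset.sum_add_distrib] at h1
      have h2 : (3 : ℂ) * Λ (Sum.inr (Sum.inr l)) (Sum.inr (Sum.inr (Sum.inr l))) = 0 := by
        linear_combination h1
      rcases mul_eq_zero.1 h2 with h3 | h3
      · norm_num at h3
      · exact h3
    · simpa [PT, Finset.sum_add_distrib, hb, Ne.symm hb] using h1

end

/-- the coordinate sums are not zero -/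
theorem sum_PT (k e : ℕ) (i : II k e) : ∑ v, PT k e i v ≠ 0 := by
  rcases i with ⟨i, j⟩ | j | l
  · have h1 : ∑ m, Cf i j m = ((∑ m : Fin k, (if i = j then (if m = i then 3 * k else 0)
      else (if m = j then ((i : ℕ)) + 1 else 0) + (if m = i then (j : ℕ) + 1 else 0)) : ℕ) : ℂ) := by
      rw [Nat.cast_sum]
      refine Finset.sum_congr rfl fun m _ => ?_
      unfold Cf
      split_ifs <;> push_cast <;> ring
    simp only [Fintype.sum_sum_type, PT, Finset.sum_ite_eq', Finset.mem_univ, if_true,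
      Finset.sum_const_zero, add_zero]
    rw [h1]
    norm_cast
    omega
  · simp [Fintype.sum_sum_type, PT]
  · simp [Fintype.sum_sum_type, PT]

/-- **Cubics.** -/
theorem cubic (k e p n : ℕ) (hn : n + 1 = 3 * k + e) (hp : p ≤ k * k + k + e) : GG n 3 p := by
  refine gg_of_dual (TT k e) (II k e) ?_ (PT k e) (sum_PT k e) (fun Λ h i v => ?_) ?_
  · simp only [Fintype.card_sum, Fintype.card_fin]
    omega
  · rcases i with ⟨i, j⟩ | j | l
    · exact L_zero Λ h i j v
    · exact M_zero Λ h j v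
    · exact N_zero Λ h l v
  · simp only [Fintype.card_sum, Fintype.card_prod, Fintype.card_fin]
    omega

end Pool.Agent.WarM


end

section

/-!
# Numbers for the Horace induction
-/

set_option autoImplicit false

open Pool.Agent.War

namespace Pool.Agent.WarM

theorem NN_two (n : ℕ) : 2 * NN n 2 = (n + 1) * (n + 2) := by
  induction n with
  | zero => rfl
  | succ n ih =>
    rw [NN_succ, NN_right_one]
    nlinarith

theorem NN_three (n : ℕ) : 6 * NN n 3 = (n + 1) * (n + 2) * (n + 3) := by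
  induction n with
  | zero => rfl
  | succ n ih =>
    rw [NN_succ]
    have h := NN_two (n + 1)
    nlinarith

theorem NN_four (n : ℕ) : 24 * NN n 4 = (n + 1) * (n + 2) * (n + 3) * (n + 4) := by
  induction n with
  | zero => rfl
  | succ n ih =>
    rw [NN_succ]
    have h := NN_three (n + 1)
    nlinarith

/-- ratio of consecutive values -/
theorem NN_ratio (m d : ℕ) : (d + 1) * NN m (d + 1) = (m + d + 1) * NN m d := by
  have h := Nat.add_one_mul_choose_eq (m + d) d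
  have e1 : (m + d).choose d = NN m d := by
    unfold NN
    rw [Nat.choose_symm_add]
  have e2 : (m + d + 1).choose (d + 1) = NN m (d + 1) := by
    unfold NN
    rw [add_assoc, Nat.choose_symm_add]
  rw [e1, e2] at h
  linarith

theorem NN_two_left (d : ℕ) : 2 * NN 2 d = (d + 1) * (d + 2) := by
  have h := NN_two d
  have e : NN 2 d = NN d 2 := by
    unfold NN
    rw [add_comm 2 d, Nat.choose_symm_add]
  rw [e, h]

theorem NN_three_left (d : ℕ) : 6 * NN 3 d = (d + 1) * (d + 2) * (d + 3) := by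
  have h := NN_three d
  have e : NN 3 d = NN d 3 := by
    unfold NN
    rw [add_comm 3 d, Nat.choose_symm_add]
  rw [e, h]

/-- cubics -/
theorem num3 (n k e p : ℕ) (hn : n + 1 = 3 * k + e) (he : e ≤ 2) (hk : 1 ≤ k)
    (hp : (2 * n + 1) * p ≤ NN n 3) : p ≤ k * k + k + e := by
  by_contra hc
  push Not at hc
  have h1 : (2 * n + 1) * (k * k + k + e + 1) ≤ NN n 3 :=
    (Nat.mul_le_mul_left _ hc).trans hp
  have h2 := NN_three n
  have h3 : 6 * ((2 * n + 1) * (k * k + k + e + 1)) ≤ (n + 1) * (n + 2) * (n + 3) := by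
    rw [← h2]
    exact Nat.mul_le_mul_left _ h1
  obtain ⟨k, rfl⟩ : ∃ k', k = k' + 1 := ⟨k - 1, by omega⟩
  obtain rfl : n = 3 * k + 2 + e := by omega
  interval_cases e <;> ring_nf at h3 <;> nlinarith [Nat.zero_le (k ^ 2), Nat.zero_le (k ^ 3)]

/-- first inequality, abstract -/
theorem numA (m u Q p N' N1 N : ℕ) (hN : N = N' + N1) (hp : (2 * (m + 1) + 1) * p ≤ N)
    (hQ : Q = N1 / (2 * (m + 1) + 1)) (hu : u = p - min p Q) :
    (2 * m + 3) * u ≤ N' + (2 * m + 2) := by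
  rcases le_total p Q with h | h
  · rw [min_eq_left h, Nat.sub_self] at hu
    rw [hu]
    omega
  · rw [min_eq_right h] at hu
    have h1 := Nat.lt_mul_div_succ N1 (show 0 < 2 * (m + 1) + 1 by omega)
    rw [← hQ] at h1
    obtain rfl : p = u + Q := by omega
    have e1 : (2 * (m + 1) + 1) * (u + Q) = (2 * m + 3) * u + (2 * (m + 1) + 1) * Q := by ring
    have e2 : (2 * (m + 1) + 1) * (Q + 1) = (2 * (m + 1) + 1) * Q + (2 * m + 3) := by ring
    rw [e1] at hp
    rw [e2] at h1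
    omega

/-- from the weak to the sharp bound for `u` -/
theorem numA2 (m u N' : ℕ) (h : (2 * m + 3) * u ≤ N' + (2 * m + 2))
    (hN : (m + 1) * (2 * m + 1) ≤ N') : (2 * m + 1) * u ≤ N' := by
  by_contra hc
  push Not at hc
  have h1 : (2 * m + 3) * (N' + 1) ≤ (2 * m + 3) * ((2 * m + 1) * u) :=
    Nat.mul_le_mul_left _ hc
  have h2 : (2 * m + 1) * ((2 * m + 3) * u) ≤ (2 * m + 1) * (N' + (2 * m + 2)) :=
    Nat.mul_le_mul_left _ h
  nlinarith

theorem big4 (m d : ℕ) (hm : 2 ≤ m) (hd : 4 ≤ d) : (m + 1) * (2 * m + 1) ≤ NN m d := by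
  have h1 : NN m 4 ≤ NN m d := NN_mono_right hd
  have h2 := NN_four m
  refine le_trans ?_ h1
  have h3 : 24 * ((m + 1) * (2 * m + 1)) ≤ 24 * NN m 4 := by
    rw [h2]
    obtain ⟨k, rfl⟩ : ∃ k, m = k + 2 := ⟨m - 2, by omega⟩
    nlinarith [Nat.zero_le (k ^ 2), Nat.zero_le (k ^ 3), Nat.zero_le (k ^ 4)]
  omega

/-- the inequality behind the second condition -/
theorem numC (m e : ℕ) (he : 3 ≤ e)
    (h : (e + 2) * ((2 * m + 2) * (m + 3)) ≤ m * (e + 1) * NN m (e + 1)) :
    NN m (e + 2) + (2 * m + 2) * (m + 3) ≤ (m + 1) * NN m (e + 1) := by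
  have h1 := NN_ratio m (e + 1)
  have h2 : (e + 2) * (NN m (e + 2) + (2 * m + 2) * (m + 3)) ≤
      (e + 2) * ((m + 1) * NN m (e + 1)) := by
    have e1 : (e + 2) * NN m (e + 2) = (m + e + 2) * NN m (e + 1) := by
      have e0 : e + 1 + 1 = e + 2 := rfl
      rw [e0] at h1
      rw [h1]
      ring
    rw [mul_add, e1]
    nlinarith
  exact Nat.le_of_mul_le_mul_left h2 (by omega)

theorem numC3 (m e : ℕ) (hm : 3 ≤ m) (he : 3 ≤ e) :
    NN m (e + 2) + (2 * m + 2) * (m + 3) ≤ (m + 1) * NN m (e + 1) := by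
  apply numC m e he
  have h1 : NN m 3 ≤ NN m (e + 1) := NN_mono_right (by omega)
  have h2 := NN_three m
  have h3 : 12 * (m + 1) * (m + 3) * 5 ≤ 4 * (m * (6 * NN m 3)) := by
    rw [h2]
    obtain ⟨k, rfl⟩ : ∃ k, m = k + 3 := ⟨m - 3, by omega⟩
    nlinarith [Nat.zero_le (k ^ 2), Nat.zero_le (k ^ 3), Nat.zero_le (k ^ 4)]
  have h4 : 12 * (m + 1) * (m + 3) * 5 ≤ 4 * (m * (6 * NN m (e + 1))) :=
    h3.trans (Nat.mul_le_mul_left _ (Nat.mul_le_mul_left _ (Nat.mul_le_mul_left _ h1)))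
  have h5 : 4 * (e + 2) ≤ 5 * (e + 1) := by omega
  have h6 : 4 * (e + 2) * (12 * (m + 1) * (m + 3) * 5) ≤
      5 * (e + 1) * (4 * (m * (6 * NN m (e + 1)))) := Nat.mul_le_mul h5 h4
  nlinarith

theorem numC2 (e : ℕ) (he : 4 ≤ e) :
    NN 2 (e + 2) + (2 * 2 + 2) * (2 + 3) ≤ (2 + 1) * NN 2 (e + 1) := by
  apply numC 2 e (by omega)
  have h := NN_two_left (e + 1)
  nlinarith

theorem numC1 (e : ℕ) (he : 15 ≤ e) :
    NN 1 (e + 2) + (2 * 1 + 2) * (1 + 3) ≤ (1 + 1) * NN 1 (e + 1) := by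
  rw [NN_one, NN_one]
  omega

/-- conclusion of the second condition -/
theorem numB (m u q p₂ N1 N2 M M' : ℕ) (hN1 : N1 = M + N2)
    (hC : M' + (2 * m + 2) * (m + 3) ≤ (m + 1) * M)
    (hu : (2 * m + 3) * u ≤ M' + (2 * m + 2)) (hp₂ : p₂ ≤ q)
    (hq : (2 * m + 3) * (q - p₂) ≤ M + (2 * m + 2)) :
    N2 + u + (m + 2) * q ≤ N1 + (m + 2) * p₂ := by
  obtain ⟨v, rfl⟩ : ∃ v, q = p₂ + v := ⟨q - p₂, by omega⟩
  rw [Nat.add_sub_cancel_left] at hq
  have h1 : (2 * m + 3) * (u + (m + 2) * v) ≤ (2 * m + 3) * M := by nlinarith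
  have h2 := Nat.le_of_mul_le_mul_left h1 (by omega)
  rw [hN1, mul_add]
  omega

theorem numD (m e p q : ℕ) (hm : 1 ≤ m) (he : 3 ≤ e)
    (hp : (2 * (m + 1) + 1) * p ≤ NN (m + 1) (e + 2))
    (hq : q = min p (NN (m + 1) (e + 1) / (2 * (m + 1) + 1))) :
    (2 * m + 1) * (p - q) ≤ NN m (e + 2) ∧
    NN (m + 1) e + (p - q) + (m + 2) * q ≤ NN (m + 1) (e + 1) +
      (m + 2) * min q (NN (m + 1) e / (2 * (m + 1) + 1)) := by
  have hN0 : NN (m + 1) (e + 2) = NN m (e + 2) + NN (m + 1) (e + 1) := NN_succ m (e + 1)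
  have hN1 : NN (m + 1) (e + 1) = NN m (e + 1) + NN (m + 1) e := NN_succ m e
  have hu := numA m (p - q) _ p _ _ _ hN0 hp rfl (by rw [hq])
  have hq1 : (2 * (m + 1) + 1) * q ≤ NN (m + 1) (e + 1) := by
    have h1 : q ≤ NN (m + 1) (e + 1) / (2 * (m + 1) + 1) := by
      rw [hq]
      exact min_le_right _ _
    exact (Nat.mul_le_mul_left _ h1).trans (Nat.mul_div_le _ _)
  have hu2 := numA m (q - min q (NN (m + 1) e / (2 * (m + 1) + 1))) _ q _ _ _ hN1 hq1 rfl rfl
  constructor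
  · -- first condition
    rcases Nat.lt_or_ge m 2 with h | h
    · obtain rfl : m = 1 := by omega
      apply numA2 1 _ _ hu
      rw [NN_one]
      omega
    · exact numA2 m _ _ hu (big4 m (e + 2) h (by omega))
  · rcases Nat.lt_or_ge m 3 with h | h
    · rcases Nat.lt_or_ge m 2 with h' | h'
      · obtain rfl : m = 1 := by omega
        rcases Nat.lt_or_ge e 15 with he' | he'
        · -- finitely many cases
          have e0 := NN_two_left e
          have e1 := NN_two_left (e + 1)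
          have e2 := NN_two_left (e + 2)
          have eq2 : (1 + 1 : ℕ) = 2 := rfl
          rw [eq2] at hp hq ⊢
          interval_cases e <;> omega
        · exact numB 1 _ _ _ _ _ _ _ hN1 (numC1 e he') hu (min_le_left _ _) hu2
      · obtain rfl : m = 2 := by omega
        rcases Nat.lt_or_ge e 4 with he' | he'
        · obtain rfl : e = 3 := by omega
          have e0 := NN_three_left 3
          have e1 := NN_three_left (3 + 1)
          have e2 := NN_three_left (3 + 2)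
          have eq2 : (2 + 1 : ℕ) = 3 := rfl
          rw [eq2] at hp hq ⊢
          omega
        · exact numB 2 _ _ _ _ _ _ _ hN1 (numC2 e he') hu (min_le_left _ _) hu2
    · exact numB m _ _ _ _ _ _ _ hN1 (numC3 m e h he) hu (min_le_left _ _) hu2

/-- degree four -/
theorem numE (m p q : ℕ) (hm : 1 ≤ m)
    (hp : (2 * (m + 1) + 1) * p ≤ NN (m + 1) 4)
    (hq : q = min p (NN (m + 1) 3 / (2 * (m + 1) + 1))) :
    (2 * m + 1) * (p - q) ≤ NN m 4 ∧
    NN (m + 1) 2 + (p - q) + (m + 2) * q ≤ NN (m + 1) 3 + (m + 2) * min q 1 := by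
  have hN0 : NN (m + 1) 4 = NN m 4 + NN (m + 1) 3 := NN_succ m 3
  have hN1 : NN (m + 1) 3 = NN m 3 + NN (m + 1) 2 := NN_succ m 2
  have hu := numA m (p - q) _ p _ _ _ hN0 hp rfl (by rw [hq])
  have hq1 : (2 * (m + 1) + 1) * q ≤ NN (m + 1) 3 := by
    have h1 : q ≤ NN (m + 1) 3 / (2 * (m + 1) + 1) := by
      rw [hq]
      exact min_le_right _ _
    exact (Nat.mul_le_mul_left _ h1).trans (Nat.mul_div_le _ _)
  have a2 := NN_two (m + 1)
  have a3 := NN_three (m + 1)
  have a4 := NN_four (m + 1)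
  have b3 := NN_three m
  have b4 := NN_four m
  constructor
  · rcases Nat.lt_or_ge m 2 with h | h
    · obtain rfl : m = 1 := by omega
      omega
    · exact numA2 m _ _ hu (big4 m 4 h (by omega))
  · rcases Nat.lt_or_ge m 3 with h | h
    · interval_cases m <;> omega
    · rcases Nat.eq_zero_or_pos q with h0 | h0
      · -- `q = 0` implies `p = 0`
        have h1 : 1 ≤ NN (m + 1) 3 / (2 * (m + 1) + 1) := by
          rw [Nat.one_le_div_iff (by omega)]
          nlinarith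
        have h2 : p = 0 := by
          rw [h0] at hq
          rcases min_choice p (NN (m + 1) 3 / (2 * (m + 1) + 1)) with h3 | h3
          · rw [h3] at hq
            exact hq.symm
          · rw [h3] at hq
            omega
        rw [h2, h0]
        have : NN (m + 1) 2 ≤ NN (m + 1) 3 := NN_mono_right (by omega)
        omega
      · have h1 : min q 1 = 1 := min_eq_right h0
        rw [h1, mul_one, hN1]
        have h2 : (2 * m + 3) * ((p - q) + (m + 2) * q) ≤ (2 * m + 3) * (NN m 3 + (m + 2)) := by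
          have h3 : (2 * m + 3) * ((p - q) + (m + 2) * q) ≤
              NN m 4 + (2 * m + 2) + (m + 2) * NN (m + 1) 3 := by
            have e1 : (2 * m + 3) * ((p - q) + (m + 2) * q) =
              (2 * m + 3) * (p - q) + (m + 2) * ((2 * (m + 1) + 1) * q) := by ring
            rw [e1]
            exact Nat.add_le_add hu (Nat.mul_le_mul_left _ hq1)
          refine h3.trans ?_
          have h4 : 24 * (NN m 4 + (2 * m + 2) + (m + 2) * NN (m + 1) 3) ≤
              24 * ((2 * m + 3) * (NN m 3 + (m + 2))) := by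
            have e1 : 24 * (NN m 4 + (2 * m + 2) + (m + 2) * NN (m + 1) 3) =
              24 * NN m 4 + 24 * (2 * m + 2) + 4 * (m + 2) * (6 * NN (m + 1) 3) := by ring
            have e2 : 24 * ((2 * m + 3) * (NN m 3 + (m + 2))) =
              4 * (2 * m + 3) * (6 * NN m 3) + 24 * ((2 * m + 3) * (m + 2)) := by ring
            rw [e1, e2, a3, b3, b4]
            obtain ⟨k, rfl⟩ : ∃ k, m = k + 3 := ⟨m - 3, by omega⟩
            nlinarith [Nat.zero_le (k ^ 2), Nat.zero_le (k ^ 3), Nat.zero_le (k ^ 4)]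
          omega
        have h5 := Nat.le_of_mul_le_mul_left h2 (by omega)
        omega

end Pool.Agent.WarM


end

section

set_option autoImplicit false

namespace Pool.Agent.WarQ

theorem x_CYC : S_CYC := by
  intro n b c D hD hb
  rcases Nat.eq_zero_or_pos n with rfl | hn
  · refine ⟨fun _ => ∅, fun _ => ?_, fun r => r.elim0⟩
    rw [Finset.card_empty]
    omega
  refine ⟨fun i => (Finset.range D).image
    (fun t => (⟨(i.val * D + t) % n, Nat.mod_lt _ hn⟩ : Fin n)), fun i => ?_, fun r => ?_⟩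
  · rw [Finset.card_image_of_injOn, Finset.card_range]
    intro t ht t' ht' h
    have h1 : (i.val * D + t) % n = (i.val * D + t') % n := congrArg Fin.val h
    have h2 : t ≡ t' [MOD n] := Nat.ModEq.add_left_cancel' (i.val * D) h1
    have ht1 : t < D := Finset.mem_range.1 ht
    have ht2 : t' < D := Finset.mem_range.1 ht'
    exact Nat.ModEq.eq_of_lt_of_lt h2 (by omega) (by omega)
  · have key : ∀ i : Fin b, ∃ x : ℕ, r ∈ (Finset.range D).image
        (fun t => (⟨(i.val * D + t) % n, Nat.mod_lt _ hn⟩ : Fin n)) →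
        i.val * D ≤ x ∧ x < i.val * D + D ∧ x % n = r.val := by
      intro i
      by_cases h : r ∈ (Finset.range D).image
        (fun t => (⟨(i.val * D + t) % n, Nat.mod_lt _ hn⟩ : Fin n))
      · obtain ⟨t, ht, hr⟩ := Finset.mem_image.1 h
        have ht1 : t < D := Finset.mem_range.1 ht
        exact ⟨i.val * D + t, fun _ => ⟨by omega, by omega, congrArg Fin.val hr⟩⟩
      · exact ⟨0, fun h' => absurd h' h⟩
    choose x hx using key
    have hc : c = (Finset.range c).card := (Finset.card_range c).symm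
    rw [hc]
    refine Finset.card_le_card_of_injOn (fun i => x i / n) ?_ ?_
    · intro i hi
      obtain ⟨-, h2, -⟩ := hx i (Finset.mem_filter.1 hi).2
      have h3 : i.val * D + D ≤ b * D := by
        have := Nat.mul_le_mul_right D i.isLt
        calc i.val * D + D = (i.val + 1) * D := by ring
          _ ≤ b * D := this
      exact Finset.mem_coe.2 (Finset.mem_range.2 (Nat.div_lt_of_lt_mul (by omega)))
    · intro i hi j hj hij
      obtain ⟨h1, h2, h3⟩ := hx i (Finset.mem_filter.1 hi).2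
      obtain ⟨g1, g2, g3⟩ := hx j (Finset.mem_filter.1 hj).2
      have hxe : x i = x j := by
        rw [← Nat.div_add_mod (x i) n, ← Nat.div_add_mod (x j) n, h3, g3]
        have h5 : x i / n = x j / n := hij
        rw [h5]
      have hDp : 0 < D := by omega
      have e1 : x i / D = i.val := by
        refine Nat.div_eq_of_lt_le ?_ ?_
        · linarith
        · linarith [h2]
      have e2 : x j / D = j.val := by
        refine Nat.div_eq_of_lt_le ?_ ?_
        · linarith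
        · linarith [g2]
      refine Fin.ext ?_
      rw [← e1, ← e2, hxe]

end Pool.Agent.WarQ


end

section

/-!
# Independent double points in degree three: the block design   (helper27)

Homogeneous coordinates: `k` blocks of three coordinates and `e` more. Points: three in the sum of two
blocks, for every pair of blocks; `m` in the sum of a block and of the last `e` coordinates, for every
block; `m₀` in the last `e` coordinates. The relations between the derivatives at these points split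
into systems for three blocks, for two blocks, for one block and for no block.
-/

set_option autoImplicit false

open Module MvPolynomial Pool.Agent.War

namespace Pool.Agent.WarM.CubAH

/-- pairs `lo < hi` of blocks -/
abbrev PI (k : ℕ) := (b : Fin k) × Fin b.val

/-- the smaller one -/
def lo {k : ℕ} (π : PI k) : Fin k := ⟨π.2.val, π.2.2.trans π.1.2⟩

theorem lo_lt {k : ℕ} (π : PI k) : lo π < π.1 := π.2.2

/-- the pair -/
def mk {k : ℕ} (a b : Fin k) (h : a < b) : PI k := ⟨b, ⟨a.val, h⟩⟩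

theorem eq_mk {k : ℕ} {a b : Fin k} (h : a < b) {π : PI k} (h1 : a = lo π) (h2 : b = π.1) :
    π = mk a b h := by
  subst h1 h2
  rfl

theorem lo_mk {k : ℕ} {a b : Fin k} (h : a < b) : lo (mk a b h) = a := rfl

/-- coordinates -/
abbrev T (k e : ℕ) := (Fin k × Fin 3) ⊕ Fin e

/-- points -/
abbrev II (k m m₀ : ℕ) := (PI k × Fin 3) ⊕ ((Fin k × Fin m) ⊕ Fin m₀)

/-- parameters -/
abbrev XX (k e m m₀ : ℕ) := (PI k × Fin 3 → Fin 3 → ℂ) × (PI k × Fin 3 → Fin 3 → ℂ) ×
  (Fin k × Fin m → Fin 3 ⊕ Fin e → ℂ) × (Fin m₀ → Fin e → ℂ)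

/-- the points -/
def PP {k e m m₀ : ℕ} (x : XX k e m m₀) : II k m m₀ → T k e → ℂ
  | Sum.inl (π, t), Sum.inl (c, j) =>
      if c = lo π then x.1 (π, t) j else if c = π.1 then x.2.1 (π, t) j else 0
  | Sum.inl _, Sum.inr _ => 0
  | Sum.inr (Sum.inl (a, i)), Sum.inl (c, j) => if c = a then x.2.2.1 (a, i) (Sum.inl j) else 0
  | Sum.inr (Sum.inl (a, i)), Sum.inr l => x.2.2.1 (a, i) (Sum.inr l)
  | Sum.inr (Sum.inr _), Sum.inl _ => 0
  | Sum.inr (Sum.inr i), Sum.inr l => x.2.2.2 i l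

/-- three blocks -/
def Sys4 (p q p' q' p'' q'' X Y Z : Fin 3 → Fin 3 → ℂ) : Prop :=
  ∀ u v w : Fin 3, ∑ t, Z t u * p'' t v * q'' t w + ∑ t, Y t v * p' t u * q' t w +
    ∑ t, X t w * p t u * q t v = 0

/-- two blocks -/
def Sys3 {e m : ℕ} (p q : Fin 3 → Fin 3 → ℂ) (Qa Qb : Fin m → Fin 3 ⊕ Fin e → ℂ)
    (A B : Fin 3 → Fin 3 → ℂ) (C : Fin 3 → Fin e → ℂ) (D E : Fin m → Fin 3 → ℂ) : Prop :=
  (∀ u v w : Fin 3, ∑ t, A t u * p t v * q t w + ∑ t, A t v * p t u * q t w +
    (∑ t, B t w * p t u * p t v + ∑ i, D i w * Qa i (Sum.inl u) * Qa i (Sum.inl v)) = 0) ∧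
  (∀ u v w : Fin 3, (∑ t, A t u * q t v * q t w +
    ∑ i, E i u * Qb i (Sum.inl v) * Qb i (Sum.inl w)) +
    ∑ t, B t v * p t u * q t w + ∑ t, B t w * p t u * q t v = 0) ∧
  (∀ (u v : Fin 3) (l : Fin e), ∑ i, E i u * Qb i (Sum.inl v) * Qb i (Sum.inr l) +
    ∑ i, D i v * Qa i (Sum.inl u) * Qa i (Sum.inr l) + ∑ t, C t l * p t u * q t v = 0)

/-- one block -/
def Sys2 {e m m₀ : ℕ} (Q : Fin m → Fin 3 ⊕ Fin e → ℂ) (z : Fin m₀ → Fin e → ℂ)
    (F : Fin m → Fin 3 ⊕ Fin e → ℂ) (G : Fin m₀ → Fin 3 → ℂ) : Prop :=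
  ∀ (u : Fin 3) (v w : Fin 3 ⊕ Fin e),
    (∑ j, F j (Sum.inl u) * Q j v * Q j w + ∑ i, G i u * Sum.elim (fun _ => 0) (z i) v *
      Sum.elim (fun _ => 0) (z i) w) +
    ∑ j, F j v * Q j (Sum.inl u) * Q j w + ∑ j, F j w * Q j (Sum.inl u) * Q j v = 0

/-- no block -/
def Sys1 {e m₀ : ℕ} (z H : Fin m₀ → Fin e → ℂ) : Prop :=
  ∀ u v w : Fin e, ∑ i, H i u * z i v * z i w + ∑ i, H i v * z i u * z i w +
    ∑ i, H i w * z i u * z i v = 0

section
variable {k e m m₀ : ℕ} (x : XX k e m m₀) (F : II k m m₀ → ℂ)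

/-- quadratic expression -/
noncomputable def S (v w : T k e) : ℂ := ∑ i, F i * PP x i v * PP x i w

theorem S_symm (v w : T k e) : S x F v w = S x F w v := by
  unfold S
  exact Finset.sum_congr rfl fun i _ => by ring

theorem S_split (v w : T k e) : S x F v w =
    ∑ y : PI k × Fin 3, F (Sum.inl y) * PP x (Sum.inl y) v * PP x (Sum.inl y) w +
    (∑ y : Fin k × Fin m, F (Sum.inr (Sum.inl y)) * PP x (Sum.inr (Sum.inl y)) v *
      PP x (Sum.inr (Sum.inl y)) w +
    ∑ y : Fin m₀, F (Sum.inr (Sum.inr y)) * PP x (Sum.inr (Sum.inr y)) v *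
      PP x (Sum.inr (Sum.inr y)) w) := by
  unfold S
  rw [Fintype.sum_sum_type, Fintype.sum_sum_type]

theorem S_diff {b c : Fin k} (h : b < c) (j l : Fin 3) :
    S x F (Sum.inl (b, j)) (Sum.inl (c, l)) =
      ∑ t, F (Sum.inl (mk b c h, t)) * x.1 (mk b c h, t) j * x.2.1 (mk b c h, t) l := by
  rw [S_split]
  have h2 : ∑ y : Fin k × Fin m, F (Sum.inr (Sum.inl y)) *
      PP x (Sum.inr (Sum.inl y)) (Sum.inl (b, j)) *
      PP x (Sum.inr (Sum.inl y)) (Sum.inl (c, l)) = 0 := by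
    refine Finset.sum_eq_zero fun y _ => ?_
    obtain ⟨a, i⟩ := y
    simp only [PP]
    by_cases hb : b = a
    · have hc : c ≠ a := fun hc => by
        rw [hb, hc] at h
        exact lt_irrefl _ h
      rw [if_neg hc, mul_zero]
    · rw [if_neg hb, mul_zero, zero_mul]
  have h3 : ∑ y : Fin m₀, F (Sum.inr (Sum.inr y)) *
      PP x (Sum.inr (Sum.inr y)) (Sum.inl (b, j)) *
      PP x (Sum.inr (Sum.inr y)) (Sum.inl (c, l)) = 0 := by
    refine Finset.sum_eq_zero fun y _ => ?_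
    simp only [PP, mul_zero]
  rw [h2, h3, add_zero, add_zero, Fintype.sum_prod_type, Finset.sum_eq_single (mk b c h)]
  · refine Finset.sum_congr rfl fun t _ => ?_
    simp only [PP]
    rw [lo_mk, if_pos rfl, if_neg (ne_of_gt h), if_pos (show c = (mk b c h).1 from rfl)]
  · intro π _ hπ
    refine Finset.sum_eq_zero fun t _ => ?_
    simp only [PP]
    have hlt := lo_lt π
    by_cases h1 : b = lo π
    · have h4 : c ≠ π.1 := fun h4 => hπ (eq_mk h h1 h4)
      have h5 : c ≠ lo π := fun h5 => by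
        rw [h1, h5] at h
        exact lt_irrefl _ h
      rw [if_neg h5, if_neg h4, mul_zero]
    · rw [if_neg h1]
      by_cases h6 : b = π.1
      · have h4 : c ≠ π.1 := fun h4 => by
          rw [h6, h4] at h
          exact lt_irrefl _ h
        have h5 : c ≠ lo π := fun h5 => by
          rw [h6, h5] at h
          exact lt_asymm h hlt
        rw [if_neg h5, if_neg h4, mul_zero]
      · rw [if_neg h6, mul_zero, zero_mul]
  · intro h'
    exact absurd (Finset.mem_univ _) h'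

/-- same block; `F` vanishes at the other pairs -/
theorem S_same_lo {b c : Fin k} (h : b < c) (j l : Fin 3)
    (hF : ∀ (π : PI k) (t : Fin 3), π ≠ mk b c h → (b = lo π ∨ b = π.1) →
      F (Sum.inl (π, t)) = 0) :
    S x F (Sum.inl (b, j)) (Sum.inl (b, l)) =
      ∑ t, F (Sum.inl (mk b c h, t)) * x.1 (mk b c h, t) j * x.1 (mk b c h, t) l +
      ∑ i, F (Sum.inr (Sum.inl (b, i))) * x.2.2.1 (b, i) (Sum.inl j) *
        x.2.2.1 (b, i) (Sum.inl l) := by
  rw [S_split]
  have h3 : ∑ y : Fin m₀, F (Sum.inr (Sum.inr y)) *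
      PP x (Sum.inr (Sum.inr y)) (Sum.inl (b, j)) *
      PP x (Sum.inr (Sum.inr y)) (Sum.inl (b, l)) = 0 := by
    refine Finset.sum_eq_zero fun y _ => ?_
    simp only [PP, mul_zero]
  rw [h3, add_zero]
  congr 1
  · rw [Fintype.sum_prod_type, Finset.sum_eq_single (mk b c h)]
    · refine Finset.sum_congr rfl fun t _ => ?_
      simp only [PP]
      rw [lo_mk, if_pos rfl, if_pos rfl]
    · intro π _ hπ
      refine Finset.sum_eq_zero fun t _ => ?_
      by_cases hb : b = lo π ∨ b = π.1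
      · rw [hF π t hπ hb, zero_mul, zero_mul]
      · push Not at hb
        simp only [PP]
        rw [if_neg hb.1, if_neg hb.2, mul_zero, zero_mul]
    · intro h'
      exact absurd (Finset.mem_univ _) h'
  · rw [Fintype.sum_prod_type, Finset.sum_eq_single b]
    · refine Finset.sum_congr rfl fun i _ => ?_
      simp only [PP, if_true]
    · intro a _ ha
      refine Finset.sum_eq_zero fun i _ => ?_
      simp only [PP]
      rw [if_neg (Ne.symm ha), mul_zero, zero_mul]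
    · intro h'
      exact absurd (Finset.mem_univ _) h'

theorem S_same_hi {b c : Fin k} (h : b < c) (j l : Fin 3)
    (hF : ∀ (π : PI k) (t : Fin 3), π ≠ mk b c h → (c = lo π ∨ c = π.1) →
      F (Sum.inl (π, t)) = 0) :
    S x F (Sum.inl (c, j)) (Sum.inl (c, l)) =
      ∑ t, F (Sum.inl (mk b c h, t)) * x.2.1 (mk b c h, t) j * x.2.1 (mk b c h, t) l +
      ∑ i, F (Sum.inr (Sum.inl (c, i))) * x.2.2.1 (c, i) (Sum.inl j) *
        x.2.2.1 (c, i) (Sum.inl l) := by
  rw [S_split]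
  have h3 : ∑ y : Fin m₀, F (Sum.inr (Sum.inr y)) *
      PP x (Sum.inr (Sum.inr y)) (Sum.inl (c, j)) *
      PP x (Sum.inr (Sum.inr y)) (Sum.inl (c, l)) = 0 := by
    refine Finset.sum_eq_zero fun y _ => ?_
    simp only [PP, mul_zero]
  rw [h3, add_zero]
  congr 1
  · rw [Fintype.sum_prod_type, Finset.sum_eq_single (mk b c h)]
    · refine Finset.sum_congr rfl fun t _ => ?_
      simp only [PP]
      rw [lo_mk, if_neg (ne_of_gt h), if_neg (ne_of_gt h), if_pos (show c = (mk b c h).1 from rfl),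
        if_pos (show c = (mk b c h).1 from rfl)]
    · intro π _ hπ
      refine Finset.sum_eq_zero fun t _ => ?_
      by_cases hb : c = lo π ∨ c = π.1
      · rw [hF π t hπ hb, zero_mul, zero_mul]
      · push Not at hb
        simp only [PP]
        rw [if_neg hb.1, if_neg hb.2, mul_zero, zero_mul]
    · intro h'
      exact absurd (Finset.mem_univ _) h'
  · rw [Fintype.sum_prod_type, Finset.sum_eq_single c]
    · refine Finset.sum_congr rfl fun i _ => ?_
      simp only [PP, if_true]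
    · intro a _ ha
      refine Finset.sum_eq_zero fun i _ => ?_
      simp only [PP]
      rw [if_neg (Ne.symm ha), mul_zero, zero_mul]
    · intro h'
      exact absurd (Finset.mem_univ _) h'

/-- same block; `F` vanishes at all the pairs -/
theorem S_same {b : Fin k} (j l : Fin 3) (hF : ∀ (π : PI k) (t : Fin 3), F (Sum.inl (π, t)) = 0) :
    S x F (Sum.inl (b, j)) (Sum.inl (b, l)) =
      ∑ i, F (Sum.inr (Sum.inl (b, i))) * x.2.2.1 (b, i) (Sum.inl j) *
        x.2.2.1 (b, i) (Sum.inl l) := by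
  rw [S_split]
  have h1 : ∑ y : PI k × Fin 3, F (Sum.inl y) * PP x (Sum.inl y) (Sum.inl (b, j)) *
      PP x (Sum.inl y) (Sum.inl (b, l)) = 0 := by
    refine Finset.sum_eq_zero fun y _ => ?_
    rw [hF y.1 y.2, zero_mul, zero_mul]
  have h3 : ∑ y : Fin m₀, F (Sum.inr (Sum.inr y)) *
      PP x (Sum.inr (Sum.inr y)) (Sum.inl (b, j)) *
      PP x (Sum.inr (Sum.inr y)) (Sum.inl (b, l)) = 0 := by
    refine Finset.sum_eq_zero fun y _ => ?_
    simp only [PP, mul_zero]
  rw [h1, h3, add_zero, zero_add, Fintype.sum_prod_type, Finset.sum_eq_single b]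
  · refine Finset.sum_congr rfl fun i _ => ?_
    simp only [PP, if_true]
  · intro a _ ha
    refine Finset.sum_eq_zero fun i _ => ?_
    simp only [PP]
    rw [if_neg (Ne.symm ha), mul_zero, zero_mul]
  · intro h'
    exact absurd (Finset.mem_univ _) h'

/-- a block and the last coordinates -/
theorem S_mix {b : Fin k} (j : Fin 3) (l : Fin e) :
    S x F (Sum.inl (b, j)) (Sum.inr l) =
      ∑ i, F (Sum.inr (Sum.inl (b, i))) * x.2.2.1 (b, i) (Sum.inl j) *
        x.2.2.1 (b, i) (Sum.inr l) := by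
  rw [S_split]
  have h1 : ∑ y : PI k × Fin 3, F (Sum.inl y) * PP x (Sum.inl y) (Sum.inl (b, j)) *
      PP x (Sum.inl y) (Sum.inr l) = 0 := by
    refine Finset.sum_eq_zero fun y _ => ?_
    simp only [PP, mul_zero]
  have h3 : ∑ y : Fin m₀, F (Sum.inr (Sum.inr y)) *
      PP x (Sum.inr (Sum.inr y)) (Sum.inl (b, j)) *
      PP x (Sum.inr (Sum.inr y)) (Sum.inr l) = 0 := by
    refine Finset.sum_eq_zero fun y _ => ?_
    simp only [PP, mul_zero, zero_mul]
  rw [h1, h3, add_zero, zero_add, Fintype.sum_prod_type, Finset.sum_eq_single b]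
  · refine Finset.sum_congr rfl fun i _ => ?_
    simp only [PP, if_true]
  · intro a _ ha
    refine Finset.sum_eq_zero fun i _ => ?_
    simp only [PP]
    rw [if_neg (Ne.symm ha), mul_zero, zero_mul]
  · intro h'
    exact absurd (Finset.mem_univ _) h'

/-- the last coordinates -/
theorem S_last (l l' : Fin e) :
    S x F (Sum.inr l) (Sum.inr l') =
      ∑ y : Fin k × Fin m, F (Sum.inr (Sum.inl y)) * x.2.2.1 y (Sum.inr l) *
        x.2.2.1 y (Sum.inr l') +
      ∑ i : Fin m₀, F (Sum.inr (Sum.inr i)) * x.2.2.2 i l * x.2.2.2 i l' := by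
  rw [S_split]
  have h1 : ∑ y : PI k × Fin 3, F (Sum.inl y) * PP x (Sum.inl y) (Sum.inr l) *
      PP x (Sum.inl y) (Sum.inr l') = 0 := by
    refine Finset.sum_eq_zero fun y _ => ?_
    simp only [PP, mul_zero]
  rw [h1, zero_add]
  rfl

end

end Pool.Agent.WarM.CubAH


end

section

/-!
# Independent double points in degree three: splitting of the relations   (helper27)
-/

set_option autoImplicit false

open Module MvPolynomial Pool.Agent.War

namespace Pool.Agent.WarM.CubAH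

/-- the parameters are good: all the systems have only the zero solution -/
structure Good {k e m m₀ : ℕ} (x : XX k e m m₀) : Prop where
  g4 : ∀ (a b c : Fin k) (hab : a < b) (hbc : b < c), ∀ X Y Z : Fin 3 → Fin 3 → ℂ,
    Sys4 (fun t => x.1 (mk a b hab, t)) (fun t => x.2.1 (mk a b hab, t))
      (fun t => x.1 (mk a c (hab.trans hbc), t)) (fun t => x.2.1 (mk a c (hab.trans hbc), t))
      (fun t => x.1 (mk b c hbc, t)) (fun t => x.2.1 (mk b c hbc, t)) X Y Z →
    (∀ t u, X t u = 0) ∧ (∀ t u, Y t u = 0) ∧ (∀ t u, Z t u = 0)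
  g3 : ∀ (a b : Fin k) (hab : a < b) (A B : Fin 3 → Fin 3 → ℂ) (C : Fin 3 → Fin e → ℂ)
    (D E : Fin m → Fin 3 → ℂ),
    Sys3 (fun t => x.1 (mk a b hab, t)) (fun t => x.2.1 (mk a b hab, t))
      (fun i => x.2.2.1 (a, i)) (fun i => x.2.2.1 (b, i)) A B C D E →
    (∀ t u, A t u = 0) ∧ (∀ t u, B t u = 0) ∧ (∀ t l, C t l = 0) ∧ (∀ i u, D i u = 0) ∧
      (∀ i u, E i u = 0)
  g2 : ∀ (a : Fin k) (F : Fin m → Fin 3 ⊕ Fin e → ℂ) (G : Fin m₀ → Fin 3 → ℂ),
    Sys2 (fun i => x.2.2.1 (a, i)) x.2.2.2 F G → (∀ j v, F j v = 0) ∧ (∀ i u, G i u = 0)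
  g1 : ∀ H : Fin m₀ → Fin e → ℂ, Sys1 x.2.2.2 H → ∀ i l, H i l = 0

section
variable {k e m m₀ : ℕ} {x : XX k e m m₀} {Λ : II k m m₀ → T k e → ℂ}

theorem rel_S (h : Rel (PP x) Λ) (u v w : T k e) :
    S x (fun i => Λ i u) v w + S x (fun i => Λ i v) u w + S x (fun i => Λ i w) u v = 0 := by
  rw [← h u v w]
  unfold S
  rw [← Finset.sum_add_distrib, ← Finset.sum_add_distrib]

theorem step4 (hx : Good x) (h : Rel (PP x) Λ) (a b c : Fin k) (hab : a < b) (hbc : b < c) :
    (∀ t u, Λ (Sum.inl (mk a b hab, t)) (Sum.inl (c, u)) = 0) ∧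
    (∀ t u, Λ (Sum.inl (mk a c (hab.trans hbc), t)) (Sum.inl (b, u)) = 0) ∧
    (∀ t u, Λ (Sum.inl (mk b c hbc, t)) (Sum.inl (a, u)) = 0) := by
  refine hx.g4 a b c hab hbc _ _ _ fun u v w => ?_
  have h1 := rel_S h (Sum.inl (a, u)) (Sum.inl (b, v)) (Sum.inl (c, w))
  rw [S_diff x _ hbc, S_diff x _ (hab.trans hbc), S_diff x _ hab] at h1
  exact h1

/-- the vectors at the points of a pair of blocks have no component in a third block -/
theorem third (hx : Good x) (h : Rel (PP x) Λ) (π : PI k) (t : Fin 3) (c : Fin k) (u : Fin 3)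
    (h1 : c ≠ lo π) (h2 : c ≠ π.1) : Λ (Sum.inl (π, t)) (Sum.inl (c, u)) = 0 := by
  have hlt := lo_lt π
  rcases lt_trichotomy c (lo π) with h3 | h3 | h3
  · exact (step4 hx h c (lo π) π.1 h3 hlt).2.2 t u
  · exact absurd h3 h1
  · rcases lt_trichotomy c π.1 with h4 | h4 | h4
    · exact (step4 hx h (lo π) c π.1 h3 h4).2.1 t u
    · exact absurd h4 h2
    · exact (step4 hx h (lo π) π.1 c hlt h4).1 t u

theorem step3 (hx : Good x) (h : Rel (PP x) Λ) (a b : Fin k) (hab : a < b) :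
    (∀ t u, Λ (Sum.inl (mk a b hab, t)) (Sum.inl (a, u)) = 0) ∧
    (∀ t u, Λ (Sum.inl (mk a b hab, t)) (Sum.inl (b, u)) = 0) ∧
    (∀ t l, Λ (Sum.inl (mk a b hab, t)) (Sum.inr l) = 0) ∧
    (∀ i u, Λ (Sum.inr (Sum.inl (a, i))) (Sum.inl (b, u)) = 0) ∧
    (∀ i u, Λ (Sum.inr (Sum.inl (b, i))) (Sum.inl (a, u)) = 0) := by
  refine hx.g3 a b hab _ _ _ _ _ ⟨fun u v w => ?_, fun u v w => ?_, fun u v l => ?_⟩
  · have h1 := rel_S h (Sum.inl (a, u)) (Sum.inl (a, v)) (Sum.inl (b, w))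
    rw [S_diff x _ hab, S_diff x _ hab, S_same_lo x _ hab] at h1
    · exact h1
    · intro π t hπ h4
      have hlt := lo_lt π
      refine third hx h π t b w (fun h2 => ?_) (fun h2 => ?_)
      · rcases h4 with h4 | h4
        · exact absurd hab (by rw [h4, h2]; exact lt_irrefl _)
        · rw [← h2, ← h4] at hlt
          exact lt_asymm hab hlt
      · rcases h4 with h4 | h4
        · exact hπ (eq_mk hab h4 h2)
        · exact absurd hab (by rw [h4, h2]; exact lt_irrefl _)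
  · have h1 := rel_S h (Sum.inl (a, u)) (Sum.inl (b, v)) (Sum.inl (b, w))
    rw [S_diff x _ hab, S_diff x _ hab, S_same_hi x _ hab] at h1
    · exact h1
    · intro π t hπ h4
      have hlt := lo_lt π
      refine third hx h π t a u (fun h2 => ?_) (fun h2 => ?_)
      · rcases h4 with h4 | h4
        · exact absurd hab (by rw [h4, h2]; exact lt_irrefl _)
        · exact hπ (eq_mk hab h2 h4)
      · rcases h4 with h4 | h4
        · rw [← h2, ← h4] at hlt
          exact lt_asymm hab hlt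
        · exact absurd hab (by rw [h4, h2]; exact lt_irrefl _)
  · have h1 := rel_S h (Sum.inl (a, u)) (Sum.inl (b, v)) (Sum.inr l)
    rw [S_mix x, S_mix x, S_diff x _ hab] at h1
    exact h1

theorem pair_zero (hx : Good x) (h : Rel (PP x) Λ) (π : PI k) (t : Fin 3) (v : T k e) :
    Λ (Sum.inl (π, t)) v = 0 := by
  have hπ : mk (lo π) π.1 (lo_lt π) = π := (eq_mk (lo_lt π) rfl rfl).symm
  obtain ⟨h1, h2, h3, -, -⟩ := step3 hx h (lo π) π.1 (lo_lt π)
  rw [hπ] at h1 h2 h3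
  rcases v with ⟨c, u⟩ | l
  · by_cases hc : c = lo π
    · rw [hc]
      exact h1 t u
    · by_cases hc' : c = π.1
      · rw [hc']
        exact h2 t u
      · exact third hx h π t c u hc hc'
  · exact h3 t l

theorem other (hx : Good x) (h : Rel (PP x) Λ) (a c : Fin k) (hac : c ≠ a) (i : Fin m)
    (u : Fin 3) : Λ (Sum.inr (Sum.inl (a, i))) (Sum.inl (c, u)) = 0 := by
  rcases lt_or_gt_of_ne hac with h1 | h1
  · exact (step3 hx h c a h1).2.2.2.2 i u
  · exact (step3 hx h a c h1).2.2.2.1 i u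

theorem step2 (hx : Good x) (h : Rel (PP x) Λ) (a : Fin k) :
    (∀ (i : Fin m) (v : Fin 3 ⊕ Fin e), Λ (Sum.inr (Sum.inl (a, i)))
      (Sum.elim (fun j => Sum.inl (a, j)) Sum.inr v) = 0) ∧
    (∀ i u, Λ (Sum.inr (Sum.inr i)) (Sum.inl (a, u)) = 0) := by
  have hz := pair_zero hx h
  have hlast : ∀ (u : Fin 3) (l l' : Fin e),
      S x (fun i => Λ i (Sum.inl (a, u))) (Sum.inr l) (Sum.inr l') =
      ∑ i, Λ (Sum.inr (Sum.inl (a, i))) (Sum.inl (a, u)) * x.2.2.1 (a, i) (Sum.inr l) *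
        x.2.2.1 (a, i) (Sum.inr l') +
      ∑ i, Λ (Sum.inr (Sum.inr i)) (Sum.inl (a, u)) * x.2.2.2 i l * x.2.2.2 i l' := by
    intro u l l'
    rw [S_last]
    congr 1
    rw [Fintype.sum_prod_type, Finset.sum_eq_single a]
    · intro b _ hb
      refine Finset.sum_eq_zero fun i _ => ?_
      rw [other hx h b a (Ne.symm hb), zero_mul, zero_mul]
    · intro h'
      exact absurd (Finset.mem_univ _) h'
  refine hx.g2 a (fun i v => Λ (Sum.inr (Sum.inl (a, i)))
      (Sum.elim (fun j => Sum.inl (a, j)) Sum.inr v))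
    (fun i u => Λ (Sum.inr (Sum.inr i)) (Sum.inl (a, u))) fun u v w => ?_
  rcases v with v | v <;> rcases w with w | w
  · have h1 := rel_S h (Sum.inl (a, u)) (Sum.inl (a, v)) (Sum.inl (a, w))
    rw [S_same x _ _ _ fun π t => hz π t _, S_same x _ _ _ fun π t => hz π t _,
      S_same x _ _ _ fun π t => hz π t _] at h1
    simpa using h1
  · have h1 := rel_S h (Sum.inl (a, u)) (Sum.inl (a, v)) (Sum.inr w)
    rw [S_mix, S_mix, S_same x _ _ _ fun π t => hz π t _] at h1
    simpa using h1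
  · have h1 := rel_S h (Sum.inl (a, u)) (Sum.inr v) (Sum.inl (a, w))
    rw [S_symm x _ (Sum.inr v), S_mix, S_same x _ _ _ fun π t => hz π t _, S_mix] at h1
    simp only [Sum.elim_inl, Sum.elim_inr, mul_zero, Finset.sum_const_zero, add_zero]
    rw [← h1]
    congr 2
    exact Finset.sum_congr rfl fun i _ => by ring
  · have h1 := rel_S h (Sum.inl (a, u)) (Sum.inr v) (Sum.inr w)
    rw [hlast, S_mix, S_mix] at h1
    exact h1

theorem all_zero (hx : Good x) (h : Rel (PP x) Λ) : ∀ i v, Λ i v = 0 := by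
  have hz := pair_zero hx h
  have hQ : ∀ (a : Fin k) (i : Fin m) (v : T k e), Λ (Sum.inr (Sum.inl (a, i))) v = 0 := by
    intro a i v
    rcases v with ⟨c, u⟩ | l
    · by_cases hc : c = a
      · rw [hc]
        exact (step2 hx h a).1 i (Sum.inl u)
      · exact other hx h a c hc i u
    · exact (step2 hx h a).1 i (Sum.inr l)
  rintro (⟨π, t⟩ | ⟨a, i⟩ | i) v
  · exact hz π t v
  · exact hQ a i v
  · rcases v with ⟨c, u⟩ | l
    · exact (step2 hx h c).2 i u
    · refine hx.g1 (fun i l => Λ (Sum.inr (Sum.inr i)) (Sum.inr l)) (fun u v w => ?_) i l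
      have h1 := rel_S h (Sum.inr u) (Sum.inr v) (Sum.inr w)
      rw [S_last, S_last, S_last] at h1
      have h2 : ∀ l v w : Fin e, ∑ y : Fin k × Fin m, Λ (Sum.inr (Sum.inl y)) (Sum.inr l) *
          x.2.2.1 y (Sum.inr v) * x.2.2.1 y (Sum.inr w) = 0 := fun l v w =>
        Finset.sum_eq_zero fun y _ => by rw [hQ y.1 y.2, zero_mul, zero_mul]
      rw [h2, h2, h2, zero_add, zero_add, zero_add] at h1
      exact h1

end

end Pool.Agent.WarM.CubAH


end

section

/-!
# Independent double points in degree three: general parameters are good   (helper27)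
-/

set_option autoImplicit false

open Module MvPolynomial Pool.Agent.War

namespace Pool.Agent.WarM.CubAH

def Chk4 : Prop := ∃ p q p' q' p'' q'' : Fin 3 → Fin 3 → ℂ, ∀ X Y Z : Fin 3 → Fin 3 → ℂ,
  Sys4 p q p' q' p'' q'' X Y Z → (∀ t u, X t u = 0) ∧ (∀ t u, Y t u = 0) ∧ (∀ t u, Z t u = 0)

def Chk3 (e m : ℕ) : Prop := ∃ (p q : Fin 3 → Fin 3 → ℂ) (Qa Qb : Fin m → Fin 3 ⊕ Fin e → ℂ),
  ∀ (A B : Fin 3 → Fin 3 → ℂ) (C : Fin 3 → Fin e → ℂ) (D E : Fin m → Fin 3 → ℂ),
    Sys3 p q Qa Qb A B C D E →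
    (∀ t u, A t u = 0) ∧ (∀ t u, B t u = 0) ∧ (∀ t l, C t l = 0) ∧ (∀ i u, D i u = 0) ∧
      (∀ i u, E i u = 0)

def Chk2 (e m m₀ : ℕ) : Prop := ∃ (Q : Fin m → Fin 3 ⊕ Fin e → ℂ) (z : Fin m₀ → Fin e → ℂ),
  ∀ (F : Fin m → Fin 3 ⊕ Fin e → ℂ) (G : Fin m₀ → Fin 3 → ℂ),
    Sys2 Q z F G → (∀ j v, F j v = 0) ∧ (∀ i u, G i u = 0)

def Chk1 (e m₀ : ℕ) : Prop := ∃ z : Fin m₀ → Fin e → ℂ, ∀ H : Fin m₀ → Fin e → ℂ, Sys1 z H →
  ∀ i l, H i l = 0

/-- semicontinuity -/
theorem gen_sys {X V : Type} [AddCommGroup X] [Module ℂ X] [AddCommGroup V] [Module ℂ V]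
    [FiniteDimensional ℂ V] {κ : Type} [Finite κ] (f : κ → X → V → ℂ)
    (hlin : ∀ a x, IsLinearMap ℂ (f a x)) (hLP : ∀ a v, LP (K := ℂ) fun x => f a x v)
    (x₀ : X) (h0 : ∀ v, (∀ a, f a x₀ v = 0) → v = 0) :
    Gen ℂ fun x => ∀ v, (∀ a, f a x v = 0) → v = 0 := by
  let Z : X → Submodule ℂ V := fun x => ⨅ a, LinearMap.ker (IsLinearMap.mk' (f a x) (hlin a x))
  have hmem : ∀ x v, v ∈ Z x ↔ ∀ a, f a x v = 0 := by
    intro x v
    simp only [Z, Submodule.mem_iInf, LinearMap.mem_ker, IsLinearMap.mk'_apply]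
  have hZ : PK Z := PK.iInf fun a => PK.one (φ := fun x => IsLinearMap.mk' (f a x) (hlin a x))
    fun v => hLP a v
  refine (hZ.gen_bot (x₀ := x₀) ?_).mono fun x hx v hv => ?_
  · rw [Submodule.eq_bot_iff]
    intro v hv
    exact h0 v ((hmem x₀ v).1 hv)
  · have : v ∈ Z x := (hmem x v).2 hv
    rw [hx, Submodule.mem_bot] at this
    exact this

section
variable {k e m m₀ : ℕ}

theorem lp_of {X : Type} [AddCommGroup X] [Module ℂ X] {f : X → ℂ} (h : IsLinearMap ℂ f) :
    LP (K := ℂ) f := LP.linear (IsLinearMap.mk' f h)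

theorem lp_p (y : PI k × Fin 3) (j : Fin 3) : LP (K := ℂ) fun x : XX k e m m₀ => x.1 y j :=
  lp_of ⟨fun _ _ => rfl, fun _ _ => rfl⟩

theorem lp_q (y : PI k × Fin 3) (j : Fin 3) : LP (K := ℂ) fun x : XX k e m m₀ => x.2.1 y j :=
  lp_of ⟨fun _ _ => rfl, fun _ _ => rfl⟩

theorem lp_Q (y : Fin k × Fin m) (j : Fin 3 ⊕ Fin e) :
    LP (K := ℂ) fun x : XX k e m m₀ => x.2.2.1 y j :=
  lp_of ⟨fun _ _ => rfl, fun _ _ => rfl⟩

theorem lp_z (i : Fin m₀) (j : Fin e) :
    LP (K := ℂ) fun x : XX k e m m₀ => x.2.2.2 i j :=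
  lp_of ⟨fun _ _ => rfl, fun _ _ => rfl⟩

theorem gen4 (h : Chk4) (a b c : Fin k) (hab : a < b) (hbc : b < c) :
    Gen ℂ fun x : XX k e m m₀ => ∀ X Y Z : Fin 3 → Fin 3 → ℂ,
    Sys4 (fun t => x.1 (mk a b hab, t)) (fun t => x.2.1 (mk a b hab, t))
      (fun t => x.1 (mk a c (hab.trans hbc), t)) (fun t => x.2.1 (mk a c (hab.trans hbc), t))
      (fun t => x.1 (mk b c hbc, t)) (fun t => x.2.1 (mk b c hbc, t)) X Y Z →
    (∀ t u, X t u = 0) ∧ (∀ t u, Y t u = 0) ∧ (∀ t u, Z t u = 0) := by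
  obtain ⟨p, q, p', q', p'', q'', hz⟩ := h
  have n1 : mk a c (hab.trans hbc) ≠ mk a b hab := fun h => by
    have := congrArg (fun y : PI k => y.1) h
    exact absurd hbc (by rw [show c = b from this]; exact lt_irrefl _)
  have n2 : mk b c hbc ≠ mk a b hab := fun h => by
    have := congrArg (fun y : PI k => y.1) h
    exact absurd hbc (by rw [show c = b from this]; exact lt_irrefl _)
  have n3 : mk b c hbc ≠ mk a c (hab.trans hbc) := fun h => by
    have := congrArg lo h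
    rw [lo_mk, lo_mk] at this
    exact absurd hab (by rw [this]; exact lt_irrefl _)
  let x₀ : XX k e m m₀ := (fun y => if y.1 = mk a b hab then p y.2 else
      if y.1 = mk a c (hab.trans hbc) then p' y.2 else p'' y.2,
    fun y => if y.1 = mk a b hab then q y.2 else
      if y.1 = mk a c (hab.trans hbc) then q' y.2 else q'' y.2, 0, 0)
  refine (gen_sys (X := XX k e m m₀)
    (V := (Fin 3 → Fin 3 → ℂ) × (Fin 3 → Fin 3 → ℂ) × (Fin 3 → Fin 3 → ℂ))
    (κ := Fin 3 × Fin 3 × Fin 3)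
    (fun s x v => ∑ t, v.2.2 t s.1 * x.1 (mk b c hbc, t) s.2.1 * x.2.1 (mk b c hbc, t) s.2.2 +
      ∑ t, v.2.1 t s.2.1 * x.1 (mk a c (hab.trans hbc), t) s.1 *
        x.2.1 (mk a c (hab.trans hbc), t) s.2.2 +
      ∑ t, v.1 t s.2.2 * x.1 (mk a b hab, t) s.1 * x.2.1 (mk a b hab, t) s.2.1) ?_ ?_ x₀ ?_).mono ?_
  · intro s x
    refine ⟨fun v w => ?_, fun c v => ?_⟩
    · simp only [Prod.snd_add, Prod.fst_add, Pi.add_apply, add_mul, Finset.sum_add_distrib]
      ring
    · simp only [Prod.smul_snd, Prod.smul_fst, Pi.smul_apply, smul_eq_mul, mul_add,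
        Finset.mul_sum, mul_assoc]
  · intro s v
    refine ((LP.sum _ fun t _ => ?_).add (LP.sum _ fun t _ => ?_)).add (LP.sum _ fun t _ => ?_)
    · exact ((LP.const _).mul (lp_p _ _)).mul (lp_q _ _)
    · exact ((LP.const _).mul (lp_p _ _)).mul (lp_q _ _)
    · exact ((LP.const _).mul (lp_p _ _)).mul (lp_q _ _)
  · intro v hv
    obtain ⟨h1, h2, h3⟩ := hz v.1 v.2.1 v.2.2 fun u w y => by
      have := hv (u, w, y)
      simp only [x₀, if_true, if_neg n1, if_neg n2, if_neg n3] at this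
      exact this
    exact Prod.ext (funext fun t => funext fun u => h1 t u)
      (Prod.ext (funext fun t => funext fun u => h2 t u) (funext fun t => funext fun u => h3 t u))
  · intro x hx X Y Z hs
    have h0 := hx (X, Y, Z) fun s => hs s.1 s.2.1 s.2.2
    have h1 : X = 0 := congrArg (fun v => v.1) h0
    have h2 : Y = 0 := congrArg (fun v => v.2.1) h0
    have h3 : Z = 0 := congrArg (fun v => v.2.2) h0
    rw [h1, h2, h3]
    exact ⟨fun _ _ => rfl, fun _ _ => rfl, fun _ _ => rfl⟩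

theorem gen3 (h : Chk3 e m) (a b : Fin k) (hab : a < b) :
    Gen ℂ fun x : XX k e m m₀ => ∀ (A B : Fin 3 → Fin 3 → ℂ) (C : Fin 3 → Fin e → ℂ)
    (D E : Fin m → Fin 3 → ℂ),
    Sys3 (fun t => x.1 (mk a b hab, t)) (fun t => x.2.1 (mk a b hab, t))
      (fun i => x.2.2.1 (a, i)) (fun i => x.2.2.1 (b, i)) A B C D E →
    (∀ t u, A t u = 0) ∧ (∀ t u, B t u = 0) ∧ (∀ t l, C t l = 0) ∧ (∀ i u, D i u = 0) ∧
      (∀ i u, E i u = 0) := by
  obtain ⟨p, q, Qa, Qb, hz⟩ := h
  have hne : b ≠ a := ne_of_gt hab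
  let x₀ : XX k e m m₀ := (fun y => p y.2, fun y => q y.2,
    fun y => if y.1 = a then Qa y.2 else Qb y.2, 0)
  refine (gen_sys (X := XX k e m m₀)
    (V := (Fin 3 → Fin 3 → ℂ) × (Fin 3 → Fin 3 → ℂ) × (Fin 3 → Fin e → ℂ) ×
      (Fin m → Fin 3 → ℂ) × (Fin m → Fin 3 → ℂ))
    (κ := (Fin 3 × Fin 3 × Fin 3) ⊕ (Fin 3 × Fin 3 × Fin 3) ⊕ (Fin 3 × Fin 3 × Fin e))
    (fun s x v => match s with
      | Sum.inl s => ∑ t, v.1 t s.1 * x.1 (mk a b hab, t) s.2.1 * x.2.1 (mk a b hab, t) s.2.2 +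
          ∑ t, v.1 t s.2.1 * x.1 (mk a b hab, t) s.1 * x.2.1 (mk a b hab, t) s.2.2 +
          (∑ t, v.2.1 t s.2.2 * x.1 (mk a b hab, t) s.1 * x.1 (mk a b hab, t) s.2.1 +
          ∑ i, v.2.2.2.1 i s.2.2 * x.2.2.1 (a, i) (Sum.inl s.1) * x.2.2.1 (a, i) (Sum.inl s.2.1))
      | Sum.inr (Sum.inl s) => (∑ t, v.1 t s.1 * x.2.1 (mk a b hab, t) s.2.1 *
            x.2.1 (mk a b hab, t) s.2.2 +
          ∑ i, v.2.2.2.2 i s.1 * x.2.2.1 (b, i) (Sum.inl s.2.1) *
            x.2.2.1 (b, i) (Sum.inl s.2.2)) +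
          ∑ t, v.2.1 t s.2.1 * x.1 (mk a b hab, t) s.1 * x.2.1 (mk a b hab, t) s.2.2 +
          ∑ t, v.2.1 t s.2.2 * x.1 (mk a b hab, t) s.1 * x.2.1 (mk a b hab, t) s.2.1
      | Sum.inr (Sum.inr s) => ∑ i, v.2.2.2.2 i s.1 * x.2.2.1 (b, i) (Sum.inl s.2.1) *
            x.2.2.1 (b, i) (Sum.inr s.2.2) +
          ∑ i, v.2.2.2.1 i s.2.1 * x.2.2.1 (a, i) (Sum.inl s.1) * x.2.2.1 (a, i) (Sum.inr s.2.2) +
          ∑ t, v.2.2.1 t s.2.2 * x.1 (mk a b hab, t) s.1 * x.2.1 (mk a b hab, t) s.2.1)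
    ?_ ?_ x₀ ?_).mono ?_
  · rintro (s | s | s) x
    · refine ⟨fun v w => ?_, fun c v => ?_⟩
      · simp only [Prod.snd_add, Prod.fst_add, Pi.add_apply, add_mul, Finset.sum_add_distrib]
        ring
      · simp only [Prod.smul_snd, Prod.smul_fst, Pi.smul_apply, smul_eq_mul, mul_add,
          Finset.mul_sum, mul_assoc]
    · refine ⟨fun v w => ?_, fun c v => ?_⟩
      · simp only [Prod.snd_add, Prod.fst_add, Pi.add_apply, add_mul, Finset.sum_add_distrib]
        ring
      · simp only [Prod.smul_snd, Prod.smul_fst, Pi.smul_apply, smul_eq_mul, mul_add,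
          Finset.mul_sum, mul_assoc]
    · refine ⟨fun v w => ?_, fun c v => ?_⟩
      · simp only [Prod.snd_add, Prod.fst_add, Pi.add_apply, add_mul, Finset.sum_add_distrib]
        ring
      · simp only [Prod.smul_snd, Prod.smul_fst, Pi.smul_apply, smul_eq_mul, mul_add,
          Finset.mul_sum, mul_assoc]
  · rintro (s | s | s) v
    · refine ((LP.sum _ fun t _ => ?_).add (LP.sum _ fun t _ => ?_)).add
        ((LP.sum _ fun t _ => ?_).add (LP.sum _ fun t _ => ?_))
      · exact ((LP.const _).mul (lp_p _ _)).mul (lp_q _ _)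
      · exact ((LP.const _).mul (lp_p _ _)).mul (lp_q _ _)
      · exact ((LP.const _).mul (lp_p _ _)).mul (lp_p _ _)
      · exact ((LP.const _).mul (lp_Q _ _)).mul (lp_Q _ _)
    · refine (((LP.sum _ fun t _ => ?_).add (LP.sum _ fun t _ => ?_)).add
        (LP.sum _ fun t _ => ?_)).add (LP.sum _ fun t _ => ?_)
      · exact ((LP.const _).mul (lp_q _ _)).mul (lp_q _ _)
      · exact ((LP.const _).mul (lp_Q _ _)).mul (lp_Q _ _)
      · exact ((LP.const _).mul (lp_p _ _)).mul (lp_q _ _)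
      · exact ((LP.const _).mul (lp_p _ _)).mul (lp_q _ _)
    · refine ((LP.sum _ fun t _ => ?_).add (LP.sum _ fun t _ => ?_)).add
        (LP.sum _ fun t _ => ?_)
      · exact ((LP.const _).mul (lp_Q _ _)).mul (lp_Q _ _)
      · exact ((LP.const _).mul (lp_Q _ _)).mul (lp_Q _ _)
      · exact ((LP.const _).mul (lp_p _ _)).mul (lp_q _ _)
  · intro v hv
    obtain ⟨h1, h2, h3, h4, h5⟩ := hz v.1 v.2.1 v.2.2.1 v.2.2.2.1 v.2.2.2.2
      ⟨fun u w y => by
        have := hv (Sum.inl (u, w, y))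
        simp only [x₀, if_true] at this
        exact this, fun u w y => by
        have := hv (Sum.inr (Sum.inl (u, w, y)))
        simp only [x₀, if_neg hne] at this
        exact this, fun u w y => by
        have := hv (Sum.inr (Sum.inr (u, w, y)))
        simp only [x₀, if_true, if_neg hne] at this
        exact this⟩
    exact Prod.ext (funext fun t => funext fun u => h1 t u)
      (Prod.ext (funext fun t => funext fun u => h2 t u)
        (Prod.ext (funext fun t => funext fun u => h3 t u)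
          (Prod.ext (funext fun t => funext fun u => h4 t u)
            (funext fun t => funext fun u => h5 t u))))
  · intro x hx A B C D E hs
    have h0 := hx (A, B, C, D, E) (by
      rintro (s | s | s)
      · exact hs.1 s.1 s.2.1 s.2.2
      · exact hs.2.1 s.1 s.2.1 s.2.2
      · exact hs.2.2 s.1 s.2.1 s.2.2)
    have h1 : A = 0 := congrArg (fun v => v.1) h0
    have h2 : B = 0 := congrArg (fun v => v.2.1) h0
    have h3 : C = 0 := congrArg (fun v => v.2.2.1) h0
    have h4 : D = 0 := congrArg (fun v => v.2.2.2.1) h0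
    have h5 : E = 0 := congrArg (fun v => v.2.2.2.2) h0
    rw [h1, h2, h3, h4, h5]
    exact ⟨fun _ _ => rfl, fun _ _ => rfl, fun _ _ => rfl, fun _ _ => rfl, fun _ _ => rfl⟩

theorem gen2 (h : Chk2 e m m₀) (a : Fin k) :
    Gen ℂ fun x : XX k e m m₀ => ∀ (F : Fin m → Fin 3 ⊕ Fin e → ℂ) (G : Fin m₀ → Fin 3 → ℂ),
    Sys2 (fun i => x.2.2.1 (a, i)) x.2.2.2 F G → (∀ j v, F j v = 0) ∧ (∀ i u, G i u = 0) := by
  obtain ⟨Q, z, hz⟩ := h
  let x₀ : XX k e m m₀ := (0, 0, fun y => Q y.2, z)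
  refine (gen_sys (X := XX k e m m₀)
    (V := (Fin m → Fin 3 ⊕ Fin e → ℂ) × (Fin m₀ → Fin 3 → ℂ))
    (κ := Fin 3 × (Fin 3 ⊕ Fin e) × (Fin 3 ⊕ Fin e))
    (fun s x v => (∑ j, v.1 j (Sum.inl s.1) * x.2.2.1 (a, j) s.2.1 * x.2.2.1 (a, j) s.2.2 +
      ∑ i, v.2 i s.1 * Sum.elim (fun _ => 0) (x.2.2.2 i) s.2.1 *
        Sum.elim (fun _ => 0) (x.2.2.2 i) s.2.2) +
      ∑ j, v.1 j s.2.1 * x.2.2.1 (a, j) (Sum.inl s.1) * x.2.2.1 (a, j) s.2.2 +
      ∑ j, v.1 j s.2.2 * x.2.2.1 (a, j) (Sum.inl s.1) * x.2.2.1 (a, j) s.2.1)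
    ?_ ?_ x₀ ?_).mono ?_
  · intro s x
    refine ⟨fun v w => ?_, fun c v => ?_⟩
    · simp only [Prod.snd_add, Prod.fst_add, Pi.add_apply, add_mul, Finset.sum_add_distrib]
      ring
    · simp only [Prod.smul_snd, Prod.smul_fst, Pi.smul_apply, smul_eq_mul, mul_add,
        Finset.mul_sum, mul_assoc]
  · intro s v
    have hel : ∀ (i : Fin m₀) (w : Fin 3 ⊕ Fin e),
        LP (K := ℂ) fun x : XX k e m m₀ => Sum.elim (fun _ => (0 : ℂ)) (x.2.2.2 i) w := by
      intro i w
      rcases w with w | w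
      · exact LP.const 0
      · exact lp_z i w
    refine (((LP.sum _ fun t _ => ?_).add (LP.sum _ fun t _ => ?_)).add
      (LP.sum _ fun t _ => ?_)).add (LP.sum _ fun t _ => ?_)
    · exact ((LP.const _).mul (lp_Q _ _)).mul (lp_Q _ _)
    · exact ((LP.const _).mul (hel _ _)).mul (hel _ _)
    · exact ((LP.const _).mul (lp_Q _ _)).mul (lp_Q _ _)
    · exact ((LP.const _).mul (lp_Q _ _)).mul (lp_Q _ _)
  · intro v hv
    obtain ⟨h1, h2⟩ := hz v.1 v.2 fun u w y => hv (u, w, y)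
    exact Prod.ext (funext fun t => funext fun u => h1 t u)
      (funext fun t => funext fun u => h2 t u)
  · intro x hx F G hs
    have h0 := hx (F, G) fun s => hs s.1 s.2.1 s.2.2
    have h1 : F = 0 := congrArg (fun v => v.1) h0
    have h2 : G = 0 := congrArg (fun v => v.2) h0
    rw [h1, h2]
    exact ⟨fun _ _ => rfl, fun _ _ => rfl⟩

theorem gen1 (h : Chk1 e m₀) :
    Gen ℂ fun x : XX k e m m₀ => ∀ H : Fin m₀ → Fin e → ℂ, Sys1 x.2.2.2 H → ∀ i l, H i l = 0 := by
  obtain ⟨z, hz⟩ := h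
  let x₀ : XX k e m m₀ := (0, 0, 0, z)
  refine (gen_sys (X := XX k e m m₀) (V := Fin m₀ → Fin e → ℂ) (κ := Fin e × Fin e × Fin e)
    (fun s x v => ∑ i, v i s.1 * x.2.2.2 i s.2.1 * x.2.2.2 i s.2.2 +
      ∑ i, v i s.2.1 * x.2.2.2 i s.1 * x.2.2.2 i s.2.2 +
      ∑ i, v i s.2.2 * x.2.2.2 i s.1 * x.2.2.2 i s.2.1)
    ?_ ?_ x₀ ?_).mono ?_
  · intro s x
    refine ⟨fun v w => ?_, fun c v => ?_⟩
    · simp only [Pi.add_apply, add_mul, Finset.sum_add_distrib]
      ring
    · simp only [Pi.smul_apply, smul_eq_mul, mul_add, Finset.mul_sum, mul_assoc]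
  · intro s v
    refine ((LP.sum _ fun t _ => ?_).add (LP.sum _ fun t _ => ?_)).add (LP.sum _ fun t _ => ?_)
    · exact ((LP.const _).mul (lp_z _ _)).mul (lp_z _ _)
    · exact ((LP.const _).mul (lp_z _ _)).mul (lp_z _ _)
    · exact ((LP.const _).mul (lp_z _ _)).mul (lp_z _ _)
  · intro v hv
    have h1 := hz v fun u w y => hv (u, w, y)
    exact funext fun t => funext fun u => h1 t u
  · intro x hx H hs
    have h0 := hx H fun s => hs s.1 s.2.1 s.2.2
    rw [h0]
    exact fun _ _ => rfl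

theorem gen_good (h4 : Chk4) (h3 : Chk3 e m) (h2 : Chk2 e m m₀) (h1 : Chk1 e m₀) :
    Gen ℂ fun x : XX k e m m₀ => Good x := by
  have G4 : Gen ℂ fun x : XX k e m m₀ => ∀ (a b c : Fin k) (hab : a < b) (hbc : b < c),
      ∀ X Y Z : Fin 3 → Fin 3 → ℂ,
      Sys4 (fun t => x.1 (mk a b hab, t)) (fun t => x.2.1 (mk a b hab, t))
      (fun t => x.1 (mk a c (hab.trans hbc), t)) (fun t => x.2.1 (mk a c (hab.trans hbc), t))
      (fun t => x.1 (mk b c hbc, t)) (fun t => x.2.1 (mk b c hbc, t)) X Y Z →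
      (∀ t u, X t u = 0) ∧ (∀ t u, Y t u = 0) ∧ (∀ t u, Z t u = 0) := by
    refine Gen.forall fun a => Gen.forall fun b => Gen.forall fun c => ?_
    by_cases hab : a < b
    · by_cases hbc : b < c
      · exact (gen4 h4 a b c hab hbc).mono fun x hx _ _ => hx
      · exact Gen.of_forall fun x _ h => absurd h hbc
    · exact Gen.of_forall fun x h => absurd h hab
  have G3 : Gen ℂ fun x : XX k e m m₀ => ∀ (a b : Fin k) (hab : a < b)
      (A B : Fin 3 → Fin 3 → ℂ) (C : Fin 3 → Fin e → ℂ) (D E : Fin m → Fin 3 → ℂ),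
      Sys3 (fun t => x.1 (mk a b hab, t)) (fun t => x.2.1 (mk a b hab, t))
      (fun i => x.2.2.1 (a, i)) (fun i => x.2.2.1 (b, i)) A B C D E →
      (∀ t u, A t u = 0) ∧ (∀ t u, B t u = 0) ∧ (∀ t l, C t l = 0) ∧ (∀ i u, D i u = 0) ∧
      (∀ i u, E i u = 0) := by
    refine Gen.forall fun a => Gen.forall fun b => ?_
    by_cases hab : a < b
    · exact (gen3 h3 a b hab).mono fun x hx _ => hx
    · exact Gen.of_forall fun x h => absurd h hab
  exact (((G4.and G3).and (Gen.forall fun a => gen2 h2 a)).and (gen1 h1)).mono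
    fun x hx => ⟨hx.1.1.1, hx.1.1.2, hx.1.2, hx.2⟩

/-- the coordinates of the points have nonzero sum -/
theorem gen_sum (he : m₀ = 0 ∨ 1 ≤ e) :
    Gen ℂ fun x : XX k e m m₀ => ∀ i, ∑ v, PP x i v ≠ 0 := by
  refine Gen.forall fun i => ?_
  refine Gen.ne (LP.sum _ fun v _ => ?_) ((fun _ => Pi.single 0 1), (fun _ => 0),
    (fun _ => Pi.single (Sum.inl 0) 1), (fun _ l => if l.val = 0 then 1 else 0)) ?_
  · rcases i with ⟨π, t⟩ | ⟨a, i⟩ | i <;> rcases v with ⟨c, u⟩ | l
    · simp only [PP]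
      split_ifs
      · exact lp_p _ _
      · exact lp_q _ _
      · exact LP.const _
    · exact LP.const _
    · simp only [PP]
      split_ifs
      · exact lp_Q _ _
      · exact LP.const _
    · exact lp_Q _ _
    · exact LP.const _
    · exact lp_z _ _
  · rcases i with ⟨π, t⟩ | ⟨a, i⟩ | i
    · have h1 : ∑ v : T k e, PP (k := k) (e := e) (m := m) (m₀ := m₀)
          ((fun _ => Pi.single 0 1), (fun _ => 0), (fun _ => Pi.single (Sum.inl 0) 1),
            (fun _ l => if l.val = 0 then 1 else 0)) (Sum.inl (π, t)) v = 1 := by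
        rw [Fintype.sum_sum_type, Fintype.sum_prod_type]
        simp only [PP, Finset.sum_const_zero, add_zero, Pi.zero_apply, ite_self]
        rw [Finset.sum_eq_single (lo π)]
        · simp
        · intro c _ hc
          simp [hc]
        · simp
      rw [h1]
      exact one_ne_zero
    · have h1 : ∑ v : T k e, PP (k := k) (e := e) (m := m) (m₀ := m₀)
          ((fun _ => Pi.single 0 1), (fun _ => 0), (fun _ => Pi.single (Sum.inl 0) 1),
            (fun _ l => if l.val = 0 then 1 else 0)) (Sum.inr (Sum.inl (a, i))) v = 1 := by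
        rw [Fintype.sum_sum_type, Fintype.sum_prod_type]
        simp only [PP]
        rw [Finset.sum_eq_single a]
        · simp [Pi.single_apply]
        · intro c _ hc
          simp [hc]
        · simp
      rw [h1]
      exact one_ne_zero
    · have he' : 1 ≤ e := by
        rcases he with he | he
        · subst he
          exact i.elim0
        · exact he
      have h1 : ∑ v : T k e, PP (k := k) (e := e) (m := m) (m₀ := m₀)
          ((fun _ => Pi.single 0 1), (fun _ => 0), (fun _ => Pi.single (Sum.inl 0) 1),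
            (fun _ l => if l.val = 0 then 1 else 0)) (Sum.inr (Sum.inr i)) v = 1 := by
        rw [Fintype.sum_sum_type]
        simp only [PP, Finset.sum_const_zero, zero_add]
        rw [Finset.sum_eq_single (⟨0, he'⟩ : Fin e)]
        · simp
        · intro l _ hl
          rw [if_neg]
          intro h0
          exact hl (Fin.ext h0)
        · simp
      rw [h1]
      exact one_ne_zero

theorem card_PI (k : ℕ) : 2 * Fintype.card (PI k) + k = k * k := by
  rw [Fintype.card_sigma]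
  simp only [Fintype.card_fin]
  rw [Fin.sum_univ_eq_sum_range (fun i => i) k]
  have h := Finset.sum_range_id_mul_two k
  rcases k with _ | k
  · simp
  · rw [Nat.add_sub_cancel] at h
    nlinarith

/-- **block design** -/
theorem design (h4 : Chk4) (h3 : Chk3 e m) (h2 : Chk2 e m m₀) (h1 : Chk1 e m₀)
    (he : m₀ = 0 ∨ 1 ≤ e) {n p : ℕ} (hn : n + 1 = 3 * k + e)
    (hp : 2 * p ≤ 3 * (k * k - k) + 2 * (m * k + m₀)) : GG n 3 p := by
  obtain ⟨x, hx, hs⟩ := ((gen_good (k := k) h4 h3 h2 h1).and (gen_sum he)).exists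
  refine gg_of_dual (T k e) (II k m m₀) ?_ (PP x) hs (fun Λ hΛ => all_zero hx hΛ) ?_
  · simp only [Fintype.card_sum, Fintype.card_prod, Fintype.card_fin]
    omega
  · have hc := card_PI k
    have e1 : Fintype.card (II k m m₀) = Fintype.card (PI k) * 3 + (k * m + m₀) := by
      rw [Fintype.card_sum, Fintype.card_prod, Fintype.card_sum, Fintype.card_prod,
        Fintype.card_fin, Fintype.card_fin, Fintype.card_fin, Fintype.card_fin]
    rw [e1]
    have e2 : k * m = m * k := mul_comm _ _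
    have e3 : k ≤ k * k := by nlinarith [Nat.zero_le k]
    omega

end

end Pool.Agent.WarM.CubAH


end

section

/-!
# Independent double points in degree three: the system for two blocks, `e = 2`   (helper27)
-/

set_option autoImplicit false

namespace Pool.Agent.WarM.CubAH

theorem chk32 : Chk3 2 5 := by
  refine ⟨![![0, 1, 0], ![0, 1, -1], ![-1, -1, 0]],
    ![![0, -1, -1], ![-1, -1, -1], ![0, 1, -1]],
    fun i => Sum.elim (![![0, 0, 1], ![0, 0, 1], ![-1, 0, 0], ![1, 0, 1], ![1, 0, 0]] i) (![![-1, 1], ![1, 1], ![-1, -1], ![1, 1], ![1, 0]] i),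
    fun i => Sum.elim (![![-1, 0, 0], ![0, 1, 0], ![0, 0, -1], ![1, 1, 0], ![1, 0, 1]] i) (![![0, 0], ![0, 0], ![0, 0], ![0, 0], ![0, 0]] i), ?_⟩
  intro A B C D E h
  obtain ⟨h1, h2, h3⟩ := h
  have f000 : B 2 0 + D 2 0 + D 3 0 + D 4 0 = 0 := by
    refine Eq.trans ?_ (h1 0 0 0)
    simp [Fin.sum_univ_three, Fin.sum_univ_five]
    try ring
  have f001 : -2 * A 2 0 + B 2 1 + D 2 1 + D 3 1 + D 4 1 = 0 := by
    refine Eq.trans ?_ (h1 0 0 1)
    simp [Fin.sum_univ_three, Fin.sum_univ_five]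
    try ring
  have f002 : 2 * A 2 0 + B 2 2 + D 2 2 + D 3 2 + D 4 2 = 0 := by
    refine Eq.trans ?_ (h1 0 0 2)
    simp [Fin.sum_univ_three, Fin.sum_univ_five]
    try ring
  have f010 : -A 1 0 + B 2 0 = 0 := by
    refine Eq.trans ?_ (h1 0 1 0)
    simp [Fin.sum_univ_three, Fin.sum_univ_five]
    try ring
  have f011 : -A 0 0 - A 1 0 - A 2 0 - A 2 1 + B 2 1 = 0 := by
    refine Eq.trans ?_ (h1 0 1 1)
    simp [Fin.sum_univ_three, Fin.sum_univ_five]
    try ring
  have f012 : -A 0 0 - A 1 0 + A 2 0 + A 2 1 + B 2 2 = 0 := by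
    refine Eq.trans ?_ (h1 0 1 2)
    simp [Fin.sum_univ_three, Fin.sum_univ_five]
    try ring
  have f020 : A 1 0 + D 3 0 = 0 := by
    refine Eq.trans ?_ (h1 0 2 0)
    simp [Fin.sum_univ_three, Fin.sum_univ_five]
    try ring
  have f021 : A 1 0 - A 2 2 + D 3 1 = 0 := by
    refine Eq.trans ?_ (h1 0 2 1)
    simp [Fin.sum_univ_three, Fin.sum_univ_five]
    try ring
  have f022 : A 1 0 + A 2 2 + D 3 2 = 0 := by
    refine Eq.trans ?_ (h1 0 2 2)
    simp [Fin.sum_univ_three, Fin.sum_univ_five]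
    try ring
  have f110 : -2 * A 1 1 + B 0 0 + B 1 0 + B 2 0 = 0 := by
    refine Eq.trans ?_ (h1 1 1 0)
    simp [Fin.sum_univ_three, Fin.sum_univ_five]
    try ring
  have f111 : -2 * A 0 1 - 2 * A 1 1 - 2 * A 2 1 + B 0 1 + B 1 1 + B 2 1 = 0 := by
    refine Eq.trans ?_ (h1 1 1 1)
    simp [Fin.sum_univ_three, Fin.sum_univ_five]
    try ring
  have f112 : -2 * A 0 1 - 2 * A 1 1 + 2 * A 2 1 + B 0 2 + B 1 2 + B 2 2 = 0 := by
    refine Eq.trans ?_ (h1 1 1 2)
    simp [Fin.sum_univ_three, Fin.sum_univ_five]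
    try ring
  have f120 : A 1 1 - A 1 2 - B 1 0 = 0 := by
    refine Eq.trans ?_ (h1 1 2 0)
    simp [Fin.sum_univ_three, Fin.sum_univ_five]
    try ring
  have f121 : -A 0 2 + A 1 1 - A 1 2 - A 2 2 - B 1 1 = 0 := by
    refine Eq.trans ?_ (h1 1 2 1)
    simp [Fin.sum_univ_three, Fin.sum_univ_five]
    try ring
  have f122 : -A 0 2 + A 1 1 - A 1 2 + A 2 2 - B 1 2 = 0 := by
    refine Eq.trans ?_ (h1 1 2 2)
    simp [Fin.sum_univ_three, Fin.sum_univ_five]
    try ring
  have f220 : 2 * A 1 2 + B 1 0 + D 0 0 + D 1 0 + D 3 0 = 0 := by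
    refine Eq.trans ?_ (h1 2 2 0)
    simp [Fin.sum_univ_three, Fin.sum_univ_five]
    try ring
  have f221 : 2 * A 1 2 + B 1 1 + D 0 1 + D 1 1 + D 3 1 = 0 := by
    refine Eq.trans ?_ (h1 2 2 1)
    simp [Fin.sum_univ_three, Fin.sum_univ_five]
    try ring
  have f222 : 2 * A 1 2 + B 1 2 + D 0 2 + D 1 2 + D 3 2 = 0 := by
    refine Eq.trans ?_ (h1 2 2 2)
    simp [Fin.sum_univ_three, Fin.sum_univ_five]
    try ring
  have g000 : A 1 0 + E 0 0 + E 3 0 + E 4 0 = 0 := by
    refine Eq.trans ?_ (h2 0 0 0)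
    simp [Fin.sum_univ_three, Fin.sum_univ_five]
    try ring
  have g001 : A 1 0 - B 2 0 + E 3 0 = 0 := by
    refine Eq.trans ?_ (h2 0 0 1)
    simp [Fin.sum_univ_three, Fin.sum_univ_five]
    try ring
  have g002 : A 1 0 + B 2 0 + E 4 0 = 0 := by
    refine Eq.trans ?_ (h2 0 0 2)
    simp [Fin.sum_univ_three, Fin.sum_univ_five]
    try ring
  have g011 : A 0 0 + A 1 0 + A 2 0 - 2 * B 2 1 + E 1 0 + E 3 0 = 0 := by
    refine Eq.trans ?_ (h2 0 1 1)
    simp [Fin.sum_univ_three, Fin.sum_univ_five]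
    try ring
  have g012 : A 0 0 + A 1 0 - A 2 0 + B 2 1 - B 2 2 = 0 := by
    refine Eq.trans ?_ (h2 0 1 2)
    simp [Fin.sum_univ_three, Fin.sum_univ_five]
    try ring
  have g022 : A 0 0 + A 1 0 + A 2 0 + 2 * B 2 2 + E 2 0 + E 4 0 = 0 := by
    refine Eq.trans ?_ (h2 0 2 2)
    simp [Fin.sum_univ_three, Fin.sum_univ_five]
    try ring
  have g100 : A 1 1 - 2 * B 1 0 + E 0 1 + E 3 1 + E 4 1 = 0 := by
    refine Eq.trans ?_ (h2 1 0 0)
    simp [Fin.sum_univ_three, Fin.sum_univ_five]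
    try ring
  have g101 : A 1 1 - B 0 0 - B 1 0 - B 1 1 - B 2 0 + E 3 1 = 0 := by
    refine Eq.trans ?_ (h2 1 0 1)
    simp [Fin.sum_univ_three, Fin.sum_univ_five]
    try ring
  have g102 : A 1 1 - B 0 0 - B 1 0 - B 1 2 + B 2 0 + E 4 1 = 0 := by
    refine Eq.trans ?_ (h2 1 0 2)
    simp [Fin.sum_univ_three, Fin.sum_univ_five]
    try ring
  have g111 : A 0 1 + A 1 1 + A 2 1 - 2 * B 0 1 - 2 * B 1 1 - 2 * B 2 1 + E 1 1 + E 3 1 = 0 := by
    refine Eq.trans ?_ (h2 1 1 1)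
    simp [Fin.sum_univ_three, Fin.sum_univ_five]
    try ring
  have g112 : A 0 1 + A 1 1 - A 2 1 - B 0 1 - B 0 2 - B 1 1 - B 1 2 + B 2 1 - B 2 2 = 0 := by
    refine Eq.trans ?_ (h2 1 1 2)
    simp [Fin.sum_univ_three, Fin.sum_univ_five]
    try ring
  have g122 : A 0 1 + A 1 1 + A 2 1 - 2 * B 0 2 - 2 * B 1 2 + 2 * B 2 2 + E 2 1 + E 4 1 = 0 := by
    refine Eq.trans ?_ (h2 1 2 2)
    simp [Fin.sum_univ_three, Fin.sum_univ_five]
    try ring
  have g200 : A 1 2 + 2 * B 1 0 + E 0 2 + E 3 2 + E 4 2 = 0 := by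
    refine Eq.trans ?_ (h2 2 0 0)
    simp [Fin.sum_univ_three, Fin.sum_univ_five]
    try ring
  have g201 : A 1 2 + B 1 0 + B 1 1 + E 3 2 = 0 := by
    refine Eq.trans ?_ (h2 2 0 1)
    simp [Fin.sum_univ_three, Fin.sum_univ_five]
    try ring
  have g202 : A 1 2 + B 1 0 + B 1 2 + E 4 2 = 0 := by
    refine Eq.trans ?_ (h2 2 0 2)
    simp [Fin.sum_univ_three, Fin.sum_univ_five]
    try ring
  have g211 : A 0 2 + A 1 2 + A 2 2 + 2 * B 1 1 + E 1 2 + E 3 2 = 0 := by
    refine Eq.trans ?_ (h2 2 1 1)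
    simp [Fin.sum_univ_three, Fin.sum_univ_five]
    try ring
  have g212 : A 0 2 + A 1 2 - A 2 2 + B 1 1 + B 1 2 = 0 := by
    refine Eq.trans ?_ (h2 2 1 2)
    simp [Fin.sum_univ_three, Fin.sum_univ_five]
    try ring
  have g222 : A 0 2 + A 1 2 + A 2 2 + 2 * B 1 2 + E 2 2 + E 4 2 = 0 := by
    refine Eq.trans ?_ (h2 2 2 2)
    simp [Fin.sum_univ_three, Fin.sum_univ_five]
    try ring
  have k000 : D 2 0 + D 3 0 + D 4 0 = 0 := by
    refine Eq.trans ?_ (h3 0 0 0)
    simp [Fin.sum_univ_three, Fin.sum_univ_five]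
    try ring
  have k001 : D 2 0 + D 3 0 = 0 := by
    refine Eq.trans ?_ (h3 0 0 1)
    simp [Fin.sum_univ_three, Fin.sum_univ_five]
    try ring
  have k010 : -C 2 0 + D 2 1 + D 3 1 + D 4 1 = 0 := by
    refine Eq.trans ?_ (h3 0 1 0)
    simp [Fin.sum_univ_three, Fin.sum_univ_five]
    try ring
  have k011 : -C 2 1 + D 2 1 + D 3 1 = 0 := by
    refine Eq.trans ?_ (h3 0 1 1)
    simp [Fin.sum_univ_three, Fin.sum_univ_five]
    try ring
  have k020 : C 2 0 + D 2 2 + D 3 2 + D 4 2 = 0 := by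
    refine Eq.trans ?_ (h3 0 2 0)
    simp [Fin.sum_univ_three, Fin.sum_univ_five]
    try ring
  have k021 : C 2 1 + D 2 2 + D 3 2 = 0 := by
    refine Eq.trans ?_ (h3 0 2 1)
    simp [Fin.sum_univ_three, Fin.sum_univ_five]
    try ring
  have k100 : -C 1 0 = 0 := by
    refine Eq.trans ?_ (h3 1 0 0)
    simp [Fin.sum_univ_three, Fin.sum_univ_five]
    try ring
  have k101 : -C 1 1 = 0 := by
    refine Eq.trans ?_ (h3 1 0 1)
    simp [Fin.sum_univ_three, Fin.sum_univ_five]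
    try ring
  have k110 : -C 0 0 - C 1 0 - C 2 0 = 0 := by
    refine Eq.trans ?_ (h3 1 1 0)
    simp [Fin.sum_univ_three, Fin.sum_univ_five]
    try ring
  have k111 : -C 0 1 - C 1 1 - C 2 1 = 0 := by
    refine Eq.trans ?_ (h3 1 1 1)
    simp [Fin.sum_univ_three, Fin.sum_univ_five]
    try ring
  have k120 : -C 0 0 - C 1 0 + C 2 0 = 0 := by
    refine Eq.trans ?_ (h3 1 2 0)
    simp [Fin.sum_univ_three, Fin.sum_univ_five]
    try ring
  have k121 : -C 0 1 - C 1 1 + C 2 1 = 0 := by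
    refine Eq.trans ?_ (h3 1 2 1)
    simp [Fin.sum_univ_three, Fin.sum_univ_five]
    try ring
  have k200 : C 1 0 - D 0 0 + D 1 0 + D 3 0 = 0 := by
    refine Eq.trans ?_ (h3 2 0 0)
    simp [Fin.sum_univ_three, Fin.sum_univ_five]
    try ring
  have k201 : C 1 1 + D 0 0 + D 1 0 + D 3 0 = 0 := by
    refine Eq.trans ?_ (h3 2 0 1)
    simp [Fin.sum_univ_three, Fin.sum_univ_five]
    try ring
  have k210 : C 1 0 - D 0 1 + D 1 1 + D 3 1 = 0 := by
    refine Eq.trans ?_ (h3 2 1 0)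
    simp [Fin.sum_univ_three, Fin.sum_univ_five]
    try ring
  have k211 : C 1 1 + D 0 1 + D 1 1 + D 3 1 = 0 := by
    refine Eq.trans ?_ (h3 2 1 1)
    simp [Fin.sum_univ_three, Fin.sum_univ_five]
    try ring
  have k220 : C 1 0 - D 0 2 + D 1 2 + D 3 2 = 0 := by
    refine Eq.trans ?_ (h3 2 2 0)
    simp [Fin.sum_univ_three, Fin.sum_univ_five]
    try ring
  have k221 : C 1 1 + D 0 2 + D 1 2 + D 3 2 = 0 := by
    refine Eq.trans ?_ (h3 2 2 1)
    simp [Fin.sum_univ_three, Fin.sum_univ_five]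
    try ring
  have zA00 : A 0 0 = 0 := by
    linear_combination -f000 + (1 / 2) * f001 + (1 / 2) * f002 + f010 - (1 / 2) * f011 - (1 / 2) * f012 + k000 - (1 / 2) * k010 - (1 / 2) * k020
  have zA01 : A 0 1 = 0 := by
    linear_combination (1 / 3) * f002 + (1 / 3) * f011 - (1 / 3) * f111 - (1 / 3) * f112 - (2 / 3) * f120 - (1 / 3) * f122 - (2 / 3) * f220 + (1 / 3) * f221 + (1 / 3) * g012 - (1 / 3) * g112 - (1 / 3) * g212 - (1 / 3) * k020 + (1 / 3) * k101 - (1 / 6) * k110 + (1 / 6) * k120 + (2 / 3) * k201 - (1 / 3) * k211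
  have zA02 : A 0 2 = 0 := by
    linear_combination f120 - (1 / 2) * f121 - (1 / 2) * f122 + f220 - (1 / 2) * f221 - (1 / 2) * f222 - k201 + (1 / 2) * k211 + (1 / 2) * k221
  have zA10 : A 1 0 = 0 := by
    linear_combination f000 - f010 - k000
  have zA11 : A 1 1 = 0 := by
    linear_combination (2 / 3) * f120 + (1 / 3) * f122 + (2 / 3) * f220 - (1 / 3) * f221 + (1 / 3) * g212 - (1 / 3) * k101 - (2 / 3) * k201 + (1 / 3) * k211
  have zA12 : A 1 2 = 0 := by
    linear_combination (1 / 3) * f120 - (1 / 3) * f122 + (1 / 3) * f220 + (1 / 3) * f221 - (1 / 3) * g212 - (2 / 3) * k101 - (1 / 3) * k201 - (1 / 3) * k211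
  have zA20 : A 2 0 = 0 := by
    linear_combination -(1 / 2) * f001 + (1 / 6) * f002 + (1 / 6) * f011 + (1 / 6) * f012 + (1 / 3) * g012 + (1 / 2) * k010 - (1 / 6) * k020 - (1 / 3) * k110 + (1 / 3) * k120
  have zA21 : A 2 1 = 0 := by
    linear_combination -(1 / 3) * f002 - (1 / 3) * f011 + (2 / 3) * f012 + (1 / 3) * g012 + (1 / 3) * k020 + (1 / 6) * k110 - (1 / 6) * k120
  have zA22 : A 2 2 = 0 := by
    linear_combination -(1 / 2) * f121 + (1 / 2) * f122 - (1 / 2) * f221 + (1 / 2) * f222 + (1 / 2) * k211 - (1 / 2) * k221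
  have zB00 : B 0 0 = 0 := by
    linear_combination -f000 + f110 + 2 * f120 + f220 + k000 - k101 - k201
  have zB01 : B 0 1 = 0 := by
    linear_combination -(1 / 3) * f002 - (1 / 3) * f011 + f012 + (1 / 3) * f111 - (2 / 3) * f112 + (2 / 3) * f120 - (2 / 3) * f122 + (2 / 3) * f220 - (1 / 3) * f221 + (2 / 3) * g012 - (2 / 3) * g112 - (2 / 3) * g212 + (1 / 3) * k020 - (1 / 3) * k101 + (1 / 6) * k110 - (1 / 6) * k120 - (2 / 3) * k201 + (1 / 3) * k211
  have zB02 : B 0 2 = 0 := by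
    linear_combination -f001 + (2 / 3) * f002 + (5 / 3) * f011 - f012 - (2 / 3) * f111 + (1 / 3) * f112 + (2 / 3) * f120 - (2 / 3) * f122 + (2 / 3) * f220 + (2 / 3) * f221 - f222 + (2 / 3) * g012 - (2 / 3) * g112 - (2 / 3) * g212 + k010 - (2 / 3) * k020 - (1 / 3) * k101 - (5 / 6) * k110 + (5 / 6) * k120 - (2 / 3) * k201 - (2 / 3) * k211 + k221
  have zB10 : B 1 0 = 0 := by
    linear_combination -(2 / 3) * f120 + (2 / 3) * f122 + (1 / 3) * f220 - (2 / 3) * f221 + (2 / 3) * g212 + (1 / 3) * k101 - (1 / 3) * k201 + (2 / 3) * k211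
  have zB11 : B 1 1 = 0 := by
    linear_combination -(2 / 3) * f120 + (2 / 3) * f122 - (2 / 3) * f220 + (1 / 3) * f221 + (2 / 3) * g212 + (1 / 3) * k101 + (2 / 3) * k201 - (1 / 3) * k211
  have zB12 : B 1 2 = 0 := by
    linear_combination -(2 / 3) * f120 + (2 / 3) * f122 - (2 / 3) * f220 - (2 / 3) * f221 + f222 + (2 / 3) * g212 + (1 / 3) * k101 + (2 / 3) * k201 + (2 / 3) * k211 - k221
  have zB20 : B 2 0 = 0 := by
    linear_combination f000 - k000
  have zB21 : B 2 1 = 0 := by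
    linear_combination (1 / 3) * f002 + (1 / 3) * f011 + (1 / 3) * f012 + (2 / 3) * g012 - (1 / 3) * k020 - (1 / 6) * k110 + (1 / 6) * k120
  have zB22 : B 2 2 = 0 := by
    linear_combination f001 + (2 / 3) * f002 - (1 / 3) * f011 - (1 / 3) * f012 - (2 / 3) * g012 - k010 - (2 / 3) * k020 + (1 / 6) * k110 - (1 / 6) * k120
  have zC00 : C 0 0 = 0 := by
    linear_combination k100 - (1 / 2) * k110 - (1 / 2) * k120
  have zC01 : C 0 1 = 0 := by
    linear_combination k101 - (1 / 2) * k111 - (1 / 2) * k121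
  have zC10 : C 1 0 = 0 := by
    linear_combination -k100
  have zC11 : C 1 1 = 0 := by
    linear_combination -k101
  have zC20 : C 2 0 = 0 := by
    linear_combination -(1 / 2) * k110 + (1 / 2) * k120
  have zC21 : C 2 1 = 0 := by
    linear_combination -(1 / 2) * k111 + (1 / 2) * k121
  have zD00 : D 0 0 = 0 := by
    linear_combination -(1 / 2) * k100 + (1 / 2) * k101 - (1 / 2) * k200 + (1 / 2) * k201
  have zD01 : D 0 1 = 0 := by
    linear_combination -(1 / 2) * k100 + (1 / 2) * k101 - (1 / 2) * k210 + (1 / 2) * k211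
  have zD02 : D 0 2 = 0 := by
    linear_combination -(1 / 2) * k100 + (1 / 2) * k101 - (1 / 2) * k220 + (1 / 2) * k221
  have zD10 : D 1 0 = 0 := by
    linear_combination f000 - f010 - f020 - k000 + (1 / 2) * k100 + (1 / 2) * k101 + (1 / 2) * k200 + (1 / 2) * k201
  have zD11 : D 1 1 = 0 := by
    linear_combination f000 - f010 - f021 + (1 / 2) * f121 - (1 / 2) * f122 + (1 / 2) * f221 - (1 / 2) * f222 - k000 + (1 / 2) * k100 + (1 / 2) * k101 + (1 / 2) * k210 + (1 / 2) * k221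
  have zD12 : D 1 2 = 0 := by
    linear_combination f000 - f010 - f022 - (1 / 2) * f121 + (1 / 2) * f122 - (1 / 2) * f221 + (1 / 2) * f222 - k000 + (1 / 2) * k100 + (1 / 2) * k101 + (1 / 2) * k211 + (1 / 2) * k220
  have zD20 : D 2 0 = 0 := by
    linear_combination f000 - f010 - f020 - k000 + k001
  have zD21 : D 2 1 = 0 := by
    linear_combination f000 - f010 - f021 + (1 / 2) * f121 - (1 / 2) * f122 + (1 / 2) * f221 - (1 / 2) * f222 - k000 + k011 - (1 / 2) * k111 + (1 / 2) * k121 - (1 / 2) * k211 + (1 / 2) * k221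
  have zD22 : D 2 2 = 0 := by
    linear_combination f000 - f010 - f022 - (1 / 2) * f121 + (1 / 2) * f122 - (1 / 2) * f221 + (1 / 2) * f222 - k000 + k021 + (1 / 2) * k111 - (1 / 2) * k121 + (1 / 2) * k211 - (1 / 2) * k221
  have zD30 : D 3 0 = 0 := by
    linear_combination -f000 + f010 + f020 + k000
  have zD31 : D 3 1 = 0 := by
    linear_combination -f000 + f010 + f021 - (1 / 2) * f121 + (1 / 2) * f122 - (1 / 2) * f221 + (1 / 2) * f222 + k000 + (1 / 2) * k211 - (1 / 2) * k221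
  have zD32 : D 3 2 = 0 := by
    linear_combination -f000 + f010 + f022 + (1 / 2) * f121 - (1 / 2) * f122 + (1 / 2) * f221 - (1 / 2) * f222 + k000 - (1 / 2) * k211 + (1 / 2) * k221
  have zD40 : D 4 0 = 0 := by
    linear_combination k000 - k001
  have zD41 : D 4 1 = 0 := by
    linear_combination k010 - k011 - (1 / 2) * k110 + (1 / 2) * k111 + (1 / 2) * k120 - (1 / 2) * k121
  have zD42 : D 4 2 = 0 := by
    linear_combination k020 - k021 + (1 / 2) * k110 - (1 / 2) * k111 - (1 / 2) * k120 + (1 / 2) * k121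
  have zE00 : E 0 0 = 0 := by
    linear_combination f000 - f010 + g000 - g001 - g002 - k000
  have zE01 : E 0 1 = 0 := by
    linear_combination 2 * f000 - 2 * f110 - 2 * f120 - f122 - f222 + g100 - g101 - g102 - g212 - 2 * k000 + k101 + k221
  have zE02 : E 0 2 = 0 := by
    linear_combination -f120 + f122 - f220 + f222 + g200 - g201 - g202 + g212 + k201 - k221
  have zE10 : E 1 0 = 0 := by
    linear_combination -f010 + f011 + f012 - g001 + g011 + g012
  have zE11 : E 1 1 = 0 := by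
    linear_combination 2 * f012 - f110 + f111 - f112 - f122 + 2 * g012 - g101 + g111 - g112 - g212
  have zE12 : E 1 2 = 0 := by
    linear_combination -f120 + f121 - g201 + g211
  have zE20 : E 2 0 = 0 := by
    linear_combination 2 * f000 - 2 * f001 - 2 * f002 - f010 + f011 + f012 - g002 + g012 + g022 - 2 * k000 + 2 * k010 + 2 * k020
  have zE21 : E 2 1 = 0 := by
    linear_combination 2 * f000 - 4 * f001 + 4 * f011 - 2 * f012 - f110 - f111 + f112 - f122 + f221 - f222 + 2 * g012 - g102 - g112 + g122 - g212 - 2 * k000 + 4 * k010 - 2 * k110 + 2 * k120 - k211 + k221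
  have zE22 : E 2 2 = 0 := by
    linear_combination -f120 + f121 + f221 - f222 - g202 + g222 - k211 + k221
  have zE30 : E 3 0 = 0 := by
    linear_combination f010 + g001
  have zE31 : E 3 1 = 0 := by
    linear_combination f110 + f122 + g101 + g212
  have zE32 : E 3 2 = 0 := by
    linear_combination f120 - f122 + g201 - g212
  have zE40 : E 4 0 = 0 := by
    linear_combination -2 * f000 + f010 + g002 + 2 * k000
  have zE41 : E 4 1 = 0 := by
    linear_combination -2 * f000 + f110 + f122 - f221 + f222 + g102 + g212 + 2 * k000 + k211 - k221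
  have zE42 : E 4 2 = 0 := by
    linear_combination f120 - f122 + f221 - f222 + g202 - g212 - k211 + k221
  clear f000 f001 f002 f010 f011 f012 f020 f021 f022 f110 f111 f112 f120 f121 f122 f220 f221 f222 g000 g001 g002 g011 g012 g022 g100 g101 g102 g111 g112 g122 g200 g201 g202 g211 g212 g222 k000 k001 k010 k011 k020 k021 k100 k101 k110 k111 k120 k121 k200 k201 k210 k211 k220 k221
  refine ⟨fun t u => ?_, fun t u => ?_, fun t l => ?_, fun i u => ?_, fun i u => ?_⟩
  · fin_cases t <;> fin_cases u <;> assumption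
  · fin_cases t <;> fin_cases u <;> assumption
  · fin_cases t <;> fin_cases l <;> assumption
  · fin_cases i <;> fin_cases u <;> assumption
  · fin_cases i <;> fin_cases u <;> assumption

end Pool.Agent.WarM.CubAH


end

section

/-!
# Independent double points in degree three: the system for three blocks   (helper27)
-/

set_option autoImplicit false

namespace Pool.Agent.WarM.CubAH

theorem chk4 : Chk4 := by
  refine ⟨![![0, 1, 0], ![1, 1, -1], ![1, 0, 1]],
    ![![0, 0, 1], ![0, 1, 1], ![0, 1, -1]],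
    ![![1, 0, 0], ![0, 0, 1], ![0, 1, -1]],
    ![![0, 1, 1], ![0, 1, 0], ![0, 1, -1]],
    ![![1, 0, 1], ![0, 1, 0], ![1, -1, 0]],
    ![![1, 0, 0], ![1, 0, 0], ![1, 0, -1]], ?_⟩
  intro X Y Z h
  have e000 : Z 0 0 + Z 2 0 = 0 := by
    refine Eq.trans ?_ (h 0 0 0)
    simp [Fin.sum_univ_three]
    try ring
  have e001 : Y 0 0 = 0 := by
    refine Eq.trans ?_ (h 0 0 1)
    simp [Fin.sum_univ_three]
    try ring
  have e002 : Y 0 0 - Z 2 0 = 0 := by
    refine Eq.trans ?_ (h 0 0 2)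
    simp [Fin.sum_univ_three]
    try ring
  have e010 : X 1 0 + X 2 0 + Z 1 0 - Z 2 0 = 0 := by
    refine Eq.trans ?_ (h 0 1 0)
    simp [Fin.sum_univ_three]
    try ring
  have e011 : X 1 1 + X 2 1 + Y 0 1 = 0 := by
    refine Eq.trans ?_ (h 0 1 1)
    simp [Fin.sum_univ_three]
    try ring
  have e012 : X 1 2 + X 2 2 + Y 0 1 + Z 2 0 = 0 := by
    refine Eq.trans ?_ (h 0 1 2)
    simp [Fin.sum_univ_three]
    try ring
  have e020 : X 1 0 - X 2 0 + Z 0 0 = 0 := by
    refine Eq.trans ?_ (h 0 2 0)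
    simp [Fin.sum_univ_three]
    try ring
  have e021 : X 1 1 - X 2 1 + Y 0 2 = 0 := by
    refine Eq.trans ?_ (h 0 2 1)
    simp [Fin.sum_univ_three]
    try ring
  have e022 : X 1 2 - X 2 2 + Y 0 2 = 0 := by
    refine Eq.trans ?_ (h 0 2 2)
    simp [Fin.sum_univ_three]
    try ring
  have e100 : Z 0 1 + Z 2 1 = 0 := by
    refine Eq.trans ?_ (h 1 0 0)
    simp [Fin.sum_univ_three]
    try ring
  have e101 : Y 2 0 = 0 := by
    refine Eq.trans ?_ (h 1 0 1)
    simp [Fin.sum_univ_three]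
    try ring
  have e102 : -Y 2 0 - Z 2 1 = 0 := by
    refine Eq.trans ?_ (h 1 0 2)
    simp [Fin.sum_univ_three]
    try ring
  have e110 : X 1 0 + Z 1 1 - Z 2 1 = 0 := by
    refine Eq.trans ?_ (h 1 1 0)
    simp [Fin.sum_univ_three]
    try ring
  have e111 : X 1 1 + Y 2 1 = 0 := by
    refine Eq.trans ?_ (h 1 1 1)
    simp [Fin.sum_univ_three]
    try ring
  have e112 : X 1 2 - Y 2 1 + Z 2 1 = 0 := by
    refine Eq.trans ?_ (h 1 1 2)
    simp [Fin.sum_univ_three]
    try ring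
  have e120 : X 0 0 + X 1 0 + Z 0 1 = 0 := by
    refine Eq.trans ?_ (h 1 2 0)
    simp [Fin.sum_univ_three]
    try ring
  have e121 : X 0 1 + X 1 1 + Y 2 2 = 0 := by
    refine Eq.trans ?_ (h 1 2 1)
    simp [Fin.sum_univ_three]
    try ring
  have e122 : X 0 2 + X 1 2 - Y 2 2 = 0 := by
    refine Eq.trans ?_ (h 1 2 2)
    simp [Fin.sum_univ_three]
    try ring
  have e200 : Z 0 2 + Z 2 2 = 0 := by
    refine Eq.trans ?_ (h 2 0 0)
    simp [Fin.sum_univ_three]
    try ring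
  have e201 : Y 1 0 - Y 2 0 = 0 := by
    refine Eq.trans ?_ (h 2 0 1)
    simp [Fin.sum_univ_three]
    try ring
  have e202 : Y 2 0 - Z 2 2 = 0 := by
    refine Eq.trans ?_ (h 2 0 2)
    simp [Fin.sum_univ_three]
    try ring
  have e210 : -X 1 0 + X 2 0 + Z 1 2 - Z 2 2 = 0 := by
    refine Eq.trans ?_ (h 2 1 0)
    simp [Fin.sum_univ_three]
    try ring
  have e211 : -X 1 1 + X 2 1 + Y 1 1 - Y 2 1 = 0 := by
    refine Eq.trans ?_ (h 2 1 1)
    simp [Fin.sum_univ_three]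
    try ring
  have e212 : -X 1 2 + X 2 2 + Y 2 1 + Z 2 2 = 0 := by
    refine Eq.trans ?_ (h 2 1 2)
    simp [Fin.sum_univ_three]
    try ring
  have e220 : -X 1 0 - X 2 0 + Z 0 2 = 0 := by
    refine Eq.trans ?_ (h 2 2 0)
    simp [Fin.sum_univ_three]
    try ring
  have e221 : -X 1 1 - X 2 1 + Y 1 2 - Y 2 2 = 0 := by
    refine Eq.trans ?_ (h 2 2 1)
    simp [Fin.sum_univ_three]
    try ring
  have e222 : -X 1 2 - X 2 2 + Y 2 2 = 0 := by
    refine Eq.trans ?_ (h 2 2 2)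
    simp [Fin.sum_univ_three]
    try ring
  have zX00 : X 0 0 = 0 := by
    linear_combination (1 / 2) * e000 - (1 / 2) * e001 + (1 / 2) * e002 - (1 / 2) * e020 - e100 - (1 / 2) * e101 - e102 + e120 - (1 / 2) * e200 - (1 / 2) * e202 + (1 / 2) * e220
  have zX01 : X 0 1 = 0 := by
    linear_combination -e101 - 2 * e102 - e111 - 2 * e112 + e121 - e202 - e212 - e222
  have zX02 : X 0 2 = 0 := by
    linear_combination e102 + e112 + e122 + e202 + e212 + e222
  have zX10 : X 1 0 = 0 := by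
    linear_combination -(1 / 2) * e000 + (1 / 2) * e001 - (1 / 2) * e002 + (1 / 2) * e020 - (1 / 2) * e101 + (1 / 2) * e200 + (1 / 2) * e202 - (1 / 2) * e220
  have zX11 : X 1 1 = 0 := by
    linear_combination (1 / 4) * e001 - (1 / 4) * e002 + (1 / 4) * e011 - (1 / 4) * e012 + (1 / 4) * e021 - (1 / 4) * e022 + (1 / 2) * e101 + (1 / 2) * e102 + (1 / 2) * e111 + (1 / 2) * e112
  have zX12 : X 1 2 = 0 := by
    linear_combination -(1 / 4) * e001 + (1 / 4) * e002 - (1 / 4) * e011 + (1 / 4) * e012 - (1 / 4) * e021 + (1 / 4) * e022 + (1 / 2) * e101 + (1 / 2) * e102 + (1 / 2) * e111 + (1 / 2) * e112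
  have zX20 : X 2 0 = 0 := by
    linear_combination (1 / 2) * e000 - (1 / 2) * e001 + (1 / 2) * e002 - (1 / 2) * e020 - (1 / 2) * e101 + (1 / 2) * e200 + (1 / 2) * e202 - (1 / 2) * e220
  have zX21 : X 2 1 = 0 := by
    linear_combination (1 / 2) * e001 - (1 / 2) * e002 + (1 / 2) * e011 - (1 / 2) * e012 - (1 / 2) * e021 + (1 / 2) * e022 + e102 + e112 + e202 + e212
  have zX22 : X 2 2 = 0 := by
    linear_combination e102 + e112 + e202 + e212
  have zY00 : Y 0 0 = 0 := by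
    linear_combination e001
  have zY01 : Y 0 1 = 0 := by
    linear_combination -(3 / 4) * e001 + (3 / 4) * e002 + (1 / 4) * e011 + (3 / 4) * e012 + (1 / 4) * e021 - (1 / 4) * e022 - (1 / 2) * e101 - (3 / 2) * e102 - (1 / 2) * e111 - (3 / 2) * e112 - e202 - e212
  have zY02 : Y 0 2 = 0 := by
    linear_combination (1 / 4) * e001 - (1 / 4) * e002 + (1 / 4) * e011 - (1 / 4) * e012 + (1 / 4) * e021 + (3 / 4) * e022 - (1 / 2) * e101 + (1 / 2) * e102 - (1 / 2) * e111 + (1 / 2) * e112 + e202 + e212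
  have zY10 : Y 1 0 = 0 := by
    linear_combination e101 + e201
  have zY11 : Y 1 1 = 0 := by
    linear_combination -(1 / 2) * e001 + (1 / 2) * e002 - (1 / 2) * e011 + (1 / 2) * e012 + (1 / 2) * e021 - (1 / 2) * e022 - e102 + e111 - e112 - e202 + e211 - e212
  have zY12 : Y 1 2 = 0 := by
    linear_combination (1 / 2) * e001 - (1 / 2) * e002 + (1 / 2) * e011 - (1 / 2) * e012 - (1 / 2) * e021 + (1 / 2) * e022 + e101 + 3 * e102 + e111 + 3 * e112 + 2 * e202 + 2 * e212 + e221 + e222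
  have zY20 : Y 2 0 = 0 := by
    linear_combination e101
  have zY21 : Y 2 1 = 0 := by
    linear_combination -(1 / 4) * e001 + (1 / 4) * e002 - (1 / 4) * e011 + (1 / 4) * e012 - (1 / 4) * e021 + (1 / 4) * e022 - (1 / 2) * e101 - (1 / 2) * e102 + (1 / 2) * e111 - (1 / 2) * e112
  have zY22 : Y 2 2 = 0 := by
    linear_combination -(1 / 4) * e001 + (1 / 4) * e002 - (1 / 4) * e011 + (1 / 4) * e012 - (1 / 4) * e021 + (1 / 4) * e022 + (1 / 2) * e101 + (3 / 2) * e102 + (1 / 2) * e111 + (3 / 2) * e112 + e202 + e212 + e222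
  have zZ00 : Z 0 0 = 0 := by
    linear_combination e000 - e001 + e002
  have zZ01 : Z 0 1 = 0 := by
    linear_combination e100 + e101 + e102
  have zZ02 : Z 0 2 = 0 := by
    linear_combination -e101 + e200 + e202
  have zZ10 : Z 1 0 = 0 := by
    linear_combination e001 - e002 + e010 + e101 - e200 - e202 + e220
  have zZ11 : Z 1 1 = 0 := by
    linear_combination (1 / 2) * e000 - (1 / 2) * e001 + (1 / 2) * e002 - (1 / 2) * e020 - (1 / 2) * e101 - e102 + e110 - (1 / 2) * e200 - (1 / 2) * e202 + (1 / 2) * e220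
  have zZ12 : Z 1 2 = 0 := by
    linear_combination -e000 + e001 - e002 + e020 + e101 - e202 + e210
  have zZ20 : Z 2 0 = 0 := by
    linear_combination e001 - e002
  have zZ21 : Z 2 1 = 0 := by
    linear_combination -e101 - e102
  have zZ22 : Z 2 2 = 0 := by
    linear_combination e101 - e202
  refine ⟨fun t u => ?_, fun t u => ?_, fun t u => ?_⟩
  · fin_cases t <;> fin_cases u <;> assumption
  · fin_cases t <;> fin_cases u <;> assumption
  · fin_cases t <;> fin_cases u <;> assumption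

end Pool.Agent.WarM.CubAH


end
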