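import Mathlib
import Pool.Agent.CLAM.C01
import Pool.Agent.CLAM.C02
import Pool.Agent.CLAM.C04
import Pool.Agent.CLAM.C05
import Pool.Agent.CLAM.C07
import Pool.Agent.CLAM.C08
import Pool.Agent.CLAM.C09
import Pool.Agent.CLAM.C10

/-! Parts: WarQ.UP, WarQ.GR, WarQ.LG, WarQ.T, WarC.DHC, WarC.BASE, WarC.DHC2, War5.NG6, War5.NS, WarR.WinC, WarR.WinS, WarR.WinT, WarR.WinU, WarR.SdTD -/

section

/-!
# Simultaneous Waring decompositions (MP_db021c_ag): lifting the degree
-/

set_option autoImplicit false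

open Module MvPolynomial
open Pool.Agent.War Pool.Agent.WarS

namespace Pool.Agent.WarQ

namespace UPaux

/-- simple points which kill the polynomials of degree `≤ d` -/
theorem simple (n d : ℕ) : ∃ y : Fin (NN n d) → Fin n → ℂ, ∀ f : MvPolynomial (Fin n) ℂ,
    f.totalDegree ≤ d → (∀ i, eval (y i) f = 0) → f = 0 := by
  have hred : ∀ w ∈ (⊤ : Submodule ℂ (Pol n d)), w ∉ (⊥ : Submodule ℂ (Pol n d)) →
      ∃ y : Fin n → ℂ, ev n d y w ≠ 0 := by
    intro w _ hw
    by_contra hcon
    push Not at hcon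
    apply hw
    rw [Submodule.mem_bot]
    apply Subtype.ext
    refine MvPolynomial.funext fun p => ?_
    have h1 := hcon p
    rw [ev_apply] at h1
    rw [h1]
    simp
  obtain ⟨y, hy⟩ := red (ev n d) ⊤ ⊥ hred (NN n d)
  refine ⟨y, fun f hf h => ?_⟩
  have h0 : finrank ℂ
      ↥((⊤ : Submodule ℂ (Pol n d)) ⊓ ⨅ i, LinearMap.ker (ev n d (y i))) = 0 := by
    have e1 : finrank ℂ (⊥ : Submodule ℂ (Pol n d)) = 0 := finrank_bot _ _
    have e2 : finrank ℂ (⊤ : Submodule ℂ (Pol n d)) ≤ NN n d := by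
      rw [finrank_top]
      exact finrank_Pol_le n d
    rw [e1] at hy
    omega
  have h1 := Submodule.finrank_eq_zero.1 h0
  have h2 : (⟨f, mem_Pol.2 hf⟩ : Pol n d) ∈
      (⊤ : Submodule ℂ (Pol n d)) ⊓ ⨅ i, LinearMap.ker (ev n d (y i)) := by
    refine ⟨trivial, (Submodule.mem_iInf _).2 fun i => ?_⟩
    rw [LinearMap.mem_ker, ev_apply]
    exact h i
  rw [h1, Submodule.mem_bot] at h2
  exact congrArg Subtype.val h2

/-- `Kill` as a condition on `TrC1` -/
theorem kill_iff (n d : ℕ) {α β γ : Type} [Fintype γ]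
    (x : (α ⊕ β → Fin n → ℂ) × (α → γ → ℂ)) :
    Kill n d (fun i => x.1 (Sum.inl i)) x.2 (fun i => x.1 (Sum.inr i)) ↔ TrC1 n d x = ⊥ := by
  constructor
  · intro h
    rw [eq_bot_iff]
    intro f hf
    obtain ⟨h1, h2⟩ := mem_TrC1.1 hf
    rw [Submodule.mem_bot]
    funext j
    exact Subtype.ext (h (fun j => (f j : MvPolynomial (Fin n) ℂ)) (fun j => mem_Pol.1 (f j).2)
      (fun i j => h1 (Sum.inl i) j) h2 (fun i j => h1 (Sum.inr i) j) j)
  · intro h f hf h1 h2 h3
    have h4 : (fun j => (⟨f j, mem_Pol.2 (hf j)⟩ : Pol n d)) ∈ TrC1 n d x := by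
      refine mem_TrC1.2 ⟨fun i j => ?_, h2⟩
      rcases i with i | i
      · exact h1 i j
      · exact h3 i j
    rw [h, Submodule.mem_bot] at h4
    intro j
    exact congrArg Subtype.val (congrFun h4 j)

/-- the first coordinate of a point is polynomial on lines -/
theorem LP_zero {ν : ℕ} {α β γ : Type} (i : α ⊕ β) :
    LP (K := ℂ) (X := (α ⊕ β → Fin (ν + 1) → ℂ) × (α → γ → ℂ)) fun x => x.1 i 0 :=
  (LP_coord (0 : Fin (ν + 1))).comp_linear
    ((pt i).comp (LinearMap.fst ℂ (α ⊕ β → Fin (ν + 1) → ℂ) (α → γ → ℂ)))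

/-- the step -/
theorem step (ν d : ℕ) {α β γ δ : Type} [Fintype γ]
    (x : (α ⊕ β → Fin (ν + 1) → ℂ) × (α → γ → ℂ))
    (hx1 : TrC1 (ν + 1) d x = ⊥) (hx2 : ∀ i, x.1 i 0 ≠ 0) (w : δ → Fin ν → ℂ)
    (hw : ∀ f : MvPolynomial (Fin ν) ℂ, f.totalDegree ≤ d + 1 → (∀ i, eval (w i) f = 0) → f = 0) :
    Kill (ν + 1) (d + 1) (fun i => x.1 (Sum.inl i)) x.2
      (Sum.elim (fun i => hp (w i)) (fun i => x.1 (Sum.inr i)) : δ ⊕ β → Fin (ν + 1) → ℂ) := by
  intro f hf h1 h2 h3
  have hg : ∀ j, ∃ g : MvPolynomial (Fin (ν + 1)) ℂ, g.totalDegree ≤ d ∧ f j = X 0 * g :=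
    fun j => exists_of_res (hf j) (hw _ ((res_totalDegree_le _).trans (hf j)) fun i => by
      rw [← eval_hp]
      exact h3 (Sum.inl i) j)
  choose g hg1 hg2 using hg
  have hev : ∀ i j, eval (x.1 i) (g j) = 0 := by
    intro i j
    have h4 : eval (x.1 i) (f j) = 0 := by
      rcases i with i | i
      · exact h1 i j
      · exact h3 (Sum.inr i) j
    rw [hg2, eval_X_mulC1] at h4
    exact (mul_eq_zero.1 h4).resolve_left (hx2 i)
  have hz := ((kill_iff (ν + 1) d x).2 hx1) g hg1 (fun i j => hev (Sum.inl i) j)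
    (fun i k => ?_) (fun i j => hev (Sum.inr i) j)
  · intro j
    rw [hg2, hz j, mul_zero]
  · have h5 := h2 i k
    have h6 : ∀ j, x.2 i j * eval (x.1 (Sum.inl i)) (pderiv k (f j)) =
        x.1 (Sum.inl i) 0 * (x.2 i j * eval (x.1 (Sum.inl i)) (pderiv k (g j))) := by
      intro j
      rw [hg2, eval_pderiv_X_mulC1, hev (Sum.inl i) j, mul_zero, add_zero]
      ring
    simp only [h6] at h5
    rw [← Finset.mul_sum] at h5
    exact (mul_eq_zero.1 h5).resolve_left (hx2 _)

end UPaux

open _root_.Pool.Agent.WarQ.UPaux in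
theorem x_UP : S_UP := by
  intro n d b c D hn hle hQ
  obtain ⟨z, a, y, hK⟩ := hQ
  obtain ⟨ν, rfl⟩ : ∃ ν, n = ν + 1 := ⟨n - 1, by omega⟩
  have hx0 : TrC1 (ν + 1) d ((Sum.elim z y, a) :
      (Fin (b + c) ⊕ Fin (NN (ν + 1) d - (ν + 1 + D) - (b + c)) → Fin (ν + 1) → ℂ) ×
        (Fin (b + c) → Fin b → ℂ)) = ⊥ := (kill_iff _ _ _).1 hK
  obtain ⟨x, hx1, hx2⟩ := (((PK_TrC1 (ν + 1) d).gen_bot hx0).and
    (Gen.forall fun i : Fin (b + c) ⊕ Fin (NN (ν + 1) d - (ν + 1 + D) - (b + c)) =>
      Gen.ne (LP_zero (ν := ν) (γ := Fin b) i)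
        ((fun _ _ => 1), 0) one_ne_zero)).exists
  obtain ⟨w, hw⟩ := simple ν (d + 1)
  have key := step ν d x hx1 hx2 w hw
  have hnum : NN (ν + 1) (d + 1) - (ν + 1 + D) - (b + c) =
      NN ν (d + 1) + (NN (ν + 1) d - (ν + 1 + D) - (b + c)) := by
    rw [NN_succ]
    omega
  have key2 := key.reindexC1 (Equiv.refl _) ((finCongr hnum).trans finSumFinEquiv.symm)
  exact ⟨_, _, _, key2⟩

end Pool.Agent.WarQ


end

section

/-!
# Kernel of the full conditions in the group model
-/

set_option autoImplicit false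

open Module MvPolynomial
open Pool.Agent.War Pool.Agent.WarS

namespace Pool.Agent.WarQ

namespace GRaux

variable {n K : ℕ} {sz : Fin K → ℕ}

theorem inj (e : ((g : Fin K) × Fin (sz g)) ≃ Fin n) (g : Fin K) :
    Function.Injective (fun i : Fin (sz g) => e ⟨g, i⟩) := by
  intro i i' h
  have h1 : (⟨g, i⟩ : (g : Fin K) × Fin (sz g)) = ⟨g, i'⟩ := e.injective h
  simpa using h1

theorem pderiv_other (e : ((g : Fin K) × Fin (sz g)) ≃ Fin n) {g g' : Fin K} (h : g' ≠ g)
    (k : Fin (sz g)) (w : Fin (sz g' + 1)) : pderiv (e ⟨g, k⟩) (ug e g' w) = 0 := by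
  classical
  apply pderiv_eq_zero_of_notMem_vars
  intro hm
  have h1 := vars_rename (fun i : Fin (sz g') => e ⟨g', i⟩) (uu (sz g') w) hm
  rw [Finset.mem_image] at h1
  obtain ⟨i, -, hi⟩ := h1
  have h2 : (⟨g', i⟩ : (g : Fin K) × Fin (sz g)) = ⟨g, k⟩ := e.injective hi
  exact h (congrArg Sigma.fst h2)

theorem zz_comp {m : ℕ} (e : ((g : Fin K) × Fin (sz g)) ≃ Fin n)
    (κ : ∀ g, Fin m → Fin (sz g + 1)) (i : Fin m) (g : Fin K) :
    (zz e κ i) ∘ (fun i' : Fin (sz g) => e ⟨g, i'⟩) = ww (sz g) (κ g i) := by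
  funext i'
  let F : ((g : Fin K) × Fin (sz g)) → ℂ := fun x => ww (sz x.1) (κ x.1 i) x.2
  change F (e.symm (e ⟨g, i'⟩)) = F ⟨g, i'⟩
  rw [Equiv.symm_apply_apply]

theorem pderiv_same {m : ℕ} (e : ((g : Fin K) × Fin (sz g)) ≃ Fin n)
    (κ : ∀ g, Fin m → Fin (sz g + 1)) (i : Fin m) (g : Fin K) (k : Fin (sz g))
    (w : Fin (sz g + 1)) :
    eval (zz e κ i) (pderiv (e ⟨g, k⟩) (ug e g w)) =
      eval (ww (sz g) (κ g i)) (pderiv k (uu (sz g) w)) := by
  unfold ug
  rw [pderiv_rename (inj e g) k, eval_rename, zz_comp]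

end GRaux

open _root_.Pool.Agent.WarQ.GRaux

theorem x_GR (h0 : S_D0) (h1 : S_D1) (hP : S_PROD) : S_GR := by
  intro n K m b sz e κ a f hsz hdeg hv hfull
  have key : ∀ j, ∃ γ : ∀ g, Fin (sz g + 1) → ℂ,
      f j = ∑ g, ∑ w, C (γ g w) * ug e g w := by
    intro j
    obtain ⟨G, hG1, hG2⟩ := hP (Fin K) sz (fun g => BL (sz g)) (fun g => (h1 (sz g) (hsz g)).1)
      (rename e.symm (f j)) ((totalDegree_rename_le _ _).trans (hdeg j)) (by
        intro p hp
        rw [eval_rename]
        apply hv j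
        intro g
        have : (fun i => ((fun v : (g : Fin K) × Fin (sz g) => p v.1 v.2) ∘ e.symm) (e ⟨g, i⟩)) =
            p g := by
          funext i
          let F : ((g : Fin K) × Fin (sz g)) → ℂ := fun v => p v.1 v.2
          change F (e.symm (e ⟨g, i⟩)) = F ⟨g, i⟩
          rw [Equiv.symm_apply_apply]
        rw [this]
        exact hp g)
    have hex : ∀ g, ∃ γ : Fin (sz g + 1) → ℂ, G g = ∑ l, C (γ l) * uu (sz g) l := fun g =>
      (h1 (sz g) (hsz g)).2 (G g) (hG1 g).1 (hG1 g).2
    choose γ hγ using hex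
    refine ⟨γ, ?_⟩
    have h2 : f j = rename e (rename e.symm (f j)) := by
      rw [rename_rename]
      simp
    rw [h2, hG2, map_sum]
    refine Finset.sum_congr rfl fun g _ => ?_
    rw [hγ g, rename_rename, map_sum]
    refine Finset.sum_congr rfl fun w _ => ?_
    rw [map_mul, rename_C]
    rfl
  choose γ' hγ' using key
  refine ⟨fun g w j => γ' j g w, hγ', ?_⟩
  intro g w i hne
  refine (h0 (sz g)).2.2.2.2.1 (κ g i) (fun l => ∑ j, a i j * γ' j g l) ?_ w (fun h => hne h.symm)
  intro k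
  have h3 := hfull i (e ⟨g, k⟩)
  rw [← h3]
  have h4 : ∀ j, eval (zz e κ i) (pderiv (e ⟨g, k⟩) (f j)) =
      ∑ l, γ' j g l * eval (ww (sz g) (κ g i)) (pderiv k (uu (sz g) l)) := by
    intro j
    rw [hγ' j, map_sum, map_sum, Finset.sum_eq_single g]
    · rw [map_sum, map_sum]
      refine Finset.sum_congr rfl fun l _ => ?_
      rw [pderiv_C_mul, map_mul, eval_C, pderiv_same]
    · intro g' _ hg'
      rw [map_sum, map_sum]
      refine Finset.sum_eq_zero fun l _ => ?_
      rw [pderiv_C_mul, pderiv_other e hg', mul_zero, map_zero]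
    · intro h
      exact absurd (Finset.mem_univ _) h
  have h5 : ∑ j, a i j * eval (zz e κ i) (pderiv (e ⟨g, k⟩) (f j)) =
      ∑ j, ∑ l, a i j * (γ' j g l * eval (ww (sz g) (κ g i)) (pderiv k (uu (sz g) l))) := by
    refine Finset.sum_congr rfl fun j _ => ?_
    rw [h4 j, Finset.mul_sum]
  rw [h5, Finset.sum_comm]
  refine Finset.sum_congr rfl fun l _ => ?_
  rw [Finset.sum_mul]
  refine Finset.sum_congr rfl fun j _ => ?_
  ring

end Pool.Agent.WarQ


end

section

/-!
# Computations with the explicit quadrics (module LG)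
-/

set_option autoImplicit false

open Module MvPolynomial
open Pool.Agent.War Pool.Agent.WarS

namespace Pool.Agent.WarQ

namespace LGaux

variable {D k : ℕ}

theorem eval_qq (γ₁ : Fin k → ℂ) (γ₂ : Fin D → ℂ) (p : Fin D ⊕ Fin k → ℂ) :
    eval p (qq γ₁ γ₂) = (∑ i : Fin k, γ₁ i * (p (Sum.inr i) *
      (1 - ∑ j : Fin D, hh i j * p (Sum.inl j) - p (Sum.inr i)))) +
      ∑ j : Fin D, γ₂ j * (p (Sum.inl j) * ∑ i : Fin k, hh i j * p (Sum.inr i)) := by
  unfold qq
  simp only [map_add, map_sum, map_mul, map_sub, map_one, eval_C, eval_X]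

theorem eval_inr (γ₁ : Fin k → ℂ) (γ₂ : Fin D → ℂ) (p : Fin D ⊕ Fin k → ℂ) (t : Fin k) :
    eval p (pderiv (Sum.inr t) (qq γ₁ γ₂)) =
      γ₁ t * (1 - (∑ j : Fin D, hh t j * p (Sum.inl j)) - 2 * p (Sum.inr t)) +
      ∑ j : Fin D, γ₂ j * (p (Sum.inl j) * hh t j) := by
  unfold qq
  simp only [map_add, map_sum, Derivation.leibniz, map_sub, pderiv_C, pderiv_X, map_one,
    Derivation.map_one_eq_zero, smul_eq_mul, map_mul, eval_C, eval_X, map_zero, mul_zero,
    add_zero, Pi.single_apply, apply_ite (eval p), Sum.inl.injEq, Sum.inr.injEq, reduceCtorEq,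
    if_false, Finset.sum_const_zero, mul_ite, mul_one, Finset.sum_ite_eq', Finset.mem_univ, if_true]
  congr 1
  rw [Finset.sum_eq_single t]
  · rw [if_pos rfl, if_pos rfl]
    ring
  · intro x _ hx
    rw [if_neg hx, if_neg hx]
    ring
  · intro h
    exact absurd (Finset.mem_univ t) h

theorem eval_inl (γ₁ : Fin k → ℂ) (γ₂ : Fin D → ℂ) (p : Fin D ⊕ Fin k → ℂ) (t : Fin D) :
    eval p (pderiv (Sum.inl t) (qq γ₁ γ₂)) =
      (- ∑ i : Fin k, γ₁ i * (p (Sum.inr i) * hh i t)) +
      γ₂ t * ∑ i : Fin k, hh i t * p (Sum.inr i) := by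
  unfold qq
  simp only [map_add, map_sum, Derivation.leibniz, map_sub, pderiv_C, pderiv_X, map_one,
    Derivation.map_one_eq_zero, smul_eq_mul, map_mul, eval_C, eval_X, map_zero, mul_zero,
    add_zero, Pi.single_apply, apply_ite (eval p), Sum.inl.injEq, Sum.inr.injEq, reduceCtorEq,
    if_false, Finset.sum_const_zero, mul_ite, mul_one, Finset.sum_ite_eq', Finset.mem_univ, if_true]
  congr 1
  · rw [← Finset.sum_neg_distrib]
    refine Finset.sum_congr rfl fun i _ => ?_
    ring
  · rw [Finset.sum_eq_single t]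
    · rw [if_pos rfl]
      ring
    · intro x _ hx
      rw [if_neg hx]
      ring
    · intro h
      exact absurd (Finset.mem_univ t) h

/-! ### numbers -/

theorem hh_cast (i j : ℕ) : hh i j = (((i : ℝ) + (j : ℝ) + 1)⁻¹ : ℝ) := by
  unfold hh
  push_cast
  rfl

theorem hh_ne (i j : ℕ) : hh i j ≠ 0 := by
  rw [hh_cast]
  have : (((i : ℝ) + (j : ℝ) + 1)⁻¹ : ℝ) ≠ 0 := by positivity
  exact_mod_cast this

theorem sq_ne (i i' j : ℕ) : hh i j ^ 2 + hh i' j ^ 2 ≠ 0 := by
  rw [hh_cast, hh_cast]
  have : ((((i : ℝ) + (j : ℝ) + 1)⁻¹ : ℝ)) ^ 2 + ((((i' : ℝ) + (j : ℝ) + 1)⁻¹ : ℝ)) ^ 2 ≠ 0 := by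
    positivity
  exact_mod_cast this

/-- the number `ξ` -/
noncomputable def xi (i j : ℕ) : ℂ :=
  (hh 0 j + hh (i + 1) j) / (hh 0 j ^ 2 + hh (i + 1) j ^ 2)

theorem xi_mul (i j : ℕ) :
    xi i j * (hh 0 j ^ 2 + hh (i + 1) j ^ 2) = hh 0 j + hh (i + 1) j :=
  div_mul_cancel₀ _ (sq_ne 0 (i + 1) j)

theorem sum_ne (i j : ℕ) : hh 0 j + hh (i + 1) j ≠ 0 := by
  rw [hh_cast, hh_cast]
  have : ((((0 : ℕ) : ℝ) + (j : ℝ) + 1)⁻¹ : ℝ) + (((((i + 1 : ℕ) : ℝ)) + (j : ℝ) + 1)⁻¹ : ℝ) ≠ 0 := by
    positivity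
  exact_mod_cast this

theorem xi_ne (i j : ℕ) : xi i j ≠ 0 := div_ne_zero (sum_ne i j) (sq_ne 0 (i + 1) j)

theorem inv_hh (i j : ℕ) : hh i j * ((i : ℂ) + (j : ℂ) + 1) = 1 := by
  unfold hh
  apply inv_mul_cancel₀
  have : ((i : ℝ) + (j : ℝ) + 1 : ℝ) ≠ 0 := by positivity
  exact_mod_cast this

/-- `hh 1 j ≠ hh 0 j` -/
theorem ab_ne (j : ℕ) : hh 1 j - hh 0 j ≠ 0 := by
  intro h
  have h0 := inv_hh 0 j
  have h1 := inv_hh 1 j
  have h2 : hh 1 j = 0 := by
    push_cast at h0 h1
    linear_combination h1 - h0 - ((0 : ℂ) + j + 1) * h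
  exact hh_ne 1 j h2

/-- `y_0` at the point `pb j 0` -/
theorem y0 (j : ℕ) : (1 - xi 0 j * hh 0 j) * (hh 0 j ^ 2 + hh 1 j ^ 2) =
    hh 1 j * (hh 1 j - hh 0 j) := by
  have h := xi_mul 0 j
  rw [zero_add] at h
  linear_combination (- hh 0 j) * h

theorem y1 (j : ℕ) : (1 - xi 0 j * hh 1 j) * (hh 0 j ^ 2 + hh 1 j ^ 2) =
    hh 0 j * (hh 0 j - hh 1 j) := by
  have h := xi_mul 0 j
  rw [zero_add] at h
  linear_combination (- hh 1 j) * h

theorem y0_ne (j : ℕ) : 1 - xi 0 j * hh 0 j ≠ 0 := by
  intro h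
  have h1 := y0 j
  rw [h, zero_mul] at h1
  exact mul_ne_zero (hh_ne 1 j) (ab_ne j) h1.symm

theorem y1_ne (j : ℕ) : 1 - xi 0 j * hh 1 j ≠ 0 := by
  intro h
  have h1 := y1 j
  rw [h, zero_mul] at h1
  refine mul_ne_zero (hh_ne 0 j) ?_ h1.symm
  intro h2
  apply ab_ne j
  linear_combination -h2

/-- the bracket in direction `x_l`, `l ≠ j` -/
theorem br_ne (l j : ℕ) (hlj : l ≠ j) :
    hh 0 l * (1 - xi 0 j * hh 0 j) + hh 1 l * (1 - xi 0 j * hh 1 j) ≠ 0 := by
  intro h
  have h1 := y0 j
  have h2 := y1 j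
  have h3 : (hh 1 j - hh 0 j) * (hh 0 l * hh 1 j - hh 1 l * hh 0 j) = 0 := by
    linear_combination (hh 0 j ^ 2 + hh 1 j ^ 2) * h - hh 0 l * h1 - hh 1 l * h2
  have h4 := (mul_eq_zero.mp h3).resolve_left (ab_ne j)
  have a1 := inv_hh 0 l
  have a2 := inv_hh 1 l
  have a3 := inv_hh 0 j
  have a4 := inv_hh 1 j
  push_cast at a1 a2 a3 a4
  have h5 : (j : ℂ) - l = 0 := by
    have e : (hh 0 l * ((0 : ℂ) + l + 1)) * (hh 1 j * (1 + j + 1)) * ((1 + l + 1) * (0 + j + 1)) -
        (hh 1 l * ((1 : ℂ) + l + 1)) * (hh 0 j * (0 + j + 1)) * ((0 + l + 1) * (1 + j + 1)) = 0 := by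
      linear_combination (((0 : ℂ) + l + 1) * (1 + j + 1) * ((1 + l + 1) * (0 + j + 1))) * h4
    rw [a1, a2, a3, a4] at e
    linear_combination e
  apply hlj
  have h6 : (j : ℂ) = (l : ℂ) := sub_eq_zero.mp h5
  exact (Nat.cast_injective h6).symm

/-- `1 - ξ hh t j ≠ 0` for `t ≥ 2` -/
theorem yt_ne (t j : ℕ) (ht : 2 ≤ t) : 1 - xi 0 j * hh t j ≠ 0 := by
  intro h
  have a1 := inv_hh 0 j
  have a2 := inv_hh 1 j
  have a3 := inv_hh t j
  have h1 := xi_mul 0 j
  rw [zero_add] at h1
  push_cast at a1 a2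
  -- `a² + b² = (a + b) h`
  have h2 : hh 0 j ^ 2 + hh 1 j ^ 2 = (hh 0 j + hh 1 j) * hh t j := by
    linear_combination (hh 0 j ^ 2 + hh 1 j ^ 2) * h + hh t j * h1
  have e : (hh 0 j * ((0 : ℂ) + j + 1)) ^ 2 * ((1 : ℂ) + j + 1) ^ 2 * ((t : ℂ) + j + 1) +
      (hh 1 j * ((1 : ℂ) + j + 1)) ^ 2 * ((0 : ℂ) + j + 1) ^ 2 * ((t : ℂ) + j + 1) -
      ((hh 0 j * ((0 : ℂ) + j + 1)) * (1 + j + 1) + (hh 1 j * ((1 : ℂ) + j + 1)) * (0 + j + 1)) *
        ((0 : ℂ) + j + 1) * (1 + j + 1) * (hh t j * ((t : ℂ) + j + 1)) = 0 := by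
    linear_combination (((0 : ℂ) + j + 1) ^ 2 * (1 + j + 1) ^ 2 * ((t : ℂ) + j + 1)) * h2
  rw [a1, a2, a3] at e
  have e2 : ((t * (2 * (j + 1) ^ 2 + 2 * (j + 1) + 1) : ℕ) : ℂ) = (((j + 1) ^ 2 : ℕ) : ℂ) := by
    push_cast
    linear_combination e
  have e3 : t * (2 * (j + 1) ^ 2 + 2 * (j + 1) + 1) = (j + 1) ^ 2 := Nat.cast_injective e2
  nlinarith [Nat.zero_le j, Nat.zero_le ((j + 1) ^ 2)]

/-! ### the points -/

theorem pb_inl {D k : ℕ} (j : Fin D) (i : Fin (k + 1)) (l : Fin D) :
    pb j i (Sum.inl l) = if l = j then xi i j else 0 := rfl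

theorem pb_inr {D k : ℕ} (j : Fin D) (i : Fin (k + 1)) (t : Fin (k + 2)) :
    pb j i (Sum.inr t) = if t = 0 then 1 - xi i j * hh 0 j
      else if t.val = i.val + 1 then 1 - xi i j * hh (i.val + 1) j else 0 := rfl

theorem sum_pb {D k : ℕ} (j : Fin D) (i : Fin (k + 1)) (f : Fin D → ℂ) :
    ∑ l : Fin D, f l * pb j i (Sum.inl l) = f j * xi i j := by
  rw [Finset.sum_eq_single j]
  · rw [pb_inl, if_pos rfl]
  · intro l _ hl
    rw [pb_inl, if_neg hl, mul_zero]
  · intro h
    exact absurd (Finset.mem_univ j) h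

theorem sum_pb' {D k : ℕ} (j : Fin D) (i : Fin (k + 1)) (f : Fin (k + 2) → ℂ) :
    ∑ t : Fin (k + 2), f t * pb j i (Sum.inr t) =
      f 0 * (1 - xi i j * hh 0 j) + f i.succ * (1 - xi i j * hh (i.val + 1) j) := by
  rw [Fin.sum_univ_succ, Finset.sum_eq_single i]
  · rw [pb_inr, if_pos rfl, pb_inr, if_neg (Fin.succ_ne_zero i), if_pos (Fin.val_succ i)]
  · intro t _ ht
    have h1 : (t.succ).val ≠ i.val + 1 := by
      rw [Fin.val_succ]
      intro e
      exact ht (Fin.ext (by omega))
    rw [pb_inr, if_neg (Fin.succ_ne_zero t), if_neg h1, mul_zero]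
  · intro h
    exact absurd (Finset.mem_univ i) h

end LGaux

open _root_.Pool.Agent.WarQ.LGaux

theorem x_LG : S_LG := by
  intro D k γ₁ γ₂
  refine ⟨⟨?_, ?_, ?_⟩, ?_, ?_⟩
  · intro i l
    rw [eval_qq]
    have h1 : ∀ j : Fin D, pa (D := D) i l (Sum.inl j) = 0 := fun j => rfl
    have h2 : ∀ t, pa (D := D) i l (Sum.inr t) = if t = i ∨ t = l then 1 else 0 := fun t => rfl
    simp only [h1, h2, mul_zero, zero_mul, Finset.sum_const_zero, sub_zero, add_zero]
    refine Finset.sum_eq_zero fun t _ => ?_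
    by_cases h : t = i ∨ t = l
    · rw [if_pos h]
      ring
    · rw [if_neg h]
      ring
  · intro j i
    rw [eval_qq]
    have hA : ∀ t : Fin (k + 2), (pb j i (Sum.inr t) * (1 - ∑ l : Fin D, hh t l *
        pb j i (Sum.inl l) - pb j i (Sum.inr t))) = 0 := by
      intro t
      rw [sum_pb j i (fun l => hh t l), pb_inr]
      by_cases h0 : t = 0
      · rw [if_pos h0, h0]
        have : ((0 : Fin (k + 2)) : ℕ) = 0 := rfl
        rw [this]
        ring
      · rw [if_neg h0]
        by_cases h1 : t.val = i.val + 1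
        · rw [if_pos h1, h1]
          ring
        · rw [if_neg h1]
          ring
    have hB : ∀ l : Fin D, pb j i (Sum.inl l) * ∑ t : Fin (k + 2), hh t l *
        pb j i (Sum.inr t) = 0 := by
      intro l
      rw [pb_inl]
      by_cases h : l = j
      · rw [if_pos h, h, sum_pb' j i (fun t => hh t j)]
        have h1 := xi_mul i j
        have h2 : ((0 : Fin (k + 2)) : ℕ) = 0 := rfl
        have h3 : ((i.succ : Fin (k + 2)) : ℕ) = i.val + 1 := rfl
        simp only [h2, h3]
        linear_combination (- xi i j) * h1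
      · rw [if_neg h, zero_mul]
    simp only [hA, hB, mul_zero, Finset.sum_const_zero, add_zero]
  · intro x
    rw [eval_qq]
    simp
  · intro x i
    rw [eval_inr]
    simp only [Sum.elim_inl, Sum.elim_inr, Pi.zero_apply, mul_zero, sub_zero]
    congr 1
    refine Finset.sum_congr rfl fun j _ => ?_
    ring
  · intro j hv
    have hr : ∀ t : Fin (k + 2), γ₁ t * (1 - hh t j * xi 0 j - 2 * pb j (0 : Fin (k + 1))
        (Sum.inr t)) + γ₂ j * (hh t j * xi 0 j) = 0 := by
      intro t
      have h := hv (Sum.inr t)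
      rw [eval_inr, sum_pb j 0 (fun l => hh t l)] at h
      have h2 : ∑ l : Fin D, γ₂ l * (pb j (0 : Fin (k + 1)) (Sum.inl l) * hh t l) =
          γ₂ j * (hh t j * xi 0 j) := by
        have := sum_pb j (0 : Fin (k + 1)) (fun l => γ₂ l * hh t l)
        refine (Finset.sum_congr rfl fun l _ => ?_).trans (this.trans (mul_assoc _ _ _))
        ring
      rw [h2] at h
      exact h
    have hl : ∀ l : Fin D, - (γ₁ 0 * hh 0 l * (1 - xi 0 j * hh 0 j) +
        γ₁ 1 * hh 1 l * (1 - xi 0 j * hh 1 j)) +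
        γ₂ l * (hh 0 l * (1 - xi 0 j * hh 0 j) + hh 1 l * (1 - xi 0 j * hh 1 j)) = 0 := by
      intro l
      have h := hv (Sum.inl l)
      rw [eval_inl, sum_pb' j 0 (fun t => hh t l)] at h
      have h2 : ∑ t : Fin (k + 2), γ₁ t * (pb j (0 : Fin (k + 1)) (Sum.inr t) * hh t l) =
          γ₁ 0 * hh 0 l * (1 - xi 0 j * hh 0 j) + γ₁ 1 * hh 1 l * (1 - xi 0 j * hh 1 j) := by
        have := sum_pb' j (0 : Fin (k + 1)) (fun t => γ₁ t * hh t l)
        exact (Finset.sum_congr rfl fun t _ => by ring).trans this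
      rw [h2] at h
      exact h
    have hj := hl j
    have h0 := hr 0
    have h1 := hr 1
    have v0 : pb j (0 : Fin (k + 1)) (Sum.inr (0 : Fin (k + 2))) = 1 - xi 0 j * hh 0 j := rfl
    have v1 : pb j (0 : Fin (k + 1)) (Sum.inr (1 : Fin (k + 2))) = 1 - xi 0 j * hh 1 j := rfl
    have w0 : ((0 : Fin (k + 2)) : ℕ) = 0 := rfl
    have w1 : ((1 : Fin (k + 2)) : ℕ) = 1 := rfl
    rw [v0, w0] at h0
    rw [v1, w1] at h1
    have hx := xi_mul 0 j
    rw [zero_add] at hx
    have hg : γ₂ j * (hh 0 j + hh 1 j) = 0 := by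
      linear_combination (-1) * hj + hh 0 j * h0 + hh 1 j * h1 - 2 * γ₂ j * hx
    have hsum := sum_ne 0 j
    rw [zero_add] at hsum
    have hγj : γ₂ j = 0 := (mul_eq_zero.mp hg).resolve_right hsum
    rw [hγj] at h0 h1
    have hγ0 : γ₁ 0 = 0 := by
      have : γ₁ 0 * (1 - xi 0 j * hh 0 j) = 0 := by linear_combination (-1) * h0
      exact (mul_eq_zero.mp this).resolve_right (y0_ne j)
    have hγ1 : γ₁ 1 = 0 := by
      have : γ₁ 1 * (1 - xi 0 j * hh 1 j) = 0 := by linear_combination (-1) * h1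
      exact (mul_eq_zero.mp this).resolve_right (y1_ne j)
    constructor
    · funext t
      rw [Pi.zero_apply]
      by_cases ht : 2 ≤ t.val
      · have h := hr t
        have vt : pb j (0 : Fin (k + 1)) (Sum.inr t) = 0 := by
          rw [pb_inr, if_neg, if_neg]
          · show ¬ t.val = 0 + 1
            omega
          · intro e
            rw [e] at ht
            exact absurd ht (by show ¬ 2 ≤ 0; omega)
        rw [vt, hγj] at h
        have h' : γ₁ t * (1 - xi 0 j * hh t j) = 0 := by linear_combination h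
        exact (mul_eq_zero.mp h').resolve_right (yt_ne t j ht)
      · have ht' : t = 0 ∨ t = 1 := by
          have h3 : t.val = 0 ∨ t.val = 1 := by omega
          rcases h3 with h3 | h3
          · left
            exact Fin.ext h3
          · right
            exact Fin.ext h3
        rcases ht' with rfl | rfl
        · exact hγ0
        · exact hγ1
    · funext l
      rw [Pi.zero_apply]
      by_cases h : l = j
      · rw [h]
        exact hγj
      · have h2 := hl l
        rw [hγ0, hγ1] at h2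
        have h' : γ₂ l * (hh 0 l * (1 - xi 0 j * hh 0 j) +
            hh 1 l * (1 - xi 0 j * hh 1 j)) = 0 := by
          linear_combination h2
        exact (mul_eq_zero.mp h').resolve_right (br_ne l j fun e => h (Fin.ext e))

end Pool.Agent.WarQ


end

section

/-!
# Module T: assembly of the first model
-/

set_option autoImplicit false

namespace Pool.Agent.WarQ

theorem x_T (hA : S_TA) (hB : S_TB) (hCA : S_CA) (hCB : S_CB) : S_T := by
  intro n b c D hc hcb hbn h1 h2 h3
  have hcD : c ≤ D := by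
    have h4 : b * c < b * (D + 1) :=
      lt_of_le_of_lt (Nat.mul_le_mul_right c hbn) h2
    have := Nat.lt_of_mul_lt_mul_left h4
    omega
  have hcc : c * c ≤ b := by
    have h4 : c * c ≤ D * D := Nat.mul_le_mul hcD hcD
    have h5 : 2 * D * D = D * D + D * D := by ring
    omega
  by_cases h : D * ((b + c - 1) / c) ≤ n
  · obtain ⟨sz, κ, k1, k2, k3, k4⟩ :=
      hCA n b c D hc hcb (by omega) (fun hD => by omega) hcc h
    exact hA n b c D sz κ (by omega) (by omega) k1 k2 k3 k4
  · obtain ⟨sz, κ, E, k1, k2, k3, k4, k5, k6⟩ :=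
      hCB n b c D hc hcb hbn h1 h2 h3 (by omega)
    exact hB n b c D sz κ E (by omega) k1 k2 k3 k4 k5 k6

end Pool.Agent.WarQ


end

section

/-!
# Simultaneous Waring decompositions (MP_db021c_ag), cubics: decoupled differential Horace   (helper71)

For `t ≠ 0` write `f = t ρ + x₀ g`; the conditions on `(ρ, g)` are polynomial in `t`, and at `t = 0`
the solutions have `ρ = 0` and `g` in the residual space.
-/

set_option autoImplicit false

open Module MvPolynomial
open Pool.Agent.War Pool.Agent.WarS Pool.Agent.WarQ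

namespace Pool.Agent.WarC

namespace DHCaux

open Pool.Agent.WarS.DHaux (el pd el_apply pd_apply res_rename pderiv_zero_rename LP_id LP_neg
  LP_cons eval_rename_succ eval_cons_rename eval_hp_rename pderiv_succ_rename pderiv_zero_X_mul
  pderiv_succ_X_mul)

/-- the unknowns -/
abbrev VW (n s : ℕ) : Type := (Fin s → Pol n 3) × (Fin s → Pol (n + 1) 2)

/-- the component without `x₀` -/
noncomputable def rh {n s : ℕ} (j : Fin s) : VW n s →ₗ[ℂ] MvPolynomial (Fin n) ℂ :=
  (Pol n 3).subtype ∘ₗ LinearMap.proj j ∘ₗ LinearMap.fst ℂ _ _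

/-- the component divisible by `x₀` -/
noncomputable def gq {n s : ℕ} (j : Fin s) : VW n s →ₗ[ℂ] MvPolynomial (Fin (n + 1)) ℂ :=
  (Pol (n + 1) 2).subtype ∘ₗ LinearMap.proj j ∘ₗ LinearMap.snd ℂ _ _

/-- polynomials in `x_1, …` as polynomials in `x_0, x_1, …` -/
noncomputable def liftL (n d : ℕ) : Pol n d →ₗ[ℂ] Pol (n + 1) d :=
  (rename Fin.succ : MvPolynomial (Fin n) ℂ →ₐ[ℂ] MvPolynomial (Fin (n + 1)) ℂ).toLinearMap.restrict
    fun f hf => by
      rw [mem_Pol] at hf ⊢
      exact (totalDegree_rename_le _ _).trans hf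

@[simp] theorem liftL_coe (n d : ℕ) (f : Pol n d) :
    ((liftL n d f : Pol (n + 1) d) : MvPolynomial (Fin (n + 1)) ℂ) =
      rename Fin.succ (f : MvPolynomial (Fin n) ℂ) := rfl

/-- the polynomials `t ρ_j + x₀ g_j` -/
noncomputable def Ph (n s : ℕ) (t : ℂ) : VW n s →ₗ[ℂ] (Fin s → Pol (n + 1) 3) :=
  LinearMap.pi fun j => t • (liftL n 3 ∘ₗ LinearMap.proj j ∘ₗ LinearMap.fst ℂ _ _) +
    mulX n 2 ∘ₗ LinearMap.proj j ∘ₗ LinearMap.snd ℂ _ _

/-- the polynomial `t ρ_j + x₀ g_j` -/
noncomputable def fq {n s : ℕ} (t : ℂ) (j : Fin s) :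
    VW n s →ₗ[ℂ] MvPolynomial (Fin (n + 1)) ℂ :=
  t • ((rename Fin.succ : MvPolynomial (Fin n) ℂ →ₐ[ℂ] MvPolynomial (Fin (n + 1)) ℂ).toLinearMap ∘ₗ
    rh j) + LinearMap.mulLeft ℂ (X 0 : MvPolynomial (Fin (n + 1)) ℂ) ∘ₗ gq j

@[simp] theorem rh_apply {n s : ℕ} (j : Fin s) (v : VW n s) :
    rh j v = (v.1 j : MvPolynomial (Fin n) ℂ) := rfl

@[simp] theorem gq_apply {n s : ℕ} (j : Fin s) (v : VW n s) :
    gq j v = (v.2 j : MvPolynomial (Fin (n + 1)) ℂ) := rfl

@[simp] theorem fq_apply {n s : ℕ} (t : ℂ) (j : Fin s) (v : VW n s) :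
    fq t j v = t • rename Fin.succ (v.1 j : MvPolynomial (Fin n) ℂ) +
      X 0 * (v.2 j : MvPolynomial (Fin (n + 1)) ℂ) := rfl

theorem Ph_coe {n s : ℕ} (t : ℂ) (j : Fin s) (v : VW n s) :
    ((Ph n s t v j : Pol (n + 1) 3) : MvPolynomial (Fin (n + 1)) ℂ) = fq t j v := rfl

section

variable {n s : ℕ} {I U Y : Type}

/-- the conditions on `(ρ, g)` -/
structure Cd (w : I → Fin (n + 1) → ℂ) (b : I → Fin s → ℂ) (z : U → Fin n → ℂ)
    (a : U → Fin s → ℂ) (y : Y → Fin n → ℂ) (α : Y → Fin s → ℂ) (t : ℂ) (x : VW n s) : Prop where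
  c1 : ∀ i j, eval (w i) (fq t j x) = 0
  c2 : ∀ i k, ∑ j, b i j * eval (w i) (pderiv k (fq t j x)) = 0
  b1 : ∀ i j, eval (z i) (x.1 j : MvPolynomial (Fin n) ℂ) = 0
  b2 : ∀ i k, ∑ j, a i j * eval (z i) (pderiv k (x.1 j : MvPolynomial (Fin n) ℂ)) = 0
  b3 : ∀ i, ∑ j, a i j * eval (hp (z i)) (x.2 j : MvPolynomial (Fin (n + 1)) ℂ) = 0
  e1 : ∀ i j, eval (y i) (x.1 j : MvPolynomial (Fin n) ℂ) +
    eval (Fin.cons t (y i) : Fin (n + 1) → ℂ) (x.2 j : MvPolynomial (Fin (n + 1)) ℂ) = 0
  e2 : ∀ i (k : Fin n), ∑ j, α i j * (eval (y i) (pderiv k (x.1 j : MvPolynomial (Fin n) ℂ)) +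
    eval (Fin.cons t (y i) : Fin (n + 1) → ℂ)
      (pderiv k.succ (x.2 j : MvPolynomial (Fin (n + 1)) ℂ))) = 0
  e3 : ∀ i, ∑ j, α i j * (eval (y i) (x.1 j : MvPolynomial (Fin n) ℂ) +
    (-t) * eval (Fin.cons t (y i) : Fin (n + 1) → ℂ)
      (pderiv 0 (x.2 j : MvPolynomial (Fin (n + 1)) ℂ))) = 0

/-- the family of the solution spaces -/
theorem exists_PK [Finite I] [Finite U] [Finite Y] (w : I → Fin (n + 1) → ℂ)
    (b : I → Fin s → ℂ) (z : U → Fin n → ℂ) (a : U → Fin s → ℂ) (y : Y → Fin n → ℂ)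
    (α : Y → Fin s → ℂ) :
    ∃ Z : ℂ → Submodule ℂ (VW n s), PK Z ∧ ∀ t x, x ∈ Z t ↔ Cd w b z a y α t x := by
  have hconst : ∀ φ : VW n s →ₗ[ℂ] ℂ, PK fun _ : ℂ => LinearMap.ker φ := fun φ =>
    PK.one (φ := fun _ : ℂ => φ) fun x => LP.const _
  have B1 : PK fun _ : ℂ => ⨅ q : U × Fin s,
      LinearMap.ker (el (z q.1) ∘ₗ (rh q.2 : VW n s →ₗ[ℂ] _)) :=
    PK.iInf fun q => hconst _
  have B2 : PK fun _ : ℂ => ⨅ q : U × Fin n,
      LinearMap.ker (∑ j, a q.1 j • (el (z q.1) ∘ₗ pd q.2 ∘ₗ (rh j : VW n s →ₗ[ℂ] _))) :=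
    PK.iInf fun q => hconst _
  have B3 : PK fun _ : ℂ => ⨅ q : U,
      LinearMap.ker (∑ j, a q j • (el (hp (z q)) ∘ₗ (gq j : VW n s →ₗ[ℂ] _))) :=
    PK.iInf fun q => hconst _
  have C1 : PK fun t : ℂ => ⨅ q : I × Fin s,
      LinearMap.ker (el (w q.1) ∘ₗ (fq t q.2 : VW n s →ₗ[ℂ] _)) := by
    refine PK.iInf fun q => PK.one
      (φ := fun t : ℂ => el (w q.1) ∘ₗ (fq t q.2 : VW n s →ₗ[ℂ] _)) fun x => ?_
    simp only [LinearMap.comp_apply, el_apply, fq_apply, map_add, smul_eval]
    exact (LP_id.mul (LP.const _)).add (LP.const _)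
  have C2 : PK fun t : ℂ => ⨅ q : I × Fin (n + 1),
      LinearMap.ker (∑ j, b q.1 j • (el (w q.1) ∘ₗ pd q.2 ∘ₗ (fq t j : VW n s →ₗ[ℂ] _))) := by
    refine PK.iInf fun q => PK.one
      (φ := fun t : ℂ => ∑ j, b q.1 j • (el (w q.1) ∘ₗ pd q.2 ∘ₗ (fq t j : VW n s →ₗ[ℂ] _)))
      fun x => ?_
    simp only [LinearMap.sum_apply, LinearMap.smul_apply, LinearMap.comp_apply, el_apply, pd_apply,
      fq_apply, map_add, Derivation.map_smul, smul_eval, smul_eq_mul]
    exact LP.sum _ fun j _ => (LP.const _).mul ((LP_id.mul (LP.const _)).add (LP.const _))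
  have E1 : PK fun t : ℂ => ⨅ q : Y × Fin s,
      LinearMap.ker (el (y q.1) ∘ₗ (rh q.2 : VW n s →ₗ[ℂ] _) +
        el (Fin.cons t (y q.1) : Fin (n + 1) → ℂ) ∘ₗ (gq q.2 : VW n s →ₗ[ℂ] _)) := by
    refine PK.iInf fun q => PK.one
      (φ := fun t : ℂ => el (y q.1) ∘ₗ (rh q.2 : VW n s →ₗ[ℂ] _) +
        el (Fin.cons t (y q.1) : Fin (n + 1) → ℂ) ∘ₗ (gq q.2 : VW n s →ₗ[ℂ] _))
        fun x => ?_
    simp only [LinearMap.add_apply, LinearMap.comp_apply, el_apply, rh_apply, gq_apply]
    exact (LP.const _).add (LP_cons _ _)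
  have E2 : PK fun t : ℂ => ⨅ q : Y × Fin n,
      LinearMap.ker (∑ j, α q.1 j • (el (y q.1) ∘ₗ pd q.2 ∘ₗ (rh j : VW n s →ₗ[ℂ] _) +
        el (Fin.cons t (y q.1) : Fin (n + 1) → ℂ) ∘ₗ pd q.2.succ ∘ₗ
          (gq j : VW n s →ₗ[ℂ] _))) := by
    refine PK.iInf fun q => PK.one
      (φ := fun t : ℂ => ∑ j, α q.1 j • (el (y q.1) ∘ₗ pd q.2 ∘ₗ (rh j : VW n s →ₗ[ℂ] _) +
        el (Fin.cons t (y q.1) : Fin (n + 1) → ℂ) ∘ₗ pd q.2.succ ∘ₗ
          (gq j : VW n s →ₗ[ℂ] _))) fun x => ?_
    simp only [LinearMap.sum_apply, LinearMap.smul_apply, LinearMap.add_apply,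
      LinearMap.comp_apply, el_apply, pd_apply, rh_apply, gq_apply, smul_eq_mul]
    exact LP.sum _ fun j _ => (LP.const _).mul ((LP.const _).add (LP_cons _ _))
  have E3 : PK fun t : ℂ => ⨅ q : Y,
      LinearMap.ker (∑ j, α q j • (el (y q) ∘ₗ (rh j : VW n s →ₗ[ℂ] _) + (-t) •
        (el (Fin.cons t (y q) : Fin (n + 1) → ℂ) ∘ₗ pd 0 ∘ₗ (gq j : VW n s →ₗ[ℂ] _)))) := by
    refine PK.iInf fun q => PK.one
      (φ := fun t : ℂ => ∑ j, α q j • (el (y q) ∘ₗ (rh j : VW n s →ₗ[ℂ] _) + (-t) •
        (el (Fin.cons t (y q) : Fin (n + 1) → ℂ) ∘ₗ pd 0 ∘ₗ (gq j : VW n s →ₗ[ℂ] _))))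
        fun x => ?_
    simp only [LinearMap.sum_apply, LinearMap.smul_apply, LinearMap.add_apply,
      LinearMap.comp_apply, el_apply, pd_apply, rh_apply, gq_apply, smul_eq_mul]
    exact LP.sum _ fun j _ => (LP.const _).mul ((LP.const _).add (LP_neg.mul (LP_cons _ _)))
  refine ⟨_, ((B1.inf B2).inf B3).inf ((C1.inf C2).inf (E1.inf (E2.inf E3))), fun t x => ?_⟩
  simp only [Submodule.mem_inf, Submodule.mem_iInf, LinearMap.mem_ker, Prod.forall,
    LinearMap.comp_apply, LinearMap.add_apply, LinearMap.smul_apply, LinearMap.sum_apply,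
    el_apply, pd_apply, rh_apply, gq_apply, smul_eq_mul]
  constructor
  · rintro ⟨⟨⟨h1, h2⟩, h3⟩, ⟨h4, h5⟩, h6, h7, h8⟩
    exact ⟨h4, h5, h1, h2, h3, h6, h7, h8⟩
  · rintro ⟨h4, h5, h1, h2, h3, h6, h7, h8⟩
    exact ⟨⟨⟨h1, h2⟩, h3⟩, ⟨h4, h5⟩, h6, h7, h8⟩

/-- the solutions at `t = 0` -/
theorem of_cd_zero {w : I → Fin (n + 1) → ℂ} {b : I → Fin s → ℂ} {z : U → Fin n → ℂ}
    {a : U → Fin s → ℂ} {y : Y → Fin n → ℂ} {α : Y → Fin s → ℂ} (hw : ∀ i, w i 0 ≠ 0)
    (hT : TS n z a y α = ⊥) {x : VW n s} (h : Cd w b z a y α 0 x) :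
    x.1 = 0 ∧ x.2 ∈ RS n w b z a y α := by
  have hρ : x.1 = 0 := by
    have h1 : x.1 ∈ TS n z a y α := by
      unfold TS
      rw [Submodule.mem_inf, mem_FK, Submodule.mem_iInf]
      refine ⟨⟨h.b1, h.b2⟩, fun i => ?_⟩
      rw [LinearMap.mem_ker, om_apply]
      have h2 := h.e3 i
      simpa using h2
    rw [hT, Submodule.mem_bot] at h1
    exact h1
  refine ⟨hρ, ?_⟩
  have hoff : ∀ i j, eval (w i) (x.2 j : MvPolynomial (Fin (n + 1)) ℂ) = 0 := by
    intro i j
    have h1 := h.c1 i j
    rw [fq_apply, zero_smul, zero_add, map_mul, eval_X] at h1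
    exact (mul_eq_zero.1 h1).resolve_left (hw i)
  have hoff2 : ∀ i k, ∑ j, b i j *
      eval (w i) (pderiv k (x.2 j : MvPolynomial (Fin (n + 1)) ℂ)) = 0 := by
    intro i k
    have h1 := h.c2 i k
    have h2 : ∀ j, eval (w i) (pderiv k (fq 0 j x)) =
        w i 0 * eval (w i) (pderiv k (x.2 j : MvPolynomial (Fin (n + 1)) ℂ)) := by
      intro j
      rw [fq_apply, zero_smul, zero_add]
      refine Fin.cases ?_ (fun k => ?_) k
      · rw [pderiv_zero_X_mul, map_add, map_mul, eval_X, hoff, add_zero]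
      · rw [pderiv_succ_X_mul, map_mul, eval_X]
    simp only [h2] at h1
    have h3 : ∑ j, b i j * (w i 0 *
        eval (w i) (pderiv k (x.2 j : MvPolynomial (Fin (n + 1)) ℂ))) = w i 0 *
        ∑ j, b i j * eval (w i) (pderiv k (x.2 j : MvPolynomial (Fin (n + 1)) ℂ)) := by
      rw [Finset.mul_sum]
      exact Finset.sum_congr rfl fun j _ => by ring
    rw [h3] at h1
    exact (mul_eq_zero.1 h1).resolve_left (hw i)
  unfold RS
  rw [Submodule.mem_inf, mem_RV, mem_FK, Submodule.mem_iInf]
  refine ⟨⟨⟨hoff, hoff2⟩, fun i j => ?_, fun i k => ?_⟩, fun i => ?_⟩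
  · have h1 := h.e1 i j
    rw [hρ] at h1
    simpa [hp] using h1
  · have h1 := h.e2 i k
    rw [hρ] at h1
    simpa [hp] using h1
  · rw [LinearMap.mem_ker, om_apply]
    exact h.b3 i

/-- decomposition of `f` -/
theorem exists_dec {t : ℂ} (ht : t ≠ 0) (f : Fin s → Pol (n + 1) 3) :
    ∃ x : VW n s, Ph n s t x = f := by
  have h : ∀ j, ∃ g : MvPolynomial (Fin (n + 1)) ℂ, g.totalDegree ≤ 2 ∧
      (f j : MvPolynomial (Fin (n + 1)) ℂ) -
        rename Fin.succ (res n (f j : MvPolynomial (Fin (n + 1)) ℂ)) = X 0 * g := by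
    intro j
    have hf := mem_Pol.1 (f j).2
    refine exists_of_res ?_ ?_
    · refine (totalDegree_sub _ _).trans (max_le hf ?_)
      exact (totalDegree_rename_le _ _).trans ((res_totalDegree_le _).trans hf)
    · rw [map_sub, res_rename, sub_self]
  choose g hg1 hg2 using h
  refine ⟨(fun j => ⟨t⁻¹ • res n (f j : MvPolynomial (Fin (n + 1)) ℂ), ?_⟩,
    fun j => ⟨g j, mem_Pol.2 (hg1 j)⟩), funext fun j => Subtype.ext ?_⟩
  · exact (Pol n 3).smul_mem _ (mem_Pol.2 ((res_totalDegree_le _).trans (mem_Pol.1 (f j).2)))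
  · rw [Ph_coe, fq_apply, map_smul, smul_smul, mul_inv_cancel₀ ht, one_smul, ← hg2 j]
    ring

/-- the conditions on `f` give those on `(ρ, g)` -/
theorem cd_of_mem {w : I → Fin (n + 1) → ℂ} {b : I → Fin s → ℂ} {z : U → Fin n → ℂ}
    {a : U → Fin s → ℂ} {y : Y → Fin n → ℂ} {α : Y → Fin s → ℂ} {t : ℂ} (ht : t ≠ 0)
    {x : VW n s}
    (hx : Ph n s t x ∈ FK (n + 1) 3
      (Sum.elim w (Sum.elim (fun i => hp (z i)) fun i => (Fin.cons t (y i) : Fin (n + 1) → ℂ)))
      (Sum.elim b (Sum.elim a α))) : Cd w b z a y α t x := by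
  rw [mem_FK] at hx
  obtain ⟨k, k'⟩ := hx
  have k1 : ∀ i j, eval (w i) (fq t j x) = 0 := fun i j => k (Sum.inl i) j
  have k2 : ∀ i l, ∑ j, b i j * eval (w i) (pderiv l (fq t j x)) = 0 := fun i l =>
    k' (Sum.inl i) l
  have k5 : ∀ i j, eval (hp (z i)) (fq t j x) = 0 := fun i j => k (Sum.inr (Sum.inl i)) j
  have k6 : ∀ i l, ∑ j, a i j * eval (hp (z i)) (pderiv l (fq t j x)) = 0 := fun i l =>
    k' (Sum.inr (Sum.inl i)) l
  have k7 : ∀ i j, eval (Fin.cons t (y i) : Fin (n + 1) → ℂ) (fq t j x) = 0 := fun i j =>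
    k (Sum.inr (Sum.inr i)) j
  have k8 : ∀ i l, ∑ j, α i j *
      eval (Fin.cons t (y i) : Fin (n + 1) → ℂ) (pderiv l (fq t j x)) = 0 := fun i l =>
    k' (Sum.inr (Sum.inr i)) l
  -- on the hyperplane
  have H0 : ∀ (z : Fin n → ℂ) j, eval (hp z) (fq t j x) =
      t * eval z (x.1 j : MvPolynomial (Fin n) ℂ) := by
    intro z j
    rw [fq_apply, map_add, smul_eval, eval_hp_rename, map_mul, eval_X, hp_zero, zero_mul,
      add_zero]
  have H1 : ∀ (z : Fin n → ℂ) k j, eval (hp z) (pderiv (Fin.succ k) (fq t j x)) =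
      t * eval z (pderiv k (x.1 j : MvPolynomial (Fin n) ℂ)) := by
    intro z k j
    rw [fq_apply, map_add, Derivation.map_smul, pderiv_succ_rename, pderiv_succ_X_mul, map_add,
      smul_eval, eval_hp_rename, map_mul, eval_X, hp_zero, zero_mul, add_zero]
  have H2 : ∀ (z : Fin n → ℂ) j, eval (hp z) (pderiv 0 (fq t j x)) =
      eval (hp z) (x.2 j : MvPolynomial (Fin (n + 1)) ℂ) := by
    intro z j
    rw [fq_apply, map_add, Derivation.map_smul, pderiv_zero_rename, smul_zero, zero_add,
      pderiv_zero_X_mul, map_add, map_mul, eval_X, hp_zero, zero_mul, zero_add]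
  -- at the moving points
  have M0 : ∀ (z : Fin n → ℂ) j, eval (Fin.cons t z : Fin (n + 1) → ℂ) (fq t j x) =
      t * (eval z (x.1 j : MvPolynomial (Fin n) ℂ) +
        eval (Fin.cons t z : Fin (n + 1) → ℂ) (x.2 j : MvPolynomial (Fin (n + 1)) ℂ)) := by
    intro z j
    rw [fq_apply, map_add, smul_eval, eval_cons_rename, map_mul, eval_X, Fin.cons_zero]
    ring
  have M1 : ∀ (z : Fin n → ℂ) k j, eval (Fin.cons t z : Fin (n + 1) → ℂ)
      (pderiv (Fin.succ k) (fq t j x)) =
      t * (eval z (pderiv k (x.1 j : MvPolynomial (Fin n) ℂ)) +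
        eval (Fin.cons t z : Fin (n + 1) → ℂ)
          (pderiv k.succ (x.2 j : MvPolynomial (Fin (n + 1)) ℂ))) := by
    intro z k j
    rw [fq_apply, map_add, Derivation.map_smul, pderiv_succ_rename, pderiv_succ_X_mul, map_add,
      smul_eval, eval_cons_rename, map_mul, eval_X, Fin.cons_zero]
    ring
  have M2 : ∀ (z : Fin n → ℂ) j, eval (Fin.cons t z : Fin (n + 1) → ℂ) (pderiv 0 (fq t j x)) =
      eval (Fin.cons t z : Fin (n + 1) → ℂ) (x.2 j : MvPolynomial (Fin (n + 1)) ℂ) +
        t * eval (Fin.cons t z : Fin (n + 1) → ℂ)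
          (pderiv 0 (x.2 j : MvPolynomial (Fin (n + 1)) ℂ)) := by
    intro z j
    rw [fq_apply, map_add, Derivation.map_smul, pderiv_zero_rename, smul_zero, zero_add,
      pderiv_zero_X_mul, map_add, map_mul, eval_X, Fin.cons_zero]
    ring
  have N0 : ∀ i j, eval (y i) (x.1 j : MvPolynomial (Fin n) ℂ) +
      eval (Fin.cons t (y i) : Fin (n + 1) → ℂ) (x.2 j : MvPolynomial (Fin (n + 1)) ℂ) = 0 := by
    intro i j
    have := k7 i j
    rw [M0] at this
    exact (mul_eq_zero.1 this).resolve_left ht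
  have pull : ∀ (c : Fin s → ℂ) (u : Fin s → ℂ), ∑ j, c j * (t * u j) = t * ∑ j, c j * u j := by
    intro c u
    rw [Finset.mul_sum]
    exact Finset.sum_congr rfl fun j _ => by ring
  refine ⟨k1, k2, fun i j => ?_, fun i k => ?_, fun i => ?_, N0, fun i k => ?_, fun i => ?_⟩
  · have := k5 i j
    rw [H0] at this
    exact (mul_eq_zero.1 this).resolve_left ht
  · have := k6 i k.succ
    simp only [H1] at this
    rw [pull] at this
    exact (mul_eq_zero.1 this).resolve_left ht
  · have := k6 i 0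
    simp only [H2] at this
    exact this
  · have := k8 i k.succ
    simp only [M1] at this
    rw [pull] at this
    exact (mul_eq_zero.1 this).resolve_left ht
  · have h1 := k8 i 0
    simp only [M2] at h1
    have h2 : ∑ j, α i j * (eval (y i) (x.1 j : MvPolynomial (Fin n) ℂ) +
        (-t) * eval (Fin.cons t (y i) : Fin (n + 1) → ℂ)
          (pderiv 0 (x.2 j : MvPolynomial (Fin (n + 1)) ℂ))) =
        -∑ j, α i j * (eval (Fin.cons t (y i) : Fin (n + 1) → ℂ)
          (x.2 j : MvPolynomial (Fin (n + 1)) ℂ) +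
          t * eval (Fin.cons t (y i) : Fin (n + 1) → ℂ)
            (pderiv 0 (x.2 j : MvPolynomial (Fin (n + 1)) ℂ))) := by
      rw [← Finset.sum_neg_distrib]
      refine Finset.sum_congr rfl fun j _ => ?_
      linear_combination α i j * N0 i j
    rw [h2, h1, neg_zero]

end

end DHCaux

open _root_.Pool.Agent.WarC.DHCaux in
/-- decoupled differential Horace -/
theorem x_DHC : S_DHC := by
  intro n s I U Y _ _ _ w b z a y α hw hT
  obtain ⟨Z, hZ, hmem⟩ := exists_PK (n := n) (s := s) w b z a y α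
  have h0 : finrank ℂ (Z 0) ≤ finrank ℂ (RS n w b z a y α) := by
    have h1 : Z 0 ≤ (RS n w b z a y α).map
        (LinearMap.inr ℂ (Fin s → Pol n 3) (Fin s → Pol (n + 1) 2)) := by
      intro x hx
      obtain ⟨h2, h3⟩ := of_cd_zero hw hT ((hmem 0 x).1 hx)
      exact ⟨x.2, h3, Prod.ext h2.symm rfl⟩
    exact (Submodule.finrank_mono h1).trans (Submodule.finrank_map_le _ _)
  obtain ⟨t, ht1, ht2⟩ := ((hZ.gen_finrank h0).and
    (Gen.ne (K := ℂ) (X := ℂ) Pool.Agent.WarS.DHaux.LP_id 1 one_ne_zero)).exists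
  refine ⟨t, ?_⟩
  have h1 : FK (n + 1) 3
      (Sum.elim w (Sum.elim (fun i => hp (z i)) fun i => (Fin.cons t (y i) : Fin (n + 1) → ℂ)))
      (Sum.elim b (Sum.elim a α)) ≤ (Z t).map (Ph n s t) := by
    intro f hf
    obtain ⟨x, rfl⟩ := exists_dec ht2 f
    exact ⟨x, (hmem t x).2 (cd_of_mem ht2 hf), rfl⟩
  exact (Submodule.finrank_mono h1).trans ((Submodule.finrank_map_le _ _).trans ht1)

end Pool.Agent.WarC


end

section

/-!
# Simultaneous Waring decompositions (MP_db021c_ag), cubics: module BASE   (helper37)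

The base of the induction: `n + 1` cubics in `n` variables.
-/

set_option autoImplicit false

open Module MvPolynomial
open Pool.Agent.War Pool.Agent.WarS Pool.Agent.WarQ

namespace Pool.Agent.WarC

namespace BASEaux

theorem six_NN (m : ℕ) : 6 * NN m 3 = (m + 1) * (m + 2) * (m + 3) := by
  have h1 : NN m 3 = (m + 3).choose 3 := by
    unfold NN
    rw [Nat.choose_symm_add]
  have h2 := Nat.choose_mul_factorial_mul_factorial (show 3 ≤ m + 3 by omega)
  rw [← h1, Nat.add_sub_cancel] at h2
  have h3 : (m + 3).factorial = (m + 1) * (m + 2) * (m + 3) * m.factorial := by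
    simp only [Nat.factorial_succ]
    ring
  rw [h3] at h2
  have h4 : (Nat.factorial 3) = 6 := rfl
  rw [h4] at h2
  have h5 := Nat.factorial_pos m
  exact Nat.eq_of_mul_eq_mul_right h5 (by linarith)

/-- A space which is killed. -/
theorem full_of_kill {n s h : ℕ} {z : Fin h → Fin n → ℂ} {a : Fin h → Fin s → ℂ}
    {y : Fin 0 → Fin n → ℂ} (hK : Kill n 3 z a y) : Full n s h := by
  refine ⟨z, a, ?_⟩
  have h0 : FK n 3 z a = ⊥ := by
    rw [eq_bot_iff]
    intro f hf
    obtain ⟨h1, h2⟩ := mem_FK.1 hf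
    rw [Submodule.mem_bot]
    funext j
    exact Subtype.ext (hK (fun j => (f j : MvPolynomial (Fin n) ℂ)) (fun j => mem_Pol.1 (f j).2)
      h1 h2 (fun i => i.elim0) j)
  rw [h0, finrank_bot]
  exact Nat.zero_le _

/-- A finrank of a subspace of the tuples whose members `j ≠ last` vanish. -/
theorem finrank_last {n : ℕ} {V : Type} [AddCommGroup V] [Module ℂ V] [FiniteDimensional ℂ V]
    (S : Submodule ℂ (Fin (n + 1) → V)) (W : Submodule ℂ V)
    (h0 : ∀ f ∈ S, ∀ j : Fin n, f j.castSucc = 0) (h1 : ∀ f ∈ S, f (Fin.last n) ∈ W) :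
    finrank ℂ S ≤ finrank ℂ W := by
  let L : S →ₗ[ℂ] W := ((LinearMap.proj (Fin.last n)).comp S.subtype).codRestrict W
    fun f => h1 f.1 f.2
  refine LinearMap.finrank_le_finrank_of_injective (f := L) ?_
  intro f g hfg
  apply Subtype.ext
  funext j
  refine Fin.lastCases ?_ (fun j => ?_) j
  · exact congrArg Subtype.val hfg
  · rw [h0 f.1 f.2 j, h0 g.1 g.2 j]

/-- A block of `n` forms and one more form. -/
theorem glue (n m p : ℕ) (hn : 1 ≤ n)
    (hB : ∃ (z : Fin m → Fin n → ℂ) (a : Fin m → Fin n → ℂ) (y : Fin p → Fin n → ℂ),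
      Kill n 3 z a y) (hG : GG n 3 p) :
    ∃ (z : Fin (m + p) → Fin n → ℂ) (a : Fin (m + p) → Fin (n + 1) → ℂ),
      finrank ℂ (FK n 3 z a) ≤ NN n 3 - (n * p + (m + p)) := by
  classical
  obtain ⟨z0, a0, y0, hK⟩ := hB
  let P : Finset (Fin m ⊕ Fin p) := Finset.univ.map ⟨Sum.inr, Sum.inr_injective⟩
  have hP : P.card = p := by simp [P]
  have hT : TrC1 n 3 ((Sum.elim z0 y0, a0) :
      (Fin m ⊕ Fin p → Fin n → ℂ) × (Fin m → Fin n → ℂ)) = ⊥ := by
    rw [eq_bot_iff]
    intro f hf
    obtain ⟨h1, h2⟩ := mem_TrC1.1 hf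
    rw [Submodule.mem_bot]
    funext j
    exact Subtype.ext (hK (fun j => (f j : MvPolynomial (Fin n) ℂ)) (fun j => mem_Pol.1 (f j).2)
      (fun i => h1 (Sum.inl i)) h2 (fun i => h1 (Sum.inr i)) j)
  have g1 := (PK_TrC1 n 3 (α := Fin m) (β := Fin p) (γ := Fin n)).gen_bot hT
  have g2 := (SG n 3 (Fin m ⊕ Fin p) P hn (by rw [hP]; exact hG)).comp
    (LinearMap.fst ℂ (Fin m ⊕ Fin p → Fin n → ℂ) (Fin m → Fin n → ℂ)) LinearMap.fst_surjective
  obtain ⟨x, hx1, hx2⟩ := (g1.and g2).exists
  rw [hP] at hx2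
  have hx2' : finrank ℂ (Dbl n 3 P x.1) ≤ NN n 3 - (n * p + (m + p)) := by
    have e : Fintype.card (Fin m ⊕ Fin p) = m + p := by simp
    rw [e] at hx2
    exact hx2
  refine ⟨fun i => x.1 (finSumFinEquiv.symm i), fun i => Sum.elim
    (fun i' => (Fin.snoc (x.2 i') 0 : Fin (n + 1) → ℂ)) (fun _ => Pi.single (Fin.last n) 1)
    (finSumFinEquiv.symm i), ?_⟩
  refine (finrank_last _ (Dbl n 3 P x.1) ?_ ?_).trans hx2'
  · intro f hf j
    obtain ⟨h1, h2⟩ := mem_FK.1 hf
    have hmem : (fun j : Fin n => f j.castSucc) ∈ TrC1 n 3 x := by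
      refine mem_TrC1.2 ⟨fun i j => ?_, fun i k => ?_⟩
      · have := h1 (finSumFinEquiv i) j.castSucc
        simpa using this
      · have := h2 (finSumFinEquiv (Sum.inl i)) k
        rw [Fin.sum_univ_castSucc] at this
        simpa using this
    rw [hx1, Submodule.mem_bot] at hmem
    exact congrFun hmem j
  · intro f hf
    obtain ⟨h1, h2⟩ := mem_FK.1 hf
    refine mem_Dbl.2 ⟨fun i => ?_, fun i hi k => ?_⟩
    · have := h1 (finSumFinEquiv i) (Fin.last n)
      simpa using this
    · obtain ⟨i', -, rfl⟩ := Finset.mem_map.1 hi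
      have := h2 (finSumFinEquiv (Sum.inr i')) k
      rw [Fin.sum_univ_castSucc] at this
      simpa [Pi.single_apply] using this

/-- `n = 5`: six forms, each has five double and twenty-five simple points. -/
theorem five : Full 5 6 30 := by
  classical
  let P : Fin 6 → Finset (Fin 6 × Fin 5) := fun j => Finset.univ.filter fun q => q.1 = j
  have hP : ∀ j, (P j).card = 5 := by
    intro j
    fin_cases j <;> rfl
  obtain ⟨z, hz⟩ := (Gen.forall fun j : Fin 6 =>
    SG 5 3 (Fin 6 × Fin 5) (P j) (by norm_num) (by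
      rw [hP]
      exact War5.CUB 5 5 (by norm_num))).exists
  have hN : NN 5 3 = 56 := by decide
  have hz' : ∀ j, finrank ℂ (Dbl 5 3 (P j) z) ≤ 1 := by
    intro j
    have h := hz j
    rw [hP, hN] at h
    simpa using h
  let e : Fin 30 ≃ Fin 6 × Fin 5 := (finProdFinEquiv (m := 6) (n := 5)).symm
  refine ⟨fun i => z (e i), fun i => Pi.single (e i).1 1, ?_⟩
  have hle : FK 5 3 (fun i => z (e i)) (fun i => (Pi.single (e i).1 1 : Fin 6 → ℂ)) ≤
      Submodule.pi Set.univ fun j => Dbl 5 3 (P j) z := by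
    intro f hf
    obtain ⟨h1, h2⟩ := mem_FK.1 hf
    rw [Submodule.mem_pi]
    intro j _
    refine mem_Dbl.2 ⟨fun i => ?_, fun i hi k => ?_⟩
    · have := h1 (e.symm i) j
      simpa using this
    · have hi' : i.1 = j := (Finset.mem_filter.1 hi).2
      have := h2 (e.symm i) k
      simpa [Pi.single_apply, hi'] using this
  refine (Submodule.finrank_mono hle).trans ((finrank_pi_leC1 _).trans ?_)
  refine (Finset.sum_le_sum fun j _ => hz' j).trans ?_
  rw [hN]
  simp

end BASEaux

open _root_.Pool.Agent.WarC.BASEaux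

theorem x_BASE (hB : S_BLKM) (hT : S_TOPC) (hA : S_AAH) : S_BASE := by
  intro n hn
  have h6 := six_NN n
  have hN1 : 4 * n + 1 ≤ NN n 3 := by
    have : 6 * (4 * n + 1) ≤ 6 * NN n 3 := by
      rw [h6]
      nlinarith [mul_nonneg (Nat.zero_le n) (Nat.zero_le n)]
    omega
  generalize hNN : NN n 3 = N at *
  have hm : 0 < n + (n + 1) := by omega
  have e1 := Nat.div_add_mod ((n + 1) * N) (n + (n + 1))
  have e2 := Nat.mod_lt ((n + 1) * N) hm
  have e3 := Nat.div_add_mod ((n + 1) * N + (n + (n + 1) - 1)) (n + (n + 1))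
  have e4 := Nat.mod_lt ((n + 1) * N + (n + (n + 1) - 1)) hm
  obtain ⟨hp, hhp⟩ : ∃ x, x = ((n + 1) * N + (n + (n + 1) - 1)) / (n + (n + 1)) := ⟨_, rfl⟩
  obtain ⟨hm', hhm⟩ : ∃ x, x = ((n + 1) * N) / (n + (n + 1)) := ⟨_, rfl⟩
  rw [← hhp] at e3
  rw [← hhm] at e1
  have hplus : Full n (n + 1) hp := by
    obtain ⟨z, a, y, hK⟩ := hT n (n + 1) hp hn le_rfl (by
      by_contra hc
      have h1 : hp ≤ n := by omega
      have h2 : (n + (n + 1)) * hp ≤ (n + (n + 1)) * n := Nat.mul_le_mul_left _ h1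
      nlinarith) (by
      rw [hNN]
      by_contra hc
      have h1 : N ≤ hp := by omega
      have h2 : (n + (n + 1)) * N ≤ (n + (n + 1)) * hp := Nat.mul_le_mul_left _ h1
      have h3 : (n + (n + 1)) * N = (n + 1) * N + n * N := by ring
      have h4 : n * 5 ≤ n * N := Nat.mul_le_mul_left _ (by omega)
      omega) (by
      rw [hNN]
      have h1 : hp * (n + (n + 1)) = (n + (n + 1)) * hp := by ring
      omega)
    exact full_of_kill hK
  refine hA n (n + 1) (by omega) ?_ ?_
  · rw [hNN, ← hhm]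
    by_cases hz : ((n + 1) * N) % (n + (n + 1)) = 0
    · have h1 : hp = hm' := by
        have h2 : (n + (n + 1)) * hp < (n + (n + 1)) * (hm' + 1) := by
          rw [mul_add]
          omega
        have h3 : (n + (n + 1)) * hm' < (n + (n + 1)) * (hp + 1) := by
          rw [mul_add]
          omega
        have h4 := Nat.lt_of_mul_lt_mul_left h2
        have h5 := Nat.lt_of_mul_lt_mul_left h3
        omega
      rw [← h1]
      exact hplus
    · by_cases h5 : n = 5
      · subst h5
        have hN : N = 56 := by rw [← hNN]; decide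
        subst hN
        have : hm' = 30 := by rw [hhm]
        rw [this]
        exact five
      · -- the complement
        have hmN : hm' ≤ N := by
          by_contra hc
          have h2 : (n + (n + 1)) * (N + 1) ≤ (n + (n + 1)) * hm' := Nat.mul_le_mul_left _ (by omega)
          have h3 : (n + (n + 1)) * (N + 1) = (n + 1) * N + n * N + (n + (n + 1)) := by ring
          have h4 : 0 ≤ n * N := Nat.zero_le _
          omega
        obtain ⟨μ, hμ⟩ : ∃ μ, N = hm' + μ := ⟨N - hm', by omega⟩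
        have k0 : (n + (n + 1)) * N = (n + 1) * N + n * N := by ring
        have k1 : (n + (n + 1)) * N = (n + (n + 1)) * hm' + (n + (n + 1)) * μ := by
          rw [← mul_add, ← hμ]
        have k2 : n * N < (n + (n + 1)) * μ := by omega
        have k3 : (n + (n + 1)) * μ < n * N + (n + (n + 1)) := by omega
        have k4 : 2 * n + 1 = n + (n + 1) := by ring
        have hBl := hB n μ hn h5 (by rw [hNN, k4]; exact k2) (by rw [hNN, k4]; exact k3)
        unfold Block at hBl
        have hμμ : (n * μ + n - 1) / n = μ := by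
          have : n * μ + n - 1 = (n - 1) + n * μ := by omega
          rw [this, Nat.add_mul_div_left _ _ (by omega), Nat.div_eq_of_lt (by omega), zero_add]
        rw [hμμ, hNN] at hBl
        -- `2 μ ≤ N`
        have k5 : 2 * μ ≤ N := by
          by_contra hc
          have h2 : (n + (n + 1)) * (N + 1) ≤ (n + (n + 1)) * (2 * μ) :=
            Nat.mul_le_mul_left _ (by omega)
          have h3 : (n + (n + 1)) * (N + 1) = 2 * (n * N) + N + (n + (n + 1)) := by ring
          have h4 : (n + (n + 1)) * (2 * μ) = 2 * ((n + (n + 1)) * μ) := by ring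
          omega
        obtain ⟨p, hp'⟩ : ∃ p, N = 2 * μ + p := ⟨N - 2 * μ, by omega⟩
        have hpe : N - μ - μ = p := by omega
        rw [hpe] at hBl
        have k6 : (n + (n + 1)) * p < N := by
          have h3 : (n + (n + 1)) * N = 2 * (n * N) + N := by ring
          have h4 : (n + (n + 1)) * N = 2 * ((n + (n + 1)) * μ) + (n + (n + 1)) * p := by
            rw [hp']; ring
          omega
        have hG : GG n 3 p := War5.CUB n p (by
          have h2 : 6 * ((n + (n + 1)) * p) ≤ (n + 1) * (n + 2) * (n + 3) := by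
            rw [← h6]; omega
          have h3 : (n + (n + 1)) * (9 * p) * 2 ≤ (n + (n + 1)) * (n + 3) ^ 2 * 2 := by
            have h4 : 3 * ((n + 1) * (n + 2) * (n + 3)) ≤ (n + (n + 1)) * (n + 3) ^ 2 * 2 := by
              have : 3 * ((n + 1) * (n + 2)) ≤ 2 * ((n + (n + 1)) * (n + 3)) := by nlinarith
              calc 3 * ((n + 1) * (n + 2) * (n + 3)) = (3 * ((n + 1) * (n + 2))) * (n + 3) := by ring
                _ ≤ (2 * ((n + (n + 1)) * (n + 3))) * (n + 3) := Nat.mul_le_mul_right _ this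
                _ = (n + (n + 1)) * (n + 3) ^ 2 * 2 := by ring
            calc (n + (n + 1)) * (9 * p) * 2 = 3 * (6 * ((n + (n + 1)) * p)) := by ring
              _ ≤ 3 * ((n + 1) * (n + 2) * (n + 3)) := Nat.mul_le_mul_left _ h2
              _ ≤ _ := h4
          have h5 : (n + (n + 1)) * (9 * p) ≤ (n + (n + 1)) * (n + 3) ^ 2 := by omega
          exact Nat.le_of_mul_le_mul_left h5 hm)
        obtain ⟨z, a, hza⟩ := glue n μ p (by omega) hBl hG
        have hsum : hm' = μ + p := by omega
        rw [hsum]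
        refine ⟨z, a, hza.trans ?_⟩
        rw [hNN]
        have k7 : (n + (n + 1)) * (μ + p) = (n + (n + 1)) * μ + (n + (n + 1)) * p := by ring
        have k8 : (n + 1) * N = n * N + N := by ring
        have k9 : (n + (n + 1)) * p = n * p + (n * p + p) := by ring
        have k10 : n * N = 2 * (n * μ) + n * p := by rw [hp']; ring
        have k11 : (n + (n + 1)) * μ = 2 * (n * μ) + μ := by ring
        omega
  · rw [hNN, ← hhp]
    exact hplus

end Pool.Agent.WarC


end

section

/-!
# Simultaneous Waring decompositions (MP_db021c_ag), cubics, `s = 2`: module DHC2   (helper46)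

Decoupled differential Horace with two near points which have the same vector.
-/

set_option autoImplicit false

open Module MvPolynomial
open Pool.Agent.War Pool.Agent.WarS Pool.Agent.WarQ

namespace Pool.Agent.WarC

namespace DHC2aux

open DHCaux UKaux
open Pool.Agent.WarS.DHaux (pderiv_zero_X_mul pderiv_succ_X_mul)

/-- a quadric on a line: `φ'(0) + φ'(1) = 2 (φ(1) - φ(0))` -/
theorem quad_line {n : ℕ} (f : MvPolynomial (Fin n) ℂ) (hf : f.totalDegree ≤ 2)
    (z z' : Fin n → ℂ) :
    ∑ k, (z' k - z k) * (eval z (pderiv k f) + eval z' (pderiv k f)) =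
      2 * (eval z' f - eval z f) := by
  obtain ⟨c, a, b, hr⟩ := rp_of_deg f hf
  have hr' : f = pq c a b := hr
  rw [hr']
  have e1 : z' = z + (1 : ℂ) • fun k => z' k - z k := by
    funext i
    simp
  have e2 : z = z' + (-1 : ℂ) • fun k => z' k - z k := by
    funext i
    simp
  have t1 := PERTaux.tay c a b z (fun k => z' k - z k) 1
  have t2 := PERTaux.tay c a b z' (fun k => z' k - z k) (-1)
  rw [← e1] at t1
  rw [← e2] at t2
  have e4 : ∑ k, (z' k - z k) * (eval z (pderiv k (pq c a b)) + eval z' (pderiv k (pq c a b))) =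
      ∑ k, eval z (pderiv k (pq c a b)) * (z' k - z k) +
        ∑ k, eval z' (pderiv k (pq c a b)) * (z' k - z k) := by
    rw [← Finset.sum_add_distrib]
    exact Finset.sum_congr rfl fun k _ => by ring
  rw [e4]
  linear_combination t2 - t1

/-- the same at height `t` -/
theorem quad_cons {n : ℕ} (f : MvPolynomial (Fin (n + 1)) ℂ) (hf : f.totalDegree ≤ 2) (t : ℂ)
    (p q : Fin n → ℂ) :
    ∑ k, (q k - p k) * (eval (Fin.cons t p : Fin (n + 1) → ℂ) (pderiv k.succ f) +
        eval (Fin.cons t q : Fin (n + 1) → ℂ) (pderiv k.succ f)) =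
      2 * (eval (Fin.cons t q : Fin (n + 1) → ℂ) f - eval (Fin.cons t p : Fin (n + 1) → ℂ) f) := by
  have h := quad_line f hf (Fin.cons t p) (Fin.cons t q)
  rw [Fin.sum_univ_succ] at h
  simpa using h

section

variable {n s : ℕ} {I U Y : Type}

/-- the solutions at `t = 0` -/
theorem of_cd_zero {w : I → Fin (n + 1) → ℂ} {b : I → Fin s → ℂ} {z : U → Fin n → ℂ}
    {a : U → Fin s → ℂ} {y : Y → Fin n → ℂ} {α : Y → Fin s → ℂ} (hw : ∀ i, w i 0 ≠ 0)
    {x : VW n s} (h : Cd w b z a y α 0 x) (hρ : x.1 = 0) : x.2 ∈ RS n w b z a y α := by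
  have hoff : ∀ i j, eval (w i) (x.2 j : MvPolynomial (Fin (n + 1)) ℂ) = 0 := by
    intro i j
    have h1 := h.c1 i j
    rw [fq_apply, zero_smul, zero_add, map_mul, eval_X] at h1
    exact (mul_eq_zero.1 h1).resolve_left (hw i)
  have hoff2 : ∀ i k, ∑ j, b i j *
      eval (w i) (pderiv k (x.2 j : MvPolynomial (Fin (n + 1)) ℂ)) = 0 := by
    intro i k
    have h1 := h.c2 i k
    have h2 : ∀ j, eval (w i) (pderiv k (fq 0 j x)) =
        w i 0 * eval (w i) (pderiv k (x.2 j : MvPolynomial (Fin (n + 1)) ℂ)) := by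
      intro j
      rw [fq_apply, zero_smul, zero_add]
      refine Fin.cases ?_ (fun k => ?_) k
      · rw [pderiv_zero_X_mul, map_add, map_mul, eval_X, hoff, add_zero]
      · rw [pderiv_succ_X_mul, map_mul, eval_X]
    simp only [h2] at h1
    have h3 : ∑ j, b i j * (w i 0 *
        eval (w i) (pderiv k (x.2 j : MvPolynomial (Fin (n + 1)) ℂ))) = w i 0 *
        ∑ j, b i j * eval (w i) (pderiv k (x.2 j : MvPolynomial (Fin (n + 1)) ℂ)) := by
      rw [Finset.mul_sum]
      exact Finset.sum_congr rfl fun j _ => by ring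
    rw [h3] at h1
    exact (mul_eq_zero.1 h1).resolve_left (hw i)
  unfold RS
  rw [Submodule.mem_inf, mem_RV, mem_FK, Submodule.mem_iInf]
  refine ⟨⟨⟨hoff, hoff2⟩, fun i j => ?_, fun i k => ?_⟩, fun i => ?_⟩
  · have h1 := h.e1 i j
    rw [hρ] at h1
    simpa [hp] using h1
  · have h1 := h.e2 i k
    rw [hρ] at h1
    simpa [hp] using h1
  · rw [LinearMap.mem_ker, om_apply]
    exact h.b3 i

/-- the additional functional -/
noncomputable def ad (n : ℕ) {s : ℕ} (p q : Fin n → ℂ) (β : Fin s → ℂ) : VW n s →ₗ[ℂ] ℂ :=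
  (ecs n 3 p q β + (2 : ℂ) • (om n 3 p β - om n 3 q β)) ∘ₗ LinearMap.fst ℂ _ _

theorem ad_apply (p q : Fin n → ℂ) (β : Fin s → ℂ) (x : VW n s) : ad n p q β x =
    ecs n 3 p q β x.1 + 2 * (om n 3 p β x.1 - om n 3 q β x.1) := rfl

/-- the additional condition holds -/
theorem ad_eq_zero {w : I → Fin (n + 1) → ℂ} {b : I → Fin s → ℂ} {z : U → Fin n → ℂ}
    {a : U → Fin s → ℂ} {y : Y → Fin n → ℂ} {α : Y → Fin s → ℂ} {p q : Fin n → ℂ}
    {β : Fin s → ℂ} {t : ℂ} {x : VW n s}
    (h : Cd w b z a (Sum.elim y (two p q)) (Sum.elim α fun _ => β) t x) :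
    ad n p q β x = 0 := by
  have p1 : ∀ j, eval p (x.1 j : MvPolynomial (Fin n) ℂ) +
      eval (Fin.cons t p : Fin (n + 1) → ℂ) (x.2 j : MvPolynomial (Fin (n + 1)) ℂ) = 0 := fun j =>
    h.e1 (Sum.inr 0) j
  have q1 : ∀ j, eval q (x.1 j : MvPolynomial (Fin n) ℂ) +
      eval (Fin.cons t q : Fin (n + 1) → ℂ) (x.2 j : MvPolynomial (Fin (n + 1)) ℂ) = 0 := fun j =>
    h.e1 (Sum.inr 1) j
  have p2 : ∀ k : Fin n, ∑ j, β j * (eval p (pderiv k (x.1 j : MvPolynomial (Fin n) ℂ)) +
      eval (Fin.cons t p : Fin (n + 1) → ℂ)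
        (pderiv k.succ (x.2 j : MvPolynomial (Fin (n + 1)) ℂ))) = 0 := fun k =>
    h.e2 (Sum.inr 0) k
  have q2 : ∀ k : Fin n, ∑ j, β j * (eval q (pderiv k (x.1 j : MvPolynomial (Fin n) ℂ)) +
      eval (Fin.cons t q : Fin (n + 1) → ℂ)
        (pderiv k.succ (x.2 j : MvPolynomial (Fin (n + 1)) ℂ))) = 0 := fun k =>
    h.e2 (Sum.inr 1) k
  have s1 : ∑ k, (q k - p k) * (∑ j, β j * (eval p (pderiv k (x.1 j : MvPolynomial (Fin n) ℂ)) +
      eval (Fin.cons t p : Fin (n + 1) → ℂ)
        (pderiv k.succ (x.2 j : MvPolynomial (Fin (n + 1)) ℂ))) +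
      ∑ j, β j * (eval q (pderiv k (x.1 j : MvPolynomial (Fin n) ℂ)) +
      eval (Fin.cons t q : Fin (n + 1) → ℂ)
        (pderiv k.succ (x.2 j : MvPolynomial (Fin (n + 1)) ℂ)))) = 0 :=
    Finset.sum_eq_zero fun k _ => by rw [p2, q2]; ring
  have s2 : ∀ j, ∑ k, (q k - p k) * (eval (Fin.cons t p : Fin (n + 1) → ℂ)
      (pderiv k.succ (x.2 j : MvPolynomial (Fin (n + 1)) ℂ)) +
      eval (Fin.cons t q : Fin (n + 1) → ℂ)
        (pderiv k.succ (x.2 j : MvPolynomial (Fin (n + 1)) ℂ))) =
      2 * (eval p (x.1 j : MvPolynomial (Fin n) ℂ) -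
        eval q (x.1 j : MvPolynomial (Fin n) ℂ)) := by
    intro j
    rw [quad_cons _ (mem_Pol.1 (x.2 j).2)]
    linear_combination 2 * q1 j - 2 * p1 j
  have s3 : ∑ k, (q k - p k) * (∑ j, β j * (eval p (pderiv k (x.1 j : MvPolynomial (Fin n) ℂ)) +
      eval (Fin.cons t p : Fin (n + 1) → ℂ)
        (pderiv k.succ (x.2 j : MvPolynomial (Fin (n + 1)) ℂ))) +
      ∑ j, β j * (eval q (pderiv k (x.1 j : MvPolynomial (Fin n) ℂ)) +
      eval (Fin.cons t q : Fin (n + 1) → ℂ)
        (pderiv k.succ (x.2 j : MvPolynomial (Fin (n + 1)) ℂ)))) =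
      ∑ j, β j * (∑ k, (q k - p k) * (eval p (pderiv k (x.1 j : MvPolynomial (Fin n) ℂ)) +
        eval q (pderiv k (x.1 j : MvPolynomial (Fin n) ℂ))) +
      ∑ k, (q k - p k) * (eval (Fin.cons t p : Fin (n + 1) → ℂ)
      (pderiv k.succ (x.2 j : MvPolynomial (Fin (n + 1)) ℂ)) +
      eval (Fin.cons t q : Fin (n + 1) → ℂ)
        (pderiv k.succ (x.2 j : MvPolynomial (Fin (n + 1)) ℂ)))) := by
    simp only [← Finset.sum_add_distrib, Finset.mul_sum]
    rw [Finset.sum_comm]
    exact Finset.sum_congr rfl fun j _ => Finset.sum_congr rfl fun k _ => by ring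
  rw [s3] at s1
  rw [ad_apply, ecs_apply, om_apply, om_apply, ← Finset.sum_sub_distrib, Finset.mul_sum,
    ← Finset.sum_add_distrib, ← s1]
  refine Finset.sum_congr rfl fun j _ => ?_
  rw [ec_apply, s2]
  ring

end

end DHC2aux

open _root_.Pool.Agent.WarC.DHC2aux DHCaux in
/-- decoupled differential Horace with a pair -/
theorem x_DHC2 : S_DHC2 := by
  intro n s I U Y _ _ _ w b z a y α p q β hw hT
  obtain ⟨Z, hZ, hmem⟩ := exists_PK (n := n) (s := s) w b z a (Sum.elim y (two p q))
    (Sum.elim α fun _ => β)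
  have hZ' : PK fun t : ℂ => Z t ⊓ LinearMap.ker (ad n p q β) :=
    hZ.inf (PK.one (φ := fun _ : ℂ => ad n p q β) fun x => LP.const _)
  have h0 : finrank ℂ ↥(Z 0 ⊓ LinearMap.ker (ad n p q β)) ≤
      finrank ℂ (RS n w b z a (Sum.elim y (two p q)) (Sum.elim α fun _ => β)) := by
    have h1 : Z 0 ⊓ LinearMap.ker (ad n p q β) ≤
        (RS n w b z a (Sum.elim y (two p q)) (Sum.elim α fun _ => β)).map
        (LinearMap.inr ℂ (Fin s → Pol n 3) (Fin s → Pol (n + 1) 2)) := by
      rintro x ⟨hx, hx'⟩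
      have hc := (hmem 0 x).1 hx
      have hp : om n 3 p β x.1 = 0 := by
        rw [om_apply]
        have h2 := hc.e3 (Sum.inr 0)
        simpa [two] using h2
      have hq : om n 3 q β x.1 = 0 := by
        rw [om_apply]
        have h2 := hc.e3 (Sum.inr 1)
        simpa [two] using h2
      have hρ : x.1 = 0 := by
        have h1 : x.1 ∈ TS2 n z a y α p q β := by
          unfold TS2 TS
          rw [Submodule.mem_inf, Submodule.mem_inf, Submodule.mem_inf, Submodule.mem_inf, mem_FK,
            Submodule.mem_iInf]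
          refine ⟨⟨⟨⟨⟨hc.b1, hc.b2⟩, fun i => ?_⟩, hp⟩, hq⟩, ?_⟩
          · rw [LinearMap.mem_ker, om_apply]
            have h2 := hc.e3 (Sum.inl i)
            simpa using h2
          · rw [SetLike.mem_coe, LinearMap.mem_ker, ad_apply, hp, hq] at hx'
            rw [LinearMap.mem_ker]
            linear_combination hx'
        rw [hT, Submodule.mem_bot] at h1
        exact h1
      exact ⟨x.2, DHC2aux.of_cd_zero hw hc hρ, Prod.ext hρ.symm rfl⟩
    exact (Submodule.finrank_mono h1).trans (Submodule.finrank_map_le _ _)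
  obtain ⟨t, ht1, ht2⟩ := ((hZ'.gen_finrank h0).and
    (Gen.ne (K := ℂ) (X := ℂ) Pool.Agent.WarS.DHaux.LP_id 1 one_ne_zero)).exists
  refine ⟨t, ?_⟩
  have h1 : FK (n + 1) 3
      (Sum.elim w (Sum.elim (fun i => hp (z i))
        fun i => (Fin.cons t (Sum.elim y (two p q) i) : Fin (n + 1) → ℂ)))
      (Sum.elim b (Sum.elim a (Sum.elim α fun _ => β))) ≤
      (Z t ⊓ LinearMap.ker (ad n p q β)).map (Ph n s t) := by
    intro f hf
    obtain ⟨x, rfl⟩ := exists_dec ht2 f
    have hc := cd_of_mem ht2 hf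
    exact ⟨x, ⟨(hmem t x).2 hc, ad_eq_zero hc⟩, rfl⟩
  exact (Submodule.finrank_mono h1).trans ((Submodule.finrank_map_le _ _).trans ht1)

end Pool.Agent.WarC


end

section

/-!
# NG6: the numerical conditions in degrees `≥ 7`, two or three variables

`x_NG6 : S_NG6` (PAPER.md, section 4).
-/

set_option autoImplicit false

open Pool.Agent.War Pool.Agent.WarS

namespace Pool.Agent.War5

namespace NG6aux

theorem pascal (n k : ℕ) : NN (n + 1) (k + 1) = NN (n + 1) k + NN n (k + 1) := by
  have h : ((n + k + 1) + 1).choose (n + 1) =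
      (n + k + 1).choose n + (n + k + 1).choose (n + 1) := Nat.choose_succ_succ _ _
  have e1 : NN (n + 1) (k + 1) = ((n + k + 1) + 1).choose (n + 1) := by
    show ((n + 1) + (k + 1)).choose (n + 1) = _
    congr 1
    omega
  have e2 : NN (n + 1) k = (n + k + 1).choose (n + 1) := by
    show ((n + 1) + k).choose (n + 1) = _
    congr 1
    omega
  have e3 : NN n (k + 1) = (n + k + 1).choose n := rfl
  rw [e1, e2, e3, h, Nat.add_comm]

theorem NN1 (k : ℕ) : NN 1 k = k + 1 := by
  show (1 + k).choose 1 = _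
  rw [Nat.choose_one_right, Nat.add_comm]

theorem mono (n : ℕ) {k l : ℕ} (h : k ≤ l) : NN n k ≤ NN n l :=
  Nat.choose_le_choose _ (by omega)

end NG6aux

open _root_.Pool.Agent.War5.NG6aux in
theorem x_NG6 : S_NG6 := by
  intro n d r u y hn hn2 hd hr hrn hS hT hy
  have hn' : n = 1 ∨ n = 2 := by omega
  rcases hn' with rfl | rfl
  · have hr1 : r = 1 := by omega
    subst hr1
    have hd15 : 15 ≤ d := by
      by_contra hlt
      exact hS (Or.inl ⟨rfl, by omega⟩)
    rw [NN1] at hT
    have hM : NN 2 (d + 1) = NN 2 d + NN 1 (d + 1) := pascal 1 d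
    rw [NN1] at hM
    have hN : 136 ≤ NN 2 d := by
      have h := mono 2 hd15
      have e : NN 2 15 = 136 := by decide
      omega
    have g1 : gg 2 (d + 1) = 2 * NN 2 (d + 1) / 7 := by
      unfold gg
      rw [if_neg (by omega), if_neg (by omega), if_neg (by omega), if_pos rfl]
    have g2 : gg 2 d = 2 * NN 2 d / 7 := by
      unfold gg
      rw [if_neg (by omega), if_neg (by omega), if_neg (by omega), if_pos rfl]
    have g3 : gg 1 (d + 2) = (d + 2 + 1) / 2 := by
      unfold gg
      rw [if_pos rfl]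
    have g4 : gg 1 (d + 1) = (d + 1 + 1) / 2 := by
      unfold gg
      rw [if_pos rfl]
    refine ⟨by omega, ?_, ?_, ?_, ?_, ?_⟩
    · rw [NN1]
      omega
    · intro p hp
      show p ≤ gg 2 (d + 1)
      change (1 + 1 + 2) * p + u ≤ NN 2 (d + 1) + y + 2 * (1 + 1 + 2) at hp
      rw [g1, hM] at *
      omega
    · intro t ht
      show NN 2 d ≤ (1 + 1) * gg 2 d + t
      change (1 + 1) * NN 2 (d + 1) ≤ (1 + 1 + 2) * t + (1 + 1) * u + (1 + 1) * y at ht
      rw [g2]
      rw [hM] at ht
      omega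
    · rw [g3]
      omega
    · rw [g4]
      omega
  · have hd6 : 6 ≤ d := by
      by_contra hlt
      exact hS (Or.inr (Or.inl ⟨rfl, by omega⟩))
    have hM : NN 3 (d + 1) = NN 3 d + NN 2 (d + 1) := pascal 2 d
    have hT1 : NN 2 (d + 2) = NN 2 (d + 1) + NN 1 (d + 2) := pascal 1 (d + 1)
    rw [NN1] at hT1
    have hN : 84 ≤ NN 3 d := by
      have h := mono 3 hd6
      have e : NN 3 6 = 84 := by decide
      omega
    have h36 : 4 * (d + 3) ≤ NN 2 (d + 1) := by
      obtain ⟨e, rfl⟩ := Nat.exists_eq_add_of_le hd6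
      clear hS hT hy hM hT1 hN hd6 hd
      induction e with
      | zero => decide
      | succ e ih =>
        have h1 : NN 2 (6 + e + 1 + 1) = NN 2 (6 + e + 1) + NN 1 (6 + e + 1 + 1) :=
          pascal 1 (6 + e + 1)
        rw [NN1] at h1
        have h2 : 6 + (e + 1) + 1 = 6 + e + 1 + 1 := by omega
        rw [h2, h1]
        omega
    have hgM : gg 3 (d + 1) = NN 3 (d + 1) / 5 := by
      unfold gg
      rw [if_neg (by omega), if_neg (by omega), if_neg (by omega), if_neg (by omega)]
    have hgN : gg 3 d = NN 3 d / 5 := by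
      unfold gg
      rw [if_neg (by omega), if_neg (by omega), if_neg (by omega), if_neg (by omega)]
    have hgT : gg 2 (d + 2) = 2 * NN 2 (d + 2) / 7 := by
      unfold gg
      rw [if_neg (by omega), if_neg (by omega), if_neg (by omega), if_pos rfl]
    have hgT1 : gg 2 (d + 1) = 2 * NN 2 (d + 1) / 7 := by
      unfold gg
      rw [if_neg (by omega), if_neg (by omega), if_neg (by omega), if_pos rfl]
    have hr' : r = 1 ∨ r = 2 := by omega
    rcases hr' with rfl | rfl
    · have hu : y + 10 ≤ u := by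
        have hc : d = 6 ∨ d = 7 ∨ 8 ≤ d := by omega
        rcases hc with rfl | rfl | h8
        · have e : NN 2 (6 + 2) = 45 := by decide
          omega
        · have e : NN 2 (7 + 2) = 55 := by decide
          omega
        · have h := mono 2 (show 10 ≤ d + 2 by omega)
          have e : NN 2 10 = 66 := by decide
          omega
      refine ⟨by omega, by omega, ?_, ?_, ?_, ?_⟩
      · intro p hp
        show p ≤ gg 3 (d + 1)
        change (2 + 1 + 2) * p + u ≤ NN 3 (d + 1) + y + 2 * (2 + 1 + 2) at hp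
        rw [hgM]
        omega
      · intro t ht
        show NN 3 d ≤ (2 + 1) * gg 3 d + t
        change (1 + 1) * NN 3 (d + 1) ≤ (2 + 1 + 2) * t + (1 + 1) * u + (2 + 1) * y at ht
        rw [hgN]
        rw [hM] at ht
        omega
      · rw [hgT]
        omega
      · rw [hgT1]
        omega
    · refine ⟨by omega, by omega, ?_, ?_, ?_, ?_⟩
      · intro p hp
        show p ≤ gg 3 (d + 1)
        change (2 + 2 + 2) * p + u ≤ NN 3 (d + 1) + y + 2 * (2 + 2 + 2) at hp
        rw [hgM]
        omega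
      · intro t ht
        show NN 3 d ≤ (2 + 1) * gg 3 d + t
        change (2 + 1) * NN 3 (d + 1) ≤ (2 + 2 + 2) * t + (2 + 1) * u + (2 + 1) * y at ht
        rw [hgN]
        rw [hM] at ht
        omega
      · rw [hgT]
        omega
      · rw [hgT1]
        omega

end Pool.Agent.War5


end

section

/-!
# Simultaneous Waring decompositions (MP_db021c_ag), few forms: NS, the small cases   (helper54)
-/

set_option autoImplicit false

open Pool.Agent.War

namespace Pool.Agent.War5

namespace NSaux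

/-- the conditions with the witnesses `q` -/
def Chk (n d r h u y : ℕ) (p q : Fin (r + 1) → ℕ) : Prop :=
  NN n (d + 2) = (n + r + 1) * u + y ∧ u ≤ gg n (d + 2) ∧ y ≤ gg n (d + 1) ∧
  (r + 1) * u + y + ∑ j, p j = h ∧ (∀ j, p j ≤ gg (n + 1) (d + 1)) ∧
  p 0 + y ≤ gg (n + 1) (d + 1) ∧
  (∀ j, q j ≤ p j ∧ q j ≤ gg (n + 1) d ∧ NN (n + 1) d ≤ (n + 1) * q j + ∑ i, p i) ∧
  (n + 1) * p 0 + ∑ i, p i + (n + 1) * y + u ≤ NN (n + 1) (d + 1) ∧
  ∀ j, (n + 1) * p j + ∑ i, p i ≤ NN (n + 1) (d + 1)

instance (n d r h u y : ℕ) (p q : Fin (r + 1) → ℕ) : Decidable (Chk n d r h u y p q) := by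
  unfold Chk
  infer_instance

theorem Chk.numb {n d r h u y : ℕ} {p q : Fin (r + 1) → ℕ} (c : Chk n d r h u y p q) :
    Numb n d r h := by
  obtain ⟨c1, c2, c3, c4, c5, c6, c7, c8, c9⟩ := c
  exact ⟨u, y, p, c1, c2, c3, c4, c5, c6, fun j => ⟨q j, c7 j⟩, c8, c9⟩

theorem c_1_3_1 (h : ℕ) (hc : Crit 1 3 1 h) : Numb 1 3 1 h := by
  obtain ⟨h1, h2⟩ := hc
  have e : NN (1 + 1) (3 + 2) = 21 := by decide +kernel
  rw [e] at h1 h2
  obtain rfl : h = 11 := by omega
  exact (by decide +kernel : Chk 1 3 1 11 2 0 ![3, 4]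
    ![2, 2]).numb

theorem c_1_4_1 (h : ℕ) (hc : Crit 1 4 1 h) : Numb 1 4 1 h := by
  obtain ⟨h1, h2⟩ := hc
  have e : NN (1 + 1) (4 + 2) = 28 := by decide +kernel
  rw [e] at h1 h2
  obtain rfl : h = 14 := by omega
  exact (by decide +kernel : Chk 1 4 1 14 2 1 ![4, 5]
    ![4, 4]).numb

theorem c_1_5_1 (h : ℕ) (hc : Crit 1 5 1 h) : Numb 1 5 1 h := by
  obtain ⟨h1, h2⟩ := hc
  have e : NN (1 + 1) (5 + 2) = 36 := by decide +kernel
  rw [e] at h1 h2
  obtain rfl : h = 18 := by omega
  exact (by decide +kernel : Chk 1 5 1 18 2 2 ![5, 7]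
    ![5, 6]).numb

theorem c_1_6_1 (h : ℕ) (hc : Crit 1 6 1 h) : Numb 1 6 1 h := by
  obtain ⟨h1, h2⟩ := hc
  have e : NN (1 + 1) (6 + 2) = 45 := by decide +kernel
  rw [e] at h1 h2
  obtain rfl : h = 23 := by omega
  exact (by decide +kernel : Chk 1 6 1 23 3 0 ![8, 9]
    ![8, 8]).numb

theorem c_1_7_1 (h : ℕ) (hc : Crit 1 7 1 h) : Numb 1 7 1 h := by
  obtain ⟨h1, h2⟩ := hc
  have e : NN (1 + 1) (7 + 2) = 55 := by decide +kernel
  rw [e] at h1 h2
  obtain rfl : h = 28 := by omega
  exact (by decide +kernel : Chk 1 7 1 28 3 1 ![9, 12]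
    ![9, 10]).numb

theorem c_1_8_1 (h : ℕ) (hc : Crit 1 8 1 h) : Numb 1 8 1 h := by
  obtain ⟨h1, h2⟩ := hc
  have e : NN (1 + 1) (8 + 2) = 66 := by decide +kernel
  rw [e] at h1 h2
  obtain rfl : h = 33 := by omega
  exact (by decide +kernel : Chk 1 8 1 33 3 2 ![11, 14]
    ![11, 12]).numb

theorem c_1_9_1 (h : ℕ) (hc : Crit 1 9 1 h) : Numb 1 9 1 h := by
  obtain ⟨h1, h2⟩ := hc
  have e : NN (1 + 1) (9 + 2) = 78 := by decide +kernel
  rw [e] at h1 h2
  obtain rfl : h = 39 := by omega
  exact (by decide +kernel : Chk 1 9 1 39 4 0 ![15, 16]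
    ![15, 15]).numb

theorem c_1_10_1 (h : ℕ) (hc : Crit 1 10 1 h) : Numb 1 10 1 h := by
  obtain ⟨h1, h2⟩ := hc
  have e : NN (1 + 1) (10 + 2) = 91 := by decide +kernel
  rw [e] at h1 h2
  obtain rfl : h = 46 := by omega
  exact (by decide +kernel : Chk 1 10 1 46 4 1 ![17, 20]
    ![17, 18]).numb

theorem c_1_11_1 (h : ℕ) (hc : Crit 1 11 1 h) : Numb 1 11 1 h := by
  obtain ⟨h1, h2⟩ := hc
  have e : NN (1 + 1) (11 + 2) = 105 := by decide +kernel
  rw [e] at h1 h2
  obtain rfl : h = 53 := by omega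
  exact (by decide +kernel : Chk 1 11 1 53 4 2 ![20, 23]
    ![20, 22]).numb

theorem c_1_12_1 (h : ℕ) (hc : Crit 1 12 1 h) : Numb 1 12 1 h := by
  obtain ⟨h1, h2⟩ := hc
  have e : NN (1 + 1) (12 + 2) = 120 := by decide +kernel
  rw [e] at h1 h2
  obtain rfl : h = 60 := by omega
  exact (by decide +kernel : Chk 1 12 1 60 5 0 ![25, 25]
    ![25, 25]).numb

theorem c_1_13_1 (h : ℕ) (hc : Crit 1 13 1 h) : Numb 1 13 1 h := by
  obtain ⟨h1, h2⟩ := hc
  have e : NN (1 + 1) (13 + 2) = 136 := by decide +kernel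
  rw [e] at h1 h2
  obtain rfl : h = 68 := by omega
  exact (by decide +kernel : Chk 1 13 1 68 5 1 ![28, 29]
    ![28, 29]).numb

theorem c_1_14_1 (h : ℕ) (hc : Crit 1 14 1 h) : Numb 1 14 1 h := by
  obtain ⟨h1, h2⟩ := hc
  have e : NN (1 + 1) (14 + 2) = 153 := by decide +kernel
  rw [e] at h1 h2
  obtain rfl : h = 77 := by omega
  exact (by decide +kernel : Chk 1 14 1 77 5 2 ![31, 34]
    ![31, 34]).numb

theorem c_2_3_1 (h : ℕ) (hc : Crit 2 3 1 h) : Numb 2 3 1 h := by
  obtain ⟨h1, h2⟩ := hc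
  have e : NN (2 + 1) (3 + 2) = 56 := by decide +kernel
  rw [e] at h1 h2
  obtain rfl : h = 23 := by omega
  exact (by decide +kernel : Chk 2 3 1 23 5 1 ![5, 7]
    ![4, 4]).numb

theorem c_2_3_2 (h : ℕ) (hc : Crit 2 3 2 h) : Numb 2 3 2 h := by
  obtain ⟨h1, h2⟩ := hc
  have e : NN (2 + 1) (3 + 2) = 56 := by decide +kernel
  rw [e] at h1 h2
  obtain rfl : h = 28 := by omega
  exact (by decide +kernel : Chk 2 3 2 28 4 1 ![4, 6, 5]
    ![4, 4, 4]).numb

theorem c_2_4_1 (h : ℕ) (hc : Crit 2 4 1 h) : Numb 2 4 1 h := by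
  obtain ⟨h1, h2⟩ := hc
  have e : NN (2 + 1) (4 + 2) = 84 := by decide +kernel
  rw [e] at h1 h2
  obtain rfl : h = 34 := by omega
  exact (by decide +kernel : Chk 2 4 1 34 7 0 ![9, 11]
    ![8, 8]).numb

theorem c_2_4_2 (h : ℕ) (hc : Crit 2 4 2 h) : Numb 2 4 2 h := by
  obtain ⟨h1, h2⟩ := hc
  have e : NN (2 + 1) (4 + 2) = 84 := by decide +kernel
  rw [e] at h1 h2
  obtain rfl : h = 42 := by omega
  exact (by decide +kernel : Chk 2 4 2 42 5 3 ![6, 10, 8]
    ![6, 8, 8]).numb

theorem c_2_5_1 (h : ℕ) (hc : Crit 2 5 1 h) : Numb 2 5 1 h := by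
  obtain ⟨h1, h2⟩ := hc
  have e : NN (2 + 1) (5 + 2) = 120 := by decide +kernel
  rw [e] at h1 h2
  obtain rfl : h = 48 := by omega
  exact (by decide +kernel : Chk 2 5 1 48 9 0 ![15, 15]
    ![11, 11]).numb

theorem c_2_5_2 (h : ℕ) (hc : Crit 2 5 2 h) : Numb 2 5 2 h := by
  obtain ⟨h1, h2⟩ := hc
  have e : NN (2 + 1) (5 + 2) = 120 := by decide +kernel
  rw [e] at h1 h2
  obtain rfl : h = 60 := by omega
  exact (by decide +kernel : Chk 2 5 2 60 7 1 ![12, 15, 11]
    ![11, 11, 11]).numb

theorem c_3_3_1 (h : ℕ) (hc : Crit 3 3 1 h) : Numb 3 3 1 h := by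
  obtain ⟨h1, h2⟩ := hc
  have e : NN (3 + 1) (3 + 2) = 126 := by decide +kernel
  rw [e] at h1 h2
  obtain rfl : h = 42 := by omega
  exact (by decide +kernel : Chk 3 3 1 42 11 1 ![9, 10]
    ![5, 5]).numb

theorem c_3_3_2 (h : ℕ) (hc : Crit 3 3 2 h) : Numb 3 3 2 h := by
  obtain ⟨h1, h2⟩ := hc
  have e : NN (3 + 1) (3 + 2) = 126 := by decide +kernel
  rw [e] at h1 h2
  obtain rfl : h = 54 := by omega
  exact (by decide +kernel : Chk 3 3 2 54 9 2 ![7, 11, 7]
    ![5, 5, 5]).numb

theorem c_3_3_3 (h : ℕ) (hc : Crit 3 3 3 h) : Numb 3 3 3 h := by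
  obtain ⟨h1, h2⟩ := hc
  have e : NN (3 + 1) (3 + 2) = 126 := by decide +kernel
  rw [e] at h1 h2
  obtain rfl : h = 63 := by omega
  exact (by decide +kernel : Chk 3 3 3 63 8 0 ![7, 9, 9, 6]
    ![5, 5, 5, 5]).numb

theorem c_4_3_4 (h : ℕ) (hc : Crit 4 3 4 h) : Numb 4 3 4 h := by
  obtain ⟨h1, h2⟩ := hc
  have e : NN (4 + 1) (3 + 2) = 252 := by decide +kernel
  rw [e] at h1 h2
  obtain rfl : h = 126 := by omega
  exact (by decide +kernel : Chk 4 3 4 126 14 0 ![11, 14, 14, 14, 3]
    ![7, 7, 7, 7, 3]).numb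

end NSaux

open _root_.Pool.Agent.War5.NSaux in
theorem x_NS : S_NS := by
  intro n d r h hn hr hrn hd hS hc
  rcases hS with ⟨rfl, h2⟩ | ⟨rfl, h2⟩ | ⟨rfl, rfl⟩ | ⟨rfl, rfl, rfl⟩
  · obtain rfl : r = 1 := by omega
    interval_cases d
    · exact c_1_3_1 h hc
    · exact c_1_4_1 h hc
    · exact c_1_5_1 h hc
    · exact c_1_6_1 h hc
    · exact c_1_7_1 h hc
    · exact c_1_8_1 h hc
    · exact c_1_9_1 h hc
    · exact c_1_10_1 h hc
    · exact c_1_11_1 h hc
    · exact c_1_12_1 h hc
    · exact c_1_13_1 h hc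
    · exact c_1_14_1 h hc
  · interval_cases r
    · interval_cases d
      · exact c_2_3_1 h hc
      · exact c_2_4_1 h hc
      · exact c_2_5_1 h hc
    · interval_cases d
      · exact c_2_3_2 h hc
      · exact c_2_4_2 h hc
      · exact c_2_5_2 h hc
  · interval_cases r
    · exact c_3_3_1 h hc
    · exact c_3_3_2 h hc
    · exact c_3_3_3 h hc
  · exact c_4_3_4 h hc

end Pool.Agent.War5


end

section

/-!
# The windows of small level, `5 ≤ n ≤ 31`   (helper34)

A window `(n, b, x)`: `E(n - 1, b, x) < 0` and (`E(n, b, x) ≥ 0` or `x` is the first number with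
`E(n, b, x) < 0`). The program `winOK` checks the rank condition of the chain theorem for the flow of
`Num4`, or a decomposition into two blocks of the same level, or looks into the list `seedL`.
-/

set_option autoImplicit false

namespace Pool.Agent.WarR.SW

open Pool.Agent.WarR.N4

/-- the binomial coefficient `C(r, 2)` for the kernel -/
def c2 (r : ℕ) : ℕ := r * (r - 1) / 2

theorem c2_eq (r : ℕ) : c2 r = r.choose 2 := (Nat.choose_two_right r).symm

/-- the rank condition as a program -/
def rcb (m r₀ r₁ r₂ F₁ F₂ : ℕ) : Bool :=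
  Nat.ble (r₀ + r₁ + r₂) m ||
    (Nat.beq F₂ 0 && Nat.ble (r₀ + (r₁ - gt r₁ F₁)) m) ||
    (Nat.ble (r₀ + r₂) m && Nat.ble (r₀ + (r₁ - gt r₁ F₁) + gs r₂ F₂) m &&
      Nat.ble ((r₁ - gt r₁ F₁) + (r₂ - gs r₂ F₂) + (c2 r₁ - F₁)) (c2 (m - r₀ - gs r₂ F₂ + 1)))

theorem rcb_sound {m r₀ r₁ r₂ F₁ F₂ : ℕ} (h : rcb m r₀ r₁ r₂ F₁ F₂ = true) :
    RC m r₀ r₁ r₂ F₁ F₂ := by
  unfold rcb at h
  unfold RC
  simp only [Bool.or_eq_true, Bool.and_eq_true, Nat.ble_eq, Nat.beq_eq, c2_eq] at h
  tauto

/-- `C(r_k, 2) + c_(k+1)` -/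
def vv (n b x k : ℕ) : ℕ := c2 (rr b x k) + cc n b x (k + 1)

/-- the flow -/
def FF (n b x κ j : ℕ) : ℕ := κ - vv n b x (j + 1)

/-- the conditions for the form `k + 2` -/
def chk1 (n b x κ k : ℕ) : Bool :=
  Nat.ble (vv n b x (k + 1)) κ && Nat.ble (2 * FF n b x κ k) (rr b x k * (rr b x k - 1)) &&
    Nat.ble (rr b x k) (n + 1) &&
    rcb (n + 1) (rr b x (k + 2)) (rr b x (k + 1)) (rr b x k) (FF n b x κ (k + 1)) (FF n b x κ k)

/-- `f k` for all `k < N` -/
def allB (f : ℕ → Bool) : ℕ → Bool
  | 0 => true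
  | k + 1 => f k && allB f k

theorem allB_iff (f : ℕ → Bool) (N : ℕ) : allB f N = true ↔ ∀ k < N, f k = true := by
  induction N with
  | zero => simp [allB]
  | succ N ih =>
    rw [allB, Bool.and_eq_true, ih]
    constructor
    · rintro ⟨h1, h2⟩ k hk
      rcases Nat.lt_succ_iff_lt_or_eq.1 hk with h | rfl
      · exact h2 k h
      · exact h1
    · intro h
      exact ⟨h N (Nat.lt_succ_self N), fun k hk => h k (Nat.lt_succ_of_lt hk)⟩

/-- `f k` for some `k < N` -/
def anyB (f : ℕ → Bool) : ℕ → Bool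
  | 0 => false
  | k + 1 => f k || anyB f k

theorem anyB_iff (f : ℕ → Bool) (N : ℕ) : anyB f N = true ↔ ∃ k < N, f k = true := by
  induction N with
  | zero => simp [anyB]
  | succ N ih =>
    rw [anyB, Bool.or_eq_true, ih]
    constructor
    · rintro (h | ⟨k, hk, h⟩)
      · exact ⟨N, Nat.lt_succ_self N, h⟩
      · exact ⟨k, Nat.lt_succ_of_lt hk, h⟩
    · rintro ⟨k, hk, h⟩
      rcases Nat.lt_succ_iff_lt_or_eq.1 hk with h' | rfl
      · exact Or.inr ⟨k, h', h⟩
      · exact Or.inl h

/-- the maximum of the `vv` -/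
def mxv (n b x : ℕ) : ℕ → ℕ
  | 0 => 0
  | k + 1 => bif Nat.ble (mxv n b x k) (vv n b x k) then vv n b x k else mxv n b x k

/-- the check of the chain -/
def rcAll (n b x : ℕ) : Bool := allB (chk1 n b x (mxv n b x b)) b

theorem vv_add (n : ℕ) {b : ℕ} (x : ℕ) (hb : 0 < b) (k : ℕ) : vv n b x (k + b) = vv n b x k := by
  unfold vv
  rw [show k + b + 1 = k + 1 + b by omega, rr_add x hb, cc_add n x hb]

theorem FF_add (n : ℕ) {b : ℕ} (x κ : ℕ) (hb : 0 < b) (k : ℕ) :
    FF n b x κ (k + b) = FF n b x κ k := by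
  unfold FF
  rw [show k + b + 1 = k + 1 + b by omega, vv_add n x hb]

theorem chk1_add (n : ℕ) {b : ℕ} (x κ : ℕ) (hb : 0 < b) (k : ℕ) :
    chk1 n b x κ (k + b) = chk1 n b x κ k := by
  unfold chk1
  rw [show k + b + 1 = k + 1 + b by omega, show k + b + 2 = k + 2 + b by omega, vv_add n x hb,
    FF_add n x κ hb, FF_add n x κ hb, rr_add x hb, rr_add x hb, rr_add x hb]

theorem per_mod' {α : Type*} {b : ℕ} {r : ℕ → α} (h : ∀ k, r (k + b) = r k) (k : ℕ) :
    r (k % b) = r k := by
  have h1 : ∀ a j, r (j + b * a) = r j := by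
    intro a
    induction a with
    | zero => intro j; simp
    | succ a ih =>
      intro j
      rw [show j + b * (a + 1) = (j + b * a) + b by ring, h, ih]
  have h2 := h1 (k / b) (k % b)
  rw [Nat.mod_add_div] at h2
  exact h2.symm

/-- the chain theorem for the flow of `Num4`: both sides -/
theorem SS_of_chk {K : Type*} [Field K] [CharZero K] {n b x κ : ℕ} (hb : 3 ≤ b)
    (h : ∀ k < b, chk1 n b x κ k = true) : SS K (n + 1) b x := by
  have hb0 : 0 < b := by omega
  have hall : ∀ k, chk1 n b x κ k = true := by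
    intro k
    rw [← per_mod' (chk1_add n x κ hb0) k]
    exact h _ (Nat.mod_lt _ hb0)
  have hk : ∀ k, vv n b x (k + 1) ≤ κ ∧ 2 * FF n b x κ k ≤ rr b x k * (rr b x k - 1) ∧
      rr b x k ≤ n + 1 ∧ RC (n + 1) (rr b x (k + 2)) (rr b x (k + 1)) (rr b x k)
        (FF n b x κ (k + 1)) (FF n b x κ k) := by
    intro k
    have := hall k
    unfold chk1 at this
    simp only [Bool.and_eq_true, Nat.ble_eq] at this
    exact ⟨this.1.1.1, this.1.1.2, this.1.2, rcb_sound this.2⟩
  have hW : ∀ k, FF n b x κ k + (rr b x (k + 1)).choose 2 + n * rr b x (k + 2) =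
      WW n b x (k + 2) + (rr b x (k + 2)).choose 2 + FF n b x κ (k + 1) := by
    intro k
    have h1 := (hk k).1
    have h2 := (hk (k + 1)).1
    have h3 := WW_cc n x hb0 (k + 2)
    unfold FF
    unfold vv at *
    rw [c2_eq] at h1 h2
    rw [c2_eq, c2_eq]
    have e1 : k + 1 + 1 = k + 2 := rfl
    have e2 : k + 2 + 1 = k + 3 := rfl
    rw [e1] at *
    rw [e2] at *
    omega
  have hN : NV (n + 1) = (n + 2).choose 2 := by
    rw [Nat.choose_two_right]
    unfold NV
    rw [show n + 2 - 1 = n + 1 by omega, Nat.mul_comm]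
  constructor
  · intro s w hs hw
    rw [Nat.add_sub_cancel] at hw
    refine chain_sup (K := K) (c := w) hb (rr b x) (FF n b x κ) (WW n b x) (rr_add x hb0)
      (FF_add n x κ hb0) (sum_rr x hb0) (by rw [← hN]; omega) (fun k => (hk k).2.1)
      (fun k => (hk k).2.2.1) hW (fun k => (hk k).2.2.2) fun k => ?_
    refine le_trans ?_ (WW_bounds n x hb0 k).1
    rw [Nat.le_div_iff_mul_le hb0, Nat.mul_comm]
    exact hw
  · intro s w hs hw
    rw [Nat.add_sub_cancel] at hw ⊢
    refine chain_sub (K := K) (c := w) hb (rr b x) (FF n b x κ) (WW n b x) (rr_add x hb0)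
      (FF_add n x κ hb0) (WW_add n x hb0) (sum_rr x hb0) (by rw [← hN]; omega)
      (fun k => (hk k).2.1) (fun k => (hk k).2.2.1) hW (fun k => (hk k).2.2.2) (fun k => ?_)
      (sum_WW n x hb0)
    have h1 := (WW_bounds n x hb0 k).2
    have h2 : b * WW n b x k < b * (w + 1) := by rw [Nat.mul_add]; omega
    exact Nat.lt_succ_iff.1 (Nat.lt_of_mul_lt_mul_left h2)

/-- not the exception `b = 3`, `2 x = 3 n + 1` -/
def goodb (n b x : ℕ) : Bool := !(Nat.beq b 3 && Nat.beq (2 * x) (3 * n + 1))

/-- two blocks `(b1, x1)`, `(b - b1, x - x1)` of the same level, kernel `0` -/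
def bs1 (n b x w b1 x1 : ℕ) : Bool :=
  Nat.ble 2 b1 && Nat.ble (b1 + 2) b && Nat.ble b1 x1 && Nat.ble (b - b1 + x1) x &&
    Nat.ble (b1 * w) (n * x1) && Nat.ble ((b - b1) * w) (n * (x - x1)) &&
    goodb n b1 x1 && goodb n (b - b1) (x - x1)

/-- two blocks, kernel of the expected dimension -/
def bs2 (n b x w b1 x1 : ℕ) : Bool :=
  Nat.ble 2 b1 && Nat.ble (b1 + 2) b && Nat.ble b1 x1 && Nat.ble (b - b1 + x1) x &&
    Nat.ble (n * x1) (b1 * w) && Nat.ble (n * (x - x1)) ((b - b1) * w) &&
    goodb n b1 x1 && goodb n (b - b1) (x - x1)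

end SW

/-- the seeds `(n, b, x, y, r)`: `KQ K (n + 1) b x y r` -/
def seedL : List (ℕ × ℕ × ℕ × ℕ × ℕ) := [
  (5, 5, 9, 3, 0), (5, 6, 11, 1, 0), (6, 5, 11, 4, 0), (6, 6, 13, 2, 0), (6, 7, 13, 4, 0),
  (6, 7, 15, 0, 1), (7, 5, 13, 5, 0), (7, 5, 14, 3, 0), (7, 5, 14, 2, 2), (7, 7, 16, 4, 0),
  (7, 7, 17, 2, 0), (7, 7, 18, 0, 0), (7, 8, 17, 4, 1), (8, 6, 17, 5, 2), (8, 6, 19, 1, 0),
  (8, 7, 20, 2, 1), (8, 8, 21, 3, 0), (9, 7, 22, 5, 0), (9, 7, 24, 0, 1), (9, 8, 23, 6, 1),
  (9, 8, 25, 2, 0), (9, 9, 25, 5, 0), (9, 9, 26, 3, 0), (9, 10, 29, 0, 0), (10, 7, 27, 0, 3),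
  (10, 9, 28, 7, 0), (10, 10, 29, 8, 0), (10, 10, 31, 4, 0), (10, 10, 33, 0, 0), (10, 11, 32, 5, 0),
  (10, 11, 34, 1, 1), (11, 8, 31, 4, 3), (11, 8, 33, 0, 0), (11, 9, 32, 7, 0), (11, 9, 35, 0, 2),
  (11, 11, 35, 8, 0), (11, 11, 36, 6, 0), (11, 11, 37, 4, 0), (11, 11, 38, 2, 0), (11, 11, 39, 0, 0),
  (11, 12, 37, 7, 1), (12, 8, 33, 9, 0), (12, 9, 37, 5, 0), (12, 10, 39, 5, 2), (12, 10, 41, 1, 0),
  (12, 11, 43, 1, 1), (12, 12, 41, 9, 0), (12, 12, 43, 5, 0), (13, 9, 40, 7, 2), (13, 10, 43, 6, 1),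
  (13, 11, 45, 7, 0), (13, 12, 47, 7, 1), (13, 12, 49, 3, 0), (13, 13, 48, 9, 0), (13, 13, 49, 7, 0),
  (13, 13, 50, 5, 0), (13, 13, 51, 3, 0), (14, 10, 49, 2, 4), (14, 13, 53, 10, 0), (14, 14, 55, 10, 0),
  (14, 14, 57, 6, 0), (14, 14, 59, 2, 0), (14, 15, 59, 6, 0), (14, 15, 61, 2, 1), (15, 11, 54, 8, 4),
  (15, 11, 56, 4, 0), (15, 12, 59, 3, 3), (15, 13, 58, 11, 1), (15, 13, 59, 9, 0), (15, 15, 64, 8, 0),
  (15, 15, 67, 2, 0), (15, 15, 68, 0, 0), (15, 16, 65, 10, 1), (16, 12, 61, 11, 0), (16, 13, 64, 10, 3),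
  (16, 13, 66, 6, 0), (16, 14, 69, 5, 2), (16, 14, 71, 1, 0), (16, 15, 74, 0, 1), (16, 16, 71, 11, 0),
  (16, 16, 73, 7, 0), (16, 16, 75, 3, 0), (17, 15, 76, 9, 0), (17, 16, 79, 8, 1), (17, 16, 81, 4, 0),
  (17, 17, 79, 13, 0), (17, 17, 80, 11, 0), (17, 17, 81, 9, 0), (17, 17, 82, 7, 0), (17, 17, 83, 5, 0),
  (17, 17, 84, 3, 0), (18, 17, 86, 13, 0), (18, 18, 89, 12, 0), (18, 18, 91, 8, 0), (18, 18, 95, 0, 0),
  (18, 19, 94, 7, 0), (18, 19, 96, 3, 1), (19, 15, 89, 8, 4), (19, 16, 95, 2, 3), (19, 17, 93, 13, 1),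
  (19, 17, 94, 11, 0), (19, 19, 98, 14, 0), (19, 19, 99, 12, 0), (19, 19, 100, 10, 0), (19, 19, 101, 8, 0),
  (19, 19, 102, 6, 0), (19, 19, 103, 4, 0), (19, 19, 104, 2, 0), (19, 19, 105, 0, 0), (19, 20, 101, 13, 1),
  (20, 16, 97, 13, 0), (20, 17, 101, 11, 3), (20, 17, 103, 7, 0), (20, 18, 107, 5, 2), (20, 18, 109, 1, 0),
  (20, 20, 109, 13, 0), (20, 20, 111, 9, 0), (21, 19, 113, 15, 2), (21, 19, 115, 11, 0), (21, 20, 119, 9, 1),
  (21, 20, 121, 5, 0), (21, 21, 122, 9, 0), (21, 21, 124, 5, 0), (21, 21, 125, 3, 0), (22, 21, 127, 16, 0),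
  (22, 22, 131, 14, 0), (22, 22, 133, 10, 0), (22, 23, 137, 8, 0), (22, 23, 139, 4, 1), (23, 23, 142, 16, 0),
  (23, 23, 143, 14, 0), (23, 23, 144, 12, 0), (23, 23, 145, 10, 0), (23, 23, 146, 8, 0), (23, 23, 147, 6, 0),
  (23, 23, 148, 4, 0), (23, 23, 149, 2, 0), (23, 24, 145, 16, 1), (24, 24, 155, 15, 0), (25, 23, 160, 17, 2),
  (25, 24, 167, 10, 1), (25, 25, 173, 5, 0), (25, 25, 174, 3, 0), (26, 25, 176, 19, 0), (26, 26, 179, 20, 0),
  (26, 26, 181, 16, 0), (26, 26, 183, 12, 0), (26, 27, 188, 9, 0), (26, 27, 190, 5, 1), (27, 28, 197, 19, 1),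
  (31, 32, 257, 22, 1)]

/-- the hypothesis: the seeds -/
def SeedH (K : Type*) [Field K] : Prop :=
  ∀ p ∈ seedL, KQ K (p.1 + 1) p.2.1 p.2.2.1 p.2.2.2.1 p.2.2.2.2

namespace SW

/-- membership in the list of the seeds -/
def memS (n b x y r : ℕ) : Bool :=
  seedL.any fun p => Nat.beq p.1 n && Nat.beq p.2.1 b && Nat.beq p.2.2.1 x &&
    Nat.beq p.2.2.2.1 y && Nat.beq p.2.2.2.2 r

/-- kernel `0` with `w` -/
def supAt (n b x w : ℕ) : Bool :=
  anyB (fun b1 => bs1 n b x w b1 ((b1 * w + n - 1) / n)) b || memS n b x (NV (n + 1) - x - w) 0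

/-- the expected kernel with `w` -/
def subAt (n b x w : ℕ) : Bool :=
  anyB (fun b1 => bs2 n b x w b1 (b1 * w / n)) b ||
    memS n b x (NV (n + 1) - x - w) (b * w - n * x)

/-- the check of one window -/
def winOK (n b x : ℕ) : Bool :=
  rcAll n b x ||
  bif Nat.blt (b * NV (n + 1)) (x * (n + b)) then supAt n b x (NV (n + 1) - x)
  else subAt n b x ((n * x + b - 1) / b) &&
    (Nat.beq (n * x % b) 0 || supAt n b x ((n * x + b - 1) / b - 1))

/-- all windows of the level `n` -/
def lvl (n : ℕ) : Bool :=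
  allB (fun i => allB (fun j => winOK n (5 + i) ((5 + i) * NV n / (n - 1 + (5 + i)) + 1 + j))
    ((5 + i) * NV (n + 1) / (n + (5 + i)) + 1 - (5 + i) * NV n / (n - 1 + (5 + i)))) (n - 3)

end Pool.Agent.WarR.SW


end

section

/-!
# The windows of small level, `5 ≤ n ≤ 31`: soundness of the program   (helper34)
-/

set_option autoImplicit false

namespace Pool.Agent.WarR.SW

open Pool.Agent.WarR.N4

theorem goodb_sound {n b x : ℕ} (h : goodb n b x = true) : Good n b x := by
  rintro ⟨rfl, h2⟩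
  unfold goodb at h
  simp only [Bool.not_eq_true', Bool.and_eq_false_iff] at h
  rcases h with h | h
  · simp at h
  · rw [Bool.eq_false_iff] at h
    exact h (Nat.beq_eq ▸ h2)

theorem memS_sound {K : Type*} [Field K] (hS : SeedH K) {n b x y r : ℕ}
    (h : memS n b x y r = true) : KQ K (n + 1) b x y r := by
  unfold memS at h
  rw [List.any_eq_true] at h
  obtain ⟨p, hp, h⟩ := h
  simp only [Bool.and_eq_true, Nat.beq_eq] at h
  obtain ⟨⟨⟨⟨h1, h2⟩, h3⟩, h4⟩, h5⟩ := h
  have := hS p hp
  rw [h1, h2, h3, h4, h5] at this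
  exact this

section

variable {K : Type*} [Field K] [CharZero K]

theorem supAt_sound (hS : SeedH K) {n b x w : ℕ} (h : supAt n b x w = true)
    (hx : x + w ≤ NV (n + 1))
    (IH : ∀ b' x', 2 ≤ b' → b' < b → b' ≤ x' → Good n b' x' → SS K (n + 1) b' x') :
    KQ K (n + 1) b x (NV (n + 1) - x - w) 0 := by
  unfold supAt at h
  rw [Bool.or_eq_true] at h
  rcases h with h | h
  · obtain ⟨b1, hb1, h⟩ := (anyB_iff _ _).1 h
    generalize (b1 * w + n - 1) / n = x1 at h
    unfold bs1 at h
    simp only [Bool.and_eq_true, Nat.ble_eq] at h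
    obtain ⟨⟨⟨⟨⟨⟨⟨h1, h2⟩, h3⟩, h4⟩, h5⟩, h6⟩, h7⟩, h8⟩ := h
    have S1 := (IH b1 x1 h1 (by omega) h3 (goodb_sound h7)).1
    have S2 := (IH (b - b1) (x - x1) (by omega) (by omega) (by omega) (goodb_sound h8)).1
    have k1 := S1 (NV (n + 1) - x - w + (x - x1)) w (by omega) (by rw [Nat.add_sub_cancel]; exact h5)
    have k2 := S2 (NV (n + 1) - x - w + x1) w (by omega) (by rw [Nat.add_sub_cancel]; exact h6)
    have := KQ.blocks k1 k2
    rwa [show b1 + (b - b1) = b by omega, show x1 + (x - x1) = x by omega] at this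
  · exact memS_sound hS h

theorem subAt_sound (hS : SeedH K) {n b x w : ℕ} (h : subAt n b x w = true)
    (hx : x + w ≤ NV (n + 1))
    (IH : ∀ b' x', 2 ≤ b' → b' < b → b' ≤ x' → Good n b' x' → SS K (n + 1) b' x') :
    KQ K (n + 1) b x (NV (n + 1) - x - w) (b * w - n * x) := by
  unfold subAt at h
  rw [Bool.or_eq_true] at h
  rcases h with h | h
  · obtain ⟨b1, hb1, h⟩ := (anyB_iff _ _).1 h
    generalize b1 * w / n = x1 at h
    unfold bs2 at h
    simp only [Bool.and_eq_true, Nat.ble_eq] at h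
    obtain ⟨⟨⟨⟨⟨⟨⟨h1, h2⟩, h3⟩, h4⟩, h5⟩, h6⟩, h7⟩, h8⟩ := h
    have S1 := (IH b1 x1 h1 (by omega) h3 (goodb_sound h7)).2
    have S2 := (IH (b - b1) (x - x1) (by omega) (by omega) (by omega) (goodb_sound h8)).2
    have k1 := S1 (NV (n + 1) - x - w + (x - x1)) w (by omega) (by rw [Nat.add_sub_cancel]; exact h5)
    have k2 := S2 (NV (n + 1) - x - w + x1) w (by omega) (by rw [Nat.add_sub_cancel]; exact h6)
    have := KQ.blocks k1 k2
    rw [show b1 + (b - b1) = b by omega, show x1 + (x - x1) = x by omega] at this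
    refine this.mono ?_
    rw [Nat.add_sub_cancel]
    have e1 : b * w = b1 * w + (b - b1) * w := by
      rw [← Nat.add_mul]; congr 1; omega
    have e2 : n * x = n * x1 + n * (x - x1) := by
      rw [← Nat.mul_add]; congr 1; omega
    omega
  · exact memS_sound hS h

theorem winOK_sound (hS : SeedH K) {n b x : ℕ} (hn : 1 ≤ n) (hb : 5 ≤ b) (hx1 : 1 ≤ x)
    (h : winOK n b x = true) (hhi : (x - 1) * (n + b) ≤ b * NV (n + 1))
    (IH : ∀ b' x', 2 ≤ b' → b' < b → b' ≤ x' → Good n b' x' → SS K (n + 1) b' x') :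
    SS K (n + 1) b x := by
  unfold winOK at h
  rw [Bool.or_eq_true] at h
  rcases h with h | h
  · exact SS_of_chk (by omega) ((allB_iff _ _).1 h)
  · rcases hE : Nat.blt (b * NV (n + 1)) (x * (n + b)) with _ | _
    · rw [hE, cond_false, Bool.and_eq_true, Bool.or_eq_true] at h
      have hE' : x * (n + b) ≤ b * NV (n + 1) := by
        by_contra hc
        have : Nat.blt (b * NV (n + 1)) (x * (n + b)) = true := by
          rw [Nat.blt_eq]; omega
        rw [this] at hE
        cases hE
      obtain ⟨h1, h2⟩ := h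
      obtain ⟨s, w, hs, hw1, hw2⟩ := exists_crit (m := n + 1) (b := b) (x := x) (by omega)
        (by rw [Nat.add_sub_cancel]; exact hE')
      rw [Nat.add_sub_cancel] at hw1 hw2
      have hw : (n * x + b - 1) / b = w := by
        refine Nat.div_eq_of_lt_le ?_ ?_
        · rw [Nat.mul_comm]; omega
        · rw [Nat.add_mul, Nat.mul_comm w b]; omega
      rw [hw] at h1 h2
      have k1 := subAt_sound hS h1 (by omega) IH
      have es : NV (n + 1) - x - w = s := by omega
      rw [es] at k1
      refine SS.of_crit hs (by rw [Nat.add_sub_cancel]; exact hw1)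
        (by rw [Nat.add_sub_cancel]; exact hw2) (by rw [Nat.add_sub_cancel]; exact k1) ?_
      rcases h2 with h2 | h2
      · have h3 : n * x % b = 0 := by
          rw [Nat.beq_eq] at h2
          exact h2
        have h4 : b * w = n * x := by
          obtain ⟨c, hc⟩ := Nat.dvd_of_mod_eq_zero h3
          rw [hc] at hw1 hw2 ⊢
          have a1 : c ≤ w := Nat.le_of_mul_le_mul_left hw1 (by omega)
          have a2 : w < c + 1 := by
            refine Nat.lt_of_mul_lt_mul_left (a := b) ?_
            rw [Nat.mul_add]; omega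
          have : w = c := by omega
          rw [this]
        rw [h4, Nat.sub_self] at k1
        simpa using k1.add_simple 1
      · have hw0 : 1 ≤ w := by
          by_contra hc
          have : w = 0 := by omega
          subst this
          have h3 : 0 < n * x := Nat.mul_pos hn hx1
          omega
        have k2 := supAt_sound hS h2 (by omega) IH
        rwa [show NV (n + 1) - x - (w - 1) = s + 1 by omega] at k2
    · rw [hE, cond_true] at h
      rw [Nat.blt_eq] at hE
      have hx : x ≤ NV (n + 1) := by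
        by_contra hc
        have h1 : NV (n + 1) ≤ x - 1 := by omega
        have h2 : NV (n + 1) * (n + b) ≤ b * NV (n + 1) := (Nat.mul_le_mul_right _ h1).trans hhi
        have h3 : 0 < NV (n + 1) := by
          have := two_NV (n + 1)
          have : 0 < (n + 1) * (n + 1 + 1) := by positivity
          omega
        have h4 : NV (n + 1) * (n + b) = NV (n + 1) * n + b * NV (n + 1) := by ring
        have h5 : 0 < NV (n + 1) * n := Nat.mul_pos h3 hn
        omega
      have k := supAt_sound hS h (by omega) IH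
      rw [show NV (n + 1) - x - (NV (n + 1) - x) = 0 by omega] at k
      exact SS.of_neg (by rw [Nat.add_sub_cancel]; exact hE) hx k

end

/-- one level -/
theorem win_of_lvl {K : Type*} [Field K] [CharZero K] (hS : SeedH K) {n b x : ℕ} (hn : 5 ≤ n)
    (hl : lvl n = true) (hb : 5 ≤ b) (hbn : b ≤ n + 1) (hlo : b * NV n < x * (n - 1 + b))
    (hhi : (x - 1) * (n + b) ≤ b * NV (n + 1))
    (IH : ∀ b' x', 2 ≤ b' → b' < b → b' ≤ x' → Good n b' x' → SS K (n + 1) b' x') :
    SS K (n + 1) b x := by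
  unfold lvl at hl
  have h1 := (allB_iff _ _).1 hl (b - 5) (by omega)
  beta_reduce at h1
  rw [show 5 + (b - 5) = b by omega] at h1
  have hx0 : 1 ≤ x := by
    by_contra hc
    have : x = 0 := by omega
    subst this
    simp at hlo
  have a1 : b * NV n / (n - 1 + b) < x := by
    rw [Nat.div_lt_iff_lt_mul (by omega)]
    exact hlo
  have a2 : x - 1 ≤ b * NV (n + 1) / (n + b) := by
    rw [Nat.le_div_iff_mul_le (by omega)]
    exact hhi
  have h2 := (allB_iff _ _).1 h1 (x - (b * NV n / (n - 1 + b) + 1)) (by omega)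
  beta_reduce at h2
  rw [show b * NV n / (n - 1 + b) + 1 + (x - (b * NV n / (n - 1 + b) + 1)) = x by omega] at h2
  exact winOK_sound hS (by omega) hb hx0 h2 hhi IH

end Pool.Agent.WarR.SW


end

section

/-!
# The windows of small level, `5 ≤ n ≤ 31`: evaluation in the kernel   (helper34)
-/

set_option autoImplicit false
set_option maxRecDepth 100000

namespace Pool.Agent.WarR

open Pool.Agent.WarR.SW

theorem lvl_a : allB (fun i => lvl (5 + i)) 17 = true := by decide +kernel

theorem lvl_b : allB (fun i => lvl (22 + i)) 6 = true := by decide +kernel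

theorem lvl_c : allB (fun i => lvl (28 + i)) 4 = true := by decide +kernel

theorem lvl_all {n : ℕ} (h1 : 5 ≤ n) (h2 : n ≤ 31) : lvl n = true := by
  rcases Nat.lt_or_ge n 22 with h | h
  · have := (allB_iff _ _).1 lvl_a (n - 5) (by omega)
    beta_reduce at this
    rwa [show 5 + (n - 5) = n by omega] at this
  rcases Nat.lt_or_ge n 28 with h' | h'
  · have := (allB_iff _ _).1 lvl_b (n - 22) (by omega)
    beta_reduce at this
    rwa [show 22 + (n - 22) = n by omega] at this
  · have := (allB_iff _ _).1 lvl_c (n - 28) (by omega)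
    beta_reduce at this
    rwa [show 28 + (n - 28) = n by omega] at this

/-- **All windows with `5 ≤ n ≤ 31`**, from the seeds. -/
theorem win_small {K : Type*} [Field K] [CharZero K] (hS : SeedH K) (n b x : ℕ) (hn : 5 ≤ n)
    (hn' : n ≤ 31) (hb : 5 ≤ b) (hbn : b ≤ n + 1) (hlo : b * NV n < x * (n - 1 + b))
    (hhi : (x - 1) * (n + b) ≤ b * NV (n + 1))
    (IH : ∀ b' x', 2 ≤ b' → b' < b → b' ≤ x' → Good n b' x' → SS K (n + 1) b' x') :
    SS K (n + 1) b x :=
  win_of_lvl hS hn (lvl_all hn hn') hb hbn hlo hhi IH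

end Pool.Agent.WarR


end

section

/-!
# The windows of small level in the form of `As.lean`   (helper34)
-/

set_option autoImplicit false

namespace Pool.Agent.WarR

theorem Win_small {K : Type*} [Field K] [CharZero K] (hS : SeedH K) (n : ℕ) (hn : 5 ≤ n)
    (hn' : n ≤ 31) : Win K n :=
  fun b x h1 h2 h3 h4 h5 => win_small hS n b x hn hn' h1 h2 h3 h4 h5

end Pool.Agent.WarR


end

section

/-!
# Seeds of degree two: star limits with plane transfers (MP_db021c_ag)   (helper31)

Data found by a search; every form is certified by an inverse matrix modulo 2 (`SeedD.form`).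
-/

set_option autoImplicit false
set_option maxRecDepth 100000

namespace Pool.Agent.WarR

namespace T_12_12_41_9

def S : SeedD where
  m := 13
  b := 12
  x := 41
  y := 9
  rI := [[0], [1], [2], [3], [4], [5], [6], [7], [8], [9], [10], [11], [12], [13], [14], [15], [16],
    [17], [18], [19], [20], [21], [22], [23], [24], [25], [26], [27], [24, 9, 11], [28], [29],
    [30], [31], [32], [33], [34], [26, 14, 15], [35], [36], [37], [38]]
  rJ := [[2, 5, 6], [39], [40], [41], [42], [43], [17, 0, 1], [44], [20, 16, 18]]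
  g := [0, 0, 0, 0, 1, 1, 1, 1, 2, 2, 2, 2, 3, 3, 3, 3, 4, 4, 4, 4, 5, 5, 5, 6, 6, 6, 7, 7, 7, 8, 8,
    8, 9, 9, 9, 10, 10, 10, 11, 11, 11]
  lab := [11, 5, 6, 0, 7, 5, 6, 1, 6, 9, 11, 2, 6, 10, 9, 3, 8, 10, 11, 4, 9, 7, 5, 10, 7, 6, 8, 5,
    7, 11, 9, 8, 7, 8, 9, 5, 8, 10, 10, 7, 11]
  ord := [0, 1, 2, 3, 0, 1, 2, 3, 0, 1, 2, 3, 0, 1, 2, 3, 0, 1, 2, 3, 0, 1, 2, 0, 1, 2, 0, 1, 2, 0,
    1, 2, 0, 1, 2, 0, 1, 2, 0, 1, 2]
  tr := [(9, 11, 24, 28), (14, 15, 26, 36), (16, 18, 20, 49), (5, 6, 2, 41), (0, 1, 17, 47)]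

def C0 : List ℕ := [1, 2, 4, 8, 2176, 4096, 64, 3072, 2064, 512, 5120, 1024, 2304, 288, 256, 2048,
  1280, 32, 48, 2560, 128, 1056, 4352, 544, 16, 96, 320, 2080, 640, 1040, 576, 1088, 4608, 768,
  528, 4112, 80, 4128, 4224, 1152, 192, 144, 6144, 272, 384]

def E0 : List (ℕ × ℕ × ℕ) := [(0, 0, 0), (2, 0, 1), (2, 0, 2), (2, 0, 3), (2, 0, 4), (2, 0, 5),
  (2, 0, 6), (2, 0, 7), (2, 0, 8), (2, 0, 9), (2, 0, 10), (2, 0, 11), (2, 0, 12), (0, 1, 0), (2,
  1, 2), (2, 1, 3), (2, 1, 4), (2, 1, 5), (2, 1, 6), (2, 1, 7), (2, 1, 8), (2, 1, 9), (2, 1, 10),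
  (2, 1, 11), (2, 1, 12), (0, 2, 0), (2, 2, 3), (2, 2, 4), (2, 2, 5), (2, 2, 6), (2, 2, 7), (2, 2,
  8), (2, 2, 9), (2, 2, 10), (2, 2, 11), (2, 2, 12), (0, 3, 0), (2, 3, 4), (2, 3, 5), (2, 3, 6),
  (2, 3, 7), (2, 3, 8), (2, 3, 9), (2, 3, 10), (2, 3, 11), (2, 3, 12), (0, 4, 0), (0, 5, 0), (0,
  6, 0), (0, 7, 0), (0, 8, 0), (0, 9, 0), (0, 10, 0), (0, 11, 0), (0, 12, 0), (0, 13, 0), (0, 14,
  0), (0, 15, 0), (0, 16, 0), (0, 17, 0), (0, 18, 0), (0, 19, 0), (0, 20, 0), (0, 21, 0), (0, 22,
  0), (0, 23, 0), (0, 24, 0), (0, 25, 0), (0, 26, 0), (0, 27, 0), (0, 28, 0), (0, 29, 0), (0, 30,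
  0), (0, 31, 0), (0, 32, 0), (0, 33, 0), (0, 34, 0), (0, 35, 0), (0, 36, 0), (0, 37, 0), (0, 38,
  0), (0, 39, 0), (0, 40, 0), (1, 0, 0), (1, 1, 0), (1, 2, 0), (1, 3, 0), (1, 4, 0), (1, 5, 0),
  (1, 7, 0), (1, 8, 0)]

def T0 : List (List ℕ) := [[1, 2, 4, 8, 16, 32, 64, 128, 256, 512, 1024, 2048, 4096], [8192,
  16384, 32768, 65536, 131072, 262144, 524288, 1048576, 2097152, 4194304, 8388608, 16777216],
  [33554432, 67108864, 134217728, 268435456, 536870912, 1073741824, 2147483648, 4294967296,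
  8589934592, 17179869184, 34359738368], [68719476736, 137438953472, 274877906944, 549755813888,
  1099511627776, 2199023255552, 4398046511104, 8796093022208, 17592186044416, 35184372088832],
  [73786976294838206464, 75516358551748476928, 1208999606872398989623296,
  77371330853998580446789632, 309485083680378957600915456, 151189516679923298729984,
  4796162466363738161152, 73932217382820904960, 604536696924346913914880], [576460752303423488,
  148150694816956547072, 2263113941253662487458349056, 684547143360315392, 37472200699536211968,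
  9808839988412940288, 591016386299084931072, 2417852215830748141191168], [281474976710656,
  38685630839635626994696192, 295220244248367464448, 9444735499014080823296,
  18889475220152812306432, 302231599300320346243072, 9671406557339280792879104],
  [4611686018427387904, 618970024326433749914877952, 2365797179253063680000,
  19342817734527284477427712, 4755871575247421440, 4835707890285272614567936], [72057594037927936,
  75557938035308175032320, 369295169444380672, 234187180623265792, 18518942405235834880],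
  [2251799813685248, 157092472531710541561856, 2452209997103235072, 37778934255494463750144],
  [9007199254740992, 153685337284018176, 13651536370466816], [144115188075855872,
  154742505054928459926601728], [140737488355328]]

theorem f0 : S.form 0 C0 E0 T0 0 = true := by decide +kernel

def C1 : List ℕ := [2048, 640, 1024, 80, 1, 2, 4, 8, 4160, 128, 3072, 32, 96, 4224, 4096, 256,
  2176, 48, 16, 288, 1536, 272, 6144, 320, 64, 1056, 512, 160, 2112, 2560, 4352, 144, 1088, 2080,
  1280, 4608, 5120, 1040, 4128, 528, 544, 4112, 576, 2304, 384]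

def E1 : List (ℕ × ℕ × ℕ) := [(0, 4, 0), (2, 4, 1), (2, 4, 2), (2, 4, 3), (2, 4, 4), (2, 4, 5),
  (2, 4, 6), (2, 4, 7), (2, 4, 8), (2, 4, 9), (2, 4, 10), (2, 4, 11), (2, 4, 12), (0, 5, 0), (2,
  5, 2), (2, 5, 3), (2, 5, 4), (2, 5, 5), (2, 5, 6), (2, 5, 7), (2, 5, 8), (2, 5, 9), (2, 5, 10),
  (2, 5, 11), (2, 5, 12), (0, 6, 0), (2, 6, 3), (2, 6, 4), (2, 6, 5), (2, 6, 6), (2, 6, 7), (2, 6,
  8), (2, 6, 9), (2, 6, 10), (2, 6, 11), (2, 6, 12), (0, 7, 0), (2, 7, 4), (2, 7, 5), (2, 7, 6),
  (2, 7, 7), (2, 7, 8), (2, 7, 9), (2, 7, 10), (2, 7, 11), (2, 7, 12), (0, 0, 0), (0, 1, 0), (0,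
  2, 0), (0, 3, 0), (0, 8, 0), (0, 9, 0), (0, 10, 0), (0, 11, 0), (0, 12, 0), (0, 13, 0), (0, 14,
  0), (0, 15, 0), (0, 16, 0), (0, 17, 0), (0, 18, 0), (0, 19, 0), (0, 20, 0), (0, 21, 0), (0, 22,
  0), (0, 23, 0), (0, 24, 0), (0, 25, 0), (0, 26, 0), (0, 27, 0), (0, 28, 0), (0, 29, 0), (0, 30,
  0), (0, 31, 0), (0, 32, 0), (0, 33, 0), (0, 34, 0), (0, 35, 0), (0, 36, 0), (0, 37, 0), (0, 38,
  0), (0, 39, 0), (0, 40, 0), (1, 1, 0), (1, 2, 0), (1, 3, 0), (1, 4, 0), (1, 5, 0), (1, 6, 0),
  (1, 7, 0), (1, 8, 0)]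

def T1 : List (List ℕ) := [[1, 2, 4, 8, 16, 32, 64, 128, 256, 512, 1024, 2048, 4096], [8192,
  16384, 32768, 65536, 131072, 262144, 524288, 1048576, 2097152, 4194304, 8388608, 16777216],
  [33554432, 67108864, 134217728, 268435456, 536870912, 1073741824, 2147483648, 4294967296,
  8589934592, 17179869184, 34359738368], [68719476736, 137438953472, 274877906944, 549755813888,
  1099511627776, 2199023255552, 4398046511104, 8796093022208, 17592186044416, 35184372088832],
  [1152921504606846976, 1738389456165011456, 74940460749398474752, 18890621104783001387008,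
  10520408729537478656, 9671702857743717357322240, 2417852792432237932969984,
  338599285508042834537611264, 38685627452647232235372544], [9007199254740992,
  73813997892602429440, 590307069357774077952, 2458965396544290816, 19343108270746445402865664,
  147583241263907864576, 75557872803482322337792, 4835703359523309991493632],
  [73786976294838206464, 1770914452673881178112, 110824579630333165568,
  77371621390217741372227584, 37852719120726976626688, 2434970288098404990976,
  73860159788782977024], [2251799813685248, 618970019789057125339103232, 295150297716654866432,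
  1569261867223234311224295424, 290552544709574656, 110338190870577152], [144115188075855872,
  916139169734305209384960, 151115871848491699404800, 154742505054858091182424064,
  9444949138521404211200], [295147905179352825856, 299759872672756924416, 5017514458417742217216,
  604758129770087978106880], [281474976710656, 4855443348258816, 1208925891953698189344768],
  [70368744177664, 18518872036491657216], [72057594037927936]]

theorem f1 : S.form 1 C1 E1 T1 0 = true := by decide +kernel

def C2 : List ℕ := [512, 64, 2080, 384, 80, 32, 160, 544, 1, 2, 4, 8, 1088, 320, 1024, 2048, 4096,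
  256, 16, 48, 3072, 1536, 144, 5120, 128, 4160, 4608, 576, 288, 6144, 2304, 2112, 1056, 4352,
  4224, 528, 4128, 272, 96, 2064, 640, 1040, 192, 1280, 1152]

def E2 : List (ℕ × ℕ × ℕ) := [(0, 8, 0), (2, 8, 1), (2, 8, 2), (2, 8, 3), (2, 8, 4), (2, 8, 5),
  (2, 8, 6), (2, 8, 7), (2, 8, 8), (2, 8, 9), (2, 8, 10), (2, 8, 11), (2, 8, 12), (0, 9, 0), (2,
  9, 2), (2, 9, 3), (2, 9, 4), (2, 9, 5), (2, 9, 6), (2, 9, 7), (2, 9, 8), (2, 9, 9), (2, 9, 10),
  (2, 9, 11), (2, 9, 12), (0, 10, 0), (2, 10, 3), (2, 10, 4), (2, 10, 5), (2, 10, 6), (2, 10, 7),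
  (2, 10, 8), (2, 10, 9), (2, 10, 10), (2, 10, 11), (2, 10, 12), (0, 11, 0), (2, 11, 4), (2, 11,
  5), (2, 11, 6), (2, 11, 7), (2, 11, 8), (2, 11, 9), (2, 11, 10), (2, 11, 11), (2, 11, 12), (0,
  0, 0), (0, 1, 0), (0, 2, 0), (0, 3, 0), (0, 4, 0), (0, 5, 0), (0, 6, 0), (0, 7, 0), (0, 12, 0),
  (0, 13, 0), (0, 14, 0), (0, 15, 0), (0, 16, 0), (0, 17, 0), (0, 18, 0), (0, 19, 0), (0, 20, 0),
  (0, 21, 0), (0, 22, 0), (0, 23, 0), (0, 24, 0), (0, 25, 0), (0, 26, 0), (0, 27, 0), (0, 29, 0),
  (0, 30, 0), (0, 31, 0), (0, 32, 0), (0, 33, 0), (0, 34, 0), (0, 35, 0), (0, 36, 0), (0, 37, 0),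
  (0, 38, 0), (0, 39, 0), (0, 40, 0), (1, 0, 0), (1, 1, 0), (1, 2, 0), (1, 3, 0), (1, 4, 0), (1,
  5, 0), (1, 6, 0), (1, 7, 0), (1, 8, 0)]

def T2 : List (List ℕ) := [[1, 2, 4, 8, 16, 32, 64, 128, 256, 512, 1024, 2048, 4096], [8192,
  16384, 32768, 65536, 131072, 262144, 524288, 1048576, 2097152, 4194304, 8388608, 16777216],
  [33554432, 67108864, 134217728, 268435456, 536870912, 1073741824, 2147483648, 4294967296,
  8589934592, 17179869184, 34359738368], [68719476736, 137438953472, 274877906944, 549755813888,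
  1099511627776, 2199023255552, 4398046511104, 8796093022208, 17592186044416, 35184372088832],
  [1152921504606846976, 3461016313634226176, 1154188142002044928, 93386641873154605056,
  1208927548996886084976640, 302232607895530644701184, 38685627452647232235372544,
  9671407853953726080352256, 1286299476199532923315027968], [2251799813685248,
  2417851641621795651452928, 73793731694279262208, 1181170333269528412160, 11329367812603904,
  18889540240872432467968, 146648462866251776, 604463200289490552750080], [140737488355328,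
  77371326242453299507757056, 612630286810742784, 590296021464938184704, 90212730035765248,
  9444877221664854638592, 147862323703316480000], [73786976294838206464, 74363999997095051264,
  19342886900880730377682944, 618970093501724026325696512, 4835703285495391116591104,
  75631938932585313337344], [576460752303423488, 309485600153324961937752064,
  154742505559190880703741952, 4723087058810024493056, 37779796554085616844800], [70368744177664,
  9295499999636881408, 153822931330202343571456, 295436205924248715264], [72057594037927936,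
  4827858800541171712, 37253776117608742912], [144115188075855872, 2361615586999050174464],
  [288230376151711744]]

theorem f2 : S.form 2 C2 E2 T2 0 = true := by decide +kernel

def C3 : List ℕ := [64, 1152, 128, 576, 4608, 1024, 2048, 288, 2560, 16, 640, 32, 1, 2, 4, 8, 272,
  80, 256, 528, 1088, 2176, 1280, 4128, 4096, 1536, 512, 5120, 4112, 4224, 160, 2064, 768, 2304,
  544, 320, 4160, 96, 4352, 192, 6144, 2080, 384, 2112, 1056]

def E3 : List (ℕ × ℕ × ℕ) := [(0, 12, 0), (2, 12, 1), (2, 12, 2), (2, 12, 3), (2, 12, 4), (2, 12,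
  5), (2, 12, 6), (2, 12, 7), (2, 12, 8), (2, 12, 9), (2, 12, 10), (2, 12, 11), (2, 12, 12), (0,
  13, 0), (2, 13, 2), (2, 13, 3), (2, 13, 4), (2, 13, 5), (2, 13, 6), (2, 13, 7), (2, 13, 8), (2,
  13, 9), (2, 13, 10), (2, 13, 11), (2, 13, 12), (0, 14, 0), (2, 14, 3), (2, 14, 4), (2, 14, 5),
  (2, 14, 6), (2, 14, 7), (2, 14, 8), (2, 14, 9), (2, 14, 10), (2, 14, 11), (2, 14, 12), (0, 15,
  0), (2, 15, 4), (2, 15, 5), (2, 15, 6), (2, 15, 7), (2, 15, 8), (2, 15, 9), (2, 15, 10), (2, 15,
  11), (2, 15, 12), (0, 0, 0), (0, 1, 0), (0, 2, 0), (0, 3, 0), (0, 4, 0), (0, 5, 0), (0, 6, 0),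
  (0, 7, 0), (0, 8, 0), (0, 9, 0), (0, 10, 0), (0, 11, 0), (0, 16, 0), (0, 17, 0), (0, 18, 0), (0,
  19, 0), (0, 20, 0), (0, 21, 0), (0, 22, 0), (0, 23, 0), (0, 24, 0), (0, 25, 0), (0, 26, 0), (0,
  27, 0), (0, 28, 0), (0, 29, 0), (0, 30, 0), (0, 31, 0), (0, 32, 0), (0, 33, 0), (0, 34, 0), (0,
  35, 0), (0, 37, 0), (0, 38, 0), (0, 39, 0), (0, 40, 0), (1, 0, 0), (1, 1, 0), (1, 2, 0), (1, 3,
  0), (1, 4, 0), (1, 5, 0), (1, 6, 0), (1, 7, 0), (1, 8, 0)]

def T3 : List (List ℕ) := [[1, 2, 4, 8, 16, 32, 64, 128, 256, 512, 1024, 2048, 4096], [8192,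
  16384, 32768, 65536, 131072, 262144, 524288, 1048576, 2097152, 4194304, 8388608, 16777216],
  [33554432, 67108864, 134217728, 268435456, 536870912, 1073741824, 2147483648, 4294967296,
  8589934592, 17179869184, 34359738368], [68719476736, 137438953472, 274877906944, 549755813888,
  1099511627776, 2199023255552, 4398046511104, 8796093022208, 17592186044416, 35184372088832],
  [36028797018963968, 3652455326594491219968, 612559918066565120, 1547425054331112017606213632,
  1477180677777522688, 297489776985585483776, 1237940044473597414374113280,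
  18889506463875227189248, 2435006246526679777280], [144115188075855872,
  1208925963800185994739712, 9444877362402342993920, 1306043891937443840,
  151411019472196075520000, 618970019789057125339103232, 38685626376286921293824000,
  110824579630333165568], [70368744177664, 9671406557268877118537728, 302232607895530644701184,
  295148538498050424832, 4614008186985250816, 154742504915246502733938688,
  604536696853978169737216], [281474976710656, 77371253608539246764752896, 295220244248367464448,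
  2674012278751232, 9228157111458856960, 4796153740639460130816], [1152921504606846976,
  38075232689641121382400, 19601917378130083840, 75559021151018557636608,
  2417926579127057794465792], [295147905179352825856, 442724109568842924032,
  295170423177489678336, 368936007374097874944], [2251799813685248, 4835712502252766018666496,
  664085038453357543424], [4503599627370496, 19342886905313961260875776], [73786976294838206464]]

theorem f3 : S.form 3 C3 E3 T3 0 = true := by decide +kernel

def C4 : List ℕ := [32, 2048, 1024, 80, 2176, 128, 64, 4352, 1280, 4608, 4160, 16, 544, 4224,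
  2064, 4096, 1, 2, 4, 8, 512, 576, 96, 160, 256, 48, 768, 192, 1536, 1152, 384, 6144, 1056, 640,
  272, 5120, 2112, 288, 2560, 4112, 320, 3072, 144, 4128, 1040]

def E4 : List (ℕ × ℕ × ℕ) := [(0, 16, 0), (2, 16, 1), (2, 16, 2), (2, 16, 3), (2, 16, 4), (2, 16,
  5), (2, 16, 6), (2, 16, 7), (2, 16, 8), (2, 16, 9), (2, 16, 10), (2, 16, 11), (2, 16, 12), (0,
  17, 0), (2, 17, 2), (2, 17, 3), (2, 17, 4), (2, 17, 5), (2, 17, 6), (2, 17, 7), (2, 17, 8), (2,
  17, 9), (2, 17, 10), (2, 17, 11), (2, 17, 12), (0, 18, 0), (2, 18, 3), (2, 18, 4), (2, 18, 5),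
  (2, 18, 6), (2, 18, 7), (2, 18, 8), (2, 18, 9), (2, 18, 10), (2, 18, 11), (2, 18, 12), (0, 19,
  0), (2, 19, 4), (2, 19, 5), (2, 19, 6), (2, 19, 7), (2, 19, 8), (2, 19, 9), (2, 19, 10), (2, 19,
  11), (2, 19, 12), (0, 0, 0), (0, 1, 0), (0, 2, 0), (0, 3, 0), (0, 4, 0), (0, 5, 0), (0, 6, 0),
  (0, 7, 0), (0, 8, 0), (0, 9, 0), (0, 10, 0), (0, 11, 0), (0, 12, 0), (0, 13, 0), (0, 14, 0), (0,
  15, 0), (0, 20, 0), (0, 21, 0), (0, 22, 0), (0, 23, 0), (0, 24, 0), (0, 25, 0), (0, 26, 0), (0,
  27, 0), (0, 28, 0), (0, 29, 0), (0, 30, 0), (0, 31, 0), (0, 32, 0), (0, 33, 0), (0, 34, 0), (0,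
  35, 0), (0, 36, 0), (0, 37, 0), (0, 38, 0), (0, 39, 0), (0, 40, 0), (1, 0, 0), (1, 1, 0), (1, 2,
  0), (1, 3, 0), (1, 4, 0), (1, 5, 0), (1, 6, 0), (1, 7, 0)]

def T4 : List (List ℕ) := [[1, 2, 4, 8, 16, 32, 64, 128, 256, 512, 1024, 2048, 4096], [8192,
  16384, 32768, 65536, 131072, 262144, 524288, 1048576, 2097152, 4194304, 8388608, 16777216],
  [33554432, 67108864, 134217728, 268435456, 536870912, 1073741824, 2147483648, 4294967296,
  8589934592, 17179869184, 34359738368], [68719476736, 137438953472, 274877906944, 549755813888,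
  1099511627776, 2199023255552, 4398046511104, 8796093022208, 17592186044416, 35184372088832],
  [144115188075855872, 147718138146496446464, 149181737656647680, 154742505057039522251931648,
  151189658543311560900608, 19495409381648994983215104, 1237940039429776937951690752,
  1297177430171058176, 19342815563792264084848640], [70368744177664, 18451318042081099776,
  36895810315976966144, 2417925426275921931796480, 4899986763323277312, 37778932214800882597888,
  618970019642901243690622976, 309485012127258446682652672], [4503599627370496,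
  590302565758146707456, 38685700019148028056174592, 13839561654909534208,
  9676719221462061562200064, 1208925824258966290432000, 2382404202878992384], [2251799813685248,
  9518522193833942319104, 75562477663732564492288, 4722369016144435609600, 3518437208883200,
  2884555561330802688], [73786976294838206464, 373546567492618420224, 73805272168324399104,
  5158013005480090308444160, 76101826503306641408], [4611686018427387904, 2365795208928226705408,
  4835707890285272614567936, 6953557824660045824], [281474976710656, 77371252455758479646261248,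
  604465215931798777757696], [140737488355328, 18891771915225282904064], [2305843009213693952]]

theorem f4 : S.form 4 C4 E4 T4 0 = true := by decide +kernel

def C5 : List ℕ := [5160, 38, 128, 610, 144, 2048, 4616, 4096, 96, 265, 24, 384, 640, 2560, 1088,
  40, 260, 136, 1056, 4104, 1, 2, 4, 16, 198, 1032, 513, 64, 528, 3072, 2080, 2112, 48, 1040,
  1024, 4160, 80, 4352, 768, 2064, 320, 272, 1280, 4112, 2304]

def E5 : List (ℕ × ℕ × ℕ) := [(0, 20, 0), (2, 20, 1), (2, 20, 2), (2, 20, 3), (2, 20, 4), (2, 20,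
  5), (2, 20, 6), (2, 20, 7), (2, 20, 8), (2, 20, 9), (2, 20, 10), (2, 20, 11), (2, 20, 12), (0,
  21, 0), (2, 21, 2), (2, 21, 3), (2, 21, 4), (2, 21, 5), (2, 21, 6), (2, 21, 7), (2, 21, 8), (2,
  21, 9), (2, 21, 10), (2, 21, 11), (2, 21, 12), (0, 22, 0), (2, 22, 3), (2, 22, 4), (2, 22, 5),
  (2, 22, 6), (2, 22, 7), (2, 22, 8), (2, 22, 9), (2, 22, 10), (2, 22, 11), (2, 22, 12), (0, 0,
  0), (0, 1, 0), (0, 2, 0), (0, 3, 0), (0, 4, 0), (0, 5, 0), (0, 6, 0), (0, 7, 0), (0, 8, 0), (0,
  9, 0), (0, 10, 0), (0, 11, 0), (0, 12, 0), (0, 13, 0), (0, 14, 0), (0, 15, 0), (0, 16, 0), (0,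
  17, 0), (0, 18, 0), (0, 19, 0), (0, 23, 0), (0, 24, 0), (0, 25, 0), (0, 26, 0), (0, 27, 0), (0,
  28, 0), (0, 29, 0), (0, 30, 0), (0, 31, 0), (0, 32, 0), (0, 33, 0), (0, 34, 0), (0, 35, 0), (0,
  36, 0), (0, 37, 0), (0, 38, 0), (0, 39, 0), (0, 40, 0), (1, 0, 0), (1, 1, 0), (1, 2, 0), (1, 3,
  0), (1, 4, 0), (1, 5, 0), (1, 6, 0), (1, 7, 0), (1, 8, 0), (3, 1, 2), (3, 1, 3), (3, 5, 6), (3,
  5, 7), (3, 27, 28), (3, 35, 36), (3, 35, 37), (4, 3, 0)]

def T5 : List (List ℕ) := [[1, 2, 4, 8, 16, 32, 64, 128, 256, 512, 1024, 2048, 4096], [8192,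
  16384, 32768, 65536, 131072, 262144, 524288, 1048576, 2097152, 4194304, 8388608, 16777216],
  [33554432, 67108864, 134217728, 268435456, 536870912, 1073741824, 2147483648, 4294967296,
  8589934592, 17179869184, 34359738368], [154742508369437048283652111,
  154742508441565011065757711, 154742508371688985771278351, 154742504910672534899523648,
  154742508378444522416300047, 154742508373975834397040902, 464228400177985628995076649,
  154742803805572603788189711, 116056879260030302051893761, 154742508405474641395638287],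
  [72057594037927936, 73859034026617233408, 2362408220533467381760, 72058968427462656,
  151115804013024493174784, 5260204364768739841, 442793915363067166720, 37779003922750222893056,
  604462981873704718303232], [137741099008, 1152939234533990400, 9671406556917034471915520,
  5138229899281762894218533, 19342814266773305895034880, 295165919715603406848,
  18446746410473906176, 618970021141263119917670400], [1152921504606846976, 1297036969205587968,
  75559021151020738674688, 19342814843217015765729793, 296301952583866515456,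
  38046411851049205760, 1181744551018111172608], [274877906944, 4644614174670848,
  576742502158041601, 2051566008244690960987488782, 1237940039285380274899124224,
  1431387063934173233836777998], [4503601808408576, 9445313930093402259969,
  302526607312438454910976, 2417851643735059181076480, 4722370995267546644480],
  [576460752303424001, 464227812493136603996390415, 577025901280100865,
  464228400790479576363974696], [295147905179352825856, 304371279415230857216,
  618970315944642721316077568], [2199023255552, 77371252455336267181195264], [8796093022208]]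

theorem f5 : S.form 5 C5 E5 T5 0 = true := by decide +kernel

def C6 : List ℕ := [4608, 544, 32, 2048, 24, 1280, 16, 128, 512, 320, 1024, 8, 4096, 3072, 64,
  256, 576, 40, 2112, 72, 4112, 4224, 48, 1, 2, 4, 1152, 2304, 1088, 2176, 1056, 96, 80, 384,
  1040, 136, 2560, 4128, 528, 6144, 272, 2056, 160, 640, 1032]

def E6 : List (ℕ × ℕ × ℕ) := [(0, 23, 0), (2, 23, 1), (2, 23, 2), (2, 23, 3), (2, 23, 4), (2, 23,
  5), (2, 23, 6), (2, 23, 7), (2, 23, 8), (2, 23, 9), (2, 23, 10), (2, 23, 11), (2, 23, 12), (0,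
  24, 0), (2, 24, 2), (2, 24, 3), (2, 24, 4), (2, 24, 5), (2, 24, 6), (2, 24, 7), (2, 24, 8), (2,
  24, 9), (2, 24, 10), (2, 24, 11), (2, 24, 12), (0, 25, 0), (2, 25, 3), (2, 25, 4), (2, 25, 5),
  (2, 25, 6), (2, 25, 7), (2, 25, 8), (2, 25, 9), (2, 25, 10), (2, 25, 11), (2, 25, 12), (0, 0,
  0), (0, 1, 0), (0, 2, 0), (0, 3, 0), (0, 4, 0), (0, 5, 0), (0, 6, 0), (0, 7, 0), (0, 8, 0), (0,
  9, 0), (0, 10, 0), (0, 11, 0), (0, 12, 0), (0, 13, 0), (0, 14, 0), (0, 15, 0), (0, 16, 0), (0,
  17, 0), (0, 18, 0), (0, 19, 0), (0, 20, 0), (0, 21, 0), (0, 22, 0), (0, 26, 0), (0, 27, 0), (0,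
  28, 0), (0, 29, 0), (0, 30, 0), (0, 31, 0), (0, 32, 0), (0, 33, 0), (0, 34, 0), (0, 35, 0), (0,
  36, 0), (0, 37, 0), (0, 38, 0), (0, 39, 0), (0, 40, 0), (1, 0, 0), (1, 1, 0), (1, 2, 0), (1, 3,
  0), (1, 4, 0), (1, 5, 0), (1, 6, 0), (1, 7, 0), (1, 8, 0), (3, 2, 3), (3, 6, 7), (3, 8, 9), (3,
  8, 10), (3, 8, 11), (3, 12, 13), (3, 12, 14), (3, 12, 15)]

def T6 : List (List ℕ) := [[1, 2, 4, 8, 16, 32, 64, 128, 256, 512, 1024, 2048, 4096], [8192,
  16384, 32768, 65536, 131072, 262144, 524288, 1048576, 2097152, 4194304, 8388608, 16777216],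
  [33554432, 67108864, 134217728, 268435456, 536870912, 1073741824, 2147483648, 4294967296,
  8589934592, 17179869184, 34359738368], [140737488355328, 146235046494208, 9148211621003264,
  37295434414161920, 1180591770250992680960, 2343032890512941056, 154742504910672534362390528,
  2417851639440364581945344, 151115727593115891007488, 1208925820036841639772160], [4398046511104,
  288235049076129792, 73788106592791560192, 19342813113834066795298816, 75557865982112183615488,
  9444732987729522982912, 295147979946143514624, 4885288198591258533298176, 72343467061149696],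
  [274877906944, 36894614322203852800, 302231454912728264605696, 94761214791295833210880,
  18004502904832, 18446814717331636224, 9671406556917033397649408, 4722366764619499831296],
  [1125899906842624, 743059081798508085248, 3412884092616704, 5647091720257536,
  4612882287078408192, 19140848172138496, 618970019642690137449562112], [8796093022208,
  147576213185583120384, 604462909833702866419712, 576539917140623360, 9223381382703611904,
  144405459145588736], [2251799813685248, 38685626233315225310855168, 2324367581118464,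
  1155173854176346112, 1237940039285380274899124224], [17592186044416, 77371252455336267181195264,
  2361183259576764465152, 299135882231808], [70368744177664, 633868453412864,
  309522788753490050619015168], [549755813888, 37778932144981894234112], [281474976710656]]

theorem f6 : S.form 6 C6 E6 T6 0 = true := by decide +kernel

def C7 : List ℕ := [130, 40, 2176, 160, 1024, 5120, 258, 140, 576, 3648, 6144, 1104, 64, 2064,
  4224, 16, 8, 72, 272, 24, 4352, 593, 1569, 1040, 2580, 2056, 1, 2, 2560, 4160, 1536, 2048, 1348,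
  4448, 192, 32, 544, 528, 298, 1152, 264, 4104, 384, 4608, 640]

def E7 : List (ℕ × ℕ × ℕ) := [(0, 26, 0), (2, 26, 1), (2, 26, 2), (2, 26, 3), (2, 26, 4), (2, 26,
  5), (2, 26, 6), (2, 26, 7), (2, 26, 8), (2, 26, 9), (2, 26, 10), (2, 26, 11), (2, 26, 12), (0,
  27, 0), (2, 27, 2), (2, 27, 3), (2, 27, 4), (2, 27, 5), (2, 27, 6), (2, 27, 7), (2, 27, 8), (2,
  27, 9), (2, 27, 10), (2, 27, 11), (2, 27, 12), (0, 28, 0), (2, 28, 3), (2, 28, 4), (2, 28, 5),
  (2, 28, 6), (2, 28, 7), (2, 28, 8), (2, 28, 9), (2, 28, 10), (2, 28, 11), (2, 28, 12), (0, 0,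
  0), (0, 1, 0), (0, 2, 0), (0, 3, 0), (0, 4, 0), (0, 5, 0), (0, 6, 0), (0, 7, 0), (0, 8, 0), (0,
  9, 0), (0, 10, 0), (0, 11, 0), (0, 12, 0), (0, 13, 0), (0, 14, 0), (0, 15, 0), (0, 16, 0), (0,
  17, 0), (0, 18, 0), (0, 19, 0), (0, 20, 0), (0, 21, 0), (0, 22, 0), (0, 23, 0), (0, 24, 0), (0,
  25, 0), (0, 29, 0), (0, 30, 0), (0, 31, 0), (0, 32, 0), (0, 33, 0), (0, 34, 0), (0, 35, 0), (0,
  36, 0), (0, 37, 0), (0, 38, 0), (0, 39, 0), (0, 40, 0), (1, 0, 0), (1, 1, 0), (1, 2, 0), (1, 3,
  0), (1, 4, 0), (1, 5, 0), (1, 6, 0), (1, 7, 0), (1, 8, 0), (3, 4, 5), (3, 4, 6), (3, 4, 7), (3,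
  21, 22), (3, 24, 25), (3, 32, 33), (3, 32, 34), (3, 39, 40)]

def T7 : List (List ℕ) := [[1, 2, 4, 8, 16, 32, 64, 128, 256, 512, 1024, 2048, 4096], [8192,
  16384, 32768, 65536, 131072, 262144, 524288, 1048576, 2097152, 4194304, 8388608, 16777216],
  [33554432, 67108864, 134217728, 268435456, 536870912, 1073741824, 2147483648, 4294967296,
  8589934592, 17179869184, 34359738368], [4503599627370496, 42784196460019712,
  1180596124454477627392, 13792273858822144, 4512465614807040, 75557868233911998357504,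
  154747230774200519190642688, 38723405159532267573878784, 39203834756260167680,
  9822522288875760206741504], [2251799813685248, 78588798816112157200352801, 42805043222124954193,
  4987409345630800418181265, 20270596370735104, 42658658642049368064, 578713651628736512,
  36896302897186209792, 4986819046442741991997440], [1180591620717411303424,
  1209220967520427003215872, 1180591621335887126528, 85002601195390681391104,
  8306802255463742177280, 7144945609196192138785, 638671789899415665791476305,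
  30309897869097470926291537], [281474976710656, 295148186723049545728,
  19342930282460582354362961, 4765027692378671022080, 43381926186893443665,
  338858166311541030910959616, 9671415780573843764019200], [68720009216, 302231454908124061237248,
  2422616666622638577688576, 37778931864125393346560, 36893488491017019392,
  9671406558046300559384576], [4398047567872, 1471267762059931086715561505,
  19342813113834066799493120, 309485067038346885906563665, 9671406628982324018028544],
  [4765027393311508267008, 4783474138484729446400, 4723522219145661775872,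
  10280634494120958028152832], [1099511627776, 338858149741566536074666577,
  9671406556917033397649408], [36893488147419103232, 9671443450478848095813632],
  [9671406556920331932532736]]

theorem f7 : S.form 7 C7 E7 T7 0 = true := by decide +kernel

def C8 : List ℕ := [576, 144, 2304, 1280, 288, 640, 4114, 6144, 4128, 32, 80, 3072, 1152, 1040,
  2112, 4656, 256, 512, 1092, 1536, 4096, 1032, 528, 160, 4160, 2056, 2048, 16, 1, 2, 4, 4608,
  5248, 128, 40, 2560, 272, 2176, 8, 24, 264, 520, 136, 72, 4104]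

def E8 : List (ℕ × ℕ × ℕ) := [(0, 29, 0), (2, 29, 1), (2, 29, 2), (2, 29, 3), (2, 29, 4), (2, 29,
  5), (2, 29, 6), (2, 29, 7), (2, 29, 8), (2, 29, 9), (2, 29, 10), (2, 29, 11), (2, 29, 12), (0,
  30, 0), (2, 30, 2), (2, 30, 3), (2, 30, 4), (2, 30, 5), (2, 30, 6), (2, 30, 7), (2, 30, 8), (2,
  30, 9), (2, 30, 10), (2, 30, 11), (2, 30, 12), (0, 31, 0), (2, 31, 3), (2, 31, 4), (2, 31, 5),
  (2, 31, 6), (2, 31, 7), (2, 31, 8), (2, 31, 9), (2, 31, 10), (2, 31, 11), (2, 31, 12), (0, 0,
  0), (0, 1, 0), (0, 2, 0), (0, 3, 0), (0, 4, 0), (0, 5, 0), (0, 6, 0), (0, 7, 0), (0, 8, 0), (0,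
  9, 0), (0, 10, 0), (0, 11, 0), (0, 12, 0), (0, 13, 0), (0, 14, 0), (0, 15, 0), (0, 16, 0), (0,
  17, 0), (0, 18, 0), (0, 19, 0), (0, 20, 0), (0, 21, 0), (0, 22, 0), (0, 23, 0), (0, 24, 0), (0,
  25, 0), (0, 26, 0), (0, 27, 0), (0, 28, 0), (0, 32, 0), (0, 33, 0), (0, 34, 0), (0, 35, 0), (0,
  36, 0), (0, 37, 0), (0, 38, 0), (0, 39, 0), (0, 40, 0), (1, 0, 0), (1, 1, 0), (1, 2, 0), (1, 3,
  0), (1, 4, 0), (1, 5, 0), (1, 6, 0), (1, 7, 0), (1, 8, 0), (3, 16, 17), (3, 16, 18), (3, 16,
  19), (3, 26, 27), (3, 26, 28), (3, 33, 34), (3, 36, 37), (4, 2, 0)]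

def T8 : List (List ℕ) := [[1, 2, 4, 8, 16, 32, 64, 128, 256, 512, 1024, 2048, 4096], [8192,
  16384, 32768, 65536, 131072, 262144, 524288, 1048576, 2097152, 4194304, 8388608, 16777216],
  [33554432, 67108864, 134217728, 268435456, 536870912, 1073741824, 2147483648, 4294967296,
  8589934592, 17179869184, 34359738368], [9444732965739290427392, 47232888200733306912768,
  9739880906103015342080, 1620574728530299113768484864, 311823761821986260516864,
  85002601195253241217024, 160560469424767192006656, 48366477666170243737714688,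
  9451650494766931509248, 2427296444252591677767680], [9223372036854775808,
  2422688745647127800666202112, 1619960830110968465489657856, 156797324763970142208,
  2370411117071304753152, 9520609612261228544, 48357042013024303179628544,
  77371252455336267181195264, 9295434028956065792], [35184372088832, 600755490930737283072,
  148150448526351925248, 4539883511087104, 2422688792040937371773960192,
  1416861684334730056925446144, 1726346297559020335014084608, 72110370596061184],
  [1619960820887526059890704384, 1208935043057172212613120, 67699845898419235931029504,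
  1619960820896533327864922112, 1571603788089429553424891904, 1619960825500337978224934912,
  1619960819662546961245929472], [147573952589676412928, 1663509279997040442864041984,
  147582961987954409472, 48357180363323381024555008, 4874552121477749014528,
  357842190184668449749336064], [4503599627370496, 9671406556917033397649408,
  48357032784585166988247040, 4616189892932665344, 1237940039285380274899124224],
  [9007199254740992, 48357032834125312645136384, 1185212313935093432320, 36974552940711772160],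
  [48357032789089316371431424, 48357037400916072287174656, 357842264043420863648759808],
  [4611686018427387904, 4683752408558338048], [72057594037927936]]

theorem f8 : S.form 8 C8 E8 T8 0 = true := by decide +kernel

def C9 : List ℕ := [12, 5633, 400, 48, 528, 1032, 1056, 80, 128, 3137, 513, 16, 2176, 2304, 24,
  2056, 608, 272, 4385, 5120, 4224, 256, 1024, 4128, 160, 768, 576, 520, 4112, 264, 1185, 1, 2, 4,
  640, 64, 1088, 4160, 32, 136, 6144, 2048, 2112, 320, 2080]

def E9 : List (ℕ × ℕ × ℕ) := [(0, 32, 0), (2, 32, 1), (2, 32, 2), (2, 32, 3), (2, 32, 4), (2, 32,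
  5), (2, 32, 6), (2, 32, 7), (2, 32, 8), (2, 32, 9), (2, 32, 10), (2, 32, 11), (2, 32, 12), (0,
  33, 0), (2, 33, 2), (2, 33, 3), (2, 33, 4), (2, 33, 5), (2, 33, 6), (2, 33, 7), (2, 33, 8), (2,
  33, 9), (2, 33, 10), (2, 33, 11), (2, 33, 12), (0, 34, 0), (2, 34, 3), (2, 34, 4), (2, 34, 5),
  (2, 34, 6), (2, 34, 7), (2, 34, 8), (2, 34, 9), (2, 34, 10), (2, 34, 11), (2, 34, 12), (0, 0,
  0), (0, 1, 0), (0, 2, 0), (0, 3, 0), (0, 4, 0), (0, 5, 0), (0, 6, 0), (0, 7, 0), (0, 8, 0), (0,
  9, 0), (0, 10, 0), (0, 11, 0), (0, 12, 0), (0, 13, 0), (0, 14, 0), (0, 15, 0), (0, 16, 0), (0,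
  17, 0), (0, 18, 0), (0, 19, 0), (0, 20, 0), (0, 21, 0), (0, 22, 0), (0, 23, 0), (0, 24, 0), (0,
  25, 0), (0, 26, 0), (0, 27, 0), (0, 28, 0), (0, 29, 0), (0, 30, 0), (0, 31, 0), (0, 35, 0), (0,
  36, 0), (0, 37, 0), (0, 38, 0), (0, 39, 0), (0, 40, 0), (1, 0, 0), (1, 1, 0), (1, 2, 0), (1, 3,
  0), (1, 4, 0), (1, 5, 0), (1, 6, 0), (1, 7, 0), (1, 8, 0), (3, 9, 10), (3, 9, 11), (3, 14, 15),
  (3, 20, 21), (3, 20, 22), (3, 30, 31), (4, 0, 0), (4, 1, 0)]

def T9 : List (List ℕ) := [[1, 2, 4, 8, 16, 32, 64, 128, 256, 512, 1024, 2048, 4096], [8192,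
  16384, 32768, 65536, 131072, 262144, 524288, 1048576, 2097152, 4194304, 8388608, 16777216],
  [33554432, 67108864, 134217728, 268435456, 536870912, 1073741824, 2147483648, 4294967296,
  8589934592, 17179869184, 34359738368], [68820140032, 1266706215337984,
  715740846448036302249005345, 1237941229100382993589993472, 37778931880618167894016,
  73931091551734202368, 9223442474419094017, 288232643995107328, 151115729703697280663552,
  601007514611133840241985188], [140737488355328, 9444733107026534596608, 1180591770250992680960,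
  638322297089191255979589632, 153263124818952192, 212205744161281, 58180735663961242257588240,
  38836741958638399446319104, 154752135588404824060724385], [9444732965739290427392,
  27202480060750991686895552, 9445885904836083318784, 715693550292142928368242977,
  27211920186534312177305536, 9445021200513488650240, 2578412099646826286678016,
  154742654538270952166261921], [1180591620717411303424, 643763946087652266065527745,
  605643645543220074512384, 1185203377104582869505, 3542063092528385622016,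
  454527773976203351818240, 154758001652879526209782945], [17592186044416,
  638322297098216322298281984, 295147993140283048449, 9593459844231620199585,
  151115727750895809593344, 154752098766851125377238177], [144115188075855872,
  2450028566033728001, 947816824720037166882750728, 151115872129966676115456,
  715693549553552589479477248], [70368744178177, 48812150857759324370898496,
  39139568320977960733508097, 48812150893858627572996672], [288230376151711744,
  305773229800993899678785, 154752098370516765982590113], [151115727451828646838272,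
  154978772285953682123523233], [154752098694775939153265825]]

theorem f9 : S.form 9 C9 E9 T9 0 = true := by decide +kernel

def C10 : List ℕ := [320, 4112, 2064, 512, 2056, 40, 5378, 4352, 1280, 4138, 528, 384, 272, 136,
  8, 1024, 4110, 22, 1536, 2112, 64, 1056, 2080, 4096, 640, 4194, 1034, 4608, 24, 160, 1088, 2176,
  576, 768, 1, 4, 264, 2048, 32, 144, 6144, 544, 192, 48, 2560]

def E10 : List (ℕ × ℕ × ℕ) := [(0, 35, 0), (2, 35, 1), (2, 35, 2), (2, 35, 3), (2, 35, 4), (2, 35,
  5), (2, 35, 6), (2, 35, 7), (2, 35, 8), (2, 35, 9), (2, 35, 10), (2, 35, 11), (2, 35, 12), (0,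
  36, 0), (2, 36, 2), (2, 36, 3), (2, 36, 4), (2, 36, 5), (2, 36, 6), (2, 36, 7), (2, 36, 8), (2,
  36, 9), (2, 36, 10), (2, 36, 11), (2, 36, 12), (0, 37, 0), (2, 37, 3), (2, 37, 4), (2, 37, 5),
  (2, 37, 6), (2, 37, 7), (2, 37, 8), (2, 37, 9), (2, 37, 10), (2, 37, 11), (2, 37, 12), (0, 0,
  0), (0, 1, 0), (0, 2, 0), (0, 3, 0), (0, 4, 0), (0, 5, 0), (0, 6, 0), (0, 7, 0), (0, 8, 0), (0,
  9, 0), (0, 10, 0), (0, 11, 0), (0, 12, 0), (0, 13, 0), (0, 14, 0), (0, 15, 0), (0, 16, 0), (0,
  17, 0), (0, 18, 0), (0, 19, 0), (0, 20, 0), (0, 21, 0), (0, 22, 0), (0, 23, 0), (0, 24, 0), (0,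
  25, 0), (0, 26, 0), (0, 27, 0), (0, 28, 0), (0, 29, 0), (0, 30, 0), (0, 31, 0), (0, 32, 0), (0,
  33, 0), (0, 34, 0), (0, 38, 0), (0, 39, 0), (0, 40, 0), (1, 0, 0), (1, 1, 0), (1, 2, 0), (1, 3,
  0), (1, 4, 0), (1, 5, 0), (1, 6, 0), (1, 7, 0), (1, 8, 0), (3, 13, 14), (3, 13, 15), (3, 17,
  18), (3, 17, 19), (3, 23, 24), (3, 23, 25), (3, 38, 39), (3, 38, 40)]

def T10 : List (List ℕ) := [[1, 2, 4, 8, 16, 32, 64, 128, 256, 512, 1024, 2048, 4096], [8192,
  16384, 32768, 65536, 131072, 262144, 524288, 1048576, 2097152, 4194304, 8388608, 16777216],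
  [33554432, 67108864, 134217728, 268435456, 536870912, 1073741824, 2147483648, 4294967296,
  8589934592, 17179869184, 34359738368], [1125899906842624, 36903621246748549120,
  9444734093838220525568, 1244140087486190974428831744, 9671406556917033397649408,
  310696296828750983310221312, 1238094724457856545835712512, 4615063718152151040,
  4722367609869063684096, 582090286314872832], [9007199422603264, 613907651780253300383744,
  77375974830826628852310016, 9709185499476039842226176, 310693935655924122793754624,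
  9078117922594816, 38685626236746264404385792, 4722375490343945723904, 585468089164980224],
  [9444732965739290427392, 309494457508672163570655232, 9680925078547917386547200,
  1237949484019474113119649792, 160560460418117693079552, 9444879332727179968512,
  14167387678985087352832, 5666917390106624], [72057594037927936, 9973638085567134589517824,
  310693935718692973712908288, 590367868502499393536, 147648261983528026112,
  4722474569260702105600, 309485009827011986131664896], [9671406558605883257913344,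
  320365342203130269327040512, 9671407711527937620574208, 19342817728897784947449856,
  9676424072993932255952896, 154742514710505873276403712], [310693935646635448394457088,
  310695116238256715561574400, 310693935648904840394186752, 618974742010300006513246208,
  310693936223087404604858368], [549755813888, 20266748078981120, 2422574005712677750439936,
  9799833338914013184], [2251799813685248, 1896296999101826970201153536,
  310693935646648642553905152], [4722366482869645213696, 80280806669536272056320],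
  [576460752303423488]]

theorem f10 : S.form 10 C10 E10 T10 0 = true := by decide +kernel

def C11 : List ℕ := [128, 1024, 1552, 2608, 40, 48, 2176, 1032, 144, 288, 2064, 4096, 1056, 4112,
  5120, 6144, 272, 4148, 8, 674, 136, 72, 1088, 4608, 1536, 640, 4128, 320, 256, 2048, 1048, 4160,
  264, 2056, 192, 4352, 1, 2, 4, 80, 2112, 4104, 96, 64, 576]

def E11 : List (ℕ × ℕ × ℕ) := [(0, 38, 0), (2, 38, 1), (2, 38, 2), (2, 38, 3), (2, 38, 4), (2, 38,
  5), (2, 38, 6), (2, 38, 7), (2, 38, 8), (2, 38, 9), (2, 38, 10), (2, 38, 11), (2, 38, 12), (0,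
  39, 0), (2, 39, 2), (2, 39, 3), (2, 39, 4), (2, 39, 5), (2, 39, 6), (2, 39, 7), (2, 39, 8), (2,
  39, 9), (2, 39, 10), (2, 39, 11), (2, 39, 12), (0, 40, 0), (2, 40, 3), (2, 40, 4), (2, 40, 5),
  (2, 40, 6), (2, 40, 7), (2, 40, 8), (2, 40, 9), (2, 40, 10), (2, 40, 11), (2, 40, 12), (0, 0,
  0), (0, 1, 0), (0, 2, 0), (0, 3, 0), (0, 4, 0), (0, 5, 0), (0, 6, 0), (0, 7, 0), (0, 8, 0), (0,
  9, 0), (0, 10, 0), (0, 11, 0), (0, 12, 0), (0, 13, 0), (0, 14, 0), (0, 15, 0), (0, 16, 0), (0,
  17, 0), (0, 18, 0), (0, 19, 0), (0, 20, 0), (0, 21, 0), (0, 22, 0), (0, 23, 0), (0, 24, 0), (0,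
  25, 0), (0, 26, 0), (0, 27, 0), (0, 28, 0), (0, 29, 0), (0, 30, 0), (0, 31, 0), (0, 32, 0), (0,
  33, 0), (0, 34, 0), (0, 35, 0), (0, 36, 0), (0, 37, 0), (1, 0, 0), (1, 1, 0), (1, 2, 0), (1, 3,
  0), (1, 4, 0), (1, 5, 0), (1, 6, 0), (1, 7, 0), (1, 8, 0), (3, 0, 1), (3, 0, 2), (3, 0, 3), (3,
  10, 11), (3, 18, 19), (3, 29, 30), (3, 29, 31), (4, 4, 0)]

def T11 : List (List ℕ) := [[1, 2, 4, 8, 16, 32, 64, 128, 256, 512, 1024, 2048, 4096], [8192,
  16384, 32768, 65536, 131072, 262144, 524288, 1048576, 2097152, 4194304, 8388608, 16777216],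
  [33554432, 67108864, 134217728, 268435456, 536870912, 1073741824, 2147483648, 4294967296,
  8589934592, 17179869184, 34359738368], [18014398509481984, 1248820523849532115072843776,
  77371330883416048843882496, 604463071936901172690944, 90072061266886656, 627207312904634236928,
  232113835848131847454228480, 18023332041457664, 1254396611410758991872,
  151115745606964644675584], [77371326245127311786508288, 4621396939919851520,
  78013568086797583535570944, 77371326245144972692029440, 77371363143119058832982016,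
  1248820377428492508788162560, 1326191702519572141183074304, 77371252458221385692479488,
  77371326244705099321442304], [77371330865400550822772736, 78278025230111522703802368,
  67699919685399995387740160, 77371367758923882613964800, 145071105318719762769518592,
  77371330865682163238436864, 1306872503552088627245744128, 77371326253573794907029504],
  [604462909807314587353088, 606824093048818129436672, 604509026667498861232128,
  109407862770775586315960320, 604463198037828178018304, 680094560509523748978688,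
  604758057853231428534272], [68719476736, 82207029528107020298747904,
  106385545915896072884977664, 9671406556917033397649408, 73786980761604194304,
  1383011137641972516937269248], [36893488147419103232, 735036990495357760510238720,
  696341936206145806078574592, 309485009821345068724781056, 9481626594624197885952],
  [106385548221739013379194880, 106385549374660655424995328, 96737759296751215122718720,
  106385548798340503170973696], [137438953472, 1384238959845659916464291840, 1266774834151424],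
  [73786976294838206464, 73789368832140247040], [140737488355328]]

theorem f11 : S.form 11 C11 E11 T11 0 = true := by decide +kernel

theorem _root_.Pool.Agent.WarR.sd_12_12_41_9 {K : Type*} [Field K] [CharZero K] : KQ K 13 12 41 9 0 := by
  refine SeedD.main S (by decide +kernel) (fun k => ([0, 0, 0, 0, 0, 0, 0, 0, 0, 0, 0, 0] : List ℕ).getD k 0) 0 ?_
    (by decide +kernel)
  intro k hk
  have hk' : k < 12 := hk
  interval_cases k
  · exact ⟨C0, E0, T0, f0⟩
  · exact ⟨C1, E1, T1, f1⟩
  · exact ⟨C2, E2, T2, f2⟩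
  · exact ⟨C3, E3, T3, f3⟩
  · exact ⟨C4, E4, T4, f4⟩
  · exact ⟨C5, E5, T5, f5⟩
  · exact ⟨C6, E6, T6, f6⟩
  · exact ⟨C7, E7, T7, f7⟩
  · exact ⟨C8, E8, T8, f8⟩
  · exact ⟨C9, E9, T9, f9⟩
  · exact ⟨C10, E10, T10, f10⟩
  · exact ⟨C11, E11, T11, f11⟩

end T_12_12_41_9

namespace T_13_12_49_3

def S : SeedD where
  m := 14
  b := 12
  x := 49
  y := 3
  rI := [[0], [1], [2], [3], [4], [5], [6], [7], [8], [9], [10], [11], [12], [13], [14], [15], [16],
    [17], [18], [19], [20], [21], [22], [23], [24], [25], [26], [27], [28], [29], [30], [31],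
    [32], [33], [34], [35], [36], [37], [38], [39], [40], [41], [42], [43], [44], [45], [46],
    [47], [48]]
  rJ := [[49], [50], [50, 1, 3]]
  g := [0, 0, 0, 0, 0, 1, 1, 1, 1, 2, 2, 2, 2, 3, 3, 3, 3, 4, 4, 4, 4, 5, 5, 5, 5, 6, 6, 6, 6, 7, 7,
    7, 7, 8, 8, 8, 8, 9, 9, 9, 9, 10, 10, 10, 10, 11, 11, 11, 11]
  lab := [4, 6, 1, 2, 0, 9, 8, 2, 1, 7, 10, 11, 2, 10, 5, 6, 3, 11, 1, 10, 4, 7, 4, 8, 5, 1, 3, 8,
    6, 8, 9, 5, 7, 11, 9, 4, 8, 3, 6, 10, 9, 5, 2, 7, 10, 2, 3, 5, 11]
  ord := [0, 1, 2, 3, 4, 0, 1, 2, 3, 0, 1, 2, 3, 0, 1, 2, 3, 0, 1, 2, 3, 0, 1, 2, 3, 0, 1, 2, 3, 0,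
    1, 2, 3, 0, 1, 2, 3, 0, 1, 2, 3, 0, 1, 2, 3, 0, 1, 2, 3]
  tr := [(1, 3, 50, 51)]

def C0 : List ℕ := [1, 2, 4, 8, 16, 32, 1536, 2080, 1024, 8256, 1056, 8320, 4096, 96, 8192, 2112,
  192, 4352, 2176, 4608, 640, 4128, 12288, 64, 4160, 1280, 384, 576, 8224, 3072, 1088, 2304, 2560,
  8448, 1152, 6144, 9216, 128, 4224, 10240, 320, 544, 768, 288, 2048, 5120, 8704, 160, 512, 512,
  256]

def E0 : List (ℕ × ℕ × ℕ) := [(0, 0, 0), (2, 0, 1), (2, 0, 2), (2, 0, 3), (2, 0, 4), (2, 0, 5),
  (2, 0, 6), (2, 0, 7), (2, 0, 8), (2, 0, 9), (2, 0, 10), (2, 0, 11), (2, 0, 12), (2, 0, 13), (0,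
  1, 0), (2, 1, 2), (2, 1, 3), (2, 1, 4), (2, 1, 5), (2, 1, 6), (2, 1, 7), (2, 1, 8), (2, 1, 9),
  (2, 1, 10), (2, 1, 11), (2, 1, 12), (2, 1, 13), (0, 2, 0), (2, 2, 3), (2, 2, 4), (2, 2, 5), (2,
  2, 6), (2, 2, 7), (2, 2, 8), (2, 2, 9), (2, 2, 10), (2, 2, 11), (2, 2, 12), (2, 2, 13), (0, 3,
  0), (2, 3, 4), (2, 3, 5), (2, 3, 6), (2, 3, 7), (2, 3, 8), (2, 3, 9), (2, 3, 10), (2, 3, 11),
  (2, 3, 12), (2, 3, 13), (0, 4, 0), (2, 4, 5), (2, 4, 6), (2, 4, 7), (2, 4, 8), (2, 4, 9), (2, 4,
  10), (2, 4, 11), (2, 4, 12), (2, 4, 13), (0, 5, 0), (0, 6, 0), (0, 7, 0), (0, 8, 0), (0, 9, 0),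
  (0, 10, 0), (0, 11, 0), (0, 12, 0), (0, 13, 0), (0, 14, 0), (0, 15, 0), (0, 16, 0), (0, 17, 0),
  (0, 18, 0), (0, 19, 0), (0, 20, 0), (0, 21, 0), (0, 22, 0), (0, 23, 0), (0, 24, 0), (0, 25, 0),
  (0, 26, 0), (0, 27, 0), (0, 28, 0), (0, 29, 0), (0, 30, 0), (0, 31, 0), (0, 32, 0), (0, 33, 0),
  (0, 34, 0), (0, 35, 0), (0, 36, 0), (0, 37, 0), (0, 38, 0), (0, 39, 0), (0, 40, 0), (0, 41, 0),
  (0, 42, 0), (0, 43, 0), (0, 44, 0), (0, 45, 0), (0, 46, 0), (0, 47, 0), (0, 48, 0), (1, 1, 0)]

def T0 : List (List ℕ) := [[1, 2, 4, 8, 16, 32, 64, 128, 256, 512, 1024, 2048, 4096, 8192],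
  [16384, 32768, 65536, 131072, 262144, 524288, 1048576, 2097152, 4194304, 8388608, 16777216,
  33554432, 67108864], [134217728, 268435456, 536870912, 1073741824, 2147483648, 4294967296,
  8589934592, 17179869184, 34359738368, 68719476736, 137438953472, 274877906944], [549755813888,
  1099511627776, 2199023255552, 4398046511104, 8796093022208, 17592186044416, 35184372088832,
  70368744177664, 140737488355328, 281474976710656, 562949953421312], [1125899906842624,
  2251799813685248, 4503599627370496, 9007199254740992, 18014398509481984, 36028797018963968,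
  72057594037927936, 144115188075855872, 288230376151711744, 576460752303423488],
  [1152921504606846976, 302527755730341253349376, 5075554161071212048591016165376,
  20599322253709880695826033934336, 10220432964341252471071776440320, 47269781688880726016,
  633825300119879308271385837568, 75706590600008606679040, 9671998005648896710148096],
  [302231454903657293676544, 4952064749779666191712780288, 20322023987140257496401316937728,
  10141209939760568574147618144256, 38987866905943827739049984, 633825603526161225123056582656,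
  906841938663561557442560, 302840197458089708879872], [4951760157141521099596496896,
  20287363781660451174305197195264, 10146156599761908596030383849472,
  5570730186007583273900834816, 638777069715989187587238526976, 14855280618998515888465903616,
  4951760821224307753140355072], [20282409603651670423947251286016,
  30582070730506034311107964829696, 20282410812586713410613280768000,
  20916312275018240460962784083968, 20282409608521610859406572912640,
  20282719089251787579374681718784], [10141204801825835211973625643008,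
  10141204801837364427019694112768, 10775184844444860585256339636224,
  10141204820862875096041882910720, 12676506002872589825325737705472], [9223372036854775808,
  633844642936451906852001677312, 1267650600385026726123234394112, 2475880678089942945358675968],
  [633825300114114700748351602688, 635063240300974033612927139840,
  653632341332976595505443241984], [147573952589676412928, 151853597214777028902912],
  [590295810358705651712]]

theorem f0 : S.form 0 C0 E0 T0 0 = true := by decide +kernel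

def C1 : List ℕ := [48, 12288, 1024, 4096, 256, 1, 2, 4, 8, 2304, 4112, 4128, 2112, 288, 4160,
  10240, 8208, 4224, 32, 64, 8192, 6144, 2560, 1040, 2064, 128, 2048, 16, 512, 80, 1088, 3072,
  1152, 8256, 4352, 1056, 160, 2080, 544, 8704, 9216, 384, 320, 768, 576, 1536, 4608, 272, 528,
  8448, 192]

def E1 : List (ℕ × ℕ × ℕ) := [(0, 5, 0), (2, 5, 1), (2, 5, 2), (2, 5, 3), (2, 5, 4), (2, 5, 5),
  (2, 5, 6), (2, 5, 7), (2, 5, 8), (2, 5, 9), (2, 5, 10), (2, 5, 11), (2, 5, 12), (2, 5, 13), (0,
  6, 0), (2, 6, 2), (2, 6, 3), (2, 6, 4), (2, 6, 5), (2, 6, 6), (2, 6, 7), (2, 6, 8), (2, 6, 9),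
  (2, 6, 10), (2, 6, 11), (2, 6, 12), (2, 6, 13), (0, 7, 0), (2, 7, 3), (2, 7, 4), (2, 7, 5), (2,
  7, 6), (2, 7, 7), (2, 7, 8), (2, 7, 9), (2, 7, 10), (2, 7, 11), (2, 7, 12), (2, 7, 13), (0, 8,
  0), (2, 8, 4), (2, 8, 5), (2, 8, 6), (2, 8, 7), (2, 8, 8), (2, 8, 9), (2, 8, 10), (2, 8, 11),
  (2, 8, 12), (2, 8, 13), (0, 0, 0), (0, 1, 0), (0, 2, 0), (0, 3, 0), (0, 4, 0), (0, 9, 0), (0,
  10, 0), (0, 11, 0), (0, 12, 0), (0, 13, 0), (0, 14, 0), (0, 15, 0), (0, 16, 0), (0, 17, 0), (0,
  18, 0), (0, 19, 0), (0, 20, 0), (0, 21, 0), (0, 22, 0), (0, 23, 0), (0, 24, 0), (0, 25, 0), (0,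
  26, 0), (0, 27, 0), (0, 28, 0), (0, 29, 0), (0, 30, 0), (0, 31, 0), (0, 32, 0), (0, 33, 0), (0,
  34, 0), (0, 35, 0), (0, 36, 0), (0, 37, 0), (0, 38, 0), (0, 39, 0), (0, 40, 0), (0, 41, 0), (0,
  42, 0), (0, 43, 0), (0, 44, 0), (0, 45, 0), (0, 46, 0), (0, 47, 0), (0, 48, 0), (1, 0, 0), (1,
  1, 0), (1, 2, 0), (3, 2, 3), (3, 2, 4), (3, 18, 19), (3, 18, 20), (3, 25, 26), (3, 25, 27), (3,
  25, 28)]

def T1 : List (List ℕ) := [[1, 2, 4, 8, 16, 32, 64, 128, 256, 512, 1024, 2048, 4096, 8192],
  [16384, 32768, 65536, 131072, 262144, 524288, 1048576, 2097152, 4194304, 8388608, 16777216,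
  33554432, 67108864], [134217728, 268435456, 536870912, 1073741824, 2147483648, 4294967296,
  8589934592, 17179869184, 34359738368, 68719476736, 137438953472, 274877906944], [549755813888,
  1099511627776, 2199023255552, 4398046511104, 8796093022208, 17592186044416, 35184372088832,
  70368744177664, 140737488355328, 281474976710656, 562949953421312], [9444732965739290427392,
  9463180835712906821632, 47260558316843871240192, 10141204801825835211973625643008,
  9903529759034022336992903168, 19807068962764981616257269760, 10035033279697623449600,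
  15347691069326346944512, 9444814030532583096320, 9523131628052556021760], [18446744073709551616,
  1267650600228229401496703205376, 4838082908444025230983168, 19041219224522457088,
  19361721026509619085705216, 2417870090476931686334464, 9676147370143976752414720,
  18599866461040148480, 2535301200456458802993406410752], [36893488147419103232,
  79228164912341067175785660416, 309485046732847614653366272, 1237958965644799900899082240,
  75594761717661369892864, 4759548201393216028672, 38055416851280691200,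
  604573590271756844662784], [2361183241434822606848, 154744866111928367694479360,
  20282409603651670423947251286016, 304592642648691743653888, 5070602400912917605986812821504,
  2370415620670932123648, 237685092042596308242638307328], [18014398509481984,
  618988909126636014539898880, 633825300114114700748351602688, 4722420526065173659648,
  1208925846636226938929152, 39614081330937159490119663616], [18889465931478580854784,
  2475898968041195628006473728, 23906980319527578894336, 4951779046616459777432092672,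
  38704589480575907009658880], [4503599627370496, 155838098438297919422464,
  316912650057057350374175801344, 77371326246816161646772224], [4722366482869645213696,
  4869949442658576367616, 4798459302173697114112], [9007199254740992, 73798235293906632704],
  [73786976294838206464]]

theorem f1 : S.form 1 C1 E1 T1 0 = true := by decide +kernel

def C2 : List ℕ := [12288, 80, 2112, 128, 16, 3072, 768, 4096, 2048, 1, 2, 4, 8, 544, 2176, 8208,
  384, 9216, 48, 2080, 2304, 8448, 640, 4112, 288, 576, 1056, 4224, 8320, 528, 4160, 1152, 2560,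
  10240, 5120, 4128, 272, 4608, 4352, 160, 8256, 1040, 512, 1280, 8192, 64, 32, 256, 1024, 8224,
  2068]

def E2 : List (ℕ × ℕ × ℕ) := [(0, 9, 0), (2, 9, 1), (2, 9, 2), (2, 9, 3), (2, 9, 4), (2, 9, 5),
  (2, 9, 6), (2, 9, 7), (2, 9, 8), (2, 9, 9), (2, 9, 10), (2, 9, 11), (2, 9, 12), (2, 9, 13), (0,
  10, 0), (2, 10, 2), (2, 10, 3), (2, 10, 4), (2, 10, 5), (2, 10, 6), (2, 10, 7), (2, 10, 8), (2,
  10, 9), (2, 10, 10), (2, 10, 11), (2, 10, 12), (2, 10, 13), (0, 11, 0), (2, 11, 3), (2, 11, 4),
  (2, 11, 5), (2, 11, 6), (2, 11, 7), (2, 11, 8), (2, 11, 9), (2, 11, 10), (2, 11, 11), (2, 11,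
  12), (2, 11, 13), (0, 12, 0), (2, 12, 4), (2, 12, 5), (2, 12, 6), (2, 12, 7), (2, 12, 8), (2,
  12, 9), (2, 12, 10), (2, 12, 11), (2, 12, 12), (2, 12, 13), (0, 0, 0), (0, 1, 0), (0, 2, 0), (0,
  3, 0), (0, 4, 0), (0, 5, 0), (0, 6, 0), (0, 7, 0), (0, 8, 0), (0, 13, 0), (0, 14, 0), (0, 15,
  0), (0, 16, 0), (0, 17, 0), (0, 18, 0), (0, 19, 0), (0, 20, 0), (0, 21, 0), (0, 22, 0), (0, 23,
  0), (0, 24, 0), (0, 25, 0), (0, 26, 0), (0, 27, 0), (0, 28, 0), (0, 29, 0), (0, 30, 0), (0, 31,
  0), (0, 32, 0), (0, 33, 0), (0, 34, 0), (0, 35, 0), (0, 36, 0), (0, 37, 0), (0, 38, 0), (0, 39,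
  0), (0, 40, 0), (0, 41, 0), (0, 42, 0), (0, 43, 0), (0, 44, 0), (0, 45, 0), (0, 46, 0), (0, 47,
  0), (0, 48, 0), (1, 0, 0), (1, 1, 0), (1, 2, 0), (3, 3, 4), (3, 7, 8), (3, 42, 43), (3, 42, 44),
  (3, 45, 46), (3, 45, 47), (3, 45, 48)]

def T2 : List (List ℕ) := [[1, 2, 4, 8, 16, 32, 64, 128, 256, 512, 1024, 2048, 4096, 8192],
  [16384, 32768, 65536, 131072, 262144, 524288, 1048576, 2097152, 4194304, 8388608, 16777216,
  33554432, 67108864], [134217728, 268435456, 536870912, 1073741824, 2147483648, 4294967296,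
  8589934592, 17179869184, 34359738368, 68719476736, 137438953472, 274877906944], [549755813888,
  1099511627776, 2199023255552, 4398046511104, 8796093022208, 17592186044416, 35184372088832,
  70368744177664, 140737488355328, 281474976710656, 562949953421312], [18014398509481984,
  4951760175606279571815530496, 2475880078591026748121415680, 316912650057057350374175801344,
  9908356017579515114401300480, 309522788771222424395972608, 19961783133494771331257860096,
  79228162514570582437595709440, 590457939945290989568, 1237940041609237682622300160],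
  [4951760157141521099596496896, 5070602400912917605986812821504, 4990445783378196432441835520,
  14855281652016184016200794112, 5261245167539326920624701440, 24758805508074088367627698176,
  4951760194323239623167311872, 4954178008924865546021765120, 45803781453559070171267596288],
  [2475880078570760549798248448, 158456325029974330742769975296, 10141204801825835211973625643008,
  2785367449575347053345636352, 20282409603651670423947251286016, 2475880078863494525577330688,
  2475955636578601652197523456, 3791191370311477091878567936], [9007199254740992,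
  9903520318903735416875122688, 309485304978257447332347904, 19807191744302543426287566848,
  1450159080013299712, 9444886088126621024256, 1237958928760318952734720000],
  [9903520314283042199192993792, 10213005324176444861955702784, 30329530962491816735028543488,
  9903520388358248870182912000, 9922863127540991454064148480, 11141460501142375063768530944],
  [309485009821345068724781056, 1277863605552405846358658908160, 309787241564479102170169344,
  319156416522377290198286336, 2535301200456458802993406410752], [19807040628566084398385987584,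
  19807040628890343571556663296, 19808249554529814215636549632, 21044980677074836710139887616],
  [288230376151711744, 633825300114114700748351602688, 1238544502483417965638189056],
  [144115188075855872, 1237940039430621362881822720], [1237940039285380274899124224]]

theorem f2 : S.form 2 C2 E2 T2 0 = true := by decide +kernel

def C3 : List ℕ := [5120, 9216, 1040, 610, 2080, 160, 12288, 1280, 3072, 6144, 528, 1088, 4112, 1,
  2, 4, 8, 4224, 384, 640, 8448, 96, 272, 8208, 288, 4352, 2048, 80, 514, 4608, 128, 16, 4128,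
  8320, 1152, 2064, 1536, 64, 8192, 256, 4096, 544, 48, 8704, 2176, 192, 32, 10245, 1024, 144,
  2304]

def E3 : List (ℕ × ℕ × ℕ) := [(0, 13, 0), (2, 13, 1), (2, 13, 2), (2, 13, 3), (2, 13, 4), (2, 13,
  5), (2, 13, 6), (2, 13, 7), (2, 13, 8), (2, 13, 9), (2, 13, 10), (2, 13, 11), (2, 13, 12), (2,
  13, 13), (0, 14, 0), (2, 14, 2), (2, 14, 3), (2, 14, 4), (2, 14, 5), (2, 14, 6), (2, 14, 7), (2,
  14, 8), (2, 14, 9), (2, 14, 10), (2, 14, 11), (2, 14, 12), (2, 14, 13), (0, 15, 0), (2, 15, 3),
  (2, 15, 4), (2, 15, 5), (2, 15, 6), (2, 15, 7), (2, 15, 8), (2, 15, 9), (2, 15, 10), (2, 15,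
  11), (2, 15, 12), (2, 15, 13), (0, 16, 0), (2, 16, 4), (2, 16, 5), (2, 16, 6), (2, 16, 7), (2,
  16, 8), (2, 16, 9), (2, 16, 10), (2, 16, 11), (2, 16, 12), (2, 16, 13), (0, 0, 0), (0, 1, 0),
  (0, 2, 0), (0, 3, 0), (0, 4, 0), (0, 5, 0), (0, 6, 0), (0, 7, 0), (0, 8, 0), (0, 9, 0), (0, 10,
  0), (0, 11, 0), (0, 12, 0), (0, 17, 0), (0, 18, 0), (0, 19, 0), (0, 20, 0), (0, 21, 0), (0, 22,
  0), (0, 23, 0), (0, 24, 0), (0, 25, 0), (0, 26, 0), (0, 27, 0), (0, 28, 0), (0, 29, 0), (0, 30,
  0), (0, 31, 0), (0, 32, 0), (0, 33, 0), (0, 34, 0), (0, 35, 0), (0, 36, 0), (0, 37, 0), (0, 38,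
  0), (0, 39, 0), (0, 40, 0), (0, 41, 0), (0, 42, 0), (0, 43, 0), (0, 44, 0), (0, 45, 0), (0, 46,
  0), (0, 47, 0), (0, 48, 0), (1, 0, 0), (1, 1, 0), (1, 2, 0), (3, 26, 27), (3, 26, 28), (3, 37,
  38), (3, 37, 39), (3, 37, 40), (3, 46, 47), (3, 46, 48)]

def T3 : List (List ℕ) := [[1, 2, 4, 8, 16, 32, 64, 128, 256, 512, 1024, 2048, 4096, 8192],
  [16384, 32768, 65536, 131072, 262144, 524288, 1048576, 2097152, 4194304, 8388608, 16777216,
  33554432, 67108864], [134217728, 268435456, 536870912, 1073741824, 2147483648, 4294967296,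
  8589934592, 17179869184, 34359738368, 68719476736, 137438953472, 274877906944], [549755813888,
  1099511627776, 2199023255552, 4398046511104, 8796093022208, 17592186044416, 35184372088832,
  70368744177664, 140737488355328, 281474976710656, 562949953421312], [151115727451828646838272,
  5261396282690317996968116224, 9831967017334601334915072, 39614307930723346539742232576,
  38837037103025141590261760, 170006346304811838750720, 19807191744298039826660196352,
  2573689733163956641464320, 77522372794474114255421440, 19494519137096254147788800],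
  [4951760157141521099596496896, 4961431711272390722670559232, 4951835715041275810938880000,
  4990446963960809950598397952, 5106521551518125112543952896, 20282409603651670423947251286016,
  4951764879526018367751192576, 5029433641051761024071368704, 10146156566705361230342450577440],
  [9671406556917033397649408, 2485627042991403497519316992, 2535301200456458802993406410752,
  5106502809635153422895038464, 19816712037428844440997330944, 316915223746790514330817265664,
  5070602400912917605986812821504, 1267650600228229401496703205376], [75557863725914323419136,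
  38761202538138121623568384, 94484223145540327587840, 19808325112249424941884112896,
  1238020319515589058867757056, 77446819542434218359390208, 20022833887367295706071040],
  [38685626227668133590597632, 35430538004863264244387150833701, 19845726254937867720052441088,
  79266852862858488596779761664, 116059239866245835594399744, 58028513128478495224102912],
  [18889465931478585065472, 19811895221310474393669877760, 633825300114114700748368379904,
  77427920853130702927970304, 638331722222455682829926400], [19807040628566084398385987584,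
  19807045351220797644182913024, 19884411881022546565474025472, 19826383441682170264994971648],
  [4722366482869645213696, 77375975398279889129832448, 9922867849763359479365117957],
  [77371252455336267181195264, 96714065641227928014422016], [19342813113834066795298816]]

theorem f3 : S.form 3 C3 E3 T3 0 = true := by decide +kernel

def C4 : List ℕ := [128, 1280, 1072, 16, 32, 9216, 288, 2560, 8224, 12288, 8208, 48, 192, 528,
  8320, 96, 80, 1, 2, 4, 8, 10240, 1024, 4096, 2048, 544, 640, 4160, 4112, 2176, 512, 768, 8704,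
  4224, 256, 4992, 4144, 1088, 576, 8448, 8192, 8256, 6144, 1536, 2304, 1040, 4352, 2080, 2112,
  2064, 320]

def E4 : List (ℕ × ℕ × ℕ) := [(0, 17, 0), (2, 17, 1), (2, 17, 2), (2, 17, 3), (2, 17, 4), (2, 17,
  5), (2, 17, 6), (2, 17, 7), (2, 17, 8), (2, 17, 9), (2, 17, 10), (2, 17, 11), (2, 17, 12), (2,
  17, 13), (0, 18, 0), (2, 18, 2), (2, 18, 3), (2, 18, 4), (2, 18, 5), (2, 18, 6), (2, 18, 7), (2,
  18, 8), (2, 18, 9), (2, 18, 10), (2, 18, 11), (2, 18, 12), (2, 18, 13), (0, 19, 0), (2, 19, 3),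
  (2, 19, 4), (2, 19, 5), (2, 19, 6), (2, 19, 7), (2, 19, 8), (2, 19, 9), (2, 19, 10), (2, 19,
  11), (2, 19, 12), (2, 19, 13), (0, 20, 0), (2, 20, 4), (2, 20, 5), (2, 20, 6), (2, 20, 7), (2,
  20, 8), (2, 20, 9), (2, 20, 10), (2, 20, 11), (2, 20, 12), (2, 20, 13), (0, 0, 0), (0, 1, 0),
  (0, 2, 0), (0, 3, 0), (0, 4, 0), (0, 5, 0), (0, 6, 0), (0, 7, 0), (0, 8, 0), (0, 9, 0), (0, 10,
  0), (0, 11, 0), (0, 12, 0), (0, 13, 0), (0, 14, 0), (0, 15, 0), (0, 16, 0), (0, 21, 0), (0, 22,
  0), (0, 23, 0), (0, 24, 0), (0, 25, 0), (0, 26, 0), (0, 27, 0), (0, 28, 0), (0, 29, 0), (0, 30,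
  0), (0, 31, 0), (0, 32, 0), (0, 33, 0), (0, 34, 0), (0, 35, 0), (0, 36, 0), (0, 37, 0), (0, 38,
  0), (0, 39, 0), (0, 40, 0), (0, 41, 0), (0, 42, 0), (0, 43, 0), (0, 44, 0), (0, 45, 0), (0, 46,
  0), (0, 47, 0), (0, 48, 0), (1, 0, 0), (1, 1, 0), (1, 2, 0), (3, 0, 1), (3, 0, 2), (3, 0, 3),
  (3, 0, 4), (3, 22, 23), (3, 22, 24), (3, 35, 36)]

def T4 : List (List ℕ) := [[1, 2, 4, 8, 16, 32, 64, 128, 256, 512, 1024, 2048, 4096, 8192],
  [16384, 32768, 65536, 131072, 262144, 524288, 1048576, 2097152, 4194304, 8388608, 16777216,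
  33554432, 67108864], [134217728, 268435456, 536870912, 1073741824, 2147483648, 4294967296,
  8589934592, 17179869184, 34359738368, 68719476736, 137438953472, 274877906944], [549755813888,
  1099511627776, 2199023255552, 4398046511104, 8796093022208, 17592186044416, 35184372088832,
  70368744177664, 140737488355328, 281474976710656, 562949953421312], [9007199254740992,
  2332864606977916928, 160941876808804257949636624384, 1267650600228229401496703205376,
  21233156250072330959360800849920, 75567096105150432935936, 2475880373727672928405815296,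
  39614082437732796713438019584, 19479770749036541247488, 77371253617264971042783232],
  [18014398509481984, 160941876919511743989658157056, 2535301200456458802993406410752,
  1208925909686621722116096, 77919064981747655507968, 2475880080890114357894053888,
  9903521494892677315113779200, 4854595059240203748114432, 77371252761581041842388992],
  [160941876882600241443729571840, 160941876887213053362063802368, 240171248322684193666448228352,
  160961295253577801424848289792, 160932205180895419230979096576, 180748918691757946559526862848,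
  160941886917629017541725650944, 161173990639966250245273157632], [1125899906842624,
  4753689750855860255612637020160, 80280231334683875475456, 4436777100798802905238461218816,
  38959524609574479855616, 605053206743573199847424, 77371270903206240797589504],
  [1208925819614629174706176, 1435599410792372144963584, 1209220969771608341217280,
  1239150145696615621485133824, 4952969673256946087476854784, 117265804502619029946499072],
  [75557863725914323419136, 619045872654321231125807104, 76738599461819810578432,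
  4758645974239625024785572954112, 77749041773965838798290944], [295147905179352825856,
  10141204801825835211973625643008, 5070602400912917605986812821504, 77371547639270243552985088],
  [1180591620717411303424, 309486780708776144841736192, 77372580620909574268911616],
  [590295810358705651712, 77371843327607378190270464], [77371252455336267181195264]]

theorem f4 : S.form 4 C4 E4 T4 0 = true := by decide +kernel

def C5 : List ℕ := [576, 2560, 8256, 4224, 8320, 9216, 384, 1280, 4160, 320, 1040, 8704, 1152,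
  768, 512, 16, 128, 272, 4128, 192, 2064, 1, 2, 4, 8, 8448, 4352, 2304, 144, 80, 12288, 4096,
  1024, 160, 2112, 6144, 2080, 1056, 4112, 48, 8208, 32, 4608, 256, 64, 1088, 3072, 8192, 2048,
  1536, 8224]

def E5 : List (ℕ × ℕ × ℕ) := [(0, 21, 0), (2, 21, 1), (2, 21, 2), (2, 21, 3), (2, 21, 4), (2, 21,
  5), (2, 21, 6), (2, 21, 7), (2, 21, 8), (2, 21, 9), (2, 21, 10), (2, 21, 11), (2, 21, 12), (2,
  21, 13), (0, 22, 0), (2, 22, 2), (2, 22, 3), (2, 22, 4), (2, 22, 5), (2, 22, 6), (2, 22, 7), (2,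
  22, 8), (2, 22, 9), (2, 22, 10), (2, 22, 11), (2, 22, 12), (2, 22, 13), (0, 23, 0), (2, 23, 3),
  (2, 23, 4), (2, 23, 5), (2, 23, 6), (2, 23, 7), (2, 23, 8), (2, 23, 9), (2, 23, 10), (2, 23,
  11), (2, 23, 12), (2, 23, 13), (0, 24, 0), (2, 24, 4), (2, 24, 5), (2, 24, 6), (2, 24, 7), (2,
  24, 8), (2, 24, 9), (2, 24, 10), (2, 24, 11), (2, 24, 12), (2, 24, 13), (0, 0, 0), (0, 1, 0),
  (0, 2, 0), (0, 3, 0), (0, 4, 0), (0, 5, 0), (0, 6, 0), (0, 7, 0), (0, 8, 0), (0, 9, 0), (0, 10,
  0), (0, 11, 0), (0, 12, 0), (0, 13, 0), (0, 14, 0), (0, 15, 0), (0, 16, 0), (0, 17, 0), (0, 18,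
  0), (0, 19, 0), (0, 20, 0), (0, 25, 0), (0, 26, 0), (0, 27, 0), (0, 28, 0), (0, 29, 0), (0, 30,
  0), (0, 31, 0), (0, 32, 0), (0, 33, 0), (0, 34, 0), (0, 35, 0), (0, 36, 0), (0, 37, 0), (0, 38,
  0), (0, 39, 0), (0, 40, 0), (0, 41, 0), (0, 42, 0), (0, 43, 0), (0, 44, 0), (0, 45, 0), (0, 46,
  0), (0, 47, 0), (0, 48, 0), (1, 0, 0), (1, 1, 0), (1, 2, 0), (3, 14, 15), (3, 14, 16), (3, 31,
  32), (3, 41, 42), (3, 41, 43), (3, 41, 44), (3, 47, 48)]

def T5 : List (List ℕ) := [[1, 2, 4, 8, 16, 32, 64, 128, 256, 512, 1024, 2048, 4096, 8192],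
  [16384, 32768, 65536, 131072, 262144, 524288, 1048576, 2097152, 4194304, 8388608, 16777216,
  33554432, 67108864], [134217728, 268435456, 536870912, 1073741824, 2147483648, 4294967296,
  8589934592, 17179869184, 34359738368, 68719476736, 137438953472, 274877906944], [549755813888,
  1099511627776, 2199023255552, 4398046511104, 8796093022208, 17592186044416, 35184372088832,
  70368744177664, 140737488355328, 281474976710656, 562949953421312], [36893488147419103232,
  193428168031828815372091392, 1237977855110731379479937024, 19000146395920838164480,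
  618970204110130874545078272, 316912650057057350374175801344, 302269501313309319626752,
  19807041846051193263216394240, 19493965734774042861240320, 9980891603631866613793292288],
  [154742504910672534362390528, 10141204801825835211973625643008, 155347041607456143787950080,
  5070602400912917605986812821504, 2535456094372244832535768465408, 164716142922493225053716480,
  19966618836755215449447202816, 154893915786029542362054656, 89286425333458052327099334656],
  [1237940039285380274899124224, 1237940703368166928442982400, 1856910059504531164652109824,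
  1237940057733250248515518464, 3714122349311044481991049216, 21046189593671079302459817984,
  1238091155301062479697674240, 11141460353572926073719488512], [73786976294838206464,
  618970093501724026325696512, 633825300114114700748351602688, 302309853565970559270912,
  23699441681782895116976956375040, 151189523435322739785728, 9903520388088032892540682240],
  [618970019642690137449562112, 618970047312806248013889536, 619272251241708982819094528,
  20426020092941740275125977088, 619125857736624835741614080, 10522492695108973771465162752],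
  [18446744073709551616, 39614383507033816527775203328, 19807040647015080271909224448,
  309636143995540971081170944, 9903520335035629282116239360], [302231454903657293676544,
  24759103017162509155276161024, 1267650600228229401496703205376, 9903822545773974653505634304],
  [19807040628566084398385987584, 19809609595932765485382238208,
  20282409603651670423947251286016], [151115727451828646838272, 9903746987874219942163251200],
  [9903520314283042199192993792]]

theorem f5 : S.form 5 C5 E5 T5 0 = true := by decide +kernel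

def C6 : List ℕ := [12288, 16, 128, 64, 8192, 4112, 8320, 544, 2080, 320, 8704, 160, 8224, 384,
  192, 4096, 2048, 8448, 4160, 640, 2560, 8256, 1280, 576, 1536, 1, 2, 4, 8, 2064, 96, 2176, 48,
  3072, 1152, 528, 2304, 4352, 256, 32, 512, 9216, 5120, 2112, 4608, 1056, 10240, 4128, 272, 4224,
  1024]

def E6 : List (ℕ × ℕ × ℕ) := [(0, 25, 0), (2, 25, 1), (2, 25, 2), (2, 25, 3), (2, 25, 4), (2, 25,
  5), (2, 25, 6), (2, 25, 7), (2, 25, 8), (2, 25, 9), (2, 25, 10), (2, 25, 11), (2, 25, 12), (2,
  25, 13), (0, 26, 0), (2, 26, 2), (2, 26, 3), (2, 26, 4), (2, 26, 5), (2, 26, 6), (2, 26, 7), (2,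
  26, 8), (2, 26, 9), (2, 26, 10), (2, 26, 11), (2, 26, 12), (2, 26, 13), (0, 27, 0), (2, 27, 3),
  (2, 27, 4), (2, 27, 5), (2, 27, 6), (2, 27, 7), (2, 27, 8), (2, 27, 9), (2, 27, 10), (2, 27,
  11), (2, 27, 12), (2, 27, 13), (0, 28, 0), (2, 28, 4), (2, 28, 5), (2, 28, 6), (2, 28, 7), (2,
  28, 8), (2, 28, 9), (2, 28, 10), (2, 28, 11), (2, 28, 12), (2, 28, 13), (0, 0, 0), (0, 1, 0),
  (0, 2, 0), (0, 3, 0), (0, 4, 0), (0, 5, 0), (0, 6, 0), (0, 7, 0), (0, 8, 0), (0, 9, 0), (0, 10,
  0), (0, 11, 0), (0, 12, 0), (0, 13, 0), (0, 14, 0), (0, 15, 0), (0, 16, 0), (0, 17, 0), (0, 18,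
  0), (0, 19, 0), (0, 20, 0), (0, 21, 0), (0, 22, 0), (0, 23, 0), (0, 24, 0), (0, 29, 0), (0, 30,
  0), (0, 31, 0), (0, 32, 0), (0, 33, 0), (0, 34, 0), (0, 35, 0), (0, 36, 0), (0, 37, 0), (0, 38,
  0), (0, 39, 0), (0, 40, 0), (0, 41, 0), (0, 42, 0), (0, 43, 0), (0, 44, 0), (0, 45, 0), (0, 46,
  0), (0, 47, 0), (0, 48, 0), (1, 0, 0), (1, 1, 0), (1, 2, 0), (3, 1, 2), (3, 1, 3), (3, 1, 4),
  (3, 15, 16), (3, 38, 39), (3, 38, 40), (4, 0, 0)]

def T6 : List (List ℕ) := [[1, 2, 4, 8, 16, 32, 64, 128, 256, 512, 1024, 2048, 4096, 8192],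
  [16384, 32768, 65536, 131072, 262144, 524288, 1048576, 2097152, 4194304, 8388608, 16777216,
  33554432, 67108864], [134217728, 268435456, 536870912, 1073741824, 2147483648, 4294967296,
  8589934592, 17179869184, 34359738368, 68719476736, 137438953472, 274877906944], [549755813888,
  1099511627776, 2199023255552, 4398046511104, 8796093022208, 17592186044416, 35184372088832,
  70368744177664, 140737488355328, 281474976710656, 562949953421312], [2251799813685248,
  38987857684823590697959424, 633825300114114700748351602688, 316912650057057350374175801344,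
  19826383441682170264994971648, 79789104096817325344292864, 20282409603651670423947251286016,
  37852721091051813601280, 36931768744251752448, 1267650600228229401496703205376],
  [38685626227668133590597632, 38761184100401247168757760, 38685628538014742431662080,
  5070602400912917605986812821504, 116056878827119588847648768, 81742728219062766276932796416,
  38685700302874804580515840, 9942205977404198480202694656, 38685630857368550527467520],
  [9007199254740992, 18460254872591663104, 19342813699302018353463296, 77380697197309205726363648,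
  21153919391308589396475303165952, 618970093438673631542509568, 332050400526026670080,
  2361210263032586829824], [4503599627370496, 19342822341709703277445120,
  77371842755650225514217472, 79229371440088455822346027008, 151189518931723112415232,
  39614081294030160543818448896, 94575592174780416], [19342813113834066795298816,
  10141204801825835211973625643008, 79247510049744654529984462848, 24178590179268878332329984,
  29014256564239247612051456, 19342960705801054981193728], [77371252455336267181195264,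
  79305552656185605339306000384, 77372506833933279430705152, 1315311328634204689499422720,
  77371253626272170297524224], [79228162514264337593543950336, 79228767050961121202969509888,
  79537647560979170809687834624, 79382905019193024526415822848], [73786976294838206464,
  2535301200456458802993406410752, 4951760230946511792944185344], [36893488147419103232,
  36912628445835427840], [18014398509481984]]

theorem f6 : S.form 6 C6 E6 T6 0 = true := by decide +kernel

def C7 : List ℕ := [1056, 80, 8224, 52, 576, 528, 2176, 2112, 2064, 9216, 176, 1104, 64, 32, 256,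
  2560, 8320, 3072, 96, 1040, 10240, 8192, 4096, 560, 4144, 4160, 4224, 5120, 2304, 1, 2, 4, 8,
  8448, 144, 4128, 768, 1280, 4352, 288, 272, 2048, 4608, 133, 1536, 320, 6144, 2080, 192, 384,
  1569]

def E7 : List (ℕ × ℕ × ℕ) := [(0, 29, 0), (2, 29, 1), (2, 29, 2), (2, 29, 3), (2, 29, 4), (2, 29,
  5), (2, 29, 6), (2, 29, 7), (2, 29, 8), (2, 29, 9), (2, 29, 10), (2, 29, 11), (2, 29, 12), (2,
  29, 13), (0, 30, 0), (2, 30, 2), (2, 30, 3), (2, 30, 4), (2, 30, 5), (2, 30, 6), (2, 30, 7), (2,
  30, 8), (2, 30, 9), (2, 30, 10), (2, 30, 11), (2, 30, 12), (2, 30, 13), (0, 31, 0), (2, 31, 3),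
  (2, 31, 4), (2, 31, 5), (2, 31, 6), (2, 31, 7), (2, 31, 8), (2, 31, 9), (2, 31, 10), (2, 31,
  11), (2, 31, 12), (2, 31, 13), (0, 32, 0), (2, 32, 4), (2, 32, 5), (2, 32, 6), (2, 32, 7), (2,
  32, 8), (2, 32, 9), (2, 32, 10), (2, 32, 11), (2, 32, 12), (2, 32, 13), (0, 0, 0), (0, 1, 0),
  (0, 2, 0), (0, 3, 0), (0, 4, 0), (0, 5, 0), (0, 6, 0), (0, 7, 0), (0, 8, 0), (0, 9, 0), (0, 10,
  0), (0, 11, 0), (0, 12, 0), (0, 13, 0), (0, 14, 0), (0, 15, 0), (0, 16, 0), (0, 17, 0), (0, 18,
  0), (0, 19, 0), (0, 20, 0), (0, 21, 0), (0, 22, 0), (0, 23, 0), (0, 24, 0), (0, 25, 0), (0, 26,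
  0), (0, 27, 0), (0, 28, 0), (0, 33, 0), (0, 34, 0), (0, 35, 0), (0, 36, 0), (0, 37, 0), (0, 38,
  0), (0, 39, 0), (0, 40, 0), (0, 41, 0), (0, 42, 0), (0, 43, 0), (0, 44, 0), (0, 45, 0), (0, 46,
  0), (0, 47, 0), (0, 48, 0), (1, 0, 0), (1, 1, 0), (1, 2, 0), (3, 9, 10), (3, 9, 11), (3, 9, 12),
  (3, 21, 22), (3, 21, 23), (3, 21, 24), (3, 43, 44)]

def T7 : List (List ℕ) := [[1, 2, 4, 8, 16, 32, 64, 128, 256, 512, 1024, 2048, 4096, 8192],
  [16384, 32768, 65536, 131072, 262144, 524288, 1048576, 2097152, 4194304, 8388608, 16777216,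
  33554432, 67108864], [134217728, 268435456, 536870912, 1073741824, 2147483648, 4294967296,
  8589934592, 17179869184, 34359738368, 68719476736, 137438953472, 274877906944], [549755813888,
  1099511627776, 2199023255552, 4398046511104, 8796093022208, 17592186044416, 35184372088832,
  70368744177664, 140737488355328, 281474976710656, 562949953421312],
  [14577981903224738263959578083328, 14577981903215523899123722878976,
  14577981903229352201777819156480, 14578602082170200568730631536773,
  14578059274495640344300468830208, 159694265660472003879069812293, 80466112588624655864364533281,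
  14578136645729937166870092185600, 2436750337539974784614400, 12676506004652705132038336806912],
  [9223372036854775808, 308982963234634989568, 14577983112151719807294359207936,
  38685653897784244154925056, 14577981912669516265696887046144, 14658448015213842611528475346465,
  10058262828417086770410160128, 2422583229084164849401856, 2370411117071304753152],
  [4611686018427387904, 20426010652820460558692122757, 2475880101629190641935187968,
  14737676167709176289944135534149, 14577981902636750548409899810816, 154742509666473740865634304,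
  42505910031845234311168, 13310331302408521146913196605440], [618970019642690141878747269,
  40233051295221603012360274053, 22501417126506266874741398701701,
  2219007522854596450742607806597, 773712524625420270279065733, 619050299872898925847380101,
  618972454612907871539560581], [18446744073709551616, 14737681003426307820914626004549,
  14658457686648070770572344165921, 155044754812320265365618688, 19347553927061010150064128,
  606842539792823119511552], [14737676167704582618324217628229, 238922437619479440312542167140,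
  14737830910246386779005999121989, 14737985657436770446262587622981,
  17747108403195211620953844875264], [14658448015223067109465236964897,
  14658602757875551734589275768353, 14658448171061161044163529016865,
  14658448017583673890147756148257], [154742504910672534362390528, 5106507384418676503604101120,
  154746046685534686596300800], [4722366482869645213696, 2535301200456458802993406410752],
  [2361183241434822606848]]

theorem f7 : S.form 7 C7 E7 T7 0 = true := by decide +kernel

def C8 : List ℕ := [2064, 128, 8448, 160, 5120, 3072, 10240, 85, 32, 2112, 8192, 528, 4096, 96,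
  2048, 288, 320, 4112, 384, 4608, 12288, 544, 6144, 1024, 576, 4128, 4352, 641, 3584, 1298, 258,
  64, 2560, 1, 2, 4, 8, 512, 8704, 8208, 1152, 2304, 4160, 9216, 48, 1056, 192, 144, 4224, 1280,
  8320]

def E8 : List (ℕ × ℕ × ℕ) := [(0, 33, 0), (2, 33, 1), (2, 33, 2), (2, 33, 3), (2, 33, 4), (2, 33,
  5), (2, 33, 6), (2, 33, 7), (2, 33, 8), (2, 33, 9), (2, 33, 10), (2, 33, 11), (2, 33, 12), (2,
  33, 13), (0, 34, 0), (2, 34, 2), (2, 34, 3), (2, 34, 4), (2, 34, 5), (2, 34, 6), (2, 34, 7), (2,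
  34, 8), (2, 34, 9), (2, 34, 10), (2, 34, 11), (2, 34, 12), (2, 34, 13), (0, 35, 0), (2, 35, 3),
  (2, 35, 4), (2, 35, 5), (2, 35, 6), (2, 35, 7), (2, 35, 8), (2, 35, 9), (2, 35, 10), (2, 35,
  11), (2, 35, 12), (2, 35, 13), (0, 36, 0), (2, 36, 4), (2, 36, 5), (2, 36, 6), (2, 36, 7), (2,
  36, 8), (2, 36, 9), (2, 36, 10), (2, 36, 11), (2, 36, 12), (2, 36, 13), (0, 0, 0), (0, 1, 0),
  (0, 2, 0), (0, 3, 0), (0, 4, 0), (0, 5, 0), (0, 6, 0), (0, 7, 0), (0, 8, 0), (0, 9, 0), (0, 10,
  0), (0, 11, 0), (0, 12, 0), (0, 13, 0), (0, 14, 0), (0, 15, 0), (0, 16, 0), (0, 17, 0), (0, 18,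
  0), (0, 19, 0), (0, 20, 0), (0, 21, 0), (0, 22, 0), (0, 23, 0), (0, 24, 0), (0, 25, 0), (0, 26,
  0), (0, 27, 0), (0, 28, 0), (0, 29, 0), (0, 30, 0), (0, 31, 0), (0, 32, 0), (0, 37, 0), (0, 38,
  0), (0, 39, 0), (0, 40, 0), (0, 41, 0), (0, 42, 0), (0, 43, 0), (0, 44, 0), (0, 45, 0), (0, 46,
  0), (0, 47, 0), (0, 48, 0), (1, 0, 0), (1, 1, 0), (1, 2, 0), (3, 6, 7), (3, 6, 8), (3, 23, 24),
  (3, 27, 28), (3, 29, 30), (3, 29, 31), (3, 29, 32)]

def T8 : List (List ℕ) := [[1, 2, 4, 8, 16, 32, 64, 128, 256, 512, 1024, 2048, 4096, 8192],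
  [16384, 32768, 65536, 131072, 262144, 524288, 1048576, 2097152, 4194304, 8388608, 16777216,
  33554432, 67108864], [134217728, 268435456, 536870912, 1073741824, 2147483648, 4294967296,
  8589934592, 17179869184, 34359738368, 68719476736, 137438953472, 274877906944], [549755813888,
  1099511627776, 2199023255552, 4398046511104, 8796093022208, 17592186044416, 35184372088832,
  70368744177664, 140737488355328, 281474976710656, 562949953421312],
  [11408861749007031454629959843925, 11410099689046605065281010679893,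
  11408864166858526568697414828032, 11418765269321316748628966522965,
  5110217700540602355152060563456, 11408871420415894214672571187285,
  16479463554901772219041475739733, 11408861748988585836456157134933,
  11408861749159217093238063644757, 11408900434634412044268157288533], [288230376151711744,
  2417861150831671355899904, 299489375220137984, 1208963001333152747634688,
  9673768028388844371968000, 2475889523591956665240387584, 871509787656918972528051879936,
  37783831779351740809216, 237684487542804271779700277248], [2417851639229258349412352,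
  4954178008783002157759594496, 3626851245820182364438528, 12108147662077770327916544,
  1267655738181445536541424222208, 2417870662434084362387456, 311902866072260345501581312,
  316953753536654756266530318336], [2251799813685248, 1209220969771608343330816,
  9822522286620661858173569, 77380697190553806285307904, 2535379034500865489282837515393,
  19807040633180022216627060736, 79228162515419510897964482560], [1208925819614629176819712,
  20282580373870730924966612582400, 39615299627684749165239222272, 155951449177031237248761856,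
  1284488295026561927626752, 1208926977039733411037184], [9671406556917033397649408,
  5137953216135044721016832, 14507128282119623806025728, 9672001464413410530689024,
  29014220823672604799795200], [9444732965739290427392, 9463215738610018942976,
  9449362666156227297280, 618979465528577381346836480], [18446744073709551616,
  4745424912961782153216, 19671723172354326528], [4611686018427387904, 1186356228240445538304],
  [1152921504606846976]]

theorem f8 : S.form 8 C8 E8 T8 0 = true := by decide +kernel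

def C9 : List ℕ := [8320, 544, 288, 2114, 640, 6274, 512, 8724, 128, 2080, 10240, 32, 144, 8224,
  4112, 1152, 320, 576, 1536, 384, 5120, 4608, 96, 4352, 8208, 8704, 2176, 2064, 528, 2560, 8192,
  66, 256, 272, 2056, 1282, 1024, 1, 2, 4, 8, 192, 9216, 48, 4128, 80, 4160, 768, 1040, 160, 1088]

def E9 : List (ℕ × ℕ × ℕ) := [(0, 37, 0), (2, 37, 1), (2, 37, 2), (2, 37, 3), (2, 37, 4), (2, 37,
  5), (2, 37, 6), (2, 37, 7), (2, 37, 8), (2, 37, 9), (2, 37, 10), (2, 37, 11), (2, 37, 12), (2,
  37, 13), (0, 38, 0), (2, 38, 2), (2, 38, 3), (2, 38, 4), (2, 38, 5), (2, 38, 6), (2, 38, 7), (2,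
  38, 8), (2, 38, 9), (2, 38, 10), (2, 38, 11), (2, 38, 12), (2, 38, 13), (0, 39, 0), (2, 39, 3),
  (2, 39, 4), (2, 39, 5), (2, 39, 6), (2, 39, 7), (2, 39, 8), (2, 39, 9), (2, 39, 10), (2, 39,
  11), (2, 39, 12), (2, 39, 13), (0, 40, 0), (2, 40, 4), (2, 40, 5), (2, 40, 6), (2, 40, 7), (2,
  40, 8), (2, 40, 9), (2, 40, 10), (2, 40, 11), (2, 40, 12), (2, 40, 13), (0, 0, 0), (0, 1, 0),
  (0, 2, 0), (0, 3, 0), (0, 4, 0), (0, 5, 0), (0, 6, 0), (0, 7, 0), (0, 8, 0), (0, 9, 0), (0, 10,
  0), (0, 11, 0), (0, 12, 0), (0, 13, 0), (0, 14, 0), (0, 15, 0), (0, 16, 0), (0, 17, 0), (0, 18,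
  0), (0, 19, 0), (0, 20, 0), (0, 21, 0), (0, 22, 0), (0, 23, 0), (0, 24, 0), (0, 25, 0), (0, 26,
  0), (0, 27, 0), (0, 28, 0), (0, 29, 0), (0, 30, 0), (0, 31, 0), (0, 32, 0), (0, 33, 0), (0, 34,
  0), (0, 35, 0), (0, 36, 0), (0, 41, 0), (0, 42, 0), (0, 43, 0), (0, 44, 0), (0, 45, 0), (0, 46,
  0), (0, 47, 0), (0, 48, 0), (1, 0, 0), (1, 1, 0), (1, 2, 0), (3, 5, 6), (3, 5, 7), (3, 5, 8),
  (3, 30, 31), (3, 30, 32), (3, 34, 35), (3, 34, 36)]

def T9 : List (List ℕ) := [[1, 2, 4, 8, 16, 32, 64, 128, 256, 512, 1024, 2048, 4096, 8192],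
  [16384, 32768, 65536, 131072, 262144, 524288, 1048576, 2097152, 4194304, 8388608, 16777216,
  33554432, 67108864], [134217728, 268435456, 536870912, 1073741824, 2147483648, 4294967296,
  8589934592, 17179869184, 34359738368, 68719476736, 137438953472, 274877906944], [549755813888,
  1099511627776, 2199023255552, 4398046511104, 8796093022208, 17592186044416, 35184372088832,
  70368744177664, 140737488355328, 281474976710656, 562949953421312], [1567825888485797053595648,
  620537847837018943716851712, 2479865756098475605201797120, 1567830788402191632695296,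
  16074935723861347150069760, 1265594361524545721991168, 19885979706909906462620778496,
  21061754729912979739901952, 316934167538833791529015836672, 340010602939689298034688],
  [2305843009213693952, 2422576311555137208860672, 39614081259726242182137380864,
  4835705588805125539889152, 2380152403065307136, 20440885876254255412912423452672,
  19342815996279115556585472, 318170539736233900130441363456, 1208937348829675243175936],
  [2417851639229258349953024, 157160356838132168864055296, 7253628704664069886984192,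
  2417999285239442064293888, 79307951618358903119075098624, 21760664762211811660398592,
  321886777703423427204274995200, 2535301200456458802993473519616], [288230376151711744,
  4836293862499251556188160, 378302368699121664, 77371289637054790752010240,
  19418371265931644514598912, 1267670018599495333141218852864, 1208926108970905233260544],
  [4835703278458516698824704, 9908356017633558309929746432, 120892581961462917481119744,
  30423614405477505653513079816192, 316937444842654101102317797376,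
  5070602400912917605986812821504], [72057594037927936, 77371547675299040571949056,
  19947276095840262664749056, 316932597333387377817468010496, 1246704823535180374343680],
  [77371252455336267181195264, 20282409603651670494315995463680, 317009972127689633830921043968,
  388065188096295965080682496], [19342813113975354039468032, 1584563857109505901409909882880,
  20551740086511487821021184], [316932599694642676846328545280, 633846968717384327365300224000],
  [1208925819614629174706176]]

theorem f9 : S.form 9 C9 E9 T9 0 = true := by decide +kernel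

def C10 : List ℕ := [528, 2080, 2304, 2690, 10240, 4352, 8256, 544, 144, 4112, 1040, 4096, 64,
  128, 1024, 32, 256, 9216, 4128, 16, 8192, 576, 48, 8448, 3072, 1056, 288, 4160, 1536, 8224, 96,
  192, 8704, 6144, 80, 2176, 1280, 272, 2112, 2048, 512, 1, 2, 4, 8, 8320, 2064, 4224, 768, 320,
  12288]

def E10 : List (ℕ × ℕ × ℕ) := [(0, 41, 0), (2, 41, 1), (2, 41, 2), (2, 41, 3), (2, 41, 4), (2, 41,
  5), (2, 41, 6), (2, 41, 7), (2, 41, 8), (2, 41, 9), (2, 41, 10), (2, 41, 11), (2, 41, 12), (2,
  41, 13), (0, 42, 0), (2, 42, 2), (2, 42, 3), (2, 42, 4), (2, 42, 5), (2, 42, 6), (2, 42, 7), (2,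
  42, 8), (2, 42, 9), (2, 42, 10), (2, 42, 11), (2, 42, 12), (2, 42, 13), (0, 43, 0), (2, 43, 3),
  (2, 43, 4), (2, 43, 5), (2, 43, 6), (2, 43, 7), (2, 43, 8), (2, 43, 9), (2, 43, 10), (2, 43,
  11), (2, 43, 12), (2, 43, 13), (0, 44, 0), (2, 44, 4), (2, 44, 5), (2, 44, 6), (2, 44, 7), (2,
  44, 8), (2, 44, 9), (2, 44, 10), (2, 44, 11), (2, 44, 12), (2, 44, 13), (0, 0, 0), (0, 1, 0),
  (0, 2, 0), (0, 3, 0), (0, 4, 0), (0, 5, 0), (0, 6, 0), (0, 7, 0), (0, 8, 0), (0, 9, 0), (0, 10,
  0), (0, 11, 0), (0, 12, 0), (0, 13, 0), (0, 14, 0), (0, 15, 0), (0, 16, 0), (0, 17, 0), (0, 18,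
  0), (0, 19, 0), (0, 20, 0), (0, 21, 0), (0, 22, 0), (0, 23, 0), (0, 24, 0), (0, 25, 0), (0, 26,
  0), (0, 27, 0), (0, 28, 0), (0, 29, 0), (0, 30, 0), (0, 31, 0), (0, 32, 0), (0, 33, 0), (0, 34,
  0), (0, 35, 0), (0, 36, 0), (0, 37, 0), (0, 38, 0), (0, 39, 0), (0, 40, 0), (0, 45, 0), (0, 46,
  0), (0, 47, 0), (0, 48, 0), (1, 0, 0), (1, 1, 0), (1, 2, 0), (3, 10, 11), (3, 10, 12), (3, 13,
  14), (3, 13, 15), (3, 13, 16), (3, 19, 20), (3, 39, 40)]

def T10 : List (List ℕ) := [[1, 2, 4, 8, 16, 32, 64, 128, 256, 512, 1024, 2048, 4096, 8192],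
  [16384, 32768, 65536, 131072, 262144, 524288, 1048576, 2097152, 4194304, 8388608, 16777216,
  33554432, 67108864], [134217728, 268435456, 536870912, 1073741824, 2147483648, 4294967296,
  8589934592, 17179869184, 34359738368, 68719476736, 137438953472, 274877906944], [549755813888,
  1099511627776, 2199023255552, 4398046511104, 8796093022208, 17592186044416, 35184372088832,
  70368744177664, 140737488355328, 281474976710656, 562949953421312], [590295810358705651712,
  5349555781375769968640, 19343408021330443928338432, 599807412771712139264,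
  154743168993459187906248704, 1237940629582316533511618560, 609895475937022050304,
  5570730767080021595751710720, 593178114120222769152, 10141204801825835211973625643008],
  [36893488147419103232, 1208967324788795021197312, 2535301200456458802993406410752,
  75668544190356580728832, 1237940076322983610394083328, 37834272095178290364416,
  618970056538430084682350592, 334347236335985623040, 605680394916179417759744],
  [4611686018427387904, 2417865474287313631576064, 39614081335530831110037569536,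
  1237942405080307728149118976, 633844643522136031192279941120, 928455034075721224601731072,
  151122644980856287920128, 1185275364329876619264], [9223372036854775808,
  5070602400912917605986812821504, 20283686229317192479555017785344,
  1267650600228229401496703205376, 657655655093730307894935552, 9903520325812257245261463552,
  2475881268385753304064327680], [73786976294838206464, 21044980741638440968123318272,
  77371344689056635728953344, 618970093434170031915139072, 76128848101070864384,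
  10699111562751539937280], [1237940039285380274899124224, 1238242289187028005902352384,
  20282409603651670423947251286016, 23067818819321307996756224770048,
  1242776923155459509009252352], [18446744073709551616, 618988927555365689739968512,
  316912650650235464494398570496, 1346612317380797267968], [618970019642690137449562112,
  628641428505450180060905472, 618971200252325253370347520], [2305843009213693952,
  79228163697161801320168947712], [1180591620717411303424]]

theorem f10 : S.form 10 C10 E10 T10 0 = true := by decide +kernel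

def C11 : List ℕ := [160, 768, 8320, 4128, 8256, 1040, 4608, 320, 4160, 272, 8224, 1024, 512,
  2560, 9216, 3072, 192, 2048, 256, 32, 4096, 1152, 10240, 8448, 576, 4224, 640, 8704, 2112, 48,
  1280, 1056, 96, 16, 64, 128, 8192, 528, 5120, 4112, 1088, 384, 2176, 2064, 288, 1, 2, 4, 8,
  12288, 4352]

def E11 : List (ℕ × ℕ × ℕ) := [(0, 45, 0), (2, 45, 1), (2, 45, 2), (2, 45, 3), (2, 45, 4), (2, 45,
  5), (2, 45, 6), (2, 45, 7), (2, 45, 8), (2, 45, 9), (2, 45, 10), (2, 45, 11), (2, 45, 12), (2,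
  45, 13), (0, 46, 0), (2, 46, 2), (2, 46, 3), (2, 46, 4), (2, 46, 5), (2, 46, 6), (2, 46, 7), (2,
  46, 8), (2, 46, 9), (2, 46, 10), (2, 46, 11), (2, 46, 12), (2, 46, 13), (0, 47, 0), (2, 47, 3),
  (2, 47, 4), (2, 47, 5), (2, 47, 6), (2, 47, 7), (2, 47, 8), (2, 47, 9), (2, 47, 10), (2, 47,
  11), (2, 47, 12), (2, 47, 13), (0, 48, 0), (2, 48, 4), (2, 48, 5), (2, 48, 6), (2, 48, 7), (2,
  48, 8), (2, 48, 9), (2, 48, 10), (2, 48, 11), (2, 48, 12), (2, 48, 13), (0, 0, 0), (0, 1, 0),
  (0, 2, 0), (0, 3, 0), (0, 4, 0), (0, 5, 0), (0, 6, 0), (0, 7, 0), (0, 8, 0), (0, 9, 0), (0, 10,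
  0), (0, 11, 0), (0, 12, 0), (0, 13, 0), (0, 14, 0), (0, 15, 0), (0, 16, 0), (0, 17, 0), (0, 18,
  0), (0, 19, 0), (0, 20, 0), (0, 21, 0), (0, 22, 0), (0, 23, 0), (0, 24, 0), (0, 25, 0), (0, 26,
  0), (0, 27, 0), (0, 28, 0), (0, 29, 0), (0, 30, 0), (0, 31, 0), (0, 32, 0), (0, 33, 0), (0, 34,
  0), (0, 35, 0), (0, 36, 0), (0, 37, 0), (0, 38, 0), (0, 39, 0), (0, 40, 0), (0, 41, 0), (0, 42,
  0), (0, 43, 0), (0, 44, 0), (1, 0, 0), (1, 1, 0), (1, 2, 0), (3, 11, 12), (3, 17, 18), (3, 17,
  19), (3, 17, 20), (3, 33, 34), (3, 33, 35), (3, 33, 36)]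

def T11 : List (List ℕ) := [[1, 2, 4, 8, 16, 32, 64, 128, 256, 512, 1024, 2048, 4096, 8192],
  [16384, 32768, 65536, 131072, 262144, 524288, 1048576, 2097152, 4194304, 8388608, 16777216,
  33554432, 67108864], [134217728, 268435456, 536870912, 1073741824, 2147483648, 4294967296,
  8589934592, 17179869184, 34359738368, 68719476736, 137438953472, 274877906944], [549755813888,
  1099511627776, 2199023255552, 4398046511104, 8796093022208, 17592186044416, 35184372088832,
  70368744177664, 140737488355328, 281474976710656, 562949953421312], [9671406556917033397649408,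
  10276459762534706690654208, 5070602400912917605986812821504, 10141204801825835211973625643008,
  9671702281282965053898752, 164413916079275586187427840, 9671408898788839630307328,
  9913191868413911822267056128, 628642606791227888258514944, 20282409603651670423947251286016],
  [590295810358705651712, 24179106688102942199775232, 38686216524604392203091968,
  19807041514009799936444465152, 158456325623436171564220940288, 2418444240882626268758016,
  1267650600228229401496703205376, 1770896438275371696128, 77371843904068130493693952],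
  [19342813113834066795298816, 58028513128478495224102912, 19343108405854434223980544,
  19361707191451563803541504, 1257282854705057350908116992, 19645192142690313765388288,
  19343993993685160358313984, 96714065587184732485976064], [38685626227668133590597632,
  2514565999946333862741671936, 38761188703080066341404672, 38687989716752577626898432,
  4990445930943141822863507456, 38724585751151808163610624, 116056878687508000399163392],
  [295147905179352825856, 299761842997593899008, 1209223273362817741225984,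
  633825300114114700748351602688, 79228163990003863490308079616, 77380992336207185824448512],
  [4611686018427387904, 316912650057057350374175801344, 161409010644958576640,
  1185275364329876619264, 77522372794474114255421440], [2305843009213693952,
  186773283746309210112, 309486192718808795349778432, 77371273207923350104440832],
  [147573952589676412928, 2535301200456458802993406410752, 77376122395771726502821888],
  [1180591620717411303424, 39691453690179125781364473856], [77371252455336267181195264]]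

theorem f11 : S.form 11 C11 E11 T11 0 = true := by decide +kernel

theorem _root_.Pool.Agent.WarR.sd_13_12_49_3 {K : Type*} [Field K] [CharZero K] : KQ K 14 12 49 3 0 := by
  refine SeedD.main S (by decide +kernel) (fun k => ([0, 0, 0, 0, 0, 0, 0, 0, 0, 0, 0, 0] : List ℕ).getD k 0) 0 ?_
    (by decide +kernel)
  intro k hk
  have hk' : k < 12 := hk
  interval_cases k
  · exact ⟨C0, E0, T0, f0⟩
  · exact ⟨C1, E1, T1, f1⟩
  · exact ⟨C2, E2, T2, f2⟩
  · exact ⟨C3, E3, T3, f3⟩
  · exact ⟨C4, E4, T4, f4⟩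
  · exact ⟨C5, E5, T5, f5⟩
  · exact ⟨C6, E6, T6, f6⟩
  · exact ⟨C7, E7, T7, f7⟩
  · exact ⟨C8, E8, T8, f8⟩
  · exact ⟨C9, E9, T9, f9⟩
  · exact ⟨C10, E10, T10, f10⟩
  · exact ⟨C11, E11, T11, f11⟩

end T_13_12_49_3

end Pool.Agent.WarR


end
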