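import Mathlib
import Pool.Agent.Lib_helper88.Waring.Defs

/-! Parts: Lib_helper88.Waring.Dom, Lib_helper88.Waring.Gen, Lib_helper88.Waring.Bridge, Lib_helper88.Waring.Neg, Lib_helper88.Waring.Arr, Lib_helper88.Waring.Wah, Lib_helper88.Waring.Pair, Lib_helper88.Waring.Tern, WarN.Lin, WarN.Exc2, WarN.Pen -/

section

/-!
# Dominance of polynomial maps from the Jacobian criterion (helper88)
-/

set_option autoImplicit false

open MvPolynomial Cardinal

namespace Pool.Agent.Waring

/-- chain rule -/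
lemma pderiv_aeval {σ τ : Type*} [Fintype τ] (θ : τ → MvPolynomial σ ℂ) (a : σ)
    (F : MvPolynomial τ ℂ) :
    pderiv a (aeval θ F) = ∑ b, aeval θ (pderiv b F) * pderiv a (θ b) := by
  classical
  induction F using MvPolynomial.induction_on with
  | C c => simp
  | add p q hp hq =>
    simp only [map_add, hp, hq, add_mul, Finset.sum_add_distrib]
  | mul_X p b hp =>
    have h1 : ∀ c : τ, aeval θ (pderiv c (p * X b)) * pderiv a (θ c) =
        θ b * (aeval θ (pderiv c p) * pderiv a (θ c)) +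
          (if c = b then aeval θ p * pderiv a (θ b) else 0) := by
      intro c
      rw [pderiv_mul, pderiv_X]
      by_cases hc : c = b
      · subst hc
        simp only [Pi.single_eq_same, map_add, map_mul, aeval_X, map_one, if_true]
        ring
      · rw [if_neg hc, Pi.single_eq_of_ne (Ne.symm hc)]
        simp only [map_add, map_mul, aeval_X, map_zero]
        ring
    simp only [h1, Finset.sum_add_distrib, ← Finset.mul_sum, ← hp]
    simp only [map_mul, aeval_X, pderiv_mul]
    simp only [Finset.sum_ite_eq', Finset.mem_univ, if_true]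
    ring

lemma eq_C_of_pderiv {τ : Type*} (F : MvPolynomial τ ℂ) (h : ∀ b, pderiv b F = 0) :
    F = C (coeff 0 F) := by
  classical
  ext m
  rw [coeff_C]
  split_ifs with hm
  · rw [hm]
  · have hm' : m ≠ 0 := fun h => hm h.symm
    obtain ⟨b, hb⟩ : ∃ b, m b ≠ 0 := by
      by_contra hcon
      push Not at hcon
      exact hm' (Finsupp.ext hcon)
    have h1 := congrArg (coeff (m - Finsupp.single b 1)) (h b)
    have e : m - Finsupp.single b 1 + Finsupp.single b 1 = m := by
      refine tsub_add_cancel_of_le ?_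
      rw [Finsupp.single_le_iff]
      omega
    rw [coeff_pderiv, e, coeff_zero] at h1
    rcases mul_eq_zero.1 h1 with h2 | h2
    · exact h2
    · exfalso
      exact Nat.cast_add_one_ne_zero _ h2

lemma totalDegree_pderiv_le {τ : Type*} (F : MvPolynomial τ ℂ) (b : τ) (n : ℕ)
    (h : F.totalDegree ≤ n + 1) : (pderiv b F).totalDegree ≤ n := by
  classical
  refine Finset.sup_le fun m hm => ?_
  rw [mem_support_iff, coeff_pderiv] at hm
  have h1 : m + Finsupp.single b 1 ∈ F.support := by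
    rw [mem_support_iff]
    exact left_ne_zero_of_mul hm
  have h2 := le_totalDegree h1
  rw [Finsupp.sum_add_index' (fun _ => rfl) (fun _ _ _ => rfl),
    Finsupp.sum_single_index rfl] at h2
  omega

/-- Jacobian criterion -/
lemma algInd_of_jac {τ : Type*} [Fintype τ] [DecidableEq τ] (θ : τ → MvPolynomial τ ℂ)
    (h : (Matrix.of fun a b => pderiv a (θ b)).det ≠ 0) (n : ℕ) :
    ∀ F : MvPolynomial τ ℂ, F.totalDegree ≤ n → aeval θ F = 0 → F = 0 := by
  induction n with
  | zero =>
    intro F hF h0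
    have h1 : F.totalDegree = 0 := by omega
    rw [totalDegree_eq_zero_iff_eq_C] at h1
    rw [h1] at h0 ⊢
    simp only [aeval_C, algebraMap_eq, C_eq_zero] at h0
    rw [h0, C_0]
  | succ n ih =>
    intro F hF h0
    have hz : (Matrix.of fun a b => pderiv a (θ b)).mulVec (fun b => aeval θ (pderiv b F)) = 0 := by
      funext a
      have := pderiv_aeval θ a F
      rw [h0, map_zero] at this
      simp only [Matrix.mulVec, dotProduct, Matrix.of_apply, Pi.zero_apply]
      rw [this]
      exact Finset.sum_congr rfl fun b _ => mul_comm _ _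
    have hz' := Matrix.eq_zero_of_mulVec_eq_zero h hz
    have hp : ∀ b, pderiv b F = 0 := fun b =>
      ih _ (totalDegree_pderiv_le F b n hF) (congrFun hz' b)
    rw [eq_C_of_pderiv F hp] at h0 ⊢
    simp only [aeval_C, algebraMap_eq, C_eq_zero] at h0
    rw [h0, C_0]

/-- fibres of a generically integral extension are nonempty where the leading factor `y` does not
vanish -/
theorem map_ne_top {R S : Type*} [CommRing R] [CommRing S] [Algebra R S] [FaithfulSMul R S]
    (y : R) (hpow : ∀ s : S, ∃ k : ℕ, IsIntegral R ((algebraMap R S y) ^ k * s))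
    (P : Ideal R) [hP : P.IsMaximal] (hy : y ∉ P) {τ : Type*} [Fintype τ] (r : τ → R)
    (hr : ∀ b, r b ∈ P) :
    Ideal.span (Set.range fun b => algebraMap R S (r b)) ≠ ⊤ := by
  classical
  intro htop
  have h1 : (1 : S) ∈ Ideal.span (Set.range fun b => algebraMap R S (r b)) := by
    rw [htop]; exact Submodule.mem_top
  rw [Ideal.mem_span_range_iff_exists_fun] at h1
  obtain ⟨c, hc⟩ := h1
  choose k hk using fun b => hpow (c b)
  obtain ⟨Q, hQ, hQc⟩ := Ideal.exists_ideal_over_maximal_of_isIntegral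
    (S := integralClosure R S) P (by
      have : Function.Injective (algebraMap R (integralClosure R S)) := fun u v huv =>
        FaithfulSMul.algebraMap_injective R S (congrArg (Subtype.val) huv)
      rw [(RingHom.injective_iff_ker_eq_bot _).1 this]
      exact bot_le)
  let K := ∑ b, k b
  have hK : ∀ b, IsIntegral R ((algebraMap R S y) ^ K * c b) := by
    intro b
    have hle : k b ≤ K := Finset.single_le_sum (fun _ _ => Nat.zero_le _) (Finset.mem_univ b)
    have : (algebraMap R S y) ^ K * c b =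
        (algebraMap R S y) ^ (K - k b) * ((algebraMap R S y) ^ (k b) * c b) := by
      rw [← mul_assoc, ← pow_add]
      congr 2
      omega
    rw [this]
    exact (isIntegral_algebraMap.pow _).mul (hk b)
  have hrQ : ∀ b, algebraMap R (integralClosure R S) (r b) ∈ Q := by
    intro b
    have := hr b
    rw [← hQc, Ideal.mem_comap] at this
    exact this
  have hsum : (algebraMap R (integralClosure R S) y) ^ K =
      ∑ b, (⟨(algebraMap R S y) ^ K * c b, hK b⟩ : integralClosure R S) *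
        algebraMap R (integralClosure R S) (r b) := by
    apply Subtype.ext
    have h2 : ((∑ b, (⟨(algebraMap R S y) ^ K * c b, hK b⟩ : integralClosure R S) *
        algebraMap R (integralClosure R S) (r b) : integralClosure R S) : S) =
        ∑ b, ((algebraMap R S y) ^ K * c b) * algebraMap R S (r b) := by
      rw [AddSubmonoidClass.coe_finsetSum]
      rfl
    rw [h2]
    have h3 : ((algebraMap R (integralClosure R S) y ^ K : integralClosure R S) : S) =
        (algebraMap R S y) ^ K := rfl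
    rw [h3]
    have h4 : ∀ b, ((algebraMap R S y) ^ K * c b) * algebraMap R S (r b) =
        (algebraMap R S y) ^ K * (c b * algebraMap R S (r b)) :=
      fun b => mul_assoc _ _ _
    simp only [h4, ← Finset.mul_sum]
    rw [hc, mul_one]
  have hQy : (algebraMap R (integralClosure R S) y) ^ K ∈ Q := by
    rw [hsum]
    exact Q.sum_mem fun b _ => Q.mul_mem_left _ (hrQ b)
  have hQy' := hQ.isPrime.mem_of_pow_mem _ hQy
  apply hy
  rw [← hQc, Ideal.mem_comap]
  exact hQy'

/-- Algebraically independent polynomials, as many as variables: the map is onto the complement of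
a hypersurface. -/
theorem dominant_of_algInd {σ τ : Type} [Fintype σ] [Fintype τ] (θ : τ → MvPolynomial σ ℂ)
    (hθ : AlgebraicIndependent ℂ θ) (hcard : Fintype.card σ ≤ Fintype.card τ) :
    ∃ G : MvPolynomial τ ℂ, G ≠ 0 ∧ ∀ w : τ → ℂ, eval w G ≠ 0 →
      ∃ x : σ → ℂ, ∀ b, eval x (θ b) = w b := by
  classical
  have hb : IsTranscendenceBasis ℂ θ := by
    refine hθ.isTranscendenceBasis_of_trdeg_le_of_finite ?_
    rw [MvPolynomial.trdeg_of_isDomain]
    simp only [Cardinal.lift_id, Cardinal.mk_fintype]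
    exact_mod_cast hcard
  have halg : Algebra.IsAlgebraic (Algebra.adjoin ℂ (Set.range θ)) (MvPolynomial σ ℂ) :=
    hb.isAlgebraic
  obtain ⟨y, hy0, hy⟩ := Algebra.IsAlgebraic.exists_integral_multiples
    (Algebra.adjoin ℂ (Set.range θ))
    (Finset.univ.image fun a : σ => (X a : MvPolynomial σ ℂ))
  let e : MvPolynomial τ ℂ ≃ₐ[ℂ] (Algebra.adjoin ℂ (Set.range θ)) := hθ.aevalEquiv
  refine ⟨e.symm y, fun h => hy0 ((map_eq_zero_iff e.symm e.symm.injective).1 h),
    fun w hw => ?_⟩
  -- the homomorphism `R → ℂ`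
  let φ : (Algebra.adjoin ℂ (Set.range θ)) →ₐ[ℂ] ℂ := (aeval w).comp e.symm.toAlgHom
  have hmem : ∀ b, θ b ∈ Algebra.adjoin ℂ (Set.range θ) :=
    fun b => Algebra.subset_adjoin (Set.mem_range_self b)
  have hφθ : ∀ b, φ ⟨θ b, hmem b⟩ = w b := by
    intro b
    have h1 : e (X b) = ⟨θ b, hmem b⟩ := by
      apply Subtype.ext
      have := hθ.algebraMap_aevalEquiv (X b)
      rw [aeval_X] at this
      exact this
    have h2 : e.symm ⟨θ b, hmem b⟩ = X b := by rw [← h1]; exact e.symm_apply_apply _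
    change aeval w (e.symm ⟨θ b, hmem b⟩) = w b
    rw [h2, aeval_X]
  have hφy : φ y ≠ 0 := by
    change aeval w (e.symm y) ≠ 0
    rw [aeval_eq_eval]
    exact hw
  have hφs : Function.Surjective φ :=
    fun c => ⟨algebraMap ℂ (Algebra.adjoin ℂ (Set.range θ)) c, by simp⟩
  have hmax : (RingHom.ker φ).IsMaximal := RingHom.ker_isMaximal_of_surjective φ hφs
  have hpow : ∀ s : MvPolynomial σ ℂ, ∃ k : ℕ, IsIntegral (Algebra.adjoin ℂ (Set.range θ))
      ((algebraMap (Algebra.adjoin ℂ (Set.range θ)) (MvPolynomial σ ℂ) y) ^ k * s) := by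
    intro s
    induction s using MvPolynomial.induction_on with
    | C c =>
      refine ⟨0, ?_⟩
      have : (algebraMap (Algebra.adjoin ℂ (Set.range θ)) (MvPolynomial σ ℂ) y) ^ 0 * C c =
          algebraMap (Algebra.adjoin ℂ (Set.range θ)) (MvPolynomial σ ℂ)
            (algebraMap ℂ (Algebra.adjoin ℂ (Set.range θ)) c) := by
        rw [pow_zero, one_mul]; rfl
      rw [this]
      exact isIntegral_algebraMap
    | add p q hp hq =>
      obtain ⟨k, hk⟩ := hp
      obtain ⟨l, hl⟩ := hq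
      refine ⟨k + l, ?_⟩
      generalize hyy : algebraMap (Algebra.adjoin ℂ (Set.range θ)) (MvPolynomial σ ℂ) y = yy
        at hk hl ⊢
      have hyi : IsIntegral (Algebra.adjoin ℂ (Set.range θ)) yy := by
        rw [← hyy]; exact isIntegral_algebraMap
      have : yy ^ (k + l) * (p + q) = yy ^ l * (yy ^ k * p) + yy ^ k * (yy ^ l * q) := by ring
      rw [this]
      exact ((hyi.pow _).mul hk).add ((hyi.pow _).mul hl)
    | mul_X p a hp =>
      obtain ⟨k, hk⟩ := hp
      refine ⟨k + 1, ?_⟩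
      have h1 := hy _ (Finset.mem_image_of_mem _ (Finset.mem_univ a))
      rw [Algebra.smul_def] at h1
      generalize algebraMap (Algebra.adjoin ℂ (Set.range θ)) (MvPolynomial σ ℂ) y = yy
        at hk h1 ⊢
      have : yy ^ (k + 1) * (p * X a) = (yy ^ k * p) * (yy * X a) := by ring
      rw [this]
      exact hk.mul h1
  -- the ideal of the fibre is proper
  have hI := map_ne_top y hpow (RingHom.ker φ) (fun h => hφy h)
    (fun b : τ => (⟨θ b, hmem b⟩ : Algebra.adjoin ℂ (Set.range θ)) -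
      algebraMap ℂ (Algebra.adjoin ℂ (Set.range θ)) (w b))
    (fun b => by
      rw [RingHom.mem_ker, map_sub, hφθ]
      simp)
  obtain ⟨M, hM, hIM⟩ := Ideal.exists_le_maximal _ hI
  obtain ⟨x, hx⟩ := (isMaximal_iff_eq_vanishingIdeal_singleton).1 hM
  refine ⟨x, fun b => ?_⟩
  have h1 : θ b - C (w b) ∈ M := hIM (Ideal.subset_span ⟨b, rfl⟩)
  rw [hx, mem_vanishingIdeal_singleton_iff] at h1
  simp only [map_sub, aeval_C, Algebra.algebraMap_self, RingHom.id_apply] at h1
  have h2 := sub_eq_zero.1 h1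
  rw [aeval_eq_eval] at h2
  exact h2

/-- Dominance from surjectivity of the differential at one point: if no nontrivial combination of
the `θ b` has zero differential at `p`, the map is onto the complement of a hypersurface. -/
theorem dominant_of_jac {σ τ : Type} [Fintype σ] [Fintype τ] (θ : τ → MvPolynomial σ ℂ)
    (p : σ → ℂ)
    (hp : ∀ f : τ → ℂ, (∀ a, ∑ b, f b * eval p (pderiv a (θ b)) = 0) → f = 0) :
    ∃ G : MvPolynomial τ ℂ, G ≠ 0 ∧ ∀ w : τ → ℂ, eval w G ≠ 0 →
      ∃ x : σ → ℂ, ∀ b, eval x (θ b) = w b := by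
  classical
  -- right inverse of the Jacobian
  let J : Matrix σ τ ℂ := Matrix.of fun a b => eval p (pderiv a (θ b))
  have hinj : Function.Injective J.mulVecLin := by
    rw [← LinearMap.ker_eq_bot, LinearMap.ker_eq_bot']
    intro f hf
    apply hp
    intro a
    have := congrFun hf a
    simp only [Matrix.mulVecLin_apply, Matrix.mulVec, dotProduct, Pi.zero_apply] at this
    rw [← this]
    exact Finset.sum_congr rfl fun b _ => mul_comm _ _
  obtain ⟨B', hB'⟩ := LinearMap.exists_leftInverse_of_injective J.mulVecLin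
    (LinearMap.ker_eq_bot.2 hinj)
  let B : Matrix τ σ ℂ := LinearMap.toMatrix' B'
  have hBJ : B * J = 1 := by
    have : LinearMap.toMatrix' (B' ∘ₗ J.mulVecLin) = 1 := by rw [hB']; exact LinearMap.toMatrix'_id
    rw [LinearMap.toMatrix'_comp] at this
    have h2 : LinearMap.toMatrix' J.mulVecLin = J := LinearMap.toMatrix'_toLin' J
    rw [h2] at this
    exact this
  -- the slice `y ↦ p + Bᵀ y`
  let ℓ : σ → MvPolynomial τ ℂ := fun a => C (p a) + ∑ b, C (B b a) * X b
  let θ' : τ → MvPolynomial τ ℂ := fun b => aeval ℓ (θ b)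
  have hℓ0 : ∀ a, eval (0 : τ → ℂ) (ℓ a) = p a := by
    intro a
    simp [ℓ]
  have hℓd : ∀ a c, pderiv c (ℓ a) = C (B c a) := by
    intro a c
    simp only [ℓ, map_add, pderiv_C, map_sum, zero_add]
    rw [Finset.sum_eq_single c]
    · rw [pderiv_C_mul, pderiv_X_self, mul_one]
    · intro b _ hb
      rw [pderiv_C_mul, pderiv_X_of_ne hb, mul_zero]
    · intro h
      exact absurd (Finset.mem_univ c) h
  have hcomp : ∀ (q : MvPolynomial σ ℂ) (y : τ → ℂ), eval y (aeval ℓ q) =
      eval (fun a => eval y (ℓ a)) q := by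
    intro q y
    rw [← aeval_eq_eval, ← aeval_eq_eval]
    change (aeval y).comp (aeval ℓ) q = _
    congr 1
    ext a
    simp [aeval_eq_eval]
  have hjac : (Matrix.of fun a b => pderiv a (θ' b)).det ≠ 0 := by
    intro h0
    have h1 : (((Matrix.of fun a b => pderiv a (θ' b)) : Matrix τ τ (MvPolynomial τ ℂ)).map
        (eval (0 : τ → ℂ))) = B * J := by
      ext c b
      rw [Matrix.map_apply, Matrix.of_apply, Matrix.mul_apply, pderiv_aeval, map_sum]
      refine Finset.sum_congr rfl fun a _ => ?_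
      rw [map_mul, hcomp, hℓd, eval_C, mul_comm]
      congr 2
      simp only [hℓ0]
      rfl
    have h2 := congrArg (eval (0 : τ → ℂ)) h0
    rw [RingHom.map_det, map_zero] at h2
    change (((Matrix.of fun a b => pderiv a (θ' b)) : Matrix τ τ (MvPolynomial τ ℂ)).map
        (eval (0 : τ → ℂ))).det = 0 at h2
    rw [h1, hBJ, Matrix.det_one] at h2
    exact one_ne_zero h2
  have hind : AlgebraicIndependent ℂ θ' := by
    rw [algebraicIndependent_iff]
    intro F hF
    exact algInd_of_jac θ' hjac _ F le_rfl hF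
  obtain ⟨G, hG, hw⟩ := dominant_of_algInd θ' hind le_rfl
  refine ⟨G, hG, fun w hwG => ?_⟩
  obtain ⟨y, hy⟩ := hw w hwG
  refine ⟨fun a => eval y (ℓ a), fun b => ?_⟩
  rw [← hy b, hcomp]

/-- Fewer parameters than coordinates: the image lies in a hypersurface. -/
theorem image_in_hypersurface {σ τ : Type} [Fintype σ] [Fintype τ] (θ : τ → MvPolynomial σ ℂ)
    (hcard : Fintype.card σ < Fintype.card τ) :
    ∃ F : MvPolynomial τ ℂ, F ≠ 0 ∧ ∀ x : σ → ℂ, eval (fun b => eval x (θ b)) F = 0 := by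
  classical
  by_contra hcon
  push Not at hcon
  have hind : AlgebraicIndependent ℂ θ := by
    rw [algebraicIndependent_iff]
    intro F hF
    by_contra hF0
    obtain ⟨x, hx⟩ := hcon F hF0
    apply hx
    have h1 : eval x (aeval θ F) = 0 := by rw [hF, map_zero]
    rw [← h1, ← aeval_eq_eval, ← aeval_eq_eval]
    change _ = (aeval x).comp (aeval θ) F
    congr 1
    ext b
    simp [aeval_eq_eval]
  have h1 := hind.cardinalMk_le_trdeg
  rw [MvPolynomial.trdeg_of_isDomain] at h1
  simp only [Cardinal.lift_id, Cardinal.mk_fintype] at h1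
  have h2 : Fintype.card τ ≤ Fintype.card σ := by exact_mod_cast h1
  omega

end Pool.Agent.Waring


end

section

/-!
# Generic properties of points of `ℂ^σ`, polynomials of degree `< m` in two variables (helper88)
-/

set_option autoImplicit false

open MvPolynomial Finset

namespace Pool.Agent.Waring

/-! ## polynomial functions -/

/-- polynomial functions -/
def PolyFn {σ : Type} (φ : (σ → ℂ) → ℂ) : Prop := ∃ g : MvPolynomial σ ℂ, ∀ z, φ z = eval z g

lemma PolyFn.const {σ : Type} (c : ℂ) : PolyFn (fun _ : σ → ℂ => c) := ⟨C c, fun z => by simp⟩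

lemma PolyFn.coord {σ : Type} (a : σ) : PolyFn (fun z : σ → ℂ => z a) := ⟨X a, fun z => by simp⟩

lemma PolyFn.add {σ : Type} {φ ψ : (σ → ℂ) → ℂ} (h1 : PolyFn φ) (h2 : PolyFn ψ) :
    PolyFn (fun z => φ z + ψ z) := by
  obtain ⟨g, hg⟩ := h1
  obtain ⟨k, hk⟩ := h2
  exact ⟨g + k, fun z => by show φ z + ψ z = _; rw [hg, hk, map_add]⟩

lemma PolyFn.mul {σ : Type} {φ ψ : (σ → ℂ) → ℂ} (h1 : PolyFn φ) (h2 : PolyFn ψ) :
    PolyFn (fun z => φ z * ψ z) := by
  obtain ⟨g, hg⟩ := h1
  obtain ⟨k, hk⟩ := h2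
  exact ⟨g * k, fun z => by show φ z * ψ z = _; rw [hg, hk, map_mul]⟩

lemma PolyFn.pow {σ : Type} {φ : (σ → ℂ) → ℂ} (h1 : PolyFn φ) (n : ℕ) :
    PolyFn (fun z => φ z ^ n) := by
  obtain ⟨g, hg⟩ := h1
  exact ⟨g ^ n, fun z => by show φ z ^ n = _; rw [hg, map_pow]⟩

lemma PolyFn.sum {σ κ : Type} (s : Finset κ) {φ : κ → (σ → ℂ) → ℂ} (h : ∀ k ∈ s, PolyFn (φ k)) :
    PolyFn (fun z => ∑ k ∈ s, φ k z) := by
  classical
  induction s using Finset.induction_on with
  | empty => simpa using PolyFn.const (σ := σ) 0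
  | insert a s ha ih =>
    have := (h a (mem_insert_self a s)).add (ih fun k hk => h k (mem_insert_of_mem hk))
    simpa only [Finset.sum_insert ha] using this

/-! ## generic properties -/

/-- `Q` holds outside a hypersurface -/
def Gen {σ : Type} (Q : (σ → ℂ) → Prop) : Prop :=
  ∃ g : MvPolynomial σ ℂ, g ≠ 0 ∧ ∀ z, eval z g ≠ 0 → Q z

lemma exists_eval_ne {σ : Type} {g : MvPolynomial σ ℂ} (hg : g ≠ 0) : ∃ z : σ → ℂ, eval z g ≠ 0 := by
  by_contra hcon
  push Not at hcon
  exact hg (MvPolynomial.funext fun z => by rw [hcon z, map_zero])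

lemma Gen.exists {σ : Type} {Q : (σ → ℂ) → Prop} (h : Gen Q) : ∃ z, Q z := by
  obtain ⟨g, hg, hQ⟩ := h
  obtain ⟨z, hz⟩ := exists_eval_ne hg
  exact ⟨z, hQ z hz⟩

lemma Gen.mono {σ : Type} {Q Q' : (σ → ℂ) → Prop} (h : Gen Q) (hh : ∀ z, Q z → Q' z) : Gen Q' := by
  obtain ⟨g, hg, hQ⟩ := h
  exact ⟨g, hg, fun z hz => hh z (hQ z hz)⟩

lemma Gen.of_forall {σ : Type} {Q : (σ → ℂ) → Prop} (h : ∀ z, Q z) : Gen Q :=
  ⟨1, one_ne_zero, fun z _ => h z⟩

lemma Gen.and {σ : Type} {Q Q' : (σ → ℂ) → Prop} (h : Gen Q) (h' : Gen Q') :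
    Gen (fun z => Q z ∧ Q' z) := by
  obtain ⟨g, hg, hQ⟩ := h
  obtain ⟨g', hg', hQ'⟩ := h'
  refine ⟨g * g', mul_ne_zero hg hg', fun z hz => ?_⟩
  rw [map_mul] at hz
  exact ⟨hQ z (left_ne_zero_of_mul hz), hQ' z (right_ne_zero_of_mul hz)⟩

lemma Gen.all {σ κ : Type} [Fintype κ] {Q : κ → (σ → ℂ) → Prop} (h : ∀ k, Gen (Q k)) :
    Gen (fun z => ∀ k, Q k z) := by
  classical
  choose g hg hQ using h
  refine ⟨∏ k, g k, Finset.prod_ne_zero_iff.2 fun k _ => hg k, fun z hz k => ?_⟩
  rw [map_prod, Finset.prod_ne_zero_iff] at hz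
  exact hQ k z (hz k (mem_univ k))

lemma Gen.coord_ne {σ : Type} (a : σ) : Gen (fun z : σ → ℂ => z a ≠ 0) :=
  ⟨X a, X_ne_zero a, fun z hz => by simpa using hz⟩

/-- a linear system depending polynomially on `z` which is injective at one point is injective
generically -/
theorem Gen.of_point {σ : Type} {E : Type} [AddCommGroup E] [Module ℂ E] (U : Submodule ℂ E)
    [FiniteDimensional ℂ U] {R : Type} [Fintype R] (lam : (σ → ℂ) → R → E →ₗ[ℂ] ℂ)
    (hpoly : ∀ r u, PolyFn fun z => lam z r u) (z0 : σ → ℂ)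
    (h0 : ∀ u ∈ U, (∀ r, lam z0 r u = 0) → u = 0) :
    Gen (fun z => ∀ u ∈ U, (∀ r, lam z r u = 0) → u = 0) := by
  classical
  let b := Module.finBasis ℂ U
  let n := Module.finrank ℂ U
  choose g hg using fun (r : R) (k : Fin n) => hpoly r (b k : E)
  -- the matrix of the system
  let A : (σ → ℂ) → Matrix R (Fin n) ℂ := fun z => Matrix.of fun r k => lam z r (b k : E)
  have hA : ∀ z (v : Fin n → ℂ), (A z).mulVec v =
      fun r => lam z r ((∑ k, v k • b k : U) : E) := by
    intro z v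
    funext r
    simp only [A, Matrix.mulVec, dotProduct, Matrix.of_apply, Submodule.coe_sum,
      Submodule.coe_smul, map_sum, map_smul, smul_eq_mul]
    exact Finset.sum_congr rfl fun k _ => mul_comm _ _
  have hinj : Function.Injective (A z0).mulVecLin := by
    rw [← LinearMap.ker_eq_bot, LinearMap.ker_eq_bot']
    intro v hv
    rw [Matrix.mulVecLin_apply, hA] at hv
    have h1 := h0 _ (∑ k, v k • b k : U).2 (fun r => congrFun hv r)
    have h2 : (∑ k, v k • b k : U) = 0 := Subtype.ext h1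
    have h3 := Fintype.linearIndependent_iff.1 b.linearIndependent v h2
    exact funext h3
  obtain ⟨B', hB'⟩ := LinearMap.exists_leftInverse_of_injective (A z0).mulVecLin
    (LinearMap.ker_eq_bot.2 hinj)
  let B : Matrix (Fin n) R ℂ := LinearMap.toMatrix' B'
  have hBA : B * A z0 = 1 := by
    have h1 : LinearMap.toMatrix' (B' ∘ₗ (A z0).mulVecLin) = 1 := by
      rw [hB']; exact LinearMap.toMatrix'_id
    rw [LinearMap.toMatrix'_comp] at h1
    have h2 : LinearMap.toMatrix' (A z0).mulVecLin = A z0 := LinearMap.toMatrix'_toLin' _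
    rw [h2] at h1
    exact h1
  let P : Matrix (Fin n) (Fin n) (MvPolynomial σ ℂ) :=
    Matrix.of fun k l => ∑ r, C (B k r) * g r l
  have hP : ∀ z, eval z P.det = (B * A z).det := by
    intro z
    rw [RingHom.map_det]
    congr 1
    ext k l
    simp only [P, RingHom.mapMatrix_apply, Matrix.map_apply, Matrix.of_apply, map_sum, map_mul,
      eval_C, Matrix.mul_apply, A]
    exact Finset.sum_congr rfl fun r _ => by rw [← hg r l z]
  refine ⟨P.det, fun h => ?_, fun z hz u hu hr => ?_⟩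
  · have := hP z0
    rw [h, map_zero, hBA, Matrix.det_one] at this
    exact zero_ne_one this
  · rw [hP] at hz
    let v : Fin n → ℂ := b.repr ⟨u, hu⟩
    have hv : (∑ k, v k • b k : U) = ⟨u, hu⟩ := b.sum_repr ⟨u, hu⟩
    have h1 : (A z).mulVec v = 0 := by
      rw [hA, hv]
      funext r
      exact hr r
    have h2 : (B * A z).mulVec v = 0 := by
      rw [← Matrix.mulVec_mulVec, h1, Matrix.mulVec_zero]
    have h3 := Matrix.eq_zero_of_mulVec_eq_zero hz h2
    have h4 : (⟨u, hu⟩ : U) = 0 := by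
      rw [← hv, h3]
      simp
    exact congrArg Subtype.val h4

/-! ## general position on a line -/

theorem kill {E X : Type} [AddCommGroup E] [Module ℂ E] [Infinite X] (lam : X → E →ₗ[ℂ] ℂ)
    (r : ℕ) : ∀ (Y : Submodule ℂ E) [FiniteDimensional ℂ Y], Module.finrank ℂ Y ≤ r →
    (∀ y ∈ Y, y ≠ 0 → ∀ F : Finset X, ∃ x ∉ F, lam x y ≠ 0) → ∀ F : Finset X,
    ∃ U : Finset X, U.card = r ∧ Disjoint U F ∧ ∀ y ∈ Y, (∀ x ∈ U, lam x y = 0) → y = 0 := by
  classical
  induction r with
  | zero =>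
    intro Y _ hY _ F
    have h0 : Y = ⊥ := Submodule.finrank_eq_zero.1 (by omega)
    refine ⟨∅, rfl, by simp, fun y hy _ => ?_⟩
    rw [h0] at hy
    exact (Submodule.mem_bot ℂ).1 hy
  | succ r ih =>
    intro Y _ hY hH F
    by_cases hbot : Y = ⊥
    · obtain ⟨U, hU, hc⟩ :=
        (Finset.finite_toSet F).infinite_compl.exists_subset_card_eq (r + 1)
      refine ⟨U, hc, ?_, fun y hy _ => ?_⟩
      · rw [Finset.disjoint_left]
        intro x hx hxF
        exact hU hx hxF
      · rw [hbot] at hy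
        exact (Submodule.mem_bot ℂ).1 hy
    · obtain ⟨y, hy, hy0⟩ := Submodule.exists_mem_ne_zero_of_ne_bot hbot
      obtain ⟨x, hxF, hx⟩ := hH y hy hy0 F
      have hlt : Y ⊓ LinearMap.ker (lam x) < Y := by
        refine lt_of_le_of_ne inf_le_left fun h => hx ?_
        have : y ∈ Y ⊓ LinearMap.ker (lam x) := by rw [h]; exact hy
        exact this.2
      have hfin : FiniteDimensional ℂ (Y ⊓ LinearMap.ker (lam x) : Submodule ℂ E) :=
        Submodule.finiteDimensional_inf_left _ _
      have hlt2 := Submodule.finrank_lt_finrank_of_lt hlt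
      obtain ⟨U, hU, hd, hk⟩ := ih (Y ⊓ LinearMap.ker (lam x)) (by omega)
        (fun y hy hy0 F => hH y hy.1 hy0 F) (insert x F)
      rw [Finset.disjoint_insert_right] at hd
      refine ⟨insert x U, ?_, ?_, fun y hy hz => ?_⟩
      · rw [Finset.card_insert_of_notMem hd.1, hU]
      · rw [Finset.disjoint_insert_left]
        exact ⟨hxF, hd.2⟩
      · exact hk y ⟨hy, hz x (Finset.mem_insert_self x U)⟩
          fun x' hx' => hz x' (Finset.mem_insert_of_mem hx')

end Pool.Agent.Waring


end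

section

/-!
# Simultaneous Waring decompositions: reduction to dual kernels (helper88)
-/

set_option autoImplicit false

open MvPolynomial Finset

namespace Pool.Agent.Waring

/-- exponents of the monomials of degree `d` in `n + 1` variables -/
abbrev Mon (n d : ℕ) : Type :=
  {α : Fin (n + 1) →₀ ℕ // α ∈ Finset.finsuppAntidiag (Finset.univ : Finset (Fin (n + 1))) d}

lemma card_Mon (n d : ℕ) : Fintype.card (Mon n d) = (n + d).choose n := by
  rw [Fintype.card_coe, Finset.card_finsuppAntidiag_nat_eq_choose, Finset.card_univ,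
    Fintype.card_fin]
  have : n + 1 + d - 1 = n + d := by omega
  rw [this, Nat.choose_symm_add]

lemma mem_Mon {n d : ℕ} {α : Fin (n + 1) →₀ ℕ} :
    α ∈ Finset.finsuppAntidiag (Finset.univ : Finset (Fin (n + 1))) d ↔ ∑ k, α k = d := by
  simp [Finset.mem_finsuppAntidiag]

lemma coeff_eq_zero_of_hom {n d : ℕ} {f : MvPolynomial (Fin (n + 1)) ℂ} (hf : f.IsHomogeneous d)
    {α : Fin (n + 1) →₀ ℕ} (hα : ∑ k, α k ≠ d) : coeff α f = 0 := by
  by_contra hc
  apply hα
  have h1 := hf hc
  have h2 : α.degree = d := by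
    rw [Finsupp.degree_eq_weight_one]
    exact h1
  rwa [Finsupp.degree_eq_sum] at h2

/-- coefficients of a power of a linear form -/
lemma coeff_lin_pow {n : ℕ} (l : Fin (n + 1) → ℂ) (d : ℕ) (α : Fin (n + 1) →₀ ℕ) :
    coeff α ((∑ k, C (l k) * X k : MvPolynomial (Fin (n + 1)) ℂ) ^ d) =
      if ∑ k, α k = d then (Nat.multinomial univ α : ℂ) * ∏ k, l k ^ α k else 0 := by
  classical
  rw [Finset.sum_pow_eq_sum_piAntidiag, coeff_sum]
  have h1 : ∀ k : Fin (n + 1) → ℕ,
      coeff α ((Nat.multinomial univ k : MvPolynomial (Fin (n + 1)) ℂ) *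
        ∏ i, (C (l i) * X i : MvPolynomial (Fin (n + 1)) ℂ) ^ k i) =
      if k = α then (Nat.multinomial univ α : ℂ) * ∏ k, l k ^ α k else 0 := by
    intro k
    have e1 : (∏ i, (C (l i) * X i : MvPolynomial (Fin (n + 1)) ℂ) ^ k i) =
        C (∏ i, l i ^ k i) * monomial (Finsupp.equivFunOnFinite.symm k) 1 := by
      rw [monomial_eq, Finsupp.prod_fintype _ _ (by simp)]
      simp only [mul_pow, Finset.prod_mul_distrib, map_prod, map_pow, C_1, one_mul,
        Finsupp.equivFunOnFinite_symm_apply_apply]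
    have e2 : (Nat.multinomial univ k : MvPolynomial (Fin (n + 1)) ℂ) =
        C ((Nat.multinomial univ k : ℕ) : ℂ) := by simp
    rw [e1, e2, coeff_C_mul, coeff_C_mul, coeff_monomial]
    by_cases hk : k = α
    · have hk' : Finsupp.equivFunOnFinite.symm k = α := by
        rw [hk]; exact Finsupp.ext fun _ => rfl
      rw [if_pos hk', if_pos hk, hk, mul_one]
    · have hk' : ¬ Finsupp.equivFunOnFinite.symm k = α := by
        intro h
        apply hk
        rw [← h]
        rfl
      rw [if_neg hk', if_neg hk, mul_zero, mul_zero]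
  rw [Finset.sum_congr rfl fun k _ => h1 k, Finset.sum_ite_eq']
  congr 1
  rw [Finset.mem_piAntidiag]
  simp

/-- the decomposition in terms of the coefficients -/
lemma rep_iff {n d h s : ℕ} (f : Fin s → MvPolynomial (Fin (n + 1)) ℂ)
    (hf : ∀ j, (f j).IsHomogeneous d) (l : Fin h → Fin (n + 1) → ℂ) (c : Fin s → Fin h → ℂ) :
    (∀ j, f j = ∑ i, C (c j i) * (∑ k, C (l i k) * X k) ^ d) ↔
      ∀ j (α : Mon n d), coeff α.1 (f j) =
        ∑ i, c j i * ((Nat.multinomial univ α.1 : ℂ) * ∏ k, l i k ^ α.1 k) := by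
  have h1 : ∀ j (α : Fin (n + 1) →₀ ℕ),
      coeff α (∑ i, C (c j i) * (∑ k, C (l i k) * X k : MvPolynomial (Fin (n + 1)) ℂ) ^ d) =
      if ∑ k, α k = d then ∑ i, c j i * ((Nat.multinomial univ α : ℂ) * ∏ k, l i k ^ α k)
      else 0 := by
    intro j α
    rw [coeff_sum]
    simp only [coeff_C_mul, coeff_lin_pow]
    split_ifs <;> simp
  constructor
  · intro H j α
    rw [H j, h1, if_pos (mem_Mon.1 α.2)]
  · intro H j
    ext α
    rw [h1]
    split_ifs with hα
    · exact H j ⟨α, mem_Mon.2 hα⟩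
    · exact coeff_eq_zero_of_hom (hf j) hα

/-- polynomials with given coefficients -/
noncomputable def ofCoeff {n d s : ℕ} (w : Fin s × Mon n d → ℂ) (j : Fin s) :
    MvPolynomial (Fin (n + 1)) ℂ := ∑ α : Mon n d, monomial α.1 (w (j, α))

lemma ofCoeff_hom {n d s : ℕ} (w : Fin s × Mon n d → ℂ) (j : Fin s) :
    (ofCoeff w j).IsHomogeneous d := by
  refine IsHomogeneous.sum _ _ _ fun α _ => isHomogeneous_monomial _ ?_
  rw [Finsupp.degree_eq_sum]
  exact mem_Mon.1 α.2

lemma coeff_ofCoeff {n d s : ℕ} (w : Fin s × Mon n d → ℂ) (j : Fin s) (α : Mon n d) :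
    coeff α.1 (ofCoeff w j) = w (j, α) := by
  classical
  rw [ofCoeff, coeff_sum]
  simp only [coeff_monomial]
  rw [Finset.sum_eq_single α]
  · simp
  · intro β _ hβ
    rw [if_neg]
    intro h
    exact hβ (Subtype.ext h)
  · intro h
    exact absurd (mem_univ _) h

lemma coeff_ofCoeff_of_ne {n d s : ℕ} (w : Fin s × Mon n d → ℂ) (j : Fin s)
    {α : Fin (n + 1) →₀ ℕ} (h : ∑ k, α k ≠ d) : coeff α (ofCoeff w j) = 0 :=
  coeff_eq_zero_of_hom (ofCoeff_hom w j) h

/-- `W` from a statement about coefficient vectors -/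
theorem W_of_dense {d h n s : ℕ}
    (H : ∃ G : MvPolynomial (Fin s × Mon n d) ℂ, G ≠ 0 ∧ ∀ w, eval w G ≠ 0 →
      ∃ (l : Fin h → Fin (n + 1) → ℂ) (c : Fin s → Fin h → ℂ), ∀ j (α : Mon n d),
        w (j, α) = ∑ i, c j i * ∏ k, l i k ^ α.1 k) : W d h n s := by
  classical
  obtain ⟨G, hG, H⟩ := H
  let μ : Mon n d → ℂ := fun α => (Nat.multinomial univ α.1 : ℂ)
  have hμ : ∀ α, μ α ≠ 0 := fun α => by
    have := Nat.multinomial_pos (univ : Finset (Fin (n + 1))) α.1
    exact Nat.cast_ne_zero.2 this.ne'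
  let G' : MvPolynomial (Fin s × (Fin (n + 1) →₀ ℕ)) ℂ :=
    aeval (fun b : Fin s × Mon n d => (C (μ b.2)⁻¹ * X (b.1, b.2.1) :
      MvPolynomial (Fin s × (Fin (n + 1) →₀ ℕ)) ℂ)) G
  have hG' : ∀ v : Fin s × (Fin (n + 1) →₀ ℕ) → ℂ,
      eval v G' = eval (fun b : Fin s × Mon n d => (μ b.2)⁻¹ * v (b.1, b.2.1)) G := by
    intro v
    simp only [G', aeval_def, ← coe_eval₂Hom]
    rw [← RingHom.comp_apply]
    have : ((eval v).comp (eval₂Hom (algebraMap ℂ (MvPolynomial (Fin s × (Fin (n + 1) →₀ ℕ)) ℂ))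
        (fun b : Fin s × Mon n d => (C (μ b.2)⁻¹ * X (b.1, b.2.1) :
      MvPolynomial (Fin s × (Fin (n + 1) →₀ ℕ)) ℂ)))) =
        eval (fun b : Fin s × Mon n d => (μ b.2)⁻¹ * v (b.1, b.2.1)) := by
      apply MvPolynomial.ringHom_ext
      · intro r
        simp [algebraMap_eq]
      · intro b
        simp
    rw [this]
  refine ⟨G', ?_, ?_⟩
  · obtain ⟨w, hw⟩ := exists_eval_ne hG
    refine ⟨ofCoeff fun b : Fin s × Mon n d => μ b.2 * w b, ofCoeff_hom _, ?_⟩
    rw [hG']
    have : (fun b : Fin s × Mon n d => (μ b.2)⁻¹ *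
        coeffs (ofCoeff fun b : Fin s × Mon n d => μ b.2 * w b) (b.1, b.2.1)) = w := by
      funext b
      rw [coeffs, coeff_ofCoeff, ← mul_assoc, inv_mul_cancel₀ (hμ _), one_mul]
    rw [this]
    exact hw
  · intro f hf hfG
    rw [hG'] at hfG
    obtain ⟨l, c, hlc⟩ := H _ hfG
    refine ⟨l, c, (rep_iff f hf l c).2 fun j α => ?_⟩
    have h1 := hlc j α
    have h2 : coeff α.1 (f j) = μ α * ((μ α)⁻¹ * coeffs f (j, α.1)) := by
      rw [← mul_assoc, mul_inv_cancel₀ (hμ _), one_mul]
      rfl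
    rw [h2, h1, Finset.mul_sum]
    exact Finset.sum_congr rfl fun i _ => by simp only [μ]; ring

/-- the decomposable tuples with property `W` avoid no hypersurface -/
theorem W.exists_rep {d h n s : ℕ} (H : W d h n s) (F : MvPolynomial (Fin s × Mon n d) ℂ)
    (hF : F ≠ 0) : ∃ w, eval w F ≠ 0 ∧ ∃ (l : Fin h → Fin (n + 1) → ℂ) (c : Fin s → Fin h → ℂ),
      ∀ j (α : Mon n d), w (j, α) =
        ∑ i, c j i * ((Nat.multinomial univ α.1 : ℂ) * ∏ k, l i k ^ α.1 k) := by
  classical
  obtain ⟨G, ⟨f0, hf0, hG0⟩, H⟩ := H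
  -- restriction of `G` to the homogeneous tuples
  let G1 : MvPolynomial (Fin s × Mon n d) ℂ :=
    aeval (fun b : Fin s × (Fin (n + 1) →₀ ℕ) => if hb : ∑ k, b.2 k = d then
      (X (b.1, ⟨b.2, mem_Mon.2 hb⟩) : MvPolynomial (Fin s × Mon n d) ℂ) else 0) G
  have hG1 : ∀ w : Fin s × Mon n d → ℂ, eval w G1 = eval (coeffs (ofCoeff w)) G := by
    intro w
    simp only [G1, aeval_def, ← coe_eval₂Hom]
    rw [← RingHom.comp_apply]
    congr 1
    apply MvPolynomial.ringHom_ext
    · intro r
      simp [algebraMap_eq]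
    · intro b
      simp only [RingHom.comp_apply, coe_eval₂Hom, eval₂_X, eval_X, coeffs]
      split_ifs with hb
      · rw [eval_X, ← coeff_ofCoeff w b.1 ⟨b.2, mem_Mon.2 hb⟩]
      · rw [map_zero, coeff_ofCoeff_of_ne w b.1 hb]
  have hf0' : ofCoeff (fun b : Fin s × Mon n d => coeff b.2.1 (f0 b.1)) = f0 := by
    funext j
    ext α
    by_cases hα : ∑ k, α k = d
    · rw [coeff_ofCoeff _ j ⟨α, mem_Mon.2 hα⟩]
    · rw [coeff_ofCoeff_of_ne _ j hα, coeff_eq_zero_of_hom (hf0 j) hα]
  have hG1ne : G1 ≠ 0 := by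
    intro h
    apply hG0
    rw [← hf0', ← hG1, h, map_zero]
  obtain ⟨w, hw⟩ := exists_eval_ne (mul_ne_zero hG1ne hF)
  rw [map_mul] at hw
  have hw1 := left_ne_zero_of_mul hw
  have hw2 := right_ne_zero_of_mul hw
  rw [hG1] at hw1
  obtain ⟨l, c, hlc⟩ := H _ (ofCoeff_hom w) hw1
  refine ⟨w, hw2, l, c, fun j α => ?_⟩
  have := (rep_iff _ (ofCoeff_hom w) l c).1 hlc j α
  rwa [coeff_ofCoeff] at this

theorem W.mono {d h h' n s : ℕ} (H : W d h n s) (hh : h ≤ h') : W d h' n s := by
  obtain ⟨e, rfl⟩ := Nat.exists_eq_add_of_le hh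
  obtain ⟨G, h0, H⟩ := H
  refine ⟨G, h0, fun f hf hG => ?_⟩
  obtain ⟨l, c, hlc⟩ := H f hf hG
  refine ⟨Fin.append l (fun _ => 0), fun j => Fin.append (c j) (fun _ => 0), fun j => ?_⟩
  rw [hlc j, Fin.sum_univ_add]
  simp

/-! ### the dual kernel -/

section Dual

variable {n d h s : ℕ}

/-- the parametrisation, in affine coordinates -/
noncomputable def th (n d h s : ℕ) (b : Fin s × Mon n d) :
    MvPolynomial ((Fin h × Fin s) ⊕ (Fin h × Fin n)) ℂ :=
  ∑ i : Fin h, X (Sum.inl (i, b.1)) *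
    aeval (fun k : Fin n => (X (Sum.inr (i, k)) :
      MvPolynomial ((Fin h × Fin s) ⊕ (Fin h × Fin n)) ℂ)) (monomial b.2.1.tail (1 : ℂ))

lemma eval_monomial_tail (z : Fin n → ℂ) (α : Fin (n + 1) →₀ ℕ) :
    eval z (monomial α.tail (1 : ℂ)) = ∏ k, (Fin.cons 1 z : Fin (n + 1) → ℂ) k ^ α k := by
  rw [eval_monomial, Finsupp.prod_fintype _ _ (by simp), Fin.prod_univ_succ]
  simp [Finsupp.tail_apply]

lemma eval_aeval_X {ι σ : Type} (x : σ → ℂ) (φ : ι → σ) (g : MvPolynomial ι ℂ) :
    eval x (aeval (fun k : ι => (X (φ k) : MvPolynomial σ ℂ)) g) = eval (fun k => x (φ k)) g := by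
  rw [aeval_def, ← coe_eval₂Hom, ← RingHom.comp_apply]
  congr 1
  apply MvPolynomial.ringHom_ext
  · intro r
    simp [algebraMap_eq]
  · intro b
    simp

lemma eval_th (x : (Fin h × Fin s) ⊕ (Fin h × Fin n) → ℂ) (b : Fin s × Mon n d) :
    eval x (th n d h s b) = ∑ i, x (Sum.inl (i, b.1)) *
      ∏ k, (Fin.cons 1 (fun k => x (Sum.inr (i, k))) : Fin (n + 1) → ℂ) k ^ b.2.1 k := by
  rw [th, map_sum]
  refine Finset.sum_congr rfl fun i _ => ?_
  rw [map_mul, eval_X, eval_aeval_X, eval_monomial_tail]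

lemma pderiv_th_inl (i0 : Fin h) (j0 : Fin s) (b : Fin s × Mon n d) :
    pderiv (Sum.inl (i0, j0)) (th n d h s b) = if b.1 = j0 then
      aeval (fun k : Fin n => (X (Sum.inr (i0, k)) :
      MvPolynomial ((Fin h × Fin s) ⊕ (Fin h × Fin n)) ℂ)) (monomial b.2.1.tail (1 : ℂ)) else 0 := by
  classical
  rw [th, map_sum]
  have h1 : ∀ i : Fin h, pderiv (Sum.inl (i0, j0)) (X (Sum.inl (i, b.1)) *
      aeval (fun k : Fin n => (X (Sum.inr (i, k)) :
      MvPolynomial ((Fin h × Fin s) ⊕ (Fin h × Fin n)) ℂ)) (monomial b.2.1.tail (1 : ℂ))) =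
      if i = i0 then (if b.1 = j0 then aeval (fun k : Fin n => (X (Sum.inr (i0, k)) :
      MvPolynomial ((Fin h × Fin s) ⊕ (Fin h × Fin n)) ℂ)) (monomial b.2.1.tail (1 : ℂ)) else 0)
      else 0 := by
    intro i
    have e1 : pderiv (Sum.inl (i0, j0)) (aeval (fun k : Fin n => (X (Sum.inr (i, k)) :
        MvPolynomial ((Fin h × Fin s) ⊕ (Fin h × Fin n)) ℂ)) (monomial b.2.1.tail (1 : ℂ))) = 0 := by
      rw [pderiv_aeval]
      refine Finset.sum_eq_zero fun k _ => ?_
      rw [pderiv_X_of_ne (by simp), mul_zero]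
    rw [pderiv_mul, e1, mul_zero, add_zero, pderiv_X]
    by_cases hi : i = i0
    · subst hi
      rw [if_pos rfl]
      by_cases hj : b.1 = j0
      · subst hj
        rw [if_pos rfl, Pi.single_eq_same, one_mul]
      · rw [if_neg hj, Pi.single_eq_of_ne (by simpa using hj), zero_mul]
    · rw [if_neg hi, Pi.single_eq_of_ne (by simp [hi]), zero_mul]
  rw [Finset.sum_congr rfl fun i _ => h1 i, Finset.sum_ite_eq', if_pos (mem_univ _)]

lemma pderiv_th_inr (i0 : Fin h) (k0 : Fin n) (b : Fin s × Mon n d) :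
    pderiv (Sum.inr (i0, k0)) (th n d h s b) = X (Sum.inl (i0, b.1)) *
      aeval (fun k : Fin n => (X (Sum.inr (i0, k)) :
      MvPolynomial ((Fin h × Fin s) ⊕ (Fin h × Fin n)) ℂ))
        (pderiv k0 (monomial b.2.1.tail (1 : ℂ))) := by
  classical
  rw [th, map_sum]
  rw [Finset.sum_eq_single i0]
  · rw [pderiv_mul, pderiv_X_of_ne (by simp), zero_mul, zero_add, pderiv_aeval]
    congr 1
    rw [Finset.sum_eq_single k0]
    · rw [pderiv_X_self, mul_one]
    · intro k _ hk
      rw [pderiv_X_of_ne (by simpa using hk), mul_zero]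
    · intro hh
      exact absurd (mem_univ _) hh
  · intro i _ hi
    rw [pderiv_mul, pderiv_X_of_ne (by simp), zero_mul, zero_add, pderiv_aeval]
    rw [Finset.sum_eq_zero, mul_zero]
    intro k _
    rw [pderiv_X_of_ne (by simp [hi]), mul_zero]
  · intro hh
    exact absurd (mem_univ _) hh

/-- Property `W` holds if some `h` full points have zero dual kernel. -/
theorem W_of_dual (z : Fin h → Fin n → ℂ) (a : Fin h → Fin s → ℂ)
    (H : ∀ g : Fin s → MvPolynomial (Fin n) ℂ, (∀ j, (g j).totalDegree ≤ d) →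
      (∀ i j, eval (z i) (g j) = 0) →
      (∀ i k, ∑ j, a i j * eval (z i) (pderiv k (g j)) = 0) → ∀ j, g j = 0) : W d h n s := by
  classical
  apply W_of_dense
  let p : (Fin h × Fin s) ⊕ (Fin h × Fin n) → ℂ :=
    Sum.elim (fun x => a x.1 x.2) (fun x => z x.1 x.2)
  obtain ⟨G, hG, hw⟩ := dominant_of_jac (th n d h s) p (by
    intro F hF
    let g : Fin s → MvPolynomial (Fin n) ℂ := fun j =>
      ∑ α : Mon n d, C (F (j, α)) * monomial α.1.tail (1 : ℂ)
    have hg := H g (fun j => ?_) (fun i j => ?_) (fun i k => ?_)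
    · funext b
      obtain ⟨j, α⟩ := b
      have h1 := congrArg (coeff α.1.tail) (hg j)
      simp only [g, coeff_sum, coeff_C_mul, coeff_monomial, coeff_zero] at h1
      rw [Finset.sum_eq_single α] at h1
      · simpa using h1
      · intro β _ hβ
        rw [if_neg, mul_zero]
        intro hh
        apply hβ
        apply Subtype.ext
        have hb := mem_Mon.1 β.2
        have ha := mem_Mon.1 α.2
        rw [Fin.sum_univ_succ] at ha hb
        have h2 : ∀ k : Fin n, β.1 k.succ = α.1 k.succ := fun k => by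
          have := DFunLike.congr_fun hh k
          simpa [Finsupp.tail_apply] using this
        have h3 : β.1 0 = α.1 0 := by
          rw [Finset.sum_congr rfl fun k _ => h2 k] at hb
          omega
        ext k
        refine Fin.cases h3 (fun k => h2 k) k
      · intro hh
        exact absurd (mem_univ _) hh
    · refine totalDegree_finsetSum_le fun α _ => ?_
      refine (totalDegree_mul _ _).trans ?_
      rw [totalDegree_C, zero_add]
      refine (totalDegree_monomial_le _ _).trans ?_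
      have ha := mem_Mon.1 α.2
      rw [Fin.sum_univ_succ] at ha
      rw [Finsupp.sum_fintype _ _ (by simp)]
      simp only [Finsupp.tail_apply, id]
      omega
    · have h1 := hF (Sum.inl (i, j))
      rw [Fintype.sum_prod_type] at h1
      rw [Finset.sum_eq_single j] at h1
      · simp only [g, map_sum, map_mul, eval_C]
        rw [← h1]
        refine Finset.sum_congr rfl fun α _ => ?_
        rw [pderiv_th_inl, if_pos rfl, eval_aeval_X]
        rfl
      · intro j' _ hj'
        refine Finset.sum_eq_zero fun α _ => ?_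
        rw [pderiv_th_inl, if_neg hj', map_zero, mul_zero]
      · intro hh
        exact absurd (mem_univ _) hh
    · have h1 := hF (Sum.inr (i, k))
      rw [Fintype.sum_prod_type] at h1
      rw [← h1]
      refine Finset.sum_congr rfl fun j _ => ?_
      simp only [g, map_sum, Finset.mul_sum]
      refine Finset.sum_congr rfl fun α _ => ?_
      rw [pderiv_th_inr, pderiv_C_mul, map_mul, map_mul, eval_C, eval_X, eval_aeval_X]
      have e1 : p (Sum.inl (i, (j, α).1)) = a i j := rfl
      have e2 : (fun k => p (Sum.inr (i, k))) = z i := rfl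
      rw [e1, e2]
      ring)
  refine ⟨G, hG, fun w hwG => ?_⟩
  obtain ⟨x, hx⟩ := hw w hwG
  refine ⟨fun i => Fin.cons 1 fun k => x (Sum.inr (i, k)), fun j i => x (Sum.inl (i, j)),
    fun j α => ?_⟩
  rw [← hx (j, α), eval_th]

end Dual

end Pool.Agent.Waring


end

section

/-!
# Simultaneous Waring decompositions: necessary conditions (helper88)
-/

set_option autoImplicit false

open MvPolynomial Finset

namespace Pool.Agent.Waring

/-- normal form of a linear form up to scaling -/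
lemma normal_form {n : ℕ} (d : ℕ) (hd : 1 ≤ d) (l : Fin (n + 1) → ℂ) :
    ∃ (t : Fin (n + 1)) (y : Fin n → ℂ) (μ : ℂ), ∀ α : Fin (n + 1) →₀ ℕ, ∑ k, α k = d →
      ∏ k, l k ^ α k = μ * ∏ k, (t.insertNth (1 : ℂ) y : Fin (n + 1) → ℂ) k ^ α k := by
  by_cases h : ∃ t, l t ≠ 0
  · obtain ⟨t, ht⟩ := h
    refine ⟨t, fun k => l (t.succAbove k) / l t, l t ^ d, fun α hα => ?_⟩
    rw [← hα, ← Finset.prod_pow_eq_pow_sum, ← Finset.prod_mul_distrib]
    refine Finset.prod_congr rfl fun k _ => ?_
    rw [← mul_pow]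
    congr 1
    refine Fin.succAboveCases t ?_ (fun k => ?_) k
    · simp
    · simp only [Fin.insertNth_apply_succAbove]
      field_simp
  · push Not at h
    refine ⟨0, 0, 0, fun α hα => ?_⟩
    obtain ⟨k, hk⟩ : ∃ k, α k ≠ 0 := by
      by_contra hc
      push Not at hc
      simp [hc] at hα
      omega
    rw [zero_mul]
    refine Finset.prod_eq_zero (mem_univ k) ?_
    rw [h k, zero_pow hk]

/-- the parameter count -/
theorem W.bound1 {d h n s : ℕ} (hd : 1 ≤ d) (H : W d h n s) :
    s * (n + d).choose n ≤ h * (n + s) := by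
  classical
  by_contra hlt
  push Not at hlt
  let σ : Type := (Fin h × Fin s) ⊕ (Fin h × Fin n)
  let τ : Type := Fin s × Mon n d
  have hcard : Fintype.card σ < Fintype.card τ := by
    simp only [σ, τ, Fintype.card_sum, Fintype.card_prod, Fintype.card_fin, card_Mon]
    calc h * s + h * n = h * (n + s) := by ring
      _ < _ := hlt
  let θ : (Fin h → Fin (n + 1)) → τ → MvPolynomial σ ℂ := fun t b =>
    C (Nat.multinomial univ b.2.1 : ℂ) * ∑ i : Fin h, X (Sum.inl (i, b.1)) *
      ∏ k, ((t i).insertNth (1 : MvPolynomial σ ℂ) (fun k => X (Sum.inr (i, k))) :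
        Fin (n + 1) → MvPolynomial σ ℂ) k ^ b.2.1 k
  choose F hF hF0 using fun t => image_in_hypersurface (θ t) hcard
  obtain ⟨w, hw, l, c, hlc⟩ := H.exists_rep (∏ t, F t) (Finset.prod_ne_zero_iff.2 fun t _ => hF t)
  choose t y μ hn using fun i => normal_form d hd (l i)
  rw [map_prod, Finset.prod_ne_zero_iff] at hw
  apply hw t (mem_univ t)
  let x : σ → ℂ := Sum.elim (fun p => c p.2 p.1 * μ p.1) (fun p => y p.1 p.2)
  have hx : (fun b => eval x (θ t b)) = w := by
    funext b
    obtain ⟨j, α⟩ := b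
    rw [hlc j α]
    simp only [θ, map_mul, map_sum, map_prod, map_pow, eval_C, eval_X, Finset.mul_sum]
    refine Finset.sum_congr rfl fun i _ => ?_
    rw [hn i α.1 (mem_Mon.1 α.2)]
    have e1 : x (Sum.inl (i, j)) = c j i * μ i := rfl
    have e2 : ∀ k, eval x ((((t i).insertNth (1 : MvPolynomial σ ℂ) (fun k => X (Sum.inr (i, k))) :
        Fin (n + 1) → MvPolynomial σ ℂ)) k) = ((t i).insertNth (1 : ℂ) (y i) :
        Fin (n + 1) → ℂ) k := by
      intro k
      refine Fin.succAboveCases (t i) ?_ (fun k => ?_) k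
      · simp
      · simp [x]
    rw [e1, Finset.prod_congr rfl fun k _ => by rw [e2 k]]
    ring
  have := hF0 t x
  rwa [hx] at this

/-- the span condition -/
theorem W.bound2 {d h n s : ℕ} (H : W d h n s) : min s ((n + d).choose n) ≤ h := by
  classical
  by_contra hlt
  push Not at hlt
  rw [lt_min_iff] at hlt
  obtain ⟨h1, h2⟩ := hlt
  rw [← card_Mon] at h2
  let e1 : Fin (h + 1) ↪ Fin s := Fin.castLEEmb h1
  obtain ⟨e2⟩ : Nonempty (Fin (h + 1) ↪ Mon n d) :=
    Function.Embedding.nonempty_of_card_le (by rw [Fintype.card_fin]; exact h2)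
  let M : Matrix (Fin (h + 1)) (Fin (h + 1)) (MvPolynomial (Fin s × Mon n d) ℂ) :=
    Matrix.of fun a b => X (e1 a, e2 b)
  have hM : ∀ w, eval w M.det = (Matrix.of fun a b => w (e1 a, e2 b) :
      Matrix (Fin (h + 1)) (Fin (h + 1)) ℂ).det := by
    intro w
    rw [RingHom.map_det]
    congr 1
    ext a b
    simp [M]
  have hM0 : M.det ≠ 0 := by
    intro h0
    have h3 := hM fun p => if ∃ a, p = (e1 a, e2 a) then 1 else 0
    rw [h0, map_zero] at h3
    have h4 : (Matrix.of fun a b => if ∃ a', (e1 a, e2 b) = (e1 a', e2 a') then (1 : ℂ) else 0 :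
      Matrix (Fin (h + 1)) (Fin (h + 1)) ℂ) = 1 := by
      ext a b
      rw [Matrix.of_apply, Matrix.one_apply]
      congr 1
      refine propext ⟨?_, ?_⟩
      · rintro ⟨a', ha'⟩
        rw [Prod.mk.injEq] at ha'
        rw [e1.injective ha'.1, e2.injective ha'.2]
      · rintro rfl
        exact ⟨a, rfl⟩
    rw [h4, Matrix.det_one] at h3
    exact zero_ne_one h3
  obtain ⟨w, hw, l, c, hlc⟩ := H.exists_rep M.det hM0
  rw [hM] at hw
  let A : Matrix (Fin (h + 1)) (Fin h) ℂ := Matrix.of fun a i => c (e1 a) i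
  let B : Matrix (Fin h) (Fin (h + 1)) ℂ := Matrix.of fun i b =>
    (Nat.multinomial univ (e2 b).1 : ℂ) * ∏ k, l i k ^ (e2 b).1 k
  have hAB : (Matrix.of fun a b => w (e1 a, e2 b) : Matrix (Fin (h + 1)) (Fin (h + 1)) ℂ) =
      A * B := by
    ext a b
    rw [Matrix.of_apply, hlc, Matrix.mul_apply]
    rfl
  rw [hAB] at hw
  have h5 : IsUnit (A * B) := (Matrix.isUnit_iff_isUnit_det _).2 (isUnit_iff_ne_zero.2 hw)
  have h6 := Matrix.rank_of_isUnit _ h5
  have h7 := (Matrix.rank_mul_le_left A B).trans (Matrix.rank_le_card_width A)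
  rw [h6, Fintype.card_fin, Fintype.card_fin] at h7
  omega

end Pool.Agent.Waring


end

section

/-!
# Polynomials of degree `< m` in two variables as arrays of coefficients (helper88)
-/

set_option autoImplicit false

open Finset

namespace Pool.Agent.Waring

/-- arrays of coefficients: `c i j` is the coefficient of `x^i y^j` -/
abbrev Arr : Type := ℕ → ℕ → ℂ

/-- the functional `∑_{i+j<m} c i j φ(i) ψ(j)` -/
noncomputable def fn (m : ℕ) (φ ψ : ℕ → ℂ) : Arr →ₗ[ℂ] ℂ where
  toFun c := ∑ j ∈ range m, ∑ i ∈ range (m - j), c i j * (φ i * ψ j)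
  map_add' c c' := by
    simp only [Pi.add_apply, add_mul, Finset.sum_add_distrib]
  map_smul' a c := by
    simp only [Pi.smul_apply, smul_eq_mul, Finset.mul_sum, RingHom.id_apply, mul_assoc]

lemma fn_apply (m : ℕ) (φ ψ : ℕ → ℂ) (c : Arr) :
    fn m φ ψ c = ∑ j ∈ range m, ∑ i ∈ range (m - j), c i j * (φ i * ψ j) := rfl

/-- value -/
noncomputable def ev (m : ℕ) (x y : ℂ) : Arr →ₗ[ℂ] ℂ := fn m (fun i => x ^ i) (fun j => y ^ j)

/-- derivative with respect to `x` -/
noncomputable def dx (m : ℕ) (x y : ℂ) : Arr →ₗ[ℂ] ℂ :=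
  fn m (fun i => i * x ^ (i - 1)) (fun j => y ^ j)

/-- derivative with respect to `y` -/
noncomputable def dy (m : ℕ) (x y : ℂ) : Arr →ₗ[ℂ] ℂ :=
  fn m (fun i => x ^ i) (fun j => j * y ^ (j - 1))

/-- the quotient by `y` -/
def sh (c : Arr) : Arr := fun i j => c i (j + 1)

/-- the restriction to `y = 0` -/
noncomputable def tr (m : ℕ) (c : Arr) : Polynomial ℂ :=
  ∑ i ∈ range m, Polynomial.C (c i 0) * Polynomial.X ^ i

lemma fn_rec (m : ℕ) (φ ψ : ℕ → ℂ) (c : Arr) :
    fn m φ ψ c = (∑ i ∈ range m, c i 0 * φ i) * ψ 0 + fn (m - 1) φ (fun j => ψ (j + 1)) (sh c) := by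
  cases m with
  | zero => simp [fn_apply]
  | succ m =>
    rw [fn_apply, Finset.sum_range_succ', fn_apply, Finset.sum_mul]
    simp only [Nat.add_sub_cancel, Nat.sub_zero, sh]
    rw [add_comm]
    congr 1
    · exact Finset.sum_congr rfl fun i _ => by ring
    · refine Finset.sum_congr rfl fun j _ => ?_
      rw [Nat.add_sub_add_right]

lemma eval_tr (m : ℕ) (c : Arr) (x : ℂ) : (tr m c).eval x = ∑ i ∈ range m, c i 0 * x ^ i := by
  simp [tr, Polynomial.eval_finsetSum]

lemma eval_tr' (m : ℕ) (c : Arr) (x : ℂ) :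
    (tr m c).derivative.eval x = ∑ i ∈ range m, c i 0 * (i * x ^ (i - 1)) := by
  simp only [tr, Polynomial.derivative_sum, Polynomial.derivative_C_mul_X_pow,
    Polynomial.eval_finsetSum, Polynomial.eval_mul, Polynomial.eval_C, Polynomial.eval_pow,
    Polynomial.eval_X]
  exact Finset.sum_congr rfl fun i _ => by ring

lemma fn_mul (m : ℕ) (φ ψ : ℕ → ℂ) (a : ℂ) (c : Arr) :
    fn m φ (fun j => a * ψ j) c = a * fn m φ ψ c := by
  simp only [fn_apply, Finset.mul_sum]
  exact Finset.sum_congr rfl fun j _ => Finset.sum_congr rfl fun i _ => by ring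

lemma fn_add (m : ℕ) (φ ψ ψ' : ℕ → ℂ) (c : Arr) :
    fn m φ (fun j => ψ j + ψ' j) c = fn m φ ψ c + fn m φ ψ' c := by
  simp only [fn_apply, mul_add, Finset.sum_add_distrib]

lemma ev_rec (m : ℕ) (x y : ℂ) (c : Arr) :
    ev m x y c = (tr m c).eval x + y * ev (m - 1) x y (sh c) := by
  rw [ev, fn_rec, eval_tr, ev, ← fn_mul]
  simp only [pow_zero, mul_one, pow_succ']

lemma dx_rec (m : ℕ) (x y : ℂ) (c : Arr) :
    dx m x y c = (tr m c).derivative.eval x + y * dx (m - 1) x y (sh c) := by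
  rw [dx, fn_rec, eval_tr', dx, ← fn_mul]
  simp only [pow_zero, mul_one, pow_succ']

lemma dy_rec (m : ℕ) (x y : ℂ) (c : Arr) :
    dy m x y c = ev (m - 1) x y (sh c) + y * dy (m - 1) x y (sh c) := by
  rw [dy, fn_rec, ev, dy, ← fn_mul, ← fn_add]
  have h1 : (∑ i ∈ range m, c i 0 * x ^ i) * (((0 : ℕ) : ℂ) * y ^ (0 - 1)) = 0 := by simp
  rw [h1, zero_add]
  congr 2
  funext j
  cases j with
  | zero => simp
  | succ j =>
    simp only [Nat.add_sub_cancel]
    push_cast
    ring

lemma ev_zero_right (m : ℕ) (x : ℂ) (c : Arr) : ev m x 0 c = (tr m c).eval x := by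
  rw [ev_rec]; simp

lemma dx_zero_right (m : ℕ) (x : ℂ) (c : Arr) : dx m x 0 c = (tr m c).derivative.eval x := by
  rw [dx_rec]; simp

lemma dy_zero_right (m : ℕ) (x : ℂ) (c : Arr) : dy m x 0 c = ev (m - 1) x 0 (sh c) := by
  rw [dy_rec]; simp

/-- polynomials of degree `< m` -/
def V (m : ℕ) : Submodule ℂ Arr where
  carrier := {c | ∀ i j, m ≤ i + j → c i j = 0}
  zero_mem' := fun _ _ _ => rfl
  add_mem' := fun {a b} ha hb i j h => by
    rw [Pi.add_apply, Pi.add_apply, ha i j h, hb i j h, add_zero]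
  smul_mem' := fun a c hc i j h => by
    rw [Pi.smul_apply, Pi.smul_apply, hc i j h, smul_zero]

lemma mem_V {m : ℕ} {c : Arr} : c ∈ V m ↔ ∀ i j, m ≤ i + j → c i j = 0 := Iff.rfl

lemma sh_mem {m : ℕ} {c : Arr} (hc : c ∈ V m) : sh c ∈ V (m - 1) := by
  intro i j h
  exact hc i (j + 1) (by omega)

lemma V_zero {c : Arr} (hc : c ∈ V 0) : c = 0 := by
  funext i j
  exact hc i j (Nat.zero_le _)

lemma eq_zero_of {m : ℕ} {c : Arr} (hc : c ∈ V m) (h1 : tr m c = 0) (h2 : sh c = 0) : c = 0 := by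
  funext i j
  cases j with
  | zero =>
    by_cases hi : i < m
    · have h3 := congrArg (fun p => Polynomial.coeff p i) h1
      simp only [tr, Polynomial.finsetSum_coeff, Polynomial.coeff_C_mul_X_pow,
        Polynomial.coeff_zero] at h3
      rw [Finset.sum_eq_single i] at h3
      · simpa using h3
      · intro b _ hb
        rw [if_neg (Ne.symm hb)]
      · intro h
        exact absurd (mem_range.2 hi) h
    · exact hc i 0 (by omega)
  | succ j => exact congrFun (congrFun h2 i) j

lemma tr_degree (m : ℕ) (c : Arr) (h : tr m c ≠ 0) : (tr m c).natDegree < m := by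
  have hm : 0 < m := by
    rcases Nat.eq_zero_or_pos m with rfl | hm
    · exact absurd (by simp [tr]) h
    · exact hm
  have h1 : (tr m c).natDegree ≤ m - 1 := by
    rw [tr]
    refine Polynomial.natDegree_sum_le_of_forall_le _ _ fun i hi => ?_
    refine (Polynomial.natDegree_C_mul_X_pow_le _ _).trans ?_
    have := mem_range.1 hi
    omega
  omega

instance instFin (m : ℕ) : FiniteDimensional ℂ (V m) := by
  let f : V m →ₗ[ℂ] (Fin m → Fin m → ℂ) :=
    { toFun := fun c i j => (c : Arr) i j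
      map_add' := fun _ _ => rfl
      map_smul' := fun _ _ => rfl }
  refine FiniteDimensional.of_injective f ?_
  rw [← LinearMap.ker_eq_bot, LinearMap.ker_eq_bot']
  intro c hc
  apply Subtype.ext
  funext i j
  by_cases h : i < m ∧ j < m
  · exact congrFun (congrFun hc ⟨i, h.1⟩) ⟨j, h.2⟩
  · exact c.2 i j (by omega)

/-- a polynomial of degree `< 2|A| + |B|` with double zeros on `A` and zeros on `B` vanishes -/
lemma tr_eq_zero {m : ℕ} {c : Arr} {A B : Finset ℂ} (hAB : Disjoint A B)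
    (hcard : m ≤ 2 * A.card + B.card)
    (hA : ∀ x ∈ A, (tr m c).eval x = 0 ∧ (tr m c).derivative.eval x = 0)
    (hB : ∀ x ∈ B, (tr m c).eval x = 0) : tr m c = 0 := by
  classical
  by_contra h
  have h1 := tr_degree m c h
  have h2 := Polynomial.card_roots' (tr m c)
  have h3 : 2 * A.card + B.card ≤ Multiset.card (tr m c).roots := by
    have h4 : (A.val + A.val + B.val) ≤ (tr m c).roots := by
      rw [Multiset.le_iff_count]
      intro x
      rw [Multiset.count_add, Multiset.count_add, Polynomial.count_roots]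
      by_cases hx : x ∈ A
      · have hxB : x ∉ B := Finset.disjoint_left.1 hAB hx
        have e1 : Multiset.count x A.val = 1 := Multiset.count_eq_one_of_mem A.nodup hx
        have e2 : Multiset.count x B.val = 0 := Multiset.count_eq_zero.2 hxB
        have e3 : 1 < (tr m c).rootMultiplicity x :=
          (Polynomial.one_lt_rootMultiplicity_iff_isRoot h).2 ⟨(hA x hx).1, (hA x hx).2⟩
        omega
      · have e1 : Multiset.count x A.val = 0 := Multiset.count_eq_zero.2 hx
        by_cases hxB : x ∈ B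
        · have e2 : Multiset.count x B.val = 1 := Multiset.count_eq_one_of_mem B.nodup hxB
          have e3 : 0 < (tr m c).rootMultiplicity x :=
            (Polynomial.rootMultiplicity_pos h).2 (hB x hxB)
          omega
        · have e2 : Multiset.count x B.val = 0 := Multiset.count_eq_zero.2 hxB
          omega
    have h5 := Multiset.card_le_card h4
    simp only [Multiset.card_add, Finset.card_val] at h5
    omega
  omega

end Pool.Agent.Waring


end

section

/-!
# Double and simple points in general position in the plane (helper88)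
-/

set_option autoImplicit false

open Finset

namespace Pool.Agent.Waring

/-! ### linear algebra -/

/-- a space on which finitely many functionals are jointly injective -/
lemma finrank_le_of_inj {E κ : Type} [AddCommGroup E] [Module ℂ E] [Fintype κ]
    (Y : Submodule ℂ E) [FiniteDimensional ℂ Y] (φ : κ → E →ₗ[ℂ] ℂ)
    (h : ∀ y ∈ Y, (∀ k, φ k y = 0) → y = 0) : Module.finrank ℂ Y ≤ Fintype.card κ := by
  let f : Y →ₗ[ℂ] (κ → ℂ) := LinearMap.pi fun k => (φ k).comp Y.subtype
  have hf : Function.Injective f := by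
    rw [← LinearMap.ker_eq_bot, LinearMap.ker_eq_bot']
    intro y hy
    apply Subtype.ext
    exact h y y.2 fun k => congrFun hy k
  have := LinearMap.finrank_le_finrank_of_injective hf
  rwa [Module.finrank_fintype_fun_eq_card] at this

/-- general points of the line `y = 0` impose independent conditions -/
lemma kill_line {m : ℕ} (Y : Submodule ℂ Arr) [FiniteDimensional ℂ Y] (r : ℕ)
    (hr : Module.finrank ℂ Y ≤ r) (h : ∀ y ∈ Y, tr m y = 0 → y = 0) (F : Finset ℂ) :
    ∃ U : Finset ℂ, U.card = r ∧ Disjoint U F ∧ ∀ y ∈ Y, (∀ x ∈ U, ev m x 0 y = 0) → y = 0 := by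
  refine kill (fun x => ev m x 0) r Y hr (fun y hy hy0 F => ?_) F
  by_contra hc
  push Not at hc
  apply hy0
  apply h y hy
  by_contra htr
  have h1 : ((tr m y).roots.toFinset : Set ℂ)ᶜ ⊆ (F : Set ℂ) := by
    intro x hx
    by_contra hxF
    have h2 := hc x hxF
    rw [ev_zero_right] at h2
    apply hx
    rw [Finset.mem_coe, Multiset.mem_toFinset, Polynomial.mem_roots htr]
    exact h2
  exact (Set.Finite.infinite_compl (Finset.finite_toSet _)) ((Finset.finite_toSet F).subset h1)

/-! ### the triangular numbers -/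

/-- the dimension of `V m` -/
def T (m : ℕ) : ℕ := (m + 1).choose 2

lemma T_zero : T 0 = 0 := rfl

lemma T_succ (m : ℕ) : T (m + 1) = T m + (m + 1) := by
  have h : (m + 1 + 1).choose (1 + 1) = (m + 1).choose 1 + (m + 1).choose (1 + 1) :=
    Nat.choose_succ_succ (m + 1) 1
  rw [Nat.choose_one_right] at h
  show (m + 1 + 1).choose (1 + 1) = (m + 1).choose (1 + 1) + (m + 1)
  omega

lemma T_pred (m : ℕ) : T m = T (m - 1) + m := by
  cases m with
  | zero => rfl
  | succ m => rw [Nat.add_sub_cancel, T_succ]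

section

variable {ι : Type} [DecidableEq ι]

/-- polynomials of degree `< m` singular at the points of `A` and vanishing at those of `B` -/
def Sg (m : ℕ) (z : ι × Fin 2 → ℂ) (A B : Finset ι) : Submodule ℂ Arr where
  carrier := {c | c ∈ V m ∧ (∀ i ∈ A, ev m (z (i, 0)) (z (i, 1)) c = 0 ∧
    dx m (z (i, 0)) (z (i, 1)) c = 0 ∧ dy m (z (i, 0)) (z (i, 1)) c = 0) ∧
    ∀ i ∈ B, ev m (z (i, 0)) (z (i, 1)) c = 0}
  zero_mem' := ⟨Submodule.zero_mem _, fun i _ => by simp, fun i _ => by simp⟩
  add_mem' := by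
    rintro c c' ⟨h1, h2, h3⟩ ⟨h1', h2', h3'⟩
    refine ⟨Submodule.add_mem _ h1 h1', fun i hi => ?_, fun i hi => ?_⟩
    · obtain ⟨a1, a2, a3⟩ := h2 i hi
      obtain ⟨b1, b2, b3⟩ := h2' i hi
      rw [map_add, map_add, map_add, a1, a2, a3, b1, b2, b3]
      simp
    · rw [map_add, h3 i hi, h3' i hi, add_zero]
  smul_mem' := by
    rintro r c ⟨h1, h2, h3⟩
    refine ⟨Submodule.smul_mem _ _ h1, fun i hi => ?_, fun i hi => ?_⟩
    · obtain ⟨a1, a2, a3⟩ := h2 i hi
      rw [map_smul, map_smul, map_smul, a1, a2, a3]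
      simp
    · rw [map_smul, h3 i hi, smul_zero]

lemma mem_Sg {m : ℕ} {z : ι × Fin 2 → ℂ} {A B : Finset ι} {c : Arr} :
    c ∈ Sg m z A B ↔ c ∈ V m ∧ (∀ i ∈ A, ev m (z (i, 0)) (z (i, 1)) c = 0 ∧
    dx m (z (i, 0)) (z (i, 1)) c = 0 ∧ dy m (z (i, 0)) (z (i, 1)) c = 0) ∧
    ∀ i ∈ B, ev m (z (i, 0)) (z (i, 1)) c = 0 := Iff.rfl

instance instFinSg (m : ℕ) (z : ι × Fin 2 → ℂ) (A B : Finset ι) :
    FiniteDimensional ℂ (Sg m z A B) :=
  Submodule.finiteDimensional_of_le (show Sg m z A B ≤ V m from fun _ hc => hc.1)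

lemma Sg_anti {m : ℕ} {z : ι × Fin 2 → ℂ} {A B A' B' : Finset ι} (hA : A' ⊆ A)
    (hB : B' ⊆ A ∪ B) {c : Arr} (hc : c ∈ Sg m z A B) : c ∈ Sg m z A' B' := by
  obtain ⟨h1, h2, h3⟩ := hc
  refine ⟨h1, fun i hi => h2 i (hA hi), fun i hi => ?_⟩
  rcases mem_union.1 (hB hi) with h | h
  · exact (h2 i h).1
  · exact h3 i h

/-- only the positions of the points matter -/
lemma Sg_congr {m : ℕ} {z z' : ι × Fin 2 → ℂ} {A B : Finset ι}
    (h : ∀ i ∈ A ∪ B, ∀ k, z (i, k) = z' (i, k)) {c : Arr} (hc : c ∈ Sg m z A B) :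
    c ∈ Sg m z' A B := by
  obtain ⟨h1, h2, h3⟩ := hc
  refine ⟨h1, fun i hi => ?_, fun i hi => ?_⟩
  · rw [← h i (mem_union_left _ hi), ← h i (mem_union_left _ hi)]
    exact h2 i hi
  · rw [← h i (mem_union_right _ hi), ← h i (mem_union_right _ hi)]
    exact h3 i hi

/-- division by the equation of the line `y = 0` -/
lemma sh_Sg {m : ℕ} {z : ι × Fin 2 → ℂ} {A B : Finset ι} (hz : ∀ i ∈ A ∪ B, z (i, 1) ≠ 0)
    {c : Arr} (hc : c ∈ Sg m z A B) (ht : tr m c = 0) : sh c ∈ Sg (m - 1) z A B := by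
  obtain ⟨h1, h2, h3⟩ := hc
  have hev : ∀ i ∈ A ∪ B, ev m (z (i, 0)) (z (i, 1)) c = 0 →
      ev (m - 1) (z (i, 0)) (z (i, 1)) (sh c) = 0 := by
    intro i hi h
    rw [ev_rec, ht, Polynomial.eval_zero, zero_add] at h
    exact (mul_eq_zero.1 h).resolve_left (hz i hi)
  refine ⟨sh_mem h1, fun i hi => ?_, fun i hi => hev i (mem_union_right _ hi) (h3 i hi)⟩
  obtain ⟨a1, a2, a3⟩ := h2 i hi
  have hi' := mem_union_left B hi
  have e1 := hev i hi' a1
  refine ⟨e1, ?_, ?_⟩
  · rw [dx_rec, ht, Polynomial.derivative_zero, Polynomial.eval_zero, zero_add] at a2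
    exact (mul_eq_zero.1 a2).resolve_left (hz i hi')
  · rw [dy_rec, e1, zero_add] at a3
    exact (mul_eq_zero.1 a3).resolve_left (hz i hi')

/-! ### polynomial dependence on the configuration -/

lemma polyFn_fn (m : ℕ) {σ : Type} {φ ψ : (σ → ℂ) → ℕ → ℂ} (hφ : ∀ i, PolyFn fun z => φ z i)
    (hψ : ∀ i, PolyFn fun z => ψ z i) (c : Arr) : PolyFn fun z => fn m (φ z) (ψ z) c := by
  simp only [fn_apply]
  exact PolyFn.sum _ fun j _ => PolyFn.sum _ fun i _ =>
    (PolyFn.const _).mul ((hφ i).mul (hψ j))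

lemma polyFn_ev (m : ℕ) (i : ι) (c : Arr) :
    PolyFn fun z : ι × Fin 2 → ℂ => ev m (z (i, 0)) (z (i, 1)) c :=
  polyFn_fn m (fun _ => (PolyFn.coord _).pow _) (fun _ => (PolyFn.coord _).pow _) c

lemma polyFn_dx (m : ℕ) (i : ι) (c : Arr) :
    PolyFn fun z : ι × Fin 2 → ℂ => dx m (z (i, 0)) (z (i, 1)) c :=
  polyFn_fn m (fun _ => (PolyFn.const _).mul ((PolyFn.coord _).pow _))
    (fun _ => (PolyFn.coord _).pow _) c

lemma polyFn_dy (m : ℕ) (i : ι) (c : Arr) :
    PolyFn fun z : ι × Fin 2 → ℂ => dy m (z (i, 0)) (z (i, 1)) c :=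
  polyFn_fn m (fun _ => (PolyFn.coord _).pow _)
    (fun _ => (PolyFn.const _).mul ((PolyFn.coord _).pow _)) c

/-- one configuration without kernel is enough -/
lemma gen_Sg {m : ℕ} {A B : Finset ι} (z0 : ι × Fin 2 → ℂ) (h : ∀ c ∈ Sg m z0 A B, c = 0) :
    Gen (fun z : ι × Fin 2 → ℂ => ∀ c ∈ Sg m z A B, c = 0) := by
  let R : Type := (A ⊕ A ⊕ A) ⊕ B
  let lam : (ι × Fin 2 → ℂ) → R → Arr →ₗ[ℂ] ℂ := fun z =>
    Sum.elim (Sum.elim (fun i : A => ev m (z (i.1, 0)) (z (i.1, 1)))
      (Sum.elim (fun i : A => dx m (z (i.1, 0)) (z (i.1, 1)))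
        (fun i : A => dy m (z (i.1, 0)) (z (i.1, 1)))))
      (fun i : B => ev m (z (i.1, 0)) (z (i.1, 1)))
  have key : ∀ z c, c ∈ V m → ((∀ r, lam z r c = 0) ↔ c ∈ Sg m z A B) := by
    intro z c hc
    constructor
    · intro hr
      refine ⟨hc, fun i hi => ⟨hr (Sum.inl (Sum.inl ⟨i, hi⟩)),
        hr (Sum.inl (Sum.inr (Sum.inl ⟨i, hi⟩))), hr (Sum.inl (Sum.inr (Sum.inr ⟨i, hi⟩)))⟩,
        fun i hi => hr (Sum.inr ⟨i, hi⟩)⟩
    · rintro ⟨_, h2, h3⟩ r
      rcases r with (i | i | i) | i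
      · exact (h2 i.1 i.2).1
      · exact (h2 i.1 i.2).2.1
      · exact (h2 i.1 i.2).2.2
      · exact h3 i.1 i.2
  refine (Gen.of_point (V m) lam ?_ z0 fun u hu hr => h u ((key z0 u hu).1 hr)).mono
    fun z hz c hc => hz c hc.1 ((key z c hc.1).2 hc)
  intro r u
  rcases r with (i | i | i) | i
  · exact polyFn_ev m i.1 u
  · exact polyFn_dx m i.1 u
  · exact polyFn_dy m i.1 u
  · exact polyFn_ev m i.1 u

lemma exists_disjoint_card (F : Finset ℂ) (k : ℕ) : ∃ U : Finset ℂ, U.card = k ∧ Disjoint F U := by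
  obtain ⟨U, hU, hk⟩ := (Set.Finite.infinite_compl (Finset.finite_toSet F)).exists_subset_card_eq k
  refine ⟨U, hk, ?_⟩
  rw [Finset.disjoint_left]
  intro x hx hxU
  exact hU hxU hx

/-- place the points of `A1` on `U` and those of `B1` on `U'` -/
lemma exists_place {A1 B1 : Finset ι} {U U' : Finset ℂ} (hAB : Disjoint A1 B1)
    (h1 : A1.card = U.card) (h2 : B1.card = U'.card) :
    ∃ f : ι → ℂ, A1.image f = U ∧ B1.image f = U' := by
  obtain ⟨e1⟩ : Nonempty (A1 ≃ U) := ⟨Finset.equivOfCardEq h1⟩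
  obtain ⟨e2⟩ : Nonempty (B1 ≃ U') := ⟨Finset.equivOfCardEq h2⟩
  refine ⟨fun i => if h : i ∈ A1 then (e1 ⟨i, h⟩ : ℂ) else if h : i ∈ B1 then (e2 ⟨i, h⟩ : ℂ)
    else 0, ?_, ?_⟩
  · ext x
    rw [mem_image]
    constructor
    · rintro ⟨i, hi, rfl⟩
      rw [dif_pos hi]
      exact (e1 ⟨i, hi⟩).2
    · intro hx
      refine ⟨(e1.symm ⟨x, hx⟩).1, (e1.symm ⟨x, hx⟩).2, ?_⟩
      rw [dif_pos (e1.symm ⟨x, hx⟩).2]
      simp
  · ext x
    rw [mem_image]
    constructor
    · rintro ⟨i, hi, rfl⟩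
      rw [dif_neg (Finset.disjoint_right.1 hAB hi), dif_pos hi]
      exact (e2 ⟨i, hi⟩).2
    · intro hx
      refine ⟨(e2.symm ⟨x, hx⟩).1, (e2.symm ⟨x, hx⟩).2, ?_⟩
      rw [dif_neg (Finset.disjoint_right.1 hAB (e2.symm ⟨x, hx⟩).2),
        dif_pos (e2.symm ⟨x, hx⟩).2]
      simp

/-- **double and simple points in general position** -/
theorem wah (m : ℕ) : ∀ A B : Finset ι, Disjoint A B → T m ≤ 3 * A.card + B.card →
    4 * A.card ≤ T m + 1 → Gen (fun z : ι × Fin 2 → ℂ => ∀ c ∈ Sg m z A B, c = 0) := by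
  induction m using Nat.strong_induction_on with
  | _ m IH =>
  intro A B hAB h1 h2
  cases m with
  | zero => exact Gen.of_forall fun z c hc => V_zero hc.1
  | succ k =>
    have hT1 := T_succ k
    have hT2 := T_pred k
    have hT0 : k = 0 → T (k - 1) = 0 := by rintro rfl; rfl
    have hT3 : k = 2 → T (k - 1) = 1 := by rintro rfl; rfl
    -- shrink `B`
    obtain ⟨B', hB', hcB'⟩ := Finset.exists_subset_card_eq
      (show T (k + 1) - 3 * A.card ≤ B.card by omega)
    have hAB' : Disjoint A B' := Finset.disjoint_of_subset_right hB' hAB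
    suffices hs : Gen (fun z : ι × Fin 2 → ℂ => ∀ c ∈ Sg (k + 1) z A B', c = 0) from
      hs.mono fun z hz c hc => hz c (Sg_anti (Finset.Subset.refl _)
        (hB'.trans Finset.subset_union_right) hc)
    obtain ⟨p, hp⟩ : ∃ p, p = min A.card ((k + 1) / 2) := ⟨_, rfl⟩
    obtain ⟨A1, hA1, hcA1⟩ := Finset.exists_subset_card_eq (show p ≤ A.card by omega)
    obtain ⟨B1, hB1, hcB1⟩ := Finset.exists_subset_card_eq
      (show k + 1 - 2 * p ≤ B'.card by omega)
    obtain ⟨A0, hA0⟩ : ∃ A0, A0 = A \ A1 := ⟨_, rfl⟩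
    obtain ⟨B0, hB0⟩ : ∃ B0, B0 = B' \ B1 := ⟨_, rfl⟩
    have hcA0 : A0.card = A.card - p := by rw [hA0, Finset.card_sdiff_of_subset hA1, hcA1]
    have hcB0 : B0.card = B'.card - (k + 1 - 2 * p) := by
      rw [hB0, Finset.card_sdiff_of_subset hB1, hcB1]
    have hsA0 : A0 ⊆ A := by rw [hA0]; exact Finset.sdiff_subset
    have hsB0 : B0 ⊆ B' := by rw [hB0]; exact Finset.sdiff_subset
    obtain ⟨A0', hA0', hcA0'⟩ := Finset.exists_subset_card_eq
      (show min A0.card ((T (k - 1) + 1) / 4) ≤ A0.card by omega)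
    have d00 : Disjoint A0 B0 := Finset.disjoint_of_subset_left hsA0
      (Finset.disjoint_of_subset_right hsB0 hAB')
    have d01 : Disjoint A0 A1 := by rw [hA0]; exact Finset.sdiff_disjoint
    have dB0A1 : Disjoint B0 A1 := (Finset.disjoint_of_subset_left hA1
      (Finset.disjoint_of_subset_right hsB0 hAB')).symm
    have dA1B1 : Disjoint A1 B1 := Finset.disjoint_of_subset_left hA1
      (Finset.disjoint_of_subset_right hB1 hAB')
    -- the three generic conditions
    have g1 := IH k (by omega) A0 (B0 ∪ A1) (Finset.disjoint_union_right.2 ⟨d00, d01⟩)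
      (by rw [Finset.card_union_of_disjoint dB0A1]; omega) (by omega)
    have g2 := IH (k - 1) (by omega) A0' (B0 ∪ (A0 \ A0'))
      (Finset.disjoint_union_right.2 ⟨Finset.disjoint_of_subset_left hA0' d00,
        Finset.disjoint_sdiff⟩)
      (by
        rw [Finset.card_union_of_disjoint (Finset.disjoint_of_subset_right Finset.sdiff_subset
          d00.symm), Finset.card_sdiff_of_subset hA0']
        omega) (by omega)
    have g3 : Gen (fun z : ι × Fin 2 → ℂ => ∀ i : (A0 ∪ B0 : Finset ι), z (i.1, 1) ≠ 0) :=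
      Gen.all fun i => Gen.coord_ne (i.1, 1)
    obtain ⟨z1, ⟨hz1, hz2⟩, hz3⟩ := ((g1.and g2).and g3).exists
    have hz3' : ∀ i ∈ A0 ∪ B0, z1 (i, 1) ≠ 0 := fun i hi => hz3 ⟨i, hi⟩
    -- the residual space
    have hfin : Module.finrank ℂ (Sg k z1 A0 B0) ≤ p := by
      have := finrank_le_of_inj (Sg k z1 A0 B0) (fun i : A1 => ev k (z1 (i.1, 0)) (z1 (i.1, 1)))
        (fun y hy hy' => hz1 y ⟨hy.1, hy.2.1, fun i hi => by
          rcases mem_union.1 hi with h | h
          · exact hy.2.2 i h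
          · exact hy' ⟨i, h⟩⟩)
      rwa [Fintype.card_coe, hcA1] at this
    have htr : ∀ y ∈ Sg k z1 A0 B0, tr k y = 0 → y = 0 := by
      intro y hy hty
      refine eq_zero_of hy.1 hty (hz2 _ (Sg_anti hA0' ?_ (sh_Sg hz3' hy hty)))
      exact Finset.union_subset Finset.subset_union_right
        (Finset.sdiff_subset.trans Finset.subset_union_left)
    obtain ⟨U, hU, -, hUk⟩ := kill_line (Sg k z1 A0 B0) p hfin htr ∅
    obtain ⟨U', hU', hUU⟩ := exists_disjoint_card U (k + 1 - 2 * p)
    obtain ⟨f, hf1, hf2⟩ := exists_place dA1B1 (hcA1.trans hU.symm) (hcB1.trans hU'.symm)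
    -- the special configuration
    let z0 : ι × Fin 2 → ℂ := fun p => if p.1 ∈ A1 ∪ B1 then (if p.2 = 0 then f p.1 else 0)
      else z1 p
    have hz00 : ∀ i ∈ A1 ∪ B1, z0 (i, 0) = f i := fun i hi => by simp only [z0, if_pos hi]; simp
    have hz01 : ∀ i ∈ A1 ∪ B1, z0 (i, 1) = 0 := fun i hi => by
      simp only [z0, if_pos hi]; simp
    have hz0' : ∀ i, i ∉ A1 ∪ B1 → ∀ k, z0 (i, k) = z1 (i, k) := fun i hi k => by
      simp only [z0, if_neg hi]
    have hoff : ∀ i ∈ A0 ∪ B0, i ∉ A1 ∪ B1 := by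
      intro i hi hi'
      rcases mem_union.1 hi with h | h <;> rcases mem_union.1 hi' with h' | h'
      · exact Finset.disjoint_left.1 d01 h h'
      · exact Finset.disjoint_left.1 hAB' (hsA0 h) (hB1 h')
      · exact Finset.disjoint_left.1 dB0A1 h h'
      · rw [hB0] at h
        exact (Finset.mem_sdiff.1 h).2 h'
    refine gen_Sg z0 fun c hc => ?_
    have ht : tr (k + 1) c = 0 := by
      refine tr_eq_zero (A := U) (B := U') hUU (by rw [hU, hU']; omega) ?_ ?_
      · intro x hx
        rw [← hf1] at hx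
        obtain ⟨i, hi, rfl⟩ := mem_image.1 hx
        have hi' : i ∈ A1 ∪ B1 := mem_union_left _ hi
        obtain ⟨a1, a2, a3⟩ := hc.2.1 i (hA1 hi)
        rw [hz00 i hi', hz01 i hi'] at a1 a2
        rw [ev_zero_right] at a1
        rw [dx_zero_right] at a2
        exact ⟨a1, a2⟩
      · intro x hx
        rw [← hf2] at hx
        obtain ⟨i, hi, rfl⟩ := mem_image.1 hx
        have hi' : i ∈ A1 ∪ B1 := mem_union_right _ hi
        have a1 := hc.2.2 i (hB1 hi)
        rw [hz00 i hi', hz01 i hi', ev_zero_right] at a1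
        exact a1
    have hsh : sh c ∈ Sg k z1 A0 B0 := by
      have e1 : c ∈ Sg (k + 1) z0 A0 B0 := Sg_anti hsA0 (hsB0.trans Finset.subset_union_right) hc
      have e2 : sh c ∈ Sg k z0 A0 B0 := sh_Sg (fun i hi => by
        rw [hz0' i (hoff i hi)]
        exact hz3' i hi) e1 ht
      exact Sg_congr (fun i hi k => hz0' i (hoff i hi) k) e2
    refine eq_zero_of hc.1 ht (hUk _ hsh fun x hx => ?_)
    rw [← hf1] at hx
    obtain ⟨i, hi, rfl⟩ := mem_image.1 hx
    have hi' : i ∈ A1 ∪ B1 := mem_union_left _ hi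
    have a3 := (hc.2.1 i (hA1 hi)).2.2
    rw [hz00 i hi', hz01 i hi', dy_zero_right] at a3
    exact a3

end

end Pool.Agent.Waring


end

section

/-!
# Two polynomials and an odd number of full points (helper88; trick of helper46)
-/

set_option autoImplicit false

open Finset

namespace Pool.Agent.Waring

section

variable {ι : Type} [DecidableEq ι]

/-- the conditions of a pair block -/
def PC (m : ℕ) (z : ι × Fin 2 → ℂ) (P1 P2 R : Finset ι) (Q : ι) (g1 g2 : Arr) : Prop :=
  g1 ∈ Sg m z P1 (insert Q (P2 ∪ R)) ∧ g2 ∈ Sg m z P2 (insert Q (P1 ∪ R)) ∧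
  dx m (z (Q, 0)) (z (Q, 1)) g1 + dx m (z (Q, 0)) (z (Q, 1)) g2 = 0 ∧
  dy m (z (Q, 0)) (z (Q, 1)) g1 + dy m (z (Q, 0)) (z (Q, 1)) g2 = 0

lemma gen_PC {m : ℕ} {P1 P2 R : Finset ι} {Q : ι} (z0 : ι × Fin 2 → ℂ)
    (h : ∀ g1 g2, PC m z0 P1 P2 R Q g1 g2 → g1 = 0 ∧ g2 = 0) :
    Gen (fun z : ι × Fin 2 → ℂ => ∀ g1 g2, PC m z P1 P2 R Q g1 g2 → g1 = 0 ∧ g2 = 0) := by
  let κ : Finset ι → Finset ι → Type := fun A B => (A ⊕ A ⊕ A) ⊕ B
  let lam : (A B : Finset ι) → (ι × Fin 2 → ℂ) → κ A B → Arr →ₗ[ℂ] ℂ := fun A B z =>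
    Sum.elim (Sum.elim (fun i : A => ev m (z (i.1, 0)) (z (i.1, 1)))
      (Sum.elim (fun i : A => dx m (z (i.1, 0)) (z (i.1, 1)))
        (fun i : A => dy m (z (i.1, 0)) (z (i.1, 1)))))
      (fun i : B => ev m (z (i.1, 0)) (z (i.1, 1)))
  have key : ∀ A B z c, c ∈ V m → ((∀ r, lam A B z r c = 0) ↔ c ∈ Sg m z A B) := by
    intro A B z c hc
    constructor
    · intro hr
      refine ⟨hc, fun i hi => ⟨hr (Sum.inl (Sum.inl ⟨i, hi⟩)),
        hr (Sum.inl (Sum.inr (Sum.inl ⟨i, hi⟩))), hr (Sum.inl (Sum.inr (Sum.inr ⟨i, hi⟩)))⟩,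
        fun i hi => hr (Sum.inr ⟨i, hi⟩)⟩
    · rintro ⟨_, h2, h3⟩ r
      rcases r with (i | i | i) | i
      · exact (h2 i.1 i.2).1
      · exact (h2 i.1 i.2).2.1
      · exact (h2 i.1 i.2).2.2
      · exact h3 i.1 i.2
  have hpoly : ∀ A B r u, PolyFn fun z => lam A B z r u := by
    intro A B r u
    rcases r with (i | i | i) | i
    · exact polyFn_ev m i.1 u
    · exact polyFn_dx m i.1 u
    · exact polyFn_dy m i.1 u
    · exact polyFn_ev m i.1 u
  let B1 := insert Q (P2 ∪ R)
  let B2 := insert Q (P1 ∪ R)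
  let L : (ι × Fin 2 → ℂ) → (κ P1 B1 ⊕ κ P2 B2) ⊕ Bool → (Arr × Arr) →ₗ[ℂ] ℂ := fun z =>
    Sum.elim (Sum.elim (fun r => (lam P1 B1 z r).comp (LinearMap.fst ℂ Arr Arr))
      (fun r => (lam P2 B2 z r).comp (LinearMap.snd ℂ Arr Arr)))
      (fun b => if b then (dx m (z (Q, 0)) (z (Q, 1))).comp (LinearMap.fst ℂ Arr Arr) +
        (dx m (z (Q, 0)) (z (Q, 1))).comp (LinearMap.snd ℂ Arr Arr) else
        (dy m (z (Q, 0)) (z (Q, 1))).comp (LinearMap.fst ℂ Arr Arr) +
        (dy m (z (Q, 0)) (z (Q, 1))).comp (LinearMap.snd ℂ Arr Arr))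
  let U : Submodule ℂ (Arr × Arr) := (V m).prod (V m)
  haveI : FiniteDimensional ℂ U := by
    have h1 : (V m).FG := Module.Finite.iff_fg.1 (instFin m)
    exact Module.Finite.iff_fg.2 (h1.prod h1)
  have keyL : ∀ z (u : Arr × Arr), u ∈ U →
      ((∀ r, L z r u = 0) ↔ PC m z P1 P2 R Q u.1 u.2) := by
    intro z u hu
    obtain ⟨hu1, hu2⟩ := hu
    constructor
    · intro hr
      refine ⟨(key P1 B1 z _ hu1).1 fun r => hr (Sum.inl (Sum.inl r)),
        (key P2 B2 z _ hu2).1 fun r => hr (Sum.inl (Sum.inr r)), ?_, ?_⟩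
      · exact hr (Sum.inr true)
      · exact hr (Sum.inr false)
    · rintro ⟨h1, h2, h3, h4⟩ r
      rcases r with (r | r) | b
      · exact (key P1 B1 z _ hu1).2 h1 r
      · exact (key P2 B2 z _ hu2).2 h2 r
      · cases b
        · exact h4
        · exact h3
  refine (Gen.of_point U L ?_ z0 fun u hu hr => ?_).mono fun z hz g1 g2 hg => ?_
  · intro r u
    rcases r with (r | r) | b
    · exact hpoly P1 B1 r u.1
    · exact hpoly P2 B2 r u.2
    · cases b
      · exact (polyFn_dy m Q u.1).add (polyFn_dy m Q u.2)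
      · exact (polyFn_dx m Q u.1).add (polyFn_dx m Q u.2)
  · obtain ⟨h1, h2⟩ := h u.1 u.2 ((keyL z0 u hu).1 hr)
    exact Prod.ext h1 h2
  · have hu : (g1, g2) ∈ U := ⟨hg.1.1, hg.2.1.1⟩
    have h1 := hz (g1, g2) hu ((keyL z (g1, g2) hu).2 hg)
    rw [Prod.mk_eq_zero] at h1
    exact h1

lemma two_T (m : ℕ) : 2 * T m = m * (m + 1) := by
  induction m with
  | zero => rfl
  | succ m ih => rw [T_succ, mul_add, ih]; ring

/-- the numerical conditions -/
lemma pair_num {k q : ℕ} (hq : 1 ≤ q) (h5 : 5 * q + 3 ≤ T (k + 1)) :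
    3 ≤ k ∧ 4 * q + k ≤ T (k + 1) ∧ 4 * q + 2 * k ≤ T (k + 1) + 4 := by
  rcases Nat.lt_or_ge k 11 with hk | hk
  · have e1 : T 1 = 1 := rfl
    have e2 : T 2 = 3 := rfl
    have e3 : T 3 = 6 := rfl
    have e4 : T 4 = 10 := rfl
    have e5 : T 5 = 15 := rfl
    have e6 : T 6 = 21 := rfl
    have e7 : T 7 = 28 := rfl
    have e8 : T 8 = 36 := rfl
    have e9 : T 9 = 45 := rfl
    have e10 : T 10 = 55 := rfl
    have e11 : T 11 = 66 := rfl
    interval_cases k <;> simp only [Nat.zero_add, Nat.reduceAdd] at h5 ⊢ <;> omega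
  · have h2 := two_T (k + 1)
    have h3 : 20 * k ≤ k * k + 3 * k + 66 := by nlinarith
    have h4 : (k + 1) * (k + 1 + 1) = k * k + 3 * k + 2 := by ring
    rw [h4] at h2
    omega

/-- **pair lemma** -/
theorem pair_block {k q : ℕ} (hq : 1 ≤ q) (h5 : 5 * q + 3 ≤ T (k + 1)) {P1 P2 R : Finset ι} {Q : ι}
    (c1 : P1.card = q) (c2 : P2.card = q) (cR : T (k + 1) ≤ R.card + (4 * q + 2))
    (d12 : Disjoint P1 P2) (d1R : Disjoint P1 R) (d2R : Disjoint P2 R)
    (Q1 : Q ∉ P1) (Q2 : Q ∉ P2) (QR : Q ∉ R) :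
    Gen (fun z : ι × Fin 2 → ℂ => ∀ g1 g2, PC (k + 1) z P1 P2 R Q g1 g2 → g1 = 0 ∧ g2 = 0) := by
  obtain ⟨n1, n2, n3⟩ := pair_num hq h5
  have hT1 := T_succ k
  have hT2 := T_pred k
  obtain ⟨p, hp⟩ : P2.Nonempty := Finset.card_pos.1 (by omega)
  obtain ⟨P, hP⟩ : P1.Nonempty := Finset.card_pos.1 (by omega)
  obtain ⟨M, hM, hcM⟩ := Finset.exists_subset_card_eq (show k - 2 ≤ R.card by omega)
  obtain ⟨R0, hR0⟩ : ∃ R0, R0 = R \ M := ⟨_, rfl⟩
  have hsR0 : R0 ⊆ R := by rw [hR0]; exact Finset.sdiff_subset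
  have hcR0 : R0.card = R.card - (k - 2) := by rw [hR0, Finset.card_sdiff_of_subset hM, hcM]
  obtain ⟨P2', hP2'⟩ : ∃ P2', P2' = P2.erase p := ⟨_, rfl⟩
  have hs2 : P2' ⊆ P2 := by rw [hP2']; exact Finset.erase_subset _ _
  have hc2 : P2'.card = q - 1 := by rw [hP2', Finset.card_erase_of_mem hp, c2]
  obtain ⟨P1', hP1'⟩ : ∃ P1', P1' = P1.erase P := ⟨_, rfl⟩
  have hs1 : P1' ⊆ P1 := by rw [hP1']; exact Finset.erase_subset _ _
  have hc1 : P1'.card = q - 1 := by rw [hP1', Finset.card_erase_of_mem hP, c1]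
  have hP1P1 : P ∉ P1' := by rw [hP1']; exact Finset.notMem_erase _ _
  have dd12 := Finset.disjoint_left.1 d12
  have dd1R := Finset.disjoint_left.1 d1R
  have dd2R := Finset.disjoint_left.1 d2R
  have hpP2' : p ∉ P2' := by rw [hP2']; exact Finset.notMem_erase _ _
  have hMR0 : ∀ i ∈ R0, i ∉ M := by
    intro i hi
    rw [hR0] at hi
    exact (Finset.mem_sdiff.1 hi).2
  -- the generic conditions
  have g1 := wah k P1 (P2' ∪ R0)
    (Finset.disjoint_left.2 fun i hi hi' => (mem_union.1 hi').elim (fun h => dd12 hi (hs2 h))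
      fun h => dd1R hi (hsR0 h))
    (by
      rw [Finset.card_union_of_disjoint (Finset.disjoint_left.2 fun i hi hi' =>
        dd2R (hs2 hi) (hsR0 hi'))]
      omega) (by omega)
  have g2 := wah k (insert P P2') (P1' ∪ R0)
    (Finset.disjoint_left.2 fun i hi hi' => by
      rcases Finset.mem_insert.1 hi with h | h <;> rcases mem_union.1 hi' with h' | h'
      · exact hP1P1 (h ▸ h')
      · exact dd1R hP (h ▸ hsR0 h')
      · exact dd12 (hs1 h') (hs2 h)
      · exact dd2R (hs2 h) (hsR0 h'))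
    (by
      rw [Finset.card_union_of_disjoint (Finset.disjoint_left.2 fun i hi hi' =>
        dd1R (hs1 hi) (hsR0 hi')), Finset.card_insert_of_notMem fun h => dd12 hP (hs2 h)]
      omega)
    (by rw [Finset.card_insert_of_notMem fun h => dd12 hP (hs2 h)]; omega)
  have g3 := wah (k - 1) P2' (P1 ∪ R0)
    (Finset.disjoint_left.2 fun i hi hi' => (mem_union.1 hi').elim (fun h => dd12 h (hs2 hi))
      fun h => dd2R (hs2 hi) (hsR0 h))
    (by
      rw [Finset.card_union_of_disjoint (Finset.disjoint_left.2 fun i hi hi' =>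
        dd1R hi (hsR0 hi'))]
      omega) (by omega)
  have g4 : Gen (fun z : ι × Fin 2 → ℂ => ∀ i : (P1 ∪ P2' ∪ R0 : Finset ι), z (i.1, 1) ≠ 0) :=
    Gen.all fun i => Gen.coord_ne (i.1, 1)
  obtain ⟨z1, ⟨⟨hz1, hz2⟩, hz3⟩, hz4⟩ := (((g1.and g2).and g3).and g4).exists
  have hz4' : ∀ i ∈ P1 ∪ P2' ∪ R0, z1 (i, 1) ≠ 0 := fun i hi => hz4 ⟨i, hi⟩
  -- the residual space of the second polynomial
  have hfin : Module.finrank ℂ (Sg k z1 P2' (P1 ∪ R0)) ≤ 2 := by
    have := finrank_le_of_inj (κ := Bool) (Sg k z1 P2' (P1 ∪ R0))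
      (fun b => if b then dx k (z1 (P, 0)) (z1 (P, 1)) else dy k (z1 (P, 0)) (z1 (P, 1)))
      (fun y hy hy' => hz2 y ⟨hy.1, fun i hi => by
        rcases Finset.mem_insert.1 hi with h | h
        · subst h
          exact ⟨hy.2.2 i (mem_union_left _ hP), hy' true, hy' false⟩
        · exact hy.2.1 i h, fun i hi => by
        rcases mem_union.1 hi with h | h
        · exact hy.2.2 i (mem_union_left _ (hs1 h))
        · exact hy.2.2 i (mem_union_right _ h)⟩)
    simpa using this
  have htr : ∀ y ∈ Sg k z1 P2' (P1 ∪ R0), tr k y = 0 → y = 0 := by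
    intro y hy hty
    refine eq_zero_of hy.1 hty (hz3 _ (sh_Sg (fun i hi => hz4' i ?_) hy hty))
    simp only [mem_union] at hi ⊢
    tauto
  obtain ⟨U, hU, -, hUk⟩ := kill_line (Sg k z1 P2' (P1 ∪ R0)) 2 hfin htr ∅
  obtain ⟨U', hU', hUU⟩ := exists_disjoint_card U (k - 2)
  obtain ⟨x1, x2, hx12, rfl⟩ := Finset.card_eq_two.1 hU
  have hpQ : p ≠ Q := fun h => Q2 (h ▸ hp)
  have dM : Disjoint ({Q, p} : Finset ι) M := by
    rw [Finset.disjoint_left]
    intro i hi hiM
    rcases Finset.mem_insert.1 hi with h | h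
    · exact QR (h ▸ hM hiM)
    · rw [Finset.mem_singleton] at h
      exact dd2R hp (h ▸ hM hiM)
  obtain ⟨f, hf1, hf2⟩ := exists_place dM (show ({Q, p} : Finset ι).card = _ by
    rw [Finset.card_pair hpQ.symm, hU]) (hcM.trans hU'.symm)
  -- the special configuration
  let S : Finset ι := {Q, p} ∪ M
  let z0 : ι × Fin 2 → ℂ := fun a => if a.1 ∈ S then (if a.2 = 0 then f a.1 else 0)
    else z1 a
  have hz00 : ∀ i ∈ S, z0 (i, 0) = f i := fun i hi => by simp only [z0, if_pos hi]; simp
  have hz01 : ∀ i ∈ S, z0 (i, 1) = 0 := fun i hi => by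
    simp only [z0, if_pos hi]; simp
  have hz0' : ∀ i, i ∉ S → ∀ k, z0 (i, k) = z1 (i, k) := fun i hi k => by
    simp only [z0, if_neg hi]
  have hQS : Q ∈ S := mem_union_left _ (Finset.mem_insert_self _ _)
  have hpS : p ∈ S := mem_union_left _ (Finset.mem_insert_of_mem (Finset.mem_singleton_self _))
  have hMS : ∀ i ∈ M, i ∈ S := fun i hi => mem_union_right _ hi
  have hoff : ∀ i ∈ P1 ∪ P2' ∪ R0, i ∉ S := by
    intro i hi hi'
    simp only [S, mem_union, Finset.mem_insert, Finset.mem_singleton] at hi hi'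
    rcases hi with (h | h) | h <;> rcases hi' with (h' | h') | h'
    · exact Q1 (h' ▸ h)
    · exact dd12 h (h' ▸ hp)
    · exact dd1R h (hM h')
    · exact Q2 (h' ▸ hs2 h)
    · exact hpP2' (h' ▸ h)
    · exact dd2R (hs2 h) (hM h')
    · exact QR (h' ▸ hsR0 h)
    · exact dd2R hp (h' ▸ hsR0 h)
    · exact hMR0 i h h'
  -- the line
  have hfQ : f Q ∈ ({x1, x2} : Finset ℂ) := hf1 ▸ Finset.mem_image_of_mem f
    (Finset.mem_insert_self _ _)
  have hfp : f p ∈ ({x1, x2} : Finset ℂ) := hf1 ▸ Finset.mem_image_of_mem f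
    (Finset.mem_insert_of_mem (Finset.mem_singleton_self _))
  have hfne : f Q ≠ f p := by
    intro h
    have h2 : ({Q, p} : Finset ι).image f = {f p} := by
      rw [Finset.image_insert, Finset.image_singleton, h, Finset.insert_eq_of_mem
        (Finset.mem_singleton_self _)]
    rw [h2] at hf1
    have := congrArg Finset.card hf1
    rw [Finset.card_singleton, hU] at this
    omega
  have hfQ' : f Q ∉ U' := Finset.disjoint_left.1 hUU hfQ
  have hfp' : f p ∉ U' := Finset.disjoint_left.1 hUU hfp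
  refine gen_PC z0 fun g1 g2 hg => ?_
  obtain ⟨hg1, hg2, hdx, hdy⟩ := hg
  rw [hz00 Q hQS, hz01 Q hQS] at hdx hdy
  rw [dx_zero_right, dx_zero_right] at hdx
  rw [dy_zero_right, dy_zero_right] at hdy
  have hev : ∀ i ∈ S, ∀ g, ev (k + 1) (z0 (i, 0)) (z0 (i, 1)) g = 0 →
      (tr (k + 1) g).eval (f i) = 0 := by
    intro i hi g h
    rwa [hz00 i hi, hz01 i hi, ev_zero_right] at h
  have hg2p := hg2.2.1 p hp
  have ht2 : tr (k + 1) g2 = 0 := by
    refine tr_eq_zero (A := {f p}) (B := insert (f Q) U') ?_ ?_ ?_ ?_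
    · rw [Finset.disjoint_singleton_left, Finset.mem_insert, not_or]
      exact ⟨hfne.symm, hfp'⟩
    · rw [Finset.card_singleton, Finset.card_insert_of_notMem hfQ', hU']
      omega
    · intro x hx
      rw [Finset.mem_singleton] at hx
      subst hx
      refine ⟨hev p hpS g2 hg2p.1, ?_⟩
      have := hg2p.2.1
      rwa [hz00 p hpS, hz01 p hpS, dx_zero_right] at this
    · intro x hx
      rcases Finset.mem_insert.1 hx with h | h
      · subst h
        exact hev Q hQS g2 (hg2.2.2 Q (Finset.mem_insert_self _ _))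
      · rw [← hf2] at h
        obtain ⟨i, hi, rfl⟩ := mem_image.1 h
        exact hev i (hMS i hi) g2 (hg2.2.2 i (Finset.mem_insert_of_mem
          (mem_union_right _ (hM hi))))
  have ht1 : tr (k + 1) g1 = 0 := by
    refine tr_eq_zero (A := {f Q}) (B := insert (f p) U') ?_ ?_ ?_ ?_
    · rw [Finset.disjoint_singleton_left, Finset.mem_insert, not_or]
      exact ⟨hfne, hfQ'⟩
    · rw [Finset.card_singleton, Finset.card_insert_of_notMem hfp', hU']
      omega
    · intro x hx
      rw [Finset.mem_singleton] at hx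
      subst hx
      refine ⟨hev Q hQS g1 (hg1.2.2 Q (Finset.mem_insert_self _ _)), ?_⟩
      rw [ht2, Polynomial.derivative_zero, Polynomial.eval_zero, add_zero] at hdx
      exact hdx
    · intro x hx
      rcases Finset.mem_insert.1 hx with h | h
      · subst h
        exact hev p hpS g1 (hg1.2.2 p (Finset.mem_insert_of_mem (mem_union_left _ hp)))
      · rw [← hf2] at h
        obtain ⟨i, hi, rfl⟩ := mem_image.1 h
        exact hev i (hMS i hi) g1 (hg1.2.2 i (Finset.mem_insert_of_mem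
          (mem_union_right _ (hM hi))))
  -- the residual polynomials
  have hs1' : sh g1 ∈ Sg k z1 P1 (P2' ∪ R0) := by
    have e1 : g1 ∈ Sg (k + 1) z0 P1 (P2' ∪ R0) := by
      refine Sg_anti (Finset.Subset.refl _) (fun i hi => ?_) hg1
      simp only [mem_union, Finset.mem_insert] at hi ⊢
      rcases hi with h | h
      · exact Or.inr (Or.inr (Or.inl (hs2 h)))
      · exact Or.inr (Or.inr (Or.inr (hsR0 h)))
    have h0 : ∀ i ∈ P1 ∪ (P2' ∪ R0), i ∈ P1 ∪ P2' ∪ R0 := by
      intro i hi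
      rwa [← Finset.union_assoc] at hi
    have e2 : sh g1 ∈ Sg k z0 P1 (P2' ∪ R0) := sh_Sg (fun i hi => by
      rw [hz0' i (hoff i (h0 i hi))]
      exact hz4' i (h0 i hi)) e1 ht1
    exact Sg_congr (fun i hi k => hz0' i (hoff i (h0 i hi)) k) e2
  have hg10 : sh g1 = 0 := hz1 _ hs1'
  have hs2' : sh g2 ∈ Sg k z1 P2' (P1 ∪ R0) := by
    have e1 : g2 ∈ Sg (k + 1) z0 P2' (P1 ∪ R0) := by
      refine Sg_anti hs2 (fun i hi => ?_) hg2
      simp only [mem_union, Finset.mem_insert] at hi ⊢
      rcases hi with h | h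
      · exact Or.inr (Or.inr (Or.inl h))
      · exact Or.inr (Or.inr (Or.inr (hsR0 h)))
    have h0 : ∀ i ∈ P2' ∪ (P1 ∪ R0), i ∈ P1 ∪ P2' ∪ R0 := by
      intro i hi
      simp only [mem_union] at hi ⊢
      tauto
    have e2 : sh g2 ∈ Sg k z0 P2' (P1 ∪ R0) := sh_Sg (fun i hi => by
      rw [hz0' i (hoff i (h0 i hi))]
      exact hz4' i (h0 i hi)) e1 ht2
    exact Sg_congr (fun i hi k => hz0' i (hoff i (h0 i hi)) k) e2
  have hg20 : sh g2 = 0 := by
    refine hUk _ hs2' fun x hx => ?_
    rw [← hf1] at hx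
    obtain ⟨i, hi, rfl⟩ := mem_image.1 hx
    rcases Finset.mem_insert.1 hi with h | h
    · subst h
      rw [hg10, map_zero, zero_add] at hdy
      exact hdy
    · rw [Finset.mem_singleton] at h
      subst h
      have := hg2p.2.2
      rwa [hz00 i hpS, hz01 i hpS, dy_zero_right] at this
  exact ⟨eq_zero_of hg1.1 ht1 hg10, eq_zero_of hg2.1 ht2 hg20⟩

end

end Pool.Agent.Waring


end

section

/-!
# Simultaneous Waring decompositions of ternary forms (helper88)
-/

set_option autoImplicit false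

open MvPolynomial Finset

namespace Pool.Agent.Waring

/-! ### polynomials in two variables as arrays -/

/-- the exponent of `x^i y^j` -/
noncomputable def ex (i j : ℕ) : Fin 2 →₀ ℕ := Finsupp.single 0 i + Finsupp.single 1 j

lemma ex_zero (i j : ℕ) : ex i j 0 = i := by simp [ex]

lemma ex_one (i j : ℕ) : ex i j 1 = j := by simp [ex]

lemma ex_eq (α : Fin 2 →₀ ℕ) : ex (α 0) (α 1) = α := by
  ext k
  fin_cases k
  · exact ex_zero _ _
  · exact ex_one _ _

/-- the array of coefficients -/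
noncomputable def arr (g : MvPolynomial (Fin 2) ℂ) : Arr := fun i j => coeff (ex i j) g

lemma arr_mem {g : MvPolynomial (Fin 2) ℂ} {d : ℕ} (h : g.totalDegree ≤ d) : arr g ∈ V (d + 1) := by
  intro i j hij
  apply coeff_eq_zero_of_totalDegree_lt
  have h1 : ∑ k ∈ (ex i j).support, ex i j k = ∑ k, ex i j k :=
    Finset.sum_subset (Finset.subset_univ _) fun k _ hk => by simpa using hk
  rw [h1, Fin.sum_univ_two, ex_zero, ex_one]
  omega

lemma expand {g : MvPolynomial (Fin 2) ℂ} {d : ℕ} (h : g.totalDegree ≤ d) :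
    g = ∑ j ∈ range (d + 1), ∑ i ∈ range (d + 1 - j),
      C (arr g i j) * ((X 0 : MvPolynomial (Fin 2) ℂ) ^ i * X 1 ^ j) := by
  classical
  have e1 : ∀ i j : ℕ, C (arr g i j) * ((X 0 : MvPolynomial (Fin 2) ℂ) ^ i * X 1 ^ j) =
      monomial (ex i j) (arr g i j) := by
    intro i j
    rw [monomial_eq, Finsupp.prod_fintype _ _ (by simp), Fin.prod_univ_two, ex_zero, ex_one]
  simp only [e1]
  ext α
  rw [coeff_sum]
  simp only [coeff_sum, coeff_monomial]
  by_cases hα : α 0 + α 1 < d + 1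
  · rw [Finset.sum_eq_single (α 1)]
    · rw [Finset.sum_eq_single (α 0)]
      · rw [ex_eq, if_pos rfl, arr, ex_eq]
      · intro i _ hi
        rw [if_neg]
        intro hh
        apply hi
        rw [← hh, ex_zero]
      · intro hh
        exfalso
        apply hh
        rw [mem_range]
        omega
    · intro j _ hj
      refine Finset.sum_eq_zero fun i _ => ?_
      rw [if_neg]
      intro hh
      apply hj
      rw [← hh, ex_one]
    · intro hh
      exfalso
      apply hh
      rw [mem_range]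
      omega
  · have h1 : coeff α g = 0 := by
      have := arr_mem h (α 0) (α 1) (by omega)
      rwa [arr, ex_eq] at this
    rw [h1]
    symm
    refine Finset.sum_eq_zero fun j hj => Finset.sum_eq_zero fun i hi => ?_
    rw [if_neg]
    intro hh
    apply hα
    rw [← hh, ex_zero, ex_one]
    rw [mem_range] at hi hj
    omega

lemma eval_arr {g : MvPolynomial (Fin 2) ℂ} {d : ℕ} (h : g.totalDegree ≤ d) (z : Fin 2 → ℂ) :
    eval z g = ev (d + 1) (z 0) (z 1) (arr g) := by
  conv_lhs => rw [expand h]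
  simp only [map_sum, map_mul, map_pow, eval_C, eval_X]
  rfl

lemma eval_arr_dx {g : MvPolynomial (Fin 2) ℂ} {d : ℕ} (h : g.totalDegree ≤ d) (z : Fin 2 → ℂ) :
    eval z (pderiv 0 g) = dx (d + 1) (z 0) (z 1) (arr g) := by
  conv_lhs => rw [expand h]
  rw [map_sum, map_sum, dx, fn_apply]
  refine Finset.sum_congr rfl fun j _ => ?_
  rw [map_sum, map_sum]
  refine Finset.sum_congr rfl fun i _ => ?_
  rw [pderiv_C_mul, pderiv_mul, pderiv_pow, pderiv_pow, pderiv_X_self,
    pderiv_X_of_ne (show (1 : Fin 2) ≠ 0 by decide)]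
  simp only [map_mul, map_add, map_pow, eval_C, eval_X, map_natCast, map_one, map_zero]
  ring

lemma eval_arr_dy {g : MvPolynomial (Fin 2) ℂ} {d : ℕ} (h : g.totalDegree ≤ d) (z : Fin 2 → ℂ) :
    eval z (pderiv 1 g) = dy (d + 1) (z 0) (z 1) (arr g) := by
  conv_lhs => rw [expand h]
  rw [map_sum, map_sum, dy, fn_apply]
  refine Finset.sum_congr rfl fun j _ => ?_
  rw [map_sum, map_sum]
  refine Finset.sum_congr rfl fun i _ => ?_
  rw [pderiv_C_mul, pderiv_mul, pderiv_pow, pderiv_pow, pderiv_X_self,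
    pderiv_X_of_ne (show (0 : Fin 2) ≠ 1 by decide)]
  simp only [map_mul, map_add, map_pow, eval_C, eval_X, map_natCast, map_one, map_zero]
  ring

lemma eq_zero_of_arr {g : MvPolynomial (Fin 2) ℂ} {d : ℕ} (h : g.totalDegree ≤ d)
    (h0 : arr g = 0) : g = 0 := by
  rw [expand h, h0]
  simp

/-- the dual criterion for `n = 2` -/
theorem W_two {ι : Type} [Fintype ι] {d s : ℕ} (z : ι × Fin 2 → ℂ) (a : ι → Fin s → ℂ)
    (H : ∀ g : Fin s → Arr, (∀ j, g j ∈ V (d + 1)) →
      (∀ i j, ev (d + 1) (z (i, 0)) (z (i, 1)) (g j) = 0) →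
      (∀ i, ∑ j, a i j * dx (d + 1) (z (i, 0)) (z (i, 1)) (g j) = 0) →
      (∀ i, ∑ j, a i j * dy (d + 1) (z (i, 0)) (z (i, 1)) (g j) = 0) → ∀ j, g j = 0) :
    W d (Fintype.card ι) 2 s := by
  let e : Fin (Fintype.card ι) ≃ ι := (Fintype.equivFin ι).symm
  refine W_of_dual (fun i k => z (e i, k)) (fun i => a (e i)) fun g hg h1 h2 j => ?_
  refine eq_zero_of_arr (hg j) (H (fun j => arr (g j)) (fun j => arr_mem (hg j))
    (fun i j => ?_) (fun i => ?_) (fun i => ?_) j)
  · have := h1 (e.symm i) j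
    rw [eval_arr (hg j)] at this
    simpa using this
  · have := h2 (e.symm i) 0
    rw [Finset.sum_congr rfl fun j _ => by rw [eval_arr_dx (hg j)]] at this
    simpa using this
  · have := h2 (e.symm i) 1
    rw [Finset.sum_congr rfl fun j _ => by rw [eval_arr_dy (hg j)]] at this
    simpa using this

/-! ### the configurations -/

section conf

variable {q r s : ℕ}

/-- coefficients of the full points -/
def cf (q r s : ℕ) : (Fin s × Fin q) ⊕ Fin r → Fin s → ℂ
  | Sum.inl p, j => if p.1 = j then 1 else 0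
  | Sum.inr e, j => if j.val / 2 = e.val then 1 else 0

/-- the double points of the form number `j` -/
def dbl (q r s : ℕ) (j : Fin s) : Finset ((Fin s × Fin q) ⊕ Fin r) :=
  univ.image fun x : Fin q => Sum.inl (j, x)

lemma mem_dbl {j : Fin s} {i : (Fin s × Fin q) ⊕ Fin r} :
    i ∈ dbl q r s j ↔ ∃ x, i = Sum.inl (j, x) := by
  rw [dbl, mem_image]
  constructor
  · rintro ⟨x, _, rfl⟩
    exact ⟨x, rfl⟩
  · rintro ⟨x, rfl⟩
    exact ⟨x, mem_univ _, rfl⟩

lemma card_dbl (j : Fin s) : (dbl q r s j).card = q := by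
  rw [dbl, Finset.card_image_of_injective, card_univ, Fintype.card_fin]
  intro x y h
  simpa using h

lemma sum_cf_inl (j : Fin s) (x : Fin q) (v : Fin s → ℂ) :
    ∑ j', cf q r s (Sum.inl (j, x)) j' * v j' = v j := by
  rw [Finset.sum_eq_single j]
  · simp [cf]
  · intro j' _ hj'
    simp [cf, Ne.symm hj']
  · intro h
    exact absurd (mem_univ _) h

/-- each form is singular at its double points -/
lemma sg_of_conf {d : ℕ} (z : ((Fin s × Fin q) ⊕ Fin r) × Fin 2 → ℂ) (g : Fin s → Arr)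
    (hg : ∀ j, g j ∈ V (d + 1))
    (h1 : ∀ i j, ev (d + 1) (z (i, 0)) (z (i, 1)) (g j) = 0)
    (h2 : ∀ i, ∑ j, cf q r s i j * dx (d + 1) (z (i, 0)) (z (i, 1)) (g j) = 0)
    (h3 : ∀ i, ∑ j, cf q r s i j * dy (d + 1) (z (i, 0)) (z (i, 1)) (g j) = 0) (j : Fin s)
    (B : Finset ((Fin s × Fin q) ⊕ Fin r)) : g j ∈ Sg (d + 1) z (dbl q r s j) B := by
  refine ⟨hg j, fun i hi => ⟨h1 i j, ?_, ?_⟩, fun i _ => h1 i j⟩
  · obtain ⟨x, rfl⟩ := mem_dbl.1 hi
    have := h2 (Sum.inl (j, x))
    rwa [sum_cf_inl] at this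
  · obtain ⟨x, rfl⟩ := mem_dbl.1 hi
    have := h3 (Sum.inl (j, x))
    rwa [sum_cf_inl] at this

lemma card_conf : Fintype.card ((Fin s × Fin q) ⊕ Fin r) = s * q + r := by
  simp

/-- pure configurations -/
theorem W_easy (d q r s : ℕ) (hs : 1 ≤ s) (h1 : T (d + 1) ≤ (s + 2) * q + r)
    (h2 : 4 * q ≤ T (d + 1) + 1) : W d (s * q + r) 2 s := by
  have hle : q ≤ s * q := Nat.le_mul_of_pos_left q hs
  have hgen : Gen (fun z : ((Fin s × Fin q) ⊕ Fin r) × Fin 2 → ℂ => ∀ j : Fin s,
      ∀ c ∈ Sg (d + 1) z (dbl q r s j) (univ \ dbl q r s j), c = 0) := by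
    refine Gen.all fun j => wah (d + 1) _ _ Finset.disjoint_sdiff ?_ ?_
    · rw [Finset.card_sdiff_of_subset (Finset.subset_univ _), card_univ, card_conf, card_dbl]
      have : (s + 2) * q = s * q + 2 * q := by ring
      omega
    · rw [card_dbl]
      exact h2
  obtain ⟨z, hz⟩ := hgen.exists
  have := W_two (d := d) z (cf q r s) fun g hg e1 e2 e3 j =>
    hz j _ (sg_of_conf z g hg e1 e2 e3 j _)
  rwa [card_conf] at this

lemma sum_cf_inr_pair {e : Fin r} {j j' : Fin s} (hj : j.val / 2 = e.val)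
    (hj' : j'.val / 2 = e.val) (hne : j ≠ j') (v : Fin s → ℂ) :
    ∑ i, cf q r s (Sum.inr e) i * v i = v j + v j' := by
  have h1 : ∀ i : Fin s, cf q r s (Sum.inr e) i * v i =
      if i ∈ ({j, j'} : Finset (Fin s)) then v i else 0 := by
    intro i
    have h2 : i.val / 2 = e.val ↔ i ∈ ({j, j'} : Finset (Fin s)) := by
      rw [Finset.mem_insert, Finset.mem_singleton]
      constructor
      · intro hi
        have h3 : j.val ≠ j'.val := fun h => hne (Fin.ext h)
        have h4 : i.val = j.val ∨ i.val = j'.val := by omega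
        exact h4.imp Fin.ext Fin.ext
      · rintro (rfl | rfl)
        · exact hj
        · exact hj'
    show (if i.val / 2 = e.val then (1 : ℂ) else 0) * v i = _
    by_cases h : i.val / 2 = e.val
    · rw [if_pos h, if_pos (h2.1 h), one_mul]
    · rw [if_neg h, if_neg fun h' => h (h2.2 h'), zero_mul]
  rw [Finset.sum_congr rfl fun i _ => h1 i, Finset.sum_ite_mem, Finset.univ_inter,
    Finset.sum_pair hne]

lemma sum_cf_inr_single {e : Fin r} {j : Fin s} (hj : j.val / 2 = e.val)
    (h : ∀ j' : Fin s, j'.val / 2 = e.val → j' = j) (v : Fin s → ℂ) :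
    ∑ i, cf q r s (Sum.inr e) i * v i = v j := by
  rw [Finset.sum_eq_single j]
  · show (if j.val / 2 = e.val then (1 : ℂ) else 0) * v j = _
    rw [if_pos hj, one_mul]
  · intro i _ hi
    show (if i.val / 2 = e.val then (1 : ℂ) else 0) * v i = _
    rw [if_neg fun h' => hi (h i h'), zero_mul]
  · intro h
    exact absurd (mem_univ _) h

/-- configurations with mixed points -/
theorem W_mid (d q r s : ℕ) (hq : 1 ≤ q) (h5 : 5 * q + 3 ≤ T (d + 1)) (hr : s ≤ 2 * r)
    (hN : T (d + 1) ≤ (s + 2) * q + r + 1) : W d (s * q + r) 2 s := by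
  have hexp : (s + 2) * q = s * q + 2 * q := by ring
  let Q : Fin s → (Fin s × Fin q) ⊕ Fin r := fun j => Sum.inr ⟨j.val / 2, by omega⟩
  have hQ : ∀ j j' : Fin s, Q j ∉ dbl q r s j' := by
    intro j j' h
    obtain ⟨x, hx⟩ := mem_dbl.1 h
    exact absurd hx (by simp [Q])
  -- pairs
  have g1 : Gen (fun z : ((Fin s × Fin q) ⊕ Fin r) × Fin 2 → ℂ => ∀ p : Fin s × Fin s,
      p.1 ≠ p.2 → ∀ g1 g2, PC (d + 1) z (dbl q r s p.1) (dbl q r s p.2)
        (univ \ insert (Q p.1) (dbl q r s p.1 ∪ dbl q r s p.2)) (Q p.1) g1 g2 →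
        g1 = 0 ∧ g2 = 0) := by
    refine Gen.all fun p => ?_
    by_cases hp : p.1 = p.2
    · exact Gen.of_forall fun z h => absurd hp h
    refine Gen.mono ?_ fun z hz _ => hz
    have hd : Disjoint (dbl q r s p.1) (dbl q r s p.2) := by
      rw [Finset.disjoint_left]
      intro i hi hi'
      obtain ⟨x, rfl⟩ := mem_dbl.1 hi
      obtain ⟨y, hy⟩ := mem_dbl.1 hi'
      apply hp
      simp only [Sum.inl.injEq, Prod.mk.injEq] at hy
      exact hy.1
    have hins : (insert (Q p.1) (dbl q r s p.1 ∪ dbl q r s p.2)).card = 2 * q + 1 := by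
      rw [Finset.card_insert_of_notMem, Finset.card_union_of_disjoint hd, card_dbl, card_dbl]
      · omega
      · rw [mem_union, not_or]
        exact ⟨hQ _ _, hQ _ _⟩
    have hdis : Disjoint (insert (Q p.1) (dbl q r s p.1 ∪ dbl q r s p.2))
        (univ \ insert (Q p.1) (dbl q r s p.1 ∪ dbl q r s p.2)) := Finset.disjoint_sdiff
    refine pair_block hq h5 (card_dbl _) (card_dbl _) ?_ hd
      (Finset.disjoint_of_subset_left (Finset.subset_union_left.trans
        (Finset.subset_insert _ _)) hdis)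
      (Finset.disjoint_of_subset_left (Finset.subset_union_right.trans
        (Finset.subset_insert _ _)) hdis) (hQ _ _) (hQ _ _)
      (Finset.disjoint_left.1 hdis (Finset.mem_insert_self _ _))
    rw [Finset.card_sdiff_of_subset (Finset.subset_univ _), card_univ, card_conf, hins]
    have hs2 : 2 ≤ s := by
      have h1 := p.1.2
      have h2 := p.2.2
      have h3 : p.1.val ≠ p.2.val := fun h => hp (Fin.ext h)
      omega
    have : 2 * q ≤ s * q := Nat.mul_le_mul_right q hs2
    omega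
  -- single forms
  have g2 : Gen (fun z : ((Fin s × Fin q) ⊕ Fin r) × Fin 2 → ℂ => ∀ j : Fin s,
      ∀ c ∈ Sg (d + 1) z (insert (Q j) (dbl q r s j)) (univ \ insert (Q j) (dbl q r s j)),
        c = 0) := by
    refine Gen.all fun j => wah (d + 1) _ _ Finset.disjoint_sdiff ?_ ?_
    · rw [Finset.card_sdiff_of_subset (Finset.subset_univ _), card_univ, card_conf,
        Finset.card_insert_of_notMem (hQ _ _), card_dbl]
      have hs1 : 1 ≤ s := by have := j.2; omega
      have : q ≤ s * q := Nat.le_mul_of_pos_left q hs1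
      omega
    · rw [Finset.card_insert_of_notMem (hQ _ _), card_dbl]
      omega
  obtain ⟨z, hz1, hz2⟩ := (g1.and g2).exists
  have := W_two (d := d) z (cf q r s) fun g hg e1 e2 e3 j => by
    by_cases hj : ∃ j', j ≠ j' ∧ j'.val / 2 = j.val / 2
    · obtain ⟨j', hne, hj'⟩ := hj
      refine (hz1 (j, j') hne (g j) (g j') ⟨sg_of_conf z g hg e1 e2 e3 j _,
        sg_of_conf z g hg e1 e2 e3 j' _, ?_, ?_⟩).1
      · have := e2 (Q j)
        rwa [sum_cf_inr_pair (j := j) (j' := j') rfl hj' hne] at this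
      · have := e3 (Q j)
        rwa [sum_cf_inr_pair (j := j) (j' := j') rfl hj' hne] at this
    · push Not at hj
      have hj1 : ∀ j' : Fin s, j'.val / 2 = j.val / 2 → j' = j := by
        intro j' h
        by_contra hne
        exact hj j' (Ne.symm hne) h
      refine hz2 j (g j) ⟨hg j, fun i hi => ?_, fun i _ => e1 i j⟩
      rcases Finset.mem_insert.1 hi with h | h
      · subst h
        refine ⟨e1 _ j, ?_, ?_⟩
        · have := e2 (Q j)
          rwa [sum_cf_inr_single (j := j) rfl hj1] at this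
        · have := e3 (Q j)
          rwa [sum_cf_inr_single (j := j) rfl hj1] at this
      · exact (sg_of_conf z g hg e1 e2 e3 j ∅).2.1 i h
  rwa [card_conf] at this

end conf

/-- **Simultaneous Waring decompositions of `s ≥ 3` ternary forms.** -/
theorem ternary (d h s : ℕ) (hd : 1 ≤ d) (hs : 3 ≤ s) :
    W d h 2 s ↔ min s ((d + 2).choose 2) ≤ h ∧ s * (d + 2).choose 2 ≤ h * (s + 2) := by
  constructor
  · intro H
    have h1 := H.bound1 hd
    have h2 := H.bound2
    rw [Nat.add_comm 2 d] at h1 h2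
    rw [Nat.add_comm 2 s] at h1
    exact ⟨h2, h1⟩
  · rintro ⟨h1, h2⟩
    obtain ⟨N, hN⟩ : ∃ N, N = (d + 2).choose 2 := ⟨_, rfl⟩
    have hT : T (d + 1) = N := by rw [hN]; rfl
    rw [← hN] at h1 h2
    rcases Nat.lt_or_ge s N with hsN | hsN
    · obtain ⟨q, hq⟩ : ∃ q, q = N / (s + 2) := ⟨_, rfl⟩
      obtain ⟨t, ht⟩ : ∃ t, t = N % (s + 2) := ⟨_, rfl⟩
      have hdiv : (s + 2) * q + t = N := by rw [hq, ht]; exact Nat.div_add_mod N (s + 2)
      have htlt : t < s + 2 := by rw [ht]; exact Nat.mod_lt _ (by omega)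
      have h5 : 5 * q ≤ (s + 2) * q := Nat.mul_le_mul_right q (by omega)
      rw [← hdiv] at h2
      rcases Nat.lt_or_ge (2 * t) (s + 2) with h2t | h2t
      · have hW := W_easy d q t s (by omega) (by rw [hT]; omega) (by rw [hT]; omega)
        refine hW.mono ?_
        by_contra hlt
        push Not at hlt
        have h3 : (h + 1) * (s + 2) ≤ (s * q + t) * (s + 2) := Nat.mul_le_mul_right _ hlt
        nlinarith
      · rcases Nat.lt_or_ge s t with hst | hst
        · have hts : t = s + 1 := by omega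
          have hW := W_easy d (q + 1) 0 s (by omega) (by rw [hT, mul_add]; omega)
            (by rw [hT]; omega)
          refine hW.mono ?_
          by_contra hlt
          push Not at hlt
          have h3 : (h + 1) * (s + 2) ≤ (s * (q + 1) + 0) * (s + 2) :=
            Nat.mul_le_mul_right _ hlt
          rw [hts] at h2
          nlinarith
        · have hq1 : 1 ≤ q := by
            rcases Nat.eq_zero_or_pos q with h0 | h0
            · rw [h0] at hdiv
              omega
            · exact h0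
          have hW := W_mid d q (t - 1) s hq1 (by rw [hT]; omega) (by omega)
            (by rw [hT]; omega)
          refine hW.mono ?_
          by_contra hlt
          push Not at hlt
          have hlt' : h + 2 ≤ s * q + t := by omega
          have h3 : (h + 2) * (s + 2) ≤ (s * q + t) * (s + 2) := Nat.mul_le_mul_right _ hlt'
          nlinarith
    · have hW := W_easy d 0 N s (by omega) (by rw [hT]; omega) (by omega)
      refine hW.mono ?_
      rw [min_eq_right hsN] at h1
      omega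

end Pool.Agent.Waring


end

section

/-!
# Simultaneous Waring decompositions: linear forms (helper96)
-/

set_option autoImplicit false

open MvPolynomial Finset

namespace Pool.Agent.WarN

open Pool.Agent.Waring

/-- a polynomial of degree at most one without constant term and with vanishing gradient at `0` -/
lemma lin_zero {n : ℕ} (g : MvPolynomial (Fin n) ℂ) (hg : g.totalDegree ≤ 1)
    (h0 : eval (fun _ => 0) g = 0) (h1 : ∀ k, eval (fun _ => 0) (pderiv k g) = 0) : g = 0 := by
  classical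
  have e : ∀ p : MvPolynomial (Fin n) ℂ, eval (fun _ => 0) p = coeff 0 p := by
    intro p
    have : eval (fun _ : Fin n => (0 : ℂ)) p = constantCoeff p := by
      rw [show (fun _ : Fin n => (0 : ℂ)) = 0 from rfl, eval_zero]
    rw [this, constantCoeff_eq]
  ext m
  rw [coeff_zero]
  by_contra hm
  have h2 : m.sum (fun _ e => e) ≤ 1 := (le_totalDegree (mem_support_iff.2 hm)).trans hg
  by_cases hm0 : m = 0
  · subst hm0
    apply hm
    rw [← e, h0]
  · obtain ⟨k, hk⟩ : ∃ k, m k ≠ 0 := by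
      by_contra hc
      push Not at hc
      exact hm0 (Finsupp.ext hc)
    have h3 : m = Finsupp.single k 1 := by
      rw [Finsupp.sum_fintype _ _ (by simp)] at h2
      ext l
      by_cases hl : l = k
      · subst hl
        rw [Finsupp.single_eq_same]
        have : m l ≤ ∑ i, m i := Finset.single_le_sum (fun i _ => Nat.zero_le _) (mem_univ l)
        omega
      · rw [Finsupp.single_eq_of_ne hl]
        have h4 : m k + m l ≤ ∑ i, m i := by
          rw [← Finset.sum_pair (Ne.symm hl)]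
          exact Finset.sum_le_sum_of_subset (Finset.subset_univ _)
        omega
    have h4 := h1 k
    rw [e] at h4
    apply hm
    rw [h3]
    have h5 : coeff 0 (pderiv k g) = coeff (Finsupp.single k 1) g := by
      have h6 := g.as_sum
      conv_lhs => rw [h6]
      rw [map_sum, coeff_sum]
      simp only [pderiv_monomial, coeff_monomial]
      rw [Finset.sum_eq_single (Finsupp.single k 1)]
      · simp
      · intro b _ hb
        by_cases hb1 : b k = 0
        · simp [hb1]
        · rw [if_neg]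
          intro h7
          apply hb
          have h8 : b = b - Finsupp.single k 1 + Finsupp.single k 1 := by
            ext l
            simp only [Finsupp.add_apply, Finsupp.tsub_apply]
            by_cases hl : l = k
            · subst hl
              rw [Finsupp.single_eq_same]
              omega
            · rw [Finsupp.single_eq_of_ne hl]
              simp
          rw [h8, h7, zero_add]
      · intro h7
        rw [notMem_support_iff] at h7
        simp [h7]
    rw [← h5, h4]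

/-- **Linear forms**, at most `h` of them. -/
theorem W_linear (h n s : ℕ) (hs : s ≤ h) : W 1 h n s := by
  classical
  refine W_of_dual (fun _ _ => 0) (fun i j => if i.val = j.val then 1 else 0) ?_
  intro g hg h0 h1 j
  have hj : j.val < h := lt_of_lt_of_le j.isLt hs
  refine lin_zero (g j) (hg j) (h0 ⟨j.val, hj⟩ j) fun k => ?_
  have h3 := h1 ⟨j.val, hj⟩ k
  rw [Finset.sum_eq_single_of_mem j (mem_univ j)] at h3
  · simpa using h3
  · intro j' _ hj'
    have : ¬ j.val = j'.val := fun h => hj' (Fin.ext h.symm)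
    simp [this]

end Pool.Agent.WarN


end

section

/-!
# Simultaneous Waring decompositions: the exceptional nets of quadrics (helper96)

For odd `n` three general quadratic forms in `n + 1` variables are not linear combinations of the
squares of `h` linear forms, if `2 h < 3 (n + 1)`. The skew matrix
`(0 A B; -A 0 C; -B -C 0)` of size `3 (n + 1)` has rank at most `2 h` for such forms.
-/

set_option autoImplicit false

open MvPolynomial Finset

namespace Pool.Agent.WarN

open Pool.Agent.Waring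

namespace Exc2Aux

/-- the skew `3 × 3` matrix of a vector -/
def K {R : Type} [Ring R] (c : Fin 3 → R) : Fin 3 → Fin 3 → R :=
  ![![0, c 0, c 1], ![-c 0, 0, c 2], ![-c 1, -c 2, 0]]

lemma K_sum {ι : Type} [Fintype ι] (c : Fin 3 → ι → ℂ) (m : ι → ℂ) (a b : Fin 3) :
    K (fun e => ∑ i, c e i * m i) a b = ∑ i, K (fun e => c e i) a b * m i := by
  fin_cases a <;> fin_cases b <;> simp [K, Finset.sum_neg_distrib]

lemma K_factor (c : Fin 3 → ℂ) : ∃ (A : Fin 3 → Fin 2 → ℂ) (B : Fin 2 → Fin 3 → ℂ),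
    ∀ a b, K c a b = ∑ k, A a k * B k b := by
  by_cases h : c 0 = 0
  · refine ⟨![![c 1, 0], ![c 2, 0], ![0, 1]], ![![0, 0, 1], ![-c 1, -c 2, 0]], fun a b => ?_⟩
    fin_cases a <;> fin_cases b <;> simp [K, h, Fin.sum_univ_two]
  · refine ⟨![![1, 0], ![0, 1], ![-(c 2 / c 0), c 1 / c 0]], ![![0, c 0, c 1], ![-c 0, 0, c 2]],
      fun a b => ?_⟩
    fin_cases a <;> fin_cases b <;> (simp [K, Fin.sum_univ_two]; try (field_simp; try ring))

/-- `x_k x_l` -/
noncomputable def ee {n : ℕ} (x y : Fin (n + 1)) : Fin (n + 1) →₀ ℕ :=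
  Finsupp.single x 1 + Finsupp.single y 1

lemma ee_mem {n : ℕ} (x y : Fin (n + 1)) :
    ee x y ∈ Finset.finsuppAntidiag (Finset.univ : Finset (Fin (n + 1))) 2 := by
  rw [mem_Mon]
  simp [ee, Finset.sum_add_distrib]

lemma prod_ee {n : ℕ} (l : Fin (n + 1) → ℂ) (x y : Fin (n + 1)) :
    ∏ k, l k ^ (ee x y) k = l x * l y := by
  have h1 : ∀ z : Fin (n + 1), ∏ k, l k ^ (Finsupp.single z 1 : Fin (n + 1) →₀ ℕ) k = l z := by
    intro z
    rw [Finset.prod_eq_single_of_mem z (mem_univ z)]
    · rw [Finsupp.single_eq_same, pow_one]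
    · intro k _ hk
      rw [Finsupp.single_eq_of_ne hk, pow_zero]
  simp only [ee, Finsupp.add_apply, pow_add, Finset.prod_mul_distrib]
  rw [h1, h1]

/-- the multinomial coefficient -/
noncomputable def mu {n : ℕ} (x y : Fin (n + 1)) : ℂ := (Nat.multinomial univ (ee x y) : ℂ)

lemma mu_ne {n : ℕ} (x y : Fin (n + 1)) : mu x y ≠ 0 := by
  unfold mu
  exact_mod_cast (Nat.multinomial_pos _ _).ne'

/-- the matrix -/
noncomputable def M (n : ℕ) : Matrix (Fin 3 × Fin (n + 1)) (Fin 3 × Fin (n + 1))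
    (MvPolynomial (Fin 3 × Mon n 2) ℂ) :=
  Matrix.of fun p q => K (fun c => C (mu p.2 q.2)⁻¹ * X (c, ⟨ee p.2 q.2, ee_mem _ _⟩)) p.1 q.1

lemma eval_M {n : ℕ} (w : Fin 3 × Mon n 2 → ℂ) : eval w (M n).det =
    (Matrix.of fun p q => K (fun c => (mu p.2 q.2)⁻¹ * w (c, ⟨ee p.2 q.2, ee_mem _ _⟩)) p.1 q.1 :
      Matrix (Fin 3 × Fin (n + 1)) (Fin 3 × Fin (n + 1)) ℂ).det := by
  rw [RingHom.map_det]
  congr 1
  ext ⟨a, x⟩ ⟨b, y⟩
  simp only [M, RingHom.mapMatrix_apply, Matrix.map_apply, Matrix.of_apply]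
  fin_cases a <;> fin_cases b <;> simp [K]

/-- the matrix of a decomposable net -/
lemma entry {n : ℕ} {ι : Type} [Fintype ι] (w : Fin 3 × Mon n 2 → ℂ) (l : ι → Fin (n + 1) → ℂ)
    (c : Fin 3 → ι → ℂ) (hlc : ∀ j (α : Mon n 2), w (j, α) =
      ∑ i, c j i * ((Nat.multinomial univ α.1 : ℂ) * ∏ k, l i k ^ α.1 k))
    (x y : Fin (n + 1)) (e : Fin 3) :
    (mu x y)⁻¹ * w (e, ⟨ee x y, ee_mem _ _⟩) = ∑ i, c e i * (l i x * l i y) := by
  rw [hlc, Finset.mul_sum]
  refine Finset.sum_congr rfl fun i _ => ?_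
  have h1 := prod_ee (l i) x y
  rw [h1]
  have h2 : (Nat.multinomial univ (ee x y) : ℂ) = mu x y := rfl
  rw [h2]
  have := mu_ne x y
  field_simp

theorem pair_sums {n : ℕ} (σ : Fin (n + 1) → Fin (n + 1)) (par : Fin (n + 1) → Prop)
    [DecidablePred par] (hσ : ∀ x, σ (σ x) = x) (hpar : ∀ x, par (σ x) ↔ ¬ par x)
    (x y : Fin (n + 1)) :
    ∑ z, (if par z then (1 : ℂ) else 0) *
      (((if x = z then 1 else 0) + (if x = σ z then 1 else 0)) *
        ((if y = z then 1 else 0) + (if y = σ z then 1 else 0))) =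
      (if y = x then 1 else 0) + (if y = σ x then 1 else 0) := by
  have hne : σ x ≠ x := fun h => by
    have := hpar x
    rw [h] at this
    tauto
  by_cases hx : par x
  · rw [Finset.sum_eq_single_of_mem x (mem_univ x)]
    · simp [hx, hne.symm]
    · intro z _ hz
      by_cases hz1 : par z
      · have h1 : x ≠ z := fun h => hz h.symm
        have h2 : x ≠ σ z := fun h => by
          rw [h] at hx
          exact (hpar z).1 hx hz1
        simp [h1, h2]
      · simp [hz1]
  · rw [Finset.sum_eq_single_of_mem (σ x) (mem_univ _)]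
    · have h1 : par (σ x) := (hpar x).2 hx
      simp [h1, hσ, hne.symm]
      ring
    · intro z _ hz
      by_cases hz1 : par z
      · have h1 : x ≠ z := fun h => hx (h ▸ hz1)
        have h2 : x ≠ σ z := fun h => hz (by rw [h, hσ])
        simp [h1, h2]
      · simp [hz1]

end Exc2Aux

open _root_.Pool.Agent.WarN.Exc2Aux

theorem M_ne {n : ℕ} (hn : Odd n) : (M n).det ≠ 0 := by
  classical
  intro h0
  -- the pairing
  obtain ⟨σ, hσd⟩ : ∃ σ : Fin (n + 1) → Fin (n + 1), ∀ x, (σ x).val =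
      if x.val % 2 = 0 then x.val + 1 else x.val - 1 := by
    refine ⟨fun x => ⟨if x.val % 2 = 0 then x.val + 1 else x.val - 1, ?_⟩, fun x => rfl⟩
    obtain ⟨k, hk⟩ := hn
    have := x.isLt
    split_ifs <;> omega
  let par : Fin (n + 1) → Prop := fun x => x.val % 2 = 0
  have hσ : ∀ x, σ (σ x) = x := by
    intro x
    apply Fin.ext
    rw [hσd, hσd]
    split_ifs <;> omega
  have hpar : ∀ x, par (σ x) ↔ ¬ par x := by
    intro x
    simp only [par]
    rw [hσd]
    split_ifs <;> omega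
  let l : Fin (n + 1) ⊕ Fin (n + 1) → Fin (n + 1) → ℂ := Sum.elim
    (fun z x => if x = z then 1 else 0)
    (fun z x => (if x = z then 1 else 0) + (if x = σ z then 1 else 0))
  let c : Fin 3 → Fin (n + 1) ⊕ Fin (n + 1) → ℂ := fun e => Sum.elim
    (fun z => if e = 0 then (if par z then 1 else 0) else if e = 2 then (if par z then 0 else 1)
      else 0)
    (fun z => if e = 1 then (if par z then 1 else 0) else 0)
  let w : Fin 3 × Mon n 2 → ℂ := fun p =>
    ∑ i, c p.1 i * ((Nat.multinomial univ p.2.1 : ℂ) * ∏ k, l i k ^ p.2.1 k)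
  have hw := eval_M w
  rw [h0, map_zero] at hw
  have hent := entry w l c (fun j α => rfl)
  have hS0 : ∀ x y, ∑ i, c 0 i * (l i x * l i y) = if y = x then (if par x then 1 else 0) else 0 := by
    intro x y
    rw [Fintype.sum_sum_type]
    simp only [c, l, Sum.elim_inl, Sum.elim_inr]
    rw [Finset.sum_eq_single_of_mem x (mem_univ x)]
    · by_cases h : y = x
      · subst h; simp
      · simp [h]
    · intro z _ hz
      simp [hz.symm]
  have hS2 : ∀ x y, ∑ i, c 2 i * (l i x * l i y) = if y = x then (if par x then 0 else 1) else 0 := by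
    intro x y
    rw [Fintype.sum_sum_type]
    simp only [c, l, Sum.elim_inl, Sum.elim_inr]
    rw [Finset.sum_eq_single_of_mem x (mem_univ x)]
    · by_cases h : y = x
      · subst h; simp
      · simp [h]
    · intro z _ hz
      simp [hz.symm]
  have hS1 : ∀ x y, ∑ i, c 1 i * (l i x * l i y) =
      (if y = x then 1 else 0) + (if y = σ x then 1 else 0) := by
    intro x y
    rw [Fintype.sum_sum_type, ← pair_sums σ par hσ hpar x y]
    simp [c, l]
  obtain ⟨u, hu0, hu⟩ := Matrix.exists_mulVec_eq_zero_iff.2 hw.symm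
  apply hu0
  have hE : ∀ (a : Fin 3) (x : Fin (n + 1)), ∑ b, ∑ y, K (fun e => ∑ i, c e i * (l i x * l i y)) a b *
      u (b, y) = 0 := by
    intro a x
    have h1 := congrFun hu (a, x)
    rw [Matrix.mulVec, dotProduct, Fintype.sum_prod_type] at h1
    simp only [Matrix.of_apply, hent, Pi.zero_apply] at h1
    exact h1
  have e0 : ∀ x, (if par x then u (1, x) else 0) + (u (2, x) + u (2, σ x)) = 0 := by
    intro x
    have h1 := hE 0 x
    simp only [Fin.sum_univ_three, K, Matrix.cons_val_zero, Matrix.cons_val_one,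
      Matrix.cons_val_two, Matrix.head_cons, Matrix.tail_cons, hS0, hS1, zero_mul,
      Finset.sum_const_zero, zero_add, ite_mul, add_mul, one_mul, Finset.sum_add_distrib,
      Finset.sum_ite_eq', mem_univ, if_true, Matrix.cons_val] at h1
    exact h1
  have e1 : ∀ x, -(if par x then u (0, x) else 0) + (if par x then 0 else u (2, x)) = 0 := by
    intro x
    have h1 := hE 1 x
    simp only [Fin.sum_univ_three, K, Matrix.cons_val_zero, Matrix.cons_val_one,
      Matrix.cons_val_two, Matrix.head_cons, Matrix.tail_cons, hS0, hS2, zero_mul, neg_mul,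
      Finset.sum_const_zero, add_zero, ite_mul, one_mul, Finset.sum_neg_distrib,
      Finset.sum_ite_eq', mem_univ, if_true, Matrix.cons_val] at h1
    exact h1
  have e2 : ∀ x, -(u (0, x) + u (0, σ x)) - (if par x then 0 else u (1, x)) = 0 := by
    intro x
    have h1 := hE 2 x
    simp only [Fin.sum_univ_three, K, Matrix.cons_val_zero, Matrix.cons_val_one,
      Matrix.cons_val_two, Matrix.head_cons, Matrix.tail_cons, hS1, hS2, zero_mul, neg_mul,
      Finset.sum_const_zero, add_zero, ite_mul, add_mul, one_mul, Finset.sum_neg_distrib,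
      Finset.sum_add_distrib, Finset.sum_ite_eq', mem_univ, if_true, Matrix.cons_val] at h1
    linear_combination h1
  have f0 : ∀ x, par x → u (0, x) = 0 := by
    intro x hx
    have := e1 x
    simpa [hx] using this
  have f2 : ∀ x, ¬ par x → u (2, x) = 0 := by
    intro x hx
    have := e1 x
    simpa [hx] using this
  have f2' : ∀ x, par x → u (2, x) = 0 := by
    intro x hx
    have h1 : ¬ par (σ x) := fun h => (hpar x).1 h hx
    have := e0 (σ x)
    rw [hσ, if_neg h1, f2 _ h1] at this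
    simpa using this
  have f1 : ∀ x, par x → u (1, x) = 0 := by
    intro x hx
    have h1 : ¬ par (σ x) := fun h => (hpar x).1 h hx
    have := e0 x
    rw [if_pos hx, f2' x hx, f2 _ h1] at this
    simpa using this
  have f0' : ∀ x, ¬ par x → u (0, x) = 0 := by
    intro x hx
    have h1 : par (σ x) := (hpar x).2 hx
    have := e2 (σ x)
    rw [if_pos h1, hσ, f0 _ h1] at this
    simpa using this
  have f1' : ∀ x, ¬ par x → u (1, x) = 0 := by
    intro x hx
    have h1 : par (σ x) := (hpar x).2 hx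
    have := e2 x
    rw [if_neg hx, f0' x hx, f0 _ h1] at this
    simpa using this
  funext ⟨b, x⟩
  by_cases hx : par x
  · fin_cases b
    · exact f0 x hx
    · exact f1 x hx
    · exact f2' x hx
  · fin_cases b
    · exact f0' x hx
    · exact f1' x hx
    · exact f2 x hx

/-- For odd `n` a general net of quadratic forms in `n + 1` variables is not in the span of
the squares of `h` linear forms if `2 h < 3 (n + 1)`. -/
theorem not_W_net {n h : ℕ} (hn : Odd n) (hh : 2 * h < 3 * (n + 1)) : ¬ W 2 h n 3 := by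
  classical
  intro H
  obtain ⟨w, hw, l, c, hlc⟩ := H.exists_rep (M n).det (M_ne hn)
  rw [eval_M] at hw
  choose A B hAB using fun i => K_factor fun e => c e i
  let P : Matrix (Fin 3 × Fin (n + 1)) (Fin h × Fin 2) ℂ := Matrix.of fun p r =>
    A r.1 p.1 r.2 * l r.1 p.2
  let Q : Matrix (Fin h × Fin 2) (Fin 3 × Fin (n + 1)) ℂ := Matrix.of fun r q =>
    B r.1 r.2 q.1 * l r.1 q.2
  have hPQ : (Matrix.of fun p q => K (fun e => (mu p.2 q.2)⁻¹ *
      w (e, ⟨ee p.2 q.2, ee_mem _ _⟩)) p.1 q.1 :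
      Matrix (Fin 3 × Fin (n + 1)) (Fin 3 × Fin (n + 1)) ℂ) = P * Q := by
    ext ⟨a, x⟩ ⟨b, y⟩
    rw [Matrix.of_apply, Matrix.mul_apply]
    have h1 : (fun e => (mu x y)⁻¹ * w (e, ⟨ee x y, ee_mem _ _⟩)) =
        fun e => ∑ i, c e i * (l i x * l i y) := by
      funext e
      exact entry w l c hlc x y e
    show K (fun e => (mu x y)⁻¹ * w (e, ⟨ee x y, ee_mem _ _⟩)) a b = _
    rw [h1, K_sum, Fintype.sum_prod_type]
    refine Finset.sum_congr rfl fun i _ => ?_
    rw [hAB, Finset.sum_mul]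
    refine Finset.sum_congr rfl fun k _ => ?_
    simp only [P, Q, Matrix.of_apply]
    ring
  rw [hPQ] at hw
  have h5 : IsUnit (P * Q) := (Matrix.isUnit_iff_isUnit_det _).2 (isUnit_iff_ne_zero.2 hw)
  have h6 := Matrix.rank_of_isUnit _ h5
  have h7 := (Matrix.rank_mul_le_left P Q).trans (Matrix.rank_le_card_width P)
  rw [h6, Fintype.card_prod, Fintype.card_prod, Fintype.card_fin, Fintype.card_fin,
    Fintype.card_fin, Fintype.card_fin] at h7
  omega

end Pool.Agent.WarN


end

section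

/-!
# Simultaneous Waring decompositions: pencils of quadrics (helper96)
-/

set_option autoImplicit false

open MvPolynomial Finset

namespace Pool.Agent.WarN

open Pool.Agent.Waring

namespace PenAux

lemma eval_zero' {n : ℕ} (p : MvPolynomial (Fin n) ℂ) : eval (fun _ => 0) p = coeff 0 p := by
  have : eval (fun _ : Fin n => (0 : ℂ)) p = constantCoeff p := by
    rw [show (fun _ : Fin n => (0 : ℂ)) = 0 from rfl, eval_zero]
  rw [this, constantCoeff_eq]

/-- the value at a unit vector -/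
lemma eval_unit {n : ℕ} (k : Fin n) (D : ℕ) (p : MvPolynomial (Fin n) ℂ)
    (hp : p.totalDegree ≤ D) :
    eval (fun i => if i = k then 1 else 0) p =
      ∑ t ∈ range (D + 1), coeff (Finsupp.single k t) p := by
  classical
  rw [eval_eq']
  have h1 : ∀ m : Fin n →₀ ℕ, coeff m p * ∏ i, (if i = k then (1 : ℂ) else 0) ^ m i =
      if m = Finsupp.single k (m k) then coeff m p else 0 := by
    intro m
    split_ifs with h
    · rw [Finset.prod_eq_one, mul_one]
      intro i _
      by_cases hi : i = k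
      · simp [hi]
      · rw [h, Finsupp.single_eq_of_ne hi, pow_zero]
    · obtain ⟨i, hi⟩ : ∃ i, m i ≠ Finsupp.single k (m k) i := by
        by_contra hc
        push Not at hc
        exact h (Finsupp.ext hc)
      have hik : i ≠ k := by
        rintro rfl
        exact hi (by rw [Finsupp.single_eq_same])
      rw [Finsupp.single_eq_of_ne hik] at hi
      rw [Finset.prod_eq_zero (mem_univ i), mul_zero]
      rw [if_neg hik, zero_pow hi]
  rw [Finset.sum_congr rfl fun m _ => h1 m, ← Finset.sum_filter]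
  have hinj : Function.Injective fun t : ℕ => Finsupp.single k t := Finsupp.single_injective k
  rw [← Finset.sum_image (f := fun m => coeff m p) (g := fun t : ℕ => Finsupp.single k t)
    (s := range (D + 1)) fun a _ b _ h => hinj h]
  refine Finset.sum_subset ?_ ?_
  · intro m hm
    obtain ⟨h2, h3⟩ := Finset.mem_filter.1 hm
    refine Finset.mem_image.2 ⟨m k, ?_, h3.symm⟩
    rw [Finset.mem_range]
    have h4 : m.sum (fun _ e => e) ≤ D := (le_totalDegree h2).trans hp
    rw [Finsupp.sum_fintype _ _ (by simp)] at h4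
    have : m k ≤ ∑ i, m i := Finset.single_le_sum (fun i _ => Nat.zero_le _) (mem_univ k)
    omega
  · intro m hm hm2
    obtain ⟨t, -, rfl⟩ := Finset.mem_image.1 hm
    by_contra hc
    apply hm2
    refine Finset.mem_filter.2 ⟨mem_support_iff.2 hc, ?_⟩
    rw [Finsupp.single_eq_same]

/-- a polynomial of degree at most two whose coefficients vanish -/
lemma quad_zero {n : ℕ} (g : MvPolynomial (Fin n) ℂ) (hg : g.totalDegree ≤ 2)
    (h0 : coeff 0 g = 0) (h1 : ∀ k, coeff (Finsupp.single k 1) g = 0)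
    (h2 : ∀ k l, coeff (Finsupp.single k 1 + Finsupp.single l 1) g = 0) : g = 0 := by
  classical
  ext m
  rw [coeff_zero]
  by_contra hm
  have h4 : m.sum (fun _ e => e) ≤ 2 := (le_totalDegree (mem_support_iff.2 hm)).trans hg
  rw [Finsupp.sum_fintype _ _ (by simp)] at h4
  by_cases hm0 : m = 0
  · exact hm (hm0 ▸ h0)
  obtain ⟨k, hk⟩ : ∃ k, m k ≠ 0 := by
    by_contra hc
    push Not at hc
    exact hm0 (Finsupp.ext hc)
  obtain ⟨m', rfl⟩ : ∃ m', m = Finsupp.single k 1 + m' := by
    refine ⟨m - Finsupp.single k 1, ?_⟩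
    ext l
    simp only [Finsupp.add_apply, Finsupp.tsub_apply]
    by_cases hl : l = k
    · subst hl
      rw [Finsupp.single_eq_same]
      omega
    · rw [Finsupp.single_eq_of_ne hl]
      simp
  have h5 : ∑ i, m' i ≤ 1 := by
    simp only [Finsupp.add_apply, Finset.sum_add_distrib] at h4
    have : ∑ i, (Finsupp.single k 1 : Fin n →₀ ℕ) i = 1 := by simp
    omega
  by_cases hm1 : m' = 0
  · subst hm1
    rw [add_zero] at hm
    exact hm (h1 k)
  obtain ⟨l, hl⟩ : ∃ l, m' l ≠ 0 := by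
    by_contra hc
    push Not at hc
    exact hm1 (Finsupp.ext hc)
  have h6 : m' = Finsupp.single l 1 := by
    ext i
    by_cases hi : i = l
    · subst hi
      rw [Finsupp.single_eq_same]
      have : m' i ≤ ∑ i, m' i := Finset.single_le_sum (fun i _ => Nat.zero_le _) (mem_univ i)
      omega
    · rw [Finsupp.single_eq_of_ne hi]
      have h7 : m' l + m' i ≤ ∑ i, m' i := by
        rw [← Finset.sum_pair (Ne.symm hi)]
        exact Finset.sum_le_sum_of_subset (Finset.subset_univ _)
      omega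
  subst h6
  exact hm (h2 k l)

end PenAux

open _root_.Pool.Agent.WarN.PenAux

/-- **Pencils of quadrics.** -/
theorem W_pencil (h n : ℕ) (hh : n + 1 ≤ h) : W 2 h n 2 := by
  classical
  have H : W 2 (n + 1) n 2 := by
    refine W_of_dual (fun i => Fin.cases (fun _ => 0) (fun k l => if l = k then 1 else 0) i)
      (fun i => ![1, (i.val : ℂ)]) ?_
    intro g hg h0 h1
    -- coefficients
    have c0 : ∀ j, coeff 0 (g j) = 0 := by
      intro j
      have := h0 0 j
      rwa [Fin.cases_zero, eval_zero'] at this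
    have hb0 : ∀ k, coeff (Finsupp.single k 1) (g 0) = 0 := by
      intro k
      have h2 := h1 0 k
      rw [Fin.sum_univ_two, Fin.cases_zero, eval_zero', eval_zero', coeff_pderiv,
        coeff_pderiv] at h2
      simpa using h2
    have hv : ∀ j k, coeff (Finsupp.single k 1) (g j) + coeff (Finsupp.single k 2) (g j) = 0 := by
      intro j k
      have h2 := h0 k.succ j
      rw [Fin.cases_succ, eval_unit k 2 _ (hg j), Finset.sum_range_succ, Finset.sum_range_succ,
        Finset.sum_range_one, Finsupp.single_zero, c0] at h2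
      simpa using h2
    have hd : ∀ k l, ∑ j : Fin 2, (![1, ((k.succ : Fin (n + 1)).val : ℂ)] : Fin 2 → ℂ) j *
        (coeff (Finsupp.single l 1) (g j) +
          coeff (Finsupp.single k 1 + Finsupp.single l 1) (g j) *
            ((Finsupp.single k 1 : Fin n →₀ ℕ) l + 1)) = 0 := by
      intro k l
      have h2 := h1 k.succ l
      rw [← h2]
      refine Finset.sum_congr rfl fun j _ => ?_
      congr 1
      have h3 : (pderiv l (g j)).totalDegree ≤ 1 := totalDegree_pderiv_le _ _ _ (hg j)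
      rw [Fin.cases_succ, eval_unit k 1 _ h3, Finset.sum_range_succ, Finset.sum_range_one,
        Finsupp.single_zero, coeff_pderiv, coeff_pderiv, zero_add]
      simp
    -- the coefficients of degree one
    have hb1 : ∀ k, coeff (Finsupp.single k 1) (g 1) = 0 := by
      intro k
      have h2 := hd k k
      have e1 : (Finsupp.single k 1 + Finsupp.single k 1 : Fin n →₀ ℕ) = Finsupp.single k 2 := by
        rw [← Finsupp.single_add]
      have h3 := hv 0 k
      have h4 := hv 1 k
      rw [hb0, zero_add] at h3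
      rw [Fin.sum_univ_two, e1, Finsupp.single_eq_same] at h2
      simp only [Matrix.cons_val_zero, Matrix.cons_val_one, Fin.val_succ, hb0, h3] at h2
      have h5 : coeff (Finsupp.single k 2) (g 1) = -coeff (Finsupp.single k 1) (g 1) := by
        linear_combination h4
      rw [h5] at h2
      push_cast at h2
      have h6 : ((k.val : ℂ) + 1) * coeff (Finsupp.single k 1) (g 1) = 0 := by
        linear_combination -h2
      rcases mul_eq_zero.1 h6 with h7 | h7
      · exfalso
        have : ((k.val + 1 : ℕ) : ℂ) = 0 := by exact_mod_cast h7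
        exact absurd (Nat.cast_eq_zero.1 this) (by omega)
      · exact h7
    have hb : ∀ j k, coeff (Finsupp.single k 1) (g j) = 0 := by
      intro j k
      fin_cases j
      · exact hb0 k
      · exact hb1 k
    have hq : ∀ j k, coeff (Finsupp.single k 2) (g j) = 0 := by
      intro j k
      have := hv j k
      rw [hb] at this
      simpa using this
    have hx : ∀ k l, k ≠ l → coeff (Finsupp.single k 1 + Finsupp.single l 1) (g 0) +
        ((k.val : ℂ) + 1) * coeff (Finsupp.single k 1 + Finsupp.single l 1) (g 1) = 0 := by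
      intro k l hkl
      have h2 := hd k l
      rw [Fin.sum_univ_two, Finsupp.single_eq_of_ne hkl.symm] at h2
      simp only [Matrix.cons_val_zero, Matrix.cons_val_one, Fin.val_succ, hb] at h2
      push_cast at h2
      linear_combination h2
    intro j
    refine quad_zero (g j) (hg j) (c0 j) (hb j) fun k l => ?_
    by_cases hkl : k = l
    · subst hkl
      rw [← Finsupp.single_add]
      exact hq j k
    · have h2 := hx k l hkl
      have h3 := hx l k (Ne.symm hkl)
      rw [add_comm (Finsupp.single l 1)] at h3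
      have h4 : ((k.val : ℂ) - l.val) *
          coeff (Finsupp.single k 1 + Finsupp.single l 1) (g 1) = 0 := by
        linear_combination h2 - h3
      have h5 : coeff (Finsupp.single k 1 + Finsupp.single l 1) (g 1) = 0 := by
        rcases mul_eq_zero.1 h4 with h6 | h6
        · exfalso
          apply hkl
          apply Fin.ext
          have := sub_eq_zero.1 h6
          exact_mod_cast this
        · exact h6
      have h6 : coeff (Finsupp.single k 1 + Finsupp.single l 1) (g 0) = 0 := by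
        rw [h5] at h2
        simpa using h2
      fin_cases j
      · exact h6
      · exact h5
  exact H.mono hh

end Pool.Agent.WarN


end
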