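import Mathlib
import Pool.Agent.CLAM.C03
import Pool.Agent.CLAM.C18

/-! Parts: WarN.Exc1, WarR.Lab, WarR.SdA, WarR.SdB, WarR.SdD -/

section

/-!
# Simultaneous Waring decompositions: the exception of plane cubics (helper96)

Two general plane cubics are not linear combinations of the cubes of five linear forms: the six
partial derivatives of two such cubics are linearly dependent.
-/

set_option autoImplicit false

open MvPolynomial Finset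

namespace Pool.Agent.WarN

open Pool.Agent.Waring

/-- exponents of degree two in three variables: `2 e_k` and the sum of the other two `e_l` -/
def b2 (p : Fin 2 × Fin 3) : Fin 3 → ℕ := fun l =>
  if p.1 = 0 then (if l = p.2 then 2 else 0) else (if l = p.2 then 0 else 1)

/-- `b2 p + e_k` -/
noncomputable def b3 (p : Fin 2 × Fin 3) (k : Fin 3) : Fin 3 →₀ ℕ :=
  Finsupp.equivFunOnFinite.symm fun l => b2 p l + if l = k then 1 else 0

lemma sum_b2 (p : Fin 2 × Fin 3) : ∑ l, b2 p l = 2 := by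
  revert p; decide

lemma b3_mem (p : Fin 2 × Fin 3) (k : Fin 3) :
    b3 p k ∈ Finset.finsuppAntidiag (Finset.univ : Finset (Fin (2 + 1))) 3 := by
  rw [mem_Mon]
  have h : ∀ l, b3 p k l = b2 p l + if l = k then 1 else 0 := fun l => rfl
  rw [Finset.sum_congr rfl fun l _ => h l, Finset.sum_add_distrib]
  have := sum_b2 p
  rw [show (∑ l : Fin (2 + 1), b2 p l) = 2 from this]
  simp

lemma mult (p : Fin 2 × Fin 3) (k : Fin 3) :
    (b2 p k + 1) * Nat.multinomial univ (b3 p k) = 3 * Nat.multinomial univ (b2 p) := by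
  have h : (b3 p k : Fin 3 → ℕ) = fun l => b2 p l + if l = k then 1 else 0 := rfl
  rw [h]
  revert p k; decide

theorem not_W_3522 : ¬ W 3 5 2 2 := by
  classical
  intro H
  let M : Matrix (Fin 2 × Fin 3) (Fin 2 × Fin 3) (MvPolynomial (Fin 2 × Mon 2 3) ℂ) :=
    Matrix.of fun q p => C ((b2 p q.2 + 1 : ℕ) : ℂ) * X (q.1, ⟨b3 p q.2, b3_mem p q.2⟩)
  have hM : ∀ w, eval w M.det = (Matrix.of fun q p =>
      ((b2 p q.2 + 1 : ℕ) : ℂ) * w (q.1, ⟨b3 p q.2, b3_mem p q.2⟩) :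
      Matrix (Fin 2 × Fin 3) (Fin 2 × Fin 3) ℂ).det := by
    intro w
    rw [RingHom.map_det]
    congr 1
    ext a b
    simp [M]
  have hM0 : M.det ≠ 0 := by
    intro h0
    -- `x³ + y³ + z³`, `x y z`
    have h3 := hM fun a => if (a.1 = 0 ∧ ∃ k, a.2.1 k = 3) ∨ (a.1 = 1 ∧ ∀ k, a.2.1 k = 1)
      then 1 else 0
    rw [h0, map_zero] at h3
    have h4 : (Matrix.of fun q p => ((b2 p q.2 + 1 : ℕ) : ℂ) *
        (if ((q.1 = 0 ∧ ∃ k, b3 p q.2 k = 3) ∨ (q.1 = 1 ∧ ∀ k, b3 p q.2 k = 1))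
          then (1 : ℂ) else 0) : Matrix (Fin 2 × Fin 3) (Fin 2 × Fin 3) ℂ) =
        Matrix.diagonal fun q => if q.1 = 0 then 3 else 1 := by
      ext q p
      rw [Matrix.of_apply, Matrix.diagonal_apply]
      have hk : ∀ l, b3 p q.2 l = b2 p l + if l = q.2 then 1 else 0 := fun l => rfl
      simp only [hk]
      have key : ∀ q p : Fin 2 × Fin 3, ((q.1 = 0 ∧ ∃ k, (b2 p k + if k = q.2 then 1 else 0) = 3) ∨
        (q.1 = 1 ∧ ∀ k, (b2 p k + if k = q.2 then 1 else 0) = 1)) ↔ q = p := by decide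
      have key2 : ∀ q : Fin 2 × Fin 3, b2 q q.2 + 1 = if q.1 = 0 then 3 else 1 := by decide
      by_cases hqp : q = p
      · rw [if_pos ((key q p).2 hqp), if_pos hqp, ← hqp, key2 q]
        split_ifs <;> simp
      · rw [if_neg (fun h => hqp ((key q p).1 h)), if_neg hqp, mul_zero]
    have h5 : (Matrix.diagonal fun q : Fin 2 × Fin 3 => if q.1 = 0 then (3 : ℂ) else 1).det = 0 := by
      rw [← h4]; exact h3.symm
    rw [Matrix.det_diagonal, Finset.prod_eq_zero_iff] at h5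
    obtain ⟨q, -, hq⟩ := h5
    split_ifs at hq <;> norm_num at hq
  obtain ⟨w, hw, l, c, hlc⟩ := H.exists_rep M.det hM0
  rw [hM] at hw
  let A : Matrix (Fin 2 × Fin 3) (Fin 5) ℂ := Matrix.of fun q i => 3 * c q.1 i * l i q.2
  let B : Matrix (Fin 5) (Fin 2 × Fin 3) ℂ := Matrix.of fun i p =>
    (Nat.multinomial univ (b2 p) : ℂ) * ∏ k, l i k ^ b2 p k
  have hAB : (Matrix.of fun q p =>
      ((b2 p q.2 + 1 : ℕ) : ℂ) * w (q.1, ⟨b3 p q.2, b3_mem p q.2⟩) :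
      Matrix (Fin 2 × Fin 3) (Fin 2 × Fin 3) ℂ) = A * B := by
    ext q p
    rw [Matrix.of_apply, hlc, Matrix.mul_apply, Finset.mul_sum]
    refine Finset.sum_congr rfl fun i _ => ?_
    simp only [A, B, Matrix.of_apply]
    have e1 : ∏ k, l i k ^ (b3 p q.2) k = (∏ k, l i k ^ b2 p k) * l i q.2 := by
      have hk : ∀ k, l i k ^ (b3 p q.2) k = l i k ^ b2 p k * (if k = q.2 then l i k else 1) := by
        intro k
        have : (b3 p q.2) k = b2 p k + if k = q.2 then 1 else 0 := rfl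
        rw [this, pow_add]
        split_ifs <;> simp
      rw [Finset.prod_congr rfl fun k _ => hk k, Finset.prod_mul_distrib]
      congr 1
      rw [Finset.prod_ite_eq' univ q.2]
      simp
    have e2 : ((b2 p q.2 + 1 : ℕ) : ℂ) * (Nat.multinomial univ (b3 p q.2) : ℂ) =
        3 * (Nat.multinomial univ (b2 p) : ℂ) := by
      have := mult p q.2
      exact_mod_cast this
    rw [e1]
    calc _ = c q.1 i * (((b2 p q.2 + 1 : ℕ) : ℂ) * (Nat.multinomial univ (b3 p q.2) : ℂ)) *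
          ((∏ k, l i k ^ b2 p k) * l i q.2) := by ring
      _ = _ := by rw [e2]; ring
  rw [hAB] at hw
  have h5 : IsUnit (A * B) := (Matrix.isUnit_iff_isUnit_det _).2 (isUnit_iff_ne_zero.2 hw)
  have h6 := Matrix.rank_of_isUnit _ h5
  have h7 := (Matrix.rank_mul_le_left A B).trans (Matrix.rank_le_card_width A)
  rw [h6, Fintype.card_prod, Fintype.card_fin, Fintype.card_fin, Fintype.card_fin] at h7
  omega

end Pool.Agent.WarN


end

section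

/-!
# Arbitrary assignments of the stars, checked by the kernel (MP_db021c_ag, degree 2)   (helper42)

`rows`: one list for each group; the entry `i` of the row `j` is the form which gets the star of the point `i` of the
group `j` (the pairs `i < i'`; an entry which is not the number of a form, or the own number `j`, wastes the star).
For the form `k` and the group `j ≠ k` the centres `i < θ` (`θ = thl th j`) are peeled off. `rowU`: number of the points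
of the row from the first centre on, `rowT`: number of the peeled centres, `rowP`: number of the points from the first
centre `≥ θ` on, `rowE`: number of the pairs with centre `≥ θ`, `sA`: number of all pairs. `labCert` checks the rank
conditions of all forms and the value; `lab_kq`: `labCert m b x y r rows th = true → KQ K m b x y r`.
-/

set_option autoImplicit false

open Module

namespace Pool.Agent.WarR

open Pool.Agent.War Chain

/-! ### the theorem with sets -/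

namespace Lab

section

variable {b : ℕ} {r : Fin b → ℕ}

/-- points of the groups different from `k` -/
def sg (y : ℕ) (k : Fin b) (A : ∀ j, Finset (Fin (r j))) : Finset (CI r ⊕ Fin y) :=
  ((Finset.univ.filter fun j => j ≠ k).sigma A).map ⟨Sum.inl, Sum.inl_injective⟩

theorem mem_sg {y : ℕ} {k : Fin b} {A : ∀ j, Finset (Fin (r j))} {u : CI r ⊕ Fin y} :
    u ∈ sg y k A ↔ ∃ (j : Fin b) (i : Fin (r j)), j ≠ k ∧ i ∈ A j ∧ u = Sum.inl ⟨j, i⟩ := by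
  unfold sg
  rw [Finset.mem_map]
  constructor
  · rintro ⟨⟨j, i⟩, h, rfl⟩
    rw [Finset.mem_sigma] at h
    exact ⟨j, i, (Finset.mem_filter.1 h.1).2, h.2, rfl⟩
  · rintro ⟨j, i, hj, hi, rfl⟩
    exact ⟨⟨j, i⟩, Finset.mem_sigma.2 ⟨Finset.mem_filter.2 ⟨Finset.mem_univ _, hj⟩, hi⟩, rfl⟩

theorem mem_sg' {y : ℕ} {k j : Fin b} {A : ∀ j, Finset (Fin (r j))} {i : Fin (r j)} :
    (Sum.inl ⟨j, i⟩ : CI r ⊕ Fin y) ∈ sg y k A ↔ j ≠ k ∧ i ∈ A j := by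
  rw [mem_sg]
  constructor
  · rintro ⟨j', i', hj, hi, h⟩
    have h1 : (⟨j, i⟩ : CI r) = ⟨j', i'⟩ := Sum.inl_injective h
    rw [Sigma.mk.injEq] at h1
    obtain ⟨rfl, h2⟩ := h1
    rw [eq_of_heq h2]
    exact ⟨hj, hi⟩
  · rintro ⟨hj, hi⟩
    exact ⟨j, i, hj, hi, rfl⟩

theorem card_sg {y : ℕ} (k : Fin b) (A : ∀ j, Finset (Fin (r j))) :
    (sg y k A).card = ∑ j ∈ Finset.univ.filter fun j => j ≠ k, (A j).card := by
  unfold sg
  rw [Finset.card_map, Finset.card_sigma]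

/-- the pairs of two points of one group -/
def em2 (y : ℕ) : ((j : Fin b) × (Fin (r j) × Fin (r j))) ↪ (CI r ⊕ Fin y) × (CI r ⊕ Fin y) :=
  ⟨fun p => (Sum.inl ⟨p.1, p.2.1⟩, Sum.inl ⟨p.1, p.2.2⟩), by
    rintro ⟨j, p⟩ ⟨j', q⟩ h
    have h' : ((Sum.inl ⟨j, p.1⟩, Sum.inl ⟨j, p.2⟩) : (CI r ⊕ Fin y) × (CI r ⊕ Fin y)) =
      (Sum.inl ⟨j', q.1⟩, Sum.inl ⟨j', q.2⟩) := h
    rw [Prod.mk.injEq] at h'
    have h1 : (⟨j, p.1⟩ : CI r) = ⟨j', q.1⟩ := Sum.inl_injective h'.1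
    have h2 : (⟨j, p.2⟩ : CI r) = ⟨j', q.2⟩ := Sum.inl_injective h'.2
    rw [Sigma.mk.injEq] at h1 h2
    obtain ⟨rfl, h3⟩ := h1
    rw [Prod.ext (eq_of_heq h3) (eq_of_heq h2.2)]⟩

theorem em2_apply {y : ℕ} (j : Fin b) (p : Fin (r j) × Fin (r j)) :
    em2 y ⟨j, p⟩ = (Sum.inl ⟨j, p.1⟩, Sum.inl ⟨j, p.2⟩) := rfl

/-- the pairs of the form `k` -/
theorem SE_lab {y : ℕ} (lab : CI r → Fin b) (k : Fin b) (u v : CI r ⊕ Fin y) :
    SE cg lab co k u v ↔ ∃ (j : Fin b) (i i' : Fin (r j)), lab ⟨j, i⟩ = k ∧ i < i' ∧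
      u = Sum.inl ⟨j, i⟩ ∧ v = Sum.inl ⟨j, i'⟩ := by
  constructor
  · intro h
    rcases u with ⟨j, i⟩ | l
    · rcases v with ⟨j', i'⟩ | l'
      · obtain ⟨h1, h2, h3⟩ := h
        have h1' : j = j' := h1
        subst h1'
        exact ⟨j, i, i', h3, h2, rfl, rfl⟩
      · exact absurd h id
    · exact absurd h id
  · rintro ⟨j, i, i', hl, hlt, rfl, rfl⟩
    exact ⟨rfl, hlt, hl⟩

/-- the centres -/
def ce (lab : CI r → Fin b) (k j : Fin b) : Finset (Fin (r j)) :=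
  Finset.univ.filter fun i => lab ⟨j, i⟩ = k

theorem mem_ce {lab : CI r → Fin b} {k j : Fin b} {i : Fin (r j)} :
    i ∈ ce lab k j ↔ lab ⟨j, i⟩ = k := by
  simp [ce]

/-- the rank condition for the form `k`, with sets -/
structure OK (lab : CI r → Fin b) (m : ℕ) (k : Fin b) (C V P : ∀ j, Finset (Fin (r j))) : Prop where
  CV : ∀ j, C j ⊆ V j
  PV : ∀ j, P j ⊆ V j
  CP : ∀ j, Disjoint (C j) (P j)
  AV : ∀ j, ce lab k j ⊆ V j
  up : ∀ j, ∀ i ∈ V j, ∀ i', i < i' → i' ∈ V j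
  AP : ∀ j, ∀ i ∈ ce lab k j, i ∉ C j → ∀ i', i ≤ i' → i' ∈ P j
  le : r k + ∑ j ∈ Finset.univ.filter (fun j => j ≠ k), (C j).card ≤ m
  nbr : ∀ j, j ≠ k → C j = ∅ ∨ (V j).card - (C j).card ≤
    m - r k - ∑ j ∈ Finset.univ.filter (fun j => j ≠ k), (C j).card
  cP : ∑ j ∈ Finset.univ.filter (fun j => j ≠ k), (P j).card ≤
    m - r k - ∑ j ∈ Finset.univ.filter (fun j => j ≠ k), (C j).card
  ct : ∑ j ∈ Finset.univ.filter (fun j => j ≠ k), ((V j).card - (C j).card) +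
    ∑ j ∈ Finset.univ.filter (fun j => j ≠ k), cs (ce lab k j \ C j) ≤
    (m - r k - ∑ j ∈ Finset.univ.filter (fun j => j ≠ k), (C j).card + 1).choose 2

theorem card_ep_lab {y : ℕ} (lab : CI r → Fin b) (k : Fin b) :
    ∑ j ∈ Finset.univ.filter (fun j => j ≠ k), cs (ce lab k j) ≤
      (ep (SE cg lab co k) (ST (J := Fin y) (cg (r := r)) k)).card := by
  classical
  have h1 : ((Finset.univ.filter fun j => j ≠ k).sigma fun j => Qp (ce lab k j)).map (em2 y) ⊆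
      ep (SE cg lab co k) (ST (J := Fin y) (cg (r := r)) k) := by
    intro p hp
    obtain ⟨⟨j, q⟩, hq, rfl⟩ := Finset.mem_map.1 hp
    rw [Finset.mem_sigma, mem_Qp] at hq
    obtain ⟨hj, hq1, hq2⟩ := hq
    have hj' : j ≠ k := (Finset.mem_filter.1 hj).2
    have hST : ∀ i : Fin (r j), (Sum.inl ⟨j, i⟩ : CI r ⊕ Fin y) ∈
        ST (J := Fin y) (cg (r := r)) k := by
      intro i
      refine mem_ST.2 ?_
      rintro i' h
      have : i' = ⟨j, i⟩ := (Sum.inl_injective h).symm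
      subst this
      exact hj'
    rw [em2_apply, mem_ep]
    exact ⟨⟨hST _, hST _⟩, (SE_lab lab k _ _).2 ⟨j, q.1, q.2, mem_ce.1 hq1, hq2, rfl, rfl⟩⟩
  have h2 := Finset.card_le_card h1
  rw [Finset.card_map, Finset.card_sigma, Finset.sum_congr rfl fun j _ => card_Qp (ce lab k j)] at h2
  exact h2

theorem OK.gen {K : Type*} [Field K] [CharZero K] {m y : ℕ} {lab : CI r → Fin b} {k : Fin b}
    {C V P : ∀ j, Finset (Fin (r j))} (h : OK lab m k C V P) :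
    Gen K fun q : (CI r → Fin m → K) × (Fin y → Fin m → K) =>
      finrank K (SD q.1 q.2 cg lab co k) ≤ (m + 1 - r k).choose 2 -
        ((∑ j, r j - r k) + y + ∑ j ∈ Finset.univ.filter (fun j => j ≠ k), cs (ce lab k j)) := by
  classical
  have : Infinite K := CharZero.infinite K
  have hE := SE_asy (J := Fin y) (cg (r := r)) lab co k
  have hle := h.le
  set t := ∑ j ∈ Finset.univ.filter (fun j => j ≠ k), (C j).card with ht
  obtain ⟨m', hm'⟩ : ∃ m', m = m' + r k := ⟨m - r k, by omega⟩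
  obtain ⟨m₀, hm₀⟩ : ∃ m₀, m' = m₀ + t := ⟨m' - t, by omega⟩
  have hm1 : m - r k - t = m₀ := by omega
  have hnb := h.nbr
  have hcP := h.cP
  have hct := h.ct
  rw [← ht, hm1] at hnb hcP hct
  set Cs := sg y k C with hCs
  set Ps := sg y k P with hPs
  set Ls := sg y k (fun j => V j \ C j) with hLs
  have cC : Cs.card = t := card_sg k C
  have cP : Ps.card = ∑ j ∈ Finset.univ.filter (fun j => j ≠ k), (P j).card := card_sg k P
  have hPL : Ps ∪ Ls = Ls := by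
    rw [Finset.union_eq_right]
    intro u hu
    obtain ⟨j, i, hj, hi, rfl⟩ := mem_sg.1 hu
    exact mem_sg'.2 ⟨hj, Finset.mem_sdiff.2 ⟨h.PV j hi,
      fun hc => Finset.disjoint_left.1 (h.CP j) hc hi⟩⟩
  have cL : Ls.card = ∑ j ∈ Finset.univ.filter (fun j => j ≠ k), ((V j).card - (C j).card) := by
    rw [hLs, card_sg]
    refine Finset.sum_congr rfl fun j _ => ?_
    rw [Finset.card_sdiff_of_subset (h.CV j)]
  have hdis : Disjoint Cs (Ps ∪ Ls) := by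
    rw [hPL, Finset.disjoint_left]
    intro u hu hv
    obtain ⟨j, i, hj, hi, rfl⟩ := mem_sg.1 hu
    exact (Finset.mem_sdiff.1 (mem_sg'.1 hv).2).2 hi
  have hedge : ∀ u ∈ Ls, ∀ v ∈ Ls, SE cg lab co k u v → ∃ (j : Fin b) (i i' : Fin (r j)),
      j ≠ k ∧ i ∈ ce lab k j ∧ i ∉ C j ∧ i < i' ∧ u = Sum.inl ⟨j, i⟩ ∧ v = Sum.inl ⟨j, i'⟩ := by
    intro u hu v _ e
    obtain ⟨j, i, i', hl, hlt, rfl, rfl⟩ := (SE_lab lab k u v).1 e
    obtain ⟨hj, hi⟩ := mem_sg'.1 hu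
    exact ⟨j, i, i', hj, mem_ce.2 hl, (Finset.mem_sdiff.1 hi).2, hlt, rfl, rfl⟩
  have hInd : Ind K (m₀ + Cs.card) (SE cg lab co k) (Cs ∪ (Ps ∪ Ls)) := by
    refine Ind.note hE hdis ?_ (by rw [cP]; exact hcP) ?_ ?_
    · intro c hc
      obtain ⟨j, i, hj, hi, rfl⟩ := mem_sg.1 hc
      have h5 : nb (SE cg lab co k) (Ps ∪ Ls) (Sum.inl ⟨j, i⟩) ⊆ gi j (V j \ C j) := by
        intro u hu
        obtain ⟨hu1, hu2⟩ := mem_nb.1 hu
        rw [hPL] at hu1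
        obtain ⟨j', i', hj', hi', rfl⟩ := mem_sg.1 hu1
        have hjj : j' = j := by
          rcases hu2 with e | e
          · obtain ⟨a, a1, a2, _, _, e1, e2⟩ := (SE_lab lab k _ _).1 e
            have e3 : (⟨j, i⟩ : CI r) = ⟨a, a1⟩ := Sum.inl_injective e1
            have e4 : (⟨j', i'⟩ : CI r) = ⟨a, a2⟩ := Sum.inl_injective e2
            rw [Sigma.mk.injEq] at e3 e4
            rw [e3.1, e4.1]
          · obtain ⟨a, a1, a2, _, _, e1, e2⟩ := (SE_lab lab k _ _).1 e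
            have e3 : (⟨j', i'⟩ : CI r) = ⟨a, a1⟩ := Sum.inl_injective e1
            have e4 : (⟨j, i⟩ : CI r) = ⟨a, a2⟩ := Sum.inl_injective e2
            rw [Sigma.mk.injEq] at e3 e4
            rw [e3.1, e4.1]
        subst hjj
        exact mem_gi'.2 hi'
      refine (Finset.card_le_card h5).trans ?_
      rw [card_gi, Finset.card_sdiff_of_subset (h.CV j)]
      rcases hnb j hj with h6 | h6
      · rw [h6] at hi
        exact absurd hi (Finset.notMem_empty _)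
      · exact h6
    · intro u hu v hv e
      rw [hPL] at hu hv
      obtain ⟨j, i, i', hj, hi, hiC, hlt, rfl, rfl⟩ := hedge u hu v hv e
      exact ⟨mem_sg'.2 ⟨hj, h.AP j i hi hiC i le_rfl⟩, mem_sg'.2 ⟨hj, h.AP j i hi hiC i' hlt.le⟩⟩
    · rw [hPL]
      have h5 : ep (SE cg lab co k) Ls ⊆
          ((Finset.univ.filter fun j => j ≠ k).sigma fun j => Qp (ce lab k j \ C j)).map
            (em2 y) := by
        intro p hp
        obtain ⟨⟨hp1, hp2⟩, hp3⟩ := mem_ep.1 hp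
        obtain ⟨j, i, i', hj, hi, hiC, hlt, e1, e2⟩ := hedge _ hp1 _ hp2 hp3
        refine Finset.mem_map.2 ⟨⟨j, (i, i')⟩, Finset.mem_sigma.2
          ⟨Finset.mem_filter.2 ⟨Finset.mem_univ _, hj⟩,
            mem_Qp.2 ⟨Finset.mem_sdiff.2 ⟨hi, hiC⟩, hlt⟩⟩, ?_⟩
        rw [em2_apply]
        exact Prod.ext e1.symm e2.symm
      have h6 := Finset.card_le_card h5
      rw [Finset.card_map, Finset.card_sigma,
        Finset.sum_congr rfl fun j _ => card_Qp (ce lab k j \ C j)] at h6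
      rw [cL]
      omega
  rw [cC, ← hm₀, hPL] at hInd
  have hsub : Cs ∪ Ls ⊆ ST cg k := by
    intro u hu
    have h7 : ∃ (j : Fin b) (i : Fin (r j)), j ≠ k ∧ u = Sum.inl ⟨j, i⟩ := by
      rcases Finset.mem_union.1 hu with hu | hu
      · obtain ⟨j, i, hj, _, rfl⟩ := mem_sg.1 hu
        exact ⟨j, i, hj, rfl⟩
      · obtain ⟨j, i, hj, _, rfl⟩ := mem_sg.1 hu
        exact ⟨j, i, hj, rfl⟩
    obtain ⟨j, i, hj, rfl⟩ := h7
    refine mem_ST.2 ?_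
    rintro i' h8
    have : i' = ⟨j, i⟩ := (Sum.inl_injective h8).symm
    subst this
    exact hj
  refine (SD_gen (m := m') (M := m) cg lab co k ?_ (Cs ∪ Ls) hsub ?_ hInd).mono fun q hq =>
    hq.trans ?_
  · rw [card_group]
    exact hm'
  · rintro ⟨j, i⟩ ⟨j', i'⟩ hj hjj hlt hl
    have hjj' : j = j' := hjj
    subst hjj'
    have hj' : j ≠ k := hj
    have hlt' : i < i' := hlt
    have hV : ∀ a ∈ V j, (Sum.inl ⟨j, a⟩ : CI r ⊕ Fin y) ∈ Cs ∪ Ls := by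
      intro a ha
      by_cases haC : a ∈ C j
      · exact Finset.mem_union_left _ (mem_sg'.2 ⟨hj', haC⟩)
      · exact Finset.mem_union_right _ (mem_sg'.2 ⟨hj', Finset.mem_sdiff.2 ⟨ha, haC⟩⟩)
    have hi : i ∈ V j := h.AV j (mem_ce.2 hl)
    exact ⟨hV i hi, hV i' (h.up j i hi i' hlt')⟩
  · have h1 := card_ST (r := r) (y := y) k
    have h2 := card_ep_lab (y := y) lab k
    have h3 : m + 1 - r k = m' + 1 := by omega
    have h4 : r k ≤ ∑ j, r j := Finset.single_le_sum (fun _ _ => Nat.zero_le _)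
      (Finset.mem_univ k)
    rw [h3]
    apply Nat.sub_le_sub_left
    omega

/-- **Arbitrary assignments**, with sets. -/
theorem sets {K : Type*} [Field K] [CharZero K] {m y : ℕ} (lab : CI r → Fin b)
    (C V P : ∀ _ j : Fin b, Finset (Fin (r j))) (h : ∀ k, OK lab m k (C k) (V k) (P k)) :
    KQ K m b (∑ k, r k) y (∑ k, ((m + 1 - r k).choose 2 -
      ((∑ j, r j - r k) + y + ∑ j ∈ Finset.univ.filter (fun j => j ≠ k), cs (ce lab k j)))) := by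
  have : Infinite K := CharZero.infinite K
  obtain ⟨q, hq⟩ := (Gen.forall fun k => (h k).gen (K := K) (y := y)).exists
  have hst := star q.1 q.2 cg lab co _ hq
  have e1 : Fintype.card (CI r) = ∑ k, r k := by
    rw [Fintype.card_sigma]
    simp
  rw [e1, Fintype.card_fin] at hst
  exact hst

end

end Lab

/-! ### lists -/

/-- number of the pairs with centre labelled `k` -/
def sA (k : ℕ) : List ℕ → ℕ
  | [] => 0
  | a :: l => (if a = k then l.length else 0) + sA k l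

/-- number of the points from the first centre on -/
def rowU (k : ℕ) (l : List ℕ) : ℕ := (l.dropWhile fun a => a != k).length

/-- number of the centres before `θ` -/
def rowT (k θ : ℕ) (l : List ℕ) : ℕ := (l.take θ).count k

/-- number of the points from the first centre after `θ` on -/
def rowP (k θ : ℕ) (l : List ℕ) : ℕ := rowU k (l.drop θ)

/-- number of the pairs with centre after `θ` -/
def rowE (k θ : ℕ) (l : List ℕ) : ℕ := sA k (l.drop θ)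

namespace Lab

theorem rowU_nil (k : ℕ) : rowU k [] = 0 := rfl

theorem rowU_cons (k a : ℕ) (l : List ℕ) :
    rowU k (a :: l) = if a = k then l.length + 1 else rowU k l := by
  unfold rowU
  rw [List.dropWhile_cons]
  by_cases h : a = k
  · simp [h]
  · simp [h]

theorem rowU_le (k : ℕ) (l : List ℕ) : rowU k l ≤ l.length := by
  induction l with
  | nil => simp [rowU_nil]
  | cons a l ih =>
    rw [rowU_cons, List.length_cons]
    split_ifs <;> omega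

theorem le_of_get {k : ℕ} (l : List ℕ) : ∀ i : ℕ, l[i]? = some k → l.length - rowU k l ≤ i := by
  induction l with
  | nil => intro i h; simp at h
  | cons a l ih =>
    intro i h
    rw [rowU_cons, List.length_cons]
    by_cases ha : a = k
    · rw [if_pos ha]; omega
    · rw [if_neg ha]
      rcases i with _ | i
      · simp at h
        exact absurd h ha
      · rw [List.getElem?_cons_succ] at h
        have := ih i h
        omega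

theorem rowU_drop_le (k : ℕ) (l : List ℕ) : ∀ θ, rowU k (l.drop θ) ≤ rowU k l := by
  induction l with
  | nil => intro θ; simp
  | cons a l ih =>
    intro θ
    rcases θ with _ | θ
    · simp
    · rw [List.drop_succ_cons, rowU_cons]
      by_cases ha : a = k
      · rw [if_pos ha]
        have h1 := rowU_le k (l.drop θ)
        rw [List.length_drop] at h1
        omega
      · rw [if_neg ha]
        exact ih θ

theorem rowP_le (k θ : ℕ) (l : List ℕ) : rowP k θ l ≤ l.length - θ := by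
  have h1 := rowU_le k (l.drop θ)
  rw [List.length_drop] at h1
  exact h1

theorem le_of_get' {k θ : ℕ} (l : List ℕ) (i : ℕ) (h : l[i]? = some k) (hi : θ ≤ i) :
    l.length - rowP k θ l ≤ i := by
  have h1 : (l.drop θ)[i - θ]? = some k := by
    rw [List.getElem?_drop]
    have : θ + (i - θ) = i := by omega
    rw [this, h]
  have h2 := le_of_get _ _ h1
  rw [List.length_drop] at h2
  unfold rowP
  omega

theorem sum_T (k : ℕ) (l : List ℕ) : ∀ θ : ℕ, ∑ i ∈ Finset.range l.length,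
    (if l[i]? = some k ∧ i < θ then 1 else 0) = rowT k θ l := by
  induction l with
  | nil => intro θ; simp [rowT]
  | cons a l ih =>
    intro θ
    rw [List.length_cons, Finset.sum_range_succ']
    rcases θ with _ | θ
    · simp [rowT]
    · have h1 := ih θ
      have h2 : ∀ i ∈ Finset.range l.length, (if (a :: l)[i + 1]? = some k ∧ i + 1 < θ + 1 then 1
          else 0) = if l[i]? = some k ∧ i < θ then 1 else 0 := by
        intro i _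
        rw [List.getElem?_cons_succ]
        congr 1
        simp
      rw [Finset.sum_congr rfl h2, h1]
      unfold rowT
      rw [List.take_succ_cons, List.count_cons]
      simp only [List.getElem?_cons_zero, Option.some.injEq, Nat.zero_lt_succ, and_true,
        beq_iff_eq]

theorem sum_S (k : ℕ) (l : List ℕ) : ∀ θ : ℕ, ∑ i ∈ Finset.range l.length,
    (if l[i]? = some k ∧ θ ≤ i then l.length - 1 - i else 0) = sA k (l.drop θ) := by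
  induction l with
  | nil => intro θ; simp [sA]
  | cons a l ih =>
    intro θ
    rw [List.length_cons, Finset.sum_range_succ']
    rcases θ with _ | θ
    · have h1 := ih 0
      have h2 : ∀ i ∈ Finset.range l.length, (if (a :: l)[i + 1]? = some k ∧ 0 ≤ i + 1 then
          l.length + 1 - 1 - (i + 1) else 0) =
          if l[i]? = some k ∧ 0 ≤ i then l.length - 1 - i else 0 := by
        intro i _
        rw [List.getElem?_cons_succ]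
        have e1 : l.length + 1 - 1 - (i + 1) = l.length - 1 - i := by omega
        rw [e1]
        simp
      rw [Finset.sum_congr rfl h2, h1]
      simp only [List.drop_zero, sA, List.getElem?_cons_zero, Option.some.injEq, le_refl, and_true]
      split_ifs <;> omega
    · have h1 := ih θ
      have h2 : ∀ i ∈ Finset.range l.length, (if (a :: l)[i + 1]? = some k ∧ θ + 1 ≤ i + 1 then
          l.length + 1 - 1 - (i + 1) else 0) =
          if l[i]? = some k ∧ θ ≤ i then l.length - 1 - i else 0 := by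
        intro i _
        rw [List.getElem?_cons_succ]
        have e1 : l.length + 1 - 1 - (i + 1) = l.length - 1 - i := by omega
        rw [e1]
        congr 1
        simp
      rw [Finset.sum_congr rfl h2, h1, List.drop_succ_cons]
      simp

section

variable {b : ℕ} (R : Fin b → List ℕ)

/-- the label of a point -/
def lb (p : CI fun j => (R j).length) : Fin b :=
  if h : (R p.1)[(p.2 : ℕ)] < b then ⟨(R p.1)[(p.2 : ℕ)], h⟩ else p.1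

theorem lb_eq {j k : Fin b} (hj : j ≠ k) (i : Fin (R j).length) :
    lb R ⟨j, i⟩ = k ↔ (R j)[(i : ℕ)]? = some (k : ℕ) := by
  rw [List.getElem?_eq_getElem i.2, Option.some.injEq]
  unfold lb
  simp only
  split_ifs with h
  · rw [Fin.ext_iff]
  · constructor
    · intro e
      exact absurd e hj
    · intro e
      exact absurd (e ▸ k.2) h

theorem card_range {r : ℕ} (p : ℕ → Prop) [DecidablePred p] :
    (Finset.univ.filter fun i : Fin r => p (i : ℕ)).card =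
      ∑ i ∈ Finset.range r, if p i then 1 else 0 := by
  rw [Finset.card_filter, Fin.sum_univ_eq_sum_range (fun i => if p i then 1 else 0) r]

theorem cs_range {r : ℕ} (p : ℕ → Prop) [DecidablePred p] :
    cs (Finset.univ.filter fun i : Fin r => p (i : ℕ)) =
      ∑ i ∈ Finset.range r, if p i then r - 1 - i else 0 := by
  unfold cs
  rw [Finset.sum_filter, Fin.sum_univ_eq_sum_range (fun i => if p i then r - 1 - i else 0) r]

theorem card_ge {r a : ℕ} (h : a ≤ r) :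
    (Finset.univ.filter fun i : Fin r => r - a ≤ (i : ℕ)).card = a := by
  have h5 : (Finset.univ.filter fun i : Fin r => r - a ≤ (i : ℕ)).map
      Fin.valEmbedding = Finset.Ico (r - a) r := by
    ext c
    simp only [Finset.mem_map, Finset.mem_filter, Finset.mem_univ, true_and,
      Fin.valEmbedding_apply, Finset.mem_Ico]
    constructor
    · rintro ⟨i, hi, rfl⟩
      exact ⟨hi, i.2⟩
    · rintro ⟨ha, hb'⟩
      exact ⟨⟨c, hb'⟩, ha, rfl⟩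
  rw [← Finset.card_map Fin.valEmbedding, h5, Nat.card_Ico]
  omega

/-- sum over the other groups -/
theorem fn {K : Type*} [Field K] [CharZero K] {m y : ℕ} (θ : Fin b → Fin b → ℕ)
    (h1 : ∀ k : Fin b, (R k).length + ∑ j ∈ Finset.univ.filter (fun j => j ≠ k),
      rowT k (θ k j) (R j) ≤ m)
    (h2 : ∀ k j : Fin b, j ≠ k → rowT k (θ k j) (R j) = 0 ∨ rowU k (R j) - rowT k (θ k j) (R j) ≤
      m - (R k).length - ∑ j ∈ Finset.univ.filter (fun j => j ≠ k), rowT k (θ k j) (R j))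
    (h3 : ∀ k : Fin b, ∑ j ∈ Finset.univ.filter (fun j => j ≠ k), rowP k (θ k j) (R j) ≤
      m - (R k).length - ∑ j ∈ Finset.univ.filter (fun j => j ≠ k), rowT k (θ k j) (R j))
    (h4 : ∀ k : Fin b, ∑ j ∈ Finset.univ.filter (fun j => j ≠ k),
        (rowU k (R j) - rowT k (θ k j) (R j)) +
      ∑ j ∈ Finset.univ.filter (fun j => j ≠ k), rowE k (θ k j) (R j) ≤
      (m - (R k).length - ∑ j ∈ Finset.univ.filter (fun j => j ≠ k),
        rowT k (θ k j) (R j) + 1).choose 2) :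
    KQ K m b (∑ k, (R k).length) y (∑ k : Fin b, ((m + 1 - (R k).length).choose 2 -
      ((∑ j, (R j).length - (R k).length) + y +
        ∑ j ∈ Finset.univ.filter (fun j => j ≠ k), sA k (R j)))) := by
  classical
  let C : ∀ _ j : Fin b, Finset (Fin (R j).length) := fun k j => if j = k then ∅ else
    Finset.univ.filter fun i : Fin (R j).length => (R j)[(i : ℕ)]? = some (k : ℕ) ∧ (i : ℕ) < θ k j
  let V : ∀ _ j : Fin b, Finset (Fin (R j).length) := fun k j => if j = k then Finset.univ else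
    Finset.univ.filter fun i : Fin (R j).length => (R j).length - rowU k (R j) ≤ (i : ℕ)
  let P : ∀ _ j : Fin b, Finset (Fin (R j).length) := fun k j => if j = k then Finset.univ else
    Finset.univ.filter fun i : Fin (R j).length => (R j).length - rowP k (θ k j) (R j) ≤ (i : ℕ)
  have hC : ∀ k j, j ≠ k → C k j = Finset.univ.filter fun i : Fin (R j).length =>
      (R j)[(i : ℕ)]? = some (k : ℕ) ∧ (i : ℕ) < θ k j := fun k j hj => if_neg hj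
  have hV : ∀ k j, j ≠ k → V k j = Finset.univ.filter fun i : Fin (R j).length =>
      (R j).length - rowU k (R j) ≤ (i : ℕ) := fun k j hj => if_neg hj
  have hP : ∀ k j, j ≠ k → P k j = Finset.univ.filter fun i : Fin (R j).length =>
      (R j).length - rowP k (θ k j) (R j) ≤ (i : ℕ) := fun k j hj => if_neg hj
  have cC : ∀ k j, j ≠ k → (C k j).card = rowT k (θ k j) (R j) := by
    intro k j hj
    rw [hC k j hj]
    have := card_range (r := (R j).length)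
      (fun i => (R j)[i]? = some (k : ℕ) ∧ i < θ k j)
    rw [this, sum_T]
  have cV : ∀ k j, j ≠ k → (V k j).card = rowU k (R j) := by
    intro k j hj
    rw [hV k j hj, card_ge (rowU_le _ _)]
  have cP : ∀ k j, j ≠ k → (P k j).card = rowP k (θ k j) (R j) := by
    intro k j hj
    rw [hP k j hj, card_ge ((rowP_le _ _ _).trans (Nat.sub_le _ _))]
  have cA : ∀ k j, j ≠ k → cs (ce (lb R) k j) = sA k (R j) := by
    intro k j hj
    have e1 : ce (lb R) k j = Finset.univ.filter fun i : Fin (R j).length =>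
        (R j)[(i : ℕ)]? = some (k : ℕ) ∧ 0 ≤ (i : ℕ) := by
      ext i
      rw [mem_ce, lb_eq R hj, Finset.mem_filter]
      simp
    rw [e1]
    have := cs_range (r := (R j).length) (fun i => (R j)[i]? = some (k : ℕ) ∧ 0 ≤ i)
    rw [this, sum_S, List.drop_zero]
  have cE : ∀ k j, j ≠ k → cs (ce (lb R) k j \ C k j) = rowE k (θ k j) (R j) := by
    intro k j hj
    have e1 : ce (lb R) k j \ C k j = Finset.univ.filter fun i : Fin (R j).length =>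
        (R j)[(i : ℕ)]? = some (k : ℕ) ∧ θ k j ≤ (i : ℕ) := by
      ext i
      rw [Finset.mem_sdiff, mem_ce, lb_eq R hj, hC k j hj, Finset.mem_filter, Finset.mem_filter]
      constructor
      · rintro ⟨a1, a2⟩
        refine ⟨Finset.mem_univ _, a1, ?_⟩
        by_contra hc
        exact a2 ⟨Finset.mem_univ _, a1, not_le.1 hc⟩
      · rintro ⟨_, a1, a2⟩
        exact ⟨a1, fun a3 => absurd a3.2.2 (not_lt.2 a2)⟩
    rw [e1]
    have := cs_range (r := (R j).length) (fun i => (R j)[i]? = some (k : ℕ) ∧ θ k j ≤ i)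
    rw [this, sum_S]
    rfl
  have hsum : ∀ (k : Fin b) (f g : Fin b → ℕ), (∀ j, j ≠ k → f j = g j) →
      ∑ j ∈ Finset.univ.filter (fun j => j ≠ k), f j =
      ∑ j ∈ Finset.univ.filter (fun j => j ≠ k), g j := by
    intro k f g hfg
    exact Finset.sum_congr rfl fun j hj => hfg j (Finset.mem_filter.1 hj).2
  have key := sets (K := K) (m := m) (y := y) (lb R) C V P (by
    intro k
    refine ⟨fun j => ?_, fun j => ?_, fun j => ?_, fun j => ?_, fun j i hi i' hlt => ?_,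
      fun j i hi hiC i' hle => ?_, ?_, fun j hj => ?_, ?_, ?_⟩
    · by_cases hj : j = k
      · subst hj; simp [C]
      · rw [hC k j hj, hV k j hj]
        intro i hi
        rw [Finset.mem_filter] at hi ⊢
        exact ⟨Finset.mem_univ _, le_of_get _ _ hi.2.1⟩
    · by_cases hj : j = k
      · subst hj; simp [V]
      · rw [hP k j hj, hV k j hj]
        intro i hi
        rw [Finset.mem_filter] at hi ⊢
        have := rowU_drop_le k (R j) (θ k j)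
        have h5 : rowP k (θ k j) (R j) = rowU k ((R j).drop (θ k j)) := rfl
        exact ⟨Finset.mem_univ _, by omega⟩
    · by_cases hj : j = k
      · subst hj; simp [C]
      · rw [hC k j hj, hP k j hj, Finset.disjoint_left]
        intro i hi hi'
        rw [Finset.mem_filter] at hi hi'
        have h5 := rowP_le k (θ k j) (R j)
        have h6 := i.2
        have h7 := hi.2.2
        have h8 := hi'.2
        omega
    · by_cases hj : j = k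
      · subst hj; simp [V]
      · intro i hi
        rw [mem_ce, lb_eq R hj] at hi
        rw [hV k j hj, Finset.mem_filter]
        exact ⟨Finset.mem_univ _, le_of_get _ _ hi⟩
    · by_cases hj : j = k
      · subst hj; simp [V]
      · rw [hV k j hj, Finset.mem_filter] at hi ⊢
        have h5 : (i : ℕ) < i' := hlt
        exact ⟨Finset.mem_univ _, by omega⟩
    · by_cases hj : j = k
      · subst hj; simp [P]
      · rw [mem_ce, lb_eq R hj] at hi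
        rw [hC k j hj, Finset.mem_filter] at hiC
        rw [hP k j hj, Finset.mem_filter]
        have h5 : θ k j ≤ (i : ℕ) := by
          by_contra hc
          exact hiC ⟨Finset.mem_univ _, hi, not_le.1 hc⟩
        have h6 : (i : ℕ) ≤ i' := hle
        exact ⟨Finset.mem_univ _, (le_of_get' _ _ hi h5).trans h6⟩
    · rw [hsum k _ _ (cC k)]
      exact h1 k
    · rw [hsum k _ _ (cC k), cV k j hj, cC k j hj]
      rcases h2 k j hj with h5 | h5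
      · left
        rw [← Finset.card_eq_zero, cC k j hj]
        exact h5
      · exact Or.inr h5
    · rw [hsum k _ _ (cC k), hsum k _ _ (cP k)]
      exact h3 k
    · rw [hsum k _ _ (cC k), hsum k _ _ (cE k),
        hsum k (fun j => (V k j).card - (C k j).card)
          (fun j => rowU k (R j) - rowT k (θ k j) (R j)) (fun j hj => by rw [cV k j hj, cC k j hj])]
      exact h4 k)
  have e2 : ∀ k : Fin b, ∑ j ∈ Finset.univ.filter (fun j => j ≠ k), cs (ce (lb R) k j) =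
      ∑ j ∈ Finset.univ.filter (fun j => j ≠ k), sA k (R j) := fun k => hsum k _ _ (cA k)
  simp only [e2] at key
  exact key

end

end Lab

/-- sum over the rows with their numbers -/
def sumR (g : ℕ → List ℕ → ℕ) : ℕ → List (List ℕ) → ℕ
  | _, [] => 0
  | j, l :: rows => g j l + sumR g (j + 1) rows

/-- all rows -/
def allR (g : ℕ → List ℕ → Bool) : ℕ → List (List ℕ) → Bool
  | _, [] => true
  | j, l :: rows => g j l && allR g (j + 1) rows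

/-- the threshold of the row `j` -/
def thl : List (ℕ × ℕ) → ℕ → ℕ
  | [], _ => 0
  | (a, θ) :: l, j => if a = j then θ else thl l j

/-- rank condition for the form `k` of a group of `rk` points -/
def formOK (m : ℕ) (rows : List (List ℕ)) (k rk : ℕ) (tk : List (ℕ × ℕ)) : Bool :=
  let T := sumR (fun j l => if j = k then 0 else rowT k (thl tk j) l) 0 rows
  let M := m - rk - T
  decide (rk + T ≤ m) &&
  (allR (fun j l => decide (j = k) || (decide (rowT k (thl tk j) l = 0) ||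
    decide (rowU k l - rowT k (thl tk j) l ≤ M))) 0 rows &&
  (decide (sumR (fun j l => if j = k then 0 else rowP k (thl tk j) l) 0 rows ≤ M) &&
  decide (sumR (fun j l => if j = k then 0 else rowU k l - rowT k (thl tk j) l) 0 rows +
    sumR (fun j l => if j = k then 0 else rowE k (thl tk j) l) 0 rows ≤ (M + 1) * M / 2)))

/-- the bound for the dimension of the kernel -/
def labVal (m x y : ℕ) (rows : List (List ℕ)) : ℕ :=
  sumR (fun k l => (m + 1 - l.length) * (m - l.length) / 2 - ((x - l.length) + y +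
    sumR (fun j l' => if j = k then 0 else sA k l') 0 rows)) 0 rows

/-- the certificate -/
def labCert (m b x y r : ℕ) (rows : List (List ℕ)) (th : List (List (ℕ × ℕ))) : Bool :=
  decide (rows.length = b) && (decide (sumR (fun _ l => l.length) 0 rows = x) &&
  (allR (fun k l => formOK m rows k l.length (th.getD k [])) 0 rows &&
  decide (labVal m x y rows ≤ r)))

namespace Lab

theorem sumR_eq (g : ℕ → List ℕ → ℕ) (rows : List (List ℕ)) : ∀ j₀ : ℕ,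
    sumR g j₀ rows = ∑ i : Fin rows.length, g (j₀ + i) rows[(i : ℕ)] := by
  induction rows with
  | nil => intro j₀; simp [sumR]
  | cons l rows ih =>
    intro j₀
    rw [sumR, ih]
    simp only [List.length_cons]
    rw [Fin.sum_univ_succ]
    simp only [Fin.val_zero, add_zero, List.getElem_cons_zero, Fin.val_succ,
      List.getElem_cons_succ]
    congr 1
    refine Finset.sum_congr rfl fun i _ => ?_
    rw [show j₀ + 1 + (i : ℕ) = j₀ + ((i : ℕ) + 1) by ring]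

theorem allR_iff (g : ℕ → List ℕ → Bool) (rows : List (List ℕ)) : ∀ j₀ : ℕ,
    allR g j₀ rows = true → ∀ i : Fin rows.length, g (j₀ + i) rows[(i : ℕ)] = true := by
  induction rows with
  | nil => intro j₀ _ i; exact i.elim0
  | cons l rows ih =>
    intro j₀ h i
    rw [allR, Bool.and_eq_true] at h
    refine Fin.cases ?_ (fun i => ?_) i
    · simpa using h.1
    · have := ih (j₀ + 1) h.2 i
      simp only [Fin.val_succ, List.getElem_cons_succ]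
      rw [show j₀ + 1 + (i : ℕ) = j₀ + ((i : ℕ) + 1) by ring] at this
      exact this

theorem sumR_other (g : ℕ → List ℕ → ℕ) (rows : List (List ℕ)) (k : Fin rows.length) :
    sumR (fun j l => if j = (k : ℕ) then 0 else g j l) 0 rows =
      ∑ j ∈ Finset.univ.filter (fun j : Fin rows.length => j ≠ k), g j rows[(j : ℕ)] := by
  rw [sumR_eq, Finset.sum_filter]
  refine Finset.sum_congr rfl fun j _ => ?_
  rw [zero_add]
  by_cases h : j = k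
  · subst h
    simp
  · have h' : (j : ℕ) ≠ k := fun e => h (Fin.ext e)
    rw [if_neg h', if_pos h]

end Lab

theorem KQ.weaken {K : Type*} [Field K] {m b x s r r' : ℕ} (h : KQ K m b x s r) (hr : r ≤ r') :
    KQ K m b x s r' := by
  obtain ⟨c, hc⟩ := h
  exact ⟨c, hc.trans hr⟩

/-- **Arbitrary assignments**, checked by the kernel. -/
theorem lab_kq {K : Type*} [Field K] [CharZero K] {m b x y r : ℕ} (rows : List (List ℕ))
    (th : List (List (ℕ × ℕ))) (h : labCert m b x y r rows th = true) : KQ K m b x y r := by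
  unfold labCert at h
  simp only [Bool.and_eq_true, decide_eq_true_eq] at h
  obtain ⟨hb, hx, hf, hv⟩ := h
  subst hb
  have hx' : ∑ k : Fin rows.length, (rows[(k : ℕ)]).length = x := by
    rw [← hx, Lab.sumR_eq]
  have hform := Lab.allR_iff _ _ _ hf
  have ht : ∀ k : Fin rows.length, formOK m rows k (rows[(k : ℕ)]).length (th.getD k []) = true := by
    intro k
    have := hform k
    rwa [zero_add] at this
  let θ : Fin rows.length → Fin rows.length → ℕ := fun k j => thl (th.getD k []) j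
  have hT : ∀ k : Fin rows.length,
      sumR (fun j l => if j = (k : ℕ) then 0 else rowT k (thl (th.getD k []) j) l) 0 rows =
      ∑ j ∈ Finset.univ.filter (fun j : Fin rows.length => j ≠ k),
        rowT k (θ k j) rows[(j : ℕ)] := fun k =>
    Lab.sumR_other (fun j l => rowT k (thl (th.getD k []) j) l) rows k
  have key := Lab.fn (K := K) (m := m) (y := y) (fun j : Fin rows.length => rows[(j : ℕ)]) θ
    (by
      intro k
      have := ht k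
      unfold formOK at this
      simp only [Bool.and_eq_true, decide_eq_true_eq] at this
      rw [hT k] at this
      exact this.1)
    (by
      intro k j hj
      have := ht k
      unfold formOK at this
      simp only [Bool.and_eq_true, decide_eq_true_eq] at this
      rw [hT k] at this
      have h2 := Lab.allR_iff _ _ _ this.2.1 j
      simp only [Bool.or_eq_true, decide_eq_true_eq, zero_add] at h2
      rcases h2 with h3 | h3 | h3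
      · exact absurd (Fin.ext h3) hj
      · exact Or.inl h3
      · exact Or.inr h3)
    (by
      intro k
      have := ht k
      unfold formOK at this
      simp only [Bool.and_eq_true, decide_eq_true_eq] at this
      rw [hT k, Lab.sumR_other (fun j l => rowP k (thl (th.getD k []) j) l) rows k] at this
      exact this.2.2.1)
    (by
      intro k
      have := ht k
      unfold formOK at this
      simp only [Bool.and_eq_true, decide_eq_true_eq] at this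
      rw [hT k, Lab.sumR_other (fun j l => rowU k l - rowT k (thl (th.getD k []) j) l) rows k,
        Lab.sumR_other (fun j l => rowE k (thl (th.getD k []) j) l) rows k] at this
      rw [Nat.choose_two_right, Nat.add_sub_cancel]
      exact this.2.2.2)
  rw [hx'] at key
  refine key.weaken (le_trans (le_of_eq ?_) hv)
  unfold labVal
  rw [Lab.sumR_eq]
  refine Finset.sum_congr rfl fun k _ => ?_
  rw [zero_add, Lab.sumR_other (fun _ l' => sA k l') rows k, Nat.choose_two_right]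
  congr 3
  omega

end Pool.Agent.WarR


end

section

/-!
# Small windows of degree 2 (MP_db021c_ag), n = 5 ... 14: explicit assignments of the stars   (helper42)

`sd_n_b_x_y : KQ K (n+1) b x y r`, found by annealing, checked by the kernel through `lab_kq`.
-/

set_option autoImplicit false

namespace Pool.Agent.WarR

variable (K : Type*) [Field K] [CharZero K]

theorem sd_7_5_13_5 : KQ K 8 5 13 5 0 :=
  lab_kq
    [[1, 4, 0], [1, 1], [4, 1, 2], [4, 1, 3], [1, 4]]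
    [[], [(0, 1), (4, 1)], [], [], [(3, 1)]]
    (by decide +kernel)

theorem sd_7_5_14_2 : KQ K 8 5 14 2 2 :=
  lab_kq
    [[3, 1, 0], [0, 1], [1, 0, 2], [2, 4, 3], [1, 1, 4]]
    [[], [(2, 1)]]
    (by decide +kernel)

theorem sd_7_5_14_3 : KQ K 8 5 14 3 0 :=
  lab_kq
    [[2, 1, 0], [3, 1], [1, 3, 2], [0, 4, 3], [1, 1, 4]]
    [[], [(2, 1)]]
    (by decide +kernel)

theorem sd_7_7_18_0 : KQ K 8 7 18 0 0 :=
  lab_kq
    [[3, 0], [3, 0, 1], [0, 2], [2, 3], [2, 2, 4], [3, 0, 5], [0, 2, 6]]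
    [[(5, 2), (6, 1)], [], [(6, 2)], [(5, 1)]]
    (by decide +kernel)

theorem sd_8_6_17_5 : KQ K 9 6 17 5 2 :=
  lab_kq
    [[2, 5, 0], [4, 1], [1, 4, 2], [1, 5, 3], [1, 1, 4], [3, 0, 5]]
    [[], [(3, 1)]]
    (by decide +kernel)

theorem sd_8_6_19_1 : KQ K 9 6 19 1 0 :=
  lab_kq
    [[5, 1, 0], [0, 5, 1], [4, 0, 1, 2], [4, 5, 3], [3, 3, 4], [1, 3, 5]]
    [[], [(5, 1)], [], [], [(3, 1)], [(3, 2)]]
    (by decide +kernel)

theorem sd_8_7_20_2 : KQ K 9 7 20 2 1 :=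
  lab_kq
    [[3, 0], [0, 5, 1], [6, 3, 2], [1, 4, 3], [0, 0, 4], [0, 4, 5], [2, 5, 6]]
    [[(5, 1)]]
    (by decide +kernel)

theorem sd_8_8_21_3 : KQ K 9 8 21 3 0 :=
  lab_kq
    [[5, 6, 0], [6, 1], [5, 6, 2], [6, 6, 3], [1, 5, 4], [1, 5], [1, 6], [1, 5, 7]]
    [[], [(6, 1), (7, 1)], [], [], [], [(2, 1), (7, 2)], [(1, 1), (2, 2)]]
    (by decide +kernel)

theorem sd_9_7_22_5 : KQ K 10 7 22 5 0 :=
  lab_kq
    [[5, 1, 0], [3, 4, 1], [6, 0, 6, 2], [4, 5, 3], [0, 5, 4], [3, 1, 5], [1, 4, 6]]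
    []
    (by decide +kernel)

theorem sd_9_7_24_0 : KQ K 10 7 24 0 1 :=
  lab_kq
    [[5, 4, 4, 0], [6, 2, 1], [6, 5, 4, 2], [4, 1, 1, 3], [5, 1, 4], [6, 3, 5], [1, 0, 6]]
    [[], [(6, 1)], [], [], [(3, 1)], [(0, 1)], [(2, 1)]]
    (by decide +kernel)

theorem sd_9_8_23_6 : KQ K 10 8 23 6 1 :=
  lab_kq
    [[6, 1, 0], [7, 2, 1], [1, 2], [2, 0, 3], [2, 3, 4], [4, 3, 5], [2, 2, 6], [5, 2, 7]]
    [[], [], [(3, 1), (4, 1), (7, 2)]]
    (by decide +kernel)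

theorem sd_9_9_25_5 : KQ K 10 9 25 5 0 :=
  lab_kq
    [[4, 7, 0], [4, 0, 1], [8, 4, 2], [8, 4, 3], [5, 4], [8, 1, 5], [8, 3, 6], [4, 6, 7], [2, 8]]
    [[], [], [], [], [(1, 1), (3, 2), (7, 1)], [], [], [], [(5, 1), (6, 1)]]
    (by decide +kernel)

theorem sd_9_9_26_3 : KQ K 10 9 26 3 0 :=
  lab_kq
    [[6, 4, 0], [4, 0, 1], [4, 0, 2], [4, 1, 3], [3, 4], [8, 1, 5], [7, 2, 6], [4, 3, 7], [5, 2, 8]]
    [[], [], [], [], [(2, 1), (3, 1), (7, 1)]]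
    (by decide +kernel)

theorem sd_9_10_29_0 : KQ K 10 10 29 0 0 :=
  lab_kq
    [[6, 7, 0], [6, 6, 1], [1, 5, 2], [9, 0, 3], [6, 5, 4], [6, 8, 5], [2, 6], [3, 0, 7], [7, 2, 8], [4, 8, 9]]
    [[], [], [], [], [], [], [(4, 1), (5, 1)]]
    (by decide +kernel)

theorem sd_10_7_27_0 : KQ K 11 7 27 0 3 :=
  lab_kq
    [[6, 6, 0], [0, 0, 0, 1], [0, 0, 3, 2], [1, 5, 1, 3], [5, 6, 0, 4], [3, 4, 2, 5], [4, 2, 3, 6]]
    [[(2, 2)], [], [], [(6, 3)]]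
    (by decide +kernel)

theorem sd_10_10_29_8 : KQ K 11 10 29 8 0 :=
  lab_kq
    [[3, 1, 0], [2, 0, 1], [3, 3, 2], [0, 3], [3, 3, 4], [6, 1, 5], [5, 7, 6], [8, 4, 7], [9, 7, 8], [3, 4, 9]]
    [[], [], [], [(0, 1), (9, 1)]]
    (by decide +kernel)

theorem sd_10_11_32_5 : KQ K 11 11 32 5 0 :=
  lab_kq
    [[4, 4, 0], [4, 3, 1], [7, 0, 2], [6, 8, 3], [0, 4], [2, 4, 5], [4, 5, 6], [10, 3, 7], [4, 5, 8], [1, 8, 9], [9, 6, 10]]
    [[], [], [], [], [(5, 2), (6, 1), (8, 1)]]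
    (by decide +kernel)

theorem sd_11_8_31_4 : KQ K 12 8 31 4 3 :=
  lab_kq
    [[2, 7, 7, 0], [7, 2, 3, 1], [1, 3, 5, 2], [5, 1, 4, 3], [6, 7, 3, 4], [7, 7, 0, 5], [4, 0, 3, 6], [0, 5, 7]]
    [[], [], [], [(6, 3)], [], [], [], [(1, 1), (4, 2)]]
    (by decide +kernel)

theorem sd_11_8_33_0 : KQ K 12 8 33 0 0 :=
  lab_kq
    [[5, 6, 0, 0], [7, 3, 6, 2, 1], [5, 0, 0, 2], [0, 2, 7, 3], [6, 7, 2, 4], [2, 3, 5, 5], [4, 4, 0, 6], [3, 4, 5, 7]]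
    [[(6, 3)], [], [(5, 1)], [(7, 1)], [], [(2, 1)], [(4, 1)], [(4, 2)]]
    (by decide +kernel)

theorem sd_11_9_32_7 : KQ K 12 9 32 7 0 :=
  lab_kq
    [[3, 3, 0], [7, 7, 4, 1], [0, 3, 6, 2], [0, 0, 3], [0, 3, 7, 4], [8, 1, 2, 5], [7, 8, 8, 6], [8, 8, 7], [3, 5, 8]]
    [[(4, 1)], [], [], [(4, 2), (8, 1)], [], [], [], [(6, 1)], [(5, 1)]]
    (by decide +kernel)

theorem sd_11_9_35_0 : KQ K 12 9 35 0 2 :=
  lab_kq
    [[1, 3, 1, 0], [2, 5, 1], [1, 8, 6, 2], [6, 4, 0, 3], [2, 1, 5, 4], [7, 7, 6, 5], [1, 3, 5, 6], [8, 5, 3, 7], [0, 4, 0, 8]]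
    [[], [(2, 1), (6, 1)], [], [], [], [(7, 2)]]
    (by decide +kernel)

theorem sd_11_11_38_2 : KQ K 12 11 38 2 0 :=
  lab_kq
    [[3, 9, 0], [0, 6, 4, 1], [6, 8, 3, 2], [8, 4, 3], [9, 9, 4], [4, 8, 9, 5], [0, 8, 6], [3, 0, 8, 7], [9, 6, 8], [6, 0, 9], [4, 3, 9, 10]]
    [[(1, 1)], [], [], [(7, 1)], [(10, 1)], [], [(2, 1)], [], [(3, 1), (5, 2)], [(8, 1), (10, 3)]]
    (by decide +kernel)

theorem sd_11_11_39_0 : KQ K 12 11 39 0 0 :=
  lab_kq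
    [[2, 2, 0], [5, 7, 10, 1], [0, 8, 2], [2, 1, 3], [7, 0, 3, 4], [3, 0, 5], [7, 0, 9, 6], [0, 6, 7], [3, 2, 5, 8], [3, 5, 4, 9], [5, 2, 7, 10]]
    [[(5, 2), (6, 2), (7, 1)], [], [(8, 2), (10, 2)], [(8, 1), (9, 1)], [], [(9, 2), (10, 1)], [], [(6, 1), (10, 3)]]
    (by decide +kernel)

theorem sd_12_8_33_9 : KQ K 13 8 33 9 0 :=
  lab_kq
    [[1, 4, 2, 0], [5, 5, 3, 1], [6, 4, 6, 2], [5, 0, 2, 3], [0, 2, 2, 4], [4, 0, 1, 5], [1, 3, 5, 6], [6, 3, 2, 3, 7]]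
    [[(5, 2)], [(6, 1)], [(7, 3)], [], [(5, 1)], [(6, 3)]]
    (by decide +kernel)

theorem sd_12_9_37_5 : KQ K 13 9 37 5 0 :=
  lab_kq
    [[6, 4, 8, 4, 0], [7, 8, 8, 1], [1, 1, 3, 2], [6, 1, 3, 3], [2, 2, 3, 4], [3, 2, 1, 5], [7, 3, 7, 6], [5, 8, 5, 7], [5, 4, 4, 8]]
    [[], [], [], [(6, 2)]]
    (by decide +kernel)

theorem sd_12_10_39_5 : KQ K 13 10 39 5 2 :=
  lab_kq
    [[2, 3, 2, 0], [6, 4, 7, 1], [9, 0, 2], [1, 2, 6, 3], [9, 1, 3, 4], [0, 2, 6, 5], [8, 5, 8, 6], [2, 3, 5, 7], [7, 2, 0, 8], [4, 5, 2, 9]]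
    [[], [], [(3, 2), (5, 2), (7, 1), (8, 2)]]
    (by decide +kernel)

theorem sd_12_10_41_1 : KQ K 13 10 41 1 0 :=
  lab_kq
    [[6, 9, 2, 0], [7, 6, 5, 1], [1, 5, 8, 7, 2], [0, 4, 4, 3], [9, 6, 8, 4], [3, 4, 3, 5], [3, 0, 9, 6], [8, 0, 9, 7], [7, 1, 1, 8], [5, 4, 8, 9]]
    [[(7, 2)], [], [], [], [], [(9, 1)], [(4, 2)], [(8, 1)], [(7, 1)], [(4, 1)]]
    (by decide +kernel)

theorem sd_12_11_43_1 : KQ K 13 11 43 1 1 :=
  lab_kq
    [[1, 4, 0], [0, 6, 7, 1], [6, 9, 3, 2], [0, 0, 2, 3], [7, 0, 5, 4], [10, 4, 0, 5], [3, 0, 2, 6], [8, 8, 5, 7], [9, 4, 2, 8], [1, 10, 3, 9], [5, 2, 0, 10]]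
    [[(1, 1), (4, 2), (6, 2), (10, 3)]]
    (by decide +kernel)

theorem sd_12_12_43_5 : KQ K 13 12 43 5 0 :=
  lab_kq
    [[7, 10, 3, 0], [3, 11, 0, 1], [7, 6, 2], [2, 5, 3], [10, 3, 2, 4], [11, 2, 9, 5], [2, 7, 7, 6], [11, 1, 7], [11, 10, 3, 8], [10, 2, 4, 9], [7, 3, 10], [3, 8, 11]]
    [[], [], [(6, 1), (9, 2)], [(1, 1), (10, 2), (11, 1)], [], [], [], [(0, 1)], [], [], [(8, 2), (9, 1)], [(7, 1), (8, 1)]]
    (by decide +kernel)

theorem sd_13_9_40_7 : KQ K 14 9 40 7 2 :=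
  lab_kq
    [[7, 4, 5, 0], [8, 2, 5, 3, 1], [7, 6, 7, 2], [2, 7, 0, 8, 3], [0, 5, 2, 0, 4], [2, 1, 3, 5], [8, 8, 0, 5, 6], [0, 5, 6, 7], [5, 7, 3, 8]]
    [[(6, 3), (7, 1)], [], [(3, 1), (5, 1)], [], [], [(4, 2), (7, 2), (8, 1)], [], [(3, 2), (8, 2)], [(1, 1)]]
    (by decide +kernel)

theorem sd_13_10_43_6 : KQ K 14 10 43 6 1 :=
  lab_kq
    [[3, 2, 8, 0], [9, 4, 4, 1], [1, 4, 0, 2], [2, 9, 7, 3], [1, 2, 0, 4], [7, 9, 4, 0, 5], [0, 3, 1, 1, 6], [2, 9, 1, 7], [3, 7, 4, 4, 8], [0, 7, 5, 9]]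
    [[(6, 1), (9, 1)], [(4, 1)], [(4, 2), (7, 1)], [(8, 1)], [(5, 3)], [], [], [(5, 1)], [], [(5, 2), (7, 2)]]
    (by decide +kernel)

theorem sd_13_11_45_7 : KQ K 14 11 45 7 0 :=
  lab_kq
    [[10, 1, 5, 10, 0], [9, 3, 4, 1], [8, 6, 3, 2], [2, 5, 8, 3], [6, 3, 6, 4], [9, 4, 6, 5], [1, 5, 5, 6], [2, 10, 2, 7], [4, 7, 9, 8], [8, 7, 4, 9], [7, 3, 1, 10]]
    [[], [], [], [(10, 2)], [(9, 3)]]
    (by decide +kernel)

theorem sd_13_12_47_7 : KQ K 14 12 47 7 1 :=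
  lab_kq
    [[3, 6, 8, 0], [7, 10, 7, 1], [10, 4, 0, 2], [8, 2, 1, 3], [5, 5, 9, 4], [11, 9, 5], [9, 0, 8, 6], [11, 5, 4, 7], [2, 1, 3, 8], [6, 5, 7, 9], [5, 1, 4, 10], [5, 0, 4, 11]]
    [[], [], [], [], [], [(9, 2), (10, 1), (11, 1)]]
    (by decide +kernel)

theorem sd_13_13_48_9 : KQ K 14 13 48 9 0 :=
  lab_kq
    [[11, 8, 0], [9, 11, 11, 1], [0, 7, 5, 2], [12, 4, 8, 3], [9, 12, 5, 4], [11, 12, 0, 5], [9, 12, 1, 6], [9, 12, 12, 7], [0, 2, 6, 8], [11, 3, 9], [0, 11, 6, 10], [10, 1, 11], [0, 3, 12]]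
    [[(8, 1), (10, 1)], [], [], [], [], [], [], [], [], [(6, 1), (7, 1)], [], [(5, 1), (10, 2)], [(3, 1), (6, 2)]]
    (by decide +kernel)

theorem sd_13_13_49_7 : KQ K 14 13 49 7 0 :=
  lab_kq
    [[12, 1, 4, 0], [8, 3, 1], [5, 11, 1, 2], [1, 4, 6, 3], [1, 8, 4], [8, 1, 4, 5], [9, 3, 8, 6], [8, 6, 11, 7], [4, 1, 8], [0, 2, 4, 9], [4, 1, 7, 10], [4, 10, 2, 11], [8, 7, 10, 12]]
    [[], [(3, 1), (4, 1), (5, 2), (10, 2)], [], [], [(8, 1), (9, 3), (10, 1), (11, 1)], [], [], [], [(5, 1), (7, 1), (12, 1)]]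
    (by decide +kernel)

theorem sd_13_13_50_5 : KQ K 14 13 50 5 0 :=
  lab_kq
    [[12, 3, 4, 0], [12, 8, 7, 1], [9, 10, 12, 2], [4, 2, 8, 3], [8, 5, 3, 4], [8, 12, 10, 5], [0, 1, 10, 6], [6, 12, 0, 7], [11, 11, 8], [7, 2, 6, 9], [12, 5, 11, 10], [8, 8, 3, 11], [1, 9, 12]]
    [[], [], [], [], [], [], [], [], [(4, 1), (5, 1)], [], [], [], [(0, 1), (1, 1), (10, 1)]]
    (by decide +kernel)

theorem sd_13_13_51_3 : KQ K 14 13 51 3 0 :=
  lab_kq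
    [[7, 3, 5, 0], [0, 5, 9, 1], [10, 5, 12, 2], [2, 12, 11, 3], [5, 11, 6, 4], [8, 0, 5], [5, 7, 5, 6], [1, 12, 9, 7], [4, 6, 11, 8], [5, 10, 1, 9], [9, 6, 11, 10], [8, 4, 1, 11], [3, 2, 0, 12]]
    [[], [], [], [], [], [(2, 2), (4, 1), (6, 1), (9, 1)]]
    (by decide +kernel)

theorem sd_14_10_49_2 : KQ K 15 10 49 2 4 :=
  lab_kq
    [[5, 6, 8, 1, 0], [3, 0, 8, 8, 1], [9, 7, 9, 4, 2], [7, 4, 9, 8, 3], [1, 0, 8, 6, 4], [3, 7, 0, 3, 5], [7, 2, 2, 0, 6], [6, 5, 4, 7], [2, 1, 4, 4, 8], [7, 5, 6, 7, 9]]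
    [[(4, 2)], [(8, 2)], [], [], [(7, 3)], [(9, 2)], [(7, 1)], [(3, 1), (5, 2), (6, 1), (9, 1)], [(4, 3)]]
    (by decide +kernel)

theorem sd_14_14_55_10 : KQ K 15 14 55 10 0 :=
  lab_kq
    [[5, 1, 2, 0], [7, 0, 11, 1], [6, 6, 9, 2], [13, 9, 11, 3], [0, 3, 7, 4], [12, 1, 1, 5], [7, 9, 10, 6], [13, 8, 7], [4, 3, 7, 8], [7, 7, 8, 9], [2, 5, 7, 10], [8, 4, 2, 11], [10, 7, 3, 12], [11, 12, 10, 13]]
    [[], [], [], [], [], [], [], [(1, 1), (6, 1), (10, 3), (12, 2)]]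
    (by decide +kernel)

theorem sd_14_15_59_6 : KQ K 15 15 59 6 0 :=
  lab_kq
    [[6, 1, 5, 0], [9, 14, 5, 1], [3, 1, 3, 2], [0, 10, 3], [3, 6, 3, 4], [3, 14, 9, 5], [13, 7, 2, 6], [10, 11, 10, 7], [4, 2, 2, 8], [11, 8, 2, 9], [12, 0, 3, 10], [7, 13, 3, 11], [3, 0, 1, 12], [5, 4, 14, 13], [8, 12, 9, 14]]
    [[], [], [], [(5, 1), (10, 3), (11, 3), (12, 1)]]
    (by decide +kernel)

end Pool.Agent.WarR


end

section

/-!
# Small windows of degree 2 (MP_db021c_ag), n = 15 ... 18: explicit assignments of the stars   (helper42)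

`sd_n_b_x_y : KQ K (n+1) b x y r`, found by annealing, checked by the kernel through `lab_kq`.
-/

set_option autoImplicit false

namespace Pool.Agent.WarR

variable (K : Type*) [Field K] [CharZero K]

theorem sd_15_11_54_8 : KQ K 16 11 54 8 4 :=
  lab_kq
    [[10, 5, 9, 1, 0], [4, 6, 3, 0, 1], [0, 3, 1, 7, 2], [6, 4, 9, 7, 3], [8, 6, 1, 4], [1, 2, 7, 4, 5], [5, 8, 9, 1, 6], [10, 4, 0, 0, 7], [7, 3, 2, 10, 8], [2, 8, 5, 3, 9], [4, 4, 9, 7, 10]]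
    [[], [(5, 1)], [(9, 1)], [(8, 2)], [(1, 1), (5, 4), (7, 2)], [(9, 3)], [(4, 2)], [(8, 1)], [(9, 2)], [(10, 3)], [(8, 4)]]
    (by decide +kernel)

theorem sd_15_11_56_4 : KQ K 16 11 56 4 0 :=
  lab_kq
    [[5, 7, 2, 1, 0], [3, 3, 4, 2, 1], [10, 7, 7, 4, 2], [2, 8, 0, 4, 3], [8, 5, 10, 5, 4], [6, 3, 7, 0, 5], [1, 4, 9, 7, 6], [0, 6, 8, 5, 7], [2, 1, 5, 0, 8], [10, 6, 1, 3, 0, 9], [4, 0, 8, 8, 10]]
    [[(7, 1), (10, 2)], [(6, 1)], [(8, 1)], [(9, 4)], [(6, 2), (10, 1)], [(0, 1)], [(9, 2)], [(5, 3)], [(4, 1)], [], [(9, 1)]]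
    (by decide +kernel)

theorem sd_15_12_59_3 : KQ K 16 12 59 3 3 :=
  lab_kq
    [[9, 6, 4, 9, 0], [0, 5, 11, 3, 1], [3, 9, 10, 9, 2], [7, 8, 0, 5, 3], [8, 8, 7, 7, 4], [3, 1, 11, 0, 5], [2, 10, 5, 1, 6], [4, 6, 2, 5, 7], [4, 7, 1, 8], [11, 8, 8, 8, 9], [8, 1, 2, 2, 10], [10, 6, 0, 5, 11]]
    [[(11, 3)], [(10, 2)], [], [(5, 1)], [(8, 1)], [(6, 3)], [(11, 2)], [], [(3, 2), (10, 1)], [], [(11, 1)]]
    (by decide +kernel)

theorem sd_15_13_58_11 : KQ K 16 13 58 11 1 :=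
  lab_kq
    [[2, 7, 2, 0], [0, 0, 5, 1], [10, 7, 0, 2], [7, 5, 2, 8, 3], [10, 7, 3, 4], [4, 2, 0, 5], [5, 0, 11, 3, 6], [1, 9, 5, 7], [1, 1, 1, 10, 8], [4, 0, 6, 10, 9], [4, 12, 7, 10], [5, 10, 10, 8, 11], [2, 4, 7, 2, 12]]
    [[(6, 2), (9, 2)], [], [(12, 4)], [], [(10, 1), (12, 2)], [(6, 1), (11, 1)], [], [(3, 1), (10, 3), (12, 3)], [], [], [(4, 1), (9, 4)]]
    (by decide +kernel)

theorem sd_15_13_59_9 : KQ K 16 13 59 9 0 :=
  lab_kq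
    [[9, 2, 12, 9, 0], [11, 5, 6, 4, 1], [10, 4, 1, 2], [7, 1, 11, 3], [8, 11, 3, 9, 4], [7, 8, 11, 6, 5], [2, 3, 2, 2, 6], [9, 9, 9, 7], [7, 9, 12, 8], [0, 3, 11, 9], [2, 8, 3, 7, 10], [3, 3, 7, 11], [8, 11, 7, 8, 12]]
    [[], [], [(10, 1)], [(6, 2), (10, 3)], [], [], [], [(5, 1), (8, 1), (12, 3)], [(5, 2), (10, 2)], [(8, 2)], [], [(4, 2), (5, 3), (12, 2)]]
    (by decide +kernel)

theorem sd_15_15_67_2 : KQ K 16 15 67 2 0 :=
  lab_kq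
    [[7, 12, 8, 0], [10, 11, 13, 8, 1], [0, 5, 8, 3, 2], [8, 1, 11, 3], [13, 7, 13, 14, 4], [3, 11, 8, 5], [0, 8, 7, 0, 6], [3, 3, 2, 7], [10, 7, 11, 8], [0, 10, 4, 11, 9], [11, 9, 8, 10], [5, 13, 8, 11], [3, 5, 6, 14, 12], [10, 11, 7, 13], [5, 13, 7, 2, 14]]
    [[(9, 1)], [], [], [(12, 1)], [], [(12, 2), (14, 1)], [], [(4, 2), (8, 2), (14, 3)], [(2, 3), (3, 1), (6, 2), (11, 3)], [], [(9, 2), (13, 1)], [(1, 2), (10, 1), (13, 2)], [], [(14, 2)]]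
    (by decide +kernel)

theorem sd_15_15_68_0 : KQ K 16 15 68 0 0 :=
  lab_kq
    [[9, 10, 1, 5, 0], [12, 0, 11, 1], [9, 7, 0, 2], [5, 4, 1, 8, 3], [10, 9, 1, 14, 4], [1, 3, 2, 5], [2, 13, 9, 6], [5, 12, 10, 13, 7], [10, 6, 6, 3, 8], [12, 12, 11, 9], [1, 1, 11, 10], [5, 9, 14, 10, 11], [2, 2, 7, 12], [6, 12, 8, 5, 13], [6, 2, 2, 6, 14]]
    [[], [(4, 3), (5, 1)], [(6, 1)], [], [], [(7, 1), (11, 1)], [(14, 1)], [], [], [(0, 1), (11, 2)], [(4, 1), (8, 1)], [], [(7, 2), (13, 2)]]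
    (by decide +kernel)

theorem sd_16_12_61_11 : KQ K 17 12 61 11 0 :=
  lab_kq
    [[5, 11, 11, 3, 0], [3, 3, 9, 11, 1], [0, 10, 1, 2, 2], [4, 8, 4, 0, 3], [0, 2, 11, 11, 4], [1, 2, 7, 8, 5], [3, 10, 5, 1, 9, 6], [4, 2, 9, 10, 7], [5, 7, 9, 0, 8], [8, 7, 10, 0, 9], [9, 1, 11, 4, 10], [7, 8, 2, 10, 11]]
    [[(4, 1)], [(10, 2)], [(7, 2)], [(6, 1)], [], [(8, 1)], [], [(11, 1)], [(11, 2)], [(10, 1)], [(6, 2)]]
    (by decide +kernel)

theorem sd_16_13_64_10 : KQ K 17 13 64 10 3 :=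
  lab_kq
    [[11, 8, 12, 5, 0], [9, 7, 3, 10, 1], [10, 3, 8, 10, 2], [2, 1, 7, 3], [5, 11, 5, 7, 4], [4, 12, 6, 0, 5], [9, 10, 1, 0, 6], [2, 6, 5, 9, 7], [3, 0, 11, 3, 8], [1, 3, 8, 4, 9], [4, 12, 7, 12, 10], [6, 3, 8, 2, 11], [0, 3, 3, 2, 12]]
    [[(12, 1)], [], [(12, 4)], [(2, 2), (8, 1), (9, 2), (11, 2)], [], [], [], [], [(11, 3)]]
    (by decide +kernel)

theorem sd_16_13_66_6 : KQ K 17 13 66 6 0 :=
  lab_kq
    [[3, 1, 5, 7, 0], [4, 6, 8, 10, 1], [6, 5, 6, 1, 2], [4, 5, 1, 0, 3], [8, 5, 1, 6, 4], [9, 7, 10, 6, 5], [9, 7, 0, 6, 6], [10, 1, 0, 4, 7], [2, 12, 9, 9, 8], [12, 8, 12, 0, 9], [2, 3, 4, 2, 10], [0, 10, 2, 12, 1, 11], [3, 7, 8, 7, 12]]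
    [[(11, 1)], [(0, 2), (7, 2)], [(11, 3)], [(12, 1)], [(3, 1)], [(4, 2)], [(5, 4)], [(6, 2)], [(9, 2)], [(6, 1)], [(11, 2)]]
    (by decide +kernel)

theorem sd_16_14_69_5 : KQ K 17 14 69 5 2 :=
  lab_kq
    [[7, 6, 12, 8, 0], [9, 3, 3, 7, 1], [6, 1, 9, 11, 2], [8, 4, 11, 8, 3], [1, 7, 12, 3, 4], [7, 13, 1, 9, 5], [10, 11, 10, 5, 6], [13, 13, 3, 7], [0, 0, 0, 9, 8], [7, 10, 4, 7, 9], [4, 8, 2, 9, 10], [2, 12, 3, 13, 11], [5, 11, 7, 7, 12], [5, 2, 6, 12, 13]]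
    [[], [], [], [], [], [], [], [(0, 1), (4, 2), (5, 1)], [], [(2, 3)], [], [(12, 2)]]
    (by decide +kernel)

theorem sd_16_14_71_1 : KQ K 17 14 71 1 0 :=
  lab_kq
    [[12, 6, 11, 12, 0], [3, 13, 2, 6, 1], [11, 7, 4, 1, 2], [4, 4, 4, 8, 3], [2, 7, 12, 2, 4], [1, 13, 13, 3, 5], [0, 13, 5, 4, 6], [0, 6, 8, 3, 7], [10, 3, 2, 5, 8], [10, 8, 8, 1, 1, 9], [6, 1, 0, 5, 10], [5, 5, 10, 0, 11], [11, 7, 2, 8, 12], [12, 7, 3, 11, 13]]
    [[(7, 1)], [(10, 2)], [(12, 3)], [(1, 1)], [], [], [(10, 1)], [(12, 2), (13, 2)], [], [], [(11, 3)], [(12, 1)], [(13, 1)]]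
    (by decide +kernel)

theorem sd_16_15_74_0 : KQ K 17 15 74 0 1 :=
  lab_kq
    [[8, 7, 7, 10, 0], [2, 4, 8, 4, 1], [14, 0, 6, 1, 2], [1, 4, 11, 0, 3], [0, 5, 8, 4], [14, 9, 1, 0, 5], [5, 4, 1, 14, 6], [4, 12, 3, 6, 7], [10, 9, 9, 13, 8], [11, 3, 8, 3, 9], [13, 3, 4, 6, 10], [10, 12, 2, 0, 11], [7, 4, 2, 9, 12], [6, 5, 11, 11, 13], [13, 12, 4, 6, 14]]
    [[(4, 1)], [(6, 3)], [], [], [(6, 2), (7, 1), (10, 3), (12, 2), (14, 3)], [], [(13, 1)], [], [(9, 3)]]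
    (by decide +kernel)

theorem sd_16_16_71_11 : KQ K 17 16 71 11 0 :=
  lab_kq
    [[15, 9, 14, 11, 0], [3, 8, 15, 14, 1], [15, 9, 5, 14, 2], [13, 9, 1, 3], [7, 14, 13, 0, 4], [13, 10, 6, 5], [10, 9, 8, 5, 6], [5, 8, 8, 7], [3, 15, 13, 8], [8, 8, 2, 9], [7, 9, 13, 10], [10, 13, 5, 7, 11], [14, 7, 7, 5, 12], [10, 5, 12, 13], [3, 5, 15, 14], [3, 14, 4, 15]]
    [[], [], [], [(1, 1)], [], [(7, 1), (13, 2), (14, 2)], [], [(10, 1)], [(6, 3)], [(6, 2), (10, 2)], [(11, 1)], [], [], [(5, 1), (11, 2)], [(12, 1), (15, 2)], [(2, 1), (14, 3)]]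
    (by decide +kernel)

theorem sd_16_16_73_7 : KQ K 17 16 73 7 0 :=
  lab_kq
    [[10, 8, 3, 0], [0, 8, 0, 10, 1], [10, 3, 0, 4, 2], [15, 0, 13, 3], [5, 15, 2, 0, 4], [11, 1, 2, 5], [0, 14, 15, 4, 6], [12, 6, 12, 10, 7], [5, 12, 3, 8], [12, 3, 5, 15, 9], [3, 15, 8, 10], [15, 3, 13, 7, 11], [9, 7, 4, 12], [5, 10, 5, 1, 13], [8, 12, 8, 8, 14], [10, 8, 3, 15]]
    [[(4, 4), (6, 1)], [], [], [(9, 2), (10, 1), (11, 2)], [], [(4, 1)], [], [], [(1, 2), (15, 2)], [], [(2, 1), (13, 2), (15, 1)], [], [(9, 1)], [], [], [(6, 3), (10, 2), (11, 1)]]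
    (by decide +kernel)

theorem sd_16_16_75_3 : KQ K 17 16 75 3 0 :=
  lab_kq
    [[2, 2, 3, 9, 0], [9, 2, 7, 12, 1], [6, 0, 5, 2], [14, 13, 11, 4, 3], [10, 7, 1, 14, 4], [14, 0, 10, 5], [14, 2, 13, 2, 6], [1, 15, 0, 7], [5, 7, 2, 7, 8], [7, 11, 12, 15, 9], [7, 14, 14, 3, 10], [5, 12, 3, 15, 11], [5, 6, 8, 12], [12, 5, 4, 8, 13], [12, 4, 15, 14], [12, 8, 5, 2, 15]]
    [[], [], [(1, 2), (8, 3)], [], [], [(11, 1), (12, 1), (13, 2)], [], [(9, 1), (10, 1)], [], [], [], [], [(13, 1), (14, 1), (15, 1)], [], [(5, 1), (6, 1)]]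
    (by decide +kernel)

theorem sd_17_15_76_9 : KQ K 18 15 76 9 0 :=
  lab_kq
    [[9, 11, 2, 9, 0], [10, 10, 6, 9, 1], [0, 0, 1, 6, 2], [14, 13, 10, 1, 3], [13, 14, 13, 9, 4], [7, 14, 10, 3, 5], [11, 5, 4, 3, 6], [4, 6, 4, 6, 7], [3, 9, 7, 12, 14, 8], [6, 4, 12, 13, 9], [5, 2, 0, 5, 10], [3, 1, 1, 12, 11], [11, 1, 0, 2, 12], [12, 5, 12, 13, 13], [7, 2, 2, 13, 14]]
    [[], [], [], [(11, 1)], [], [], [(9, 1)], [(14, 1)], [], [(8, 2)], [], [(12, 1)], [], [], [(5, 2)]]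
    (by decide +kernel)

theorem sd_17_16_79_8 : KQ K 18 16 79 8 1 :=
  lab_kq
    [[12, 14, 11, 12, 0], [13, 15, 0, 14, 1], [0, 5, 3, 4, 2], [7, 13, 10, 13, 3], [12, 9, 7, 9, 4], [2, 7, 2, 0, 5], [3, 1, 3, 12, 6], [9, 8, 11, 3, 7], [10, 6, 6, 5, 8], [12, 14, 8, 11, 9], [12, 5, 4, 2, 10], [12, 6, 0, 9, 11], [4, 2, 13, 12], [8, 15, 14, 1, 13], [1, 15, 4, 4, 14], [11, 10, 5, 1, 15]]
    [[], [], [], [], [], [], [], [], [], [], [], [], [(6, 4), (9, 1), (10, 1), (11, 1)]]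
    (by decide +kernel)

theorem sd_17_16_81_4 : KQ K 18 16 81 4 0 :=
  lab_kq
    [[9, 3, 12, 11, 2, 0], [4, 2, 6, 13, 1], [6, 8, 13, 4, 2], [7, 5, 11, 7, 3], [3, 14, 10, 8, 4], [8, 8, 10, 1, 5], [11, 13, 9, 2, 6], [15, 9, 15, 9, 7], [10, 1, 10, 10, 8], [14, 2, 15, 12, 9], [12, 4, 12, 13, 10], [13, 2, 1, 1, 11], [1, 5, 7, 15, 12], [14, 5, 15, 4, 13], [7, 11, 4, 12, 14], [6, 3, 5, 6, 15]]
    [[], [(12, 1)], [(11, 2)], [(15, 2)], [(10, 2)], [(15, 3)], [], [], [], [], [], [(14, 2)], [], [(11, 1)], [(13, 1)]]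
    (by decide +kernel)

theorem sd_17_17_79_13 : KQ K 18 17 79 13 0 :=
  lab_kq
    [[3, 3, 13, 13, 0], [9, 9, 0, 15, 1], [7, 10, 7, 1, 2], [7, 5, 9, 3], [6, 13, 3, 2, 4], [6, 10, 10, 14, 5], [13, 10, 0, 6], [13, 9, 11, 7], [7, 10, 11, 4, 8], [14, 10, 3, 9], [2, 5, 7, 10], [9, 15, 13, 12, 11], [6, 13, 6, 7, 12], [9, 7, 12, 13], [8, 3, 10, 4, 14], [16, 1, 12, 11, 15], [3, 6, 4, 0, 16]]
    [[], [], [], [(14, 2), (16, 1)], [], [], [(5, 1), (16, 2)], [(3, 1), (8, 1)], [], [(11, 1), (13, 1)], [(8, 2), (9, 2), (14, 3)], [], [], [(7, 1), (11, 3), (12, 2)]]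
    (by decide +kernel)

theorem sd_17_17_80_11 : KQ K 18 17 80 11 0 :=
  lab_kq
    [[4, 16, 10, 0], [9, 0, 6, 9, 1], [16, 8, 16, 15, 2], [9, 16, 0, 0, 3], [0, 9, 13, 4], [4, 14, 1, 16, 5], [4, 8, 10, 8, 6], [11, 0, 5, 1, 7], [4, 14, 7, 8], [2, 12, 8, 9], [8, 7, 16, 16, 10], [8, 5, 4, 3, 11], [0, 6, 2, 8, 12], [9, 9, 1, 8, 13], [15, 12, 4, 13, 14], [3, 16, 10, 11, 15], [13, 0, 7, 16]]
    [[(7, 2), (12, 1), (16, 2)], [], [], [], [(5, 1), (6, 1), (14, 3)], [], [], [], [(2, 2), (10, 1), (11, 1)], [(3, 1)], [], [], [], [], [], [], [(3, 2), (5, 4), (15, 2)]]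
    (by decide +kernel)

theorem sd_17_17_81_9 : KQ K 18 17 81 9 0 :=
  lab_kq
    [[8, 16, 12, 1, 0], [9, 10, 13, 0, 1], [9, 5, 3, 10, 2], [8, 5, 0, 4, 3], [9, 5, 5, 9, 4], [10, 12, 2, 5], [9, 7, 12, 16, 6], [14, 5, 8, 1, 7], [0, 11, 4, 8], [6, 10, 13, 9], [11, 14, 15, 10], [1, 13, 9, 7, 11], [4, 10, 6, 2, 12], [2, 8, 7, 11, 13], [8, 10, 8, 3, 14], [10, 3, 16, 6, 15], [5, 15, 15, 5, 16]]
    [[], [], [], [], [], [(3, 2), (7, 2), (16, 1)], [], [], [(0, 1), (3, 1)], [(2, 1), (6, 1), (11, 3)], [(9, 2), (12, 2), (14, 2), (15, 1)]]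
    (by decide +kernel)

theorem sd_17_17_82_7 : KQ K 18 17 82 7 0 :=
  lab_kq
    [[16, 16, 3, 0], [10, 16, 14, 0, 1], [16, 13, 10, 13, 2], [0, 9, 12, 12, 3], [0, 16, 2, 14, 4], [3, 9, 4, 2, 5], [11, 5, 13, 12, 6], [0, 9, 6, 0, 7], [7, 12, 16, 10, 8], [0, 4, 13, 9], [2, 9, 4, 4, 10], [9, 15, 7, 0, 11], [14, 15, 1, 1, 12], [1, 5, 6, 15, 13], [9, 16, 0, 5, 14], [8, 6, 3, 7, 15], [11, 8, 8, 16]]
    [[(3, 1), (4, 1), (9, 1), (14, 3)], [], [], [], [], [], [], [], [], [(7, 2), (10, 2), (11, 1), (14, 1)], [], [], [], [], [], [], [(2, 1), (4, 2), (14, 2)]]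
    (by decide +kernel)

theorem sd_17_17_83_5 : KQ K 18 17 83 5 0 :=
  lab_kq
    [[10, 12, 1, 4, 0], [15, 9, 7, 6, 1], [15, 0, 5, 4, 2], [9, 15, 6, 2, 3], [15, 5, 10, 4], [11, 4, 16, 3, 5], [14, 4, 4, 7, 6], [2, 4, 15, 5, 7], [14, 0, 7, 11, 8], [13, 11, 12, 6, 9], [16, 15, 8, 16, 10], [3, 6, 12, 16, 11], [13, 10, 8, 5, 12], [1, 7, 5, 9, 13], [4, 2, 15, 4, 14], [4, 1, 6, 15], [8, 3, 0, 12, 16]]
    [[], [], [], [], [(5, 2), (7, 2), (14, 1), (15, 1)], [], [], [], [], [], [], [], [], [], [], [(1, 1), (2, 1), (4, 1), (10, 2)]]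
    (by decide +kernel)

theorem sd_17_17_84_3 : KQ K 18 17 84 3 0 :=
  lab_kq
    [[6, 12, 6, 3, 0], [15, 16, 9, 9, 1], [11, 4, 7, 10, 2], [14, 13, 5, 0, 3], [16, 7, 16, 1, 4], [12, 8, 7, 8, 5], [4, 2, 12, 14, 6], [14, 13, 2, 15, 7], [10, 16, 11, 2, 8], [0, 0, 13, 13, 9], [3, 9, 9, 4, 10], [3, 2, 1, 0, 11], [5, 6, 1, 8, 12], [16, 5, 10, 1, 13], [15, 11, 10, 8, 14], [16, 8, 16, 4, 15], [1, 7, 9, 16]]
    [[], [(16, 1)], [], [], [], [], [], [], [], [], [], [], [], [], [], [], [(1, 2), (8, 2), (13, 1)]]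
    (by decide +kernel)

theorem sd_18_18_89_12 : KQ K 19 18 89 12 0 :=
  lab_kq
    [[3, 6, 4, 3, 0], [17, 5, 15, 15, 1], [8, 5, 17, 13, 2], [2, 13, 14, 11, 3], [9, 7, 10, 10, 4], [15, 12, 0, 5], [1, 14, 5, 8, 6], [11, 10, 17, 16, 7], [12, 4, 9, 16, 8], [5, 7, 10, 10, 9], [0, 9, 2, 1, 10], [16, 5, 4, 12, 11], [0, 15, 6, 1, 12], [5, 7, 12, 17, 13], [6, 1, 3, 4, 14], [8, 5, 11, 5, 15], [14, 2, 11, 4, 16], [13, 16, 3, 13, 17]]
    [[], [], [], [], [], [(2, 2), (9, 1), (11, 2), (13, 1)]]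
    (by decide +kernel)

theorem sd_18_18_95_0 : KQ K 19 18 95 0 0 :=
  lab_kq
    [[8, 5, 13, 12, 0], [3, 0, 13, 0, 1], [0, 14, 3, 3, 2], [8, 5, 5, 14, 3], [6, 15, 8, 3, 12, 4], [2, 2, 0, 13, 5], [1, 2, 16, 3, 6], [11, 6, 0, 3, 7], [16, 5, 17, 7, 8], [13, 11, 1, 4, 0, 9], [6, 14, 11, 13, 5, 10], [15, 8, 13, 16, 11], [2, 1, 14, 9, 1, 12], [16, 5, 10, 3, 13], [15, 3, 7, 16, 14], [11, 16, 6, 7, 15], [14, 1, 7, 8, 16], [7, 7, 15, 0, 13, 17]]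
    [[(2, 1), (17, 4)], [(6, 1)], [(12, 1)], [(1, 1), (14, 2)], [], [(10, 5), (13, 2)], [(10, 1)], [(16, 3)], [(4, 3), (11, 2)], [], [], [(10, 3), (15, 1)], [], [(9, 1), (11, 3), (17, 5)], [(12, 3), (16, 1)], [(14, 1), (17, 3)], [(13, 1), (15, 2)]]
    (by decide +kernel)

theorem sd_18_19_94_7 : KQ K 19 19 94 7 0 :=
  lab_kq
    [[2, 11, 12, 9, 0], [18, 17, 14, 0, 1], [0, 5, 8, 17, 2], [6, 9, 10, 9, 3], [11, 7, 5, 10, 4], [7, 12, 6, 15, 5], [8, 9, 7, 13, 6], [15, 17, 2, 16, 7], [3, 12, 14, 11, 8], [10, 4, 16, 9], [4, 18, 18, 4, 10], [16, 16, 1, 9, 11], [9, 13, 4, 9, 12], [0, 2, 5, 12, 13], [9, 13, 5, 9, 14], [3, 8, 14, 3, 15], [1, 10, 13, 11, 16], [15, 6, 14, 10, 17], [9, 1, 17, 14, 18]]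
    [[], [], [], [], [], [], [], [], [], [(6, 2), (12, 1), (14, 4), (18, 1)], [(17, 4)]]
    (by decide +kernel)

end Pool.Agent.WarR


end

section

/-!
# Small windows of degree 2 (MP_db021c_ag), n = 23 ... 31: explicit assignments of the stars   (helper42)

`sd_n_b_x_y : KQ K (n+1) b x y r`, found by annealing, checked by the kernel through `lab_kq`.
-/

set_option autoImplicit false

namespace Pool.Agent.WarR

variable (K : Type*) [Field K] [CharZero K]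

theorem sd_23_23_142_16 : KQ K 24 23 142 16 0 :=
  lab_kq
    [[11, 4, 4, 10, 21, 0], [14, 13, 14, 16, 17, 1], [19, 15, 10, 9, 19, 15, 2], [9, 13, 1, 14, 5, 3], [8, 10, 1, 18, 14, 4], [11, 20, 1, 17, 22, 9, 5], [7, 12, 7, 17, 11, 21, 6], [16, 13, 19, 8, 6, 7], [16, 3, 12, 12, 16, 8], [8, 12, 13, 8, 7, 9], [17, 21, 0, 21, 5, 10], [0, 10, 15, 22, 7, 11], [15, 16, 4, 4, 20, 12], [20, 9, 22, 9, 15, 13], [3, 8, 21, 9, 15, 14], [0, 22, 17, 3, 1, 15], [22, 20, 3, 2, 0, 16], [0, 19, 21, 4, 22, 17], [11, 21, 20, 19, 22, 8, 18], [7, 1, 12, 12, 1, 19], [4, 14, 1, 16, 19, 20], [10, 14, 15, 9, 13, 21], [3, 17, 13, 7, 6, 22]]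
    [[(16, 5), (17, 1)], [(5, 3), (20, 3)], [], [(16, 3), (22, 1)], [], [], [], [(22, 4)], [(14, 2)], [(3, 1)], [(11, 2), (21, 1)], [(18, 1)], [(9, 2)], [(7, 2), (22, 3)], [(21, 2)], [(12, 1), (21, 3)], [(7, 1)], [(15, 3), (22, 2)], [], [(17, 2)], [(16, 2), (18, 3)], [(18, 2)], [(15, 2), (16, 1)]]
    (by decide +kernel)

theorem sd_23_23_143_14 : KQ K 24 23 143 14 0 :=
  lab_kq
    [[1, 11, 13, 6, 18, 0], [20, 6, 15, 6, 5, 1], [13, 20, 4, 10, 10, 2], [6, 18, 20, 17, 0, 22, 3], [17, 11, 5, 1, 1, 4], [15, 11, 4, 3, 1, 5], [7, 16, 11, 15, 13, 6], [18, 14, 16, 2, 11, 7], [1, 22, 20, 2, 12, 8], [8, 0, 2, 4, 20, 13, 9], [8, 7, 22, 12, 6, 16, 10], [15, 0, 4, 4, 4, 11], [16, 2, 22, 8, 17, 12], [8, 7, 9, 0, 4, 13], [15, 2, 17, 19, 3, 14], [5, 13, 16, 11, 8, 15], [7, 18, 22, 20, 12, 16], [14, 0, 13, 12, 14, 17], [14, 12, 1, 4, 13, 18], [5, 5, 2, 0, 4, 13, 19], [18, 16, 14, 14, 7,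 20], [17, 22, 12, 1, 11, 13, 21], [12, 6, 21, 17, 19, 22]]
    [[(11, 2), (17, 2)], [(8, 1), (21, 4)], [(14, 2), (19, 3)], [], [(5, 3), (9, 4)], [(15, 1)], [(3, 1)], [(13, 2), (16, 1)], [(12, 4), (13, 1)], [], [], [(5, 2), (6, 3), (21, 5)], [(21, 3), (22, 1)], [(2, 1), (15, 2), (17, 3)], [(18, 1)], [(11, 1), (14, 1)], [(12, 1), (20, 2)], [(21, 1), (22, 4)], [(16, 2), (20, 1)], [], [(2, 2), (3, 3)], [], [(16, 3), (21, 2)]]
    (by decide +kernel)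

theorem sd_23_23_144_12 : KQ K 24 23 144 12 0 :=
  lab_kq
    [[4, 17, 11, 22, 11, 0], [20, 12, 2, 6, 7, 1], [19, 14, 4, 3, 4, 2], [6, 13, 22, 4, 19, 3], [16, 14, 8, 17, 0, 4], [1, 2, 14, 19, 8, 5], [17, 9, 17, 13, 12, 6], [0, 4, 0, 13, 14, 14, 7], [22, 11, 13, 12, 20, 13, 8], [4, 2, 5, 22, 1, 9], [2, 12, 19, 16, 17, 1, 10], [5, 15, 17, 19, 19, 11], [20, 11, 0, 9, 6, 12], [6, 6, 3, 12, 21, 13], [16, 2, 7, 1, 22, 14], [3, 9, 3, 12, 21, 19, 15], [9, 5, 22, 13, 10, 16], [11, 5, 20, 5, 14, 17], [20, 14, 6, 12, 16, 5, 18], [13, 0, 0, 3, 21, 19], [9, 22, 1, 5, 14, 20], [1, 16, 3, 11, 1, 1, 21], [19, 18, 10, 17, 16, 22]]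
    [[], [(20, 3), (21, 1)], [(10, 1), (14, 2)], [(21, 3)], [(7, 2), (9, 1)], [(11, 1), (20, 4)], [(18, 3)], [], [], [(16, 1), (20, 1)], [], [(17, 1), (21, 4)], [(10, 2), (15, 4), (18, 4)], [(7, 4), (19, 1)], [(4, 2), (18, 2)], [], [(14, 1), (21, 2)], [(0, 2), (22, 4)], [], [(10, 3), (22, 1)], [(17, 3), (18, 1)], [], [(8, 1), (20, 2)]]
    (by decide +kernel)

theorem sd_23_23_145_10 : KQ K 24 23 145 10 0 :=
  lab_kq
    [[2, 9, 22, 16, 21, 0], [0, 18, 7, 22, 20, 1], [15, 19, 9, 6, 19, 2], [4, 7, 20, 12, 5, 7, 3], [14, 11, 8, 8, 18, 4], [8, 11, 0, 18, 3, 2, 5], [12, 17, 11, 21, 17, 6], [18, 19, 17, 6, 11, 7], [4, 16, 16, 15, 15, 8], [20, 13, 6, 10, 13, 9], [16, 9, 6, 7, 2, 2, 10], [2, 6, 12, 19, 15, 11], [7, 4, 6, 16, 17, 12], [12, 0, 15, 15, 20, 18, 13], [20, 9, 18, 17, 20, 10, 14], [11, 0, 17, 20, 8, 15], [1, 8, 0, 21, 1, 16], [1, 18, 4, 9, 0, 17], [1, 11, 9, 17, 19,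 18], [12, 4, 17, 17, 2, 19], [7, 6, 19, 3, 16, 20], [15, 19, 2, 2, 10, 3, 21], [1, 8, 16, 5, 19, 8, 22]]
    [[(1, 1), (13, 2)], [(18, 1), (22, 1)], [(11, 1), (19, 5)], [], [(8, 1), (19, 2)], [], [(11, 2), (12, 3), (20, 2)], [(12, 1), (20, 1)], [(5, 1)], [(10, 2), (14, 2)], [], [(5, 2), (15, 1)], [(13, 1), (19, 1)], [], [], [(21, 1)], [(10, 1), (22, 3)], [(14, 4), (15, 3), (18, 4)], [(7, 1), (14, 3), (17, 2)], [(20, 3), (21, 2), (22, 5)], [(9, 1), (14, 1)]]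
    (by decide +kernel)

theorem sd_23_23_146_8 : KQ K 24 23 146 8 0 :=
  lab_kq
    [[3, 4, 19, 17, 21, 0], [18, 17, 15, 17, 18, 1], [16, 11, 4, 4, 4, 2], [2, 18, 19, 11, 19, 3], [16, 13, 7, 22, 10, 4], [4, 12, 20, 1, 6, 17, 5], [18, 16, 21, 19, 3, 6], [11, 1, 17, 6, 22, 18, 7], [3, 13, 3, 11, 4, 8], [1, 19, 19, 1, 14, 7, 9], [8, 11, 5, 16, 8, 17, 10], [2, 19, 6, 21, 19, 11], [0, 0, 3, 22, 1, 12], [15, 17, 15, 12, 12, 13], [0, 15, 6, 12, 9, 3, 14], [1, 11, 12, 5, 9, 15], [0, 18, 9, 14, 12, 16], [16, 13, 4, 14, 2, 17], [8, 3, 4, 7, 17, 18], [13, 2, 10, 12, 3, 19], [6, 12, 2, 0, 10, 12, 20], [8, 6, 8, 2, 15, 2, 21], [13, 15, 17, 18, 20, 16, 22]]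
    [[(16, 1)], [(9, 1), (15, 1)], [(3, 1), (11, 1)], [(0, 1), (18, 2)], [(5, 1), (18, 3)], [], [(20, 1), (21, 2)], [], [(18, 1)], [], [], [(7, 1), (10, 2)], [(5, 2), (19, 4), (20, 2)], [(19, 1), (22, 1)], [], [(21, 5), (22, 2)], [(6, 2), (10, 4), (17, 1)], [(7, 3), (13, 2), (22, 3)], [(6, 1), (16, 2), (22, 4)], [(9, 3)]]
    (by decide +kernel)

theorem sd_23_23_147_6 : KQ K 24 23 147 6 0 :=
  lab_kq
    [[3, 22, 21, 21, 7, 0], [0, 4, 15, 21, 7, 22, 1], [0, 4, 17, 13, 19, 2], [10, 21, 9, 4, 16, 12, 3], [7, 17, 15, 19, 7, 4], [8, 22, 12, 17, 12, 13, 5], [7, 2, 8, 22, 14, 20, 6], [2, 20, 20, 8, 0, 7], [6, 22, 14, 17, 12, 8], [14, 17, 11, 18, 17, 9], [7, 19, 14, 17, 12, 10], [0, 10, 7, 17, 8, 4, 11], [16, 11, 14, 9, 6, 12], [0, 12, 9, 4, 20, 3, 13], [21, 18, 21, 8, 17, 14], [2, 4, 9, 22, 22, 17, 15], [5, 2, 9, 10, 3, 16], [20, 13, 10, 16, 18, 17], [8, 20, 10, 4, 5, 10, 18],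 [1, 14, 16, 21, 8, 22, 19], [12, 9, 9, 16, 1, 20], [12, 2, 10, 20, 22, 21], [16, 16, 14, 20, 6, 22]]
    [[(11, 1), (13, 1)], [], [(7, 1), (15, 1)], [], [(1, 2), (15, 2), (18, 4)], [], [], [(6, 1), (10, 1)], [(5, 1), (18, 1), (19, 5)], [(13, 3), (15, 3), (16, 3)], [(3, 1), (11, 2)], [], [(13, 2), (20, 1), (21, 1)], [], [(9, 1), (19, 2), (22, 3)], [], [(12, 1), (19, 3)], [(4, 2), (5, 4), (9, 2), (10, 4), (11, 4)], [], [], [(17, 1), (18, 2)], [(3, 2), (19, 4)], [(5, 2), (6, 4), (8, 2)]]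
    (by decide +kernel)

theorem sd_23_23_148_4 : KQ K 24 23 148 4 0 :=
  lab_kq
    [[21, 1, 11, 10, 21, 0], [19, 12, 13, 12, 4, 1], [14, 20, 20, 4, 13, 7, 2], [6, 21, 6, 14, 14, 4, 3], [19, 20, 0, 22, 17, 4], [8, 20, 3, 19, 22, 5], [11, 2, 11, 4, 16, 6], [21, 5, 12, 10, 17, 22, 7], [12, 5, 4, 15, 11, 0, 8], [20, 14, 2, 22, 20, 4, 9], [0, 12, 1, 6, 14, 22, 10], [15, 0, 4, 1, 4, 11], [19, 0, 15, 8, 17, 12], [19, 1, 5, 18, 22, 8, 13], [15, 4, 0, 9, 6, 14], [18, 11, 21, 17, 16, 15], [14, 6, 7, 13, 21, 14, 16], [16, 22, 11, 21, 19, 6, 17], [5, 5, 22, 11, 22, 17, 18], [6, 9, 1, 9, 11, 19], [4, 1, 22, 12, 22, 20], [3, 0, 7, 12, 1, 21], [15, 15, 10, 1, 17, 22]]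
    [[(10, 1), (12, 2), (21, 2)], [(10, 3), (13, 2), (20, 2), (22, 4)], [], [], [(6, 4), (8, 3), (14, 2), (20, 1)], [(8, 2), (13, 3)], [(16, 2), (19, 1)], [], [], [], [], [(15, 2), (17, 3), (18, 4)], [(8, 1), (10, 2)], [], [(9, 2), (16, 1)], [(12, 3), (14, 1)], [], [], [], [(12, 1), (13, 1), (17, 5)], [(9, 5)], [(7, 1), (15, 3), (17, 4)], [(9, 4), (13, 5), (17, 2), (18, 5)]]
    (by decide +kernel)

theorem sd_23_23_149_2 : KQ K 24 23 149 2 0 :=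
  lab_kq
    [[11, 14, 20, 6, 13, 6, 0], [6, 3, 13, 10, 18, 17, 1], [1, 16, 11, 5, 8, 2], [15, 2, 10, 18, 2, 3], [6, 19, 16, 10, 14, 4], [6, 15, 20, 13, 4, 5], [4, 9, 8, 3, 3, 6], [22, 12, 5, 3, 3, 7], [17, 15, 13, 20, 22, 3, 8], [15, 20, 7, 5, 7, 8, 9], [2, 20, 3, 16, 8, 10], [3, 10, 22, 8, 4, 14, 11], [4, 5, 3, 7, 17, 3, 12], [22, 6, 2, 4, 6, 13], [21, 15, 4, 15, 6, 14], [14, 13, 0, 20, 14, 15], [2, 5, 10, 4, 2, 10, 16], [22, 18, 7, 14, 13, 2, 17], [14, 7, 22, 5, 21, 4, 18], [7, 5, 1, 13, 21, 4, 19], [13, 2, 19, 4, 12, 20], [0, 10, 12, 10, 19, 7, 21], [20, 14, 9, 9, 7, 22]]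
    [[], [], [(10, 1), (16, 1), (20, 2)], [(1, 2), (11, 1), (12, 3)], [(6, 1), (12, 1), (14, 3), (16, 4), (20, 4)], [(12, 2), (16, 2), (19, 2)], [(4, 1), (5, 1), (13, 2)], [(17, 3), (18, 2), (19, 1)], [], [], [(3, 3), (11, 2), (16, 3)], [], [], [(8, 3), (15, 2), (19, 4), (20, 1)], [(0, 2), (18, 1), (22, 2)], [(8, 2), (9, 1)], [], [], [], [], [(9, 2), (10, 2), (15, 4), (22, 1)], [], [(13, 1), (17, 1), (18, 3)]]
    (by decide +kernel)

theorem sd_24_24_155_15 : KQ K 25 24 155 15 0 :=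
  lab_kq
    [[6, 2, 1, 21, 19, 0], [10, 17, 0, 6, 2, 1], [21, 5, 12, 15, 11, 2], [5, 1, 14, 8, 0, 3], [8, 17, 21, 23, 10, 5, 4], [12, 9, 20, 10, 1, 5], [14, 2, 5, 14, 3, 6], [17, 18, 9, 1, 14, 16, 7], [9, 2, 9, 13, 0, 5, 8], [23, 11, 20, 21, 6, 9], [12, 2, 18, 19, 0, 10], [20, 3, 13, 22, 14, 3, 11], [14, 9, 3, 11, 22, 12], [17, 16, 3, 7, 1, 21, 13], [21, 21, 4, 12, 12, 14], [14, 0, 6, 5, 17, 5, 15], [3, 6, 9, 1, 0, 14, 16], [1, 22, 21, 2, 2, 17], [10, 7, 0, 3, 4, 16, 18], [10, 2, 0, 17, 15, 11, 19], [6, 15, 12, 6, 16, 20], [19, 0, 4, 1, 3, 21], [20, 10, 20, 1, 3, 13, 22], [12, 5, 20, 5, 6, 12, 23]]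
    [[(15, 2), (18, 3), (19, 3), (21, 2)], [(7, 4), (16, 4), (17, 1), (21, 4), (22, 4)], [(8, 2), (10, 2), (19, 2)], [(13, 3), (16, 1), (18, 4), (22, 5)], [], [(2, 2), (3, 1), (23, 2)], [(0, 1), (16, 2), (23, 5)], [], [], [(12, 2), (16, 3)], [(18, 1), (19, 1), (22, 2)], [], [(10, 1), (20, 3), (23, 1)], [], [(12, 1), (15, 1), (16, 6)], [], [], [(7, 1), (13, 1), (19, 4)], [], [], [(11, 1), (23, 3)], [(2, 1), (9, 4), (17, 3)]]
    (by decide +kernel)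

theorem sd_25_23_160_17 : KQ K 26 23 160 17 2 :=
  lab_kq
    [[20, 18, 3, 14, 22, 1, 0], [10, 3, 18, 16, 16, 8, 1], [5, 17, 4, 12, 1, 14, 2], [0, 21, 4, 13, 9, 15, 3], [7, 0, 2, 12, 10, 1, 4], [6, 12, 21, 22, 21, 16, 5], [1, 10, 7, 9, 21, 11, 6], [4, 18, 2, 1, 9, 22, 7], [2, 15, 14, 14, 6, 7, 8], [13, 20, 17, 14, 13, 12, 9], [19, 17, 3, 16, 15, 19, 10], [9, 15, 18, 22, 6, 22, 11], [13, 11, 15, 15, 6, 9, 12], [9, 4, 8, 7, 10, 10, 13], [22, 19, 0, 17, 21, 10, 14], [18, 11, 6, 18, 19, 4, 15], [18, 11, 19, 1, 2, 3, 16], [20, 8, 12, 16, 19, 11, 17], [5, 5, 20, 8, 13, 18], [3, 14, 12, 22, 16, 2, 19], [16, 21, 18, 17, 8, 14, 20], [8, 5, 6, 10, 2, 13, 21], [7, 0, 1, 11, 18, 13, 22]]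
    [[(22, 2)], [(6, 1), (22, 3)], [(8, 1)], [(19, 1)], [(7, 1)], [], [(15, 3), (21, 3)], [(22, 1)], [(20, 5), (21, 1)], [(12, 6), (13, 1)], [(1, 1)], [(16, 2), (22, 4)], [(17, 3), (19, 3)], [(12, 1)], [(19, 2)], [(11, 2)], [(20, 1)], [(14, 4), (20, 4)], [(0, 2), (7, 2), (11, 3), (16, 1), (20, 3)], [(14, 2)], [(17, 1)], [(20, 2)], [(14, 1)]]
    (by decide +kernel)

theorem sd_25_24_167_10 : KQ K 26 24 167 10 1 :=
  lab_kq
    [[13, 4, 11, 20, 22, 19, 0], [0, 12, 21, 8, 3, 19, 1], [5, 4, 23, 14, 15, 5, 2], [8, 4, 19, 17, 14, 3], [12, 6, 2, 7, 10, 22, 4], [18, 9, 22, 23, 15, 3, 5], [3, 21, 19, 16, 3, 20, 6], [2, 16, 21, 18, 3, 5, 7], [12, 11, 1, 21, 17, 18, 8], [23, 23, 14, 12, 11, 7, 9], [19, 7, 20, 15, 5, 16, 10], [10, 3, 6, 0, 7, 23, 11], [13, 18, 6, 15, 19, 9, 12], [15, 3, 15, 2, 14, 9, 13], [5, 2, 9, 22, 17, 11, 14], [8, 16, 1, 0, 16, 8, 15], [20, 3, 21, 3, 13, 23,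 16], [7, 9, 10, 7, 4, 14, 17], [17, 3, 17, 22, 2, 20, 18], [13, 0, 4, 3, 9, 22, 19], [22, 8, 5, 11, 0, 11, 20], [10, 6, 17, 19, 10, 0, 21], [1, 18, 1, 14, 9, 11, 22], [14, 20, 16, 11, 6, 1, 23]]
    [[(19, 2), (20, 5)], [], [(7, 1)], [(6, 1), (7, 5), (11, 2), (13, 2), (18, 2), (19, 4)], [(17, 5), (19, 3)], [(14, 1)], [(21, 2), (23, 5)], [(10, 2)], [(20, 2)], [(14, 3), (17, 2)], [(21, 1)], [(8, 2), (23, 4)], [(8, 1)], [(19, 1)], [(22, 4), (23, 1)], [(12, 4)], [(23, 3)], [(21, 3)], [(5, 1)], [(10, 1), (21, 4)], [(16, 1), (23, 2)], [(8, 4), (16, 3)], [(18, 4), (20, 1)], [(16, 6)]]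
    (by decide +kernel)

theorem sd_25_25_173_5 : KQ K 26 25 173 5 0 :=
  lab_kq
    [[12, 23, 11, 4, 12, 18, 0], [21, 20, 23, 21, 17, 3, 1], [7, 6, 7, 5, 3, 7, 2], [22, 4, 7, 19, 13, 19, 3], [8, 9, 6, 11, 3, 19, 4], [19, 2, 10, 22, 20, 20, 5], [10, 21, 11, 5, 9, 24, 6], [24, 10, 8, 1, 14, 7], [16, 20, 13, 10, 4, 4, 8], [3, 2, 7, 19, 10, 21, 9], [18, 7, 7, 20, 0, 18, 10], [17, 14, 24, 4, 14, 19, 11], [14, 8, 23, 0, 24, 8, 12], [16, 11, 7, 5, 8, 3, 13], [5, 23, 0, 11, 16, 23, 14], [3, 21, 18, 13, 22, 17, 15], [1, 2, 19, 15, 1, 0, 16], [12, 22, 14, 13, 9, 3, 17], [1, 21, 4, 24, 21, 16, 18], [7, 17, 16, 0, 8, 15, 19], [6, 9, 0, 24, 0, 13, 20], [17, 6, 1, 2, 24, 21], [21, 9, 15, 21, 21, 14, 22], [15, 15, 18, 18, 22, 22, 23], [13, 12, 5, 20, 2, 4, 24]]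
    [[(14, 3)], [(21, 3)], [(16, 2)], [(15, 1), (17, 6)], [(3, 2)], [(14, 1)], [(21, 2)], [(3, 3), (9, 3), (13, 3), (19, 1)], [(4, 1)], [(22, 2)], [(6, 1)], [(13, 2)], [(24, 2)], [(24, 1)], [(17, 3)], [], [(13, 1)], [(21, 1)], [], [(5, 1)], [(8, 2)], [(6, 2), (15, 2), (18, 2), (22, 1)], [(17, 2)], [(14, 2)], [(11, 3), (20, 4)]]
    (by decide +kernel)

theorem sd_25_25_174_3 : KQ K 26 25 174 3 0 :=
  lab_kq
    [[9, 4, 6, 19, 24, 14, 0], [13, 0, 4, 21, 20, 16, 1], [10, 5, 20, 9, 24, 20, 2], [23, 20, 13, 10, 4, 15, 3], [7, 0, 9, 24, 19, 2, 4], [3, 1, 18, 12, 3, 14, 5], [23, 4, 16, 17, 17, 24, 6], [6, 19, 12, 12, 2, 15, 7], [14, 16, 18, 13, 17, 22, 8], [5, 6, 20, 17, 22, 9], [21, 16, 0, 15, 1, 15, 10], [8, 17, 1, 0, 24, 22, 11], [9, 19, 11, 4, 7, 22, 12], [8, 19, 17, 11, 15, 15, 13], [2, 16, 1, 3, 8, 1, 14], [13, 12, 10, 6, 22, 22, 15], [18, 2, 22, 23, 18, 0, 16], [8, 20,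 24, 2, 9, 0, 17], [21, 22, 15, 15, 3, 6, 18], [24, 5, 5, 18, 21, 18, 19], [7, 11, 14, 9, 3, 13, 20], [10, 23, 1, 11, 6, 0, 21], [9, 12, 15, 21, 11, 4, 22], [14, 3, 22, 11, 17, 10, 23], [7, 9, 9, 2, 14, 5, 24]]
    [[(4, 2), (11, 4)], [(5, 2)], [(16, 2), (24, 4)], [(23, 2)], [(6, 2), (12, 4)], [(24, 6)], [(9, 2), (15, 4)], [(24, 1)], [(17, 1)], [(0, 1), (12, 1), (17, 5), (20, 4), (22, 1)], [(21, 1)], [(20, 2), (23, 4)], [(22, 2)], [(15, 1)], [(23, 1), (24, 5)], [(22, 3)], [(10, 2), (14, 2)], [(11, 2)], [(16, 1)], [(12, 2), (13, 2)], [(17, 2)], [(18, 1)], [(18, 2), (23, 3)], [(21, 2)], [(17, 3), (19, 1)]]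
    (by decide +kernel)

theorem sd_26_25_176_19 : KQ K 27 25 176 19 0 :=
  lab_kq
    [[19, 24, 7, 15, 16, 7, 0], [20, 4, 17, 16, 3, 18, 1], [9, 22, 9, 14, 8, 9, 2], [5, 11, 22, 20, 2, 17, 3], [22, 3, 17, 12, 21, 3, 4], [1, 13, 8, 19, 24, 24, 5], [20, 23, 21, 14, 9, 4, 5, 6], [3, 18, 10, 6, 19, 4, 7], [15, 10, 13, 23, 20, 22, 8], [21, 24, 11, 5, 2, 21, 9], [17, 13, 1, 0, 13, 16, 10], [8, 2, 0, 17, 12, 24, 11], [11, 14, 3, 15, 11, 19, 12], [15, 21, 17, 2, 9, 5, 13], [8, 19, 4, 3, 4, 24, 14], [5, 23, 4, 16, 18, 10, 15], [1, 19, 2, 5, 13, 14, 16], [1, 7, 16, 7, 24, 3, 17], [10, 12, 20, 4, 5, 21, 18], [0, 22, 14, 8, 11, 12, 19], [10, 14, 18, 11, 21, 4, 20], [7, 0, 0, 18, 23, 12, 21], [23, 16, 16, 7, 18, 13, 22], [12, 18, 12, 24, 24, 22, 23], [2, 9, 15, 13, 9, 8, 24]]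
    [[(19, 1)], [(17, 1)], [(16, 3), (24, 1)], [(12, 3), (14, 4)], [(15, 3), (18, 4)], [(15, 1), (16, 4)], [], [(22, 4)], [(14, 1), (19, 4)], [], [(18, 1), (20, 1)], [(3, 2)], [(18, 2)], [(8, 3), (24, 4)], [(19, 3), (20, 2)], [(13, 1), (24, 3)], [(17, 3)], [(10, 1), (13, 3)], [(20, 3), (23, 2)], [(14, 2), (16, 2)], [(6, 1)], [(13, 2), (20, 5)], [(4, 1), (19, 2)], [(21, 5), (22, 1)], [(9, 2), (17, 5)]]
    (by decide +kernel)

theorem sd_26_26_179_20 : KQ K 27 26 179 20 0 :=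
  lab_kq
    [[9, 1, 1, 6, 9, 24, 0], [25, 16, 18, 19, 15, 1], [4, 18, 25, 22, 5, 9, 2], [19, 13, 10, 22, 15, 1, 3], [8, 8, 17, 0, 0, 17, 4], [7, 19, 22, 8, 7, 16, 5], [1, 13, 11, 9, 24, 5, 6], [0, 23, 19, 1, 2, 20, 7], [10, 22, 19, 21, 21, 20, 8], [4, 21, 13, 10, 18, 5, 9], [22, 15, 22, 12, 9, 24, 10], [24, 0, 3, 7, 5, 2, 11], [23, 14, 6, 2, 20, 9, 12], [11, 18, 12, 1, 19, 3, 13], [3, 11, 8, 24, 22, 18, 14], [17, 3, 22, 17, 22, 7, 15], [19, 14, 2, 24, 11, 6, 16], [12, 15, 23, 15, 21, 11, 17], [7, 20, 20, 5, 13, 6, 18], [6, 2, 16, 14, 6, 19], [21, 10, 2, 23, 24, 3, 20], [1, 22, 16, 19, 6, 12, 21], [25, 25, 9, 15, 19, 22], [1, 20, 5, 14, 18, 3, 23], [16, 19, 1, 14, 0, 6, 24], [4, 5, 17, 12, 13, 12, 25]]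
    [[], [(6, 1), (21, 1), (23, 1), (24, 3)], [(20, 3)], [(15, 2)], [(25, 1)], [(25, 2)], [(12, 3)], [], [], [(22, 3)], [(20, 2)], [(14, 2)], [(17, 1)], [(9, 3)], [(24, 4)], [], [(24, 1)], [], [(13, 2)], [(5, 2), (7, 3), (8, 3), (16, 1), (21, 4), (24, 2)], [], [], [(5, 3), (8, 2), (10, 3), (21, 2)], [(20, 4)], [(11, 1)]]
    (by decide +kernel)

theorem sd_26_26_181_16 : KQ K 27 26 181 16 0 :=
  lab_kq
    [[24, 19, 21, 21, 15, 20, 0], [4, 9, 12, 15, 20, 16, 1], [13, 9, 17, 17, 24, 3, 2], [18, 13, 4, 8, 5, 7, 3], [23, 21, 6, 24, 2, 9, 4], [22, 19, 14, 24, 8, 6, 5], [25, 3, 20, 4, 5, 21, 6], [4, 21, 11, 18, 1, 0, 7], [22, 23, 0, 7, 14, 11, 8], [5, 17, 0, 8, 16, 14, 9], [18, 19, 15, 15, 3, 24, 10], [20, 20, 1, 25, 23, 17, 11], [11, 10, 3, 16, 21, 23, 12], [15, 0, 12, 1, 11, 6, 13], [8, 2, 10, 11, 15, 11, 14], [22, 5, 22, 13, 18, 15], [12, 17, 14, 5, 13, 2, 16], [2, 10, 25,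 16, 12, 4, 17], [6, 15, 15, 16, 9, 6, 18], [25, 15, 12, 5, 16, 10, 19], [16, 14, 6, 18, 0, 7, 20], [8, 24, 0, 9, 13, 15, 21], [23, 15, 7, 13, 20, 25, 22], [1, 1, 9, 11, 17, 10, 23], [3, 19, 10, 2, 3, 18, 24], [7, 7, 14, 2, 6, 6, 25]]
    [[(20, 5), (21, 3)], [], [(17, 1)], [(24, 1)], [(7, 1)], [(9, 1)], [(20, 3)], [], [(21, 1)], [(21, 4), (23, 3)], [(17, 2), (24, 3)], [(12, 1)], [(16, 1)], [(2, 1)], [(20, 2), (25, 3)], [(1, 4), (13, 1), (14, 5), (19, 2), (22, 2)], [(19, 5), (20, 1)], [(23, 5)], [(10, 1)], [(24, 2)], [], [(12, 5)], [], [(22, 1)], [(0, 1)], [(19, 1)]]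
    (by decide +kernel)

theorem sd_26_26_183_12 : KQ K 27 26 183 12 0 :=
  lab_kq
    [[19, 8, 22, 8, 16, 13, 0], [14, 6, 20, 23, 0, 6, 1], [15, 1, 12, 10, 0, 16, 2], [18, 11, 6, 14, 19, 11, 3], [3, 20, 9, 7, 13, 13, 4], [19, 12, 0, 10, 25, 10, 5], [7, 17, 3, 9, 8, 16, 6], [5, 13, 5, 9, 3, 0, 7], [6, 18, 16, 23, 7, 25, 8], [22, 13, 6, 25, 23, 16, 9], [4, 23, 15, 19, 5, 11, 10], [21, 5, 15, 20, 20, 12, 11], [14, 2, 16, 25, 5, 24, 12], [0, 23, 2, 21, 14, 23, 13], [12, 0, 22, 18, 24, 23, 14], [11, 11, 17, 3, 16, 17, 15], [25, 17, 15, 21, 0, 6, 16], [22, 7, 10, 10, 3, 25, 17], [12, 3, 1, 5, 22, 14, 18], [9, 8, 14, 20, 25, 17, 19], [17, 4, 11, 7, 10, 9, 20], [1, 2, 18, 1, 25, 15, 21], [2, 9, 4, 15, 4, 6, 22], [8, 4, 21, 13, 25, 18, 23], [16, 21, 19, 1, 18, 23, 8, 24], [10, 20, 13, 7, 2, 13, 25]]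
    [[(13, 1), (14, 2)], [(24, 4)], [(22, 1), (25, 5)], [(15, 4), (18, 2)], [(23, 2)], [(18, 4)], [(8, 1), (22, 6)], [(17, 2), (25, 4)], [(23, 1)], [(19, 1), (22, 2)], [(25, 1)], [], [(14, 1), (18, 1)], [(9, 2), (25, 3)], [(12, 1), (19, 3)], [(11, 3), (16, 3)], [(12, 3), (24, 1)], [(20, 1)], [(8, 2), (24, 5)], [(10, 4), (24, 3)], [(25, 2)], [(23, 3), (24, 2)], [(17, 1), (18, 5)], [(10, 2), (13, 2)], [], [(12, 4), (16, 1), (23, 5)]]
    (by decide +kernel)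

theorem sd_26_27_188_9 : KQ K 27 27 188 9 0 :=
  lab_kq
    [[14, 4, 1, 25, 8, 11, 0], [14, 15, 0, 26, 3, 11, 1], [22, 9, 5, 6, 8, 16, 2], [1, 20, 20, 11, 11, 3], [12, 19, 11, 13, 22, 18, 4], [3, 21, 14, 7, 6, 10, 5], [11, 7, 19, 24, 17, 13, 6], [23, 15, 9, 10, 6, 14, 7], [18, 17, 19, 24, 22, 13, 8], [16, 13, 20, 15, 10, 14, 9], [3, 25, 8, 9, 26, 15, 10], [23, 2, 3, 23, 1, 7, 11], [24, 23, 19, 19, 16, 15, 12], [20, 22, 6, 1, 2, 16, 13], [17, 11, 13, 2, 24, 7, 14], [26, 8, 3, 26, 17, 0, 15], [18, 3, 3, 12, 9, 25, 16], [26, 10, 16, 5, 20, 25, 17], [9, 12, 0, 12, 6, 2, 18], [4, 17, 0, 5, 4, 6, 19], [25, 4, 0, 13, 4, 18, 20], [5, 2, 5, 13, 2, 16, 21], [24, 3, 21, 8, 3, 14, 22], [6, 10, 15, 12, 7, 26, 23], [21, 22, 8, 1, 2, 14, 24], [7, 21, 10, 1, 3, 15, 25], [18, 16, 25, 0, 7, 20, 26]]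
    [[(20, 3), (26, 4)], [(24, 4), (25, 4)], [(11, 2)], [(5, 1), (10, 1), (11, 3), (15, 3), (25, 5)], [], [], [(19, 6), (23, 1)], [(25, 1), (26, 5)], [(22, 4), (24, 3)], [(18, 1)], [(23, 2), (25, 3)], [(14, 2)], [(23, 4)], [(14, 3), (21, 4)], [(1, 1), (24, 6)], [(9, 4), (23, 3)], [(17, 3), (26, 2)], [(19, 2)], [(26, 1)], [(8, 3)], [(17, 5)], [(25, 2)], [(24, 2)], [], [(22, 1)], [(20, 1)], [(17, 1)]]
    (by decide +kernel)

theorem sd_26_27_190_5 : KQ K 27 27 190 5 1 :=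
  lab_kq
    [[22, 22, 17, 10, 14, 1, 0], [25, 4, 22, 24, 21, 26, 1], [16, 13, 1, 15, 9, 5, 2], [0, 17, 19, 14, 22, 6, 3], [13, 25, 11, 23, 26, 5, 4], [14, 24, 7, 6, 17, 17, 5], [11, 7, 1, 9, 3, 10, 6], [5, 14, 5, 10, 17, 21, 7], [1, 21, 6, 25, 7, 21, 8], [16, 13, 4, 24, 21, 5, 9], [2, 11, 12, 8, 12, 7, 10], [3, 14, 24, 18, 21, 16, 11], [23, 5, 5, 3, 11, 16, 12], [16, 24, 19, 15, 0, 9, 13], [6, 18, 1, 23, 23, 18, 14], [20, 23, 12, 10, 10, 12, 15], [4, 2, 20, 25, 19, 12, 16], [15, 2, 11, 21, 6, 6, 17], [20, 21, 9, 4, 3, 8, 18], [0, 6, 22, 25, 24, 22, 19], [18, 19, 3, 19, 17, 11, 20], [20, 10, 17, 9, 0, 10, 21], [13, 9, 10, 19, 17, 1, 22], [0, 3, 8, 2, 16, 4, 23], [15, 7, 9, 4, 25, 19, 24], [8, 7, 15, 23, 8, 14, 25], [18, 8, 12, 12, 2, 1, 12, 26]]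
    [[(21, 5), (23, 1)], [(8, 1), (14, 3)], [(17, 2), (26, 5)], [(20, 3), (23, 2)], [(16, 1), (24, 4)], [], [(14, 1), (19, 2)], [(24, 2), (25, 2)], [(26, 2)], [(22, 2), (24, 3)], [(21, 2), (22, 3)], [(10, 2), (17, 3)], [], [(22, 1)], [(7, 2), (11, 2)], [(24, 1), (25, 3)], [(13, 1), (23, 5)], [(3, 2), (21, 3)], [(26, 1)], [(16, 5), (22, 4)], [(21, 1)], [(17, 4), (18, 2)], [], [(15, 2)], [(11, 3), (13, 2)], [(4, 2), (19, 4)]]
    (by decide +kernel)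

theorem sd_27_28_197_19 : KQ K 28 28 197 19 1 :=
  lab_kq
    [[23, 6, 1, 7, 11, 5, 0], [5, 17, 14, 27, 10, 17, 1], [23, 11, 20, 1, 24, 21, 2], [4, 8, 0, 10, 21, 15, 3], [15, 6, 16, 2, 8, 10, 4], [22, 15, 21, 8, 16, 27, 5], [24, 8, 20, 23, 26, 11, 6], [10, 0, 27, 12, 24, 19, 7], [3, 6, 17, 17, 19, 14, 8], [1, 22, 13, 4, 24, 15, 9], [15, 16, 18, 2, 19, 1, 10], [14, 5, 24, 15, 19, 23, 11], [11, 13, 27, 4, 16, 20, 12], [12, 20, 27, 4, 10, 3, 13], [19, 26, 3, 9, 7, 26, 14], [13, 22, 6, 8, 14, 10, 15], [23, 0, 8, 11, 9, 17, 16], [18, 10, 3, 22, 26, 22, 17], [14, 9, 1, 14, 5, 26, 18], [2, 17, 12, 13, 27, 26, 19], [9, 21, 4, 11, 25, 4, 20], [18, 19, 16, 1, 18, 7, 21], [7, 2, 18, 20, 3, 13, 22], [26, 3, 26, 7, 10, 22, 23], [12, 2, 21, 5, 12, 1, 24], [7, 9, 20, 27, 19, 11, 19, 25], [24, 5, 0, 13, 17, 22, 26], [21, 16, 0, 6, 4, 17, 27]]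
    [[(26, 3), (27, 3)], [(9, 1), (21, 4)], [(19, 1)], [(22, 5), (23, 2)], [(3, 1)], [(24, 4), (26, 2)], [(15, 3), (27, 4)], [(25, 1)], [(15, 4), (16, 3)], [(25, 2)], [(7, 1), (17, 2)], [(12, 1), (25, 6)], [(24, 1)], [(15, 1), (26, 4)], [(11, 1)], [(10, 1), (11, 4)], [(21, 3), (27, 2)], [(19, 2)], [(22, 3)], [(14, 1), (25, 5)], [(22, 4), (25, 3)], [(24, 3), (27, 1)], [(5, 1)], [(16, 1)], [(11, 3), (26, 1)], [], [(17, 5)], [(13, 3), (25, 4)]]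
    (by decide +kernel)

theorem sd_31_32_257_22 : KQ K 32 32 257 22 1 :=
  lab_kq
    [[9, 16, 11, 17, 12, 11, 25, 0], [14, 29, 30, 26, 27, 27, 8, 1], [19, 16, 15, 15, 30, 3, 20, 2], [5, 11, 28, 5, 11, 31, 13, 3], [25, 22, 24, 24, 30, 23, 19, 4], [12, 6, 30, 14, 31, 18, 6, 5], [25, 29, 16, 31, 20, 10, 7, 6], [31, 4, 9, 26, 21, 3, 0, 7], [18, 17, 4, 28, 16, 31, 25, 8], [6, 28, 16, 31, 12, 25, 4, 9], [18, 2, 9, 9, 9, 22, 20, 10], [29, 20, 15, 3, 8, 14, 20, 11], [3, 0, 2, 10, 5, 4, 7, 12], [6, 7, 8, 7, 5, 21, 7, 13], [31, 13, 26, 23, 18, 4, 3, 14], [30, 30, 17, 25, 1, 16, 27, 15], [7, 19, 10, 1, 8, 2, 6, 16], [21, 13, 14, 0, 12, 22, 27, 17], [3, 24, 21, 21, 20, 25, 3, 18], [2, 11, 24, 3, 20, 18, 10, 19], [8, 2, 29, 8, 12, 24, 10, 20], [27, 6, 17, 5, 24, 17, 2, 21], [4, 18, 27, 19, 10, 25, 20, 22], [15, 27, 22, 4, 0, 25, 16, 4, 23], [0, 13, 22, 1, 27, 14, 18, 24], [26, 1,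 22, 24, 20, 8, 10, 25], [15, 19, 14, 9, 22, 7, 18, 26], [0, 28, 5, 20, 21, 26, 6, 27], [11, 13, 29, 13, 5, 20, 9, 28], [17, 10, 21, 1, 12, 2, 3, 29], [12, 10, 28, 8, 19, 19, 7, 30], [26, 7, 1, 14, 28, 1, 1, 31]]
    [[(24, 1), (27, 1)], [(25, 2), (31, 3)], [(19, 1), (20, 2)], [(12, 1), (18, 1)], [(8, 3), (22, 1)], [(27, 3), (28, 5)], [(13, 1), (21, 2)], [(16, 1)], [(13, 3), (30, 4)], [(26, 4)], [(22, 5), (29, 2), (30, 2)], [(28, 1)], [(5, 1), (30, 1)], [(24, 2)], [(1, 1), (26, 3)], [(26, 1)], [(0, 2), (2, 2)], [(21, 3), (29, 1)], [(10, 1), (22, 2)], [(22, 4), (26, 2)], [(18, 5), (19, 5), (25, 5), (27, 4)], [(17, 1)], [(4, 2), (23, 3)], [], [(21, 5), (25, 4)], [(4, 1), (6, 1)], [(25, 1), (31, 1)], [(23, 2), (24, 5)], [(27, 2), (30, 3)], [(20, 3), (28, 3)], [(5, 3)], [(7, 1), (14, 1)]]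
    (by decide +kernel)

end Pool.Agent.WarR


end
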