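import Mathlib
import Pool.Agent.CLAM.C04
import Pool.Agent.CLAM.C07
import Pool.Agent.CLAM.C19

/-! Parts: WarC.TRC2, WarR.Seed5, WarR.SdC -/

section

/-!
# MP_db021c_ag, cubics, `s = 2`: the trace space with the pair is zero (`S_TRC2`)   (helper91)
-/

set_option autoImplicit false

open Module MvPolynomial
open Pool.Agent.War Pool.Agent.WarS Pool.Agent.WarQ

namespace Pool.Agent.WarC

namespace TRC2aux

/-- one functional for each index lowers the dimension by at most the number of the indices -/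
theorem finrank_le_inf {V : Type} [AddCommGroup V] [Module ℂ V] [FiniteDimensional ℂ V]
    {ι : Type} [Fintype ι] (φ : ι → V →ₗ[ℂ] ℂ) (Z : Submodule ℂ V) :
    finrank ℂ Z ≤ finrank ℂ ↥(Z ⊓ ⨅ i, LinearMap.ker (φ i)) + Fintype.card ι := by
  have h1 := finrank_le_map_add_ker (LinearMap.pi φ) Z
  have h2 : finrank ℂ (Z.map (LinearMap.pi φ)) ≤ Fintype.card ι := by
    refine (Submodule.finrank_le _).trans ?_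
    rw [Module.finrank_fintype_fun_eq_card]
  rw [LinearMap.ker_pi] at h1
  omega

theorem GG.pred {n d p : ℕ} (h : GG n d (p + 1)) : GG n d p := by
  obtain ⟨z, hz⟩ := h
  refine ⟨fun i => z i.castSucc, ?_⟩
  have h1 := finrank_le_inf (fun k : Option (Fin n) =>
    (k.elim (ev n d (z (Fin.last p))) fun k => dv n d k (z (Fin.last p)) : Pol n d →ₗ[ℂ] ℂ))
    (Dbl n d Finset.univ fun i : Fin p => z i.castSucc)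
  have h2 : Dbl n d Finset.univ (fun i : Fin p => z i.castSucc) ⊓
      (⨅ k : Option (Fin n), LinearMap.ker
        (k.elim (ev n d (z (Fin.last p))) fun k => dv n d k (z (Fin.last p)) :
          Pol n d →ₗ[ℂ] ℂ)) ≤ Dbl n d Finset.univ z := by
    rintro f ⟨hf1, hf2⟩
    obtain ⟨f1, f2⟩ := mem_Dbl.1 hf1
    have g := (Submodule.mem_iInf _).1 hf2
    rw [mem_Dbl]
    refine ⟨fun i => ?_, fun i _ k => ?_⟩
    · refine Fin.lastCases ?_ (fun j => ?_) i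
      · have := g none
        rw [LinearMap.mem_ker] at this
        exact (ev_apply _ _).symm.trans this
      · exact f1 j
    · refine Fin.lastCases ?_ (fun j => ?_) i
      · have := g (some k)
        rw [LinearMap.mem_ker] at this
        exact (dv_apply _ _ _).symm.trans this
      · exact f2 j (Finset.mem_univ _) k
  have h3 := Submodule.finrank_mono h2
  have h4 : Fintype.card (Option (Fin n)) = n + 1 := by simp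
  rw [h4] at h1
  have e : (n + 1) * (p + 1) = (n + 1) * p + (n + 1) := by ring
  omega

theorem LP_ec {X : Type} [AddCommGroup X] [Module ℂ X] (n d : ℕ) (A B : X →ₗ[ℂ] (Fin n → ℂ))
    (f : Pol n d) : LP (K := ℂ) fun x : X => ec n d (A x) (B x) f := by
  simp only [ec_apply]
  refine LP.sum _ fun k _ => LP.mul ?_ (LP.add ?_ ?_)
  · have h := LP.linear (K := ℂ) (X := X)
      ((LinearMap.proj k : (Fin n → ℂ) →ₗ[ℂ] ℂ).comp (B - A))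
    exact h
  · exact (LP_eval (pderiv k (f : MvPolynomial (Fin n) ℂ))).comp_linear A
  · exact (LP_eval (pderiv k (f : MvPolynomial (Fin n) ℂ))).comp_linear B

/-- the conditions on the first form -/
noncomputable def V0 (n u : ℕ)
    (x : (Fin u ⊕ Fin u → Fin n → ℂ) × ((Fin n → ℂ) × (Fin n → ℂ))) :
    Submodule ℂ (Pol n 3) :=
  Dbl n 3 (Finset.univ.map Function.Embedding.inl) x.1 ⊓ LinearMap.ker (ev n 3 x.2.1) ⊓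
    LinearMap.ker (ev n 3 x.2.2) ⊓ LinearMap.ker (ec n 3 x.2.1 x.2.2)

theorem PK_V0 (n u : ℕ) : PK (V0 n u) := by
  let A := Fin u ⊕ Fin u → Fin n → ℂ
  let B := Fin n → ℂ
  let Lp : A × (B × B) →ₗ[ℂ] (Fin n → ℂ) := (LinearMap.fst ℂ B B).comp (LinearMap.snd ℂ A (B × B))
  let Lq : A × (B × B) →ₗ[ℂ] (Fin n → ℂ) := (LinearMap.snd ℂ B B).comp (LinearMap.snd ℂ A (B × B))
  unfold V0
  refine PK.inf (PK.inf (PK.inf ?_ ?_) ?_) ?_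
  · exact (PK_Dbl n 3 (Finset.univ.map Function.Embedding.inl)).comp
      (LinearMap.fst ℂ A (B × B))
  · refine PK.one (φ := fun x : A × (B × B) => ev n 3 (Lp x)) fun f => ?_
    simp only [ev_apply]
    exact (LP_eval (f : MvPolynomial (Fin n) ℂ)).comp_linear Lp
  · refine PK.one (φ := fun x : A × (B × B) => ev n 3 (Lq x)) fun f => ?_
    simp only [ev_apply]
    exact (LP_eval (f : MvPolynomial (Fin n) ℂ)).comp_linear Lq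
  · refine PK.one (φ := fun x : A × (B × B) => ec n 3 (Lp x) (Lq x)) fun f => ?_
    exact LP_ec n 3 Lp Lq f

theorem gen_V0 {n u : ℕ} (hL : S_LIN3) (h1 : 1 ≤ n) (h2 : n ≤ u) (h3 : GG n 3 (u + 1))
    (h4 : (n + 1) * (u + 1) < NN n 3) :
    Gen ℂ fun x => finrank ℂ (V0 n u x) ≤ NN n 3 - ((n + 2) * u + 3) := by
  obtain ⟨z, p, q, hz⟩ := hL n u h1 h2 h3 h4
  obtain ⟨y, hy⟩ := red (Y := Fin n → ℂ) (fun y => ev n 3 y)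
    (Dbl n 3 Finset.univ z ⊓ LinearMap.ker (ev n 3 p) ⊓ LinearMap.ker (ev n 3 q) ⊓
      LinearMap.ker (ec n 3 p q)) ⊥ (by
    intro w _ hw
    by_contra hc
    push Not at hc
    apply hw
    rw [Submodule.mem_bot]
    apply Subtype.ext
    apply MvPolynomial.funext
    intro x
    have := hc x
    rw [ev_apply] at this
    rw [this]
    simp) u
  have hle : V0 n u (Sum.elim z y, (p, q)) ≤
      (Dbl n 3 Finset.univ z ⊓ LinearMap.ker (ev n 3 p) ⊓ LinearMap.ker (ev n 3 q) ⊓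
      LinearMap.ker (ec n 3 p q)) ⊓ ⨅ i, LinearMap.ker (ev n 3 (y i)) := by
    rintro f ⟨⟨⟨hf1, hf2⟩, hf3⟩, hf4⟩
    obtain ⟨f1, f2⟩ := mem_Dbl.1 hf1
    refine ⟨⟨⟨⟨mem_Dbl.2 ⟨fun i => f1 (Sum.inl i), fun i _ k => f2 (Sum.inl i) (by simp) k⟩,
      hf2⟩, hf3⟩, hf4⟩, ?_⟩
    rw [SetLike.mem_coe, Submodule.mem_iInf]
    intro i
    rw [LinearMap.mem_ker, ev_apply]
    exact f1 (Sum.inr i)
  refine (PK_V0 n u).gen_finrank (x₀ := (Sum.elim z y, (p, q)))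
    ((Submodule.finrank_mono hle).trans (hy.trans ?_))
  rw [finrank_bot]
  refine max_le ?_ (Nat.zero_le _)
  have e : (n + 2) * u = (n + 1) * u + u := by ring
  omega

theorem PK_TS2 (n u v : ℕ) :
    PK (K := ℂ) fun x : ((Fin (2 * u) → Fin n → ℂ) × (Fin (2 * u) → Fin 2 → ℂ)) ×
      ((Fin v → Fin n → ℂ) × (Fin v → Fin 2 → ℂ)) ×
      ((Fin n → ℂ) × (Fin n → ℂ) × (Fin 2 → ℂ)) =>
    TS2 n x.1.1 x.1.2 x.2.1.1 x.2.1.2 x.2.2.1 x.2.2.2.1 x.2.2.2.2 := by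
  let A := (Fin (2 * u) → Fin n → ℂ) × (Fin (2 * u) → Fin 2 → ℂ)
  let B := (Fin v → Fin n → ℂ) × (Fin v → Fin 2 → ℂ)
  let C := (Fin n → ℂ) × (Fin n → ℂ) × (Fin 2 → ℂ)
  let LC : A × B × C →ₗ[ℂ] C := (LinearMap.snd ℂ B C).comp (LinearMap.snd ℂ A (B × C))
  let Lp : A × B × C →ₗ[ℂ] (Fin n → ℂ) :=
    (LinearMap.fst ℂ (Fin n → ℂ) ((Fin n → ℂ) × (Fin 2 → ℂ))).comp LC
  let Lq : A × B × C →ₗ[ℂ] (Fin n → ℂ) :=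
    (LinearMap.fst ℂ (Fin n → ℂ) (Fin 2 → ℂ)).comp
      ((LinearMap.snd ℂ (Fin n → ℂ) ((Fin n → ℂ) × (Fin 2 → ℂ))).comp LC)
  let Lb : A × B × C →ₗ[ℂ] (Fin 2 → ℂ) :=
    (LinearMap.snd ℂ (Fin n → ℂ) (Fin 2 → ℂ)).comp
      ((LinearMap.snd ℂ (Fin n → ℂ) ((Fin n → ℂ) × (Fin 2 → ℂ))).comp LC)
  have hb : ∀ j : Fin 2, LP (K := ℂ) fun x : A × B × C => Lb x j := fun j =>
    (LP_coord (n := 2) j).comp_linear Lb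
  unfold TS2
  refine PK.inf (PK.inf (PK.inf ?_ ?_) ?_) ?_
  · exact (TRCaux.PK_TS n (s := 2) (U := Fin (2 * u)) (V := Fin v)).comp
      (LinearMap.prod (LinearMap.fst ℂ A (B × C))
        ((LinearMap.fst ℂ B C).comp (LinearMap.snd ℂ A (B × C))))
  · refine PK.one (φ := fun x : A × B × C => om n 3 (Lp x) (Lb x)) fun f => ?_
    simp only [om_apply]
    exact LP.sum _ fun j _ => LP.mul (hb j)
      ((LP_eval (f j : MvPolynomial (Fin n) ℂ)).comp_linear Lp)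
  · refine PK.one (φ := fun x : A × B × C => om n 3 (Lq x) (Lb x)) fun f => ?_
    simp only [om_apply]
    exact LP.sum _ fun j _ => LP.mul (hb j)
      ((LP_eval (f j : MvPolynomial (Fin n) ℂ)).comp_linear Lq)
  · refine PK.one (φ := fun x : A × B × C => ecs n 3 (Lp x) (Lq x) (Lb x)) fun f => ?_
    simp only [ecs_apply]
    exact LP.sum _ fun j _ => LP.mul (hb j) (LP_ec n 3 Lp Lq (f j))

end TRC2aux

open _root_.Pool.Agent.WarC.TRC2aux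

theorem x_TRC2 (h : S_LIN3) : S_TRC2 := by
  intro n u v h1 h2 h3 h4 h5 h6
  have hG : GG n 3 u := GG.pred h3
  have g0 := gen_V0 h h1 h2 h3 h4
  have hS := SG n 3 (Fin u ⊕ Fin u) (Finset.univ.map Function.Embedding.inr) h1
    (by simpa using hG)
  have g1 := hS.comp (LinearMap.fst ℂ (Fin u ⊕ Fin u → Fin n → ℂ) ((Fin n → ℂ) × (Fin n → ℂ)))
    LinearMap.fst_surjective
  obtain ⟨⟨z, p, q⟩, hx0, hx1⟩ := (g0.and g1).exists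
  have e0 : (Fin (2 * u)) ≃ Fin u ⊕ Fin u := (finCongr (two_mul u)).trans finSumFinEquiv.symm
  set a : Fin u ⊕ Fin u → Fin 2 → ℂ :=
    Sum.elim (fun _ => Pi.single 0 1) (fun _ => Pi.single 1 1) with ha
  set β : Fin 2 → ℂ := Pi.single 0 1 with hβ
  set W : Submodule ℂ (Fin 2 → Pol n 3) :=
    FK n 3 (fun i : Fin (2 * u) => z (e0 i)) (fun i => a (e0 i)) ⊓ LinearMap.ker (om n 3 p β) ⊓
      LinearMap.ker (om n 3 q β) ⊓ LinearMap.ker (ecs n 3 p q β) with hW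
  set V1 : Submodule ℂ (Pol n 3) := Dbl n 3 (Finset.univ.map Function.Embedding.inr) z with hV1
  have hWle : W ≤ Submodule.pi Set.univ ![V0 n u (z, p, q), V1] := by
    rintro f ⟨⟨⟨hf1, hf2⟩, hf3⟩, hf4⟩
    obtain ⟨f1, f2⟩ := mem_FK.1 hf1
    have f1' : ∀ i j, eval (z i) (f j : MvPolynomial (Fin n) ℂ) = 0 := by
      intro i j
      have := f1 (e0.symm i) j
      simpa using this
    have f2' : ∀ i k, ∑ j, a i j * eval (z i) (pderiv k (f j : MvPolynomial (Fin n) ℂ)) = 0 := by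
      intro i k
      have := f2 (e0.symm i) k
      simpa using this
    have hp : eval p (f 0 : MvPolynomial (Fin n) ℂ) = 0 := by
      have : om n 3 p β f = 0 := hf2
      rw [om_apply] at this
      simpa [hβ, Fin.sum_univ_two] using this
    have hq : eval q (f 0 : MvPolynomial (Fin n) ℂ) = 0 := by
      have : om n 3 q β f = 0 := hf3
      rw [om_apply] at this
      simpa [hβ, Fin.sum_univ_two] using this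
    have hec : ec n 3 p q (f 0) = 0 := by
      have : ecs n 3 p q β f = 0 := hf4
      rw [ecs_apply] at this
      simpa [hβ, Fin.sum_univ_two] using this
    rw [Submodule.mem_pi]
    intro j _
    fin_cases j
    · change f 0 ∈ V0 n u (z, p, q)
      refine ⟨⟨⟨mem_Dbl.2 ⟨fun i => f1' i 0, fun i hi k => ?_⟩, ?_⟩, ?_⟩, hec⟩
      · rcases i with i | i
        · have := f2' (Sum.inl i) k
          simpa [ha, hβ, Fin.sum_univ_two] using this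
        · simp at hi
      · exact (ev_apply _ _).trans hp
      · exact (ev_apply _ _).trans hq
    · change f 1 ∈ V1
      rw [hV1]
      refine mem_Dbl.2 ⟨fun i => f1' i 1, fun i hi k => ?_⟩
      rcases i with i | i
      · simp at hi
      · have := f2' (Sum.inr i) k
        simpa [ha, hβ, Fin.sum_univ_two] using this
  have hfr : finrank ℂ W ≤ v := by
    refine (Submodule.finrank_mono hWle).trans ((finrank_pi_leC1 _).trans ?_)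
    rw [Fin.sum_univ_two]
    change finrank ℂ (V0 n u (z, p, q)) + finrank ℂ V1 ≤ v
    have hx1' : finrank ℂ V1 ≤ NN n 3 - (n * (Finset.univ.map
        (Function.Embedding.inr : Fin u ↪ Fin u ⊕ Fin u)).card + Fintype.card (Fin u ⊕ Fin u)) :=
      hx1
    rw [Finset.card_map, Finset.card_univ, Fintype.card_sum, Fintype.card_fin] at hx1'
    have e1 : (n + 2) * u = n * u + (u + u) := by ring
    have e2 : (n + 2) * (2 * u) = (n + 2) * u + (n + 2) * u := by ring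
    rw [e2] at h6
    omega
  obtain ⟨y, hy⟩ := red (fun y : (Fin n → ℂ) × (Fin 2 → ℂ) => om n 3 y.1 y.2) W ⊥
    (fun w _ hw => TRCaux.exists_om fun h => hw (by rw [h]; exact Submodule.zero_mem _)) v
  refine (PK_TS2 n u v).gen_bot (x₀ := ((fun i => z (e0 i), fun i => a (e0 i)),
    (fun i => (y i).1, fun i => (y i).2), (p, q, β))) ?_
  apply Submodule.finrank_eq_zero.1
  have hle : TS2 n (fun i => z (e0 i)) (fun i => a (e0 i)) (fun i => (y i).1) (fun i => (y i).2)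
      p q β ≤ W ⊓ ⨅ i, LinearMap.ker (om n 3 (y i).1 (y i).2) := by
    rintro f ⟨⟨⟨⟨hf0, hf1⟩, hf2⟩, hf3⟩, hf4⟩
    exact ⟨⟨⟨⟨hf0, hf2⟩, hf3⟩, hf4⟩, hf1⟩
  refine Nat.le_zero.1 ((Submodule.finrank_mono hle).trans (hy.trans ?_))
  rw [finrank_bot, Nat.max_zero]
  omega

end Pool.Agent.WarC


end

section

/-!
# Three seeds in five variables (MP_db021c_ag, degree 2)   (helper9)

Explicit configurations; the unknown coefficients vanish by explicit linear combinations.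
-/

set_option autoImplicit false

open Module

namespace Pool.Agent.WarR

section

variable {K : Type*} [Field K]

theorem bf5 {A : Fin 5 → Fin 5 → K} (hA : A ∈ SF K 5) (x0 x1 x2 x3 x4 y0 y1 y2 y3 y4 : K) :
    bf A ![x0, x1, x2, x3, x4] ![y0, y1, y2, y3, y4] =
      x0 * y0 * A 0 0 + x1 * y1 * A 1 1 + x2 * y2 * A 2 2 + x3 * y3 * A 3 3 + x4 * y4 * A 4 4 +
      (x0 * y1 + x1 * y0) * A 0 1 + (x0 * y2 + x2 * y0) * A 0 2 + (x0 * y3 + x3 * y0) * A 0 3 +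
      (x0 * y4 + x4 * y0) * A 0 4 + (x1 * y2 + x2 * y1) * A 1 2 + (x1 * y3 + x3 * y1) * A 1 3 +
      (x1 * y4 + x4 * y1) * A 1 4 + (x2 * y3 + x3 * y2) * A 2 3 + (x2 * y4 + x4 * y2) * A 2 4 +
      (x3 * y4 + x4 * y3) * A 3 4 := by
  have e := fun i j => hA i j
  simp only [bf, Fin.sum_univ_five, Matrix.cons_val]
  rw [e 1 0, e 2 0, e 3 0, e 4 0, e 2 1, e 3 1, e 4 1, e 3 2, e 4 2, e 4 3]
  ring

theorem zero5 {A : Fin 5 → Fin 5 → K} (hA : A ∈ SF K 5) (u00 : A 0 0 = 0) (u01 : A 0 1 = 0)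
    (u02 : A 0 2 = 0) (u03 : A 0 3 = 0) (u04 : A 0 4 = 0) (u11 : A 1 1 = 0) (u12 : A 1 2 = 0)
    (u13 : A 1 3 = 0) (u14 : A 1 4 = 0) (u22 : A 2 2 = 0) (u23 : A 2 3 = 0) (u24 : A 2 4 = 0)
    (u33 : A 3 3 = 0) (u34 : A 3 4 = 0) (u44 : A 4 4 = 0) : A = 0 := by
  have e := fun i j => hA i j
  funext i j
  change A i j = 0
  fin_cases i <;> fin_cases j <;> first | assumption | (rw [e]; assumption)

theorem finrank_zero_of {m b : ℕ} {I J : Type} {c : Cfg K m b I J}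
    (h : ∀ F ∈ ZK c, F = 0) : finrank K (ZK c) = 0 := by
  have : ZK c = ⊥ := (Submodule.eq_bot_iff _).2 h
  rw [this, finrank_bot]

variable [CharZero K]

/-- three forms, four full points, six simple points -/
theorem s1 : KQ K 5 3 4 6 0 := by
  refine ⟨((![![1, 0, 0, 0, 0], ![0, 1, 0, 0, 0], ![0, 0, 1, 0, 0], ![0, 0, 0, 1, 0]] : Fin 4 → Fin 5 → K),
    (![![1, 0, 0], ![0, 1, 0], ![0, 0, 1], ![1, 1, 1]] : Fin 4 → Fin 3 → K),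
    (![![0, 0, 0, 0, 1], ![1, 1, 0, 0, 1], ![0, 0, 1, 1, 1], ![1, 0, 1, 0, 1], ![0, 1, 0, 1, 1], ![1, 1, 1, 1, 1]] : Fin 6 → Fin 5 → K)), ?_⟩
  refine (finrank_zero_of fun F hF => ?_).le
  obtain ⟨h1, h2, h3⟩ := mem_ZK.1 hF
  have c0 : (F 0 : Fin 5 → Fin 5 → K) 0 0 = 0 := by
    linear_combination (bf5 (F 0).2 1 0 0 0 0 1 0 0 0 0).symm.trans (h1 0 0)
  have c1 : (F 1 : Fin 5 → Fin 5 → K) 0 0 = 0 := by
    linear_combination (bf5 (F 1).2 1 0 0 0 0 1 0 0 0 0).symm.trans (h1 0 1)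
  have c2 : (F 2 : Fin 5 → Fin 5 → K) 0 0 = 0 := by
    linear_combination (bf5 (F 2).2 1 0 0 0 0 1 0 0 0 0).symm.trans (h1 0 2)
  have c3 : (F 0 : Fin 5 → Fin 5 → K) 1 1 = 0 := by
    linear_combination (bf5 (F 0).2 0 1 0 0 0 0 1 0 0 0).symm.trans (h1 1 0)
  have c4 : (F 1 : Fin 5 → Fin 5 → K) 1 1 = 0 := by
    linear_combination (bf5 (F 1).2 0 1 0 0 0 0 1 0 0 0).symm.trans (h1 1 1)
  have c5 : (F 2 : Fin 5 → Fin 5 → K) 1 1 = 0 := by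
    linear_combination (bf5 (F 2).2 0 1 0 0 0 0 1 0 0 0).symm.trans (h1 1 2)
  have c6 : (F 0 : Fin 5 → Fin 5 → K) 2 2 = 0 := by
    linear_combination (bf5 (F 0).2 0 0 1 0 0 0 0 1 0 0).symm.trans (h1 2 0)
  have c7 : (F 1 : Fin 5 → Fin 5 → K) 2 2 = 0 := by
    linear_combination (bf5 (F 1).2 0 0 1 0 0 0 0 1 0 0).symm.trans (h1 2 1)
  have c8 : (F 2 : Fin 5 → Fin 5 → K) 2 2 = 0 := by
    linear_combination (bf5 (F 2).2 0 0 1 0 0 0 0 1 0 0).symm.trans (h1 2 2)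
  have c9 : (F 0 : Fin 5 → Fin 5 → K) 3 3 = 0 := by
    linear_combination (bf5 (F 0).2 0 0 0 1 0 0 0 0 1 0).symm.trans (h1 3 0)
  have c10 : (F 1 : Fin 5 → Fin 5 → K) 3 3 = 0 := by
    linear_combination (bf5 (F 1).2 0 0 0 1 0 0 0 0 1 0).symm.trans (h1 3 1)
  have c11 : (F 2 : Fin 5 → Fin 5 → K) 3 3 = 0 := by
    linear_combination (bf5 (F 2).2 0 0 0 1 0 0 0 0 1 0).symm.trans (h1 3 2)
  have c13 : (F 0 : Fin 5 → Fin 5 → K) 0 1 = 0 := by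
    have c : 1 * bf (F 0 : Fin 5 → Fin 5 → K) ![1, 0, 0, 0, 0] ![0, 1, 0, 0, 0] + 0 * bf (F 1 : Fin 5 → Fin 5 → K) ![1, 0, 0, 0, 0] ![0, 1, 0, 0, 0] + 0 * bf (F 2 : Fin 5 → Fin 5 → K) ![1, 0, 0, 0, 0] ![0, 1, 0, 0, 0] = 0 :=
      (Fin.sum_univ_three _).symm.trans (h2 0 ![0, 1, 0, 0, 0])
    rw [bf5 (F 0).2, bf5 (F 1).2, bf5 (F 2).2] at c
    linear_combination c
  have c14 : (F 0 : Fin 5 → Fin 5 → K) 0 2 = 0 := by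
    have c : 1 * bf (F 0 : Fin 5 → Fin 5 → K) ![1, 0, 0, 0, 0] ![0, 0, 1, 0, 0] + 0 * bf (F 1 : Fin 5 → Fin 5 → K) ![1, 0, 0, 0, 0] ![0, 0, 1, 0, 0] + 0 * bf (F 2 : Fin 5 → Fin 5 → K) ![1, 0, 0, 0, 0] ![0, 0, 1, 0, 0] = 0 :=
      (Fin.sum_univ_three _).symm.trans (h2 0 ![0, 0, 1, 0, 0])
    rw [bf5 (F 0).2, bf5 (F 1).2, bf5 (F 2).2] at c
    linear_combination c
  have c15 : (F 0 : Fin 5 → Fin 5 → K) 0 3 = 0 := by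
    have c : 1 * bf (F 0 : Fin 5 → Fin 5 → K) ![1, 0, 0, 0, 0] ![0, 0, 0, 1, 0] + 0 * bf (F 1 : Fin 5 → Fin 5 → K) ![1, 0, 0, 0, 0] ![0, 0, 0, 1, 0] + 0 * bf (F 2 : Fin 5 → Fin 5 → K) ![1, 0, 0, 0, 0] ![0, 0, 0, 1, 0] = 0 :=
      (Fin.sum_univ_three _).symm.trans (h2 0 ![0, 0, 0, 1, 0])
    rw [bf5 (F 0).2, bf5 (F 1).2, bf5 (F 2).2] at c
    linear_combination c
  have c16 : (F 0 : Fin 5 → Fin 5 → K) 0 4 = 0 := by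
    have c : 1 * bf (F 0 : Fin 5 → Fin 5 → K) ![1, 0, 0, 0, 0] ![0, 0, 0, 0, 1] + 0 * bf (F 1 : Fin 5 → Fin 5 → K) ![1, 0, 0, 0, 0] ![0, 0, 0, 0, 1] + 0 * bf (F 2 : Fin 5 → Fin 5 → K) ![1, 0, 0, 0, 0] ![0, 0, 0, 0, 1] = 0 :=
      (Fin.sum_univ_three _).symm.trans (h2 0 ![0, 0, 0, 0, 1])
    rw [bf5 (F 0).2, bf5 (F 1).2, bf5 (F 2).2] at c
    linear_combination c
  have c17 : (F 1 : Fin 5 → Fin 5 → K) 0 1 = 0 := by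
    have c : 0 * bf (F 0 : Fin 5 → Fin 5 → K) ![0, 1, 0, 0, 0] ![1, 0, 0, 0, 0] + 1 * bf (F 1 : Fin 5 → Fin 5 → K) ![0, 1, 0, 0, 0] ![1, 0, 0, 0, 0] + 0 * bf (F 2 : Fin 5 → Fin 5 → K) ![0, 1, 0, 0, 0] ![1, 0, 0, 0, 0] = 0 :=
      (Fin.sum_univ_three _).symm.trans (h2 1 ![1, 0, 0, 0, 0])
    rw [bf5 (F 0).2, bf5 (F 1).2, bf5 (F 2).2] at c
    linear_combination c
  have c19 : (F 1 : Fin 5 → Fin 5 → K) 1 2 = 0 := by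
    have c : 0 * bf (F 0 : Fin 5 → Fin 5 → K) ![0, 1, 0, 0, 0] ![0, 0, 1, 0, 0] + 1 * bf (F 1 : Fin 5 → Fin 5 → K) ![0, 1, 0, 0, 0] ![0, 0, 1, 0, 0] + 0 * bf (F 2 : Fin 5 → Fin 5 → K) ![0, 1, 0, 0, 0] ![0, 0, 1, 0, 0] = 0 :=
      (Fin.sum_univ_three _).symm.trans (h2 1 ![0, 0, 1, 0, 0])
    rw [bf5 (F 0).2, bf5 (F 1).2, bf5 (F 2).2] at c
    linear_combination c
  have c20 : (F 1 : Fin 5 → Fin 5 → K) 1 3 = 0 := by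
    have c : 0 * bf (F 0 : Fin 5 → Fin 5 → K) ![0, 1, 0, 0, 0] ![0, 0, 0, 1, 0] + 1 * bf (F 1 : Fin 5 → Fin 5 → K) ![0, 1, 0, 0, 0] ![0, 0, 0, 1, 0] + 0 * bf (F 2 : Fin 5 → Fin 5 → K) ![0, 1, 0, 0, 0] ![0, 0, 0, 1, 0] = 0 :=
      (Fin.sum_univ_three _).symm.trans (h2 1 ![0, 0, 0, 1, 0])
    rw [bf5 (F 0).2, bf5 (F 1).2, bf5 (F 2).2] at c
    linear_combination c
  have c21 : (F 1 : Fin 5 → Fin 5 → K) 1 4 = 0 := by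
    have c : 0 * bf (F 0 : Fin 5 → Fin 5 → K) ![0, 1, 0, 0, 0] ![0, 0, 0, 0, 1] + 1 * bf (F 1 : Fin 5 → Fin 5 → K) ![0, 1, 0, 0, 0] ![0, 0, 0, 0, 1] + 0 * bf (F 2 : Fin 5 → Fin 5 → K) ![0, 1, 0, 0, 0] ![0, 0, 0, 0, 1] = 0 :=
      (Fin.sum_univ_three _).symm.trans (h2 1 ![0, 0, 0, 0, 1])
    rw [bf5 (F 0).2, bf5 (F 1).2, bf5 (F 2).2] at c
    linear_combination c
  have c22 : (F 2 : Fin 5 → Fin 5 → K) 0 2 = 0 := by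
    have c : 0 * bf (F 0 : Fin 5 → Fin 5 → K) ![0, 0, 1, 0, 0] ![1, 0, 0, 0, 0] + 0 * bf (F 1 : Fin 5 → Fin 5 → K) ![0, 0, 1, 0, 0] ![1, 0, 0, 0, 0] + 1 * bf (F 2 : Fin 5 → Fin 5 → K) ![0, 0, 1, 0, 0] ![1, 0, 0, 0, 0] = 0 :=
      (Fin.sum_univ_three _).symm.trans (h2 2 ![1, 0, 0, 0, 0])
    rw [bf5 (F 0).2, bf5 (F 1).2, bf5 (F 2).2] at c
    linear_combination c
  have c23 : (F 2 : Fin 5 → Fin 5 → K) 1 2 = 0 := by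
    have c : 0 * bf (F 0 : Fin 5 → Fin 5 → K) ![0, 0, 1, 0, 0] ![0, 1, 0, 0, 0] + 0 * bf (F 1 : Fin 5 → Fin 5 → K) ![0, 0, 1, 0, 0] ![0, 1, 0, 0, 0] + 1 * bf (F 2 : Fin 5 → Fin 5 → K) ![0, 0, 1, 0, 0] ![0, 1, 0, 0, 0] = 0 :=
      (Fin.sum_univ_three _).symm.trans (h2 2 ![0, 1, 0, 0, 0])
    rw [bf5 (F 0).2, bf5 (F 1).2, bf5 (F 2).2] at c
    linear_combination c
  have c25 : (F 2 : Fin 5 → Fin 5 → K) 2 3 = 0 := by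
    have c : 0 * bf (F 0 : Fin 5 → Fin 5 → K) ![0, 0, 1, 0, 0] ![0, 0, 0, 1, 0] + 0 * bf (F 1 : Fin 5 → Fin 5 → K) ![0, 0, 1, 0, 0] ![0, 0, 0, 1, 0] + 1 * bf (F 2 : Fin 5 → Fin 5 → K) ![0, 0, 1, 0, 0] ![0, 0, 0, 1, 0] = 0 :=
      (Fin.sum_univ_three _).symm.trans (h2 2 ![0, 0, 0, 1, 0])
    rw [bf5 (F 0).2, bf5 (F 1).2, bf5 (F 2).2] at c
    linear_combination c
  have c26 : (F 2 : Fin 5 → Fin 5 → K) 2 4 = 0 := by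
    have c : 0 * bf (F 0 : Fin 5 → Fin 5 → K) ![0, 0, 1, 0, 0] ![0, 0, 0, 0, 1] + 0 * bf (F 1 : Fin 5 → Fin 5 → K) ![0, 0, 1, 0, 0] ![0, 0, 0, 0, 1] + 1 * bf (F 2 : Fin 5 → Fin 5 → K) ![0, 0, 1, 0, 0] ![0, 0, 0, 0, 1] = 0 :=
      (Fin.sum_univ_three _).symm.trans (h2 2 ![0, 0, 0, 0, 1])
    rw [bf5 (F 0).2, bf5 (F 1).2, bf5 (F 2).2] at c
    linear_combination c
  have c27 : (F 0 : Fin 5 → Fin 5 → K) 0 3 + (F 1 : Fin 5 → Fin 5 → K) 0 3 + (F 2 : Fin 5 → Fin 5 → K) 0 3 = 0 := by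
    have c : 1 * bf (F 0 : Fin 5 → Fin 5 → K) ![0, 0, 0, 1, 0] ![1, 0, 0, 0, 0] + 1 * bf (F 1 : Fin 5 → Fin 5 → K) ![0, 0, 0, 1, 0] ![1, 0, 0, 0, 0] + 1 * bf (F 2 : Fin 5 → Fin 5 → K) ![0, 0, 0, 1, 0] ![1, 0, 0, 0, 0] = 0 :=
      (Fin.sum_univ_three _).symm.trans (h2 3 ![1, 0, 0, 0, 0])
    rw [bf5 (F 0).2, bf5 (F 1).2, bf5 (F 2).2] at c
    linear_combination c
  have c28 : (F 0 : Fin 5 → Fin 5 → K) 1 3 + (F 1 : Fin 5 → Fin 5 → K) 1 3 + (F 2 : Fin 5 → Fin 5 → K) 1 3 = 0 := by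
    have c : 1 * bf (F 0 : Fin 5 → Fin 5 → K) ![0, 0, 0, 1, 0] ![0, 1, 0, 0, 0] + 1 * bf (F 1 : Fin 5 → Fin 5 → K) ![0, 0, 0, 1, 0] ![0, 1, 0, 0, 0] + 1 * bf (F 2 : Fin 5 → Fin 5 → K) ![0, 0, 0, 1, 0] ![0, 1, 0, 0, 0] = 0 :=
      (Fin.sum_univ_three _).symm.trans (h2 3 ![0, 1, 0, 0, 0])
    rw [bf5 (F 0).2, bf5 (F 1).2, bf5 (F 2).2] at c
    linear_combination c
  have c29 : (F 0 : Fin 5 → Fin 5 → K) 2 3 + (F 1 : Fin 5 → Fin 5 → K) 2 3 + (F 2 : Fin 5 → Fin 5 → K) 2 3 = 0 := by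
    have c : 1 * bf (F 0 : Fin 5 → Fin 5 → K) ![0, 0, 0, 1, 0] ![0, 0, 1, 0, 0] + 1 * bf (F 1 : Fin 5 → Fin 5 → K) ![0, 0, 0, 1, 0] ![0, 0, 1, 0, 0] + 1 * bf (F 2 : Fin 5 → Fin 5 → K) ![0, 0, 0, 1, 0] ![0, 0, 1, 0, 0] = 0 :=
      (Fin.sum_univ_three _).symm.trans (h2 3 ![0, 0, 1, 0, 0])
    rw [bf5 (F 0).2, bf5 (F 1).2, bf5 (F 2).2] at c
    linear_combination c
  have c31 : (F 0 : Fin 5 → Fin 5 → K) 3 4 + (F 1 : Fin 5 → Fin 5 → K) 3 4 + (F 2 : Fin 5 → Fin 5 → K) 3 4 = 0 := by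
    have c : 1 * bf (F 0 : Fin 5 → Fin 5 → K) ![0, 0, 0, 1, 0] ![0, 0, 0, 0, 1] + 1 * bf (F 1 : Fin 5 → Fin 5 → K) ![0, 0, 0, 1, 0] ![0, 0, 0, 0, 1] + 1 * bf (F 2 : Fin 5 → Fin 5 → K) ![0, 0, 0, 1, 0] ![0, 0, 0, 0, 1] = 0 :=
      (Fin.sum_univ_three _).symm.trans (h2 3 ![0, 0, 0, 0, 1])
    rw [bf5 (F 0).2, bf5 (F 1).2, bf5 (F 2).2] at c
    linear_combination c
  have c32 : (F 0 : Fin 5 → Fin 5 → K) 4 4 = 0 := by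
    linear_combination (bf5 (F 0).2 0 0 0 0 1 0 0 0 0 1).symm.trans (h3 0 0)
  have c33 : (F 1 : Fin 5 → Fin 5 → K) 4 4 = 0 := by
    linear_combination (bf5 (F 1).2 0 0 0 0 1 0 0 0 0 1).symm.trans (h3 0 1)
  have c34 : (F 2 : Fin 5 → Fin 5 → K) 4 4 = 0 := by
    linear_combination (bf5 (F 2).2 0 0 0 0 1 0 0 0 0 1).symm.trans (h3 0 2)
  have c35 : (F 0 : Fin 5 → Fin 5 → K) 0 0 + (2) * (F 0 : Fin 5 → Fin 5 → K) 0 1 + (2) * (F 0 : Fin 5 → Fin 5 → K) 0 4 + (F 0 : Fin 5 → Fin 5 → K) 1 1 + (2) * (F 0 : Fin 5 → Fin 5 → K) 1 4 + (F 0 : Fin 5 → Fin 5 → K) 4 4 = 0 := by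
    linear_combination (bf5 (F 0).2 1 1 0 0 1 1 1 0 0 1).symm.trans (h3 1 0)
  have c36 : (F 1 : Fin 5 → Fin 5 → K) 0 0 + (2) * (F 1 : Fin 5 → Fin 5 → K) 0 1 + (2) * (F 1 : Fin 5 → Fin 5 → K) 0 4 + (F 1 : Fin 5 → Fin 5 → K) 1 1 + (2) * (F 1 : Fin 5 → Fin 5 → K) 1 4 + (F 1 : Fin 5 → Fin 5 → K) 4 4 = 0 := by
    linear_combination (bf5 (F 1).2 1 1 0 0 1 1 1 0 0 1).symm.trans (h3 1 1)
  have c37 : (F 2 : Fin 5 → Fin 5 → K) 0 0 + (2) * (F 2 : Fin 5 → Fin 5 → K) 0 1 + (2) * (F 2 : Fin 5 → Fin 5 → K) 0 4 + (F 2 : Fin 5 → Fin 5 → K) 1 1 + (2) * (F 2 : Fin 5 → Fin 5 → K) 1 4 + (F 2 : Fin 5 → Fin 5 → K) 4 4 = 0 := by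
    linear_combination (bf5 (F 2).2 1 1 0 0 1 1 1 0 0 1).symm.trans (h3 1 2)
  have c38 : (F 0 : Fin 5 → Fin 5 → K) 2 2 + (2) * (F 0 : Fin 5 → Fin 5 → K) 2 3 + (2) * (F 0 : Fin 5 → Fin 5 → K) 2 4 + (F 0 : Fin 5 → Fin 5 → K) 3 3 + (2) * (F 0 : Fin 5 → Fin 5 → K) 3 4 + (F 0 : Fin 5 → Fin 5 → K) 4 4 = 0 := by
    linear_combination (bf5 (F 0).2 0 0 1 1 1 0 0 1 1 1).symm.trans (h3 2 0)
  have c39 : (F 1 : Fin 5 → Fin 5 → K) 2 2 + (2) * (F 1 : Fin 5 → Fin 5 → K) 2 3 + (2) * (F 1 : Fin 5 → Fin 5 → K) 2 4 + (F 1 : Fin 5 → Fin 5 → K) 3 3 + (2) * (F 1 : Fin 5 → Fin 5 → K) 3 4 + (F 1 : Fin 5 → Fin 5 → K) 4 4 = 0 := by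
    linear_combination (bf5 (F 1).2 0 0 1 1 1 0 0 1 1 1).symm.trans (h3 2 1)
  have c40 : (F 2 : Fin 5 → Fin 5 → K) 2 2 + (2) * (F 2 : Fin 5 → Fin 5 → K) 2 3 + (2) * (F 2 : Fin 5 → Fin 5 → K) 2 4 + (F 2 : Fin 5 → Fin 5 → K) 3 3 + (2) * (F 2 : Fin 5 → Fin 5 → K) 3 4 + (F 2 : Fin 5 → Fin 5 → K) 4 4 = 0 := by
    linear_combination (bf5 (F 2).2 0 0 1 1 1 0 0 1 1 1).symm.trans (h3 2 2)
  have c41 : (F 0 : Fin 5 → Fin 5 → K) 0 0 + (2) * (F 0 : Fin 5 → Fin 5 → K) 0 2 + (2) * (F 0 : Fin 5 → Fin 5 → K) 0 4 + (F 0 : Fin 5 → Fin 5 → K) 2 2 + (2) * (F 0 : Fin 5 → Fin 5 → K) 2 4 + (F 0 : Fin 5 → Fin 5 → K) 4 4 = 0 := by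
    linear_combination (bf5 (F 0).2 1 0 1 0 1 1 0 1 0 1).symm.trans (h3 3 0)
  have c42 : (F 1 : Fin 5 → Fin 5 → K) 0 0 + (2) * (F 1 : Fin 5 → Fin 5 → K) 0 2 + (2) * (F 1 : Fin 5 → Fin 5 → K) 0 4 + (F 1 : Fin 5 → Fin 5 → K) 2 2 + (2) * (F 1 : Fin 5 → Fin 5 → K) 2 4 + (F 1 : Fin 5 → Fin 5 → K) 4 4 = 0 := by
    linear_combination (bf5 (F 1).2 1 0 1 0 1 1 0 1 0 1).symm.trans (h3 3 1)
  have c43 : (F 2 : Fin 5 → Fin 5 → K) 0 0 + (2) * (F 2 : Fin 5 → Fin 5 → K) 0 2 + (2) * (F 2 : Fin 5 → Fin 5 → K) 0 4 + (F 2 : Fin 5 → Fin 5 → K) 2 2 + (2) * (F 2 : Fin 5 → Fin 5 → K) 2 4 + (F 2 : Fin 5 → Fin 5 → K) 4 4 = 0 := by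
    linear_combination (bf5 (F 2).2 1 0 1 0 1 1 0 1 0 1).symm.trans (h3 3 2)
  have c44 : (F 0 : Fin 5 → Fin 5 → K) 1 1 + (2) * (F 0 : Fin 5 → Fin 5 → K) 1 3 + (2) * (F 0 : Fin 5 → Fin 5 → K) 1 4 + (F 0 : Fin 5 → Fin 5 → K) 3 3 + (2) * (F 0 : Fin 5 → Fin 5 → K) 3 4 + (F 0 : Fin 5 → Fin 5 → K) 4 4 = 0 := by
    linear_combination (bf5 (F 0).2 0 1 0 1 1 0 1 0 1 1).symm.trans (h3 4 0)
  have c45 : (F 1 : Fin 5 → Fin 5 → K) 1 1 + (2) * (F 1 : Fin 5 → Fin 5 → K) 1 3 + (2) * (F 1 : Fin 5 → Fin 5 → K) 1 4 + (F 1 : Fin 5 → Fin 5 → K) 3 3 + (2) * (F 1 : Fin 5 → Fin 5 → K) 3 4 + (F 1 : Fin 5 → Fin 5 → K) 4 4 = 0 := by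
    linear_combination (bf5 (F 1).2 0 1 0 1 1 0 1 0 1 1).symm.trans (h3 4 1)
  have c46 : (F 2 : Fin 5 → Fin 5 → K) 1 1 + (2) * (F 2 : Fin 5 → Fin 5 → K) 1 3 + (2) * (F 2 : Fin 5 → Fin 5 → K) 1 4 + (F 2 : Fin 5 → Fin 5 → K) 3 3 + (2) * (F 2 : Fin 5 → Fin 5 → K) 3 4 + (F 2 : Fin 5 → Fin 5 → K) 4 4 = 0 := by
    linear_combination (bf5 (F 2).2 0 1 0 1 1 0 1 0 1 1).symm.trans (h3 4 2)
  have c47 : (F 0 : Fin 5 → Fin 5 → K) 0 0 + (2) * (F 0 : Fin 5 → Fin 5 → K) 0 1 + (2) * (F 0 : Fin 5 → Fin 5 → K) 0 2 + (2) * (F 0 : Fin 5 → Fin 5 → K) 0 3 + (2) * (F 0 : Fin 5 → Fin 5 → K) 0 4 + (F 0 : Fin 5 → Fin 5 → K) 1 1 + (2) * (F 0 : Fin 5 → Fin 5 → K) 1 2 + (2) * (F 0 : Fin 5 → Fin 5 → K) 1 3 + (2) * (F 0 : Fin 5 → Fin 5 → K) 1 4 + (F 0 : Fin 5 → Fin 5 → K) 2 2 + (2) * (F 0 : Fin 5 → Fin 5 → K) 2 3 + (2) * (F 0 : Fin 5 →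 Fin 5 → K) 2 4 + (F 0 : Fin 5 → Fin 5 → K) 3 3 + (2) * (F 0 : Fin 5 → Fin 5 → K) 3 4 + (F 0 : Fin 5 → Fin 5 → K) 4 4 = 0 := by
    linear_combination (bf5 (F 0).2 1 1 1 1 1 1 1 1 1 1).symm.trans (h3 5 0)
  have c48 : (F 1 : Fin 5 → Fin 5 → K) 0 0 + (2) * (F 1 : Fin 5 → Fin 5 → K) 0 1 + (2) * (F 1 : Fin 5 → Fin 5 → K) 0 2 + (2) * (F 1 : Fin 5 → Fin 5 → K) 0 3 + (2) * (F 1 : Fin 5 → Fin 5 → K) 0 4 + (F 1 : Fin 5 → Fin 5 → K) 1 1 + (2) * (F 1 : Fin 5 → Fin 5 → K) 1 2 + (2) * (F 1 : Fin 5 → Fin 5 → K) 1 3 + (2) * (F 1 : Fin 5 → Fin 5 → K) 1 4 + (F 1 : Fin 5 → Fin 5 → K) 2 2 + (2) * (F 1 : Fin 5 → Fin 5 → K) 2 3 + (2) * (F 1 : Fin 5 → Fin 5 → K) 2 4 + (F 1 : Fin 5 → Fin 5 → K) 3 3 + (2) * (F 1 : Fin 5 → Fin 5 → K) 3 4 + (F 1 : Fin 5 → Fin 5 → K) 4 4 = 0 := by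
    linear_combination (bf5 (F 1).2 1 1 1 1 1 1 1 1 1 1).symm.trans (h3 5 1)
  have z0 : (F 0 : Fin 5 → Fin 5 → K) = 0 := by
    have u00 : (F 0 : Fin 5 → Fin 5 → K) 0 0 = 0 := by
      linear_combination (1) * c0
    have u01 : (F 0 : Fin 5 → Fin 5 → K) 0 1 = 0 := by
      linear_combination (1) * c13
    have u02 : (F 0 : Fin 5 → Fin 5 → K) 0 2 = 0 := by
      linear_combination (1) * c14
    have u03 : (F 0 : Fin 5 → Fin 5 → K) 0 3 = 0 := by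
      linear_combination (1) * c15
    have u04 : (F 0 : Fin 5 → Fin 5 → K) 0 4 = 0 := by
      linear_combination (1) * c16
    have u11 : (F 0 : Fin 5 → Fin 5 → K) 1 1 = 0 := by
      linear_combination (1) * c3
    have u12 : (F 0 : Fin 5 → Fin 5 → K) 1 2 = 0 := by
      linear_combination (-1 / 2) * c0 + (1 / 2) * c4 + (1 / 2) * c8 + (1 / 2) * c9 + (1 / 2) * c10 + (1 / 2) * c11 + (-1) * c13 + (-1) * c14 + (-1) * c15 + (-1) * c16 + (1) * c20 + (1) * c21 + (1) * c25 + (1) * c26 + (1) * c31 + (1 / 2) * c32 + (1 / 2) * c33 + (1 / 2) * c34 + (-1 / 2) * c38 + (-1 / 2) * c40 + (-1 / 2) * c44 + (-1 / 2) * c45 + (1 / 2) * c47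
    have u13 : (F 0 : Fin 5 → Fin 5 → K) 1 3 = 0 := by
      linear_combination (1 / 2) * c0 + (-1 / 2) * c4 + (-1 / 2) * c8 + (-1 / 2) * c9 + (-1 / 2) * c10 + (-1 / 2) * c11 + (1) * c13 + (1) * c16 + (-1) * c20 + (-1) * c21 + (-1) * c25 + (-1) * c26 + (-1) * c31 + (-1 / 2) * c33 + (-1 / 2) * c34 + (-1 / 2) * c35 + (1 / 2) * c40 + (1 / 2) * c44 + (1 / 2) * c45
    have u14 : (F 0 : Fin 5 → Fin 5 → K) 1 4 = 0 := by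
      linear_combination (-1 / 2) * c0 + (-1 / 2) * c3 + (-1) * c13 + (-1) * c16 + (-1 / 2) * c32 + (1 / 2) * c35
    have u22 : (F 0 : Fin 5 → Fin 5 → K) 2 2 = 0 := by
      linear_combination (1) * c6
    have u23 : (F 0 : Fin 5 → Fin 5 → K) 2 3 = 0 := by
      linear_combination (1 / 2) * c0 + (-1 / 2) * c4 + (-1 / 2) * c8 + (-1 / 2) * c9 + (-1 / 2) * c10 + (-1 / 2) * c11 + (1) * c14 + (1) * c16 + (-1) * c20 + (-1) * c21 + (-1) * c25 + (-1) * c26 + (-1) * c31 + (-1 / 2) * c33 + (-1 / 2) * c34 + (1 / 2) * c38 + (1 / 2) * c40 + (-1 / 2) * c41 + (1 / 2) * c45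
    have u24 : (F 0 : Fin 5 → Fin 5 → K) 2 4 = 0 := by
      linear_combination (-1 / 2) * c0 + (-1 / 2) * c6 + (-1) * c14 + (-1) * c16 + (-1 / 2) * c32 + (1 / 2) * c41
    have u33 : (F 0 : Fin 5 → Fin 5 → K) 3 3 = 0 := by
      linear_combination (1) * c9
    have u34 : (F 0 : Fin 5 → Fin 5 → K) 3 4 = 0 := by
      linear_combination (1 / 2) * c4 + (1 / 2) * c8 + (1 / 2) * c10 + (1 / 2) * c11 + (1) * c20 + (1) * c21 + (1) * c25 + (1) * c26 + (1) * c31 + (1 / 2) * c33 + (1 / 2) * c34 + (-1 / 2) * c40 + (-1 / 2) * c45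
    have u44 : (F 0 : Fin 5 → Fin 5 → K) 4 4 = 0 := by
      linear_combination (1) * c32
    exact zero5 (F 0).2 u00 u01 u02 u03 u04 u11 u12 u13 u14 u22 u23 u24 u33 u34 u44
  have z1 : (F 1 : Fin 5 → Fin 5 → K) = 0 := by
    have u00 : (F 1 : Fin 5 → Fin 5 → K) 0 0 = 0 := by
      linear_combination (1) * c1
    have u01 : (F 1 : Fin 5 → Fin 5 → K) 0 1 = 0 := by
      linear_combination (1) * c17
    have u02 : (F 1 : Fin 5 → Fin 5 → K) 0 2 = 0 := by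
      linear_combination (-1 / 2) * c0 + (1 / 2) * c4 + (1 / 2) * c8 + (1 / 2) * c9 + (1 / 2) * c10 + (1 / 2) * c11 + (-1) * c14 + (-1) * c16 + (1) * c17 + (1) * c21 + (1) * c26 + (1) * c29 + (1) * c31 + (1 / 2) * c33 + (1 / 2) * c34 + (-1 / 2) * c36 + (-1 / 2) * c38 + (-1 / 2) * c39 + (-1 / 2) * c40 + (1 / 2) * c41 + (1 / 2) * c42
    have u03 : (F 1 : Fin 5 → Fin 5 → K) 0 3 = 0 := by
      linear_combination (1 / 2) * c0 + (-1 / 2) * c4 + (-1 / 2) * c8 + (-1 / 2) * c9 + (-1 / 2) * c10 + (-1 / 2) * c11 + (1) * c14 + (1) * c16 + (-1) * c17 + (-1) * c19 + (-1) * c20 + (-1) * c21 + (-1) * c26 + (-1) * c29 + (-1) * c31 + (-1 / 2) * c34 + (1 / 2) * c38 + (1 / 2) * c40 + (-1 / 2) * c41 + (-1 / 2) * c42 + (1 / 2) * c48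
    have u04 : (F 1 : Fin 5 → Fin 5 → K) 0 4 = 0 := by
      linear_combination (-1 / 2) * c1 + (-1 / 2) * c4 + (-1) * c17 + (-1) * c21 + (-1 / 2) * c33 + (1 / 2) * c36
    have u11 : (F 1 : Fin 5 → Fin 5 → K) 1 1 = 0 := by
      linear_combination (1) * c4
    have u12 : (F 1 : Fin 5 → Fin 5 → K) 1 2 = 0 := by
      linear_combination (1) * c19
    have u13 : (F 1 : Fin 5 → Fin 5 → K) 1 3 = 0 := by
      linear_combination (1) * c20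
    have u14 : (F 1 : Fin 5 → Fin 5 → K) 1 4 = 0 := by
      linear_combination (1) * c21
    have u22 : (F 1 : Fin 5 → Fin 5 → K) 2 2 = 0 := by
      linear_combination (1) * c7
    have u23 : (F 1 : Fin 5 → Fin 5 → K) 2 3 = 0 := by
      linear_combination (-1 / 2) * c0 + (1 / 2) * c4 + (1 / 2) * c8 + (1 / 2) * c9 + (1 / 2) * c10 + (1 / 2) * c11 + (-1) * c14 + (-1) * c16 + (1) * c20 + (1) * c21 + (1) * c26 + (1) * c29 + (1) * c31 + (1 / 2) * c33 + (1 / 2) * c34 + (-1 / 2) * c38 + (-1 / 2) * c40 + (1 / 2) * c41 + (-1 / 2) * c45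
    have u24 : (F 1 : Fin 5 → Fin 5 → K) 2 4 = 0 := by
      linear_combination (1 / 2) * c0 + (-1 / 2) * c7 + (-1 / 2) * c8 + (-1 / 2) * c9 + (-1 / 2) * c10 + (-1 / 2) * c11 + (1) * c14 + (1) * c16 + (-1) * c26 + (-1) * c29 + (-1) * c31 + (-1 / 2) * c33 + (-1 / 2) * c34 + (1 / 2) * c38 + (1 / 2) * c39 + (1 / 2) * c40 + (-1 / 2) * c41
    have u33 : (F 1 : Fin 5 → Fin 5 → K) 3 3 = 0 := by
      linear_combination (1) * c10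
    have u34 : (F 1 : Fin 5 → Fin 5 → K) 3 4 = 0 := by
      linear_combination (-1 / 2) * c4 + (-1 / 2) * c10 + (-1) * c20 + (-1) * c21 + (-1 / 2) * c33 + (1 / 2) * c45
    have u44 : (F 1 : Fin 5 → Fin 5 → K) 4 4 = 0 := by
      linear_combination (1) * c33
    exact zero5 (F 1).2 u00 u01 u02 u03 u04 u11 u12 u13 u14 u22 u23 u24 u33 u34 u44
  have z2 : (F 2 : Fin 5 → Fin 5 → K) = 0 := by
    have u00 : (F 2 : Fin 5 → Fin 5 → K) 0 0 = 0 := by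
      linear_combination (1) * c2
    have u01 : (F 2 : Fin 5 → Fin 5 → K) 0 1 = 0 := by
      linear_combination (-1 / 2) * c0 + (1 / 2) * c4 + (1 / 2) * c8 + (1 / 2) * c9 + (1 / 2) * c10 + (1 / 2) * c11 + (-1) * c13 + (-1) * c16 + (1) * c21 + (1) * c22 + (1) * c26 + (1) * c28 + (1) * c31 + (1 / 2) * c33 + (1 / 2) * c34 + (1 / 2) * c35 + (1 / 2) * c37 + (-1 / 2) * c43 + (-1 / 2) * c44 + (-1 / 2) * c45 + (-1 / 2) * c46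
    have u02 : (F 2 : Fin 5 → Fin 5 → K) 0 2 = 0 := by
      linear_combination (1) * c22
    have u03 : (F 2 : Fin 5 → Fin 5 → K) 0 3 = 0 := by
      linear_combination (-1 / 2) * c0 + (1 / 2) * c4 + (1 / 2) * c8 + (1 / 2) * c9 + (1 / 2) * c10 + (1 / 2) * c11 + (-1) * c14 + (-1) * c15 + (-1) * c16 + (1) * c17 + (1) * c19 + (1) * c20 + (1) * c21 + (1) * c26 + (1) * c27 + (1) * c29 + (1) * c31 + (1 / 2) * c34 + (-1 / 2) * c38 + (-1 / 2) * c40 + (1 / 2) * c41 + (1 / 2) * c42 + (-1 / 2) * c48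
    have u04 : (F 2 : Fin 5 → Fin 5 → K) 0 4 = 0 := by
      linear_combination (-1 / 2) * c2 + (-1 / 2) * c8 + (-1) * c22 + (-1) * c26 + (-1 / 2) * c34 + (1 / 2) * c43
    have u11 : (F 2 : Fin 5 → Fin 5 → K) 1 1 = 0 := by
      linear_combination (1) * c5
    have u12 : (F 2 : Fin 5 → Fin 5 → K) 1 2 = 0 := by
      linear_combination (1) * c23
    have u13 : (F 2 : Fin 5 → Fin 5 → K) 1 3 = 0 := by
      linear_combination (-1 / 2) * c0 + (1 / 2) * c4 + (1 / 2) * c8 + (1 / 2) * c9 + (1 / 2) * c10 + (1 / 2) * c11 + (-1) * c13 + (-1) * c16 + (1) * c21 + (1) * c25 + (1) * c26 + (1) * c28 + (1) * c31 + (1 / 2) * c33 + (1 / 2) * c34 + (1 / 2) * c35 + (-1 / 2) * c40 + (-1 / 2) * c44 + (-1 / 2) * c45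
    have u14 : (F 2 : Fin 5 → Fin 5 → K) 1 4 = 0 := by
      linear_combination (1 / 2) * c0 + (-1 / 2) * c4 + (-1 / 2) * c5 + (-1 / 2) * c9 + (-1 / 2) * c10 + (-1 / 2) * c11 + (1) * c13 + (1) * c16 + (-1) * c21 + (-1) * c28 + (-1) * c31 + (-1 / 2) * c33 + (-1 / 2) * c34 + (-1 / 2) * c35 + (1 / 2) * c44 + (1 / 2) * c45 + (1 / 2) * c46
    have u22 : (F 2 : Fin 5 → Fin 5 → K) 2 2 = 0 := by
      linear_combination (1) * c8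
    have u23 : (F 2 : Fin 5 → Fin 5 → K) 2 3 = 0 := by
      linear_combination (1) * c25
    have u24 : (F 2 : Fin 5 → Fin 5 → K) 2 4 = 0 := by
      linear_combination (1) * c26
    have u33 : (F 2 : Fin 5 → Fin 5 → K) 3 3 = 0 := by
      linear_combination (1) * c11
    have u34 : (F 2 : Fin 5 → Fin 5 → K) 3 4 = 0 := by
      linear_combination (-1 / 2) * c8 + (-1 / 2) * c11 + (-1) * c25 + (-1) * c26 + (-1 / 2) * c34 + (1 / 2) * c40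
    have u44 : (F 2 : Fin 5 → Fin 5 → K) 4 4 = 0 := by
      linear_combination (1) * c34
    exact zero5 (F 2).2 u00 u01 u02 u03 u04 u11 u12 u13 u14 u22 u23 u24 u33 u34 u44
  funext j
  apply Subtype.ext
  fin_cases j
  · exact z0
  · exact z1
  · exact z2

/-- four forms, five full points, five simple points -/
theorem s2 : KQ K 5 4 5 5 0 := by
  refine ⟨((![![1, 0, 0, 0, 0], ![0, 1, 0, 0, 0], ![0, 0, 1, 0, 0], ![0, 0, 0, 1, 0], ![0, 0, 0, 0, 1]] : Fin 5 → Fin 5 → K),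
    (![![1, 0, 0, 0], ![0, 1, 0, 0], ![0, 0, 1, 0], ![0, 0, 0, 1], ![1, 1, 1, 1]] : Fin 5 → Fin 4 → K),
    (![![0, 1, 1, 1, 0], ![1, 0, 1, 1, 0], ![0, 1, 1, 0, 1], ![1, 1, 0, 0, 1], ![1, 0, 0, 1, 1]] : Fin 5 → Fin 5 → K)), ?_⟩
  refine (finrank_zero_of fun F hF => ?_).le
  obtain ⟨h1, h2, h3⟩ := mem_ZK.1 hF
  have c0 : (F 0 : Fin 5 → Fin 5 → K) 0 0 = 0 := by
    linear_combination (bf5 (F 0).2 1 0 0 0 0 1 0 0 0 0).symm.trans (h1 0 0)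
  have c1 : (F 1 : Fin 5 → Fin 5 → K) 0 0 = 0 := by
    linear_combination (bf5 (F 1).2 1 0 0 0 0 1 0 0 0 0).symm.trans (h1 0 1)
  have c2 : (F 2 : Fin 5 → Fin 5 → K) 0 0 = 0 := by
    linear_combination (bf5 (F 2).2 1 0 0 0 0 1 0 0 0 0).symm.trans (h1 0 2)
  have c3 : (F 3 : Fin 5 → Fin 5 → K) 0 0 = 0 := by
    linear_combination (bf5 (F 3).2 1 0 0 0 0 1 0 0 0 0).symm.trans (h1 0 3)
  have c4 : (F 0 : Fin 5 → Fin 5 → K) 1 1 = 0 := by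
    linear_combination (bf5 (F 0).2 0 1 0 0 0 0 1 0 0 0).symm.trans (h1 1 0)
  have c5 : (F 1 : Fin 5 → Fin 5 → K) 1 1 = 0 := by
    linear_combination (bf5 (F 1).2 0 1 0 0 0 0 1 0 0 0).symm.trans (h1 1 1)
  have c6 : (F 2 : Fin 5 → Fin 5 → K) 1 1 = 0 := by
    linear_combination (bf5 (F 2).2 0 1 0 0 0 0 1 0 0 0).symm.trans (h1 1 2)
  have c7 : (F 3 : Fin 5 → Fin 5 → K) 1 1 = 0 := by
    linear_combination (bf5 (F 3).2 0 1 0 0 0 0 1 0 0 0).symm.trans (h1 1 3)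
  have c8 : (F 0 : Fin 5 → Fin 5 → K) 2 2 = 0 := by
    linear_combination (bf5 (F 0).2 0 0 1 0 0 0 0 1 0 0).symm.trans (h1 2 0)
  have c9 : (F 1 : Fin 5 → Fin 5 → K) 2 2 = 0 := by
    linear_combination (bf5 (F 1).2 0 0 1 0 0 0 0 1 0 0).symm.trans (h1 2 1)
  have c10 : (F 2 : Fin 5 → Fin 5 → K) 2 2 = 0 := by
    linear_combination (bf5 (F 2).2 0 0 1 0 0 0 0 1 0 0).symm.trans (h1 2 2)
  have c11 : (F 3 : Fin 5 → Fin 5 → K) 2 2 = 0 := by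
    linear_combination (bf5 (F 3).2 0 0 1 0 0 0 0 1 0 0).symm.trans (h1 2 3)
  have c12 : (F 0 : Fin 5 → Fin 5 → K) 3 3 = 0 := by
    linear_combination (bf5 (F 0).2 0 0 0 1 0 0 0 0 1 0).symm.trans (h1 3 0)
  have c13 : (F 1 : Fin 5 → Fin 5 → K) 3 3 = 0 := by
    linear_combination (bf5 (F 1).2 0 0 0 1 0 0 0 0 1 0).symm.trans (h1 3 1)
  have c14 : (F 2 : Fin 5 → Fin 5 → K) 3 3 = 0 := by
    linear_combination (bf5 (F 2).2 0 0 0 1 0 0 0 0 1 0).symm.trans (h1 3 2)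
  have c15 : (F 3 : Fin 5 → Fin 5 → K) 3 3 = 0 := by
    linear_combination (bf5 (F 3).2 0 0 0 1 0 0 0 0 1 0).symm.trans (h1 3 3)
  have c16 : (F 0 : Fin 5 → Fin 5 → K) 4 4 = 0 := by
    linear_combination (bf5 (F 0).2 0 0 0 0 1 0 0 0 0 1).symm.trans (h1 4 0)
  have c17 : (F 1 : Fin 5 → Fin 5 → K) 4 4 = 0 := by
    linear_combination (bf5 (F 1).2 0 0 0 0 1 0 0 0 0 1).symm.trans (h1 4 1)
  have c18 : (F 2 : Fin 5 → Fin 5 → K) 4 4 = 0 := by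
    linear_combination (bf5 (F 2).2 0 0 0 0 1 0 0 0 0 1).symm.trans (h1 4 2)
  have c19 : (F 3 : Fin 5 → Fin 5 → K) 4 4 = 0 := by
    linear_combination (bf5 (F 3).2 0 0 0 0 1 0 0 0 0 1).symm.trans (h1 4 3)
  have c21 : (F 0 : Fin 5 → Fin 5 → K) 0 1 = 0 := by
    have c : 1 * bf (F 0 : Fin 5 → Fin 5 → K) ![1, 0, 0, 0, 0] ![0, 1, 0, 0, 0] + 0 * bf (F 1 : Fin 5 → Fin 5 → K) ![1, 0, 0, 0, 0] ![0, 1, 0, 0, 0] + 0 * bf (F 2 : Fin 5 → Fin 5 → K) ![1, 0, 0, 0, 0] ![0, 1, 0, 0, 0] + 0 * bf (F 3 : Fin 5 → Fin 5 → K) ![1, 0, 0, 0, 0] ![0, 1, 0, 0, 0] = 0 :=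
      (Fin.sum_univ_four _).symm.trans (h2 0 ![0, 1, 0, 0, 0])
    rw [bf5 (F 0).2, bf5 (F 1).2, bf5 (F 2).2, bf5 (F 3).2] at c
    linear_combination c
  have c22 : (F 0 : Fin 5 → Fin 5 → K) 0 2 = 0 := by
    have c : 1 * bf (F 0 : Fin 5 → Fin 5 → K) ![1, 0, 0, 0, 0] ![0, 0, 1, 0, 0] + 0 * bf (F 1 : Fin 5 → Fin 5 → K) ![1, 0, 0, 0, 0] ![0, 0, 1, 0, 0] + 0 * bf (F 2 : Fin 5 → Fin 5 → K) ![1, 0, 0, 0, 0] ![0, 0, 1, 0, 0] + 0 * bf (F 3 : Fin 5 → Fin 5 → K) ![1, 0, 0, 0, 0] ![0, 0, 1, 0, 0] = 0 :=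
      (Fin.sum_univ_four _).symm.trans (h2 0 ![0, 0, 1, 0, 0])
    rw [bf5 (F 0).2, bf5 (F 1).2, bf5 (F 2).2, bf5 (F 3).2] at c
    linear_combination c
  have c23 : (F 0 : Fin 5 → Fin 5 → K) 0 3 = 0 := by
    have c : 1 * bf (F 0 : Fin 5 → Fin 5 → K) ![1, 0, 0, 0, 0] ![0, 0, 0, 1, 0] + 0 * bf (F 1 : Fin 5 → Fin 5 → K) ![1, 0, 0, 0, 0] ![0, 0, 0, 1, 0] + 0 * bf (F 2 : Fin 5 → Fin 5 → K) ![1, 0, 0, 0, 0] ![0, 0, 0, 1, 0] + 0 * bf (F 3 : Fin 5 → Fin 5 → K) ![1, 0, 0, 0, 0] ![0, 0, 0, 1, 0] = 0 :=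
      (Fin.sum_univ_four _).symm.trans (h2 0 ![0, 0, 0, 1, 0])
    rw [bf5 (F 0).2, bf5 (F 1).2, bf5 (F 2).2, bf5 (F 3).2] at c
    linear_combination c
  have c24 : (F 0 : Fin 5 → Fin 5 → K) 0 4 = 0 := by
    have c : 1 * bf (F 0 : Fin 5 → Fin 5 → K) ![1, 0, 0, 0, 0] ![0, 0, 0, 0, 1] + 0 * bf (F 1 : Fin 5 → Fin 5 → K) ![1, 0, 0, 0, 0] ![0, 0, 0, 0, 1] + 0 * bf (F 2 : Fin 5 → Fin 5 → K) ![1, 0, 0, 0, 0] ![0, 0, 0, 0, 1] + 0 * bf (F 3 : Fin 5 → Fin 5 → K) ![1, 0, 0, 0, 0] ![0, 0, 0, 0, 1] = 0 :=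
      (Fin.sum_univ_four _).symm.trans (h2 0 ![0, 0, 0, 0, 1])
    rw [bf5 (F 0).2, bf5 (F 1).2, bf5 (F 2).2, bf5 (F 3).2] at c
    linear_combination c
  have c25 : (F 1 : Fin 5 → Fin 5 → K) 0 1 = 0 := by
    have c : 0 * bf (F 0 : Fin 5 → Fin 5 → K) ![0, 1, 0, 0, 0] ![1, 0, 0, 0, 0] + 1 * bf (F 1 : Fin 5 → Fin 5 → K) ![0, 1, 0, 0, 0] ![1, 0, 0, 0, 0] + 0 * bf (F 2 : Fin 5 → Fin 5 → K) ![0, 1, 0, 0, 0] ![1, 0, 0, 0, 0] + 0 * bf (F 3 : Fin 5 → Fin 5 → K) ![0, 1, 0, 0, 0] ![1, 0, 0, 0, 0] = 0 :=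
      (Fin.sum_univ_four _).symm.trans (h2 1 ![1, 0, 0, 0, 0])
    rw [bf5 (F 0).2, bf5 (F 1).2, bf5 (F 2).2, bf5 (F 3).2] at c
    linear_combination c
  have c27 : (F 1 : Fin 5 → Fin 5 → K) 1 2 = 0 := by
    have c : 0 * bf (F 0 : Fin 5 → Fin 5 → K) ![0, 1, 0, 0, 0] ![0, 0, 1, 0, 0] + 1 * bf (F 1 : Fin 5 → Fin 5 → K) ![0, 1, 0, 0, 0] ![0, 0, 1, 0, 0] + 0 * bf (F 2 : Fin 5 → Fin 5 → K) ![0, 1, 0, 0, 0] ![0, 0, 1, 0, 0] + 0 * bf (F 3 : Fin 5 → Fin 5 → K) ![0, 1, 0, 0, 0] ![0, 0, 1, 0, 0] = 0 :=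
      (Fin.sum_univ_four _).symm.trans (h2 1 ![0, 0, 1, 0, 0])
    rw [bf5 (F 0).2, bf5 (F 1).2, bf5 (F 2).2, bf5 (F 3).2] at c
    linear_combination c
  have c28 : (F 1 : Fin 5 → Fin 5 → K) 1 3 = 0 := by
    have c : 0 * bf (F 0 : Fin 5 → Fin 5 → K) ![0, 1, 0, 0, 0] ![0, 0, 0, 1, 0] + 1 * bf (F 1 : Fin 5 → Fin 5 → K) ![0, 1, 0, 0, 0] ![0, 0, 0, 1, 0] + 0 * bf (F 2 : Fin 5 → Fin 5 → K) ![0, 1, 0, 0, 0] ![0, 0, 0, 1, 0] + 0 * bf (F 3 : Fin 5 → Fin 5 → K) ![0, 1, 0, 0, 0] ![0, 0, 0, 1, 0] = 0 :=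
      (Fin.sum_univ_four _).symm.trans (h2 1 ![0, 0, 0, 1, 0])
    rw [bf5 (F 0).2, bf5 (F 1).2, bf5 (F 2).2, bf5 (F 3).2] at c
    linear_combination c
  have c29 : (F 1 : Fin 5 → Fin 5 → K) 1 4 = 0 := by
    have c : 0 * bf (F 0 : Fin 5 → Fin 5 → K) ![0, 1, 0, 0, 0] ![0, 0, 0, 0, 1] + 1 * bf (F 1 : Fin 5 → Fin 5 → K) ![0, 1, 0, 0, 0] ![0, 0, 0, 0, 1] + 0 * bf (F 2 : Fin 5 → Fin 5 → K) ![0, 1, 0, 0, 0] ![0, 0, 0, 0, 1] + 0 * bf (F 3 : Fin 5 → Fin 5 → K) ![0, 1, 0, 0, 0] ![0, 0, 0, 0, 1] = 0 :=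
      (Fin.sum_univ_four _).symm.trans (h2 1 ![0, 0, 0, 0, 1])
    rw [bf5 (F 0).2, bf5 (F 1).2, bf5 (F 2).2, bf5 (F 3).2] at c
    linear_combination c
  have c30 : (F 2 : Fin 5 → Fin 5 → K) 0 2 = 0 := by
    have c : 0 * bf (F 0 : Fin 5 → Fin 5 → K) ![0, 0, 1, 0, 0] ![1, 0, 0, 0, 0] + 0 * bf (F 1 : Fin 5 → Fin 5 → K) ![0, 0, 1, 0, 0] ![1, 0, 0, 0, 0] + 1 * bf (F 2 : Fin 5 → Fin 5 → K) ![0, 0, 1, 0, 0] ![1, 0, 0, 0, 0] + 0 * bf (F 3 : Fin 5 → Fin 5 → K) ![0, 0, 1, 0, 0] ![1, 0, 0, 0, 0] = 0 :=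
      (Fin.sum_univ_four _).symm.trans (h2 2 ![1, 0, 0, 0, 0])
    rw [bf5 (F 0).2, bf5 (F 1).2, bf5 (F 2).2, bf5 (F 3).2] at c
    linear_combination c
  have c31 : (F 2 : Fin 5 → Fin 5 → K) 1 2 = 0 := by
    have c : 0 * bf (F 0 : Fin 5 → Fin 5 → K) ![0, 0, 1, 0, 0] ![0, 1, 0, 0, 0] + 0 * bf (F 1 : Fin 5 → Fin 5 → K) ![0, 0, 1, 0, 0] ![0, 1, 0, 0, 0] + 1 * bf (F 2 : Fin 5 → Fin 5 → K) ![0, 0, 1, 0, 0] ![0, 1, 0, 0, 0] + 0 * bf (F 3 : Fin 5 → Fin 5 → K) ![0, 0, 1, 0, 0] ![0, 1, 0, 0, 0] = 0 :=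
      (Fin.sum_univ_four _).symm.trans (h2 2 ![0, 1, 0, 0, 0])
    rw [bf5 (F 0).2, bf5 (F 1).2, bf5 (F 2).2, bf5 (F 3).2] at c
    linear_combination c
  have c33 : (F 2 : Fin 5 → Fin 5 → K) 2 3 = 0 := by
    have c : 0 * bf (F 0 : Fin 5 → Fin 5 → K) ![0, 0, 1, 0, 0] ![0, 0, 0, 1, 0] + 0 * bf (F 1 : Fin 5 → Fin 5 → K) ![0, 0, 1, 0, 0] ![0, 0, 0, 1, 0] + 1 * bf (F 2 : Fin 5 → Fin 5 → K) ![0, 0, 1, 0, 0] ![0, 0, 0, 1, 0] + 0 * bf (F 3 : Fin 5 → Fin 5 → K) ![0, 0, 1, 0, 0] ![0, 0, 0, 1, 0] = 0 :=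
      (Fin.sum_univ_four _).symm.trans (h2 2 ![0, 0, 0, 1, 0])
    rw [bf5 (F 0).2, bf5 (F 1).2, bf5 (F 2).2, bf5 (F 3).2] at c
    linear_combination c
  have c34 : (F 2 : Fin 5 → Fin 5 → K) 2 4 = 0 := by
    have c : 0 * bf (F 0 : Fin 5 → Fin 5 → K) ![0, 0, 1, 0, 0] ![0, 0, 0, 0, 1] + 0 * bf (F 1 : Fin 5 → Fin 5 → K) ![0, 0, 1, 0, 0] ![0, 0, 0, 0, 1] + 1 * bf (F 2 : Fin 5 → Fin 5 → K) ![0, 0, 1, 0, 0] ![0, 0, 0, 0, 1] + 0 * bf (F 3 : Fin 5 → Fin 5 → K) ![0, 0, 1, 0, 0] ![0, 0, 0, 0, 1] = 0 :=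
      (Fin.sum_univ_four _).symm.trans (h2 2 ![0, 0, 0, 0, 1])
    rw [bf5 (F 0).2, bf5 (F 1).2, bf5 (F 2).2, bf5 (F 3).2] at c
    linear_combination c
  have c35 : (F 3 : Fin 5 → Fin 5 → K) 0 3 = 0 := by
    have c : 0 * bf (F 0 : Fin 5 → Fin 5 → K) ![0, 0, 0, 1, 0] ![1, 0, 0, 0, 0] + 0 * bf (F 1 : Fin 5 → Fin 5 → K) ![0, 0, 0, 1, 0] ![1, 0, 0, 0, 0] + 0 * bf (F 2 : Fin 5 → Fin 5 → K) ![0, 0, 0, 1, 0] ![1, 0, 0, 0, 0] + 1 * bf (F 3 : Fin 5 → Fin 5 → K) ![0, 0, 0, 1, 0] ![1, 0, 0, 0, 0] = 0 :=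
      (Fin.sum_univ_four _).symm.trans (h2 3 ![1, 0, 0, 0, 0])
    rw [bf5 (F 0).2, bf5 (F 1).2, bf5 (F 2).2, bf5 (F 3).2] at c
    linear_combination c
  have c36 : (F 3 : Fin 5 → Fin 5 → K) 1 3 = 0 := by
    have c : 0 * bf (F 0 : Fin 5 → Fin 5 → K) ![0, 0, 0, 1, 0] ![0, 1, 0, 0, 0] + 0 * bf (F 1 : Fin 5 → Fin 5 → K) ![0, 0, 0, 1, 0] ![0, 1, 0, 0, 0] + 0 * bf (F 2 : Fin 5 → Fin 5 → K) ![0, 0, 0, 1, 0] ![0, 1, 0, 0, 0] + 1 * bf (F 3 : Fin 5 → Fin 5 → K) ![0, 0, 0, 1, 0] ![0, 1, 0, 0, 0] = 0 :=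
      (Fin.sum_univ_four _).symm.trans (h2 3 ![0, 1, 0, 0, 0])
    rw [bf5 (F 0).2, bf5 (F 1).2, bf5 (F 2).2, bf5 (F 3).2] at c
    linear_combination c
  have c37 : (F 3 : Fin 5 → Fin 5 → K) 2 3 = 0 := by
    have c : 0 * bf (F 0 : Fin 5 → Fin 5 → K) ![0, 0, 0, 1, 0] ![0, 0, 1, 0, 0] + 0 * bf (F 1 : Fin 5 → Fin 5 → K) ![0, 0, 0, 1, 0] ![0, 0, 1, 0, 0] + 0 * bf (F 2 : Fin 5 → Fin 5 → K) ![0, 0, 0, 1, 0] ![0, 0, 1, 0, 0] + 1 * bf (F 3 : Fin 5 → Fin 5 → K) ![0, 0, 0, 1, 0] ![0, 0, 1, 0, 0] = 0 :=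
      (Fin.sum_univ_four _).symm.trans (h2 3 ![0, 0, 1, 0, 0])
    rw [bf5 (F 0).2, bf5 (F 1).2, bf5 (F 2).2, bf5 (F 3).2] at c
    linear_combination c
  have c39 : (F 3 : Fin 5 → Fin 5 → K) 3 4 = 0 := by
    have c : 0 * bf (F 0 : Fin 5 → Fin 5 → K) ![0, 0, 0, 1, 0] ![0, 0, 0, 0, 1] + 0 * bf (F 1 : Fin 5 → Fin 5 → K) ![0, 0, 0, 1, 0] ![0, 0, 0, 0, 1] + 0 * bf (F 2 : Fin 5 → Fin 5 → K) ![0, 0, 0, 1, 0] ![0, 0, 0, 0, 1] + 1 * bf (F 3 : Fin 5 → Fin 5 → K) ![0, 0, 0, 1, 0] ![0, 0, 0, 0, 1] = 0 :=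
      (Fin.sum_univ_four _).symm.trans (h2 3 ![0, 0, 0, 0, 1])
    rw [bf5 (F 0).2, bf5 (F 1).2, bf5 (F 2).2, bf5 (F 3).2] at c
    linear_combination c
  have c40 : (F 0 : Fin 5 → Fin 5 → K) 0 4 + (F 1 : Fin 5 → Fin 5 → K) 0 4 + (F 2 : Fin 5 → Fin 5 → K) 0 4 + (F 3 : Fin 5 → Fin 5 → K) 0 4 = 0 := by
    have c : 1 * bf (F 0 : Fin 5 → Fin 5 → K) ![0, 0, 0, 0, 1] ![1, 0, 0, 0, 0] + 1 * bf (F 1 : Fin 5 → Fin 5 → K) ![0, 0, 0, 0, 1] ![1, 0, 0, 0, 0] + 1 * bf (F 2 : Fin 5 → Fin 5 → K) ![0, 0, 0, 0, 1] ![1, 0, 0, 0, 0] + 1 * bf (F 3 : Fin 5 → Fin 5 → K) ![0, 0, 0, 0, 1] ![1, 0, 0, 0, 0] = 0 :=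
      (Fin.sum_univ_four _).symm.trans (h2 4 ![1, 0, 0, 0, 0])
    rw [bf5 (F 0).2, bf5 (F 1).2, bf5 (F 2).2, bf5 (F 3).2] at c
    linear_combination c
  have c41 : (F 0 : Fin 5 → Fin 5 → K) 1 4 + (F 1 : Fin 5 → Fin 5 → K) 1 4 + (F 2 : Fin 5 → Fin 5 → K) 1 4 + (F 3 : Fin 5 → Fin 5 → K) 1 4 = 0 := by
    have c : 1 * bf (F 0 : Fin 5 → Fin 5 → K) ![0, 0, 0, 0, 1] ![0, 1, 0, 0, 0] + 1 * bf (F 1 : Fin 5 → Fin 5 → K) ![0, 0, 0, 0, 1] ![0, 1, 0, 0, 0] + 1 * bf (F 2 : Fin 5 → Fin 5 → K) ![0, 0, 0, 0, 1] ![0, 1, 0, 0, 0] + 1 * bf (F 3 : Fin 5 → Fin 5 → K) ![0, 0, 0, 0, 1] ![0, 1, 0, 0, 0] = 0 :=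
      (Fin.sum_univ_four _).symm.trans (h2 4 ![0, 1, 0, 0, 0])
    rw [bf5 (F 0).2, bf5 (F 1).2, bf5 (F 2).2, bf5 (F 3).2] at c
    linear_combination c
  have c42 : (F 0 : Fin 5 → Fin 5 → K) 2 4 + (F 1 : Fin 5 → Fin 5 → K) 2 4 + (F 2 : Fin 5 → Fin 5 → K) 2 4 + (F 3 : Fin 5 → Fin 5 → K) 2 4 = 0 := by
    have c : 1 * bf (F 0 : Fin 5 → Fin 5 → K) ![0, 0, 0, 0, 1] ![0, 0, 1, 0, 0] + 1 * bf (F 1 : Fin 5 → Fin 5 → K) ![0, 0, 0, 0, 1] ![0, 0, 1, 0, 0] + 1 * bf (F 2 : Fin 5 → Fin 5 → K) ![0, 0, 0, 0, 1] ![0, 0, 1, 0, 0] + 1 * bf (F 3 : Fin 5 → Fin 5 → K) ![0, 0, 0, 0, 1] ![0, 0, 1, 0, 0] = 0 :=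
      (Fin.sum_univ_four _).symm.trans (h2 4 ![0, 0, 1, 0, 0])
    rw [bf5 (F 0).2, bf5 (F 1).2, bf5 (F 2).2, bf5 (F 3).2] at c
    linear_combination c
  have c43 : (F 0 : Fin 5 → Fin 5 → K) 3 4 + (F 1 : Fin 5 → Fin 5 → K) 3 4 + (F 2 : Fin 5 → Fin 5 → K) 3 4 + (F 3 : Fin 5 → Fin 5 → K) 3 4 = 0 := by
    have c : 1 * bf (F 0 : Fin 5 → Fin 5 → K) ![0, 0, 0, 0, 1] ![0, 0, 0, 1, 0] + 1 * bf (F 1 : Fin 5 → Fin 5 → K) ![0, 0, 0, 0, 1] ![0, 0, 0, 1, 0] + 1 * bf (F 2 : Fin 5 → Fin 5 → K) ![0, 0, 0, 0, 1] ![0, 0, 0, 1, 0] + 1 * bf (F 3 : Fin 5 → Fin 5 → K) ![0, 0, 0, 0, 1] ![0, 0, 0, 1, 0] = 0 :=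
      (Fin.sum_univ_four _).symm.trans (h2 4 ![0, 0, 0, 1, 0])
    rw [bf5 (F 0).2, bf5 (F 1).2, bf5 (F 2).2, bf5 (F 3).2] at c
    linear_combination c
  have c45 : (F 0 : Fin 5 → Fin 5 → K) 1 1 + (2) * (F 0 : Fin 5 → Fin 5 → K) 1 2 + (2) * (F 0 : Fin 5 → Fin 5 → K) 1 3 + (F 0 : Fin 5 → Fin 5 → K) 2 2 + (2) * (F 0 : Fin 5 → Fin 5 → K) 2 3 + (F 0 : Fin 5 → Fin 5 → K) 3 3 = 0 := by
    linear_combination (bf5 (F 0).2 0 1 1 1 0 0 1 1 1 0).symm.trans (h3 0 0)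
  have c46 : (F 1 : Fin 5 → Fin 5 → K) 1 1 + (2) * (F 1 : Fin 5 → Fin 5 → K) 1 2 + (2) * (F 1 : Fin 5 → Fin 5 → K) 1 3 + (F 1 : Fin 5 → Fin 5 → K) 2 2 + (2) * (F 1 : Fin 5 → Fin 5 → K) 2 3 + (F 1 : Fin 5 → Fin 5 → K) 3 3 = 0 := by
    linear_combination (bf5 (F 1).2 0 1 1 1 0 0 1 1 1 0).symm.trans (h3 0 1)
  have c47 : (F 2 : Fin 5 → Fin 5 → K) 1 1 + (2) * (F 2 : Fin 5 → Fin 5 → K) 1 2 + (2) * (F 2 : Fin 5 → Fin 5 → K) 1 3 + (F 2 : Fin 5 → Fin 5 → K) 2 2 + (2) * (F 2 : Fin 5 → Fin 5 → K) 2 3 + (F 2 : Fin 5 → Fin 5 → K) 3 3 = 0 := by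
    linear_combination (bf5 (F 2).2 0 1 1 1 0 0 1 1 1 0).symm.trans (h3 0 2)
  have c48 : (F 3 : Fin 5 → Fin 5 → K) 1 1 + (2) * (F 3 : Fin 5 → Fin 5 → K) 1 2 + (2) * (F 3 : Fin 5 → Fin 5 → K) 1 3 + (F 3 : Fin 5 → Fin 5 → K) 2 2 + (2) * (F 3 : Fin 5 → Fin 5 → K) 2 3 + (F 3 : Fin 5 → Fin 5 → K) 3 3 = 0 := by
    linear_combination (bf5 (F 3).2 0 1 1 1 0 0 1 1 1 0).symm.trans (h3 0 3)
  have c49 : (F 0 : Fin 5 → Fin 5 → K) 0 0 + (2) * (F 0 : Fin 5 → Fin 5 → K) 0 2 + (2) * (F 0 : Fin 5 → Fin 5 → K) 0 3 + (F 0 : Fin 5 → Fin 5 → K) 2 2 + (2) * (F 0 : Fin 5 → Fin 5 → K) 2 3 + (F 0 : Fin 5 → Fin 5 → K) 3 3 = 0 := by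
    linear_combination (bf5 (F 0).2 1 0 1 1 0 1 0 1 1 0).symm.trans (h3 1 0)
  have c50 : (F 1 : Fin 5 → Fin 5 → K) 0 0 + (2) * (F 1 : Fin 5 → Fin 5 → K) 0 2 + (2) * (F 1 : Fin 5 → Fin 5 → K) 0 3 + (F 1 : Fin 5 → Fin 5 → K) 2 2 + (2) * (F 1 : Fin 5 → Fin 5 → K) 2 3 + (F 1 : Fin 5 → Fin 5 → K) 3 3 = 0 := by
    linear_combination (bf5 (F 1).2 1 0 1 1 0 1 0 1 1 0).symm.trans (h3 1 1)
  have c51 : (F 2 : Fin 5 → Fin 5 → K) 0 0 + (2) * (F 2 : Fin 5 → Fin 5 → K) 0 2 + (2) * (F 2 : Fin 5 → Fin 5 → K) 0 3 + (F 2 : Fin 5 → Fin 5 → K) 2 2 + (2) * (F 2 : Fin 5 → Fin 5 → K) 2 3 + (F 2 : Fin 5 → Fin 5 → K) 3 3 = 0 := by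
    linear_combination (bf5 (F 2).2 1 0 1 1 0 1 0 1 1 0).symm.trans (h3 1 2)
  have c52 : (F 3 : Fin 5 → Fin 5 → K) 0 0 + (2) * (F 3 : Fin 5 → Fin 5 → K) 0 2 + (2) * (F 3 : Fin 5 → Fin 5 → K) 0 3 + (F 3 : Fin 5 → Fin 5 → K) 2 2 + (2) * (F 3 : Fin 5 → Fin 5 → K) 2 3 + (F 3 : Fin 5 → Fin 5 → K) 3 3 = 0 := by
    linear_combination (bf5 (F 3).2 1 0 1 1 0 1 0 1 1 0).symm.trans (h3 1 3)
  have c53 : (F 0 : Fin 5 → Fin 5 → K) 1 1 + (2) * (F 0 : Fin 5 → Fin 5 → K) 1 2 + (2) * (F 0 : Fin 5 → Fin 5 → K) 1 4 + (F 0 : Fin 5 → Fin 5 → K) 2 2 + (2) * (F 0 : Fin 5 → Fin 5 → K) 2 4 + (F 0 : Fin 5 → Fin 5 → K) 4 4 = 0 := by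
    linear_combination (bf5 (F 0).2 0 1 1 0 1 0 1 1 0 1).symm.trans (h3 2 0)
  have c54 : (F 1 : Fin 5 → Fin 5 → K) 1 1 + (2) * (F 1 : Fin 5 → Fin 5 → K) 1 2 + (2) * (F 1 : Fin 5 → Fin 5 → K) 1 4 + (F 1 : Fin 5 → Fin 5 → K) 2 2 + (2) * (F 1 : Fin 5 → Fin 5 → K) 2 4 + (F 1 : Fin 5 → Fin 5 → K) 4 4 = 0 := by
    linear_combination (bf5 (F 1).2 0 1 1 0 1 0 1 1 0 1).symm.trans (h3 2 1)
  have c55 : (F 2 : Fin 5 → Fin 5 → K) 1 1 + (2) * (F 2 : Fin 5 → Fin 5 → K) 1 2 + (2) * (F 2 : Fin 5 → Fin 5 → K) 1 4 + (F 2 : Fin 5 → Fin 5 → K) 2 2 + (2) * (F 2 : Fin 5 → Fin 5 → K) 2 4 + (F 2 : Fin 5 → Fin 5 → K) 4 4 = 0 := by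
    linear_combination (bf5 (F 2).2 0 1 1 0 1 0 1 1 0 1).symm.trans (h3 2 2)
  have c56 : (F 3 : Fin 5 → Fin 5 → K) 1 1 + (2) * (F 3 : Fin 5 → Fin 5 → K) 1 2 + (2) * (F 3 : Fin 5 → Fin 5 → K) 1 4 + (F 3 : Fin 5 → Fin 5 → K) 2 2 + (2) * (F 3 : Fin 5 → Fin 5 → K) 2 4 + (F 3 : Fin 5 → Fin 5 → K) 4 4 = 0 := by
    linear_combination (bf5 (F 3).2 0 1 1 0 1 0 1 1 0 1).symm.trans (h3 2 3)
  have c57 : (F 0 : Fin 5 → Fin 5 → K) 0 0 + (2) * (F 0 : Fin 5 → Fin 5 → K) 0 1 + (2) * (F 0 : Fin 5 → Fin 5 → K) 0 4 + (F 0 : Fin 5 → Fin 5 → K) 1 1 + (2) * (F 0 : Fin 5 → Fin 5 → K) 1 4 + (F 0 : Fin 5 → Fin 5 → K) 4 4 = 0 := by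
    linear_combination (bf5 (F 0).2 1 1 0 0 1 1 1 0 0 1).symm.trans (h3 3 0)
  have c58 : (F 1 : Fin 5 → Fin 5 → K) 0 0 + (2) * (F 1 : Fin 5 → Fin 5 → K) 0 1 + (2) * (F 1 : Fin 5 → Fin 5 → K) 0 4 + (F 1 : Fin 5 → Fin 5 → K) 1 1 + (2) * (F 1 : Fin 5 → Fin 5 → K) 1 4 + (F 1 : Fin 5 → Fin 5 → K) 4 4 = 0 := by
    linear_combination (bf5 (F 1).2 1 1 0 0 1 1 1 0 0 1).symm.trans (h3 3 1)
  have c59 : (F 2 : Fin 5 → Fin 5 → K) 0 0 + (2) * (F 2 : Fin 5 → Fin 5 → K) 0 1 + (2) * (F 2 : Fin 5 → Fin 5 → K) 0 4 + (F 2 : Fin 5 → Fin 5 → K) 1 1 + (2) * (F 2 : Fin 5 → Fin 5 → K) 1 4 + (F 2 : Fin 5 → Fin 5 → K) 4 4 = 0 := by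
    linear_combination (bf5 (F 2).2 1 1 0 0 1 1 1 0 0 1).symm.trans (h3 3 2)
  have c60 : (F 3 : Fin 5 → Fin 5 → K) 0 0 + (2) * (F 3 : Fin 5 → Fin 5 → K) 0 1 + (2) * (F 3 : Fin 5 → Fin 5 → K) 0 4 + (F 3 : Fin 5 → Fin 5 → K) 1 1 + (2) * (F 3 : Fin 5 → Fin 5 → K) 1 4 + (F 3 : Fin 5 → Fin 5 → K) 4 4 = 0 := by
    linear_combination (bf5 (F 3).2 1 1 0 0 1 1 1 0 0 1).symm.trans (h3 3 3)
  have c61 : (F 0 : Fin 5 → Fin 5 → K) 0 0 + (2) * (F 0 : Fin 5 → Fin 5 → K) 0 3 + (2) * (F 0 : Fin 5 → Fin 5 → K) 0 4 + (F 0 : Fin 5 → Fin 5 → K) 3 3 + (2) * (F 0 : Fin 5 → Fin 5 → K) 3 4 + (F 0 : Fin 5 → Fin 5 → K) 4 4 = 0 := by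
    linear_combination (bf5 (F 0).2 1 0 0 1 1 1 0 0 1 1).symm.trans (h3 4 0)
  have c62 : (F 1 : Fin 5 → Fin 5 → K) 0 0 + (2) * (F 1 : Fin 5 → Fin 5 → K) 0 3 + (2) * (F 1 : Fin 5 → Fin 5 → K) 0 4 + (F 1 : Fin 5 → Fin 5 → K) 3 3 + (2) * (F 1 : Fin 5 → Fin 5 → K) 3 4 + (F 1 : Fin 5 → Fin 5 → K) 4 4 = 0 := by
    linear_combination (bf5 (F 1).2 1 0 0 1 1 1 0 0 1 1).symm.trans (h3 4 1)
  have c63 : (F 2 : Fin 5 → Fin 5 → K) 0 0 + (2) * (F 2 : Fin 5 → Fin 5 → K) 0 3 + (2) * (F 2 : Fin 5 → Fin 5 → K) 0 4 + (F 2 : Fin 5 → Fin 5 → K) 3 3 + (2) * (F 2 : Fin 5 → Fin 5 → K) 3 4 + (F 2 : Fin 5 → Fin 5 → K) 4 4 = 0 := by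
    linear_combination (bf5 (F 2).2 1 0 0 1 1 1 0 0 1 1).symm.trans (h3 4 2)
  have c64 : (F 3 : Fin 5 → Fin 5 → K) 0 0 + (2) * (F 3 : Fin 5 → Fin 5 → K) 0 3 + (2) * (F 3 : Fin 5 → Fin 5 → K) 0 4 + (F 3 : Fin 5 → Fin 5 → K) 3 3 + (2) * (F 3 : Fin 5 → Fin 5 → K) 3 4 + (F 3 : Fin 5 → Fin 5 → K) 4 4 = 0 := by
    linear_combination (bf5 (F 3).2 1 0 0 1 1 1 0 0 1 1).symm.trans (h3 4 3)
  have z0 : (F 0 : Fin 5 → Fin 5 → K) = 0 := by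
    have u00 : (F 0 : Fin 5 → Fin 5 → K) 0 0 = 0 := by
      linear_combination (1) * c0
    have u01 : (F 0 : Fin 5 → Fin 5 → K) 0 1 = 0 := by
      linear_combination (1) * c21
    have u02 : (F 0 : Fin 5 → Fin 5 → K) 0 2 = 0 := by
      linear_combination (1) * c22
    have u03 : (F 0 : Fin 5 → Fin 5 → K) 0 3 = 0 := by
      linear_combination (1) * c23
    have u04 : (F 0 : Fin 5 → Fin 5 → K) 0 4 = 0 := by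
      linear_combination (1) * c24
    have u11 : (F 0 : Fin 5 → Fin 5 → K) 1 1 = 0 := by
      linear_combination (1) * c4
    have u12 : (F 0 : Fin 5 → Fin 5 → K) 1 2 = 0 := by
      linear_combination (-1 / 2) * c4 + (-1 / 2) * c5 + (-1 / 2) * c6 + (-1 / 2) * c8 + (-1 / 2) * c9 + (-1 / 2) * c10 + (1 / 2) * c15 + (-1 / 2) * c16 + (-1 / 2) * c17 + (-1 / 2) * c18 + (-1 / 2) * c19 + (-1) * c27 + (-1) * c31 + (1) * c36 + (1) * c37 + (-1) * c41 + (-1) * c42 + (-1 / 2) * c48 + (1 / 2) * c53 + (1 / 2) * c54 + (1 / 2) * c55 + (1 / 2) * c56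
    have u13 : (F 0 : Fin 5 → Fin 5 → K) 1 3 = 0 := by
      linear_combination (1 / 2) * c0 + (1 / 2) * c5 + (1 / 2) * c6 + (1 / 2) * c8 + (1 / 2) * c9 + (1 / 2) * c10 + (-1 / 2) * c15 + (1 / 2) * c16 + (1 / 2) * c17 + (1 / 2) * c18 + (1 / 2) * c19 + (1) * c22 + (1) * c23 + (1) * c27 + (1) * c31 + (-1) * c36 + (-1) * c37 + (1) * c41 + (1) * c42 + (1 / 2) * c45 + (1 / 2) * c48 + (-1 / 2) * c49 + (-1 / 2) * c53 + (-1 / 2) * c54 + (-1 / 2) * c55 + (-1 / 2) * c56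
    have u14 : (F 0 : Fin 5 → Fin 5 → K) 1 4 = 0 := by
      linear_combination (-1 / 2) * c0 + (-1 / 2) * c4 + (-1 / 2) * c16 + (-1) * c21 + (-1) * c24 + (1 / 2) * c57
    have u22 : (F 0 : Fin 5 → Fin 5 → K) 2 2 = 0 := by
      linear_combination (1) * c8
    have u23 : (F 0 : Fin 5 → Fin 5 → K) 2 3 = 0 := by
      linear_combination (-1 / 2) * c0 + (-1 / 2) * c8 + (-1 / 2) * c12 + (-1) * c22 + (-1) * c23 + (1 / 2) * c49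
    have u24 : (F 0 : Fin 5 → Fin 5 → K) 2 4 = 0 := by
      linear_combination (1 / 2) * c0 + (1 / 2) * c4 + (1 / 2) * c5 + (1 / 2) * c6 + (1 / 2) * c9 + (1 / 2) * c10 + (-1 / 2) * c15 + (1 / 2) * c16 + (1 / 2) * c17 + (1 / 2) * c18 + (1 / 2) * c19 + (1) * c21 + (1) * c24 + (1) * c27 + (1) * c31 + (-1) * c36 + (-1) * c37 + (1) * c41 + (1) * c42 + (1 / 2) * c48 + (-1 / 2) * c54 + (-1 / 2) * c55 + (-1 / 2) * c56 + (-1 / 2) * c57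
    have u33 : (F 0 : Fin 5 → Fin 5 → K) 3 3 = 0 := by
      linear_combination (1) * c12
    have u34 : (F 0 : Fin 5 → Fin 5 → K) 3 4 = 0 := by
      linear_combination (-1 / 2) * c0 + (-1 / 2) * c12 + (-1 / 2) * c16 + (-1) * c23 + (-1) * c24 + (1 / 2) * c61
    have u44 : (F 0 : Fin 5 → Fin 5 → K) 4 4 = 0 := by
      linear_combination (1) * c16
    exact zero5 (F 0).2 u00 u01 u02 u03 u04 u11 u12 u13 u14 u22 u23 u24 u33 u34 u44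
  have z1 : (F 1 : Fin 5 → Fin 5 → K) = 0 := by
    have u00 : (F 1 : Fin 5 → Fin 5 → K) 0 0 = 0 := by
      linear_combination (1) * c1
    have u01 : (F 1 : Fin 5 → Fin 5 → K) 0 1 = 0 := by
      linear_combination (1) * c25
    have u02 : (F 1 : Fin 5 → Fin 5 → K) 0 2 = 0 := by
      linear_combination (1 / 2) * c0 + (1 / 2) * c3 + (1 / 2) * c5 + (-1 / 2) * c10 + (1 / 2) * c12 + (1 / 2) * c13 + (1 / 2) * c15 + (1 / 2) * c16 + (1 / 2) * c17 + (1 / 2) * c18 + (1 / 2) * c19 + (1) * c23 + (1) * c27 + (1) * c28 + (-1) * c30 + (-1) * c33 + (1) * c35 + (1) * c40 + (1) * c43 + (-1 / 2) * c46 + (1 / 2) * c50 + (1 / 2) * c51 + (-1 / 2) * c61 + (-1 / 2) * c62 + (-1 / 2) * c63 + (-1 / 2) * c64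
    have u03 : (F 1 : Fin 5 → Fin 5 → K) 0 3 = 0 := by
      linear_combination (-1 / 2) * c0 + (-1 / 2) * c1 + (-1 / 2) * c3 + (1 / 2) * c10 + (-1 / 2) * c12 + (-1 / 2) * c13 + (-1 / 2) * c15 + (-1 / 2) * c16 + (-1 / 2) * c17 + (-1 / 2) * c18 + (-1 / 2) * c19 + (-1) * c23 + (1) * c30 + (1) * c33 + (-1) * c35 + (-1) * c40 + (-1) * c43 + (-1 / 2) * c51 + (1 / 2) * c61 + (1 / 2) * c62 + (1 / 2) * c63 + (1 / 2) * c64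
    have u04 : (F 1 : Fin 5 → Fin 5 → K) 0 4 = 0 := by
      linear_combination (-1 / 2) * c1 + (-1 / 2) * c5 + (-1 / 2) * c17 + (-1) * c25 + (-1) * c29 + (1 / 2) * c58
    have u11 : (F 1 : Fin 5 → Fin 5 → K) 1 1 = 0 := by
      linear_combination (1) * c5
    have u12 : (F 1 : Fin 5 → Fin 5 → K) 1 2 = 0 := by
      linear_combination (1) * c27
    have u13 : (F 1 : Fin 5 → Fin 5 → K) 1 3 = 0 := by
      linear_combination (1) * c28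
    have u14 : (F 1 : Fin 5 → Fin 5 → K) 1 4 = 0 := by
      linear_combination (1) * c29
    have u22 : (F 1 : Fin 5 → Fin 5 → K) 2 2 = 0 := by
      linear_combination (1) * c9
    have u23 : (F 1 : Fin 5 → Fin 5 → K) 2 3 = 0 := by
      linear_combination (-1 / 2) * c5 + (-1 / 2) * c9 + (-1 / 2) * c13 + (-1) * c27 + (-1) * c28 + (1 / 2) * c46
    have u24 : (F 1 : Fin 5 → Fin 5 → K) 2 4 = 0 := by
      linear_combination (-1 / 2) * c5 + (-1 / 2) * c9 + (-1 / 2) * c17 + (-1) * c27 + (-1) * c29 + (1 / 2) * c54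
    have u33 : (F 1 : Fin 5 → Fin 5 → K) 3 3 = 0 := by
      linear_combination (1) * c13
    have u34 : (F 1 : Fin 5 → Fin 5 → K) 3 4 = 0 := by
      linear_combination (1 / 2) * c0 + (1 / 2) * c1 + (1 / 2) * c3 + (1 / 2) * c5 + (-1 / 2) * c10 + (1 / 2) * c12 + (1 / 2) * c15 + (1 / 2) * c16 + (1 / 2) * c17 + (1 / 2) * c18 + (1 / 2) * c19 + (1) * c23 + (1) * c25 + (1) * c29 + (-1) * c30 + (-1) * c33 + (1) * c35 + (1) * c40 + (1) * c43 + (1 / 2) * c51 + (-1 / 2) * c58 + (-1 / 2) * c61 + (-1 / 2) * c63 + (-1 / 2) * c64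
    have u44 : (F 1 : Fin 5 → Fin 5 → K) 4 4 = 0 := by
      linear_combination (1) * c17
    exact zero5 (F 1).2 u00 u01 u02 u03 u04 u11 u12 u13 u14 u22 u23 u24 u33 u34 u44
  have z2 : (F 2 : Fin 5 → Fin 5 → K) = 0 := by
    have u00 : (F 2 : Fin 5 → Fin 5 → K) 0 0 = 0 := by
      linear_combination (1) * c2
    have u01 : (F 2 : Fin 5 → Fin 5 → K) 0 1 = 0 := by
      linear_combination (-1 / 2) * c1 + (-1 / 2) * c2 + (-1 / 2) * c3 + (-1 / 2) * c5 + (1 / 2) * c10 + (-1 / 2) * c15 + (-1 / 2) * c17 + (-1 / 2) * c19 + (1) * c24 + (-1) * c25 + (-1) * c29 + (1) * c31 + (1) * c34 + (-1) * c35 + (-1) * c39 + (-1) * c40 + (-1 / 2) * c55 + (1 / 2) * c58 + (1 / 2) * c59 + (1 / 2) * c64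
    have u02 : (F 2 : Fin 5 → Fin 5 → K) 0 2 = 0 := by
      linear_combination (1) * c30
    have u03 : (F 2 : Fin 5 → Fin 5 → K) 0 3 = 0 := by
      linear_combination (-1 / 2) * c2 + (-1 / 2) * c10 + (-1 / 2) * c14 + (-1) * c30 + (-1) * c33 + (1 / 2) * c51
    have u04 : (F 2 : Fin 5 → Fin 5 → K) 0 4 = 0 := by
      linear_combination (1 / 2) * c1 + (1 / 2) * c3 + (1 / 2) * c5 + (1 / 2) * c15 + (1 / 2) * c17 + (1 / 2) * c19 + (-1) * c24 + (1) * c25 + (1) * c29 + (1) * c35 + (1) * c39 + (1) * c40 + (-1 / 2) * c58 + (-1 / 2) * c64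
    have u11 : (F 2 : Fin 5 → Fin 5 → K) 1 1 = 0 := by
      linear_combination (1) * c6
    have u12 : (F 2 : Fin 5 → Fin 5 → K) 1 2 = 0 := by
      linear_combination (1) * c31
    have u13 : (F 2 : Fin 5 → Fin 5 → K) 1 3 = 0 := by
      linear_combination (-1 / 2) * c6 + (-1 / 2) * c10 + (-1 / 2) * c14 + (-1) * c31 + (-1) * c33 + (1 / 2) * c47
    have u14 : (F 2 : Fin 5 → Fin 5 → K) 1 4 = 0 := by
      linear_combination (-1 / 2) * c6 + (-1 / 2) * c10 + (-1 / 2) * c18 + (-1) * c31 + (-1) * c34 + (1 / 2) * c55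
    have u22 : (F 2 : Fin 5 → Fin 5 → K) 2 2 = 0 := by
      linear_combination (1) * c10
    have u23 : (F 2 : Fin 5 → Fin 5 → K) 2 3 = 0 := by
      linear_combination (1) * c33
    have u24 : (F 2 : Fin 5 → Fin 5 → K) 2 4 = 0 := by
      linear_combination (1) * c34
    have u33 : (F 2 : Fin 5 → Fin 5 → K) 3 3 = 0 := by
      linear_combination (1) * c14
    have u34 : (F 2 : Fin 5 → Fin 5 → K) 3 4 = 0 := by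
      linear_combination (-1 / 2) * c1 + (-1 / 2) * c3 + (-1 / 2) * c5 + (1 / 2) * c10 + (-1 / 2) * c15 + (-1 / 2) * c17 + (-1 / 2) * c18 + (-1 / 2) * c19 + (1) * c24 + (-1) * c25 + (-1) * c29 + (1) * c30 + (1) * c33 + (-1) * c35 + (-1) * c39 + (-1) * c40 + (-1 / 2) * c51 + (1 / 2) * c58 + (1 / 2) * c63 + (1 / 2) * c64
    have u44 : (F 2 : Fin 5 → Fin 5 → K) 4 4 = 0 := by
      linear_combination (1) * c18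
    exact zero5 (F 2).2 u00 u01 u02 u03 u04 u11 u12 u13 u14 u22 u23 u24 u33 u34 u44
  have z3 : (F 3 : Fin 5 → Fin 5 → K) = 0 := by
    have u00 : (F 3 : Fin 5 → Fin 5 → K) 0 0 = 0 := by
      linear_combination (1) * c3
    have u01 : (F 3 : Fin 5 → Fin 5 → K) 0 1 = 0 := by
      linear_combination (-1 / 2) * c0 + (-1 / 2) * c4 + (-1 / 2) * c6 + (-1 / 2) * c7 + (-1 / 2) * c10 + (1 / 2) * c15 + (-1 / 2) * c16 + (-1 / 2) * c18 + (-1) * c21 + (-1) * c24 + (1) * c29 + (-1) * c31 + (-1) * c34 + (1) * c35 + (1) * c39 + (-1) * c41 + (1 / 2) * c55 + (1 / 2) * c57 + (1 / 2) * c60 + (-1 / 2) * c64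
    have u02 : (F 3 : Fin 5 → Fin 5 → K) 0 2 = 0 := by
      linear_combination (-1 / 2) * c3 + (-1 / 2) * c11 + (-1 / 2) * c15 + (-1) * c35 + (-1) * c37 + (1 / 2) * c52
    have u03 : (F 3 : Fin 5 → Fin 5 → K) 0 3 = 0 := by
      linear_combination (1) * c35
    have u04 : (F 3 : Fin 5 → Fin 5 → K) 0 4 = 0 := by
      linear_combination (-1 / 2) * c3 + (-1 / 2) * c15 + (-1 / 2) * c19 + (-1) * c35 + (-1) * c39 + (1 / 2) * c64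
    have u11 : (F 3 : Fin 5 → Fin 5 → K) 1 1 = 0 := by
      linear_combination (1) * c7
    have u12 : (F 3 : Fin 5 → Fin 5 → K) 1 2 = 0 := by
      linear_combination (-1 / 2) * c7 + (-1 / 2) * c11 + (-1 / 2) * c15 + (-1) * c36 + (-1) * c37 + (1 / 2) * c48
    have u13 : (F 3 : Fin 5 → Fin 5 → K) 1 3 = 0 := by
      linear_combination (1) * c36
    have u14 : (F 3 : Fin 5 → Fin 5 → K) 1 4 = 0 := by
      linear_combination (1 / 2) * c0 + (1 / 2) * c4 + (1 / 2) * c6 + (1 / 2) * c10 + (1 / 2) * c16 + (1 / 2) * c18 + (1) * c21 + (1) * c24 + (-1) * c29 + (1) * c31 + (1) * c34 + (1) * c41 + (-1 / 2) * c55 + (-1 / 2) * c57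
    have u22 : (F 3 : Fin 5 → Fin 5 → K) 2 2 = 0 := by
      linear_combination (1) * c11
    have u23 : (F 3 : Fin 5 → Fin 5 → K) 2 3 = 0 := by
      linear_combination (1) * c37
    have u24 : (F 3 : Fin 5 → Fin 5 → K) 2 4 = 0 := by
      linear_combination (-1 / 2) * c0 + (-1 / 2) * c4 + (-1 / 2) * c6 + (-1 / 2) * c10 + (1 / 2) * c15 + (-1 / 2) * c16 + (-1 / 2) * c18 + (-1 / 2) * c19 + (-1) * c21 + (-1) * c24 + (1) * c29 + (-1) * c31 + (-1) * c34 + (1) * c36 + (1) * c37 + (-1) * c41 + (-1 / 2) * c48 + (1 / 2) * c55 + (1 / 2) * c56 + (1 / 2) * c57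
    have u33 : (F 3 : Fin 5 → Fin 5 → K) 3 3 = 0 := by
      linear_combination (1) * c15
    have u34 : (F 3 : Fin 5 → Fin 5 → K) 3 4 = 0 := by
      linear_combination (1) * c39
    have u44 : (F 3 : Fin 5 → Fin 5 → K) 4 4 = 0 := by
      linear_combination (1) * c19
    exact zero5 (F 3).2 u00 u01 u02 u03 u04 u11 u12 u13 u14 u22 u23 u24 u33 u34 u44
  funext j
  apply Subtype.ext
  fin_cases j
  · exact z0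
  · exact z1
  · exact z2
  · exact z3

/-- four forms, seven full points, one simple point -/
theorem s3 : KQ K 5 4 7 1 0 := by
  refine ⟨((![![1, 0, 0, 0, 0], ![0, 1, 0, 0, 0], ![0, 0, 1, 0, 0], ![0, 0, 0, 1, 0], ![0, 0, 0, 0, 1], ![1, 1, 0, 0, 1], ![0, 1, 1, 1, -1]] : Fin 7 → Fin 5 → K),
    (![![1, 0, 0, 0], ![0, 1, 0, 0], ![0, 0, 1, 0], ![0, 0, 0, 1], ![1, 0, 1, 0], ![0, 1, 0, 1], ![1, 1, 0, 0]] : Fin 7 → Fin 4 → K),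
    (![![1, 0, 1, -1, 0]] : Fin 1 → Fin 5 → K)), ?_⟩
  refine (finrank_zero_of fun F hF => ?_).le
  obtain ⟨h1, h2, h3⟩ := mem_ZK.1 hF
  have c0 : (F 0 : Fin 5 → Fin 5 → K) 0 0 = 0 := by
    linear_combination (bf5 (F 0).2 1 0 0 0 0 1 0 0 0 0).symm.trans (h1 0 0)
  have c1 : (F 1 : Fin 5 → Fin 5 → K) 0 0 = 0 := by
    linear_combination (bf5 (F 1).2 1 0 0 0 0 1 0 0 0 0).symm.trans (h1 0 1)
  have c2 : (F 2 : Fin 5 → Fin 5 → K) 0 0 = 0 := by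
    linear_combination (bf5 (F 2).2 1 0 0 0 0 1 0 0 0 0).symm.trans (h1 0 2)
  have c3 : (F 3 : Fin 5 → Fin 5 → K) 0 0 = 0 := by
    linear_combination (bf5 (F 3).2 1 0 0 0 0 1 0 0 0 0).symm.trans (h1 0 3)
  have c4 : (F 0 : Fin 5 → Fin 5 → K) 1 1 = 0 := by
    linear_combination (bf5 (F 0).2 0 1 0 0 0 0 1 0 0 0).symm.trans (h1 1 0)
  have c5 : (F 1 : Fin 5 → Fin 5 → K) 1 1 = 0 := by
    linear_combination (bf5 (F 1).2 0 1 0 0 0 0 1 0 0 0).symm.trans (h1 1 1)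
  have c6 : (F 2 : Fin 5 → Fin 5 → K) 1 1 = 0 := by
    linear_combination (bf5 (F 2).2 0 1 0 0 0 0 1 0 0 0).symm.trans (h1 1 2)
  have c7 : (F 3 : Fin 5 → Fin 5 → K) 1 1 = 0 := by
    linear_combination (bf5 (F 3).2 0 1 0 0 0 0 1 0 0 0).symm.trans (h1 1 3)
  have c8 : (F 0 : Fin 5 → Fin 5 → K) 2 2 = 0 := by
    linear_combination (bf5 (F 0).2 0 0 1 0 0 0 0 1 0 0).symm.trans (h1 2 0)
  have c9 : (F 1 : Fin 5 → Fin 5 → K) 2 2 = 0 := by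
    linear_combination (bf5 (F 1).2 0 0 1 0 0 0 0 1 0 0).symm.trans (h1 2 1)
  have c10 : (F 2 : Fin 5 → Fin 5 → K) 2 2 = 0 := by
    linear_combination (bf5 (F 2).2 0 0 1 0 0 0 0 1 0 0).symm.trans (h1 2 2)
  have c11 : (F 3 : Fin 5 → Fin 5 → K) 2 2 = 0 := by
    linear_combination (bf5 (F 3).2 0 0 1 0 0 0 0 1 0 0).symm.trans (h1 2 3)
  have c12 : (F 0 : Fin 5 → Fin 5 → K) 3 3 = 0 := by
    linear_combination (bf5 (F 0).2 0 0 0 1 0 0 0 0 1 0).symm.trans (h1 3 0)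
  have c13 : (F 1 : Fin 5 → Fin 5 → K) 3 3 = 0 := by
    linear_combination (bf5 (F 1).2 0 0 0 1 0 0 0 0 1 0).symm.trans (h1 3 1)
  have c14 : (F 2 : Fin 5 → Fin 5 → K) 3 3 = 0 := by
    linear_combination (bf5 (F 2).2 0 0 0 1 0 0 0 0 1 0).symm.trans (h1 3 2)
  have c15 : (F 3 : Fin 5 → Fin 5 → K) 3 3 = 0 := by
    linear_combination (bf5 (F 3).2 0 0 0 1 0 0 0 0 1 0).symm.trans (h1 3 3)
  have c16 : (F 0 : Fin 5 → Fin 5 → K) 4 4 = 0 := by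
    linear_combination (bf5 (F 0).2 0 0 0 0 1 0 0 0 0 1).symm.trans (h1 4 0)
  have c17 : (F 1 : Fin 5 → Fin 5 → K) 4 4 = 0 := by
    linear_combination (bf5 (F 1).2 0 0 0 0 1 0 0 0 0 1).symm.trans (h1 4 1)
  have c18 : (F 2 : Fin 5 → Fin 5 → K) 4 4 = 0 := by
    linear_combination (bf5 (F 2).2 0 0 0 0 1 0 0 0 0 1).symm.trans (h1 4 2)
  have c19 : (F 3 : Fin 5 → Fin 5 → K) 4 4 = 0 := by
    linear_combination (bf5 (F 3).2 0 0 0 0 1 0 0 0 0 1).symm.trans (h1 4 3)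
  have c20 : (F 0 : Fin 5 → Fin 5 → K) 0 0 + (2) * (F 0 : Fin 5 → Fin 5 → K) 0 1 + (2) * (F 0 : Fin 5 → Fin 5 → K) 0 4 + (F 0 : Fin 5 → Fin 5 → K) 1 1 + (2) * (F 0 : Fin 5 → Fin 5 → K) 1 4 + (F 0 : Fin 5 → Fin 5 → K) 4 4 = 0 := by
    linear_combination (bf5 (F 0).2 1 1 0 0 1 1 1 0 0 1).symm.trans (h1 5 0)
  have c21 : (F 1 : Fin 5 → Fin 5 → K) 0 0 + (2) * (F 1 : Fin 5 → Fin 5 → K) 0 1 + (2) * (F 1 : Fin 5 → Fin 5 → K) 0 4 + (F 1 : Fin 5 → Fin 5 → K) 1 1 + (2) * (F 1 : Fin 5 → Fin 5 → K) 1 4 + (F 1 : Fin 5 → Fin 5 → K) 4 4 = 0 := by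
    linear_combination (bf5 (F 1).2 1 1 0 0 1 1 1 0 0 1).symm.trans (h1 5 1)
  have c22 : (F 2 : Fin 5 → Fin 5 → K) 0 0 + (2) * (F 2 : Fin 5 → Fin 5 → K) 0 1 + (2) * (F 2 : Fin 5 → Fin 5 → K) 0 4 + (F 2 : Fin 5 → Fin 5 → K) 1 1 + (2) * (F 2 : Fin 5 → Fin 5 → K) 1 4 + (F 2 : Fin 5 → Fin 5 → K) 4 4 = 0 := by
    linear_combination (bf5 (F 2).2 1 1 0 0 1 1 1 0 0 1).symm.trans (h1 5 2)
  have c23 : (F 3 : Fin 5 → Fin 5 → K) 0 0 + (2) * (F 3 : Fin 5 → Fin 5 → K) 0 1 + (2) * (F 3 : Fin 5 → Fin 5 → K) 0 4 + (F 3 : Fin 5 → Fin 5 → K) 1 1 + (2) * (F 3 : Fin 5 → Fin 5 → K) 1 4 + (F 3 : Fin 5 → Fin 5 → K) 4 4 = 0 := by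
    linear_combination (bf5 (F 3).2 1 1 0 0 1 1 1 0 0 1).symm.trans (h1 5 3)
  have c24 : (F 0 : Fin 5 → Fin 5 → K) 1 1 + (2) * (F 0 : Fin 5 → Fin 5 → K) 1 2 + (2) * (F 0 : Fin 5 → Fin 5 → K) 1 3 + (-2) * (F 0 : Fin 5 → Fin 5 → K) 1 4 + (F 0 : Fin 5 → Fin 5 → K) 2 2 + (2) * (F 0 : Fin 5 → Fin 5 → K) 2 3 + (-2) * (F 0 : Fin 5 → Fin 5 → K) 2 4 + (F 0 : Fin 5 → Fin 5 → K) 3 3 + (-2) * (F 0 : Fin 5 → Fin 5 → K) 3 4 + (F 0 : Fin 5 → Fin 5 → K) 4 4 = 0 := by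
    linear_combination (bf5 (F 0).2 0 1 1 1 (-1) 0 1 1 1 (-1)).symm.trans (h1 6 0)
  have c26 : (F 2 : Fin 5 → Fin 5 → K) 1 1 + (2) * (F 2 : Fin 5 → Fin 5 → K) 1 2 + (2) * (F 2 : Fin 5 → Fin 5 → K) 1 3 + (-2) * (F 2 : Fin 5 → Fin 5 → K) 1 4 + (F 2 : Fin 5 → Fin 5 → K) 2 2 + (2) * (F 2 : Fin 5 → Fin 5 → K) 2 3 + (-2) * (F 2 : Fin 5 → Fin 5 → K) 2 4 + (F 2 : Fin 5 → Fin 5 → K) 3 3 + (-2) * (F 2 : Fin 5 → Fin 5 → K) 3 4 + (F 2 : Fin 5 → Fin 5 → K) 4 4 = 0 := by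
    linear_combination (bf5 (F 2).2 0 1 1 1 (-1) 0 1 1 1 (-1)).symm.trans (h1 6 2)
  have c27 : (F 3 : Fin 5 → Fin 5 → K) 1 1 + (2) * (F 3 : Fin 5 → Fin 5 → K) 1 2 + (2) * (F 3 : Fin 5 → Fin 5 → K) 1 3 + (-2) * (F 3 : Fin 5 → Fin 5 → K) 1 4 + (F 3 : Fin 5 → Fin 5 → K) 2 2 + (2) * (F 3 : Fin 5 → Fin 5 → K) 2 3 + (-2) * (F 3 : Fin 5 → Fin 5 → K) 2 4 + (F 3 : Fin 5 → Fin 5 → K) 3 3 + (-2) * (F 3 : Fin 5 → Fin 5 → K) 3 4 + (F 3 : Fin 5 → Fin 5 → K) 4 4 = 0 := by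
    linear_combination (bf5 (F 3).2 0 1 1 1 (-1) 0 1 1 1 (-1)).symm.trans (h1 6 3)
  have c29 : (F 0 : Fin 5 → Fin 5 → K) 0 1 = 0 := by
    have c : 1 * bf (F 0 : Fin 5 → Fin 5 → K) ![1, 0, 0, 0, 0] ![0, 1, 0, 0, 0] + 0 * bf (F 1 : Fin 5 → Fin 5 → K) ![1, 0, 0, 0, 0] ![0, 1, 0, 0, 0] + 0 * bf (F 2 : Fin 5 → Fin 5 → K) ![1, 0, 0, 0, 0] ![0, 1, 0, 0, 0] + 0 * bf (F 3 : Fin 5 → Fin 5 → K) ![1, 0, 0, 0, 0] ![0, 1, 0, 0, 0] = 0 :=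
      (Fin.sum_univ_four _).symm.trans (h2 0 ![0, 1, 0, 0, 0])
    rw [bf5 (F 0).2, bf5 (F 1).2, bf5 (F 2).2, bf5 (F 3).2] at c
    linear_combination c
  have c30 : (F 0 : Fin 5 → Fin 5 → K) 0 2 = 0 := by
    have c : 1 * bf (F 0 : Fin 5 → Fin 5 → K) ![1, 0, 0, 0, 0] ![0, 0, 1, 0, 0] + 0 * bf (F 1 : Fin 5 → Fin 5 → K) ![1, 0, 0, 0, 0] ![0, 0, 1, 0, 0] + 0 * bf (F 2 : Fin 5 → Fin 5 → K) ![1, 0, 0, 0, 0] ![0, 0, 1, 0, 0] + 0 * bf (F 3 : Fin 5 → Fin 5 → K) ![1, 0, 0, 0, 0] ![0, 0, 1, 0, 0] = 0 :=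
      (Fin.sum_univ_four _).symm.trans (h2 0 ![0, 0, 1, 0, 0])
    rw [bf5 (F 0).2, bf5 (F 1).2, bf5 (F 2).2, bf5 (F 3).2] at c
    linear_combination c
  have c31 : (F 0 : Fin 5 → Fin 5 → K) 0 3 = 0 := by
    have c : 1 * bf (F 0 : Fin 5 → Fin 5 → K) ![1, 0, 0, 0, 0] ![0, 0, 0, 1, 0] + 0 * bf (F 1 : Fin 5 → Fin 5 → K) ![1, 0, 0, 0, 0] ![0, 0, 0, 1, 0] + 0 * bf (F 2 : Fin 5 → Fin 5 → K) ![1, 0, 0, 0, 0] ![0, 0, 0, 1, 0] + 0 * bf (F 3 : Fin 5 → Fin 5 → K) ![1, 0, 0, 0, 0] ![0, 0, 0, 1, 0] = 0 :=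
      (Fin.sum_univ_four _).symm.trans (h2 0 ![0, 0, 0, 1, 0])
    rw [bf5 (F 0).2, bf5 (F 1).2, bf5 (F 2).2, bf5 (F 3).2] at c
    linear_combination c
  have c32 : (F 0 : Fin 5 → Fin 5 → K) 0 4 = 0 := by
    have c : 1 * bf (F 0 : Fin 5 → Fin 5 → K) ![1, 0, 0, 0, 0] ![0, 0, 0, 0, 1] + 0 * bf (F 1 : Fin 5 → Fin 5 → K) ![1, 0, 0, 0, 0] ![0, 0, 0, 0, 1] + 0 * bf (F 2 : Fin 5 → Fin 5 → K) ![1, 0, 0, 0, 0] ![0, 0, 0, 0, 1] + 0 * bf (F 3 : Fin 5 → Fin 5 → K) ![1, 0, 0, 0, 0] ![0, 0, 0, 0, 1] = 0 :=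
      (Fin.sum_univ_four _).symm.trans (h2 0 ![0, 0, 0, 0, 1])
    rw [bf5 (F 0).2, bf5 (F 1).2, bf5 (F 2).2, bf5 (F 3).2] at c
    linear_combination c
  have c33 : (F 1 : Fin 5 → Fin 5 → K) 0 1 = 0 := by
    have c : 0 * bf (F 0 : Fin 5 → Fin 5 → K) ![0, 1, 0, 0, 0] ![1, 0, 0, 0, 0] + 1 * bf (F 1 : Fin 5 → Fin 5 → K) ![0, 1, 0, 0, 0] ![1, 0, 0, 0, 0] + 0 * bf (F 2 : Fin 5 → Fin 5 → K) ![0, 1, 0, 0, 0] ![1, 0, 0, 0, 0] + 0 * bf (F 3 : Fin 5 → Fin 5 → K) ![0, 1, 0, 0, 0] ![1, 0, 0, 0, 0] = 0 :=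
      (Fin.sum_univ_four _).symm.trans (h2 1 ![1, 0, 0, 0, 0])
    rw [bf5 (F 0).2, bf5 (F 1).2, bf5 (F 2).2, bf5 (F 3).2] at c
    linear_combination c
  have c35 : (F 1 : Fin 5 → Fin 5 → K) 1 2 = 0 := by
    have c : 0 * bf (F 0 : Fin 5 → Fin 5 → K) ![0, 1, 0, 0, 0] ![0, 0, 1, 0, 0] + 1 * bf (F 1 : Fin 5 → Fin 5 → K) ![0, 1, 0, 0, 0] ![0, 0, 1, 0, 0] + 0 * bf (F 2 : Fin 5 → Fin 5 → K) ![0, 1, 0, 0, 0] ![0, 0, 1, 0, 0] + 0 * bf (F 3 : Fin 5 → Fin 5 → K) ![0, 1, 0, 0, 0] ![0, 0, 1, 0, 0] = 0 :=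
      (Fin.sum_univ_four _).symm.trans (h2 1 ![0, 0, 1, 0, 0])
    rw [bf5 (F 0).2, bf5 (F 1).2, bf5 (F 2).2, bf5 (F 3).2] at c
    linear_combination c
  have c36 : (F 1 : Fin 5 → Fin 5 → K) 1 3 = 0 := by
    have c : 0 * bf (F 0 : Fin 5 → Fin 5 → K) ![0, 1, 0, 0, 0] ![0, 0, 0, 1, 0] + 1 * bf (F 1 : Fin 5 → Fin 5 → K) ![0, 1, 0, 0, 0] ![0, 0, 0, 1, 0] + 0 * bf (F 2 : Fin 5 → Fin 5 → K) ![0, 1, 0, 0, 0] ![0, 0, 0, 1, 0] + 0 * bf (F 3 : Fin 5 → Fin 5 → K) ![0, 1, 0, 0, 0] ![0, 0, 0, 1, 0] = 0 :=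
      (Fin.sum_univ_four _).symm.trans (h2 1 ![0, 0, 0, 1, 0])
    rw [bf5 (F 0).2, bf5 (F 1).2, bf5 (F 2).2, bf5 (F 3).2] at c
    linear_combination c
  have c37 : (F 1 : Fin 5 → Fin 5 → K) 1 4 = 0 := by
    have c : 0 * bf (F 0 : Fin 5 → Fin 5 → K) ![0, 1, 0, 0, 0] ![0, 0, 0, 0, 1] + 1 * bf (F 1 : Fin 5 → Fin 5 → K) ![0, 1, 0, 0, 0] ![0, 0, 0, 0, 1] + 0 * bf (F 2 : Fin 5 → Fin 5 → K) ![0, 1, 0, 0, 0] ![0, 0, 0, 0, 1] + 0 * bf (F 3 : Fin 5 → Fin 5 → K) ![0, 1, 0, 0, 0] ![0, 0, 0, 0, 1] = 0 :=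
      (Fin.sum_univ_four _).symm.trans (h2 1 ![0, 0, 0, 0, 1])
    rw [bf5 (F 0).2, bf5 (F 1).2, bf5 (F 2).2, bf5 (F 3).2] at c
    linear_combination c
  have c38 : (F 2 : Fin 5 → Fin 5 → K) 0 2 = 0 := by
    have c : 0 * bf (F 0 : Fin 5 → Fin 5 → K) ![0, 0, 1, 0, 0] ![1, 0, 0, 0, 0] + 0 * bf (F 1 : Fin 5 → Fin 5 → K) ![0, 0, 1, 0, 0] ![1, 0, 0, 0, 0] + 1 * bf (F 2 : Fin 5 → Fin 5 → K) ![0, 0, 1, 0, 0] ![1, 0, 0, 0, 0] + 0 * bf (F 3 : Fin 5 → Fin 5 → K) ![0, 0, 1, 0, 0] ![1, 0, 0, 0, 0] = 0 :=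
      (Fin.sum_univ_four _).symm.trans (h2 2 ![1, 0, 0, 0, 0])
    rw [bf5 (F 0).2, bf5 (F 1).2, bf5 (F 2).2, bf5 (F 3).2] at c
    linear_combination c
  have c39 : (F 2 : Fin 5 → Fin 5 → K) 1 2 = 0 := by
    have c : 0 * bf (F 0 : Fin 5 → Fin 5 → K) ![0, 0, 1, 0, 0] ![0, 1, 0, 0, 0] + 0 * bf (F 1 : Fin 5 → Fin 5 → K) ![0, 0, 1, 0, 0] ![0, 1, 0, 0, 0] + 1 * bf (F 2 : Fin 5 → Fin 5 → K) ![0, 0, 1, 0, 0] ![0, 1, 0, 0, 0] + 0 * bf (F 3 : Fin 5 → Fin 5 → K) ![0, 0, 1, 0, 0] ![0, 1, 0, 0, 0] = 0 :=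
      (Fin.sum_univ_four _).symm.trans (h2 2 ![0, 1, 0, 0, 0])
    rw [bf5 (F 0).2, bf5 (F 1).2, bf5 (F 2).2, bf5 (F 3).2] at c
    linear_combination c
  have c41 : (F 2 : Fin 5 → Fin 5 → K) 2 3 = 0 := by
    have c : 0 * bf (F 0 : Fin 5 → Fin 5 → K) ![0, 0, 1, 0, 0] ![0, 0, 0, 1, 0] + 0 * bf (F 1 : Fin 5 → Fin 5 → K) ![0, 0, 1, 0, 0] ![0, 0, 0, 1, 0] + 1 * bf (F 2 : Fin 5 → Fin 5 → K) ![0, 0, 1, 0, 0] ![0, 0, 0, 1, 0] + 0 * bf (F 3 : Fin 5 → Fin 5 → K) ![0, 0, 1, 0, 0] ![0, 0, 0, 1, 0] = 0 :=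
      (Fin.sum_univ_four _).symm.trans (h2 2 ![0, 0, 0, 1, 0])
    rw [bf5 (F 0).2, bf5 (F 1).2, bf5 (F 2).2, bf5 (F 3).2] at c
    linear_combination c
  have c42 : (F 2 : Fin 5 → Fin 5 → K) 2 4 = 0 := by
    have c : 0 * bf (F 0 : Fin 5 → Fin 5 → K) ![0, 0, 1, 0, 0] ![0, 0, 0, 0, 1] + 0 * bf (F 1 : Fin 5 → Fin 5 → K) ![0, 0, 1, 0, 0] ![0, 0, 0, 0, 1] + 1 * bf (F 2 : Fin 5 → Fin 5 → K) ![0, 0, 1, 0, 0] ![0, 0, 0, 0, 1] + 0 * bf (F 3 : Fin 5 → Fin 5 → K) ![0, 0, 1, 0, 0] ![0, 0, 0, 0, 1] = 0 :=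
      (Fin.sum_univ_four _).symm.trans (h2 2 ![0, 0, 0, 0, 1])
    rw [bf5 (F 0).2, bf5 (F 1).2, bf5 (F 2).2, bf5 (F 3).2] at c
    linear_combination c
  have c43 : (F 3 : Fin 5 → Fin 5 → K) 0 3 = 0 := by
    have c : 0 * bf (F 0 : Fin 5 → Fin 5 → K) ![0, 0, 0, 1, 0] ![1, 0, 0, 0, 0] + 0 * bf (F 1 : Fin 5 → Fin 5 → K) ![0, 0, 0, 1, 0] ![1, 0, 0, 0, 0] + 0 * bf (F 2 : Fin 5 → Fin 5 → K) ![0, 0, 0, 1, 0] ![1, 0, 0, 0, 0] + 1 * bf (F 3 : Fin 5 → Fin 5 → K) ![0, 0, 0, 1, 0] ![1, 0, 0, 0, 0] = 0 :=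
      (Fin.sum_univ_four _).symm.trans (h2 3 ![1, 0, 0, 0, 0])
    rw [bf5 (F 0).2, bf5 (F 1).2, bf5 (F 2).2, bf5 (F 3).2] at c
    linear_combination c
  have c44 : (F 3 : Fin 5 → Fin 5 → K) 1 3 = 0 := by
    have c : 0 * bf (F 0 : Fin 5 → Fin 5 → K) ![0, 0, 0, 1, 0] ![0, 1, 0, 0, 0] + 0 * bf (F 1 : Fin 5 → Fin 5 → K) ![0, 0, 0, 1, 0] ![0, 1, 0, 0, 0] + 0 * bf (F 2 : Fin 5 → Fin 5 → K) ![0, 0, 0, 1, 0] ![0, 1, 0, 0, 0] + 1 * bf (F 3 : Fin 5 → Fin 5 → K) ![0, 0, 0, 1, 0] ![0, 1, 0, 0, 0] = 0 :=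
      (Fin.sum_univ_four _).symm.trans (h2 3 ![0, 1, 0, 0, 0])
    rw [bf5 (F 0).2, bf5 (F 1).2, bf5 (F 2).2, bf5 (F 3).2] at c
    linear_combination c
  have c45 : (F 3 : Fin 5 → Fin 5 → K) 2 3 = 0 := by
    have c : 0 * bf (F 0 : Fin 5 → Fin 5 → K) ![0, 0, 0, 1, 0] ![0, 0, 1, 0, 0] + 0 * bf (F 1 : Fin 5 → Fin 5 → K) ![0, 0, 0, 1, 0] ![0, 0, 1, 0, 0] + 0 * bf (F 2 : Fin 5 → Fin 5 → K) ![0, 0, 0, 1, 0] ![0, 0, 1, 0, 0] + 1 * bf (F 3 : Fin 5 → Fin 5 → K) ![0, 0, 0, 1, 0] ![0, 0, 1, 0, 0] = 0 :=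
      (Fin.sum_univ_four _).symm.trans (h2 3 ![0, 0, 1, 0, 0])
    rw [bf5 (F 0).2, bf5 (F 1).2, bf5 (F 2).2, bf5 (F 3).2] at c
    linear_combination c
  have c47 : (F 3 : Fin 5 → Fin 5 → K) 3 4 = 0 := by
    have c : 0 * bf (F 0 : Fin 5 → Fin 5 → K) ![0, 0, 0, 1, 0] ![0, 0, 0, 0, 1] + 0 * bf (F 1 : Fin 5 → Fin 5 → K) ![0, 0, 0, 1, 0] ![0, 0, 0, 0, 1] + 0 * bf (F 2 : Fin 5 → Fin 5 → K) ![0, 0, 0, 1, 0] ![0, 0, 0, 0, 1] + 1 * bf (F 3 : Fin 5 → Fin 5 → K) ![0, 0, 0, 1, 0] ![0, 0, 0, 0, 1] = 0 :=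
      (Fin.sum_univ_four _).symm.trans (h2 3 ![0, 0, 0, 0, 1])
    rw [bf5 (F 0).2, bf5 (F 1).2, bf5 (F 2).2, bf5 (F 3).2] at c
    linear_combination c
  have c48 : (F 0 : Fin 5 → Fin 5 → K) 0 4 + (F 2 : Fin 5 → Fin 5 → K) 0 4 = 0 := by
    have c : 1 * bf (F 0 : Fin 5 → Fin 5 → K) ![0, 0, 0, 0, 1] ![1, 0, 0, 0, 0] + 0 * bf (F 1 : Fin 5 → Fin 5 → K) ![0, 0, 0, 0, 1] ![1, 0, 0, 0, 0] + 1 * bf (F 2 : Fin 5 → Fin 5 → K) ![0, 0, 0, 0, 1] ![1, 0, 0, 0, 0] + 0 * bf (F 3 : Fin 5 → Fin 5 → K) ![0, 0, 0, 0, 1] ![1, 0, 0, 0, 0] = 0 :=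
      (Fin.sum_univ_four _).symm.trans (h2 4 ![1, 0, 0, 0, 0])
    rw [bf5 (F 0).2, bf5 (F 1).2, bf5 (F 2).2, bf5 (F 3).2] at c
    linear_combination c
  have c49 : (F 0 : Fin 5 → Fin 5 → K) 1 4 + (F 2 : Fin 5 → Fin 5 → K) 1 4 = 0 := by
    have c : 1 * bf (F 0 : Fin 5 → Fin 5 → K) ![0, 0, 0, 0, 1] ![0, 1, 0, 0, 0] + 0 * bf (F 1 : Fin 5 → Fin 5 → K) ![0, 0, 0, 0, 1] ![0, 1, 0, 0, 0] + 1 * bf (F 2 : Fin 5 → Fin 5 → K) ![0, 0, 0, 0, 1] ![0, 1, 0, 0, 0] + 0 * bf (F 3 : Fin 5 → Fin 5 → K) ![0, 0, 0, 0, 1] ![0, 1, 0, 0, 0] = 0 :=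
      (Fin.sum_univ_four _).symm.trans (h2 4 ![0, 1, 0, 0, 0])
    rw [bf5 (F 0).2, bf5 (F 1).2, bf5 (F 2).2, bf5 (F 3).2] at c
    linear_combination c
  have c50 : (F 0 : Fin 5 → Fin 5 → K) 2 4 + (F 2 : Fin 5 → Fin 5 → K) 2 4 = 0 := by
    have c : 1 * bf (F 0 : Fin 5 → Fin 5 → K) ![0, 0, 0, 0, 1] ![0, 0, 1, 0, 0] + 0 * bf (F 1 : Fin 5 → Fin 5 → K) ![0, 0, 0, 0, 1] ![0, 0, 1, 0, 0] + 1 * bf (F 2 : Fin 5 → Fin 5 → K) ![0, 0, 0, 0, 1] ![0, 0, 1, 0, 0] + 0 * bf (F 3 : Fin 5 → Fin 5 → K) ![0, 0, 0, 0, 1] ![0, 0, 1, 0, 0] = 0 :=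
      (Fin.sum_univ_four _).symm.trans (h2 4 ![0, 0, 1, 0, 0])
    rw [bf5 (F 0).2, bf5 (F 1).2, bf5 (F 2).2, bf5 (F 3).2] at c
    linear_combination c
  have c51 : (F 0 : Fin 5 → Fin 5 → K) 3 4 + (F 2 : Fin 5 → Fin 5 → K) 3 4 = 0 := by
    have c : 1 * bf (F 0 : Fin 5 → Fin 5 → K) ![0, 0, 0, 0, 1] ![0, 0, 0, 1, 0] + 0 * bf (F 1 : Fin 5 → Fin 5 → K) ![0, 0, 0, 0, 1] ![0, 0, 0, 1, 0] + 1 * bf (F 2 : Fin 5 → Fin 5 → K) ![0, 0, 0, 0, 1] ![0, 0, 0, 1, 0] + 0 * bf (F 3 : Fin 5 → Fin 5 → K) ![0, 0, 0, 0, 1] ![0, 0, 0, 1, 0] = 0 :=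
      (Fin.sum_univ_four _).symm.trans (h2 4 ![0, 0, 0, 1, 0])
    rw [bf5 (F 0).2, bf5 (F 1).2, bf5 (F 2).2, bf5 (F 3).2] at c
    linear_combination c
  have c53 : (F 1 : Fin 5 → Fin 5 → K) 0 0 + (F 1 : Fin 5 → Fin 5 → K) 0 1 + (F 1 : Fin 5 → Fin 5 → K) 0 4 + (F 3 : Fin 5 → Fin 5 → K) 0 0 + (F 3 : Fin 5 → Fin 5 → K) 0 1 + (F 3 : Fin 5 → Fin 5 → K) 0 4 = 0 := by
    have c : 0 * bf (F 0 : Fin 5 → Fin 5 → K) ![1, 1, 0, 0, 1] ![1, 0, 0, 0, 0] + 1 * bf (F 1 : Fin 5 → Fin 5 → K) ![1, 1, 0, 0, 1] ![1, 0, 0, 0, 0] + 0 * bf (F 2 : Fin 5 → Fin 5 → K) ![1, 1, 0, 0, 1] ![1, 0, 0, 0, 0] + 1 * bf (F 3 : Fin 5 → Fin 5 → K) ![1, 1, 0, 0, 1] ![1, 0, 0, 0, 0] = 0 :=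
      (Fin.sum_univ_four _).symm.trans (h2 5 ![1, 0, 0, 0, 0])
    rw [bf5 (F 0).2, bf5 (F 1).2, bf5 (F 2).2, bf5 (F 3).2] at c
    linear_combination c
  have c54 : (F 1 : Fin 5 → Fin 5 → K) 0 1 + (F 1 : Fin 5 → Fin 5 → K) 1 1 + (F 1 : Fin 5 → Fin 5 → K) 1 4 + (F 3 : Fin 5 → Fin 5 → K) 0 1 + (F 3 : Fin 5 → Fin 5 → K) 1 1 + (F 3 : Fin 5 → Fin 5 → K) 1 4 = 0 := by
    have c : 0 * bf (F 0 : Fin 5 → Fin 5 → K) ![1, 1, 0, 0, 1] ![0, 1, 0, 0, 0] + 1 * bf (F 1 : Fin 5 → Fin 5 → K) ![1, 1, 0, 0, 1] ![0, 1, 0, 0, 0] + 0 * bf (F 2 : Fin 5 → Fin 5 → K) ![1, 1, 0, 0, 1] ![0, 1, 0, 0, 0] + 1 * bf (F 3 : Fin 5 → Fin 5 → K) ![1, 1, 0, 0, 1] ![0, 1, 0, 0, 0] = 0 :=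
      (Fin.sum_univ_four _).symm.trans (h2 5 ![0, 1, 0, 0, 0])
    rw [bf5 (F 0).2, bf5 (F 1).2, bf5 (F 2).2, bf5 (F 3).2] at c
    linear_combination c
  have c55 : (F 1 : Fin 5 → Fin 5 → K) 0 2 + (F 1 : Fin 5 → Fin 5 → K) 1 2 + (F 1 : Fin 5 → Fin 5 → K) 2 4 + (F 3 : Fin 5 → Fin 5 → K) 0 2 + (F 3 : Fin 5 → Fin 5 → K) 1 2 + (F 3 : Fin 5 → Fin 5 → K) 2 4 = 0 := by
    have c : 0 * bf (F 0 : Fin 5 → Fin 5 → K) ![1, 1, 0, 0, 1] ![0, 0, 1, 0, 0] + 1 * bf (F 1 : Fin 5 → Fin 5 → K) ![1, 1, 0, 0, 1] ![0, 0, 1, 0, 0] + 0 * bf (F 2 : Fin 5 → Fin 5 → K) ![1, 1, 0, 0, 1] ![0, 0, 1, 0, 0] + 1 * bf (F 3 : Fin 5 → Fin 5 → K) ![1, 1, 0, 0, 1] ![0, 0, 1, 0, 0] = 0 :=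
      (Fin.sum_univ_four _).symm.trans (h2 5 ![0, 0, 1, 0, 0])
    rw [bf5 (F 0).2, bf5 (F 1).2, bf5 (F 2).2, bf5 (F 3).2] at c
    linear_combination c
  have c56 : (F 1 : Fin 5 → Fin 5 → K) 0 3 + (F 1 : Fin 5 → Fin 5 → K) 1 3 + (F 1 : Fin 5 → Fin 5 → K) 3 4 + (F 3 : Fin 5 → Fin 5 → K) 0 3 + (F 3 : Fin 5 → Fin 5 → K) 1 3 + (F 3 : Fin 5 → Fin 5 → K) 3 4 = 0 := by
    have c : 0 * bf (F 0 : Fin 5 → Fin 5 → K) ![1, 1, 0, 0, 1] ![0, 0, 0, 1, 0] + 1 * bf (F 1 : Fin 5 → Fin 5 → K) ![1, 1, 0, 0, 1] ![0, 0, 0, 1, 0] + 0 * bf (F 2 : Fin 5 → Fin 5 → K) ![1, 1, 0, 0, 1] ![0, 0, 0, 1, 0] + 1 * bf (F 3 : Fin 5 → Fin 5 → K) ![1, 1, 0, 0, 1] ![0, 0, 0, 1, 0] = 0 :=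
      (Fin.sum_univ_four _).symm.trans (h2 5 ![0, 0, 0, 1, 0])
    rw [bf5 (F 0).2, bf5 (F 1).2, bf5 (F 2).2, bf5 (F 3).2] at c
    linear_combination c
  have c58 : (F 0 : Fin 5 → Fin 5 → K) 0 1 + (F 0 : Fin 5 → Fin 5 → K) 0 2 + (F 0 : Fin 5 → Fin 5 → K) 0 3 + (-1) * (F 0 : Fin 5 → Fin 5 → K) 0 4 + (F 1 : Fin 5 → Fin 5 → K) 0 1 + (F 1 : Fin 5 → Fin 5 → K) 0 2 + (F 1 : Fin 5 → Fin 5 → K) 0 3 + (-1) * (F 1 : Fin 5 → Fin 5 → K) 0 4 = 0 := by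
    have c : 1 * bf (F 0 : Fin 5 → Fin 5 → K) ![0, 1, 1, 1, -1] ![1, 0, 0, 0, 0] + 1 * bf (F 1 : Fin 5 → Fin 5 → K) ![0, 1, 1, 1, -1] ![1, 0, 0, 0, 0] + 0 * bf (F 2 : Fin 5 → Fin 5 → K) ![0, 1, 1, 1, -1] ![1, 0, 0, 0, 0] + 0 * bf (F 3 : Fin 5 → Fin 5 → K) ![0, 1, 1, 1, -1] ![1, 0, 0, 0, 0] = 0 :=
      (Fin.sum_univ_four _).symm.trans (h2 6 ![1, 0, 0, 0, 0])
    rw [bf5 (F 0).2, bf5 (F 1).2, bf5 (F 2).2, bf5 (F 3).2] at c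
    linear_combination c
  have c59 : (F 0 : Fin 5 → Fin 5 → K) 1 1 + (F 0 : Fin 5 → Fin 5 → K) 1 2 + (F 0 : Fin 5 → Fin 5 → K) 1 3 + (-1) * (F 0 : Fin 5 → Fin 5 → K) 1 4 + (F 1 : Fin 5 → Fin 5 → K) 1 1 + (F 1 : Fin 5 → Fin 5 → K) 1 2 + (F 1 : Fin 5 → Fin 5 → K) 1 3 + (-1) * (F 1 : Fin 5 → Fin 5 → K) 1 4 = 0 := by
    have c : 1 * bf (F 0 : Fin 5 → Fin 5 → K) ![0, 1, 1, 1, -1] ![0, 1, 0, 0, 0] + 1 * bf (F 1 : Fin 5 → Fin 5 → K) ![0, 1, 1, 1, -1] ![0, 1, 0, 0, 0] + 0 * bf (F 2 : Fin 5 → Fin 5 → K) ![0, 1, 1, 1, -1] ![0, 1, 0, 0, 0] + 0 * bf (F 3 : Fin 5 → Fin 5 → K) ![0, 1, 1, 1, -1] ![0, 1, 0, 0, 0] = 0 :=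
      (Fin.sum_univ_four _).symm.trans (h2 6 ![0, 1, 0, 0, 0])
    rw [bf5 (F 0).2, bf5 (F 1).2, bf5 (F 2).2, bf5 (F 3).2] at c
    linear_combination c
  have c60 : (F 0 : Fin 5 → Fin 5 → K) 1 2 + (F 0 : Fin 5 → Fin 5 → K) 2 2 + (F 0 : Fin 5 → Fin 5 → K) 2 3 + (-1) * (F 0 : Fin 5 → Fin 5 → K) 2 4 + (F 1 : Fin 5 → Fin 5 → K) 1 2 + (F 1 : Fin 5 → Fin 5 → K) 2 2 + (F 1 : Fin 5 → Fin 5 → K) 2 3 + (-1) * (F 1 : Fin 5 → Fin 5 → K) 2 4 = 0 := by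
    have c : 1 * bf (F 0 : Fin 5 → Fin 5 → K) ![0, 1, 1, 1, -1] ![0, 0, 1, 0, 0] + 1 * bf (F 1 : Fin 5 → Fin 5 → K) ![0, 1, 1, 1, -1] ![0, 0, 1, 0, 0] + 0 * bf (F 2 : Fin 5 → Fin 5 → K) ![0, 1, 1, 1, -1] ![0, 0, 1, 0, 0] + 0 * bf (F 3 : Fin 5 → Fin 5 → K) ![0, 1, 1, 1, -1] ![0, 0, 1, 0, 0] = 0 :=
      (Fin.sum_univ_four _).symm.trans (h2 6 ![0, 0, 1, 0, 0])
    rw [bf5 (F 0).2, bf5 (F 1).2, bf5 (F 2).2, bf5 (F 3).2] at c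
    linear_combination c
  have c61 : (F 0 : Fin 5 → Fin 5 → K) 1 3 + (F 0 : Fin 5 → Fin 5 → K) 2 3 + (F 0 : Fin 5 → Fin 5 → K) 3 3 + (-1) * (F 0 : Fin 5 → Fin 5 → K) 3 4 + (F 1 : Fin 5 → Fin 5 → K) 1 3 + (F 1 : Fin 5 → Fin 5 → K) 2 3 + (F 1 : Fin 5 → Fin 5 → K) 3 3 + (-1) * (F 1 : Fin 5 → Fin 5 → K) 3 4 = 0 := by
    have c : 1 * bf (F 0 : Fin 5 → Fin 5 → K) ![0, 1, 1, 1, -1] ![0, 0, 0, 1, 0] + 1 * bf (F 1 : Fin 5 → Fin 5 → K) ![0, 1, 1, 1, -1] ![0, 0, 0, 1, 0] + 0 * bf (F 2 : Fin 5 → Fin 5 → K) ![0, 1, 1, 1, -1] ![0, 0, 0, 1, 0] + 0 * bf (F 3 : Fin 5 → Fin 5 → K) ![0, 1, 1, 1, -1] ![0, 0, 0, 1, 0] = 0 :=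
      (Fin.sum_univ_four _).symm.trans (h2 6 ![0, 0, 0, 1, 0])
    rw [bf5 (F 0).2, bf5 (F 1).2, bf5 (F 2).2, bf5 (F 3).2] at c
    linear_combination c
  have c62 : (F 0 : Fin 5 → Fin 5 → K) 1 4 + (F 0 : Fin 5 → Fin 5 → K) 2 4 + (F 0 : Fin 5 → Fin 5 → K) 3 4 + (-1) * (F 0 : Fin 5 → Fin 5 → K) 4 4 + (F 1 : Fin 5 → Fin 5 → K) 1 4 + (F 1 : Fin 5 → Fin 5 → K) 2 4 + (F 1 : Fin 5 → Fin 5 → K) 3 4 + (-1) * (F 1 : Fin 5 → Fin 5 → K) 4 4 = 0 := by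
    have c : 1 * bf (F 0 : Fin 5 → Fin 5 → K) ![0, 1, 1, 1, -1] ![0, 0, 0, 0, 1] + 1 * bf (F 1 : Fin 5 → Fin 5 → K) ![0, 1, 1, 1, -1] ![0, 0, 0, 0, 1] + 0 * bf (F 2 : Fin 5 → Fin 5 → K) ![0, 1, 1, 1, -1] ![0, 0, 0, 0, 1] + 0 * bf (F 3 : Fin 5 → Fin 5 → K) ![0, 1, 1, 1, -1] ![0, 0, 0, 0, 1] = 0 :=
      (Fin.sum_univ_four _).symm.trans (h2 6 ![0, 0, 0, 0, 1])
    rw [bf5 (F 0).2, bf5 (F 1).2, bf5 (F 2).2, bf5 (F 3).2] at c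
    linear_combination c
  have c63 : (F 0 : Fin 5 → Fin 5 → K) 0 0 + (2) * (F 0 : Fin 5 → Fin 5 → K) 0 2 + (-2) * (F 0 : Fin 5 → Fin 5 → K) 0 3 + (F 0 : Fin 5 → Fin 5 → K) 2 2 + (-2) * (F 0 : Fin 5 → Fin 5 → K) 2 3 + (F 0 : Fin 5 → Fin 5 → K) 3 3 = 0 := by
    linear_combination (bf5 (F 0).2 1 0 1 (-1) 0 1 0 1 (-1) 0).symm.trans (h3 0 0)
  have c64 : (F 1 : Fin 5 → Fin 5 → K) 0 0 + (2) * (F 1 : Fin 5 → Fin 5 → K) 0 2 + (-2) * (F 1 : Fin 5 → Fin 5 → K) 0 3 + (F 1 : Fin 5 → Fin 5 → K) 2 2 + (-2) * (F 1 : Fin 5 → Fin 5 → K) 2 3 + (F 1 : Fin 5 → Fin 5 → K) 3 3 = 0 := by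
    linear_combination (bf5 (F 1).2 1 0 1 (-1) 0 1 0 1 (-1) 0).symm.trans (h3 0 1)
  have c65 : (F 2 : Fin 5 → Fin 5 → K) 0 0 + (2) * (F 2 : Fin 5 → Fin 5 → K) 0 2 + (-2) * (F 2 : Fin 5 → Fin 5 → K) 0 3 + (F 2 : Fin 5 → Fin 5 → K) 2 2 + (-2) * (F 2 : Fin 5 → Fin 5 → K) 2 3 + (F 2 : Fin 5 → Fin 5 → K) 3 3 = 0 := by
    linear_combination (bf5 (F 2).2 1 0 1 (-1) 0 1 0 1 (-1) 0).symm.trans (h3 0 2)
  have c66 : (F 3 : Fin 5 → Fin 5 → K) 0 0 + (2) * (F 3 : Fin 5 → Fin 5 → K) 0 2 + (-2) * (F 3 : Fin 5 → Fin 5 → K) 0 3 + (F 3 : Fin 5 → Fin 5 → K) 2 2 + (-2) * (F 3 : Fin 5 → Fin 5 → K) 2 3 + (F 3 : Fin 5 → Fin 5 → K) 3 3 = 0 := by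
    linear_combination (bf5 (F 3).2 1 0 1 (-1) 0 1 0 1 (-1) 0).symm.trans (h3 0 3)
  have z0 : (F 0 : Fin 5 → Fin 5 → K) = 0 := by
    have u00 : (F 0 : Fin 5 → Fin 5 → K) 0 0 = 0 := by
      linear_combination (1) * c0
    have u01 : (F 0 : Fin 5 → Fin 5 → K) 0 1 = 0 := by
      linear_combination (1) * c29
    have u02 : (F 0 : Fin 5 → Fin 5 → K) 0 2 = 0 := by
      linear_combination (1) * c30
    have u03 : (F 0 : Fin 5 → Fin 5 → K) 0 3 = 0 := by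
      linear_combination (1) * c31
    have u04 : (F 0 : Fin 5 → Fin 5 → K) 0 4 = 0 := by
      linear_combination (1) * c32
    have u11 : (F 0 : Fin 5 → Fin 5 → K) 1 1 = 0 := by
      linear_combination (1) * c4
    have u12 : (F 0 : Fin 5 → Fin 5 → K) 1 2 = 0 := by
      linear_combination (-1 / 2) * c0 + (-1 / 2) * c4 + (-1) * c8 + (1) * c13 + (-1 / 2) * c16 + (1 / 4) * c20 + (1 / 4) * c21 + (1 / 2) * c24 + (-1) * c29 + (-1) * c30 + (-1) * c33 + (2) * c36 + (-1) * c37 + (-1) * c42 + (1) * c43 + (1) * c44 + (1) * c47 + (1) * c50 + (-1) * c56 + (1 / 2) * c58 + (-1 / 4) * c59 + (1 / 4) * c60 + (-3 / 4) * c61 + (1 / 4) * c62 + (1 / 4) * c63 + (-1 / 4) * c64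
    have u13 : (F 0 : Fin 5 → Fin 5 → K) 1 3 = 0 := by
      linear_combination (-1) * c4 + (-1) * c5 + (1) * c8 + (-1) * c13 + (1 / 4) * c20 + (-1 / 4) * c21 + (-1 / 2) * c24 + (1) * c30 + (-1) * c32 + (1) * c33 + (-1) * c35 + (-3) * c36 + (2) * c37 + (1) * c42 + (-1) * c43 + (-1) * c44 + (-1) * c47 + (-1) * c50 + (1) * c56 + (-1 / 2) * c58 + (5 / 4) * c59 + (-1 / 4) * c60 + (3 / 4) * c61 + (-1 / 4) * c62 + (-1 / 4) * c63 + (1 / 4) * c64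
    have u14 : (F 0 : Fin 5 → Fin 5 → K) 1 4 = 0 := by
      linear_combination (-1 / 2) * c0 + (-1 / 2) * c4 + (-1 / 2) * c16 + (1 / 2) * c20 + (-1) * c29 + (-1) * c32
    have u22 : (F 0 : Fin 5 → Fin 5 → K) 2 2 = 0 := by
      linear_combination (1) * c8
    have u23 : (F 0 : Fin 5 → Fin 5 → K) 2 3 = 0 := by
      linear_combination (1 / 2) * c0 + (1 / 2) * c8 + (1 / 2) * c12 + (1) * c30 + (-1) * c31 + (-1 / 2) * c63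
    have u24 : (F 0 : Fin 5 → Fin 5 → K) 2 4 = 0 := by
      linear_combination (-1) * c42 + (1) * c50
    have u33 : (F 0 : Fin 5 → Fin 5 → K) 3 3 = 0 := by
      linear_combination (1) * c12
    have u34 : (F 0 : Fin 5 → Fin 5 → K) 3 4 = 0 := by
      linear_combination (1 / 2) * c0 + (-1 / 2) * c4 + (-1) * c5 + (1) * c8 + (1) * c12 + (1 / 2) * c16 + (-1 / 2) * c24 + (1) * c30 + (-1) * c31 + (-1) * c35 + (-1) * c36 + (1) * c37 + (1) * c42 + (-1) * c50 + (1) * c59 + (-1 / 2) * c63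
    have u44 : (F 0 : Fin 5 → Fin 5 → K) 4 4 = 0 := by
      linear_combination (1) * c16
    exact zero5 (F 0).2 u00 u01 u02 u03 u04 u11 u12 u13 u14 u22 u23 u24 u33 u34 u44
  have z1 : (F 1 : Fin 5 → Fin 5 → K) = 0 := by
    have u00 : (F 1 : Fin 5 → Fin 5 → K) 0 0 = 0 := by
      linear_combination (1) * c1
    have u01 : (F 1 : Fin 5 → Fin 5 → K) 0 1 = 0 := by
      linear_combination (1) * c33
    have u02 : (F 1 : Fin 5 → Fin 5 → K) 0 2 = 0 := by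
      linear_combination (-1 / 2) * c1 + (1 / 2) * c4 + (-1 / 2) * c8 + (-1 / 2) * c9 + (-1 / 2) * c12 + (-1 / 2) * c13 + (1 / 2) * c16 + (-1 / 4) * c20 + (1 / 4) * c21 + (-1) * c30 + (1) * c32 + (-1) * c33 + (-1) * c37 + (1 / 2) * c58 + (-1 / 4) * c59 + (1 / 4) * c60 + (1 / 4) * c61 + (1 / 4) * c62 + (1 / 4) * c63 + (1 / 4) * c64
    have u03 : (F 1 : Fin 5 → Fin 5 → K) 0 3 = 0 := by
      linear_combination (-1 / 2) * c4 + (-1 / 2) * c5 + (1 / 2) * c8 + (1 / 2) * c9 + (1 / 2) * c12 + (1 / 2) * c13 + (-1 / 2) * c16 + (-1 / 2) * c17 + (1 / 4) * c20 + (1 / 4) * c21 + (-1) * c29 + (-1) * c31 + (-1) * c33 + (1 / 2) * c58 + (1 / 4) * c59 + (-1 / 4) * c60 + (-1 / 4) * c61 + (-1 / 4) * c62 + (-1 / 4) * c63 + (-1 / 4) * c64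
    have u04 : (F 1 : Fin 5 → Fin 5 → K) 0 4 = 0 := by
      linear_combination (-1 / 2) * c1 + (-1 / 2) * c5 + (-1 / 2) * c17 + (1 / 2) * c21 + (-1) * c33 + (-1) * c37
    have u11 : (F 1 : Fin 5 → Fin 5 → K) 1 1 = 0 := by
      linear_combination (1) * c5
    have u12 : (F 1 : Fin 5 → Fin 5 → K) 1 2 = 0 := by
      linear_combination (1) * c35
    have u13 : (F 1 : Fin 5 → Fin 5 → K) 1 3 = 0 := by
      linear_combination (1) * c36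
    have u14 : (F 1 : Fin 5 → Fin 5 → K) 1 4 = 0 := by
      linear_combination (1) * c37
    have u22 : (F 1 : Fin 5 → Fin 5 → K) 2 2 = 0 := by
      linear_combination (1) * c9
    have u23 : (F 1 : Fin 5 → Fin 5 → K) 2 3 = 0 := by
      linear_combination (1) * c4 + (1 / 2) * c5 + (-1) * c8 + (-1 / 2) * c9 + (-1) * c12 + (-1 / 2) * c13 + (1) * c16 + (1 / 2) * c17 + (-1 / 2) * c20 + (1) * c29 + (-1) * c30 + (1) * c31 + (1) * c32 + (-1) * c37 + (-1 / 2) * c59 + (1 / 2) * c60 + (1 / 2) * c61 + (1 / 2) * c62 + (1 / 2) * c63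
    have u24 : (F 1 : Fin 5 → Fin 5 → K) 2 4 = 0 := by
      linear_combination (1 / 2) * c4 + (1 / 2) * c5 + (-1 / 2) * c8 + (1 / 2) * c9 + (-1 / 2) * c12 + (1 / 2) * c13 + (1 / 2) * c16 + (1 / 2) * c17 + (-1 / 4) * c20 + (1 / 4) * c21 + (1 / 2) * c24 + (-1) * c30 + (1) * c32 + (-1) * c33 + (1) * c35 + (2) * c36 + (-2) * c37 + (1) * c43 + (1) * c44 + (1) * c47 + (-1) * c56 + (1 / 2) * c58 + (-3 / 4) * c59 + (-1 / 4) * c60 + (-1 / 4) * c61 + (3 / 4) * c62 + (1 / 4) * c63 + (-1 / 4) * c64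
    have u33 : (F 1 : Fin 5 → Fin 5 → K) 3 3 = 0 := by
      linear_combination (1) * c13
    have u34 : (F 1 : Fin 5 → Fin 5 → K) 3 4 = 0 := by
      linear_combination (1 / 2) * c4 + (1 / 2) * c5 + (-1 / 2) * c8 + (-1 / 2) * c9 + (-1 / 2) * c12 + (-1 / 2) * c13 + (1 / 2) * c16 + (1 / 2) * c17 + (-1 / 4) * c20 + (-1 / 4) * c21 + (1) * c29 + (1) * c31 + (1) * c33 + (-1) * c36 + (-1) * c43 + (-1) * c44 + (-1) * c47 + (1) * c56 + (-1 / 2) * c58 + (-1 / 4) * c59 + (1 / 4) * c60 + (1 / 4) * c61 + (1 / 4) * c62 + (1 / 4) * c63 + (1 / 4) * c64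
    have u44 : (F 1 : Fin 5 → Fin 5 → K) 4 4 = 0 := by
      linear_combination (1) * c17
    exact zero5 (F 1).2 u00 u01 u02 u03 u04 u11 u12 u13 u14 u22 u23 u24 u33 u34 u44
  have z2 : (F 2 : Fin 5 → Fin 5 → K) = 0 := by
    have u00 : (F 2 : Fin 5 → Fin 5 → K) 0 0 = 0 := by
      linear_combination (1) * c2
    have u01 : (F 2 : Fin 5 → Fin 5 → K) 0 1 = 0 := by
      linear_combination (-1 / 2) * c0 + (-1 / 2) * c2 + (-1 / 2) * c4 + (-1 / 2) * c6 + (-1 / 2) * c16 + (-1 / 2) * c18 + (1 / 2) * c20 + (1 / 2) * c22 + (-1) * c29 + (-1) * c48 + (-1) * c49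
    have u02 : (F 2 : Fin 5 → Fin 5 → K) 0 2 = 0 := by
      linear_combination (1) * c38
    have u03 : (F 2 : Fin 5 → Fin 5 → K) 0 3 = 0 := by
      linear_combination (1 / 2) * c2 + (1 / 2) * c10 + (1 / 2) * c14 + (1) * c38 + (-1) * c41 + (-1 / 2) * c65
    have u04 : (F 2 : Fin 5 → Fin 5 → K) 0 4 = 0 := by
      linear_combination (-1) * c32 + (1) * c48
    have u11 : (F 2 : Fin 5 → Fin 5 → K) 1 1 = 0 := by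
      linear_combination (1) * c6
    have u12 : (F 2 : Fin 5 → Fin 5 → K) 1 2 = 0 := by
      linear_combination (1) * c39
    have u13 : (F 2 : Fin 5 → Fin 5 → K) 1 3 = 0 := by
      linear_combination (1) * c4 + (1) * c5 + (-1 / 2) * c6 + (-1) * c8 + (-1 / 2) * c10 + (-1) * c12 + (-1 / 2) * c14 + (-1 / 2) * c18 + (-1 / 2) * c20 + (1 / 2) * c24 + (1 / 2) * c26 + (1) * c29 + (-1) * c30 + (1) * c31 + (1) * c32 + (1) * c35 + (1) * c36 + (-1) * c37 + (-1) * c39 + (-1) * c41 + (1) * c49 + (1) * c50 + (1) * c51 + (-1) * c59 + (1 / 2) * c63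
    have u14 : (F 2 : Fin 5 → Fin 5 → K) 1 4 = 0 := by
      linear_combination (1 / 2) * c0 + (1 / 2) * c4 + (1 / 2) * c16 + (-1 / 2) * c20 + (1) * c29 + (1) * c32 + (1) * c49
    have u22 : (F 2 : Fin 5 → Fin 5 → K) 2 2 = 0 := by
      linear_combination (1) * c10
    have u23 : (F 2 : Fin 5 → Fin 5 → K) 2 3 = 0 := by
      linear_combination (1) * c41
    have u24 : (F 2 : Fin 5 → Fin 5 → K) 2 4 = 0 := by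
      linear_combination (1) * c42
    have u33 : (F 2 : Fin 5 → Fin 5 → K) 3 3 = 0 := by
      linear_combination (1) * c14
    have u34 : (F 2 : Fin 5 → Fin 5 → K) 3 4 = 0 := by
      linear_combination (-1 / 2) * c0 + (1 / 2) * c4 + (1) * c5 + (-1) * c8 + (-1) * c12 + (-1 / 2) * c16 + (1 / 2) * c24 + (-1) * c30 + (1) * c31 + (1) * c35 + (1) * c36 + (-1) * c37 + (-1) * c42 + (1) * c50 + (1) * c51 + (-1) * c59 + (1 / 2) * c63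
    have u44 : (F 2 : Fin 5 → Fin 5 → K) 4 4 = 0 := by
      linear_combination (1) * c18
    exact zero5 (F 2).2 u00 u01 u02 u03 u04 u11 u12 u13 u14 u22 u23 u24 u33 u34 u44
  have z3 : (F 3 : Fin 5 → Fin 5 → K) = 0 := by
    have u00 : (F 3 : Fin 5 → Fin 5 → K) 0 0 = 0 := by
      linear_combination (1) * c3
    have u01 : (F 3 : Fin 5 → Fin 5 → K) 0 1 = 0 := by
      linear_combination (-1 / 2) * c1 + (-1 / 2) * c3 + (-1 / 2) * c5 + (-1 / 2) * c7 + (1 / 2) * c17 + (1 / 2) * c19 + (-1 / 2) * c21 + (-1 / 2) * c23 + (-1) * c33 + (1) * c53 + (1) * c54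
    have u02 : (F 3 : Fin 5 → Fin 5 → K) 0 2 = 0 := by
      linear_combination (-1 / 2) * c3 + (-1 / 2) * c11 + (-1 / 2) * c15 + (1) * c43 + (1) * c45 + (1 / 2) * c66
    have u03 : (F 3 : Fin 5 → Fin 5 → K) 0 3 = 0 := by
      linear_combination (1) * c43
    have u04 : (F 3 : Fin 5 → Fin 5 → K) 0 4 = 0 := by
      linear_combination (-1 / 2) * c3 + (1) * c5 + (1 / 2) * c7 + (-1 / 2) * c19 + (1 / 2) * c23 + (1) * c33 + (1) * c37 + (-1) * c54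
    have u11 : (F 3 : Fin 5 → Fin 5 → K) 1 1 = 0 := by
      linear_combination (1) * c7
    have u12 : (F 3 : Fin 5 → Fin 5 → K) 1 2 = 0 := by
      linear_combination (1 / 2) * c1 + (1 / 2) * c3 + (-1 / 2) * c4 + (-1 / 2) * c5 + (-1 / 2) * c7 + (1 / 2) * c8 + (1 / 2) * c12 + (-1 / 2) * c16 + (-1 / 2) * c17 + (-1 / 2) * c19 + (1 / 4) * c20 + (1 / 4) * c23 + (-1 / 4) * c24 + (1 / 4) * c27 + (1) * c30 + (-1) * c32 + (1) * c33 + (-1) * c35 + (-1) * c36 + (1) * c37 + (-1) * c43 + (-1) * c44 + (-1) * c45 + (-1 / 2) * c53 + (1 / 2) * c55 + (1 / 2) * c56 + (-1 / 2) * c58 + (1 / 2) * c59 + (-1 / 2) * c62 + (-1 / 4) * c63 + (-1 / 4) * c66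
    have u13 : (F 3 : Fin 5 → Fin 5 → K) 1 3 = 0 := by
      linear_combination (1) * c44
    have u14 : (F 3 : Fin 5 → Fin 5 → K) 1 4 = 0 := by
      linear_combination (1 / 2) * c1 + (1 / 2) * c3 + (-1 / 2) * c5 + (-1 / 2) * c7 + (-1 / 2) * c17 + (-1 / 2) * c19 + (1 / 2) * c21 + (1 / 2) * c23 + (-1) * c37 + (-1) * c53
    have u22 : (F 3 : Fin 5 → Fin 5 → K) 2 2 = 0 := by
      linear_combination (1) * c11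
    have u23 : (F 3 : Fin 5 → Fin 5 → K) 2 3 = 0 := by
      linear_combination (1) * c45
    have u24 : (F 3 : Fin 5 → Fin 5 → K) 2 4 = 0 := by
      linear_combination (-1 / 2) * c4 + (1 / 2) * c7 + (1 / 2) * c8 + (1 / 2) * c11 + (1 / 2) * c12 + (1 / 2) * c15 + (-1 / 2) * c16 + (1 / 2) * c19 + (1 / 4) * c20 + (-1 / 2) * c21 + (-1 / 4) * c23 + (-1 / 4) * c24 + (-1 / 4) * c27 + (1) * c30 + (-1) * c32 + (1) * c33 + (-1) * c35 + (-1) * c36 + (2) * c37 + (-1) * c43 + (-1) * c47 + (1 / 2) * c53 + (1 / 2) * c55 + (1 / 2) * c56 + (-1 / 2) * c58 + (1 / 2) * c59 + (-1 / 2) * c62 + (-1 / 4) * c63 + (-1 / 4) * c66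
    have u33 : (F 3 : Fin 5 → Fin 5 → K) 3 3 = 0 := by
      linear_combination (1) * c15
    have u34 : (F 3 : Fin 5 → Fin 5 → K) 3 4 = 0 := by
      linear_combination (1) * c47
    have u44 : (F 3 : Fin 5 → Fin 5 → K) 4 4 = 0 := by
      linear_combination (1) * c19
    exact zero5 (F 3).2 u00 u01 u02 u03 u04 u11 u12 u13 u14 u22 u23 u24 u33 u34 u44
  funext j
  apply Subtype.ext
  fin_cases j
  · exact z0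
  · exact z1
  · exact z2
  · exact z3

end

end Pool.Agent.WarR


end

section

/-!
# Small windows of degree 2 (MP_db021c_ag), n = 19 ... 22: explicit assignments of the stars   (helper42)

`sd_n_b_x_y : KQ K (n+1) b x y r`, found by annealing, checked by the kernel through `lab_kq`.
-/

set_option autoImplicit false

namespace Pool.Agent.WarR

variable (K : Type*) [Field K] [CharZero K]

theorem sd_19_15_89_8 : KQ K 20 15 89 8 4 :=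
  lab_kq
    [[11, 8, 6, 12, 11, 0], [4, 0, 10, 3, 0, 1], [13, 5, 13, 14, 11, 2], [5, 2, 7, 6, 13, 3], [3, 7, 1, 3, 10, 4], [2, 7, 12, 9, 7, 5], [10, 13, 13, 0, 13, 6], [12, 9, 0, 14, 0, 7], [13, 5, 14, 9, 1, 8], [1, 12, 8, 8, 2, 9], [1, 4, 13, 11, 7, 10], [10, 14, 0, 8, 3, 11], [11, 3, 14, 13, 5, 12], [6, 2, 4, 8, 13], [6, 9, 4, 8, 2, 14]]
    [[(11, 3)], [(10, 1)], [(5, 1)], [(12, 2)], [(10, 2)], [(8, 2)], [(14, 1)], [(5, 2)], [(0, 2)], [(14, 2)], [(11, 1)], [(12, 1)], [(9, 2)], [(3, 5), (8, 1), (10, 3), (12, 4)], [(11, 2), (12, 3)]]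
    (by decide +kernel)

theorem sd_19_16_95_2 : KQ K 20 16 95 2 3 :=
  lab_kq
    [[4, 9, 3, 10, 7, 0], [9, 0, 8, 12, 7, 1], [15, 1, 10, 1, 15, 2], [1, 12, 13, 15, 10, 3], [6, 8, 12, 2, 12, 4], [14, 11, 11, 3, 13, 5], [14, 10, 3, 3, 6], [3, 4, 0, 13, 3, 7], [6, 11, 4, 0, 11, 8], [5, 7, 13, 11, 8, 9], [0, 2, 15, 5, 13, 10], [2, 5, 8, 5, 4, 11], [7, 13, 9, 9, 4, 12], [6, 12, 1, 6, 7, 13], [6, 10, 15, 2, 6, 14], [14, 6, 8, 7, 10, 15]]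
    [[(10, 1)], [(13, 3)], [(11, 1)], [(7, 1)], [(0, 1)], [], [(4, 1), (8, 1), (15, 2)], [(12, 1), (15, 4)], [(11, 3), (15, 3)], [(1, 1)], [(6, 2), (14, 2)], [], [(13, 2)], [(9, 3), (12, 2)], [(15, 1)], [(14, 3)]]
    (by decide +kernel)

theorem sd_19_17_93_13 : KQ K 20 17 93 13 1 :=
  lab_kq
    [[1, 15, 6, 3, 0], [11, 15, 9, 12, 1], [1, 1, 15, 7, 5, 2], [13, 11, 16, 14, 3], [8, 16, 0, 6, 1, 4], [2, 4, 9, 10, 15, 5], [8, 3, 8, 15, 6], [16, 8, 9, 0, 9, 7], [6, 10, 6, 12, 8], [1, 12, 3, 1, 9], [15, 3, 16, 11, 4, 10], [14, 3, 16, 6, 11], [11, 0, 8, 16, 13, 12], [3, 5, 9, 0, 16, 13], [0, 9, 0, 6, 8, 14], [6, 7, 6, 3, 15], [11, 9, 15, 11, 16]]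
    [[(12, 2), (13, 4)], [(0, 1)], [], [(10, 2), (11, 2), (13, 1)], [], [], [(0, 3), (4, 4), (14, 4)], [], [(7, 2), (12, 3)], [(13, 3), (14, 2), (16, 2)], [], [(3, 2), (12, 1)], [], [], [], [(2, 3), (10, 1), (16, 3)], [(4, 2), (7, 1), (12, 4)]]
    (by decide +kernel)

theorem sd_19_17_94_11 : KQ K 20 17 94 11 0 :=
  lab_kq
    [[10, 8, 14, 10, 0], [12, 8, 3, 9, 1], [15, 16, 16, 3, 16, 2], [6, 10, 12, 14, 3], [12, 13, 16, 2, 4], [1, 2, 4, 7, 4, 5], [12, 16, 9, 12, 5, 6], [4, 0, 5, 6, 1, 7], [3, 13, 0, 14, 9, 8], [1, 16, 1, 14, 9], [9, 16, 4, 5, 10], [10, 0, 12, 10, 15, 11], [7, 9, 0, 11, 12], [3, 1, 1, 11, 1, 13], [4, 9, 3, 4, 3, 14], [10, 9, 11, 4, 5, 15], [0, 0, 3, 2, 16]]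
    [[(8, 3), (11, 2)], [(5, 1)], [], [(8, 1), (13, 1)], [(7, 1), (15, 4)], [], [], [], [], [(10, 1), (14, 2), (15, 2)], [(11, 1), (15, 1)], [], [(1, 1), (4, 1)], [], [], [], [(9, 2), (10, 2)]]
    (by decide +kernel)

theorem sd_19_19_99_12 : KQ K 20 19 99 12 0 :=
  lab_kq
    [[1, 10, 10, 3, 11, 0], [13, 7, 18, 6, 1], [3, 7, 1, 5, 2], [8, 2, 7, 8, 3], [2, 2, 17, 18, 4], [17, 4, 2, 4, 5], [11, 14, 5, 4, 6], [13, 6, 5, 5, 7], [6, 18, 1, 13, 8], [7, 1, 7, 6, 9], [13, 14, 2, 8, 10], [9, 18, 5, 5, 11], [10, 8, 9, 10, 14, 12], [4, 9, 6, 14, 13], [11, 11, 9, 3, 14], [4, 18, 17, 6, 5, 15], [17, 3, 3, 11, 18, 16], [5, 14, 1, 13, 17], [8, 14, 9, 6, 18]]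
    [[], [(0, 1)], [], [], [(15, 1)], [(17, 1)], [(8, 1), (15, 4)], [(9, 1)], [(18, 1)], [(11, 1)], [], [], [], [(10, 1)], [(17, 2), (18, 2)], [], [], [(16, 1)], [(15, 2), (16, 5)]]
    (by decide +kernel)

theorem sd_19_19_100_10 : KQ K 20 19 100 10 0 :=
  lab_kq
    [[9, 17, 9, 11, 0], [16, 15, 18, 5, 1], [11, 12, 6, 15, 12, 2], [10, 1, 11, 16, 3], [6, 3, 16, 1, 14, 4], [16, 10, 18, 15, 2, 5], [8, 8, 9, 8, 6], [18, 15, 0, 10, 7], [7, 0, 3, 6, 8], [15, 17, 3, 8, 9], [0, 12, 16, 4, 10], [1, 7, 17, 15, 11], [11, 9, 11, 0, 12], [12, 18, 3, 6, 7, 13], [7, 17, 1, 0, 13, 14], [10, 17, 12, 8, 15], [3, 8, 7, 8, 16], [6, 0, 18, 8, 17], [9, 1, 10, 11, 18]]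
    [[(10, 1), (17, 2)], [(14, 3), (18, 2)], [], [(13, 3), (16, 1)], [], [], [(4, 1)], [(14, 1)], [], [(18, 1)], [(15, 1), (18, 3)], [(2, 1)], [(13, 1)], [], [], [(7, 2), (9, 1)], [(5, 1)], [(14, 2), (15, 2)], [(13, 2), (17, 3)]]
    (by decide +kernel)

theorem sd_19_19_101_8 : KQ K 20 19 101 8 0 :=
  lab_kq
    [[3, 12, 17, 10, 17, 0], [16, 13, 13, 4, 1], [1, 14, 15, 10, 5, 2], [18, 8, 7, 14, 3], [8, 12, 7, 6, 17, 4], [18, 14, 13, 15, 17, 5], [15, 17, 7, 18, 13, 6], [1, 11, 3, 14, 7], [16, 3, 12, 15, 8], [16, 7, 13, 10, 4, 9], [13, 18, 15, 3, 10], [10, 15, 3, 3, 11], [8, 14, 2, 0, 12], [17, 11, 12, 8, 13], [10, 8, 18, 5, 14], [11, 1, 9, 11, 15], [1, 14, 17, 0, 16], [11, 12, 10, 11, 17], [7, 16, 3, 12, 18]]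
    [[], [(2, 1)], [], [(0, 1), (18, 3)], [], [], [], [(9, 2), (18, 1)], [(12, 1), (14, 2)], [], [(11, 1), (14, 1)], [(13, 2)], [(4, 2), (17, 2)], [(10, 1)], [(5, 2), (16, 2)], [(6, 1), (11, 2)], [(9, 1)], [(13, 1), (16, 3)], [(5, 1), (14, 3)]]
    (by decide +kernel)

theorem sd_19_19_102_6 : KQ K 20 19 102 6 0 :=
  lab_kq
    [[18, 2, 4, 10, 17, 0], [7, 15, 16, 17, 17, 1], [16, 17, 7, 4, 2], [5, 4, 16, 8, 10, 3], [18, 2, 16, 1, 4], [9, 0, 7, 15, 5], [18, 16, 7, 3, 6], [18, 9, 3, 6, 7], [9, 6, 9, 13, 13, 8], [5, 14, 4, 1, 9], [15, 11, 4, 17, 11, 10], [2, 15, 16, 8, 11], [17, 5, 6, 13, 7, 12], [11, 7, 5, 6, 13], [13, 2, 13, 5, 7, 14], [11, 4, 9, 1, 15], [6, 12, 2, 4, 16], [13, 11, 6, 11, 17], [15, 17, 6, 7, 18]]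
    [[], [], [(11, 1), (14, 2)], [], [(3, 2), (10, 3), (15, 2)], [(9, 1), (12, 2)], [(12, 3), (16, 1), (18, 3)], [(1, 1), (6, 3), (13, 2)], [], [(7, 2)], [], [(15, 1)], [], [(17, 1)], [], [(11, 2), (18, 1)], [(3, 3), (6, 2), (11, 3)], [(12, 1), (18, 2)], [(6, 1), (7, 1)]]
    (by decide +kernel)

theorem sd_19_19_103_4 : KQ K 20 19 103 4 0 :=
  lab_kq
    [[17, 2, 8, 2, 12, 0], [18, 0, 12, 17, 14, 1], [7, 6, 16, 6, 2], [9, 18, 11, 15, 9, 3], [5, 14, 18, 18, 4], [15, 6, 16, 8, 5], [7, 15, 5, 8, 6], [4, 4, 1, 2, 7], [6, 2, 1, 15, 8], [18, 15, 15, 8, 9], [17, 13, 15, 2, 5, 10], [4, 7, 8, 3, 2, 11], [9, 5, 9, 6, 5, 12], [2, 4, 10, 6, 4, 13], [8, 16, 6, 5, 17, 14], [16, 7, 18, 4, 15], [5, 17, 3, 8, 16], [9, 8, 16, 10, 17], [16, 7, 17, 11, 18]]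
    [[], [], [(10, 4), (13, 1)], [], [(11, 1)], [(4, 1), (16, 1)], [(8, 1), (13, 4), (14, 3)], [(6, 1), (11, 2)], [(11, 3), (14, 1), (17, 2)], [(17, 1)], [], [], [], [], [], [(5, 1), (10, 3)], [(15, 1), (17, 3), (18, 1)], [(0, 1), (10, 1)], [(3, 2), (9, 1)]]
    (by decide +kernel)

theorem sd_19_19_104_2 : KQ K 20 19 104 2 0 :=
  lab_kq
    [[5, 6, 4, 5, 7, 0], [18, 7, 16, 12, 16, 1], [8, 18, 16, 10, 2], [12, 4, 7, 8, 16, 3], [0, 1, 15, 13, 4], [11, 16, 4, 17, 5], [2, 4, 5, 2, 6], [16, 10, 6, 10, 7], [13, 15, 18, 7, 8], [11, 7, 2, 5, 18, 9], [9, 18, 12, 5, 2, 10], [6, 17, 5, 16, 11], [7, 11, 5, 14, 12], [12, 2, 16, 3, 11, 13], [4, 8, 18, 4, 16, 14], [11, 14, 3, 5, 0, 15], [8, 8, 1, 11, 16], [6, 12, 2, 8, 18, 17], [6, 2, 7, 17, 18]]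
    [[], [], [(13, 2), (17, 3), (18, 2)], [], [(3, 2), (6, 2)], [(9, 4), (10, 4), (11, 3), (12, 3), (15, 4)], [(17, 1), (18, 1)], [(3, 3), (9, 2), (12, 1)], [(14, 2), (17, 4)], [], [], [(9, 1), (15, 1)], [(13, 1), (17, 2)], [], [], [], [(5, 2), (7, 1), (13, 3), (14, 5)], [], [(1, 1), (10, 2), (14, 3)]]
    (by decide +kernel)

theorem sd_19_19_105_0 : KQ K 20 19 105 0 0 :=
  lab_kq
    [[6, 5, 2, 2, 0], [3, 12, 14, 6, 1], [17, 14, 11, 15, 16, 2], [7, 9, 0, 15, 3], [8, 9, 1, 13, 17, 4], [6, 3, 0, 16, 14, 5], [1, 0, 11, 18, 6], [12, 12, 16, 10, 4, 7], [6, 12, 2, 11, 4, 8], [11, 11, 3, 14, 9], [16, 1, 14, 16, 9, 10], [16, 3, 14, 14, 11], [4, 15, 7, 18, 12], [11, 0, 0, 10, 11, 13], [1, 9, 3, 5, 14], [14, 13, 12, 5, 14, 15], [9, 0, 0, 9, 16], [1, 18, 16, 10, 12, 17], [6, 9, 3, 3, 8, 18]]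
    [[(5, 3), (6, 2)], [(10, 2), (14, 1), (17, 1)], [], [(5, 2), (11, 2), (14, 3)], [], [], [(8, 1), (18, 1)], [], [], [(4, 2), (16, 1), (18, 2)], [], [(2, 3), (13, 1)], [(8, 2), (15, 3)], [], [(2, 2), (10, 3), (15, 1)], [], [(10, 1), (11, 1), (17, 3)]]
    (by decide +kernel)

theorem sd_20_16_97_13 : KQ K 21 16 97 13 0 :=
  lab_kq
    [[9, 9, 11, 6, 7, 0], [4, 9, 4, 11, 4, 1], [11, 7, 6, 6, 7, 2], [12, 13, 2, 2, 2, 3], [15, 5, 14, 15, 12, 4], [3, 7, 2, 14, 3, 5], [12, 10, 13, 9, 11, 6], [14, 1, 8, 13, 5, 7], [7, 10, 14, 6, 15, 10, 8], [3, 13, 0, 15, 11, 9], [11, 15, 12, 0, 0, 10], [0, 4, 4, 14, 0, 11], [3, 5, 13, 2, 9, 12], [2, 6, 5, 0, 15, 13], [10, 5, 6, 12, 11, 14], [1, 1, 1, 0, 10, 15]]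
    [[(13, 4), (15, 4)], [], [(13, 1)], [(12, 1)], [], [(13, 3), (14, 2)], [(13, 2), (14, 3)], [(8, 1)], [], [(12, 5)], [(14, 1)], [(2, 1), (10, 1)], [(6, 1), (14, 4)], [(9, 2), (12, 3)], [(8, 3), (11, 4)], [(10, 2)]]
    (by decide +kernel)

theorem sd_20_17_101_11 : KQ K 21 17 101 11 3 :=
  lab_kq
    [[11, 2, 8, 12, 7, 0], [5, 16, 2, 2, 7, 1], [6, 0, 7, 3, 3, 2], [5, 16, 0, 0, 9, 3], [10, 9, 2, 14, 13, 4], [12, 10, 11, 13, 1, 5], [12, 4, 3, 15, 6], [1, 5, 12, 8, 11, 7], [15, 1, 7, 15, 6, 8], [7, 10, 14, 14, 10, 9], [6, 8, 6, 2, 11, 10], [6, 15, 3, 6, 15, 11], [9, 11, 14, 9, 3, 12], [16, 1, 6, 9, 4, 13], [8, 4, 3, 0, 13, 14], [6, 13, 4, 3, 13, 15], [13, 14, 4, 0, 15, 16]]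
    [[], [(13, 2)], [(10, 4)], [(14, 3), (15, 4)], [(14, 2)], [(7, 2)], [(2, 1), (11, 1), (13, 3), (15, 1)], [(9, 1)], [(14, 1)], [(13, 4)], [(9, 2)], [(12, 2)], [(7, 3)], [(16, 1)], [(16, 2)], [], [(13, 1)]]
    (by decide +kernel)

theorem sd_20_17_103_7 : KQ K 21 17 103 7 0 :=
  lab_kq
    [[15, 15, 14, 6, 0, 0], [11, 8, 0, 7, 7, 1], [14, 1, 10, 4, 6, 2], [13, 10, 16, 5, 9, 10, 3], [9, 1, 1, 7, 1, 4], [11, 15, 2, 2, 14, 5], [12, 0, 8, 16, 1, 6], [16, 2, 15, 14, 0, 7], [4, 5, 10, 13, 12, 8], [6, 6, 14, 0, 3, 9], [12, 5, 0, 8, 7, 10], [2, 0, 9, 7, 3, 11], [16, 4, 1, 14, 5, 12], [12, 8, 8, 7, 9, 13], [4, 13, 11, 5, 7, 14], [9, 6, 7, 7, 2, 15], [13, 10, 11, 5, 2, 16]]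
    [[(6, 2), (11, 2)], [(12, 3)], [(11, 1)], [], [(14, 1)], [(8, 2), (10, 2)], [(15, 2)], [(11, 4), (13, 4), (14, 5)], [(10, 4)], [(13, 5), (15, 1)], [(16, 2)], [(5, 1)], [(13, 1)], [(3, 1)], [(2, 1), (12, 4)], [], [(12, 1)]]
    (by decide +kernel)

theorem sd_20_18_107_5 : KQ K 21 18 107 5 2 :=
  lab_kq
    [[1, 14, 17, 5, 4, 0], [14, 10, 11, 13, 15, 1], [4, 3, 8, 5, 17, 2], [6, 17, 15, 5, 5, 3], [5, 5, 11, 12, 2, 4], [3, 0, 7, 12, 5], [5, 10, 7, 1, 10, 6], [11, 13, 4, 1, 15, 7], [10, 15, 12, 0, 17, 8], [8, 6, 13, 17, 13, 9], [5, 8, 11, 14, 8, 10], [16, 12, 14, 0, 9, 11], [2, 16, 3, 9, 15, 12], [4, 7, 1, 1, 8, 13], [16, 0, 6, 17, 2, 14], [9, 12, 13, 9, 13, 15], [2, 9, 3, 6, 17, 16], [7, 15, 0, 5, 5, 17]]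
    [[(14, 2)], [(7, 4)], [(16, 1)], [(16, 3)], [(13, 1)], [(4, 2), (6, 1), (10, 1)], [(14, 3)], [(17, 1)], [(10, 2)], [(16, 2)], [(8, 1)], [(10, 3)], [(15, 2)], [(15, 3)], [(11, 3)], [(12, 5), (17, 2)], [(14, 1)], [(3, 2), (14, 4)]]
    (by decide +kernel)

theorem sd_20_18_109_1 : KQ K 21 18 109 1 0 :=
  lab_kq
    [[5, 17, 1, 17, 1, 0], [0, 14, 16, 5, 5, 1], [14, 12, 3, 17, 10, 2], [7, 11, 16, 12, 1, 3], [11, 12, 7, 0, 2, 12, 4], [16, 10, 2, 3, 6, 5], [5, 10, 8, 10, 0, 6], [2, 9, 1, 3, 10, 7], [3, 10, 1, 2, 16, 8], [8, 8, 3, 12, 0, 9], [15, 13, 6, 9, 6, 10], [17, 13, 5, 4, 1, 11], [15, 9, 14, 2, 15, 12], [11, 9, 16, 7, 2, 13], [15, 8, 9, 0, 16, 14], [13, 0, 6, 17, 17, 15], [6, 14, 13, 3, 2, 16], [7, 1, 6, 12, 11, 17]]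
    [[(4, 4), (15, 2)], [(8, 3), (17, 2)], [(5, 3), (7, 1)], [(8, 1), (9, 3)], [], [(6, 1)], [(16, 1)], [(17, 1)], [], [(13, 2), (14, 3)], [(8, 2)], [(13, 1)], [(4, 2), (17, 4)], [(15, 1)], [(2, 1)], [(14, 1)], [(5, 1), (13, 3)], [(11, 1)]]
    (by decide +kernel)

theorem sd_20_20_109_13 : KQ K 21 20 109 13 0 :=
  lab_kq
    [[2, 13, 7, 11, 0], [15, 0, 7, 13, 1], [1, 17, 19, 17, 2], [0, 15, 0, 11, 4, 3], [14, 8, 1, 17, 4], [1, 2, 8, 2, 17, 5], [2, 17, 7, 18, 14, 6], [17, 14, 4, 3, 7], [16, 4, 12, 17, 8], [18, 1, 18, 12, 15, 9], [7, 4, 3, 8, 17, 10], [14, 9, 18, 15, 4, 11], [8, 6, 8, 0, 1, 12], [15, 5, 4, 10, 13], [7, 1, 10, 11, 14], [18, 7, 18, 0, 15], [4, 14, 17, 13, 4, 16], [0, 13, 19, 0, 17], [15, 8, 13, 10, 18], [13, 2, 13, 14, 5, 19]]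
    [[(12, 4), (17, 1)], [(5, 1), (9, 2)], [(6, 1)], [], [(10, 2), (13, 3), (16, 1)], [], [], [(10, 1), (14, 1)], [(10, 4), (18, 2)], [], [], [], [], [(0, 2), (17, 2)], [(11, 1), (16, 2)], [(11, 4), (13, 1), (18, 1)], [], [(6, 2), (7, 1), (16, 3)], [(11, 3)]]
    (by decide +kernel)

theorem sd_20_20_111_9 : KQ K 21 20 111 9 0 :=
  lab_kq
    [[2, 13, 4, 10, 0], [17, 15, 0, 8, 8, 1], [4, 11, 13, 6, 2], [8, 4, 2, 19, 3], [7, 1, 2, 11, 4], [12, 7, 12, 10, 19, 5], [0, 7, 0, 3, 5, 6], [17, 19, 9, 2, 7], [18, 5, 9, 11, 8], [0, 14, 4, 5, 11, 9], [3, 19, 3, 12, 13, 10], [8, 19, 19, 15, 18, 11], [7, 1, 19, 8, 12], [7, 3, 8, 8, 18, 13], [3, 4, 10, 6, 12, 14], [12, 17, 12, 9, 0, 15], [4, 17, 19, 14, 17, 16], [0, 6, 12, 2, 17], [2, 2, 17, 16, 3, 18], [16, 8, 2, 3, 19]]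
    [[(9, 1), (17, 1)], [], [(0, 1), (18, 2)], [(13, 2), (14, 1)], [(9, 3), (14, 2), (16, 1)], [], [], [(6, 2), (12, 1), (13, 1)], [(11, 1), (19, 2)], [], [], [], [(15, 3)], [], [], [], [], [(1, 1), (15, 2)], [], [(10, 2), (12, 3), (16, 3)]]
    (by decide +kernel)

theorem sd_21_19_113_15 : KQ K 22 19 113 15 2 :=
  lab_kq
    [[3, 16, 17, 4, 0], [0, 0, 6, 10, 8, 1], [12, 3, 17, 5, 0, 2], [2, 13, 15, 7, 16, 3], [12, 13, 11, 5, 6, 4], [1, 12, 7, 6, 0, 5], [17, 4, 9, 9, 17, 6], [14, 11, 10, 14, 5, 7], [18, 0, 14, 6, 0, 8], [15, 4, 5, 18, 17, 9], [8, 1, 6, 14, 9, 10], [16, 8, 18, 8, 13, 11], [7, 0, 6, 5, 11, 12], [2, 0, 11, 17, 0, 13], [9, 18, 3, 2, 10, 14], [13, 5, 3, 16, 8, 15], [10, 15, 11, 2, 10, 16], [4, 7, 9, 10, 1, 17], [0, 1, 16, 15, 14, 18]]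
    [[(8, 2), (12, 2), (13, 5), (18, 1)], [(18, 2)], [(16, 4)], [(15, 3)], [(17, 1)], [(15, 2)], [(10, 3), (12, 3)], [(17, 2)], [], [], [(17, 4)], [(16, 3)], [(5, 2)], [(15, 1)], [], [(18, 4)], [(18, 3)], [(13, 4)], [(14, 2)]]
    (by decide +kernel)

theorem sd_21_19_115_11 : KQ K 22 19 115 11 0 :=
  lab_kq
    [[8, 4, 3, 3, 14, 0], [0, 10, 0, 9, 4, 1], [13, 3, 7, 13, 18, 2], [1, 14, 18, 5, 7, 3], [5, 2, 14, 0, 7, 4], [13, 6, 1, 2, 6, 5], [9, 0, 16, 7, 15, 6], [10, 11, 17, 8, 17, 7], [10, 17, 12, 5, 18, 8], [17, 2, 12, 4, 14, 9], [5, 6, 18, 6, 4, 10], [9, 8, 7, 12, 9, 11], [11, 16, 7, 10, 4, 12], [4, 17, 1, 4, 16, 13], [3, 13, 1, 1, 6, 14], [2, 6, 11, 16, 3, 16, 15], [14, 18, 9, 0, 7, 16], [8, 18, 11, 7, 5, 17], [12, 16, 12, 14, 5, 18]]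
    [[(16, 4)], [(13, 3)], [(15, 1)], [(15, 5)], [(0, 2)], [(10, 1), (18, 5)], [(15, 2)], [(11, 3), (12, 3), (17, 4)], [(17, 1)], [(16, 3)], [(8, 1)], [(15, 3)], [(18, 1)], [(14, 2)], [(16, 1), (18, 4)], [], [(18, 2)], [(13, 2)], [(16, 2), (17, 2)]]
    (by decide +kernel)

theorem sd_21_20_119_9 : KQ K 22 20 119 9 1 :=
  lab_kq
    [[5, 14, 5, 4, 3, 0], [18, 3, 15, 5, 7, 1], [5, 16, 12, 7, 6, 2], [14, 19, 7, 9, 14, 3], [0, 15, 2, 5, 9, 4], [4, 19, 14, 11, 5], [9, 10, 17, 17, 2, 6], [5, 1, 6, 1, 18, 7], [13, 18, 3, 9, 19, 8], [5, 3, 10, 10, 13, 9], [13, 11, 1, 13, 2, 10], [12, 0, 15, 2, 13, 11], [4, 15, 16, 7, 3, 12], [10, 11, 16, 5, 16, 13], [17, 8, 4, 2, 8, 14], [19, 7, 6, 8, 19, 15], [11, 18, 9, 12, 3, 16], [6, 12, 8, 14, 5, 17], [1, 8, 16, 7, 9, 18], [2, 17, 0, 6, 0, 19]]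
    [[], [], [(19, 1)], [(9, 2)], [(14, 3)], [(2, 1), (7, 1), (9, 1), (13, 4), (17, 5)], [(17, 1)], [(15, 2)], [(18, 2)], [(6, 1)], [], [(16, 1)], [(17, 2)], [], [(17, 4)], [(12, 2)], [(18, 3)], [], [(16, 2)], [(15, 1)]]
    (by decide +kernel)

theorem sd_21_20_121_5 : KQ K 22 20 121 5 0 :=
  lab_kq
    [[9, 7, 5, 17, 6, 0], [13, 5, 17, 15, 7, 1], [12, 10, 7, 9, 18, 2], [9, 16, 13, 19, 5, 3], [5, 14, 15, 1, 11, 4], [17, 18, 16, 13, 4, 5], [12, 12, 2, 2, 7, 16, 6], [10, 0, 8, 11, 4, 7], [3, 13, 2, 2, 10, 8], [19, 4, 4, 17, 2, 9], [14, 9, 1, 4, 2, 10], [19, 15, 15, 1, 18, 11], [1, 7, 0, 13, 10, 12], [8, 14, 14, 17, 19, 13], [18, 11, 8, 18, 11, 14], [0, 4, 19, 11, 4, 15], [0, 15, 5, 11, 7, 16], [3, 10, 3, 2, 3, 17], [16, 11, 16, 3, 10, 18], [8, 1, 18, 17, 7, 19]]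
    [[(16, 1)], [(12, 1)], [], [], [(15, 2)], [(4, 1)], [], [(2, 3), (12, 2)], [(19, 1)], [(10, 2)], [(7, 1), (18, 5)], [(16, 4), (18, 2)], [], [(1, 1)], [], [(16, 2)], [(18, 1)], [(5, 1), (19, 4)], [(19, 3)], [(11, 1)]]
    (by decide +kernel)

theorem sd_21_21_122_9 : KQ K 22 21 122 9 0 :=
  lab_kq
    [[15, 6, 1, 12, 12, 0], [10, 2, 19, 18, 1], [19, 5, 12, 16, 17, 2], [15, 13, 11, 16, 20, 3], [16, 11, 9, 18, 17, 4], [9, 17, 6, 2, 13, 5], [13, 8, 20, 17, 19, 6], [1, 17, 3, 9, 18, 7], [0, 14, 1, 5, 16, 8], [4, 17, 4, 1, 11, 9], [12, 13, 1, 13, 15, 10], [20, 7, 7, 18, 7, 11], [1, 5, 19, 7, 9, 12], [1, 4, 1, 3, 13], [0, 16, 16, 17, 2, 14], [16, 13, 17, 17, 7, 15], [6, 3, 10, 0, 16], [13, 13, 11, 2, 17], [10, 17, 8, 20, 11, 18], [16, 2, 3, 18, 5, 19], [14, 8, 18, 14, 3, 20]]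
    [[], [(7, 1), (9, 4), (10, 3), (12, 1)], [], [], [], [], [], [], [], [], [], [], [], [(3, 2), (6, 1), (15, 2)], [], [], [(4, 1), (15, 1), (19, 1)], [(5, 2), (7, 2), (9, 2), (14, 4), (18, 2)], [(20, 3)]]
    (by decide +kernel)

theorem sd_21_21_124_5 : KQ K 22 21 124 5 0 :=
  lab_kq
    [[3, 11, 7, 16, 7, 0], [8, 0, 9, 16, 10, 1], [10, 5, 0, 14, 15, 2], [2, 9, 16, 10, 10, 3], [10, 18, 5, 10, 0, 4], [1, 19, 17, 11, 19, 5], [4, 8, 10, 9, 11, 6], [11, 15, 4, 0, 19, 7], [16, 9, 18, 20, 4, 8], [11, 12, 6, 0, 0, 9], [14, 19, 12, 19, 10], [20, 6, 12, 17, 11], [1, 3, 10, 15, 16, 12], [20, 11, 15, 20, 17, 13], [12, 13, 5, 8, 8, 14], [10, 7, 6, 18, 13, 15], [11, 6, 11, 17, 1, 16], [2, 18, 2, 10, 14, 17], [7, 14, 19, 5, 17, 18], [13, 4, 15, 1, 5, 19], [17, 3, 13, 14, 8, 20]]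
    [[(7, 4)], [(19, 4)], [], [], [(19, 2)], [(18, 4)], [(16, 2)], [], [], [(8, 2)], [(2, 1), (6, 3), (12, 3), (15, 1), (17, 4)], [(5, 4), (7, 1), (9, 1), (13, 2)], [(14, 1)], [(20, 3)], [(20, 4)], [(19, 3)], [(8, 1)], [(20, 1)], [(17, 2)]]
    (by decide +kernel)

theorem sd_21_21_125_3 : KQ K 22 21 125 3 0 :=
  lab_kq
    [[18, 19, 15, 1, 8, 0], [6, 3, 19, 18, 1], [12, 12, 1, 0, 18, 2], [8, 4, 8, 10, 13, 3], [19, 9, 1, 15, 20, 4], [0, 7, 9, 2, 19, 5], [4, 10, 7, 13, 3, 6], [17, 16, 20, 4, 8, 7], [1, 1, 5, 12, 10, 8], [11, 16, 17, 10, 15, 9], [20, 20, 17, 2, 16, 10], [6, 1, 7, 3, 15, 11], [14, 0, 0, 13, 16, 12], [5, 6, 3, 18, 5, 13], [3, 15, 1, 9, 12, 14], [18, 14, 17, 1, 20, 15], [9, 11, 15, 5, 12, 16], [2, 8, 5, 10, 6, 17], [13, 1, 10, 2, 2, 18], [14, 13, 7, 2, 7, 19], [11, 16, 4, 19, 12, 20]]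
    [[], [(2, 3), (4, 3), (11, 2), (14, 3), (18, 2)], [(19, 4)], [(14, 1)], [(20, 3)], [(17, 3)], [(13, 2)], [(19, 3)], [], [(16, 1)], [(6, 2)], [(20, 1)], [], [(19, 2)], [(19, 1)], [(14, 2)], [(20, 2)], [(15, 3)], [(15, 1)], [(4, 1)]]
    (by decide +kernel)

theorem sd_22_21_127_16 : KQ K 23 21 127 16 0 :=
  lab_kq
    [[7, 17, 18, 4, 1, 0], [12, 7, 6, 15, 8, 1], [14, 5, 3, 20, 4, 2], [8, 2, 1, 4, 2, 3], [17, 15, 20, 1, 14, 4], [0, 12, 19, 7, 12, 5], [5, 7, 18, 15, 1, 6], [12, 19, 10, 11, 16, 7], [16, 13, 1, 2, 13, 8], [3, 20, 17, 4, 4, 15, 9], [6, 6, 17, 0, 20, 10], [4, 16, 18, 10, 0, 11], [13, 15, 2, 1, 13, 12], [11, 0, 18, 16, 12, 13], [5, 19, 10, 0, 5, 14], [13, 18, 10, 1, 5, 15], [14, 2, 8, 20, 0, 16], [19, 16, 8, 1, 0, 17], [10, 6, 20, 7, 3, 18], [14, 3, 15, 3, 8, 19], [11, 11, 8, 2, 4, 20]]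
    [[(13, 2), (14, 4)], [(8, 3), (15, 4), (17, 4)], [(16, 2)], [(19, 2)], [(11, 1)], [(14, 1)], [], [(0, 1)], [(3, 1)], [], [(18, 1)], [], [(7, 1)], [], [(19, 1)], [(12, 2), (19, 3)], [(17, 2)], [(10, 3)], [(15, 2)], [(17, 1)], [(9, 2)]]
    (by decide +kernel)

theorem sd_22_22_131_14 : KQ K 23 22 131 14 0 :=
  lab_kq
    [[13, 8, 6, 7, 3, 0], [2, 14, 10, 4, 20, 1], [3, 9, 13, 7, 19, 2], [18, 20, 10, 2, 19, 3], [3, 0, 10, 14, 8, 4], [12, 19, 11, 18, 11, 5], [11, 18, 5, 4, 20, 6], [6, 16, 11, 13, 11, 7], [17, 0, 12, 5, 5, 8], [20, 1, 4, 10, 12, 9], [15, 20, 2, 13, 0, 10], [8, 1, 17, 15, 20, 11], [9, 0, 7, 19, 5, 12], [15, 16, 10, 3, 8, 13], [21, 7, 8, 17, 5, 14], [20, 5, 19, 6, 11, 15], [12, 17, 2, 20, 3, 16], [21, 21, 19, 5, 9, 17], [4, 6, 14, 15, 16, 18], [16, 1, 20, 4, 2, 19], [9, 18, 13, 14, 20], [20, 14,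 7, 1, 0, 21]]
    [[(12, 2)], [(21, 4)], [(16, 3)], [(13, 4)], [(19, 4)], [(17, 4)], [(18, 2)], [(21, 3)], [(14, 3)], [(20, 1)], [(13, 3)], [], [(16, 1)], [(20, 3)], [(21, 2)], [(18, 4)], [(19, 1)], [(16, 2)], [(20, 2)], [(17, 3)], [(3, 2), (9, 1), (10, 2), (15, 1), (21, 1)]]
    (by decide +kernel)

theorem sd_22_22_133_10 : KQ K 23 22 133 10 0 :=
  lab_kq
    [[2, 16, 21, 9, 9, 0], [18, 21, 19, 19, 10, 1], [6, 7, 7, 12, 5, 2], [5, 2, 10, 17, 1, 3], [15, 0, 16, 11, 11, 4], [3, 13, 4, 20, 21, 5], [12, 19, 2, 1, 10, 6], [5, 21, 9, 16, 6, 7], [10, 14, 0, 20, 6, 17, 8], [4, 11, 18, 14, 20, 9], [17, 14, 3, 13, 17, 10], [14, 13, 18, 4, 13, 11], [13, 4, 21, 4, 11, 12], [1, 17, 17, 18, 21, 13], [5, 12, 6, 11, 12, 14], [19, 0, 7, 2, 18, 15], [10, 1, 11, 11, 7, 16], [20, 16, 1, 0, 0, 17], [15, 12, 15, 19, 0, 18], [3,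 9, 16, 18, 7, 19], [6, 7, 15, 2, 1, 20], [20, 9, 3, 9, 11, 21]]
    [[(15, 2)], [(13, 1)], [(3, 2)], [(21, 3)], [(12, 2)], [(14, 1)], [(20, 1)], [(20, 2)], [], [], [(16, 1)], [(14, 4)], [(18, 2)], [(12, 1)], [(11, 1)], [], [(17, 2)], [], [(1, 1)], [(18, 4)], [(21, 1)], [(7, 2), (13, 5)]]
    (by decide +kernel)

theorem sd_22_23_137_8 : KQ K 23 23 137 8 0 :=
  lab_kq
    [[3, 15, 4, 16, 21, 0], [14, 5, 5, 0, 13, 1], [15, 10, 19, 15, 4, 2], [10, 11, 15, 0, 7, 3], [17, 12, 7, 13, 10, 4], [15, 11, 8, 7, 13, 5], [15, 14, 21, 1, 0, 6], [6, 14, 16, 5, 5, 7], [9, 20, 9, 4, 16, 8], [8, 22, 6, 20, 8, 9], [20, 5, 8, 19, 4, 10], [16, 3, 12, 22, 12, 11], [0, 10, 22, 22, 20, 12], [18, 4, 12, 2, 9, 13], [13, 7, 11, 0, 18, 14], [21, 22, 2, 8, 15], [13, 7, 18, 15, 21, 16], [1, 6, 1, 4, 8, 17], [21, 11, 12, 6, 4, 18], [3, 9,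 16, 18, 2, 19], [17, 2, 19, 19, 9, 20], [2, 19, 17, 20, 17, 21], [15, 1, 18, 0, 14, 22]]
    [[(12, 1)], [], [(21, 1)], [], [(13, 2)], [], [(18, 4)], [(16, 2)], [(17, 5)], [], [(12, 2)], [(18, 2)], [], [(16, 1)], [(22, 5)], [(3, 3), (5, 1), (6, 1), (22, 1)], [(19, 3)], [], [(22, 3)], [], [(21, 4)], [(18, 1)]]
    (by decide +kernel)

theorem sd_22_23_139_4 : KQ K 23 23 139 4 1 :=
  lab_kq
    [[9, 20, 16, 6, 10, 0], [7, 11, 14, 7, 3, 1], [9, 0, 4, 1, 19, 4, 2], [7, 14, 18, 17, 17, 3], [16, 8, 5, 12, 22, 4], [17, 4, 4, 21, 21, 5], [20, 15, 3, 16, 15, 6], [8, 16, 10, 1, 6, 7], [3, 13, 18, 13, 12, 8], [0, 11, 7, 0, 13, 9], [18, 17, 22, 22, 17, 10], [22, 1, 19, 5, 18, 11], [8, 10, 17, 3, 4, 12], [22, 6, 5, 20, 0, 13], [21, 10, 21, 19, 13, 14], [21, 6, 1, 9, 3, 15], [12, 19, 9, 19, 15, 16], [20, 3, 14, 13, 18, 17],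 [14, 5, 11, 12, 7, 18], [13, 10, 0, 16, 5, 19], [15, 12, 5, 8, 4, 20], [6, 11, 18, 12, 11, 21], [15, 1, 19, 4, 14, 22]]
    [[(19, 3)], [(22, 2)], [], [(8, 1)], [], [(18, 2), (20, 3)], [(21, 1)], [(18, 5)], [(12, 1)], [(16, 3)], [(19, 2)], [(21, 2)], [(16, 1)], [(19, 1)], [(18, 1)], [(22, 1)], [(7, 2)], [(12, 3)], [(10, 1)], [(22, 3)], [(17, 1)], [], [(13, 1)]]
    (by decide +kernel)

end Pool.Agent.WarR


end
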