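import Mathlib
import Pool.Agent.CLAM.C01
import Pool.Agent.CLAM.C04

/-! Parts: WarR.WinF, WarR.Win56, WarR.Win4f -/

section

/-!
# Both sides from the chain with the mechanical sizes (MP_db021c_ag, degree 2)   (helper10)

`vv n b x j = C(r_j, 2) + floor (n ρ_(j+1) / b)`; group `j` sends `M - vv (j + 1)` pairs to the form `j + 2`.
`SS_of_flow`: if the flow is admissible and the rank condition `RC` holds (finitely many checks), then both sides hold.
-/

set_option autoImplicit false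

open Finset

namespace Pool.Agent.WarR

open Pool.Agent.WarR.N4

/-- the potential -/
def vv (n b x j : ℕ) : ℕ := (rr b x j).choose 2 + cc n b x (j + 1)

theorem vv_add (n : ℕ) {b : ℕ} (x : ℕ) (hb : 0 < b) (j : ℕ) : vv n b x (j + b) = vv n b x j := by
  unfold vv
  have : j + b + 1 = j + 1 + b := by omega
  rw [this, rr_add x hb, cc_add n x hb]

theorem all_of_range {b : ℕ} (hb : 0 < b) {P : ℕ → Prop} (hP : ∀ k, P (k + b) ↔ P k)
    (h : ∀ k < b, P k) (k : ℕ) : P k := by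
  induction k using Nat.strong_induction_on with
  | _ k ih =>
    rcases Nat.lt_or_ge k b with h1 | h1
    · exact h k h1
    · have h2 := ih (k - b) (by omega)
      have h3 := hP (k - b)
      rw [Nat.sub_add_cancel h1] at h3
      exact h3.2 h2

theorem NV_choose (n : ℕ) : NV (n + 1) = (n + 2).choose 2 := by
  unfold NV
  rw [Nat.choose_two_right]
  congr 1
  rw [Nat.mul_comm]
  rfl

/-- **Both sides from the flow.** -/
theorem SS_of_flow {K : Type*} [Field K] [CharZero K] {n b x M : ℕ} (hb : 3 ≤ b)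
    (hM : ∀ j < b, vv n b x j ≤ M)
    (hF : ∀ j < b, 2 * (M - vv n b x (j + 1)) ≤ rr b x j * (rr b x j - 1))
    (hr : ∀ j < b, rr b x j ≤ n + 1)
    (hR : ∀ k < b, RC (n + 1) (rr b x (k + 2)) (rr b x (k + 1)) (rr b x k)
      (M - vv n b x (k + 2)) (M - vv n b x (k + 1))) :
    SS K (n + 1) b x := by
  have hb0 : 0 < b := by omega
  have rp : ∀ k, rr b x (k + b) = rr b x k := rr_add x hb0
  have vp : ∀ k, vv n b x (k + b) = vv n b x k := vv_add n x hb0
  have a1 : ∀ k, k + b + 1 = k + 1 + b := fun k => by omega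
  have a2 : ∀ k, k + b + 2 = k + 2 + b := fun k => by omega
  have hM' : ∀ j, vv n b x j ≤ M := all_of_range hb0 (fun k => by rw [vp]) hM
  have hF' : ∀ j, 2 * (M - vv n b x (j + 1)) ≤ rr b x j * (rr b x j - 1) :=
    all_of_range hb0 (fun k => by rw [rp, a1, vp]) hF
  have hr' : ∀ j, rr b x j ≤ n + 1 := all_of_range hb0 (fun k => by rw [rp]) hr
  have hR' : ∀ k, RC (n + 1) (rr b x (k + 2)) (rr b x (k + 1)) (rr b x k)
      (M - vv n b x (k + 2)) (M - vv n b x (k + 1)) :=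
    all_of_range hb0 (fun k => by rw [a1, a2, rp, rp, rp, vp, vp]) hR
  have hW : ∀ k, (M - vv n b x (k + 1)) + (rr b x (k + 1)).choose 2 + n * rr b x (k + 2) =
      WW n b x (k + 2) + (rr b x (k + 2)).choose 2 + (M - vv n b x (k + 1 + 1)) := by
    intro k
    have h1 := hM' (k + 1)
    have h2 := hM' (k + 2)
    have h3 := WW_cc n x hb0 (k + 2)
    have e1 : k + 1 + 1 = k + 2 := rfl
    rw [e1]
    unfold vv at h1 h2 ⊢
    have e2 : k + 2 + 1 = k + 3 := rfl
    rw [e1] at h1 ⊢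
    rw [e2] at h2 h3 ⊢
    omega
  have Fp : ∀ k, M - vv n b x (k + b + 1) = M - vv n b x (k + 1) := fun k => by rw [a1, vp]
  have hsub : ∀ s w, s + x + w = NV (n + 1) → (n + 1 - 1) * x ≤ b * w →
      b * w < (n + 1 - 1) * x + b → KQ K (n + 1) b x s (b * w - n * x) := by
    intro s w hs h1 h2
    refine chain_sub (K := K) hb (rr b x) (fun k => M - vv n b x (k + 1)) (WW n b x) rp Fp
      (WW_add n x hb0) (sum_rr x hb0) (by rw [← NV_choose]; omega) hF' hr' hW hR' ?_
      (sum_WW n x hb0)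
    intro k
    obtain ⟨_, h3⟩ := WW_bounds n x hb0 k
    rw [Nat.add_sub_cancel] at h1 h2
    have h4 : b * WW n b x k < b * (w + 1) := by
      rw [Nat.mul_add, Nat.mul_one]
      omega
    have := Nat.lt_of_mul_lt_mul_left h4
    omega
  have hsup : ∀ s w, s + x + w = NV (n + 1) → b * w ≤ n * x → KQ K (n + 1) b x s 0 := by
    intro s w hs h1
    refine chain_sup (K := K) (c := w) hb (rr b x) (fun k => M - vv n b x (k + 1)) (WW n b x) rp Fp
      (sum_rr x hb0) (by rw [← NV_choose]; omega) hF' hr' hW hR' ?_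
    intro k
    obtain ⟨h3, _⟩ := WW_bounds n x hb0 k
    refine le_trans ?_ h3
    rw [Nat.le_div_iff_mul_le hb0]
    rw [Nat.mul_comm]
    exact h1
  refine ⟨fun s w hs h => hsup s w hs (by simpa using h), ?_⟩
  intro s w hs h
  rw [Nat.add_sub_cancel] at h
  -- reduction to the critical number
  rcases Nat.lt_or_ge (b * w) (n * x + b) with h1 | h1
  · have := hsub s w hs (by simpa using h) (by simpa using h1)
    simpa using this
  · obtain ⟨w', k, hk, h2, h3⟩ : ∃ w' k, w = w' + k ∧ n * x ≤ b * w' ∧ b * w' < n * x + b := by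
      refine ⟨(n * x + b - 1) / b, w - (n * x + b - 1) / b, ?_, ?_, ?_⟩
      · have h4 : (n * x + b - 1) / b ≤ w := by
          have h5 : (n * x + b - 1) / b < w + 1 := by
            rw [Nat.div_lt_iff_lt_mul hb0, Nat.add_mul, Nat.one_mul, Nat.mul_comm w b]
            omega
          omega
        omega
      · have := Nat.div_add_mod (n * x + b - 1) b
        have := Nat.mod_lt (n * x + b - 1) hb0
        omega
      · have := Nat.div_add_mod (n * x + b - 1) b
        omega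
    have h6 := (hsub (s + k) w' (by omega) (by simpa using h2) (by simpa using h3)).less_simple k
    have e : b * w' - n * x + b * k = b * w - n * x := by
      rw [hk, Nat.mul_add]
      omega
    rw [e] at h6
    simpa using h6

end Pool.Agent.WarR


end

section

/-!
# The windows for `b = 5` and `b = 6` (MP_db021c_ag, degree 2)   (helper10)

`b = 5`: `5 n - 14 ≤ 2 x ≤ 5 n - 7`; `b = 6`: `3 n - 11 ≤ x ≤ 3 n - 7` (`n ≥ 32`). In all cases the chain sends at most
two stars from a group to the form after the next one.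
-/

set_option autoImplicit false

open Finset

namespace Pool.Agent.WarR

open Pool.Agent.WarR.N4

theorem choose_succ_two (r : ℕ) : (r + 1).choose 2 = r.choose 2 + r := by
  rw [Nat.choose_succ_succ' r 1, Nat.choose_one_right]
  exact Nat.add_comm _ _

theorem two_choose (r : ℕ) : 2 * r.choose 2 = r * (r - 1) := by
  rw [Nat.choose_two_right, Nat.mul_div_cancel' (Nat.even_mul_pred_self _).two_dvd]

/-- at most two stars from the second group -/
theorem RC_two {m r₀ r₁ r₂ F₁ F₂ : ℕ} (h01 : r₀ + r₁ + 2 ≤ m) (h02 : r₀ + r₂ ≤ m) (h2 : 2 ≤ r₂)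
    (hF : F₂ + 3 ≤ 2 * r₂) (h21 : r₂ ≤ r₁ + 1) (hF1 : F₁ + 3 ≤ 2 * r₁) (h1 : 5 ≤ r₁)
    (ht : F₂ < r₂ ∨ r₀ + r₁ + 3 ≤ m ∨ r₂ ≤ F₁ + 2) : RC m r₀ r₁ r₂ F₁ F₂ := by
  have g2 : gs r₂ F₂ ≤ 2 := gs_le r₂ F₂ 2 (by omega) h2
  have c1 : F₁ ≤ r₁.choose 2 := by
    have h := two_choose r₁
    have h3 : r₁ * 4 ≤ r₁ * (r₁ - 1) := Nat.mul_le_mul_left r₁ (by omega)
    omega
  refine Or.inr (Or.inr ⟨h02, by omega, ?_⟩)
  have mono : ∀ {a b : ℕ}, a ≤ b → a.choose 2 ≤ b.choose 2 := fun h => Nat.choose_le_choose 2 h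
  have e1 := choose_succ_two r₁
  have e2 := choose_succ_two (r₁ + 1)
  have g1 : F₂ < r₂ → gs r₂ F₂ ≤ 1 := by
    intro h
    rcases Nat.lt_or_ge (gs r₂ F₂) 2 with h' | h'
    · omega
    · exact gs_le r₂ F₂ 1 (by omega) (by omega)
  by_cases hc : gs r₂ F₂ ≤ 1 ∨ r₀ + r₁ + 3 ≤ m
  · have h5 : r₁ + 1 + 1 ≤ m - r₀ - gs r₂ F₂ + 1 := by omega
    have h6 := mono h5
    omega
  · have h5 : r₁ + 1 ≤ m - r₀ - gs r₂ F₂ + 1 := by omega
    have h6 := mono h5
    have h7 : gs r₂ F₂ = 2 := by omega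
    have h8 : r₂ ≤ F₁ + 2 := by
      rcases ht with h | h | h
      · have := g1 h
        omega
      · omega
      · exact h
    omega

theorem two_mul_le_of {r F : ℕ} (h1 : 5 ≤ r) (h : F + 3 ≤ 2 * r) : 2 * F ≤ r * (r - 1) := by
  have h3 : r * 4 ≤ r * (r - 1) := Nat.mul_le_mul_left r (by omega)
  omega


theorem vv_of {n b x j r e : ℕ} (h1 : rr b x j = r) (h2 : rho b x (j + 1) = e) :
    vv n b x j = r.choose 2 + n * e / b := by
  unfold vv cc
  rw [h1, h2]

/-- all groups have the same size -/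
theorem SS_equal {K : Type*} [Field K] [CharZero K] {n b q : ℕ} (hb : 3 ≤ b) (hq : 2 * q ≤ n + 1) :
    SS K (n + 1) b (b * q) := by
  have hb0 : 0 < b := by omega
  have r0 : ∀ j, rr b (b * q) j = q := by
    intro j
    unfold rr RR
    have h1 : (j + 1) * (b * q) = b * ((j + 1) * q) := by ring
    have h2 : j * (b * q) = b * (j * q) := by ring
    rw [h1, h2, Nat.mul_div_cancel_left _ hb0, Nat.mul_div_cancel_left _ hb0, Nat.add_mul]
    omega
  have e0 : ∀ j, rho b (b * q) j = 0 := by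
    intro j
    unfold rho
    have h2 : j * (b * q) = b * (j * q) := by ring
    rw [h2]
    exact Nat.mul_mod_right _ _
  have v0 : ∀ j, vv n b (b * q) j = q.choose 2 := by
    intro j
    rw [vv_of (r0 j) (e0 (j + 1))]
    simp
  refine SS_of_flow (M := q.choose 2) hb ?_ ?_ ?_ ?_
  · intro j _
    rw [v0]
  · intro j _
    rw [v0, r0]
    simp
  · intro j _
    rw [r0]
    omega
  · intro j _
    simp only [v0, r0, Nat.sub_self]
    exact Or.inr (Or.inl ⟨rfl, by omega⟩)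

theorem win5_1 {K : Type*} [Field K] [CharZero K] {n q : ℕ} (hq : 14 ≤ q)
    (h : n = 2 * q + 2 ∨ n = 2 * q + 3) : SS K (n + 1) 5 (5 * q + 1) := by
  have ec : (q + 1).choose 2 = q.choose 2 + q := choose_succ_two q
  have R0 : rr 5 (5 * q + 1) 0 = q := by clear * -; unfold rr RR; omega
  have E0 : rho 5 (5 * q + 1) 1 = 1 := by clear * -; unfold rho; omega
  have R1 : rr 5 (5 * q + 1) 1 = q := by clear * -; unfold rr RR; omega
  have E1 : rho 5 (5 * q + 1) 2 = 2 := by clear * -; unfold rho; omega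
  have R2 : rr 5 (5 * q + 1) 2 = q := by clear * -; unfold rr RR; omega
  have E2 : rho 5 (5 * q + 1) 3 = 3 := by clear * -; unfold rho; omega
  have R3 : rr 5 (5 * q + 1) 3 = q := by clear * -; unfold rr RR; omega
  have E3 : rho 5 (5 * q + 1) 4 = 4 := by clear * -; unfold rho; omega
  have R4 : rr 5 (5 * q + 1) 4 = q + 1 := by clear * -; unfold rr RR; omega
  have E4 : rho 5 (5 * q + 1) 5 = 0 := by clear * -; unfold rho; omega
  have R5 : rr 5 (5 * q + 1) 5 = q := by clear * -; unfold rr RR; omega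
  have E5 : rho 5 (5 * q + 1) 6 = 1 := by clear * -; unfold rho; omega
  have R6 : rr 5 (5 * q + 1) 6 = q := by clear * -; unfold rr RR; omega
  have E6 : rho 5 (5 * q + 1) 7 = 2 := by clear * -; unfold rho; omega
  have V0 : vv n 5 (5 * q + 1) 0 = q.choose 2 + n * 1 / 5 := vv_of R0 E0
  have V1 : vv n 5 (5 * q + 1) 1 = q.choose 2 + n * 2 / 5 := vv_of R1 E1
  have V2 : vv n 5 (5 * q + 1) 2 = q.choose 2 + n * 3 / 5 := vv_of R2 E2
  have V3 : vv n 5 (5 * q + 1) 3 = q.choose 2 + n * 4 / 5 := vv_of R3 E3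
  have V4 : vv n 5 (5 * q + 1) 4 = q.choose 2 + q + n * 0 / 5 := by rw [vv_of R4 E4, ec]
  have V5 : vv n 5 (5 * q + 1) 5 = q.choose 2 + n * 1 / 5 := vv_of R5 E5
  have V6 : vv n 5 (5 * q + 1) 6 = q.choose 2 + n * 2 / 5 := vv_of R6 E6
  refine SS_of_flow (M := q.choose 2 + max (n * 4 / 5) (q + n * 0 / 5)) (by norm_num) ?_ ?_ ?_ ?_
  · intro j hj
    interval_cases j
    all_goals simp only [V0, V1, V2, V3, V4]
    all_goals clear R0 E0 V0 R1 E1 V1 R2 E2 V2 R3 E3 V3 R4 E4 V4 R5 E5 V5 R6 E6 V6 ec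
    all_goals omega
  · intro j hj
    interval_cases j
    all_goals simp only [Nat.reduceAdd, V1, V2, V3, V4, V5, R0, R1, R2, R3, R4]
    all_goals clear R0 E0 V0 R1 E1 V1 R2 E2 V2 R3 E3 V3 R4 E4 V4 R5 E5 V5 R6 E6 V6 ec
    all_goals generalize q.choose 2 = c0
    all_goals refine two_mul_le_of (by omega) (by omega)
  · intro j hj
    interval_cases j
    all_goals simp only [R0, R1, R2, R3, R4]
    all_goals clear R0 E0 V0 R1 E1 V1 R2 E2 V2 R3 E3 V3 R4 E4 V4 R5 E5 V5 R6 E6 V6 ec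
    all_goals omega
  · intro j hj
    interval_cases j
    all_goals simp only [Nat.reduceAdd, V1, V2, V3, V4, V5, V6, R0, R1, R2, R3, R4, R5, R6]
    all_goals clear R0 E0 V0 R1 E1 V1 R2 E2 V2 R3 E3 V3 R4 E4 V4 R5 E5 V5 R6 E6 V6 ec
    all_goals generalize q.choose 2 = c0
    all_goals refine RC_two (by omega) (by omega) (by omega) (by omega) (by omega) (by omega) (by omega) (by omega)

theorem win5_2 {K : Type*} [Field K] [CharZero K] {n q : ℕ} (hq : 14 ≤ q)
    (h : n = 2 * q + 3) : SS K (n + 1) 5 (5 * q + 2) := by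
  have ec : (q + 1).choose 2 = q.choose 2 + q := choose_succ_two q
  have R0 : rr 5 (5 * q + 2) 0 = q := by clear * -; unfold rr RR; omega
  have E0 : rho 5 (5 * q + 2) 1 = 2 := by clear * -; unfold rho; omega
  have R1 : rr 5 (5 * q + 2) 1 = q := by clear * -; unfold rr RR; omega
  have E1 : rho 5 (5 * q + 2) 2 = 4 := by clear * -; unfold rho; omega
  have R2 : rr 5 (5 * q + 2) 2 = q + 1 := by clear * -; unfold rr RR; omega
  have E2 : rho 5 (5 * q + 2) 3 = 1 := by clear * -; unfold rho; omega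
  have R3 : rr 5 (5 * q + 2) 3 = q := by clear * -; unfold rr RR; omega
  have E3 : rho 5 (5 * q + 2) 4 = 3 := by clear * -; unfold rho; omega
  have R4 : rr 5 (5 * q + 2) 4 = q + 1 := by clear * -; unfold rr RR; omega
  have E4 : rho 5 (5 * q + 2) 5 = 0 := by clear * -; unfold rho; omega
  have R5 : rr 5 (5 * q + 2) 5 = q := by clear * -; unfold rr RR; omega
  have E5 : rho 5 (5 * q + 2) 6 = 2 := by clear * -; unfold rho; omega
  have R6 : rr 5 (5 * q + 2) 6 = q := by clear * -; unfold rr RR; omega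
  have E6 : rho 5 (5 * q + 2) 7 = 4 := by clear * -; unfold rho; omega
  have V0 : vv n 5 (5 * q + 2) 0 = q.choose 2 + n * 2 / 5 := vv_of R0 E0
  have V1 : vv n 5 (5 * q + 2) 1 = q.choose 2 + n * 4 / 5 := vv_of R1 E1
  have V2 : vv n 5 (5 * q + 2) 2 = q.choose 2 + q + n * 1 / 5 := by rw [vv_of R2 E2, ec]
  have V3 : vv n 5 (5 * q + 2) 3 = q.choose 2 + n * 3 / 5 := vv_of R3 E3
  have V4 : vv n 5 (5 * q + 2) 4 = q.choose 2 + q + n * 0 / 5 := by rw [vv_of R4 E4, ec]
  have V5 : vv n 5 (5 * q + 2) 5 = q.choose 2 + n * 2 / 5 := vv_of R5 E5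
  have V6 : vv n 5 (5 * q + 2) 6 = q.choose 2 + n * 4 / 5 := vv_of R6 E6
  refine SS_of_flow (M := q.choose 2 + max (n * 4 / 5) (q + n * 1 / 5)) (by norm_num) ?_ ?_ ?_ ?_
  · intro j hj
    interval_cases j
    all_goals simp only [V0, V1, V2, V3, V4]
    all_goals clear R0 E0 V0 R1 E1 V1 R2 E2 V2 R3 E3 V3 R4 E4 V4 R5 E5 V5 R6 E6 V6 ec
    all_goals omega
  · intro j hj
    interval_cases j
    all_goals simp only [Nat.reduceAdd, V1, V2, V3, V4, V5, R0, R1, R2, R3, R4]
    all_goals clear R0 E0 V0 R1 E1 V1 R2 E2 V2 R3 E3 V3 R4 E4 V4 R5 E5 V5 R6 E6 V6 ec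
    all_goals generalize q.choose 2 = c0
    all_goals refine two_mul_le_of (by omega) (by omega)
  · intro j hj
    interval_cases j
    all_goals simp only [R0, R1, R2, R3, R4]
    all_goals clear R0 E0 V0 R1 E1 V1 R2 E2 V2 R3 E3 V3 R4 E4 V4 R5 E5 V5 R6 E6 V6 ec
    all_goals omega
  · intro j hj
    interval_cases j
    all_goals simp only [Nat.reduceAdd, V1, V2, V3, V4, V5, V6, R0, R1, R2, R3, R4, R5, R6]
    all_goals clear R0 E0 V0 R1 E1 V1 R2 E2 V2 R3 E3 V3 R4 E4 V4 R5 E5 V5 R6 E6 V6 ec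
    all_goals generalize q.choose 2 = c0
    all_goals refine RC_two (by omega) (by omega) (by omega) (by omega) (by omega) (by omega) (by omega) (by omega)

theorem win5_3 {K : Type*} [Field K] [CharZero K] {n q : ℕ} (hq : 14 ≤ q)
    (h : n = 2 * q + 3 ∨ n = 2 * q + 4) : SS K (n + 1) 5 (5 * q + 3) := by
  have ec : (q + 1).choose 2 = q.choose 2 + q := choose_succ_two q
  have R0 : rr 5 (5 * q + 3) 0 = q := by clear * -; unfold rr RR; omega
  have E0 : rho 5 (5 * q + 3) 1 = 3 := by clear * -; unfold rho; omega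
  have R1 : rr 5 (5 * q + 3) 1 = q + 1 := by clear * -; unfold rr RR; omega
  have E1 : rho 5 (5 * q + 3) 2 = 1 := by clear * -; unfold rho; omega
  have R2 : rr 5 (5 * q + 3) 2 = q := by clear * -; unfold rr RR; omega
  have E2 : rho 5 (5 * q + 3) 3 = 4 := by clear * -; unfold rho; omega
  have R3 : rr 5 (5 * q + 3) 3 = q + 1 := by clear * -; unfold rr RR; omega
  have E3 : rho 5 (5 * q + 3) 4 = 2 := by clear * -; unfold rho; omega
  have R4 : rr 5 (5 * q + 3) 4 = q + 1 := by clear * -; unfold rr RR; omega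
  have E4 : rho 5 (5 * q + 3) 5 = 0 := by clear * -; unfold rho; omega
  have R5 : rr 5 (5 * q + 3) 5 = q := by clear * -; unfold rr RR; omega
  have E5 : rho 5 (5 * q + 3) 6 = 3 := by clear * -; unfold rho; omega
  have R6 : rr 5 (5 * q + 3) 6 = q + 1 := by clear * -; unfold rr RR; omega
  have E6 : rho 5 (5 * q + 3) 7 = 1 := by clear * -; unfold rho; omega
  have V0 : vv n 5 (5 * q + 3) 0 = q.choose 2 + n * 3 / 5 := vv_of R0 E0
  have V1 : vv n 5 (5 * q + 3) 1 = q.choose 2 + q + n * 1 / 5 := by rw [vv_of R1 E1, ec]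
  have V2 : vv n 5 (5 * q + 3) 2 = q.choose 2 + n * 4 / 5 := vv_of R2 E2
  have V3 : vv n 5 (5 * q + 3) 3 = q.choose 2 + q + n * 2 / 5 := by rw [vv_of R3 E3, ec]
  have V4 : vv n 5 (5 * q + 3) 4 = q.choose 2 + q + n * 0 / 5 := by rw [vv_of R4 E4, ec]
  have V5 : vv n 5 (5 * q + 3) 5 = q.choose 2 + n * 3 / 5 := vv_of R5 E5
  have V6 : vv n 5 (5 * q + 3) 6 = q.choose 2 + q + n * 1 / 5 := by rw [vv_of R6 E6, ec]
  refine SS_of_flow (M := q.choose 2 + max (n * 4 / 5) (q + n * 2 / 5)) (by norm_num) ?_ ?_ ?_ ?_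
  · intro j hj
    interval_cases j
    all_goals simp only [V0, V1, V2, V3, V4]
    all_goals clear R0 E0 V0 R1 E1 V1 R2 E2 V2 R3 E3 V3 R4 E4 V4 R5 E5 V5 R6 E6 V6 ec
    all_goals omega
  · intro j hj
    interval_cases j
    all_goals simp only [Nat.reduceAdd, V1, V2, V3, V4, V5, R0, R1, R2, R3, R4]
    all_goals clear R0 E0 V0 R1 E1 V1 R2 E2 V2 R3 E3 V3 R4 E4 V4 R5 E5 V5 R6 E6 V6 ec
    all_goals generalize q.choose 2 = c0
    all_goals refine two_mul_le_of (by omega) (by omega)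
  · intro j hj
    interval_cases j
    all_goals simp only [R0, R1, R2, R3, R4]
    all_goals clear R0 E0 V0 R1 E1 V1 R2 E2 V2 R3 E3 V3 R4 E4 V4 R5 E5 V5 R6 E6 V6 ec
    all_goals omega
  · intro j hj
    interval_cases j
    all_goals simp only [Nat.reduceAdd, V1, V2, V3, V4, V5, V6, R0, R1, R2, R3, R4, R5, R6]
    all_goals clear R0 E0 V0 R1 E1 V1 R2 E2 V2 R3 E3 V3 R4 E4 V4 R5 E5 V5 R6 E6 V6 ec
    all_goals generalize q.choose 2 = c0
    all_goals refine RC_two (by omega) (by omega) (by omega) (by omega) (by omega) (by omega) (by omega) (by omega)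

theorem win5_4 {K : Type*} [Field K] [CharZero K] {n q : ℕ} (hq : 14 ≤ q)
    (h : n = 2 * q + 3 ∨ n = 2 * q + 4) : SS K (n + 1) 5 (5 * q + 4) := by
  have ec : (q + 1).choose 2 = q.choose 2 + q := choose_succ_two q
  have R0 : rr 5 (5 * q + 4) 0 = q := by clear * -; unfold rr RR; omega
  have E0 : rho 5 (5 * q + 4) 1 = 4 := by clear * -; unfold rho; omega
  have R1 : rr 5 (5 * q + 4) 1 = q + 1 := by clear * -; unfold rr RR; omega
  have E1 : rho 5 (5 * q + 4) 2 = 3 := by clear * -; unfold rho; omega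
  have R2 : rr 5 (5 * q + 4) 2 = q + 1 := by clear * -; unfold rr RR; omega
  have E2 : rho 5 (5 * q + 4) 3 = 2 := by clear * -; unfold rho; omega
  have R3 : rr 5 (5 * q + 4) 3 = q + 1 := by clear * -; unfold rr RR; omega
  have E3 : rho 5 (5 * q + 4) 4 = 1 := by clear * -; unfold rho; omega
  have R4 : rr 5 (5 * q + 4) 4 = q + 1 := by clear * -; unfold rr RR; omega
  have E4 : rho 5 (5 * q + 4) 5 = 0 := by clear * -; unfold rho; omega
  have R5 : rr 5 (5 * q + 4) 5 = q := by clear * -; unfold rr RR; omega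
  have E5 : rho 5 (5 * q + 4) 6 = 4 := by clear * -; unfold rho; omega
  have R6 : rr 5 (5 * q + 4) 6 = q + 1 := by clear * -; unfold rr RR; omega
  have E6 : rho 5 (5 * q + 4) 7 = 3 := by clear * -; unfold rho; omega
  have V0 : vv n 5 (5 * q + 4) 0 = q.choose 2 + n * 4 / 5 := vv_of R0 E0
  have V1 : vv n 5 (5 * q + 4) 1 = q.choose 2 + q + n * 3 / 5 := by rw [vv_of R1 E1, ec]
  have V2 : vv n 5 (5 * q + 4) 2 = q.choose 2 + q + n * 2 / 5 := by rw [vv_of R2 E2, ec]
  have V3 : vv n 5 (5 * q + 4) 3 = q.choose 2 + q + n * 1 / 5 := by rw [vv_of R3 E3, ec]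
  have V4 : vv n 5 (5 * q + 4) 4 = q.choose 2 + q + n * 0 / 5 := by rw [vv_of R4 E4, ec]
  have V5 : vv n 5 (5 * q + 4) 5 = q.choose 2 + n * 4 / 5 := vv_of R5 E5
  have V6 : vv n 5 (5 * q + 4) 6 = q.choose 2 + q + n * 3 / 5 := by rw [vv_of R6 E6, ec]
  refine SS_of_flow (M := q.choose 2 + max (n * 4 / 5) (q + n * 3 / 5)) (by norm_num) ?_ ?_ ?_ ?_
  · intro j hj
    interval_cases j
    all_goals simp only [V0, V1, V2, V3, V4]
    all_goals clear R0 E0 V0 R1 E1 V1 R2 E2 V2 R3 E3 V3 R4 E4 V4 R5 E5 V5 R6 E6 V6 ec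
    all_goals omega
  · intro j hj
    interval_cases j
    all_goals simp only [Nat.reduceAdd, V1, V2, V3, V4, V5, R0, R1, R2, R3, R4]
    all_goals clear R0 E0 V0 R1 E1 V1 R2 E2 V2 R3 E3 V3 R4 E4 V4 R5 E5 V5 R6 E6 V6 ec
    all_goals generalize q.choose 2 = c0
    all_goals refine two_mul_le_of (by omega) (by omega)
  · intro j hj
    interval_cases j
    all_goals simp only [R0, R1, R2, R3, R4]
    all_goals clear R0 E0 V0 R1 E1 V1 R2 E2 V2 R3 E3 V3 R4 E4 V4 R5 E5 V5 R6 E6 V6 ec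
    all_goals omega
  · intro j hj
    interval_cases j
    all_goals simp only [Nat.reduceAdd, V1, V2, V3, V4, V5, V6, R0, R1, R2, R3, R4, R5, R6]
    all_goals clear R0 E0 V0 R1 E1 V1 R2 E2 V2 R3 E3 V3 R4 E4 V4 R5 E5 V5 R6 E6 V6 ec
    all_goals generalize q.choose 2 = c0
    all_goals refine RC_two (by omega) (by omega) (by omega) (by omega) (by omega) (by omega) (by omega) (by omega)

theorem win6_1 {K : Type*} [Field K] [CharZero K] {n q : ℕ} (hq : 13 ≤ q)
    (h : n = 2 * q + 4 ∨ n = 2 * q + 3) : SS K (n + 1) 6 (6 * q + 1) := by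
  have ec : (q + 1).choose 2 = q.choose 2 + q := choose_succ_two q
  have R0 : rr 6 (6 * q + 1) 0 = q := by clear * -; unfold rr RR; omega
  have E0 : rho 6 (6 * q + 1) 1 = 1 := by clear * -; unfold rho; omega
  have R1 : rr 6 (6 * q + 1) 1 = q := by clear * -; unfold rr RR; omega
  have E1 : rho 6 (6 * q + 1) 2 = 2 := by clear * -; unfold rho; omega
  have R2 : rr 6 (6 * q + 1) 2 = q := by clear * -; unfold rr RR; omega
  have E2 : rho 6 (6 * q + 1) 3 = 3 := by clear * -; unfold rho; omega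
  have R3 : rr 6 (6 * q + 1) 3 = q := by clear * -; unfold rr RR; omega
  have E3 : rho 6 (6 * q + 1) 4 = 4 := by clear * -; unfold rho; omega
  have R4 : rr 6 (6 * q + 1) 4 = q := by clear * -; unfold rr RR; omega
  have E4 : rho 6 (6 * q + 1) 5 = 5 := by clear * -; unfold rho; omega
  have R5 : rr 6 (6 * q + 1) 5 = q + 1 := by clear * -; unfold rr RR; omega
  have E5 : rho 6 (6 * q + 1) 6 = 0 := by clear * -; unfold rho; omega
  have R6 : rr 6 (6 * q + 1) 6 = q := by clear * -; unfold rr RR; omega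
  have E6 : rho 6 (6 * q + 1) 7 = 1 := by clear * -; unfold rho; omega
  have R7 : rr 6 (6 * q + 1) 7 = q := by clear * -; unfold rr RR; omega
  have E7 : rho 6 (6 * q + 1) 8 = 2 := by clear * -; unfold rho; omega
  have V0 : vv n 6 (6 * q + 1) 0 = q.choose 2 + n * 1 / 6 := vv_of R0 E0
  have V1 : vv n 6 (6 * q + 1) 1 = q.choose 2 + n * 2 / 6 := vv_of R1 E1
  have V2 : vv n 6 (6 * q + 1) 2 = q.choose 2 + n * 3 / 6 := vv_of R2 E2
  have V3 : vv n 6 (6 * q + 1) 3 = q.choose 2 + n * 4 / 6 := vv_of R3 E3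
  have V4 : vv n 6 (6 * q + 1) 4 = q.choose 2 + n * 5 / 6 := vv_of R4 E4
  have V5 : vv n 6 (6 * q + 1) 5 = q.choose 2 + q + n * 0 / 6 := by rw [vv_of R5 E5, ec]
  have V6 : vv n 6 (6 * q + 1) 6 = q.choose 2 + n * 1 / 6 := vv_of R6 E6
  have V7 : vv n 6 (6 * q + 1) 7 = q.choose 2 + n * 2 / 6 := vv_of R7 E7
  refine SS_of_flow (M := q.choose 2 + max (n * 5 / 6) (q + n * 0 / 6)) (by norm_num) ?_ ?_ ?_ ?_
  · intro j hj
    interval_cases j
    all_goals simp only [V0, V1, V2, V3, V4, V5]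
    all_goals clear R0 E0 V0 R1 E1 V1 R2 E2 V2 R3 E3 V3 R4 E4 V4 R5 E5 V5 R6 E6 V6 R7 E7 V7 ec
    all_goals omega
  · intro j hj
    interval_cases j
    all_goals simp only [Nat.reduceAdd, V1, V2, V3, V4, V5, V6, R0, R1, R2, R3, R4, R5]
    all_goals clear R0 E0 V0 R1 E1 V1 R2 E2 V2 R3 E3 V3 R4 E4 V4 R5 E5 V5 R6 E6 V6 R7 E7 V7 ec
    all_goals generalize q.choose 2 = c0
    all_goals refine two_mul_le_of (by omega) (by omega)
  · intro j hj
    interval_cases j
    all_goals simp only [R0, R1, R2, R3, R4, R5]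
    all_goals clear R0 E0 V0 R1 E1 V1 R2 E2 V2 R3 E3 V3 R4 E4 V4 R5 E5 V5 R6 E6 V6 R7 E7 V7 ec
    all_goals omega
  · intro j hj
    interval_cases j
    all_goals simp only [Nat.reduceAdd, V1, V2, V3, V4, V5, V6, V7, R0, R1, R2, R3, R4, R5, R6, R7]
    all_goals clear R0 E0 V0 R1 E1 V1 R2 E2 V2 R3 E3 V3 R4 E4 V4 R5 E5 V5 R6 E6 V6 R7 E7 V7 ec
    all_goals generalize q.choose 2 = c0
    all_goals refine RC_two (by omega) (by omega) (by omega) (by omega) (by omega) (by omega) (by omega) (by omega)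

theorem win6_2 {K : Type*} [Field K] [CharZero K] {n q : ℕ} (hq : 13 ≤ q)
    (h : n = 2 * q + 4 ∨ n = 2 * q + 3) : SS K (n + 1) 6 (6 * q + 2) := by
  have ec : (q + 1).choose 2 = q.choose 2 + q := choose_succ_two q
  have R0 : rr 6 (6 * q + 2) 0 = q := by clear * -; unfold rr RR; omega
  have E0 : rho 6 (6 * q + 2) 1 = 2 := by clear * -; unfold rho; omega
  have R1 : rr 6 (6 * q + 2) 1 = q := by clear * -; unfold rr RR; omega
  have E1 : rho 6 (6 * q + 2) 2 = 4 := by clear * -; unfold rho; omega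
  have R2 : rr 6 (6 * q + 2) 2 = q + 1 := by clear * -; unfold rr RR; omega
  have E2 : rho 6 (6 * q + 2) 3 = 0 := by clear * -; unfold rho; omega
  have R3 : rr 6 (6 * q + 2) 3 = q := by clear * -; unfold rr RR; omega
  have E3 : rho 6 (6 * q + 2) 4 = 2 := by clear * -; unfold rho; omega
  have R4 : rr 6 (6 * q + 2) 4 = q := by clear * -; unfold rr RR; omega
  have E4 : rho 6 (6 * q + 2) 5 = 4 := by clear * -; unfold rho; omega
  have R5 : rr 6 (6 * q + 2) 5 = q + 1 := by clear * -; unfold rr RR; omega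
  have E5 : rho 6 (6 * q + 2) 6 = 0 := by clear * -; unfold rho; omega
  have R6 : rr 6 (6 * q + 2) 6 = q := by clear * -; unfold rr RR; omega
  have E6 : rho 6 (6 * q + 2) 7 = 2 := by clear * -; unfold rho; omega
  have R7 : rr 6 (6 * q + 2) 7 = q := by clear * -; unfold rr RR; omega
  have E7 : rho 6 (6 * q + 2) 8 = 4 := by clear * -; unfold rho; omega
  have V0 : vv n 6 (6 * q + 2) 0 = q.choose 2 + n * 2 / 6 := vv_of R0 E0
  have V1 : vv n 6 (6 * q + 2) 1 = q.choose 2 + n * 4 / 6 := vv_of R1 E1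
  have V2 : vv n 6 (6 * q + 2) 2 = q.choose 2 + q + n * 0 / 6 := by rw [vv_of R2 E2, ec]
  have V3 : vv n 6 (6 * q + 2) 3 = q.choose 2 + n * 2 / 6 := vv_of R3 E3
  have V4 : vv n 6 (6 * q + 2) 4 = q.choose 2 + n * 4 / 6 := vv_of R4 E4
  have V5 : vv n 6 (6 * q + 2) 5 = q.choose 2 + q + n * 0 / 6 := by rw [vv_of R5 E5, ec]
  have V6 : vv n 6 (6 * q + 2) 6 = q.choose 2 + n * 2 / 6 := vv_of R6 E6
  have V7 : vv n 6 (6 * q + 2) 7 = q.choose 2 + n * 4 / 6 := vv_of R7 E7
  refine SS_of_flow (M := q.choose 2 + max (n * 4 / 6) (q + n * 0 / 6)) (by norm_num) ?_ ?_ ?_ ?_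
  · intro j hj
    interval_cases j
    all_goals simp only [V0, V1, V2, V3, V4, V5]
    all_goals clear R0 E0 V0 R1 E1 V1 R2 E2 V2 R3 E3 V3 R4 E4 V4 R5 E5 V5 R6 E6 V6 R7 E7 V7 ec
    all_goals omega
  · intro j hj
    interval_cases j
    all_goals simp only [Nat.reduceAdd, V1, V2, V3, V4, V5, V6, R0, R1, R2, R3, R4, R5]
    all_goals clear R0 E0 V0 R1 E1 V1 R2 E2 V2 R3 E3 V3 R4 E4 V4 R5 E5 V5 R6 E6 V6 R7 E7 V7 ec
    all_goals generalize q.choose 2 = c0
    all_goals refine two_mul_le_of (by omega) (by omega)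
  · intro j hj
    interval_cases j
    all_goals simp only [R0, R1, R2, R3, R4, R5]
    all_goals clear R0 E0 V0 R1 E1 V1 R2 E2 V2 R3 E3 V3 R4 E4 V4 R5 E5 V5 R6 E6 V6 R7 E7 V7 ec
    all_goals omega
  · intro j hj
    interval_cases j
    all_goals simp only [Nat.reduceAdd, V1, V2, V3, V4, V5, V6, V7, R0, R1, R2, R3, R4, R5, R6, R7]
    all_goals clear R0 E0 V0 R1 E1 V1 R2 E2 V2 R3 E3 V3 R4 E4 V4 R5 E5 V5 R6 E6 V6 R7 E7 V7 ec
    all_goals generalize q.choose 2 = c0
    all_goals refine RC_two (by omega) (by omega) (by omega) (by omega) (by omega) (by omega) (by omega) (by omega)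

theorem win6_3 {K : Type*} [Field K] [CharZero K] {n q : ℕ} (hq : 13 ≤ q)
    (h : n = 2 * q + 4) : SS K (n + 1) 6 (6 * q + 3) := by
  have ec : (q + 1).choose 2 = q.choose 2 + q := choose_succ_two q
  have R0 : rr 6 (6 * q + 3) 0 = q := by clear * -; unfold rr RR; omega
  have E0 : rho 6 (6 * q + 3) 1 = 3 := by clear * -; unfold rho; omega
  have R1 : rr 6 (6 * q + 3) 1 = q + 1 := by clear * -; unfold rr RR; omega
  have E1 : rho 6 (6 * q + 3) 2 = 0 := by clear * -; unfold rho; omega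
  have R2 : rr 6 (6 * q + 3) 2 = q := by clear * -; unfold rr RR; omega
  have E2 : rho 6 (6 * q + 3) 3 = 3 := by clear * -; unfold rho; omega
  have R3 : rr 6 (6 * q + 3) 3 = q + 1 := by clear * -; unfold rr RR; omega
  have E3 : rho 6 (6 * q + 3) 4 = 0 := by clear * -; unfold rho; omega
  have R4 : rr 6 (6 * q + 3) 4 = q := by clear * -; unfold rr RR; omega
  have E4 : rho 6 (6 * q + 3) 5 = 3 := by clear * -; unfold rho; omega
  have R5 : rr 6 (6 * q + 3) 5 = q + 1 := by clear * -; unfold rr RR; omega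
  have E5 : rho 6 (6 * q + 3) 6 = 0 := by clear * -; unfold rho; omega
  have R6 : rr 6 (6 * q + 3) 6 = q := by clear * -; unfold rr RR; omega
  have E6 : rho 6 (6 * q + 3) 7 = 3 := by clear * -; unfold rho; omega
  have R7 : rr 6 (6 * q + 3) 7 = q + 1 := by clear * -; unfold rr RR; omega
  have E7 : rho 6 (6 * q + 3) 8 = 0 := by clear * -; unfold rho; omega
  have V0 : vv n 6 (6 * q + 3) 0 = q.choose 2 + n * 3 / 6 := vv_of R0 E0
  have V1 : vv n 6 (6 * q + 3) 1 = q.choose 2 + q + n * 0 / 6 := by rw [vv_of R1 E1, ec]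
  have V2 : vv n 6 (6 * q + 3) 2 = q.choose 2 + n * 3 / 6 := vv_of R2 E2
  have V3 : vv n 6 (6 * q + 3) 3 = q.choose 2 + q + n * 0 / 6 := by rw [vv_of R3 E3, ec]
  have V4 : vv n 6 (6 * q + 3) 4 = q.choose 2 + n * 3 / 6 := vv_of R4 E4
  have V5 : vv n 6 (6 * q + 3) 5 = q.choose 2 + q + n * 0 / 6 := by rw [vv_of R5 E5, ec]
  have V6 : vv n 6 (6 * q + 3) 6 = q.choose 2 + n * 3 / 6 := vv_of R6 E6
  have V7 : vv n 6 (6 * q + 3) 7 = q.choose 2 + q + n * 0 / 6 := by rw [vv_of R7 E7, ec]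
  refine SS_of_flow (M := q.choose 2 + max (n * 3 / 6) (q + n * 0 / 6)) (by norm_num) ?_ ?_ ?_ ?_
  · intro j hj
    interval_cases j
    all_goals simp only [V0, V1, V2, V3, V4, V5]
    all_goals clear R0 E0 V0 R1 E1 V1 R2 E2 V2 R3 E3 V3 R4 E4 V4 R5 E5 V5 R6 E6 V6 R7 E7 V7 ec
    all_goals omega
  · intro j hj
    interval_cases j
    all_goals simp only [Nat.reduceAdd, V1, V2, V3, V4, V5, V6, R0, R1, R2, R3, R4, R5]
    all_goals clear R0 E0 V0 R1 E1 V1 R2 E2 V2 R3 E3 V3 R4 E4 V4 R5 E5 V5 R6 E6 V6 R7 E7 V7 ec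
    all_goals generalize q.choose 2 = c0
    all_goals refine two_mul_le_of (by omega) (by omega)
  · intro j hj
    interval_cases j
    all_goals simp only [R0, R1, R2, R3, R4, R5]
    all_goals clear R0 E0 V0 R1 E1 V1 R2 E2 V2 R3 E3 V3 R4 E4 V4 R5 E5 V5 R6 E6 V6 R7 E7 V7 ec
    all_goals omega
  · intro j hj
    interval_cases j
    all_goals simp only [Nat.reduceAdd, V1, V2, V3, V4, V5, V6, V7, R0, R1, R2, R3, R4, R5, R6, R7]
    all_goals clear R0 E0 V0 R1 E1 V1 R2 E2 V2 R3 E3 V3 R4 E4 V4 R5 E5 V5 R6 E6 V6 R7 E7 V7 ec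
    all_goals generalize q.choose 2 = c0
    all_goals refine RC_two (by omega) (by omega) (by omega) (by omega) (by omega) (by omega) (by omega) (by omega)

theorem win6_4 {K : Type*} [Field K] [CharZero K] {n q : ℕ} (hq : 13 ≤ q)
    (h : n = 2 * q + 4 ∨ n = 2 * q + 5) : SS K (n + 1) 6 (6 * q + 4) := by
  have ec : (q + 1).choose 2 = q.choose 2 + q := choose_succ_two q
  have R0 : rr 6 (6 * q + 4) 0 = q := by clear * -; unfold rr RR; omega
  have E0 : rho 6 (6 * q + 4) 1 = 4 := by clear * -; unfold rho; omega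
  have R1 : rr 6 (6 * q + 4) 1 = q + 1 := by clear * -; unfold rr RR; omega
  have E1 : rho 6 (6 * q + 4) 2 = 2 := by clear * -; unfold rho; omega
  have R2 : rr 6 (6 * q + 4) 2 = q + 1 := by clear * -; unfold rr RR; omega
  have E2 : rho 6 (6 * q + 4) 3 = 0 := by clear * -; unfold rho; omega
  have R3 : rr 6 (6 * q + 4) 3 = q := by clear * -; unfold rr RR; omega
  have E3 : rho 6 (6 * q + 4) 4 = 4 := by clear * -; unfold rho; omega
  have R4 : rr 6 (6 * q + 4) 4 = q + 1 := by clear * -; unfold rr RR; omega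
  have E4 : rho 6 (6 * q + 4) 5 = 2 := by clear * -; unfold rho; omega
  have R5 : rr 6 (6 * q + 4) 5 = q + 1 := by clear * -; unfold rr RR; omega
  have E5 : rho 6 (6 * q + 4) 6 = 0 := by clear * -; unfold rho; omega
  have R6 : rr 6 (6 * q + 4) 6 = q := by clear * -; unfold rr RR; omega
  have E6 : rho 6 (6 * q + 4) 7 = 4 := by clear * -; unfold rho; omega
  have R7 : rr 6 (6 * q + 4) 7 = q + 1 := by clear * -; unfold rr RR; omega
  have E7 : rho 6 (6 * q + 4) 8 = 2 := by clear * -; unfold rho; omega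
  have V0 : vv n 6 (6 * q + 4) 0 = q.choose 2 + n * 4 / 6 := vv_of R0 E0
  have V1 : vv n 6 (6 * q + 4) 1 = q.choose 2 + q + n * 2 / 6 := by rw [vv_of R1 E1, ec]
  have V2 : vv n 6 (6 * q + 4) 2 = q.choose 2 + q + n * 0 / 6 := by rw [vv_of R2 E2, ec]
  have V3 : vv n 6 (6 * q + 4) 3 = q.choose 2 + n * 4 / 6 := vv_of R3 E3
  have V4 : vv n 6 (6 * q + 4) 4 = q.choose 2 + q + n * 2 / 6 := by rw [vv_of R4 E4, ec]
  have V5 : vv n 6 (6 * q + 4) 5 = q.choose 2 + q + n * 0 / 6 := by rw [vv_of R5 E5, ec]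
  have V6 : vv n 6 (6 * q + 4) 6 = q.choose 2 + n * 4 / 6 := vv_of R6 E6
  have V7 : vv n 6 (6 * q + 4) 7 = q.choose 2 + q + n * 2 / 6 := by rw [vv_of R7 E7, ec]
  refine SS_of_flow (M := q.choose 2 + max (n * 4 / 6) (q + n * 2 / 6)) (by norm_num) ?_ ?_ ?_ ?_
  · intro j hj
    interval_cases j
    all_goals simp only [V0, V1, V2, V3, V4, V5]
    all_goals clear R0 E0 V0 R1 E1 V1 R2 E2 V2 R3 E3 V3 R4 E4 V4 R5 E5 V5 R6 E6 V6 R7 E7 V7 ec
    all_goals omega
  · intro j hj
    interval_cases j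
    all_goals simp only [Nat.reduceAdd, V1, V2, V3, V4, V5, V6, R0, R1, R2, R3, R4, R5]
    all_goals clear R0 E0 V0 R1 E1 V1 R2 E2 V2 R3 E3 V3 R4 E4 V4 R5 E5 V5 R6 E6 V6 R7 E7 V7 ec
    all_goals generalize q.choose 2 = c0
    all_goals refine two_mul_le_of (by omega) (by omega)
  · intro j hj
    interval_cases j
    all_goals simp only [R0, R1, R2, R3, R4, R5]
    all_goals clear R0 E0 V0 R1 E1 V1 R2 E2 V2 R3 E3 V3 R4 E4 V4 R5 E5 V5 R6 E6 V6 R7 E7 V7 ec
    all_goals omega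
  · intro j hj
    interval_cases j
    all_goals simp only [Nat.reduceAdd, V1, V2, V3, V4, V5, V6, V7, R0, R1, R2, R3, R4, R5, R6, R7]
    all_goals clear R0 E0 V0 R1 E1 V1 R2 E2 V2 R3 E3 V3 R4 E4 V4 R5 E5 V5 R6 E6 V6 R7 E7 V7 ec
    all_goals generalize q.choose 2 = c0
    all_goals refine RC_two (by omega) (by omega) (by omega) (by omega) (by omega) (by omega) (by omega) (by omega)

theorem win6_5 {K : Type*} [Field K] [CharZero K] {n q : ℕ} (hq : 13 ≤ q)
    (h : n = 2 * q + 4 ∨ n = 2 * q + 5) : SS K (n + 1) 6 (6 * q + 5) := by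
  have ec : (q + 1).choose 2 = q.choose 2 + q := choose_succ_two q
  have R0 : rr 6 (6 * q + 5) 0 = q := by clear * -; unfold rr RR; omega
  have E0 : rho 6 (6 * q + 5) 1 = 5 := by clear * -; unfold rho; omega
  have R1 : rr 6 (6 * q + 5) 1 = q + 1 := by clear * -; unfold rr RR; omega
  have E1 : rho 6 (6 * q + 5) 2 = 4 := by clear * -; unfold rho; omega
  have R2 : rr 6 (6 * q + 5) 2 = q + 1 := by clear * -; unfold rr RR; omega
  have E2 : rho 6 (6 * q + 5) 3 = 3 := by clear * -; unfold rho; omega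
  have R3 : rr 6 (6 * q + 5) 3 = q + 1 := by clear * -; unfold rr RR; omega
  have E3 : rho 6 (6 * q + 5) 4 = 2 := by clear * -; unfold rho; omega
  have R4 : rr 6 (6 * q + 5) 4 = q + 1 := by clear * -; unfold rr RR; omega
  have E4 : rho 6 (6 * q + 5) 5 = 1 := by clear * -; unfold rho; omega
  have R5 : rr 6 (6 * q + 5) 5 = q + 1 := by clear * -; unfold rr RR; omega
  have E5 : rho 6 (6 * q + 5) 6 = 0 := by clear * -; unfold rho; omega
  have R6 : rr 6 (6 * q + 5) 6 = q := by clear * -; unfold rr RR; omega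
  have E6 : rho 6 (6 * q + 5) 7 = 5 := by clear * -; unfold rho; omega
  have R7 : rr 6 (6 * q + 5) 7 = q + 1 := by clear * -; unfold rr RR; omega
  have E7 : rho 6 (6 * q + 5) 8 = 4 := by clear * -; unfold rho; omega
  have V0 : vv n 6 (6 * q + 5) 0 = q.choose 2 + n * 5 / 6 := vv_of R0 E0
  have V1 : vv n 6 (6 * q + 5) 1 = q.choose 2 + q + n * 4 / 6 := by rw [vv_of R1 E1, ec]
  have V2 : vv n 6 (6 * q + 5) 2 = q.choose 2 + q + n * 3 / 6 := by rw [vv_of R2 E2, ec]
  have V3 : vv n 6 (6 * q + 5) 3 = q.choose 2 + q + n * 2 / 6 := by rw [vv_of R3 E3, ec]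
  have V4 : vv n 6 (6 * q + 5) 4 = q.choose 2 + q + n * 1 / 6 := by rw [vv_of R4 E4, ec]
  have V5 : vv n 6 (6 * q + 5) 5 = q.choose 2 + q + n * 0 / 6 := by rw [vv_of R5 E5, ec]
  have V6 : vv n 6 (6 * q + 5) 6 = q.choose 2 + n * 5 / 6 := vv_of R6 E6
  have V7 : vv n 6 (6 * q + 5) 7 = q.choose 2 + q + n * 4 / 6 := by rw [vv_of R7 E7, ec]
  refine SS_of_flow (M := q.choose 2 + max (n * 5 / 6) (q + n * 4 / 6)) (by norm_num) ?_ ?_ ?_ ?_
  · intro j hj
    interval_cases j
    all_goals simp only [V0, V1, V2, V3, V4, V5]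
    all_goals clear R0 E0 V0 R1 E1 V1 R2 E2 V2 R3 E3 V3 R4 E4 V4 R5 E5 V5 R6 E6 V6 R7 E7 V7 ec
    all_goals omega
  · intro j hj
    interval_cases j
    all_goals simp only [Nat.reduceAdd, V1, V2, V3, V4, V5, V6, R0, R1, R2, R3, R4, R5]
    all_goals clear R0 E0 V0 R1 E1 V1 R2 E2 V2 R3 E3 V3 R4 E4 V4 R5 E5 V5 R6 E6 V6 R7 E7 V7 ec
    all_goals generalize q.choose 2 = c0
    all_goals refine two_mul_le_of (by omega) (by omega)
  · intro j hj
    interval_cases j
    all_goals simp only [R0, R1, R2, R3, R4, R5]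
    all_goals clear R0 E0 V0 R1 E1 V1 R2 E2 V2 R3 E3 V3 R4 E4 V4 R5 E5 V5 R6 E6 V6 R7 E7 V7 ec
    all_goals omega
  · intro j hj
    interval_cases j
    all_goals simp only [Nat.reduceAdd, V1, V2, V3, V4, V5, V6, V7, R0, R1, R2, R3, R4, R5, R6, R7]
    all_goals clear R0 E0 V0 R1 E1 V1 R2 E2 V2 R3 E3 V3 R4 E4 V4 R5 E5 V5 R6 E6 V6 R7 E7 V7 ec
    all_goals generalize q.choose 2 = c0
    all_goals refine RC_two (by omega) (by omega) (by omega) (by omega) (by omega) (by omega) (by omega) (by omega)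

/-- **All windows for `b = 5, 6`.** -/
theorem win56 {K : Type*} [Field K] [CharZero K] (n b x : ℕ) (hn : 32 ≤ n) (hb : b = 5 ∨ b = 6)
    (hlo : b * NV n < x * (n - 1 + b)) (hhi : (x - 1) * (n + b) ≤ b * NV (n + 1)) :
    SS K (n + 1) b x := by
  have t1 := two_NV n
  have t2 := two_NV (n + 1)
  rcases hb with rfl | rfl
  · have lo : 5 * n ≤ 2 * x + 14 := by
      by_contra hc
      have h1 : 2 * x * (n + 4) ≤ (5 * n - 15) * (n + 4) := Nat.mul_le_mul_right _ (by omega)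
      have e1 : n - 1 + 5 = n + 4 := by omega
      rw [e1] at hlo
      obtain ⟨k, rfl⟩ := Nat.exists_eq_add_of_le hn
      have e2 : 5 * (32 + k) - 15 = 145 + 5 * k := by omega
      rw [e2] at h1
      nlinarith
    have hi : 2 * x + 7 ≤ 5 * n := by
      by_contra hc
      obtain ⟨y, rfl⟩ : ∃ y, x = y + 1 := ⟨x - 1, by omega⟩
      rw [Nat.add_sub_cancel] at hhi
      have h1 : (5 * n - 8) * (n + 5) ≤ 2 * y * (n + 5) := Nat.mul_le_mul_right _ (by omega)
      obtain ⟨k, rfl⟩ := Nat.exists_eq_add_of_le hn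
      have e2 : 5 * (32 + k) - 8 = 152 + 5 * k := by omega
      rw [e2] at h1
      nlinarith
    clear hlo hhi t1 t2
    obtain ⟨q, s, hs, hx⟩ : ∃ q s, s < 5 ∧ x = 5 * q + s :=
      ⟨x / 5, x % 5, Nat.mod_lt _ (by norm_num), (Nat.div_add_mod x 5).symm⟩
    subst hx
    have hq : 14 ≤ q := by omega
    interval_cases s
    · exact SS_equal (by norm_num) (by omega)
    · exact win5_1 hq (by omega)
    · exact win5_2 hq (by omega)
    · exact win5_3 hq (by omega)
    · exact win5_4 hq (by omega)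
  · have lo : 3 * n ≤ x + 11 := by
      by_contra hc
      have h1 : x * (n + 5) ≤ (3 * n - 12) * (n + 5) := Nat.mul_le_mul_right _ (by omega)
      have e1 : n - 1 + 6 = n + 5 := by omega
      rw [e1] at hlo
      obtain ⟨k, rfl⟩ := Nat.exists_eq_add_of_le hn
      have e2 : 3 * (32 + k) - 12 = 84 + 3 * k := by omega
      rw [e2] at h1
      nlinarith
    have hi : x + 7 ≤ 3 * n := by
      by_contra hc
      obtain ⟨y, rfl⟩ : ∃ y, x = y + 1 := ⟨x - 1, by omega⟩
      rw [Nat.add_sub_cancel] at hhi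
      have h1 : (3 * n - 7) * (n + 6) ≤ y * (n + 6) := Nat.mul_le_mul_right _ (by omega)
      obtain ⟨k, rfl⟩ := Nat.exists_eq_add_of_le hn
      have e2 : 3 * (32 + k) - 7 = 89 + 3 * k := by omega
      rw [e2] at h1
      nlinarith
    clear hlo hhi t1 t2
    obtain ⟨q, s, hs, hx⟩ : ∃ q s, s < 6 ∧ x = 6 * q + s :=
      ⟨x / 6, x % 6, Nat.mod_lt _ (by norm_num), (Nat.div_add_mod x 6).symm⟩
    subst hx
    have hq : 13 ≤ q := by omega
    interval_cases s
    · exact SS_equal (by norm_num) (by omega)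
    · exact win6_1 hq (by omega)
    · exact win6_2 hq (by omega)
    · exact win6_3 hq (by omega)
    · exact win6_4 hq (by omega)
    · exact win6_5 hq (by omega)

end Pool.Agent.WarR


end

section

/-!
# MP_db021c_ag, d = 2: all base windows for `n ≥ 32`   (helper4)
-/

set_option autoImplicit false

namespace Pool.Agent.WarR

open Finset

theorem N4.RS.rc {n a b c F F1 : ℕ} (h : N4.RS n a b c F) (hab : a ≤ b + 1) :
    RC (n + 1) c b a F1 F := by
  rcases h with h | ⟨h, t, h1, h2, h3⟩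
  · exact Or.inl (by omega)
  · have g := gs_le a F t h2 h1
    refine Or.inr (Or.inr ⟨by omega, by omega, ?_⟩)
    have e1 : (b + 2).choose 2 = b.choose 2 + 2 * b + 1 := by
      rw [choose_succ_two, choose_succ_two]
      omega
    have e2 : (b + 2).choose 2 ≤ (n + 1 - c - gs a F + 1).choose 2 :=
      Nat.choose_le_choose 2 (by omega)
    omega

theorem N4.CW.ss {K : Type*} [Field K] [CharZero K] {n b x : ℕ} (hb : 3 ≤ b) (hx : x ≤ b * n)
    (h : N4.CW n b x) : SS K (n + 1) b x := by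
  obtain ⟨M, h1, h2⟩ := h
  have hb0 : 0 < b := by omega
  have hr : ∀ j, N4.rr b x j = x / b ∨ N4.rr b x j = x / b + 1 := fun j => by
    rcases N4.rr_cases x hb0 (Nat.div_add_mod x b) (Nat.mod_lt x hb0) j with ⟨h1, _⟩ | ⟨h1, _⟩
    · exact Or.inl h1
    · exact Or.inr h1
  have hq : x / b ≤ n := by
    have := Nat.div_le_div_right (c := b) hx
    rwa [Nat.mul_div_cancel_left _ hb0] at this
  refine SS_of_flow (M := M) hb (fun j hj => h1 j hj) (fun j hj => (h2 j hj).1) (fun j _ => ?_)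
    fun j hj => (h2 j hj).2.rc ?_
  · rcases hr j with h | h <;> omega
  · rcases hr j with h | h <;> rcases hr (j + 1) with h' | h' <;> omega

/-- **The base windows for `n ≥ 32`.** -/
theorem Win_large {K : Type*} [Field K] [CharZero K] {n : ℕ} (hn : 32 ≤ n) : Win K n := by
  intro b x hb hbn hlo hhi _
  rcases Nat.lt_or_ge b 7 with h7 | h7
  · exact win56 n b x hn (by omega) hlo hhi
  · have n1 := two_NV n
    have n2 := two_NV (n + 1)
    have e0 : n - 1 + b = n + b - 1 := by omega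
    rw [e0] at hlo
    have k1 : b * (n * (n + 1)) < 2 * (x * (n + b - 1)) := by
      rw [← n1]
      have : b * (2 * NV n) = 2 * (b * NV n) := by ring
      omega
    have hx1 : 1 ≤ x := by
      rcases Nat.eq_zero_or_pos x with h | h
      · subst h
        simp at hlo
      · exact h
    have k2 : 2 * (x * (n + b)) ≤ b * ((n + 1) * (n + 2)) + 2 * (n + b) := by
      have e1 : (n + 1) * (n + 2) = 2 * NV (n + 1) := by
        rw [n2]
      rw [e1]
      obtain ⟨z, rfl⟩ : ∃ z, x = z + 1 := ⟨x - 1, by omega⟩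
      rw [Nat.add_sub_cancel] at hhi
      have e2 : (z + 1) * (n + b) = z * (n + b) + (n + b) := by ring
      have e3 : b * (2 * NV (n + 1)) = 2 * (b * NV (n + 1)) := by ring
      omega
    have hx : x ≤ b * n := by
      by_contra hcon
      push Not at hcon
      have e1 : (b * n + 1) * (n + b) ≤ x * (n + b) := Nat.mul_le_mul_right _ hcon
      have e2 : b * ((n + 1) * (n + 2)) + 2 * (n + b) < 2 * ((b * n + 1) * (n + b)) := by
        obtain ⟨u, rfl⟩ : ∃ u, n = u + 32 := ⟨n - 32, by omega⟩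
        obtain ⟨w, rfl⟩ : ∃ w, b = w + 7 := ⟨b - 7, by omega⟩
        nlinarith [Nat.zero_le (w * u), Nat.zero_le (w * w * u), Nat.zero_le (w * u * u),
          Nat.zero_le (w * w), Nat.zero_le (u * u)]
      omega
    refine N4.CW.ss (by omega) hx ?_
    rcases Nat.lt_or_ge n 39 with h | h
    · exact N4.cw_small hn (by omega) h7 hbn k1 k2
    · exact N4.cw_large h h7 hbn k1 k2

end Pool.Agent.WarR


end
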