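import Mathlib
import Pool.Agent.CLAM.C04
import Pool.Agent.CLAM.C05

/-! Parts: WarR.B4 -/

section

/-!
# Four quadratic forms, both sides (MP_db021c_ag, degree 2)   (helper41)
-/

set_option autoImplicit false

open Module

namespace Pool.Agent.WarR

open Pool.Agent.War

section

variable {K : Type*} [Field K]

/-- an even number of full points: two pencils -/
theorem ss4_even [CharZero K] {m x : ℕ} (hx : 2 ≤ x) : SS K m 4 (x + x) := by
  have h2 := SS.two (K := K) (m := m) hx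
  have e : (m - 1) * (x + x) = 2 * ((m - 1) * x) := by ring
  constructor
  · intro s w hs h
    have k := h2.1 (s + x) w (by omega) (by omega)
    exact KQ.blocks (b1 := 2) (b2 := 2) k k
  · intro s w hs h
    have k := h2.2 (s + x) w (by omega) (by omega)
    refine (KQ.blocks (b1 := 2) (b2 := 2) k k).mono ?_
    omega

theorem b4e_aux [CharZero K] {j s u0 u1 u3 R : ℕ} (hj : 4 ≤ j) (h0 : 0 < u0)
    (h0' : u0 + 3 ≤ 2 * (j + 1)) (h1 : 0 < u1) (h1' : u1 < j ∨ u1 + 3 ≤ 2 * j) (h3 : 0 < u3)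
    (h3' : u3 < j ∨ (u3 + 3 ≤ 2 * j ∧ j ≤ u0 + 2))
    (hR : (3 + u3 - s) + (5 + u0 - (s + u3)) + (j + 5 + u1 - (s + u0)) + (j + 5 - (s + u1)) ≤ R) :
    KQ K (2 * j + 3) 4 (4 * j + 1) s R := by
  have c1 := ch_succ j
  have c2 : (j + 2).choose 2 = (j + 1).choose 2 + (j + 1) := ch_succ (j + 1)
  have c3 : (j + 3).choose 2 = (j + 2).choose 2 + (j + 2) := ch_succ (j + 2)
  have c4 : (j + 4).choose 2 = (j + 3).choose 2 + (j + 3) := ch_succ (j + 3)
  have hT := sq_ch j
  have hjj : j * 4 ≤ j * j := Nat.mul_le_mul_left j hj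
  have a1 : 2 * j + 3 - j = j + 3 := by omega
  have a1' : 2 * j + 3 - j - 1 = j + 2 := by omega
  have a3 : 2 * j + 3 + 1 - (j + 1) = j + 3 := by omega
  have a4 : 2 * j + 3 + 1 - j = j + 4 := by omega
  have q1 : cnd (2 * j + 3) j (j + 1) u0 j u3 := by
    rcases Nat.lt_or_ge u3 j with h | h
    · refine cnd_of1 h3 h (by omega) (by omega) ?_
      rw [a1]
      omega
    · refine cnd_of2 h (by omega) (by omega) (by omega) ?_
      rw [a1']
      omega
  have q2 : cnd (2 * j + 3) j j u1 (j + 1) u0 := by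
    rcases Nat.lt_or_ge u0 (j + 1) with h | h
    · refine cnd_of1 h0 h (by omega) (by omega) ?_
      rw [a1]
      omega
    · refine cnd_of2 h (by omega) (by omega) (by omega) ?_
      rw [a1']
      omega
  have q3 : cnd (2 * j + 3) j j 0 j u1 := by
    rcases Nat.lt_or_ge u1 j with h | h
    · refine cnd_of1 h1 h (by omega) (by omega) ?_
      rw [a1]
      omega
    · refine cnd_of2 h (by omega) (by omega) (by omega) ?_
      rw [a1']
      omega
  refine chain4 (j + 1) j j j u0 u1 0 u3 (by omega) (by omega) (by omega) (by omega) (by omega)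
    (by omega) (cnd_of0 (by omega)) q1 q2 q3 ?_
  have d0 : dfc (2 * j + 3) (4 * j + 1) s (j + 1) j u3 0 ≤ 3 + u3 - s := by
    unfold dfc
    rw [a3]
    omega
  have d1 : dfc (2 * j + 3) (4 * j + 1) s j (j + 1) u0 u3 ≤ 5 + u0 - (s + u3) := by
    unfold dfc
    rw [a4]
    omega
  have d2 : dfc (2 * j + 3) (4 * j + 1) s j j u1 u0 ≤ j + 5 + u1 - (s + u0) := by
    unfold dfc
    rw [a4]
    omega
  have d3 : dfc (2 * j + 3) (4 * j + 1) s j j 0 u1 ≤ j + 5 - (s + u1) := by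
    unfold dfc
    rw [a4]
    omega
  exact (Nat.add_le_add (Nat.add_le_add (Nat.add_le_add d0 d1) d2) d3).trans hR

theorem b4o_aux [CharZero K] {j s u0 u1 u2 R : ℕ} (hj : 4 ≤ j) (h0 : 0 < u0) (h0' : u0 ≤ j)
    (h1 : 0 < u1) (h1' : u1 + 3 ≤ 2 * (j + 1)) (h2 : u2 ≤ j)
    (hR : (j + 4 - (s + u2)) + (4 + u0 - s) + (4 + u1 - (s + u0)) + (j + 7 + u2 - (s + u1)) ≤ R) :
    KQ K (2 * j + 4) 4 (4 * j + 3) s R := by
  have c1 := ch_succ j
  have c2 : (j + 2).choose 2 = (j + 1).choose 2 + (j + 1) := ch_succ (j + 1)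
  have c3 : (j + 3).choose 2 = (j + 2).choose 2 + (j + 2) := ch_succ (j + 2)
  have c4 : (j + 4).choose 2 = (j + 3).choose 2 + (j + 3) := ch_succ (j + 3)
  have c5 : (j + 5).choose 2 = (j + 4).choose 2 + (j + 4) := ch_succ (j + 4)
  have hT := sq_ch j
  have hjj : j * 4 ≤ j * j := Nat.mul_le_mul_left j hj
  have a1 : 2 * j + 4 - (j + 1) = j + 3 := by omega
  have a2 : 2 * j + 4 - j = j + 4 := by omega
  have a2' : 2 * j + 4 - j - 1 = j + 3 := by omega
  have a3 : 2 * j + 4 + 1 - (j + 1) = j + 4 := by omega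
  have a4 : 2 * j + 4 + 1 - j = j + 5 := by omega
  have q0 : cnd (2 * j + 4) (j + 1) j 0 (j + 1) u2 := by
    rcases Nat.eq_zero_or_pos u2 with rfl | h
    · exact cnd_of0 (by omega)
    · refine cnd_of1 h (by omega) (by omega) (by omega) ?_
      rw [a1]
      omega
  have q2 : cnd (2 * j + 4) (j + 1) (j + 1) u1 (j + 1) u0 := by
    refine cnd_of1 h0 (by omega) (by omega) (by omega) ?_
    rw [a1]
    omega
  have q3 : cnd (2 * j + 4) j (j + 1) u2 (j + 1) u1 := by
    rcases Nat.lt_or_ge u1 (j + 1) with h | h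
    · refine cnd_of1 h1 h (by omega) (by omega) ?_
      rw [a2]
      omega
    · refine cnd_of2 h (by omega) (by omega) (by omega) ?_
      rw [a2']
      omega
  refine chain4 (j + 1) (j + 1) (j + 1) j u0 u1 u2 0 (by omega) (by omega) (by omega) (by omega)
    (by omega) (by omega) q0 (cnd_of0 (by omega)) q2 q3 ?_
  have d0 : dfc (2 * j + 4) (4 * j + 3) s (j + 1) j 0 u2 ≤ j + 4 - (s + u2) := by
    unfold dfc
    rw [a3]
    omega
  have d1 : dfc (2 * j + 4) (4 * j + 3) s (j + 1) (j + 1) u0 0 ≤ 4 + u0 - s := by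
    unfold dfc
    rw [a3]
    omega
  have d2 : dfc (2 * j + 4) (4 * j + 3) s (j + 1) (j + 1) u1 u0 ≤ 4 + u1 - (s + u0) := by
    unfold dfc
    rw [a3]
    omega
  have d3 : dfc (2 * j + 4) (4 * j + 3) s j (j + 1) u2 u1 ≤ j + 7 + u2 - (s + u1) := by
    unfold dfc
    rw [a4]
    omega
  exact (Nat.add_le_add (Nat.add_le_add (Nat.add_le_add d0 d1) d2) d3).trans hR

end

end Pool.Agent.WarR


end
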