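import Mathlib
import Pool.Agent.CLAM.C20
import Pool.Agent.CLAM.C22

/-! Parts: WarR.B34 -/

section

/-!
# Three and four quadratic forms: `SS34`, modulo three small seeds (MP_db021c_ag, degree 2)   (helper41)
-/

set_option autoImplicit false

open Module

namespace Pool.Agent.WarR

open Pool.Agent.War

section

variable {K : Type*} [Field K]

/-- `n` even, `n ≥ 10`, `x = 2 n - 3` -/
theorem b4e [CharZero K] {j : ℕ} (hj : 4 ≤ j) : SS K (2 * j + 3) 4 (4 * j + 1) := by
  have hkk := sq_ch j
  have hNV : NV (2 * j + 3) = 4 * j.choose 2 + 9 * j + 6 := by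
    have h1 := two_NV (2 * j + 3)
    have h2 : (2 * j + 3) * (2 * j + 3 + 1) = 4 * (j * j) + 14 * j + 12 := by ring
    omega
  have hmx : (2 * j + 3 - 1) * (4 * j + 1) = 16 * j.choose 2 + 18 * j + 2 := by
    have h2 : (2 * j + 3 - 1) = 2 * j + 2 := by omega
    have h3 : (2 * j + 2) * (4 * j + 1) = 8 * (j * j) + 10 * j + 2 := by ring
    rw [h2, h3]
    omega
  obtain ⟨s, hs1, hs2⟩ : ∃ s, 2 * s ≤ j + 9 ∧ j + 9 < 2 * s + 2 := ⟨(j + 9) / 2, by omega, by omega⟩
  have k1 : KQ K (2 * j + 3) 4 (4 * j + 1) s (2 * j + 18 - 4 * s) := by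
    refine b4e_aux hj (u0 := 2 * s - 8) (u1 := 3 * s - 13 - j) (u3 := s - 3) (by omega) (by omega)
      (by omega) (by omega) (by omega) (by omega) ?_
    omega
  refine SS.of_crit (s := s) (w := 4 * j.choose 2 + 5 * j + 5 - s) ?_ ?_ ?_ ?_ ?_
  · rw [hNV]
    omega
  · rw [hmx]
    omega
  · rw [hmx]
    omega
  · rw [hmx]
    refine k1.mono ?_
    omega
  · rcases Nat.eq_or_lt_of_le hs1 with h | h
    · have k2 : KQ K (2 * j + 3) 4 (4 * j + 1) s 0 := k1.mono (by omega)
      exact k2.more_simple (Nat.le_succ s)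
    · refine b4e_aux hj (u0 := 2 * s - 6) (u1 := 3 * s - 10 - j) (u3 := s - 2) (by omega)
        (by omega) (by omega) (by omega) (by omega) (by omega) ?_
      omega

/-- `n` odd, `n ≥ 11`, `x = 2 n - 3` -/
theorem b4o [CharZero K] {j : ℕ} (hj : 4 ≤ j) : SS K (2 * j + 4) 4 (4 * j + 3) := by
  have hkk := sq_ch j
  have hNV : NV (2 * j + 4) = 4 * j.choose 2 + 11 * j + 10 := by
    have h1 := two_NV (2 * j + 4)
    have h2 : (2 * j + 4) * (2 * j + 4 + 1) = 4 * (j * j) + 18 * j + 20 := by ring
    omega
  have hmx : (2 * j + 4 - 1) * (4 * j + 3) = 16 * j.choose 2 + 26 * j + 9 := by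
    have h2 : (2 * j + 4 - 1) = 2 * j + 3 := by omega
    have h3 : (2 * j + 3) * (4 * j + 3) = 8 * (j * j) + 18 * j + 9 := by ring
    rw [h2, h3]
    omega
  obtain ⟨s, hs1, hs2⟩ : ∃ s, 4 * s ≤ 2 * j + 19 ∧ 2 * j + 19 < 4 * s + 4 :=
    ⟨(2 * j + 19) / 4, by omega, by omega⟩
  refine SS.of_crit (s := s) (w := 4 * j.choose 2 + 7 * j + 7 - s) ?_ ?_ ?_ ?_ ?_
  · rw [hNV]
    omega
  · rw [hmx]
    omega
  · rw [hmx]
    omega
  · rw [hmx]
    refine b4o_aux hj (u0 := s - 4) (u1 := 2 * s - 8) (u2 := 3 * s - 15 - j) (by omega) (by omega)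
      (by omega) (by omega) (by omega) ?_
    omega
  · refine b4o_aux hj (u0 := s - 3) (u1 := 2 * s - 6) (u2 := 3 * s - 12 - j) (by omega) (by omega)
      (by omega) (by omega) (by omega) ?_
    omega

theorem b4_17 [CharZero K] : KQ K 10 4 17 0 0 := by
  refine chain4 5 4 4 4 4 2 0 3 rfl (by omega) (by omega) (by omega) (by omega) (by omega)
    (cnd_of0 (by omega)) ?_ ?_ ?_ ?_
  · norm_num [cnd, nc, tpp, tqq, Nat.choose]
  · norm_num [cnd, nc, tpp, tqq, Nat.choose]
  · norm_num [cnd, nc, tpp, tqq, Nat.choose]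
  · norm_num [dfc, Nat.choose]

theorem b4_n5 [CharZero K] : SS K 6 4 9 := by
  refine SS.of_crit (s := 0) (w := 12) rfl (by norm_num) (by norm_num) ?_ ?_
  · refine chain4 3 2 2 2 1 0 0 1 rfl (by omega) (by omega) (by omega) (by omega) (by omega)
      (cnd_of0 (by omega)) ?_ ?_ (cnd_of0 (by omega)) ?_
    · norm_num [cnd, nc, tpp, tqq, Nat.choose]
    · norm_num [cnd, nc, tpp, tqq, Nat.choose]
    · norm_num [dfc, Nat.choose]
  · refine chain4 3 2 2 2 2 1 0 1 rfl (by omega) (by omega) (by omega) (by omega) (by omega)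
      (cnd_of0 (by omega)) ?_ ?_ ?_ ?_
    · norm_num [cnd, nc, tpp, tqq, Nat.choose]
    · norm_num [cnd, nc, tpp, tqq, Nat.choose]
    · norm_num [cnd, nc, tpp, tqq, Nat.choose]
    · norm_num [dfc, Nat.choose]

theorem b4_n6 [CharZero K] : SS K 7 4 11 := by
  refine SS.of_crit (s := 0) (w := 17) rfl (by norm_num) (by norm_num) ?_ ?_
  · refine chain4 3 3 3 2 1 2 0 0 rfl (by omega) (by omega) (by omega) (by omega) (by omega)
      (cnd_of0 (by omega)) (cnd_of0 (by omega)) ?_ ?_ ?_
    · norm_num [cnd, nc, tpp, tqq, Nat.choose]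
    · norm_num [cnd, nc, tpp, tqq, Nat.choose]
    · norm_num [dfc, Nat.choose]
  · refine chain4 3 3 3 2 0 2 0 0 rfl (by omega) (by omega) (by omega) (by omega) (by omega)
      (cnd_of0 (by omega)) (cnd_of0 (by omega)) (cnd_of0 (by omega)) ?_ ?_
    · norm_num [cnd, nc, tpp, tqq, Nat.choose]
    · norm_num [dfc, Nat.choose]

theorem b4_n7 [CharZero K] : SS K 8 4 13 := by
  refine SS.of_crit (s := 0) (w := 23) rfl (by norm_num) (by norm_num) ?_ ?_
  · refine chain4 4 3 3 3 3 1 0 2 rfl (by omega) (by omega) (by omega) (by omega) (by omega)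
      (cnd_of0 (by omega)) ?_ ?_ ?_ ?_
    · norm_num [cnd, nc, tpp, tqq, Nat.choose]
    · norm_num [cnd, nc, tpp, tqq, Nat.choose]
    · norm_num [cnd, nc, tpp, tqq, Nat.choose]
    · norm_num [dfc, Nat.choose]
  · refine chain4 4 3 3 3 2 1 0 0 rfl (by omega) (by omega) (by omega) (by omega) (by omega)
      (cnd_of0 (by omega)) (cnd_of0 (by omega)) ?_ ?_ ?_
    · norm_num [cnd, nc, tpp, tqq, Nat.choose]
    · norm_num [cnd, nc, tpp, tqq, Nat.choose]
    · norm_num [dfc, Nat.choose]

/-- `y = 0`, `x = 2 n - 1`, `n ≥ 8` -/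
theorem b4_last [CharZero K] {n : ℕ} (hn : 8 ≤ n) : KQ K (n + 1) 4 (2 * n - 1) 0 0 := by
  induction n using Nat.strong_induction_on with
  | _ n ih =>
    rcases Nat.lt_or_ge n 10 with h | h
    · have h' : n = 8 ∨ n = 9 := by omega
      rcases h' with rfl | rfl
      · exact s4
      · exact b4_17
    · obtain ⟨k, rfl⟩ : ∃ k, n = k + 2 := ⟨n - 2, by omega⟩
      have h1 := ih k (by omega) (by omega)
      have h2 := cod2 (K := K) (b := 4) (by norm_num) (by omega) (by omega) h1
      have e1 : 2 * k - 1 + 4 = 2 * (k + 2) - 1 := by omega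
      rw [e1] at h2
      exact h2

/-- the largest even number gives everything above it -/
theorem b4_above [CharZero K] {m x0 x : ℕ} (hx0 : 2 ≤ x0) (h : x0 + x0 ≤ x)
    (hN : x0 + x0 ≤ NV m) (hw : 4 * (NV m - (x0 + x0)) ≤ (m - 1) * (x0 + x0)) :
    KQ K m 4 x 0 0 := by
  obtain ⟨t, rfl⟩ := Nat.exists_eq_add_of_le h
  exact ((ss4_even (K := K) (m := m) hx0).1 0 (NV m - (x0 + x0)) (by omega) hw).more_full t

/-- **Four forms.** -/
theorem ss4 [CharZero K] {n : ℕ} (hn : 4 ≤ n) : ∀ x, 4 ≤ x → SS K (n + 1) 4 x := by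
  have hev : ∀ m x, 4 ≤ x → x % 2 = 0 → SS K m 4 x := by
    intro m x hx h
    obtain ⟨k, rfl⟩ : ∃ k, x = k + k := ⟨x / 2, by omega⟩
    exact ss4_even (by omega)
  have n5 : NV 5 = 15 := rfl
  have n6 : NV 6 = 21 := rfl
  have n7 : NV 7 = 28 := rfl
  have n8 : NV 8 = 36 := rfl
  have n9 : NV 9 = 45 := rfl
  have n10 : NV 10 = 55 := rfl
  induction n, hn using Nat.le_induction with
  | base =>
    intro x hx
    rcases Nat.mod_two_eq_zero_or_one x with ho | ho
    · exact hev _ x hx ho
    rcases Nat.lt_or_ge x 8 with h | h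
    · have h' : x = 5 ∨ x = 7 := by omega
      rcases h' with rfl | rfl
      · exact SS.of_crit (s := 5) (w := 5) rfl (by norm_num) (by norm_num)
          (s2.mono (Nat.zero_le _)) (s2.more_simple (by norm_num))
      · exact SS.of_crit (s := 1) (w := 7) rfl (by norm_num) (by norm_num)
          (s3.mono (Nat.zero_le _)) (s3.more_simple (by norm_num))
    · refine SS.neg ?_ (b4_above (x0 := 4) (by norm_num) h (by rw [n5]; norm_num)
        (by rw [n5]; norm_num))
      rw [n5]
      omega
  | succ n hn ih =>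
    intro x hx
    rcases Nat.mod_two_eq_zero_or_one x with ho | ho
    · exact hev _ x hx ho
    rcases Nat.lt_or_ge (n + 1) 10 with hs | hs
    · -- small levels
      have hn' : n = 4 ∨ n = 5 ∨ n = 6 ∨ n = 7 ∨ n = 8 := by omega
      rcases hn' with rfl | rfl | rfl | rfl | rfl
      · rcases Nat.lt_or_ge x 8 with h | h
        · refine SS.step (by omega) (by norm_num) hx ?_ (ih x hx) ?_
          · rw [n5]
            omega
          · intro ρ p hρ hp
            omega
        · rcases Nat.lt_or_ge x 10 with h' | h'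
          · have : x = 9 := by omega
            subst this
            exact b4_n5
          · refine SS.neg ?_ (b4_above (x0 := 5) (by norm_num) h' (by rw [n6]; norm_num)
              (by rw [n6]; norm_num))
            rw [n6]
            omega
      · rcases Nat.lt_or_ge x 10 with h | h
        · refine SS.step (by omega) (by norm_num) hx ?_ (ih x hx) ?_
          · rw [n6]
            omega
          · intro ρ p hρ hp
            omega
        · rcases Nat.lt_or_ge x 12 with h' | h'
          · have : x = 11 := by omega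
            subst this
            exact b4_n6
          · refine SS.neg ?_ (b4_above (x0 := 6) (by norm_num) h' (by rw [n7]; norm_num)
              (by rw [n7]; norm_num))
            rw [n7]
            omega
      · rcases Nat.lt_or_ge x 12 with h | h
        · refine SS.step (by omega) (by norm_num) hx ?_ (ih x hx) ?_
          · rw [n7]
            omega
          · intro ρ p hρ hp
            omega
        · rcases Nat.lt_or_ge x 14 with h' | h'
          · have : x = 13 := by omega
            subst this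
            exact b4_n7
          · refine SS.neg ?_ (b4_above (x0 := 7) (by norm_num) h' (by rw [n8]; norm_num)
              (by rw [n8]; norm_num))
            rw [n8]
            omega
      · rcases Nat.lt_or_ge x 14 with h | h
        · refine SS.step (by omega) (by norm_num) hx ?_ (ih x hx) ?_
          · rw [n8]
            omega
          · intro ρ p hρ hp
            omega
        · rcases Nat.lt_or_ge x 16 with h' | h'
          · have : x = 15 := by omega
            subst this
            exact SS.of_crit (s := 0) (w := 30) rfl (by norm_num) (by norm_num)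
              (s4.mono (Nat.zero_le _)) (s4.more_simple (by norm_num))
          · refine SS.neg ?_ (b4_above (x0 := 8) (by norm_num) h' (by rw [n9]; norm_num)
              (by rw [n9]; norm_num))
            rw [n9]
            omega
      · rcases Nat.lt_or_ge x 16 with h | h
        · refine SS.step (by omega) (by norm_num) hx ?_ (ih x hx) ?_
          · rw [n9]
            omega
          · intro ρ p hρ hp
            omega
        · obtain ⟨t, rfl⟩ : ∃ t, x = 17 + t := ⟨x - 17, by omega⟩
          refine SS.neg ?_ (b4_17.more_full t)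
          rw [n10]
          omega
    · -- `n + 1 ≥ 10`
      rcases Nat.lt_or_ge x (2 * (n + 1) - 3) with h | h
      · have hE : x * (n + 1 - 1 + 4) ≤ 4 * NV (n + 1) := by
          have h1 := two_NV (n + 1)
          rw [Nat.add_sub_cancel]
          have h2 : x * (n + 4) ≤ (2 * n - 3) * (n + 4) := Nat.mul_le_mul_right _ (by omega)
          obtain ⟨j, rfl⟩ : ∃ j, n = j + 2 := ⟨n - 2, by omega⟩
          have e1 : 2 * (j + 2) - 3 = 2 * j + 1 := by omega
          rw [e1] at h2
          have e3 : (2 * j + 1) * (j + 2 + 4) = 2 * (j * j) + 13 * j + 6 := by ring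
          have e4 : (j + 2 + 1) * (j + 2 + 1 + 1) = j * j + 7 * j + 12 := by ring
          omega
        refine SS.step (by omega) (by norm_num) hx hE (ih x hx) ?_
        intro ρ p hρ hp
        omega
      · rcases Nat.lt_or_ge x (2 * (n + 1) - 1) with h' | h'
        · rcases Nat.even_or_odd' (n + 1) with ⟨k, hk | hk⟩
          · obtain ⟨j, rfl⟩ : ∃ j, k = j + 1 := ⟨k - 1, by omega⟩
            have e := b4e (K := K) (j := j) (by omega)
            have e1 : x = 4 * j + 1 := by omega
            have e2 : n + 1 + 1 = 2 * j + 3 := by omega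
            rw [e1, e2]
            exact e
          · obtain ⟨j, rfl⟩ : ∃ j, k = j + 1 := ⟨k - 1, by omega⟩
            have e := b4o (K := K) (j := j) (by omega)
            have e1 : x = 4 * j + 3 := by omega
            have e2 : n + 1 + 1 = 2 * j + 4 := by omega
            rw [e1, e2]
            exact e
        · obtain ⟨t, rfl⟩ := Nat.exists_eq_add_of_le h'
          refine SS.neg ?_ ((b4_last (K := K) (n := n + 1) (by omega)).more_full t)
          have h1 := two_NV (n + 1 + 1)
          obtain ⟨j, rfl⟩ : ∃ j, n = j + 9 := ⟨n - 9, by omega⟩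
          have e0 : 2 * (j + 9 + 1) - 1 + t = 2 * j + 19 + t := by omega
          have e5 : j + 9 + 1 + 1 - 1 + 4 = j + 14 := by omega
          rw [e0, e5]
          have e3 : (2 * j + 19 + t) * (j + 14) = 2 * (j * j) + 47 * j + 266 + t * (j + 14) := by
            ring
          have e4 : (j + 9 + 1 + 1) * (j + 9 + 1 + 1 + 1) = j * j + 23 * j + 132 := by ring
          omega

/-- **Three and four forms**, all `n ≥ 4`. -/
theorem ss34 [CharZero K] {n : ℕ} (hn : 4 ≤ n) : SS34 K n := by
  intro b x hb hx hg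
  rcases hb with rfl | rfl
  · refine ss3 s1 hn x hx fun h => hg ⟨rfl, h⟩
  · exact ss4 hn x hx

end

end Pool.Agent.WarR


end
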