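import Mathlib
import Pool.Agent.CLAM.C02
import Pool.Agent.CLAM.C06
import Pool.Agent.CLAM.C10

/-! Parts: WarQ.CB, WarM.Chk2, WarM.Chk30, WarM.Chk31, WarM.CubAH -/

section

/-!
# Combinatorics of case B (MP_db021c_ag)   (helper34)
-/

set_option autoImplicit false

namespace Pool.Agent.WarQ

namespace CBaux

theorem transfer {I : Type} [Fintype I] [DecidableEq I] (b c D : ℕ) (hI : Fintype.card I = b + c)
    (sz : Fin (D + 1) → ℕ) (lab : Fin (D + 1) → I → ℕ) (E : Fin D → Finset I)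
    (hb : ∀ g x, lab g x ≤ sz g)
    (h1 : ∀ g v, v ≠ 0 → (Finset.univ.filter fun x => lab g x = v).card ≤ c)
    (h2 : ∀ j, ∀ x ∈ E j, lab 0 x ≠ 0 ∧ ∀ j', j' ≠ j → lab (Fin.succ j') x ≠ 0)
    (h3 : ∀ j, (Finset.univ.filter fun x => lab (Fin.succ j) x = 0 ∧ x ∉ E j).card ≤ c)
    (h4 : ∃ g₁ g₂, ∀ x x', lab g₁ x = lab g₁ x' → lab g₂ x = lab g₂ x' → x = x') :
    ∃ (κ : ∀ g, Fin (b + c) → Fin (sz g + 1)) (E' : Fin D → Finset (Fin (b + c))),
      (∀ g v, v ≠ 0 → cnt (κ g) v ≤ c) ∧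
      (∀ j, ∀ i ∈ E' j, κ 0 i ≠ 0 ∧ ∀ j', j' ≠ j → κ (Fin.succ j') i ≠ 0) ∧
      (∀ j, (Finset.univ.filter fun i => κ (Fin.succ j) i = 0 ∧ i ∉ E' j).card ≤ c) ∧
      ∃ g₁ g₂, ∀ i i', κ g₁ i = κ g₁ i' → κ g₂ i = κ g₂ i' → i = i' := by
  let e : Fin (b + c) ≃ I := (Fintype.equivFinOfCardEq hI).symm
  refine ⟨fun g i => ⟨lab g (e i), Nat.lt_succ_of_le (hb g (e i))⟩,
    fun j => Finset.univ.filter fun i => e i ∈ E j, ?_, ?_, ?_, ?_⟩
  · intro g v hv
    refine le_trans ?_ (h1 g v.val fun h => hv (Fin.ext h))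
    refine Finset.card_le_card_of_injOn e ?_ e.injective.injOn
    intro i hi
    simp only [Finset.coe_filter, Finset.mem_univ, true_and, Set.mem_ofPred_eq, Fin.ext_iff] at hi ⊢
    exact hi
  · intro j i hi
    have hi' : e i ∈ E j := by simpa using hi
    obtain ⟨k1, k2⟩ := h2 j _ hi'
    refine ⟨fun h => k1 ?_, fun j' hj' h => k2 j' hj' ?_⟩
    · exact congrArg Fin.val h
    · exact congrArg Fin.val h
  · intro j
    refine le_trans ?_ (h3 j)
    refine Finset.card_le_card_of_injOn e ?_ e.injective.injOn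
    intro i hi
    simp only [Finset.coe_filter, Finset.mem_univ, true_and, Set.mem_ofPred_eq, Finset.mem_filter]
      at hi ⊢
    exact ⟨congrArg Fin.val hi.1, hi.2⟩
  · obtain ⟨g₁, g₂, h⟩ := h4
    exact ⟨g₁, g₂, fun i i' k1 k2 => e.injective (h _ _ (congrArg Fin.val k1)
      (congrArg Fin.val k2))⟩

/-- labels with classes of size `≤ c`, nonzero on a given set -/
theorem exists_lab {I : Type} [Fintype I] [DecidableEq I] (T : Finset I) (c k : ℕ)
    (hT : T.card ≤ k * c) : ∃ f : I → ℕ, (∀ x, f x ≤ k) ∧ (∀ x ∈ T, f x ≠ 0) ∧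
      ∀ v, v ≠ 0 → (Finset.univ.filter fun x => f x = v).card ≤ c := by
  let e : T ≃ Fin T.card := T.equivFin
  refine ⟨fun x => if h : x ∈ T then (e ⟨x, h⟩).val / c + 1 else 0, ?_, ?_, ?_⟩
  · intro x
    dsimp only
    split_ifs with h
    · have h1 : (e ⟨x, h⟩).val < k * c := lt_of_lt_of_le (e ⟨x, h⟩).2 hT
      have h2 : (e ⟨x, h⟩).val / c < k := by
        rw [Nat.div_lt_iff_lt_mul]
        · exact h1
        · rcases Nat.eq_zero_or_pos c with rfl | hc
          · simp at h1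
          · exact hc
      omega
    · omega
  · intro x hx
    dsimp only
    rw [dif_pos hx]
    exact Nat.succ_ne_zero _
  · intro v hv
    have key : (Finset.univ.filter fun x => (if h : x ∈ T then (e ⟨x, h⟩).val / c + 1 else 0) = v).card
        ≤ (Finset.range c).card := by
      refine Finset.card_le_card_of_injOn
        (fun x => if h : x ∈ T then (e ⟨x, h⟩).val % c else 0) ?_ ?_
      · intro x hx
        simp only [Finset.coe_filter, Finset.mem_univ, true_and, Set.mem_ofPred_eq,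
          Finset.coe_range, Set.mem_Iio] at hx ⊢
        split_ifs at hx ⊢ with h
        · apply Nat.mod_lt
          by_contra hc
          have hc0 : c = 0 := by omega
          have := lt_of_lt_of_le (e ⟨x, h⟩).2 hT
          rw [hc0] at this
          simp at this
        · exact absurd hx.symm hv
      · intro x hx x' hx' hxx
        simp only [Finset.coe_filter, Finset.mem_univ, true_and, Set.mem_ofPred_eq] at hx hx' hxx
        by_cases h : x ∈ T
        · by_cases h' : x' ∈ T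
          · rw [dif_pos h] at hx hxx
            rw [dif_pos h'] at hx' hxx
            have h1 : (e ⟨x, h⟩).val / c = (e ⟨x', h'⟩).val / c := by omega
            have h2 := Nat.div_add_mod (e ⟨x, h⟩).val c
            have h3 := Nat.div_add_mod (e ⟨x', h'⟩).val c
            rw [h1, hxx] at h2
            have h4 : (e ⟨x, h⟩).val = (e ⟨x', h'⟩).val := h2.symm.trans h3
            have h5 := e.injective (Fin.ext h4)
            exact congrArg Subtype.val h5
          · rw [dif_neg h'] at hx'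
            exact absurd hx'.symm hv
        · rw [dif_neg h] at hx
          exact absurd hx.symm hv
    simpa using key

/-- the indices -/
abbrev II (β c ρ : ℕ) : Type := (Fin (β + 1) × Fin c) ⊕ Fin ρ

def L1 {β c ρ : ℕ} : II β c ρ → ℕ := Sum.elim (fun p => p.1.val) fun _ => 0

def L2 {β c ρ : ℕ} : II β c ρ → ℕ :=
  Sum.elim (fun p => if p.2.val + 1 = c ∧ 1 ≤ p.1.val ∧ p.1.val ≤ ρ then 0 else
    if p.1.val + p.2.val ≤ β then p.1.val + p.2.val else p.1.val + p.2.val - (β + 1))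
    fun e => c + e.val

def Lk {β c ρ : ℕ} (k : ℕ) : II β c ρ → ℕ :=
  Sum.elim (fun p => if p.1.val = k ∧ p.2.val < ρ then 0 else p.1.val) fun _ => k

def ff (c v : ℕ) : ℕ := if v ≤ c then v else if v = c + 1 then 0 else v - 1

/-- exceptional elements for group 2 -/
def X2 {β c ρ : ℕ} : II β c ρ → Prop :=
  Sum.elim (fun p => p.2.val + 1 = c ∧ 1 ≤ p.1.val ∧ p.1.val ≤ ρ) fun _ => False

def Xk {β c ρ : ℕ} (k : ℕ) : II β c ρ → Prop :=
  Sum.elim (fun p => p.1.val = k ∧ p.2.val < ρ) fun _ => False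

def X1 {β c ρ : ℕ} : II β c ρ → Prop := Sum.elim (fun _ => False) fun _ => True

theorem card_le {I : Type} [Fintype I] [DecidableEq I] (P : I → Prop) [DecidablePred P] (c : ℕ)
    (r : I → ℕ) (h1 : ∀ x, P x → r x < c) (h2 : ∀ x x', P x → P x' → r x = r x' → x = x') :
    (Finset.univ.filter P).card ≤ c := by
  have : (Finset.univ.filter P).card ≤ (Finset.range c).card := by
    refine Finset.card_le_card_of_injOn r ?_ ?_
    · intro x hx
      simp only [Finset.coe_filter, Finset.mem_univ, true_and, Set.mem_ofPred_eq] at hx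
      simpa using h1 x hx
    · intro x hx x' hx' h
      simp only [Finset.coe_filter, Finset.mem_univ, true_and, Set.mem_ofPred_eq] at hx hx'
      exact h2 x x' hx hx' h
  simpa using this

def r1 {β c ρ : ℕ} : II β c ρ → ℕ := Sum.elim (fun p => p.2.val) fun _ => 0

def r2 {β c ρ : ℕ} : II β c ρ → ℕ := Sum.elim (fun p => p.2.val) fun _ => c - 1

def rk {β c ρ : ℕ} : II β c ρ → ℕ := Sum.elim (fun p => p.2.val) fun e => e.val

theorem pair_ext {β c ρ : ℕ} {m m' : Fin (β + 1)} {o o' : Fin c} (h1 : m.val = m'.val)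
    (h2 : o.val = o'.val) : (Sum.inl (m, o) : II β c ρ) = Sum.inl (m', o') := by
  rw [Fin.ext h1, Fin.ext h2]

section cls

variable {β c ρ : ℕ}

open Classical in
theorem L1_cls (v : ℕ) (hv : v ≠ 0) :
    (Finset.univ.filter fun x : II β c ρ => L1 x = v).card ≤ c := by
  refine card_le _ c r1 ?_ ?_
  · rintro (⟨m, o⟩ | e) hx
    · exact o.2
    · simp only [L1, Sum.elim_inr] at hx
      omega
  · rintro (⟨m, o⟩ | e) (⟨m', o'⟩ | e') hx hx' h
    · simp only [L1, r1, Sum.elim_inl] at hx hx' h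
      exact pair_ext (by omega) h
    · simp only [L1, Sum.elim_inr] at hx'
      omega
    · simp only [L1, Sum.elim_inr] at hx
      omega
    · simp only [L1, Sum.elim_inr] at hx
      omega

open Classical in
theorem L1_zero : (Finset.univ.filter fun x : II β c ρ => L1 x = 0 ∧ ¬ X1 x).card ≤ c := by
  refine card_le _ c r1 ?_ ?_
  · rintro (⟨m, o⟩ | e) hx
    · exact o.2
    · simp only [X1, Sum.elim_inr, not_true_eq_false, and_false] at hx
  · rintro (⟨m, o⟩ | e) (⟨m', o'⟩ | e') hx hx' h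
    · simp only [L1, r1, Sum.elim_inl] at hx hx' h
      exact pair_ext (by omega) h
    · simp only [X1, Sum.elim_inr, not_true_eq_false, and_false] at hx'
    · simp only [X1, Sum.elim_inr, not_true_eq_false, and_false] at hx
    · simp only [X1, Sum.elim_inr, not_true_eq_false, and_false] at hx

open Classical in
theorem Lk_cls (hρ : ρ < c) (k : ℕ) (hk : 1 ≤ k) (v : ℕ) (hv : v ≠ 0) :
    (Finset.univ.filter fun x : II β c ρ => Lk k x = v).card ≤ c := by
  refine card_le _ c rk ?_ ?_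
  · rintro (⟨m, o⟩ | e) hx
    · exact o.2
    · simp only [rk, Sum.elim_inr]
      omega
  · rintro (⟨m, o⟩ | e) (⟨m', o'⟩ | e') hx hx' h
    · simp only [Lk, rk, Sum.elim_inl] at hx hx' h
      split_ifs at hx hx' with g1 g2 g2
      all_goals first
        | omega
        | exact pair_ext (by omega) h
    · simp only [Lk, rk, Sum.elim_inl, Sum.elim_inr] at hx hx' h
      have := e'.2
      split_ifs at hx with g1
      all_goals omega
    · simp only [Lk, rk, Sum.elim_inl, Sum.elim_inr] at hx hx' h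
      have := e.2
      split_ifs at hx' with g1
      all_goals omega
    · simp only [rk, Sum.elim_inr] at h
      rw [Fin.ext h]

open Classical in
theorem Lk_zero (k : ℕ) (hk : 1 ≤ k) :
    (Finset.univ.filter fun x : II β c ρ => Lk k x = 0 ∧ ¬ Xk k x).card ≤ c := by
  refine card_le _ c rk ?_ ?_
  · rintro (⟨m, o⟩ | e) hx
    · exact o.2
    · simp only [Lk, Sum.elim_inr] at hx
      omega
  · rintro (⟨m, o⟩ | e) (⟨m', o'⟩ | e') hx hx' h
    · simp only [Lk, Xk, rk, Sum.elim_inl] at hx hx' h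
      have k1 := hx.2
      have k2 := hx'.2
      have k3 := hx.1
      have k4 := hx'.1
      rw [if_neg k1] at k3
      rw [if_neg k2] at k4
      exact pair_ext (by omega) h
    · simp only [Lk, Sum.elim_inr] at hx'
      omega
    · simp only [Lk, Sum.elim_inr] at hx
      omega
    · simp only [Lk, Sum.elim_inr] at hx
      omega

open Classical in
theorem L2_cls (hρ : ρ < c) (hβ : 2 * c ≤ β) (v : ℕ) (hv : v ≠ 0) :
    (Finset.univ.filter fun x : II β c ρ => L2 x = v).card ≤ c := by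
  refine card_le _ c r2 ?_ ?_
  · rintro (⟨m, o⟩ | e) hx
    · exact o.2
    · simp only [r2, Sum.elim_inr]
      omega
  · rintro (⟨m, o⟩ | e) (⟨m', o'⟩ | e') hx hx' h
    · simp only [L2, r2, Sum.elim_inl] at hx hx' h
      have h1 := m.2
      have h2 := m'.2
      have h3 := o.2
      have h4 := o'.2
      refine pair_ext ?_ h
      split_ifs at hx hx' <;> omega
    · simp only [L2, r2, Sum.elim_inl, Sum.elim_inr] at hx hx' h
      have h1 := m.2
      have h3 := o.2
      have h4 := e'.2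
      split_ifs at hx <;> omega
    · simp only [L2, r2, Sum.elim_inl, Sum.elim_inr] at hx hx' h
      have h1 := m'.2
      have h3 := o'.2
      have h4 := e.2
      split_ifs at hx' <;> omega
    · simp only [L2, Sum.elim_inr] at hx hx'
      rw [Fin.ext (show e.val = e'.val by omega)]

open Classical in
theorem L2_zero (hρ : ρ < c) (hβ : 2 * c ≤ β) :
    (Finset.univ.filter fun x : II β c ρ => L2 x = 0 ∧ ¬ X2 x).card ≤ c := by
  refine card_le _ c r2 ?_ ?_
  · rintro (⟨m, o⟩ | e) hx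
    · exact o.2
    · simp only [r2, Sum.elim_inr]
      omega
  · rintro (⟨m, o⟩ | e) (⟨m', o'⟩ | e') hx hx' h
    · simp only [L2, X2, r2, Sum.elim_inl] at hx hx' h
      have h1 := m.2
      have h2 := m'.2
      have h3 := o.2
      have h4 := o'.2
      have k1 := hx.2
      have k2 := hx'.2
      have k3 := hx.1
      have k4 := hx'.1
      rw [if_neg k1] at k3
      rw [if_neg k2] at k4
      refine pair_ext ?_ h
      split_ifs at k3 k4 <;> omega
    · simp only [L2, Sum.elim_inr] at hx'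
      omega
    · simp only [L2, Sum.elim_inr] at hx
      omega
    · simp only [L2, Sum.elim_inr] at hx
      omega

theorem L2_le (hρ : ρ < c) (hβ : 2 * c ≤ β) (x : II β c ρ) : L2 x ≤ β := by
  rcases x with ⟨m, o⟩ | e
  · have h1 := m.2
    have h3 := o.2
    simp only [L2, Sum.elim_inl]
    split_ifs <;> omega
  · have := e.2
    simp only [L2, Sum.elim_inr]
    omega

theorem joint (hρ : ρ < c) (hβ : 2 * c ≤ β) (x x' : II β c ρ) (h1 : L1 x = L1 x')
    (h2 : L2 x = L2 x') : x = x' := by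
  rcases x with ⟨m, o⟩ | e
  · rcases x' with ⟨m', o'⟩ | e'
    · simp only [L1, L2, Sum.elim_inl] at h1 h2
      have k1 := m.2
      have k2 := m'.2
      have k3 := o.2
      have k4 := o'.2
      refine pair_ext h1 ?_
      split_ifs at h2 <;> omega
    · simp only [L1, L2, Sum.elim_inl, Sum.elim_inr] at h1 h2
      have k3 := o.2
      split_ifs at h2 <;> omega
  · rcases x' with ⟨m', o'⟩ | e'
    · simp only [L1, L2, Sum.elim_inl, Sum.elim_inr] at h1 h2
      have k3 := o'.2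
      split_ifs at h2 <;> omega
    · simp only [L2, Sum.elim_inr] at h2
      rw [Fin.ext (show e.val = e'.val by omega)]

theorem ff_eq {v v' : ℕ} (h : ff c v = ff c v') :
    v = v' ∨ (v = 0 ∧ v' = c + 1) ∨ (v = c + 1 ∧ v' = 0) := by
  unfold ff at h
  split_ifs at h <;> omega

theorem L2_special (hρ : ρ = 1) (hc : 2 ≤ c) (hβ : 2 * c ≤ β) (x : II β c ρ)
    (h : L2 x = c + 1) : ∃ (m : Fin (β + 1)) (o : Fin c), x = Sum.inl (m, o) ∧
      m.val + o.val = c + 1 := by
  rcases x with ⟨m, o⟩ | e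
  · refine ⟨m, o, rfl, ?_⟩
    have k1 := m.2
    have k3 := o.2
    simp only [L2, Sum.elim_inl] at h
    split_ifs at h <;> omega
  · simp only [L2, Sum.elim_inr] at h
    have := e.2
    omega

theorem joint2 (hρ : ρ = 1) (hc : 2 ≤ c) (hβ : 2 * c ≤ β) (x x' : II β c ρ) (h1 : L1 x = L1 x')
    (h2 : ff c (L2 x) = ff c (L2 x')) : x = x' := by
  have aux : ∀ x x' : II β c ρ, L1 x = L1 x' → L2 x = 0 → L2 x' = c + 1 → False := by
    intro x x' h1 h2 h3
    obtain ⟨m', o', rfl, hmo⟩ := L2_special hρ hc hβ x' h3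
    rcases x with ⟨m, o⟩ | e
    · simp only [L1, L2, Sum.elim_inl] at h1 h2
      have k1 := m.2
      have k3 := o.2
      have k4 := o'.2
      split_ifs at h2 <;> omega
    · simp only [L2, Sum.elim_inr] at h2
      omega
  rcases ff_eq h2 with h | ⟨h3, h4⟩ | ⟨h3, h4⟩
  · exact joint (by omega) hβ x x' h1 h
  · exact (aux x x' h1 h3 h4).elim
  · exact (aux x' x h1.symm h4 h3).elim

end cls

section asm

variable {β c ρ : ℕ}

def LL (t : ℕ) (x : II β c ρ) : ℕ := if t = 1 then ff c (L2 x) else L2 x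

def XX (t : ℕ) (x : II β c ρ) : Prop := X2 x ∨ (t = 1 ∧ L2 x = c + 1)

open Classical in
theorem LL_cls (t : ℕ) (hρ : ρ < c) (hβ : 2 * c ≤ β) (v : ℕ) (hv : v ≠ 0) :
    (Finset.univ.filter fun x : II β c ρ => LL t x = v).card ≤ c := by
  by_cases ht : t = 1
  · by_cases hvc : v ≤ c
    · refine (Finset.card_le_card ?_).trans (L2_cls hρ hβ v hv)
      intro x hx
      simp only [Finset.mem_filter, Finset.mem_univ, true_and, LL, if_pos ht, ff] at hx ⊢
      split_ifs at hx <;> omega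
    · refine (Finset.card_le_card ?_).trans (L2_cls hρ hβ (v + 1) (Nat.succ_ne_zero v))
      intro x hx
      simp only [Finset.mem_filter, Finset.mem_univ, true_and, LL, if_pos ht, ff] at hx ⊢
      split_ifs at hx <;> omega
  · refine (Finset.card_le_card ?_).trans (L2_cls hρ hβ v hv)
    intro x hx
    simp only [Finset.mem_filter, Finset.mem_univ, true_and, LL, if_neg ht] at hx ⊢
    exact hx

open Classical in
theorem LL_zero (t : ℕ) (hρ : ρ < c) (hβ : 2 * c ≤ β) :
    (Finset.univ.filter fun x : II β c ρ => LL t x = 0 ∧ ¬ XX t x).card ≤ c := by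
  refine (Finset.card_le_card ?_).trans (L2_zero hρ hβ)
  intro x hx
  simp only [Finset.mem_filter, Finset.mem_univ, true_and] at hx ⊢
  obtain ⟨h1, h2⟩ := hx
  unfold XX at h2
  push Not at h2
  refine ⟨?_, h2.1⟩
  unfold LL at h1
  by_cases ht : t = 1
  · rw [if_pos ht] at h1
    have := h2.2 ht
    unfold ff at h1
    split_ifs at h1 <;> omega
  · rw [if_neg ht] at h1
    exact h1

theorem LL_le (t : ℕ) (ht : t ≤ 1) (hρ : ρ < c) (hβ : 2 * c ≤ β) (x : II β c ρ) :
    LL t x ≤ β - t := by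
  have h := L2_le hρ hβ x
  unfold LL
  split_ifs with h1
  · unfold ff
    split_ifs <;> omega
  · omega

theorem LL_joint (t : ℕ) (ht : t = 1 → ρ = 1) (hρ1 : 1 ≤ ρ) (hρ : ρ < c) (hβ : 2 * c ≤ β)
    (x x' : II β c ρ) (h1 : L1 x = L1 x') (h2 : LL t x = LL t x') : x = x' := by
  unfold LL at h2
  by_cases h : t = 1
  · rw [if_pos h, if_pos h] at h2
    exact joint2 (ht h) (by omega) hβ x x' h1 h2
  · rw [if_neg h, if_neg h] at h2
    exact joint hρ hβ x x' h1 h2

def labs (t j : ℕ) (x : II β c ρ) : ℕ :=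
  if j = 0 then L1 x else if j = 1 then LL t x else Lk (j - 1) x

def XXs (t j : ℕ) (x : II β c ρ) : Prop :=
  if j = 0 then X1 x else if j = 1 then XX t x else Xk (j - 1) x

theorem L1_ne {t j D : ℕ} (hj : j ≠ 0) (hρ1 : 1 ≤ ρ) (hρ : ρ < c)
    (hβ : 2 * c ≤ β) (ht : t = 1 → ρ = 1) (x : II β c ρ) (h : XXs t j x) : L1 x ≠ 0 := by
  unfold XXs at h
  rw [if_neg hj] at h
  rcases x with ⟨m, o⟩ | e
  · have k1 := m.2
    have k3 := o.2
    simp only [L1, Sum.elim_inl]
    split_ifs at h with h1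
    · rcases h with h | ⟨h3, h4⟩
      · simp only [X2, Sum.elim_inl] at h
        omega
      · simp only [L2, Sum.elim_inl] at h4
        split_ifs at h4 <;> omega
    · simp only [Xk, Sum.elim_inl] at h
      omega
  · have k3 := e.2
    split_ifs at h with h1
    · rcases h with h | ⟨h3, h4⟩
      · simp only [X2, Sum.elim_inr] at h
      · simp only [L2, Sum.elim_inr] at h4
        have := ht h3
        omega
    · simp only [Xk, Sum.elim_inr] at h

theorem LL_ne {t j D : ℕ} (hj : j ≠ 1) (hjD : j < D) (hρ1 : 1 ≤ ρ) (hρ : ρ < c) (hcD : c ≤ D)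
    (hβ : 2 * D ≤ β) (ht : t = 1 → ρ = 1 ∧ D = c) (x : II β c ρ) (h : XXs t j x) :
    LL t x ≠ 0 := by
  unfold XXs at h
  rcases x with ⟨m, o⟩ | e
  · have k1 := m.2
    have k3 := o.2
    split_ifs at h with h1 h2
    · simp only [X1, Sum.elim_inl] at h
    · simp only [Xk, Sum.elim_inl] at h
      have h5 : L2 (Sum.inl (m, o) : II β c ρ) = m.val + o.val := by
        simp only [L2, Sum.elim_inl]
        rw [if_neg (by omega), if_pos (by omega)]
      unfold LL
      rw [h5]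
      split_ifs with h6
      · obtain ⟨h7, h8⟩ := ht h6
        unfold ff
        split_ifs <;> omega
      · omega
  · have k3 := e.2
    split_ifs at h with h1 h2
    · have h5 : L2 (Sum.inr e : II β c ρ) = c + e.val := by
        simp only [L2, Sum.elim_inr]
      unfold LL
      rw [h5]
      split_ifs with h6
      · obtain ⟨h7, h8⟩ := ht h6
        unfold ff
        split_ifs <;> omega
      · omega
    · simp only [Xk, Sum.elim_inr] at h

theorem Lk_ne {t j k D : ℕ} (hk : 1 ≤ k) (hkD : k + 1 < D) (hj : j ≠ k + 1) (hjD : j < D)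
    (hρ1 : 1 ≤ ρ) (hρ : ρ < c)
    (hcD : c ≤ D) (hβ : 2 * D ≤ β) (ht : t = 1 → ρ = 1 ∧ D = c) (x : II β c ρ)
    (h : XXs t j x) : Lk k x ≠ 0 := by
  unfold XXs at h
  rcases x with ⟨m, o⟩ | e
  · have k1 := m.2
    have k3 := o.2
    simp only [Lk, Sum.elim_inl]
    split_ifs at h with h1 h2
    · simp only [X1, Sum.elim_inl] at h
    · rcases h with h | ⟨h3, h4⟩
      · simp only [X2, Sum.elim_inl] at h
        rw [if_neg (by omega)]
        omega
      · obtain ⟨h7, h8⟩ := ht h3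
        have h9 : m.val + o.val = c + 1 := by
          simp only [L2, Sum.elim_inl] at h4
          split_ifs at h4 <;> omega
        rw [if_neg (by omega)]
        omega
    · simp only [Xk, Sum.elim_inl] at h
      rw [if_neg (by omega)]
      omega
  · simp only [Lk, Sum.elim_inr]
    omega

theorem labs_ne {t j j' D : ℕ} (hjj : j' ≠ j) (hjD : j < D) (hjD' : j' < D)
    (hρ1 : 1 ≤ ρ) (hρ : ρ < c)
    (hcD : c ≤ D) (hβ : 2 * D ≤ β) (ht : t = 1 → ρ = 1 ∧ D = c) (x : II β c ρ)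
    (h : XXs t j x) : labs t j' x ≠ 0 := by
  unfold labs
  split_ifs with h1 h2
  · exact L1_ne (D := D) (by omega) hρ1 hρ (by omega) (fun h => (ht h).1) x h
  · exact LL_ne (by omega) hjD hρ1 hρ hcD hβ ht x h
  · exact Lk_ne (k := j' - 1) (by omega) (by omega) (by omega) hjD hρ1 hρ hcD hβ ht x h

theorem labs_le {t j D : ℕ} (hjD : j < D) (ht1 : t ≤ 1) (hρ : ρ < c) (hcD : c ≤ D)
    (hβ : 2 * D ≤ β) (x : II β c ρ) : labs t j x ≤ if j = 1 then β - t else β := by
  unfold labs
  by_cases h0 : j = 0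
  · rw [if_pos h0, if_neg (by omega)]
    rcases x with ⟨m, o⟩ | e
    · have := m.2
      simp only [L1, Sum.elim_inl]
      omega
    · simp only [L1, Sum.elim_inr]
      omega
  · by_cases h1 : j = 1
    · rw [if_neg h0, if_pos h1, if_pos h1]
      exact LL_le t ht1 hρ (by omega) x
    · rw [if_neg h0, if_neg h1, if_neg h1]
      rcases x with ⟨m, o⟩ | e
      · have := m.2
        simp only [Lk, Sum.elim_inl]
        split_ifs <;> omega
      · simp only [Lk, Sum.elim_inr]
        omega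

open Classical in
theorem labs_cls {t j : ℕ} (hρ : ρ < c) (hβ : 2 * c ≤ β) (v : ℕ) (hv : v ≠ 0) :
    (Finset.univ.filter fun x : II β c ρ => labs t j x = v).card ≤ c := by
  unfold labs
  by_cases h0 : j = 0
  · simp only [if_pos h0]
    exact L1_cls v hv
  · by_cases h1 : j = 1
    · simp only [if_neg h0, if_pos h1]
      exact LL_cls t hρ hβ v hv
    · simp only [if_neg h0, if_neg h1]
      exact Lk_cls hρ (j - 1) (by omega) v hv

open Classical in
theorem labs_zero {t j : ℕ} (hρ : ρ < c) (hβ : 2 * c ≤ β) :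
    (Finset.univ.filter fun x : II β c ρ => labs t j x = 0 ∧ ¬ XXs t j x).card ≤ c := by
  unfold labs XXs
  by_cases h0 : j = 0
  · simp only [if_pos h0]
    exact L1_zero
  · by_cases h1 : j = 1
    · simp only [if_neg h0, if_pos h1]
      exact LL_zero t hρ hβ
    · simp only [if_neg h0, if_neg h1]
      exact Lk_zero (j - 1) (by omega)

open Classical in
theorem XXs_card {t j : ℕ} (ht1 : t ≤ 1) (hρ1 : 1 ≤ ρ) (hρ : ρ < c) (hβ : 2 * c ≤ β) :
    (Finset.univ.filter fun x : II β c ρ => XXs t j x).card ≤ ρ + if j = 1 then t * c else 0 := by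
  unfold XXs
  by_cases h0 : j = 0
  · simp only [if_pos h0]
    refine (card_le _ ρ (Sum.elim (fun _ => 0) fun e => e.val) ?_ ?_).trans (Nat.le_add_right _ _)
    · rintro (⟨m, o⟩ | e) hx
      · simp only [X1, Sum.elim_inl] at hx
      · exact e.2
    · rintro (⟨m, o⟩ | e) (⟨m', o'⟩ | e') hx hx' h
      · simp only [X1, Sum.elim_inl] at hx
      · simp only [X1, Sum.elim_inl] at hx
      · simp only [X1, Sum.elim_inl] at hx'
      · simp only [Sum.elim_inr] at h
        rw [Fin.ext h]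
  · by_cases h1 : j = 1
    · simp only [if_neg h0, if_pos h1]
      have hA : (Finset.univ.filter fun x : II β c ρ => X2 x).card ≤ ρ := by
        refine card_le _ ρ (Sum.elim (fun p => p.1.val - 1) fun e => e.val) ?_ ?_
        · rintro (⟨m, o⟩ | e) hx
          · simp only [X2, Sum.elim_inl] at hx ⊢
            omega
          · exact e.2
        · rintro (⟨m, o⟩ | e) (⟨m', o'⟩ | e') hx hx' h
          · simp only [X2, Sum.elim_inl] at hx hx' h
            exact pair_ext (by omega) (by omega)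
          · simp only [X2, Sum.elim_inr] at hx'
          · simp only [X2, Sum.elim_inr] at hx
          · simp only [X2, Sum.elim_inr] at hx
      have hB : (Finset.univ.filter fun x : II β c ρ => t = 1 ∧ L2 x = c + 1).card ≤ t * c := by
        by_cases ht : t = 1
        · simp only [ht, true_and, one_mul]
          exact L2_cls hρ hβ (c + 1) (Nat.succ_ne_zero c)
        · simp [ht]
      refine le_trans ?_ (Nat.add_le_add hA hB)
      refine le_trans (Finset.card_le_card ?_) (Finset.card_union_le _ _)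
      intro x hx
      simp only [Finset.mem_filter, Finset.mem_univ, true_and, Finset.mem_union, XX] at hx ⊢
      exact hx
    · simp only [if_neg h0, if_neg h1]
      refine (card_le _ ρ (Sum.elim (fun p => p.2.val) fun e => e.val) ?_ ?_).trans
        (Nat.le_add_right _ _)
      · rintro (⟨m, o⟩ | e) hx
        · simp only [Xk, Sum.elim_inl] at hx ⊢
          exact hx.2
        · exact e.2
      · rintro (⟨m, o⟩ | e) (⟨m', o'⟩ | e') hx hx' h
        · simp only [Xk, Sum.elim_inl] at hx hx' h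
          exact pair_ext (by omega) h
        · simp only [Xk, Sum.elim_inr] at hx'
        · simp only [Xk, Sum.elim_inr] at hx
        · simp only [Xk, Sum.elim_inr] at hx

theorem sum_ite_one (D t : ℕ) (hD : 2 ≤ D) (x : ℕ) :
    (∑ j : Fin D, if j.val = 1 then x - t else x) + t = D * x + (t - (t ⊓ x)) := by
  obtain ⟨D', rfl⟩ : ∃ D', D = D' + 2 := ⟨D - 2, by omega⟩
  rw [Fin.sum_univ_succ, Fin.sum_univ_succ]
  have h1 : ∀ i : Fin D', (if (i.succ.succ : Fin (D' + 2)).val = 1 then x - t else x) = x := by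
    intro i
    rw [if_neg]
    simp
  rw [Finset.sum_congr rfl fun i _ => h1 i]
  have h2 : (if ((0 : Fin (D' + 2))).val = 1 then x - t else x) = x := if_neg (by simp)
  have h3 : (if ((0 : Fin (D' + 1)).succ : Fin (D' + 2)).val = 1 then x - t else x) = x - t :=
    if_pos (by simp)
  rw [h2, h3]
  simp only [Finset.sum_const, Finset.card_univ, Fintype.card_fin, smul_eq_mul]
  have h4 : (D' + 2) * x = D' * x + x + x := by ring
  rw [h4]
  rcases le_total t x with h | h
  · rw [min_eq_left h]; omega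
  · rw [min_eq_right h]; omega

theorem main (β c ρ D n b t ρ' : ℕ) (hb : b = β * c + ρ) (hn : n = D * β + ρ') (ht1 : t ≤ 1)
    (ht : t = 1 → ρ = 1 ∧ D = c) (hρ1 : 1 ≤ ρ) (hρ : ρ < c) (hcD : c ≤ D) (hβ : 2 * D ≤ β)
    (hρ' : 2 ≤ ρ' + t) (hDρ : D * ρ ≤ ρ' * c) :
    ∃ (sz : Fin (D + 1) → ℕ) (κ : ∀ g, Fin (b + c) → Fin (sz g + 1))
      (E : Fin D → Finset (Fin (b + c))),
      ∑ g, sz g = n ∧ (∀ g, 2 ≤ sz g) ∧ (∀ g v, v ≠ 0 → cnt (κ g) v ≤ c) ∧
      (∀ j, ∀ i ∈ E j, κ 0 i ≠ 0 ∧ ∀ j', j' ≠ j → κ (Fin.succ j') i ≠ 0) ∧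
      (∀ j, (Finset.univ.filter fun i => κ (Fin.succ j) i = 0 ∧ i ∉ E j).card ≤ c) ∧
      ∃ g₁ g₂, ∀ i i', κ g₁ i = κ g₁ i' → κ g₂ i = κ g₂ i' → i = i' := by
  classical
  have hD2 : 2 ≤ D := by omega
  have hβc : 2 * c ≤ β := by omega
  have hcard : Fintype.card (II β c ρ) = b + c := by
    simp only [Fintype.card_sum, Fintype.card_prod, Fintype.card_fin]
    rw [hb]
    ring
  let E : Fin D → Finset (II β c ρ) := fun j => Finset.univ.filter fun x => XXs t j.val x
  have hE : ∀ j x, x ∈ E j ↔ XXs t j.val x := fun j x => by simp [E]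
  let T : Finset (II β c ρ) := Finset.univ.biUnion E
  have hT : T.card ≤ (ρ' + t) * c := by
    refine Finset.card_biUnion_le.trans ?_
    refine (Finset.sum_le_sum fun j _ => XXs_card (j := j.val) ht1 hρ1 hρ hβc).trans ?_
    rw [Finset.sum_add_distrib]
    have h1 : (∑ j : Fin D, if j.val = 1 then t * c else 0) = t * c := by
      rw [Finset.sum_eq_single (⟨1, by omega⟩ : Fin D)]
      · simp
      · intro j _ hj
        rw [if_neg]
        intro h
        exact hj (Fin.ext h)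
      · simp
    rw [h1]
    simp only [Finset.sum_const, Finset.card_univ, Fintype.card_fin, smul_eq_mul]
    rw [add_mul]
    omega
  obtain ⟨f, hf1, hf2, hf3⟩ := exists_lab T c (ρ' + t) hT
  let sz : Fin (D + 1) → ℕ := Fin.cons (ρ' + t) fun j => if j.val = 1 then β - t else β
  let lab : Fin (D + 1) → II β c ρ → ℕ := Fin.cons f fun j => labs t j.val
  obtain ⟨κ, E', h1, h2, h3, h4⟩ := transfer b c D hcard sz lab E
    (by
      intro g x
      refine Fin.cases ?_ (fun j => ?_) g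
      · simpa [lab, sz] using hf1 x
      · simp only [lab, sz, Fin.cons_succ]
        exact labs_le j.2 ht1 hρ hcD hβ x)
    (by
      intro g
      refine Fin.cases ?_ (fun j => ?_) g
      · intro v hv
        simp only [lab, Fin.cons_zero]
        convert hf3 v hv
      · intro v hv
        simp only [lab, Fin.cons_succ]
        convert labs_cls hρ hβc v hv)
    (by
      intro j x hx
      refine ⟨?_, fun j' hj' => ?_⟩
      · simp only [lab, Fin.cons_zero]
        exact hf2 x (Finset.mem_biUnion.2 ⟨j, Finset.mem_univ _, hx⟩)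
      · simp only [lab, Fin.cons_succ]
        exact labs_ne (fun h => hj' (Fin.ext h)) j.2 j'.2 hρ1 hρ hcD hβ ht x ((hE j x).1 hx))
    (by
      intro j
      simp only [lab, Fin.cons_succ, hE]
      convert labs_zero hρ hβc)
    (by
      refine ⟨Fin.succ ⟨0, by omega⟩, Fin.succ ⟨1, by omega⟩, fun x x' k1 k2 => ?_⟩
      simp only [lab, Fin.cons_succ] at k1 k2
      exact LL_joint t (fun h => (ht h).1) hρ1 hρ hβc x x' (by simpa [labs] using k1)
        (by simpa [labs] using k2))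
  refine ⟨sz, κ, E', ?_, ?_, h1, h2, h3, h4⟩
  · rw [Fin.sum_univ_succ]
    simp only [sz, Fin.cons_zero, Fin.cons_succ]
    have h5 := sum_ite_one D t hD2 β
    rw [min_eq_left (by omega : t ≤ β)] at h5
    rw [hn]
    omega
  · intro g
    refine Fin.cases ?_ (fun j => ?_) g
    · simpa [sz] using hρ'
    · simp only [sz, Fin.cons_succ]
      split_ifs <;> omega

end asm

end CBaux

theorem x_CB : S_CB := by
  intro n b c D hc1 hcb hbn h1 h2 h3 h4
  have hb := Nat.div_add_mod b c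
  have hρ : b % c < c := Nat.mod_lt _ hc1
  have hceil : (b + c - 1) / c = b / c + if b % c = 0 then 0 else 1 := by
    split_ifs with h
    · rw [add_zero]
      apply le_antisymm
      · rw [← Nat.lt_succ_iff, Nat.div_lt_iff_lt_mul hc1]
        have : (b / c + 1) * c = c * (b / c) + c := by ring
        rw [Nat.succ_eq_add_one]
        omega
      · exact Nat.div_le_div_right (by omega)
    · apply le_antisymm
      · rw [← Nat.lt_succ_iff, Nat.div_lt_iff_lt_mul hc1]
        have : (b / c + 1 + 1) * c = c * (b / c) + c + c := by ring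
        rw [Nat.succ_eq_add_one]
        omega
      · rw [Nat.le_div_iff_mul_le hc1]
        have : (b / c + 1) * c = c * (b / c) + c := by ring
        omega
  have hD1 : 1 ≤ D := by
    by_contra h
    have : D = 0 := by omega
    subst this
    simp at h4
  have hcD : c ≤ D := by
    have h5 : n * c < n * (D + 1) := lt_of_lt_of_le h2 (Nat.mul_le_mul_right _ hbn)
    have := lt_of_mul_lt_mul_left h5 (Nat.zero_le n)
    omega
  rw [hceil] at h4
  generalize b / c = β at *
  generalize b % c = ρ at *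
  have hρ1 : 1 ≤ ρ := by
    by_contra h
    have h0 : ρ = 0 := by omega
    subst h0
    rw [if_pos rfl, add_zero] at h4
    have h5 : c * (D * β) ≤ c * n := by
      calc c * (D * β) = (c * β + 0) * D := by ring
        _ = b * D := by rw [hb]
        _ ≤ n * c := h1
        _ = c * n := Nat.mul_comm _ _
    have := Nat.le_of_mul_le_mul_left h5 hc1
    omega
  rw [if_neg (by omega)] at h4
  have h5 : c * (D * β) + D * ρ ≤ c * n := by
    calc c * (D * β) + D * ρ = (c * β + ρ) * D := by ring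
      _ = b * D := by rw [hb]
      _ ≤ n * c := h1
      _ = c * n := Nat.mul_comm _ _
  have h6 : D * β ≤ n := by
    refine Nat.le_of_mul_le_mul_left (le_trans (Nat.le_add_right _ _) h5) hc1
  obtain ⟨ρ', rfl⟩ : ∃ ρ', n = D * β + ρ' := ⟨n - D * β, by omega⟩
  have h7 : D * ρ ≤ ρ' * c := by
    have : c * (D * β + ρ') = c * (D * β) + ρ' * c := by ring
    omega
  have hβ : 2 * D ≤ β := by
    by_contra h
    have h8 : β + 1 ≤ 2 * D := by omega
    have h9 : c * (β + 1) ≤ D * (2 * D) := Nat.mul_le_mul hcD h8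
    have h10 : c * (β + 1) = c * β + c := by ring
    have h11 : D * (2 * D) = 2 * D * D := by ring
    omega
  have h8 : 1 ≤ ρ' := by
    by_contra h
    have h0 : ρ' = 0 := by omega
    rw [h0, zero_mul] at h7
    have : 1 * 1 ≤ D * ρ := Nat.mul_le_mul hD1 hρ1
    omega
  by_cases h9 : ρ' = 1
  · subst h9
    rw [one_mul] at h7
    have h10 : ρ = 1 := by
      by_contra h
      have h11 : 2 ≤ ρ := by omega
      have h12 : D * 2 ≤ D * ρ := Nat.mul_le_mul_left _ h11
      omega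
    subst h10
    exact CBaux.main β c 1 D _ b 1 1 (by rw [← hb]; ring) rfl le_rfl (fun _ => ⟨rfl, by omega⟩)
      le_rfl hρ hcD hβ le_rfl (by omega)
  · exact CBaux.main β c ρ D _ b 0 ρ' (by rw [← hb]; ring) rfl (Nat.zero_le 1)
      (fun h => absurd h (by norm_num)) hρ1 hρ hcD hβ (by omega) h7

end Pool.Agent.WarQ


end

section

/-!
# Independent double points in degree three: the systems for one block and for no block   (helper27)
-/

set_option autoImplicit false

namespace Pool.Agent.WarM.CubAH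

theorem chk20 : Chk2 0 3 0 := by
  refine ⟨fun i => Sum.elim (![![1, 0, 0], ![0, 1, 0], ![0, 0, 1]] i) Fin.elim0,
    Fin.elim0, ?_⟩
  intro F G h
  have e000 : 3 * F 0 (Sum.inl 0) = 0 := by
    refine Eq.trans ?_ (h 0 (Sum.inl 0) (Sum.inl 0))
    simp [Fin.sum_univ_three]
    try ring
  have e001 : F 0 (Sum.inl 1) = 0 := by
    refine Eq.trans ?_ (h 0 (Sum.inl 0) (Sum.inl 1))
    simp [Fin.sum_univ_three]
    try ring
  have e002 : F 0 (Sum.inl 2) = 0 := by
    refine Eq.trans ?_ (h 0 (Sum.inl 0) (Sum.inl 2))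
    simp [Fin.sum_univ_three]
    try ring
  have e011 : F 1 (Sum.inl 0) = 0 := by
    refine Eq.trans ?_ (h 0 (Sum.inl 1) (Sum.inl 1))
    simp [Fin.sum_univ_three]
    try ring
  have e022 : F 2 (Sum.inl 0) = 0 := by
    refine Eq.trans ?_ (h 0 (Sum.inl 2) (Sum.inl 2))
    simp [Fin.sum_univ_three]
    try ring
  have e111 : 3 * F 1 (Sum.inl 1) = 0 := by
    refine Eq.trans ?_ (h 1 (Sum.inl 1) (Sum.inl 1))
    simp [Fin.sum_univ_three]
    try ring
  have e112 : F 1 (Sum.inl 2) = 0 := by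
    refine Eq.trans ?_ (h 1 (Sum.inl 1) (Sum.inl 2))
    simp [Fin.sum_univ_three]
    try ring
  have e122 : F 2 (Sum.inl 1) = 0 := by
    refine Eq.trans ?_ (h 1 (Sum.inl 2) (Sum.inl 2))
    simp [Fin.sum_univ_three]
    try ring
  have e222 : 3 * F 2 (Sum.inl 2) = 0 := by
    refine Eq.trans ?_ (h 2 (Sum.inl 2) (Sum.inl 2))
    simp [Fin.sum_univ_three]
    try ring
  have zF00 : F 0 (Sum.inl 0) = 0 := by
    linear_combination (1 / 3) * e000
  have zF01 : F 0 (Sum.inl 1) = 0 := by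
    linear_combination e001
  have zF02 : F 0 (Sum.inl 2) = 0 := by
    linear_combination e002
  have zF10 : F 1 (Sum.inl 0) = 0 := by
    linear_combination e011
  have zF11 : F 1 (Sum.inl 1) = 0 := by
    linear_combination (1 / 3) * e111
  have zF12 : F 1 (Sum.inl 2) = 0 := by
    linear_combination e112
  have zF20 : F 2 (Sum.inl 0) = 0 := by
    linear_combination e022
  have zF21 : F 2 (Sum.inl 1) = 0 := by
    linear_combination e122
  have zF22 : F 2 (Sum.inl 2) = 0 := by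
    linear_combination (1 / 3) * e222
  clear e000 e001 e002 e011 e022 e111 e112 e122 e222
  refine ⟨fun j v => ?_, fun i u => ?_⟩
  · rcases v with v | v
    · fin_cases j <;> fin_cases v <;> assumption
    · exact v.elim0
  · exact i.elim0

theorem chk21 : Chk2 1 4 1 := by
  refine ⟨fun i => Sum.elim (![![1, 0, 0], ![0, 1, 0], ![0, 0, 1], ![1, 1, 1]] i) (![![0], ![0], ![0], ![1]] i),
    ![![1]], ?_⟩
  intro F G h
  have e000 : 3 * F 0 (Sum.inl 0) + 3 * F 3 (Sum.inl 0) = 0 := by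
    refine Eq.trans ?_ (h 0 (Sum.inl 0) (Sum.inl 0))
    simp [Fin.sum_univ_four]
    try ring
  have e111 : 3 * F 1 (Sum.inl 1) + 3 * F 3 (Sum.inl 1) = 0 := by
    refine Eq.trans ?_ (h 1 (Sum.inl 1) (Sum.inl 1))
    simp [Fin.sum_univ_four]
    try ring
  have e222 : 3 * F 2 (Sum.inl 2) + 3 * F 3 (Sum.inl 2) = 0 := by
    refine Eq.trans ?_ (h 2 (Sum.inl 2) (Sum.inl 2))
    simp [Fin.sum_univ_four]
    try ring
  have e001 : F 0 (Sum.inl 1) + 2 * F 3 (Sum.inl 0) + F 3 (Sum.inl 1) = 0 := by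
    refine Eq.trans ?_ (h 0 (Sum.inl 0) (Sum.inl 1))
    simp [Fin.sum_univ_four]
    try ring
  have e002 : F 0 (Sum.inl 2) + 2 * F 3 (Sum.inl 0) + F 3 (Sum.inl 2) = 0 := by
    refine Eq.trans ?_ (h 0 (Sum.inl 0) (Sum.inl 2))
    simp [Fin.sum_univ_four]
    try ring
  have e003 : F 0 (Sum.inr 0) + 2 * F 3 (Sum.inl 0) + F 3 (Sum.inr 0) = 0 := by
    refine Eq.trans ?_ (h 0 (Sum.inl 0) (Sum.inr 0))
    simp [Fin.sum_univ_four]
    try ring
  have e011 : F 1 (Sum.inl 0) + F 3 (Sum.inl 0) + 2 * F 3 (Sum.inl 1) = 0 := by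
    refine Eq.trans ?_ (h 0 (Sum.inl 1) (Sum.inl 1))
    simp [Fin.sum_univ_four]
    try ring
  have e012 : F 3 (Sum.inl 0) + F 3 (Sum.inl 1) + F 3 (Sum.inl 2) = 0 := by
    refine Eq.trans ?_ (h 0 (Sum.inl 1) (Sum.inl 2))
    simp [Fin.sum_univ_four]
    try ring
  have e013 : F 3 (Sum.inl 0) + F 3 (Sum.inl 1) + F 3 (Sum.inr 0) = 0 := by
    refine Eq.trans ?_ (h 0 (Sum.inl 1) (Sum.inr 0))
    simp [Fin.sum_univ_four]
    try ring
  have e022 : F 2 (Sum.inl 0) + F 3 (Sum.inl 0) + 2 * F 3 (Sum.inl 2) = 0 := by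
    refine Eq.trans ?_ (h 0 (Sum.inl 2) (Sum.inl 2))
    simp [Fin.sum_univ_four]
    try ring
  have e023 : F 3 (Sum.inl 0) + F 3 (Sum.inl 2) + F 3 (Sum.inr 0) = 0 := by
    refine Eq.trans ?_ (h 0 (Sum.inl 2) (Sum.inr 0))
    simp [Fin.sum_univ_four]
    try ring
  have e033 : F 3 (Sum.inl 0) + 2 * F 3 (Sum.inr 0) + G 0 0 = 0 := by
    refine Eq.trans ?_ (h 0 (Sum.inr 0) (Sum.inr 0))
    simp [Fin.sum_univ_four]
    try ring
  have e112 : F 1 (Sum.inl 2) + 2 * F 3 (Sum.inl 1) + F 3 (Sum.inl 2) = 0 := by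
    refine Eq.trans ?_ (h 1 (Sum.inl 1) (Sum.inl 2))
    simp [Fin.sum_univ_four]
    try ring
  have e113 : F 1 (Sum.inr 0) + 2 * F 3 (Sum.inl 1) + F 3 (Sum.inr 0) = 0 := by
    refine Eq.trans ?_ (h 1 (Sum.inl 1) (Sum.inr 0))
    simp [Fin.sum_univ_four]
    try ring
  have e122 : F 2 (Sum.inl 1) + F 3 (Sum.inl 1) + 2 * F 3 (Sum.inl 2) = 0 := by
    refine Eq.trans ?_ (h 1 (Sum.inl 2) (Sum.inl 2))
    simp [Fin.sum_univ_four]
    try ring
  have e123 : F 3 (Sum.inl 1) + F 3 (Sum.inl 2) + F 3 (Sum.inr 0) = 0 := by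
    refine Eq.trans ?_ (h 1 (Sum.inl 2) (Sum.inr 0))
    simp [Fin.sum_univ_four]
    try ring
  have e133 : F 3 (Sum.inl 1) + 2 * F 3 (Sum.inr 0) + G 0 1 = 0 := by
    refine Eq.trans ?_ (h 1 (Sum.inr 0) (Sum.inr 0))
    simp [Fin.sum_univ_four]
    try ring
  have e223 : F 2 (Sum.inr 0) + 2 * F 3 (Sum.inl 2) + F 3 (Sum.inr 0) = 0 := by
    refine Eq.trans ?_ (h 2 (Sum.inl 2) (Sum.inr 0))
    simp [Fin.sum_univ_four]
    try ring
  have e233 : F 3 (Sum.inl 2) + 2 * F 3 (Sum.inr 0) + G 0 2 = 0 := by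
    refine Eq.trans ?_ (h 2 (Sum.inr 0) (Sum.inr 0))
    simp [Fin.sum_univ_four]
    try ring
  have zF00 : F 0 (Sum.inl 0) = 0 := by
    linear_combination (1 / 3) * e000 - (1 / 3) * e012 - (1 / 3) * e013 - (1 / 3) * e023 + (2 / 3) * e123
  have zF01 : F 0 (Sum.inl 1) = 0 := by
    linear_combination e001 - e012 - e013 + e123
  have zF02 : F 0 (Sum.inl 2) = 0 := by
    linear_combination e002 - e012 - e023 + e123
  have zF03 : F 0 (Sum.inr 0) = 0 := by
    linear_combination e003 - e013 - e023 + e123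
  have zF10 : F 1 (Sum.inl 0) = 0 := by
    linear_combination e011 - e012 - e013 + e023
  have zF11 : F 1 (Sum.inl 1) = 0 := by
    linear_combination (1 / 3) * e111 - (1 / 3) * e012 - (1 / 3) * e013 + (2 / 3) * e023 - (1 / 3) * e123
  have zF12 : F 1 (Sum.inl 2) = 0 := by
    linear_combination -e012 + e023 + e112 - e123
  have zF13 : F 1 (Sum.inr 0) = 0 := by
    linear_combination -e013 + e023 + e113 - e123
  have zF20 : F 2 (Sum.inl 0) = 0 := by
    linear_combination -e012 + e013 + e022 - e023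
  have zF21 : F 2 (Sum.inl 1) = 0 := by
    linear_combination -e012 + e013 + e122 - e123
  have zF22 : F 2 (Sum.inl 2) = 0 := by
    linear_combination (1 / 3) * e222 - (1 / 3) * e012 + (2 / 3) * e013 - (1 / 3) * e023 - (1 / 3) * e123
  have zF23 : F 2 (Sum.inr 0) = 0 := by
    linear_combination e013 - e023 - e123 + e223
  have zF30 : F 3 (Sum.inl 0) = 0 := by
    linear_combination (1 / 3) * e012 + (1 / 3) * e013 + (1 / 3) * e023 - (2 / 3) * e123
  have zF31 : F 3 (Sum.inl 1) = 0 := by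
    linear_combination (1 / 3) * e012 + (1 / 3) * e013 - (2 / 3) * e023 + (1 / 3) * e123
  have zF32 : F 3 (Sum.inl 2) = 0 := by
    linear_combination (1 / 3) * e012 - (2 / 3) * e013 + (1 / 3) * e023 + (1 / 3) * e123
  have zF33 : F 3 (Sum.inr 0) = 0 := by
    linear_combination -(2 / 3) * e012 + (1 / 3) * e013 + (1 / 3) * e023 + (1 / 3) * e123
  have zG00 : G 0 0 = 0 := by
    linear_combination e012 - e013 - e023 + e033
  have zG01 : G 0 1 = 0 := by
    linear_combination e012 - e013 - e123 + e133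
  have zG02 : G 0 2 = 0 := by
    linear_combination e012 - e023 - e123 + e233
  clear e000 e111 e222 e001 e002 e003 e011 e012 e013 e022 e023 e033 e112 e113 e122 e123 e133 e223 e233
  refine ⟨fun j v => ?_, fun i u => ?_⟩
  · rcases v with v | v
    · fin_cases j <;> fin_cases v <;> assumption
    · fin_cases j <;> fin_cases v <;> assumption
  · fin_cases i <;> fin_cases u <;> assumption

theorem chk22 : Chk2 2 5 1 := by
  refine ⟨fun i => Sum.elim (![![1, 0, 0], ![0, 1, 0], ![0, 0, 1], ![1, 1, 0], ![0, -1, 1]] i) (![![0, 0], ![0, 0], ![0, 0], ![0, -1], ![1, 1]] i),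
    ![![1, 0]], ?_⟩
  intro F G h
  have e023 : F 4 (Sum.inl 0) = 0 := by
    refine Eq.trans ?_ (h 0 (Sum.inl 2) (Sum.inr 0))
    simp [Fin.sum_univ_five]
    try ring
  have e000 : 3 * F 0 (Sum.inl 0) + 3 * F 3 (Sum.inl 0) = 0 := by
    refine Eq.trans ?_ (h 0 (Sum.inl 0) (Sum.inl 0))
    simp [Fin.sum_univ_five]
    try ring
  have e002 : F 0 (Sum.inl 2) + F 3 (Sum.inl 2) = 0 := by
    refine Eq.trans ?_ (h 0 (Sum.inl 0) (Sum.inl 2))
    simp [Fin.sum_univ_five]
    try ring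
  have e003 : F 0 (Sum.inr 0) + F 3 (Sum.inr 0) = 0 := by
    refine Eq.trans ?_ (h 0 (Sum.inl 0) (Sum.inr 0))
    simp [Fin.sum_univ_five]
    try ring
  have e012 : F 3 (Sum.inl 2) - F 4 (Sum.inl 0) = 0 := by
    refine Eq.trans ?_ (h 0 (Sum.inl 1) (Sum.inl 2))
    simp [Fin.sum_univ_five]
    try ring
  have e013 : F 3 (Sum.inr 0) - F 4 (Sum.inl 0) = 0 := by
    refine Eq.trans ?_ (h 0 (Sum.inl 1) (Sum.inr 0))
    simp [Fin.sum_univ_five]
    try ring
  have e022 : F 2 (Sum.inl 0) + F 4 (Sum.inl 0) = 0 := by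
    refine Eq.trans ?_ (h 0 (Sum.inl 2) (Sum.inl 2))
    simp [Fin.sum_univ_five]
    try ring
  have e033 : F 4 (Sum.inl 0) + G 0 0 = 0 := by
    refine Eq.trans ?_ (h 0 (Sum.inr 0) (Sum.inr 0))
    simp [Fin.sum_univ_five]
    try ring
  have e222 : 3 * F 2 (Sum.inl 2) + 3 * F 4 (Sum.inl 2) = 0 := by
    refine Eq.trans ?_ (h 2 (Sum.inl 2) (Sum.inl 2))
    simp [Fin.sum_univ_five]
    try ring
  have e001 : F 0 (Sum.inl 1) + 2 * F 3 (Sum.inl 0) + F 3 (Sum.inl 1) = 0 := by
    refine Eq.trans ?_ (h 0 (Sum.inl 0) (Sum.inl 1))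
    simp [Fin.sum_univ_five]
    try ring
  have e004 : F 0 (Sum.inr 1) - 2 * F 3 (Sum.inl 0) + F 3 (Sum.inr 1) = 0 := by
    refine Eq.trans ?_ (h 0 (Sum.inl 0) (Sum.inr 1))
    simp [Fin.sum_univ_five]
    try ring
  have e044 : F 3 (Sum.inl 0) - 2 * F 3 (Sum.inr 1) + F 4 (Sum.inl 0) = 0 := by
    refine Eq.trans ?_ (h 0 (Sum.inr 1) (Sum.inr 1))
    simp [Fin.sum_univ_five]
    try ring
  have e111 : 3 * F 1 (Sum.inl 1) + 3 * F 3 (Sum.inl 1) + 3 * F 4 (Sum.inl 1) = 0 := by
    refine Eq.trans ?_ (h 1 (Sum.inl 1) (Sum.inl 1))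
    simp [Fin.sum_univ_five]
    try ring
  have e122 : F 2 (Sum.inl 1) + F 4 (Sum.inl 1) - 2 * F 4 (Sum.inl 2) = 0 := by
    refine Eq.trans ?_ (h 1 (Sum.inl 2) (Sum.inl 2))
    simp [Fin.sum_univ_five]
    try ring
  have e123 : F 4 (Sum.inl 1) - F 4 (Sum.inl 2) - F 4 (Sum.inr 0) = 0 := by
    refine Eq.trans ?_ (h 1 (Sum.inl 2) (Sum.inr 0))
    simp [Fin.sum_univ_five]
    try ring
  have e133 : F 4 (Sum.inl 1) - 2 * F 4 (Sum.inr 0) + G 0 1 = 0 := by
    refine Eq.trans ?_ (h 1 (Sum.inr 0) (Sum.inr 0))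
    simp [Fin.sum_univ_five]
    try ring
  have e223 : F 2 (Sum.inr 0) + 2 * F 4 (Sum.inl 2) + F 4 (Sum.inr 0) = 0 := by
    refine Eq.trans ?_ (h 2 (Sum.inl 2) (Sum.inr 0))
    simp [Fin.sum_univ_five]
    try ring
  have e224 : F 2 (Sum.inr 1) + 2 * F 4 (Sum.inl 2) + F 4 (Sum.inr 1) = 0 := by
    refine Eq.trans ?_ (h 2 (Sum.inl 2) (Sum.inr 1))
    simp [Fin.sum_univ_five]
    try ring
  have e233 : F 4 (Sum.inl 2) + 2 * F 4 (Sum.inr 0) + G 0 2 = 0 := by
    refine Eq.trans ?_ (h 2 (Sum.inr 0) (Sum.inr 0))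
    simp [Fin.sum_univ_five]
    try ring
  have e234 : F 4 (Sum.inl 2) + F 4 (Sum.inr 0) + F 4 (Sum.inr 1) = 0 := by
    refine Eq.trans ?_ (h 2 (Sum.inr 0) (Sum.inr 1))
    simp [Fin.sum_univ_five]
    try ring
  have e244 : F 3 (Sum.inl 2) + F 4 (Sum.inl 2) + 2 * F 4 (Sum.inr 1) = 0 := by
    refine Eq.trans ?_ (h 2 (Sum.inr 1) (Sum.inr 1))
    simp [Fin.sum_univ_five]
    try ring
  have e011 : F 1 (Sum.inl 0) + F 3 (Sum.inl 0) + 2 * F 3 (Sum.inl 1) + F 4 (Sum.inl 0) = 0 := by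
    refine Eq.trans ?_ (h 0 (Sum.inl 1) (Sum.inl 1))
    simp [Fin.sum_univ_five]
    try ring
  have e014 : -F 3 (Sum.inl 0) - F 3 (Sum.inl 1) + F 3 (Sum.inr 1) - F 4 (Sum.inl 0) = 0 := by
    refine Eq.trans ?_ (h 0 (Sum.inl 1) (Sum.inr 1))
    simp [Fin.sum_univ_five]
    try ring
  have e112 : F 1 (Sum.inl 2) + F 3 (Sum.inl 2) - 2 * F 4 (Sum.inl 1) + F 4 (Sum.inl 2) = 0 := by
    refine Eq.trans ?_ (h 1 (Sum.inl 1) (Sum.inl 2))
    simp [Fin.sum_univ_five]
    try ring
  have e113 : F 1 (Sum.inr 0) + F 3 (Sum.inr 0) - 2 * F 4 (Sum.inl 1) + F 4 (Sum.inr 0) = 0 := by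
    refine Eq.trans ?_ (h 1 (Sum.inl 1) (Sum.inr 0))
    simp [Fin.sum_univ_five]
    try ring
  have e134 : -F 3 (Sum.inr 0) + F 4 (Sum.inl 1) - F 4 (Sum.inr 0) - F 4 (Sum.inr 1) = 0 := by
    refine Eq.trans ?_ (h 1 (Sum.inr 0) (Sum.inr 1))
    simp [Fin.sum_univ_five]
    try ring
  have e144 : F 3 (Sum.inl 1) - 2 * F 3 (Sum.inr 1) + F 4 (Sum.inl 1) - 2 * F 4 (Sum.inr 1) = 0 := by
    refine Eq.trans ?_ (h 1 (Sum.inr 1) (Sum.inr 1))
    simp [Fin.sum_univ_five]
    try ring
  have e114 : F 1 (Sum.inr 1) - 2 * F 3 (Sum.inl 1) + F 3 (Sum.inr 1) - 2 * F 4 (Sum.inl 1) + F 4 (Sum.inr 1) = 0 := by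
    refine Eq.trans ?_ (h 1 (Sum.inl 1) (Sum.inr 1))
    simp [Fin.sum_univ_five]
    try ring
  have zF00 : F 0 (Sum.inl 0) = 0 := by
    linear_combination -(1 / 3) * e023 + (1 / 3) * e000 - (2 / 3) * e012 - (2 / 3) * e013 - (1 / 3) * e044 - (2 / 3) * e234 + (2 / 3) * e244 + (2 / 3) * e014 - (2 / 3) * e134 + (2 / 3) * e144
  have zF01 : F 0 (Sum.inl 1) = 0 := by
    linear_combination -e012 - e013 + e001 - e234 + e244 + 2 * e014 - e134 + e144
  have zF02 : F 0 (Sum.inl 2) = 0 := by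
    linear_combination -e023 + e002 - e012
  have zF03 : F 0 (Sum.inr 0) = 0 := by
    linear_combination -e023 + e003 - e013
  have zF04 : F 0 (Sum.inr 1) = 0 := by
    linear_combination e012 + e013 + e004 + e044 + e234 - e244 - e014 + e134 - e144
  have zF10 : F 1 (Sum.inl 0) = 0 := by
    linear_combination e044 + e011 + 2 * e014
  have zF11 : F 1 (Sum.inl 1) = 0 := by
    linear_combination (2 / 3) * e044 + (1 / 3) * e111 - (2 / 3) * e123 - (2 / 3) * e234 + (2 / 3) * e014 - (1 / 3) * e144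
  have zF12 : F 1 (Sum.inl 2) = 0 := by
    linear_combination 2 * e123 + 2 * e234 - e244 + e112
  have zF13 : F 1 (Sum.inr 0) = 0 := by
    linear_combination e123 + e234 + e113 + e134
  have zF14 : F 1 (Sum.inr 1) = 0 := by
    linear_combination -e044 + e123 + e234 - e014 + e144 + e114
  have zF20 : F 2 (Sum.inl 0) = 0 := by
    linear_combination -e023 + e022
  have zF21 : F 2 (Sum.inl 1) = 0 := by
    linear_combination -e012 + e013 + e122 - 2 * e123 - e234 + e244 + e134
  have zF22 : F 2 (Sum.inl 2) = 0 := by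
    linear_combination -(1 / 3) * e023 + (1 / 3) * e012 - (2 / 3) * e013 + (1 / 3) * e222 + (2 / 3) * e123 - (1 / 3) * e244 - (2 / 3) * e134
  have zF23 : F 2 (Sum.inr 0) = 0 := by
    linear_combination -e023 - e013 + e123 + e223 - e234 - e134
  have zF24 : F 2 (Sum.inr 1) = 0 := by
    linear_combination e012 - e013 + e123 + e224 - e244 - e134
  have zF30 : F 3 (Sum.inl 0) = 0 := by
    linear_combination (1 / 3) * e023 + (2 / 3) * e012 + (2 / 3) * e013 + (1 / 3) * e044 + (2 / 3) * e234 - (2 / 3) * e244 - (2 / 3) * e014 + (2 / 3) * e134 - (2 / 3) * e144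
  have zF31 : F 3 (Sum.inl 1) = 0 := by
    linear_combination -(2 / 3) * e023 - (1 / 3) * e012 - (1 / 3) * e013 - (2 / 3) * e044 - (1 / 3) * e234 + (1 / 3) * e244 - (2 / 3) * e014 - (1 / 3) * e134 + (1 / 3) * e144
  have zF32 : F 3 (Sum.inl 2) = 0 := by
    linear_combination e023 + e012
  have zF33 : F 3 (Sum.inr 0) = 0 := by
    linear_combination e023 + e013
  have zF34 : F 3 (Sum.inr 1) = 0 := by
    linear_combination (2 / 3) * e023 + (1 / 3) * e012 + (1 / 3) * e013 - (1 / 3) * e044 + (1 / 3) * e234 - (1 / 3) * e244 - (1 / 3) * e014 + (1 / 3) * e134 - (1 / 3) * e144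
  have zF40 : F 4 (Sum.inl 0) = 0 := by
    linear_combination e023
  have zF41 : F 4 (Sum.inl 1) = 0 := by
    linear_combination (2 / 3) * e023 + (1 / 3) * e012 + (1 / 3) * e013 + (2 / 3) * e123 + e234 - (1 / 3) * e244 + (1 / 3) * e134
  have zF42 : F 4 (Sum.inl 2) = 0 := by
    linear_combination (1 / 3) * e023 - (1 / 3) * e012 + (2 / 3) * e013 - (2 / 3) * e123 + (1 / 3) * e244 + (2 / 3) * e134
  have zF43 : F 4 (Sum.inr 0) = 0 := by
    linear_combination (1 / 3) * e023 + (2 / 3) * e012 - (1 / 3) * e013 + (1 / 3) * e123 + e234 - (2 / 3) * e244 - (1 / 3) * e134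
  have zF44 : F 4 (Sum.inr 1) = 0 := by
    linear_combination -(2 / 3) * e023 - (1 / 3) * e012 - (1 / 3) * e013 + (1 / 3) * e123 + (1 / 3) * e244 - (1 / 3) * e134
  have zG00 : G 0 0 = 0 := by
    linear_combination -e023 + e033
  have zG01 : G 0 1 = 0 := by
    linear_combination e012 - e013 + e133 + e234 - e244 - e134
  have zG02 : G 0 2 = 0 := by
    linear_combination -e023 - e012 + e233 - 2 * e234 + e244
  clear e023 e000 e002 e003 e012 e013 e022 e033 e222 e001 e004 e044 e111 e122 e123 e133 e223 e224 e233 e234 e244 e011 e014 e112 e113 e134 e144 e114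
  refine ⟨fun j v => ?_, fun i u => ?_⟩
  · rcases v with v | v
    · fin_cases j <;> fin_cases v <;> assumption
    · fin_cases j <;> fin_cases v <;> assumption
  · fin_cases i <;> fin_cases u <;> assumption

theorem chk10 : Chk1 0 0 := ⟨Fin.elim0, fun _ _ i => i.elim0⟩

theorem chk11 : Chk1 1 1 := by
  refine ⟨![![1]], fun H h i l => ?_⟩
  have h1 := h 0 0 0
  simp at h1
  fin_cases i
  fin_cases l
  change H 0 0 = 0
  linear_combination h1 / 3

theorem chk12 : Chk1 2 1 := by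
  refine ⟨![![1, 0]], fun H h i l => ?_⟩
  have h1 := h 0 0 0
  have h2 := h 1 0 0
  simp at h1 h2
  fin_cases i
  fin_cases l
  · change H 0 0 = 0
    linear_combination h1 / 3
  · exact h2

end Pool.Agent.WarM.CubAH


end

section

/-!
# Independent double points in degree three: the system for two blocks, `e = 0`   (helper27)
-/

set_option autoImplicit false

namespace Pool.Agent.WarM.CubAH

theorem chk30 : Chk3 0 3 := by
  refine ⟨![![-1, 1, 0], ![0, -1, 1], ![1, 0, 1]],
    ![![1, 0, -1], ![0, 1, -1], ![1, -1, 0]],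
    fun i => Sum.elim (![![1, 0, 0], ![0, 1, 0], ![0, 0, 1]] i) Fin.elim0,
    fun i => Sum.elim (![![1, 0, 0], ![0, 1, 0], ![0, 0, 1]] i) Fin.elim0, ?_⟩
  intro A B C D E h
  obtain ⟨h1, h2, h3⟩ := h
  have f000 : -2 * A 0 0 + 2 * A 2 0 + B 0 0 + B 2 0 + D 0 0 = 0 := by
    refine Eq.trans ?_ (h1 0 0 0)
    simp [Fin.sum_univ_three]
    try ring
  have f001 : -2 * A 2 0 + B 0 1 + B 2 1 + D 0 1 = 0 := by
    refine Eq.trans ?_ (h1 0 0 1)
    simp [Fin.sum_univ_three]
    try ring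
  have f002 : 2 * A 0 0 + B 0 2 + B 2 2 + D 0 2 = 0 := by
    refine Eq.trans ?_ (h1 0 0 2)
    simp [Fin.sum_univ_three]
    try ring
  have f010 : A 0 0 - A 0 1 + A 2 1 - B 0 0 = 0 := by
    refine Eq.trans ?_ (h1 0 1 0)
    simp [Fin.sum_univ_three]
    try ring
  have f011 : -A 1 0 - A 2 1 - B 0 1 = 0 := by
    refine Eq.trans ?_ (h1 0 1 1)
    simp [Fin.sum_univ_three]
    try ring
  have f012 : -A 0 0 + A 0 1 + A 1 0 - B 0 2 = 0 := by
    refine Eq.trans ?_ (h1 0 1 2)
    simp [Fin.sum_univ_three]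
    try ring
  have f020 : -A 0 2 + A 2 0 + A 2 2 + B 2 0 = 0 := by
    refine Eq.trans ?_ (h1 0 2 0)
    simp [Fin.sum_univ_three]
    try ring
  have f021 : A 1 0 - A 2 0 - A 2 2 + B 2 1 = 0 := by
    refine Eq.trans ?_ (h1 0 2 1)
    simp [Fin.sum_univ_three]
    try ring
  have f022 : A 0 2 - A 1 0 + B 2 2 = 0 := by
    refine Eq.trans ?_ (h1 0 2 2)
    simp [Fin.sum_univ_three]
    try ring
  have f110 : 2 * A 0 1 + B 0 0 + B 1 0 + D 1 0 = 0 := by
    refine Eq.trans ?_ (h1 1 1 0)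
    simp [Fin.sum_univ_three]
    try ring
  have f111 : -2 * A 1 1 + B 0 1 + B 1 1 + D 1 1 = 0 := by
    refine Eq.trans ?_ (h1 1 1 1)
    simp [Fin.sum_univ_three]
    try ring
  have f112 : -2 * A 0 1 + 2 * A 1 1 + B 0 2 + B 1 2 + D 1 2 = 0 := by
    refine Eq.trans ?_ (h1 1 1 2)
    simp [Fin.sum_univ_three]
    try ring
  have f120 : A 0 2 + A 2 1 - B 1 0 = 0 := by
    refine Eq.trans ?_ (h1 1 2 0)
    simp [Fin.sum_univ_three]
    try ring
  have f121 : A 1 1 - A 1 2 - A 2 1 - B 1 1 = 0 := by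
    refine Eq.trans ?_ (h1 1 2 1)
    simp [Fin.sum_univ_three]
    try ring
  have f122 : -A 0 2 - A 1 1 + A 1 2 - B 1 2 = 0 := by
    refine Eq.trans ?_ (h1 1 2 2)
    simp [Fin.sum_univ_three]
    try ring
  have f220 : 2 * A 2 2 + B 1 0 + B 2 0 + D 2 0 = 0 := by
    refine Eq.trans ?_ (h1 2 2 0)
    simp [Fin.sum_univ_three]
    try ring
  have f221 : 2 * A 1 2 - 2 * A 2 2 + B 1 1 + B 2 1 + D 2 1 = 0 := by
    refine Eq.trans ?_ (h1 2 2 1)
    simp [Fin.sum_univ_three]
    try ring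
  have f222 : -2 * A 1 2 + B 1 2 + B 2 2 + D 2 2 = 0 := by
    refine Eq.trans ?_ (h1 2 2 2)
    simp [Fin.sum_univ_three]
    try ring
  have g000 : A 0 0 + A 2 0 - 2 * B 0 0 + 2 * B 2 0 + E 0 0 = 0 := by
    refine Eq.trans ?_ (h2 0 0 0)
    simp [Fin.sum_univ_three]
    try ring
  have g001 : -A 2 0 - B 0 1 - B 2 0 + B 2 1 = 0 := by
    refine Eq.trans ?_ (h2 0 0 1)
    simp [Fin.sum_univ_three]
    try ring
  have g002 : -A 0 0 + B 0 0 - B 0 2 + B 2 2 = 0 := by
    refine Eq.trans ?_ (h2 0 0 2)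
    simp [Fin.sum_univ_three]
    try ring
  have g011 : A 1 0 + A 2 0 - 2 * B 2 1 + E 1 0 = 0 := by
    refine Eq.trans ?_ (h2 0 1 1)
    simp [Fin.sum_univ_three]
    try ring
  have g012 : -A 1 0 + B 0 1 - B 2 2 = 0 := by
    refine Eq.trans ?_ (h2 0 1 2)
    simp [Fin.sum_univ_three]
    try ring
  have g022 : A 0 0 + A 1 0 + 2 * B 0 2 + E 2 0 = 0 := by
    refine Eq.trans ?_ (h2 0 2 2)
    simp [Fin.sum_univ_three]
    try ring
  have g100 : A 0 1 + A 2 1 + 2 * B 0 0 + E 0 1 = 0 := by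
    refine Eq.trans ?_ (h2 1 0 0)
    simp [Fin.sum_univ_three]
    try ring
  have g101 : -A 2 1 + B 0 1 - B 1 0 = 0 := by
    refine Eq.trans ?_ (h2 1 0 1)
    simp [Fin.sum_univ_three]
    try ring
  have g102 : -A 0 1 - B 0 0 + B 0 2 + B 1 0 = 0 := by
    refine Eq.trans ?_ (h2 1 0 2)
    simp [Fin.sum_univ_three]
    try ring
  have g111 : A 1 1 + A 2 1 - 2 * B 1 1 + E 1 1 = 0 := by
    refine Eq.trans ?_ (h2 1 1 1)
    simp [Fin.sum_univ_three]
    try ring
  have g112 : -A 1 1 - B 0 1 + B 1 1 - B 1 2 = 0 := by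
    refine Eq.trans ?_ (h2 1 1 2)
    simp [Fin.sum_univ_three]
    try ring
  have g122 : A 0 1 + A 1 1 - 2 * B 0 2 + 2 * B 1 2 + E 2 1 = 0 := by
    refine Eq.trans ?_ (h2 1 2 2)
    simp [Fin.sum_univ_three]
    try ring
  have g200 : A 0 2 + A 2 2 + 2 * B 2 0 + E 0 2 = 0 := by
    refine Eq.trans ?_ (h2 2 0 0)
    simp [Fin.sum_univ_three]
    try ring
  have g201 : -A 2 2 + B 1 0 - B 2 0 + B 2 1 = 0 := by
    refine Eq.trans ?_ (h2 2 0 1)
    simp [Fin.sum_univ_three]
    try ring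
  have g202 : -A 0 2 - B 1 0 + B 2 2 = 0 := by
    refine Eq.trans ?_ (h2 2 0 2)
    simp [Fin.sum_univ_three]
    try ring
  have g211 : A 1 2 + A 2 2 + 2 * B 1 1 - 2 * B 2 1 + E 1 2 = 0 := by
    refine Eq.trans ?_ (h2 2 1 1)
    simp [Fin.sum_univ_three]
    try ring
  have g212 : -A 1 2 - B 1 1 + B 1 2 - B 2 2 = 0 := by
    refine Eq.trans ?_ (h2 2 1 2)
    simp [Fin.sum_univ_three]
    try ring
  have g222 : A 0 2 + A 1 2 - 2 * B 1 2 + E 2 2 = 0 := by
    refine Eq.trans ?_ (h2 2 2 2)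
    simp [Fin.sum_univ_three]
    try ring
  have zA00 : A 0 0 = 0 := by
    linear_combination (1 / 3) * f010 - (1 / 4) * f011 - (1 / 3) * f012 + (1 / 4) * f022 - (1 / 2) * f120 - (1 / 3) * g002 - (1 / 3) * g012 + (1 / 12) * g101 - (2 / 3) * g102 - (1 / 4) * g202
  have zA01 : A 0 1 = 0 := by
    linear_combination -(1 / 3) * f010 - (1 / 4) * f011 + (1 / 3) * f012 + (1 / 2) * f022 - (1 / 4) * f120 - (2 / 3) * g002 + (1 / 12) * g012 - (1 / 3) * g101 - (1 / 3) * g102 + (1 / 4) * g202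
  have zA02 : A 0 2 = 0 := by
    linear_combination (1 / 4) * f022 + (1 / 4) * f120 - (1 / 4) * g012 + (1 / 4) * g101 - (1 / 2) * g202
  have zA10 : A 1 0 = 0 := by
    linear_combination -(1 / 4) * f011 - (1 / 4) * f022 - (1 / 2) * g012 + (1 / 4) * g101 - (1 / 4) * g202
  have zA11 : A 1 1 = 0 := by
    linear_combination (1 / 4) * f011 - (1 / 2) * f022 + (1 / 4) * f120 + (1 / 3) * f121 - (1 / 3) * f122 + (1 / 4) * g012 - (1 / 3) * g101 - (1 / 3) * g112 + (1 / 12) * g202 - (2 / 3) * g212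
  have zA12 : A 1 2 = 0 := by
    linear_combination (1 / 2) * f011 - (1 / 4) * f022 + (1 / 4) * f120 - (1 / 3) * f121 + (1 / 3) * f122 - (1 / 4) * g012 + (1 / 12) * g101 - (2 / 3) * g112 - (1 / 3) * g202 - (1 / 3) * g212
  have zA20 : A 2 0 = 0 := by
    linear_combination (1 / 4) * f011 + (1 / 3) * f020 - (1 / 3) * f021 - (1 / 4) * f022 + (1 / 2) * f120 - (1 / 3) * g001 - (1 / 3) * g012 + (1 / 4) * g101 + (2 / 3) * g201 - (1 / 12) * g202
  have zA21 : A 2 1 = 0 := by
    linear_combination -(1 / 4) * f011 + (1 / 4) * f120 + (1 / 4) * g012 - (1 / 2) * g101 + (1 / 4) * g202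
  have zA22 : A 2 2 = 0 := by
    linear_combination -(1 / 2) * f011 + (1 / 3) * f020 - (1 / 3) * f021 + (1 / 4) * f022 - (1 / 4) * f120 + (2 / 3) * g001 - (1 / 12) * g012 + (1 / 4) * g101 - (1 / 3) * g201 - (1 / 3) * g202
  have zB00 : B 0 0 = 0 := by
    linear_combination -(1 / 3) * f010 - (1 / 4) * f011 - (2 / 3) * f012 - (1 / 4) * f022 + (1 / 3) * g002 - (1 / 6) * g012 - (1 / 12) * g101 - (1 / 3) * g102 - (1 / 4) * g202
  have zB01 : B 0 1 = 0 := by
    linear_combination -(1 / 2) * f011 + (1 / 4) * f022 - (1 / 4) * f120 + (1 / 4) * g012 + (1 / 4) * g101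
  have zB02 : B 0 2 = 0 := by
    linear_combination -(2 / 3) * f010 - (1 / 4) * f011 - (1 / 3) * f012 + (1 / 4) * f120 - (1 / 3) * g002 - (1 / 12) * g012 - (1 / 6) * g101 + (1 / 3) * g102 + (1 / 4) * g202
  have zB10 : B 1 0 = 0 := by
    linear_combination -(1 / 4) * f011 + (1 / 4) * f022 - (1 / 2) * f120 - (1 / 4) * g101 - (1 / 4) * g202
  have zB11 : B 1 1 = 0 := by
    linear_combination -(1 / 4) * f022 - (1 / 4) * f120 - (1 / 3) * f121 - (2 / 3) * f122 + (1 / 4) * g012 + (1 / 12) * g101 + (1 / 3) * g112 + (1 / 6) * g202 - (1 / 3) * g212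
  have zB12 : B 1 2 = 0 := by
    linear_combination (1 / 4) * f011 - (1 / 4) * f120 - (2 / 3) * f121 - (1 / 3) * f122 - (1 / 4) * g012 + (1 / 6) * g101 - (1 / 3) * g112 + (1 / 12) * g202 + (1 / 3) * g212
  have zB20 : B 2 0 = 0 := by
    linear_combination (1 / 4) * f011 + (1 / 3) * f020 + (2 / 3) * f021 + (1 / 4) * f022 - (1 / 3) * g001 + (1 / 6) * g012 - (1 / 4) * g101 - (1 / 3) * g201 - (1 / 12) * g202
  have zB21 : B 2 1 = 0 := by
    linear_combination (2 / 3) * f020 + (1 / 3) * f021 + (1 / 4) * f022 + (1 / 4) * f120 + (1 / 3) * g001 + (1 / 12) * g012 + (1 / 4) * g101 + (1 / 3) * g201 - (1 / 6) * g202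
  have zB22 : B 2 2 = 0 := by
    linear_combination -(1 / 4) * f011 + (1 / 2) * f022 - (1 / 4) * f120 - (1 / 4) * g012 + (1 / 4) * g202
  have zD00 : D 0 0 = 0 := by
    linear_combination f000 + f010 - f011 - f020 + f022 - 2 * f120 + g001 - g002 - g102 - g201
  have zD01 : D 0 1 = 0 := by
    linear_combination f001 + f011 - f021 - f022 + f120 - g001 - g012 + g201
  have zD02 : D 0 2 = 0 := by
    linear_combination f002 + f011 + f012 - f022 + f120 + g002 + g012 + g102
  have zD10 : D 1 0 = 0 := by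
    linear_combination f010 + f011 - f022 + f110 + f120 + g002 + g101 + g102
  have zD11 : D 1 1 = 0 := by
    linear_combination f011 - f022 + f111 + f120 + f121 - g101 - g112 - g212
  have zD12 : D 1 2 = 0 := by
    linear_combination -f011 + f012 + 2 * f022 + f112 - f120 + f122 - g002 - g102 + g112 + g212
  have zD20 : D 2 0 = 0 := by
    linear_combination f011 - f020 - f022 + f120 + f220 - g001 + g201 + g202
  have zD21 : D 2 1 = 0 := by
    linear_combination -2 * f011 - f021 + f022 - f120 + f121 + f221 + g001 + g112 - g201 + g212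
  have zD22 : D 2 2 = 0 := by
    linear_combination f011 - f022 + f120 + f122 + f222 - g112 - g202 - g212
  have zE00 : E 0 0 = 0 := by
    linear_combination -f010 - f011 - f012 - f020 - f021 - f022 + g000 + g001 + g002
  have zE01 : E 0 1 = 0 := by
    linear_combination f010 + f011 + f012 + g100 + g101 + g102
  have zE02 : E 0 2 = 0 := by
    linear_combination -f020 - f021 - f022 + g200 + g201 + g202
  have zE10 : E 1 0 = 0 := by
    linear_combination f020 + f021 + f022 + g001 + g011 + g012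
  have zE11 : E 1 1 = 0 := by
    linear_combination -f120 - f121 - f122 + g101 + g111 + g112
  have zE12 : E 1 2 = 0 := by
    linear_combination f020 + f021 + f022 + f120 + f121 + f122 + g201 + g211 + g212
  have zE20 : E 2 0 = 0 := by
    linear_combination f010 + f011 + f012 + g002 + g012 + g022
  have zE21 : E 2 1 = 0 := by
    linear_combination -f010 - f011 - f012 + f120 + f121 + f122 + g102 + g112 + g122
  have zE22 : E 2 2 = 0 := by
    linear_combination -f120 - f121 - f122 + g202 + g212 + g222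
  clear f000 f001 f002 f010 f011 f012 f020 f021 f022 f110 f111 f112 f120 f121 f122 f220 f221 f222 g000 g001 g002 g011 g012 g022 g100 g101 g102 g111 g112 g122 g200 g201 g202 g211 g212 g222
  refine ⟨fun t u => ?_, fun t u => ?_, fun t l => ?_, fun i u => ?_, fun i u => ?_⟩
  · fin_cases t <;> fin_cases u <;> assumption
  · fin_cases t <;> fin_cases u <;> assumption
  · exact l.elim0
  · fin_cases i <;> fin_cases u <;> assumption
  · fin_cases i <;> fin_cases u <;> assumption

end Pool.Agent.WarM.CubAH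


end

section

/-!
# Independent double points in degree three: the system for two blocks, `e = 1`   (helper27)
-/

set_option autoImplicit false

namespace Pool.Agent.WarM.CubAH

theorem chk31 : Chk3 1 4 := by
  refine ⟨![![0, 1, 1], ![1, 0, -1], ![0, 0, 1]],
    ![![0, 1, 1], ![0, 0, -1], ![-1, 1, 0]],
    fun i => Sum.elim (![![0, -1, 0], ![1, 0, 0], ![-1, 1, 1], ![1, 1, 1]] i) (![![0], ![-1], ![0], ![0]] i),
    fun i => Sum.elim (![![1, 0, 0], ![0, -1, 0], ![1, 0, 1], ![-1, 0, 0]] i) (![![-1], ![0], ![-1], ![0]] i), ?_⟩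
  intro A B C D E h
  obtain ⟨h1, h2, h3⟩ := h
  have f000 : B 1 0 + D 1 0 + D 2 0 + D 3 0 = 0 := by
    refine Eq.trans ?_ (h1 0 0 0)
    simp [Fin.sum_univ_three, Fin.sum_univ_four]
    try ring
  have f001 : B 1 1 + D 1 1 + D 2 1 + D 3 1 = 0 := by
    refine Eq.trans ?_ (h1 0 0 1)
    simp [Fin.sum_univ_three, Fin.sum_univ_four]
    try ring
  have f002 : -2 * A 1 0 + B 1 2 + D 1 2 + D 2 2 + D 3 2 = 0 := by
    refine Eq.trans ?_ (h1 0 0 2)
    simp [Fin.sum_univ_three, Fin.sum_univ_four]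
    try ring
  have f010 : -D 2 0 + D 3 0 = 0 := by
    refine Eq.trans ?_ (h1 0 1 0)
    simp [Fin.sum_univ_three, Fin.sum_univ_four]
    try ring
  have f011 : A 0 0 - D 2 1 + D 3 1 = 0 := by
    refine Eq.trans ?_ (h1 0 1 1)
    simp [Fin.sum_univ_three, Fin.sum_univ_four]
    try ring
  have f012 : A 0 0 - A 1 1 - D 2 2 + D 3 2 = 0 := by
    refine Eq.trans ?_ (h1 0 1 2)
    simp [Fin.sum_univ_three, Fin.sum_univ_four]
    try ring
  have f020 : -A 2 0 - B 1 0 - D 2 0 + D 3 0 = 0 := by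
    refine Eq.trans ?_ (h1 0 2 0)
    simp [Fin.sum_univ_three, Fin.sum_univ_four]
    try ring
  have f021 : A 0 0 + A 2 0 - B 1 1 - D 2 1 + D 3 1 = 0 := by
    refine Eq.trans ?_ (h1 0 2 1)
    simp [Fin.sum_univ_three, Fin.sum_univ_four]
    try ring
  have f022 : A 0 0 + A 1 0 - A 1 2 - B 1 2 - D 2 2 + D 3 2 = 0 := by
    refine Eq.trans ?_ (h1 0 2 2)
    simp [Fin.sum_univ_three, Fin.sum_univ_four]
    try ring
  have f110 : B 0 0 + D 0 0 + D 2 0 + D 3 0 = 0 := by
    refine Eq.trans ?_ (h1 1 1 0)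
    simp [Fin.sum_univ_three, Fin.sum_univ_four]
    try ring
  have f111 : 2 * A 0 1 + B 0 1 + D 0 1 + D 2 1 + D 3 1 = 0 := by
    refine Eq.trans ?_ (h1 1 1 1)
    simp [Fin.sum_univ_three, Fin.sum_univ_four]
    try ring
  have f112 : 2 * A 0 1 + B 0 2 + D 0 2 + D 2 2 + D 3 2 = 0 := by
    refine Eq.trans ?_ (h1 1 1 2)
    simp [Fin.sum_univ_three, Fin.sum_univ_four]
    try ring
  have f120 : -A 2 1 + B 0 0 + D 2 0 + D 3 0 = 0 := by
    refine Eq.trans ?_ (h1 1 2 0)
    simp [Fin.sum_univ_three, Fin.sum_univ_four]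
    try ring
  have f121 : A 0 1 + A 0 2 + A 2 1 + B 0 1 + D 2 1 + D 3 1 = 0 := by
    refine Eq.trans ?_ (h1 1 2 1)
    simp [Fin.sum_univ_three, Fin.sum_univ_four]
    try ring
  have f122 : A 0 1 + A 0 2 + A 1 1 + B 0 2 + D 2 2 + D 3 2 = 0 := by
    refine Eq.trans ?_ (h1 1 2 2)
    simp [Fin.sum_univ_three, Fin.sum_univ_four]
    try ring
  have f220 : -2 * A 2 2 + B 0 0 + B 1 0 + B 2 0 + D 2 0 + D 3 0 = 0 := by
    refine Eq.trans ?_ (h1 2 2 0)
    simp [Fin.sum_univ_three, Fin.sum_univ_four]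
    try ring
  have f221 : 2 * A 0 2 + 2 * A 2 2 + B 0 1 + B 1 1 + B 2 1 + D 2 1 + D 3 1 = 0 := by
    refine Eq.trans ?_ (h1 2 2 1)
    simp [Fin.sum_univ_three, Fin.sum_univ_four]
    try ring
  have f222 : 2 * A 0 2 + 2 * A 1 2 + B 0 2 + B 1 2 + B 2 2 + D 2 2 + D 3 2 = 0 := by
    refine Eq.trans ?_ (h1 2 2 2)
    simp [Fin.sum_univ_three, Fin.sum_univ_four]
    try ring
  have g000 : A 2 0 + E 0 0 + E 2 0 + E 3 0 = 0 := by
    refine Eq.trans ?_ (h2 0 0 0)
    simp [Fin.sum_univ_three, Fin.sum_univ_four]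
    try ring
  have g001 : -A 2 0 = 0 := by
    refine Eq.trans ?_ (h2 0 0 1)
    simp [Fin.sum_univ_three, Fin.sum_univ_four]
    try ring
  have g002 : -B 1 0 + E 2 0 = 0 := by
    refine Eq.trans ?_ (h2 0 0 2)
    simp [Fin.sum_univ_three, Fin.sum_univ_four]
    try ring
  have g011 : A 0 0 + A 2 0 + E 1 0 = 0 := by
    refine Eq.trans ?_ (h2 0 1 1)
    simp [Fin.sum_univ_three, Fin.sum_univ_four]
    try ring
  have g012 : A 0 0 - B 1 1 = 0 := by
    refine Eq.trans ?_ (h2 0 1 2)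
    simp [Fin.sum_univ_three, Fin.sum_univ_four]
    try ring
  have g022 : A 0 0 + A 1 0 - 2 * B 1 2 + E 2 0 = 0 := by
    refine Eq.trans ?_ (h2 0 2 2)
    simp [Fin.sum_univ_three, Fin.sum_univ_four]
    try ring
  have g100 : A 2 1 + E 0 1 + E 2 1 + E 3 1 = 0 := by
    refine Eq.trans ?_ (h2 1 0 0)
    simp [Fin.sum_univ_three, Fin.sum_univ_four]
    try ring
  have g101 : -A 2 1 + B 0 0 = 0 := by
    refine Eq.trans ?_ (h2 1 0 1)
    simp [Fin.sum_univ_three, Fin.sum_univ_four]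
    try ring
  have g102 : B 0 0 + E 2 1 = 0 := by
    refine Eq.trans ?_ (h2 1 0 2)
    simp [Fin.sum_univ_three, Fin.sum_univ_four]
    try ring
  have g111 : A 0 1 + A 2 1 + 2 * B 0 1 + E 1 1 = 0 := by
    refine Eq.trans ?_ (h2 1 1 1)
    simp [Fin.sum_univ_three, Fin.sum_univ_four]
    try ring
  have g112 : A 0 1 + B 0 1 + B 0 2 = 0 := by
    refine Eq.trans ?_ (h2 1 1 2)
    simp [Fin.sum_univ_three, Fin.sum_univ_four]
    try ring
  have g122 : A 0 1 + A 1 1 + 2 * B 0 2 + E 2 1 = 0 := by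
    refine Eq.trans ?_ (h2 1 2 2)
    simp [Fin.sum_univ_three, Fin.sum_univ_four]
    try ring
  have g200 : A 2 2 - 2 * B 2 0 + E 0 2 + E 2 2 + E 3 2 = 0 := by
    refine Eq.trans ?_ (h2 2 0 0)
    simp [Fin.sum_univ_three, Fin.sum_univ_four]
    try ring
  have g201 : -A 2 2 + B 0 0 + B 2 0 - B 2 1 = 0 := by
    refine Eq.trans ?_ (h2 2 0 1)
    simp [Fin.sum_univ_three, Fin.sum_univ_four]
    try ring
  have g202 : B 0 0 + B 1 0 - B 2 2 + E 2 2 = 0 := by
    refine Eq.trans ?_ (h2 2 0 2)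
    simp [Fin.sum_univ_three, Fin.sum_univ_four]
    try ring
  have g211 : A 0 2 + A 2 2 + 2 * B 0 1 + 2 * B 2 1 + E 1 2 = 0 := by
    refine Eq.trans ?_ (h2 2 1 1)
    simp [Fin.sum_univ_three, Fin.sum_univ_four]
    try ring
  have g212 : A 0 2 + B 0 1 + B 0 2 + B 1 1 + B 2 2 = 0 := by
    refine Eq.trans ?_ (h2 2 1 2)
    simp [Fin.sum_univ_three, Fin.sum_univ_four]
    try ring
  have g222 : A 0 2 + A 1 2 + 2 * B 0 2 + 2 * B 1 2 + E 2 2 = 0 := by
    refine Eq.trans ?_ (h2 2 2 2)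
    simp [Fin.sum_univ_three, Fin.sum_univ_four]
    try ring
  have k000 : -D 1 0 - E 0 0 - E 2 0 = 0 := by
    refine Eq.trans ?_ (h3 0 0 0)
    simp [Fin.sum_univ_three, Fin.sum_univ_four]
    try ring
  have k010 : -D 1 1 = 0 := by
    refine Eq.trans ?_ (h3 0 1 0)
    simp [Fin.sum_univ_three, Fin.sum_univ_four]
    try ring
  have k020 : -C 1 0 - D 1 2 - E 2 0 = 0 := by
    refine Eq.trans ?_ (h3 0 2 0)
    simp [Fin.sum_univ_three, Fin.sum_univ_four]
    try ring
  have k100 : -E 0 1 - E 2 1 = 0 := by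
    refine Eq.trans ?_ (h3 1 0 0)
    simp [Fin.sum_univ_three, Fin.sum_univ_four]
    try ring
  have k110 : C 0 0 = 0 := by
    refine Eq.trans ?_ (h3 1 1 0)
    simp [Fin.sum_univ_three, Fin.sum_univ_four]
    try ring
  have k120 : C 0 0 - E 2 1 = 0 := by
    refine Eq.trans ?_ (h3 1 2 0)
    simp [Fin.sum_univ_three, Fin.sum_univ_four]
    try ring
  have k200 : -C 2 0 - E 0 2 - E 2 2 = 0 := by
    refine Eq.trans ?_ (h3 2 0 0)
    simp [Fin.sum_univ_three, Fin.sum_univ_four]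
    try ring
  have k210 : C 0 0 + C 2 0 = 0 := by
    refine Eq.trans ?_ (h3 2 1 0)
    simp [Fin.sum_univ_three, Fin.sum_univ_four]
    try ring
  have k220 : C 0 0 + C 1 0 - E 2 2 = 0 := by
    refine Eq.trans ?_ (h3 2 2 0)
    simp [Fin.sum_univ_three, Fin.sum_univ_four]
    try ring
  have zA00 : A 0 0 = 0 := by
    linear_combination f011 - f021 - g001 + g012
  have zA01 : A 0 1 = 0 := by
    linear_combination -(2 / 3) * f002 + (1 / 3) * f011 + f012 - (1 / 3) * f021 - f022 + f122 - (1 / 3) * f222 - (1 / 3) * g001 - (1 / 3) * g002 + (1 / 3) * g012 - (1 / 3) * g022 + (1 / 3) * g102 - (1 / 3) * g202 - (1 / 3) * g222 - (2 / 3) * k020 + (1 / 3) * k110 + (1 / 3) * k120 - (2 / 3) * k220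
  have zA02 : A 0 2 = 0 := by
    linear_combination -f001 + (1 / 3) * f002 + (1 / 3) * f011 - (1 / 3) * f021 + f121 - (1 / 3) * f222 - (1 / 3) * g001 - (1 / 3) * g002 - (2 / 3) * g012 + (2 / 3) * g022 + g101 - (2 / 3) * g102 - g112 - (1 / 3) * g202 + (2 / 3) * g222 - k010 + (1 / 3) * k020 + (1 / 3) * k110 - (2 / 3) * k120 + (1 / 3) * k220
  have zA10 : A 1 0 = 0 := by
    linear_combination (1 / 3) * f010 + (1 / 3) * f011 - (2 / 3) * f012 - (1 / 3) * f020 - (1 / 3) * f021 + (2 / 3) * f022 - (1 / 3) * g002 - (1 / 3) * g012 + (1 / 3) * g022 + (2 / 3) * g102 + (2 / 3) * g112 - (2 / 3) * g122 - (2 / 3) * g202 - (2 / 3) * g212 + (2 / 3) * g222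
  have zA11 : A 1 1 = 0 := by
    linear_combination f011 - f012 - f021 + f022 - f122 + f222 - g001 + g002 + g012 - g022 - g102 + g122 + g202 - g222
  have zA12 : A 1 2 = 0 := by
    linear_combination -(1 / 3) * f010 + (2 / 3) * f011 - (1 / 3) * f012 + (1 / 3) * f020 - (2 / 3) * f021 + (1 / 3) * f022 - f122 + f222 - g001 + (1 / 3) * g002 + (1 / 3) * g012 - (1 / 3) * g022 - (2 / 3) * g102 + (1 / 3) * g112 + (2 / 3) * g122 + (2 / 3) * g202 - (1 / 3) * g212 - (2 / 3) * g222
  have zA20 : A 2 0 = 0 := by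
    linear_combination -g001
  have zA21 : A 2 1 = 0 := by
    linear_combination -g101 + g102 - k110 + k120
  have zA22 : A 2 2 = 0 := by
    linear_combination (1 / 3) * f001 - (1 / 3) * f002 + (1 / 3) * f010 - (1 / 3) * f011 + (1 / 3) * f012 - (1 / 3) * f020 + (1 / 3) * f021 - (1 / 3) * f022 + (1 / 3) * f120 - (2 / 3) * f121 + (1 / 3) * f122 - (1 / 3) * f220 + (1 / 3) * f221 + (2 / 3) * g001 + (1 / 3) * g012 - (1 / 3) * g022 - g101 + (2 / 3) * g102 + (1 / 3) * g112 + (1 / 3) * g201 - (1 / 3) * g222 + (1 / 3) * k010 - (1 / 3) * k020 - (1 / 3) * k110 + (2 / 3) * k120 - (1 / 3) * k220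
  have zB00 : B 0 0 = 0 := by
    linear_combination g102 - k110 + k120
  have zB01 : B 0 1 = 0 := by
    linear_combination (1 / 3) * f002 + (1 / 3) * f011 - f012 - (1 / 3) * f021 + f022 - f122 + (2 / 3) * f222 - (1 / 3) * g001 + (2 / 3) * g002 + (1 / 3) * g012 - (1 / 3) * g022 - (2 / 3) * g102 + g112 + (2 / 3) * g202 - (1 / 3) * g222 + (1 / 3) * k020 + (1 / 3) * k110 - (2 / 3) * k120 + (1 / 3) * k220
  have zB02 : B 0 2 = 0 := by
    linear_combination (1 / 3) * f002 - (2 / 3) * f011 + (2 / 3) * f021 - (1 / 3) * f222 + (2 / 3) * g001 - (1 / 3) * g002 - (2 / 3) * g012 + (2 / 3) * g022 + (1 / 3) * g102 - (1 / 3) * g202 + (2 / 3) * g222 + (1 / 3) * k020 - (2 / 3) * k110 + (1 / 3) * k120 + (1 / 3) * k220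
  have zB10 : B 1 0 = 0 := by
    linear_combination f010 - f020 + g001
  have zB11 : B 1 1 = 0 := by
    linear_combination f011 - f021 - g001
  have zB12 : B 1 2 = 0 := by
    linear_combination (2 / 3) * f010 + (2 / 3) * f011 - (1 / 3) * f012 - (2 / 3) * f020 - (2 / 3) * f021 + (1 / 3) * f022 + (1 / 3) * g002 + (1 / 3) * g012 - (1 / 3) * g022 + (1 / 3) * g102 + (1 / 3) * g112 - (1 / 3) * g122 - (1 / 3) * g202 - (1 / 3) * g212 + (1 / 3) * g222
  have zB20 : B 2 0 = 0 := by
    linear_combination (2 / 3) * f001 - (2 / 3) * f002 - (1 / 3) * f010 - (2 / 3) * f011 + (2 / 3) * f012 + (1 / 3) * f020 + (2 / 3) * f021 - (2 / 3) * f022 - (1 / 3) * f120 - (4 / 3) * f121 + (2 / 3) * f122 + (1 / 3) * f220 + (2 / 3) * f221 + (1 / 3) * g001 + (2 / 3) * g012 - (2 / 3) * g022 - g101 + (1 / 3) * g102 + (2 / 3) * g112 + (2 / 3) * g201 - (2 / 3) * g222 + (2 / 3) * k010 - (2 / 3) * k020 + (1 / 3) * k110 + (1 / 3) * k120 - (2 / 3) * k220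
  have zB21 : B 2 1 = 0 := by
    linear_combination (1 / 3) * f001 - (1 / 3) * f002 - (2 / 3) * f010 - (1 / 3) * f011 + (1 / 3) * f012 + (2 / 3) * f020 + (1 / 3) * f021 - (1 / 3) * f022 - (2 / 3) * f120 - (2 / 3) * f121 + (1 / 3) * f122 + (2 / 3) * f220 + (1 / 3) * f221 - (1 / 3) * g001 + (1 / 3) * g012 - (1 / 3) * g022 + (2 / 3) * g102 + (1 / 3) * g112 - (2 / 3) * g201 - (1 / 3) * g222 + (1 / 3) * k010 - (1 / 3) * k020 - (1 / 3) * k110 + (2 / 3) * k120 - (1 / 3) * k220
  have zB22 : B 2 2 = 0 := by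
    linear_combination f001 - f002 - f011 + f012 + f021 - f022 - f121 + f122 + g001 + g012 - g022 - g101 + g102 + g212 - g222 + k010 - k020 + k120 - k220
  have zC00 : C 0 0 = 0 := by
    linear_combination k110
  have zC10 : C 1 0 = 0 := by
    linear_combination f001 - f002 - f010 - f011 + f012 + f020 + f021 - f022 - f121 + f122 + g012 - g022 - g101 + g202 + g212 - g222 + k010 - k020
  have zC20 : C 2 0 = 0 := by
    linear_combination -k110 + k210
  have zD00 : D 0 0 = 0 := by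
    linear_combination f110 - f120 + g101 - g102 + k110 - k120
  have zD01 : D 0 1 = 0 := by
    linear_combination -f001 + f002 - f012 + f022 + f111 - f122 - g012 + g022 - g112 + g222 - k010 + k020 - k110 + k220
  have zD02 : D 0 2 = 0 := by
    linear_combination -f001 + f002 + f011 - 2 * f012 - f021 + 2 * f022 + f112 + f121 - 3 * f122 + f222 - g001 + g002 + g101 - 2 * g102 - g112 + g122 + g202 - k010 + k020 - k120 + k220
  have zD10 : D 1 0 = 0 := by
    linear_combination f000 - f010 + f020 - f120 - g001 + g101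
  have zD11 : D 1 1 = 0 := by
    linear_combination -k010
  have zD12 : D 1 2 = 0 := by
    linear_combination -f001 + f002 + f011 - f012 - f021 + f022 + f121 - f122 - g001 - g002 - g012 + g022 + g101 - g202 - g212 + g222 - k010
  have zD20 : D 2 0 = 0 := by
    linear_combination -(1 / 2) * f010 + (1 / 2) * f120 - (1 / 2) * g101
  have zD21 : D 2 1 = 0 := by
    linear_combination (1 / 2) * f001 - (1 / 2) * f011 + (1 / 2) * g012 + (1 / 2) * k010
  have zD22 : D 2 2 = 0 := by
    linear_combination (1 / 2) * f001 - (1 / 2) * f011 + (1 / 2) * f021 - (1 / 2) * f022 - (1 / 2) * f121 + f122 - (1 / 2) * f222 + (1 / 2) * g001 - (1 / 2) * g002 + (1 / 2) * g022 - (1 / 2) * g101 + g102 + (1 / 2) * g112 - g122 - (1 / 2) * g202 + (1 / 2) * g222 + (1 / 2) * k010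
  have zD30 : D 3 0 = 0 := by
    linear_combination (1 / 2) * f010 + (1 / 2) * f120 - (1 / 2) * g101
  have zD31 : D 3 1 = 0 := by
    linear_combination (1 / 2) * f001 - (1 / 2) * f011 + f021 + g001 - (1 / 2) * g012 + (1 / 2) * k010
  have zD32 : D 3 2 = 0 := by
    linear_combination (1 / 2) * f001 - (1 / 2) * f011 + (1 / 2) * f021 + (1 / 2) * f022 - (1 / 2) * f121 + (1 / 2) * f222 + (1 / 2) * g001 + (1 / 2) * g002 - (1 / 2) * g022 - (1 / 2) * g101 + (1 / 2) * g112 + (1 / 2) * g202 - (1 / 2) * g222 + (1 / 2) * k010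
  have zE00 : E 0 0 = 0 := by
    linear_combination -f000 + f120 - g002 - g101 - k000
  have zE01 : E 0 1 = 0 := by
    linear_combination -k100 - k110 + k120
  have zE02 : E 0 2 = 0 := by
    linear_combination -f001 + f002 + f010 + f011 - f012 - f020 - f021 + f022 + f121 - f122 - g012 + g022 + g101 - g202 - g212 + g222 - k010 + k020 - k200 - k210 + k220
  have zE10 : E 1 0 = 0 := by
    linear_combination -f011 + f021 + 2 * g001 + g011 - g012
  have zE11 : E 1 1 = 0 := by
    linear_combination -f011 + f012 + f021 - f022 + f122 - f222 + g001 - g002 - g012 + g022 + g101 + g111 - 2 * g112 - g202 + g222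
  have zE12 : E 1 2 = 0 := by
    linear_combination f010 + f012 - f020 - f022 + f120 + f121 + f122 - f220 - f221 - f222 + g001 - g002 - g012 + g022 - 2 * g112 + g201 - g202 + g211 + g222
  have zE20 : E 2 0 = 0 := by
    linear_combination f010 - f020 + g001 + g002
  have zE21 : E 2 1 = 0 := by
    linear_combination k110 - k120
  have zE22 : E 2 2 = 0 := by
    linear_combination f001 - f002 - f010 - f011 + f012 + f020 + f021 - f022 - f121 + f122 + g012 - g022 - g101 + g202 + g212 - g222 + k010 - k020 + k110 - k220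
  have zE30 : E 3 0 = 0 := by
    linear_combination f000 - f010 + f020 - f120 + g000 + g101 + k000
  have zE31 : E 3 1 = 0 := by
    linear_combination g100 + g101 - g102 + k100 + k110 - k120
  have zE32 : E 3 2 = 0 := by
    linear_combination f001 - f002 - f010 - f011 + f012 + f020 + f021 - f022 - f120 - 2 * f121 + f122 + f220 + f221 + g012 - g022 - g101 + g112 + g200 + g201 - g222 + k010 - k020 + k200 + k210 - k220
  clear f000 f001 f002 f010 f011 f012 f020 f021 f022 f110 f111 f112 f120 f121 f122 f220 f221 f222 g000 g001 g002 g011 g012 g022 g100 g101 g102 g111 g112 g122 g200 g201 g202 g211 g212 g222 k000 k010 k020 k100 k110 k120 k200 k210 k220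
  refine ⟨fun t u => ?_, fun t u => ?_, fun t l => ?_, fun i u => ?_, fun i u => ?_⟩
  · fin_cases t <;> fin_cases u <;> assumption
  · fin_cases t <;> fin_cases u <;> assumption
  · fin_cases t <;> fin_cases l <;> assumption
  · fin_cases i <;> fin_cases u <;> assumption
  · fin_cases i <;> fin_cases u <;> assumption

end Pool.Agent.WarM.CubAH


end

section

/-!
# The Alexander-Hirschowitz theorem for cubics   (helper27)

`p` general double points of `P^n` impose independent conditions on cubics if `(n + 1) p ≤ binom (n + 3) 3`,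
except possibly for the largest such `p` when `n = 1` modulo `3` (for `n = 4`, `p = 7` this is false).
-/

set_option autoImplicit false

open Pool.Agent.War

namespace Pool.Agent.WarM

open CubAH

theorem six_NN (n : ℕ) : 6 * NN n 3 = (n + 3) * (n + 2) * (n + 1) := by
  have h1 := AR_rec 2 n
  have h2 := AR_rec 1 n
  have h3 : NN 1 n = n + 1 := by
    unfold NN
    rw [Nat.choose_one_right, add_comm]
  have h4 : NN n 3 = NN 3 n := by
    unfold NN
    rw [add_comm 3 n, Nat.choose_symm_add]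
  have h5 : 2 * NN 2 n = (n + 2) * (n + 1) := by
    rw [h3] at h2
    norm_num at h2
    linarith
  have h6 : 3 * NN 3 n = (n + 3) * NN 2 n := by
    norm_num at h1
    linarith
  rw [h4]
  calc 6 * NN 3 n = 2 * (3 * NN 3 n) := by ring
    _ = (n + 3) * (2 * NN 2 n) := by rw [h6]; ring
    _ = _ := by rw [h5]; ring

theorem CUBIC (n p : ℕ) (h : (n + 1) * (p + 1) ≤ NN n 3 ∨
    ((n + 1) % 3 ≠ 2 ∧ (n + 1) * p ≤ NN n 3)) : GG n 3 p := by
  have h6 := six_NN n
  have hp : 6 * (p + 1) ≤ (n + 3) * (n + 2) ∨ ((n + 1) % 3 ≠ 2 ∧ 6 * p ≤ (n + 3) * (n + 2)) := by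
    rcases h with h | ⟨h, h'⟩
    · left
      refine Nat.le_of_mul_le_mul_left (c := n + 1) ?_ (by omega)
      calc (n + 1) * (6 * (p + 1)) = 6 * ((n + 1) * (p + 1)) := by ring
        _ ≤ 6 * NN n 3 := Nat.mul_le_mul_left _ h
        _ = _ := by rw [h6]; ring
    · right
      refine ⟨h, Nat.le_of_mul_le_mul_left (c := n + 1) ?_ (by omega)⟩
      calc (n + 1) * (6 * p) = 6 * ((n + 1) * p) := by ring
        _ ≤ 6 * NN n 3 := Nat.mul_le_mul_left _ h'
        _ = _ := by rw [h6]; ring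
  clear h h6
  obtain ⟨k, hk⟩ : ∃ k, k = (n + 1) / 3 := ⟨_, rfl⟩
  have hr : (n + 1) % 3 = 0 ∨ (n + 1) % 3 = 1 ∨ (n + 1) % 3 = 2 := by omega
  rcases hr with hr | hr | hr
  · have hn : n + 1 = 3 * k + 0 := by omega
    refine design (k := k) (m := 3) (m₀ := 0) chk4 chk30 chk20 chk10 (Or.inl rfl) hn ?_
    obtain ⟨l, rfl⟩ : ∃ l, k = l + 1 := ⟨k - 1, by omega⟩
    have e1 : (n + 3) * (n + 2) = 9 * (l * (l + 1)) + 18 * l + 20 := by
      rw [show n = 3 * l + 2 by omega]
      ring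
    have e2 : (l + 1) * (l + 1) = l * (l + 1) + (l + 1) := by ring
    obtain ⟨y, hy⟩ := Nat.even_mul_succ_self l
    omega
  · have hn : n + 1 = 3 * k + 1 := by omega
    refine design (k := k) (m := 4) (m₀ := 1) chk4 chk31 chk21 chk11 (Or.inr le_rfl) hn ?_
    have e1 : (n + 3) * (n + 2) = 9 * (k * k) + 15 * k + 6 := by
      rw [show n = 3 * k by omega]
      ring
    have e3 : k ≤ k * k := by nlinarith [Nat.zero_le k]
    omega
  · have hn : n + 1 = 3 * k + 2 := by omega
    refine design (k := k) (m := 5) (m₀ := 1) chk4 chk32 chk22 chk12 (Or.inr (by omega)) hn ?_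
    have e1 : (n + 3) * (n + 2) = 9 * (k * k) + 21 * k + 12 := by
      rw [show n = 3 * k + 1 by omega]
      ring
    have e3 : k ≤ k * k := by nlinarith [Nat.zero_le k]
    omega

end Pool.Agent.WarM


end
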