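import Mathlib
import Pool.Agent.CLAM.C02
import Pool.Agent.CLAM.C03
import Pool.Agent.CLAM.C04
import Pool.Agent.CLAM.C06
import Pool.Agent.CLAM.C07
import Pool.Agent.CLAM.C08
import Pool.Agent.CLAM.C09
import Pool.Agent.CLAM.C10
import Pool.Agent.CLAM.C18
import Pool.Agent.CLAM.C24

/-! Parts: War.C0, WarM.PB, WarM.BLKA, War.TOP, WarM.TOPA, WarC.BLKC, WarC.TRD, WarC.B4, War.X, War.Main, WarM.Many, WarC.Two3, WarC.Two3b, WarC.AAH, WarC.BLKM, War5.NG4, WarS.RES, War5.SN3, WarS.GD, WarS.TRA, War.C2, WarS.Main, WarD.TRB, WarD.REB, WarR.Conv, WarR.Quad, WarR.Glue, WarR.N23 -/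

section

/-!
# Simultaneous Waring decompositions (MP_db021c_ag): block lemma, case `n ∣ μ`   (helper37)
-/

set_option autoImplicit false

open Module MvPolynomial

namespace Pool.Agent.War

/-- the double points of the `j`-th form -/
def P0 (q m b r : ℕ) (hm : b * q ≤ m) (j : Fin b) : Finset (Fin m ⊕ Fin r) :=
  Finset.univ.image fun t : Fin q => Sum.inl ⟨j.val * q + t.val, by
    have h1 : (j.val + 1) * q ≤ b * q := Nat.mul_le_mul_right _ j.isLt
    have h2 := t.isLt
    rw [Nat.add_mul, one_mul] at h1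
    omega⟩

theorem card_P0 (q m b r : ℕ) (hm : b * q ≤ m) (j : Fin b) : (P0 q m b r hm j).card = q := by
  unfold P0
  rw [Finset.card_image_of_injective]
  · simp
  · intro t t' h
    have h1 := Sum.inl.inj h
    have h2 := congrArg Fin.val h1
    simp only at h2
    exact Fin.ext (by omega)

theorem C0 (hSC : S_SC) (hAR : S_AR) : S_C0 := by
  intro n d b μ ⟨hn, hd, hb, hbn, hμ, hle⟩ hmod
  obtain ⟨h1, h2, h3⟩ := hAR n d hn hd
  obtain ⟨q, rfl⟩ : ∃ q, μ = n * q := ⟨μ / n, by
    have := Nat.div_add_mod μ n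
    omega⟩
  have hn0 : 0 < n := by omega
  have hm : (b * (n * q) + n - 1) / n = b * q := by
    rw [show b * (n * q) + n - 1 = (n - 1) + n * (b * q) by
      rw [show b * (n * q) = n * (b * q) by ring]; omega, Nat.add_mul_div_left _ _ hn0,
      Nat.div_eq_of_lt (by omega), zero_add]
  unfold Block
  rw [hm]
  set N := NN n d with hN
  -- the hypotheses of the scalar lemma
  have hd2 : 2 * n ≤ d := by
    have : 2 * n ≤ n ^ 3 := by nlinarith [Nat.mul_le_mul hn hn, Nat.mul_le_mul (Nat.mul_le_mul hn hn) (le_refl n)]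
    omega
  have hq : (n + 2) * q ≤ NN n (d - 2 * n) := by
    have k1 : (2 * n + 1) * q ≤ N := by
      refine Nat.le_of_mul_le_mul_left ?_ hn0
      calc n * ((2 * n + 1) * q) = (2 * n + 1) * (n * q) := by ring
        _ ≤ n * N := hle
    have k2 : NN n (d - 2 * n - 2) ≤ NN n (d - 2 * n) := NN_mono_right (by omega)
    refine Nat.le_of_mul_le_mul_left (c := 2 * n + 1) ?_ (by omega)
    calc (2 * n + 1) * ((n + 2) * q) = (n + 2) * ((2 * n + 1) * q) := by ring
      _ ≤ (n + 2) * N := Nat.mul_le_mul_left _ k1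
      _ ≤ (2 * n + 1) * NN n (d - 2 * n - 2) := h1
      _ ≤ (2 * n + 1) * NN n (d - 2 * n) := Nat.mul_le_mul_left _ k2
  set r := N - n * q - b * q with hr
  have hG : Gen ℂ fun z : (Fin (b * q) ⊕ Fin r) → Fin n → ℂ => ∀ j : Fin b,
      finrank ℂ (Dbl n d (P0 q (b * q) b r le_rfl j) z) ≤
        NN n d - (n * (P0 q (b * q) b r le_rfl j).card + Fintype.card (Fin (b * q) ⊕ Fin r)) :=
    Gen.forall fun j => hSC n d _ _ (by omega) (Or.inr ⟨hd2, by rw [card_P0]; exact hq⟩)
  obtain ⟨z, hz⟩ := hG.exists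
  have hz0 : ∀ j : Fin b, Dbl n d (P0 q (b * q) b r le_rfl j) z = ⊥ := by
    intro j
    have := hz j
    rw [card_P0, Fintype.card_sum, Fintype.card_fin, Fintype.card_fin] at this
    rw [← Submodule.finrank_eq_zero (R := ℂ)]
    omega
  refine ⟨fun i => z (Sum.inl i), fun i j => if i.val / q = j.val then 1 else 0,
    fun i => z (Sum.inr i), ?_⟩
  intro f hf hf1 hf2 hf3 j
  have hmem : (⟨f j, mem_Pol.2 (hf j)⟩ : Pol n d) ∈ Dbl n d (P0 q (b * q) b r le_rfl j) z := by
    rw [mem_Dbl]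
    refine ⟨?_, ?_⟩
    · rintro (i | i)
      · exact hf1 i j
      · exact hf3 i j
    · intro i hi k
      unfold P0 at hi
      rw [Finset.mem_image] at hi
      obtain ⟨t, -, rfl⟩ := hi
      have hlt : j.val * q + t.val < b * q := by
        have h1 : (j.val + 1) * q ≤ b * q := Nat.mul_le_mul_right _ j.isLt
        have h2 := t.isLt
        rw [Nat.add_mul, one_mul] at h1
        omega
      have h5 := hf2 ⟨j.val * q + t.val, hlt⟩ k
      have hdiv : (j.val * q + t.val) / q = j.val := by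
        have hq0 : 0 < q := lt_of_le_of_lt (Nat.zero_le _) t.isLt
        rw [add_comm, Nat.add_mul_div_right _ _ hq0, Nat.div_eq_of_lt t.isLt, zero_add]
      rw [Finset.sum_eq_single j] at h5
      · simp only [hdiv, if_true, one_mul] at h5
        exact h5
      · intro j' _ hj'
        simp only [hdiv]
        rw [if_neg (fun h => hj' (Fin.ext h.symm)), zero_mul]
      · intro h
        exact absurd (Finset.mem_univ j) h
  rw [hz0 j, Submodule.mem_bot] at hmem
  exact congrArg Subtype.val hmem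

end Pool.Agent.War


end

section

/-!
# Simultaneous Waring decompositions (MP_db021c_ag): pure case of the block lemma   (helper27)
-/

set_option autoImplicit false

open Module MvPolynomial
open Pool.Agent.War Pool.Agent.WarS

namespace Pool.Agent.WarM

theorem PB : S_PB := by
  intro n d b q μ hn hb hG hμ hm
  unfold Block
  rw [← hm]
  set N := NN n d with hN
  set r := N - μ - b * q with hr
  have hGen : Gen ℂ fun z : (Fin (b * q) ⊕ Fin r) → Fin n → ℂ => ∀ j : Fin b,
      finrank ℂ (Dbl n d (P0 q (b * q) b r le_rfl j) z) ≤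
        NN n d - (n * (P0 q (b * q) b r le_rfl j).card + Fintype.card (Fin (b * q) ⊕ Fin r)) :=
    Gen.forall fun j => SG n d _ _ hn (by rw [card_P0]; exact hG)
  obtain ⟨z, hz⟩ := hGen.exists
  have hz0 : ∀ j : Fin b, Dbl n d (P0 q (b * q) b r le_rfl j) z = ⊥ := by
    intro j
    have := hz j
    rw [card_P0, Fintype.card_sum, Fintype.card_fin, Fintype.card_fin] at this
    rw [← Submodule.finrank_eq_zero (R := ℂ)]
    omega
  refine ⟨fun i => z (Sum.inl i), fun i j => if i.val / q = j.val then 1 else 0,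
    fun i => z (Sum.inr i), ?_⟩
  intro f hf hf1 hf2 hf3 j
  have hmem : (⟨f j, mem_Pol.2 (hf j)⟩ : Pol n d) ∈ Dbl n d (P0 q (b * q) b r le_rfl j) z := by
    rw [mem_Dbl]
    refine ⟨?_, ?_⟩
    · rintro (i | i)
      · exact hf1 i j
      · exact hf3 i j
    · intro i hi k
      unfold P0 at hi
      rw [Finset.mem_image] at hi
      obtain ⟨t, -, rfl⟩ := hi
      have hlt : j.val * q + t.val < b * q := by
        have h1 : (j.val + 1) * q ≤ b * q := Nat.mul_le_mul_right _ j.isLt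
        have h2 := t.isLt
        rw [Nat.add_mul, one_mul] at h1
        omega
      have h5 := hf2 ⟨j.val * q + t.val, hlt⟩ k
      have hdiv : (j.val * q + t.val) / q = j.val := by
        have hq0 : 0 < q := lt_of_le_of_lt (Nat.zero_le _) t.isLt
        rw [add_comm, Nat.add_mul_div_right _ _ hq0, Nat.div_eq_of_lt t.isLt, zero_add]
      rw [Finset.sum_eq_single j] at h5
      · simp only [hdiv, if_true, one_mul] at h5
        exact h5
      · intro j' _ hj'
        simp only [hdiv]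
        rw [if_neg (fun h => hj' (Fin.ext h.symm)), zero_mul]
      · intro h
        exact absurd (Finset.mem_univ j) h
  rw [hz0 j, Submodule.mem_bot] at hmem
  exact congrArg Subtype.val hmem

end Pool.Agent.WarM


end

section

/-!
# Simultaneous Waring decompositions (MP_db021c_ag): the block lemma in all degrees   (helper27)
-/

set_option autoImplicit false

open Module MvPolynomial
open Pool.Agent.War

namespace Pool.Agent.WarM

/-- more simple points -/
theorem Block_anti {n d b μ μ' : ℕ} (h : Block n d b μ') (hμ : μ ≤ μ')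
    (hm : (b * μ' + n - 1) / n = (b * μ + n - 1) / n) : Block n d b μ := by
  unfold Block at h
  rw [hm] at h
  obtain ⟨z, a, y, hK⟩ := h
  refine ⟨z, a, fun i => if hi : i.val < NN n d - μ' - (b * μ + n - 1) / n then y ⟨i, hi⟩ else 0,
    ?_⟩
  intro f hf h1 h2 h3
  refine hK f hf h1 h2 fun i j => ?_
  have := h3 ⟨i.val, by omega⟩ j
  simpa using this

theorem NN_four_ge {m : ℕ} (hm : 2 ≤ m) : (2 * (m + 1) + 1) * m ≤ NN (m + 1) 4 := by
  have h := NNb_four (m + 1)
  obtain ⟨t, rfl⟩ : ∃ t, m = t + 2 := ⟨m - 2, by omega⟩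
  have e1 : (t + 2 + 1 + 4) * (t + 2 + 1 + 3) * (t + 2 + 1 + 2) * (t + 2 + 1 + 1) =
      t ^ 4 + 22 * t ^ 3 + 179 * t ^ 2 + 638 * t + 840 := by ring
  have e2 : (2 * (t + 2 + 1) + 1) * (t + 2) = 2 * t ^ 2 + 11 * t + 14 := by ring
  rw [e1] at h
  rw [e2]
  have : 0 ≤ t ^ 4 + 22 * t ^ 3 + 131 * t ^ 2 := Nat.zero_le _
  omega

theorem BLKA (hAH : S_AH) (hSB : S_SB) : S_BLKA := by
  intro n d b μ hn hd hb1 hbn hnμ hμ
  obtain ⟨ν, rfl⟩ : ∃ ν, n = ν + 1 := ⟨n - 1, by omega⟩
  have hμq : (ν + 1) * (μ / (ν + 1)) + μ % (ν + 1) = μ := Nat.div_add_mod μ (ν + 1)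
  have hDlt : μ % (ν + 1) < ν + 1 := Nat.mod_lt _ (by omega)
  have hq1 : 1 ≤ μ / (ν + 1) := (Nat.one_le_div_iff (by omega)).2 hnμ
  by_cases hD0 : μ % (ν + 1) = 0
  · -- `D = 0`
    rw [hD0, add_zero] at hμq
    clear hD0 hDlt
    generalize μ / (ν + 1) = q at hμq hq1
    have hG : GG (ν + 1) d q := by
      refine hAH _ _ _ (by omega) (by omega) ?_
      refine Nat.le_of_mul_le_mul_left (c := ν + 1) ?_ (by omega)
      calc (ν + 1) * ((2 * (ν + 1) + 1) * q) =
          (2 * (ν + 1) + 1) * ((ν + 1) * q) := by ring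
        _ ≤ _ := by rw [hμq]; exact hμ
    refine PB (ν + 1) d b q μ (by omega) hb1 hG hμq.ge ?_
    have := arith4C1 (b := b) (D := 0) (ν := ν) (q := q) (μ := μ) (by rw [add_zero]; exact hμq)
    rw [this, mul_zero, zero_add, Nat.div_eq_of_lt (show ν < ν + 1 by omega), add_zero]
  rcases Nat.lt_or_ge (μ / (ν + 1) + μ % (ν + 1)) (ν + 1) with hS | hS
  · -- small case
    obtain ⟨hc1, hc2, hc3⟩ := arith3C1 (b := b) hDlt hbn
    have hm := arith4C1 (b := b) hμq
    have hcl : (ν + 1) * ((b * (μ % (ν + 1)) + ν) / (ν + 1)) < b * (μ % (ν + 1)) + (ν + 1) := by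
      have := Nat.mul_div_le (b * (μ % (ν + 1)) + ν) (ν + 1)
      omega
    generalize μ / (ν + 1) = q at hS hm hμq hq1
    generalize μ % (ν + 1) = D at hS hm hμq hDlt hD0 hc1 hc2 hc3 hcl
    generalize (b * D + ν) / (ν + 1) = c at hc1 hc2 hc3 hm hcl
    have hD1 : 1 ≤ D := by omega
    have hN4 : (2 * (ν + 1) + 1) * ν ≤ NN (ν + 1) d :=
      (NN_four_ge (by omega)).trans (NN_mono_right hd)
    rcases Nat.lt_or_ge c b with hcb | hcb
    · -- `c < b`
      have hDD : D ≤ (ν + 1) * c / b := (Nat.le_div_iff_mul_le (by omega)).2 (by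
        rw [mul_comm D b]; exact hc3)
      have hD'1 : b * ((ν + 1) * c / b) ≤ (ν + 1) * c := Nat.mul_div_le _ _
      have hD'2 : (ν + 1) * c / b < ν + 1 := by
        rw [Nat.div_lt_iff_lt_mul (by omega)]
        exact Nat.mul_lt_mul_of_pos_left hcb (by omega)
      have hc0 : 1 ≤ c := by
        by_contra hc
        have : c = 0 := by omega
        subst this
        have : 1 ≤ b * D := Nat.mul_pos (by omega) (by omega)
        omega
      obtain ⟨D', hD'⟩ : ∃ D', D' = (ν + 1) * c / b := ⟨_, rfl⟩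
      rw [← hD'] at hDD hD'1 hD'2
      have hbD : b * D ≤ b * D' := Nat.mul_le_mul_left _ hDD
      have hm' : (b * ((ν + 1) * q + D') + (ν + 1) - 1) / (ν + 1) = b * q + c := by
        rw [arith4C1 rfl]
        congr 1
        refine Nat.div_eq_of_lt_le ?_ ?_
        · rw [mul_comm c]
          omega
        · rw [mul_comm (c + 1), mul_add, mul_one]
          omega
      have hB : Block (ν + 1) d b ((ν + 1) * q + D') := by
        rcases Nat.lt_or_ge (q + D') (ν + 1) with hS' | hS'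
        · exact hSB (ν + 1) d b c q D' hn hd hbn hc0 hcb hq1 hD' hS'
        · have e1 : ((ν + 1) * q + D') % (ν + 1) = D' := by
            rw [Nat.mul_add_mod, Nat.mod_eq_of_lt hD'2]
          have e2 : ((ν + 1) * q + D') / (ν + 1) = q := by
            rw [Nat.mul_add_div (by omega), Nat.div_eq_of_lt hD'2, add_zero]
          refine MB hAH (ν + 1) d b _ hn hd hb1 hbn ?_ (by rw [e1]; omega) (by rw [e1, e2]; exact hS')
          have e3 : (ν + 1) * q + D' ≤ (ν + 1) * ν := by
            have : (ν + 1) * (q + 1) ≤ (ν + 1) * ν := Nat.mul_le_mul_left _ (by omega)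
            rw [mul_add, mul_one] at this
            omega
          calc (2 * (ν + 1) + 1) * ((ν + 1) * q + D') ≤ (2 * (ν + 1) + 1) * ((ν + 1) * ν) :=
                Nat.mul_le_mul_left _ e3
            _ = (ν + 1) * ((2 * (ν + 1) + 1) * ν) := by ring
            _ ≤ _ := Nat.mul_le_mul_left _ hN4
      exact Block_anti hB (by omega) (by rw [hm', hm])
    · -- `c = b`
      have hcb' : c = b := by omega
      have hG : GG (ν + 1) d (q + 1) :=
        hAH _ _ _ (by omega) (by omega) ((Nat.mul_le_mul_left _ (by omega)).trans hN4)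
      refine PB (ν + 1) d b (q + 1) μ (by omega) hb1 hG (by rw [mul_add, mul_one]; omega) ?_
      rw [hm, hcb', mul_add, mul_one]
  · exact MB hAH (ν + 1) d b μ hn hd hb1 hbn hμ hD0 hS

end Pool.Agent.WarM


end

section

/-!
# Simultaneous Waring decompositions (MP_db021c_ag): from the block lemma to the theorem   (helper7)
-/

set_option autoImplicit false

open Module MvPolynomial

namespace Pool.Agent.War

/-- common zeros at all the points, derivative conditions at the points `ι i` -/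
def KG (n d : ℕ) {h : ℕ} {α γ : Type} [Fintype γ] (ι : α → Fin h) (a : α → γ → ℂ)
    (z : Fin h → Fin n → ℂ) : Prop :=
  ∀ f : γ → MvPolynomial (Fin n) ℂ, (∀ j, (f j).totalDegree ≤ d) →
    (∀ i j, eval (z i) (f j) = 0) →
    (∀ i k, ∑ j, a i j * eval (z (ι i)) (pderiv k (f j)) = 0) → ∀ j, f j = 0

/-- all the forms vanish at all the points -/
noncomputable def KZ1 (n d : ℕ) {h : ℕ} (γ : Type) (z : Fin h → Fin n → ℂ) :
    Submodule ℂ (γ → Pol n d) :=
  ⨅ q : Fin h × γ, LinearMap.ker ((ev n d (z q.1)).comp (LinearMap.proj q.2))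

/-- the derivative conditions -/
noncomputable def KZ2 (n d : ℕ) {h : ℕ} {α γ : Type} [Fintype γ] (ι : α → Fin h) (a : α → γ → ℂ)
    (z : Fin h → Fin n → ℂ) : Submodule ℂ (γ → Pol n d) :=
  ⨅ q : α × Fin n, LinearMap.ker (∑ j, a q.1 j •
      (dv n d q.2 (z (ι q.1))).comp (LinearMap.proj j))

theorem mem_KZ1 {n d h : ℕ} {γ : Type} (z : Fin h → Fin n → ℂ) (f : γ → Pol n d) :
    f ∈ KZ1 n d γ z ↔ ∀ i j, eval (z i) (f j : MvPolynomial (Fin n) ℂ) = 0 := by
  simp only [KZ1, Submodule.mem_iInf, LinearMap.mem_ker, LinearMap.comp_apply,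
      LinearMap.proj_apply, ev_apply, Prod.forall]

theorem mem_KZ2 {n d h : ℕ} {α γ : Type} [Fintype γ] (ι : α → Fin h) (a : α → γ → ℂ)
    (z : Fin h → Fin n → ℂ) (f : γ → Pol n d) :
    f ∈ KZ2 n d ι a z ↔
      ∀ i k, ∑ j, a i j * eval (z (ι i)) (pderiv k (f j : MvPolynomial (Fin n) ℂ)) = 0 := by
  simp only [KZ2, Submodule.mem_iInf, LinearMap.mem_ker,
      LinearMap.sum_apply, LinearMap.smul_apply, LinearMap.comp_apply,
      LinearMap.proj_apply, dv_apply, smul_eq_mul, Prod.forall]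

theorem PK_KZ1 (n d h : ℕ) (γ : Type) [Finite γ] :
    PK fun z : Fin h → Fin n → ℂ => KZ1 n d γ z := by
  refine PK.iInf fun q => PK.one (φ := fun z : Fin h → Fin n → ℂ =>
    (ev n d (z q.1)).comp (LinearMap.proj q.2 : (γ → Pol n d) →ₗ[ℂ] Pol n d)) fun f => ?_
  simp only [LinearMap.comp_apply, LinearMap.proj_apply, ev_apply]
  exact (LP_eval (f q.2 : MvPolynomial (Fin n) ℂ)).comp_linear (pt q.1)

theorem PK_KZ2 (n d h : ℕ) {α γ : Type} [Finite α] [Fintype γ] (ι : α → Fin h)
    (a : α → γ → ℂ) : PK fun z : Fin h → Fin n → ℂ => KZ2 n d ι a z := by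
  refine PK.iInf fun q => PK.one (φ := fun z : Fin h → Fin n → ℂ => ∑ j, a q.1 j •
    (dv n d q.2 (z (ι q.1))).comp
      (LinearMap.proj j : (γ → Pol n d) →ₗ[ℂ] Pol n d)) fun f => ?_
  simp only [LinearMap.sum_apply, LinearMap.smul_apply, LinearMap.comp_apply,
    LinearMap.proj_apply, dv_apply, smul_eq_mul]
  exact LP.sum _ fun j _ => (LP.const _).mul
    ((LP_eval (pderiv q.2 (f j : MvPolynomial (Fin n) ℂ))).comp_linear (pt (ι q.1)))

theorem KG_gen {n d h : ℕ} {α β γ : Type} [Fintype α] [Fintype γ] (e : α ⊕ β ≃ Fin h)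
    (z0 : α → Fin n → ℂ) (a : α → γ → ℂ) (y0 : β → Fin n → ℂ) (hK : Kill n d z0 a y0) :
    Gen ℂ fun z : Fin h → Fin n → ℂ => KG n d (fun i => e (Sum.inl i)) a z := by
  have hPK := (PK_KZ1 n d h γ).inf (PK_KZ2 n d h (fun i => e (Sum.inl i)) a)
  let zz : Fin h → Fin n → ℂ := fun i => Sum.elim z0 y0 (e.symm i)
  have hz1 : ∀ i, zz (e (Sum.inl i)) = z0 i := fun i => by simp [zz]
  have hz2 : ∀ i, zz (e (Sum.inr i)) = y0 i := fun i => by simp [zz]
  have h0 : KZ1 n d γ zz ⊓ KZ2 n d (fun i => e (Sum.inl i)) a zz = ⊥ := by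
    rw [Submodule.eq_bot_iff]
    intro f hf
    obtain ⟨h1, h2⟩ := Submodule.mem_inf.1 hf
    rw [mem_KZ1] at h1
    rw [mem_KZ2] at h2
    have h3 := hK (fun j => (f j : MvPolynomial (Fin n) ℂ)) (fun j => mem_Pol.1 (f j).2)
      (fun i j => by rw [← hz1 i]; exact h1 _ j)
      (fun i k => by rw [← hz1 i]; exact h2 i k)
      (fun i j => by rw [← hz2 i]; exact h1 _ j)
    funext j
    exact Subtype.ext (h3 j)
  refine (hPK.gen_bot h0).mono fun z hz f hd h1 h2 j => ?_
  have h3 : (fun j => (⟨f j, mem_Pol.2 (hd j)⟩ : Pol n d)) ∈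
      KZ1 n d γ z ⊓ KZ2 n d (fun i => e (Sum.inl i)) a z := by
    rw [Submodule.mem_inf, mem_KZ1, mem_KZ2]
    exact ⟨h1, h2⟩
  rw [hz, Submodule.mem_bot] at h3
  exact congrArg Subtype.val (congrFun h3 j)

theorem Kill_equiv {n d : ℕ} {α β γ γ' : Type} [Fintype γ] [Fintype γ'] (e : γ' ≃ γ)
    {z : α → Fin n → ℂ} {a : α → γ → ℂ} {y : β → Fin n → ℂ} (hK : Kill n d z a y) :
    Kill n d z (fun i j => a i (e j)) y := by
  intro f hd h1 h2 h3 j
  have h4 := hK (fun j => f (e.symm j)) (fun j => hd _) (fun i j => h1 i _)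
    (fun i k => by
      rw [← h2 i k, ← e.sum_comp]
      simp) (fun i j => h3 i _) (e j)
  simpa using h4

/-- assembly of the blocks -/
theorem asm {n d h : ℕ} {T : Type} [Fintype T] (b m c : T → ℕ) (hc : ∀ t, m t + c t = h)
    (hm : ∑ t, m t ≤ h)
    (H : ∀ t, ∃ (z : Fin (m t) → Fin n → ℂ) (a : Fin (m t) → Fin (b t) → ℂ)
      (y : Fin (c t) → Fin n → ℂ), Kill n d z a y) :
    ∃ (z : Fin h → Fin n → ℂ) (a : Fin h → ((t : T) × Fin (b t)) → ℂ) (y : Fin 0 → Fin n → ℂ),
      Kill n d z a y := by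
  classical
  choose z0 a0 y0 hK using H
  obtain ⟨ι⟩ : Nonempty (((t : T) × Fin (m t)) ↪ Fin h) := by
    refine Function.Embedding.nonempty_of_card_le ?_
    simpa using hm
  -- extend to equivalences
  have hE : ∀ t, ∃ e : Fin (m t) ⊕ Fin (c t) ≃ Fin h, ∀ i, e (Sum.inl i) = ι ⟨t, i⟩ := by
    intro t
    have hinj : Function.Injective fun i : Fin (m t) => ι ⟨t, i⟩ := by
      intro i i' hii
      have := ι.injective hii
      simpa using this
    let R : Set (Fin h) := Set.range fun i : Fin (m t) => ι ⟨t, i⟩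
    have e1 : Fin (m t) ≃ R := Equiv.ofInjective _ hinj
    have hcard : Fintype.card (↥(Rᶜ) : Type) = c t := by
      rw [Fintype.card_compl_set, Fintype.card_fin, ← Fintype.card_congr e1, Fintype.card_fin,
        ← hc t]
      omega
    have e2 : Fin (c t) ≃ ↥(Rᶜ) := (Fintype.equivFinOfCardEq hcard).symm
    refine ⟨(Equiv.sumCongr (Equiv.ofInjective _ hinj) e2).trans (Equiv.Set.sumCompl R), ?_⟩
    intro i
    simp [R]
  choose e he using hE
  obtain ⟨z, hz⟩ := (Gen.forall fun t => KG_gen (e t) (z0 t) (a0 t) (y0 t) (hK t)).exists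
  let A : Fin h → ((t : T) × Fin (b t)) → ℂ := fun i q =>
    ∑ i' : Fin (m q.1), if ι ⟨q.1, i'⟩ = i then a0 q.1 i' q.2 else 0
  have hA1 : ∀ t i j, A (ι ⟨t, i⟩) ⟨t, j⟩ = a0 t i j := by
    intro t i j
    show (∑ i' : Fin (m t), if ι ⟨t, i'⟩ = ι ⟨t, i⟩ then a0 t i' j else 0) = a0 t i j
    rw [Finset.sum_eq_single i]
    · simp
    · intro i' _ hi'
      rw [if_neg]
      intro hh
      have := ι.injective hh
      simp at this
      exact hi' this
    · simp
  have hA2 : ∀ t t' i j, t' ≠ t → A (ι ⟨t, i⟩) ⟨t', j⟩ = 0 := by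
    intro t t' i j ht'
    show (∑ i' : Fin (m t'), if ι ⟨t', i'⟩ = ι ⟨t, i⟩ then a0 t' i' j else 0) = 0
    refine Finset.sum_eq_zero fun i' _ => ?_
    rw [if_neg]
    intro hh
    exact ht' (congrArg Sigma.fst (ι.injective hh))
  refine ⟨z, A, fun i => i.elim0, ?_⟩
  rintro f hd h1 h2 - ⟨t, j⟩
  refine hz t (fun j => f ⟨t, j⟩) (fun j => hd _) (fun i j => h1 i _) (fun i k => ?_) j
  have h3 := h2 (ι ⟨t, i⟩) k
  rw [Fintype.sum_sigma, Finset.sum_eq_single t] at h3
  · rw [← h3]
    refine Finset.sum_congr rfl fun j _ => ?_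
    rw [hA1]
    simp only [he]
  · intro t' _ ht'
    refine Finset.sum_eq_zero fun j _ => ?_
    rw [hA2 _ _ _ _ ht', zero_mul]
  · simp

theorem TOP (hB : S_BLK) (hSC : S_SC) : S_TOP := by
  intro n d s h hn hd hs hsh hN hmain
  obtain ⟨μ, hμ⟩ : ∃ μ, NN n d = h + μ := ⟨NN n d - h, by omega⟩
  have hμ0 : 0 < μ := by omega
  have h1 : s * μ ≤ n * h := by
    rw [hμ] at hmain
    nlinarith
  have hn3 : 4 * n ≤ n ^ 3 := by
    have : n ^ 3 = n * n * n := by ring
    rw [this]
    nlinarith [Nat.mul_le_mul hn hn]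
  rcases Nat.lt_or_ge μ n with hlt | hge
  · -- one double point for each form
    obtain ⟨z, a, y, hK⟩ := asm (n := n) (d := d) (h := h) (T := Fin s) (fun _ => 1) (fun _ => 1)
      (fun _ => h - 1) (fun _ => by omega) (by simpa using hsh) (fun _ => by
        obtain ⟨z, hz⟩ := (hSC n d (Fin 1 ⊕ Fin (h - 1)) {Sum.inl 0} (by omega) (Or.inr ⟨by omega, by
          have h2 := AR_ge (n - 1) (d - 2 * n)
          rw [Nat.sub_add_cancel (by omega)] at h2
          rw [Finset.card_singleton]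
          omega⟩)).exists
        have hz0 : Dbl n d {Sum.inl 0} z = ⊥ := by
          rw [← Submodule.finrank_eq_zero]
          have : NN n d - (n * ({Sum.inl 0} : Finset (Fin 1 ⊕ Fin (h - 1))).card +
              Fintype.card (Fin 1 ⊕ Fin (h - 1))) = 0 := by
            rw [Finset.card_singleton, Fintype.card_sum, Fintype.card_fin, Fintype.card_fin]
            omega
          omega
        refine ⟨fun i => z (Sum.inl i), fun _ _ => 1, fun i => z (Sum.inr i), ?_⟩
        intro f hdf k1 k2 k3 j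
        have hj : j = 0 := Subsingleton.elim _ _
        subst hj
        have hm : (⟨f 0, mem_Pol.2 (hdf 0)⟩ : Pol n d) ∈ Dbl n d {Sum.inl 0} z := by
          rw [mem_Dbl]
          refine ⟨?_, ?_⟩
          · rintro (i | i)
            · exact k1 i 0
            · exact k3 i 0
          · intro i hi k
            rw [Finset.mem_singleton] at hi
            subst hi
            simpa using k2 0 k
        rw [hz0, Submodule.mem_bot] at hm
        exact congrArg Subtype.val hm)
    have hcard : Fintype.card ((t : Fin s) × Fin 1) = s := by simp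
    exact ⟨z, _, y, Kill_equiv (Fintype.equivFinOfCardEq hcard).symm hK⟩
  · -- blocks
    have hsn := Nat.div_add_mod s n
    set k := s / n with hk
    set b' := s % n with hb'
    have hb'n : b' < n := Nat.mod_lt _ (by omega)
    let b : Option (Fin k) → ℕ := fun t => t.elim b' fun _ => n
    let m : Option (Fin k) → ℕ := fun t => (b t * μ + n - 1) / n
    have hmn : ∀ i : Fin k, m (some i) = μ := by
      intro i
      show (n * μ + n - 1) / n = μ
      have : n * μ + n - 1 = (n - 1) + n * μ := by omega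
      rw [this, Nat.add_mul_div_left _ _ (by omega), Nat.div_eq_of_lt (by omega), zero_add]
    have hkμ : n * (k * μ) + b' * μ ≤ n * h := by
      have : n * (k * μ) + b' * μ = (n * k + b') * μ := by ring
      rw [this, hsn]
      exact h1
    have hkh : k * μ ≤ h := by
      have : n * (k * μ) ≤ n * h := by omega
      exact Nat.le_of_mul_le_mul_left this (by omega)
    have hm0 : m none ≤ h - k * μ := by
      show (b' * μ + n - 1) / n ≤ h - k * μ
      have h2 : n * (h - k * μ) = n * h - n * (k * μ) := Nat.mul_sub _ _ _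
      have h3 : b' * μ + n - 1 < n * ((h - k * μ) + 1) := by
        rw [mul_add, h2]
        omega
      rw [mul_comm n] at h3
      exact Nat.lt_succ_iff.1 ((Nat.div_lt_iff_lt_mul (by omega)).2 h3)
    have hsum : ∑ t, m t ≤ h := by
      rw [Fintype.sum_option]
      simp only [hmn, Finset.sum_const, Finset.card_univ, Fintype.card_fin, smul_eq_mul]
      omega
    have hmle : ∀ t, m t ≤ h := fun t =>
      (Finset.single_le_sum (f := m) (fun _ _ => Nat.zero_le _) (Finset.mem_univ t)).trans hsum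
    have hBH : ∀ b'', 1 ≤ b'' → b'' ≤ n → BH n d b'' μ := by
      intro b'' hb1 hb2
      refine ⟨hn, hd, hb1, hb2, hge, ?_⟩
      rw [hμ]
      nlinarith
    obtain ⟨z, a, y, hK⟩ := asm (n := n) (d := d) (h := h) b m (fun t => NN n d - μ - m t)
      (fun t => by
        have := hmle t
        omega) hsum (fun t => by
        cases t with
        | none =>
          rcases Nat.eq_zero_or_pos b' with h0 | h0
          · refine ⟨fun _ _ => 0, fun _ _ => 0, fun _ _ => 0, ?_⟩
            intro f _ _ _ _ j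
            exact absurd j.2 (by simp [b, h0])
          · exact hB n d b' μ (hBH b' h0 hb'n.le)
        | some i => exact hB n d n μ (hBH n (by omega) le_rfl))
    have hcard : Fintype.card ((t : Option (Fin k)) × Fin (b t)) = s := by
      simp only [Fintype.card_sigma, Fintype.card_fin]
      rw [Fintype.sum_option]
      simp only [b, Option.elim, Finset.sum_const, Finset.card_univ, Fintype.card_fin,
        smul_eq_mul]
      rw [← hsn]
      ring
    exact ⟨z, _, y, Kill_equiv (Fintype.equivFinOfCardEq hcard).symm hK⟩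

end Pool.Agent.War


end

section

/-!
# Simultaneous Waring decompositions (MP_db021c_ag): from the block lemma to the theorem   (helper27)
-/

set_option autoImplicit false

open Module MvPolynomial
open Pool.Agent.War Pool.Agent.WarS

namespace Pool.Agent.WarM

/-- fewer than `n` derivative conditions for each form: one double point for each form -/
theorem top_small {n d s h μ : ℕ} (hn : 1 ≤ n) (hd : 1 ≤ d) (hsh : s ≤ h) (h1 : 1 ≤ h)
    (hμ : NN n d = h + μ) (hlt : μ ≤ n) :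
    ∃ (z : Fin h → Fin n → ℂ) (a : Fin h → Fin s → ℂ) (y : Fin 0 → Fin n → ℂ), Kill n d z a y := by
  obtain ⟨z, a, y, hK⟩ := asm (n := n) (d := d) (h := h) (T := Fin s) (fun _ => 1) (fun _ => 1)
    (fun _ => h - 1) (fun _ => by omega) (by simpa using hsh) (fun _ => by
      obtain ⟨z, hz⟩ := (SG n d (Fin 1 ⊕ Fin (h - 1)) {Sum.inl 0} hn (by
        rw [Finset.card_singleton]
        exact ONE n d hd)).exists
      have hz0 : Dbl n d {Sum.inl 0} z = ⊥ := by
        rw [← Submodule.finrank_eq_zero]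
        have : NN n d - (n * ({Sum.inl 0} : Finset (Fin 1 ⊕ Fin (h - 1))).card +
            Fintype.card (Fin 1 ⊕ Fin (h - 1))) = 0 := by
          rw [Finset.card_singleton, Fintype.card_sum, Fintype.card_fin, Fintype.card_fin]
          omega
        omega
      refine ⟨fun i => z (Sum.inl i), fun _ _ => 1, fun i => z (Sum.inr i), ?_⟩
      intro f hdf k1 k2 k3 j
      have hj : j = 0 := Subsingleton.elim _ _
      subst hj
      have hm : (⟨f 0, mem_Pol.2 (hdf 0)⟩ : Pol n d) ∈ Dbl n d {Sum.inl 0} z := by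
        rw [mem_Dbl]
        refine ⟨?_, ?_⟩
        · rintro (i | i)
          · exact k1 i 0
          · exact k3 i 0
        · intro i hi k
          rw [Finset.mem_singleton] at hi
          subst hi
          simpa using k2 0 k
      rw [hz0, Submodule.mem_bot] at hm
      exact congrArg Subtype.val hm)
  have hcard : Fintype.card ((t : Fin s) × Fin 1) = s := by simp
  exact ⟨z, _, y, Kill_equiv (Fintype.equivFinOfCardEq hcard).symm hK⟩

theorem TOPA (hB : S_BLKA) : S_TOPA := by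
  intro n d s h hn hd hs hsh hN hmain
  obtain ⟨μ, hμ⟩ : ∃ μ, NN n d = h + μ := ⟨NN n d - h, by omega⟩
  have hμ0 : 0 < μ := by omega
  have h1 : s * μ ≤ n * h := by
    rw [hμ] at hmain
    nlinarith
  rcases Nat.lt_or_ge μ n with hlt | hge
  · exact top_small (by omega) (by omega) hsh (by omega) hμ hlt.le
  · -- blocks
    have hsn := Nat.div_add_mod s n
    set k := s / n with hk
    set b' := s % n with hb'
    have hb'n : b' < n := Nat.mod_lt _ (by omega)
    let b : Option (Fin k) → ℕ := fun t => t.elim b' fun _ => n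
    let m : Option (Fin k) → ℕ := fun t => (b t * μ + n - 1) / n
    have hmn : ∀ i : Fin k, m (some i) = μ := by
      intro i
      show (n * μ + n - 1) / n = μ
      have : n * μ + n - 1 = (n - 1) + n * μ := by omega
      rw [this, Nat.add_mul_div_left _ _ (by omega), Nat.div_eq_of_lt (by omega), zero_add]
    have hkμ : n * (k * μ) + b' * μ ≤ n * h := by
      have : n * (k * μ) + b' * μ = (n * k + b') * μ := by ring
      rw [this, hsn]
      exact h1
    have hkh : k * μ ≤ h := by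
      have : n * (k * μ) ≤ n * h := by omega
      exact Nat.le_of_mul_le_mul_left this (by omega)
    have hm0 : m none ≤ h - k * μ := by
      show (b' * μ + n - 1) / n ≤ h - k * μ
      have h2 : n * (h - k * μ) = n * h - n * (k * μ) := Nat.mul_sub _ _ _
      have h3 : b' * μ + n - 1 < n * ((h - k * μ) + 1) := by
        rw [mul_add, h2]
        omega
      rw [mul_comm n] at h3
      exact Nat.lt_succ_iff.1 ((Nat.div_lt_iff_lt_mul (by omega)).2 h3)
    have hsum : ∑ t, m t ≤ h := by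
      rw [Fintype.sum_option]
      simp only [hmn, Finset.sum_const, Finset.card_univ, Fintype.card_fin, smul_eq_mul]
      omega
    have hmle : ∀ t, m t ≤ h := fun t =>
      (Finset.single_le_sum (f := m) (fun _ _ => Nat.zero_le _) (Finset.mem_univ t)).trans hsum
    have hBn : (2 * n + 1) * μ ≤ n * NN n d := by
      rw [hμ]
      nlinarith
    obtain ⟨z, a, y, hK⟩ := asm (n := n) (d := d) (h := h) b m (fun t => NN n d - μ - m t)
      (fun t => by
        have := hmle t
        omega) hsum (fun t => by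
        cases t with
        | none =>
          rcases Nat.eq_zero_or_pos b' with h0 | h0
          · refine ⟨fun _ _ => 0, fun _ _ => 0, fun _ _ => 0, ?_⟩
            intro f _ _ _ _ j
            exact absurd j.2 (by simp [b, h0])
          · exact hB n d b' μ hn hd h0 hb'n.le hge hBn
        | some i => exact hB n d n μ hn hd (by omega) le_rfl hge hBn)
    have hcard : Fintype.card ((t : Option (Fin k)) × Fin (b t)) = s := by
      simp only [Fintype.card_sigma, Fintype.card_fin]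
      rw [Fintype.sum_option]
      simp only [b, Option.elim, Finset.sum_const, Finset.card_univ, Fintype.card_fin,
        smul_eq_mul]
      rw [← hsn]
      ring
    exact ⟨z, _, y, Kill_equiv (Fintype.equivFinOfCardEq hcard).symm hK⟩

end Pool.Agent.WarM


end

section

/-!
# Simultaneous Waring decompositions (MP_db021c_ag): the block lemma for cubics   (helper63)
-/

set_option autoImplicit false

open Module MvPolynomial
open Pool.Agent.War Pool.Agent.WarS

namespace Pool.Agent.WarC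

namespace BLKCaux

/-- more simple points (as `WarM.Block_anti`) -/
theorem anti {n d b μ μ' : ℕ} (h : Block n d b μ') (hμ : μ ≤ μ')
    (hm : (b * μ' + n - 1) / n = (b * μ + n - 1) / n) : Block n d b μ := by
  unfold Block at h
  rw [hm] at h
  obtain ⟨z, a, y, hK⟩ := h
  refine ⟨z, a, fun i => if hi : i.val < NN n d - μ' - (b * μ + n - 1) / n then y ⟨i, hi⟩ else 0,
    ?_⟩
  intro f hf h1 h2 h3
  refine hK f hf h1 h2 fun i j => ?_
  have := h3 ⟨i.val, by omega⟩ j
  simpa using this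

theorem six_NN (m : ℕ) : 6 * NN m 3 = (m + 1) * (m + 2) * (m + 3) := by
  have h2 : ∀ k : ℕ, 2 * NN k 2 = (k + 1) * (k + 2) := by
    intro k
    induction k with
    | zero => rfl
    | succ k ih =>
      rw [NN_succ, NN_right_one]
      nlinarith
  induction m with
  | zero => rfl
  | succ m ih =>
    rw [NN_succ]
    have h := h2 (m + 1)
    nlinarith

/-- the number of double points is small enough for `CUB` -/
theorem cub_q {n q : ℕ} (hn : 3 ≤ n) (h : (2 * n + 1) * (n * q + 1) ≤ n * NN n 3) :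
    9 * (q + 1) ≤ (n + 3) ^ 2 := by
  have h6 := six_NN n
  by_contra hcon
  have h1 : (n + 3) ^ 2 + 1 ≤ 9 * (q + 1) := by omega
  have h2 : 6 * ((2 * n + 1) * (n * q + 1)) ≤ n * ((n + 1) * (n + 2) * (n + 3)) := by
    rw [← h6]
    nlinarith
  have h3 : 6 * ((2 * n + 1) * (n * q)) < n * ((n + 1) * (n + 2) * (n + 3)) := by
    nlinarith
  have h4 : n * (6 * ((2 * n + 1) * q)) < n * ((n + 1) * (n + 2) * (n + 3)) := by
    calc n * (6 * ((2 * n + 1) * q)) = 6 * ((2 * n + 1) * (n * q)) := by ring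
      _ < _ := h3
  have h5 : 6 * ((2 * n + 1) * q) < (n + 1) * (n + 2) * (n + 3) := Nat.lt_of_mul_lt_mul_left h4
  obtain ⟨t, rfl⟩ : ∃ t, n = t + 3 := ⟨n - 3, by omega⟩
  have e1 : (t + 3 + 1) * (t + 3 + 2) * (t + 3 + 3) = t ^ 3 + 15 * t ^ 2 + 74 * t + 120 := by ring
  have e2 : (t + 3 + 3) ^ 2 = t ^ 2 + 12 * t + 36 := by ring
  rw [e1] at h5
  rw [e2] at h1
  have h7 : (2 * (t + 3) + 1) * (t ^ 2 + 12 * t + 28) ≤ (2 * (t + 3) + 1) * (9 * q) :=
    Nat.mul_le_mul_left _ (by omega)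
  have e3 : (2 * (t + 3) + 1) * (t ^ 2 + 12 * t + 28) =
      2 * t ^ 3 + 31 * t ^ 2 + 140 * t + 196 := by ring
  have e4 : (2 * (t + 3) + 1) * (9 * q) = 9 * ((2 * (t + 3) + 1) * q) := by ring
  rw [e3, e4] at h7
  have h8 : 0 ≤ t ^ 3 := Nat.zero_le _
  omega

theorem NN_ge {n : ℕ} (hn : 3 ≤ n) : (2 * n + 1) * (n - 1) ≤ NN n 3 := by
  obtain ⟨t, rfl⟩ : ∃ t, n = t + 3 := ⟨n - 3, by omega⟩
  have h6 := six_NN (t + 3)
  have e1 : (t + 3 + 1) * (t + 3 + 2) * (t + 3 + 3) = t ^ 3 + 15 * t ^ 2 + 74 * t + 120 := by ring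
  have e2 : 6 * ((2 * (t + 3) + 1) * (t + 3 - 1)) = 12 * t ^ 2 + 66 * t + 84 := by
    rw [show t + 3 - 1 = t + 2 by omega]
    ring
  rw [e1] at h6
  have h8 : 0 ≤ t ^ 3 := Nat.zero_le _
  have h9 : 0 ≤ t ^ 2 := Nat.zero_le _
  omega

/-- number of full points for each form -/
def rr (b c r : ℕ) (k : Fin b) : ℕ := if k.val < c then r + 1 else r

theorem sum_rr {b c r : ℕ} (hc : c ≤ b) : ∑ k, rr b c r k = b * r + c := by
  have h : ∀ k : Fin b, rr b c r k = r + if k.val < c then 1 else 0 := by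
    intro k
    unfold rr
    split_ifs <;> rfl
  rw [Finset.sum_congr rfl fun k _ => h k, Finset.sum_add_distrib, Finset.sum_const,
    Finset.card_univ, Fintype.card_fin, smul_eq_mul]
  congr 1
  rw [Fin.sum_univ_eq_sum_range (fun j => if j < c then 1 else 0) b, ← Finset.sum_filter,
    Finset.sum_const, smul_eq_mul, mul_one]
  have : (Finset.range b).filter (fun x => x < c) = Finset.range c := by
    ext x
    simp only [Finset.mem_filter, Finset.mem_range]
    omega
  rw [this, Finset.card_range]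

/-- the main case -/
theorem main (hP : S_PERT) (hC : S_COR3) (hN : S_NUMC) {ν b q D : ℕ} (hn : 3 ≤ ν + 1) (hb : 2 ≤ b)
    (hbn : b ≤ ν + 1) (hD : 1 ≤ D) (hDn : D < ν + 1) (hq : ν + 1 ≤ q + D)
    (hμ : (2 * (ν + 1) + 1) * ((ν + 1) * q + D) ≤ (ν + 1) * NN (ν + 1) 3)
    (hX : ¬ XB (ν + 1) b ((ν + 1) * q + D)) : Block (ν + 1) 3 b ((ν + 1) * q + D) := by
  obtain ⟨hc1, hc2, hc3⟩ := arith3C1 (b := b) hDn hbn
  have hm := arith4C1 (b := b) (rfl : (ν + 1) * q + D = (ν + 1) * q + D)
  have hcl : (ν + 1) * ((b * D + ν) / (ν + 1)) < b * D + (ν + 1) := by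
    have := Nat.mul_div_le (b * D + ν) (ν + 1)
    omega
  generalize (b * D + ν) / (ν + 1) = c at hc1 hc2 hc3 hm hcl
  obtain ⟨u, r, e, hur, huD, hu1, hu2, hr, hsum, hoff⟩ := hN (ν + 1) b q D c hn hb hbn hD hDn hq hc3
    hcl hμ hX
  rw [show ν + 1 - 1 = ν by omega] at hu1
  obtain ⟨β, rfl⟩ : ∃ β, b = β + 2 := ⟨b - 2, by omega⟩
  have hN : NN (ν + 1) 3 = NN ν 3 + NN (ν + 1) 2 := NN_succ ν 2
  -- the residual
  have hσ : ∀ k : Fin (β + 2), finRotate (β + 2) k ≠ k := by
    intro k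
    rw [finRotate_apply]
    intro h
    have h1 : (1 : Fin (β + 2)) = 0 := by
      have : k + 1 = k + 0 := by rw [h, add_zero]
      exact add_left_cancel this
    exact absurd h1 (by
      intro h2
      have := congrArg Fin.val h2
      simp at this)
  have hch : (r + 1).choose 2 = r.choose 2 + r := by
    rw [Nat.choose_succ_succ' r 1, Nat.choose_one_right, add_comm]
  have hrn : (ν + 1) * (r + 1) = (ν + 1) * r + (ν + 1) := by ring
  obtain ⟨x, hx⟩ := hP (ν + 1) (β + 2) e ((ν + 1) * r + D + u) (rr (β + 2) c r)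
    (finRotate (β + 2)) (by omega) hσ (fun k => by unfold rr; split_ifs <;> omega)
    (by rw [sum_rr hc1]; omega)
    (fun k => by
      unfold rr
      split_ifs <;> (try rw [hch]) <;> (try rw [hrn]) <;> omega)
  rw [sum_rr hc1] at hx
  have hx' : finrank ℂ (TrC1 (ν + 1) 2 x) ≤ (β + 2) * u := by
    refine hx.trans ?_
    have e1 : (β + 2) * ((ν + 1) * r + D + u) =
        (ν + 1) * ((β + 2) * r) + (β + 2) * D + (β + 2) * u := by ring
    have e2 : (ν + 1) * ((β + 2) * r + c) = (ν + 1) * ((β + 2) * r) + (ν + 1) * c := by ring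
    rw [e1, e2]
    omega
  have e3 : (ν + (β + 2)) * u = ν * u + (β + 2) * u := by ring
  obtain ⟨z, a, y, hK⟩ := hC ν (β + 2) u e (NN ν 3 - (ν + (β + 2)) * u)
    ((k : Fin (β + 2)) × Fin (rr (β + 2) c r k)) (by omega)
    (War5.CUB ν u (by rw [show ν + 3 = ν + 1 + 2 by omega]; exact hu2)) (by omega)
    (by simp only [Fintype.card_sigma, Fintype.card_fin, sum_rr hc1]; omega) ⟨x, hx'⟩
  have e4 : (β + 2) * q = (β + 2) * u + (β + 2) * r := by rw [← hur]; ring
  have e5 : (ν + 1) * q = ν * u + u + (ν + 1) * r := by rw [← hur]; ring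
  have hcα : Fintype.card ((Fin (β + 2) × Fin u) ⊕
      ((k : Fin (β + 2)) × Fin (rr (β + 2) c r k))) =
      ((β + 2) * ((ν + 1) * q + D) + (ν + 1) - 1) / (ν + 1) := by
    simp only [Fintype.card_sum, Fintype.card_prod, Fintype.card_fin, Fintype.card_sigma,
      sum_rr hc1]
    rw [hm]
    omega
  have hcβ : Fintype.card (Fin (NN ν 3 - (ν + (β + 2)) * u) ⊕ Fin e) =
      NN (ν + 1) 3 - ((ν + 1) * q + D) - ((β + 2) * ((ν + 1) * q + D) + (ν + 1) - 1) / (ν + 1) := by
    simp only [Fintype.card_sum, Fintype.card_fin]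
    rw [hm]
    omega
  exact ⟨_, _, _, hK.reindexC1 (Fintype.equivFinOfCardEq hcα).symm
    (Fintype.equivFinOfCardEq hcβ).symm⟩

end BLKCaux

open _root_.Pool.Agent.WarC.BLKCaux in
theorem x_BLKC (hS : S_SM3) (hP : S_PERT) (hC : S_COR3) (hN : S_NUMC) : S_BLKC := by
  intro n b μ hn hb1 hbn hnμ hμ hX
  obtain ⟨ν, rfl⟩ : ∃ ν, n = ν + 1 := ⟨n - 1, by omega⟩
  have hμq : (ν + 1) * (μ / (ν + 1)) + μ % (ν + 1) = μ := Nat.div_add_mod μ (ν + 1)
  have hDlt : μ % (ν + 1) < ν + 1 := Nat.mod_lt _ (by omega)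
  have hq1 : 1 ≤ μ / (ν + 1) := (Nat.one_le_div_iff (by omega)).2 hnμ
  by_cases hD0 : μ % (ν + 1) = 0
  · -- `D = 0`
    rw [hD0, add_zero] at hμq
    clear hD0 hDlt
    generalize μ / (ν + 1) = q at hμq hq1
    have hm := arith4C1 (b := b) (D := 0) (ν := ν) (q := q) (μ := μ) (by rw [add_zero]; exact hμq)
    obtain ⟨q', rfl⟩ : ∃ q', q = q' + 1 := ⟨q - 1, by omega⟩
    have hG : GG (ν + 1) 3 (q' + 1) := by
      refine War5.CUB _ _ (cub_q hn ((Nat.mul_le_mul_left _ ?_).trans hμ))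
      rw [← hμq, mul_add, mul_one]
      omega
    refine WarM.PB (ν + 1) 3 b (q' + 1) μ (by omega) hb1 hG hμq.ge ?_
    rw [hm, mul_zero, zero_add, Nat.div_eq_of_lt (show ν < ν + 1 by omega), add_zero]
  obtain ⟨hc1, hc2, hc3⟩ := arith3C1 (b := b) hDlt hbn
  have hm := arith4C1 (b := b) hμq
  have hcl : (ν + 1) * ((b * (μ % (ν + 1)) + ν) / (ν + 1)) < b * (μ % (ν + 1)) + (ν + 1) := by
    have := Nat.mul_div_le (b * (μ % (ν + 1)) + ν) (ν + 1)
    omega
  generalize μ / (ν + 1) = q at hm hμq hq1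
  generalize μ % (ν + 1) = D at hm hμq hDlt hD0 hc1 hc2 hc3 hcl
  have hD1 : 1 ≤ D := by omega
  subst hμq
  have hpure : (b * D + ν) / (ν + 1) = b → Block (ν + 1) 3 b ((ν + 1) * q + D) := by
    intro hcb
    have hG : GG (ν + 1) 3 (q + 1) := by
      refine War5.CUB _ _ (cub_q hn ((Nat.mul_le_mul_left _ ?_).trans hμ))
      omega
    refine WarM.PB (ν + 1) 3 b (q + 1) _ (by omega) hb1 hG (by rw [mul_add, mul_one]; omega) ?_
    rw [hm, hcb, mul_add, mul_one]
  generalize (b * D + ν) / (ν + 1) = c at hc1 hc2 hc3 hm hcl hpure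
  have hc0 : 1 ≤ c := by
    by_contra hc
    have : c = 0 := by omega
    subst this
    have : 1 ≤ b * D := Nat.mul_pos (by omega) (by omega)
    omega
  rcases Nat.lt_or_ge c b with hcb | hcb
  swap
  · exact hpure (by omega)
  have hb2 : 2 ≤ b := by omega
  rcases Nat.lt_or_ge (q + D) (ν + 1) with hS1 | hS1
  swap
  · exact main hP hC hN hn hb2 hbn hD1 hDlt hS1 hμ hX
  -- small case
  have hDD : D ≤ (ν + 1) * c / b := (Nat.le_div_iff_mul_le (by omega)).2 (by
    rw [mul_comm D b]; exact hc3)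
  have hD'1 : b * ((ν + 1) * c / b) ≤ (ν + 1) * c := Nat.mul_div_le _ _
  have hD'3 : (ν + 1) * c < b * ((ν + 1) * c / b + 1) := by
    have h1 := Nat.div_add_mod ((ν + 1) * c) b
    have h2 : ((ν + 1) * c) % b < b := Nat.mod_lt _ (by omega)
    rw [mul_add, mul_one]
    omega
  have hD'2 : (ν + 1) * c / b < ν + 1 := by
    rw [Nat.div_lt_iff_lt_mul (by omega)]
    exact Nat.mul_lt_mul_of_pos_left hcb (by omega)
  generalize (ν + 1) * c / b = D' at hDD hD'1 hD'2 hD'3
  have hbD : b * D ≤ b * D' := Nat.mul_le_mul_left _ hDD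
  have hm' : (b * ((ν + 1) * q + D') + (ν + 1) - 1) / (ν + 1) = b * q + c := by
    rw [arith4C1 rfl]
    congr 1
    refine Nat.div_eq_of_lt_le ?_ ?_
    · rw [mul_comm c]
      omega
    · rw [mul_comm (c + 1), mul_add, mul_one]
      omega
  have hB : Block (ν + 1) 3 b ((ν + 1) * q + D') := by
    rcases Nat.lt_or_ge (q + D') (ν + 1) with hS' | hS'
    · exact hS (ν + 1) b c D' q hc0 hcb hbn hD'1 hD'3 (by omega) hq1 hS'
    · have h0 : (ν + 1) * (q + 1) ≤ (ν + 1) * ν := Nat.mul_le_mul_left _ (by omega)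
      have h0' : (ν + 1) * (q + 1) = (ν + 1) * q + (ν + 1) := by ring
      have h1 : (ν + 1) * q + D' ≤ (ν + 1) * ν := by omega
      refine main hP hC hN hn hb2 hbn (by omega) hD'2 hS' ?_ ?_
      · have h2 := NN_ge hn
        rw [show ν + 1 - 1 = ν by omega] at h2
        calc (2 * (ν + 1) + 1) * ((ν + 1) * q + D') ≤ (2 * (ν + 1) + 1) * ((ν + 1) * ν) :=
              Nat.mul_le_mul_left _ h1
          _ = (ν + 1) * ((2 * (ν + 1) + 1) * ν) := by ring
          _ ≤ _ := Nat.mul_le_mul_left _ h2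
      · rintro (⟨h3, -, h4⟩ | ⟨h3, -, h4⟩ | ⟨h3, -, h4⟩)
        · have : ν = 3 := by omega
          subst this
          omega
        · have : ν = 3 := by omega
          subst this
          omega
        · have : ν = 4 := by omega
          subst this
          omega
  exact anti hB (by omega) (by rw [hm', hm])

end Pool.Agent.WarC


end

section

/-!
# Simultaneous Waring decompositions (MP_db021c_ag): the trade lemma   (helper50)
-/

set_option autoImplicit false

open Module MvPolynomial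
open Pool.Agent.War Pool.Agent.WarS Pool.Agent.WarQ

namespace Pool.Agent.WarC

namespace TRDaux

/-- polynomials of degree `≤ 1` are affine -/
theorem eval_aff {σ : Type} [Fintype σ] (g : MvPolynomial σ ℂ) (hg : g.totalDegree ≤ 1)
    (u v w : σ → ℂ) : eval (u + (v - w)) g = eval u g + eval v g - eval w g := by
  classical
  have key : ∀ m ∈ g.support, ∏ i, ((u + (v - w)) i) ^ m i =
      ∏ i, u i ^ m i + ∏ i, v i ^ m i - ∏ i, w i ^ m i := by
    intro m hm
    have h1 : (m.sum fun _ e => e) ≤ 1 := (le_totalDegree hm).trans hg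
    rcases Nat.lt_or_ge (m.sum fun _ e => e) 1 with h | h
    · have h0 : m = 0 := by
        ext i
        by_contra hi
        have hi0 : m i ≠ 0 := hi
        have hi' : i ∈ m.support := Finsupp.mem_support_iff.2 hi0
        have h2 := Finset.single_le_sum (f := fun i => m i) (fun _ _ => Nat.zero_le _) hi'
        have h3 : (m.sum fun _ e => e) = ∑ x ∈ m.support, m x := rfl
        omega
      simp [h0]
    · obtain ⟨a, rfl⟩ := (Finsupp.sum_eq_one_iff m).1 (le_antisymm h1 h)
      have h2 : ∀ z : σ → ℂ, ∏ i, z i ^ (Finsupp.single a 1 : σ →₀ ℕ) i = z a := by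
        intro z
        rw [Finset.prod_eq_single a]
        · simp
        · intro c _ hc
          simp [hc.symm]
        · simp
      rw [h2, h2, h2, h2]
      simp only [Pi.add_apply, Pi.sub_apply]
      ring
  rw [eval_eq', eval_eq', eval_eq', eval_eq', ← Finset.sum_add_distrib,
    ← Finset.sum_sub_distrib]
  refine Finset.sum_congr rfl fun m hm => ?_
  rw [key m hm]
  ring

/-- extension by `0` of the dependence on `x_0` -/
noncomputable def lift (ν : ℕ) : Pol ν 2 →ₗ[ℂ] Pol (ν + 1) 2 :=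
  (rename Fin.succ : MvPolynomial (Fin ν) ℂ →ₐ[ℂ] MvPolynomial (Fin (ν + 1)) ℂ).toLinearMap.restrict
    fun _ hf => mem_Pol.2 ((totalDegree_rename_le _ _).trans (mem_Pol.1 hf))

theorem lift_coe (ν : ℕ) (f : Pol ν 2) : ((lift ν f : Pol (ν + 1) 2) :
    MvPolynomial (Fin (ν + 1)) ℂ) = rename Fin.succ (f : MvPolynomial (Fin ν) ℂ) := rfl

theorem eval_lift (ν : ℕ) (f : Pol ν 2) (P : Fin (ν + 1) → ℂ) :
    eval P (lift ν f : MvPolynomial (Fin (ν + 1)) ℂ) =
      eval (fun i => P i.succ) (f : MvPolynomial (Fin ν) ℂ) := by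
  rw [lift_coe, eval_rename]
  rfl

theorem res_lift (ν : ℕ) (f : Pol ν 2) :
    res ν (lift ν f : MvPolynomial (Fin (ν + 1)) ℂ) = f := by
  rw [lift_coe, res, aeval_rename]
  have e : ((Fin.cons 0 X : Fin (ν + 1) → MvPolynomial (Fin ν) ℂ) ∘ Fin.succ) = X := by
    funext i
    simp
  rw [e, aeval_X_left, AlgHom.id_apply]

theorem pderiv_zero_rename {ν : ℕ} (f : MvPolynomial (Fin ν) ℂ) :
    pderiv 0 (rename Fin.succ f : MvPolynomial (Fin (ν + 1)) ℂ) = 0 := by
  induction f using MvPolynomial.induction_on with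
  | C a => simp
  | add p q hp hq => rw [map_add, map_add, hp, hq, add_zero]
  | mul_X p k hp =>
    rw [map_mul, rename_X, Derivation.leibniz, hp, pderiv_X_of_ne (Fin.succ_ne_zero k)]
    simp

section

variable {ν b c e : ℕ}

/-- the space of the pairs `(t, g)` -/
abbrev VV (ν b : ℕ) : Type := (Fin b → Pol ν 2) × (Fin b → Pol (ν + 1) 1)

noncomputable def E0 (k : Fin b) (p : Fin ν → ℂ) : VV ν b →ₗ[ℂ] ℂ :=
  (ev ν 2 p).comp ((LinearMap.proj k).comp (LinearMap.fst ℂ _ _))

noncomputable def E1 (k : Fin b) (p : Fin (ν + 1) → ℂ) : VV ν b →ₗ[ℂ] ℂ :=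
  (ev (ν + 1) 1 p).comp ((LinearMap.proj k).comp (LinearMap.snd ℂ _ _))

theorem E0_apply (k : Fin b) (p : Fin ν → ℂ) (v : VV ν b) :
    E0 k p v = eval p (v.1 k : MvPolynomial (Fin ν) ℂ) := ev_apply _ _

theorem E1_apply (k : Fin b) (p : Fin (ν + 1) → ℂ) (v : VV ν b) :
    E1 k p v = eval p (v.2 k : MvPolynomial (Fin (ν + 1)) ℂ) := ev_apply _ _

/-- the index `0` of the points `w` -/
def i0 (h : 2 * c ≤ ν) : Fin (ν + 1 - 2 * c) := ⟨0, by omega⟩

/-- the points `w_i` and `w_0 + hp (Q_l - y_l)` -/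
def pw (h : 2 * c ≤ ν) (x : PT ν b c e) (q : WY ν c) :
    Fin (ν + 1 - 2 * c) ⊕ Fin c → Fin (ν + 1) → ℂ :=
  Sum.elim q.2 fun l => q.2 (i0 h) + (hp (x.1 (Sum.inl (Sum.inr l))) - hp (q.1 l))

/-- the conditions (1), (2), (3) -/
noncomputable def ph (h : 2 * c ≤ ν) (x : PT ν b c e) (q : WY ν c) :
    (Fin b ⊕ Fin c) ⊕ (((Fin (ν + 1 - 2 * c) ⊕ Fin c) × Fin b) ⊕ (Fin c × Fin b)) → ℂ →
      VV ν b →ₗ[ℂ] ℂ :=
  Sum.elim
    (Sum.elim (fun k _ => E1 k (hp (x.1 (Sum.inl (Sum.inl k)))))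
      (fun l _ => ∑ k, x.2 l k • E1 k (hp (x.1 (Sum.inl (Sum.inr l))))))
    (Sum.elim
      (fun p ε => ε • E0 p.2 (fun i => pw h x q p.1 i.succ) + pw h x q p.1 0 • E1 p.2 (pw h x q p.1))
      (fun p ε => E0 p.2 (q.1 p.1) + E1 p.2 (Fin.cons ε (q.1 p.1))))

/-- the space of the pairs with the conditions -/
noncomputable def ZZ (h : 2 * c ≤ ν) (x : PT ν b c e) (q : WY ν c) (ε : ℂ) :
    Submodule ℂ (VV ν b) :=
  (MZ ν x).comap (LinearMap.fst ℂ (Fin b → Pol ν 2) (Fin b → Pol (ν + 1) 1)) ⊓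
    ⨅ i, LinearMap.ker (ph h x q i ε)

theorem LP_id : LP (K := ℂ) fun ε : ℂ => ε := by
  have := LP.linear (K := ℂ) (X := ℂ) LinearMap.id
  exact this

theorem pk (h : 2 * c ≤ ν) (x : PT ν b c e) (q : WY ν c) :
    PK (K := ℂ) fun ε : ℂ => ZZ h x q ε := by
  refine PK.inf ?_ (PK.iInf fun i => PK.one fun v => ?_)
  · have h1 : PK (K := ℂ) fun _ : ℂ => MZ ν x := by
      refine ((PK_MZ ν (b := b) (c := c) (e := e)).comp_affine (0 : ℂ →ₗ[ℂ] PT ν b c e) x).congr
        fun ε => ?_
      rw [LinearMap.zero_apply, zero_add]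
    exact h1.comap _
  · rcases i with (k | l) | (p | p)
    · exact LP.const (K := ℂ) (X := ℂ) (E1 k (hp (x.1 (Sum.inl (Sum.inl k)))) v)
    · exact LP.const (K := ℂ) (X := ℂ)
        ((∑ k, x.2 l k • E1 k (hp (x.1 (Sum.inl (Sum.inr l))))) v)
    · have e1 : ∀ ε : ℂ, ph h x q (Sum.inr (Sum.inl p)) ε v =
          ε * E0 p.2 (fun i => pw h x q p.1 i.succ) v +
            pw h x q p.1 0 * E1 p.2 (pw h x q p.1) v := fun ε => rfl
      simp only [e1]
      exact (LP_id.mul (LP.const _)).add (LP.const _)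
    · have e1 : ∀ ε : ℂ, ph h x q (Sum.inr (Sum.inr p)) ε v =
          E0 p.2 (q.1 p.1) v + eval (fun k => (Fin.cons ε (q.1 p.1) : Fin (ν + 1) → ℂ) k)
            (v.2 p.2 : MvPolynomial (Fin (ν + 1)) ℂ) := fun ε => by
        rw [← E1_apply]
        rfl
      simp only [e1]
      refine (LP.const _).add (LP.eval _ fun k => ?_)
      refine Fin.cases ?_ (fun j => ?_) k
      · simpa using LP_id
      · simpa using LP.const _

theorem mem_ZZ {h : 2 * c ≤ ν} {x : PT ν b c e} {q : WY ν c} {ε : ℂ} {v : VV ν b} :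
    v ∈ ZZ h x q ε ↔ v.1 ∈ MZ ν x ∧
      (∀ k, eval (hp (x.1 (Sum.inl (Sum.inl k)))) (v.2 k : MvPolynomial (Fin (ν + 1)) ℂ) = 0) ∧
      (∀ l, ∑ k, x.2 l k * eval (hp (x.1 (Sum.inl (Sum.inr l))))
        (v.2 k : MvPolynomial (Fin (ν + 1)) ℂ) = 0) ∧
      (∀ p k, ε * eval (fun i => pw h x q p i.succ) (v.1 k : MvPolynomial (Fin ν) ℂ) +
        pw h x q p 0 * eval (pw h x q p) (v.2 k : MvPolynomial (Fin (ν + 1)) ℂ) = 0) ∧
      ∀ l k, eval (q.1 l) (v.1 k : MvPolynomial (Fin ν) ℂ) +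
        eval (Fin.cons ε (q.1 l)) (v.2 k : MvPolynomial (Fin (ν + 1)) ℂ) = 0 := by
  unfold ZZ
  rw [Submodule.mem_inf, Submodule.mem_comap, Submodule.mem_iInf]
  have a1 : ∀ k, ph h x q (Sum.inl (Sum.inl k)) ε v =
      eval (hp (x.1 (Sum.inl (Sum.inl k)))) (v.2 k : MvPolynomial (Fin (ν + 1)) ℂ) := fun k =>
    E1_apply _ _ _
  have a2 : ∀ l, ph h x q (Sum.inl (Sum.inr l)) ε v = ∑ k, x.2 l k *
      eval (hp (x.1 (Sum.inl (Sum.inr l)))) (v.2 k : MvPolynomial (Fin (ν + 1)) ℂ) := fun l => by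
    change (∑ k, x.2 l k • E1 k (hp (x.1 (Sum.inl (Sum.inr l))))) v = _
    simp only [LinearMap.sum_apply, LinearMap.smul_apply, E1_apply, smul_eq_mul]
  have a3 : ∀ p k, ph h x q (Sum.inr (Sum.inl (p, k))) ε v =
      ε * eval (fun i => pw h x q p i.succ) (v.1 k : MvPolynomial (Fin ν) ℂ) +
        pw h x q p 0 * eval (pw h x q p) (v.2 k : MvPolynomial (Fin (ν + 1)) ℂ) := fun p k => by
    rw [← E0_apply, ← E1_apply]
    rfl
  have a4 : ∀ l k, ph h x q (Sum.inr (Sum.inr (l, k))) ε v =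
      eval (q.1 l) (v.1 k : MvPolynomial (Fin ν) ℂ) +
        eval (Fin.cons ε (q.1 l)) (v.2 k : MvPolynomial (Fin (ν + 1)) ℂ) := fun l k => by
    rw [← E0_apply, ← E1_apply]
    rfl
  constructor
  · rintro ⟨h1, h2⟩
    refine ⟨h1, fun k => ?_, fun l => ?_, fun p k => ?_, fun l k => ?_⟩
    · rw [← a1]; exact h2 (Sum.inl (Sum.inl k))
    · rw [← a2]; exact h2 (Sum.inl (Sum.inr l))
    · rw [← a3]; exact h2 (Sum.inr (Sum.inl (p, k)))
    · rw [← a4]; exact h2 (Sum.inr (Sum.inr (l, k)))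
  · rintro ⟨h1, h2, h3, h4, h5⟩
    refine ⟨h1, ?_⟩
    rintro ((k | l) | (p | p)) <;> rw [LinearMap.mem_ker]
    · rw [a1]; exact h2 k
    · rw [a2]; exact h3 l
    · rw [a3]; exact h4 p.1 p.2
    · rw [a4]; exact h5 p.1 p.2

theorem zero_le (h : 2 * c ≤ ν) (x : PT ν b c e) (q : WY ν c) (hG : GP x q) (ρ : ℕ)
    (hρ : finrank ℂ ↥(MZ ν x ⊓ ⨅ l, LinearMap.ker ((ev ν 2 (q.1 l)).comp (th (x.2 l)))) ≤ ρ) :
    finrank ℂ (ZZ h x q 0) ≤ ρ := by
  -- facts on the elements
  have fact : ∀ v ∈ ZZ h x q 0, (∀ l k, eval (hp (x.1 (Sum.inl (Sum.inr l))))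
      (v.2 k : MvPolynomial (Fin (ν + 1)) ℂ) = eval (hp (q.1 l)) (v.2 k : MvPolynomial _ ℂ)) ∧
      (∀ l k, eval (hp (q.1 l)) (v.2 k : MvPolynomial (Fin (ν + 1)) ℂ) =
        - eval (q.1 l) (v.1 k : MvPolynomial (Fin ν) ℂ)) ∧
      ∀ i k, eval (q.2 i) (v.2 k : MvPolynomial (Fin (ν + 1)) ℂ) = 0 := by
    intro v hv
    obtain ⟨h1, h2, h3, h4, h5⟩ := mem_ZZ.1 hv
    have k1 : ∀ i k, eval (q.2 i) (v.2 k : MvPolynomial (Fin (ν + 1)) ℂ) = 0 := by
      intro i k
      have := h4 (Sum.inl i) k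
      rw [zero_mul, zero_add] at this
      exact (mul_eq_zero.1 this).resolve_left (hG.1 i)
    refine ⟨fun l k => ?_, fun l k => ?_, k1⟩
    · have h6 := h4 (Sum.inr l) k
      rw [zero_mul, zero_add] at h6
      have h7 : pw h x q (Sum.inr l) 0 = q.2 (i0 h) 0 := by
        simp [pw]
      rw [h7] at h6
      have h8 := (mul_eq_zero.1 h6).resolve_left (hG.1 _)
      have h9 : pw h x q (Sum.inr l) =
        q.2 (i0 h) + (hp (x.1 (Sum.inl (Sum.inr l))) - hp (q.1 l)) := rfl
      rw [h9, eval_aff _ (mem_Pol.1 (v.2 k).2), k1, zero_add] at h8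
      exact sub_eq_zero.1 h8
    · have h6 := h5 l k
      have h7 : (Fin.cons (0 : ℂ) (q.1 l) : Fin (ν + 1) → ℂ) = hp (q.1 l) := rfl
      rw [h7] at h6
      exact eq_neg_of_add_eq_zero_right h6
  have h1 := finrank_le_map_add_ker
    (LinearMap.fst ℂ (Fin b → Pol ν 2) (Fin b → Pol (ν + 1) 1)) (ZZ h x q 0)
  have h2 : (ZZ h x q 0).map (LinearMap.fst ℂ (Fin b → Pol ν 2) (Fin b → Pol (ν + 1) 1)) ≤
      MZ ν x ⊓ ⨅ l, LinearMap.ker ((ev ν 2 (q.1 l)).comp (th (x.2 l))) := by
    rintro _ ⟨v, hv, rfl⟩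
    obtain ⟨k1, k2, k3, k4, k5⟩ := mem_ZZ.1 hv
    obtain ⟨f1, f2, f3⟩ := fact v hv
    refine ⟨k1, (Submodule.mem_iInf _).2 fun l => ?_⟩
    rw [LinearMap.mem_ker, LinearMap.comp_apply, ev_apply, th_apply, map_sum]
    have h3 := k3 l
    have h4 : ∀ k, x.2 l k * eval (hp (x.1 (Sum.inl (Sum.inr l))))
        (v.2 k : MvPolynomial (Fin (ν + 1)) ℂ) =
        - (x.2 l k * eval (q.1 l) (v.1 k : MvPolynomial (Fin ν) ℂ)) := fun k => by
      rw [f1, f2]
      ring
    simp only [h4, Finset.sum_neg_distrib, neg_eq_zero] at h3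
    simpa using h3
  have h3 : ZZ h x q 0 ⊓ LinearMap.ker
      (LinearMap.fst ℂ (Fin b → Pol ν 2) (Fin b → Pol (ν + 1) 1)) = ⊥ := by
    rw [eq_bot_iff]
    rintro v ⟨hv, hv0⟩
    obtain ⟨k1, k2, k3, k4, k5⟩ := mem_ZZ.1 hv
    obtain ⟨f1, f2, f3⟩ := fact v hv
    have hv1 : v.1 = 0 := hv0
    rw [Submodule.mem_bot]
    refine Prod.ext hv1 (funext fun k => Subtype.ext ?_)
    have g1 : ∀ l, eval (hp (q.1 l)) (v.2 k : MvPolynomial (Fin (ν + 1)) ℂ) = 0 := fun l => by
      rw [f2, hv1]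
      simp
    exact hG.2 k _ (mem_Pol.1 (v.2 k).2) (fun i => f3 i k) (fun l => (f1 l k).trans (g1 l)) g1
      (k2 k)
  rw [h3, finrank_bot, add_zero] at h1
  exact h1.trans ((Submodule.finrank_mono h2).trans hρ)

/-- the tuple of a pair -/
noncomputable def Ph (ν b : ℕ) (ε : ℂ) : VV ν b →ₗ[ℂ] (Fin b → Pol (ν + 1) 2) :=
  LinearMap.pi fun k =>
    (lift ν).comp ((LinearMap.proj k).comp (LinearMap.fst ℂ _ _)) +
      ε⁻¹ • (mulX ν 1).comp ((LinearMap.proj k).comp (LinearMap.snd ℂ _ _))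

theorem Ph_apply (ε : ℂ) (v : VV ν b) (k : Fin b) :
    Ph ν b ε v k = lift ν (v.1 k) + ε⁻¹ • mulX ν 1 (v.2 k) := rfl

end

end TRDaux

open _root_.Pool.Agent.WarC.TRDaux

theorem x_TRD : S_TRD := by
  intro ν b c e ρ h x q hG hρ
  obtain ⟨ε, hε, hε0⟩ := ((pk h x q).gen_finrank (zero_le h x q hG ρ hρ)).and
    (Gen.ne (K := ℂ) LP_id 1 one_ne_zero) |>.exists
  have hcard : Fintype.card ((Fin (ν + 1 - 2 * c) ⊕ Fin c) ⊕ Fin c) = ν + 1 := by
    simp only [Fintype.card_sum, Fintype.card_fin]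
    omega
  let κ : ((Fin (ν + 1 - 2 * c) ⊕ Fin c) ⊕ Fin c) ≃ Fin (ν + 1) := Fintype.equivFinOfCardEq hcard
  let sp : (Fin (ν + 1 - 2 * c) ⊕ Fin c) ⊕ Fin c → Fin (ν + 1) → ℂ :=
    Sum.elim (pw h x q) fun l => Fin.cons ε (q.1 l)
  let x' : PT (ν + 1) b c (e + (ν + 1)) :=
    (Sum.elim (fun i => hp (x.1 (Sum.inl i)))
      (Fin.append (fun i => hp (x.1 (Sum.inr i))) fun i => sp (κ.symm i)), x.2)
  refine ⟨x', ?_⟩
  suffices hle : MZ (ν + 1) x' ≤ (ZZ h x q ε).map (Ph ν b ε) from
    (Submodule.finrank_mono hle).trans ((Submodule.finrank_map_le _ _).trans hε)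
  intro F hF
  obtain ⟨m1, m2, m3⟩ := mem_MZ.1 hF
  -- decomposition
  have hdec : ∀ k, ∃ g : Pol (ν + 1) 1, F k - lift ν (resL ν 2 (F k)) = mulX ν 1 g := by
    intro k
    refine exists_mulXC1 ?_
    rw [Submodule.coe_sub, map_sub, res_lift]
    exact sub_self _
  choose g hg using hdec
  have hF' : ∀ k, F k = lift ν (resL ν 2 (F k)) + mulX ν 1 (g k) := fun k => by
    rw [← hg k]
    abel
  have hev : ∀ k (P : Fin (ν + 1) → ℂ), eval P (F k : MvPolynomial (Fin (ν + 1)) ℂ) =
      eval (fun i => P i.succ) (resL ν 2 (F k) : MvPolynomial (Fin ν) ℂ) +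
        P 0 * eval P (g k : MvPolynomial (Fin (ν + 1)) ℂ) := by
    intro k P
    rw [← eval_lift, ← eval_mulX, ← map_add, ← Submodule.coe_add, ← hF' k]
  have hd0 : ∀ k (z : Fin ν → ℂ),
      eval (hp z) (pderiv 0 (F k : MvPolynomial (Fin (ν + 1)) ℂ)) =
        eval (hp z) (g k : MvPolynomial (Fin (ν + 1)) ℂ) := by
    intro k z
    have e1 : (F k : MvPolynomial (Fin (ν + 1)) ℂ) =
        (lift ν (resL ν 2 (F k)) : MvPolynomial (Fin (ν + 1)) ℂ) +
          (mulX ν 1 (g k) : MvPolynomial (Fin (ν + 1)) ℂ) := by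
      rw [← Submodule.coe_add, ← hF' k]
    rw [e1, map_add, map_add, lift_coe, pderiv_zero_rename, map_zero, zero_add,
      eval_pderiv_mulX_zero, hp_zero, zero_mul, zero_add]
  have hoff : ∀ s k, eval (sp s) (F k : MvPolynomial (Fin (ν + 1)) ℂ) = 0 := by
    intro s k
    have h1 := m1 (Sum.inr (Fin.natAdd e (κ s))) k
    have h2 : x'.1 (Sum.inr (Fin.natAdd e (κ s))) = sp s := by
      change Fin.append (fun i => hp (x.1 (Sum.inr i))) (fun i => sp (κ.symm i))
        (Fin.natAdd e (κ s)) = sp s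
      rw [Fin.append_right, Equiv.symm_apply_apply]
    rwa [h2] at h1
  have hfull : ∀ i k, eval (hp (x.1 (Sum.inl i))) (F k : MvPolynomial (Fin (ν + 1)) ℂ) = 0 :=
    fun i k => m1 (Sum.inl i) k
  have hsimp : ∀ i k, eval (hp (x.1 (Sum.inr i))) (F k : MvPolynomial (Fin (ν + 1)) ℂ) = 0 := by
    intro i k
    have h1 := m1 (Sum.inr (Fin.castAdd (ν + 1) i)) k
    have h2 : x'.1 (Sum.inr (Fin.castAdd (ν + 1) i)) = hp (x.1 (Sum.inr i)) := by
      change Fin.append (fun i => hp (x.1 (Sum.inr i))) (fun i => sp (κ.symm i))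
        (Fin.castAdd (ν + 1) i) = _
      rw [Fin.append_left]
    rwa [h2] at h1
  refine ⟨(fun k => resL ν 2 (F k), fun k => ε • g k), ?_, ?_⟩
  · refine mem_ZZ.2 ⟨?_, fun k => ?_, fun l => ?_, fun p k => ?_, fun l k => ?_⟩
    · refine mem_MZ.2 ⟨?_, fun k v => ?_, fun l v => ?_⟩
      · rintro (i | i) k
        · have := hfull i k
          rw [eval_hp] at this
          exact this
        · have := hsimp i k
          rw [eval_hp] at this
          exact this
      · have := m2 k v.succ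
        change eval (hp (x.1 (Sum.inl (Sum.inl k)))) _ = 0 at this
        rw [eval_hp_pderiv] at this
        exact this
      · have := m3 l v.succ
        change ∑ j, x.2 l j * eval (hp (x.1 (Sum.inl (Sum.inr l)))) _ = 0 at this
        simp only [eval_hp_pderiv] at this
        exact this
    · have := m2 k 0
      change eval (hp (x.1 (Sum.inl (Sum.inl k)))) _ = 0 at this
      rw [hd0] at this
      rw [Submodule.coe_smul, smul_eval, this, mul_zero]
    · have := m3 l 0
      change ∑ j, x.2 l j * eval (hp (x.1 (Sum.inl (Sum.inr l)))) _ = 0 at this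
      simp only [hd0] at this
      have e1 : ∀ k, x.2 l k * eval (hp (x.1 (Sum.inl (Sum.inr l))))
          ((ε • g k : Pol (ν + 1) 1) : MvPolynomial (Fin (ν + 1)) ℂ) =
          ε * (x.2 l k * eval (hp (x.1 (Sum.inl (Sum.inr l)))) (g k : MvPolynomial _ ℂ)) :=
        fun k => by
          rw [Submodule.coe_smul, smul_eval]
          ring
      simp only [e1, ← Finset.mul_sum, this, mul_zero]
    · have h1 := hoff (Sum.inl p) k
      change eval (pw h x q p) _ = 0 at h1
      rw [hev] at h1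
      rw [Submodule.coe_smul, smul_eval]
      calc ε * eval (fun i => pw h x q p i.succ) (resL ν 2 (F k) : MvPolynomial (Fin ν) ℂ) +
            pw h x q p 0 * (ε * eval (pw h x q p) (g k : MvPolynomial (Fin (ν + 1)) ℂ))
          = ε * (eval (fun i => pw h x q p i.succ) (resL ν 2 (F k) : MvPolynomial (Fin ν) ℂ) +
            pw h x q p 0 * eval (pw h x q p) (g k : MvPolynomial (Fin (ν + 1)) ℂ)) := by ring
        _ = 0 := by rw [h1, mul_zero]
    · have h1 := hoff (Sum.inr l) k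
      change eval (Fin.cons ε (q.1 l)) _ = 0 at h1
      rw [hev] at h1
      rw [Submodule.coe_smul, smul_eval]
      simpa using h1
  · funext k
    rw [Ph_apply]
    change lift ν (resL ν 2 (F k)) + ε⁻¹ • mulX ν 1 (ε • g k) = F k
    rw [map_smul, smul_smul, inv_mul_cancel₀ hε0, one_smul, ← hF' k]

end Pool.Agent.WarC


end

section

/-!
# MP_db021c_ag, cubics: quadrics, the base of the induction (`S_B4`)
-/

set_option autoImplicit false

open Module MvPolynomial
open Pool.Agent.War Pool.Agent.WarS Pool.Agent.WarQ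

namespace Pool.Agent.WarC

namespace B4aux

open UKaux

/-- a representation which is antisymmetric gives the zero polynomial -/
theorem pq_zero {n : ℕ} {c : ℂ} {a : Fin n → ℂ} {b : Fin n → Fin n → ℂ} (hc : c = 0)
    (ha : ∀ i, a i = 0) (hb : ∀ i j, b i j + b j i = 0) : pq c a b = 0 := by
  have h : (∑ i, ∑ j, C (b i j) * (X i * X j) : MvPolynomial (Fin n) ℂ) = 0 := by
    have h1 : (∑ i, ∑ j, C (b i j) * (X i * X j) : MvPolynomial (Fin n) ℂ) +
        ∑ i, ∑ j, C (b i j) * (X i * X j) = 0 := by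
      conv_lhs =>
        rhs
        rw [Finset.sum_comm]
      rw [← Finset.sum_add_distrib]
      refine Finset.sum_eq_zero fun i _ => ?_
      rw [← Finset.sum_add_distrib]
      refine Finset.sum_eq_zero fun j _ => ?_
      have e : (C (b i j) + C (b j i) : MvPolynomial (Fin n) ℂ) = 0 := by
        rw [← C_add, hb, C_0]
      linear_combination (X i * X j) * e
    exact self_eq_neg.1 (eq_neg_of_add_eq_zero_left h1)
  unfold pq
  rw [h, hc]
  simp [ha]

/-- the centroids of the five triangles -/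
noncomputable def cen : Fin 5 → Fin 4 → ℂ :=
  ![![1 / 3, 0, 1 / 3, 0], ![1 / 3, 1 / 3, 0, 1 / 3], ![0, 1 / 3, 1 / 3, 0],
    ![1 / 3, 0, 1 / 3, 1 / 3], ![0, 1 / 3, 0, 1 / 3]]

/-- coefficients of a quadric through the vertices and the centroids -/
theorem co {c : ℂ} {a : Fin 4 → ℂ} {b : Fin 4 → Fin 4 → ℂ} (h0 : eval 0 (pq c a b) = 0)
    (h1 : ∀ i, eval (Pi.single i 1) (pq c a b) = 0) (h2 : ∀ t, eval (cen t) (pq c a b) = 0) :
    c = 0 ∧ (∀ i, a i = - b i i) ∧
    a 0 + a 2 + (b 0 2 + b 2 0 + a 0 + a 2) = 0 ∧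
    (b 0 1 + b 1 0 + a 0 + a 1) + (b 0 3 + b 3 0 + a 0 + a 3) + (b 1 3 + b 3 1 + a 1 + a 3) = 0 ∧
    (b 1 2 + b 2 1 + a 1 + a 2) + a 1 + a 2 = 0 ∧
    (b 2 3 + b 3 2 + a 2 + a 3) + (b 0 2 + b 2 0 + a 0 + a 2) + (b 0 3 + b 3 0 + a 0 + a 3) = 0 ∧
    a 3 + (b 1 3 + b 3 1 + a 1 + a 3) + a 1 = 0 := by
  have hc : c = 0 := by
    rw [eval_pq] at h0
    simpa using h0
  subst hc
  have ha : ∀ i, a i = - b i i := by
    intro i
    have h := h1 i
    rw [eval_pq] at h
    simp [Pi.single_apply] at h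
    exact eq_neg_of_add_eq_zero_left h
  have e0 := ha 0
  have e1 := ha 1
  have e2 := ha 2
  have e3 := ha 3
  have t0 := h2 0
  have t1 := h2 1
  have t2 := h2 2
  have t3 := h2 3
  have t4 := h2 4
  rw [eval_pq] at t0 t1 t2 t3 t4
  simp [cen, Fin.sum_univ_four] at t0 t1 t2 t3 t4
  refine ⟨rfl, ha, ?_, ?_, ?_, ?_, ?_⟩
  · linear_combination 9 * t0 - e0 - e2
  · linear_combination 9 * t1 - e0 - e1 - e3
  · linear_combination 9 * t2 - e1 - e2
  · linear_combination 9 * t3 - e0 - e2 - e3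
  · linear_combination 9 * t4 - e1 - e3

/-- the zero polynomial in terms of the coefficients -/
theorem fin {c : ℂ} {a : Fin 4 → ℂ} {b : Fin 4 → Fin 4 → ℂ} (hc : c = 0)
    (ha : ∀ i, a i = - b i i) (h0 : a 0 = 0) (ha1 : a 1 = 0) (ha2 : a 2 = 0) (ha3 : a 3 = 0)
    (h1 : b 0 1 + b 1 0 = 0) (h2 : b 0 2 + b 2 0 = 0) (h3 : b 0 3 + b 3 0 = 0)
    (h4 : b 1 2 + b 2 1 = 0) (h5 : b 1 3 + b 3 1 = 0) (h6 : b 2 3 + b 3 2 = 0) :
    pq c a b = 0 := by
  have h : ∀ i, a i = 0 := by
    intro i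
    fin_cases i <;> assumption
  have hd : ∀ i, b i i = 0 := fun i => by linear_combination ha i - h i
  have k1 : b 1 0 + b 0 1 = 0 := by linear_combination h1
  have k2 : b 2 0 + b 0 2 = 0 := by linear_combination h2
  have k3 : b 3 0 + b 0 3 = 0 := by linear_combination h3
  have k4 : b 2 1 + b 1 2 = 0 := by linear_combination h4
  have k5 : b 3 1 + b 1 3 = 0 := by linear_combination h5
  have k6 : b 3 2 + b 2 3 = 0 := by linear_combination h6
  refine pq_zero hc h fun i j => ?_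
  fin_cases i <;> fin_cases j <;> simp [hd, h1, h2, h3, h4, h5, h6, k1, k2, k3, k4, k5, k6]

/-- the conditions at the vertices and at the centroids -/
def VC (f : MvPolynomial (Fin 4) ℂ) : Prop :=
  f.totalDegree ≤ 2 ∧ eval 0 f = 0 ∧ (∀ i, eval (Pi.single i 1) f = 0) ∧ ∀ t, eval (cen t) f = 0

/-- the gradient of a quadric at the origin -/
noncomputable def gr (f : MvPolynomial (Fin 4) ℂ) (m : Fin 4) : ℂ := eval 0 (pderiv m f)

theorem gr_pq {c : ℂ} {a : Fin 4 → ℂ} {b : Fin 4 → Fin 4 → ℂ} (m : Fin 4) :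
    gr (pq c a b) m = a m := by
  unfold gr
  rw [eval_pderiv_pq]
  simp

theorem dbl {c : ℂ} {a : Fin 4 → ℂ} {b : Fin 4 → Fin 4 → ℂ} {k : Fin 4}
    (h : ∀ m, eval (Pi.single k 1) (pderiv m (pq c a b)) = 0) (m : Fin 4) :
    a m + b m k + b k m = 0 := by
  have h1 := h m
  rw [eval_pderiv_pq] at h1
  simpa [Pi.single_apply] using h1

theorem F0 {f : MvPolynomial (Fin 4) ℂ} (hf : VC f)
    (h : ∀ m, eval (Pi.single 0 1) (pderiv m f) = 0) :
    gr f 0 = 0 ∧ gr f 2 = 0 ∧ gr f 3 = - gr f 1 ∧ (gr f 1 = 0 → f = 0) := by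
  obtain ⟨hd, h0, h1, h2⟩ := hf
  obtain ⟨c, a, b, hr⟩ := rp_of_deg f hd
  have hr' : f = pq c a b := hr
  subst hr'
  obtain ⟨hc, ha, t0, t1, t2, t3, t4⟩ := co h0 h1 h2
  have d := dbl h
  have d0 := d 0
  have d1 := d 1
  have d2 := d 2
  have d3 := d 3
  have e0 := ha 0
  have e1 := ha 1
  have e2 := ha 2
  have e3 := ha 3
  simp only [gr_pq]
  have a0 : a 0 = 0 := by grind
  have a2 : a 2 = 0 := by grind
  have a3 : a 3 = - a 1 := by grind
  refine ⟨a0, a2, a3, fun a1 => ?_⟩
  apply fin hc ha <;> grind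

theorem F1 {f : MvPolynomial (Fin 4) ℂ} (hf : VC f)
    (h : ∀ m, eval (Pi.single 1 1) (pderiv m f) = 0) :
    gr f 1 = 0 ∧ gr f 2 = 0 ∧ gr f 3 = 0 ∧ (gr f 0 = 0 → f = 0) := by
  obtain ⟨hd, h0, h1, h2⟩ := hf
  obtain ⟨c, a, b, hr⟩ := rp_of_deg f hd
  have hr' : f = pq c a b := hr
  subst hr'
  obtain ⟨hc, ha, t0, t1, t2, t3, t4⟩ := co h0 h1 h2
  have d := dbl h
  have d0 := d 0
  have d1 := d 1
  have d2 := d 2
  have d3 := d 3
  have e0 := ha 0
  have e1 := ha 1
  have e2 := ha 2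
  have e3 := ha 3
  simp only [gr_pq]
  have a1 : a 1 = 0 := by grind
  have a2 : a 2 = 0 := by grind
  have a3 : a 3 = 0 := by grind
  refine ⟨a1, a2, a3, fun a0 => ?_⟩
  apply fin hc ha <;> grind

theorem F2 {f : MvPolynomial (Fin 4) ℂ} (hf : VC f)
    (h : ∀ m, eval (Pi.single 2 1) (pderiv m f) = 0) :
    gr f 0 = 0 ∧ gr f 1 = 0 ∧ gr f 2 = 0 ∧ (gr f 3 = 0 → f = 0) := by
  obtain ⟨hd, h0, h1, h2⟩ := hf
  obtain ⟨c, a, b, hr⟩ := rp_of_deg f hd
  have hr' : f = pq c a b := hr
  subst hr'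
  obtain ⟨hc, ha, t0, t1, t2, t3, t4⟩ := co h0 h1 h2
  have d := dbl h
  have d0 := d 0
  have d1 := d 1
  have d2 := d 2
  have d3 := d 3
  have e0 := ha 0
  have e1 := ha 1
  have e2 := ha 2
  have e3 := ha 3
  simp only [gr_pq]
  have a0 : a 0 = 0 := by grind
  have a1 : a 1 = 0 := by grind
  have a2 : a 2 = 0 := by grind
  refine ⟨a0, a1, a2, fun a3 => ?_⟩
  apply fin hc ha <;> grind

theorem F3 {f : MvPolynomial (Fin 4) ℂ} (hf : VC f)
    (h : ∀ m, eval (Pi.single 3 1) (pderiv m f) = 0) :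
    gr f 1 = 0 ∧ gr f 3 = 0 ∧ gr f 2 = - gr f 0 ∧ (gr f 0 = 0 → f = 0) := by
  obtain ⟨hd, h0, h1, h2⟩ := hf
  obtain ⟨c, a, b, hr⟩ := rp_of_deg f hd
  have hr' : f = pq c a b := hr
  subst hr'
  obtain ⟨hc, ha, t0, t1, t2, t3, t4⟩ := co h0 h1 h2
  have d := dbl h
  have d0 := d 0
  have d1 := d 1
  have d2 := d 2
  have d3 := d 3
  have e0 := ha 0
  have e1 := ha 1
  have e2 := ha 2
  have e3 := ha 3
  simp only [gr_pq]
  have a1 : a 1 = 0 := by grind
  have a3 : a 3 = 0 := by grind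
  have a2 : a 2 = - a 0 := by grind
  refine ⟨a1, a3, a2, fun a0 => ?_⟩
  apply fin hc ha <;> grind

/-- the configuration with three forms -/
noncomputable def P3 : PT 4 3 1 6 :=
  (Sum.elim (Sum.elim (fun k => Pi.single k.castSucc 1) 0) (Fin.cons (Pi.single 3 1) cen),
    fun _ _ => 1)

/-- the configuration with four forms -/
noncomputable def P4 : PT 4 4 1 5 :=
  (Sum.elim (Sum.elim (fun k => Pi.single k 1) 0) cen, fun _ _ => 1)

theorem MZ_P3 : MZ 4 P3 = ⊥ := by
  rw [eq_bot_iff]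
  intro f hf
  obtain ⟨h1, h2, h3⟩ := mem_MZ.1 hf
  have hV : ∀ j, VC (f j : MvPolynomial (Fin 4) ℂ) := by
    intro j
    refine ⟨mem_Pol.1 (f j).2, h1 (Sum.inl (Sum.inr 0)) j, fun i => ?_, fun t => ?_⟩
    · refine Fin.lastCases ?_ (fun i => ?_) i
      · exact h1 (Sum.inr 0) j
      · exact h1 (Sum.inl (Sum.inl i)) j
    · exact h1 (Sum.inr t.succ) j
  obtain ⟨x0, x1, x2, x3⟩ := F0 (hV 0) (h2 0)
  obtain ⟨y0, y1, y2, y3⟩ := F1 (hV 1) (h2 1)
  obtain ⟨z0, z1, z2, z3⟩ := F2 (hV 2) (h2 2)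
  have h4 : ∀ v, gr (f 0 : MvPolynomial (Fin 4) ℂ) v + gr (f 1 : MvPolynomial (Fin 4) ℂ) v +
      gr (f 2 : MvPolynomial (Fin 4) ℂ) v = 0 := by
    intro v
    have h5 := h3 0 v
    rw [Fin.sum_univ_three] at h5
    simpa [P3, gr] using h5
  have m0 := h4 0
  have m1 := h4 1
  have m3 := h4 3
  have l0 : (f 0 : MvPolynomial (Fin 4) ℂ) = 0 := x3 (by grind)
  have l1 : (f 1 : MvPolynomial (Fin 4) ℂ) = 0 := y3 (by grind)
  have l2 : (f 2 : MvPolynomial (Fin 4) ℂ) = 0 := z3 (by grind)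
  rw [Submodule.mem_bot]
  funext j
  apply Subtype.ext
  fin_cases j
  · exact l0
  · exact l1
  · exact l2

theorem MZ_P4 : MZ 4 P4 = ⊥ := by
  rw [eq_bot_iff]
  intro f hf
  obtain ⟨h1, h2, h3⟩ := mem_MZ.1 hf
  have hV : ∀ j, VC (f j : MvPolynomial (Fin 4) ℂ) := by
    intro j
    exact ⟨mem_Pol.1 (f j).2, h1 (Sum.inl (Sum.inr 0)) j, fun i => h1 (Sum.inl (Sum.inl i)) j,
      fun t => h1 (Sum.inr t) j⟩
  obtain ⟨x0, x1, x2, x3⟩ := F0 (hV 0) (h2 0)
  obtain ⟨y0, y1, y2, y3⟩ := F1 (hV 1) (h2 1)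
  obtain ⟨z0, z1, z2, z3⟩ := F2 (hV 2) (h2 2)
  obtain ⟨w0, w1, w2, w3⟩ := F3 (hV 3) (h2 3)
  have h4 : ∀ v, gr (f 0 : MvPolynomial (Fin 4) ℂ) v + gr (f 1 : MvPolynomial (Fin 4) ℂ) v +
      gr (f 2 : MvPolynomial (Fin 4) ℂ) v + gr (f 3 : MvPolynomial (Fin 4) ℂ) v = 0 := by
    intro v
    have h5 := h3 0 v
    rw [Fin.sum_univ_four] at h5
    simpa [P4, gr] using h5
  have m0 := h4 0
  have m1 := h4 1
  have m2 := h4 2
  have m3 := h4 3
  have l0 : (f 0 : MvPolynomial (Fin 4) ℂ) = 0 := x3 (by grind)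
  have l3 : (f 3 : MvPolynomial (Fin 4) ℂ) = 0 := w3 (by grind)
  have l1 : (f 1 : MvPolynomial (Fin 4) ℂ) = 0 := y3 (by grind)
  have l2 : (f 2 : MvPolynomial (Fin 4) ℂ) = 0 := z3 (by grind)
  rw [Submodule.mem_bot]
  funext j
  apply Subtype.ext
  fin_cases j
  · exact l0
  · exact l1
  · exact l2
  · exact l3

end B4aux

open _root_.Pool.Agent.WarC.B4aux

/-- MODULE B4 -/
theorem x_B4 : S_B4 := by
  constructor
  · have h : NN 4 2 - (4 + 1) - (3 + 1) = 6 := by decide
    unfold MR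
    rw [h]
    refine ⟨P3, ?_⟩
    rw [MZ_P3, finrank_bot]
  · have h : NN 4 2 - (4 + 1) - (4 + 1) = 5 := by decide
    unfold MR
    rw [h]
    refine ⟨P4, ?_⟩
    rw [MZ_P4, finrank_bot]

end Pool.Agent.WarC


end

section

/-!
# Simultaneous Waring decompositions (MP_db021c_ag): graph points impose independent conditions

Module WR_X (helper53).
-/

set_option autoImplicit false

open Module MvPolynomial

namespace Pool.Agent.War

namespace XX

/-- the hyperplane of a polynomial in the parameter of the moment curve -/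
noncomputable def Hp (n : ℕ) (p : Polynomial ℂ) : MvPolynomial (Fin n) ℂ :=
  C (p.coeff 0) + ∑ k : Fin n, C (p.coeff (k.val + 1)) * X k

theorem Hp_deg (n : ℕ) (p : Polynomial ℂ) : (Hp n p).totalDegree ≤ 1 := by
  refine (totalDegree_add _ _).trans (max_le (by simp) ?_)
  refine (totalDegree_finsetSum _ _).trans (Finset.sup_le fun k _ => ?_)
  refine (totalDegree_mul _ _).trans ?_
  simp

theorem Hp_mc {n : ℕ} {p : Polynomial ℂ} (hp : p.natDegree ≤ n) (a : ℂ) :
    p.coeff 0 + ∑ k : Fin n, p.coeff (k.val + 1) * a ^ (k.val + 1) = p.eval a := by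
  rw [Polynomial.eval_eq_sum_range' (Nat.lt_succ_of_le hp), Finset.sum_range_succ',
    Finset.sum_range]
  simp [add_comm]

theorem Hp_eval {n : ℕ} {p : Polynomial ℂ} (hp : p.natDegree ≤ n) (a : ℂ) :
    eval (fun k : Fin n => a ^ (k.val + 1)) (Hp n p) = p.eval a := by
  rw [← Hp_mc hp a, Hp]
  simp

theorem Hp_line {n : ℕ} {p : Polynomial ℂ} (hp : p.natDegree ≤ n) (a b t : ℂ) :
    eval (fun k : Fin n => (1 - t) * a ^ (k.val + 1) + t * b ^ (k.val + 1)) (Hp n p) =
      (1 - t) * p.eval a + t * p.eval b := by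
  rw [← Hp_mc hp a, ← Hp_mc hp b, Hp]
  simp only [map_add, map_sum, map_mul, eval_C, eval_X]
  rw [mul_add, mul_add, Finset.mul_sum, Finset.mul_sum]
  have h : ∑ k : Fin n, p.coeff (k.val + 1) * ((1 - t) * a ^ (k.val + 1) + t * b ^ (k.val + 1)) =
      ∑ k : Fin n, (1 - t) * (p.coeff (k.val + 1) * a ^ (k.val + 1)) +
      ∑ k : Fin n, t * (p.coeff (k.val + 1) * b ^ (k.val + 1)) := by
    rw [← Finset.sum_add_distrib]
    exact Finset.sum_congr rfl fun k _ => by ring
  rw [h]
  ring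

/-- the linear interpolation polynomial -/
theorem lin_exists {a b : ℂ} (hab : a ≠ b) (x y : ℂ) :
    ∃ q : Polynomial ℂ, q.natDegree ≤ 1 ∧ q.eval a = x ∧ q.eval b = y := by
  refine ⟨Polynomial.C ((y - x) / (b - a)) * Polynomial.X +
    Polynomial.C (x - (y - x) / (b - a) * a), Polynomial.natDegree_linear_le, ?_, ?_⟩
  · simp
  · have h : b - a ≠ 0 := sub_ne_zero.2 hab.symm
    simp
    field_simp
    ring

section

variable {n d m μ E : ℕ} (src : Fin E → Fin m) (tgt : Fin E → Fin μ)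

/-- the first hyperplane -/
noncomputable def pA (u : Fin m ⊕ Fin μ → ℂ) (e0 : Fin E) : Polynomial ℂ :=
  (Polynomial.X - Polynomial.C (u (Sum.inl (src e0)))) *
    ∏ e ∈ (Finset.univ.filter fun e => src e = src e0).erase e0,
      (Polynomial.X - Polynomial.C (u (Sum.inr (tgt e))))

/-- the second hyperplane -/
noncomputable def pB (u : Fin m ⊕ Fin μ → ℂ) (e0 : Fin E) : Polynomial ℂ :=
  (Polynomial.X - Polynomial.C (u (Sum.inr (tgt e0)))) *
    ∏ e ∈ (Finset.univ.filter fun e => tgt e = tgt e0).erase e0,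
      (Polynomial.X - Polynomial.C (u (Sum.inl (src e))))

theorem prod_natDegree {ι : Type*} (s : Finset ι) (x : ι → ℂ) :
    (∏ i ∈ s, (Polynomial.X - Polynomial.C (x i))).natDegree = s.card := by
  rw [Polynomial.natDegree_prod_of_monic _ _ fun i _ => Polynomial.monic_X_sub_C _]
  simp

theorem mul_natDegree {ι : Type*} (s : Finset ι) (x : ι → ℂ) (c : ℂ) :
    ((Polynomial.X - Polynomial.C c) *
      ∏ i ∈ s, (Polynomial.X - Polynomial.C (x i))).natDegree ≤ s.card + 1 := by
  refine Polynomial.natDegree_mul_le.trans ?_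
  rw [prod_natDegree]
  have : (Polynomial.X - Polynomial.C c).natDegree = 1 := Polynomial.natDegree_X_sub_C c
  omega

end

end XX

open _root_.Pool.Agent.War.XX

theorem thX : S_X := by
  classical
  intro n d m μ E src tgt hn hsrc htgt hinj hs ht hE hmμ u τ hu hτ hτ01 c
  -- the functions for the interior points
  have key : ∀ (e0 : Fin E) (l0 : Fin (d - 1)), ∃ g : MvPolynomial (Fin n) ℂ,
      g.totalDegree ≤ d ∧ (∀ v, eval (fun k : Fin n => u v ^ (k.val + 1)) g = 0) ∧
      (∀ e l, (e, l) ≠ (e0, l0) →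
        eval (fun k : Fin n => (1 - τ l) * u (Sum.inl (src e)) ^ (k.val + 1) +
          τ l * u (Sum.inr (tgt e)) ^ (k.val + 1)) g = 0) ∧
      eval (fun k : Fin n => (1 - τ l0) * u (Sum.inl (src e0)) ^ (k.val + 1) +
          τ l0 * u (Sum.inr (tgt e0)) ^ (k.val + 1)) g ≠ 0 := by
    intro e0 l0
    set a : ℂ := u (Sum.inl (src e0)) with ha
    set b : ℂ := u (Sum.inr (tgt e0)) with hb
    have hab : a ≠ b := fun h => by
      have := hu h
      simp at this
    -- degrees
    have hA : (pA src tgt u e0).natDegree ≤ n := by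
      refine (mul_natDegree _ _ _).trans ?_
      have h1 : e0 ∈ Finset.univ.filter fun e => src e = src e0 := by simp
      rw [Finset.card_erase_of_mem h1]
      have h2 := hs (src e0)
      have h3 : 0 < (Finset.univ.filter fun e => src e = src e0).card :=
        Finset.card_pos.2 ⟨e0, h1⟩
      omega
    have hB : (pB src tgt u e0).natDegree ≤ n := by
      refine (mul_natDegree _ _ _).trans ?_
      have h1 : e0 ∈ Finset.univ.filter fun e => tgt e = tgt e0 := by simp
      rw [Finset.card_erase_of_mem h1]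
      have h2 := ht (tgt e0)
      have h3 : 0 < (Finset.univ.filter fun e => tgt e = tgt e0).card :=
        Finset.card_pos.2 ⟨e0, h1⟩
      omega
    -- the embedding of the other edges
    have hcard : Fintype.card {e : Fin E // src e ≠ src e0 ∧ tgt e ≠ tgt e0} ≤
        Fintype.card {l : Fin (d - 1) // l ≠ l0} := by
      have h1 : Fintype.card {l : Fin (d - 1) // l ≠ l0} = d - 1 - 1 := by
        rw [Fintype.card_subtype_compl]
        simp
      have h2 : Fintype.card {e : Fin E // src e ≠ src e0 ∧ tgt e ≠ tgt e0} ≤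
          Fintype.card {e : Fin E // e ≠ e0} :=
        Fintype.card_le_of_injective (fun e => ⟨e.1, fun h => e.2.1 (by rw [h])⟩)
          fun e e' h => Subtype.ext (by simpa using h)
      have h3 : Fintype.card {e : Fin E // e ≠ e0} = E - 1 := by
        rw [Fintype.card_subtype_compl]
        simp
      omega
    obtain ⟨φ⟩ := Function.Embedding.nonempty_of_card_le hcard
    -- the remaining hyperplanes
    have hP : ∀ l : {l : Fin (d - 1) // l ≠ l0}, ∃ p : Polynomial ℂ, p.natDegree ≤ n ∧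
        p.eval a = - τ l ∧ p.eval b = 1 - τ l ∧
        ∀ e : {e : Fin E // src e ≠ src e0 ∧ tgt e ≠ tgt e0}, φ e = l →
          p.eval (u (Sum.inl (src e))) = 0 ∧ p.eval (u (Sum.inr (tgt e))) = 0 := by
      intro l
      by_cases hl : ∃ e, φ e = l
      · obtain ⟨e, rfl⟩ := hl
        have h1 : a - u (Sum.inl (src e)) ≠ 0 := sub_ne_zero.2 fun h => e.2.1 (by
          have := hu h
          simpa using this.symm)
        have h2 : a - u (Sum.inr (tgt e)) ≠ 0 := sub_ne_zero.2 fun h => by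
          have := hu h
          simp at this
        have h3 : b - u (Sum.inl (src e)) ≠ 0 := sub_ne_zero.2 fun h => by
          have := hu h
          simp at this
        have h4 : b - u (Sum.inr (tgt e)) ≠ 0 := sub_ne_zero.2 fun h => e.2.2 (by
          have := hu h
          simpa using this.symm)
        obtain ⟨q, hq, hqa, hqb⟩ := lin_exists hab
          (- τ (φ e) / ((a - u (Sum.inl (src e))) * (a - u (Sum.inr (tgt e)))))
          ((1 - τ (φ e)) / ((b - u (Sum.inl (src e))) * (b - u (Sum.inr (tgt e)))))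
        refine ⟨(Polynomial.X - Polynomial.C (u (Sum.inl (src e)))) *
          (Polynomial.X - Polynomial.C (u (Sum.inr (tgt e)))) * q, ?_, ?_, ?_, ?_⟩
        · refine Polynomial.natDegree_mul_le.trans ?_
          have k1 := Polynomial.natDegree_mul_le
            (p := Polynomial.X - Polynomial.C (u (Sum.inl (src e))))
            (q := Polynomial.X - Polynomial.C (u (Sum.inr (tgt e))))
          rw [Polynomial.natDegree_X_sub_C, Polynomial.natDegree_X_sub_C] at k1
          omega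
        · simp only [Polynomial.eval_mul, Polynomial.eval_sub, Polynomial.eval_X,
            Polynomial.eval_C, hqa]
          field_simp
        · simp only [Polynomial.eval_mul, Polynomial.eval_sub, Polynomial.eval_X,
            Polynomial.eval_C, hqb]
          field_simp
        · intro e' he'
          have := φ.injective he'
          subst this
          simp
      · obtain ⟨q, hq, hqa, hqb⟩ := lin_exists hab (- τ l) (1 - τ l)
        exact ⟨q, by omega, hqa, hqb, fun e he => (hl ⟨e, he⟩).elim⟩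
    choose p hp1 hp2 hp3 hp4 using hP
    refine ⟨Hp n (pA src tgt u e0) * Hp n (pB src tgt u e0) * ∏ l, Hp n (p l), ?_, ?_, ?_, ?_⟩
    · refine (totalDegree_mul _ _).trans ?_
      have h1 : (Hp n (pA src tgt u e0) * Hp n (pB src tgt u e0)).totalDegree ≤ 2 :=
        (totalDegree_mul _ _).trans (add_le_add (Hp_deg _ _) (Hp_deg _ _))
      have h2 : (∏ l, Hp n (p l)).totalDegree ≤ d - 2 := by
        refine (totalDegree_finsetProd _ _).trans ?_
        refine (Finset.sum_le_sum fun l _ => Hp_deg n (p l)).trans ?_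
        simp only [Finset.sum_const, smul_eq_mul, mul_one, Finset.card_univ]
        rw [Fintype.card_subtype_compl]
        simp
        omega
      have h3 : 0 < E := e0.pos
      omega
    · -- nodes
      intro v
      rw [map_mul, map_mul, map_prod]
      simp only [Hp_eval hA, Hp_eval hB, Hp_eval (hp1 _)]
      rcases v with i | k
      · obtain ⟨e, he⟩ := hsrc i
        by_cases h1 : i = src e0
        · subst h1
          simp [pA]
        · by_cases h2 : tgt e = tgt e0
          · have h3 : (pB src tgt u e0).eval (u (Sum.inl i)) = 0 := by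
              rw [pB, Polynomial.eval_mul, Polynomial.eval_prod]
              have h4 : e ∈ (Finset.univ.filter fun e => tgt e = tgt e0).erase e0 := by
                simp only [Finset.mem_erase, Finset.mem_filter, Finset.mem_univ, true_and]
                exact ⟨fun h => h1 (by rw [← he, h]), h2⟩
              rw [Finset.prod_eq_zero h4 (by simp [he]), mul_zero]
            rw [h3]; ring
          · have h3 : (∏ l, (p l).eval (u (Sum.inl i))) = 0 := by
              have h5 : src e ≠ src e0 ∧ tgt e ≠ tgt e0 := ⟨by rw [he]; exact h1, h2⟩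
              refine Finset.prod_eq_zero (Finset.mem_univ (φ ⟨e, h5⟩)) ?_
              have := (hp4 (φ ⟨e, h5⟩) ⟨e, h5⟩ rfl).1
              simpa [he] using this
            rw [h3]; ring
      · obtain ⟨e, he⟩ := htgt k
        by_cases h1 : k = tgt e0
        · subst h1
          simp [pB]
        · by_cases h2 : src e = src e0
          · have h3 : (pA src tgt u e0).eval (u (Sum.inr k)) = 0 := by
              rw [pA, Polynomial.eval_mul, Polynomial.eval_prod]
              have h4 : e ∈ (Finset.univ.filter fun e => src e = src e0).erase e0 := by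
                simp only [Finset.mem_erase, Finset.mem_filter, Finset.mem_univ, true_and]
                exact ⟨fun h => h1 (by rw [← he, h]), h2⟩
              rw [Finset.prod_eq_zero h4 (by simp [he]), mul_zero]
            rw [h3]; ring
          · have h3 : (∏ l, (p l).eval (u (Sum.inr k))) = 0 := by
              have h5 : src e ≠ src e0 ∧ tgt e ≠ tgt e0 := ⟨h2, by rw [he]; exact h1⟩
              refine Finset.prod_eq_zero (Finset.mem_univ (φ ⟨e, h5⟩)) ?_
              have := (hp4 (φ ⟨e, h5⟩) ⟨e, h5⟩ rfl).2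
              simpa [he] using this
            rw [h3]; ring
    · -- other interior points
      intro e l hel
      rw [map_mul, map_mul, map_prod]
      simp only [Hp_line hA, Hp_line hB, Hp_line (hp1 _)]
      by_cases he : e = e0
      · subst he
        have hl : l ≠ l0 := fun h => hel (by rw [h])
        have h3 : (∏ x, ((1 - τ l) * (p x).eval (u (Sum.inl (src e))) +
            τ l * (p x).eval (u (Sum.inr (tgt e))))) = 0 := by
          refine Finset.prod_eq_zero (Finset.mem_univ (⟨l, hl⟩ : {l : Fin (d - 1) // l ≠ l0})) ?_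
          have k1 := hp2 ⟨l, hl⟩
          have k2 := hp3 ⟨l, hl⟩
          rw [ha] at k1
          rw [hb] at k2
          rw [k1, k2]
          ring
        rw [h3]; ring
      · by_cases h1 : src e = src e0
        · have h3 : (pA src tgt u e0).eval (u (Sum.inl (src e))) = 0 := by
            rw [h1]; simp [pA]
          have h4 : (pA src tgt u e0).eval (u (Sum.inr (tgt e))) = 0 := by
            rw [pA, Polynomial.eval_mul, Polynomial.eval_prod]
            have h4 : e ∈ (Finset.univ.filter fun e => src e = src e0).erase e0 := by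
              simp only [Finset.mem_erase, Finset.mem_filter, Finset.mem_univ, true_and]
              exact ⟨he, h1⟩
            rw [Finset.prod_eq_zero h4 (by simp), mul_zero]
          rw [h3, h4]; ring
        · by_cases h2 : tgt e = tgt e0
          · have h3 : (pB src tgt u e0).eval (u (Sum.inr (tgt e))) = 0 := by
              rw [h2]; simp [pB]
            have h4 : (pB src tgt u e0).eval (u (Sum.inl (src e))) = 0 := by
              rw [pB, Polynomial.eval_mul, Polynomial.eval_prod]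
              have h4 : e ∈ (Finset.univ.filter fun e => tgt e = tgt e0).erase e0 := by
                simp only [Finset.mem_erase, Finset.mem_filter, Finset.mem_univ, true_and]
                exact ⟨he, h2⟩
              rw [Finset.prod_eq_zero h4 (by simp), mul_zero]
            rw [h3, h4]; ring
          · have h3 : (∏ x, ((1 - τ l) * (p x).eval (u (Sum.inl (src e))) +
                τ l * (p x).eval (u (Sum.inr (tgt e))))) = 0 := by
              have h5 : src e ≠ src e0 ∧ tgt e ≠ tgt e0 := ⟨h1, h2⟩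
              refine Finset.prod_eq_zero (Finset.mem_univ (φ ⟨e, h5⟩)) ?_
              have := hp4 (φ ⟨e, h5⟩) ⟨e, h5⟩ rfl
              simp only at this
              rw [this.1, this.2]
              ring
            rw [h3]; ring
    · -- the point itself
      rw [map_mul, map_mul, map_prod]
      simp only [Hp_line hA, Hp_line hB, Hp_line (hp1 _), hp2, hp3]
      have h1 : (pA src tgt u e0).eval a = 0 := by simp [pA, ha]
      have h2 : (pB src tgt u e0).eval b = 0 := by simp [pB, hb]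
      rw [h1, h2]
      refine mul_ne_zero (mul_ne_zero ?_ ?_) ?_
      · rw [mul_zero, zero_add]
        refine mul_ne_zero (hτ01 l0).1 ?_
        rw [pA, Polynomial.eval_mul, Polynomial.eval_prod]
        refine mul_ne_zero ?_ (Finset.prod_ne_zero_iff.2 fun e he => ?_)
        · simpa [sub_eq_zero, ha] using hab.symm
        · simp only [Finset.mem_erase, Finset.mem_filter, Finset.mem_univ, true_and] at he
          simp only [Polynomial.eval_sub, Polynomial.eval_X, Polynomial.eval_C]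
          refine sub_ne_zero.2 fun h => he.1 ?_
          have := hu (hb.symm.trans h)
          exact hinj _ _ he.2 (by simpa using this.symm)
      · rw [mul_zero, add_zero]
        refine mul_ne_zero (sub_ne_zero.2 (hτ01 l0).2.symm) ?_
        rw [pB, Polynomial.eval_mul, Polynomial.eval_prod]
        refine mul_ne_zero ?_ (Finset.prod_ne_zero_iff.2 fun e he => ?_)
        · simpa [sub_eq_zero, hb] using hab
        · simp only [Finset.mem_erase, Finset.mem_filter, Finset.mem_univ, true_and] at he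
          simp only [Polynomial.eval_sub, Polynomial.eval_X, Polynomial.eval_C]
          refine sub_ne_zero.2 fun h => he.1 ?_
          have := hu (ha.symm.trans h)
          exact hinj _ _ (by simpa using this.symm) he.2
      · refine Finset.prod_ne_zero_iff.2 fun l _ => ?_
        have h3 : (1 - τ l0) * -τ l + τ l0 * (1 - τ l) = τ l0 - τ l := by ring
        rw [h3]
        exact sub_ne_zero.2 fun h => l.2 (hτ h).symm
  -- the functions for the nodes
  have node : ∀ v : Fin m ⊕ Fin μ, ∃ g : MvPolynomial (Fin n) ℂ, g.totalDegree ≤ d ∧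
      (∀ v', v' ≠ v → eval (fun k : Fin n => u v' ^ (k.val + 1)) g = 0) ∧
      eval (fun k : Fin n => u v ^ (k.val + 1)) g = 1 := by
    intro v
    have hne : ∏ v' ∈ Finset.univ.erase v, (u v - u v') ≠ 0 := by
      refine Finset.prod_ne_zero_iff.2 fun v' hv' => sub_ne_zero.2 fun h => ?_
      exact (Finset.mem_erase.1 hv').1 (hu h).symm
    set k0 : Fin n := ⟨0, by omega⟩ with hk0
    refine ⟨C (∏ v' ∈ Finset.univ.erase v, (u v - u v'))⁻¹ *
      ∏ v' ∈ Finset.univ.erase v, (MvPolynomial.X k0 - C (u v')), ?_, ?_, ?_⟩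
    · refine (totalDegree_mul _ _).trans ?_
      rw [totalDegree_C, zero_add]
      refine (totalDegree_finsetProd _ _).trans ?_
      have h1 : ∀ v' ∈ Finset.univ.erase v,
          (MvPolynomial.X k0 - C (u v') : MvPolynomial (Fin n) ℂ).totalDegree ≤ 1 := by
        intro v' _
        refine (totalDegree_sub _ _).trans ?_
        simp
      refine (Finset.sum_le_sum h1).trans ?_
      rw [Finset.sum_const, smul_eq_mul, mul_one, Finset.card_erase_of_mem (Finset.mem_univ _)]
      simp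
      omega
    · intro v' hv'
      rw [map_mul, map_prod]
      have h1 : (∏ x ∈ Finset.univ.erase v,
          eval (fun k : Fin n => u v' ^ (k.val + 1)) (MvPolynomial.X k0 - C (u x))) = 0 := by
        refine Finset.prod_eq_zero (Finset.mem_erase.2 ⟨hv', Finset.mem_univ _⟩) ?_
        simp [hk0]
      rw [h1, mul_zero]
    · rw [map_mul, map_prod]
      simp only [map_sub, eval_C, eval_X, hk0, zero_add, pow_one]
      exact inv_mul_cancel₀ hne
  choose g hg1 hg2 hg3 hg4 using key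
  choose h hh1 hh2 hh3 using node
  -- value of an interior point
  set pnt : Fin E → Fin (d - 1) → Fin n → ℂ := fun e l k =>
    (1 - τ l) * u (Sum.inl (src e)) ^ (k.val + 1) + τ l * u (Sum.inr (tgt e)) ^ (k.val + 1)
    with hpnt
  obtain ⟨F0, hF0⟩ : ∃ F0 : MvPolynomial (Fin n) ℂ, F0 = ∑ v, C (c (Sum.inl v)) * h v :=
    ⟨_, rfl⟩
  obtain ⟨F, hF⟩ : ∃ F : MvPolynomial (Fin n) ℂ, F = F0 + ∑ q : Fin E × Fin (d - 1),
    C ((c (Sum.inr q) - eval (pnt q.1 q.2) F0) / eval (pnt q.1 q.2) (g q.1 q.2)) * g q.1 q.2 :=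
    ⟨_, rfl⟩
  have hdeg : F.totalDegree ≤ d := by
    rw [hF]
    refine (totalDegree_add _ _).trans (max_le ?_ ?_)
    rw [hF0]
    · refine (totalDegree_finsetSum _ _).trans (Finset.sup_le fun v _ => ?_)
      refine (totalDegree_mul _ _).trans ?_
      rw [totalDegree_C, zero_add]
      exact hh1 v
    · refine (totalDegree_finsetSum _ _).trans (Finset.sup_le fun q _ => ?_)
      refine (totalDegree_mul _ _).trans ?_
      rw [totalDegree_C, zero_add]
      exact hg1 q.1 q.2
  refine ⟨⟨F, mem_Pol.2 hdeg⟩, fun v => ?_, fun e l => ?_⟩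
  · change eval (fun k : Fin n => u v ^ (k.val + 1)) F = _
    rw [hF, map_add, map_sum]
    have h1 : ∑ q : Fin E × Fin (d - 1), eval (fun k : Fin n => u v ^ (k.val + 1))
        (C ((c (Sum.inr q) - eval (pnt q.1 q.2) F0) / eval (pnt q.1 q.2) (g q.1 q.2)) *
          g q.1 q.2) = 0 := by
      refine Finset.sum_eq_zero fun q _ => ?_
      rw [map_mul, hg2, mul_zero]
    rw [h1, add_zero, hF0, map_sum, Finset.sum_eq_single v]
    · rw [map_mul, hh3, eval_C, mul_one]
    · intro v' _ hv'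
      rw [map_mul, hh2 v' v hv'.symm, mul_zero]
    · intro hv; exact absurd (Finset.mem_univ v) hv
  · change eval (pnt e l) F = _
    rw [hF, map_add, map_sum, Finset.sum_eq_single (e, l)]
    · rw [map_mul, eval_C, div_mul_cancel₀]
      · ring
      · exact hg4 e l
    · intro q _ hq
      rw [map_mul]
      have := hg3 q.1 q.2 e l (by
        intro h
        exact hq h.symm)
      rw [show eval (pnt e l) (g q.1 q.2) = 0 from this, mul_zero]
    · intro hv; exact absurd (Finset.mem_univ _) hv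

end Pool.Agent.War


end

section

/-!
# Simultaneous Waring decompositions (MP_db021c_ag): assembly   (helper46)
-/

set_option autoImplicit false

open Module MvPolynomial

namespace Pool.Agent.War

theorem BLK (h0 : S_C0) (h1 : S_C1) (h2 : S_C2) : S_BLK := by
  intro n d b μ hB
  by_cases hm : μ % n = 0
  · exact h0 n d b μ hB hm
  · by_cases hq : n ≤ μ / n + μ % n
    · exact h1 n d b μ hB hm hq
    · exact h2 n d b μ hB hm (by omega)

/-- there are `N` points such that the only polynomial of degree `≤ d` vanishing there is zero -/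
theorem points (hSC : S_SC) {n d : ℕ} (hn : 1 ≤ n) : ∃ z : Fin (NN n d) → Fin n → ℂ,
    ∀ f : MvPolynomial (Fin n) ℂ, f.totalDegree ≤ d → (∀ i, eval (z i) f = 0) → f = 0 := by
  obtain ⟨z, hz⟩ := (hSC n d (Fin (NN n d)) ∅ hn (Or.inl Finset.card_empty)).exists
  refine ⟨z, fun f hf hv => ?_⟩
  have h0 : finrank ℂ (Dbl n d (∅ : Finset (Fin (NN n d))) z) = 0 := by
    simpa using hz
  have h1 : Dbl n d (∅ : Finset (Fin (NN n d))) z = ⊥ := Submodule.finrank_eq_zero.mp h0
  have h2 : (⟨f, mem_Pol.mpr hf⟩ : Pol n d) ∈ Dbl n d (∅ : Finset (Fin (NN n d))) z := by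
    rw [mem_Dbl]
    exact ⟨hv, fun i hi => absurd hi (Finset.notMem_empty i)⟩
  rw [h1, Submodule.mem_bot] at h2
  exact congrArg Subtype.val h2

theorem W_top (hSC : S_SC) {n d : ℕ} (s : ℕ) (hn : 1 ≤ n) : Waring.W d (NN n d) n s := by
  obtain ⟨z, hz⟩ := points hSC (d := d) hn
  exact Waring.W_of_dual z (fun _ _ => 0) fun g hg h1 _ j => hz (g j) (hg j) fun i => h1 i j

theorem W_iff (hT : S_TOP) (hSC : S_SC) (n d s h : ℕ) (hn : 2 ≤ n) (hd : 1 ≤ d)
    (hs : n + 1 ≤ s) (hds : n ^ 3 + 60 ≤ d ∨ (n + d).choose n ≤ s) :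
    Waring.W d h n s ↔ min s ((n + d).choose n) ≤ h ∧ s * (n + d).choose n ≤ h * (n + s) := by
  refine ⟨fun H => ⟨H.bound2, H.bound1 hd⟩, fun H => ?_⟩
  by_cases hN : (n + d).choose n ≤ h
  · exact (W_top hSC s (by omega : 1 ≤ n)).mono hN
  · have hsN : ¬ (n + d).choose n ≤ s := fun hle => hN (by
      rw [min_eq_right hle] at H; exact H.1)
    have hsh : s ≤ h := by
      rw [min_eq_left (by omega)] at H; exact H.1
    have hd' : n ^ 3 + 60 ≤ d := hds.resolve_right hsN
    obtain ⟨z, a, y, hK⟩ := hT n d s h hn hd' hs hsh (by unfold NN; omega) H.2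
    exact Waring.W_of_dual z a fun g hg h1 h2 => hK g hg h1 h2 fun i => i.elim0

end Pool.Agent.War


end

section

/-!
# Simultaneous Waring decompositions (MP_db021c_ag): at least `n + 1` forms, all degrees `≥ 4`   (helper27)
-/

set_option autoImplicit false

open Module MvPolynomial
open Pool.Agent.War Pool.Agent.WarS

namespace Pool.Agent.WarM

/-- there are `N` points such that the only polynomial of degree `≤ d` vanishing there is zero -/
theorem points {n d : ℕ} (hn : 1 ≤ n) : ∃ z : Fin (NN n d) → Fin n → ℂ,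
    ∀ f : MvPolynomial (Fin n) ℂ, f.totalDegree ≤ d → (∀ i, eval (z i) f = 0) → f = 0 := by
  obtain ⟨z, hz⟩ := (SG n d (Fin (NN n d)) ∅ hn (by
    rw [Finset.card_empty]
    exact GG.zero _ _)).exists
  refine ⟨z, fun f hf hv => ?_⟩
  have h0 : finrank ℂ (Dbl n d (∅ : Finset (Fin (NN n d))) z) = 0 := by
    simpa using hz
  have h1 : Dbl n d (∅ : Finset (Fin (NN n d))) z = ⊥ := Submodule.finrank_eq_zero.mp h0
  have h2 : (⟨f, mem_Pol.mpr hf⟩ : Pol n d) ∈ Dbl n d (∅ : Finset (Fin (NN n d))) z := by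
    rw [mem_Dbl]
    exact ⟨hv, fun i hi => absurd hi (Finset.notMem_empty i)⟩
  rw [h1, Submodule.mem_bot] at h2
  exact congrArg Subtype.val h2

theorem W_top {n d : ℕ} (s : ℕ) (hn : 1 ≤ n) : Waring.W d (NN n d) n s := by
  obtain ⟨z, hz⟩ := points (d := d) hn
  exact Waring.W_of_dual z (fun _ _ => 0) fun g hg h1 _ j => hz (g j) (hg j) fun i => h1 i j

/-- at least `n + 1` forms in degree at least `4`: no exceptions -/
theorem W_many (hAH : S_AH) (hSB : S_SB) (n d s h : ℕ) (hn : 3 ≤ n) (hd : 4 ≤ d)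
    (hs : n + 1 ≤ s) :
    Waring.W d h n s ↔ min s ((n + d).choose n) ≤ h ∧ s * (n + d).choose n ≤ h * (n + s) := by
  refine ⟨fun H => ⟨H.bound2, H.bound1 (by omega)⟩, fun H => ?_⟩
  by_cases hN : (n + d).choose n ≤ h
  · exact (W_top s (by omega : 1 ≤ n)).mono hN
  · have hsN : ¬ (n + d).choose n ≤ s := fun hle => hN (by
      rw [min_eq_right hle] at H; exact H.1)
    have hsh : s ≤ h := by
      rw [min_eq_left (by omega)] at H; exact H.1
    obtain ⟨z, a, y, hK⟩ := TOPA (BLKA hAH hSB) n d s h hn hd hs hsh (by unfold NN; omega) H.2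
    exact Waring.W_of_dual z a fun g hg h1 h2 => hK g hg h1 h2 fun i => i.elim0

end Pool.Agent.WarM


end

section

/-!
# Simultaneous Waring decompositions (MP_db021c_ag), cubics, `s = 2`, `n = 6 k + 2`   (helper25)
-/

set_option autoImplicit false

open Module MvPolynomial
open Pool.Agent.War Pool.Agent.WarS Pool.Agent.WarQ

namespace Pool.Agent.WarC

theorem NN_three_k (k : ℕ) : NN (6 * k + 1) 3 = (6 * k + 2) * ((2 * k + 1) * (3 * k + 2)) := by
  have h := WarM.NN_three (6 * k + 1)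
  have h2 : 6 * NN (6 * k + 1) 3 = 6 * ((6 * k + 2) * ((2 * k + 1) * (3 * k + 2))) := by
    rw [h]
    ring
  omega

theorem NN_two_k (k : ℕ) : NN (6 * k + 1 + 1) 2 = 18 * k ^ 2 + 21 * k + 6 := by
  have h3 := WarM.NN_two (6 * k + 1 + 1)
  have h4 : 2 * NN (6 * k + 1 + 1) 2 = 2 * (18 * k ^ 2 + 21 * k + 6) := by
    rw [h3]
    ring
  omega

/-- the types: `0` for `inl 0`, the pair and the first `2 k - 1` near points, `1` for the others -/
def kap (k : ℕ) : Fin 2 ⊕ (Fin (4 * k - 1) ⊕ Fin 2) → Fin 2 :=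
  Sum.elim id (Sum.elim (fun i => if i.val < 2 * k - 1 then 0 else 1) fun _ => 0)

theorem card_lt (a v : ℕ) (h : a ≤ v) :
    (∑ i : Fin v, if i.val < a then 1 else 0) = a := by
  rw [← Finset.card_filter, Fin.card_filter_val_lt]
  omega

theorem card_ge (a v : ℕ) (h : a ≤ v) :
    (∑ i : Fin v, if i.val < a then 0 else 1) = v - a := by
  have h1 : (∑ i : Fin v, if i.val < a then 0 else 1) + (∑ i : Fin v, if i.val < a then 1 else 0)
      = v := by
    rw [← Finset.sum_add_distrib]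
    have : ∀ i : Fin v, ((if i.val < a then 0 else 1) + if i.val < a then 1 else 0) = 1 := by
      intro i
      split_ifs <;> rfl
    simp [this]
  rw [card_lt a v h] at h1
  omega

theorem kap_inr_zero {k : ℕ} (hk : 1 ≤ k) :
    fib (fun i : Fin (4 * k - 1) ⊕ Fin 2 => kap k (Sum.inr i)) 0 = 2 * k + 1 := by
  have e1 : ∀ i : Fin (4 * k - 1), (if kap k (Sum.inr (Sum.inl i)) = 0 then 1 else 0) =
      if i.val < 2 * k - 1 then 1 else 0 := by
    intro i
    by_cases h : i.val < 2 * k - 1 <;> simp [kap, h]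
  have e2 : ∀ i : Fin 2, (if kap k (Sum.inr (Sum.inr i)) = 0 then 1 else 0) = 1 := by
    intro i
    simp [kap]
  unfold fib
  rw [Finset.card_filter, Fintype.sum_sum_type, Finset.sum_congr rfl fun i _ => e1 i,
    Finset.sum_congr rfl fun i _ => e2 i, card_lt _ _ (by omega)]
  simp
  omega

theorem kap_inr_one {k : ℕ} (hk : 1 ≤ k) :
    fib (fun i : Fin (4 * k - 1) ⊕ Fin 2 => kap k (Sum.inr i)) 1 = 2 * k := by
  have e1 : ∀ i : Fin (4 * k - 1), (if kap k (Sum.inr (Sum.inl i)) = 1 then 1 else 0) =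
      if i.val < 2 * k - 1 then 0 else 1 := by
    intro i
    by_cases h : i.val < 2 * k - 1 <;> simp [kap, h]
  have e2 : ∀ i : Fin 2, (if kap k (Sum.inr (Sum.inr i)) = 1 then 1 else 0) = 0 := by
    intro i
    simp [kap]
  unfold fib
  rw [Finset.card_filter, Fintype.sum_sum_type, Finset.sum_congr rfl fun i _ => e1 i,
    Finset.sum_congr rfl fun i _ => e2 i, card_ge _ _ (by omega)]
  simp
  omega

theorem kap_fib (k : ℕ) (j : Fin 2) :
    fib (kap k) j = 1 + fib (fun i : Fin (4 * k - 1) ⊕ Fin 2 => kap k (Sum.inr i)) j := by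
  unfold fib
  rw [Finset.card_filter, Fintype.sum_sum_type, Finset.card_filter]
  congr 1
  have : ∀ i : Fin 2, (if kap k (Sum.inl i) = j then 1 else 0) = if i = j then 1 else 0 := by
    intro i
    simp [kap]
  rw [Finset.sum_congr rfl fun i _ => this i]
  simp

theorem stepK (hT : S_TRC2) (hR : S_RESCL) (hD : S_DHC2) (hP : S_PERTH2) {k : ℕ} (hk : 1 ≤ k) :
    Full (6 * k + 1 + 1) 2 (12 * k ^ 2 + 16 * k + 5) := by
  classical
  obtain ⟨u, hu⟩ : ∃ u, u = 6 * k ^ 2 + 6 * k + 1 := ⟨_, rfl⟩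
  obtain ⟨v, hv⟩ : ∃ v, v = 4 * k - 1 := ⟨_, rfl⟩
  obtain ⟨w, hw⟩ : ∃ w, w = 18 * k ^ 2 + 17 * k + 3 := ⟨_, rfl⟩
  have hkk : k ≤ k ^ 2 := by nlinarith
  -- numbers of the types
  have f0 := kap_inr_zero hk
  have f1 := kap_inr_one hk
  have g0 : fib (kap k) 0 = 2 * k + 2 := by rw [kap_fib, f0]; omega
  have g1 : fib (kap k) 1 = 2 * k + 1 := by rw [kap_fib, f1]; omega
  have c0 : (2 * k + 2).choose 2 = 2 * k ^ 2 + 3 * k + 1 := by
    rw [Nat.choose_two_right]
    have : (2 * k + 2) * (2 * k + 2 - 1) = 2 * (2 * k ^ 2 + 3 * k + 1) := by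
      rw [show 2 * k + 2 - 1 = 2 * k + 1 by omega]
      ring
    omega
  have c1 : (2 * k + 1).choose 2 = 2 * k ^ 2 + k := by
    rw [Nat.choose_two_right]
    have : (2 * k + 1) * (2 * k + 1 - 1) = 2 * (2 * k ^ 2 + k) := by
      rw [show 2 * k + 1 - 1 = 2 * k by omega]
      ring
    omega
  -- the quadrics
  obtain ⟨z0, y0, p0, q0, b0, α0, β0, hcfg⟩ := hP (6 * k + 1) 2 w (Fin 2) (Fin (4 * k - 1))
    (kap k) (Equiv.swap 0 1)
    (by decide) rfl
    (by
      intro j
      fin_cases j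
      · simp [g0, g1]; omega
      · simp [g0, g1]; omega)
    (by
      intro j
      fin_cases j
      · simp [f0, f1]; omega
      · simp [f0, f1]; omega)
    (fun j => ⟨j, by simp [kap]⟩)
    (by
      simp only [Fintype.card_fin]
      rw [NN_two_k]
      omega)
    (by
      intro j
      fin_cases j
      · simp [g0, g1, c0, c1]
        nlinarith
      · simp [g0, g1, c0, c1]
        nlinarith)
  simp only [Fintype.card_fin] at hcfg
  -- the parameters of the near points
  let X : Type := ((Fin (4 * k - 1) → Fin (6 * k + 1) → ℂ) × (Fin (4 * k - 1) → Fin 2 → ℂ)) ×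
    ((Fin (6 * k + 1) → ℂ) × (Fin (6 * k + 1) → ℂ) × (Fin 2 → ℂ))
  let L : X →ₗ[ℂ] (Fin (4 * k - 1) ⊕ Fin 2 → Fin (6 * k + 1) → ℂ) ×
      (Fin (4 * k - 1) ⊕ Fin 2 → Fin 2 → ℂ) :=
    { toFun := fun x => (Sum.elim x.1.1 (two x.2.1 x.2.2.1), Sum.elim x.1.2 fun _ => x.2.2.2)
      map_add' := fun x x' => by
        refine Prod.ext ?_ ?_
        · funext i
          rcases i with i | i
          · rfl
          · fin_cases i <;> rfl
        · funext i
          rcases i with i | i <;> rfl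
      map_smul' := fun r x => by
        refine Prod.ext ?_ ?_
        · funext i
          rcases i with i | i
          · rfl
          · fin_cases i <;> rfl
        · funext i
          rcases i with i | i <;> rfl }
  have gR := hR (6 * k + 1) 2 (2 * w - (6 * k + 1 + 1) * (2 + (4 * k - 1 + 2)) + 1) (Fin 2)
    (Fin (2 * u)) (Fin (4 * k - 1) ⊕ Fin 2) X L (by norm_num) (by simp)
    ⟨z0, b0, ((y0, α0), (p0, q0, β0)), hcfg⟩
  simp only [Fintype.card_fin, Fintype.card_sum] at gR
  have hGG : GG (6 * k + 1) 3 (u + 1) := by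
    refine WarM.CUBIC _ _ (Or.inl ?_)
    rw [NN_three_k, hu]
    have : 6 * k ^ 2 + 6 * k + 1 + 1 + 1 ≤ (2 * k + 1) * (3 * k + 2) := by nlinarith
    calc (6 * k + 1 + 1) * (6 * k ^ 2 + 6 * k + 1 + 1 + 1)
        ≤ (6 * k + 1 + 1) * ((2 * k + 1) * (3 * k + 2)) := Nat.mul_le_mul_left _ this
      _ = _ := by ring
  have gT := (hT (6 * k + 1) u (4 * k - 1) (by omega) (by rw [hu]; nlinarith) hGG
    (by
      rw [NN_three_k, hu]
      nlinarith)
    (by
      rw [NN_three_k, hu]
      nlinarith)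
    (by
      rw [NN_three_k, hu]
      have : 4 * k - 1 + 3 = 4 * k + 2 := by omega
      rw [this]
      nlinarith)).comp
    (LinearMap.snd ℂ ((Fin 2 → Fin (6 * k + 1 + 1) → ℂ) × (Fin 2 → Fin 2 → ℂ))
      (((Fin (2 * u) → Fin (6 * k + 1) → ℂ) × (Fin (2 * u) → Fin 2 → ℂ)) × X))
    LinearMap.snd_surjective
  have gO := (gen_off (n := 6 * k + 1) (I := Fin 2)).comp
    ((LinearMap.fst ℂ (Fin 2 → Fin (6 * k + 1 + 1) → ℂ) (Fin 2 → Fin 2 → ℂ)).comp
      (LinearMap.fst ℂ ((Fin 2 → Fin (6 * k + 1 + 1) → ℂ) × (Fin 2 → Fin 2 → ℂ))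
      (((Fin (2 * u) → Fin (6 * k + 1) → ℂ) × (Fin (2 * u) → Fin 2 → ℂ)) × X)))
    (by
      rw [LinearMap.coe_comp]
      exact LinearMap.fst_surjective.comp LinearMap.fst_surjective)
  obtain ⟨x, ⟨hx1, hx2⟩, hx3⟩ := ((gR.and gT).and gO).exists
  simp only [LinearMap.snd_apply, LinearMap.comp_apply, LinearMap.fst_apply] at hx2 hx3
  obtain ⟨t, ht⟩ := hD (6 * k + 1) 2 (Fin 2) (Fin (2 * u)) (Fin (4 * k - 1)) x.1.1 x.1.2
    x.2.1.1 x.2.1.2 x.2.2.1.1 x.2.2.1.2 x.2.2.2.1 x.2.2.2.2.1 x.2.2.2.2.2 hx3 hx2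
  refine Full.of_type (I := Fin 2 ⊕ (Fin (2 * u) ⊕ (Fin (4 * k - 1) ⊕ Fin 2)))
    (by simp only [Fintype.card_sum, Fintype.card_fin]; omega) ⟨_, _, (ht.trans hx1).trans ?_⟩
  have e1 : 2 + (4 * k - 1 + 2) = 4 * k + 3 := by omega
  have e2 : 2 * w = (6 * k + 1 + 1) * (4 * k + 3) + (12 * k ^ 2 + 8 * k) := by rw [hw]; ring
  rw [e1, e2]
  omega

end Pool.Agent.WarC


end

section

/-!
# Simultaneous Waring decompositions (MP_db021c_ag), cubics, `s = 2`   (helper25)
-/

set_option autoImplicit false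

open Module MvPolynomial
open Pool.Agent.War Pool.Agent.WarS Pool.Agent.WarQ

namespace Pool.Agent.WarC

/-- pure vectors -/
theorem Full.pure {n s q : ℕ} (hn : 1 ≤ n) (hG : GG n 3 q) : Full n s (s * q) := by
  classical
  have hcard : Fintype.card (Fin s × Fin q) = s * q := by simp
  refine Full.of_type (I := Fin s × Fin q) hcard ?_
  let P : Fin s → Finset (Fin s × Fin q) := fun j => Finset.univ.filter fun i => i.1 = j
  have hP : ∀ j, (P j).card = q := by
    intro j
    have : P j = Finset.univ.map ⟨fun i : Fin q => (j, i), fun i i' h => by simpa using h⟩ := by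
      ext i
      simp only [P, Finset.mem_filter, Finset.mem_univ, true_and, Finset.mem_map,
        Function.Embedding.coeFn_mk]
      constructor
      · rintro rfl
        exact ⟨i.2, rfl⟩
      · rintro ⟨i', rfl⟩
        rfl
    rw [this]
    simp
  obtain ⟨z, hz⟩ := (Gen.forall fun j : Fin s =>
    SG n 3 (Fin s × Fin q) (P j) hn (by rw [hP]; exact hG)).exists
  refine ⟨z, fun i => Pi.single i.1 1, ?_⟩
  have h1 : FK n 3 z (fun i => (Pi.single i.1 1 : Fin s → ℂ)) ≤
      Submodule.pi Set.univ fun j => Dbl n 3 (P j) z := by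
    intro f hf
    obtain ⟨k1, k2⟩ := mem_FK.1 hf
    rw [Submodule.mem_pi]
    intro j _
    refine mem_Dbl.2 ⟨fun i => k1 i j, fun i hi k => ?_⟩
    have hij : i.1 = j := (Finset.mem_filter.1 hi).2
    have := k2 i k
    rw [hij] at this
    simpa [Pi.single_apply] using this
  refine ((Submodule.finrank_mono h1).trans (finrank_pi_leC1 _)).trans ?_
  refine (Finset.sum_le_sum fun j _ => hz j).trans ?_
  simp only [hP, hcard, Finset.sum_const, Finset.card_univ, Fintype.card_fin, smul_eq_mul]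
  rw [Nat.mul_sub]
  have e : s * (n * q + s * q) = (n + s) * (s * q) := by ring
  rw [e]

/-- the step for `s = 2` -/
theorem step2 (hT : S_TRC) (hR : S_RESC) (hD : S_DHC) (hA : S_ARR) (hP : S_PERTH)
    {n h U P : ℕ} (hn : 1 ≤ n) (hF : Full n 2 U) (hU : (n + 2) * U = 2 * NN n 3)
    (hh : P + U = h) (hNC : NC (n + 1) 2 P 0) : Full (n + 1) 2 h :=
  stepC (Y := 0) hT hR hD hA hP hn le_rfl hF (by omega) (by omega) hNC

/-- the killing statement -/
theorem W_of_Full {n s h : ℕ} (hF : Full n s h) (hh : s * NN n 3 ≤ (n + s) * h) :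
    Waring.W 3 h n s := by
  obtain ⟨z, a, hza⟩ := hF
  rw [Nat.sub_eq_zero_of_le hh] at hza
  have hbot : FK n 3 z a = ⊥ := Submodule.finrank_eq_zero.1 (Nat.le_zero.1 hza)
  refine Waring.W_of_dual z a fun g hg h1 h2 j => ?_
  have hmem : (fun j => (⟨g j, mem_Pol.2 (hg j)⟩ : Pol n 3)) ∈ FK n 3 z a :=
    mem_FK.2 ⟨fun i j => h1 i j, fun i k => h2 i k⟩
  rw [hbot, Submodule.mem_bot] at hmem
  exact congrArg Subtype.val (congrFun hmem j)

theorem full_3 (j : ℕ) : Full (6 * j + 3) 2 (2 * ((2 * j + 2) * (3 * j + 2))) := by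
  refine Full.pure (by omega) (WarM.CUBIC _ _ (Or.inl ?_))
  have h := WarM.NN_three (6 * j + 3)
  nlinarith

theorem full_5 (j : ℕ) : Full (6 * j + 5) 2 (2 * ((2 * j + 2) * (3 * j + 4))) := by
  refine Full.pure (by omega) (WarM.CUBIC _ _ (Or.inl ?_))
  have h := WarM.NN_three (6 * j + 5)
  nlinarith

theorem NC_mk {m P t : ℕ} (ht : 1 ≤ t) (hP : P = 2 * t) (h1 : 2 * t ≤ m + 1)
    (h2 : 2 * (m * t + P) ≤ (m + 1) * (m + 2)) : NC m 2 P 0 := by
  subst hP
  have e1 : (2 * t + 0) % 2 = 0 := by omega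
  have e2 : (2 * t + 0) / 2 = t := by omega
  have e3 : m * t + 2 * t ≤ (m + 1) * (m + 2) / 2 := by
    rw [Nat.le_div_iff_mul_le (by norm_num)]
    linarith
  unfold NC
  rw [e1, e2]
  refine ⟨?_, Or.inl ⟨le_rfl, by simpa using ht⟩, Or.inl ⟨rfl, h1⟩, Or.inl ⟨rfl, ?_⟩⟩
  · exact le_trans (by omega) e3
  · exact e3

theorem NC_mk' {m P t : ℕ} (ht : 1 ≤ t) (hP : P = 2 * t + 1) (h1 : 2 * t ≤ m)
    (h2 : 2 * (m * (t + 1) + P) ≤ (m + 1) * (m + 2) + 2 * t)
    (h3 : 2 * ((m + 1) * t + P) ≤ (m + 1) * (m + 2)) : NC m 2 P 0 := by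
  subst hP
  have e1 : (2 * t + 1 + 0) % 2 = 1 := by omega
  have e2 : (2 * t + 1 + 0) / 2 = t := by omega
  have e0 : 2 * ((m + 1) * (m + 2) / 2) = (m + 1) * (m + 2) := by
    have : 2 ∣ (m + 1) * (m + 2) := (Nat.even_mul_succ_self (m + 1)).two_dvd
    omega
  unfold NC
  rw [e1, e2]
  refine ⟨?_, Or.inl ⟨by omega, by simpa using ht⟩, Or.inr (Or.inl ⟨rfl, h1⟩),
    Or.inr (Or.inl ⟨rfl, ?_, ?_⟩)⟩
  · have : 0 ≤ (m + 1) * t := Nat.zero_le _
    omega
  · omega
  · omega

theorem two_all (hT : S_TRC) (hR : S_RESC) (hD : S_DHC) (hA : S_ARR) (hP : S_PERTH)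
    (hT2 : S_TRC2) (hR2 : S_RESCL) (hD2 : S_DHC2) (hP2 : S_PERTH2) {n : ℕ} (hn : 3 ≤ n) :
    ∃ h, Full n 2 h ∧ 2 * NN n 3 ≤ (n + 2) * h ∧ (n + 2) * h < 2 * NN n 3 + (n + 2) := by
  have hN := WarM.NN_three n
  obtain ⟨j, hj⟩ : ∃ j, n = 6 * j + 3 ∨ n = 6 * j + 4 ∨ n = 6 * j + 5 ∨ n = 6 * j + 6 ∨
      n = 6 * j + 7 ∨ n = 6 * j + 8 := ⟨(n - 3) / 6, by omega⟩
  rcases hj with rfl | rfl | rfl | rfl | rfl | rfl
  · refine ⟨_, full_3 j, ?_, ?_⟩ <;> nlinarith
  · have h3 := WarM.NN_three (6 * j + 3)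
    refine ⟨12 * j ^ 2 + 24 * j + 12, step2 (n := 6 * j + 3) (U := 2 * ((2 * j + 2) * (3 * j + 2)))
      (P := 4 * j + 4) hT hR hD hA hP (by omega) (full_3 j) ?_ ?_
      (NC_mk (t := 2 * j + 2) (by omega) (by omega) (by omega) (by nlinarith)), ?_, ?_⟩
    · nlinarith
    · ring
    · nlinarith
    · nlinarith
  · refine ⟨_, full_5 j, ?_, ?_⟩ <;> nlinarith
  · have h3 := WarM.NN_three (6 * j + 5)
    refine ⟨12 * j ^ 2 + 32 * j + 21, step2 (n := 6 * j + 5) (U := 2 * ((2 * j + 2) * (3 * j + 4)))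
      (P := 4 * j + 5) hT hR hD hA hP (by omega) (full_5 j) ?_ ?_
      (NC_mk' (t := 2 * j + 2) (by omega) (by omega) (by omega) (by nlinarith) (by nlinarith)),
      ?_, ?_⟩
    · nlinarith
    · ring
    · nlinarith
    · nlinarith
  · have h3 := WarM.NN_three (6 * j + 5)
    have h4 := WarM.NN_three (6 * j + 6)
    have h6 : Full (6 * j + 6) 2 (12 * j ^ 2 + 32 * j + 21) :=
      step2 (n := 6 * j + 5) (U := 2 * ((2 * j + 2) * (3 * j + 4)))
      (P := 4 * j + 5) hT hR hD hA hP (by omega) (full_5 j) (by nlinarith) (by ring)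
      (NC_mk' (t := 2 * j + 2) (by omega) (by omega) (by omega) (by nlinarith) (by nlinarith))
    refine ⟨12 * j ^ 2 + 36 * j + 27, step2 (n := 6 * j + 6) (U := 12 * j ^ 2 + 32 * j + 21)
      (P := 4 * j + 6) hT hR hD hA hP (by omega) h6 ?_ ?_
      (NC_mk (t := 2 * j + 3) (by omega) (by omega) (by omega) (by nlinarith)), ?_, ?_⟩
    · nlinarith
    · ring
    · nlinarith
    · nlinarith
  · refine ⟨12 * (j + 1) ^ 2 + 16 * (j + 1) + 5, stepK hT2 hR2 hD2 hP2 (k := j + 1) (by omega),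
      ?_, ?_⟩
    · nlinarith
    · nlinarith

end Pool.Agent.WarC


end

section

/-!
# Simultaneous Waring decompositions (MP_db021c_ag), cubics: module AAH   (helper46)

The two critical numbers of full points are enough.
-/

set_option autoImplicit false

open Module MvPolynomial
open Pool.Agent.War Pool.Agent.WarS Pool.Agent.WarQ

namespace Pool.Agent.WarC

namespace AAHaux

/-- all the conditions at finitely many full points -/
noncomputable def rho (n d : ℕ) {s e : ℕ} (z : Fin e → Fin n → ℂ) (a : Fin e → Fin s → ℂ) :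
    (Fin s → Pol n d) →ₗ[ℂ] (Fin e × (Fin n ⊕ Fin s) → ℂ) :=
  LinearMap.pi fun q => Sum.elim (fun k => gr n d k (z q.1) (a q.1))
    (fun j => (ev n d (z q.1)).comp (LinearMap.proj j)) q.2

theorem mem_ker_rho {n d s e : ℕ} {z : Fin e → Fin n → ℂ} {a : Fin e → Fin s → ℂ}
    {f : Fin s → Pol n d} (h : f ∈ LinearMap.ker (rho n d z a)) (i : Fin e) :
    (∀ j, eval (z i) (f j : MvPolynomial (Fin n) ℂ) = 0) ∧
      ∀ k, ∑ j, a i j * eval (z i) (pderiv k (f j : MvPolynomial (Fin n) ℂ)) = 0 := by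
  rw [LinearMap.mem_ker] at h
  refine ⟨fun j => ?_, fun k => ?_⟩
  · have h1 := congrFun h (i, Sum.inr j)
    change ev n d (z i) (f j) = 0 at h1
    rwa [ev_apply] at h1
  · have h1 := congrFun h (i, Sum.inl k)
    change gr n d k (z i) (a i) f = 0 at h1
    rwa [gr_apply] at h1

theorem finrank_map_rho {n d s e : ℕ} (z : Fin e → Fin n → ℂ) (a : Fin e → Fin s → ℂ)
    (Z : Submodule ℂ (Fin s → Pol n d)) :
    finrank ℂ (Z.map (rho n d z a)) ≤ (n + s) * e := by
  refine (Submodule.finrank_le _).trans (le_of_eq ?_)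
  rw [Module.finrank_fintype_fun_eq_card]
  simp [mul_comm]

/-- leaving out full points -/
theorem full {n d s p e : ℕ} (z : Fin (p + e) → Fin n → ℂ) (a : Fin (p + e) → Fin s → ℂ) :
    finrank ℂ (FK n d (fun i : Fin p => z (Fin.castAdd e i)) fun i => a (Fin.castAdd e i)) ≤
      finrank ℂ (FK n d z a) + (n + s) * e := by
  have h1 := finrank_le_map_add_ker
    (rho n d (fun i : Fin e => z (Fin.natAdd p i)) fun i => a (Fin.natAdd p i))
    (FK n d (fun i : Fin p => z (Fin.castAdd e i)) fun i => a (Fin.castAdd e i))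
  have h2 := finrank_map_rho (fun i : Fin e => z (Fin.natAdd p i))
    (fun i => a (Fin.natAdd p i))
    (FK n d (fun i : Fin p => z (Fin.castAdd e i)) fun i => a (Fin.castAdd e i))
  have h3 : (FK n d (fun i : Fin p => z (Fin.castAdd e i)) fun i => a (Fin.castAdd e i)) ⊓
      LinearMap.ker (rho n d (fun i : Fin e => z (Fin.natAdd p i)) fun i => a (Fin.natAdd p i)) ≤
      FK n d z a := by
    rintro f ⟨hf1, hf2⟩
    rw [SetLike.mem_coe, mem_FK] at hf1
    rw [mem_FK]
    refine ⟨fun i => ?_, fun i => ?_⟩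
    · refine Fin.addCases (fun j => ?_) (fun j => ?_) i
      · exact hf1.1 j
      · exact (mem_ker_rho hf2 j).1
    · refine Fin.addCases (fun j => ?_) (fun j => ?_) i
      · exact hf1.2 j
      · exact (mem_ker_rho hf2 j).2
  have h4 := Submodule.finrank_mono h3
  omega

theorem down {n s p q : ℕ} (h : Full n s q) (hq : (n + s) * q ≤ s * NN n 3) (hp : p ≤ q) :
    Full n s p := by
  obtain ⟨z, a, hz⟩ := h
  obtain ⟨e, rfl⟩ : ∃ e, q = p + e := ⟨q - p, by omega⟩
  refine ⟨fun i => z (Fin.castAdd e i), fun i => a (Fin.castAdd e i), ?_⟩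
  have h1 := full (d := 3) z a
  have h2 : (n + s) * (p + e) = (n + s) * p + (n + s) * e := by ring
  omega

theorem up {n s p q : ℕ} (h : Full n s q) (hq : s * NN n 3 ≤ (n + s) * q) (hp : q ≤ p) :
    Full n s p := by
  obtain ⟨z, a, hz⟩ := h
  obtain ⟨e, rfl⟩ : ∃ e, p = q + e := ⟨p - q, by omega⟩
  refine ⟨Fin.addCases z fun _ => 0, Fin.addCases a fun _ => 0, ?_⟩
  have h1 : FK n 3 (Fin.addCases z fun _ => 0 : Fin (q + e) → Fin n → ℂ)
      (Fin.addCases a fun _ => 0 : Fin (q + e) → Fin s → ℂ) ≤ FK n 3 z a := by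
    intro f hf
    rw [mem_FK] at hf ⊢
    refine ⟨fun i j => ?_, fun i k => ?_⟩
    · have := hf.1 (Fin.castAdd e i) j
      rwa [Fin.addCases_left] at this
    · have := hf.2 (Fin.castAdd e i) k
      rwa [Fin.addCases_left, Fin.addCases_left] at this
  have h2 := Submodule.finrank_mono h1
  omega

end AAHaux

open _root_.Pool.Agent.WarC.AAHaux in
theorem x_AAH : S_AAH := by
  intro n s hs h1 h2 h
  obtain ⟨m, hm⟩ : ∃ m, m = n + s := ⟨_, rfl⟩
  obtain ⟨x, hx⟩ : ∃ x, x = s * NN n 3 := ⟨_, rfl⟩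
  have hm0 : 0 < m := by omega
  have e1 := Nat.div_add_mod x m
  have e2 := Nat.div_add_mod (x + (m - 1)) m
  have e3 := Nat.mod_lt (x + (m - 1)) hm0
  have e4 := Nat.div_le_div_right (c := m) (show x + (m - 1) ≤ x + m by omega)
  rw [Nat.add_div_right x hm0] at e4
  rcases Nat.lt_or_ge (x / m) h with hh | hh
  · rw [← hm, ← hx] at h2
    refine up h2 ?_ (by omega)
    rw [← hm, ← hx]
    omega
  · rw [← hm, ← hx] at h1
    refine down h1 ?_ hh
    rw [← hm, ← hx]
    omega

end Pool.Agent.WarC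


end

section

/-!
# Simultaneous Waring decompositions (MP_db021c_ag): the block of `n` cubics above the diagonal   (helper76)
-/

set_option autoImplicit false

open Module MvPolynomial
open Pool.Agent.War Pool.Agent.WarS

namespace Pool.Agent.WarC

namespace BLKMaux

open BLKCaux (six_NN rr sum_rr)

/-- assembly of the blocks, with simple points left over -/
theorem asm3 {n d h r : ℕ} {T : Type} [Fintype T] (b m c : T → ℕ) (hc : ∀ t, m t + c t = h)
    (hm : ∑ t, m t + r = h)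
    (H : ∀ t, ∃ (z : Fin (m t) → Fin n → ℂ) (a : Fin (m t) → Fin (b t) → ℂ)
      (y : Fin (c t) → Fin n → ℂ), Kill n d z a y) :
    ∃ (z : ((t : T) × Fin (m t)) → Fin n → ℂ)
      (a : ((t : T) × Fin (m t)) → ((t : T) × Fin (b t)) → ℂ) (y : Fin r → Fin n → ℂ),
      Kill n d z a y := by
  classical
  choose z0 a0 y0 hK using H
  obtain ⟨E⟩ : Nonempty ((((t : T) × Fin (m t)) ⊕ Fin r) ≃ Fin h) :=
    ⟨Fintype.equivFinOfCardEq (by simpa using hm)⟩
  let ι : ((t : T) × Fin (m t)) ↪ Fin h :=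
    ⟨fun q => E (Sum.inl q), fun q q' hq => Sum.inl_injective (E.injective hq)⟩
  -- extend to equivalences
  have hE : ∀ t, ∃ e : Fin (m t) ⊕ Fin (c t) ≃ Fin h, ∀ i, e (Sum.inl i) = ι ⟨t, i⟩ := by
    intro t
    have hinj : Function.Injective fun i : Fin (m t) => ι ⟨t, i⟩ := by
      intro i i' hii
      have := ι.injective hii
      simpa using this
    let R : Set (Fin h) := Set.range fun i : Fin (m t) => ι ⟨t, i⟩
    have e1 : Fin (m t) ≃ R := Equiv.ofInjective _ hinj
    have hcard : Fintype.card (↥(Rᶜ) : Type) = c t := by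
      rw [Fintype.card_compl_set, Fintype.card_fin, ← Fintype.card_congr e1, Fintype.card_fin,
        ← hc t]
      omega
    have e2 : Fin (c t) ≃ ↥(Rᶜ) := (Fintype.equivFinOfCardEq hcard).symm
    refine ⟨(Equiv.sumCongr (Equiv.ofInjective _ hinj) e2).trans (Equiv.Set.sumCompl R), ?_⟩
    intro i
    simp [R]
  choose e he using hE
  obtain ⟨z, hz⟩ := (Gen.forall fun t => KG_gen (e t) (z0 t) (a0 t) (y0 t) (hK t)).exists
  let A : Fin h → ((t : T) × Fin (b t)) → ℂ := fun i q =>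
    ∑ i' : Fin (m q.1), if ι ⟨q.1, i'⟩ = i then a0 q.1 i' q.2 else 0
  have hA1 : ∀ t i j, A (ι ⟨t, i⟩) ⟨t, j⟩ = a0 t i j := by
    intro t i j
    show (∑ i' : Fin (m t), if ι ⟨t, i'⟩ = ι ⟨t, i⟩ then a0 t i' j else 0) = a0 t i j
    rw [Finset.sum_eq_single i]
    · simp
    · intro i' _ hi'
      rw [if_neg]
      intro hh
      have := ι.injective hh
      simp at this
      exact hi' this
    · simp
  have hA2 : ∀ t t' i j, t' ≠ t → A (ι ⟨t, i⟩) ⟨t', j⟩ = 0 := by
    intro t t' i j ht'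
    show (∑ i' : Fin (m t'), if ι ⟨t', i'⟩ = ι ⟨t, i⟩ then a0 t' i' j else 0) = 0
    refine Finset.sum_eq_zero fun i' _ => ?_
    rw [if_neg]
    intro hh
    exact ht' (congrArg Sigma.fst (ι.injective hh))
  refine ⟨fun q => z (ι q), fun q => A (ι q), fun i => z (E (Sum.inr i)), ?_⟩
  rintro f hd h1 h2 h3 ⟨t, j⟩
  have h4 : ∀ i j, eval (z i) (f j) = 0 := by
    intro i j
    obtain ⟨q, rfl⟩ := E.surjective i
    rcases q with q | q
    · exact h1 q j
    · exact h3 q j
  refine hz t (fun j => f ⟨t, j⟩) (fun j => hd _) (fun i j => h4 i _) (fun i k => ?_) j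
  have h5 : ∑ q, A (ι ⟨t, i⟩) q * eval (z (ι ⟨t, i⟩)) (pderiv k (f q)) = 0 := h2 ⟨t, i⟩ k
  rw [Fintype.sum_sigma, Finset.sum_eq_single t] at h5
  · rw [← h5]
    refine Finset.sum_congr rfl fun j _ => ?_
    rw [hA1]
    simp only [he]
  · intro t' _ ht'
    refine Finset.sum_eq_zero fun j _ => ?_
    rw [hA2 _ _ _ _ ht', zero_mul]
  · simp

theorem rot_ne {β : ℕ} (k : Fin (β + 2)) : finRotate (β + 2) k ≠ k := by
  rw [finRotate_apply]
  intro h
  have h1 : (1 : Fin (β + 2)) = 0 := by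
    have : k + 1 = k + 0 := by rw [h, add_zero]
    exact add_left_cancel this
  exact absurd h1 (by
    intro h2
    have := congrArg Fin.val h2
    simp at this)

/-- the number of double points is small enough for `CUB` -/
theorem cub_q' {n q : ℕ} (hn : 3 ≤ n) (h : (2 * n + 1) * (n * q) < n * NN n 3 + (2 * n + 1)) :
    9 * q ≤ (n + 3) ^ 2 := by
  have h6 := six_NN n
  by_contra hcon
  have h1 : (n + 3) ^ 2 + 1 ≤ 9 * q := by omega
  have h3 : n * ((2 * n + 1) * q) < n * (NN n 3 + 3) := by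
    calc n * ((2 * n + 1) * q) = (2 * n + 1) * (n * q) := by ring
      _ < n * NN n 3 + (2 * n + 1) := h
      _ ≤ n * (NN n 3 + 3) := by
        rw [mul_add]
        omega
  have h4 : (2 * n + 1) * q < NN n 3 + 3 := Nat.lt_of_mul_lt_mul_left h3
  have h5 : 6 * ((2 * n + 1) * q) < (n + 1) * (n + 2) * (n + 3) + 18 := by omega
  obtain ⟨t, rfl⟩ : ∃ t, n = t + 3 := ⟨n - 3, by omega⟩
  have e1 : (t + 3 + 1) * (t + 3 + 2) * (t + 3 + 3) = t ^ 3 + 15 * t ^ 2 + 74 * t + 120 := by ring
  have e2 : (t + 3 + 3) ^ 2 = t ^ 2 + 12 * t + 36 := by ring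
  rw [e1] at h5
  rw [e2] at h1
  have h7 : (2 * (t + 3) + 1) * (t ^ 2 + 12 * t + 37) ≤ (2 * (t + 3) + 1) * (9 * q) :=
    Nat.mul_le_mul_left _ (by omega)
  have e3 : (2 * (t + 3) + 1) * (t ^ 2 + 12 * t + 37) =
      2 * t ^ 3 + 31 * t ^ 2 + 158 * t + 259 := by ring
  have e4 : (2 * (t + 3) + 1) * (9 * q) = 9 * ((2 * (t + 3) + 1) * q) := by ring
  rw [e3, e4] at h7
  have h8 : 0 ≤ t ^ 3 := Nat.zero_le _
  omega

/-- the main case, with explicit numbers -/
theorem main (hP : S_PERT) (hC : S_COR3) {ν β q D u r e c : ℕ} (hn : 2 ≤ ν)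
    (hc1 : c ≤ β + 2) (hc3 : (β + 2) * D ≤ (ν + 1) * c)
    (hm : ((β + 2) * ((ν + 1) * q + D) + (ν + 1) - 1) / (ν + 1) = (β + 2) * q + c)
    (hur : u + r = q) (huD : ν + 1 ≤ u + D) (hu1 : (ν + (β + 2)) * u ≤ NN ν 3)
    (hu2 : 9 * u ≤ (ν + 3) ^ 2) (hr : 2 * (r + 1) ≤ ν + 2)
    (hsum : ((β + 2) * r + c) + e + ((ν + 1) * r + D + u) = NN (ν + 1) 2)
    (hoff : ν + 2 ≤ ((β + 2) * r + c) + e) :
    Block (ν + 1) 3 (β + 2) ((ν + 1) * q + D) := by
  have hN : NN (ν + 1) 3 = NN ν 3 + NN (ν + 1) 2 := NN_succ ν 2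
  have hch : (r + 1).choose 2 = r.choose 2 + r := by
    rw [Nat.choose_succ_succ' r 1, Nat.choose_one_right, add_comm]
  have hrn : (ν + 1) * (r + 1) = (ν + 1) * r + (ν + 1) := by ring
  obtain ⟨x, hx⟩ := hP (ν + 1) (β + 2) e ((ν + 1) * r + D + u) (rr (β + 2) c r)
    (finRotate (β + 2)) (by omega) rot_ne (fun k => by unfold rr; split_ifs <;> omega)
    (by rw [sum_rr hc1]; omega)
    (fun k => by
      unfold rr
      split_ifs <;> (try rw [hch]) <;> (try rw [hrn]) <;> omega)
  rw [sum_rr hc1] at hx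
  have hx' : finrank ℂ (TrC1 (ν + 1) 2 x) ≤ (β + 2) * u := by
    refine hx.trans ?_
    have e1 : (β + 2) * ((ν + 1) * r + D + u) =
        (ν + 1) * ((β + 2) * r) + (β + 2) * D + (β + 2) * u := by ring
    have e2 : (ν + 1) * ((β + 2) * r + c) = (ν + 1) * ((β + 2) * r) + (ν + 1) * c := by ring
    rw [e1, e2]
    omega
  have e3 : (ν + (β + 2)) * u = ν * u + (β + 2) * u := by ring
  obtain ⟨z, a, y, hK⟩ := hC ν (β + 2) u e (NN ν 3 - (ν + (β + 2)) * u)
    ((k : Fin (β + 2)) × Fin (rr (β + 2) c r k)) (by omega)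
    (War5.CUB ν u hu2) (by omega)
    (by simp only [Fintype.card_sigma, Fintype.card_fin, sum_rr hc1]; omega) ⟨x, hx'⟩
  have e4 : (β + 2) * q = (β + 2) * u + (β + 2) * r := by rw [← hur]; ring
  have e5 : (ν + 1) * q = ν * u + u + (ν + 1) * r := by rw [← hur]; ring
  have hcα : Fintype.card ((Fin (β + 2) × Fin u) ⊕
      ((k : Fin (β + 2)) × Fin (rr (β + 2) c r k))) =
      ((β + 2) * ((ν + 1) * q + D) + (ν + 1) - 1) / (ν + 1) := by
    simp only [Fintype.card_sum, Fintype.card_prod, Fintype.card_fin, Fintype.card_sigma,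
      sum_rr hc1]
    rw [hm]
    omega
  have hcβ : Fintype.card (Fin (NN ν 3 - (ν + (β + 2)) * u) ⊕ Fin e) =
      NN (ν + 1) 3 - ((ν + 1) * q + D) -
        ((β + 2) * ((ν + 1) * q + D) + (ν + 1) - 1) / (ν + 1) := by
    simp only [Fintype.card_sum, Fintype.card_fin]
    rw [hm]
    omega
  exact ⟨_, _, _, hK.reindexC1 (Fintype.equivFinOfCardEq hcα).symm
    (Fintype.equivFinOfCardEq hcβ).symm⟩

/-- a block with explicit numbers of full and simple points (`r k = [k < c]`) -/
theorem blk (hP : S_PERT) (hC : S_COR3) {ν β u e eH w c m m' : ℕ} (hn : 2 ≤ ν)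
    (hc1 : c ≤ β + 2) (hu2 : 9 * u ≤ (ν + 3) ^ 2)
    (hH : NN ν 3 ≤ ν * u + ((β + 2) * u + eH)) (hoff : ν + 2 ≤ c + e)
    (hsum : c + e + w = NN (ν + 1) 2) (hw : ν + 1 ≤ w)
    (hb : (β + 2) * w ≤ (β + 2) * u + (ν + 1) * c)
    (hm : (β + 2) * u + c = m) (hm' : eH + e = m') :
    ∃ (z : Fin m → Fin (ν + 1) → ℂ) (a : Fin m → Fin (β + 2) → ℂ)
      (y : Fin m' → Fin (ν + 1) → ℂ), Kill (ν + 1) 3 z a y := by
  have hs : ∑ k, rr (β + 2) c 0 k = c := by rw [sum_rr hc1]; omega
  have hr1 : ∀ k, rr (β + 2) c 0 k ≤ 1 := fun k => by unfold rr; split_ifs <;> omega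
  have hr2 : ∀ k, (rr (β + 2) c 0 k).choose 2 = 0 := fun k =>
    Nat.choose_eq_zero_of_lt (by have := hr1 k; omega)
  obtain ⟨x, hx⟩ := hP (ν + 1) (β + 2) e w (rr (β + 2) c 0)
    (finRotate (β + 2)) (by omega) rot_ne
    (fun k => by
      have h1 := hr1 k
      have h2 := hr1 (finRotate (β + 2) k)
      omega)
    (by rw [hs]; omega)
    (fun k => by
      rw [hr2, hr2]
      have h2 := Nat.mul_le_mul_left (ν + 1) (hr1 (finRotate (β + 2) k))
      omega)
  rw [hs] at hx
  obtain ⟨z, a, y, hK⟩ := hC ν (β + 2) u e eH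
    ((k : Fin (β + 2)) × Fin (rr (β + 2) c 0 k)) (by omega)
    (War5.CUB ν u hu2) hH
    (by simp only [Fintype.card_sigma, Fintype.card_fin, hs]; omega) ⟨x, by omega⟩
  have hcα : Fintype.card ((Fin (β + 2) × Fin u) ⊕
      ((k : Fin (β + 2)) × Fin (rr (β + 2) c 0 k))) = m := by
    simp only [Fintype.card_sum, Fintype.card_prod, Fintype.card_fin, Fintype.card_sigma, hs]
    exact hm
  have hcβ : Fintype.card (Fin eH ⊕ Fin e) = m' := by
    simp only [Fintype.card_sum, Fintype.card_fin]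
    exact hm'
  exact ⟨_, _, _, hK.reindexC1 (Fintype.equivFinOfCardEq hcα).symm
    (Fintype.equivFinOfCardEq hcβ).symm⟩

/-- three equal blocks -/
theorem three {n b m m' μ r : ℕ} (hn : 1 ≤ n) (hb : 3 * b = n) (hm : 3 * m = μ) (hmm : m + m' = μ + r)
    (hN : NN n 3 = μ + (μ + r))
    (H : ∃ (z : Fin m → Fin n → ℂ) (a : Fin m → Fin b → ℂ) (y : Fin m' → Fin n → ℂ),
      Kill n 3 z a y) : Block n 3 n μ := by
  obtain ⟨z, a, y, hK⟩ := asm3 (T := Fin 3) (h := μ + r) (r := r) (n := n) (d := 3) (fun _ => b)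
    (fun _ => m) (fun _ => m') (fun _ => hmm) (by simp; omega) (fun _ => H)
  have hq : (n * μ + n - 1) / n = μ := by
    have : n * μ + n - 1 = (n - 1) + n * μ := by omega
    rw [this, Nat.add_mul_div_left _ _ (by omega), Nat.div_eq_of_lt (by omega), zero_add]
  have hcγ : Fintype.card ((_ : Fin 3) × Fin b) = n := by
    simp only [Fintype.card_sigma, Fintype.card_fin, Finset.sum_const, Finset.card_univ,
      smul_eq_mul]
    exact hb
  have hcα : Fintype.card ((_ : Fin 3) × Fin m) = (n * μ + n - 1) / n := by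
    simp only [Fintype.card_sigma, Fintype.card_fin, Finset.sum_const, Finset.card_univ,
      smul_eq_mul]
    rw [hq]
    exact hm
  have hcβ : Fintype.card (Fin r) = NN n 3 - μ - (n * μ + n - 1) / n := by
    rw [hq, hN, Fintype.card_fin]
    omega
  exact ⟨_, _, _, (Kill_equiv (Fintype.equivFinOfCardEq hcγ).symm hK).reindexC1
    (Fintype.equivFinOfCardEq hcα).symm (Fintype.equivFinOfCardEq hcβ).symm⟩

end BLKMaux

open _root_.Pool.Agent.WarC.BLKMaux in
theorem x_BLKM (hN : S_NUMB) (hP : S_PERT) (hC : S_COR3) : S_BLKM := by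
  intro n μ hn h5 h1 h2
  by_cases h9 : n = 9
  · subst h9
    have e1 : NN 9 3 = 220 := by decide
    have e2 : NN 8 3 = 165 := by decide
    have e3 : NN (8 + 1) 2 = 55 := by decide
    rw [e1] at h1 h2
    have hμ : μ = 105 := by omega
    subst hμ
    exact three (b := 3) (m := 35) (m' := 80) (r := 10) (by norm_num) (by norm_num) (by norm_num)
      (by norm_num) (by rw [e1]) (blk hP hC (ν := 8) (β := 1) (u := 11) (e := 36) (eH := 44)
        (w := 17) (c := 2) (by norm_num) (by norm_num) (by norm_num) (by rw [e2]) (by norm_num)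
        (by rw [e3]) (by norm_num) (by norm_num) (by norm_num) (by norm_num))
  by_cases h12 : n = 12
  · subst h12
    have e1 : NN 12 3 = 455 := by decide
    have e2 : NN 11 3 = 364 := by decide
    have e3 : NN (11 + 1) 2 = 91 := by decide
    rw [e1] at h1 h2
    have hμ : μ = 219 := by omega
    subst hμ
    exact three (b := 4) (m := 73) (m' := 163) (r := 17) (by norm_num) (by norm_num) (by norm_num)
      (by norm_num) (by rw [e1]) (blk hP hC (ν := 11) (β := 2) (u := 18) (e := 69) (eH := 94)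
        (w := 21) (c := 1) (by norm_num) (by norm_num) (by norm_num) (by rw [e2]) (by norm_num)
        (by rw [e3]) (by norm_num) (by norm_num) (by norm_num) (by norm_num))
  obtain ⟨ν, rfl⟩ : ∃ ν, n = ν + 1 := ⟨n - 1, by omega⟩
  have hμq : (ν + 1) * (μ / (ν + 1)) + μ % (ν + 1) = μ := Nat.div_add_mod μ (ν + 1)
  have hDlt : μ % (ν + 1) < ν + 1 := Nat.mod_lt _ (by omega)
  generalize μ / (ν + 1) = q at hμq
  generalize μ % (ν + 1) = D at hμq hDlt
  subst hμq
  have hm : ((ν + 1) * ((ν + 1) * q + D) + (ν + 1) - 1) / (ν + 1) = (ν + 1) * q + D := by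
    have : (ν + 1) * ((ν + 1) * q + D) + (ν + 1) - 1 = ν + (ν + 1) * ((ν + 1) * q + D) := by omega
    rw [this, Nat.add_mul_div_left _ _ (by omega), Nat.div_eq_of_lt (by omega), zero_add]
  rcases Nat.eq_zero_or_pos D with hD | hD
  · subst hD
    rw [add_zero] at h2 hm ⊢
    exact WarM.PB (ν + 1) 3 (ν + 1) q _ (by omega) (by omega)
      (War5.CUB _ _ (cub_q' hn h2)) le_rfl hm.symm
  · obtain ⟨u, r, e, hur, huD, hu1, hu2, hr, hsum, hoff⟩ :=
      hN (ν + 1) q D hn hD hDlt h1 h2 h5 h9 h12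
    obtain ⟨β, rfl⟩ : ∃ β, ν = β + 1 := ⟨ν - 1, by omega⟩
    rw [show β + 1 + 1 - 1 = β + 1 by omega] at hu1
    rw [show β + 1 + 1 = β + 2 by omega] at *
    exact main hP hC (ν := β + 1) (β := β) (q := q) (D := D) (c := D) (by omega) (by omega)
      (by rw [show β + 1 + 1 = β + 2 by omega]) (by
        rw [show β + 1 + 1 = β + 2 by omega]
        exact hm) hur (by omega) (by
        rw [show β + 1 + (β + 2) = 2 * (β + 2) - 1 by omega]
        exact hu1) (by
        rw [show β + 1 + 3 = β + 2 + 2 by omega]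
        exact hu2) (by omega) (by
        rw [show β + 1 + 1 = β + 2 by omega]
        exact hsum) (by omega)

end Pool.Agent.WarC


end

section

/-!
# NG4: the numerical conditions in degree `6`

`x_NG4 : S_CF → S_P4B → S_NG4` (PAPER.md, section 4).
-/

set_option autoImplicit false

open Pool.Agent.War Pool.Agent.WarS

namespace Pool.Agent.War5

namespace NG4aux

theorem c1 (n : ℕ) (hn : 3 ≤ n) :
    720 * ((2 * n + 1) * (3 * n + 2) + 2 * n) <
      (n + 1) * (n + 2) * (n + 3) * (n + 4) * (n + 5) * (n + 6) := by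
  obtain ⟨k, rfl⟩ := Nat.exists_eq_add_of_le hn
  nlinarith [Nat.zero_le k, Nat.zero_le (k ^ 2), Nat.zero_le (k ^ 3), Nat.zero_le (k ^ 4),
    Nat.zero_le (k ^ 5), Nat.zero_le (k ^ 6)]

theorem c2 (n : ℕ) (hn : 3 ≤ n) :
    (n + 1) * (n + 2) * (n + 3) * (n + 4) * (n + 5) * (n + 6) +
      720 * ((n + 2) * (n + 1) * (2 * n + 1)) ≤
      6 * ((n + 2) * ((n + 1) * (n + 2) * (n + 3) * (n + 4) * (n + 5))) := by
  obtain ⟨k, rfl⟩ := Nat.exists_eq_add_of_le hn
  nlinarith [Nat.zero_le k, Nat.zero_le (k ^ 2), Nat.zero_le (k ^ 3), Nat.zero_le (k ^ 4),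
    Nat.zero_le (k ^ 5), Nat.zero_le (k ^ 6)]

theorem c3 (n : ℕ) (hn : 3 ≤ n) :
    120 * (21 * (n + 3)) ≤ (n + 2) * (n + 3) * (n + 4) * (n + 5) * (n + 6) := by
  obtain ⟨k, rfl⟩ := Nat.exists_eq_add_of_le hn
  nlinarith [Nat.zero_le k, Nat.zero_le (k ^ 2), Nat.zero_le (k ^ 3), Nat.zero_le (k ^ 4),
    Nat.zero_le (k ^ 5)]

theorem c4 (n : ℕ) (hn : 4 ≤ n) :
    720 * ((n + 2) * (3 * n + 6) + (n + 1)) <
      (n + 1) * (n + 2) * (n + 3) * (n + 4) * (n + 5) * (n + 6) := by
  obtain ⟨k, rfl⟩ := Nat.exists_eq_add_of_le hn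
  nlinarith [Nat.zero_le k, Nat.zero_le (k ^ 2), Nat.zero_le (k ^ 3), Nat.zero_le (k ^ 4),
    Nat.zero_le (k ^ 5), Nat.zero_le (k ^ 6)]

theorem c5 (n : ℕ) (hn : 3 ≤ n) :
    120 * ((n + 2) * (2 * n)) ≤ (n + 1) * (n + 2) * (n + 3) * (n + 4) * (n + 5) := by
  obtain ⟨k, rfl⟩ := Nat.exists_eq_add_of_le hn
  nlinarith [Nat.zero_le k, Nat.zero_le (k ^ 2), Nat.zero_le (k ^ 3), Nat.zero_le (k ^ 4),
    Nat.zero_le (k ^ 5)]

theorem c6 (n : ℕ) (hn : 3 ≤ n) :
    45 * ((n + 2) * (n + 3) * (n + 4) * (n + 5)) + 1080 * n +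
      20 * ((n + 1) * (30 + 48 * (n + 2))) ≤
      3 * ((n + 4) * (n + 5) * (n + 6) * (5 * n + 11)) +
        20 * ((n + 1) * ((n + 4) * (n + 5) * (2 * n + 9))) := by
  obtain ⟨k, rfl⟩ := Nat.exists_eq_add_of_le hn
  nlinarith [Nat.zero_le k, Nat.zero_le (k ^ 2), Nat.zero_le (k ^ 3), Nat.zero_le (k ^ 4)]

/-- comparison with the case `r = 1` -/
theorem red (n r M u t y : ℤ) (hn : 0 ≤ n) (hr : 1 ≤ r) (ht : 0 ≤ t) (hy : y ≤ n + r)
    (h : (r + 1) * M ≤ (n + r + 2) * t + (r + 1) * u + (n + 1) * y) :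
    2 * (M - u) < (n + 3) * (t + n + 1) := by
  have h1 : (n + 1) * y ≤ (n + 1) * (n + r) := mul_le_mul_of_nonneg_left hy (by linarith)
  have h2 : (r + 1) * (M - u - (t + n + 1)) < (n + 1) * (t + n + 1) := by nlinarith
  by_cases h3 : 0 ≤ M - u - (t + n + 1)
  · have h4 : 2 * (M - u - (t + n + 1)) ≤ (r + 1) * (M - u - (t + n + 1)) :=
      mul_le_mul_of_nonneg_right (by linarith) h3
    linarith
  · push Not at h3
    nlinarith

end NG4aux

theorem x_NG4 (hCF : S_CF) (hP : S_P4B) : S_NG4 := by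
  intro n r u y hr1 hrn hS h6 hy
  have hn : 3 ≤ n := by
    by_contra hcon
    apply hS
    unfold Small
    have : n = 1 ∨ n = 2 := by omega
    rcases this with h | h
    · left; omega
    · right; left; omega
  have f6 : 720 * NN n 6 = (n + 1) * (n + 2) * (n + 3) * (n + 4) * (n + 5) * (n + 6) :=
    (hCF n).2.2.2.2
  have f5 : 120 * NN n 5 = (n + 1) * (n + 2) * (n + 3) * (n + 4) * (n + 5) := (hCF n).2.2.2.1
  have fM : 120 * NN (n + 1) 5 = (n + 2) * (n + 3) * (n + 4) * (n + 5) * (n + 6) := by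
    have := (hCF (n + 1)).2.2.2.1
    rw [this]
  have fK : 24 * NN (n + 1) 4 = (n + 2) * (n + 3) * (n + 4) * (n + 5) := by
    have := (hCF (n + 1)).2.2.1
    rw [this]
  have hg5 : gg (n + 1) (4 + 1) = NN (n + 1) 5 / (n + 3) := by
    unfold gg
    rw [if_neg (by omega), if_neg (by omega), if_neg (by omega), if_neg (by omega)]
  have hg4 : gg (n + 1) 4 = P4 (n + 1) := by
    unfold gg
    rw [if_neg (by omega), if_neg (by omega), if_pos rfl]
  have hgn6 : gg n (4 + 2) = NN n 6 / (n + 2) := by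
    unfold gg
    rw [if_neg (by omega), if_neg (by omega), if_neg (by omega), if_neg (by omega)]
  have hgn5 : gg n (4 + 1) = NN n 5 / (n + 2) := by
    unfold gg
    rw [if_neg (by omega), if_neg (by omega), if_neg (by omega), if_neg (by omega)]
  have hMM : NN (n + 1) (4 + 1) = NN (n + 1) 5 := rfl
  have h66 : NN n (4 + 2) = NN n 6 := rfl
  have h55 : NN n (4 + 1) = NN n 5 := rfl
  -- the lower bound for `u`
  have g1 : 3 * (n + 1) ≤ u := by
    by_contra hcon
    have hu : u ≤ 3 * n + 2 := by omega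
    have e1 : (n + r + 1) * u ≤ (2 * n + 1) * (3 * n + 2) := Nat.mul_le_mul (by omega) hu
    have e2 := NG4aux.c1 n hn
    omega
  -- `(n + 2) u ≤ N_6`
  have hu6 : (n + 2) * u + y ≤ NN n 6 := by
    have e1 : (n + 2) * u ≤ (n + r + 1) * u := Nat.mul_le_mul_right u (by omega)
    omega
  refine ⟨g1, ?_, ?_, ?_, ?_, ?_⟩
  · -- g2
    rw [h55]
    have e1 : (n + 2) * ((n + 1) * y + (n + 1)) ≤ (n + 2) * (n + 1) * (2 * n + 1) := by
      have : (n + 2) * ((n + 1) * y + (n + 1)) = (n + 2) * (n + 1) * (y + 1) := by ring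
      rw [this]
      exact Nat.mul_le_mul_left _ (by omega)
    have e2 := NG4aux.c2 n hn
    rw [← f6, ← f5] at e2
    have e3 : 6 * ((n + 2) * (120 * NN n 5)) = 720 * ((n + 2) * NN n 5) := by ring
    rw [e3] at e2
    have e4 : (n + 2) * (u + (n + 1) * y + (n + 1)) ≤ (n + 2) * NN n 5 := by
      have : (n + 2) * (u + (n + 1) * y + (n + 1)) =
        (n + 2) * u + (n + 2) * ((n + 1) * y + (n + 1)) := by ring
      omega
    exact Nat.le_of_mul_le_mul_left e4 (by omega)
  · -- g3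
    intro p hp
    rw [hg5, Nat.le_div_iff_mul_le (by omega)]
    rw [hMM] at hp
    by_contra hcon
    have hM : NN (n + 1) 5 + 1 ≤ (n + 3) * p := by
      rw [mul_comm (n + 3) p]
      omega
    by_cases hr2 : r = 1
    · subst hr2
      have e0 : n + 1 + 2 = n + 3 := by omega
      rw [e0] at hp
      have e1 : u ≤ 3 * n + 6 := by omega
      by_cases hn4 : 4 ≤ n
      · have e2 := NG4aux.c4 n hn4
        have e3 : (n + 1 + 1) * u ≤ (n + 2) * (3 * n + 6) := Nat.mul_le_mul (by omega) e1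
        rw [← f6] at e2
        omega
      · have hn3 : n = 3 := by omega
        subst hn3
        have e4 : NN 3 6 = 84 := by omega
        rw [h66, e4] at h6
        omega
    · have hr3 : 2 ≤ r := by omega
      obtain ⟨j, rfl⟩ := Nat.exists_eq_add_of_le hr3
      have e0 := NG4aux.c3 n hn
      rw [← fM] at e0
      have e1 : (n + 3) * ((n + (2 + j) + 2) * p) = (n + (2 + j) + 2) * ((n + 3) * p) := by ring
      have e2 : (n + (2 + j) + 2) * (NN (n + 1) 5 + 1) ≤ (n + (2 + j) + 2) * ((n + 3) * p) :=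
        Nat.mul_le_mul_left _ hM
      have e3 : (n + 3) * ((n + (2 + j) + 2) * p + u) ≤
          (n + 3) * (NN (n + 1) 5 + y + 2 * (n + (2 + j) + 2)) := Nat.mul_le_mul_left _ hp
      have e4 : (n + 3) * (3 * (n + 1)) ≤ (n + 3) * u := Nat.mul_le_mul_left _ g1
      have e5 : (n + 3) * y ≤ (n + 3) * (n + (2 + j)) := Nat.mul_le_mul_left _ hy
      have e6 : 21 * (n + 3) ≤ NN (n + 1) 5 := by omega
      have e7 : (j + 1) * (21 * (n + 3)) ≤ (j + 1) * NN (n + 1) 5 := Nat.mul_le_mul_left _ e6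
      generalize NN (n + 1) 5 = M at *
      nlinarith
  · -- g4
    intro t ht
    rw [hg4]
    rw [hMM] at ht
    by_contra hcon
    have hcon' : (n + 1) * P4 (n + 1) + t + 1 ≤ NN (n + 1) 4 := by omega
    have e1 := NG4aux.red (n : ℤ) r (NN (n + 1) 5) u t y (by positivity) (by exact_mod_cast hr1)
      (by positivity) (by exact_mod_cast hy) (by exact_mod_cast ht)
    have e2 := (hP (n + 1)).2
    have e3 : ((n + 1) * ((n + 4) * (n + 5) * (2 * n + 9)) : ℕ) ≤
        (n + 1) * (54 * P4 (n + 1) + 30 + 48 * (n + 2)) := by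
      refine Nat.mul_le_mul_left _ ?_
      have : (n + 1 + 3) * (n + 1 + 4) * (2 * (n + 1) + 7) = (n + 4) * (n + 5) * (2 * n + 9) := by
        ring
      rw [← this]
      exact e2
    have e4 := NG4aux.c6 n hn
    have e5 : 2 * ((n + 2) * NN (n + 1) 5) < (n + 2) * (n + 3) * (t + n + 1) + 2 * NN n 6 := by
      zify
      have hu6' : ((n : ℤ) + 2) * u + y ≤ NN n 6 := by exact_mod_cast hu6
      have hy0 : (0 : ℤ) ≤ y := by positivity
      nlinarith
    -- multiply by `360`
    have e6 : (n + 2) * (n + 3) * ((n + 4) * (n + 5) * (n + 6) * (5 * n + 11)) <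
        (n + 2) * (n + 3) * (360 * (t + n + 1)) := by
      have a1 : 720 * ((n + 2) * NN (n + 1) 5) = 6 * ((n + 2) * (120 * NN (n + 1) 5)) := by ring
      rw [fM] at a1
      have a2 : 6 * ((n + 2) * ((n + 2) * (n + 3) * (n + 4) * (n + 5) * (n + 6))) =
          (n + 2) * (n + 3) * ((n + 4) * (n + 5) * (n + 6) * (5 * n + 11)) +
          (n + 1) * (n + 2) * (n + 3) * (n + 4) * (n + 5) * (n + 6) := by ring
      rw [a2, ← f6] at a1
      have a3 : (n + 2) * (n + 3) * (360 * (t + n + 1)) = 360 * ((n + 2) * (n + 3) * (t + n + 1)) := by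
        ring
      rw [a3]
      omega
    have e7 : (n + 4) * (n + 5) * (n + 6) * (5 * n + 11) < 360 * (t + n + 1) :=
      Nat.lt_of_mul_lt_mul_left e6
    rw [← fK] at e4
    linarith
  · -- g5
    rw [hgn6, Nat.le_div_iff_mul_le (by omega), mul_comm]
    omega
  · -- g6
    rw [hgn5, Nat.le_div_iff_mul_le (by omega), mul_comm]
    have e1 := NG4aux.c5 n hn
    have e2 : (n + 2) * y ≤ (n + 2) * (2 * n) := Nat.mul_le_mul_left _ (by omega)
    omega

end Pool.Agent.War5


end

section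

/-!
# Simultaneous Waring decompositions (MP_db021c_ag), few forms: residual lemma   (helper76)

Section (RES) of `Pool/Agent/WarS/PAPER.md`.
-/

set_option autoImplicit false

open Module MvPolynomial
open Pool.Agent.War

namespace Pool.Agent.WarS

namespace RESm

/-- the parameters -/
abbrev Pm (n r u v y : ℕ) (I : Type) : Type :=
  (I → Fin (n + 1) → ℂ) × (Fin u → Fin n → ℂ) × (Fin v → Fin n → ℂ) ×
    (Fin v → Fin (r + 1) → ℂ) × (Fin y → Fin n → ℂ)

section Maps

variable {n r u v y : ℕ} {I : Type}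

/-- a point off the hyperplane -/
def Lw (i : I) : Pm n r u v y I →ₗ[ℂ] (Fin (n + 1) → ℂ) where
  toFun x := x.1 i
  map_add' _ _ := rfl
  map_smul' _ _ := rfl

/-- a point z1 -/
def L1 (i : Fin u) : Pm n r u v y I →ₗ[ℂ] (Fin n → ℂ) where
  toFun x := x.2.1 i
  map_add' _ _ := rfl
  map_smul' _ _ := rfl

/-- a point z2 -/
def L2 (i : Fin v) : Pm n r u v y I →ₗ[ℂ] (Fin n → ℂ) where
  toFun x := x.2.2.1 i
  map_add' _ _ := rfl
  map_smul' _ _ := rfl

/-- a coordinate of a vector a -/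
def La (i : Fin v) (j : Fin (r + 1)) : Pm n r u v y I →ₗ[ℂ] ℂ where
  toFun x := x.2.2.2.1 i j
  map_add' _ _ := rfl
  map_smul' _ _ := rfl

/-- a point z0 -/
def L0 (i : Fin y) : Pm n r u v y I →ₗ[ℂ] (Fin n → ℂ) where
  toFun x := x.2.2.2.2 i
  map_add' _ _ := rfl
  map_smul' _ _ := rfl

end Maps

section Fun

variable {X : Type*} [AddCommGroup X] [Module ℂ X] {m e : ℕ} {γ : Type}

/-- evaluation of the form j -/
noncomputable def Ev (m e : ℕ) {γ : Type} (j : γ) (z : Fin m → ℂ) : (γ → Pol m e) →ₗ[ℂ] ℂ :=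
  (ev m e z).comp (LinearMap.proj j)

/-- evaluation of a derivative of the form j -/
noncomputable def Dv (m e : ℕ) {γ : Type} (j : γ) (k : Fin m) (z : Fin m → ℂ) :
    (γ → Pol m e) →ₗ[ℂ] ℂ :=
  (dv m e k z).comp (LinearMap.proj j)

theorem Ev_apply (j : γ) (z : Fin m → ℂ) (g : γ → Pol m e) :
    Ev m e j z g = eval z (g j : MvPolynomial (Fin m) ℂ) := ev_apply _ _

theorem Dv_apply (j : γ) (k : Fin m) (z : Fin m → ℂ) (g : γ → Pol m e) :
    Dv m e j k z g = eval z (pderiv k (g j : MvPolynomial (Fin m) ℂ)) := dv_apply _ _ _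

theorem PK_Ev (j : γ) (L : X →ₗ[ℂ] (Fin m → ℂ)) :
    PK fun x : X => LinearMap.ker (Ev m e j (L x)) := by
  refine PK.one (φ := fun x : X => Ev m e j (L x)) fun g => ?_
  simp only [Ev_apply]
  exact (LP_eval _).comp_linear L

theorem PK_Dv (j : γ) (k : Fin m) (L : X →ₗ[ℂ] (Fin m → ℂ)) :
    PK fun x : X => LinearMap.ker (Dv m e j k (L x)) := by
  refine PK.one (φ := fun x : X => Dv m e j k (L x)) fun g => ?_
  simp only [Dv_apply]
  exact (LP_eval _).comp_linear L

end Fun

section ZZ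

variable {n r u v y : ℕ} {I : Type}

/-- the space of solutions of the residual conditions -/
noncomputable def ZZ (d : ℕ) (π : I → Fin (r + 1)) (x : Pm n r u v y I) :
    Submodule ℂ (Fin (r + 1) → Pol (n + 1) (d + 1)) :=
  (((⨅ q : I × Fin (r + 1), LinearMap.ker (Ev (n + 1) (d + 1) q.2 (Lw q.1 x))) ⊓
    (⨅ q : I × Fin (n + 1), LinearMap.ker (Dv (n + 1) (d + 1) (π q.1) q.2 (Lw q.1 x)))) ⊓
  ((⨅ i : Fin u, LinearMap.ker (Ev (n + 1) (d + 1) (0 : Fin (r + 1)) (hpL n (L1 i x)))) ⊓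
    (⨅ i : Fin v, LinearMap.ker (OmC1 n (d + 1) (L2 i x, fun j : Fin (r + 1) => La i j x))))) ⊓
  ((⨅ i : Fin y, LinearMap.ker (Ev (n + 1) (d + 1) (0 : Fin (r + 1)) (hpL n (L0 i x)))) ⊓
    (⨅ q : Fin y × Fin n,
      LinearMap.ker (Dv (n + 1) (d + 1) (0 : Fin (r + 1)) q.2.succ (hpL n (L0 q.1 x)))))

theorem mem_ZZ {d : ℕ} {π : I → Fin (r + 1)} {x : Pm n r u v y I}
    {g : Fin (r + 1) → Pol (n + 1) (d + 1)} : g ∈ ZZ d π x ↔
      ResC π x.1 x.2.1 x.2.2.1 x.2.2.2.1 x.2.2.2.2
        (fun j => (g j : MvPolynomial (Fin (n + 1)) ℂ)) := by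
  simp only [ZZ, Submodule.mem_inf, Submodule.mem_iInf, LinearMap.mem_ker, Ev_apply, Dv_apply,
    OmC1_apply]
  constructor
  · rintro ⟨⟨⟨h1, h2⟩, h3, h4⟩, h5, h6⟩
    exact ⟨fun i j => h1 (i, j), fun i k => h2 (i, k), h3, h4, h5, fun i k => h6 (i, k)⟩
  · rintro ⟨h1, h2, h3, h4, h5, h6⟩
    exact ⟨⟨⟨fun q => h1 q.1 q.2, fun q => h2 q.1 q.2⟩, h3, h4⟩, h5, fun q => h6 q.1 q.2⟩

theorem PK_ZZ [Finite I] (d : ℕ) (π : I → Fin (r + 1)) :
    PK (K := ℂ) fun x : Pm n r u v y I => ZZ d π x := by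
  refine PK.inf (PK.inf (PK.inf ?_ ?_) (PK.inf ?_ ?_)) (PK.inf ?_ ?_)
  · exact PK.iInf fun q => PK_Ev q.2 (Lw q.1)
  · exact PK.iInf fun q => PK_Dv (π q.1) q.2 (Lw q.1)
  · exact PK.iInf fun i => PK_Ev 0 ((hpL n).comp (L1 i))
  · refine PK.iInf fun i => PK.one (φ := fun x : Pm n r u v y I =>
      OmC1 n (d + 1) (L2 i x, fun j : Fin (r + 1) => La i j x)) fun g => ?_
    simp only [OmC1_apply, eval_hp]
    exact LP.sum _ fun j _ => (LP.linear (La i j)).mul ((LP_eval _).comp_linear (L2 i))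
  · exact PK.iInf fun i => PK_Ev 0 ((hpL n).comp (L0 i))
  · exact PK.iInf fun q => PK_Dv 0 q.2.succ ((hpL n).comp (L0 q.1))

end ZZ

theorem sum_fib {I : Type} [Fintype I] {s : ℕ} (π : I → Fin s) :
    ∑ j, fib π j = Fintype.card I := by
  unfold fib
  rw [← Finset.card_univ (α := I)]
  exact (Finset.card_eq_sum_card_fiberwise (f := π) (s := Finset.univ) (t := Finset.univ)
    fun _ _ => Finset.mem_coe.2 (Finset.mem_univ _)).symm

/-- arithmetic of the dimensions -/
theorem count {n r u v y N I F f0 S : ℕ} (h0 : (n + 1) * f0 + I + (n + 1) * y + u ≤ N)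
    (hS : S + ((n + 1) * F + r * I) = r * N) (hI : f0 + F = I)
    (hT : (r + 1) * N ≤ (n + r + 2) * I + (n + 1) * y + u + v) :
    N - ((n + 1) * f0 + I + (n + 1) * y) - u + S ≤ v := by
  have e1 : (r + 1) * N = r * N + N := by ring
  have e2 : (n + r + 2) * I = (n + 1) * f0 + (n + 1) * F + r * I + I := by
    rw [← hI]
    ring
  rw [e1, e2] at hT
  omega

end RESm

open _root_.Pool.Agent.WarS.RESm in
/-- the residual lemma -/
theorem RES (hSG : S_SG) (hHD : S_HD) : S_RES := by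
  intro n d r u v y I _ π hn hG0 hG1 hGy hB h0 hj hT
  classical
  let P : Fin (r + 1) → Finset I := fun j => Finset.univ.filter fun i => π i = j
  have hP : ∀ j, (P j).card = fib π j := fun j => rfl
  -- the points w and z0
  have gA := hHD n d y I (P 0) hn (hG0 0) hGy (hB 0)
  have gB := (Gen.forall fun j : Fin (r + 1) =>
    hSG (n + 1) (d + 1) I (P j) (by omega) (hG1 j)).comp
      (LinearMap.fst ℂ (I → Fin (n + 1) → ℂ) (Fin y → Fin n → ℂ)) Prod.fst_surjective
  have gC := (Gen.forall fun j : Fin (r + 1) =>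
    hSG (n + 1) d I (P j) (by omega) (hG0 j)).comp
      (LinearMap.fst ℂ (I → Fin (n + 1) → ℂ) (Fin y → Fin n → ℂ)) Prod.fst_surjective
  have gD := (gen_off (n := n) (I := I)).comp
      (LinearMap.fst ℂ (I → Fin (n + 1) → ℂ) (Fin y → Fin n → ℂ)) Prod.fst_surjective
  obtain ⟨⟨w, z0⟩, ⟨⟨hA, hB1⟩, hC⟩, hD⟩ := (((gA.and gB).and gC).and gD).exists
  simp only [LinearMap.fst_apply] at hA hB1 hC hD
  have hC' : ∀ j, Dbl (n + 1) d (P j) w = ⊥ := fun j =>
    Dbl_eq_botC1 (hC j) (by rw [hP]; have := hB j; omega)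
  have hker : ∀ (j : Fin (r + 1)) (f : Pol (n + 1) (d + 1)), f ∈ Dbl (n + 1) (d + 1) (P j) w →
      (∀ p : Fin n → ℂ, eval p (res n (f : MvPolynomial (Fin (n + 1)) ℂ)) = 0) → f = 0 := by
    intro j f hf hp
    have e2 : res n (f : MvPolynomial (Fin (n + 1)) ℂ) = 0 :=
      MvPolynomial.funext fun p => by rw [hp, map_zero]
    obtain ⟨g, hg⟩ := exists_mulXC1 e2
    have e3 : g ∈ Dbl (n + 1) d (P j) w := Dbl_of_mulXC1 hD (by rw [← hg]; exact hf)
    rw [hC', Submodule.mem_bot] at e3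
    rw [hg, e3, map_zero]
  -- the points z1
  obtain ⟨z1, hz1⟩ := red (fun z : Fin n → ℂ => ev (n + 1) (d + 1) (hp z))
    (DblH n (d + 1) (P 0) w z0) ⊥ (by
      intro f hf hf0
      by_contra hcon
      push Not at hcon
      apply hf0
      rw [Submodule.mem_bot]
      refine hker 0 f hf.1 fun p => ?_
      have := hcon p
      rwa [ev_apply, eval_hp] at this) u
  rw [finrank_bot] at hz1
  set V0 := DblH n (d + 1) (P 0) w z0 ⊓ ⨅ i, LinearMap.ker (ev (n + 1) (d + 1) (hp (z1 i)))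
    with hV0
  let V : Fin (r + 1) → Submodule ℂ (Pol (n + 1) (d + 1)) :=
    Fin.cons V0 fun j => Dbl (n + 1) (d + 1) (P j.succ) w
  have hVD : ∀ j, V j ≤ Dbl (n + 1) (d + 1) (P j) w := by
    intro j
    refine Fin.cases ?_ (fun j => ?_) j
    · exact inf_le_left.trans inf_le_left
    · exact le_rfl
  let W : Submodule ℂ (Fin (r + 1) → Pol (n + 1) (d + 1)) := Submodule.pi Set.univ V
  have hW : finrank ℂ W ≤ v := by
    refine (finrank_pi_leC1 V).trans ?_
    rw [Fin.sum_univ_succ]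
    have e1 : finrank ℂ (V 0) ≤ NN (n + 1) (d + 1) -
        ((n + 1) * fib π 0 + Fintype.card I + (n + 1) * y) - u := by
      have : finrank ℂ (V 0) = finrank ℂ V0 := rfl
      rw [this]
      refine hz1.trans (max_le ?_ (Nat.zero_le _))
      exact Nat.sub_le_sub_right hA u
    have e2 : ∑ j : Fin r, finrank ℂ (V j.succ) ≤
        ∑ j : Fin r, (NN (n + 1) (d + 1) - ((n + 1) * fib π j.succ + Fintype.card I)) :=
      Finset.sum_le_sum fun j _ => hB1 j.succ
    refine (Nat.add_le_add e1 e2).trans ?_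
    refine count (F := ∑ j : Fin r, fib π j.succ) h0 ?_ ?_ hT
    · have e3 : ∀ j : Fin r, NN (n + 1) (d + 1) - ((n + 1) * fib π j.succ + Fintype.card I) +
          ((n + 1) * fib π j.succ + Fintype.card I) = NN (n + 1) (d + 1) := fun j =>
        Nat.sub_add_cancel (hj j.succ)
      have e4 := Finset.sum_congr (rfl : (Finset.univ : Finset (Fin r)) = Finset.univ)
        fun j _ => e3 j
      rw [Finset.sum_add_distrib, Finset.sum_add_distrib, ← Finset.mul_sum, Finset.sum_const,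
        Finset.sum_const, Finset.card_univ, Fintype.card_fin, smul_eq_mul, smul_eq_mul] at e4
      exact e4
    · rw [← sum_fib π, Fin.sum_univ_succ]
  -- the points (z2, a)
  obtain ⟨yy, hyy⟩ := red (OmC1 n (d + 1)) W ⊥ (by
    intro g hg hg0
    by_contra hcon
    push Not at hcon
    apply hg0
    rw [Submodule.mem_bot]
    funext j
    refine hker j (g j) (hVD j (hg j trivial)) fun p => ?_
    have := hcon (p, Pi.single j 1)
    rw [OmC1_apply] at this
    simpa [Pi.single_apply, eval_hp] using this) v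
  rw [finrank_bot] at hyy
  have hyy' : W ⊓ ⨅ i, LinearMap.ker (OmC1 n (d + 1) (yy i)) = ⊥ :=
    Submodule.finrank_eq_zero.1 (by omega)
  -- conclusion
  have hbot : ZZ d π ((w, z1, fun i => (yy i).1, fun i => (yy i).2, z0) :
      Pm n r u v y I) = ⊥ := by
    rw [eq_bot_iff, ← hyy']
    intro g hg
    have hg' := mem_ZZ.1 hg
    obtain ⟨k1, k2, k3, k4, k5, k6⟩ := hg'
    have kD : ∀ j, g j ∈ Dbl (n + 1) (d + 1) (P j) w := by
      intro j
      refine mem_Dbl.2 ⟨fun i => k1 i j, fun i hi k => ?_⟩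
      have hij : π i = j := (Finset.mem_filter.1 hi).2
      have := k2 i k
      rwa [hij] at this
    refine ⟨fun j _ => ?_, ?_⟩
    · refine Fin.cases ?_ (fun j => ?_) j
      · refine ⟨⟨kD 0, ?_⟩, ?_⟩
        · rw [SetLike.mem_coe, Submodule.mem_comap]
          refine mem_Dbl.2 ⟨fun i => ?_, fun i _ k => ?_⟩
          · have := k5 i
            rwa [eval_hp] at this
          · have := k6 i k
            rwa [eval_hp_pderiv] at this
        · rw [SetLike.mem_coe, Submodule.mem_iInf]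
          intro i
          rw [LinearMap.mem_ker, ev_apply]
          exact k3 i
      · exact kD j.succ
    · rw [SetLike.mem_coe, Submodule.mem_iInf]
      intro i
      rw [LinearMap.mem_ker, OmC1_apply]
      exact k4 i
  refine ((PK_ZZ d π).gen_bot hbot).mono fun x hx => ?_
  intro g hg hres j
  have h1 : (fun j => (⟨g j, mem_Pol.2 (hg j)⟩ : Pol (n + 1) (d + 1))) ∈ ZZ d π x :=
    mem_ZZ.2 hres
  rw [hx, Submodule.mem_bot] at h1
  exact congrArg Subtype.val (congrFun h1 j)

end Pool.Agent.WarS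


end

section

/-!
# SN3: target degree 4 (W5_SN3)
-/

set_option autoImplicit false

open Module MvPolynomial
open Pool.Agent.War Pool.Agent.WarS

namespace Pool.Agent.War5

namespace SN3aux

theorem gg4 (n : ℕ) (hn : 1 ≤ n) : gg n 4 = P4 n := by
  rcases Nat.lt_or_ge 1 n with h | h
  · unfold gg
    rw [if_neg (by omega), if_neg (by norm_num), if_pos rfl]
  · have : n = 1 := by omega
    subst this
    decide

theorem gg3 (n : ℕ) (hn : 2 ≤ n) : gg n 3 = (n + 3) ^ 2 / 9 := by
  unfold gg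
  rw [if_neg (by omega), if_pos rfl]

theorem P4_succ (n : ℕ) : P4 (n + 1) = P4 n + (n + 4) ^ 2 / 9 := by
  unfold P4
  rw [Finset.sum_range_succ _ (n + 1)]

theorem big (n U Q N : ℕ) (hn : 6 ≤ n) (hU : 54 * U + 30 ≤ (n + 3) * (n + 4) * (2 * n + 7))
    (hQ : 9 * Q ≤ (n + 4) ^ 2) (hN : 6 * N = (n + 2) * (n + 3) * (n + 4)) :
    U + (n + 2) * Q ≤ N := by
  obtain ⟨k, rfl⟩ := Nat.exists_eq_add_of_le hn
  have h1 : 54 * ((6 + k + 2) * Q) ≤ 6 * (6 + k + 2) * (6 + k + 4) ^ 2 := by
    have := Nat.mul_le_mul_left (6 * (6 + k + 2)) hQ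
    calc 54 * ((6 + k + 2) * Q) = 6 * (6 + k + 2) * (9 * Q) := by ring
      _ ≤ _ := this
  have h2 : (6 + k + 3) * (6 + k + 4) * (2 * (6 + k) + 7) + 6 * (6 + k + 2) * (6 + k + 4) ^ 2 ≤
      9 * ((6 + k + 2) * (6 + k + 3) * (6 + k + 4)) + 30 := by
    nlinarith [Nat.zero_le k, Nat.zero_le (k ^ 2), Nat.zero_le (k ^ 3)]
  have h3 : 9 * (6 * N) = 9 * ((6 + k + 2) * (6 + k + 3) * (6 + k + 4)) := by rw [hN]
  omega

end SN3aux

open _root_.Pool.Agent.War5.SN3aux in
/-- SN3. -/
theorem x_SN3 (hCF : S_CF) (hP : S_P4B) : S_SN3 := by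
  intro n hn
  have e1 : gg n (3 + 1) = P4 n := gg4 n hn
  have e2 : gg (n + 1) (3 + 1) = P4 n + (n + 4) ^ 2 / 9 := by
    rw [show 3 + 1 = 4 from rfl, gg4 (n + 1) (by omega), P4_succ]
  have e3 : gg (n + 1) 3 = (n + 4) ^ 2 / 9 := gg3 (n + 1) (by omega)
  unfold SN
  rw [e1, e2, e3]
  refine ⟨by omega, le_rfl, ?_⟩
  have e4 : P4 n + (n + 4) ^ 2 / 9 - P4 n = (n + 4) ^ 2 / 9 := by omega
  rw [e4, show 3 - 1 = 2 from rfl]
  have hN := (hCF (n + 1)).2.1
  rw [show n + 1 + 1 = n + 2 from rfl, show n + 1 + 2 = n + 3 from rfl,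
    show n + 1 + 3 = n + 4 from rfl] at hN
  rcases Nat.lt_or_ge n 2 with h | h
  · have : n = 1 := by omega
    subst this
    have h1 : P4 1 = 2 := by decide
    have h2 : kap (1 + 1) 2 ((1 + 4) ^ 2 / 9) = 1 := by
      unfold kap
      decide
    rw [h1, h2]
    omega
  · have hk : kap (n + 1) 2 ((n + 4) ^ 2 / 9) = 0 := by
      unfold kap
      rw [if_pos rfl, if_pos]
      rw [Nat.le_div_iff_mul_le (by norm_num)]
      obtain ⟨k, rfl⟩ := Nat.exists_eq_add_of_le h
      nlinarith [Nat.zero_le k, Nat.zero_le (k ^ 2)]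
    rw [hk, zero_add]
    rcases Nat.lt_or_ge n 6 with h6 | h6
    · interval_cases n
      · have h1 : P4 2 = 4 := by decide
        rw [h1]
        omega
      · have h1 : P4 3 = 8 := by decide
        rw [h1]
        omega
      · have h1 : P4 4 = 13 := by decide
        rw [h1]
        omega
      · have h1 : P4 5 = 20 := by decide
        rw [h1]
        omega
    · exact big n _ _ _ h6 (hP n).1 (Nat.mul_div_le _ _) hN

end Pool.Agent.War5


end

section

/-!
# Simultaneous Waring decompositions (MP_db021c_ag), few forms: module GD   (helper22)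
-/

set_option autoImplicit false

open Pool.Agent.War

namespace Pool.Agent.WarS

namespace GDAux

theorem mono2 (d : ℕ) : ∀ m : ℕ, 2 ≤ m → NN 2 d ≤ NN m d := by
  intro m hm
  induction m, hm using Nat.le_induction with
  | base => exact le_rfl
  | succ m _ ih => exact ih.trans (AR_mono m d)

theorem two_mul_two (d : ℕ) : 2 * NN 2 d = (d + 2) * (d + 1) := by
  have h1 := AR_rec 1 d
  rw [NN_one] at h1
  rw [show 2 * NN 2 d = (1 + 1) * NN (1 + 1) d from rfl, h1]
  ring

end GDAux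

open _root_.Pool.Agent.WarS.GDAux in
theorem GD (h : S_SW) : S_GD := by
  intro m d p hm hd hp
  rcases Nat.lt_or_ge m 2 with h2 | h2
  · obtain rfl : m = 1 := by omega
    refine GG_one d p ?_
    rw [NN_one] at hp
    omega
  · refine h m d p h2 ?_
    have hm2 : m + 1 ≤ m ^ 2 := by nlinarith
    have hdm : 2 * m - 2 ≤ d := by
      have h8 : 4 * m ^ 2 * 1 ≤ 4 * m ^ 2 * (m + 2) := Nat.mul_le_mul_left _ (by omega)
      omega
    obtain ⟨e, he⟩ : ∃ e, d + 2 = e + 2 * m := ⟨d - (2 * m - 2), by omega⟩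
    have he' : d - (2 * m - 2) = e := by omega
    rw [he']
    have h1 := AR_ratio (2 * m) e m
    rw [← he] at h1
    have h3 := mono2 (d + 2) m h2
    have h4 := two_mul_two (d + 2)
    set N := NN m (d + 2) with hN
    set M := NN m e
    have h5 : 2 * (m + 1) * (m + 2) * (d + 1) ≤ N := by
      have h6 : (d + 4) * (4 * m ^ 2 * (m + 2)) ≤ 2 * N := by
        calc (d + 4) * (4 * m ^ 2 * (m + 2)) ≤ (d + 4) * (d + 3) := Nat.mul_le_mul_left _ hd
          _ = 2 * NN 2 (d + 2) := by rw [h4]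
          _ ≤ 2 * N := Nat.mul_le_mul_left _ h3
      have h7 : (d + 4) * (4 * (m + 1) * (m + 2)) ≤ (d + 4) * (4 * m ^ 2 * (m + 2)) := by
        refine Nat.mul_le_mul_left _ (Nat.mul_le_mul_right _ (Nat.mul_le_mul_left _ hm2))
      nlinarith
    have h1' : ((d : ℤ) + 3 - 2 * m ^ 2) * N ≤ ((d : ℤ) + 3) * M := by
      push_cast at h1
      have e1 : ((d : ℤ) + 3 - 2 * m ^ 2) * N = ((d : ℤ) + 2 + 1 - m * (2 * m)) * N := by ring
      have e2 : ((d : ℤ) + 3) * M = ((d : ℤ) + 2 + 1) * M := by ring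
      rw [e1, e2]
      exact h1
    have hp' : ((m : ℤ) + 2) * p ≤ N := by exact_mod_cast hp
    have h5' : 2 * ((m : ℤ) + 1) * (m + 2) * (d + 1) ≤ N := by exact_mod_cast h5
    have hd' : 4 * (m : ℤ) ^ 2 * (m + 2) ≤ d + 3 := by exact_mod_cast hd
    have hN0 : (0 : ℤ) ≤ (N : ℤ) := by positivity
    have key : ((m : ℤ) + 1) * (p + d + 1) ≤ M := by
      have hpos : (0 : ℤ) < 2 * (m + 2) * (d + 3) := by positivity
      refine le_of_mul_le_mul_left ?_ hpos
      have a1 := mul_le_mul_of_nonneg_left hp' (by positivity : (0 : ℤ) ≤ 2 * (m + 1) * (d + 3))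
      have a2 := mul_le_mul_of_nonneg_left h5' (by positivity : (0 : ℤ) ≤ (d : ℤ) + 3)
      have a3 := mul_le_mul_of_nonneg_left h1' (by positivity : (0 : ℤ) ≤ 2 * ((m : ℤ) + 2))
      have a4 := mul_le_mul_of_nonneg_right hd' hN0
      linarith
    exact_mod_cast key

end Pool.Agent.WarS


end

section

/-!
# Simultaneous Waring decompositions (MP_db021c_ag), few forms: the trace lemma   (helper91)
-/

set_option autoImplicit false

open Module MvPolynomial
open Pool.Agent.War

namespace Pool.Agent.WarS.TRAaux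

/-- the parameter space -/
abbrev XX (n r u y : ℕ) : Type :=
  (Fin u → Fin n → ℂ) × (Fin (r * u) → Fin n → ℂ) × (Fin (r * u) → Fin (r + 1) → ℂ) ×
    (Fin y → Fin n → ℂ)

/-- the index set of all the points -/
abbrev II (r u y : ℕ) : Type := Fin u ⊕ (Fin (r * u) ⊕ Fin y)

/-- the double points of the form `j` -/
def PP (r u y : ℕ) (j : Fin (r + 1)) : Finset (II r u y) :=
  Fin.cases (Finset.univ.map ⟨fun i : Fin u => Sum.inl i, Sum.inl_injective⟩)
    (fun k => Finset.univ.map ⟨fun i : Fin u => Sum.inr (Sum.inl (finProdFinEquiv (k, i))), by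
      intro i i' h
      have h1 := finProdFinEquiv.injective (Sum.inl.inj (Sum.inr.inj h))
      exact (Prod.mk.inj h1).2⟩) j

theorem card_PP (r u y : ℕ) (j : Fin (r + 1)) : (PP r u y j).card = u := by
  refine Fin.cases ?_ (fun k => ?_) j
  · simp [PP]
  · simp [PP]

theorem card_II (r u y : ℕ) : Fintype.card (II r u y) = u + (r * u + y) := by
  simp

/-- all the points -/
def allL (n r u y : ℕ) : XX n r u y →ₗ[ℂ] (II r u y → Fin n → ℂ) where
  toFun x := Sum.elim x.1 (Sum.elim x.2.1 x.2.2.2)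
  map_add' x x' := by
    funext i
    rcases i with i | i | i <;> rfl
  map_smul' c x := by
    funext i
    rcases i with i | i | i <;> rfl

theorem allL_surj (n r u y : ℕ) : Function.Surjective (allL n r u y) := by
  intro z
  refine ⟨(fun i => z (Sum.inl i), fun i => z (Sum.inr (Sum.inl i)), 0,
    fun i => z (Sum.inr (Sum.inr i))), ?_⟩
  funext i
  rcases i with i | i | i <;> rfl

theorem Dbl_bot {n d : ℕ} {I : Type} {P : Finset I} {z : I → Fin n → ℂ} {k : ℕ}
    (h : finrank ℂ (Dbl n d P z) ≤ k) (hk : k = 0) : Dbl n d P z = ⊥ := by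
  subst hk
  exact Submodule.finrank_eq_zero.1 (Nat.le_zero.1 h)

section PKs

variable {X : Type} [AddCommGroup X] [Module ℂ X] {n d : ℕ} {γ : Type} [Fintype γ]

theorem LP_ev (L : X →ₗ[ℂ] (Fin n → ℂ)) (f : MvPolynomial (Fin n) ℂ) :
    LP (K := ℂ) (X := X) fun x => eval (L x) f :=
  (LP_eval f).comp_linear L

/-- vanishing of all the forms at a point -/
theorem PK_ev {α : Type} [Finite α] (L : α → X →ₗ[ℂ] (Fin n → ℂ)) :
    PK (K := ℂ) (V := γ → Pol n d) fun x : X =>
      ⨅ q : α × γ, LinearMap.ker ((ev n d (L q.1 x)).comp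
        (LinearMap.proj q.2 : (γ → Pol n d) →ₗ[ℂ] Pol n d)) := by
  refine PK.iInf fun q => PK.one (φ := fun x : X =>
    (ev n d (L q.1 x)).comp (LinearMap.proj q.2 : (γ → Pol n d) →ₗ[ℂ] Pol n d)) fun f => ?_
  simp only [LinearMap.comp_apply, LinearMap.proj_apply, ev_apply]
  exact LP_ev (L q.1) _

/-- derivatives along a vector -/
theorem PK_dv {α : Type} [Finite α] (L : α → X →ₗ[ℂ] (Fin n → ℂ)) (A : α → X → γ → ℂ)
    (hA : ∀ i j, LP (K := ℂ) fun x => A i x j) :
    PK (K := ℂ) (V := γ → Pol n d) fun x : X =>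
      ⨅ q : α × Fin n, LinearMap.ker (∑ j, A q.1 x j • (dv n d q.2 (L q.1 x)).comp
        (LinearMap.proj j : (γ → Pol n d) →ₗ[ℂ] Pol n d)) := by
  refine PK.iInf fun q => PK.one (φ := fun x : X =>
    ∑ j, A q.1 x j • (dv n d q.2 (L q.1 x)).comp
      (LinearMap.proj j : (γ → Pol n d) →ₗ[ℂ] Pol n d)) fun f => ?_
  simp only [LinearMap.sum_apply, LinearMap.smul_apply, LinearMap.comp_apply,
    LinearMap.proj_apply, dv_apply, smul_eq_mul]
  exact LP.sum _ fun j _ => (hA _ _).mul (LP_ev (L q.1) _)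

end PKs

/-- projections of the parameter space -/
def pr1 {n r u y : ℕ} (i : Fin u) : XX n r u y →ₗ[ℂ] (Fin n → ℂ) :=
  (pt (n := n) i).comp (LinearMap.fst ℂ _ _)

def pr2 {n r u y : ℕ} (i : Fin (r * u)) : XX n r u y →ₗ[ℂ] (Fin n → ℂ) :=
  (pt (n := n) i).comp ((LinearMap.fst ℂ _ _).comp (LinearMap.snd ℂ _ _))

def prA {n r u y : ℕ} (i : Fin (r * u)) : XX n r u y →ₗ[ℂ] (Fin (r + 1) → ℂ) :=
  (pt (n := r + 1) i).comp ((LinearMap.fst ℂ _ _).comp ((LinearMap.snd ℂ _ _).comp
    (LinearMap.snd ℂ _ _)))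

def pr0 {n r u y : ℕ} (i : Fin y) : XX n r u y →ₗ[ℂ] (Fin n → ℂ) :=
  (pt (n := n) i).comp ((LinearMap.snd ℂ _ _).comp ((LinearMap.snd ℂ _ _).comp
    (LinearMap.snd ℂ _ _)))

@[simp] theorem pr1_apply {n r u y : ℕ} (i : Fin u) (x : XX n r u y) : pr1 i x = x.1 i := rfl
@[simp] theorem pr2_apply {n r u y : ℕ} (i : Fin (r * u)) (x : XX n r u y) :
    pr2 i x = x.2.1 i := rfl
@[simp] theorem prA_apply {n r u y : ℕ} (i : Fin (r * u)) (x : XX n r u y) :
    prA i x = x.2.2.1 i := rfl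
@[simp] theorem pr0_apply {n r u y : ℕ} (i : Fin y) (x : XX n r u y) : pr0 i x = x.2.2.2 i := rfl

/-- the trace space -/
noncomputable def TV (n d r u y : ℕ) (x : XX n r u y) : Submodule ℂ (Fin (r + 1) → Pol n d) :=
  ((⨅ q : Fin u × Fin (r + 1), LinearMap.ker ((ev n d (pr1 q.1 x)).comp
      (LinearMap.proj q.2 : (Fin (r + 1) → Pol n d) →ₗ[ℂ] Pol n d))) ⊓
   (⨅ q : Fin u × Fin n, LinearMap.ker (∑ j, (Pi.single 0 1 : Fin (r + 1) → ℂ) j •
      (dv n d q.2 (pr1 q.1 x)).comp
      (LinearMap.proj j : (Fin (r + 1) → Pol n d) →ₗ[ℂ] Pol n d)))) ⊓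
  ((⨅ q : Fin (r * u) × Fin (r + 1), LinearMap.ker ((ev n d (pr2 q.1 x)).comp
      (LinearMap.proj q.2 : (Fin (r + 1) → Pol n d) →ₗ[ℂ] Pol n d))) ⊓
   (⨅ q : Fin (r * u) × Fin n, LinearMap.ker (∑ j, prA q.1 x j •
      (dv n d q.2 (pr2 q.1 x)).comp
      (LinearMap.proj j : (Fin (r + 1) → Pol n d) →ₗ[ℂ] Pol n d)))) ⊓
  (⨅ q : Fin y × Fin (r + 1), LinearMap.ker ((ev n d (pr0 q.1 x)).comp
      (LinearMap.proj q.2 : (Fin (r + 1) → Pol n d) →ₗ[ℂ] Pol n d)))

theorem PK_TV (n d r u y : ℕ) : PK (K := ℂ) fun x : XX n r u y => TV n d r u y x := by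
  refine (((PK_ev _).inf (PK_dv _ (fun _ _ => Pi.single 0 1) fun _ _ => LP.const _)).inf
    ((PK_ev _).inf (PK_dv _ (fun i x => prA i x) fun i j => ?_))).inf (PK_ev _)
  exact LP.linear ((LinearMap.proj j : (Fin (r + 1) → ℂ) →ₗ[ℂ] ℂ).comp (prA i))

theorem mem_TV {n d r u y : ℕ} {x : XX n r u y} {f : Fin (r + 1) → Pol n d} :
    f ∈ TV n d r u y x ↔
      (((∀ i j, eval (x.1 i) (f j : MvPolynomial (Fin n) ℂ) = 0) ∧
        (∀ i k, eval (x.1 i) (pderiv k (f 0 : MvPolynomial (Fin n) ℂ)) = 0)) ∧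
      ((∀ i j, eval (x.2.1 i) (f j : MvPolynomial (Fin n) ℂ) = 0) ∧
        (∀ i k, ∑ j, x.2.2.1 i j *
          eval (x.2.1 i) (pderiv k (f j : MvPolynomial (Fin n) ℂ)) = 0))) ∧
      (∀ i j, eval (x.2.2.2 i) (f j : MvPolynomial (Fin n) ℂ) = 0) := by
  simp only [TV, Submodule.mem_inf, Submodule.mem_iInf, LinearMap.mem_ker, LinearMap.comp_apply,
    LinearMap.sum_apply, LinearMap.smul_apply, LinearMap.proj_apply, ev_apply, dv_apply,
    smul_eq_mul, Prod.forall, pr1_apply, pr2_apply, prA_apply, pr0_apply]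
  have e : ∀ (i : Fin u) (k : Fin n), (∑ j, (Pi.single 0 1 : Fin (r + 1) → ℂ) j *
      eval (x.1 i) (pderiv k (f j : MvPolynomial (Fin n) ℂ))) =
      eval (x.1 i) (pderiv k (f 0 : MvPolynomial (Fin n) ℂ)) := by
    intro i k
    rw [Finset.sum_eq_single 0]
    · rw [Pi.single_eq_same, one_mul]
    · intro j _ hj
      rw [Pi.single_eq_of_ne hj, zero_mul]
    · intro h
      exact absurd (Finset.mem_univ _) h
  simp only [e]

end Pool.Agent.WarS.TRAaux

namespace Pool.Agent.WarS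

open TRAaux

theorem TRA (hSG : S_SG) : S_TRA := by
  classical
  intro n d r u y hn hG hN
  have hcard : ∀ j, NN n (d + 2) - (n * (PP r u y j).card + Fintype.card (II r u y)) = 0 := by
    intro j
    rw [card_PP, card_II]
    have : (n + r + 1) * u = n * u + (u + r * u) := by ring
    omega
  have hgen : ∀ j, Gen ℂ fun z : II r u y → Fin n → ℂ =>
      finrank ℂ (Dbl n (d + 2) (PP r u y j) z) ≤
        NN n (d + 2) - (n * (PP r u y j).card + Fintype.card (II r u y)) := fun j =>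
    hSG n (d + 2) (II r u y) (PP r u y j) hn (by rw [card_PP]; exact hG)
  -- scalar part
  have hS : Gen ℂ fun x : XX n r u y => TraS d x.1 x.2.1 x.2.2.2 := by
    refine ((hgen 0).comp (allL n r u y) (allL_surj n r u y)).mono fun x hx => ?_
    have hb := Dbl_bot hx (hcard 0)
    intro f hf h1 h2 h3 h4
    have hm : (⟨f, mem_Pol.2 hf⟩ : Pol n (d + 2)) ∈
        Dbl n (d + 2) (PP r u y 0) (allL n r u y x) := by
      rw [mem_Dbl]
      refine ⟨?_, fun i hi k => ?_⟩
      · rintro (i | i | i)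
        · exact h1 i
        · exact h3 i
        · exact h4 i
      · obtain ⟨i', -, rfl⟩ := Finset.mem_map.1 hi
        exact h2 i' k
    rw [hb, Submodule.mem_bot] at hm
    exact congrArg Subtype.val hm
  -- vector part
  have hV : Gen ℂ fun x : XX n r u y => TraV d x.1 x.2.1 x.2.2.1 x.2.2.2 := by
    obtain ⟨z, hz⟩ := (Gen.forall hgen).exists
    have hD : ∀ j, Dbl n (d + 2) (PP r u y j) z = ⊥ := fun j => Dbl_bot (hz j) (hcard j)
    let x₀ : XX n r u y := (fun i => z (Sum.inl i), fun i => z (Sum.inr (Sum.inl i)),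
      fun q => Pi.single (finProdFinEquiv.symm q).1.succ 1, fun i => z (Sum.inr (Sum.inr i)))
    have h0 : TV n (d + 2) r u y x₀ = ⊥ := by
      rw [eq_bot_iff]
      intro f hf
      rw [mem_TV] at hf
      obtain ⟨⟨⟨k1, k2⟩, k3, k4⟩, k5⟩ := hf
      rw [Submodule.mem_bot]
      funext j
      have : f j ∈ Dbl n (d + 2) (PP r u y j) z := by
        rw [mem_Dbl]
        refine ⟨?_, ?_⟩
        · rintro (i | i | i)
          · exact k1 i j
          · exact k3 i j
          · exact k5 i j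
        · intro i hi k
          revert hi
          refine Fin.cases ?_ (fun l => ?_) j
          · intro hi
            obtain ⟨i', -, rfl⟩ := Finset.mem_map.1 hi
            exact k2 i' k
          · intro hi
            obtain ⟨i', -, rfl⟩ := Finset.mem_map.1 hi
            have h := k4 (finProdFinEquiv (l, i')) k
            rw [Finset.sum_eq_single l.succ] at h
            · simp only [x₀, Equiv.symm_apply_apply, Pi.single_eq_same, one_mul] at h
              exact h
            · intro j' _ hj'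
              simp only [x₀, Equiv.symm_apply_apply]
              rw [Pi.single_eq_of_ne hj', zero_mul]
            · intro h'
              exact absurd (Finset.mem_univ _) h'
      rw [hD, Submodule.mem_bot] at this
      rw [this]
      rfl
    refine ((PK_TV n (d + 2) r u y).gen_bot h0).mono fun x hx => ?_
    intro f hf h1 h2 h3 h4 h5 j
    have hm : (fun j => (⟨f j, mem_Pol.2 (hf j)⟩ : Pol n (d + 2))) ∈ TV n (d + 2) r u y x := by
      rw [mem_TV]
      exact ⟨⟨⟨h1, h2⟩, h3, h4⟩, h5⟩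
    rw [hx, Submodule.mem_bot] at hm
    exact congrArg Subtype.val (congrFun hm j)
  exact hS.and hV

end Pool.Agent.WarS


end

section

/-!
# Simultaneous Waring decompositions (MP_db021c_ag): block lemma, third case   (helper31)

`C2 : S_X → S_C2`: graph configuration on the moment curve, kernel argument and counting.
-/

set_option autoImplicit false
open Module MvPolynomial

namespace Pool.Agent.War

/-- restriction of a polynomial to the line `z + t (w - z)` -/
noncomputable def lin {n : ℕ} (z w : Fin n → ℂ) (f : MvPolynomial (Fin n) ℂ) : Polynomial ℂ :=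
  aeval (fun k => Polynomial.C (z k) + Polynomial.C (w k - z k) * Polynomial.X) f

theorem lin_C {n : ℕ} (z w : Fin n → ℂ) (a : ℂ) : lin z w (C a) = Polynomial.C a := by
  simp [lin]

theorem lin_add {n : ℕ} (z w : Fin n → ℂ) (p q : MvPolynomial (Fin n) ℂ) :
    lin z w (p + q) = lin z w p + lin z w q := by
  simp [lin]

theorem lin_mul {n : ℕ} (z w : Fin n → ℂ) (p q : MvPolynomial (Fin n) ℂ) :
    lin z w (p * q) = lin z w p * lin z w q := by
  simp [lin]

theorem lin_X {n : ℕ} (z w : Fin n → ℂ) (k : Fin n) :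
    lin z w (X k) = Polynomial.C (z k) + Polynomial.C (w k - z k) * Polynomial.X := by
  simp [lin]

theorem lin_eval {n : ℕ} (z w : Fin n → ℂ) (f : MvPolynomial (Fin n) ℂ) (t : ℂ) :
    (lin z w f).eval t = eval (fun k => z k + (w k - z k) * t) f := by
  induction f using MvPolynomial.induction_on with
  | C a => rw [lin_C, Polynomial.eval_C, eval_C]
  | add p q hp hq => rw [lin_add, Polynomial.eval_add, hp, hq, map_add]
  | mul_X p k hp =>
    rw [lin_mul, Polynomial.eval_mul, hp, lin_X, map_mul, eval_X, Polynomial.eval_add,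
      Polynomial.eval_mul, Polynomial.eval_C, Polynomial.eval_C, Polynomial.eval_X]

theorem lin_natDegree {n d : ℕ} (z w : Fin n → ℂ) {f : MvPolynomial (Fin n) ℂ}
    (hf : f.totalDegree ≤ d) : (lin z w f).natDegree ≤ d := by
  have h := aeval_natDegree_le f hf
    (fun k => Polynomial.C (z k) + Polynomial.C (w k - z k) * Polynomial.X) (n := 1)
    (fun k => by
      refine (Polynomial.natDegree_add_le _ _).trans (max_le ?_ ?_)
      · rw [Polynomial.natDegree_C]; exact Nat.zero_le _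
      · exact (Polynomial.natDegree_C_mul_le _ _).trans Polynomial.natDegree_X_le)
  rwa [mul_one] at h

theorem lin_derivative {n : ℕ} (z w : Fin n → ℂ) (f : MvPolynomial (Fin n) ℂ) :
    (lin z w f).derivative = ∑ k, Polynomial.C (w k - z k) * lin z w (pderiv k f) := by
  induction f using MvPolynomial.induction_on with
  | C a =>
    rw [lin_C, Polynomial.derivative_C]
    symm
    refine Finset.sum_eq_zero fun k _ => ?_
    rw [pderiv_C, show (0 : MvPolynomial (Fin n) ℂ) = C 0 by rw [C_0], lin_C, Polynomial.C_0,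
      mul_zero]
  | add p q hp hq =>
    rw [lin_add, Polynomial.derivative_add, hp, hq, ← Finset.sum_add_distrib]
    refine Finset.sum_congr rfl fun k _ => ?_
    rw [map_add, lin_add, mul_add]
  | mul_X p k hp =>
    have h0 : (lin z w (X k)).derivative = Polynomial.C (w k - z k) := by
      rw [lin_X, Polynomial.derivative_add, Polynomial.derivative_C, zero_add,
        Polynomial.derivative_C_mul, Polynomial.derivative_X, mul_one]
    rw [lin_mul, Polynomial.derivative_mul, hp, h0]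
    have h1 : ∀ j, lin z w (pderiv j (p * X k)) =
        lin z w (pderiv j p) * lin z w (X k) + (if j = k then lin z w p else 0) := by
      intro j
      rw [Derivation.leibniz, smul_eq_mul, smul_eq_mul, lin_add, lin_mul, lin_mul]
      by_cases hj : j = k
      · subst hj
        rw [if_pos rfl, pderiv_X_self, show (1 : MvPolynomial (Fin n) ℂ) = C 1 by rw [C_1], lin_C,
          Polynomial.C_1, mul_one]
        ring
      · rw [if_neg hj, pderiv_X_of_ne (Ne.symm hj),
          show (0 : MvPolynomial (Fin n) ℂ) = C 0 by rw [C_0], lin_C, Polynomial.C_0, mul_zero]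
        ring
    simp only [h1, mul_add, Finset.sum_add_distrib]
    congr 1
    · rw [Finset.sum_mul]
      refine Finset.sum_congr rfl fun j _ => ?_
      ring
    · rw [Finset.sum_eq_single k]
      · rw [if_pos rfl]; ring
      · intro j _ hj
        rw [if_neg hj, mul_zero]
      · intro h; exact absurd (Finset.mem_univ k) h

theorem lin_derivative_eval {n : ℕ} (z w : Fin n → ℂ) (f : MvPolynomial (Fin n) ℂ) :
    (lin z w f).derivative.eval 0 = ∑ k, (w k - z k) * eval z (pderiv k f) := by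
  rw [lin_derivative, Polynomial.eval_finsetSum]
  refine Finset.sum_congr rfl fun k _ => ?_
  rw [Polynomial.eval_mul, Polynomial.eval_C, lin_eval]
  have : (fun k => z k + (w k - z k) * 0) = z := by
    funext j
    ring
  rw [this]

/-- the polynomial `X ∏ (X - τ l)` -/
noncomputable def PP {r : ℕ} (τ : Fin r → ℂ) : Polynomial ℂ :=
  Polynomial.X * ∏ l, (Polynomial.X - Polynomial.C (τ l))

theorem QQ_monic {r : ℕ} (τ : Fin r → ℂ) :
    (∏ l, (Polynomial.X - Polynomial.C (τ l))).Monic :=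
  Polynomial.monic_prod_of_monic _ _ fun _ _ => Polynomial.monic_X_sub_C _

theorem PP_monic {r : ℕ} (τ : Fin r → ℂ) : (PP τ).Monic :=
  Polynomial.monic_X.mul (QQ_monic τ)

theorem QQ_natDegree {r : ℕ} (τ : Fin r → ℂ) :
    (∏ l, (Polynomial.X - Polynomial.C (τ l))).natDegree = r := by
  rw [Polynomial.natDegree_prod_of_monic _ _ fun _ _ => Polynomial.monic_X_sub_C _]
  simp only [Polynomial.natDegree_X_sub_C, Finset.sum_const, Finset.card_univ, Fintype.card_fin,
    smul_eq_mul, mul_one]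

theorem PP_natDegree {r : ℕ} (τ : Fin r → ℂ) : (PP τ).natDegree = r + 1 := by
  unfold PP
  rw [Polynomial.Monic.natDegree_mul Polynomial.monic_X (QQ_monic τ),
    Polynomial.natDegree_X, QQ_natDegree, add_comm]

theorem PP_eval {r : ℕ} (τ : Fin r → ℂ) (t : ℂ) : (PP τ).eval t = t * ∏ l, (t - τ l) := by
  unfold PP
  rw [Polynomial.eval_mul, Polynomial.eval_X, Polynomial.eval_prod]
  simp only [Polynomial.eval_sub, Polynomial.eval_X, Polynomial.eval_C]

theorem PP_unique {r : ℕ} {τ : Fin r → ℂ} (hτ : Function.Injective τ) (h0 : ∀ l, τ l ≠ 0)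
    {g : Polynomial ℂ} (hg : g.natDegree ≤ r + 1) (g0 : g.eval 0 = 0)
    (gτ : ∀ l, g.eval (τ l) = 0) : ∃ v : ℂ, g = Polynomial.C v * PP τ := by
  refine ⟨g.coeff (r + 1), ?_⟩
  have h2 : (g - Polynomial.C (g.coeff (r + 1)) * PP τ).natDegree ≤ r + 1 := by
    refine (Polynomial.natDegree_sub_le _ _).trans (max_le hg ?_)
    exact (Polynomial.natDegree_C_mul_le _ _).trans (PP_natDegree τ).le
  have h3 : (g - Polynomial.C (g.coeff (r + 1)) * PP τ).coeff (r + 1) = 0 := by
    have h4 := (PP_monic τ).coeff_natDegree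
    rw [PP_natDegree] at h4
    rw [Polynomial.coeff_sub, Polynomial.coeff_C_mul, h4, mul_one, sub_self]
  have h1 : g - Polynomial.C (g.coeff (r + 1)) * PP τ = 0 ∨
      (g - Polynomial.C (g.coeff (r + 1)) * PP τ).natDegree < r + 1 := by
    rcases Nat.lt_or_ge (g - Polynomial.C (g.coeff (r + 1)) * PP τ).natDegree (r + 1) with h4 | h4
    · exact Or.inr h4
    · have h5 := le_antisymm h2 h4
      left
      rw [← Polynomial.leadingCoeff_eq_zero, Polynomial.leadingCoeff, h5]
      exact h3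
  rcases h1 with h1 | h1
  · exact sub_eq_zero.1 h1
  · refine sub_eq_zero.1 (Polynomial.eq_zero_of_natDegree_lt_card_of_eval_eq_zero _
      (f := fun o : Option (Fin r) => o.elim 0 τ) ?_ ?_ ?_)
    · rintro (_ | i) (_ | j) hij
      · rfl
      · exact absurd hij.symm (h0 j)
      · exact absurd hij (h0 i)
      · exact congrArg some (hτ hij)
    · rintro (_ | i)
      · rw [Polynomial.eval_sub, Polynomial.eval_mul, PP_eval]
        change Polynomial.eval 0 g - _ * (0 * _) = 0
        rw [g0, zero_mul, mul_zero, sub_zero]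
      · rw [Polynomial.eval_sub, Polynomial.eval_mul, PP_eval]
        change Polynomial.eval (τ i) g - _ * (τ i * ∏ l, (τ i - τ l)) = 0
        rw [gτ, Finset.prod_eq_zero (Finset.mem_univ i) (sub_self _), mul_zero, mul_zero, sub_zero]
    · rw [Fintype.card_option, Fintype.card_fin]
      exact h1

theorem PP_deriv {r : ℕ} (τ : Fin r → ℂ) : (PP τ).derivative.eval 0 = ∏ l, (0 - τ l) := by
  unfold PP
  rw [Polynomial.derivative_mul, Polynomial.derivative_X, Polynomial.eval_add,
    Polynomial.eval_mul, Polynomial.eval_mul, Polynomial.eval_X, zero_mul, add_zero,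
    Polynomial.eval_one, one_mul, Polynomial.eval_prod]
  simp only [Polynomial.eval_sub, Polynomial.eval_X, Polynomial.eval_C]

/-! ### general simple points -/

/-- a subspace of dimension `≤ r` is killed by `r` points -/
theorem kill_points {n d : ℕ} (W : Submodule ℂ (Pol n d)) (r : ℕ) (h : finrank ℂ W ≤ r) :
    ∃ y : Fin r → Fin n → ℂ, ∀ f ∈ W, (∀ i, eval (y i) (f : MvPolynomial (Fin n) ℂ) = 0) →
      f = 0 := by
  obtain ⟨y, hy⟩ := red (fun y : Fin n → ℂ => ev n d y) W ⊥ (fun w _ hw => by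
    by_contra hc
    push Not at hc
    apply hw
    rw [Submodule.mem_bot]
    apply Subtype.ext
    refine MvPolynomial.funext fun x => ?_
    have := hc x
    rw [ev_apply] at this
    rw [this]
    rfl) r
  refine ⟨y, fun f hf hf0 => ?_⟩
  rw [finrank_bot, Nat.sub_eq_zero_of_le h, max_self, Nat.le_zero,
    Submodule.finrank_eq_zero] at hy
  have h3 : f ∈ W ⊓ ⨅ i, LinearMap.ker (ev n d (y i)) := by
    refine ⟨hf, (Submodule.mem_iInf _).2 fun i => ?_⟩
    rw [LinearMap.mem_ker, ev_apply]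
    exact hf0 i
  rw [hy] at h3
  exact (Submodule.mem_bot ℂ).1 h3

/-! ### an edge of the graph -/

theorem edge {n b r : ℕ} (z w : Fin n → ℂ) (τ : Fin r → ℂ) (hτ : Function.Injective τ)
    (h01 : ∀ l, τ l ≠ 0 ∧ τ l ≠ 1) (f : Fin b → MvPolynomial (Fin n) ℂ)
    (hf : ∀ j, (f j).totalDegree ≤ r + 1) (hz : ∀ j, eval z (f j) = 0)
    (hl : ∀ l j, eval (fun k => (1 - τ l) * z k + τ l * w k) (f j) = 0) (a : Fin b → ℂ)
    (ha : ∀ k, ∑ j, a j * eval z (pderiv k (f j)) = 0) : ∑ j, a j * eval w (f j) = 0 := by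
  have h1 : ∀ j, ∃ v : ℂ, lin z w (f j) = Polynomial.C v * PP τ := by
    intro j
    refine PP_unique hτ (fun l => (h01 l).1) (lin_natDegree z w (hf j)) ?_ fun l => ?_
    · rw [lin_eval]
      have : (fun k => z k + (w k - z k) * 0) = z := by funext k; ring
      rw [this]
      exact hz j
    · rw [lin_eval]
      have : (fun k => z k + (w k - z k) * τ l) = fun k => (1 - τ l) * z k + τ l * w k := by
        funext k; ring
      rw [this]
      exact hl l j
  choose v hv using h1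
  have h2 : ∀ j, eval w (f j) = v j * ∏ l, (1 - τ l) := by
    intro j
    have h3 := lin_eval z w (f j) 1
    have : (fun k => z k + (w k - z k) * 1) = w := by funext k; ring
    rw [this, hv, Polynomial.eval_mul, Polynomial.eval_C, PP_eval, one_mul] at h3
    exact h3.symm
  have h4 : ∀ j, ∑ k, (w k - z k) * eval z (pderiv k (f j)) = v j * ∏ l, (0 - τ l) := by
    intro j
    rw [← lin_derivative_eval, hv, Polynomial.derivative_C_mul, Polynomial.eval_mul,
      Polynomial.eval_C, PP_deriv]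
  have h5 : (∑ j, a j * v j) * ∏ l, (0 - τ l) = 0 := by
    rw [Finset.sum_mul]
    calc ∑ j, a j * v j * ∏ l, (0 - τ l)
        = ∑ j, ∑ k, (w k - z k) * (a j * eval z (pderiv k (f j))) := by
          refine Finset.sum_congr rfl fun j _ => ?_
          rw [mul_assoc, ← h4, Finset.mul_sum]
          refine Finset.sum_congr rfl fun k _ => ?_
          ring
      _ = ∑ k, (w k - z k) * ∑ j, a j * eval z (pderiv k (f j)) := by
          rw [Finset.sum_comm]
          refine Finset.sum_congr rfl fun k _ => ?_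
          rw [Finset.mul_sum]
      _ = 0 := by
          refine Finset.sum_eq_zero fun k _ => ?_
          rw [ha, mul_zero]
  have h6 : ∏ l, (0 - τ l) ≠ 0 :=
    Finset.prod_ne_zero_iff.2 fun l _ => sub_ne_zero.2 (h01 l).1.symm
  have h7 : ∑ j, a j * v j = 0 := (mul_eq_zero.1 h5).resolve_right h6
  calc ∑ j, a j * eval w (f j) = (∑ j, a j * v j) * ∏ l, (1 - τ l) := by
        rw [Finset.sum_mul]
        refine Finset.sum_congr rfl fun j _ => ?_
        rw [h2, mul_assoc]
    _ = 0 := by rw [h7, zero_mul]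

/-! ### arithmetic of the graph -/

theorem arith {n d b μ : ℕ} (h : BH n d b μ) (hD : μ % n ≠ 0) (hq : μ / n + μ % n < n) :
    3 ≤ n ∧ b ≤ (b * μ + n - 1) / n ∧ (b * μ + n - 1) / n ≤ μ ∧
      b * μ ≤ n * ((b * μ + n - 1) / n) ∧ b * μ + 1 ≤ d ∧ (b * μ + n - 1) / n + μ ≤ d + 1 := by
  obtain ⟨hn2, hd, hb1, hbn, hnμ, -⟩ := h
  have hq1 : 1 ≤ μ / n := Nat.div_pos hnμ (by omega)
  have h3 : 3 ≤ n := by omega
  have hμn : μ < n * n := by
    have h1 := Nat.div_add_mod μ n
    have h2 : n * (μ / n) + n ≤ n * n := by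
      have : μ / n + 1 ≤ n := by omega
      calc n * (μ / n) + n = n * (μ / n + 1) := by ring
        _ ≤ n * n := Nat.mul_le_mul le_rfl this
    have h4 : μ % n < n := Nat.mod_lt _ (by omega)
    omega
  have h4 : b * n ≤ b * μ := Nat.mul_le_mul le_rfl hnμ
  have h5 : b * μ ≤ n * μ := Nat.mul_le_mul hbn le_rfl
  have h6 : b ≤ (b * μ + n - 1) / n := by
    rw [Nat.le_div_iff_mul_le (by omega)]
    omega
  have h7 : (b * μ + n - 1) / n ≤ μ := by
    have : (b * μ + n - 1) / n < μ + 1 := by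
      rw [Nat.div_lt_iff_lt_mul (by omega)]
      have : (μ + 1) * n = n * μ + n := by ring
      omega
    omega
  have h8 : b * μ ≤ n * ((b * μ + n - 1) / n) := by
    have h9 := Nat.div_add_mod (b * μ + n - 1) n
    have h10 : (b * μ + n - 1) % n < n := Nat.mod_lt _ (by omega)
    omega
  have h11 : n * μ + 1 ≤ n ^ 3 := by
    have h12 : n * (μ + 1) ≤ n * (n * n) := Nat.mul_le_mul le_rfl hμn
    have h13 : n ^ 3 = n * (n * n) := by ring
    have h14 : n * (μ + 1) = n * μ + n := by ring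
    omega
  have h15 : 2 * μ ≤ n * μ := Nat.mul_le_mul (by omega) le_rfl
  exact ⟨h3, h6, h7, h8, by omega, by omega⟩

/-! ### the block lemma -/

theorem C2 (hX : S_X) : S_C2 := by
  classical
  intro n d b μ hBH hD hq
  obtain ⟨h3, hbm, hmμ, hE, hEd, hmd⟩ := arith hBH hD hq
  obtain ⟨hn2, hd, hb1, hbn, hnμ, -⟩ := hBH
  unfold Block
  generalize (b * μ + n - 1) / n = m at *
  obtain ⟨r, rfl⟩ : ∃ r, d = r + 1 := ⟨d - 1, by omega⟩
  have hm0 : 0 < m := by omega
  have hb0 : 0 < b := hb1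
  have hμ0 : 0 < μ := by omega
  have hmE : m ≤ b * μ := hmμ.trans (Nat.le_mul_of_pos_left _ hb0)
  set src : Fin (b * μ) → Fin m := fun e => ⟨e.val % m, Nat.mod_lt _ hm0⟩ with hsrc
  set tgt : Fin (b * μ) → Fin μ := fun e => ⟨e.val / b, by
    rw [Nat.div_lt_iff_lt_mul hb0]; exact lt_of_lt_of_eq e.2 (mul_comm b μ)⟩ with htgt
  set u : Fin m ⊕ Fin μ → ℂ := Sum.elim (fun i => ((i.val : ℕ) : ℂ)) (fun k => ((m + k.val : ℕ) : ℂ))
    with hu
  have hr : r + 1 - 1 = r := rfl
  set τ : Fin (r + 1 - 1) → ℂ := fun l => ((l.val + 2 : ℕ) : ℂ) with hτd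
  have hu_inj : Function.Injective u := by
    rintro (i | i) (j | j) hij
    · simp only [hu, Sum.elim_inl, Nat.cast_inj] at hij
      rw [Fin.ext hij]
    · simp only [hu, Sum.elim_inl, Sum.elim_inr, Nat.cast_inj] at hij
      have := i.2
      omega
    · simp only [hu, Sum.elim_inl, Sum.elim_inr, Nat.cast_inj] at hij
      have := j.2
      omega
    · simp only [hu, Sum.elim_inr, Nat.cast_inj] at hij
      rw [Fin.ext (Nat.add_left_cancel hij)]
  have hτ_inj : Function.Injective τ := by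
    intro i j hij
    simp only [hτd, Nat.cast_inj] at hij
    exact Fin.ext (by omega)
  have hτ01 : ∀ l, τ l ≠ 0 ∧ τ l ≠ 1 := by
    intro l
    constructor
    · simp only [hτd]
      exact Nat.cast_ne_zero.2 (by omega)
    · simp only [hτd]
      intro h
      have h' : l.val + 2 = 1 := by exact_mod_cast h
      omega
  have hsurj1 : Function.Surjective src := by
    intro i
    refine ⟨⟨i.val, lt_of_lt_of_le i.2 hmE⟩, ?_⟩
    simp only [hsrc]
    exact Fin.ext (Nat.mod_eq_of_lt i.2)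
  have hsurj2 : Function.Surjective tgt := by
    intro k
    refine ⟨⟨b * k.val, Nat.mul_lt_mul_of_pos_left k.2 hb0⟩, ?_⟩
    simp only [htgt]
    exact Fin.ext (Nat.mul_div_cancel_left _ hb0)
  have hinj : ∀ e e', src e = src e' → tgt e = tgt e' → e = e' := by
    intro e e' h1 h2
    simp only [hsrc, htgt, Fin.mk.injEq] at h1 h2
    have k1 := Nat.div_add_mod e.val b
    have k2 := Nat.div_add_mod e'.val b
    have k3 := Nat.mod_lt e.val hb0
    have k4 := Nat.mod_lt e'.val hb0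
    rw [h2] at k1
    have k5 : ∀ p q : ℕ, p ≤ q → q < p + m → p % m = q % m → p = q := by
      intro p q hpq hqp hmod
      have : (q - p) % m = 0 := Nat.sub_mod_eq_zero_of_mod_eq hmod.symm
      rw [Nat.mod_eq_of_lt (by omega)] at this
      omega
    rcases le_total e.val e'.val with hle | hle
    · exact Fin.ext (k5 _ _ hle (by omega) h1)
    · exact Fin.ext (k5 _ _ hle (by omega) h1.symm).symm
  have hcard1 : ∀ i, (Finset.univ.filter fun e => src e = i).card ≤ n := by
    intro i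
    have : ((Finset.univ.filter fun e => src e = i).card) ≤ (Finset.range n).card := by
      refine Finset.card_le_card_of_injOn (fun e => e.val / m) ?_ ?_
      · intro e _
        rw [Finset.mem_coe, Finset.mem_range, Nat.div_lt_iff_lt_mul hm0]
        exact lt_of_lt_of_le e.2 hE
      · intro e he e' he' hee
        rw [Finset.mem_coe, Finset.mem_filter] at he he'
        have h1 : e.val % m = e'.val % m := by
          have := he.2.trans he'.2.symm
          simpa only [hsrc, Fin.mk.injEq] using this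
        have h2 : e.val / m = e'.val / m := hee
        apply Fin.ext
        rw [← Nat.div_add_mod e.val m, ← Nat.div_add_mod e'.val m, h1, h2]
    rwa [Finset.card_range] at this
  have hcard2 : ∀ k, (Finset.univ.filter fun e => tgt e = k).card ≤ n := by
    intro k
    have : ((Finset.univ.filter fun e => tgt e = k).card) ≤ (Finset.range b).card := by
      refine Finset.card_le_card_of_injOn (fun e => e.val % b) ?_ ?_
      · intro e _
        rw [Finset.mem_coe, Finset.mem_range]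
        exact Nat.mod_lt _ hb0
      · intro e he e' he' hee
        rw [Finset.mem_coe, Finset.mem_filter] at he he'
        have h1 : e.val / b = e'.val / b := by
          have := he.2.trans he'.2.symm
          simpa only [htgt, Fin.mk.injEq] using this
        have h2 : e.val % b = e'.val % b := hee
        apply Fin.ext
        rw [← Nat.div_add_mod e.val b, ← Nat.div_add_mod e'.val b, h1, h2]
    rw [Finset.card_range] at this
    exact this.trans hbn
  have key := hX n (r + 1) m μ (b * μ) src tgt h3 hsurj1 hsurj2 hinj hcard1 hcard2 hEd hmd u τ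
    hu_inj hτ_inj hτ01
  -- the points of the configuration
  set ptX : (Fin m ⊕ Fin μ) ⊕ (Fin (b * μ) × Fin r) → Fin n → ℂ :=
    Sum.elim (fun v k => u v ^ (k.val + 1))
      (fun p k => (1 - τ p.2) * u (Sum.inl (src p.1)) ^ (k.val + 1) +
        τ p.2 * u (Sum.inr (tgt p.1)) ^ (k.val + 1)) with hptX
  set EV : Pol n (r + 1) →ₗ[ℂ] ((Fin m ⊕ Fin μ) ⊕ (Fin (b * μ) × Fin r) → ℂ) :=
    LinearMap.pi fun x => ev n (r + 1) (ptX x) with hEV
  have hEVs : LinearMap.range EV = ⊤ := by
    rw [LinearMap.range_eq_top]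
    intro c
    obtain ⟨f, hf1, hf2⟩ := key c
    refine ⟨f, ?_⟩
    funext x
    rw [hEV, LinearMap.pi_apply, ev_apply]
    rcases x with v | ⟨e, l⟩
    · exact hf1 v
    · exact hf2 e l
  have hdim := EV.finrank_range_add_finrank_ker
  rw [hEVs, finrank_top, Module.finrank_fintype_fun_eq_card] at hdim
  simp only [Fintype.card_sum, Fintype.card_prod, Fintype.card_fin] at hdim
  have hPol := finrank_Pol_le n (r + 1)
  obtain ⟨yg, hyg⟩ := kill_points (LinearMap.ker EV) (NN n (r + 1) - (m + μ + b * μ * r))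
    (by omega)
  have hlen : NN n (r + 1) - μ - m = b * μ * r + (NN n (r + 1) - (m + μ + b * μ * r)) := by
    omega
  refine ⟨fun i k => u (Sum.inl i) ^ (k.val + 1), fun i j => ((i.val : ℕ) : ℂ) ^ (j : ℕ),
    fun t => if h : t.val < b * μ * r then ptX (Sum.inr (finProdFinEquiv.symm ⟨t.val, h⟩))
      else yg ⟨t.val - b * μ * r, by have := t.2; omega⟩, ?_⟩
  intro f hfd hfz hfp hfy j₀
  have hline : ∀ e l j, eval (ptX (Sum.inr (e, l))) (f j) = 0 := by
    intro e l j
    have h1 := (finProdFinEquiv (e, l)).2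
    have h2 := hfy ⟨(finProdFinEquiv (e, l)).val, by omega⟩ j
    simp only [h1, dite_true, Fin.eta, Equiv.symm_apply_apply] at h2
    exact h2
  have hnode : ∀ (k : Fin μ) j, eval (fun i : Fin n => u (Sum.inr k) ^ (i.val + 1)) (f j) = 0 := by
    intro k
    have hlt : ∀ s : Fin b, b * k.val + s.val < b * μ := by
      intro s
      calc b * k.val + s.val < b * k.val + b := by have := s.2; omega
        _ = b * (k.val + 1) := by ring
        _ ≤ b * μ := Nat.mul_le_mul le_rfl k.2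
    have h1 : ∀ s : Fin b, ∑ j : Fin b, (((b * k.val + s.val) % m : ℕ) : ℂ) ^ (j : ℕ) *
        eval (fun i : Fin n => u (Sum.inr k) ^ (i.val + 1)) (f j) = 0 := by
      intro s
      have htg : tgt ⟨b * k.val + s.val, hlt s⟩ = k := by
        simp only [htgt]
        apply Fin.ext
        change (b * k.val + s.val) / b = k.val
        rw [Nat.mul_add_div hb0, Nat.div_eq_of_lt s.2, add_zero]
      have h2 := edge (fun i : Fin n => u (Sum.inl (src ⟨b * k.val + s.val, hlt s⟩)) ^ (i.val + 1))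
        (fun i : Fin n => u (Sum.inr k) ^ (i.val + 1)) τ hτ_inj hτ01 f hfd
        (fun j => hfz _ j) (fun l j => by
          have h3 := hline ⟨b * k.val + s.val, hlt s⟩ l j
          simp only [hptX, Sum.elim_inr, htg] at h3
          exact h3)
        (fun j => (((b * k.val + s.val) % m : ℕ) : ℂ) ^ (j : ℕ))
        (fun i => hfp (src ⟨b * k.val + s.val, hlt s⟩) i)
      exact h2
    have h2 : Function.Injective fun s : Fin b => (((b * k.val + s.val) % m : ℕ) : ℂ) := by
      intro s s' hs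
      have hs' : (((b * k.val + s.val) % m : ℕ) : ℂ) = (((b * k.val + s'.val) % m : ℕ) : ℂ) := hs
      have h3 : (b * k.val + s.val) % m = (b * k.val + s'.val) % m := Nat.cast_injective hs'
      have h4 : src ⟨b * k.val + s.val, hlt s⟩ = src ⟨b * k.val + s'.val, hlt s'⟩ := by
        simp only [hsrc]
        exact Fin.ext h3
      have h5 : tgt ⟨b * k.val + s.val, hlt s⟩ = tgt ⟨b * k.val + s'.val, hlt s'⟩ := by
        simp only [htgt]
        apply Fin.ext
        change (b * k.val + s.val) / b = (b * k.val + s'.val) / b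
        rw [Nat.mul_add_div hb0, Nat.mul_add_div hb0, Nat.div_eq_of_lt s.2,
          Nat.div_eq_of_lt s'.2]
      have h6 := hinj _ _ h4 h5
      rw [Fin.mk.injEq] at h6
      exact Fin.ext (by omega)
    have h3 := Matrix.eq_zero_of_forall_index_sum_pow_mul_eq_zero h2 h1
    intro j
    exact congrFun h3 j
  have hker : (⟨f j₀, mem_Pol.2 (hfd j₀)⟩ : Pol n (r + 1)) ∈ LinearMap.ker EV := by
    rw [LinearMap.mem_ker]
    funext x
    rw [hEV, LinearMap.pi_apply, ev_apply]
    rcases x with (i | k) | ⟨e, l⟩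
    · exact hfz i j₀
    · exact hnode k j₀
    · exact hline e l j₀
  have h0 := hyg _ hker (fun i => by
    have h1 := hfy ⟨b * μ * r + i.val, by have := i.2; omega⟩ j₀
    have h2 : ¬ (b * μ * r + i.val < b * μ * r) := by omega
    simp only [h2, dite_false, Nat.add_sub_cancel_left, Fin.eta] at h1
    exact h1)
  exact congrArg Subtype.val h0

end Pool.Agent.War


end

section

/-!
# Simultaneous Waring decompositions (MP_db021c_ag): few forms, final form   (helper88)
-/

set_option autoImplicit false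

open Module MvPolynomial

namespace Pool.Agent.WarS

theorem few : S_FEW := FEW (GD SW) (RES SG (HD SG)) (TRA SG) DH NUM

/-- at most n forms -/
theorem W_few (n d s h : ℕ) (hn : 2 ≤ n) (hs : 2 ≤ s) (hsn : s ≤ n)
    (hd : 4 * n ^ 2 * (n + 2) ≤ d + 1) :
    Waring.W d h n s ↔ min s ((n + d).choose n) ≤ h ∧ s * (n + d).choose n ≤ h * (n + s) := by
  have h16 : 16 ≤ 4 * n ^ 2 := by nlinarith
  have h64 : 64 ≤ 4 * n ^ 2 * (n + 2) := by nlinarith
  refine ⟨fun H => ⟨H.bound2, H.bound1 (by omega)⟩, fun H => ?_⟩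
  obtain ⟨m, rfl⟩ : ∃ m, n = m + 1 := ⟨n - 1, by omega⟩
  obtain ⟨r, rfl⟩ : ∃ r, s = r + 1 := ⟨s - 1, by omega⟩
  obtain ⟨e, rfl⟩ : ∃ e, d = e + 2 := ⟨d - 2, by omega⟩
  have h2 : (r + 1) * War.NN (m + 1) (e + 2) ≤ (m + r + 2) * h := by
    have := H.2
    unfold War.NN
    calc _ ≤ _ := this
      _ = _ := by ring
  obtain ⟨z, a, y, hK⟩ := few m e r h (by omega) (by omega) (by omega)
    (by linarith) h2
  exact Waring.W_of_dual z a fun g hg h1 h2 => hK g hg h1 h2 fun i => i.elim0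

/-- final form -/
theorem W_all (n d s h : ℕ) (hn : 2 ≤ n) (hd : 1 ≤ d) (hs : 2 ≤ s)
    (hds : 4 * n ^ 2 * (n + 2) ≤ d + 1 ∨
      (n + 1 ≤ s ∧ (n = 2 ∨ n ^ 3 + 60 ≤ d ∨ (n + d).choose n ≤ s))) :
    Waring.W d h n s ↔ min s ((n + d).choose n) ≤ h ∧ s * (n + d).choose n ≤ h * (n + s) := by
  by_cases hsn : n + 1 ≤ s
  · by_cases h2 : n = 2
    · subst h2
      rw [Nat.add_comm 2 d, Nat.add_comm 2 s]
      exact Waring.ternary d h s hd (by omega)
    · have h3 : n ^ 3 + 60 ≤ d ∨ (n + d).choose n ≤ s := by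
        rcases hds with h | ⟨-, h | h | h⟩
        · left
          have : n ^ 3 + 60 + 1 ≤ 4 * n ^ 2 * (n + 2) := by
            have h4 : 3 ≤ n := by omega
            have h5 : 9 ≤ n ^ 2 := by nlinarith
            nlinarith
          omega
        · exact absurd h h2
        · exact Or.inl h
        · exact Or.inr h
      have hSC := War.SC War.WAH
      exact War.W_iff (War.TOP (War.BLK (War.C0 hSC War.AR) (War.C1 hSC War.AR) (War.C2 War.thX)) hSC)
        hSC n d s h hn hd hsn h3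
  · have h4 : 4 * n ^ 2 * (n + 2) ≤ d + 1 := by
      rcases hds with h | ⟨h, -⟩
      · exact h
      · exact absurd h hsn
    exact W_few n d s h hn hs (by omega) h4

end Pool.Agent.WarS


end

section

/-!
# Simultaneous Waring decompositions (MP_db021c_ag): decoupled Horace step, trace lemma   (helper59)
-/

set_option autoImplicit false

open Module MvPolynomial
open Pool.Agent.War Pool.Agent.WarS

namespace Pool.Agent.WarD.TRBaux

/-- the parameter space -/
abbrev XX (n r : ℕ) (U Y : Type) : Type :=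
  (U → Fin n → ℂ) × (U → Fin (r + 1) → ℂ) × (Y → Fin n → ℂ) × (Y → Fin (r + 1) → ℂ)

variable {n r : ℕ} {U Y : Type}

def prz (i : U) : XX n r U Y →ₗ[ℂ] (Fin n → ℂ) :=
  (pt (n := n) i).comp (LinearMap.fst ℂ _ _)

def pra (i : U) : XX n r U Y →ₗ[ℂ] (Fin (r + 1) → ℂ) :=
  (pt (n := r + 1) i).comp ((LinearMap.fst ℂ _ _).comp (LinearMap.snd ℂ _ _))

def pry (i : Y) : XX n r U Y →ₗ[ℂ] (Fin n → ℂ) :=
  (pt (n := n) i).comp ((LinearMap.fst ℂ _ _).comp ((LinearMap.snd ℂ _ _).comp
    (LinearMap.snd ℂ _ _)))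

def prα (i : Y) : XX n r U Y →ₗ[ℂ] (Fin (r + 1) → ℂ) :=
  (pt (n := r + 1) i).comp ((LinearMap.snd ℂ _ _).comp ((LinearMap.snd ℂ _ _).comp
    (LinearMap.snd ℂ _ _)))

@[simp] theorem prz_apply (i : U) (x : XX n r U Y) : prz i x = x.1 i := rfl
@[simp] theorem pra_apply (i : U) (x : XX n r U Y) : pra i x = x.2.1 i := rfl
@[simp] theorem pry_apply (i : Y) (x : XX n r U Y) : pry i x = x.2.2.1 i := rfl
@[simp] theorem prα_apply (i : Y) (x : XX n r U Y) : prα i x = x.2.2.2 i := rfl

/-- the functional `f ↦ ∑ α_j f_j(y)` -/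
noncomputable def Om (n d r : ℕ) (q : (Fin n → ℂ) × (Fin (r + 1) → ℂ)) :
    (Fin (r + 1) → Pol n d) →ₗ[ℂ] ℂ :=
  ∑ j, q.2 j • (ev n d q.1).comp (LinearMap.proj j : (Fin (r + 1) → Pol n d) →ₗ[ℂ] Pol n d)

theorem Om_apply {d : ℕ} (q : (Fin n → ℂ) × (Fin (r + 1) → ℂ)) (f : Fin (r + 1) → Pol n d) :
    Om n d r q f = ∑ j, q.2 j * eval q.1 (f j : MvPolynomial (Fin n) ℂ) := by
  simp only [Om, LinearMap.sum_apply, LinearMap.smul_apply, LinearMap.comp_apply,
    LinearMap.proj_apply, ev_apply, smul_eq_mul]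

/-- the trace space -/
noncomputable def TV (n d r : ℕ) {U Y : Type} (x : XX n r U Y) :
    Submodule ℂ (Fin (r + 1) → Pol n d) :=
  ((⨅ q : U × Fin (r + 1), LinearMap.ker ((ev n d (prz q.1 x)).comp
      (LinearMap.proj q.2 : (Fin (r + 1) → Pol n d) →ₗ[ℂ] Pol n d))) ⊓
   (⨅ q : U × Fin n, LinearMap.ker (∑ j, pra q.1 x j • (dv n d q.2 (prz q.1 x)).comp
      (LinearMap.proj j : (Fin (r + 1) → Pol n d) →ₗ[ℂ] Pol n d)))) ⊓
  (⨅ i : Y, LinearMap.ker (Om n d r (pry i x, prα i x)))

theorem PK_TV (n d r : ℕ) (U Y : Type) [Finite U] [Finite Y] :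
    PK (K := ℂ) fun x : XX n r U Y => TV n d r x := by
  refine ((TRAaux.PK_ev _).inf (TRAaux.PK_dv _ (fun i x => pra i x) fun i j => ?_)).inf
    (PK.iInf fun i => PK.one (φ := fun x : XX n r U Y => Om n d r (pry i x, prα i x))
      fun f => ?_)
  · exact LP.linear ((LinearMap.proj j : (Fin (r + 1) → ℂ) →ₗ[ℂ] ℂ).comp (pra i))
  · simp only [Om_apply]
    refine LP.sum _ fun j _ => LP.mul ?_ (TRAaux.LP_ev (pry i) _)
    exact LP.linear ((LinearMap.proj j : (Fin (r + 1) → ℂ) →ₗ[ℂ] ℂ).comp (prα i))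

theorem mem_TV {d : ℕ} {x : XX n r U Y} {f : Fin (r + 1) → Pol n d} :
    f ∈ TV n d r x ↔
      ((∀ i j, eval (x.1 i) (f j : MvPolynomial (Fin n) ℂ) = 0) ∧
        (∀ i k, ∑ j, x.2.1 i j *
          eval (x.1 i) (pderiv k (f j : MvPolynomial (Fin n) ℂ)) = 0)) ∧
      (∀ i, ∑ j, x.2.2.2 i j * eval (x.2.2.1 i) (f j : MvPolynomial (Fin n) ℂ) = 0) := by
  simp only [TV, Submodule.mem_inf, Submodule.mem_iInf, LinearMap.mem_ker, LinearMap.comp_apply,
    LinearMap.sum_apply, LinearMap.smul_apply, LinearMap.proj_apply, ev_apply, dv_apply, Om_apply,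
    smul_eq_mul, Prod.forall, prz_apply, pra_apply, pry_apply, prα_apply]

/-- the dimension of a product of subspaces -/
theorem finrank_prod {ι V : Type} [Fintype ι] [AddCommGroup V] [Module ℂ V]
    [FiniteDimensional ℂ V] (D : ι → Submodule ℂ V) :
    finrank ℂ (Submodule.pi Set.univ D) ≤ ∑ i, finrank ℂ (D i) := by
  have h : finrank ℂ (∀ i, D i) = ∑ i, finrank ℂ (D i) := Module.finrank_pi_fintype ℂ
  rw [← h]
  refine LinearMap.finrank_le_finrank_of_injective (f := LinearMap.pi fun i =>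
    (LinearMap.codRestrict (D i) ((LinearMap.proj i : (ι → V) →ₗ[ℂ] V).comp
      (Submodule.pi Set.univ D).subtype) fun v => ?_)) ?_
  · exact (Submodule.mem_pi.1 v.2) i (Set.mem_univ i)
  · intro v w hvw
    apply Subtype.ext
    funext i
    have := congrArg Subtype.val (congrFun hvw i)
    exact this

end Pool.Agent.WarD.TRBaux

namespace Pool.Agent.WarD

open TRBaux

theorem x_TRB : S_TRB := by
  classical
  intro n d r U Y _ _ υ hn hG hN
  have hgen : ∀ j : Fin (r + 1), Gen ℂ fun z : U → Fin n → ℂ =>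
      finrank ℂ (Dbl n (d + 2) (Finset.univ.filter fun i => υ i = j) z) ≤
        NN n (d + 2) - (n * fib υ j + Fintype.card U) := fun j =>
    WarS.SG n (d + 2) U (Finset.univ.filter fun i => υ i = j) hn (hG j)
  obtain ⟨z, hz⟩ := (Gen.forall hgen).exists
  set W : Submodule ℂ (Fin (r + 1) → Pol n (d + 2)) := Submodule.pi Set.univ
    fun j : Fin (r + 1) => Dbl n (d + 2) (Finset.univ.filter fun i => υ i = j) z with hW
  have hWd : finrank ℂ W ≤ Fintype.card Y :=
    (finrank_prod _).trans ((Finset.sum_le_sum fun j _ => hz j).trans hN)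
  obtain ⟨q, hq⟩ := red (Y := (Fin n → ℂ) × (Fin (r + 1) → ℂ)) (Om n (d + 2) r) W ⊥ (by
    intro f _ hf
    by_contra hc
    push Not at hc
    apply hf
    rw [Submodule.mem_bot]
    funext j
    apply Subtype.ext
    apply MvPolynomial.funext
    intro x
    have h := hc (x, Pi.single j 1)
    rw [Om_apply, Finset.sum_eq_single j] at h
    · simp only [Pi.single_eq_same, one_mul] at h
      rw [h]
      simp
    · intro j' _ hj'
      simp only
      rw [Pi.single_eq_of_ne hj', zero_mul]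
    · intro h'
      exact absurd (Finset.mem_univ _) h') (Fintype.card Y)
  have hq0 : W ⊓ ⨅ i, LinearMap.ker (Om n (d + 2) r (q i)) = ⊥ := by
    refine Submodule.finrank_eq_zero.1 (Nat.le_zero.1 (hq.trans ?_))
    rw [finrank_bot]
    refine max_le ?_ le_rfl
    omega
  let e : Y ≃ Fin (Fintype.card Y) := Fintype.equivFin Y
  let x₀ : XX n r U Y := (z, fun i => Pi.single (υ i) 1, fun i => (q (e i)).1,
    fun i => (q (e i)).2)
  have h0 : TV n (d + 2) r x₀ = ⊥ := by
    rw [eq_bot_iff, ← hq0]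
    intro f hf
    rw [mem_TV] at hf
    obtain ⟨⟨k1, k2⟩, k3⟩ := hf
    rw [Submodule.mem_inf]
    constructor
    · rw [hW, Submodule.mem_pi]
      intro j _
      rw [mem_Dbl]
      refine ⟨fun i => k1 i j, fun i hi k => ?_⟩
      have hij : υ i = j := (Finset.mem_filter.1 hi).2
      have h := k2 i k
      rw [Finset.sum_eq_single j] at h
      · simp only [x₀, hij, Pi.single_eq_same, one_mul] at h
        exact h
      · intro j' _ hj'
        simp only [x₀, hij]
        rw [Pi.single_eq_of_ne hj', zero_mul]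
      · intro h'
        exact absurd (Finset.mem_univ _) h'
    · rw [Submodule.mem_iInf]
      intro i
      rw [LinearMap.mem_ker, Om_apply]
      have h := k3 (e.symm i)
      simp only [x₀, Equiv.apply_symm_apply] at h
      exact h
  refine ((PK_TV n (d + 2) r U Y).gen_bot h0).mono fun x hx => ?_
  intro f hf h1 h2 h3 j
  have hm : (fun j => (⟨f j, mem_Pol.2 (hf j)⟩ : Pol n (d + 2))) ∈ TV n (d + 2) r x := by
    rw [mem_TV]
    exact ⟨⟨h1, h2⟩, h3⟩
  rw [hx, Submodule.mem_bot] at hm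
  exact congrArg Subtype.val (congrFun hm j)

end Pool.Agent.WarD


end

section

/-!
# Simultaneous Waring decompositions (MP_db021c_ag): decoupled Horace step, residual lemma
-/

set_option autoImplicit false

open Module MvPolynomial
open Pool.Agent.War Pool.Agent.WarS

namespace Pool.Agent.WarD.REBaux

open Pool.Agent.WarS.RESm

/-- the parameter space -/
abbrev Pr (n r : ℕ) (I U Y : Type) : Type :=
  ((I → Fin (n + 1) → ℂ) × (I → Fin (r + 1) → ℂ)) × (U → Fin n → ℂ) ×
    (U → Fin (r + 1) → ℂ) × (Y → Fin n → ℂ) × (Y → Fin (r + 1) → ℂ)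

section Maps

variable {n r : ℕ} {I U Y : Type}

/-- a point off the hyperplane -/
def Mw (i : I) : Pr n r I U Y →ₗ[ℂ] (Fin (n + 1) → ℂ) where
  toFun x := x.1.1 i
  map_add' _ _ := rfl
  map_smul' _ _ := rfl

/-- a coordinate of its vector -/
def Mb (i : I) (j : Fin (r + 1)) : Pr n r I U Y →ₗ[ℂ] ℂ where
  toFun x := x.1.2 i j
  map_add' _ _ := rfl
  map_smul' _ _ := rfl

/-- a point on the hyperplane -/
def Mz (i : U) : Pr n r I U Y →ₗ[ℂ] (Fin n → ℂ) where
  toFun x := x.2.1 i
  map_add' _ _ := rfl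
  map_smul' _ _ := rfl

/-- a coordinate of its vector -/
def Ma (i : U) (j : Fin (r + 1)) : Pr n r I U Y →ₗ[ℂ] ℂ where
  toFun x := x.2.2.1 i j
  map_add' _ _ := rfl
  map_smul' _ _ := rfl

/-- a point near the hyperplane -/
def My (i : Y) : Pr n r I U Y →ₗ[ℂ] (Fin n → ℂ) where
  toFun x := x.2.2.2.1 i
  map_add' _ _ := rfl
  map_smul' _ _ := rfl

/-- a coordinate of its vector -/
def Mα (i : Y) (j : Fin (r + 1)) : Pr n r I U Y →ₗ[ℂ] ℂ where
  toFun x := x.2.2.2.2 i j
  map_add' _ _ := rfl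
  map_smul' _ _ := rfl

end Maps

/-- a combination of the derivatives of the forms -/
noncomputable def Sv (m e : ℕ) {r : ℕ} (c : Fin (r + 1) → ℂ) (k : Fin m) (z : Fin m → ℂ) :
    (Fin (r + 1) → Pol m e) →ₗ[ℂ] ℂ :=
  ∑ j, c j • Dv m e j k z

theorem Sv_apply {m e r : ℕ} (c : Fin (r + 1) → ℂ) (k : Fin m) (z : Fin m → ℂ)
    (g : Fin (r + 1) → Pol m e) :
    Sv m e c k z g = ∑ j, c j * eval z (pderiv k (g j : MvPolynomial (Fin m) ℂ)) := by
  simp only [Sv, LinearMap.sum_apply, LinearMap.smul_apply, Dv_apply, smul_eq_mul]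

theorem PK_Sv {X : Type*} [AddCommGroup X] [Module ℂ X] {m e r : ℕ} (k : Fin m)
    (L : X →ₗ[ℂ] (Fin m → ℂ)) (c : Fin (r + 1) → (X →ₗ[ℂ] ℂ)) :
    PK fun x : X => LinearMap.ker (Sv m e (fun j => c j x) k (L x)) := by
  refine PK.one (φ := fun x : X => Sv m e (fun j => c j x) k (L x)) fun g => ?_
  simp only [Sv_apply]
  exact LP.sum _ fun j _ => (LP.linear (c j)).mul ((LP_eval _).comp_linear L)

section ZZ

variable {n r : ℕ} {I U Y : Type}

/-- the space of solutions of the residual conditions -/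
noncomputable def ZB (d : ℕ) (x : Pr n r I U Y) : Submodule ℂ (Fin (r + 1) → Pol (n + 1) (d + 1)) :=
  (((⨅ q : I × Fin (r + 1), LinearMap.ker (Ev (n + 1) (d + 1) q.2 (Mw q.1 x))) ⊓
    (⨅ q : I × Fin (n + 1),
      LinearMap.ker (Sv (n + 1) (d + 1) (fun j => Mb q.1 j x) q.2 (Mw q.1 x)))) ⊓
  (⨅ i : U, LinearMap.ker (OmC1 n (d + 1) (Mz i x, fun j : Fin (r + 1) => Ma i j x)))) ⊓
  ((⨅ q : Y × Fin (r + 1), LinearMap.ker (Ev (n + 1) (d + 1) q.2 (hpL n (My q.1 x)))) ⊓
    (⨅ q : Y × Fin n,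
      LinearMap.ker (Sv (n + 1) (d + 1) (fun j => Mα q.1 j x) q.2.succ (hpL n (My q.1 x)))))

theorem mem_ZB {d : ℕ} {x : Pr n r I U Y} {g : Fin (r + 1) → Pol (n + 1) (d + 1)} :
    g ∈ ZB d x ↔
      ((((∀ i j, eval (x.1.1 i) (g j : MvPolynomial (Fin (n + 1)) ℂ) = 0) ∧
        (∀ i k, ∑ j, x.1.2 i j *
          eval (x.1.1 i) (pderiv k (g j : MvPolynomial (Fin (n + 1)) ℂ)) = 0)) ∧
        (∀ i, ∑ j, x.2.2.1 i j *
          eval (hp (x.2.1 i)) (g j : MvPolynomial (Fin (n + 1)) ℂ) = 0)) ∧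
        (∀ i j, eval (hp (x.2.2.2.1 i)) (g j : MvPolynomial (Fin (n + 1)) ℂ) = 0) ∧
        (∀ i (k : Fin n), ∑ j, x.2.2.2.2 i j *
          eval (hp (x.2.2.2.1 i)) (pderiv k.succ (g j : MvPolynomial (Fin (n + 1)) ℂ)) = 0)) := by
  simp only [ZB, Submodule.mem_inf, Submodule.mem_iInf, LinearMap.mem_ker, Ev_apply, Sv_apply,
    OmC1_apply]
  constructor
  · rintro ⟨⟨⟨h1, h2⟩, h3⟩, h4, h5⟩
    exact ⟨⟨⟨fun i j => h1 (i, j), fun i k => h2 (i, k)⟩, h3⟩, fun i j => h4 (i, j),
      fun i k => h5 (i, k)⟩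
  · rintro ⟨⟨⟨h1, h2⟩, h3⟩, h4, h5⟩
    exact ⟨⟨⟨fun q => h1 q.1 q.2, fun q => h2 q.1 q.2⟩, h3⟩, fun q => h4 q.1 q.2,
      fun q => h5 q.1 q.2⟩

theorem PK_ZB [Finite I] [Finite U] [Finite Y] (d : ℕ) :
    PK (K := ℂ) fun x : Pr n r I U Y => ZB d x := by
  refine PK.inf (PK.inf (PK.inf ?_ ?_) ?_) (PK.inf ?_ ?_)
  · exact PK.iInf fun q => PK_Ev q.2 (Mw q.1)
  · exact PK.iInf fun q => PK_Sv q.2 (Mw q.1) fun j => Mb q.1 j
  · refine PK.iInf fun i => PK.one (φ := fun x : Pr n r I U Y =>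
      OmC1 n (d + 1) (Mz i x, fun j : Fin (r + 1) => Ma i j x)) fun g => ?_
    simp only [OmC1_apply, eval_hp]
    exact LP.sum _ fun j _ => (LP.linear (Ma i j)).mul ((LP_eval _).comp_linear (Mz i))
  · exact PK.iInf fun q => PK_Ev q.2 ((hpL n).comp (My q.1))
  · exact PK.iInf fun q => PK_Sv q.2.succ ((hpL n).comp (My q.1)) fun j => Mα q.1 j

end ZZ

end Pool.Agent.WarD.REBaux

namespace Pool.Agent.WarD

open REBaux

theorem x_REB : S_REB := by
  classical
  intro n d r I U Y _ _ _ π τ v hn hbot hfin hsum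
  let P : Fin (r + 1) → Finset I := fun j => Finset.univ.filter fun i => π i = j
  let R : Fin (r + 1) → Finset Y := fun j => Finset.univ.filter fun i => τ i = j
  -- the points w and y
  have gA := Gen.forall hfin
  have gB := (Gen.forall hbot).comp
      (LinearMap.fst ℂ (I → Fin (n + 1) → ℂ) (Y → Fin n → ℂ)) Prod.fst_surjective
  have gD := (gen_off (n := n) (I := I)).comp
      (LinearMap.fst ℂ (I → Fin (n + 1) → ℂ) (Y → Fin n → ℂ)) Prod.fst_surjective
  obtain ⟨⟨w, y⟩, ⟨hA, hB⟩, hD⟩ := ((gA.and gB).and gD).exists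
  simp only [LinearMap.fst_apply] at hA hB hD
  have hker : ∀ (j : Fin (r + 1)) (f : Pol (n + 1) (d + 1)), f ∈ Dbl (n + 1) (d + 1) (P j) w →
      (∀ p : Fin n → ℂ, eval p (res n (f : MvPolynomial (Fin (n + 1)) ℂ)) = 0) → f = 0 := by
    intro j f hf hp
    have e2 : res n (f : MvPolynomial (Fin (n + 1)) ℂ) = 0 :=
      MvPolynomial.funext fun p => by rw [hp, map_zero]
    obtain ⟨g, hg⟩ := exists_mulXC1 e2
    have e3 : g ∈ Dbl (n + 1) d (P j) w := Dbl_of_mulXC1 hD (by rw [← hg]; exact hf)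
    have e4 : Dbl (n + 1) d (P j) w = ⊥ := hB j
    rw [e4, Submodule.mem_bot] at e3
    rw [hg, e3, map_zero]
  set W : Submodule ℂ (Fin (r + 1) → Pol (n + 1) (d + 1)) := Submodule.pi Set.univ
    fun j => DbS n (d + 1) (P j) w (R j) y with hW
  have hWd : finrank ℂ W ≤ Fintype.card U :=
    (finrank_pi_leC1 _).trans ((Finset.sum_le_sum fun j _ => hA j).trans hsum)
  -- the points (z, a)
  obtain ⟨yy, hyy⟩ := red (OmC1 n (d + 1)) W ⊥ (by
    intro g hg hg0
    by_contra hcon
    push Not at hcon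
    apply hg0
    rw [Submodule.mem_bot]
    funext j
    refine hker j (g j) (hg j trivial).1 fun p => ?_
    have := hcon (p, Pi.single j 1)
    rw [OmC1_apply] at this
    simpa [Pi.single_apply, eval_hp] using this) (Fintype.card U)
  rw [finrank_bot] at hyy
  have hyy' : W ⊓ ⨅ i, LinearMap.ker (OmC1 n (d + 1) (yy i)) = ⊥ :=
    Submodule.finrank_eq_zero.1 (by omega)
  let e : U ≃ Fin (Fintype.card U) := Fintype.equivFin U
  let x₀ : Pr n r I U Y := ((w, fun i => Pi.single (π i) 1), fun i => (yy (e i)).1,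
    fun i => (yy (e i)).2, y, fun i => Pi.single (τ i) 1)
  have h0 : ZB d x₀ = ⊥ := by
    rw [eq_bot_iff, ← hyy']
    intro g hg
    obtain ⟨⟨⟨k1, k2⟩, k3⟩, k4, k5⟩ := mem_ZB.1 hg
    refine ⟨fun j _ => ⟨?_, ?_⟩, ?_⟩
    · refine mem_Dbl.2 ⟨fun i => k1 i j, fun i hi k => ?_⟩
      have hij : π i = j := (Finset.mem_filter.1 hi).2
      have h := k2 i k
      rw [Finset.sum_eq_single j] at h
      · simp only [x₀, hij, Pi.single_eq_same, one_mul] at h
        exact h
      · intro j' _ hj'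
        simp only [x₀, hij]
        rw [Pi.single_eq_of_ne hj', zero_mul]
      · intro h'
        exact absurd (Finset.mem_univ _) h'
    · rw [SetLike.mem_coe, Submodule.mem_comap]
      refine mem_Dbl.2 ⟨fun i => ?_, fun i hi k => ?_⟩
      · have := k4 i j
        rwa [eval_hp] at this
      · have hij : τ i = j := (Finset.mem_filter.1 hi).2
        have h := k5 i k
        rw [Finset.sum_eq_single j] at h
        · simp only [x₀, hij, Pi.single_eq_same, one_mul] at h
          rwa [eval_hp_pderiv] at h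
        · intro j' _ hj'
          simp only [x₀, hij]
          rw [Pi.single_eq_of_ne hj', zero_mul]
        · intro h'
          exact absurd (Finset.mem_univ _) h'
    · rw [SetLike.mem_coe, Submodule.mem_iInf]
      intro i
      rw [LinearMap.mem_ker, OmC1_apply]
      have h := k3 (e.symm i)
      simp only [x₀, Equiv.apply_symm_apply] at h
      exact h
  refine ((PK_ZB d).gen_bot h0).mono fun x hx => ?_
  intro g hg h1 h2 h3 h4 h5 j
  have hm : (fun j => (⟨g j, mem_Pol.2 (hg j)⟩ : Pol (n + 1) (d + 1))) ∈ ZB d x :=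
    mem_ZB.2 ⟨⟨⟨h1, h2⟩, h3⟩, h4, h5⟩
  rw [hx, Submodule.mem_bot] at hm
  exact congrArg Subtype.val (congrFun hm j)

end Pool.Agent.WarD


end

section

/-!
# From `KQ` to `War.Kill n 2`   (helper14)
-/

set_option autoImplicit false

open Module MvPolynomial

namespace Pool.Agent.WarR

open Pool.Agent.War

/-- the affine function with the coefficients `w` -/
noncomputable def aff {n : ℕ} (w : Fin (n + 1) → ℂ) : MvPolynomial (Fin n) ℂ :=
  C (w 0) + ∑ k, C (w k.succ) * X k

theorem eval_aff {n : ℕ} (w : Fin (n + 1) → ℂ) (p : Fin n → ℂ) :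
    eval p (aff w) = ∑ k, w k * (Fin.cons 1 p : Fin (n + 1) → ℂ) k := by
  simp only [aff, map_add, eval_C, map_sum, map_mul, eval_X, Fin.sum_univ_succ, Fin.cons_zero,
    Fin.cons_succ, mul_one]

theorem pderiv_aff {n : ℕ} (w : Fin (n + 1) → ℂ) (k : Fin n) :
    pderiv k (aff w) = C (w k.succ) := by
  classical
  simp only [aff, map_add, map_sum, pderiv_C, zero_add, pderiv_mul, zero_mul, pderiv_X]
  rw [Finset.sum_eq_single k]
  · simp
  · intro i _ hi
    simp [Pi.single_apply, hi.symm]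
  · simp

/-- the quadratic form of a product -/
noncomputable def pr {n : ℕ} (u v : Fin (n + 1) → ℂ) : SF ℂ (n + 1) :=
  ⟨fun i j => (u i * v j + u j * v i) / 2, fun i j => by ring⟩

theorem bf_pr {n : ℕ} (u v x y : Fin (n + 1) → ℂ) :
    bf (pr u v : Fin (n + 1) → Fin (n + 1) → ℂ) x y =
      ((∑ k, u k * x k) * (∑ k, v k * y k) + (∑ k, v k * x k) * ∑ k, u k * y k) / 2 := by
  unfold bf
  rw [Finset.sum_mul_sum, Finset.sum_mul_sum]
  simp only [pr, ← Finset.sum_add_distrib, Finset.sum_div]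
  refine Finset.sum_congr rfl fun i _ => Finset.sum_congr rfl fun j _ => ?_
  ring

/-- the polynomials which are quadratic forms -/
def TQ (n : ℕ) : Submodule ℂ (MvPolynomial (Fin n) ℂ) where
  carrier := {f | ∃ A : SF ℂ (n + 1),
    (∀ p, eval p f = bf (A : Fin (n + 1) → Fin (n + 1) → ℂ) (Fin.cons 1 p) (Fin.cons 1 p)) ∧
    ∀ p k, eval p (pderiv k f) =
      2 * bf (A : Fin (n + 1) → Fin (n + 1) → ℂ) (Fin.cons 1 p) (Pi.single k.succ 1)}
  add_mem' := by
    rintro f g ⟨A, h1, h2⟩ ⟨B, k1, k2⟩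
    refine ⟨A + B, fun p => ?_, fun p k => ?_⟩
    · rw [map_add, h1, k1, Submodule.coe_add, bf_add]
    · rw [map_add, map_add, h2, k2, Submodule.coe_add, bf_add]
      ring
  zero_mem' := ⟨0, fun p => by rw [Submodule.coe_zero, bf_zero, map_zero],
    fun p k => by rw [Submodule.coe_zero, bf_zero, map_zero, map_zero, mul_zero]⟩
  smul_mem' := by
    rintro c f ⟨A, h1, h2⟩
    refine ⟨c • A, fun p => ?_, fun p k => ?_⟩
    · rw [smul_eval, h1, Submodule.coe_smul, bf_smul]
    · rw [(pderiv k).map_smul, smul_eval, h2, Submodule.coe_smul, bf_smul]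
      ring

theorem aff_mul_mem {n : ℕ} (u v : Fin (n + 1) → ℂ) : aff u * aff v ∈ TQ n := by
  classical
  refine ⟨pr u v, fun p => ?_, fun p k => ?_⟩
  · rw [map_mul, eval_aff, eval_aff, bf_pr]
    ring
  · rw [pderiv_mul, map_add, map_mul, map_mul, pderiv_aff, pderiv_aff, eval_C, eval_C, eval_aff,
      eval_aff, bf_pr]
    have e : ∀ w : Fin (n + 1) → ℂ, ∑ i, w i * (Pi.single k.succ 1 : Fin (n + 1) → ℂ) i =
        w k.succ := by
      intro w
      rw [Finset.sum_eq_single k.succ]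
      · rw [Pi.single_eq_same, mul_one]
      · intro i _ hi
        rw [Pi.single_eq_of_ne hi, mul_zero]
      · simp
    rw [e, e]
    ring

theorem aff_zero {n : ℕ} : aff (Pi.single 0 1 : Fin (n + 1) → ℂ) = 1 := by
  classical
  unfold aff
  rw [Pi.single_eq_same, map_one, Finset.sum_eq_zero, add_zero]
  intro k _
  rw [Pi.single_eq_of_ne (Fin.succ_ne_zero k), map_zero, zero_mul]

theorem aff_succ {n : ℕ} (c : ℂ) (k : Fin n) :
    aff (Pi.single k.succ c : Fin (n + 1) → ℂ) = C c * X k := by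
  classical
  unfold aff
  rw [Pi.single_eq_of_ne (Fin.succ_ne_zero k).symm, map_zero, zero_add, Finset.sum_eq_single k]
  · rw [Pi.single_eq_same]
  · intro i _ hi
    rw [Pi.single_eq_of_ne (fun h => hi (Fin.succ_injective _ h)), map_zero, zero_mul]
  · simp

theorem aff_const {n : ℕ} (c : ℂ) : aff (Pi.single 0 c : Fin (n + 1) → ℂ) = C c := by
  classical
  unfold aff
  rw [Pi.single_eq_same, Finset.sum_eq_zero, add_zero]
  intro k _
  rw [Pi.single_eq_of_ne (Fin.succ_ne_zero k), map_zero, zero_mul]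

theorem monomial_mem {n : ℕ} (m : Fin n →₀ ℕ) (c : ℂ) (hm : m.degree ≤ 2) :
    monomial m c ∈ TQ n := by
  classical
  by_cases h0 : m = 0
  · subst h0
    have := aff_mul_mem (Pi.single 0 c : Fin (n + 1) → ℂ) (Pi.single 0 1)
    rw [aff_zero, aff_const, mul_one] at this
    exact this
  · obtain ⟨i, hi⟩ := Finsupp.ne_iff.1 h0
    have hi' : Finsupp.single i 1 ≤ m := by
      rw [Finsupp.single_le_iff]
      rw [Finsupp.zero_apply] at hi
      omega
    obtain ⟨m', rfl⟩ := exists_add_of_le hi'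
    rw [map_add, Finsupp.degree_single] at hm
    by_cases h1 : m' = 0
    · subst h1
      have := aff_mul_mem (Pi.single i.succ c : Fin (n + 1) → ℂ) (Pi.single 0 1)
      rw [aff_zero, aff_succ, mul_one] at this
      rw [add_zero]
      have e : (monomial (Finsupp.single i 1)) c = C c * X i := by
        rw [X, C_mul_monomial, mul_one]
      rw [e]
      exact this
    · obtain ⟨j, hj⟩ := Finsupp.ne_iff.1 h1
      have hj' : Finsupp.single j 1 ≤ m' := by
        rw [Finsupp.single_le_iff]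
        rw [Finsupp.zero_apply] at hj
        omega
      obtain ⟨m'', rfl⟩ := exists_add_of_le hj'
      rw [map_add, Finsupp.degree_single] at hm
      have h2 : m'' = 0 := by
        rw [← Finsupp.degree_eq_zero_iff]
        omega
      subst h2
      have := aff_mul_mem (Pi.single i.succ c : Fin (n + 1) → ℂ) (Pi.single j.succ 1)
      rw [aff_succ, aff_succ, map_one, one_mul] at this
      rw [add_zero]
      have e : (monomial (Finsupp.single i 1 + Finsupp.single j 1)) c = C c * X i * X j := by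
        rw [X, X, C_mul_monomial, monomial_mul, mul_one, mul_one]
      rw [e]
      exact this

theorem mem_TQ {n : ℕ} {f : MvPolynomial (Fin n) ℂ} (hf : f.totalDegree ≤ 2) : f ∈ TQ n := by
  rw [f.as_sum]
  refine Submodule.sum_mem _ fun m hm => monomial_mem m _ ?_
  have := le_totalDegree hm
  rw [Finsupp.degree_eq_sum]
  exact ((Finsupp.sum_fintype m (fun _ e => e) fun _ => rfl).symm.le.trans this).trans hf

theorem bf_smul_left {K : Type*} [Field K] {m : ℕ} (c : K) (A : Fin m → Fin m → K)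
    (x y : Fin m → K) : bf A (c • x) y = c * bf A x y := by
  simp only [bf, Pi.smul_apply, smul_eq_mul, Finset.mul_sum]
  refine Finset.sum_congr rfl fun i _ => Finset.sum_congr rfl fun j _ => by ring

/-- points off the hyperplane `x 0 = 0` -/
theorem off_gen {K : Type*} [Field K] [Infinite K] {m b : ℕ} {I J : Type} [Finite I] [Finite J] :
    Gen K fun c : Cfg K (m + 1) b I J => (∀ i, c.1 i 0 ≠ 0) ∧ ∀ l, c.2.2 l 0 ≠ 0 := by
  refine Gen.and (Gen.forall fun i => ?_) (Gen.forall fun l => ?_)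
  · exact Gen.ne (LP_c1 i 0) (fun _ _ => 1, 0, 0) one_ne_zero
  · exact Gen.ne (LP_c3 l 0) (0, 0, fun _ _ => 1) one_ne_zero

/-- **The configurations of the affine space.** -/
theorem KQ.kill {n b x s : ℕ} (h : KQ ℂ (n + 1) b x s 0) :
    ∃ (z : Fin x → Fin n → ℂ) (a : Fin x → Fin b → ℂ) (y : Fin s → Fin n → ℂ),
      Kill n 2 z a y := by
  classical
  obtain ⟨⟨z, a, y⟩, k1, k2, k3⟩ := (h.gen.and off_gen).exists
  have hbot : ZK (z, a, y) = ⊥ := Submodule.finrank_eq_zero.1 (Nat.le_zero.1 k1)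
  change ∀ i, z i 0 ≠ 0 at k2
  change ∀ l, y l 0 ≠ 0 at k3
  have hz : ∀ i, z i = z i 0 • (Fin.cons 1 (fun k => z i k.succ / z i 0) : Fin (n + 1) → ℂ) := by
    intro i
    funext k
    refine Fin.cases ?_ (fun k => ?_) k
    · simp
    · simp only [Pi.smul_apply, Fin.cons_succ, smul_eq_mul]
      rw [mul_div_cancel₀ _ (k2 i)]
  have hy : ∀ i, y i = y i 0 • (Fin.cons 1 (fun k => y i k.succ / y i 0) : Fin (n + 1) → ℂ) := by
    intro i
    funext k
    refine Fin.cases ?_ (fun k => ?_) k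
    · simp
    · simp only [Pi.smul_apply, Fin.cons_succ, smul_eq_mul]
      rw [mul_div_cancel₀ _ (k3 i)]
  refine ⟨fun i k => z i k.succ / z i 0, a, fun l k => y l k.succ / y l 0, ?_⟩
  intro f hf h1 h2 h3
  choose A hA1 hA2 using fun j => mem_TQ (hf j)
  have hmem : A ∈ ZK (z, a, y) := by
    have v1 : ∀ i j, bf (A j : Fin (n + 1) → Fin (n + 1) → ℂ)
        (Fin.cons 1 fun k => z i k.succ / z i 0) (Fin.cons 1 fun k => z i k.succ / z i 0) = 0 := by
      intro i j
      rw [← hA1, h1]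
    refine mem_ZK.2 ⟨fun i j => ?_, fun i => ?_, fun l j => ?_⟩
    · change bf (A j : Fin (n + 1) → Fin (n + 1) → ℂ) (z i) (z i) = 0
      rw [hz i, bf_smul_left, bf_smul_right, v1, mul_zero, mul_zero]
    · rw [full_iff (fun j => (A j : Fin (n + 1) → Fin (n + 1) → ℂ))]
      have v2 : ∀ k : Fin n, ∑ j, a i j * bf (A j : Fin (n + 1) → Fin (n + 1) → ℂ)
          (Fin.cons 1 fun k => z i k.succ / z i 0) (Pi.single k.succ 1) = 0 := by
        intro k
        have := h2 i k
        simp only [hA2] at this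
        have e : ∀ j, a i j * (2 * bf (A j : Fin (n + 1) → Fin (n + 1) → ℂ)
            (Fin.cons 1 fun k => z i k.succ / z i 0) (Pi.single k.succ 1)) =
            2 * (a i j * bf (A j : Fin (n + 1) → Fin (n + 1) → ℂ)
            (Fin.cons 1 fun k => z i k.succ / z i 0) (Pi.single k.succ 1)) := fun j => by ring
        simp only [e, ← Finset.mul_sum] at this
        exact (mul_eq_zero.1 this).resolve_left two_ne_zero
      have v3 : ∑ j, a i j * bf (A j : Fin (n + 1) → Fin (n + 1) → ℂ)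
          (Fin.cons 1 fun k => z i k.succ / z i 0) (Pi.single 0 1) = 0 := by
        have e1 : (Fin.cons 1 (fun k => z i k.succ / z i 0) : Fin (n + 1) → ℂ) =
            Pi.single 0 1 + ∑ k : Fin n, (z i k.succ / z i 0) •
              (Pi.single k.succ 1 : Fin (n + 1) → ℂ) := by
          funext l
          rw [Pi.add_apply, Finset.sum_apply]
          refine Fin.cases ?_ (fun l => ?_) l
          · rw [Pi.single_eq_same, Finset.sum_eq_zero, Fin.cons_zero, add_zero]
            intro k _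
            rw [Pi.smul_apply, Pi.single_eq_of_ne (Fin.succ_ne_zero k).symm, smul_zero]
          · rw [Pi.single_eq_of_ne (Fin.succ_ne_zero l), zero_add, Finset.sum_eq_single l]
            · rw [Pi.smul_apply, Pi.single_eq_same, Fin.cons_succ, smul_eq_mul, mul_one]
            · intro k _ hk
              rw [Pi.smul_apply, Pi.single_eq_of_ne (fun h => hk (Fin.succ_injective _ h).symm),
                smul_zero]
            · simp
        have e2 : ∀ j, bf (A j : Fin (n + 1) → Fin (n + 1) → ℂ)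
            (Fin.cons 1 fun k => z i k.succ / z i 0) (Fin.cons 1 fun k => z i k.succ / z i 0) =
            bf (A j : Fin (n + 1) → Fin (n + 1) → ℂ)
            (Fin.cons 1 fun k => z i k.succ / z i 0) (Pi.single 0 1) +
            ∑ k : Fin n, (z i k.succ / z i 0) * bf (A j : Fin (n + 1) → Fin (n + 1) → ℂ)
            (Fin.cons 1 fun k => z i k.succ / z i 0) (Pi.single k.succ 1) := by
          intro j
          have e3 : ∀ (w : Fin (n + 1) → ℂ) (s : Finset (Fin n)),
              bf (A j : Fin (n + 1) → Fin (n + 1) → ℂ) w (∑ k ∈ s, (z i k.succ / z i 0) •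
                (Pi.single k.succ 1 : Fin (n + 1) → ℂ)) = ∑ k ∈ s, (z i k.succ / z i 0) *
                bf (A j : Fin (n + 1) → Fin (n + 1) → ℂ) w (Pi.single k.succ 1) := by
            intro w s
            induction s using Finset.induction_on with
            | empty => simp [bf]
            | insert k s hk ih =>
              rw [Finset.sum_insert hk, Finset.sum_insert hk, bf_add_right, bf_smul_right, ih]
          rw [← e3, ← bf_add_right, ← e1]
        have e4 : ∑ j, a i j * bf (A j : Fin (n + 1) → Fin (n + 1) → ℂ)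
            (Fin.cons 1 fun k => z i k.succ / z i 0) (Pi.single 0 1) =
            ∑ j, a i j * bf (A j : Fin (n + 1) → Fin (n + 1) → ℂ)
            (Fin.cons 1 fun k => z i k.succ / z i 0) (Fin.cons 1 fun k => z i k.succ / z i 0) -
            ∑ k : Fin n, (z i k.succ / z i 0) * ∑ j, a i j *
              bf (A j : Fin (n + 1) → Fin (n + 1) → ℂ)
            (Fin.cons 1 fun k => z i k.succ / z i 0) (Pi.single k.succ 1) := by
          simp only [e2, mul_add, Finset.sum_add_distrib, Finset.mul_sum]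
          rw [Finset.sum_comm (s := (Finset.univ : Finset (Fin n)))]
          have : ∀ j (k : Fin n), z i k.succ / z i 0 * (a i j *
              bf (A j : Fin (n + 1) → Fin (n + 1) → ℂ)
              (Fin.cons 1 fun k => z i k.succ / z i 0) (Pi.single k.succ 1)) =
              a i j * (z i k.succ / z i 0 * bf (A j : Fin (n + 1) → Fin (n + 1) → ℂ)
              (Fin.cons 1 fun k => z i k.succ / z i 0) (Pi.single k.succ 1)) := fun j k => by ring
          simp only [this]
          ring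
        rw [e4]
        simp only [v1, v2, mul_zero, Finset.sum_const_zero, sub_zero]
      intro k
      change ∑ j, a i j * bf (A j : Fin (n + 1) → Fin (n + 1) → ℂ) (z i) (Pi.single k 1) = 0
      rw [hz i]
      simp only [bf_smul_left]
      have e : ∀ j, a i j * (z i 0 * bf (A j : Fin (n + 1) → Fin (n + 1) → ℂ)
          (Fin.cons 1 fun k => z i k.succ / z i 0) (Pi.single k 1)) =
          z i 0 * (a i j * bf (A j : Fin (n + 1) → Fin (n + 1) → ℂ)
          (Fin.cons 1 fun k => z i k.succ / z i 0) (Pi.single k 1)) := fun j => by ring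
      simp only [e, ← Finset.mul_sum]
      refine mul_eq_zero_of_right _ ?_
      refine Fin.cases v3 (fun k => v2 k) k
    · change bf (A j : Fin (n + 1) → Fin (n + 1) → ℂ) (y l) (y l) = 0
      rw [hy l, bf_smul_left, bf_smul_right, ← hA1, h3, mul_zero, mul_zero]
  rw [hbot, Submodule.mem_bot] at hmem
  intro j
  refine MvPolynomial.funext fun p => ?_
  rw [hA1, congrFun hmem j, Pi.zero_apply, Submodule.coe_zero, bf_zero, map_zero]

end Pool.Agent.WarR


end

section

/-!
# Property `W` in degree 2 from the kernels   (helper14)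
-/

set_option autoImplicit false

open Module MvPolynomial

namespace Pool.Agent.WarR

open Pool.Agent.War

theorem W_of_KQ {n s h : ℕ} (H : KQ ℂ (n + 1) s h 0 0) : Waring.W 2 h n s := by
  obtain ⟨z, a, y, hK⟩ := H.kill
  exact Waring.W_of_dual z a fun g hg h1 h2 => hK g hg h1 h2 fun i => i.elim0

/-- the expected range without the exceptions -/
def Crit (n s h : ℕ) : Prop :=
  s ≤ h ∧ s * NN n 2 ≤ h * (n + s) ∧ ¬ (s = 3 ∧ Odd n ∧ 2 * h = 3 * n + 1)

theorem two_NN (n : ℕ) : 2 * NN n 2 = (n + 1) * (n + 2) := by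
  unfold NN
  have h1 : (n + 2).choose n = (n + 2).choose 2 := by
    rw [← Nat.choose_symm (show n ≤ n + 2 by omega), Nat.add_sub_cancel_left]
  rw [h1, Nat.choose_two_right]
  have h3 : (n + 2) * (n + 2 - 1) = (n + 1) * (n + 2) := by
    rw [show n + 2 - 1 = n + 1 by omega]; ring
  rw [h3, Nat.mul_div_cancel' ?_]
  have := Nat.even_mul_succ_self (n + 1)
  exact this.two_dvd

/-- **Degree 2.** -/
theorem W_two_of (hyp : ∀ n s h, 2 ≤ n → 3 ≤ s → s < NN n 2 → Crit n s h →
    (∀ h' < h, ¬ Crit n s h') → KQ ℂ (n + 1) s h 0 0) (n s h : ℕ) (hn : 2 ≤ n) (hs : 2 ≤ s) :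
    Waring.W 2 h n s ↔ (min s ((n + 2).choose n) ≤ h ∧ s * (n + 2).choose n ≤ h * (n + s)) ∧
      ¬ (s = 3 ∧ Odd n ∧ 2 * h = 3 * n + 1) := by
  classical
  constructor
  · intro H
    refine ⟨⟨H.bound2, H.bound1 (by omega)⟩, ?_⟩
    rintro ⟨rfl, hodd, hh⟩
    exact WarN.not_W_net hodd (by omega) H
  · rintro ⟨⟨H1, H2⟩, H3⟩
    by_cases hN : (n + 2).choose n ≤ h
    · exact (WarM.W_top s (by omega : 1 ≤ n)).mono hN
    · have hsN : s < NN n 2 := by
        by_contra hle
        push Not at hle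
        exact hN (by rw [min_eq_right hle] at H1; exact H1)
      have hsh : s ≤ h := by
        rw [min_eq_left (show s ≤ (n + 2).choose n from hsN.le)] at H1; exact H1
      rcases Nat.lt_or_ge 2 s with h3 | h3
      · have hex : ∃ h', Crit n s h' := ⟨h, hsh, H2, H3⟩
        have h4 := Nat.find_spec hex
        have h5 : Nat.find hex ≤ h := Nat.find_min' hex ⟨hsh, H2, H3⟩
        exact (W_of_KQ (hyp n s _ hn h3 hsN h4 fun h' hh' => Nat.find_min hex hh')).mono h5
      · have hs2 : s = 2 := by omega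
        subst hs2
        refine WarN.W_pencil h n ?_
        have h4 := two_NN n
        have h5 : (n + 1) * (n + 2) ≤ h * (n + 2) := h4 ▸ H2
        exact Nat.le_of_mul_le_mul_right h5 (by omega)

end Pool.Agent.WarR


end

section

/-!
# Degree 2: from the inputs of the induction to property `W`   (helper9)
-/

set_option autoImplicit false

namespace Pool.Agent.WarR

open Pool.Agent.War

theorem NN_two (n : ℕ) : NN n 2 = NV (n + 1) := by
  have h1 := two_NN n
  have h2 := two_NV (n + 1)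
  have h3 : (n + 1) * (n + 2) = (n + 1) * (n + 1 + 1) := rfl
  omega

theorem Crit.good {n s h : ℕ} (hc : Crit n s h) : Good n s h := by
  rintro ⟨h1, h2⟩
  exact hc.2.2 ⟨h1, ⟨n / 2, by omega⟩, h2⟩

/-- the hypothesis of `W_two_of` from the levels -/
theorem KQ_of_levels (h23 : ∀ n s h, 2 ≤ n → n ≤ 3 → 3 ≤ s → s < NN n 2 → Crit n s h →
      (∀ h' < h, ¬ Crit n s h') → KQ ℂ (n + 1) s h 0 0)
    (hl : ∀ n, 4 ≤ n → LV ℂ n) :
    ∀ n s h, 2 ≤ n → 3 ≤ s → s < NN n 2 → Crit n s h → (∀ h' < h, ¬ Crit n s h') →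
      KQ ℂ (n + 1) s h 0 0 := by
  intro n s h hn hs hN hc hmin
  rcases Nat.lt_or_ge n 4 with h4 | h4
  · exact h23 n s h hn (by omega) hs hN hc hmin
  · rw [NN_two] at hN
    have hc2 := hc.2.1
    rw [NN_two] at hc2
    exact (hl n h4).target h4 (by omega) hN.le hc.1 hc2 hc.good

/-- **Degree 2 from the inputs.** -/
theorem W_two_inputs (HH : HorStmt ℂ)
    (h23 : ∀ n s h, 2 ≤ n → n ≤ 3 → 3 ≤ s → s < NN n 2 → Crit n s h →
      (∀ h' < h, ¬ Crit n s h') → KQ ℂ (n + 1) s h 0 0)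
    (h34 : ∀ n, 4 ≤ n → SS34 ℂ n) (hsmall : ∀ n, 5 ≤ n → n ≤ 31 → Win ℂ n)
    (hlarge : ∀ n, 32 ≤ n → Win ℂ n) (n s h : ℕ) (hn : 2 ≤ n) (hs : 2 ≤ s) :
    Waring.W 2 h n s ↔ (min s ((n + 2).choose n) ≤ h ∧ s * (n + 2).choose n ≤ h * (n + s)) ∧
      ¬ (s = 3 ∧ Odd n ∧ 2 * h = 3 * n + 1) := by
  refine W_two_of (KQ_of_levels h23 (LV.all HH (LV.four (h34 4 le_rfl))
    (fun n hn => h34 n (by omega)) fun n hn => ?_)) n s h hn hs
  rcases Nat.lt_or_ge n 32 with h1 | h1
  · exact hsmall n hn (by omega)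
  · exact hlarge n h1

end Pool.Agent.WarR


end

section

/-!
# Quadratic forms in three and four variables: the base cases of degree 2   (helper96)
-/

set_option autoImplicit false

open Module

namespace Pool.Agent.WarR

open Pool.Agent.War

section

variable {K : Type*} [Field K]

/-- `b + 1` blocks with one form and one full point -/
theorem ones [CharZero K] (n : ℕ) : ∀ b y, NV n ≤ y + b → KQ K (n + 1) (b + 1) (b + 1) y 0 := by
  intro b
  induction b with
  | zero =>
    intro y hy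
    refine (one_one (K := K) n y).mono ?_
    omega
  | succ b ih =>
    intro y hy
    have h1 : KQ K (n + 1) (b + 1) (b + 1) (y + 1) 0 := ih (y + 1) (by omega)
    have h2 : KQ K (n + 1) 1 1 (y + (b + 1)) 0 := (one_one (K := K) n _).mono (by omega)
    simpa using h1.blocks h2

/-- one form, two full points, four variables -/
theorem one_two [CharZero K] (s : ℕ) : KQ K 4 1 2 s (3 - s) := by
  have h0 : KQ K 4 1 2 0 3 := by
    refine ⟨(fun i => if i = 0 then Pi.single 0 1 else Pi.single 1 1, fun _ _ => 1,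
      fun l => l.elim0), ?_⟩
    refine le_trans ?_ (finrank_SF_le (K := K) 2)
    let T : (Fin 1 → SF K 4) →ₗ[K] SF K 2 :=
      { toFun := fun F => ⟨fun i j => (F 0 : Fin 4 → Fin 4 → K) i.succ.succ j.succ.succ,
          fun i j => (F 0).2 _ _⟩
        map_add' := fun _ _ => rfl
        map_smul' := fun _ _ => rfl }
    refine LinearMap.finrank_le_finrank_of_injective (f := T.domRestrict _) ?_
    refine (injective_iff_map_eq_zero _).2 ?_
    rintro ⟨F, hF⟩ hT
    obtain ⟨-, h2, -⟩ := mem_ZK.1 hF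
    apply Subtype.ext
    change F = 0
    have h3 : ∀ k : Fin 4, (F 0 : Fin 4 → Fin 4 → K) 0 k = 0 := by
      intro k
      have := h2 0 (Pi.single k 1)
      simpa [bf_single] using this
    have h4 : ∀ k : Fin 4, (F 0 : Fin 4 → Fin 4 → K) 1 k = 0 := by
      intro k
      have := h2 1 (Pi.single k 1)
      simpa [bf_single] using this
    have h5 : ∀ i j : Fin 2, (F 0 : Fin 4 → Fin 4 → K) i.succ.succ j.succ.succ = 0 := by
      intro i j
      exact congrFun (congrFun (congrArg Subtype.val hT) i) j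
    have hs : ∀ i j : Fin 4, (F 0 : Fin 4 → Fin 4 → K) i j = (F 0 : Fin 4 → Fin 4 → K) j i :=
      fun i j => (F 0).2 i j
    funext l
    obtain rfl : l = 0 := Subsingleton.elim _ _
    apply Subtype.ext
    funext i j
    change (F 0 : Fin 4 → Fin 4 → K) i j = 0
    have a22 := h5 0 0
    have a23 := h5 0 1
    have a32 := h5 1 0
    have a33 := h5 1 1
    change (F 0 : Fin 4 → Fin 4 → K) 2 2 = 0 at a22
    change (F 0 : Fin 4 → Fin 4 → K) 2 3 = 0 at a23
    change (F 0 : Fin 4 → Fin 4 → K) 3 2 = 0 at a32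
    change (F 0 : Fin 4 → Fin 4 → K) 3 3 = 0 at a33
    have b2 := hs 2 0
    have b3 := hs 3 0
    have c2 := hs 2 1
    have c3 := hs 3 1
    rw [h3] at b2 b3
    rw [h4] at c2 c3
    fin_cases i
    · exact h3 j
    · exact h4 j
    · fin_cases j <;> assumption
    · fin_cases j <;> assumption
  simpa using h0.add_simple s

/-- four variables -/
theorem four_vars [CharZero K] :
    KQ K 4 3 6 0 0 ∧ KQ K 4 4 6 0 0 ∧ KQ K 4 5 7 0 0 ∧ KQ K 4 6 7 0 0 := by
  have p4 : ∀ y, KQ K 4 2 4 y 0 := fun y =>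
    (pencil (K := K) (m := 4) (x := 4) (by omega) (by omega) y).mono (by omega)
  have p3 : ∀ y, 3 ≤ y → KQ K 4 2 3 y 0 := fun y hy =>
    (pencil (K := K) (m := 4) (x := 3) (by omega) (by omega) y).mono (by omega)
  have p2 : ∀ y, 5 ≤ y → KQ K 4 2 2 y 0 := fun y hy =>
    (pencil (K := K) (m := 4) (x := 2) (by omega) (by omega) y).mono (by omega)
  have q2 : ∀ y, 3 ≤ y → KQ K 4 1 2 y 0 := fun y hy => (one_two (K := K) y).mono (by omega)
  have N3 : NV 3 = 6 := rfl
  have q1 : ∀ y, 6 ≤ y → KQ K 4 1 1 y 0 := fun y hy =>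
    (one_one (K := K) 3 y).mono (by omega)
  refine ⟨?_, ?_, ?_, ?_⟩
  · exact KQ.blocks (b1 := 2) (b2 := 1) (x1 := 4) (x2 := 2) (y := 0) (r1 := 0) (r2 := 0)
      (p4 _) (q2 _ (by omega))
  · exact KQ.blocks (b1 := 2) (b2 := 2) (x1 := 3) (x2 := 3) (y := 0) (r1 := 0) (r2 := 0)
      (p3 _ (by omega)) (p3 _ (by omega))
  · exact KQ.blocks (b1 := 4) (b2 := 1) (x1 := 6) (x2 := 1) (y := 0) (r1 := 0) (r2 := 0)
      (KQ.blocks (b1 := 2) (b2 := 2) (x1 := 3) (x2 := 3) (y := 1) (r1 := 0) (r2 := 0)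
        (p3 _ (by omega)) (p3 _ (by omega))) (q1 _ (by omega))
  · exact KQ.blocks (b1 := 4) (b2 := 2) (x1 := 4) (x2 := 3) (y := 0) (r1 := 0) (r2 := 0)
      (KQ.blocks (b1 := 2) (b2 := 2) (x1 := 2) (x2 := 2) (y := 3) (r1 := 0) (r2 := 0)
        (p2 _ (by omega)) (p2 _ (by omega))) (p3 _ (by omega))

/-- three variables -/
theorem three_vars [CharZero K] : KQ K 3 3 4 0 0 := by
  have N2 : NV 2 = 3 := rfl
  exact KQ.blocks (b1 := 2) (b2 := 1) (x1 := 3) (x2 := 1) (y := 0) (r1 := 0) (r2 := 0)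
    ((pencil (K := K) (m := 3) (x := 3) (by omega) (by omega) _).mono (by omega))
    ((one_one (K := K) 2 _).mono (by omega))

end

/-- **The base cases `n = 2`, `n = 3` of degree 2.** -/
theorem KQ_small : ∀ n s h, 2 ≤ n → n ≤ 3 → 3 ≤ s → s < NN n 2 → Crit n s h →
    (∀ h' < h, ¬ Crit n s h') → KQ ℂ (n + 1) s h 0 0 := by
  intro n s h hn hn3 hs hsN hc _
  obtain ⟨h1, h2, h3⟩ := hc
  have N2 : NV 2 = 3 := rfl
  have N3 : NV 3 = 6 := rfl
  have key : ∀ h0, h0 ≤ h → KQ ℂ (n + 1) s h0 0 0 → KQ ℂ (n + 1) s h 0 0 := by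
    intro h0 hh k
    obtain ⟨t, rfl⟩ := Nat.exists_eq_add_of_le hh
    exact k.more_full t
  have hn' : n = 2 ∨ n = 3 := by omega
  rcases hn' with rfl | rfl
  · have e := two_NN 2
    have e1 : NN 2 2 = 6 := by omega
    rw [e1] at hsN h2
    have hs' : s = 3 ∨ s = 4 ∨ s = 5 := by omega
    rcases hs' with rfl | rfl | rfl
    · exact key 4 (by omega) three_vars
    · exact key 4 h1 (ones 2 3 0 (by omega))
    · exact key 5 h1 (ones 2 4 0 (by omega))
  · have e := two_NN 3
    have e1 : NN 3 2 = 10 := by omega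
    rw [e1] at hsN h2
    obtain ⟨f3, f4, f5, f6⟩ := four_vars (K := ℂ)
    have hs' : s = 3 ∨ s = 4 ∨ s = 5 ∨ s = 6 ∨ s = 7 ∨ s = 8 ∨ s = 9 := by omega
    rcases hs' with rfl | rfl | rfl | rfl | rfl | rfl | rfl
    · refine key 6 ?_ f3
      by_contra hcon
      refine h3 ⟨rfl, ⟨1, rfl⟩, ?_⟩
      omega
    · exact key 6 (by omega) f4
    · exact key 7 (by omega) f5
    · exact key 7 (by omega) f6
    · exact key 7 h1 (ones 3 6 0 (by omega))
    · exact key 8 h1 (ones 3 7 0 (by omega))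
    · exact key 9 h1 (ones 3 8 0 (by omega))

end Pool.Agent.WarR


end
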