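import Mathlib
import Pool.Agent.CLAM.C11
import Pool.Agent.CLAM.C12
import Pool.Agent.CLAM.C13
import Pool.Agent.CLAM.C14
import Pool.Agent.CLAM.C15
import Pool.Agent.CLAM.C16
import Pool.Agent.CLAM.C17
import Pool.Agent.CLAM.C19
import Pool.Agent.CLAM.C20
import Pool.Agent.CLAM.C21
import Pool.Agent.CLAM.C23
import Pool.Agent.CLAM.C25

/-! Parts: WarR.SeedAll, WarR.Final2 -/

section

/-!
# All the seeds of the small windows (MP_db021c_ag, degree 2)   (collection: helper9)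

The proofs are in `SdA` ... `SdD` (helper42) and `SdTA` ... (helper31).
-/

set_option autoImplicit false
set_option maxRecDepth 10000

namespace Pool.Agent.WarR

theorem seedAll {K : Type*} [Field K] [CharZero K] : SeedH K :=
  List.forall_iff_forall_mem.1 (show List.Forall _ seedL from
    ⟨sd_5_5_9_3, sd_5_6_11_1, sd_6_5_11_4, sd_6_6_13_2, sd_6_7_13_4, sd_6_7_15_0,
      sd_7_5_13_5 K, sd_7_5_14_3 K, sd_7_5_14_2 K, sd_7_7_16_4, sd_7_7_17_2, sd_7_7_18_0 K,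
      sd_7_8_17_4, sd_8_6_17_5 K, sd_8_6_19_1 K, sd_8_7_20_2 K, sd_8_8_21_3 K, sd_9_7_22_5 K,
      sd_9_7_24_0 K, sd_9_8_23_6 K, sd_9_8_25_2, sd_9_9_25_5 K, sd_9_9_26_3 K, sd_9_10_29_0 K,
      sd_10_7_27_0 K, sd_10_9_28_7, sd_10_10_29_8 K, sd_10_10_31_4, sd_10_10_33_0,
      sd_10_11_32_5 K, sd_10_11_34_1, sd_11_8_31_4 K, sd_11_8_33_0 K, sd_11_9_32_7 K,
      sd_11_9_35_0 K, sd_11_11_35_8, sd_11_11_36_6, sd_11_11_37_4, sd_11_11_38_2 K,
      sd_11_11_39_0 K, sd_11_12_37_7, sd_12_8_33_9 K, sd_12_9_37_5 K, sd_12_10_39_5 K,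
      sd_12_10_41_1 K, sd_12_11_43_1 K, sd_12_12_41_9, sd_12_12_43_5 K, sd_13_9_40_7 K,
      sd_13_10_43_6 K, sd_13_11_45_7 K, sd_13_12_47_7 K, sd_13_12_49_3, sd_13_13_48_9 K,
      sd_13_13_49_7 K, sd_13_13_50_5 K, sd_13_13_51_3 K, sd_14_10_49_2 K, sd_14_13_53_10,
      sd_14_14_55_10 K, sd_14_14_57_6, sd_14_14_59_2, sd_14_15_59_6 K, sd_14_15_61_2,
      sd_15_11_54_8 K, sd_15_11_56_4 K, sd_15_12_59_3 K, sd_15_13_58_11 K, sd_15_13_59_9 K,
      sd_15_15_64_8, sd_15_15_67_2 K, sd_15_15_68_0 K, sd_15_16_65_10, sd_16_12_61_11 K,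
      sd_16_13_64_10 K, sd_16_13_66_6 K, sd_16_14_69_5 K, sd_16_14_71_1 K, sd_16_15_74_0 K,
      sd_16_16_71_11 K, sd_16_16_73_7 K, sd_16_16_75_3 K, sd_17_15_76_9 K, sd_17_16_79_8 K,
      sd_17_16_81_4 K, sd_17_17_79_13 K, sd_17_17_80_11 K, sd_17_17_81_9 K, sd_17_17_82_7 K,
      sd_17_17_83_5 K, sd_17_17_84_3 K, sd_18_17_86_13, sd_18_18_89_12 K, sd_18_18_91_8,
      sd_18_18_95_0 K, sd_18_19_94_7 K, sd_18_19_96_3, sd_19_15_89_8 K, sd_19_16_95_2 K,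
      sd_19_17_93_13 K, sd_19_17_94_11 K, sd_19_19_98_14, sd_19_19_99_12 K, sd_19_19_100_10 K,
      sd_19_19_101_8 K, sd_19_19_102_6 K, sd_19_19_103_4 K, sd_19_19_104_2 K, sd_19_19_105_0 K,
      sd_19_20_101_13, sd_20_16_97_13 K, sd_20_17_101_11 K, sd_20_17_103_7 K, sd_20_18_107_5 K,
      sd_20_18_109_1 K, sd_20_20_109_13 K, sd_20_20_111_9 K, sd_21_19_113_15 K,
      sd_21_19_115_11 K, sd_21_20_119_9 K, sd_21_20_121_5 K, sd_21_21_122_9 K, sd_21_21_124_5 K,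
      sd_21_21_125_3 K, sd_22_21_127_16 K, sd_22_22_131_14 K, sd_22_22_133_10 K,
      sd_22_23_137_8 K, sd_22_23_139_4 K, sd_23_23_142_16 K, sd_23_23_143_14 K,
      sd_23_23_144_12 K, sd_23_23_145_10 K, sd_23_23_146_8 K, sd_23_23_147_6 K,
      sd_23_23_148_4 K, sd_23_23_149_2 K, sd_23_24_145_16, sd_24_24_155_15 K, sd_25_23_160_17 K,
      sd_25_24_167_10 K, sd_25_25_173_5 K, sd_25_25_174_3 K, sd_26_25_176_19 K,
      sd_26_26_179_20 K, sd_26_26_181_16 K, sd_26_26_183_12 K, sd_26_27_188_9 K,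
      sd_26_27_190_5 K, sd_27_28_197_19 K, sd_31_32_257_22 K⟩)

end Pool.Agent.WarR


end

section

/-!
# Degree 2: the final theorem (MP_db021c_ag)   (helper9)
-/

set_option autoImplicit false

namespace Pool.Agent.WarR

open Pool.Agent.War

/-- the step of the induction, over every field of characteristic `0` -/
theorem horStmtK {K : Type*} [Field K] [CharZero K] : HorStmt K :=
  fun _ _ _ _ _ _ _ h1 h2 h3 h4 h5 h6 h7 => HORK h1 h2 h3 h4 h5 h6 h7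

/-- all windows -/
theorem win_all {K : Type*} [Field K] [CharZero K] {n : ℕ} (hn : 5 ≤ n) : Win K n := by
  rcases Nat.lt_or_ge n 32 with h | h
  · exact Win_small seedAll n hn (by omega)
  · exact Win_large h

/-- **All levels**: for `n ≥ 4`, `2 ≤ b ≤ n + 1` quadratic forms in `n + 1` variables have the
expected kernels for all numbers of full and simple points, except `b = 3`, `n` odd,
`x = (3 n + 1) / 2`. -/
theorem levels {K : Type*} [Field K] [CharZero K] : ∀ n, 4 ≤ n → LV K n :=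
  LV.all horStmtK (LV.four (ss34 le_rfl)) (fun n hn => ss34 (by omega)) fun n hn => win_all hn

/-- the hypothesis of `W_two_of` -/
theorem KQ_all : ∀ n s h, 2 ≤ n → 3 ≤ s → s < NN n 2 → Crit n s h →
    (∀ h' < h, ¬ Crit n s h') → KQ ℂ (n + 1) s h 0 0 :=
  KQ_of_levels KQ_small levels

/-- **Degree 2.** -/
theorem W_two (n s h : ℕ) (hn : 2 ≤ n) (hs : 2 ≤ s) :
    Waring.W 2 h n s ↔ (min s ((n + 2).choose n) ≤ h ∧ s * (n + 2).choose n ≤ h * (n + s)) ∧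
      ¬ (s = 3 ∧ Odd n ∧ 2 * h = 3 * n + 1) :=
  W_two_of KQ_all n s h hn hs

end Pool.Agent.WarR


end
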