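import Mathlib
import Pool.Agent.CLAM.C02
import Pool.Agent.CLAM.C07
import Pool.Agent.CLAM.C08
import Pool.Agent.CLAM.C09
import Pool.Agent.CLAM.C10
import Pool.Agent.CLAM.C24

/-! Parts: WarQ.LH, WarC.NUMFb, War5.DR, WarC.LIN3, War5.AK, War5.CF, War5.HD5, WarD.Stmts2, WarD.DHB, WarD.FEWB, WarD.Dat, WarD.Q4, WarD.NumG -/

section

/-!
# Simultaneous Waring decompositions (MP_db021c_ag): points on the hyperplane   (helper50)

Cubics in the variables `Fin δ ⊕ Fin K` which vanish on `{y = 0}`.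
-/

set_option autoImplicit false

open Module MvPolynomial
open Pool.Agent.War

namespace Pool.Agent.WarQ

namespace LHaux

theorem resL_surjective (n d : ℕ) : Function.Surjective (resL n d) := by
  intro f
  refine ⟨⟨rename Fin.succ (f : MvPolynomial (Fin n) ℂ),
    mem_Pol.2 ((totalDegree_rename_le _ _).trans (mem_Pol.1 f.2))⟩, ?_⟩
  apply Subtype.ext
  rw [resL_coe]
  have h : ∀ g : MvPolynomial (Fin n) ℂ, res n (rename Fin.succ g) = g := by
    intro g
    rw [res, aeval_rename]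
    have e : ((Fin.cons 0 X : Fin (n + 1) → MvPolynomial (Fin n) ℂ) ∘ Fin.succ) = X := by
      funext i
      simp
    rw [e, aeval_X_left, AlgHom.id_apply]
  exact h _

theorem finrank_Pol_ge (n : ℕ) : ∀ d, NN n d ≤ finrank ℂ (Pol n d) := by
  have hpos : ∀ m d : ℕ, 1 ≤ finrank ℂ (Pol m d) := by
    intro m d
    have : Nontrivial (Pol m d) := by
      refine ⟨⟨⟨C 1, mem_Pol.2 (by simp)⟩, 0, fun h => ?_⟩⟩
      have := congrArg Subtype.val h
      simp at this
    exact Module.finrank_pos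
  induction n with
  | zero =>
    intro d
    rw [NN_zero_left]
    exact hpos 0 d
  | succ n ihn =>
    intro d
    induction d with
    | zero =>
      rw [NN_zero_right]
      exact hpos _ _
    | succ d ihd =>
      have h := (resL n (d + 1)).finrank_range_add_finrank_ker
      rw [LinearMap.range_eq_top.2 (resL_surjective n (d + 1)), finrank_top, ker_resL] at h
      have h1 : finrank ℂ (LinearMap.range (mulX n d)) = finrank ℂ (Pol (n + 1) d) :=
        LinearMap.finrank_range_of_inj (mulX_injective n d)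
      have h3 := ihn (d + 1)
      rw [NN_succ]
      omega

variable (δ K : ℕ)

/-- cubics -/
noncomputable abbrev V : Submodule ℂ (MvPolynomial (Fin δ ⊕ Fin K) ℂ) :=
  restrictTotalDegree (Fin δ ⊕ Fin K) ℂ 3

/-- change of the names of the variables -/
noncomputable def nam : V δ K →ₗ[ℂ] Pol (δ + K) 3 :=
  (rename (finSumFinEquiv : Fin δ ⊕ Fin K ≃ Fin (δ + K)) :
    MvPolynomial (Fin δ ⊕ Fin K) ℂ →ₐ[ℂ] MvPolynomial (Fin (δ + K)) ℂ).toLinearMap.restrict
    fun _ hf => mem_Pol.2 ((totalDegree_rename_le _ _).trans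
      ((mem_restrictTotalDegree _ _ _).1 hf))

theorem nam_injective : Function.Injective (nam δ K) := by
  intro f g h
  have h1 : rename (finSumFinEquiv : Fin δ ⊕ Fin K ≃ Fin (δ + K))
      (f : MvPolynomial (Fin δ ⊕ Fin K) ℂ) =
    rename (finSumFinEquiv : Fin δ ⊕ Fin K ≃ Fin (δ + K))
      (g : MvPolynomial (Fin δ ⊕ Fin K) ℂ) := congrArg Subtype.val h
  exact Subtype.ext (rename_injective _ finSumFinEquiv.injective h1)

instance : FiniteDimensional ℂ (V δ K) := FiniteDimensional.of_injective _ (nam_injective δ K)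

theorem finrank_V : finrank ℂ (V δ K) ≤ NN (δ + K) 3 :=
  (LinearMap.finrank_le_finrank_of_injective (nam_injective δ K)).trans (finrank_Pol_le _ _)

/-- restriction to `{y = 0}` -/
noncomputable def rho : V δ K →ₗ[ℂ] MvPolynomial (Fin δ) ℂ :=
  (aeval (Sum.elim X 0 : Fin δ ⊕ Fin K → MvPolynomial (Fin δ) ℂ)).toLinearMap.comp
    (V δ K).subtype

theorem eval_rho (f : V δ K) (x : Fin δ → ℂ) :
    eval x (rho δ K f) = eval (Sum.elim x 0) (f : MvPolynomial (Fin δ ⊕ Fin K) ℂ) := by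
  change eval x (aeval (Sum.elim X 0 : Fin δ ⊕ Fin K → MvPolynomial (Fin δ) ℂ)
    (f : MvPolynomial (Fin δ ⊕ Fin K) ℂ)) = _
  generalize (f : MvPolynomial (Fin δ ⊕ Fin K) ℂ) = g
  induction g using MvPolynomial.induction_on with
  | C a => simp
  | add p q hp hq => rw [map_add, map_add, map_add, hp, hq]
  | mul_X p k hp =>
    rw [map_mul, map_mul, map_mul, hp]
    rcases k with k | k
    · simp
    · simp

theorem finrank_range : NN δ 3 ≤ finrank ℂ (LinearMap.range (rho δ K)) := by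
  refine (finrank_Pol_ge δ 3).trans (Submodule.finrank_mono ?_)
  intro f hf
  refine ⟨⟨rename Sum.inl f, (mem_restrictTotalDegree _ _ _).2
    ((totalDegree_rename_le _ _).trans (mem_Pol.1 hf))⟩, ?_⟩
  change aeval (Sum.elim X 0 : Fin δ ⊕ Fin K → MvPolynomial (Fin δ) ℂ) (rename Sum.inl f) = f
  rw [aeval_rename]
  have e : ((Sum.elim X 0 : Fin δ ⊕ Fin K → MvPolynomial (Fin δ) ℂ) ∘ Sum.inl) = X := by
    funext i
    simp
  rw [e, aeval_X_left, AlgHom.id_apply]

theorem finrank_ker : finrank ℂ (LinearMap.ker (rho δ K)) ≤ NN (δ + K) 3 - NN δ 3 := by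
  have h1 := (rho δ K).finrank_range_add_finrank_ker
  have h2 := finrank_V δ K
  have h3 := finrank_range δ K
  omega

/-- evaluation at a point -/
noncomputable def evq (p : Fin δ ⊕ Fin K → ℂ) : V δ K →ₗ[ℂ] ℂ :=
  (MvPolynomial.aeval p : MvPolynomial (Fin δ ⊕ Fin K) ℂ →ₐ[ℂ] ℂ).toLinearMap.comp
    (V δ K).subtype

theorem evq_apply (p : Fin δ ⊕ Fin K → ℂ) (f : V δ K) :
    evq δ K p f = eval p (f : MvPolynomial (Fin δ ⊕ Fin K) ℂ) := by
  simp [evq, MvPolynomial.aeval_eq_eval]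

end LHaux

open _root_.Pool.Agent.WarQ.LHaux

theorem x_LH : S_LH := by
  intro δ K
  obtain ⟨y, hy⟩ := red (fun p => evq δ K p) (LinearMap.ker (rho δ K)) ⊥ (by
    intro w _ hw
    by_contra hcon
    push Not at hcon
    apply hw
    rw [Submodule.mem_bot]
    apply Subtype.ext
    refine MvPolynomial.funext fun p => ?_
    rw [← evq_apply, hcon p]
    simp) (NN (δ + K) 3 - NN δ 3)
  refine ⟨y, fun h hh h1 h2 => ?_⟩
  have h3 : finrank ℂ ↥(LinearMap.ker (rho δ K) ⊓ ⨅ i, LinearMap.ker (evq δ K (y i))) = 0 := by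
    have h4 := finrank_ker δ K
    have h5 : finrank ℂ (⊥ : Submodule ℂ (V δ K)) = 0 := finrank_bot _ _
    rw [h5] at hy
    omega
  have h6 := Submodule.finrank_eq_zero.1 h3
  have h7 : (⟨h, (mem_restrictTotalDegree _ _ _).2 hh⟩ : V δ K) ∈
      LinearMap.ker (rho δ K) ⊓ ⨅ i, LinearMap.ker (evq δ K (y i)) := by
    refine ⟨?_, (Submodule.mem_iInf _).2 fun i => ?_⟩
    · rw [SetLike.mem_coe, LinearMap.mem_ker]
      refine MvPolynomial.funext fun x => ?_
      rw [eval_rho, map_zero]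
      exact h1 x
    · rw [LinearMap.mem_ker, evq_apply]
      exact h2 i
  rw [h6, Submodule.mem_bot] at h7
  exact congrArg Subtype.val h7

end Pool.Agent.WarQ


end

section

/-!
# The numbers of the Horace step, large `m`   (helper55)
-/

set_option autoImplicit false

open Module MvPolynomial
open Pool.Agent.War Pool.Agent.WarS Pool.Agent.WarQ

namespace Pool.Agent.WarC

namespace NUMFbaux

/-- the first inequality -/
theorem polA {m s : ℤ} (hs : 4 ≤ s) (hsm : s ≤ m) (hm : 45 ≤ m) :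
    6 * ((m + s - 1) ^ 2 + (m + s) * (m + s - 2) ^ 2 + (m + s) * (m + s - 1) * (2 * s - 1) + 1) ≤
      s * ((m + 1) * (m + 2) * (2 * m + 3 * s - 3)) := by
  obtain ⟨b, rfl⟩ : ∃ b, s = 4 + b := ⟨s - 4, by ring⟩
  have hb : 0 ≤ b := by linarith
  have hbm : b ≤ m - 4 := by linarith
  obtain ⟨a, rfl⟩ : ∃ a, m = 45 + a := ⟨m - 45, by ring⟩
  have ha : 0 ≤ a := by linarith
  have h1 : 0 ≤ b * b * (a + 41 - b) := by
    have : 0 ≤ a + 41 - b := by linarith
    positivity
  nlinarith [mul_nonneg ha hb, mul_nonneg (mul_nonneg ha ha) hb, mul_nonneg (mul_nonneg ha hb) hb,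
    mul_nonneg (mul_nonneg (mul_nonneg ha ha) ha) hb, mul_nonneg (mul_nonneg ha hb) (mul_nonneg ha hb),
    mul_nonneg ha ha, mul_nonneg hb hb, mul_nonneg (mul_nonneg ha ha) ha]

/-- the second inequality -/
theorem polB {m s : ℤ} (hs : 4 ≤ s) (hsm : s ≤ m) (hm : 45 ≤ m) :
    s * ((m + 1) * (m + 2) * (2 * m + 3 * s - 3)) + 6 * (m + s - 1) ^ 2 +
      6 * ((m + s) * (m + s - 2)) ≤ 3 * ((m + s) * (m + s - 1)) * (s * (m - 1)) := by
  obtain ⟨b, rfl⟩ : ∃ b, s = 4 + b := ⟨s - 4, by ring⟩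
  have hb : 0 ≤ b := by linarith
  have hbm : b ≤ m - 4 := by linarith
  obtain ⟨a, rfl⟩ : ∃ a, m = 45 + a := ⟨m - 45, by ring⟩
  have ha : 0 ≤ a := by linarith
  have h1 : 0 ≤ b * b * (a + 41 - b) := by
    have : 0 ≤ a + 41 - b := by linarith
    positivity
  nlinarith [mul_nonneg ha hb, mul_nonneg (mul_nonneg ha ha) hb, mul_nonneg (mul_nonneg ha hb) hb,
    mul_nonneg (mul_nonneg (mul_nonneg ha ha) ha) hb, mul_nonneg (mul_nonneg ha hb) (mul_nonneg ha hb),
    mul_nonneg ha ha, mul_nonneg hb hb, mul_nonneg (mul_nonneg ha ha) ha,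
    mul_nonneg (mul_nonneg hb hb) hb, mul_nonneg (mul_nonneg (mul_nonneg hb hb) hb) ha]

/-- the third inequality -/
theorem polC {m s : ℤ} (hs : 4 ≤ s) (hsm : s ≤ m) (hm : 45 ≤ m) :
    6 * (m + s - 1) ^ 2 + 6 * ((m + s) * (m + s - 2)) + 6 * ((m + s - 1) * (m * s)) ≤
      s * (m * (m + 1) * (m + 2)) := by
  have h1 : (m + s) * (m + s - 2) ≤ (m + s - 1) ^ 2 := by nlinarith
  have h2 : m + s - 1 ≤ 2 * m := by linarith
  have h3 : (m + s - 1) ^ 2 ≤ (2 * m) ^ 2 := pow_le_pow_left₀ (by linarith) h2 2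
  have h4 : (m + s - 1) * (m * s) ≤ 2 * m * (m * s) :=
    mul_le_mul_of_nonneg_right h2 (by positivity)
  have h5 : 0 ≤ s * (m * m) := by positivity
  have h6 : 45 * (s * (m * m)) ≤ m * (s * (m * m)) := mul_le_mul_of_nonneg_right hm h5
  have h7 : 4 * (m * m) ≤ s * (m * m) := mul_le_mul_of_nonneg_right hs (by positivity)
  nlinarith

end NUMFbaux

open _root_.Pool.Agent.WarC.NUMFbaux in
theorem x_NUMFb : S_NUMFb := by
  intro m s h hs hsm hm hh
  have hN3 := WarM.NN_three m
  have hM3 : 6 * NN (m - 1) 3 = m * (m + 1) * (m + 2) := by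
    have h := WarM.NN_three (m - 1)
    have e : m - 1 + 1 = m := by omega
    have e2 : m - 1 + 2 = m + 1 := by omega
    have e3 : m - 1 + 3 = m + 2 := by omega
    rw [e, e2, e3] at h
    exact h
  unfold NF
  generalize NN m 3 = N at hN3 hh
  generalize NN (m - 1) 3 = M at hM3
  obtain ⟨Q, hQ⟩ : ∃ Q, Q = (m + 1) * (m + 2) / 2 := ⟨_, rfl⟩
  have hQ2 : 2 * Q = (m + 1) * (m + 2) := by
    rw [hQ]
    have : 2 ∣ (m + 1) * (m + 2) := (Nat.even_mul_succ_self (m + 1)).two_dvd
    omega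
  have hNM : N = M + Q := by
    have : 6 * N = 6 * (M + Q) := by
      rw [hN3]
      have e : 6 * (M + Q) = 6 * M + 3 * (2 * Q) := by ring
      rw [e, hM3, hQ2]
      ring
    omega
  obtain ⟨k, hk⟩ : ∃ k, k + 1 = m + s := ⟨m + s - 1, by omega⟩
  have ek : m - 1 + s = k := by omega
  rw [ek]
  -- bounds for `h`
  have hh1 : (m + s) * h + 0 ≤ s * N + (m + s - 1) ∧ s * N ≤ (m + s) * h + (m + s - 1) := by
    have hpos : 0 < m + s := by omega
    rcases hh with rfl | rfl
    · have h1 := Nat.div_add_mod (s * N) (m + s)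
      have h2 := Nat.mod_lt (s * N) hpos
      constructor <;> omega
    · have h1 := Nat.div_add_mod (s * N + (m + s - 1)) (m + s)
      have h2 := Nat.mod_lt (s * N + (m + s - 1)) hpos
      constructor <;> omega
  obtain ⟨U, hU⟩ : ∃ U, U = s * M / k := ⟨_, rfl⟩
  obtain ⟨Y, hY⟩ : ∃ Y, Y = s * M % k := ⟨_, rfl⟩
  have hUY : k * U + Y = s * M := by rw [hU, hY]; exact Nat.div_add_mod _ _
  have hYk : Y < k := by rw [hY]; exact Nat.mod_lt _ (by omega)
  rw [← hk] at hh1
  have hk' : k + 1 - 1 = k := by omega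
  rw [hk'] at hh1
  obtain ⟨hh1, hh2⟩ := hh1
  -- integers
  have hsZ : (4 : ℤ) ≤ s := by exact_mod_cast hs
  have hsmZ : (s : ℤ) ≤ m := by exact_mod_cast hsm
  have hmZ : (45 : ℤ) ≤ m := by exact_mod_cast hm
  have hA := polA hsZ hsmZ hmZ
  have hB := polB hsZ hsmZ hmZ
  have hC := polC hsZ hsmZ hmZ
  have hkZ : (k : ℤ) = m + s - 1 := by
    have : (k : ℤ) + 1 = m + s := by exact_mod_cast hk
    linarith
  have hk1 : (m : ℤ) + s = k + 1 := by linarith
  have hMZ : (6 : ℤ) * M = m * (m + 1) * (m + 2) := by exact_mod_cast hM3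
  have hQZ : (2 : ℤ) * Q = (m + 1) * (m + 2) := by exact_mod_cast hQ2
  have hNZ : (N : ℤ) = M + Q := by exact_mod_cast hNM
  have hh1Z : ((k : ℤ) + 1) * h ≤ s * N + k := by exact_mod_cast hh1
  have hh2Z : (s : ℤ) * N ≤ (k + 1) * h + k := by exact_mod_cast hh2
  have hUZ : (k : ℤ) * U + Y = s * M := by exact_mod_cast hUY
  have hYZ : (Y : ℤ) + 1 ≤ k := by exact_mod_cast hYk
  have hY0 : (0 : ℤ) ≤ Y := by positivity
  have hk0 : (0 : ℤ) < k := by linarith
  obtain ⟨S, hS⟩ : ∃ S : ℤ, S = s * (k * Q - M) := ⟨_, rfl⟩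
  have hS6 : 6 * S = s * ((m + 1) * (m + 2) * (2 * m + 3 * s - 3)) := by
    have e : 6 * S = s * (3 * k * (2 * Q) - 6 * M) := by rw [hS]; ring
    rw [e, hQZ, hMZ, hkZ]
    ring
  -- `(k+1) k (h - U)`
  have hT1 : ((k : ℤ) + 1) * k * (h - U) ≤ S + k ^ 2 + (k + 1) * Y := by
    have h1 : (k : ℤ) * ((k + 1) * h) ≤ k * (s * N + k) := mul_le_mul_of_nonneg_left hh1Z hk0.le
    have e : ((k : ℤ) + 1) * k * (h - U) = k * ((k + 1) * h) - (k + 1) * (k * U) := by ring
    have e2 : (k : ℤ) * U = s * M - Y := by linarith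
    rw [e, e2, hS]
    rw [hNZ] at h1
    linarith
  have hT2 : S - k ^ 2 + (k + 1) * Y ≤ ((k : ℤ) + 1) * k * (h - U) := by
    have h1 : (k : ℤ) * (s * N - k) ≤ k * ((k + 1) * h) :=
      mul_le_mul_of_nonneg_left (by linarith) hk0.le
    have e : ((k : ℤ) + 1) * k * (h - U) = k * ((k + 1) * h) - (k + 1) * (k * U) := by ring
    have e2 : (k : ℤ) * U = s * M - Y := by linarith
    rw [e, e2, hS]
    rw [hNZ] at h1
    linarith
  have hkk : (0 : ℤ) < (k + 1) * k := by positivity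
  -- `2 s ≤ P`
  have hP : (2 * s : ℤ) ≤ h - U - Y := by
    by_contra hcon
    push Not at hcon
    have h1 : (h : ℤ) - U - Y ≤ 2 * s - 1 := by linarith
    have h2 := mul_le_mul_of_nonneg_left h1 hkk.le
    have h3 : ((k : ℤ) + 1) * (k - 1) * Y ≤ (k + 1) * (k - 1) * (k - 1) :=
      mul_le_mul_of_nonneg_left (by linarith) (by
        have : (0 : ℤ) ≤ k - 1 := by linarith
        positivity)
    rw [hk1] at hA
    rw [← hS6] at hA
    linarith
  have hPN : U + Y + 2 * s ≤ h := by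
    have : (U : ℤ) + Y + 2 * s ≤ h := by linarith
    exact_mod_cast this
  obtain ⟨P, hPe⟩ : ∃ P, h = U + Y + P := ⟨h - U - Y, by omega⟩
  have hPs : 2 * s ≤ P := by omega
  obtain ⟨T, hTe⟩ : ∃ T, T = P + Y := ⟨_, rfl⟩
  have hTZ : (h : ℤ) - U = T := by
    rw [hPe, hTe]
    push_cast
    ring
  rw [hTZ] at hT1 hT2
  have hT3 : ((k : ℤ) + 1) * k * T ≤ S + k ^ 2 + (k + 1) * (k - 1) := by
    have : ((k : ℤ) + 1) * Y ≤ (k + 1) * (k - 1) :=
      mul_le_mul_of_nonneg_left (by linarith) (by positivity)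
    linarith
  -- `2 T ≤ s (m - 1)`
  have hTB : 2 * (T : ℤ) ≤ s * (m - 1) := by
    by_contra hcon
    push Not at hcon
    have h1 : ((k : ℤ) + 1) * k * (s * (m - 1)) < (k + 1) * k * (2 * T) :=
      mul_lt_mul_of_pos_left hcon hkk
    rw [hk1, ← hS6] at hB
    linarith
  have hTC : ((k : ℤ) + 1) * T + m * s ≤ s * Q := by
    by_contra hcon
    push Not at hcon
    have h1 : (k : ℤ) * (s * Q) < k * ((k + 1) * T + m * s) := mul_lt_mul_of_pos_left hcon hk0
    rw [hk1, ← hMZ] at hC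
    linarith
  -- the quotient
  obtain ⟨t, ht⟩ : ∃ t, t = T / s := ⟨_, rfl⟩
  have hs0 : 0 < s := by omega
  have hts : s * t ≤ T := by rw [ht]; exact Nat.mul_div_le _ _
  have hTBN : 2 * T + s ≤ s * m := by
    have : 2 * (T : ℤ) + s ≤ s * m := by linarith
    exact_mod_cast this
  have hTCN : (m + s) * T + m * s ≤ s * Q := by
    rw [← hk]
    exact_mod_cast hTC
  have ht1 : 2 * t + 1 ≤ m := by
    by_contra hcon
    push Not at hcon
    have h1 : s * m ≤ s * (2 * t) := Nat.mul_le_mul_left _ (by omega)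
    linarith
  have ht2 : m * (t + 1) + T ≤ Q := by
    have h1 : s * (m * (t + 1) + T) ≤ s * Q := by
      have e : s * (m * (t + 1) + T) = m * (s * t) + m * s + s * T := by ring
      have h2 : m * (s * t) ≤ m * T := Nat.mul_le_mul_left _ hts
      linarith
    exact Nat.le_of_mul_le_mul_left h1 hs0
  refine ⟨U, Y, P, hUY, by omega, ?_⟩
  unfold NC
  rw [← hTe, ← hQ, ← ht]
  refine ⟨by omega, Or.inr ?_, Or.inr (Or.inr ht1), Or.inr (Or.inr ⟨ht2, ?_⟩)⟩
  · rw [ht, hTe]
    have h1 : Y + 2 * s ≤ P + Y := by omega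
    have h2 : (Y + 2 * s) / s ≤ (P + Y) / s := Nat.div_le_div_right h1
    have h3 : (Y + 2 * s) / s = Y / s + 2 := by
      rw [Nat.add_mul_div_right _ _ hs0]
    omega
  · linarith

end Pool.Agent.WarC


end

section

/-!
# Simultaneous Waring decompositions: one more double point   (helper82)
-/

set_option autoImplicit false

open Module MvPolynomial
open Pool.Agent.War Pool.Agent.WarS

namespace Pool.Agent.War5

namespace DRaux

/-- restriction to the line `x + t v` -/
noncomputable def ln {n : ℕ} (x v : Fin n → ℂ) : MvPolynomial (Fin n) ℂ →ₐ[ℂ] Polynomial ℂ :=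
  aeval fun i => Polynomial.C (x i) + Polynomial.C (v i) * Polynomial.X

theorem ln_X {n : ℕ} (x v : Fin n → ℂ) (j : Fin n) :
    ln x v (X j) = Polynomial.C (x j) + Polynomial.C (v j) * Polynomial.X := by simp [ln]

theorem ln_C {n : ℕ} (x v : Fin n → ℂ) (a : ℂ) : ln x v (C a) = Polynomial.C a := by
  simp [ln]

theorem ln_eval {n : ℕ} (x v : Fin n → ℂ) (f : MvPolynomial (Fin n) ℂ) (t : ℂ) :
    (ln x v f).eval t = eval (fun i => x i + v i * t) f := by
  induction f using MvPolynomial.induction_on with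
  | C a => rw [ln_C]; simp
  | add p q hp hq => simp [hp, hq]
  | mul_X p j hp =>
    rw [map_mul, Polynomial.eval_mul, hp, ln_X, map_mul]
    simp

theorem ln_deriv {n : ℕ} (x v : Fin n → ℂ) (f : MvPolynomial (Fin n) ℂ) :
    Polynomial.derivative (ln x v f) = ∑ k, Polynomial.C (v k) * ln x v (pderiv k f) := by
  induction f using MvPolynomial.induction_on with
  | C a => rw [ln_C]; simp
  | add p q hp hq => simp only [map_add, hp, hq, mul_add, Finset.sum_add_distrib]
  | mul_X p j hp =>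
    have h1 : Polynomial.derivative (ln x v (X j)) = Polynomial.C (v j) := by
      rw [ln_X]; simp
    have h2 : ∀ k, Polynomial.C (v k) * ln x v (pderiv k (p * X j)) =
        Polynomial.C (v k) * ln x v (pderiv k p) * ln x v (X j) +
          (if k = j then Polynomial.C (v j) * ln x v p else 0) := by
      intro k
      rw [pderiv_mul, map_add, map_mul, map_mul]
      by_cases hkj : k = j
      · subst hkj
        rw [pderiv_X_self, map_one, if_pos rfl]
        ring
      · rw [pderiv_X_of_ne (Ne.symm hkj), map_zero, if_neg hkj]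
        ring
    rw [map_mul, Polynomial.derivative_mul, hp, h1, Finset.sum_congr rfl fun k _ => h2 k,
      Finset.sum_add_distrib, ← Finset.sum_mul, Finset.sum_ite_eq' Finset.univ j,
      if_pos (Finset.mem_univ j)]
    ring

/-- one variable -/
theorem poly_zero (H G : Polynomial ℂ) (h0 : H.eval 0 = 0) (g0 : G.eval 0 ≠ 0)
    (e : G * Polynomial.derivative H = H * Polynomial.derivative G) : H = 0 := by
  by_contra hne
  obtain ⟨q, hq1, hq2⟩ := Polynomial.exists_eq_pow_rootMultiplicity_mul_and_not_dvd H hne 0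
  have hm : 0 < H.rootMultiplicity 0 := (Polynomial.rootMultiplicity_pos hne).2 h0
  obtain ⟨m, hm'⟩ : ∃ m, H.rootMultiplicity 0 = m + 1 := ⟨H.rootMultiplicity 0 - 1, by omega⟩
  rw [hm'] at hq1
  rw [Polynomial.C_0, sub_zero] at hq1 hq2
  have q0 : q.eval 0 ≠ 0 := by
    intro h
    apply hq2
    rw [Polynomial.X_dvd_iff, Polynomial.coeff_zero_eq_eval_zero]
    exact h
  have hd : Polynomial.derivative H = Polynomial.X ^ m *
      (((m : Polynomial ℂ) + 1) * q + Polynomial.X * Polynomial.derivative q) := by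
    rw [hq1, Polynomial.derivative_mul, Polynomial.derivative_X_pow]
    simp only [Nat.add_sub_cancel, map_natCast]
    push_cast
    ring
  have e2 : Polynomial.X ^ m * (G * (((m : Polynomial ℂ) + 1) * q +
      Polynomial.X * Polynomial.derivative q)) =
      Polynomial.X ^ m * (Polynomial.X * q * Polynomial.derivative G) := by
    calc Polynomial.X ^ m * (G * (((m : Polynomial ℂ) + 1) * q +
        Polynomial.X * Polynomial.derivative q)) = G * Polynomial.derivative H := by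
          rw [hd]; ring
      _ = H * Polynomial.derivative G := e
      _ = _ := by rw [hq1]; ring
  have e3 := mul_left_cancel₀ (pow_ne_zero m Polynomial.X_ne_zero) e2
  have e4 := congrArg (Polynomial.eval 0) e3
  simp only [Polynomial.eval_mul, Polynomial.eval_add, Polynomial.eval_X, zero_mul, add_zero,
    Polynomial.eval_natCast, Polynomial.eval_one] at e4
  have hm1 : (m : ℂ) + 1 ≠ 0 := Nat.cast_add_one_ne_zero m
  exact mul_ne_zero g0 (mul_ne_zero hm1 q0) e4

theorem prop_zero {n : ℕ} (h g : MvPolynomial (Fin n) ℂ) (x : Fin n → ℂ) (hx : eval x h = 0)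
    (gx : eval x g ≠ 0) (H : ∀ k, g * pderiv k h = h * pderiv k g) : h = 0 := by
  refine MvPolynomial.funext fun y => ?_
  have e1 : ln x (fun i => y i - x i) g * Polynomial.derivative (ln x (fun i => y i - x i) h) =
      ln x (fun i => y i - x i) h * Polynomial.derivative (ln x (fun i => y i - x i) g) := by
    rw [ln_deriv, ln_deriv, Finset.mul_sum, Finset.mul_sum]
    apply Finset.sum_congr rfl
    intro k _
    have h1 := congrArg (ln x fun i => y i - x i) (H k)
    rw [map_mul, map_mul] at h1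
    linear_combination Polynomial.C (y k - x k) * h1
  have h2 := poly_zero _ _ (by rw [ln_eval]; simpa using hx) (by rw [ln_eval]; simpa using gx) e1
  have h3 := congrArg (Polynomial.eval 1) h2
  rw [ln_eval] at h3
  simpa using h3

/-- the conditions at one point -/
def one (n d : ℕ) (x : Fin n → ℂ) : Submodule ℂ (Pol n d) :=
  Dbl n d Finset.univ (fun _ : Unit => x)

theorem dbl_snoc {n d p : ℕ} (z : Fin p → Fin n → ℂ) (x : Fin n → ℂ) :
    Dbl n d Finset.univ (Fin.snoc z x : Fin (p + 1) → Fin n → ℂ) ≤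
      Dbl n d Finset.univ z ⊓ one n d x := by
  rintro f ⟨h1, h2⟩
  refine ⟨⟨fun i => ?_, fun i _ k => ?_⟩, ⟨fun _ => ?_, fun _ _ k => ?_⟩⟩
  · have := h1 i.castSucc
    rwa [Fin.snoc_castSucc] at this
  · have := h2 i.castSucc (Finset.mem_univ _) k
    rwa [Fin.snoc_castSucc] at this
  · have := h1 (Fin.last p)
    rwa [Fin.snoc_last] at this
  · have := h2 (Fin.last p) (Finset.mem_univ _) k
    rwa [Fin.snoc_last] at this

theorem key {n d : ℕ} (W : Submodule ℂ (Pol n d)) :
    ∃ x : Fin n → ℂ, finrank ℂ ↥(W ⊓ one n d x) ≤ finrank ℂ W - 2 := by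
  by_cases hW : W = ⊥
  · subst hW
    exact ⟨0, by simp⟩
  obtain ⟨g, hgW, hg0⟩ := (Submodule.ne_bot_iff W).1 hW
  have hg0' : (g : MvPolynomial (Fin n) ℂ) ≠ 0 := fun h => hg0 (Subtype.ext h)
  obtain ⟨x₀, hx₀⟩ : ∃ x, eval x (g : MvPolynomial (Fin n) ℂ) ≠ 0 := by
    by_contra hc
    push Not at hc
    exact hg0' (MvPolynomial.funext fun x => by rw [hc x, map_zero])
  by_cases h2 : ∃ f ∈ W, f ∉ Submodule.span ℂ {g}
  · obtain ⟨f, hfW, hf⟩ := h2
    obtain ⟨x, k, hxk⟩ : ∃ x k, eval x (g : MvPolynomial (Fin n) ℂ) *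
        eval x (pderiv k (f : MvPolynomial (Fin n) ℂ)) -
        eval x (f : MvPolynomial (Fin n) ℂ) * eval x (pderiv k (g : MvPolynomial (Fin n) ℂ)) ≠ 0 := by
      by_contra hc
      push Not at hc
      apply hf
      set c : ℂ := eval x₀ (f : MvPolynomial (Fin n) ℂ) / eval x₀ (g : MvPolynomial (Fin n) ℂ)
        with hcdef
      have h3 : (f : MvPolynomial (Fin n) ℂ) - C c * (g : MvPolynomial (Fin n) ℂ) = 0 := by
        refine prop_zero _ (g : MvPolynomial (Fin n) ℂ) x₀ ?_ hx₀ fun k => ?_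
        · rw [map_sub, map_mul, eval_C, hcdef, div_mul_cancel₀ _ hx₀, sub_self]
        · refine MvPolynomial.funext fun y => ?_
          have h4 := hc y k
          rw [map_sub, pderiv_C_mul]
          simp only [map_mul, map_sub, eval_C]
          linear_combination h4
      rw [Submodule.mem_span_singleton]
      refine ⟨c, Subtype.ext ?_⟩
      rw [Submodule.coe_smul, MvPolynomial.smul_eq_C_mul]
      exact (sub_eq_zero.1 h3).symm
    refine ⟨x, ?_⟩
    have hdis : Disjoint (W ⊓ one n d x) (Submodule.span ℂ (Set.range ![f, g])) := by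
      rw [Submodule.disjoint_def]
      intro u hu1 hu2
      rw [Matrix.range_cons, Matrix.range_cons, Matrix.range_empty, Set.union_empty,
        Set.singleton_union, Submodule.mem_span_pair] at hu2
      obtain ⟨a, b, hab⟩ := hu2
      have h5 := hu1.2.1 ()
      have h6 := hu1.2.2 () (Finset.mem_univ _) k
      rw [← hab] at h5 h6
      simp only [Submodule.coe_add, Submodule.coe_smul, map_add, Derivation.map_smul,
        smul_eval] at h5 h6
      have ha : a = 0 := by
        have : a * (eval x (g : MvPolynomial (Fin n) ℂ) *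
          eval x (pderiv k (f : MvPolynomial (Fin n) ℂ)) -
          eval x (f : MvPolynomial (Fin n) ℂ) *
          eval x (pderiv k (g : MvPolynomial (Fin n) ℂ))) = 0 := by
          linear_combination eval x (g : MvPolynomial (Fin n) ℂ) * h6 -
            eval x (pderiv k (g : MvPolynomial (Fin n) ℂ)) * h5
        exact (mul_eq_zero.1 this).resolve_right hxk
      have hb : b = 0 := by
        have : b * (eval x (g : MvPolynomial (Fin n) ℂ) *
          eval x (pderiv k (f : MvPolynomial (Fin n) ℂ)) -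
          eval x (f : MvPolynomial (Fin n) ℂ) *
          eval x (pderiv k (g : MvPolynomial (Fin n) ℂ))) = 0 := by
          linear_combination eval x (pderiv k (f : MvPolynomial (Fin n) ℂ)) * h5 -
            eval x (f : MvPolynomial (Fin n) ℂ) * h6
        exact (mul_eq_zero.1 this).resolve_right hxk
      rw [← hab, ha, hb, zero_smul, zero_smul, add_zero]
    have hli : LinearIndependent ℂ ![f, g] := by
      rw [LinearIndependent.pair_iff]
      intro a b hab
      have h5 : eval x ((a • f + b • g : Pol n d) : MvPolynomial (Fin n) ℂ) = 0 := by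
        rw [hab]; simp
      have h6 : eval x (pderiv k ((a • f + b • g : Pol n d) : MvPolynomial (Fin n) ℂ)) = 0 := by
        rw [hab]; simp
      simp only [Submodule.coe_add, Submodule.coe_smul, map_add, Derivation.map_smul,
        smul_eval] at h5 h6
      constructor
      · have : a * (eval x (g : MvPolynomial (Fin n) ℂ) *
          eval x (pderiv k (f : MvPolynomial (Fin n) ℂ)) -
          eval x (f : MvPolynomial (Fin n) ℂ) *
          eval x (pderiv k (g : MvPolynomial (Fin n) ℂ))) = 0 := by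
          linear_combination eval x (g : MvPolynomial (Fin n) ℂ) * h6 -
            eval x (pderiv k (g : MvPolynomial (Fin n) ℂ)) * h5
        exact (mul_eq_zero.1 this).resolve_right hxk
      · have : b * (eval x (g : MvPolynomial (Fin n) ℂ) *
          eval x (pderiv k (f : MvPolynomial (Fin n) ℂ)) -
          eval x (f : MvPolynomial (Fin n) ℂ) *
          eval x (pderiv k (g : MvPolynomial (Fin n) ℂ))) = 0 := by
          linear_combination eval x (pderiv k (f : MvPolynomial (Fin n) ℂ)) * h5 -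
            eval x (f : MvPolynomial (Fin n) ℂ) * h6
        exact (mul_eq_zero.1 this).resolve_right hxk
    have h7 : finrank ℂ (Submodule.span ℂ (Set.range ![f, g])) = 2 := by
      rw [finrank_span_eq_card hli]; simp
    have h8 := Submodule.finrank_sup_add_finrank_inf_eq (W ⊓ one n d x)
      (Submodule.span ℂ (Set.range ![f, g]))
    rw [disjoint_iff.1 hdis, finrank_bot, add_zero, h7] at h8
    have h9 : W ⊓ one n d x ⊔ Submodule.span ℂ (Set.range ![f, g]) ≤ W := by
      refine sup_le inf_le_left ?_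
      rw [Submodule.span_le]
      rintro _ ⟨i, rfl⟩
      fin_cases i
      · exact hfW
      · exact hgW
    have h10 := Submodule.finrank_mono h9
    omega
  · push Not at h2
    refine ⟨x₀, ?_⟩
    have h3 : W ⊓ one n d x₀ = ⊥ := by
      rw [Submodule.eq_bot_iff]
      rintro u ⟨hu1, hu2⟩
      obtain ⟨a, ha⟩ := Submodule.mem_span_singleton.1 (h2 u hu1)
      have h5 := hu2.1 ()
      rw [← ha] at h5
      simp only [Submodule.coe_smul, smul_eval] at h5
      have ha0 : a = 0 := (mul_eq_zero.1 h5).resolve_right hx₀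
      rw [← ha, ha0, zero_smul]
    rw [h3, finrank_bot]
    exact Nat.zero_le _

end DRaux

theorem x_DR : S_DR := by
  intro n d p k _ hk
  obtain ⟨z, hz⟩ := hk
  obtain ⟨x, hx⟩ := DRaux.key (Dbl n d Finset.univ z)
  refine ⟨Fin.snoc z x, ?_⟩
  have h1 := Submodule.finrank_mono (DRaux.dbl_snoc (d := d) z x)
  omega

end Pool.Agent.War5


end

section

/-!
# MP_db021c_ag, WC_LIN3: one cubic, the functionals f(p), f(q), ec p q f   (helper42)
-/

set_option autoImplicit false

open Module MvPolynomial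
open Pool.Agent.War Pool.Agent.WarS Pool.Agent.WarQ

namespace Pool.Agent.WarC

namespace LIN3aux

open UKaux

/-- a quadric double at 0 and at the basis vectors -/
theorem quad_zero {n : ℕ} (f : MvPolynomial (Fin n) ℂ) (hf : f.totalDegree ≤ 2)
    (h0 : eval 0 f = 0) (h1 : ∀ k, eval 0 (pderiv k f) = 0)
    (h2 : ∀ i k, eval (Pi.single i 1) (pderiv k f) = 0) : f = 0 := by
  obtain ⟨c, a, b, hr⟩ := rp_of_deg f hf
  have hr' : f = pq c a b := hr
  rw [hr'] at h0 h1 h2 ⊢
  have hc : c = 0 := by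
    rw [eval_pq] at h0
    simpa using h0
  have ha : ∀ k, a k = 0 := by
    intro k
    have := h1 k
    rw [eval_pderiv_pq] at this
    simpa using this
  have hb : ∀ k l, b k l + b l k = 0 := by
    intro k l
    have := h2 l k
    rw [eval_pderiv_pq, ha] at this
    simpa [Pi.single_apply] using this
  refine MvPolynomial.funext fun x => ?_
  rw [eval_pq, hc, map_zero]
  simp only [ha, zero_mul, Finset.sum_const_zero, zero_add]
  have e : ∑ i, ∑ j, b i j * (x i * x j) = ∑ i, ∑ j, b j i * (x i * x j) := by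
    rw [Finset.sum_comm]
    refine Finset.sum_congr rfl fun i _ => Finset.sum_congr rfl fun j _ => by ring
  have e2 : ∑ i, ∑ j, b i j * (x i * x j) + ∑ i, ∑ j, b j i * (x i * x j) = 0 := by
    rw [← Finset.sum_add_distrib]
    refine Finset.sum_eq_zero fun i _ => ?_
    rw [← Finset.sum_add_distrib]
    refine Finset.sum_eq_zero fun j _ => ?_
    rw [← add_mul, hb, zero_mul]
  rw [← e] at e2
  linear_combination (1 / 2 : ℂ) * e2

theorem gen_quad {n u : ℕ} (hu : n ≤ u) :
    Gen ℂ fun Z : Fin (u + 1) → Fin n → ℂ => Dbl n 2 Finset.univ Z = ⊥ := by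
  refine (PK_Dbl n 2 Finset.univ).gen_bot
    (x₀ := fun i : Fin (u + 1) => fun k : Fin n => if (k : ℕ) + 1 = (i : ℕ) then (1 : ℂ) else 0) ?_
  rw [eq_bot_iff]
  rintro f ⟨h1, h2⟩
  rw [Submodule.mem_bot]
  have e0 : (fun k : Fin n => if (k : ℕ) + 1 = ((0 : Fin (u + 1)) : ℕ) then (1 : ℂ) else 0) = 0 := by
    funext k
    simp
  apply Subtype.ext
  refine quad_zero (f : MvPolynomial (Fin n) ℂ) (mem_Pol.1 f.2) ?_ (fun k => ?_) fun i k => ?_
  · have : eval (fun k : Fin n => if (k : ℕ) + 1 = ((0 : Fin (u + 1)) : ℕ) then (1 : ℂ) else 0)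
        (f : MvPolynomial (Fin n) ℂ) = 0 := h1 0
    rwa [e0] at this
  · have : eval (fun k : Fin n => if (k : ℕ) + 1 = ((0 : Fin (u + 1)) : ℕ) then (1 : ℂ) else 0)
        (pderiv k (f : MvPolynomial (Fin n) ℂ)) = 0 := h2 0 (Finset.mem_univ _) k
    rwa [e0] at this
  · have : eval (fun k : Fin n => if (k : ℕ) + 1 =
        ((⟨(i : ℕ) + 1, by omega⟩ : Fin (u + 1)) : ℕ) then (1 : ℂ) else 0)
        (pderiv k (f : MvPolynomial (Fin n) ℂ)) = 0 :=
      h2 ⟨(i : ℕ) + 1, by omega⟩ (Finset.mem_univ _) k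
    have e1 : (fun k : Fin n => if (k : ℕ) + 1 =
        ((⟨(i : ℕ) + 1, by omega⟩ : Fin (u + 1)) : ℕ) then (1 : ℂ) else 0) = Pi.single i 1 := by
      funext k
      rw [Pi.single_apply]
      by_cases hk : k = i
      · subst hk
        simp
      · rw [if_neg hk, if_neg]
        intro h
        apply hk
        apply Fin.ext
        simpa using h
    rwa [e1] at this

/-- translation -/
noncomputable def tr {n : ℕ} (p : Fin n → ℂ) :
    MvPolynomial (Fin n) ℂ →ₐ[ℂ] MvPolynomial (Fin n) ℂ := aeval fun k => X k + C (p k)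

theorem tr_eval {n : ℕ} (p y : Fin n → ℂ) (f : MvPolynomial (Fin n) ℂ) :
    eval y (tr p f) = eval (y + p) f := by
  induction f using MvPolynomial.induction_on with
  | C a => simp [tr]
  | add f g hf hg => simp only [map_add, hf, hg]
  | mul_X f k hf =>
    rw [map_mul, map_mul, map_mul, hf]
    simp [tr]

theorem tr_tr {n : ℕ} (p : Fin n → ℂ) (f : MvPolynomial (Fin n) ℂ) : tr (-p) (tr p f) = f := by
  refine MvPolynomial.funext fun y => ?_
  rw [tr_eval, tr_eval, neg_add_cancel_right]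

theorem tr_deg {n : ℕ} (p : Fin n → ℂ) (f : MvPolynomial (Fin n) ℂ) :
    (tr p f).totalDegree ≤ f.totalDegree := by
  have h1 : ∀ k : Fin n, (X k + C (p k) : MvPolynomial (Fin n) ℂ).totalDegree ≤ 1 := by
    intro k
    refine (totalDegree_add _ _).trans ?_
    rw [totalDegree_X, totalDegree_C]
    simp
  have e : tr p f = ∑ m ∈ f.support, C (f.coeff m) * ∏ i ∈ m.support, (X i + C (p i)) ^ m i := by
    conv_lhs => rw [f.as_sum]
    rw [map_sum]
    refine Finset.sum_congr rfl fun m _ => ?_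
    rw [tr, aeval_monomial]
    rfl
  rw [e]
  refine totalDegree_finsetSum_le fun m hm => ?_
  refine le_trans ?_ (le_totalDegree hm)
  refine (totalDegree_mul _ _).trans ?_
  rw [totalDegree_C, zero_add]
  refine (totalDegree_finsetProd _ _).trans ?_
  refine Finset.sum_le_sum fun i _ => ?_
  refine (totalDegree_pow _ _).trans ?_
  calc m i * (X i + C (p i) : MvPolynomial (Fin n) ℂ).totalDegree ≤ m i * 1 :=
        Nat.mul_le_mul_left _ (h1 i)
    _ = m i := mul_one _

theorem hom_eval {n m : ℕ} {f : MvPolynomial (Fin n) ℂ} (hf : f.IsHomogeneous m) (t : ℂ)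
    (x : Fin n → ℂ) : eval (t • x) f = t ^ m * eval x f := by
  rw [eval_eq', eval_eq', Finset.mul_sum]
  refine Finset.sum_congr rfl fun d hd => ?_
  have h1 : ∑ i, d i = m := by
    have h2 := hf (mem_support_iff.1 hd)
    rw [← h2, Finsupp.weight_apply, Finsupp.sum_fintype _ _ (fun _ => by simp)]
    simp
  simp only [Pi.smul_apply, smul_eq_mul, mul_pow, Finset.prod_mul_distrib,
    Finset.prod_pow_eq_pow_sum, h1]
  ring

/-- Taylor coefficients at `p` in the direction `d` -/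
noncomputable def cc {n : ℕ} (i : ℕ) (p d : Fin n → ℂ) (f : MvPolynomial (Fin n) ℂ) : ℂ :=
  eval d (homogeneousComponent i (tr p f))

theorem cc_smul {n : ℕ} (i : ℕ) (p d : Fin n → ℂ) (t : ℂ) (f : MvPolynomial (Fin n) ℂ) :
    cc i p (t • d) f = t ^ i * cc i p d f :=
  hom_eval (homogeneousComponent_isHomogeneous i _) t d

theorem decomp {n : ℕ} (g : MvPolynomial (Fin n) ℂ) (hg : g.totalDegree ≤ 3) :
    g = homogeneousComponent 0 g + homogeneousComponent 1 g + homogeneousComponent 2 g +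
      homogeneousComponent 3 g := by
  have h1 := sum_homogeneousComponent g
  have h2 : ∑ i ∈ Finset.range 4, homogeneousComponent i g = g := by
    conv_rhs => rw [← h1]
    symm
    refine Finset.sum_subset (Finset.range_subset_range.2 (by omega)) fun i _ hi => ?_
    exact homogeneousComponent_eq_zero _ _ (by simpa using hi)
  rw [Finset.sum_range_succ, Finset.sum_range_succ, Finset.sum_range_succ, Finset.sum_range_one]
    at h2
  exact h2.symm

theorem line {n : ℕ} (p d : Fin n → ℂ) (f : MvPolynomial (Fin n) ℂ) (hf : f.totalDegree ≤ 3)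
    (t : ℂ) : eval (p + t • d) f =
      cc 0 p d f + cc 1 p d f * t + cc 2 p d f * t ^ 2 + cc 3 p d f * t ^ 3 := by
  have h1 : eval (p + t • d) f = eval (t • d) (tr p f) := by
    rw [tr_eval, add_comm]
  rw [h1, decomp (tr p f) ((tr_deg p f).trans hf), map_add, map_add, map_add]
  have h2 : ∀ i, eval (t • d) (homogeneousComponent i (tr p f)) = t ^ i * cc i p d f := fun i =>
    cc_smul i p d t f
  rw [h2, h2, h2, h2]
  ring

theorem cc_zero {n : ℕ} (p d : Fin n → ℂ) (f : MvPolynomial (Fin n) ℂ) (hf : f.totalDegree ≤ 3) :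
    cc 0 p d f = eval p f := by
  have := line p d f hf 0
  simpa using this.symm

/-- the derivative along the line -/
theorem dline {n : ℕ} (p d : Fin n → ℂ) (f : MvPolynomial (Fin n) ℂ) (hf : f.totalDegree ≤ 3)
    (t : ℂ) : ∑ k, d k * eval (p + t • d) (pderiv k f) =
      cc 1 p d f + 2 * cc 2 p d f * t + 3 * cc 3 p d f * t ^ 2 := by
  have e0 : ∀ t : ℂ, (fun i => p i + d i * t) = p + t • d := by
    intro t
    funext i
    simp [mul_comm]
  have e1 : War5.DRaux.ln p d f = Polynomial.C (cc 0 p d f) +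
      Polynomial.C (cc 1 p d f) * Polynomial.X + Polynomial.C (cc 2 p d f) * Polynomial.X ^ 2 +
      Polynomial.C (cc 3 p d f) * Polynomial.X ^ 3 := by
    refine Polynomial.funext fun t => ?_
    rw [War5.DRaux.ln_eval, e0, line p d f hf]
    simp
  have e2 := congrArg (Polynomial.eval t) (War5.DRaux.ln_deriv p d f)
  rw [Polynomial.eval_finsetSum] at e2
  simp only [Polynomial.eval_mul, Polynomial.eval_C, War5.DRaux.ln_eval, e0] at e2
  rw [← e2, e1]
  simp
  ring

/-- the functionals at the pair -/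
theorem ec_line {n : ℕ} (p d : Fin n → ℂ) (f : Pol n 3) : ec n 3 p (p + d) f =
    2 * cc 1 p d (f : MvPolynomial (Fin n) ℂ) + 2 * cc 2 p d (f : MvPolynomial (Fin n) ℂ) +
      3 * cc 3 p d (f : MvPolynomial (Fin n) ℂ) := by
  have h0 := dline p d (f : MvPolynomial (Fin n) ℂ) (mem_Pol.1 f.2) 0
  have h1 := dline p d (f : MvPolynomial (Fin n) ℂ) (mem_Pol.1 f.2) 1
  rw [zero_smul, add_zero] at h0
  rw [one_smul] at h1
  rw [ec_apply]
  have e : ∑ k, ((p + d) k - p k) * (eval p (pderiv k (f : MvPolynomial (Fin n) ℂ)) +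
      eval (p + d) (pderiv k (f : MvPolynomial (Fin n) ℂ))) =
      ∑ k, d k * eval p (pderiv k (f : MvPolynomial (Fin n) ℂ)) +
        ∑ k, d k * eval (p + d) (pderiv k (f : MvPolynomial (Fin n) ℂ)) := by
    rw [← Finset.sum_add_distrib]
    refine Finset.sum_congr rfl fun k _ => ?_
    rw [Pi.add_apply]
    ring
  rw [e, h0, h1]
  ring

theorem ev_line {n : ℕ} (p d : Fin n → ℂ) (f : Pol n 3) : ev n 3 (p + d) f =
    cc 0 p d (f : MvPolynomial (Fin n) ℂ) + cc 1 p d (f : MvPolynomial (Fin n) ℂ) +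
      cc 2 p d (f : MvPolynomial (Fin n) ℂ) + cc 3 p d (f : MvPolynomial (Fin n) ℂ) := by
  have h1 := line p d (f : MvPolynomial (Fin n) ℂ) (mem_Pol.1 f.2) 1
  rw [one_smul] at h1
  rw [ev_apply, h1]
  ring

/-- polynomials without cubic part -/
theorem deg_two {n : ℕ} (p : Fin n → ℂ) (f : MvPolynomial (Fin n) ℂ) (hf : f.totalDegree ≤ 3)
    (h : ∀ d, cc 3 p d f = 0) : f.totalDegree ≤ 2 := by
  have h3 : homogeneousComponent 3 (tr p f) = 0 := by
    refine MvPolynomial.funext fun d => ?_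
    rw [map_zero]
    exact h d
  have h4 := decomp (tr p f) ((tr_deg p f).trans hf)
  rw [h3, add_zero] at h4
  have h5 : (tr p f).totalDegree ≤ 2 := by
    rw [h4]
    refine (totalDegree_add _ _).trans (max_le ((totalDegree_add _ _).trans (max_le ?_ ?_)) ?_)
    · exact (homogeneousComponent_isHomogeneous 0 _).totalDegree_le.trans (by omega)
    · exact (homogeneousComponent_isHomogeneous 1 _).totalDegree_le.trans (by omega)
    · exact (homogeneousComponent_isHomogeneous 2 _).totalDegree_le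
  rw [← tr_tr p f]
  exact (tr_deg _ _).trans h5

/-- values and gradients at the points -/
noncomputable def Ph (n d : ℕ) {I : Type} (z : I → Fin n → ℂ) :
    Pol n d →ₗ[ℂ] (I → ℂ × (Fin n → ℂ)) :=
  LinearMap.pi fun i => (ev n d (z i)).prod (LinearMap.pi fun k => dv n d k (z i))

theorem Ph_fst {n d : ℕ} {I : Type} (z : I → Fin n → ℂ) (f : Pol n d) (i : I) :
    (Ph n d z f i).1 = eval (z i) (f : MvPolynomial (Fin n) ℂ) := by
  rw [← ev_apply]
  rfl

theorem Ph_snd {n d : ℕ} {I : Type} (z : I → Fin n → ℂ) (f : Pol n d) (i : I) (k : Fin n) :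
    (Ph n d z f i).2 k = eval (z i) (pderiv k (f : MvPolynomial (Fin n) ℂ)) := by
  rw [← dv_apply]
  rfl

theorem ker_Ph {n d : ℕ} {I : Type} [Fintype I] (z : I → Fin n → ℂ) :
    LinearMap.ker (Ph n d z) = Dbl n d Finset.univ z := by
  ext f
  rw [LinearMap.mem_ker, mem_Dbl]
  constructor
  · intro h
    refine ⟨fun i => ?_, fun i _ k => ?_⟩
    · rw [← Ph_fst, h]
      rfl
    · rw [← Ph_snd, h]
      rfl
  · rintro ⟨h1, h2⟩
    funext i
    refine Prod.ext ?_ (funext fun k => ?_)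
    · rw [Ph_fst, h1]
      rfl
    · rw [Ph_snd, h2 i (Finset.mem_univ _)]
      rfl

theorem finrank_cod (n : ℕ) (I : Type) [Fintype I] :
    finrank ℂ (I → ℂ × (Fin n → ℂ)) = (n + 1) * Fintype.card I := by
  rw [Module.finrank_pi_fintype]
  simp only [Module.finrank_prod, Module.finrank_self, Module.finrank_fintype_fun_eq_card,
    Fintype.card_fin, Finset.sum_const, Finset.card_univ, smul_eq_mul]
  ring

/-- two linear equations -/
theorem sol (b c e₁ e₂ g₁ g₂ : ℂ) (hd : e₂ * g₁ - e₁ * g₂ ≠ 0) :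
    (c * e₂ - b * g₂) / (e₂ * g₁ - e₁ * g₂) * e₁ +
        (b * g₁ - c * e₁) / (e₂ * g₁ - e₁ * g₂) * e₂ = b ∧
      (c * e₂ - b * g₂) / (e₂ * g₁ - e₁ * g₂) * g₁ +
        (b * g₁ - c * e₁) / (e₂ * g₁ - e₁ * g₂) * g₂ = c := by
  constructor
  · rw [div_mul_eq_mul_div, div_mul_eq_mul_div, ← add_div, div_eq_iff hd]
    ring
  · rw [div_mul_eq_mul_div, div_mul_eq_mul_div, ← add_div, div_eq_iff hd]
    ring

end LIN3aux

open _root_.Pool.Agent.WarC.LIN3aux

theorem x_LIN3 : S_LIN3 := by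
  intro n u hn hu hG hN
  obtain ⟨Z, hZ1, hZ2⟩ := (hG.gen.and (gen_quad hu)).exists
  have hc := finrank_cod n (Fin (u + 1))
  rw [Fintype.card_fin] at hc
  have hrk := (Ph n 3 Z).finrank_range_add_finrank_ker
  have hk : finrank ℂ (LinearMap.ker (Ph n 3 Z)) ≤ NN n 3 - (n + 1) * (u + 1) := by
    rw [ker_Ph]
    exact hZ1
  have hge := LHaux.finrank_Pol_ge n 3
  have hle := finrank_Pol_le n 3
  have hr : finrank ℂ (LinearMap.range (Ph n 3 Z)) ≤ (n + 1) * (u + 1) := by
    rw [← hc]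
    exact Submodule.finrank_le _
  have hsurj : Function.Surjective (Ph n 3 Z) := by
    rw [← LinearMap.range_eq_top]
    apply Submodule.eq_top_of_finrank_eq
    rw [hc]
    omega
  -- an element double at all the points
  obtain ⟨f₁, hf₁, hf₁0⟩ : ∃ f ∈ LinearMap.ker (Ph n 3 Z), f ≠ 0 := by
    apply Submodule.exists_mem_ne_zero_of_ne_bot
    intro h
    rw [h, finrank_bot] at hrk
    omega
  have hD₁ := hf₁
  rw [ker_Ph, mem_Dbl] at hD₁
  set p : Fin n → ℂ := Z (Fin.last u) with hp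
  have hd3 : ∃ d, cc 3 p d (f₁ : MvPolynomial (Fin n) ℂ) ≠ 0 := by
    by_contra hcon
    push Not at hcon
    have h2 := deg_two p _ (mem_Pol.1 f₁.2) hcon
    have h3 : (⟨(f₁ : MvPolynomial (Fin n) ℂ), mem_Pol.2 h2⟩ : Pol n 2) ∈
        Dbl n 2 Finset.univ Z := ⟨hD₁.1, hD₁.2⟩
    rw [hZ2, Submodule.mem_bot] at h3
    have h4 : (f₁ : MvPolynomial (Fin n) ℂ) = 0 := congrArg Subtype.val h3
    exact hf₁0 (Subtype.ext h4)
  obtain ⟨d₀, hd₀⟩ := hd3
  obtain ⟨k, hk0⟩ : ∃ k, d₀ k ≠ 0 := by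
    by_contra hcon
    push Not at hcon
    apply hd₀
    have e : d₀ = (0 : ℂ) • d₀ := by
      rw [zero_smul]
      exact funext hcon
    rw [e, cc_smul]
    simp
  -- an element with a given gradient at `p`
  obtain ⟨f₂, hf₂⟩ := hsurj (Pi.single (Fin.last u) (0, Pi.single k 1))
  have v₂ : ∀ i : Fin u, Ph n 3 Z f₂ i.castSucc = 0 := by
    intro i
    rw [hf₂, Pi.single_eq_of_ne (Fin.castSucc_lt_last i).ne]
  have w₂ : Ph n 3 Z f₂ (Fin.last u) = (0, Pi.single k 1) := by
    rw [hf₂, Pi.single_eq_same]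
  have a₁ : eval p (f₁ : MvPolynomial (Fin n) ℂ) = 0 := hD₁.1 _
  have a₂ : eval p (f₂ : MvPolynomial (Fin n) ℂ) = 0 := by
    rw [hp, ← Ph_fst, w₂]
  have b₁ : ∀ d, cc 1 p d (f₁ : MvPolynomial (Fin n) ℂ) = 0 := by
    intro d
    have h := dline p d (f₁ : MvPolynomial (Fin n) ℂ) (mem_Pol.1 f₁.2) 0
    rw [zero_smul, add_zero] at h
    have h' : ∑ k, d k * eval p (pderiv k (f₁ : MvPolynomial (Fin n) ℂ)) = 0 := by
      refine Finset.sum_eq_zero fun k _ => ?_
      rw [hD₁.2 _ (Finset.mem_univ _) k, mul_zero]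
    rw [h'] at h
    linear_combination -h
  have b₂ : cc 1 p d₀ (f₂ : MvPolynomial (Fin n) ℂ) = d₀ k := by
    have h := dline p d₀ (f₂ : MvPolynomial (Fin n) ℂ) (mem_Pol.1 f₂.2) 0
    rw [zero_smul, add_zero] at h
    have h' : ∑ l, d₀ l * eval p (pderiv l (f₂ : MvPolynomial (Fin n) ℂ)) = d₀ k := by
      rw [Finset.sum_eq_single k]
      · rw [hp, ← Ph_snd, w₂]
        simp
      · intro l _ hl
        rw [hp, ← Ph_snd, w₂]
        simp [hl]
      · simp
    rw [h'] at h
    linear_combination -h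
  -- the choice of the direction
  obtain ⟨d, hd⟩ : ∃ d, ev n 3 (p + d) f₂ * ec n 3 p (p + d) f₁ -
      ev n 3 (p + d) f₁ * ec n 3 p (p + d) f₂ ≠ 0 := by
    by_contra hcon
    push Not at hcon
    have h1 := hcon d₀
    have h2 := hcon ((-1 : ℂ) • d₀)
    simp only [ev_line, ec_line, cc_smul, cc_zero p _ _ (mem_Pol.1 f₁.2),
      cc_zero p _ _ (mem_Pol.1 f₂.2), a₁, a₂, b₁, b₂] at h1 h2
    have h3 : cc 3 p d₀ (f₁ : MvPolynomial (Fin n) ℂ) * d₀ k = 0 := by
      linear_combination (1 / 2 : ℂ) * h1 + (1 / 2 : ℂ) * h2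
    exact mul_ne_zero hd₀ hk0 h3
  refine ⟨fun i => Z i.castSucc, p, p + d, ?_⟩
  -- the map
  let Ψ : Pol n 3 →ₗ[ℂ] (Fin u → ℂ × (Fin n → ℂ)) × (ℂ × (ℂ × ℂ)) :=
    (Ph n 3 fun i : Fin u => Z i.castSucc).prod
      ((ev n 3 p).prod ((ev n 3 (p + d)).prod (ec n 3 p (p + d))))
  have hΨ : Function.Surjective Ψ := by
    rintro ⟨w, a, b, c⟩
    obtain ⟨f₀, hf₀⟩ := hsurj (Fin.snoc (α := fun _ => ℂ × (Fin n → ℂ)) w (a, 0))
    set e₁ := ev n 3 (p + d) f₁
    set e₂ := ev n 3 (p + d) f₂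
    set g₁ := ec n 3 p (p + d) f₁
    set g₂ := ec n 3 p (p + d) f₂
    set b' := b - ev n 3 (p + d) f₀ with hb'
    set c' := c - ec n 3 p (p + d) f₀ with hc'
    refine ⟨f₀ + ((c' * e₂ - b' * g₂) / (e₂ * g₁ - e₁ * g₂)) • f₁ +
      ((b' * g₁ - c' * e₁) / (e₂ * g₁ - e₁ * g₂)) • f₂, ?_⟩
    refine Prod.ext (funext fun i => ?_) (Prod.ext ?_ (Prod.ext ?_ ?_))
    · have q0 : Ph n 3 (fun i : Fin u => Z i.castSucc) f₀ i = w i := by
        have : Ph n 3 Z f₀ i.castSucc = w i := by
          rw [hf₀, Fin.snoc_castSucc]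
        exact this
      have q1 : Ph n 3 (fun i : Fin u => Z i.castSucc) f₁ i = 0 := by
        have : Ph n 3 Z f₁ i.castSucc = 0 := by
          rw [LinearMap.mem_ker.1 hf₁]
          rfl
        exact this
      have q2 : Ph n 3 (fun i : Fin u => Z i.castSucc) f₂ i = 0 := v₂ i
      change Ph n 3 (fun i : Fin u => Z i.castSucc) (f₀ + _ • f₁ + _ • f₂) i = w i
      rw [map_add, map_add, map_smul, map_smul, Pi.add_apply, Pi.add_apply, Pi.smul_apply,
        Pi.smul_apply, q0, q1, q2]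
      simp
    · change ev n 3 p (f₀ + _ • f₁ + _ • f₂) = a
      have q0 : ev n 3 p f₀ = a := by
        rw [ev_apply, hp, ← Ph_fst, hf₀, Fin.snoc_last]
      have q1 : ev n 3 p f₁ = 0 := by rw [ev_apply, a₁]
      have q2 : ev n 3 p f₂ = 0 := by rw [ev_apply, a₂]
      rw [map_add, map_add, map_smul, map_smul, q0, q1, q2]
      simp
    · change ev n 3 (p + d) (f₀ + _ • f₁ + _ • f₂) = b
      rw [map_add, map_add, map_smul, map_smul]
      change ev n 3 (p + d) f₀ + _ * e₁ + _ * e₂ = b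
      have e0 : ev n 3 (p + d) f₀ = b - b' := by rw [hb']; ring
      rw [e0, add_assoc, (sol b' c' e₁ e₂ g₁ g₂ hd).1, sub_add_cancel]
    · change ec n 3 p (p + d) (f₀ + _ • f₁ + _ • f₂) = c
      rw [map_add, map_add, map_smul, map_smul]
      change ec n 3 p (p + d) f₀ + _ * g₁ + _ * g₂ = c
      have e0 : ec n 3 p (p + d) f₀ = c - c' := by rw [hc']; ring
      rw [e0, add_assoc, (sol b' c' e₁ e₂ g₁ g₂ hd).2, sub_add_cancel]
  have hcod : finrank ℂ ((Fin u → ℂ × (Fin n → ℂ)) × (ℂ × (ℂ × ℂ))) = (n + 1) * u + 3 := by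
    have h := finrank_cod n (Fin u)
    rw [Fintype.card_fin] at h
    rw [Module.finrank_prod, h]
    simp
  have hrk2 := Ψ.finrank_range_add_finrank_ker
  rw [LinearMap.range_eq_top.2 hΨ, finrank_top, hcod] at hrk2
  have hker : Dbl n 3 Finset.univ (fun i : Fin u => Z i.castSucc) ⊓ LinearMap.ker (ev n 3 p) ⊓
      LinearMap.ker (ev n 3 (p + d)) ⊓ LinearMap.ker (ec n 3 p (p + d)) ≤ LinearMap.ker Ψ := by
    intro f hf
    simp only [Submodule.mem_inf, LinearMap.mem_ker] at hf
    obtain ⟨⟨⟨h1, h2⟩, h3⟩, h4⟩ := hf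
    rw [LinearMap.mem_ker]
    rw [← ker_Ph, LinearMap.mem_ker] at h1
    exact Prod.ext h1 (Prod.ext h2 (Prod.ext h3 h4))
  have hfin := Submodule.finrank_mono hker
  omega

end Pool.Agent.WarC


end

section

/-!
# Simple points on the hyperplane added to double points (MP_db021c_ag)   (helper18)
-/

set_option autoImplicit false

open Module MvPolynomial
open Pool.Agent.War Pool.Agent.WarS

namespace Pool.Agent.War5

theorem x_AK : S_AK := by
  intro n d q l k hg hk hnum
  obtain ⟨z, hz⟩ := hk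
  have g3 : Gen ℂ fun w : Fin q → Fin (n + 1) → ℂ =>
      finrank ℂ (Dbl (n + 1) d Finset.univ w) ≤ k :=
    (PK_Dbl (n + 1) d Finset.univ).gen_finrank (x₀ := z) hz
  obtain ⟨w, ⟨hw1, hw2⟩, hw3⟩ := ((hg.gen.and g3).and gen_off).exists
  refine SWaux.add_simple w (by omega) hw1 ?_
  refine (finrank_inf_ker_le (Dbl (n + 1) (d + 1) Finset.univ w)
    (Dbl (n + 1) d Finset.univ w) fun g hg => ?_).trans (hw2.trans (by omega))
  exact ⟨fun i => (off_hyp (hw3 i) (hg.1 i) (hg.2 i (Finset.mem_univ _))).1, fun i _ k =>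
    (off_hyp (hw3 i) (hg.1 i) (hg.2 i (Finset.mem_univ _))).2 k⟩

end Pool.Agent.War5


end

section

/-!
# CF: closed forms of `NN n d`, `d ≤ 6`
-/

set_option autoImplicit false

open Pool.Agent.War Pool.Agent.WarS

namespace Pool.Agent.War5

namespace CFaux

theorem ratio (n d : ℕ) : NN n d * (n + d + 1) = NN n (d + 1) * (d + 1) := by
  have h := Nat.choose_mul_succ_eq (n + d) n
  have e2 : n + d + 1 - n = d + 1 := by omega
  rw [e2] at h
  exact h

end CFaux

open _root_.Pool.Agent.War5.CFaux in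
theorem x_CF : S_CF := by
  intro n
  have r1 := ratio n 1
  have r2 := ratio n 2
  have r3 := ratio n 3
  have r4 := ratio n 4
  have r5 := ratio n 5
  have h1 : NN n 1 = n + 1 := NN_right_one n
  rw [h1] at r1
  norm_num at r1 r2 r3 r4 r5
  have h2 : 2 * NN n 2 = (n + 1) * (n + 2) := by rw [mul_comm, ← r1]
  have h3 : 6 * NN n 3 = (n + 1) * (n + 2) * (n + 3) := by
    calc 6 * NN n 3 = 2 * (NN n 3 * 3) := by ring
      _ = 2 * (NN n 2 * (n + 2 + 1)) := by rw [r2]
      _ = (2 * NN n 2) * (n + 3) := by ring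
      _ = _ := by rw [h2]
  have h4 : 24 * NN n 4 = (n + 1) * (n + 2) * (n + 3) * (n + 4) := by
    calc 24 * NN n 4 = 6 * (NN n 4 * 4) := by ring
      _ = 6 * (NN n 3 * (n + 3 + 1)) := by rw [r3]
      _ = (6 * NN n 3) * (n + 4) := by ring
      _ = _ := by rw [h3]
  have h5 : 120 * NN n 5 = (n + 1) * (n + 2) * (n + 3) * (n + 4) * (n + 5) := by
    calc 120 * NN n 5 = 24 * (NN n 5 * 5) := by ring
      _ = 24 * (NN n 4 * (n + 4 + 1)) := by rw [r4]
      _ = (24 * NN n 4) * (n + 5) := by ring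
      _ = _ := by rw [h4]
  have h6 : 720 * NN n 6 = (n + 1) * (n + 2) * (n + 3) * (n + 4) * (n + 5) * (n + 6) := by
    calc 720 * NN n 6 = 120 * (NN n 6 * 6) := by ring
      _ = 120 * (NN n 5 * (n + 5 + 1)) := by rw [r5]
      _ = (120 * NN n 5) * (n + 6) := by ring
      _ = _ := by rw [h5]
  exact ⟨h2, h3, h4, h5, h6⟩

end Pool.Agent.War5


end

section

/-!
# Simultaneous Waring decompositions (MP_db021c_ag), few forms: the module HD5   (helper58)

General double points, general simple points and points which are double along the hyperplane;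
`u` of the double points are specialised to the hyperplane.
-/

set_option autoImplicit false

open Module MvPolynomial
open Pool.Agent.War Pool.Agent.WarS

namespace Pool.Agent.War5

namespace HD5aux

/-- the bound for the double points -/
theorem step {n d u y q : ℕ} (w : Fin q → Fin (n + 1) → ℂ)
    (z : Fin (u + y) → Fin n → ℂ) (hw : ∀ i, w i 0 ≠ 0) :
    finrank ℂ (DblH n (d + 1) (Finset.univ : Finset (Fin u ⊕ Fin q))
      (Sum.elim (fun i => hp (z (Fin.castAdd y i))) w) fun i => z (Fin.natAdd u i)) ≤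
      finrank ℂ (Dbl n (d + 1) Finset.univ z) +
        finrank ℂ (SWaux.DS n d w fun i => z (Fin.castAdd y i)) := by
  set P' : Finset (Fin u ⊕ Fin q) := Finset.univ with hP'
  have hmem : ∀ i, i ∈ P' := fun i => Finset.mem_univ i
  set x : Fin u ⊕ Fin q → Fin (n + 1) → ℂ :=
    Sum.elim (fun i => hp (z (Fin.castAdd y i))) w with hx
  have h1 := finrank_le_map_add_ker (resL n (d + 1))
    (DblH n (d + 1) P' x fun i => z (Fin.natAdd u i))
  have h2 : finrank ℂ ((DblH n (d + 1) P' x fun i => z (Fin.natAdd u i)).map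
      (resL n (d + 1))) ≤ finrank ℂ (Dbl n (d + 1) Finset.univ z) := by
    refine Submodule.finrank_mono ?_
    rintro _ ⟨f, ⟨⟨hf1, hf2⟩, hf3⟩, rfl⟩
    refine ⟨fun i => ?_, fun i _ k => ?_⟩
    · refine Fin.addCases (fun i => ?_) (fun i => ?_) i
      · have := hf1 (Sum.inl i)
        rw [hx, Sum.elim_inl, eval_hp] at this
        exact this
      · exact hf3.1 i
    · refine Fin.addCases (fun i => ?_) (fun i => ?_) i
      · have := hf2 (Sum.inl i) (hmem _) k.succ
        rw [hx, Sum.elim_inl, eval_hp_pderiv] at this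
        exact this
      · exact hf3.2 i (Finset.mem_univ _) k
  have h3 : finrank ℂ ↥((DblH n (d + 1) P' x fun i => z (Fin.natAdd u i)) ⊓
      LinearMap.ker (resL n (d + 1))) ≤
      finrank ℂ (SWaux.DS n d w fun i => z (Fin.castAdd y i)) := by
    refine finrank_inf_ker_le _ _ fun g hg => ?_
    obtain ⟨⟨g1, g2⟩, -⟩ := hg
    refine ⟨⟨fun i => ?_, fun i _ k => ?_⟩, ?_⟩
    · have h4 := g1 (Sum.inr i)
      have h5 := g2 (Sum.inr i) (hmem _)
      rw [hx] at h4 h5
      exact (off_hyp (hw i) h4 h5).1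
    · have h4 := g1 (Sum.inr i)
      have h5 := g2 (Sum.inr i) (hmem _)
      rw [hx] at h4 h5
      exact (off_hyp (hw i) h4 h5).2 k
    · rw [SetLike.mem_coe, Submodule.mem_iInf]
      intro i
      have h5 := g2 (Sum.inl i) (hmem _) 0
      rw [hx, Sum.elim_inl, eval_pderiv_mulX_zero, hp_zero, zero_mul, zero_add] at h5
      rw [LinearMap.mem_ker, ev_apply]
      exact h5
  omega

end HD5aux

theorem x_HD5 : S_HD5 := by
  classical
  intro n d u y I _ P hn hu hG hA
  obtain ⟨q, hq⟩ : ∃ q, q = P.card - u := ⟨_, rfl⟩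
  rw [← hq] at hA
  have hPq : P.card = u + q := by omega
  have hAle := hA.le
  have hGle := hG.le
  have hPI : P.card ≤ Fintype.card I := Finset.card_le_univ P
  -- the choice of the points
  have g1 := hA.gen.comp (LinearMap.prodMap (LinearMap.id (R := ℂ) (M := Fin q → Fin (n + 1) → ℂ))
    (restr (n := n) (Fin.castAdd y (n := u))))
    (Function.Surjective.prodMap Function.surjective_id
      (restr_surjective (Fin.castAdd_injective u y)))
  have g2 := hG.gen.comp (LinearMap.snd ℂ (Fin q → Fin (n + 1) → ℂ) (Fin (u + y) → Fin n → ℂ))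
    LinearMap.snd_surjective
  have g3 := (gen_off (n := n) (I := Fin q)).comp
    (LinearMap.fst ℂ (Fin q → Fin (n + 1) → ℂ) (Fin (u + y) → Fin n → ℂ))
    LinearMap.fst_surjective
  obtain ⟨⟨w, z⟩, ⟨hwz, hz⟩, hw⟩ := ((g1.and g2).and g3).exists
  have hwz' : finrank ℂ (SWaux.DS n d w fun i => z (Fin.castAdd y i)) ≤
      NN (n + 1) d - ((n + 2) * q + u) := hwz
  have hz' : finrank ℂ (Dbl n (d + 1) Finset.univ z) ≤ NN n (d + 1) - (n + 1) * (u + y) := hz
  have hw' : ∀ i, w i 0 ≠ 0 := hw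
  have hE := HD5aux.step (d := d) (y := y) w z hw'
  set P' : Finset (Fin u ⊕ Fin q) := Finset.univ with hP'
  set x : Fin u ⊕ Fin q → Fin (n + 1) → ℂ :=
    Sum.elim (fun i => hp (z (Fin.castAdd y i))) w with hx
  set z' : Fin y → Fin n → ℂ := fun i => z (Fin.natAdd u i) with hz'def
  -- the other simple points
  obtain ⟨v, hv⟩ := red (Y := Fin (n + 1) → ℂ) (fun v => ev (n + 1) (d + 1) v)
    (DblH n (d + 1) P' x z') ⊥ (by
      intro f _ hf
      by_contra hc
      push Not at hc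
      apply hf
      rw [Submodule.mem_bot]
      apply Subtype.ext
      apply MvPolynomial.funext
      intro x
      have := hc x
      rw [ev_apply] at this
      rw [this]
      simp) (Fintype.card I - P.card)
  rw [finrank_bot, Nat.max_zero] at hv
  have e1 : Fintype.card {i // i ∈ P} = Fintype.card (Fin u ⊕ Fin q) := by
    rw [Fintype.card_coe, Fintype.card_sum, Fintype.card_fin, Fintype.card_fin, hPq]
  let e : {i // i ∈ P} ≃ Fin u ⊕ Fin q := Fintype.equivOfCardEq e1
  have e2 : Fintype.card {i // ¬ i ∈ P} = Fintype.card I - P.card := by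
    rw [Fintype.card_subtype_compl, Fintype.card_coe]
  let b : {i // ¬ i ∈ P} ≃ Fin (Fintype.card I - P.card) := Fintype.equivFinOfCardEq e2
  let x₀ : I → Fin (n + 1) → ℂ := fun i => if hi : i ∈ P then x (e ⟨i, hi⟩) else v (b ⟨i, hi⟩)
  have key : ∀ j : Fin u ⊕ Fin q, x₀ (e.symm j).1 = x j := by
    intro j
    simp only [x₀]
    rw [dif_pos (e.symm j).2]
    simp
  have hle : DblH n (d + 1) P x₀ z' ≤
      DblH n (d + 1) P' x z' ⊓ ⨅ i, LinearMap.ker (ev (n + 1) (d + 1) (v i)) := by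
    rintro f ⟨⟨f1, f2⟩, f3⟩
    refine ⟨⟨⟨fun j => ?_, fun j _ k => ?_⟩, f3⟩, ?_⟩
    · have := f1 (e.symm j).1
      rwa [key] at this
    · have := f2 (e.symm j).1 (e.symm j).2 k
      rwa [key] at this
    · rw [SetLike.mem_coe, Submodule.mem_iInf]
      intro i
      rw [LinearMap.mem_ker, ev_apply]
      have := f1 (b.symm i).1
      simp only [x₀] at this
      rw [dif_neg (b.symm i).2] at this
      simpa using this
  refine (HDaux.PK_DblH n (d + 1) y P).gen_finrank (x₀ := (x₀, z'))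
    ((Submodule.finrank_mono hle).trans (hv.trans ?_))
  have hs := NN_succ n d
  have h1 : (n + 1) * (u + y) = (n + 1) * u + (n + 1) * y := by ring
  have h2 : (n + 2) * q = (n + 1) * q + q := by ring
  have h3 : (n + 1) * P.card = (n + 1) * u + (n + 1) * q := by rw [hPq]; ring
  omega

end Pool.Agent.War5


end

section

/-!
# Simultaneous Waring decompositions (MP_db021c_ag), degree 4, few forms: more statements   (helper27)
-/

set_option autoImplicit false

open Module MvPolynomial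
open Pool.Agent.War Pool.Agent.WarS

namespace Pool.Agent.WarD

/-- QZ. Quadrics which are double at the `p = |P|` points of `P` and simple at the others; general points.
Proof. `p = 0`: `S_SG` with `GG.zero` (`2 * NN n 2 = (n+2)(n+1)`). `p ≥ 1`: take the first `min p (n+1)` points of `P` at `0`,
`e_1`, .., the quadrics double there are the quadratic forms in the other `n + 1 - p` variables, a space of dimension
`(n+2-p)(n+1-p)/2` (`S_QD` of War5: the kernel of `p` general double points has dimension at most that, `0` for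
`p ≥ n + 1`); each of the `|I| - p` other general points lowers the dimension by one until it is zero (`red` with
`ev`, as in `SG_both` in WarS/SG.lean); then `PK.gen_bot`. -/
def S_QZ : Prop := ∀ (n : ℕ) (I : Type) [Fintype I] (P : Finset I), 1 ≤ n →
  (n + 2 - P.card) * (n + 1 - P.card) ≤ 2 * (Fintype.card I - P.card) →
  Gen ℂ fun w : I → Fin n → ℂ => Dbl n 2 P w = ⊥

/-- Q4. Quartics. Induction on `n` (write `m = n + 1`). `n = 1`: `3 p ≤ 5`, `GG 1 4 1` (or `GG_one` in War/WAH.lean).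
`n → m`: `(m+2) p ≤ NN m 4`. `U = min p (NN n 4 / (m+1))` points go to the hyperplane, `Q = p - U`. By `SWaux.A_step`
(`l = 0`, degree 4) one needs `GG n 4 U` (induction: `(n+2) U ≤ NN n 4`) and `SWaux.A n 3 Q U`.
`Q = 0`: `SWaux.A_zero`, `U ≤ NN n 3` (`4 NN n 4 = (n+4) NN n 3`). `Q ≥ 1`: then `(m+1) U + m ≥ NN n 4` and `(m+2) Q ≤ NN m 4 - (m+2) U`;
`SWaux.A n 3 Q U` by `x_AK` (War5/AK.lean: `GG m 3 Q`, `KD m 2 Q k`, `k + U + (m+1) Q ≤ NN m 3`), `k = 0` if `Q ≥ m + 1` and
`(m+2-Q)(m+1-Q)/2` otherwise (`S_QD`).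
`GG m 3 Q`: `WarM.CUBIC`, `(m+1)(Q+1) ≤ NN m 3` (`m ≥ 4` by the inequality below and `U ≥ m + 1 - slack`; `m = 2, 3` numerals: `Q ≤ 2`,
`Q ≤ 4`). `Q ≤ m`: `k + (m+1) Q ≤ m² + m + 1`, `U ≤ (m+3)(m+2)m/24`: sum `≤ (m+3)(m+2)(m+1)/6`, since
`(m+3)(m+2)(3m+4) ≥ 24(m²+m+1)` (`m ≥ 2`). `Q ≥ m + 1`: `U + (m+1) Q ≤ (m+3)(4m²+9m+4)/24 + m ≤ (m+3)(m+2)(m+1)/6`, as
`(m+3)(3m+4) ≥ 24 m`. -/
def S_Q4 : Prop := ∀ n p : ℕ, 1 ≤ n → (n + 2) * p ≤ NN n 4 → GG n 4 p

end Pool.Agent.WarD


end

section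

/-!
# Simultaneous Waring decompositions (MP_db021c_ag): decoupled differential Horace   (helper27)

Adapted from WarS/DH.lean (helper86); the idea of the decoupling is due to helper25.
For `t ≠ 0` write `f = t ρ + x₀ g`; the conditions on `(ρ, g)` are polynomial in `t` and have only
the zero solution at `t = 0`.
-/

set_option autoImplicit false

open Module MvPolynomial
open Pool.Agent.War Pool.Agent.WarS Pool.Agent.WarS.DHaux

namespace Pool.Agent.WarD

namespace DHBaux

section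

variable {n d r : ℕ} {I U Y : Type}

/-- the conditions on `(ρ, g)` -/
structure CndB (d : ℕ) {n r : ℕ} {I U Y : Type} (w : I → Fin (n + 1) → ℂ) (b : I → Fin (r + 1) → ℂ)
    (z : U → Fin n → ℂ) (a : U → Fin (r + 1) → ℂ) (y : Y → Fin n → ℂ)
    (α : Y → Fin (r + 1) → ℂ) (t : ℂ) (x : VV n d r) : Prop where
  a1 : ∀ i j, eval (z i) (x.1 j : MvPolynomial (Fin n) ℂ) = 0
  a2 : ∀ i k, ∑ j, a i j * eval (z i) (pderiv k (x.1 j : MvPolynomial (Fin n) ℂ)) = 0
  a3 : ∀ i, ∑ j, a i j * eval (hp (z i)) (x.2 j : MvPolynomial (Fin (n + 1)) ℂ) = 0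
  c1 : ∀ i j, eval (w i) (ff t j x) = 0
  c2 : ∀ i k, ∑ j, b i j * eval (w i) (pderiv k (ff t j x)) = 0
  e1 : ∀ i j, eval (y i) (x.1 j : MvPolynomial (Fin n) ℂ) +
    eval (Fin.cons t (y i) : Fin (n + 1) → ℂ) (x.2 j : MvPolynomial (Fin (n + 1)) ℂ) = 0
  e2 : ∀ i, ∑ j, α i j * (eval (y i) (x.1 j : MvPolynomial (Fin n) ℂ) - t *
    eval (Fin.cons t (y i) : Fin (n + 1) → ℂ)
      (pderiv 0 (x.2 j : MvPolynomial (Fin (n + 1)) ℂ))) = 0
  e4 : ∀ i (k : Fin n), ∑ j, α i j * (eval (y i) (pderiv k (x.1 j : MvPolynomial (Fin n) ℂ)) +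
    eval (Fin.cons t (y i) : Fin (n + 1) → ℂ)
      (pderiv k.succ (x.2 j : MvPolynomial (Fin (n + 1)) ℂ))) = 0

/-- the family of the solution spaces -/
theorem exists_PK [Finite I] [Finite U] [Finite Y] (w : I → Fin (n + 1) → ℂ)
    (b : I → Fin (r + 1) → ℂ) (z : U → Fin n → ℂ) (a : U → Fin (r + 1) → ℂ) (y : Y → Fin n → ℂ)
    (α : Y → Fin (r + 1) → ℂ) :
    ∃ Z : ℂ → Submodule ℂ (VV n d r), PK Z ∧
      ∀ t x, x ∈ Z t ↔ CndB d w b z a y α t x := by
  have hconst : ∀ φ : VV n d r →ₗ[ℂ] ℂ, PK fun _ : ℂ => LinearMap.ker φ := fun φ =>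
    PK.one (φ := fun _ : ℂ => φ) fun x => LP.const _
  have A1 : PK fun _ : ℂ => ⨅ q : U × Fin (r + 1),
      LinearMap.ker (el (z q.1) ∘ₗ (rho q.2 : VV n d r →ₗ[ℂ] _)) :=
    PK.iInf fun q => hconst _
  have A2 : PK fun _ : ℂ => ⨅ q : U × Fin n,
      LinearMap.ker (∑ j, a q.1 j • (el (z q.1) ∘ₗ pd q.2 ∘ₗ (rho j : VV n d r →ₗ[ℂ] _))) :=
    PK.iInf fun q => hconst _
  have A3 : PK fun _ : ℂ => ⨅ q : U,
      LinearMap.ker (∑ j, a q j • (el (hp (z q)) ∘ₗ (gg j : VV n d r →ₗ[ℂ] _))) :=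
    PK.iInf fun q => hconst _
  have C1 : PK fun t : ℂ => ⨅ q : I × Fin (r + 1),
      LinearMap.ker (el (w q.1) ∘ₗ (ff t q.2 : VV n d r →ₗ[ℂ] _)) := by
    refine PK.iInf fun q => PK.one
      (φ := fun t : ℂ => el (w q.1) ∘ₗ (ff t q.2 : VV n d r →ₗ[ℂ] _)) fun x => ?_
    simp only [LinearMap.comp_apply, el_apply, ff_apply, map_add, smul_eval]
    exact (LP_id.mul (LP.const _)).add (LP.const _)
  have C2 : PK fun t : ℂ => ⨅ q : I × Fin (n + 1),
      LinearMap.ker (∑ j, b q.1 j • (el (w q.1) ∘ₗ pd q.2 ∘ₗ (ff t j : VV n d r →ₗ[ℂ] _))) := by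
    refine PK.iInf fun q => PK.one
      (φ := fun t : ℂ => ∑ j, b q.1 j • (el (w q.1) ∘ₗ pd q.2 ∘ₗ (ff t j : VV n d r →ₗ[ℂ] _)))
      fun x => ?_
    simp only [LinearMap.sum_apply, LinearMap.smul_apply, LinearMap.comp_apply, el_apply,
      pd_apply, ff_apply, map_add, Derivation.map_smul, smul_eval, smul_eq_mul]
    exact LP.sum _ fun j _ => (LP.const _).mul ((LP_id.mul (LP.const _)).add (LP.const _))
  have E1 : PK fun t : ℂ => ⨅ q : Y × Fin (r + 1),
      LinearMap.ker (el (y q.1) ∘ₗ (rho q.2 : VV n d r →ₗ[ℂ] _) +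
        el (Fin.cons t (y q.1) : Fin (n + 1) → ℂ) ∘ₗ (gg q.2 : VV n d r →ₗ[ℂ] _)) := by
    refine PK.iInf fun q => PK.one
      (φ := fun t : ℂ => el (y q.1) ∘ₗ (rho q.2 : VV n d r →ₗ[ℂ] _) +
        el (Fin.cons t (y q.1) : Fin (n + 1) → ℂ) ∘ₗ (gg q.2 : VV n d r →ₗ[ℂ] _))
        fun x => ?_
    simp only [LinearMap.add_apply, LinearMap.comp_apply, el_apply, rho_apply, gg_apply]
    exact (LP.const _).add (LP_cons _ _)
  have E2 : PK fun t : ℂ => ⨅ q : Y,
      LinearMap.ker (∑ j, α q j • (el (y q) ∘ₗ (rho j : VV n d r →ₗ[ℂ] _) + (-t) •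
        (el (Fin.cons t (y q) : Fin (n + 1) → ℂ) ∘ₗ pd 0 ∘ₗ (gg j : VV n d r →ₗ[ℂ] _)))) := by
    refine PK.iInf fun q => PK.one
      (φ := fun t : ℂ => ∑ j, α q j • (el (y q) ∘ₗ (rho j : VV n d r →ₗ[ℂ] _) + (-t) •
        (el (Fin.cons t (y q) : Fin (n + 1) → ℂ) ∘ₗ pd 0 ∘ₗ (gg j : VV n d r →ₗ[ℂ] _))))
        fun x => ?_
    simp only [LinearMap.sum_apply, LinearMap.add_apply, LinearMap.smul_apply,
      LinearMap.comp_apply, el_apply, rho_apply, gg_apply, pd_apply, smul_eq_mul]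
    exact LP.sum _ fun j _ => (LP.const _).mul ((LP.const _).add (LP_neg.mul (LP_cons _ _)))
  have E4 : PK fun t : ℂ => ⨅ q : Y × Fin n,
      LinearMap.ker (∑ j, α q.1 j • (el (y q.1) ∘ₗ pd q.2 ∘ₗ (rho j : VV n d r →ₗ[ℂ] _) +
        el (Fin.cons t (y q.1) : Fin (n + 1) → ℂ) ∘ₗ pd q.2.succ ∘ₗ
          (gg j : VV n d r →ₗ[ℂ] _))) := by
    refine PK.iInf fun q => PK.one
      (φ := fun t : ℂ => ∑ j, α q.1 j • (el (y q.1) ∘ₗ pd q.2 ∘ₗ (rho j : VV n d r →ₗ[ℂ] _) +
        el (Fin.cons t (y q.1) : Fin (n + 1) → ℂ) ∘ₗ pd q.2.succ ∘ₗ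
          (gg j : VV n d r →ₗ[ℂ] _))) fun x => ?_
    simp only [LinearMap.sum_apply, LinearMap.smul_apply, LinearMap.add_apply,
      LinearMap.comp_apply, el_apply, rho_apply, gg_apply, pd_apply, smul_eq_mul]
    exact LP.sum _ fun j _ => (LP.const _).mul ((LP.const _).add (LP_cons _ _))
  refine ⟨_, ((A1.inf A2).inf A3).inf ((C1.inf C2).inf ((E1.inf E2).inf E4)), fun t x => ?_⟩
  simp only [Submodule.mem_inf, Submodule.mem_iInf, LinearMap.mem_ker, Prod.forall,
    LinearMap.comp_apply, LinearMap.add_apply, LinearMap.smul_apply, LinearMap.sum_apply,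
    el_apply, pd_apply, rho_apply, gg_apply, smul_eq_mul, neg_mul, ← sub_eq_add_neg]
  constructor
  · rintro ⟨⟨⟨h1, h2⟩, h3⟩, ⟨h4, h5⟩, ⟨h6, h7⟩, h8⟩
    exact ⟨h1, h2, h3, h4, h5, h6, h7, h8⟩
  · rintro ⟨h1, h2, h3, h4, h5, h6, h7, h8⟩
    exact ⟨⟨⟨h1, h2⟩, h3⟩, ⟨h4, h5⟩, ⟨h6, h7⟩, h8⟩

/-- no solutions at `t = 0` -/
theorem zero_of_cnd {w : I → Fin (n + 1) → ℂ} {b : I → Fin (r + 1) → ℂ} {z : U → Fin n → ℂ}
    {a : U → Fin (r + 1) → ℂ} {y : Y → Fin n → ℂ} {α : Y → Fin (r + 1) → ℂ}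
    (hw : ∀ i, w i 0 ≠ 0) (hT : TrB d z a y α) (hR : ReB d w b z a y α) {x : VV n d r}
    (h : CndB d w b z a y α 0 x) : x = 0 := by
  have hρ : ∀ j, (x.1 j : MvPolynomial (Fin n) ℂ) = 0 := by
    refine hT (fun j => (x.1 j : MvPolynomial (Fin n) ℂ)) (fun j => mem_Pol.1 (x.1 j).2)
      h.a1 h.a2 fun i => ?_
    have := h.e2 i
    simpa only [zero_mul, sub_zero] using this
  have hoff : ∀ i j, eval (w i) (x.2 j : MvPolynomial (Fin (n + 1)) ℂ) = 0 := by
    intro i j
    have h1 := h.c1 i j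
    rw [ff_apply, zero_smul, zero_add, map_mul, eval_X] at h1
    exact (mul_eq_zero.1 h1).resolve_left (hw i)
  have hg : ∀ j, (x.2 j : MvPolynomial (Fin (n + 1)) ℂ) = 0 := by
    refine hR (fun j => (x.2 j : MvPolynomial (Fin (n + 1)) ℂ)) (fun j => mem_Pol.1 (x.2 j).2)
      hoff (fun i k => ?_) h.a3 (fun i j => ?_) (fun i k => ?_)
    · have h1 := h.c2 i k
      have e : ∀ j, eval (w i) (pderiv k (ff 0 j x)) =
          w i 0 * eval (w i) (pderiv k (x.2 j : MvPolynomial (Fin (n + 1)) ℂ)) := by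
        intro j
        rw [ff_apply, zero_smul, zero_add]
        refine Fin.cases ?_ (fun k => ?_) k
        · rw [pderiv_zero_X_mul, map_add, map_mul, eval_X, hoff, add_zero]
        · rw [pderiv_succ_X_mul, map_mul, eval_X]
      simp only [e] at h1
      have e2 : ∑ j, b i j * (w i 0 * eval (w i)
          (pderiv k (x.2 j : MvPolynomial (Fin (n + 1)) ℂ))) =
          w i 0 * ∑ j, b i j * eval (w i) (pderiv k (x.2 j : MvPolynomial (Fin (n + 1)) ℂ)) := by
        rw [Finset.mul_sum]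
        exact Finset.sum_congr rfl fun j _ => by ring
      rw [e2] at h1
      exact (mul_eq_zero.1 h1).resolve_left (hw i)
    · have h1 := h.e1 i j
      rw [hρ, map_zero, zero_add] at h1
      exact h1
    · have h1 := h.e4 i k
      simp only [hρ, map_zero, zero_add] at h1
      exact h1
  refine Prod.ext (funext fun j => Subtype.ext (hρ j)) (funext fun j => Subtype.ext (hg j))

/-- the conditions on `f` give those on `(ρ, g)` -/
theorem cnd_of_kill {w : I → Fin (n + 1) → ℂ} {b : I → Fin (r + 1) → ℂ} {z : U → Fin n → ℂ}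
    {a : U → Fin (r + 1) → ℂ} {y : Y → Fin n → ℂ} {α : Y → Fin (r + 1) → ℂ} {t : ℂ} (ht : t ≠ 0)
    (f : Fin (r + 1) → MvPolynomial (Fin (n + 1)) ℂ) {x : VV n d r} (hx : ∀ j, f j = ff t j x)
    (k1 : ∀ i j, eval (w i) (f j) = 0)
    (k2 : ∀ i k, ∑ j, b i j * eval (w i) (pderiv k (f j)) = 0)
    (k5 : ∀ i j, eval (hp (z i)) (f j) = 0)
    (k6 : ∀ i k, ∑ j, a i j * eval (hp (z i)) (pderiv k (f j)) = 0)
    (k7 : ∀ i j, eval (Fin.cons t (y i) : Fin (n + 1) → ℂ) (f j) = 0)
    (k8 : ∀ i k, ∑ j, α i j * eval (Fin.cons t (y i) : Fin (n + 1) → ℂ) (pderiv k (f j)) = 0) :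
    CndB d w b z a y α t x := by
  -- on the hyperplane
  have H0 : ∀ (z : Fin n → ℂ) j, eval (hp z) (f j) =
      t * eval z (x.1 j : MvPolynomial (Fin n) ℂ) := by
    intro z j
    rw [hx, ff_apply, map_add, smul_eval, eval_hp_rename, map_mul, eval_X, hp_zero, zero_mul,
      add_zero]
  have H1 : ∀ (z : Fin n → ℂ) k j, eval (hp z) (pderiv (Fin.succ k) (f j)) =
      t * eval z (pderiv k (x.1 j : MvPolynomial (Fin n) ℂ)) := by
    intro z k j
    rw [hx, ff_apply, map_add, Derivation.map_smul, pderiv_succ_rename, pderiv_succ_X_mul, map_add,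
      smul_eval, eval_hp_rename, map_mul, eval_X, hp_zero, zero_mul, add_zero]
  have H2 : ∀ (z : Fin n → ℂ) j, eval (hp z) (pderiv 0 (f j)) =
      eval (hp z) (x.2 j : MvPolynomial (Fin (n + 1)) ℂ) := by
    intro z j
    rw [hx, ff_apply, map_add, Derivation.map_smul, pderiv_zero_rename, smul_zero, zero_add,
      pderiv_zero_X_mul, map_add, map_mul, eval_X, hp_zero, zero_mul, zero_add]
  -- at the moving points
  have M0 : ∀ (z : Fin n → ℂ) j, eval (Fin.cons t z : Fin (n + 1) → ℂ) (f j) =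
      t * (eval z (x.1 j : MvPolynomial (Fin n) ℂ) +
        eval (Fin.cons t z : Fin (n + 1) → ℂ) (x.2 j : MvPolynomial (Fin (n + 1)) ℂ)) := by
    intro z j
    rw [hx, ff_apply, map_add, smul_eval, eval_cons_rename, map_mul, eval_X, Fin.cons_zero]
    ring
  have M1 : ∀ (z : Fin n → ℂ) k j, eval (Fin.cons t z : Fin (n + 1) → ℂ)
      (pderiv (Fin.succ k) (f j)) =
      t * (eval z (pderiv k (x.1 j : MvPolynomial (Fin n) ℂ)) +
        eval (Fin.cons t z : Fin (n + 1) → ℂ)
          (pderiv k.succ (x.2 j : MvPolynomial (Fin (n + 1)) ℂ))) := by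
    intro z k j
    rw [hx, ff_apply, map_add, Derivation.map_smul, pderiv_succ_rename, pderiv_succ_X_mul, map_add,
      smul_eval, eval_cons_rename, map_mul, eval_X, Fin.cons_zero]
    ring
  have M2 : ∀ (z : Fin n → ℂ) j, eval (Fin.cons t z : Fin (n + 1) → ℂ) (pderiv 0 (f j)) =
      eval (Fin.cons t z : Fin (n + 1) → ℂ) (x.2 j : MvPolynomial (Fin (n + 1)) ℂ) +
        t * eval (Fin.cons t z : Fin (n + 1) → ℂ)
          (pderiv 0 (x.2 j : MvPolynomial (Fin (n + 1)) ℂ)) := by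
    intro z j
    rw [hx, ff_apply, map_add, Derivation.map_smul, pderiv_zero_rename, smul_zero, zero_add,
      pderiv_zero_X_mul, map_add, map_mul, eval_X, Fin.cons_zero]
    ring
  have pull : ∀ (c : ℂ) (A B : Fin (r + 1) → ℂ),
      ∑ j, A j * (c * B j) = c * ∑ j, A j * B j := by
    intro c A B
    rw [Finset.mul_sum]
    exact Finset.sum_congr rfl fun j _ => by ring
  have N0 : ∀ i j, eval (y i) (x.1 j : MvPolynomial (Fin n) ℂ) +
      eval (Fin.cons t (y i) : Fin (n + 1) → ℂ) (x.2 j : MvPolynomial (Fin (n + 1)) ℂ) = 0 := by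
    intro i j
    have := k7 i j
    rw [M0] at this
    exact (mul_eq_zero.1 this).resolve_left ht
  refine ⟨fun i j => ?_, fun i k => ?_, fun i => ?_, fun i j => ?_, fun i k => ?_,
    N0, fun i => ?_, fun i k => ?_⟩
  · have := k5 i j
    rw [H0] at this
    exact (mul_eq_zero.1 this).resolve_left ht
  · have := k6 i k.succ
    simp only [H1] at this
    rw [pull] at this
    exact (mul_eq_zero.1 this).resolve_left ht
  · have := k6 i 0
    simp only [H2] at this
    exact this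
  · rw [← hx]
    exact k1 i j
  · simp only [← hx]
    exact k2 i k
  · have h2 := k8 i 0
    simp only [M2] at h2
    have h3 : ∑ j, α i j * (eval (y i) (x.1 j : MvPolynomial (Fin n) ℂ) +
        eval (Fin.cons t (y i) : Fin (n + 1) → ℂ)
          (x.2 j : MvPolynomial (Fin (n + 1)) ℂ)) = 0 :=
      Finset.sum_eq_zero fun j _ => by rw [N0, mul_zero]
    have h4 := congrArg₂ (· - ·) h3 h2
    simp only [sub_zero] at h4
    rw [← Finset.sum_sub_distrib] at h4
    rw [← h4]
    exact Finset.sum_congr rfl fun j _ => by ring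
  · have := k8 i k.succ
    simp only [M1] at this
    rw [pull] at this
    exact (mul_eq_zero.1 this).resolve_left ht

end

end DHBaux

open _root_.Pool.Agent.WarD.DHBaux in
/-- decoupled differential Horace -/
theorem x_DHB : S_DHB := by
  intro n d r I U Y _ _ _ w b z a y α hw hT hR
  obtain ⟨Z, hZ, hmem⟩ := DHBaux.exists_PK (n := n) (d := d) (r := r) w b z a y α
  have h0 : Z 0 = ⊥ := by
    rw [Submodule.eq_bot_iff]
    intro x hx
    exact DHBaux.zero_of_cnd hw hT hR ((hmem 0 x).1 hx)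
  obtain ⟨t, ht1, ht2⟩ := ((hZ.gen_bot h0).and
    (Gen.ne (K := ℂ) (X := ℂ) LP_id 1 one_ne_zero)).exists
  refine ⟨t, fun f hf k1 k2 k5 k6 k7 k8 => ?_⟩
  obtain ⟨x, hx⟩ := exists_dec ht2 f hf
  have h1 := (hmem t x).2 (DHBaux.cnd_of_kill ht2 f hx k1 k2 k5 k6 k7 k8)
  rw [ht1, Submodule.mem_bot] at h1
  intro j
  rw [hx, h1, map_zero]

end Pool.Agent.WarD


end

section

/-!
# Simultaneous Waring decompositions (MP_db021c_ag), degree 4, few forms: assembly   (helper27)
-/

set_option autoImplicit false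

open Module MvPolynomial
open Pool.Agent.War Pool.Agent.WarS

namespace Pool.Agent.WarD

/-- the numbers for the decoupled step: `u` points on the hyperplane, `y` points near it, `p` points off it;
`q` of the points `p` are specialised to the hyperplane in the scalar lemma -/
structure NB (n r : ℕ) (u y p q : Fin (r + 1) → ℕ) : Prop where
  hu : ∀ j, GG n 4 (u j)
  ht : ∑ j, (NN n 4 - (n * u j + ∑ i, u i)) ≤ ∑ i, y i
  hq : ∀ j, (n + 3 - p j) * (n + 2 - p j) ≤ 2 * (∑ i, p i - p j)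
  h1 : ∀ j, q j ≤ p j
  h2 : ∀ j, GG n 3 (q j + y j)
  h3 : ∀ j, SWaux.A n 2 (p j - q j) (q j)
  hv : ∑ j, (NN (n + 1) 3 - ((n + 1) * p j + ∑ i, p i + (n * y j + ∑ i, y i))) ≤ ∑ i, u i

/-- the conclusion: `h` full points kill -/
def KK (n r h : ℕ) : Prop :=
  ∃ (z : Fin h → Fin (n + 1) → ℂ) (a : Fin h → Fin (r + 1) → ℂ),
    ∀ f : Fin (r + 1) → MvPolynomial (Fin (n + 1)) ℂ, (∀ j, (f j).totalDegree ≤ 4) →
      (∀ i j, eval (z i) (f j) = 0) →
      (∀ i k, ∑ j, a i j * eval (z i) (pderiv k (f j)) = 0) → ∀ j, f j = 0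

theorem KK.mono {n r h h' : ℕ} (H : KK n r h) (hh : h ≤ h') : KK n r h' := by
  obtain ⟨z, a, hz⟩ := H
  refine ⟨fun i => if hi : i.val < h then z ⟨i.val, hi⟩ else 0,
    fun i => if hi : i.val < h then a ⟨i.val, hi⟩ else 0, fun f hf hf0 hf1 => ?_⟩
  refine hz f hf (fun i j => ?_) (fun i k => ?_)
  · have := hf0 (Fin.castLE hh i) j
    simpa using this
  · have := hf1 (Fin.castLE hh i) k
    simpa using this

/-- from the numbers to the points -/
theorem FEWB (hTRB : S_TRB) (hREB : S_REB) (hSDB : S_SDB) (hQZ : S_QZ) {n r h : ℕ} (hn : 1 ≤ n)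
    {u y p q : Fin (r + 1) → ℕ} (H : NB n r u y p q)
    (hh : ∑ j, u j + ∑ j, y j + ∑ j, p j ≤ h) : KK n r h := by
  let I := (j : Fin (r + 1)) × Fin (p j)
  let U := (j : Fin (r + 1)) × Fin (u j)
  let Y := (j : Fin (r + 1)) × Fin (y j)
  let π : I → Fin (r + 1) := fun i => i.1
  let υ : U → Fin (r + 1) := fun i => i.1
  let τ : Y → Fin (r + 1) := fun i => i.1
  have hπ : ∀ j, fib π j = p j := FEWm.fib_sigma p
  have hυ : ∀ j, fib υ j = u j := FEWm.fib_sigma u
  have hτ : ∀ j, fib τ j = y j := FEWm.fib_sigma y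
  have cI : Fintype.card I = ∑ j, p j := by
    rw [Fintype.card_sigma]
    simp
  have cU : Fintype.card U = ∑ j, u j := by
    rw [Fintype.card_sigma]
    simp
  have cY : Fintype.card Y = ∑ j, y j := by
    rw [Fintype.card_sigma]
    simp
  have T := hTRB n 2 r U Y υ hn (fun j => by rw [hυ]; exact H.hu j) (by
    rw [cU, cY]
    refine le_trans (le_of_eq (Finset.sum_congr rfl fun j _ => ?_)) H.ht
    rw [hυ])
  have Z : ∀ j, Gen ℂ fun w : I → Fin (n + 1) → ℂ =>
      Dbl (n + 1) 2 (Finset.univ.filter fun i => π i = j) w = ⊥ := by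
    intro j
    refine hQZ (n + 1) I (Finset.univ.filter fun i => π i = j) (by omega) ?_
    have e : (Finset.univ.filter fun i => π i = j).card = p j := hπ j
    rw [e, cI]
    exact H.hq j
  have R := hREB n 2 r I U Y π τ
    (fun j => NN (n + 1) 3 - ((n + 1) * p j + ∑ i, p i + (n * y j + ∑ i, y i))) hn Z
    (fun j => by
      have e1 : (Finset.univ.filter fun i => π i = j).card = p j := hπ j
      have e2 : (Finset.univ.filter fun i => τ i = j).card = y j := hτ j
      have := hSDB n 2 (q j) I Y (Finset.univ.filter fun i => π i = j)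
        (Finset.univ.filter fun i => τ i = j) hn (by rw [e1]; exact H.h1 j)
        (by rw [e2]; exact H.h2 j) (by rw [e1]; exact H.h3 j) (Z j)
      rw [e1, e2, cI, cY] at this
      exact this)
    (by rw [cU]; exact H.hv)
  have O : Gen ℂ fun z : I → Fin (n + 1) → ℂ => ∀ i, z i 0 ≠ 0 := gen_off
  have T' := T.comp (LinearMap.snd ℂ ((I → Fin (n + 1) → ℂ) × (I → Fin (r + 1) → ℂ))
    ((U → Fin n → ℂ) × (U → Fin (r + 1) → ℂ) × (Y → Fin n → ℂ) × (Y → Fin (r + 1) → ℂ)))
    Prod.snd_surjective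
  have O' := (O.comp (LinearMap.fst ℂ (I → Fin (n + 1) → ℂ) (I → Fin (r + 1) → ℂ))
    Prod.fst_surjective).comp (LinearMap.fst ℂ ((I → Fin (n + 1) → ℂ) × (I → Fin (r + 1) → ℂ))
    ((U → Fin n → ℂ) × (U → Fin (r + 1) → ℂ) × (Y → Fin n → ℂ) × (Y → Fin (r + 1) → ℂ)))
    Prod.fst_surjective
  obtain ⟨⟨⟨w, b⟩, z, a, yy, α⟩, ⟨hR, hT⟩, hO⟩ := ((R.and T').and O').exists
  obtain ⟨t, ht⟩ := x_DHB n 2 r I U Y w b z a yy α hO hT hR
  -- all points
  let S := I ⊕ (U ⊕ Y)
  have hS : Fintype.card S = ∑ j, u j + ∑ j, y j + ∑ j, p j := by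
    simp only [S, Fintype.card_sum]
    rw [cI, cU, cY]
    ring
  refine KK.mono ?_ hh
  let e : S ≃ Fin (∑ j, u j + ∑ j, y j + ∑ j, p j) := Fintype.equivFinOfCardEq hS
  let Z : S → Fin (n + 1) → ℂ := Sum.elim w (Sum.elim (fun i => hp (z i))
    (fun i => Fin.cons t (yy i)))
  let A : S → Fin (r + 1) → ℂ := Sum.elim b (Sum.elim a α)
  refine ⟨fun i => Z (e.symm i), fun i => A (e.symm i), fun f hf hf0 hf1 => ?_⟩
  have k0 : ∀ x : S, ∀ j, eval (Z x) (f j) = 0 := fun x j => by
    have := hf0 (e x) j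
    simpa only [Equiv.symm_apply_apply] using this
  have k1 : ∀ x : S, ∀ k, ∑ j, A x j * eval (Z x) (pderiv k (f j)) = 0 := fun x k => by
    have := hf1 (e x) k
    simpa only [Equiv.symm_apply_apply] using this
  exact ht f hf (fun i j => k0 (Sum.inl i) j) (fun i k => k1 (Sum.inl i) k)
    (fun i j => k0 (Sum.inr (Sum.inl i)) j) (fun i k => k1 (Sum.inr (Sum.inl i)) k)
    (fun i j => k0 (Sum.inr (Sum.inr i)) j) (fun i k => k1 (Sum.inr (Sum.inr i)) k)

end Pool.Agent.WarD


end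

section

/-!
# Simultaneous Waring decompositions (MP_db021c_ag), degree 4, few forms: balanced data   (helper27)
-/

set_option autoImplicit false

open Module MvPolynomial
open Pool.Agent.War Pool.Agent.WarS

namespace Pool.Agent.WarD

theorem sum_bal (s : ℕ) (hs : 0 < s) (N : ℕ) : ∑ j ∈ Finset.range s, (N + j) / s = N := by
  induction N with
  | zero =>
    refine Finset.sum_eq_zero fun j hj => ?_
    rw [zero_add]
    exact Nat.div_eq_of_lt (Finset.mem_range.1 hj)
  | succ N ih =>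
    have h1 := Finset.sum_range_succ (fun j => (N + j) / s) s
    have h2 := Finset.sum_range_succ' (fun j => (N + j) / s) s
    rw [ih] at h1
    have h3 : ∑ j ∈ Finset.range s, (N + 1 + j) / s = ∑ j ∈ Finset.range s, (N + (j + 1)) / s :=
      Finset.sum_congr rfl fun j _ => by rw [show N + 1 + j = N + (j + 1) by ring]
    have h4 : (N + s) / s = N / s + 1 := Nat.add_div_right N hs
    rw [add_zero] at h2
    rw [h3]
    omega

theorem sum_balr (r N : ℕ) : ∑ j ∈ Finset.range (r + 1), (N + (r - j)) / (r + 1) = N := by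
  have h := Finset.sum_range_reflect (fun j => (N + j) / (r + 1)) (r + 1)
  rw [sum_bal (r + 1) (Nat.succ_pos r) N] at h
  simpa using h

/-- numerical condition for cubics -/
def C3 (n p : ℕ) : Prop :=
  (n + 1) * (p + 1) ≤ NN n 3 ∨ ((n + 1) % 3 ≠ 2 ∧ (n + 1) * p ≤ NN n 3)

/-- the conditions for balanced numbers: `U` points on the hyperplane, `Y` near it, `M` off it -/
structure Dat (n r U Y M : ℕ) : Prop where
  d1 : ∀ j < r + 1, GG n 4 ((U + j) / (r + 1))
  d2 : ∑ j ∈ Finset.range (r + 1), (NN n 4 - (n * ((U + j) / (r + 1)) + U)) ≤ Y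
  d3 : ∀ j < r + 1, (n + 3 - (M + j) / (r + 1)) * (n + 2 - (M + j) / (r + 1)) ≤
    2 * (M - (M + j) / (r + 1))
  d4 : ∀ j < r + 1, ∃ q ≤ (M + j) / (r + 1), (M + j) / (r + 1) ≤ q + 1 ∧
    GG n 3 (q + (Y + (r - j)) / (r + 1)) ∧ q ≤ NN n 2
  d5 : ∑ j ∈ Finset.range (r + 1), (NN (n + 1) 3 - ((n + 1) * ((M + j) / (r + 1)) + M +
    (n * ((Y + (r - j)) / (r + 1)) + Y))) ≤ U

/-- one double point off the hyperplane, simple points on it, quadrics -/
theorem A_one {n l : ℕ} (hl : l ≤ NN n 2) : SWaux.A n 2 1 l := by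
  have h1 : GG (n + 1) 2 1 := WarM.ONE (n + 1) 2 (by norm_num)
  have h2 : GG (n + 1) 1 1 := WarM.ONE (n + 1) 1 le_rfl
  have h3 : War5.KD (n + 1) 1 1 0 := by
    obtain ⟨z, hz⟩ := h2
    refine ⟨z, ?_⟩
    rw [NN_right_one] at hz
    omega
  refine War5.x_AK n 1 1 l 0 h1 h3 ?_
  have h4 := NN_succ n 1
  rw [NN_right_one] at h4
  norm_num at h4 ⊢
  omega

theorem Dat.NB {n r U Y M : ℕ} (D : Dat n r U Y M) :
    ∃ u y p q : Fin (r + 1) → ℕ, NB n r u y p q ∧ ∑ j, u j + ∑ j, y j + ∑ j, p j = U + Y + M := by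
  have sU : ∑ j : Fin (r + 1), (U + (j : ℕ)) / (r + 1) = U := by
    rw [← Finset.sum_range (fun j => (U + j) / (r + 1))]
    exact sum_bal _ (Nat.succ_pos r) _
  have sM : ∑ j : Fin (r + 1), (M + (j : ℕ)) / (r + 1) = M := by
    rw [← Finset.sum_range (fun j => (M + j) / (r + 1))]
    exact sum_bal _ (Nat.succ_pos r) _
  have sY : ∑ j : Fin (r + 1), (Y + (r - (j : ℕ))) / (r + 1) = Y := by
    rw [← Finset.sum_range (fun j => (Y + (r - j)) / (r + 1))]
    exact sum_balr _ _
  have hc : ∀ j : Fin (r + 1), ∃ q, q ≤ (M + (j : ℕ)) / (r + 1) ∧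
      (M + (j : ℕ)) / (r + 1) ≤ q + 1 ∧
      GG n 3 (q + (Y + (r - (j : ℕ))) / (r + 1)) ∧ q ≤ NN n 2 := fun j => by
    obtain ⟨q, h⟩ := D.d4 j j.2
    exact ⟨q, h⟩
  choose q q1 q2 q3 q4 using hc
  refine ⟨fun j => (U + (j : ℕ)) / (r + 1), fun j => (Y + (r - (j : ℕ))) / (r + 1),
    fun j => (M + (j : ℕ)) / (r + 1), q, ⟨fun j => D.d1 j j.2, ?_, fun j => ?_, q1, q3,
    fun j => ?_, ?_⟩, ?_⟩
  · rw [sU, sY]
    have := D.d2
    rw [Finset.sum_range] at this
    exact this
  · rw [sM]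
    exact D.d3 j j.2
  · have a1 := q1 j
    have a2 := q2 j
    rcases Nat.lt_or_ge (q j) ((M + (j : ℕ)) / (r + 1)) with hlt | hge
    · rw [show (M + (j : ℕ)) / (r + 1) - q j = 1 by omega]
      exact A_one (q4 j)
    · rw [show (M + (j : ℕ)) / (r + 1) - q j = 0 by omega]
      exact SWaux.A_zero (q4 j)
  · rw [sU, sY, sM]
    have := D.d5
    rw [Finset.sum_range] at this
    exact this
  · rw [sU, sY, sM]

end Pool.Agent.WarD


end

section

/-!
# Simultaneous Waring decompositions (MP_db021c_ag), degree 4, few forms: double points of quartics (Q4)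
-/

set_option autoImplicit false

open Module MvPolynomial
open Pool.Agent.War Pool.Agent.WarS

namespace Pool.Agent.WarD

namespace Q4aux

theorem GG_of_A {n d p : ℕ} (h : SWaux.A n d p 0) : GG (n + 1) d p := by
  obtain ⟨w, y, h⟩ := h
  refine ⟨w, ?_⟩
  have h1 : SWaux.DS n d w y = Dbl (n + 1) d Finset.univ w := by
    unfold SWaux.DS
    rw [iInf_of_empty, inf_top_eq]
  rw [h1] at h
  exact h

/-- the main inequality, at least `m + 1` points off the hyperplane -/
theorem ineq1 (m Q U a b : ℕ) (hN3 : 6 * b = (m + 1) * (m + 2) * (m + 3))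
    (hN4 : 24 * a = m * (m + 1) * (m + 2) * (m + 3))
    (h1 : (m + 2) * (U + Q) ≤ a + b) (h2 : a ≤ (m + 1) * U + m) :
    U + (m + 1) * Q ≤ b := by
  have e1 : 4 * a = m * b := by
    have : 24 * a = 6 * (m * b) := by
      calc 24 * a = m * ((m + 1) * (m + 2) * (m + 3)) := by rw [hN4]; ring
        _ = m * (6 * b) := by rw [hN3]
        _ = _ := by ring
    omega
  have e2 : m * m * (m + 2) * 4 ≤ (3 * m + 4) * b := by
    have : 6 * (m * m * (m + 2) * 4) ≤ 6 * ((3 * m + 4) * b) := by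
      calc 6 * (m * m * (m + 2) * 4) = (24 * (m * m)) * (m + 2) := by ring
        _ ≤ ((3 * m + 4) * ((m + 1) * (m + 3))) * (m + 2) := by
            refine Nat.mul_le_mul_right _ ?_
            zify
            nlinarith [sq_nonneg ((m : ℤ) - 2), sq_nonneg ((m : ℤ) - 1), Int.natCast_nonneg m,
              mul_nonneg (Int.natCast_nonneg m) (sq_nonneg ((m : ℤ) - 2)),
              mul_nonneg (Int.natCast_nonneg m) (sq_nonneg ((m : ℤ) - 1))]
        _ = (3 * m + 4) * ((m + 1) * (m + 2) * (m + 3)) := by ring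
        _ = (3 * m + 4) * (6 * b) := by rw [hN3]
        _ = _ := by ring
    omega
  have h3 : (m + 1) * (m + 2) * (U + (m + 1) * Q) ≤ (m + 1) * (m + 2) * b := by
    have k1 : (m + 1) * ((m + 1) * ((m + 2) * (U + Q))) ≤ (m + 1) * ((m + 1) * (a + b)) :=
      Nat.mul_le_mul_left _ (Nat.mul_le_mul_left _ h1)
    have k2 : m * (m + 2) * a ≤ m * (m + 2) * ((m + 1) * U + m) := Nat.mul_le_mul_left _ h2
    zify at *
    nlinarith
  exact Nat.le_of_mul_le_mul_left h3 (by positivity)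

/-- the main inequality, at most `m` points off the hyperplane -/
theorem ineq2 (m Q U a b : ℕ) (hN3 : 6 * b = (m + 1) * (m + 2) * (m + 3))
    (hN4 : 24 * a = m * (m + 1) * (m + 2) * (m + 3)) (hQ : 1 ≤ Q) (hQm : Q ≤ m)
    (h2 : (m + 1) * U ≤ a) :
    (m + 2 - Q) * (m + 1 - Q) / 2 + U + (m + 1) * Q ≤ b := by
  have e1 : 4 * a = m * b := by
    have : 24 * a = 6 * (m * b) := by
      calc 24 * a = m * ((m + 1) * (m + 2) * (m + 3)) := by rw [hN4]; ring
        _ = m * (6 * b) := by rw [hN3]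
        _ = _ := by ring
    omega
  obtain ⟨t, ht⟩ : ∃ t, m = Q + t := ⟨m - Q, by omega⟩
  have k1 : (m + 2 - Q) * (m + 1 - Q) = (t + 2) * (t + 1) := by
    rw [show m + 2 - Q = t + 2 by omega, show m + 1 - Q = t + 1 by omega]
  rw [k1]
  -- `(t+2)(t+1)/2 + (m+1) Q ≤ m² + m + 1`
  have k2 : (t + 2) * (t + 1) / 2 + (m + 1) * Q ≤ m * m + m + 1 := by
    have : (t + 2) * (t + 1) + 2 * ((m + 1) * Q) ≤ 2 * (m * m + m + 1) := by
      rw [ht]
      obtain ⟨q, rfl⟩ : ∃ q, Q = q + 1 := ⟨Q - 1, by omega⟩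
      nlinarith [Nat.zero_le (t * t), Nat.zero_le (t * q), Nat.le_mul_self t]
    have h3 := Nat.div_mul_le_self ((t + 2) * (t + 1)) 2
    omega
  have k3 : 24 * U ≤ m * (m + 2) * (m + 3) := by
    refine Nat.le_of_mul_le_mul_left (c := m + 1) ?_ (by omega)
    calc (m + 1) * (24 * U) = 24 * ((m + 1) * U) := by ring
      _ ≤ 24 * a := Nat.mul_le_mul_left _ h2
      _ = _ := by rw [hN4]; ring
  have k4 : 24 * (m * m + m + 1) + m * (m + 2) * (m + 3) ≤ 4 * ((m + 1) * (m + 2) * (m + 3)) := by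
    zify
    have hm : (0 : ℤ) ≤ m := Int.natCast_nonneg m
    nlinarith [mul_nonneg hm (sq_nonneg ((m : ℤ) - 1)), mul_nonneg hm hm,
      mul_nonneg hm (mul_nonneg hm hm)]
  rw [← hN3] at k4
  omega

end Q4aux

open _root_.Pool.Agent.WarD.Q4aux in
theorem x_Q4 : S_Q4 := by
  intro n p hn
  induction n, hn using Nat.le_induction generalizing p with
  | base =>
    intro hp
    have h5 : NN 1 4 = 5 := NN_one 4
    rw [h5] at hp
    exact GG_one 4 p (by omega)
  | succ n hn ih =>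
    intro hp
    have hs : NN (n + 1) 4 = NN n 4 + NN (n + 1) 3 := NN_succ n 3
    obtain ⟨-, c3, -, -, -⟩ := War5.x_CF (n + 1)
    obtain ⟨-, c3', c4, -, -⟩ := War5.x_CF n
    -- the number of points on the hyperplane
    obtain ⟨U, Q, rfl, hU, hQU⟩ : ∃ U Q, p = U + Q ∧ (n + 2) * U ≤ NN n 4 ∧
        (1 ≤ Q → NN n 4 ≤ (n + 2) * U + (n + 1)) := by
      refine ⟨min p (NN n 4 / (n + 2)), p - min p (NN n 4 / (n + 2)), by omega, ?_, fun h => ?_⟩
      · exact (Nat.mul_le_mul_left _ (min_le_right _ _)).trans (Nat.mul_div_le _ _)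
      · have h1 : min p (NN n 4 / (n + 2)) = NN n 4 / (n + 2) := by omega
        rw [h1]
        have h2 := Nat.div_add_mod (NN n 4) (n + 2)
        have h3 := Nat.mod_lt (NN n 4) (show 0 < n + 2 by omega)
        omega
    have hA := ih U hU
    have hb : SWaux.A n 3 Q U := by
      rcases Nat.eq_zero_or_pos Q with rfl | hQ
      · refine SWaux.A_zero ?_
        have e1 : 4 * NN n 4 = (n + 4) * NN n 3 := by
          have : 24 * NN n 4 = 6 * ((n + 4) * NN n 3) := by
            calc 24 * NN n 4 = (n + 4) * ((n + 1) * (n + 2) * (n + 3)) := by rw [c4]; ring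
              _ = (n + 4) * (6 * NN n 3) := by rw [c3']
              _ = _ := by ring
          omega
        refine Nat.le_of_mul_le_mul_left (c := 4 * (n + 2)) ?_ (by omega)
        calc 4 * (n + 2) * U = 4 * ((n + 2) * U) := by ring
          _ ≤ 4 * NN n 4 := Nat.mul_le_mul_left _ hU
          _ = (n + 4) * NN n 3 := e1
          _ ≤ 4 * (n + 2) * NN n 3 := Nat.mul_le_mul_right _ (by omega)
      · have hQ2 := hQU hQ
        have c3m : 6 * NN (n + 1) 3 = (n + 1 + 1) * (n + 1 + 2) * (n + 1 + 3) := c3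
        have c4m : 24 * NN n 4 = (n + 1) * (n + 1 + 1) * (n + 1 + 2) * (n + 1 + 3) := by
          rw [c4]
        have hkey : (if n + 1 + 1 ≤ Q then 0 else (n + 1 + 2 - Q) * (n + 1 + 1 - Q) / 2) + U +
            (n + 2) * Q ≤ NN (n + 1) 3 := by
          split_ifs with hif
          · have := ineq1 (n + 1) Q U (NN n 4) (NN (n + 1) 3) c3m c4m
              (by rw [← hs]; exact hp) hQ2
            rw [zero_add]
            exact this
          · exact ineq2 (n + 1) Q U (NN n 4) (NN (n + 1) 3) c3m c4m hQ (by omega) hU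
        have hcub : GG (n + 1) 3 Q := by
          refine WarM.CUBIC (n + 1) Q (Or.inl ?_)
          rcases Nat.lt_or_ge n 3 with h3 | h3
          · obtain rfl | rfl : n = 1 ∨ n = 2 := by omega
            · have a1 : NN 1 4 = 5 := NN_one 4
              have a2 : NN (1 + 1) 3 = 10 := by omega
              rw [a2]
              rw [hs, a1, a2] at hp
              rw [a1] at hU hQ2
              omega
            · have a1 : NN 2 4 = 15 := by omega
              have a2 : NN (2 + 1) 3 = 20 := by omega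
              rw [a2]
              rw [hs, a1, a2] at hp
              rw [a1] at hU hQ2
              omega
          · have hU2 : n + 2 ≤ U := by
              by_contra hc
              have hc' : U ≤ n + 1 := by omega
              have h1 : NN n 4 ≤ (n + 2) * (n + 1) + (n + 1) :=
                hQ2.trans (Nat.add_le_add_right (Nat.mul_le_mul_left _ hc') _)
              have h2 : (n + 1) * (24 * (n + 3)) < (n + 1) * ((n + 2) * (n + 3) * (n + 4)) := by
                refine Nat.mul_lt_mul_of_pos_left ?_ (by omega)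
                calc 24 * (n + 3) < (n + 2) * (n + 4) * (n + 3) := by
                      refine Nat.mul_lt_mul_of_pos_right ?_ (by omega)
                      nlinarith
                  _ = _ := by ring
              have h3 : 24 * NN n 4 = (n + 1) * ((n + 2) * (n + 3) * (n + 4)) := by
                rw [c4]; ring
              have h4 : 24 * ((n + 2) * (n + 1) + (n + 1)) = (n + 1) * (24 * (n + 3)) := by ring
              omega
            calc (n + 1 + 1) * (Q + 1) = (n + 2) * Q + (n + 2) := by ring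
              _ ≤ (n + 2) * Q + U := Nat.add_le_add_left hU2 _
              _ ≤ NN (n + 1) 3 := by omega
        exact War5.x_AK n 2 Q U _ hcub (War5.x_QD (n + 1) Q hQ) hkey
    exact GG_of_A (SWaux.A_step hA hb (by
      rw [add_zero]
      exact (Nat.mul_le_mul_right _ (by omega)).trans hU))

end Pool.Agent.WarD


end

section

/-!
# Simultaneous Waring decompositions (MP_db021c_ag), degree 4, few forms: the numbers   (helper27)
-/

set_option autoImplicit false

open Module MvPolynomial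
open Pool.Agent.War Pool.Agent.WarS

namespace Pool.Agent.WarD

namespace NumG

theorem ineq1 (m t : ℤ) (hm : 40 ≤ m) (ht1 : m + 2 ≤ t) (ht2 : t ≤ 2 * m) :
    24 * (t * (t - 2) ^ 2) + 24 * (t * (t - 1) * (m + 1)) ≤
      (m + 1) * (m + 2) * (m + 3) * (4 * t - m - 4) := by
  obtain ⟨a, rfl⟩ : ∃ a, t = m + 2 + a := ⟨t - m - 2, by ring⟩
  have ha : 0 ≤ a := by linarith
  have ha2 : a ≤ m := by linarith
  have h1 : a * a ≤ m * a := mul_le_mul_of_nonneg_right ha2 ha
  -- the right side, linear in `a`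
  have h2 : 24 * ((m + 2 + a) * (m + 2 + a - 2) ^ 2) +
      24 * ((m + 2 + a) * (m + 2 + a - 1) * (m + 1)) ≤
      24 * ((m + 2) * (2 * m ^ 2 + 2 * m + 1) + a * (10 * m ^ 2 + 12 * m + 3)) := by
    have e : (m + 2) * (2 * m ^ 2 + 2 * m + 1) + a * (10 * m ^ 2 + 12 * m + 3) -
        ((m + 2 + a) * (m + 2 + a - 2) ^ 2 + (m + 2 + a) * (m + 2 + a - 1) * (m + 1)) =
        (m * a - a * a) * (5 * m + 3 + a) := by ring
    have : 0 ≤ (m * a - a * a) * (5 * m + 3 + a) :=
      mul_nonneg (by linarith) (by linarith)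
    linarith
  refine h2.trans ?_
  have f0 : 24 * ((m + 2) * (2 * m ^ 2 + 2 * m + 1)) ≤ (m + 1) * (m + 2) * (m + 3) * (3 * m + 4) := by
    nlinarith [mul_nonneg (by linarith : (0 : ℤ) ≤ m - 40) (by positivity : (0 : ℤ) ≤ m ^ 3 + m ^ 2)]
  have f1 : 24 * ((m + 2) * (2 * m ^ 2 + 2 * m + 1) + m * (10 * m ^ 2 + 12 * m + 3)) ≤
      (m + 1) * (m + 2) * (m + 3) * (7 * m + 4) := by
    nlinarith [mul_nonneg (by linarith : (0 : ℤ) ≤ m - 40) (by positivity : (0 : ℤ) ≤ m ^ 3 + m ^ 2)]
  have f2 : m * (24 * ((m + 2) * (2 * m ^ 2 + 2 * m + 1) + a * (10 * m ^ 2 + 12 * m + 3))) ≤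
      m * ((m + 1) * (m + 2) * (m + 3) * (4 * (m + 2 + a) - m - 4)) := by
    have g0 := mul_le_mul_of_nonneg_left f0 (by linarith : (0 : ℤ) ≤ m - a)
    have g1 := mul_le_mul_of_nonneg_left f1 ha
    have e1 : m * (24 * ((m + 2) * (2 * m ^ 2 + 2 * m + 1) + a * (10 * m ^ 2 + 12 * m + 3))) =
      (m - a) * (24 * ((m + 2) * (2 * m ^ 2 + 2 * m + 1))) +
      a * (24 * ((m + 2) * (2 * m ^ 2 + 2 * m + 1) + m * (10 * m ^ 2 + 12 * m + 3))) := by ring
    have e2 : m * ((m + 1) * (m + 2) * (m + 3) * (4 * (m + 2 + a) - m - 4)) =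
      (m - a) * ((m + 1) * (m + 2) * (m + 3) * (3 * m + 4)) +
      a * ((m + 1) * (m + 2) * (m + 3) * (7 * m + 4)) := by ring
    rw [e1, e2]
    exact add_le_add g0 g1
  exact le_of_mul_le_mul_left f2 (by linarith)

theorem ineq2 (m t : ℤ) (hm : 40 ≤ m) (ht1 : m + 2 ≤ t) :
    (m + 1) * (m + 2) * (m + 3) * (4 * t - m - 4) + 72 * t ^ 2 ≤
      4 * (t * (t - 1) * ((m + 1) * (m + 2))) := by
  have h1 : (m + 3) * (4 * t - m - 4) ≤ 3 * t ^ 2 + t - 2 := by
    obtain ⟨a, rfl⟩ : ∃ a, t = m + 2 + a := ⟨t - m - 2, by ring⟩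
    have ha : 0 ≤ a := by linarith
    nlinarith [mul_nonneg ha (by linarith : (0 : ℤ) ≤ m), mul_nonneg ha ha]
  have h2 : 0 ≤ (m + 1) * (m + 2) := mul_nonneg (by linarith) (by linarith)
  have h3 := mul_le_mul_of_nonneg_left h1 h2
  have h4 : 72 * t ^ 2 ≤ (m + 1) * (m + 2) * (t ^ 2 - 5 * t + 2) := by
    have h5 : 0 ≤ t ^ 2 - 5 * t + 2 := by nlinarith
    have h6 : (1600 : ℤ) ≤ (m + 1) * (m + 2) := by nlinarith
    have h7 := mul_le_mul_of_nonneg_right h6 h5
    nlinarith
  nlinarith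

theorem core (m s w y h M0 N σ : ℤ) (hm : 40 ≤ m) (hs : 2 ≤ s) (hsm : s ≤ m)
    (e1 : 24 * M0 = m * (m + 1) * (m + 2) * (m + 3))
    (e2 : 24 * N = (m + 1) * (m + 2) * (m + 3) * (m + 4))
    (e3 : M0 = (m + s - 1) * w + y) (hy : 0 ≤ y) (hy' : y ≤ m + s - 2)
    (e4 : (m + s) * h = s * N + σ) (hσ : 0 ≤ σ) (hσ' : σ ≤ m + s - 1) :
    s * (m + 1) ≤ h - s * w - s * y ∧ 6 * (h - s * w + 2 * s - 1) ≤ s * ((m + 1) * (m + 2)) ∧
      m + 1 ≤ w := by
  obtain ⟨t, ht⟩ : ∃ t, t = m + s := ⟨_, rfl⟩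
  have ht1 : m + 2 ≤ t := by linarith
  have ht2 : t ≤ 2 * m := by linarith
  have tp : 0 < t := by linarith
  have tp1 : 0 < t - 1 := by linarith
  have tpp : 0 < t * (t - 1) := mul_pos tp tp1
  have e3' : (t - 1) * w = M0 - y := by rw [ht]; linarith
  have e4' : t * h = s * N + σ := by rw [ht]; exact e4
  have hy'' : y ≤ t - 2 := by linarith
  have hσ'' : σ ≤ t - 1 := by linarith
  have G : 24 * ((t - 1) * N - t * M0) = (m + 1) * (m + 2) * (m + 3) * (4 * t - m - 4) := by
    have : 24 * ((t - 1) * N - t * M0) = (t - 1) * (24 * N) - t * (24 * M0) := by ring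
    rw [this, e1, e2]
    ring
  have K : t * (t - 1) * (h - s * w) = s * ((t - 1) * N - t * M0) + (t - 1) * σ + s * t * y := by
    calc t * (t - 1) * (h - s * w) = (t - 1) * (t * h) - s * t * ((t - 1) * w) := by ring
      _ = _ := by rw [e3', e4']; ring
  have i1 := ineq1 m t hm ht1 ht2
  have i2 := ineq2 m t hm ht1
  have hsp : 0 ≤ s := by linarith
  refine ⟨?_, ?_, ?_⟩
  · refine le_of_mul_le_mul_left (a := 24 * (t * (t - 1))) ?_ (by linarith)
    have a1 : 24 * (t * (t - 1)) * (h - s * w - s * y) =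
        s * (24 * ((t - 1) * N - t * M0)) + 24 * ((t - 1) * σ) - 24 * (s * (t * (t - 2)) * y) := by
      calc _ = 24 * (t * (t - 1) * (h - s * w)) - 24 * (t * (t - 1)) * (s * y) := by ring
        _ = _ := by rw [K]; ring
    have a2 : 0 ≤ (t - 1) * σ := mul_nonneg tp1.le hσ
    have a3 : s * (t * (t - 2)) * y ≤ s * (t * (t - 2)) * (t - 2) :=
      mul_le_mul_of_nonneg_left hy'' (mul_nonneg hsp (mul_nonneg tp.le (by linarith)))
    have a4 := mul_le_mul_of_nonneg_left i1 hsp
    rw [a1, G]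
    nlinarith
  · refine le_of_mul_le_mul_left (a := 4 * (t * (t - 1))) ?_ (by linarith)
    have a1 : 24 * (t * (t - 1) * (h - s * w)) =
        s * (24 * ((t - 1) * N - t * M0)) + 24 * ((t - 1) * σ) + 24 * (s * t * y) := by
      rw [K]; ring
    have a2 : (t - 1) * σ ≤ (t - 1) * (t - 1) := mul_le_mul_of_nonneg_left hσ'' tp1.le
    have a3 : s * t * y ≤ s * t * (t - 2) :=
      mul_le_mul_of_nonneg_left hy'' (mul_nonneg hsp tp.le)
    have a4 := mul_le_mul_of_nonneg_left i2 hsp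
    have a5 : (t - 1) * (t - 1) + s * t * (t - 2) + t * (t - 1) * (2 * s - 1) ≤ 3 * (s * t ^ 2) := by
      nlinarith [mul_nonneg hsp tp.le, mul_nonneg hsp tpp.le]
    rw [G] at a1
    nlinarith
  · by_contra hc
    push Not at hc
    have h1 : w ≤ m := by linarith
    have h2 : (t - 1) * w ≤ (t - 1) * m := mul_le_mul_of_nonneg_left h1 tp1.le
    have h3 : M0 ≤ (t - 1) * m + (t - 2) := by linarith
    have h4 : 24 * M0 ≤ 24 * ((2 * m) * m + 2 * m) := by nlinarith
    rw [e1] at h4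
    nlinarith [mul_nonneg (by linarith : (0 : ℤ) ≤ m - 40) (by positivity : (0 : ℤ) ≤ m ^ 3 + m ^ 2 + m)]

theorem div_const {s a j : ℕ} (hj : j < s) : (s * a + j) / s = a := by
  rw [Nat.mul_add_div (by omega), Nat.div_eq_of_lt hj, add_zero]

/-- the general case -/
theorem gen (hQ4 : S_Q4) (n r : ℕ) (hn : 39 ≤ n) (hr : 1 ≤ r) (hrn : r ≤ n) :
    ∃ U Y M, Dat n r U Y M ∧ ∀ h, (r + 1) * NN (n + 1) 4 ≤ (n + r + 2) * h → U + Y + M ≤ h := by
  have N4 := WarM.NNb_four n
  have N4' := WarM.NNb_four (n + 1)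
  have N3 := WarM.NNb_three n
  have N2 := WarM.NNb_two n
  have hP := NN_succ n 3
  norm_num at hP
  -- quotient and remainder
  obtain ⟨w, y, hwy, hy⟩ : ∃ w y, NN n 4 = (n + r + 1) * w + y ∧ y ≤ n + r :=
    ⟨NN n 4 / (n + r + 1), NN n 4 % (n + r + 1), (Nat.div_add_mod _ _).symm,
      Nat.le_of_lt_succ (Nat.mod_lt _ (by omega))⟩
  set D := n + r + 2 with hD
  have hDp : 0 < D := by omega
  set B := (r + 1) * NN (n + 1) 4 with hB
  set h0 := (B + (D - 1)) / D with hh0
  have a1 : B ≤ D * h0 := by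
    have := Nat.lt_mul_div_succ (B + (D - 1)) hDp
    rw [← hh0, Nat.mul_add, mul_one] at this
    omega
  have a2 : D * h0 ≤ B + (D - 1) := by rw [hh0]; exact Nat.mul_div_le _ _
  obtain ⟨σ, hσ⟩ : ∃ σ, D * h0 = B + σ := ⟨D * h0 - B, by omega⟩
  have hσ' : σ ≤ D - 1 := by omega
  obtain ⟨c1, c2, c3⟩ := core (n + 1) (r + 1) w y h0 (NN n 4) (NN (n + 1) 4) σ
    (by omega) (by omega) (by omega)
    (by have := congrArg (fun x : ℕ => (x : ℤ)) N4
        push_cast at this ⊢
        linear_combination this)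
    (by have := congrArg (fun x : ℕ => (x : ℤ)) N4'
        push_cast at this ⊢
        linear_combination this)
    (by have := congrArg (fun x : ℕ => (x : ℤ)) hwy
        push_cast at this ⊢
        linear_combination this)
    (by omega) (by omega)
    (by have := congrArg (fun x : ℕ => (x : ℤ)) hσ
        rw [hB, hD] at this
        push_cast at this ⊢
        linear_combination this)
    (by omega) (by omega)
  -- the number of the points off the hyperplane
  obtain ⟨M, hM⟩ : ∃ M, h0 = (r + 1) * w + (r + 1) * y + M := by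
    refine ⟨h0 - ((r + 1) * w + (r + 1) * y), ?_⟩
    have : (r + 1) * w + (r + 1) * y ≤ h0 := by
      zify
      nlinarith
    omega
  have c1' : (r + 1) * (n + 2) ≤ M := by
    zify at hM ⊢
    rw [hM] at c1
    linarith
  have c2' : 6 * (M + (r + 1) * y + 2 * r + 1) ≤ (r + 1) * ((n + 2) * (n + 3)) := by
    zify at hM ⊢
    rw [hM] at c2
    linarith
  have c3' : n + 2 ≤ w := by
    zify
    linarith
  -- the numbers `p`
  have p1 : ∀ j < r + 1, (r + 1) * ((M + j) / (r + 1)) ≤ M + r := fun j hj =>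
    (Nat.mul_div_le _ _).trans (by omega)
  have p2 : ∀ j < r + 1, n + 2 ≤ (M + j) / (r + 1) := fun j hj =>
    (Nat.le_div_iff_mul_le (by omega)).2 (by nlinarith)
  have p3 : ∀ j < r + 1, 6 * ((M + j) / (r + 1) + y + 1) ≤ (n + 2) * (n + 3) := fun j hj => by
    have := p1 j hj
    refine Nat.le_of_mul_le_mul_left (c := r + 1) ?_ (by omega)
    nlinarith
  have yc : ∀ j < r + 1, ((r + 1) * y + (r - j)) / (r + 1) = y := fun j hj =>
    div_const (by omega)
  have wc : ∀ j < r + 1, ((r + 1) * w + j) / (r + 1) = w := fun j hj => div_const hj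
  have key : (r + 1) * NN (n + 1) 3 + σ = (n + r + 2) * M + (r + 1) * ((n + r + 1) * y) +
      (r + 1) * w := by
    have h1 : (r + 1) * NN (n + 1) 4 + σ = (n + r + 2) * ((r + 1) * w + (r + 1) * y + M) := by
      rw [← hM]
      exact hσ.symm
    rw [hP, hwy] at h1
    zify at h1 ⊢
    linear_combination h1
  have v0 : ∀ j < r + 1, (n + 1) * ((M + j) / (r + 1)) + M + (n * y + (r + 1) * y) ≤
      NN (n + 1) 3 := fun j hj => by
    have b1 := p1 j hj
    refine Nat.le_of_mul_le_mul_left (c := r + 1) ?_ (by omega)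
    have b2 : (n + 1) * ((r + 1) * ((M + j) / (r + 1))) ≤ (n + 1) * (M + r) :=
      Nat.mul_le_mul_left _ b1
    have b3 : (r + 1) * (n + 2) ≤ (r + 1) * w := Nat.mul_le_mul_left _ c3'
    have b4 : (r + 1) * ((n + 1) * ((M + j) / (r + 1)) + M + (n * y + (r + 1) * y)) =
      (n + 1) * ((r + 1) * ((M + j) / (r + 1))) + (r + 1) * M + (r + 1) * ((n + r + 1) * y) := by
      ring
    rw [b4]
    have b5 : σ + (n + 1) * r ≤ (r + 1) * (n + 2) := by
      have : σ ≤ n + r + 1 := by omega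
      nlinarith
    nlinarith
  refine ⟨(r + 1) * w, (r + 1) * y, M, ⟨fun j hj => ?_, ?_, fun j hj => ?_, fun j hj => ?_, ?_⟩,
    fun h hh => ?_⟩
  · rw [wc j hj]
    refine hQ4 n w (by omega) ?_
    rw [hwy]
    nlinarith
  · have : ∀ j ∈ Finset.range (r + 1), (NN n 4 - (n * (((r + 1) * w + j) / (r + 1)) + (r + 1) * w)) =
        y := fun j hj => by
      rw [wc j (Finset.mem_range.1 hj), hwy]
      have : (n + r + 1) * w = n * w + (r + 1) * w := by ring
      omega
    rw [Finset.sum_congr rfl this, Finset.sum_const, Finset.card_range, smul_eq_mul]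
  · have := p2 j hj
    rw [show n + 2 - (M + j) / (r + 1) = 0 by omega, mul_zero]
    exact Nat.zero_le _
  · refine ⟨(M + j) / (r + 1), le_rfl, by omega, ?_, ?_⟩
    · rw [yc j hj]
      refine WarM.CUBIC n _ (Or.inl ?_)
      have := p3 j hj
      refine Nat.le_of_mul_le_mul_left (c := 6) ?_ (by norm_num)
      rw [N3]
      nlinarith
    · have := p3 j hj
      refine Nat.le_of_mul_le_mul_left (c := 2) ?_ (by norm_num)
      rw [N2]
      nlinarith
  · have hs : ∑ j ∈ Finset.range (r + 1), (NN (n + 1) 3 - ((n + 1) * ((M + j) / (r + 1)) + M +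
        (n * (((r + 1) * y + (r - j)) / (r + 1)) + (r + 1) * y))) +
        ∑ j ∈ Finset.range (r + 1), ((n + 1) * ((M + j) / (r + 1)) + M +
        (n * y + (r + 1) * y)) = (r + 1) * NN (n + 1) 3 := by
      rw [← Finset.sum_add_distrib]
      rw [Finset.sum_congr rfl (g := fun _ => NN (n + 1) 3) fun j hj => by
        rw [yc j (Finset.mem_range.1 hj)]
        have := v0 j (Finset.mem_range.1 hj)
        omega]
      rw [Finset.sum_const, Finset.card_range, smul_eq_mul]
    have hs2 : ∑ j ∈ Finset.range (r + 1), ((n + 1) * ((M + j) / (r + 1)) + M +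
        (n * y + (r + 1) * y)) = (n + r + 2) * M + (r + 1) * ((n + r + 1) * y) := by
      rw [Finset.sum_add_distrib, Finset.sum_add_distrib, ← Finset.mul_sum,
        sum_bal (r + 1) (Nat.succ_pos r) M, Finset.sum_const, Finset.sum_const, Finset.card_range,
        smul_eq_mul, smul_eq_mul]
      ring
    omega
  · have : h0 ≤ h := by
      by_contra hc
      push Not at hc
      have : D * (h + 1) ≤ D * h0 := Nat.mul_le_mul_left _ hc
      rw [Nat.mul_add, mul_one] at this
      omega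
    omega

end NumG

end Pool.Agent.WarD


end
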