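import Mathlib
import Pool.Agent.CLAM.C02
import Pool.Agent.CLAM.C07
import Pool.Agent.CLAM.C08
import Pool.Agent.CLAM.C09
import Pool.Agent.CLAM.C10

/-! Parts: WarC.COR3, WarC.NUMC, WarQ.CA, WarC.NUMFc, WarC.NUMB, War5.NC -/

section

/-!
# MP_db021c_ag, cubics: the Horace core in degree 3 (`S_COR3`)   (helper80)

Adapted from `SBaux.core` in `Pool/Agent/WarQ/SB.lean`.
-/

set_option autoImplicit false

open Module MvPolynomial
open Pool.Agent.War Pool.Agent.WarS Pool.Agent.WarQ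

namespace Pool.Agent.WarC

namespace COR3aux

/-- the Horace core with off points indexed by `α` and `Fin e` -/
theorem core (ν δ b e q eH : ℕ) (α : Type) [Fintype α] (hν : 1 ≤ ν)
    (hGG : GG ν (δ + 2) q) (h2 : NN ν (δ + 2) ≤ ν * q + (b * q + eH))
    (h3 : NN (ν + 1) δ ≤ Fintype.card α + e)
    (hx : ∃ x : (α ⊕ Fin e → Fin (ν + 1) → ℂ) × (α → Fin b → ℂ),
      finrank ℂ (TrC1 (ν + 1) (δ + 1) x) ≤ b * q) :
    ∃ (z : (Fin b × Fin q) ⊕ α → Fin (ν + 1) → ℂ)
      (a : (Fin b × Fin q) ⊕ α → Fin b → ℂ)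
      (y : Fin eH ⊕ Fin e → Fin (ν + 1) → ℂ), Kill (ν + 1) (δ + 2) z a y := by
  classical
  obtain ⟨x₀, hx₀⟩ := hx
  -- the off points
  have gA := (PK_TrC1 (ν + 1) (δ + 1) (α := α) (β := Fin e) (γ := Fin b)).gen_finrank
    (x₀ := x₀) hx₀
  have hfst : Function.Surjective
      (LinearMap.fst ℂ (α ⊕ Fin e → Fin (ν + 1) → ℂ) (α → Fin b → ℂ)) :=
    LinearMap.fst_surjective
  have gB := (gen_off (n := ν) (I := α ⊕ Fin e)).comp
    (LinearMap.fst ℂ (α ⊕ Fin e → Fin (ν + 1) → ℂ) (α → Fin b → ℂ)) hfst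
  have gC := (SG (ν + 1) δ (α ⊕ Fin e) ∅ (by omega)
    (by rw [Finset.card_empty]; exact GG.zero _ _)).comp
    (LinearMap.fst ℂ (α ⊕ Fin e → Fin (ν + 1) → ℂ) (α → Fin b → ℂ)) hfst
  obtain ⟨x', ⟨hV, hoff⟩, hC⟩ := ((gA.and gB).and gC).exists
  simp only [LinearMap.fst_apply] at hoff hC
  have hC' : Dbl (ν + 1) δ ∅ x'.1 = ⊥ := by
    refine Dbl_eq_botC1 hC ?_
    have hc : Fintype.card (α ⊕ Fin e) = Fintype.card α + e := by simp
    rw [hc]
    simp only [Finset.card_empty, mul_zero, zero_add]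
    omega
  set V : Submodule ℂ (Fin b → Pol (ν + 1) (δ + 1)) := TrC1 (ν + 1) (δ + 1) x' with hVdef
  -- points with one condition on the hyperplane
  have hred : ∀ w ∈ V, w ∉ (⊥ : Submodule ℂ (Fin b → Pol (ν + 1) (δ + 1))) →
      ∃ y : (Fin ν → ℂ) × (Fin b → ℂ), OmC1 ν (δ + 1) y w ≠ 0 := by
    intro w hw hw0
    by_contra hcon
    push Not at hcon
    apply hw0
    rw [Submodule.mem_bot]
    funext j
    have e1 : ∀ p : Fin ν → ℂ, eval p (res ν (w j : MvPolynomial (Fin (ν + 1)) ℂ)) = 0 := by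
      intro p
      have := hcon (p, Pi.single j 1)
      rw [OmC1_apply] at this
      simpa [Pi.single_apply, eval_hp] using this
    have e2 : res ν (w j : MvPolynomial (Fin (ν + 1)) ℂ) = 0 :=
      MvPolynomial.funext fun p => by rw [e1, map_zero]
    obtain ⟨g, hg⟩ := exists_mulXC1 e2
    have e3 : g ∈ Dbl (ν + 1) δ ∅ x'.1 := by
      refine Dbl_of_mulXC1 hoff ?_
      rw [← hg]
      exact mem_Dbl.2 ⟨fun i => (mem_TrC1.1 hw).1 i j, fun i hi => absurd hi (Finset.notMem_empty i)⟩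
    rw [hC', Submodule.mem_bot] at e3
    rw [hg, e3, map_zero]
    rfl
  obtain ⟨yy, hyy⟩ := red (OmC1 ν (δ + 1)) V ⊥ hred (b * q)
  have hyy' : V ⊓ ⨅ i, LinearMap.ker (OmC1 ν (δ + 1) (yy i)) = ⊥ := by
    apply Submodule.finrank_eq_zero.1
    have : finrank ℂ (⊥ : Submodule ℂ (Fin b → Pol (ν + 1) (δ + 1))) = 0 := finrank_bot _ _
    rw [this] at hyy
    omega
  have hres : Gen ℂ fun x : ((Fin b × Fin q) ⊕ Fin eH → Fin ν → ℂ) × (Fin b × Fin q → Fin b → ℂ) =>
      (⨅ i : Fin b × Fin q, LinearMap.ker (OmC1 ν (δ + 1) (x.1 (Sum.inl i), x.2 i))).comap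
        V.subtype = ⊥ := by
    have hPK := PK_OmC1 ν (δ + 1) (α := Fin b × Fin q) (β := Fin eH) (γ := Fin b)
    refine (PK.comap (V' := V) hPK V.subtype).gen_bot
      (x₀ := (Sum.elim (fun q => (yy (finProdFinEquiv q)).1) (fun _ => 0),
        fun q => (yy (finProdFinEquiv q)).2)) ?_
    rw [eq_bot_iff]
    intro v hv
    rw [Submodule.mem_comap, Submodule.mem_iInf] at hv
    have : (v : Fin b → Pol (ν + 1) (δ + 1)) ∈
        V ⊓ ⨅ i, LinearMap.ker (OmC1 ν (δ + 1) (yy i)) := by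
      refine ⟨v.2, (Submodule.mem_iInf _).2 fun i => ?_⟩
      have := hv (finProdFinEquiv.symm i)
      simp only [Sum.elim_inl, Equiv.apply_symm_apply] at this
      exact this
    rw [hyy', Submodule.mem_bot] at this
    rw [Submodule.mem_bot]
    exact Subtype.ext this
  obtain ⟨x, hx1, hx2⟩ := ((SBaux.trace SG ν (δ + 2) b q eH hν hGG h2).and hres).exists
  refine ⟨Sum.elim (fun i => hp (x.1 (Sum.inl i))) (fun i => x'.1 (Sum.inl i)),
    Sum.elim x.2 x'.2,
    Sum.elim (fun i => hp (x.1 (Sum.inr i))) (fun i => x'.1 (Sum.inr i)), ?_⟩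
  intro f hf k1 k2 k3
  -- trace
  have t1 : (fun j => resL ν (δ + 2) ⟨f j, mem_Pol.2 (hf j)⟩) ∈ TrC1 ν (δ + 2) x := by
    refine mem_TrC1.2 ⟨?_, fun i k => ?_⟩
    · rintro (i | i) j
      · have := k1 (Sum.inl i) j
        rw [Sum.elim_inl, eval_hp] at this
        exact this
      · have := k3 (Sum.inl i) j
        rw [Sum.elim_inl, eval_hp] at this
        exact this
    · have := k2 (Sum.inl i) k.succ
      simp only [Sum.elim_inl, eval_hp_pderiv] at this
      exact this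
  rw [hx1, Submodule.mem_bot] at t1
  have t2 : ∀ j, ∃ g : Pol (ν + 1) (δ + 1), (⟨f j, mem_Pol.2 (hf j)⟩ : Pol (ν + 1) (δ + 2)) =
      mulX ν (δ + 1) g := fun j => by
    refine exists_mulXC1 ?_
    have := congrArg Subtype.val (congrFun t1 j)
    simpa using this
  choose g hg using t2
  have hg' : ∀ j, f j = X 0 * (g j : MvPolynomial (Fin (ν + 1)) ℂ) := fun j =>
    congrArg Subtype.val (hg j)
  have tz : ∀ i j, eval (x'.1 i) (g j : MvPolynomial (Fin (ν + 1)) ℂ) = 0 := by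
    intro i j
    have h : eval (x'.1 i) (f j) = 0 := by
      rcases i with i | i
      · exact k1 (Sum.inr i) j
      · exact k3 (Sum.inr i) j
    rw [hg', eval_X_mulC1] at h
    exact (mul_eq_zero.1 h).resolve_left (hoff i)
  have t3 : g ∈ V := by
    refine mem_TrC1.2 ⟨tz, fun i k => ?_⟩
    have h := k2 (Sum.inr i) k
    simp only [Sum.elim_inr, hg', eval_pderiv_X_mulC1, tz, mul_zero, add_zero] at h
    have h' : x'.1 (Sum.inl i) 0 * ∑ j, x'.2 i j *
        eval (x'.1 (Sum.inl i)) (pderiv k (g j : MvPolynomial (Fin (ν + 1)) ℂ)) = 0 := by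
      rw [Finset.mul_sum, ← h]
      exact Finset.sum_congr rfl fun j _ => by ring
    exact (mul_eq_zero.1 h').resolve_left (hoff (Sum.inl i))
  have t4 : (⟨g, t3⟩ : V) ∈
      (⨅ i : Fin b × Fin q, LinearMap.ker (OmC1 ν (δ + 1) (x.1 (Sum.inl i), x.2 i))).comap
        V.subtype := by
    rw [Submodule.mem_comap, Submodule.mem_iInf]
    intro i
    rw [LinearMap.mem_ker, Submodule.subtype_apply, OmC1_apply]
    have := k2 (Sum.inl i) 0
    simp only [Sum.elim_inl, hg', eval_pderiv_X_mulC1, hp_zero, zero_mul, zero_add,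
      if_true, one_mul] at this
    exact this
  rw [hx2, Submodule.mem_bot] at t4
  intro j
  have : g j = 0 := congrFun (congrArg Subtype.val t4) j
  rw [hg', this]
  simp

end COR3aux

theorem x_COR3 : S_COR3 := by
  intro ν b u e eH α _ hν hGG h2 h3 hx
  exact COR3aux.core ν 1 b e u eH α hν hGG h2 (by rw [NN_right_one]; omega) hx

end Pool.Agent.WarC


end

section

/-!
# The choice of the numbers in the block lemma for cubics   (helper97)
-/

set_option autoImplicit false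

open Module MvPolynomial
open Pool.Agent.War Pool.Agent.WarS Pool.Agent.WarQ

namespace Pool.Agent.WarC

namespace NUMCaux

/-- the conclusion -/
def Goal (n b q D c N1 N2 : ℕ) : Prop :=
  ∃ u r e : ℕ, u + r = q ∧ n ≤ u + D ∧ (n - 1 + b) * u ≤ N1 ∧ 9 * u ≤ (n + 2) ^ 2 ∧
    2 * (r + 1) ≤ n + 1 ∧ (b * r + c) + e + (n * r + D + u) = N2 ∧ n + 1 ≤ (b * r + c) + e

/-- bound of `Q` -/
theorem nineQ {n Q N1 : ℕ} (hn : 3 ≤ n) (h1 : 6 * N1 = n * (n + 1) * (n + 2))
    (hQ : (2 * n - 1) * Q ≤ N1) : 9 * Q ≤ (n + 2) ^ 2 := by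
  obtain ⟨m, rfl⟩ : ∃ m, n = m + 3 := ⟨n - 3, by omega⟩
  have e : 2 * (m + 3) - 1 = 2 * m + 5 := by omega
  rw [e] at hQ
  by_contra hc
  push Not at hc
  have h2 : (2 * m + 5) * ((m + 3 + 2) ^ 2 + 1) ≤ (2 * m + 5) * (9 * Q) :=
    Nat.mul_le_mul_left _ hc
  nlinarith [Nat.zero_le (m ^ 2), Nat.zero_le (m ^ 3)]

/-- the case `q ≤ Q` -/
theorem small {n b q D c N1 N2 Q : ℕ} (hn : 3 ≤ n) (hbn : b ≤ n)
    (hDn : D < n) (hqD : n ≤ q + D) (hc2 : n * c < b * D + n)
    (h1 : 6 * N1 = n * (n + 1) * (n + 2)) (h2 : 2 * N2 = (n + 1) * (n + 2))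
    (hQ : (2 * n - 1) * Q ≤ N1) (hq : q ≤ Q) : Goal n b q D c N1 N2 := by
  have h9 := nineQ hn h1 hQ
  have hc : c ≤ D := by
    by_contra hcD
    push Not at hcD
    have h3 : n * (D + 1) ≤ n * c := Nat.mul_le_mul_left _ hcD
    have h4 : b * D ≤ n * D := Nat.mul_le_mul_right _ hbn
    nlinarith
  have h5 : 2 * n + Q ≤ N2 := by nlinarith
  refine ⟨q, 0, N2 - (c + D + q), by omega, hqD, ?_, by omega, by omega, ?_, ?_⟩
  · have h6 : (n - 1 + b) * q ≤ (2 * n - 1) * Q := Nat.mul_le_mul (by omega) hq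
    omega
  · simp only [Nat.mul_zero]
    omega
  · simp only [Nat.mul_zero]
    omega

/-- the case `n ≥ 18` -/
theorem big {n b q D c N1 N2 N3 Q : ℕ} (hn : 18 ≤ n) (hbn : b ≤ n)
    (hD1 : 1 ≤ D) (hc2 : n * c < b * D + n)
    (h1 : 6 * N1 = n * (n + 1) * (n + 2)) (h2 : 2 * N2 = (n + 1) * (n + 2))
    (h3 : N3 = N1 + N2) (hμ : (2 * n + 1) * (n * q + D) ≤ n * N3)
    (hQ : (2 * n - 1) * Q ≤ N1) (hQ2 : N1 < (2 * n - 1) * (Q + 1)) (hq : Q < q) :
    Goal n b q D c N1 N2 := by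
  have h9 := nineQ (by omega) h1 hQ
  obtain ⟨r, rfl⟩ : ∃ r, q = Q + r := ⟨q - Q, by omega⟩
  have hfin : (n - 1 + b) * Q ≤ (2 * n - 1) * Q := Nat.mul_le_mul_right _ (by omega)
  have e : 2 * n - 1 + 1 = 2 * n := by omega
  generalize 2 * n - 1 = k at e hQ hQ2 hfin
  have hQ' : 2 * n * Q ≤ N1 + Q := by
    have : 2 * n * Q = k * Q + Q := by rw [← e]; ring
    omega
  have hQ2' : N1 + Q + 2 ≤ 2 * n * Q + 2 * n := by
    have : 2 * n * (Q + 1) = k * (Q + 1) + (Q + 1) := by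
      rw [← e]
      ring
    nlinarith
  -- `N3 ≥ 4 n² - 1`
  have h4 : 4 * n * n ≤ N3 + 1 := by
    obtain ⟨m, rfl⟩ : ∃ m, n = m + 18 := ⟨n - 18, by omega⟩
    nlinarith [Nat.zero_le (m ^ 2), Nat.zero_le (m ^ 3)]
  -- the main inequality
  have hK : 2 * (n * r + D) + Q + 1 ≤ N2 := by
    have h5 : 2 * (n * (Q + r) + D) + 2 * n ≤ N3 + 1 := by
      by_contra hc
      push Not at hc
      have h6 : (2 * n + 1) * (N3 + 2) ≤ (2 * n + 1) * (2 * (n * (Q + r) + D) + 2 * n) :=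
        Nat.mul_le_mul_left _ hc
      nlinarith
    nlinarith
  have hQu : n ≤ Q + D := by
    by_contra hc
    push Not at hc
    have h6 : Q + 2 ≤ n := by omega
    have h7 : N1 + Q + 2 ≤ 2 * n * (Q + 1) := by nlinarith
    have h8 : 2 * n * (Q + 1) + 2 * n ≤ 2 * n * n := by nlinarith
    have h10 : N1 ≤ 2 * n * n := by omega
    obtain ⟨m, rfl⟩ : ∃ m, n = m + 18 := ⟨n - 18, by omega⟩
    nlinarith [Nat.zero_le (m ^ 2), Nat.zero_le (m ^ 3)]
  have hle : (b * r + c) + (n * r + D + Q) ≤ N2 := by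
    by_contra hc
    push Not at hc
    have h6 : n * (N2 + 1) ≤ n * ((b * r + c) + (n * r + D + Q)) := Nat.mul_le_mul_left _ hc
    have h7 : b * (n * r + D) ≤ n * (n * r + D) := Nat.mul_le_mul_right _ hbn
    have h8 : n * (2 * (n * r + D) + Q + 1) ≤ n * N2 := Nat.mul_le_mul_left _ hK
    nlinarith
  refine ⟨Q, r, N2 - ((b * r + c) + (n * r + D + Q)), rfl, hQu, ?_, h9, ?_, by omega, ?_⟩
  · exact hfin.trans hQ
  · by_contra hc
    push Not at hc
    have h6 : n ≤ 2 * r := by omega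
    have h7 : n * n ≤ n * (2 * r) := Nat.mul_le_mul_left _ h6
    nlinarith
  · have h6 : 2 * (n * r + D) + 2 * Q + 2 * n + 2 ≤ 2 * N2 := by nlinarith
    omega

/-- the case `6 ≤ n ≤ 17` -/
theorem mid {n b q D c N1 N2 N3 Q : ℕ} (hn : 6 ≤ n) (hn2 : n ≤ 17) (hbn : b ≤ n)
    (hD1 : 1 ≤ D) (hDn : D < n) (hc2 : n * c < b * D + n)
    (h1 : 6 * N1 = n * (n + 1) * (n + 2)) (h2 : 2 * N2 = (n + 1) * (n + 2))
    (h3 : N3 = N1 + N2) (hμ : (2 * n + 1) * (n * q + D) ≤ n * N3)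
    (hQ : (2 * n - 1) * Q ≤ N1) (hQ2 : N1 < (2 * n - 1) * (Q + 1)) (hq : Q < q) :
    Goal n b q D c N1 N2 := by
  have h9 := nineQ (by omega) h1 hQ
  obtain ⟨r, rfl⟩ : ∃ r, q = Q + r := ⟨q - Q, by omega⟩
  have hle : (b * r + c) + (n * r + D + Q) ≤ N2 := by
    interval_cases n <;> (have hr : r ≤ 3 := by omega) <;> interval_cases D <;>
      interval_cases r <;> omega
  have hfin : (n - 1 + b) * Q ≤ (2 * n - 1) * Q := Nat.mul_le_mul_right _ (by omega)
  refine ⟨Q, r, N2 - ((b * r + c) + (n * r + D + Q)), rfl, ?_, hfin.trans hQ, h9, ?_, by omega,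
    ?_⟩
  · interval_cases n <;> omega
  · interval_cases n <;> omega
  · have h6 : n + 1 + (n * r + D + Q) ≤ N2 := by interval_cases n <;> omega
    omega

/-- the case `n = 3` -/
theorem three {b q D c N1 N2 N3 Q : ℕ} (hD1 : 1 ≤ D) (h1 : 6 * N1 = 3 * (3 + 1) * (3 + 2))
    (h2 : 2 * N2 = (3 + 1) * (3 + 2))
    (h3 : N3 = N1 + N2) (hμ : (2 * 3 + 1) * (3 * q + D) ≤ 3 * N3)
    (hQ2 : N1 < (2 * 3 - 1) * (Q + 1)) (hq : Q < q) : Goal 3 b q D c N1 N2 := by
  exfalso
  omega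

/-- the case `n = 4` -/
theorem four {b q D c N1 N2 N3 Q : ℕ} (hbn : b ≤ 4) (hb2 : 2 ≤ b)
    (hD1 : 1 ≤ D) (hDn : D < 4) (hc2 : 4 * c < b * D + 4)
    (h1 : 6 * N1 = 4 * (4 + 1) * (4 + 2)) (h2 : 2 * N2 = (4 + 1) * (4 + 2))
    (h3 : N3 = N1 + N2) (hμ : (2 * 4 + 1) * (4 * q + D) ≤ 4 * N3)
    (hQ : (2 * 4 - 1) * Q ≤ N1) (hQ2 : N1 < (2 * 4 - 1) * (Q + 1)) (hq : Q < q)
    (hX : ¬ XB 4 b (4 * q + D)) : Goal 4 b q D c N1 N2 := by
  obtain rfl : N1 = 20 := by omega
  obtain rfl : N2 = 15 := by omega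
  obtain rfl : q = 3 := by omega
  unfold XB at hX
  interval_cases D
  · refine ⟨3, 0, 11 - c, by omega, by omega, by omega, by omega, by omega, by omega, by omega⟩
  · refine ⟨2, 1, 7 - b - c, by omega, by omega, by omega, by omega, by omega, by omega, by omega⟩
  · refine ⟨2, 1, 6 - b - c, by omega, by omega, by omega, by omega, by omega, by omega, by omega⟩

/-- the case `n = 5` -/
theorem five {b q D c N1 N2 N3 Q : ℕ} (hbn : b ≤ 5) (hb2 : 2 ≤ b)
    (hD1 : 1 ≤ D) (hDn : D < 5) (hc2 : 5 * c < b * D + 5)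
    (h1 : 6 * N1 = 5 * (5 + 1) * (5 + 2)) (h2 : 2 * N2 = (5 + 1) * (5 + 2))
    (h3 : N3 = N1 + N2) (hμ : (2 * 5 + 1) * (5 * q + D) ≤ 5 * N3)
    (hQ : (2 * 5 - 1) * Q ≤ N1) (hQ2 : N1 < (2 * 5 - 1) * (Q + 1)) (hq : Q < q)
    (hX : ¬ XB 5 b (5 * q + D)) : Goal 5 b q D c N1 N2 := by
  obtain rfl : N1 = 35 := by omega
  obtain rfl : N2 = 21 := by omega
  obtain rfl : Q = 3 := by omega
  obtain ⟨r, rfl⟩ : ∃ r, q = 3 + r := ⟨q - 3, by omega⟩
  have hr : r ≤ 2 := by omega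
  unfold XB at hX
  interval_cases D <;> interval_cases r
  · omega
  · refine ⟨4, 0, 16 - c, by omega, by omega, by omega, by omega, by omega, by omega, by omega⟩
  · omega
  · omega
  · refine ⟨3, 1, 11 - b - c, by omega, by omega, by omega, by omega, by omega, by omega, by omega⟩
  · omega
  · omega
  · refine ⟨3, 1, 10 - b - c, by omega, by omega, by omega, by omega, by omega, by omega, by omega⟩
  · omega
  · omega
  · refine ⟨3, 1, 9 - b - c, by omega, by omega, by omega, by omega, by omega, by omega, by omega⟩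
  · omega

end NUMCaux

theorem x_NUMC : S_NUMC := by
  intro n b q D c hn hb2 hbn hD1 hDn hqD hc1 hc2 hμ hX
  have hN3 := WarM.NN_three n
  have hN2 := WarM.NN_two n
  have hN1 : 6 * NN (n - 1) 3 = n * (n + 1) * (n + 2) := by
    have h := WarM.NN_three (n - 1)
    have e : n - 1 + 1 = n := by omega
    have e2 : n - 1 + 2 = n + 1 := by omega
    have e3 : n - 1 + 3 = n + 2 := by omega
    rw [e, e2, e3] at h
    exact h
  have h3 : NN n 3 = NN (n - 1) 3 + NN n 2 := by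
    nlinarith
  set N1 := NN (n - 1) 3
  set N2 := NN n 2
  set N3 := NN n 3
  have hpos : 0 < 2 * n - 1 := by omega
  have hQ : (2 * n - 1) * (N1 / (2 * n - 1)) ≤ N1 := Nat.mul_div_le _ _
  have hQ2 : N1 < (2 * n - 1) * (N1 / (2 * n - 1) + 1) := Nat.lt_mul_div_succ _ hpos
  generalize N1 / (2 * n - 1) = Q at hQ hQ2
  show NUMCaux.Goal n b q D c N1 N2
  rcases Nat.lt_or_ge Q q with hq | hq
  · rcases Nat.lt_or_ge n 18 with h18 | h18
    · rcases Nat.lt_or_ge n 6 with h6 | h6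
      · obtain h | h | h : n = 3 ∨ n = 4 ∨ n = 5 := by omega
        · clear_value N1 N2 N3
          subst h
          exact NUMCaux.three hD1 hN1 hN2 h3 hμ hQ2 hq
        · clear_value N1 N2 N3
          subst h
          exact NUMCaux.four hbn hb2 hD1 hDn hc2 hN1 hN2 h3 hμ hQ hQ2 hq hX
        · clear_value N1 N2 N3
          subst h
          exact NUMCaux.five hbn hb2 hD1 hDn hc2 hN1 hN2 h3 hμ hQ hQ2 hq hX
      · exact NUMCaux.mid h6 (by omega) hbn hD1 hDn hc2 hN1 hN2 h3 hμ hQ hQ2 hq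
    · exact NUMCaux.big h18 hbn hD1 hc2 hN1 hN2 h3 hμ hQ hQ2 hq
  · exact NUMCaux.small hn hbn hDn hqD hc2 hN1 hN2 hQ hq

end Pool.Agent.WarC


end

section

/-!
# Module WQ_CA (MP_db021c_ag): combinatorics of case A   (helper84)
-/

set_option autoImplicit false

namespace Pool.Agent.WarQ

namespace CAaux

lemma cnt_div {m k c : ℕ} (κ : Fin m → Fin k) (hc : 0 < c) (h : ∀ i, (κ i).val = i.val / c)
    (v : Fin k) : cnt κ v ≤ c := by
  unfold cnt
  have hcard : (Finset.range c).card = c := Finset.card_range c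
  rw [← hcard]
  refine Finset.card_le_card_of_injOn (fun i : Fin m => i.val % c) ?_ ?_
  · intro i _
    simp only [Finset.coe_range, Set.mem_Iio]
    exact Nat.mod_lt _ hc
  · intro i hi j hj hij
    simp only [Finset.coe_filter, Finset.mem_univ, true_and] at hi hj
    have hi' : κ i = v := hi
    have hj' : κ j = v := hj
    have h1 : i.val / c = j.val / c := by rw [← h i, ← h j, hi', hj']
    have h2 : i.val % c = j.val % c := hij
    apply Fin.ext
    rw [← Nat.div_add_mod i.val c, ← Nat.div_add_mod j.val c, h1, h2]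

lemma cnt_mod {m k c s : ℕ} (κ : Fin m → Fin k) (hm : m ≤ c * (s + 1))
    (h : ∀ i, (κ i).val = i.val % (s + 1)) (v : Fin k) : cnt κ v ≤ c := by
  unfold cnt
  have hcard : (Finset.range c).card = c := Finset.card_range c
  rw [← hcard]
  refine Finset.card_le_card_of_injOn (fun i : Fin m => i.val / (s + 1)) ?_ ?_
  · intro i _
    simp only [Finset.coe_range, Set.mem_Iio]
    exact Nat.div_lt_of_lt_mul (by rw [mul_comm]; exact lt_of_lt_of_le i.isLt hm)
  · intro i hi j hj hij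
    simp only [Finset.coe_filter, Finset.mem_univ, true_and] at hi hj
    have hi' : κ i = v := hi
    have hj' : κ j = v := hj
    have h1 : i.val % (s + 1) = j.val % (s + 1) := by rw [← h i, ← h j, hi', hj']
    have h2 : i.val / (s + 1) = j.val / (s + 1) := hij
    apply Fin.ext
    rw [← Nat.div_add_mod i.val (s + 1), ← Nat.div_add_mod j.val (s + 1), h1, h2]

end CAaux

open _root_.Pool.Agent.WarQ.CAaux in
theorem x_CA : S_CA := by
  intro n b c D hc hcb hD hD1 hcc hn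
  obtain ⟨D', rfl⟩ : ∃ D', D = D' + 1 := ⟨D - 1, by omega⟩
  obtain ⟨s, hs⟩ : ∃ s, s = (b + c - 1) / c := ⟨_, rfl⟩
  rw [← hs] at hn
  have hs1 : b + c ≤ c * (s + 1) := by
    have := Nat.lt_mul_div_succ (b + c - 1) (show 0 < c by omega)
    rw [← hs] at this
    omega
  have hs2 : c ≤ s := by
    rw [hs, Nat.le_div_iff_mul_le (by omega)]
    omega
  have hs3 : 2 ≤ s := by
    rw [hs, Nat.le_div_iff_mul_le (by omega)]
    omega
  have hn' : D' * s + s ≤ n := by
    rw [Nat.add_mul, one_mul] at hn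
    exact hn
  obtain ⟨sz, hsz⟩ : ∃ sz : Fin (D' + 1) → ℕ, sz = fun g => if g = 0 then n - D' * s else s :=
    ⟨_, rfl⟩
  have hsz1 : ∀ g, s ≤ sz g := by
    intro g
    rw [hsz]
    dsimp only
    split_ifs
    · omega
    · exact le_rfl
  have hlt : ∀ i : Fin (b + c), i.val / c < s + 1 := by
    intro i
    exact Nat.div_lt_of_lt_mul (lt_of_lt_of_le i.isLt hs1)
  refine ⟨sz, fun g i => if g = 0 then ⟨i.val / c, lt_of_lt_of_le (hlt i) (by
      have := hsz1 g; omega)⟩ else ⟨i.val % (s + 1), lt_of_lt_of_le (Nat.mod_lt _ (by omega)) (by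
      have := hsz1 g; omega)⟩, ?_, ?_, ?_, ?_⟩
  · rw [hsz, Fin.sum_univ_succ]
    simp only [if_true, Fin.succ_ne_zero, if_false, Finset.sum_const, Finset.card_univ,
      Fintype.card_fin, smul_eq_mul]
    omega
  · intro g
    exact le_trans hs3 (hsz1 g)
  · intro g v
    by_cases hg : g = 0
    · exact cnt_div _ (by omega) (fun i => by simp only [if_pos hg]) v
    · exact cnt_mod _ hs1 (fun i => by simp only [if_neg hg]) v
  · by_cases hD0 : D' = 0
    · have hc1 : c = 1 := hD1 (by omega)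
      refine ⟨0, 0, ?_⟩
      intro i i' h _
      have h1 := congrArg Fin.val h
      simp only [if_true] at h1
      subst hc1
      rw [Nat.div_one, Nat.div_one] at h1
      exact Fin.ext h1
    · have h1D : 1 < D' + 1 := by omega
      have hne : (⟨1, h1D⟩ : Fin (D' + 1)) ≠ 0 := by
        intro h
        have := congrArg Fin.val h
        simp at this
      refine ⟨0, ⟨1, h1D⟩, ?_⟩
      intro i i' h h'
      have h1 := congrArg Fin.val h
      have h2 := congrArg Fin.val h'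
      simp only [if_true] at h1
      simp only [if_neg hne] at h2
      apply Fin.ext
      have e1 := Nat.div_add_mod i.val c
      have e2 := Nat.div_add_mod i'.val c
      have l1 := Nat.mod_lt i.val (show 0 < c by omega)
      have l2 := Nat.mod_lt i'.val (show 0 < c by omega)
      rw [h1] at e1
      have hmod : i.val ≡ i'.val [MOD (s + 1)] := h2
      rcases le_total i.val i'.val with hle | hle
      · have h3 := (Nat.modEq_iff_dvd' hle).1 hmod
        have h4 : i'.val - i.val < s + 1 := by omega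
        have h5 := Nat.eq_zero_of_dvd_of_lt h3 h4
        omega
      · have h3 := (Nat.modEq_iff_dvd' hle).1 hmod.symm
        have h4 : i.val - i'.val < s + 1 := by omega
        have h5 := Nat.eq_zero_of_dvd_of_lt h3 h4
        omega

end Pool.Agent.WarQ


end

section

/-!
# Simultaneous Waring decompositions (MP_db021c_ag), cubics: module NUMFc

The numbers of the Horace step for `s = 3`.
-/

set_option autoImplicit false

open Pool.Agent.War

namespace Pool.Agent.WarC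

namespace NUMFcaux

theorem two_mul_NN (n : ℕ) : 2 * NN n 2 = (n + 1) * (n + 2) := by
  induction n with
  | zero => simp [NN]
  | succ k ih =>
    have h := NN_succ k 1
    have h1 := NN_right_one (k + 1)
    have h2 : NN (k + 1) 2 = NN k 2 + NN (k + 1) 1 := h
    nlinarith

theorem six_mul_NN (n : ℕ) : 6 * NN n 3 = (n + 1) * (n + 2) * (n + 3) := by
  induction n with
  | zero => simp [NN]
  | succ k ih =>
    have h2 : NN (k + 1) 3 = NN k 3 + NN (k + 1) 2 := NN_succ k 2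
    have h1 := two_mul_NN (k + 1)
    nlinarith

/-- `binom(m+2, 2)` is an integer -/
theorem even_prod (m : ℕ) : 2 * ((m + 1) * (m + 2) / 2) = (m + 1) * (m + 2) := by
  rw [← two_mul_NN m]
  omega

/-- `3 N(m,3) = (m+3) binom(m+2,2)` -/
theorem three_mul_NN (m : ℕ) : 3 * NN m 3 = (m + 3) * ((m + 1) * (m + 2) / 2) := by
  have h1 := six_mul_NN m
  have h2 := even_prod m
  have h3 : 2 * (3 * NN m 3) = 2 * ((m + 3) * ((m + 1) * (m + 2) / 2)) := by
    calc 2 * (3 * NN m 3) = 6 * NN m 3 := by ring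
      _ = (m + 3) * ((m + 1) * (m + 2)) := by rw [h1]; ring
      _ = (m + 3) * (2 * ((m + 1) * (m + 2) / 2)) := by rw [h2]
      _ = 2 * ((m + 3) * ((m + 1) * (m + 2) / 2)) := by ring
  omega

end NUMFcaux

open _root_.Pool.Agent.WarC.NUMFcaux in
theorem x_NUMFc : S_NUMFc := by
  intro m h hm hh
  obtain ⟨k, rfl⟩ : ∃ k, m = k + 1 := ⟨m - 1, by omega⟩
  set A : ℕ := (k + 1 + 1) * (k + 1 + 2) / 2 with hA
  have hA2 : 2 * A = (k + 1 + 1) * (k + 1 + 2) := even_prod (k + 1)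
  have hN : 3 * NN (k + 1) 3 = (k + 1 + 3) * A := three_mul_NN (k + 1)
  set B : ℕ := (k + 1) * (k + 2) / 2 with hB
  have hB2 : 2 * B = (k + 1) * (k + 2) := even_prod k
  have hM : 3 * NN k 3 = (k + 3) * B := three_mul_NN k
  have hhA : h = A := by
    rcases hh with hh | hh
    · rw [hh, hN, Nat.mul_div_cancel_left _ (by omega)]
    · rw [hh, hN, Nat.mul_add_div (by omega), Nat.div_eq_of_lt (by omega), add_zero]
  have hAB : k + 1 + 1 + B = A := by
    nlinarith
  refine ⟨B, 0, k + 1 + 1, ?_, ?_, ?_⟩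
  · rw [show k + 1 - 1 = k by omega, hM, add_zero]
  · rw [hhA]
    omega
  · unfold NC
    rw [add_zero, ← hA]
    obtain ⟨t, ht⟩ : ∃ t, t = (k + 1 + 1) / 3 := ⟨_, rfl⟩
    have ht' : (k + 1 + 1) % 3 + 3 * t = k + 1 + 1 := by
      rw [ht]
      exact Nat.mod_add_div _ _
    have hlt : (k + 1 + 1) % 3 < 3 := Nat.mod_lt _ (by norm_num)
    rw [← ht]
    generalize (k + 1 + 1) % 3 = c at ht' hlt
    have ht1 : 1 ≤ t := by omega
    refine ⟨by omega, Or.inl ⟨by omega, by omega⟩, ?_, ?_⟩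
    · rcases (show c = 0 ∨ c = 1 ∨ c = 2 by omega) with hc | hc | hc
      · exact Or.inl ⟨hc, by omega⟩
      · exact Or.inr (Or.inl ⟨hc, by omega⟩)
      · exact Or.inr (Or.inr (by omega))
    · rcases (show c = 0 ∨ c = 1 ∨ c = 2 by omega) with hc | hc | hc
      · refine Or.inl ⟨hc, ?_⟩
        have hk : k + 2 = 3 * t := by omega
        nlinarith
      · refine Or.inr (Or.inl ⟨hc, ?_, ?_⟩)
        · have hk : k + 1 = 3 * t := by omega
          nlinarith
        · have hk : k + 1 = 3 * t := by omega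
          nlinarith
      · have hk : k = 3 * t := by omega
        refine Or.inr (Or.inr ⟨?_, ?_⟩)
        · subst hk
          nlinarith
        · subst hk
          nlinarith

end Pool.Agent.WarC


end

section

/-!
# The choice of the numbers for the base of cubics   (helper85)
-/

set_option autoImplicit false

open Module MvPolynomial
open Pool.Agent.War Pool.Agent.WarS Pool.Agent.WarQ

namespace Pool.Agent.WarC

namespace NUMBaux

/-- the conclusion -/
def Goal (n q D N1 N2 : ℕ) : Prop :=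
  ∃ u r e : ℕ, u + r = q ∧ n ≤ u + D ∧ (2 * n - 1) * u ≤ N1 ∧ 9 * u ≤ (n + 2) ^ 2 ∧
    2 * (r + 1) ≤ n + 1 ∧ (n * r + D) + e + (n * r + D + u) = N2 ∧ n + 1 ≤ (n * r + D) + e

/-- the case `n ≥ 18` -/
theorem big {n q D N1 N2 N3 Q : ℕ} (hn : 18 ≤ n) (hD1 : 1 ≤ D) (hDn : D < n)
    (h1 : 6 * N1 = n * (n + 1) * (n + 2)) (h2 : 2 * N2 = (n + 1) * (n + 2))
    (h3 : N3 = N1 + N2) (hμ1 : n * N3 < (2 * n + 1) * (n * q + D))
    (hμ2 : (2 * n + 1) * (n * q + D) < n * N3 + (2 * n + 1))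
    (hQ : (2 * n - 1) * Q ≤ N1) (hQ2 : N1 < (2 * n - 1) * (Q + 1)) :
    Goal n q D N1 N2 := by
  have h9 := NUMCaux.nineQ (by omega) h1 hQ
  have hfin : (2 * n - 1) * Q ≤ N1 := hQ
  have e : 2 * n - 1 + 1 = 2 * n := by omega
  have hQ' : 2 * n * Q ≤ N1 + Q := by
    have : 2 * n * Q = (2 * n - 1) * Q + Q := by
      conv_lhs => rw [← e]
      ring
    omega
  have hQ2' : N1 + Q + 2 ≤ 2 * n * Q + 2 * n := by
    have : 2 * n * (Q + 1) = (2 * n - 1) * (Q + 1) + (Q + 1) := by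
      conv_lhs => rw [← e]
      ring
    nlinarith
  have hnN2 : n * N2 = 3 * N1 := by nlinarith
  -- `Q < q`
  have hq : Q < q := by
    by_contra hc
    push Not at hc
    have h4 : n * q + D ≤ n * Q + n := by
      have := Nat.mul_le_mul_left n hc
      omega
    have h5 : (2 * n + 1) * (n * q + D) ≤ (2 * n + 1) * (n * Q + n) := Nat.mul_le_mul_left _ h4
    have h6 : n * N1 + n * N2 < (2 * n + 1) * (n * Q + n) := by
      rw [h3] at hμ1
      nlinarith
    have h7 : n * (2 * n * Q) ≤ n * (N1 + Q) := Nat.mul_le_mul_left _ hQ'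
    have h8 : 2 * N1 < Q + 2 * n * n + n := by nlinarith
    obtain ⟨m, rfl⟩ : ∃ m, n = m + 18 := ⟨n - 18, by omega⟩
    nlinarith [Nat.zero_le (m ^ 2), Nat.zero_le (m ^ 3)]
  obtain ⟨r, rfl⟩ : ∃ r, q = Q + r := ⟨q - Q, by omega⟩
  -- `N3 ≥ 4 n² - 1`
  have h4 : 4 * n * n ≤ N3 + 1 := by
    obtain ⟨m, rfl⟩ : ∃ m, n = m + 18 := ⟨n - 18, by omega⟩
    nlinarith [Nat.zero_le (m ^ 2), Nat.zero_le (m ^ 3)]
  -- the main inequality
  have hK : 2 * (n * r + D) + Q ≤ N2 := by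
    have h5 : 2 * (n * (Q + r) + D) + 2 * n ≤ N3 + 2 := by
      by_contra hc
      push Not at hc
      have h6 : (2 * n + 1) * (N3 + 3) ≤ (2 * n + 1) * (2 * (n * (Q + r) + D) + 2 * n) :=
        Nat.mul_le_mul_left _ hc
      nlinarith
    nlinarith
  have hQu : n ≤ Q + D := by
    by_contra hc
    push Not at hc
    have h6 : Q + 2 ≤ n := by omega
    have h7 : N1 + Q + 2 ≤ 2 * n * (Q + 1) := by nlinarith
    have h8 : 2 * n * (Q + 1) + 2 * n ≤ 2 * n * n := by nlinarith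
    have h10 : N1 ≤ 2 * n * n := by omega
    obtain ⟨m, rfl⟩ : ∃ m, n = m + 18 := ⟨n - 18, by omega⟩
    nlinarith [Nat.zero_le (m ^ 2), Nat.zero_le (m ^ 3)]
  refine ⟨Q, r, N2 - ((n * r + D) + (n * r + D + Q)), rfl, hQu, hfin, h9, ?_, by omega, ?_⟩
  · by_contra hc
    push Not at hc
    have h6 : n ≤ 2 * r := by omega
    have h7 : n * n ≤ n * (2 * r) := Nat.mul_le_mul_left _ h6
    nlinarith
  · have h6 : Q + 2 * n + 2 ≤ N2 := by nlinarith
    omega

/-- the case `n ≤ 17` -/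
theorem mid {n q D N1 N2 N3 Q : ℕ} (hn : 3 ≤ n) (hn2 : n ≤ 17) (h5 : n ≠ 5) (h9 : n ≠ 9)
    (h12 : n ≠ 12) (hD1 : 1 ≤ D) (hDn : D < n)
    (h1 : 6 * N1 = n * (n + 1) * (n + 2)) (h2 : 2 * N2 = (n + 1) * (n + 2))
    (h3 : N3 = N1 + N2) (hμ1 : n * N3 < (2 * n + 1) * (n * q + D))
    (hμ2 : (2 * n + 1) * (n * q + D) < n * N3 + (2 * n + 1))
    (hQ : (2 * n - 1) * Q ≤ N1) (hQ2 : N1 < (2 * n - 1) * (Q + 1)) :
    Goal n q D N1 N2 := by
  have hn9 := NUMCaux.nineQ hn h1 hQ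
  have hq : Q ≤ q := by interval_cases n <;> omega
  obtain ⟨r, rfl⟩ : ∃ r, q = Q + r := ⟨q - Q, by omega⟩
  have hle : (n * r + D) + (n * r + D + Q) ≤ N2 := by interval_cases n <;> omega
  refine ⟨Q, r, N2 - ((n * r + D) + (n * r + D + Q)), rfl, ?_, hQ, hn9, ?_, by omega, ?_⟩
  · interval_cases n <;> omega
  · interval_cases n <;> omega
  · have h6 : n + 1 + (n * r + D + Q) ≤ N2 := by interval_cases n <;> omega
    omega

end NUMBaux

theorem x_NUMB : S_NUMB := by
  intro n q D hn hD1 hDn hμ1 hμ2 h5 h9 h12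
  have hN3 := WarM.NN_three n
  have hN2 := WarM.NN_two n
  have hN1 : 6 * NN (n - 1) 3 = n * (n + 1) * (n + 2) := by
    have h := WarM.NN_three (n - 1)
    have e : n - 1 + 1 = n := by omega
    have e2 : n - 1 + 2 = n + 1 := by omega
    have e3 : n - 1 + 3 = n + 2 := by omega
    rw [e, e2, e3] at h
    exact h
  have h3 : NN n 3 = NN (n - 1) 3 + NN n 2 := by
    nlinarith
  set N1 := NN (n - 1) 3
  set N2 := NN n 2
  set N3 := NN n 3
  have hpos : 0 < 2 * n - 1 := by omega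
  have hQ : (2 * n - 1) * (N1 / (2 * n - 1)) ≤ N1 := Nat.mul_div_le _ _
  have hQ2 : N1 < (2 * n - 1) * (N1 / (2 * n - 1) + 1) := Nat.lt_mul_div_succ _ hpos
  generalize N1 / (2 * n - 1) = Q at hQ hQ2
  show NUMBaux.Goal n q D N1 N2
  clear_value N1 N2 N3
  rcases Nat.lt_or_ge n 18 with h18 | h18
  · exact NUMBaux.mid hn (by omega) h5 h9 h12 hD1 hDn hN1 hN2 h3 hμ1 hμ2 hQ hQ2
  · exact NUMBaux.big h18 hD1 hDn hN1 hN2 h3 hμ1 hμ2 hQ hQ2

end Pool.Agent.WarC


end

section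

/-!
# Simultaneous Waring decompositions (MP_db021c_ag), few forms, degrees at least 5: module NC

The general conditions `GC` give the numbers `Numb`. Template: `WarS/NUM.lean`.
-/

set_option autoImplicit false

open Pool.Agent.War

namespace Pool.Agent.War5

namespace NCaux

open Pool.Agent.WarS.NumAux

theorem NN_three (n : ℕ) : 6 * NN n 3 = (n + 1) * (n + 2) * (n + 3) := by
  have h0 : NN n 0 = 1 := by
    unfold NN
    simp
  have h1 := NN_ratio n 0
  have h2 := NN_ratio n 1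
  have h3 := NN_ratio n 2
  rw [h0] at h1
  have e1 : NN n 1 = n + 1 := by
    linarith
  rw [e1] at h2
  nlinarith

/-- a lower bound -/
theorem A0_ge (n d : ℕ) (hd : 3 ≤ d) : 2 * n ^ 2 ≤ NN (n + 1) d := by
  have h1 := NN_three (n + 1)
  have h2 : NN (n + 1) 3 ≤ NN (n + 1) d := NN_mono_right hd
  have h3 : 6 * (2 * n ^ 2) ≤ (n + 1 + 1) * (n + 1 + 2) * (n + 1 + 3) := by
    zify
    nlinarith [mul_nonneg (Int.natCast_nonneg n) (sq_nonneg ((n : ℤ) - 2))]
  omega

/-- the arithmetic for the bounds from above -/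
theorem core2 (n r u y m μ p0 e0 q rem σ A1 : ℕ) (hr : 1 ≤ r)
    (e4 : (n + r + 2) * μ + σ = (n + 1) * A1 + (r + 1) * u + (n + 1) * y)
    (e3 : (n + r + 2) * m + (r + 1) * u + (n + 1) * y = (r + 1) * A1 + σ)
    (hσ : σ < n + r + 2)
    (hp0 : μ = (n + 1) * y + u + (n + 1) * p0 + e0) (he0 : e0 ≤ n)
    (hK : m = p0 + (r * q + rem)) :
    (n + r + 2) * (p0 + y) + u ≤ A1 + y ∧
    (n + r + 2) * q + u ≤ A1 + y + 2 * (n + r + 2) ∧
    (1 ≤ rem → (n + r + 2) * (q + 1) + u ≤ A1 + y + 2 * (n + r + 2)) := by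
  have i2 : (n + 1) * ((n + r + 2) * p0 + u + (n + r + 1) * y) + σ + (n + r + 2) * e0 =
      (n + 1) * A1 := by
    rw [hp0] at e4
    zify at e4 ⊢
    linear_combination e4
  have i3 : (n + 1) * ((n + r + 2) * (r * q + rem) + r * u) =
      (n + 1) * (r * A1 + r * y) + (n + 2) * σ + (n + r + 2) * e0 := by
    rw [hK] at e3
    zify at e3 i2 ⊢
    linear_combination (n + 1 : ℤ) * e3 - i2
  have i4 : (n + r + 2) * (r * q + rem) + r * u ≤ r * A1 + r * y + 2 * (n + r + 2) := by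
    have h1 : (n + 1) * ((n + r + 2) * (r * q + rem) + r * u) ≤
        (n + 1) * (r * A1 + r * y + 2 * (n + r + 2)) := by
      rw [i3]
      have h2 : (n + 2) * σ ≤ (n + 2) * (n + r + 2) := Nat.mul_le_mul_left _ hσ.le
      have h3 : (n + r + 2) * e0 ≤ (n + r + 2) * n := Nat.mul_le_mul_left _ he0
      linarith
    exact Nat.le_of_mul_le_mul_left h1 (by omega)
  refine ⟨?_, ?_, ?_⟩
  · have h1 : (n + 1) * ((n + r + 2) * p0 + u + (n + r + 1) * y) ≤ (n + 1) * A1 := by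
      rw [← i2]
      omega
    have h2 := Nat.le_of_mul_le_mul_left h1 (by omega)
    linarith
  · have h1 : r * ((n + r + 2) * q + u) ≤ r * (A1 + y + 2 * (n + r + 2)) := by
      have h2 : 1 * (2 * (n + r + 2)) ≤ r * (2 * (n + r + 2)) := Nat.mul_le_mul_right _ hr
      linarith [Nat.zero_le ((n + r + 2) * rem)]
    exact Nat.le_of_mul_le_mul_left h1 (by omega)
  · intro hrem
    have h1 : r * ((n + r + 2) * (q + 1) + u) ≤ r * (A1 + y + 2 * (n + r + 2)) := by
      have h2 : 1 * (n + r + 2) ≤ r * (n + r + 2) := Nat.mul_le_mul_right _ hr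
      have h3 : (n + r + 2) * 1 ≤ (n + r + 2) * rem := Nat.mul_le_mul_left _ hrem
      linarith
    exact Nat.le_of_mul_le_mul_left h1 (by omega)

end NCaux

open _root_.Pool.Agent.War5.NCaux Pool.Agent.WarS.NumAux in
theorem x_NC : S_NC := by
  intro n d r h u y hn hr hrn hd hcrit hBuy hyle hGC
  obtain ⟨hh1, hh2⟩ := hcrit
  obtain ⟨hu3, hB1', g3, g4, g5, g6⟩ := hGC
  have hA0n := A0_ge n d hd
  have r2 : NN (n + 1) (d + 2) = NN n (d + 2) + NN (n + 1) (d + 1) := NN_succ n (d + 1)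
  have r1 : NN (n + 1) (d + 1) = NN n (d + 1) + NN (n + 1) d := NN_succ n d
  unfold Numb
  generalize NN n (d + 2) = B at *
  generalize NN n (d + 1) = B1 at *
  generalize NN (n + 1) (d + 2) = A2 at *
  generalize NN (n + 1) (d + 1) = A1 at *
  generalize NN (n + 1) d = A0 at *
  generalize gg n (d + 2) = G2 at *
  generalize gg n (d + 1) = G1 at *
  generalize gg (n + 1) (d + 1) = G11 at *
  generalize gg (n + 1) d = G10 at *
  have hyn : y ≤ 2 * n := by omega
  -- σ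
  obtain ⟨σ, hσ⟩ := Nat.exists_eq_add_of_le hh1
  have hσ2 : σ < n + r + 2 := by omega
  -- m
  have hm0 : (r + 1) * u + y ≤ h := by
    have h1 : (n + r + 2) * ((r + 1) * u + y) ≤ (n + r + 2) * h := by
      rw [hσ, r2, hBuy]
      have h2 : (r + 1) * (u + (n + 1) * y) ≤ (r + 1) * A1 :=
        Nat.mul_le_mul_left _ (by omega)
      have h3 : 0 ≤ r * ((n + 1) * y) := Nat.zero_le _
      linarith
    exact Nat.le_of_mul_le_mul_left h1 (by omega)
  obtain ⟨m, hm⟩ := Nat.exists_eq_add_of_le hm0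
  have e3 : (n + r + 2) * m + (r + 1) * u + (n + 1) * y = (r + 1) * A1 + σ := by
    have h1 : (n + r + 2) * ((r + 1) * u + y + m) = (r + 1) * (B + A1) + σ := by
      rw [← hm, ← r2, hσ]
    rw [hBuy] at h1
    zify at h1 ⊢
    linear_combination h1
  -- μ
  have hμ0 : m ≤ A1 := by
    have h1 : (n + r + 2) * m ≤ (n + r + 2) * A1 := by
      have h2 : σ ≤ (n + 1) * A1 := by
        have h3 : (n + 1) * 2 ≤ (n + 1) * A1 := Nat.mul_le_mul_left _ (by omega)
        omega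
      linarith [Nat.zero_le ((r + 1) * u), Nat.zero_le ((n + 1) * y)]
    exact Nat.le_of_mul_le_mul_left h1 (by omega)
  obtain ⟨μ, hμ⟩ := Nat.exists_eq_add_of_le hμ0
  have e4 : (n + r + 2) * μ + σ = (n + 1) * A1 + (r + 1) * u + (n + 1) * y := by
    zify at e3 hμ ⊢
    linear_combination (-1 : ℤ) * e3 - (n + r + 2 : ℤ) * hμ
  -- p0
  have hp0 : (n + 1) * y + u ≤ μ := by
    have h1 : (n + r + 2) * ((n + 1) * y + u) ≤ (n + r + 2) * μ := by
      have h2 : (n + 1) * ((n + r + 1) * y + u + 2) ≤ (n + 1) * A1 := by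
        refine Nat.mul_le_mul_left _ ?_
        have h3 : r * y ≤ n * (2 * n) := Nat.mul_le_mul hrn hyn
        linarith
      linarith
    exact Nat.le_of_mul_le_mul_left h1 (by omega)
  obtain ⟨w, hw⟩ := Nat.exists_eq_add_of_le hp0
  set p0 := w / (n + 1) with hp0d
  set e0 := w % (n + 1) with he0d
  have hw2 : w = (n + 1) * p0 + e0 := (Nat.div_add_mod w (n + 1)).symm
  have he0 : e0 ≤ n := Nat.lt_succ_iff.1 (Nat.mod_lt w (by omega))
  have hμ2 : μ = (n + 1) * y + u + (n + 1) * p0 + e0 := by omega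
  -- K
  have hK0 : p0 ≤ m := by
    have h1 : (n + 1) * p0 ≤ (n + 1) * m := by
      have h2 : (n + 1) * m + (r + 1) * u + (n + 1) * y = (r + 1) * μ + σ := by
        zify at e3 hμ ⊢
        linear_combination e3 + (r + 1 : ℤ) * hμ
      have h3 : r * u ≤ r * μ := Nat.mul_le_mul_left _ (by
        have := Nat.zero_le ((n + 1) * y)
        omega)
      linarith
    exact Nat.le_of_mul_le_mul_left h1 (by omega)
  obtain ⟨K, hK⟩ := Nat.exists_eq_add_of_le hK0
  set q := K / r with hq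
  set rem := K % r with hrem
  have hK2 : K = r * q + rem := (Nat.div_add_mod K r).symm
  have hremlt : rem < r := Nat.mod_lt K (by omega)
  have hK3 : m = p0 + (r * q + rem) := by rw [hK, hK2]
  obtain ⟨c1, c2, c3, -⟩ := core n r u y m μ p0 e0 q rem σ A2 A1 A0 B B1 h (by omega) hr hrn
    hBuy r2 r1 hσ hσ2 hm hμ hμ2 he0 hK3 hremlt (by omega) (by omega)
  obtain ⟨k1, k2, k3⟩ := core2 n r u y m μ p0 e0 q rem σ A1 hr e4 e3 hσ2 hμ2 he0 hK3
  have f0 : p0 + y ≤ G11 := g3 _ (by omega)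
  have f1 : q ≤ G11 := g3 _ k2
  have f2 : 1 ≤ rem → q + 1 ≤ G11 := fun hrem1 => g3 _ (k3 hrem1)
  have f4 : A0 ≤ (n + 1) * G10 + m := g4 _ (by omega)
  -- the numbers
  have hsum : ∑ j, (Fin.cons p0 (fun i : Fin r => q + if i.val < rem then 1 else 0) :
      Fin (r + 1) → ℕ) j = m := by
    rw [Fin.sum_univ_succ]
    simp only [Fin.cons_zero, Fin.cons_succ]
    rw [sum_bal r q rem hremlt.le, hK, hK2]
  have hval : ∀ j, (Fin.cons p0 (fun i : Fin r => q + if i.val < rem then 1 else 0) :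
      Fin (r + 1) → ℕ) j = p0 ∨ (Fin.cons p0 (fun i : Fin r => q + if i.val < rem then 1 else 0) :
      Fin (r + 1) → ℕ) j = q ∨ ((Fin.cons p0 (fun i : Fin r => q + if i.val < rem then 1 else 0) :
      Fin (r + 1) → ℕ) j = q + 1 ∧ 1 ≤ rem) := by
    intro j
    refine Fin.cases ?_ (fun i => ?_) j
    · left
      rfl
    · right
      simp only [Fin.cons_succ]
      split_ifs with hi
      · right
        exact ⟨rfl, by omega⟩
      · left
        rfl
  have hval' : ∀ j, (Fin.cons p0 (fun i : Fin r => q + if i.val < rem then 1 else 0) :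
      Fin (r + 1) → ℕ) j = p0 ∨ (Fin.cons p0 (fun i : Fin r => q + if i.val < rem then 1 else 0) :
      Fin (r + 1) → ℕ) j = q ∨ (Fin.cons p0 (fun i : Fin r => q + if i.val < rem then 1 else 0) :
      Fin (r + 1) → ℕ) j = q + 1 := fun j => (hval j).imp_right (Or.imp_right And.left)
  refine ⟨u, y, Fin.cons p0 (fun i : Fin r => q + if i.val < rem then 1 else 0), hBuy, g5, g6,
    ?_, ?_, ?_, ?_, ?_, ?_⟩
  · rw [hsum]
    exact hm.symm
  · intro j
    rcases hval j with hj | hj | ⟨hj, hj1⟩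
    · rw [hj]
      omega
    · rw [hj]
      exact f1
    · rw [hj]
      exact f2 hj1
  · rw [Fin.cons_zero]
    exact f0
  · intro j
    rw [hsum]
    rcases le_total ((Fin.cons p0 (fun i : Fin r => q + if i.val < rem then 1 else 0) :
      Fin (r + 1) → ℕ) j) G10 with hj | hj
    · exact ⟨_, le_rfl, hj, c1 _ (hval' j)⟩
    · exact ⟨G10, hj, le_rfl, f4⟩
  · rw [hsum]
    exact c2
  · intro j
    rw [hsum]
    have := c3 _ (hval' j)
    omega

end Pool.Agent.War5


end
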