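import Mathlib
import Pool.Agent.CLAM.C02
import Pool.Agent.CLAM.C07
import Pool.Agent.CLAM.C08
import Pool.Agent.CLAM.C09
import Pool.Agent.CLAM.C10
import Pool.Agent.CLAM.C11
import Pool.Agent.CLAM.C16
import Pool.Agent.CLAM.C18
import Pool.Agent.CLAM.C19
import Pool.Agent.CLAM.C20
import Pool.Agent.CLAM.C24
import Pool.Agent.CLAM.C25
import Pool.Agent.CLAM.C27
import Pool.Agent.CLAM.C28
import Pool.Agent.CLAM.C29

/-! Parts: WarC.TOPC, WarM.AH, WarC.SM3, WarQ.L, WarC.LM, WarQ.LR, WarC.LRB, WarQ.LT, WarC.LT2, WarQ.D0, WarQ.GI, WarQ.LQ, WarQ.LX, WarQ.TB, WarQ.TRP, WarQ.Final, WarC.Main, WarC.UKH, WarC.RESC, WarC.EXF, WarC.AA13, WarC.RESCL, WarC.Main3, War5.AG, War5.G1, War5.KAP, War5.RES5, War5.Few, WarD.NumF, WarD.SDB, WarD.QZ, WarD.SP, WarD.Main, WarC.Ge3, WarN.Bin, WarC.All -/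

section

/-!
# Simultaneous Waring decompositions (MP_db021c_ag): from the block lemma to the theorem, cubics
(helper75)
-/

set_option autoImplicit false

open Module MvPolynomial
open Pool.Agent.War Pool.Agent.WarS

namespace Pool.Agent.WarC

namespace TOPCaux

/-- two blocks -/
theorem two {n s h μ b₁ b₂ : ℕ} (hμ : NN n 3 = h + μ) (hs : b₁ + b₂ = s)
    (hm : (b₁ * μ + n - 1) / n + (b₂ * μ + n - 1) / n ≤ h)
    (h₁ : Block n 3 b₁ μ) (h₂ : Block n 3 b₂ μ) :
    ∃ (z : Fin h → Fin n → ℂ) (a : Fin h → Fin s → ℂ) (y : Fin 0 → Fin n → ℂ), Kill n 3 z a y := by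
  let b : Bool → ℕ := fun t => cond t b₁ b₂
  let m : Bool → ℕ := fun t => (b t * μ + n - 1) / n
  have hm1 : m true + m false ≤ h := hm
  obtain ⟨z, a, y, hK⟩ := asm (n := n) (d := 3) (h := h) b m (fun t => NN n 3 - μ - m t)
    (fun t => by
      have : m t ≤ h := by
        cases t
        · omega
        · omega
      omega) (by
      rw [Fintype.sum_bool]
      exact hm1) (fun t => by
      cases t with
      | false => exact h₂
      | true => exact h₁)
  have hcard : Fintype.card ((t : Bool) × Fin (b t)) = s := by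
    simp only [Fintype.card_sigma, Fintype.card_fin]
    rw [Fintype.sum_bool]
    exact hs
  exact ⟨z, _, y, Kill_equiv (Fintype.equivFinOfCardEq hcard).symm hK⟩

end TOPCaux

open _root_.Pool.Agent.WarC.TOPCaux

theorem x_TOPC (hB : S_BLKC) : S_TOPC := by
  intro n s h hn hs hsh hN hmain
  obtain ⟨μ, hμ⟩ : ∃ μ, NN n 3 = h + μ := ⟨NN n 3 - h, by omega⟩
  have hμ0 : 0 < μ := by omega
  have h1 : s * μ ≤ n * h := by
    rw [hμ] at hmain
    nlinarith
  rcases Nat.lt_or_ge μ n with hlt | hge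
  · exact WarM.top_small (by omega) (by omega) hsh (by omega) hμ hlt.le
  · have hBn : (2 * n + 1) * μ ≤ n * NN n 3 := by
      rw [hμ]
      nlinarith
    by_cases hX : XB n n μ
    · -- exceptional cases
      have blk : ∀ b : ℕ, 1 ≤ b → b < n → Block n 3 b μ := fun b hb1 hb2 =>
        hB n b μ hn hb1 hb2.le hge hBn (by
          unfold XB
          unfold XB at hX
          omega)
      rcases hX with ⟨h4, -, h13⟩ | ⟨h4, -, h15⟩ | ⟨h5, -, h21⟩
      · subst h4 h13
        have hN4 : NN 4 3 = 35 := by decide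
        have hh : h = 22 := by omega
        subst hh
        have hs5 : s = 5 ∨ s = 6 := by omega
        rcases hs5 with rfl | rfl
        · exact TOPCaux.two (b₁ := 3) (b₂ := 2) hμ rfl (by norm_num)
            (blk 3 (by omega) (by omega)) (blk 2 (by omega) (by omega))
        · exact TOPCaux.two (b₁ := 3) (b₂ := 3) hμ rfl (by norm_num)
            (blk 3 (by omega) (by omega)) (blk 3 (by omega) (by omega))
      · subst h4 h15
        have hN4 : NN 4 3 = 35 := by decide
        have hh : h = 20 := by omega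
        subst hh
        have hs5 : s = 5 := by omega
        subst hs5
        exact TOPCaux.two (b₁ := 3) (b₂ := 2) hμ rfl (by norm_num)
          (blk 3 (by omega) (by omega)) (blk 2 (by omega) (by omega))
      · subst h5 h21
        have hN5 : NN 5 3 = 56 := by decide
        have hh : h = 35 := by omega
        subst hh
        have hs6 : s = 6 ∨ s = 7 ∨ s = 8 := by omega
        rcases hs6 with rfl | rfl | rfl
        · exact TOPCaux.two (b₁ := 3) (b₂ := 3) hμ rfl (by norm_num)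
            (blk 3 (by omega) (by omega)) (blk 3 (by omega) (by omega))
        · exact TOPCaux.two (b₁ := 4) (b₂ := 3) hμ rfl (by norm_num)
            (blk 4 (by omega) (by omega)) (blk 3 (by omega) (by omega))
        · exact TOPCaux.two (b₁ := 4) (b₂ := 4) hμ rfl (by norm_num)
            (blk 4 (by omega) (by omega)) (blk 4 (by omega) (by omega))
    -- blocks
    have hsn := Nat.div_add_mod s n
    set k := s / n with hk
    set b' := s % n with hb'
    have hb'n : b' < n := Nat.mod_lt _ (by omega)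
    let b : Option (Fin k) → ℕ := fun t => t.elim b' fun _ => n
    let m : Option (Fin k) → ℕ := fun t => (b t * μ + n - 1) / n
    have hmn : ∀ i : Fin k, m (some i) = μ := by
      intro i
      show (n * μ + n - 1) / n = μ
      have : n * μ + n - 1 = (n - 1) + n * μ := by omega
      rw [this, Nat.add_mul_div_left _ _ (by omega), Nat.div_eq_of_lt (by omega), zero_add]
    have hkμ : n * (k * μ) + b' * μ ≤ n * h := by
      have : n * (k * μ) + b' * μ = (n * k + b') * μ := by ring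
      rw [this, hsn]
      exact h1
    have hkh : k * μ ≤ h := by
      have : n * (k * μ) ≤ n * h := by omega
      exact Nat.le_of_mul_le_mul_left this (by omega)
    have hm0 : m none ≤ h - k * μ := by
      show (b' * μ + n - 1) / n ≤ h - k * μ
      have h2 : n * (h - k * μ) = n * h - n * (k * μ) := Nat.mul_sub _ _ _
      have h3 : b' * μ + n - 1 < n * ((h - k * μ) + 1) := by
        rw [mul_add, h2]
        omega
      rw [mul_comm n] at h3
      exact Nat.lt_succ_iff.1 ((Nat.div_lt_iff_lt_mul (by omega)).2 h3)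
    have hsum : ∑ t, m t ≤ h := by
      rw [Fintype.sum_option]
      simp only [hmn, Finset.sum_const, Finset.card_univ, Fintype.card_fin, smul_eq_mul]
      omega
    have hmle : ∀ t, m t ≤ h := fun t =>
      (Finset.single_le_sum (f := m) (fun _ _ => Nat.zero_le _) (Finset.mem_univ t)).trans hsum
    obtain ⟨z, a, y, hK⟩ := asm (n := n) (d := 3) (h := h) b m (fun t => NN n 3 - μ - m t)
      (fun t => by
        have := hmle t
        omega) hsum (fun t => by
        cases t with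
        | none =>
          rcases Nat.eq_zero_or_pos b' with h0 | h0
          · refine ⟨fun _ _ => 0, fun _ _ => 0, fun _ _ => 0, ?_⟩
            intro f _ _ _ _ j
            exact absurd j.2 (by simp [b, h0])
          · exact hB n b' μ hn h0 hb'n.le hge hBn (by
              unfold XB
              omega)
        | some i => exact hB n n μ hn (by omega) le_rfl hge hBn hX)
    have hcard : Fintype.card ((t : Option (Fin k)) × Fin (b t)) = s := by
      simp only [Fintype.card_sigma, Fintype.card_fin]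
      rw [Fintype.sum_option]
      simp only [b, Option.elim, Finset.sum_const, Finset.card_univ, Fintype.card_fin,
        smul_eq_mul]
      rw [← hsn]
      ring
    exact ⟨z, _, y, Kill_equiv (Fintype.equivFinOfCardEq hcard).symm hK⟩

end Pool.Agent.WarC


end

section

/-!
# Independent double points at half capacity

If `(2n+1) p ≤ NN n d`, `d ≥ 3`, then `p` general double points are independent in degree `d`.
-/

set_option autoImplicit false

open Pool.Agent.War

namespace Pool.Agent.WarM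

/-- one double point in degree two -/
theorem GG_two_one : ∀ n : ℕ, GG n 2 1
  | 0 => GG_zero_one 2
  | n + 1 => by
      have h := horace (n := n) (d := 0) (u := 1) (q := 0) (p₂ := 0) (GG_two_one n)
        (GG.zero _ _) (GG.zero _ _) le_rfl (by
          rw [NN_zero_right, NN_right_one]
          omega)
      exact h

/-- **The theorem.** -/
theorem AH : ∀ n d p : ℕ, 1 ≤ n → 3 ≤ d → (2 * n + 1) * p ≤ NN n d → GG n d p := by
  intro n d p hn
  induction n, hn using Nat.le_induction generalizing d p with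
  | base =>
    intro hd hp
    rw [NN_one] at hp
    exact GG_one d p (by omega)
  | succ m hm ihm =>
    induction d using Nat.strong_induction_on generalizing p with
    | _ d ihd =>
      intro hd hp
      rcases Nat.lt_or_ge d 4 with h4 | h4
      · -- cubics
        obtain rfl : d = 3 := by omega
        obtain ⟨k, e, hk, he⟩ : ∃ k e, (m + 1) + 1 = 3 * k + e ∧ e ≤ 2 :=
          ⟨((m + 1) + 1) / 3, ((m + 1) + 1) % 3, by omega, by omega⟩
        rcases Nat.eq_zero_or_pos k with h0 | h0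
        · -- `m + 2 = 2` is impossible here
          exfalso
          omega
        · exact cubic k e p (m + 1) hk (num3 (m + 1) k e p hk he h0 hp)
      · obtain ⟨e, rfl⟩ : ∃ e, d = e + 2 := ⟨d - 2, by omega⟩
        obtain ⟨q, hq⟩ : ∃ q, q = min p (NN (m + 1) (e + 1) / (2 * (m + 1) + 1)) := ⟨_, rfl⟩
        have hqp : q ≤ p := by rw [hq]; exact min_le_left _ _
        have hq1 : (2 * (m + 1) + 1) * q ≤ NN (m + 1) (e + 1) := by
          have h1 : q ≤ NN (m + 1) (e + 1) / (2 * (m + 1) + 1) := by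
            rw [hq]
            exact min_le_right _ _
          exact (Nat.mul_le_mul_left _ h1).trans (Nat.mul_div_le _ _)
        have hb : GG (m + 1) (e + 1) q := ihd (e + 1) (by omega) q (by omega) hq1
        obtain ⟨p₂, hc, hp₂, ha, hnum⟩ : ∃ p₂, GG (m + 1) e p₂ ∧ p₂ ≤ q ∧
            (2 * m + 1) * (p - q) ≤ NN m (e + 2) ∧
            NN (m + 1) e + (p - q) + (m + 2) * q ≤ NN (m + 1) (e + 1) + (m + 2) * p₂ := by
          rcases Nat.lt_or_ge e 3 with h3 | h3
          · obtain rfl : e = 2 := by omega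
            obtain ⟨h5, h6⟩ := numE m p q hm hp hq
            refine ⟨min q 1, ?_, min_le_left _ _, h5, h6⟩
            rcases Nat.eq_zero_or_pos q with h0 | h0
            · rw [h0]
              exact GG.zero _ _
            · rw [min_eq_right h0]
              exact GG_two_one _
          · obtain ⟨h5, h6⟩ := numD m e p q hm h3 hp hq
            refine ⟨_, ihd e (by omega) _ (by omega) ?_, min_le_left _ _, h5, h6⟩
            exact (Nat.mul_le_mul_left _ (min_le_right _ _)).trans (Nat.mul_div_le _ _)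
        have h := horace (ihm (e + 2) (p - q) (by omega) ha) hb hc hp₂ hnum
        rwa [Nat.sub_add_cancel hqp] at h

end Pool.Agent.WarM


end

section

/-!
# Module SM3: cubics, small q
-/

set_option autoImplicit false

open Module MvPolynomial
open Pool.Agent.War Pool.Agent.WarS Pool.Agent.WarQ

namespace Pool.Agent.WarC

namespace SM3aux

/-- `MR` with `b D ≤ n c` is `QB` in degree two -/
theorem QB_of_MR {n D b c : ℕ} (h : b * D ≤ n * c) (hM : MR n D b c) : QB n 2 b c D := by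
  obtain ⟨x, hx⟩ := hM
  have h0 : finrank ℂ (MZ n x) = 0 := by omega
  have h1 : TrC1 n 2 (x.1, vec x.2) = ⊥ := Submodule.finrank_eq_zero.1 h0
  have h2 := (UPaux.kill_iff n 2 (x.1, vec x.2)).2 h1
  exact ⟨_, _, _, h2.reindexC1 finSumFinEquiv.symm (Equiv.refl _)⟩

theorem num1 {ν q : ℕ} (hq : q + 2 ≤ ν) : (2 * ν + 1) * q ≤ NN ν 3 := by
  have h := SMALLaux.NN_three ν
  obtain ⟨m, rfl⟩ : ∃ m, ν = m + 2 := ⟨ν - 2, by omega⟩
  have h1 : (2 * (m + 2) + 1) * q ≤ (2 * (m + 2) + 1) * m := Nat.mul_le_mul_left _ (by omega)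
  have h2 : 6 * ((2 * (m + 2) + 1) * m) ≤ (m + 2 + 1) * (m + 2 + 2) * (m + 2 + 3) := by
    have e1 : (m + 2 + 1) * (m + 2 + 2) * (m + 2 + 3) = m ^ 3 + 12 * m ^ 2 + 47 * m + 60 := by ring
    have e2 : 6 * ((2 * (m + 2) + 1) * m) = 12 * m ^ 2 + 30 * m := by ring
    rw [e1, e2]
    have : 0 ≤ m ^ 3 := Nat.zero_le _
    omega
  omega

theorem NN_two' (n : ℕ) : 2 * NN n 2 = (n + 1) * (n + 2) := by
  induction n with
  | zero => simp [NN]
  | succ m ihm =>
    have h3 : NN (m + 1) 2 = NN m 2 + NN (m + 1) 1 := NN_succ m 1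
    rw [NN_right_one] at h3
    rw [h3, Nat.mul_add, ihm]
    ring

theorem num2 (ν : ℕ) : 4 * ν + 1 ≤ NN (ν + 1) 2 := by
  have h := NN_two' (ν + 1)
  have e : (ν + 1 + 1) * (ν + 1 + 2) = ν ^ 2 + 5 * ν + 6 := by ring
  rw [e] at h
  have : 3 * ν ≤ ν ^ 2 + 4 := by nlinarith [sq_nonneg ((ν : ℤ) - 2)]
  omega

theorem num3 (ν : ℕ) : 2 * ν ≤ NN ν 2 := by
  have h := NN_two' ν
  have e : (ν + 1) * (ν + 2) = ν ^ 2 + 3 * ν + 2 := by ring
  rw [e] at h
  have : ν ≤ ν ^ 2 := by nlinarith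
  omega

end SM3aux

open _root_.Pool.Agent.WarC.SM3aux SMALLaux

theorem x_SM3 (h3 : WarQ.S_Q3) (hSB : WarQ.S_SB) (hM : S_MRA) : S_SM3 := by
  intro n b c D q hc hcb hbn h1 h2 hD hq hqD
  have hm := ceil_eq (q := q) (by omega : 0 < n) hc hbn h1 h2
  obtain ⟨q', rfl⟩ : ∃ q', q = q' + 1 := ⟨q - 1, by omega⟩
  obtain ⟨ν, rfl⟩ : ∃ ν, n = ν + 1 := ⟨n - 1, by omega⟩
  by_cases hq0 : q' = 0
  · subst hq0
    obtain ⟨z, a, y, hK⟩ := h3 (ν + 1) b c D hc hcb hbn h1 h2 (by omega)
    refine ⟨_, _, _, hK.reindexC1 (finCongr ?_) (finCongr ?_)⟩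
    · rw [hm]; omega
    · rw [hm]
      have e : (ν + 1) * (0 + 1) + D = ν + 1 + D := by ring
      have e' : b * (0 + 1) + c = b + c := by ring
      rw [e, e']
  · have hcD : c ≤ D := by
      have h5 : (ν + 1) * c < (ν + 1) * (D + 1) :=
        lt_of_lt_of_le h2 (Nat.mul_le_mul_right _ hbn)
      have := lt_of_mul_lt_mul_left h5 (Nat.zero_le _)
      omega
    have hQB : QB (ν + 1) 2 b c D := QB_of_MR h1
      (hM (ν + 1) D b c (by omega) hD (by omega) (by omega) hbn hcb.le hcD)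
    have h11 := num1 (ν := ν) (q := q') (by omega)
    have h12 := num2 ν
    have h13 := num3 ν
    have hGG : GG ν (2 + 1) q' := WarM.AH ν 3 q' (by omega) le_rfl h11
    obtain ⟨z, a, y, hK⟩ := hSB ν 2 b c D q' (by omega) (by omega) (by omega) hGG
      ((Nat.mul_le_mul_right q' (by omega : ν + b ≤ 2 * ν + 1)).trans h11)
      (by omega) (by omega) hQB
    refine ⟨_, _, _, hK.reindexC1 (finCongr ?_) (finCongr ?_)⟩
    · rw [hm]
    · rw [hm]

end Pool.Agent.WarC


end

section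

/-!
# Second model: assembly of the statement `S_L`   (helper52)
-/

set_option autoImplicit false

open Module MvPolynomial
open Pool.Agent.War Pool.Agent.WarS

namespace Pool.Agent.WarQ

namespace Laux

/-- restriction to the linear space `y = 0` -/
noncomputable def rl (D k : ℕ) : MvPolynomial (Fin D ⊕ Fin k) ℂ →ₐ[ℂ] MvPolynomial (Fin D) ℂ :=
  aeval (Sum.elim X 0)

theorem rl_C {D k : ℕ} (c : ℂ) : rl D k (C c) = C c := by simp [rl]

theorem rl_inl {D k : ℕ} (i : Fin D) : rl D k (X (Sum.inl i)) = X i := by simp [rl]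

theorem rl_inr {D k : ℕ} (i : Fin k) : rl D k (X (Sum.inr i)) = 0 := by simp [rl]

theorem eval_rl {D k : ℕ} (x : Fin D → ℂ) (f : MvPolynomial (Fin D ⊕ Fin k) ℂ) :
    eval x (rl D k f) = eval (Sum.elim x 0) f := by
  induction f using MvPolynomial.induction_on with
  | C a => simp
  | add p q hp hq => simp [hp, hq]
  | mul_X p v hp =>
    rcases v with i | i
    · simp [rl_inl, hp]
    · simp [rl_inr]

theorem rl_pderiv {D k : ℕ} (i : Fin D) (f : MvPolynomial (Fin D ⊕ Fin k) ℂ) :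
    rl D k (pderiv (Sum.inl i) f) = pderiv i (rl D k f) := by
  induction f using MvPolynomial.induction_on with
  | C a => simp
  | add p q hp hq => simp [hp, hq]
  | mul_X p v hp =>
    rcases v with j | j
    · by_cases hij : j = i
      · subst hij
        simp [rl_inl, Derivation.leibniz, hp]
      · have h1 : (Sum.inl j : Fin D ⊕ Fin k) ≠ Sum.inl i := fun h => hij (Sum.inl_injective h)
        simp [rl_inl, Derivation.leibniz, hp, pderiv_X_of_ne hij, pderiv_X_of_ne h1]
    · have h1 : (Sum.inr j : Fin D ⊕ Fin k) ≠ Sum.inl i := Sum.inr_ne_inl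
      simp [rl_inr, Derivation.leibniz, hp, pderiv_X_of_ne h1]

theorem eval_rl_pderiv {D k : ℕ} (x : Fin D → ℂ) (i : Fin D)
    (f : MvPolynomial (Fin D ⊕ Fin k) ℂ) :
    eval x (pderiv i (rl D k f)) = eval (Sum.elim x 0) (pderiv (Sum.inl i) f) := by
  rw [← rl_pderiv, eval_rl]

theorem rl_degree {D k : ℕ} (f : MvPolynomial (Fin D ⊕ Fin k) ℂ) :
    (rl D k f).totalDegree ≤ f.totalDegree := by
  have h0 : rl D k f = ∑ m ∈ f.support, C (f.coeff m) *
      ∏ v ∈ m.support, (Sum.elim X 0 : Fin D ⊕ Fin k → MvPolynomial (Fin D) ℂ) v ^ m v := by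
    conv_lhs => rw [f.as_sum]
    rw [map_sum]
    refine Finset.sum_congr rfl fun m _ => ?_
    rw [rl, aeval_monomial]
    rfl
  rw [h0]
  refine totalDegree_finsetSum_le fun m hm => ?_
  refine (totalDegree_mul _ _).trans ?_
  rw [totalDegree_C, zero_add]
  refine (totalDegree_finsetProd _ _).trans ?_
  refine le_trans (Finset.sum_le_sum fun v _ => ?_) (le_totalDegree hm)
  refine (totalDegree_pow _ _).trans ?_
  rcases v with i | i
  · simp
  · simp

/-- numbers: `b + D ≤ N(D,3)` -/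
theorem arA {b δ : ℕ} (h : b < 2 * (δ + 1) * (δ + 1)) : b + (δ + 1) ≤ NN (δ + 1) 3 := by
  have h6 : 6 * NN (δ + 1) 3 = (δ + 4) * (δ + 3) * (δ + 2) := by
    have e : NN (δ + 1) 3 = (δ + 4).choose 3 := by
      unfold NN
      rw [show δ + 1 + 3 = δ + 4 by ring, ← Nat.choose_symm (show 3 ≤ δ + 4 by omega)]
      congr 1
    rw [e]
    have := Nat.choose_mul_factorial_mul_factorial (show 3 ≤ δ + 4 by omega)
    rw [show δ + 4 - 3 = δ + 1 by omega] at this
    have e2 : (δ + 4).factorial = (δ + 4) * ((δ + 3) * ((δ + 2) * (δ + 1).factorial)) := by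
      rw [Nat.factorial_succ (δ + 3), Nat.factorial_succ (δ + 2), Nat.factorial_succ (δ + 1)]
    rw [e2, show Nat.factorial 3 = 6 from rfl] at this
    have hp : 0 < (δ + 1).factorial := Nat.factorial_pos _
    refine Nat.eq_of_mul_eq_mul_right hp ?_
    rw [← Nat.cast_inj (R := ℤ)] at this ⊢
    push_cast at this ⊢
    linarith
  have key : 6 * (2 * (δ + 1) * (δ + 1)) + 6 * (δ + 1) ≤ (δ + 4) * (δ + 3) * (δ + 2) + 6 := by
    rcases Nat.lt_or_ge δ 4 with h4 | h4
    · interval_cases δ <;> norm_num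
    · obtain ⟨t, rfl⟩ : ∃ t, δ = t + 4 := ⟨δ - 4, by omega⟩
      ring_nf
      nlinarith [Nat.zero_le t, Nat.zero_le (t ^ 2), Nat.zero_le (t ^ 3)]
  omega

theorem two_NN (n : ℕ) : 2 * NN n 2 = (n + 2) * (n + 1) := by
  have e : NN n 2 = (n + 2).choose 2 := by
    unfold NN
    rw [← Nat.choose_symm (show 2 ≤ n + 2 by omega)]
    congr 1
  rw [e, Nat.choose_two_right, show n + 2 - 1 = n + 1 by omega]
  exact Nat.mul_div_cancel' (Nat.even_mul_pred_self (n + 2)).two_dvd

theorem two_eo (D k : ℕ) : 2 * eo D k = 2 * D * (k + 1) + (k + 3) * (k + 2) := by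
  unfold eo
  have : 2 * (k + 3).choose 2 = (k + 3) * (k + 2) := by
    rw [Nat.choose_two_right, show k + 3 - 1 = k + 2 by omega]
    exact Nat.mul_div_cancel' (Nat.even_mul_pred_self (k + 3)).two_dvd
  rw [mul_add, this]
  ring

/-- numbers: the sum -/
theorem arB {b c δ k : ℕ} (hc : c ≤ δ + 1) (hb : b + (δ + 1) ≤ NN (δ + 1) 3) :
    (NN (δ + 1) 3 - (δ + 1) - b) + (NN (δ + (k + 2)) 3 - NN δ 3) + (eo (δ + 1) k - c) =
      NN (δ + 1 + (k + 2)) 3 - (δ + 1 + (k + 2) + (δ + 1)) - (b + c) := by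
  have h1 : NN (δ + 1) 3 = NN δ 3 + NN (δ + 1) 2 := NN_succ δ 2
  have h2 : NN (δ + 1 + (k + 2)) 3 = NN (δ + (k + 2)) 3 + NN (δ + 1 + (k + 2)) 2 := by
    have := NN_succ (δ + (k + 2)) 2
    rw [show δ + (k + 2) + 1 = δ + 1 + (k + 2) by ring] at this
    exact this
  have h3 := two_NN (δ + 1)
  have h4 := two_NN (δ + 1 + (k + 2))
  have h5 := two_eo (δ + 1) k
  have h6 : 2 * NN (δ + 1 + (k + 2)) 2 = 2 * NN (δ + 1) 2 + 2 * eo (δ + 1) k +
      2 * (δ + 1 + (k + 2)) := by
    rw [h3, h4, h5]; ring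
  have h7 : NN δ 3 ≤ NN (δ + (k + 2)) 3 := by
    unfold NN
    rw [← Nat.choose_symm (show δ ≤ δ + 3 by omega),
      ← Nat.choose_symm (show δ + (k + 2) ≤ δ + (k + 2) + 3 by omega),
      show δ + 3 - δ = 3 by omega, show δ + (k + 2) + 3 - (δ + (k + 2)) = 3 by omega]
    exact Nat.choose_le_choose 3 (by omega)
  have h8 : δ + 1 ≤ eo (δ + 1) k := by
    unfold eo
    have : (δ + 1) * 1 ≤ (δ + 1) * (k + 1) := Nat.mul_le_mul_left _ (by omega)
    omega
  omega

end Laux

open _root_.Pool.Agent.WarQ.Laux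

theorem x_L (hT : S_LT) (hH : S_LH) (hS : S_LS) (hX : S_LX) (hR : S_TRP) : S_L := by
  intro n b c D hc1 hcD hcb hbD hb2 hDn
  obtain ⟨k, rfl⟩ : ∃ k, n = D + (k + 2) := ⟨n - D - 2, by omega⟩
  obtain ⟨δ, rfl⟩ : ∃ δ, D = δ + 1 := ⟨D - 1, by omega⟩
  have hbN := arA hb2
  -- generic choice
  have gT := hT (δ + 1) b (by omega) hbN
  have gS := hS (δ + 1) k b c (by omega) hcD hcb.le hbD
  let XS := (Fin b → Fin (δ + 1) → ℂ) × (Fin b ⊕ Fin c → Fin b → ℂ) ×
      (Fin c → Fin (δ + 1) ⊕ Fin (k + 2) → ℂ) ×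
      (Fin (eo (δ + 1) k - c) → Fin (δ + 1) ⊕ Fin (k + 2) → ℂ)
  let Y1 := Fin (NN (δ + 1) 3 - (δ + 1) - b) → Fin (δ + 1) → ℂ
  let LS : XS × Y1 →ₗ[ℂ] XS := LinearMap.fst ℂ XS Y1
  have hLS : Function.Surjective LS := fun q => ⟨(q, 0), rfl⟩
  let LT : XS × Y1 →ₗ[ℂ] (Fin b → Fin (δ + 1) → ℂ) × (Fin b → Fin b → ℂ) × Y1 :=
    { toFun := fun q => (q.1.1, fun i => q.1.2.1 (Sum.inl i), q.2)
      map_add' := fun _ _ => rfl
      map_smul' := fun _ _ => rfl }
  have hLT : Function.Surjective LT := fun q =>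
    ⟨((q.1, Sum.elim q.2.1 0, 0, 0), q.2.2), rfl⟩
  have g1 := gS.comp LS hLS
  have g2 := gT.comp LT hLT
  have g3 : Gen ℂ fun q : XS × Y1 => ∀ i, q.1.1 i 0 ≠ 0 := by
    refine Gen.forall fun i => ?_
    let φ : XS × Y1 →ₗ[ℂ] ℂ :=
      { toFun := fun q => q.1.1 i 0
        map_add' := fun _ _ => rfl
        map_smul' := fun _ _ => rfl }
    exact Gen.ne (F := fun q : XS × Y1 => q.1.1 i 0) (LP.linear φ)
      ((fun _ _ => 1, 0, 0, 0), 0) one_ne_zero
  have g4 : Gen ℂ fun q : XS × Y1 => ∀ i, q.1.2.2.1 i (Sum.inl 0) ≠ 0 := by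
    refine Gen.forall fun i => ?_
    let φ : XS × Y1 →ₗ[ℂ] ℂ :=
      { toFun := fun q => q.1.2.2.1 i (Sum.inl 0)
        map_add' := fun _ _ => rfl
        map_smul' := fun _ _ => rfl }
    exact Gen.ne (F := fun q : XS × Y1 => q.1.2.2.1 i (Sum.inl 0)) (LP.linear φ)
      ((0, 0, fun _ _ => 1, 0), 0) one_ne_zero
  have g5 : Gen ℂ fun q : XS × Y1 => ∀ i, q.1.2.2.2 i (Sum.inl 0) ≠ 0 := by
    refine Gen.forall fun i => ?_
    let φ : XS × Y1 →ₗ[ℂ] ℂ :=
      { toFun := fun q => q.1.2.2.2 i (Sum.inl 0)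
        map_add' := fun _ _ => rfl
        map_smul' := fun _ _ => rfl }
    exact Gen.ne (F := fun q : XS × Y1 => q.1.2.2.2 i (Sum.inl 0)) (LP.linear φ)
      ((0, 0, 0, fun _ _ => 1), 0) one_ne_zero
  obtain ⟨⟨⟨x, a, w, p⟩, y1⟩, ⟨⟨⟨hq1, hq2⟩, hq3⟩, hq4⟩, hq5⟩ :=
    ((((g1.and g2).and g3).and g4).and g5).exists
  replace hq1 : ∀ g : Fin b → MvPolynomial (Fin (δ + 1) ⊕ Fin (k + 2)) ℂ,
    (∀ j, (g j).totalDegree ≤ 2) → RC x a w p g → ∀ j, g j = 0 := hq1
  replace hq2 : ∀ f : Fin b → MvPolynomial (Fin (δ + 1)) ℂ, (∀ j, (f j).totalDegree ≤ 3) →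
      (∀ i j, eval (x i) (f j) = 0) →
      (∀ i v, ∑ j, a (Sum.inl i) j * eval (x i) (pderiv v (f j)) = 0) →
      (∀ t j, eval (y1 t) (f j) = 0) → ∀ j, f j = 0 := hq2
  replace hq3 : ∀ i, x i 0 ≠ 0 := hq3
  replace hq4 : ∀ i, w i (Sum.inl 0) ≠ 0 := hq4
  replace hq5 : ∀ i, p i (Sum.inl 0) ≠ 0 := hq5
  obtain ⟨yH, hyH⟩ := hH δ (k + 2)
  obtain ⟨hX1, hX2, hX3⟩ := hX δ (k + 2)
  -- transport
  refine hR (Fin (δ + 1) ⊕ Fin (k + 2)) (Fin b ⊕ Fin c)
    ((Fin (NN (δ + 1) 3 - (δ + 1) - b) ⊕ Fin (NN (δ + (k + 2)) 3 - NN δ 3)) ⊕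
      Fin (eo (δ + 1) k - c)) _ 3 b _ _ (by simp) (by simp)
    (by
      simp only [Fintype.card_sum, Fintype.card_fin]
      exact arB hcD hbN)
    (Sum.elim (fun i => Sum.elim (x i) 0) w) a
    (Sum.elim (Sum.elim (fun t => Sum.elim (y1 t) 0)
      (fun t => Sum.elim (Fin.cons 0 fun i => yH t (Sum.inl i)) fun i => yH t (Sum.inr i))) p) ?_
  intro f hf k1 k2 k3
  -- trace on the linear space
  have t1 : ∀ j, rl (δ + 1) (k + 2) (f j) = 0 := by
    refine hq2 (fun j => rl (δ + 1) (k + 2) (f j)) (fun j => (rl_degree _).trans (hf j))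
      (fun i j => ?_) (fun i v => ?_) (fun t j => ?_)
    · rw [eval_rl]
      exact k1 (Sum.inl i) j
    · have := k2 (Sum.inl i) (Sum.inl v)
      simp only [eval_rl_pderiv]
      exact this
    · rw [eval_rl]
      exact k3 (Sum.inl (Sum.inl t)) j
  have t2 : ∀ j (z : Fin (δ + 1) → ℂ), eval (Sum.elim z 0) (f j) = 0 := fun j z => by
    rw [← eval_rl, t1, map_zero]
  -- the hyperplane
  have t3 : ∀ j (z : Fin (δ + 1) ⊕ Fin (k + 2) → ℂ), z (Sum.inl 0) = 0 → eval z (f j) = 0 := by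
    intro j z hz
    obtain ⟨h, hd, he⟩ := hX1 (f j)
    have h0 : h = 0 := by
      refine hyH h (hd.trans (hf j)) (fun s => ?_) (fun t => ?_)
      · rw [he, t2]
      · have e1 : yH t = Sum.elim (fun i => yH t (Sum.inl i)) fun i => yH t (Sum.inr i) := by
          funext v
          rcases v with v | v <;> rfl
        rw [e1, he]
        exact k3 (Sum.inl (Sum.inr t)) j
    have e2 : z = Sum.elim (Fin.cons 0 fun i : Fin δ => z (Sum.inl i.succ))
        fun i => z (Sum.inr i) := by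
      funext v
      rcases v with v | v
      · refine Fin.cases ?_ (fun i => ?_) v
        · exact hz
        · rfl
      · rfl
    rw [e2, ← he, h0, map_zero]
  have t4 := fun j => hX2 2 (f j) (hf j) (t3 j)
  choose g hg hfg using t4
  have t5 : RC x a w p g := by
    refine ⟨fun j z => ?_, fun i t => ?_, fun l j => ?_, fun l v => ?_, fun t j => ?_⟩
    · have e1 : rl (δ + 1) (k + 2) (g j) = 0 := by
        have := t1 j
        rw [hfg, map_mul, rl_inl] at this
        exact (mul_eq_zero.1 this).resolve_left (X_ne_zero 0)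
      rw [← eval_rl, e1, map_zero]
    · have e1 := k2 (Sum.inl i) (Sum.inr t)
      have e2 : ∀ j, eval (Sum.elim (x i) 0) (pderiv (Sum.inr t) (f j)) =
          x i 0 * eval (Sum.elim (x i) 0) (pderiv (Sum.inr t) (g j)) := by
        intro j
        have e3 := k1 (Sum.inl i) j
        rw [hfg] at e3 ⊢
        exact (hX3 (g j) (Sum.elim (x i) 0) (hq3 i) e3).2 (Sum.inr t)
      simp only [Sum.elim_inl, e2] at e1
      have e4 : ∀ j, a (Sum.inl i) j * (x i 0 * eval (Sum.elim (x i) 0)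
          (pderiv (Sum.inr t) (g j))) = x i 0 * (a (Sum.inl i) j * eval (Sum.elim (x i) 0)
          (pderiv (Sum.inr t) (g j))) := fun j => by ring
      simp only [e4, ← Finset.mul_sum] at e1
      exact (mul_eq_zero.1 e1).resolve_left (hq3 i)
    · have e3 := k1 (Sum.inr l) j
      rw [hfg] at e3
      exact (hX3 (g j) (w l) (hq4 l) e3).1
    · have e1 := k2 (Sum.inr l) v
      have e2 : ∀ j, eval (w l) (pderiv v (f j)) =
          w l (Sum.inl 0) * eval (w l) (pderiv v (g j)) := by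
        intro j
        have e3 := k1 (Sum.inr l) j
        rw [hfg] at e3 ⊢
        exact (hX3 (g j) (w l) (hq4 l) e3).2 v
      simp only [Sum.elim_inr, e2] at e1
      have e4 : ∀ j, a (Sum.inr l) j * (w l (Sum.inl 0) * eval (w l) (pderiv v (g j))) =
          w l (Sum.inl 0) * (a (Sum.inr l) j * eval (w l) (pderiv v (g j))) := fun j => by ring
      simp only [e4, ← Finset.mul_sum] at e1
      exact (mul_eq_zero.1 e1).resolve_left (hq4 l)
    · have e3 := k3 (Sum.inr t) j
      rw [hfg] at e3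
      exact (hX3 (g j) (p t) (hq5 t) e3).1
  intro j
  rw [hfg, hq1 g hg t5 j, mul_zero]

end Pool.Agent.WarQ


end

section

/-!
# Simultaneous Waring decompositions (MP_db021c_ag): small `b`, assembly of `S_LM`   (helper1)
-/

set_option autoImplicit false

open Module MvPolynomial
open Pool.Agent.War Pool.Agent.WarS Pool.Agent.WarQ

namespace Pool.Agent.WarC

namespace LMaux

/-- numbers: the sum -/
theorem arM {b c D k : ℕ} (hc : c ≤ D) (hb : b + D ≤ NN D 2) :
    (NN D 2 - D - b) + (eo D k - c) =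
      NN (D + (k + 2)) 2 - (D + (k + 2) + D) - (b + c) := by
  have h3 := Laux.two_NN D
  have h4 := Laux.two_NN (D + (k + 2))
  have h5 := Laux.two_eo D k
  have h6 : 2 * NN (D + (k + 2)) 2 = 2 * NN D 2 + 2 * eo D k + 2 * (D + (k + 2)) := by
    rw [h3, h4, h5]; ring
  have h8 : D ≤ eo D k := by
    unfold eo
    have : D * 1 ≤ D * (k + 1) := Nat.mul_le_mul_left _ (by omega)
    omega
  omega

/-- the renamed polynomial -/
noncomputable def rn {n D k : ℕ} (e : (Fin D ⊕ Fin k) ≃ Fin n) (f : MvPolynomial (Fin n) ℂ) :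
    MvPolynomial (Fin D ⊕ Fin k) ℂ := rename e.symm f

theorem rn_add {n D k : ℕ} (e : (Fin D ⊕ Fin k) ≃ Fin n) (f g : MvPolynomial (Fin n) ℂ) :
    rn e (f + g) = rn e f + rn e g := by
  unfold rn
  rw [map_add]

theorem rn_smul {n D k : ℕ} (e : (Fin D ⊕ Fin k) ≃ Fin n) (r : ℂ) (f : MvPolynomial (Fin n) ℂ) :
    rn e (r • f) = r • rn e f := by
  unfold rn
  rw [map_smul]

theorem rn_inj {n D k : ℕ} (e : (Fin D ⊕ Fin k) ≃ Fin n) {f g : MvPolynomial (Fin n) ℂ}
    (h : rn e f = rn e g) : f = g := rename_injective _ e.symm.injective h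

theorem rn_degree {n D k : ℕ} (e : (Fin D ⊕ Fin k) ≃ Fin n) (f : MvPolynomial (Fin n) ℂ) :
    (rn e f).totalDegree ≤ f.totalDegree := totalDegree_rename_le _ _

theorem eval_rn {n D k : ℕ} (e : (Fin D ⊕ Fin k) ≃ Fin n) (z : Fin D ⊕ Fin k → ℂ)
    (f : MvPolynomial (Fin n) ℂ) : eval z (rn e f) = eval (z ∘ e.symm) f := by
  unfold rn
  rw [eval_rename]

theorem eval_pderiv_rn {n D k : ℕ} (e : (Fin D ⊕ Fin k) ≃ Fin n) (z : Fin D ⊕ Fin k → ℂ)
    (s : Fin D ⊕ Fin k) (f : MvPolynomial (Fin n) ℂ) :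
    eval z (pderiv s (rn e f)) = eval (z ∘ e.symm) (pderiv (e s) f) := by
  have h := pderiv_rename (R := ℂ) (f := e.symm) e.symm.injective (e s) f
  rw [e.symm_apply_apply] at h
  unfold rn
  rw [h, eval_rename]

end LMaux

open _root_.Pool.Agent.WarC.LMaux Laux LSaux

theorem x_LM (hR : S_LRB) (hT : S_LT2) (hP : S_PUR) : S_LM := by
  intro n D b c hDn hD hb hcD hcb hbD
  obtain ⟨k, rfl⟩ : ∃ k, n = D + (k + 2) := ⟨n - D - 2, by omega⟩
  refine hP (D + (k + 2)) b c _ _ ?_
  -- generic choice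
  obtain ⟨q₀, hq₀⟩ := hR D k b c hb hcD
  have gS := (LSaux.pk (D := D) (k := k + 2) (b := b) (c := c) (e := eo D k - c)).gen_finrank hq₀
  have gT := hT D b hD hbD
  let XS := LSaux.QQ D (k + 2) b c (eo D k - c)
  let Y1 := Fin (NN D 2 - D - b) → Fin D → ℂ
  let LS : XS × Y1 →ₗ[ℂ] XS := LinearMap.fst ℂ XS Y1
  have hLS : Function.Surjective LS := fun q => ⟨(q, 0), rfl⟩
  let LT : XS × Y1 →ₗ[ℂ] (Fin b → Fin D → ℂ) × (Fin b → Fin b → ℂ) × Y1 :=
    { toFun := fun q => (q.1.1, fun i => q.1.2.1 (Sum.inl i), q.2)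
      map_add' := fun _ _ => rfl
      map_smul' := fun _ _ => rfl }
  have hLT : Function.Surjective LT := fun q =>
    ⟨((q.1, Sum.elim q.2.1 0, 0, 0), q.2.2), rfl⟩
  have g1 := gS.comp LS hLS
  have g2 := gT.comp LT hLT
  obtain ⟨⟨⟨x, a, w, p⟩, y1⟩, hq1, hq2⟩ := (g1.and g2).exists
  replace hq1 : finrank ℂ (LSaux.ZZ (x, a, w, p)) ≤ b * D - (D + (k + 2)) * c := hq1
  replace hq2 : ∀ f : Fin b → MvPolynomial (Fin D) ℂ, (∀ j, (f j).totalDegree ≤ 2) →
      (∀ i j, eval (x i) (f j) = 0) →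
      (∀ i v, ∑ j, a (Sum.inl i) j * eval (x i) (pderiv v (f j)) = 0) →
      (∀ t j, eval (y1 t) (f j) = 0) → ∀ j, f j = 0 := hq2
  -- the configuration
  have har := arM (k := k) hcD hbD
  let e : (Fin D ⊕ Fin (k + 2)) ≃ Fin (D + (k + 2)) := finSumFinEquiv
  let e' : (Fin (NN D 2 - D - b) ⊕ Fin (eo D k - c)) ≃
      Fin (NN (D + (k + 2)) 2 - (D + (k + 2) + D) - (b + c)) :=
    finSumFinEquiv.trans (finCongr har)
  let P : (Fin b ⊕ Fin c) ⊕ Fin (NN (D + (k + 2)) 2 - (D + (k + 2) + D) - (b + c)) →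
      (Fin D ⊕ Fin (k + 2) → ℂ) :=
    Sum.elim (Sum.elim (fun i => Sum.elim (x i) 0) w)
      (fun t => Sum.elim (fun t => Sum.elim (y1 t) 0) p (e'.symm t))
  let Z : ((Fin b ⊕ Fin c) ⊕ Fin (NN (D + (k + 2)) 2 - (D + (k + 2) + D) - (b + c)) →
      Fin (D + (k + 2)) → ℂ) × (Fin b ⊕ Fin c → Fin b → ℂ) := (fun i => P i ∘ e.symm, a)
  refine ⟨Z, ?_⟩
  -- the conditions for the renamed polynomials
  have c1 : ∀ f : TrC1 (D + (k + 2)) 2 Z, ∀ i j,
      eval (P i) (rn e ((f : Fin b → Pol (D + (k + 2)) 2) j :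
        MvPolynomial (Fin (D + (k + 2))) ℂ)) = 0 := by
    intro f i j
    rw [eval_rn]
    exact (mem_TrC1.1 f.2).1 i j
  have c2 : ∀ f : TrC1 (D + (k + 2)) 2 Z, ∀ i s,
      ∑ j, a i j * eval (P (Sum.inl i)) (pderiv s (rn e ((f : Fin b → Pol (D + (k + 2)) 2) j :
        MvPolynomial (Fin (D + (k + 2))) ℂ))) = 0 := by
    intro f i s
    simp only [eval_pderiv_rn]
    exact (mem_TrC1.1 f.2).2 i (e s)
  have cd : ∀ f : TrC1 (D + (k + 2)) 2 Z, ∀ j,
      (rn e ((f : Fin b → Pol (D + (k + 2)) 2) j :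
        MvPolynomial (Fin (D + (k + 2))) ℂ)).totalDegree ≤ 2 := fun f j =>
    (rn_degree e _).trans (mem_Pol.1 ((f : Fin b → Pol (D + (k + 2)) 2) j).2)
  have t1 : ∀ f : TrC1 (D + (k + 2)) 2 Z, ∀ j,
      rl D (k + 2) (rn e ((f : Fin b → Pol (D + (k + 2)) 2) j :
        MvPolynomial (Fin (D + (k + 2))) ℂ)) = 0 := by
    intro f
    refine hq2 (fun j => rl D (k + 2) (rn e ((f : Fin b → Pol (D + (k + 2)) 2) j :
        MvPolynomial (Fin (D + (k + 2))) ℂ))) (fun j => (rl_degree _).trans (cd f j))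
      (fun i j => ?_) (fun i v => ?_) (fun t j => ?_)
    · rw [eval_rl]
      exact c1 f (Sum.inl (Sum.inl i)) j
    · simp only [eval_rl_pderiv]
      exact c2 f (Sum.inl i) (Sum.inl v)
    · rw [eval_rl]
      have := c1 f (Sum.inr (e' (Sum.inl t))) j
      simp only [P, Sum.elim_inr, Equiv.symm_apply_apply, Sum.elim_inl] at this
      exact this
  have t2 : ∀ f : TrC1 (D + (k + 2)) 2 Z, ∀ j,
      rn e ((f : Fin b → Pol (D + (k + 2)) 2) j :
        MvPolynomial (Fin (D + (k + 2))) ℂ) ∈ LSaux.WW D (k + 2) := by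
    intro f j
    refine LSaux.mem_WW.2 ⟨cd f j, fun z => ?_⟩
    rw [← eval_rl, t1, map_zero]
  have t3 : ∀ f : TrC1 (D + (k + 2)) 2 Z,
      (fun j => (⟨rn e ((f : Fin b → Pol (D + (k + 2)) 2) j :
        MvPolynomial (Fin (D + (k + 2))) ℂ), t2 f j⟩ : LSaux.WW D (k + 2))) ∈
        LSaux.ZZ (x, a, w, p) := by
    intro f
    rw [LSaux.mem_ZZ]
    refine ⟨fun j z => (LSaux.mem_WW.1 (t2 f j)).2 z, fun i t => ?_, fun l j => ?_,
      fun l v => ?_, fun t j => ?_⟩
    · exact c2 f (Sum.inl i) (Sum.inr t)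
    · exact c1 f (Sum.inl (Sum.inr l)) j
    · exact c2 f (Sum.inr l) v
    · have := c1 f (Sum.inr (e' (Sum.inr t))) j
      simp only [P, Sum.elim_inr, Equiv.symm_apply_apply] at this
      exact this
  let Φ : TrC1 (D + (k + 2)) 2 Z →ₗ[ℂ] LSaux.ZZ (x, a, w, p) :=
    { toFun := fun f => ⟨fun j => ⟨rn e ((f : Fin b → Pol (D + (k + 2)) 2) j :
        MvPolynomial (Fin (D + (k + 2))) ℂ), t2 f j⟩, t3 f⟩
      map_add' := fun f g => by
        refine Subtype.ext (funext fun j => Subtype.ext ?_)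
        exact rn_add e _ _
      map_smul' := fun r f => by
        refine Subtype.ext (funext fun j => Subtype.ext ?_)
        exact rn_smul e _ _ }
  have hΦ : Function.Injective Φ := by
    intro f g hfg
    refine Subtype.ext (funext fun j => Subtype.ext ?_)
    have h1 := congrArg Subtype.val hfg
    have h2 := congrArg Subtype.val (congrFun h1 j)
    exact rn_inj e h2
  exact (LinearMap.finrank_le_finrank_of_injective hΦ).trans hq1

end Pool.Agent.WarC


end

section

/-!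
# Module LR: the residual lemma for the linear space
-/

set_option autoImplicit false

open Module MvPolynomial
open Pool.Agent.War Pool.Agent.WarS

namespace Pool.Agent.WarQ

namespace LRaux

/-- A vector orthogonal to `b` of the vectors `(τ^0, ..., τ^(b-1))` is `0`. -/
lemma vdm {b : ℕ} {I : Type} (τ : I → ℂ) (hτ : Function.Injective τ) (γ : Fin b → ℂ)
    (S : Finset I) (hS : b ≤ S.card) (h : ∀ s ∈ S, ∑ j : Fin b, τ s ^ (j : ℕ) * γ j = 0) :
    γ = 0 := by
  obtain ⟨t, ht, hc⟩ := Finset.exists_subset_card_eq hS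
  let e := t.equivFinOfCardEq hc
  refine Matrix.eq_zero_of_forall_index_sum_pow_mul_eq_zero
    (f := fun i => τ ((e.symm i : t) : I)) ?_ ?_
  · intro i j hij
    exact e.symm.injective (Subtype.ext (hτ hij))
  · intro i
    exact h _ (ht (e.symm i).2)

/-- `qq` is linear. -/
lemma qq_sum {D k b : ℕ} (a : Fin b → ℂ) (γ₁ : Fin b → Fin k → ℂ) (γ₂ : Fin b → Fin D → ℂ) :
    ∑ j, C (a j) * qq (γ₁ j) (γ₂ j) =
      qq (fun t => ∑ j, a j * γ₁ j t) (fun l => ∑ j, a j * γ₂ j l) := by
  unfold qq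
  simp only [mul_add, Finset.sum_add_distrib, Finset.mul_sum, map_sum, Finset.sum_mul, C_mul]
  congr 1
  · rw [Finset.sum_comm]
    refine Finset.sum_congr rfl fun t _ => Finset.sum_congr rfl fun j _ => ?_
    ring
  · rw [Finset.sum_comm]
    refine Finset.sum_congr rfl fun l _ => ?_
    rw [Finset.sum_comm]
    refine Finset.sum_congr rfl fun t _ => Finset.sum_congr rfl fun j _ => ?_
    ring

lemma pderiv_sum {σ : Type} {b : ℕ} (a : Fin b → ℂ) (f : Fin b → MvPolynomial σ ℂ) (v : σ)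
    (z : σ → ℂ) : eval z (pderiv v (∑ j, C (a j) * f j)) =
      ∑ j, a j * eval z (pderiv v (f j)) := by
  rw [map_sum, map_sum]
  refine Finset.sum_congr rfl fun j _ => ?_
  rw [Derivation.leibniz, pderiv_C, smul_zero, add_zero, smul_eq_mul, map_mul, eval_C]

/-- the base points with their names -/
noncomputable def bp {D k : ℕ} : (Fin D × Fin (k + 1)) ⊕ Sym2 (Fin (k + 2)) →
    (Fin D ⊕ Fin (k + 2) → ℂ) :=
  Sum.elim (fun q => pb q.1 q.2) fun s => pa (Quot.out s).1 (Quot.out s).2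

lemma pa_comm {D k : ℕ} (i l : Fin k) : (pa i l : Fin D ⊕ Fin k → ℂ) = pa l i := by
  unfold pa
  congr 1
  funext t
  simp only [or_comm]

lemma bp_pa {D k : ℕ} (i l : Fin (k + 2)) :
    (bp (Sum.inr s(i, l)) : Fin D ⊕ Fin (k + 2) → ℂ) = pa i l := by
  unfold bp
  rw [Sum.elim_inr]
  have h : s((Quot.out s(i, l)).1, (Quot.out s(i, l)).2) = s(i, l) := Quot.out_eq s(i, l)
  rcases Sym2.eq_iff.1 h with ⟨h1, h2⟩ | ⟨h1, h2⟩
  · rw [h1, h2]
  · rw [h1, h2, pa_comm]

end LRaux

open _root_.Pool.Agent.WarQ.LRaux in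
theorem x_LR (hN : S_NOD) (hQ : S_LQ) (hG : S_LG) (hC : S_CYC) : S_LR := by
  classical
  intro D k b c _ hcD _ hbD
  obtain ⟨S, hS1, hS2⟩ := hC (D + (k + 2)) b c D (Nat.le_add_right _ _) hbD
  let e : Fin D ⊕ Fin (k + 2) ≃ Fin (D + (k + 2)) := finSumFinEquiv
  let S₁ : Fin b → Finset (Fin (k + 2)) := fun i => Finset.univ.filter fun t => e (Sum.inr t) ∈ S i
  let S₂ : Fin b → Finset (Fin D) := fun i => Finset.univ.filter fun t => e (Sum.inl t) ∈ S i
  have hcard : ∀ i, (S₁ i).card + (S₂ i).card = D := by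
    intro i
    have h0 : ((S i).map e.symm.toEmbedding).card = D := by rw [Finset.card_map, hS1 i]
    have h1 : (S i).map e.symm.toEmbedding = (S₂ i).disjSum (S₁ i) := by
      ext q
      rw [Finset.mem_map_equiv, Equiv.symm_symm]
      rcases q with q | q
      · rw [Finset.inl_mem_disjSum, Finset.mem_filter]
        exact ⟨fun h => ⟨Finset.mem_univ _, h⟩, fun h => h.2⟩
      · rw [Finset.inr_mem_disjSum, Finset.mem_filter]
        exact ⟨fun h => ⟨Finset.mem_univ _, h⟩, fun h => h.2⟩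
    rw [h1, Finset.card_disjSum] at h0
    omega
  choose x hx0 hx1 hx2 using fun i => hN D (k + 2) (S₁ i) (S₂ i) (hcard i)
  let τ : Fin b ⊕ Fin c → ℂ := fun s => (((finSumFinEquiv s : Fin (b + c)) : ℕ) : ℂ)
  have hτ : Function.Injective τ := by
    intro s t hst
    exact finSumFinEquiv.injective (Fin.ext (Nat.cast_injective hst))
  let W : Fin c → (Fin D × Fin (k + 1)) ⊕ Sym2 (Fin (k + 2)) :=
    fun l => Sum.inl (Fin.castLE hcD l, 0)
  have hW : Function.Injective W := by
    intro l l' h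
    have h1 := congrArg Prod.fst (Sum.inl_injective h)
    exact Fin.castLE_injective hcD h1
  let R : Finset ((Fin D × Fin (k + 1)) ⊕ Sym2 (Fin (k + 2))) := (Finset.univ.image W)ᶜ
  have hR : R.card = eo D k - c := by
    rw [Finset.card_compl, Finset.card_image_of_injective _ hW, Finset.card_univ,
      Fintype.card_fin, Fintype.card_sum, Fintype.card_prod, Fintype.card_fin, Fintype.card_fin,
      Sym2.card, Fintype.card_fin]
    rfl
  let E := R.equivFinOfCardEq hR
  refine ⟨x, fun s j => τ s ^ (j : ℕ), fun l => bp (W l), fun t => bp ((E.symm t : R) :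
    (Fin D × Fin (k + 1)) ⊕ Sym2 (Fin (k + 2))), fun g hg hRC => ?_⟩
  obtain ⟨r1, r2, r3, r4, r5⟩ := hRC
  have hall : ∀ q j, eval (bp q) (g j) = 0 := by
    intro q j
    by_cases hq : q ∈ R
    · have h1 : eval (bp ((E.symm (E ⟨q, hq⟩) : R) :
          (Fin D × Fin (k + 1)) ⊕ Sym2 (Fin (k + 2)))) (g j) = 0 := r5 (E ⟨q, hq⟩) j
      rwa [Equiv.symm_apply_apply] at h1
    · rw [Finset.mem_compl, not_not, Finset.mem_image] at hq
      obtain ⟨l, -, rfl⟩ := hq
      exact r3 l j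
  have hqq : ∀ j, ∃ γ₁ γ₂, g j = qq γ₁ γ₂ := by
    intro j
    refine hQ D k (g j) (hg j) (r1 j) (fun i l => ?_) fun j' i => ?_
    · rw [← bp_pa]
      exact hall _ j
    · exact hall (Sum.inl (j', i)) j
  choose γ₁ γ₂ hγ using hqq
  have hsum : ∀ (a : Fin b → ℂ) (v : Fin D ⊕ Fin (k + 2)) (z : Fin D ⊕ Fin (k + 2) → ℂ),
      ∑ j, a j * eval z (pderiv v (g j)) =
        eval z (pderiv v (qq (fun t => ∑ j, a j * γ₁ j t) (fun l => ∑ j, a j * γ₂ j l))) := by
    intro a v z
    rw [← qq_sum, pderiv_sum]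
    exact Finset.sum_congr rfl fun j _ => by rw [hγ j]
  -- full points
  have hF : ∀ l : Fin c, (∀ t, ∑ j : Fin b, τ (Sum.inr l) ^ (j : ℕ) * γ₁ j t = 0) ∧
      ∀ m, ∑ j : Fin b, τ (Sum.inr l) ^ (j : ℕ) * γ₂ j m = 0 := by
    intro l
    have h := (hG D k (fun t => ∑ j : Fin b, τ (Sum.inr l) ^ (j : ℕ) * γ₁ j t)
      (fun m => ∑ j : Fin b, τ (Sum.inr l) ^ (j : ℕ) * γ₂ j m)).2.2 (Fin.castLE hcD l)
      (fun v => by
        rw [← hsum]
        exact r4 l v)
    exact ⟨fun t => congrFun h.1 t, fun m => congrFun h.2 m⟩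
  -- points of the linear space
  have hL : ∀ i : Fin b,
      (∀ t, t ∉ S₁ i → ∑ j : Fin b, τ (Sum.inl i) ^ (j : ℕ) * γ₁ j t = 0) ∧
      ∀ m, m ∉ S₂ i → ∑ j : Fin b, τ (Sum.inl i) ^ (j : ℕ) * γ₂ j m = 0 := by
    intro i
    set Γ₁ : Fin (k + 2) → ℂ := fun t => ∑ j : Fin b, τ (Sum.inl i) ^ (j : ℕ) * γ₁ j t with hΓ₁
    set Γ₂ : Fin D → ℂ := fun m => ∑ j : Fin b, τ (Sum.inl i) ^ (j : ℕ) * γ₂ j m with hΓ₂
    have h1 : ∀ t : Fin (k + 2), Γ₁ t * (1 - ∑ j : Fin D, hh t j * x i j) +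
        ∑ j : Fin D, hh t j * (Γ₂ j * x i j) = 0 := by
      intro t
      rw [← (hG D k Γ₁ Γ₂).2.1 (x i) t, hΓ₁, hΓ₂, ← hsum]
      exact r2 i t
    have h2 := hx2 i (fun t => Γ₁ t * (1 - ∑ j : Fin D, hh t j * x i j))
      (fun j => Γ₂ j * x i j) (fun t ht => by
        show Γ₁ t * (1 - ∑ j : Fin D, hh t j * x i j) = 0
        rw [(hx1 i t).2 ht, sub_self, mul_zero])
      (fun j hj => by
        show Γ₂ j * x i j = 0
        rw [(hx0 i j).2 hj, mul_zero]) h1
    refine ⟨fun t ht => ?_, fun m hm => ?_⟩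
    · have h3 : Γ₁ t * (1 - ∑ j : Fin D, hh t j * x i j) = 0 := congrFun h2.1 t
      refine (mul_eq_zero.1 h3).resolve_right fun h4 => ht ((hx1 i t).1 ?_)
      exact (sub_eq_zero.1 h4).symm
    · have h3 : Γ₂ m * x i m = 0 := congrFun h2.2 m
      exact (mul_eq_zero.1 h3).resolve_right fun h4 => hm ((hx0 i m).1 h4)
  -- every vector is orthogonal to many vectors
  have hcount : ∀ r : Fin (D + (k + 2)),
      b ≤ (Finset.univ.filter fun s : Fin b ⊕ Fin c => ∀ i, s = Sum.inl i → r ∉ S i).card := by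
    intro r
    have h1 : (Finset.univ.filter fun s : Fin b ⊕ Fin c => ∀ i, s = Sum.inl i → r ∉ S i) =
        (Finset.univ.filter fun i : Fin b => ¬ r ∈ S i).disjSum (Finset.univ : Finset (Fin c)) := by
      ext s
      rw [Finset.mem_filter]
      rcases s with s | s
      · rw [Finset.inl_mem_disjSum, Finset.mem_filter]
        constructor
        · rintro ⟨-, h⟩
          exact ⟨Finset.mem_univ _, h s rfl⟩
        · rintro ⟨-, h⟩
          refine ⟨Finset.mem_univ _, fun i hi => ?_⟩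
          rw [← Sum.inl_injective hi]
          exact h
      · rw [Finset.inr_mem_disjSum]
        exact ⟨fun _ => Finset.mem_univ _, fun _ => ⟨Finset.mem_univ _, fun i hi =>
          absurd hi (by simp)⟩⟩
    rw [h1, Finset.card_disjSum, Finset.card_univ, Fintype.card_fin]
    have h2 := hS2 r
    have h3 := Finset.card_filter_add_card_filter_not (s := (Finset.univ : Finset (Fin b)))
      (fun i => r ∈ S i)
    rw [Finset.card_univ, Fintype.card_fin] at h3
    omega
  have hz1 : ∀ t, (fun j => γ₁ j t) = 0 := by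
    intro t
    refine vdm τ hτ _ _ (hcount (e (Sum.inr t))) fun s hs => ?_
    have hs' := (Finset.mem_filter.1 hs).2
    rcases s with i | l
    · refine (hL i).1 t fun ht => hs' i rfl (Finset.mem_filter.1 ht).2
    · exact (hF l).1 t
  have hz2 : ∀ m, (fun j => γ₂ j m) = 0 := by
    intro m
    refine vdm τ hτ _ _ (hcount (e (Sum.inl m))) fun s hs => ?_
    have hs' := (Finset.mem_filter.1 hs).2
    rcases s with i | l
    · refine (hL i).2 m fun ht => hs' i rfl (Finset.mem_filter.1 ht).2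
    · exact (hF l).2 m
  intro j
  rw [hγ j]
  unfold qq
  have h1 : ∀ t, γ₁ j t = 0 := fun t => congrFun (hz1 t) j
  have h2 : ∀ m, γ₂ j m = 0 := fun m => congrFun (hz2 m) j
  simp only [h1, h2, map_zero, zero_mul, Finset.sum_const_zero, add_zero]

end Pool.Agent.WarQ


end

section

/-!
# Module LRB: the residual lemma for the linear space, with dimensions   (helper49)
-/

set_option autoImplicit false

open Module MvPolynomial
open Pool.Agent.War Pool.Agent.WarS Pool.Agent.WarQ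

namespace Pool.Agent.WarC

namespace LRBaux

/-- the functional `γ ↦ ∑ t ^ j γ_j` -/
noncomputable def ph (b : ℕ) (t : ℂ) : (Fin b → ℂ) →ₗ[ℂ] ℂ :=
  ∑ j : Fin b, (t ^ (j : ℕ)) • LinearMap.proj j

theorem ph_apply {b : ℕ} (t : ℂ) (γ : Fin b → ℂ) :
    ph b t γ = ∑ j : Fin b, t ^ (j : ℕ) * γ j := by
  simp [ph]

/-- the vectors orthogonal to the Vandermonde vectors with nodes in `T` -/
noncomputable def UU (b : ℕ) (T : Finset ℂ) : Submodule ℂ (Fin b → ℂ) :=
  ⨅ t ∈ T, LinearMap.ker (ph b t)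

theorem mem_UU {b : ℕ} {T : Finset ℂ} {γ : Fin b → ℂ} :
    γ ∈ UU b T ↔ ∀ t ∈ T, ∑ j : Fin b, t ^ (j : ℕ) * γ j = 0 := by
  unfold UU
  simp only [Submodule.mem_iInf, LinearMap.mem_ker, ph_apply]

theorem finrank_UU (b : ℕ) (T : Finset ℂ) : finrank ℂ (UU b T) ≤ b - T.card := by
  classical
  obtain ⟨T', hT', hc⟩ := Infinite.exists_superset_card_eq T (max b T.card) (le_max_right _ _)
  let E : Finset ℂ := T' \ T
  have hE : E.card ≤ b - T.card := by
    rw [Finset.card_sdiff_of_subset hT', hc]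
    omega
  let L : UU b T →ₗ[ℂ] (E → ℂ) :=
    LinearMap.pi fun t => (ph b (t : ℂ)).comp (UU b T).subtype
  have hL : Function.Injective L := by
    rw [← LinearMap.ker_eq_bot, LinearMap.ker_eq_bot']
    intro γ hγ
    apply Subtype.ext
    refine LRaux.vdm (I := ℂ) id Function.injective_id (γ : Fin b → ℂ) T'
      (by rw [hc]; exact le_max_left _ _) fun t ht => ?_
    by_cases h : t ∈ T
    · exact mem_UU.1 γ.2 t h
    · have h1 := congrFun hγ ⟨t, Finset.mem_sdiff.2 ⟨ht, h⟩⟩
      have h2 : ph b t (γ : Fin b → ℂ) = 0 := h1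
      rwa [ph_apply] at h2
  have h1 := LinearMap.finrank_le_finrank_of_injective hL
  rw [Module.finrank_fintype_fun_eq_card, Fintype.card_coe] at h1
  exact h1.trans hE

/-- the combinations of the base quadrics -/
noncomputable def Ps (D k b : ℕ) : ((Fin D ⊕ Fin k) → Fin b → ℂ) →ₗ[ℂ]
    (Fin b → MvPolynomial (Fin D ⊕ Fin k) ℂ) where
  toFun := fun Γ j => qq (fun t => Γ (Sum.inr t) j) (fun l => Γ (Sum.inl l) j)
  map_add' := fun Γ Δ => by
    funext j
    simp only [qq, Pi.add_apply, C_add, add_mul, Finset.sum_add_distrib]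
    ring
  map_smul' := fun r Γ => by
    funext j
    simp only [qq, Pi.smul_apply, smul_eq_mul, C_mul, smul_add, smul_eq_C_mul,
      RingHom.id_apply]
    congr 1
    · rw [Finset.mul_sum]
      exact Finset.sum_congr rfl fun _ _ => by ring
    · rw [Finset.mul_sum]
      exact Finset.sum_congr rfl fun _ _ => by ring

end LRBaux

open _root_.Pool.Agent.WarC.LRBaux LRaux LSaux in
theorem x_LRB (hN : WarQ.S_NOD) (hQ : WarQ.S_LQ) (hG : WarQ.S_LG) (hC : S_CY) : S_LRB := by
  classical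
  intro D k b c _ hcD
  obtain ⟨S, hS1, hS2⟩ := hC (D + (k + 2)) b D (Nat.le_add_right _ _)
  let e : Fin D ⊕ Fin (k + 2) ≃ Fin (D + (k + 2)) := finSumFinEquiv
  let S₁ : Fin b → Finset (Fin (k + 2)) := fun i => Finset.univ.filter fun t => e (Sum.inr t) ∈ S i
  let S₂ : Fin b → Finset (Fin D) := fun i => Finset.univ.filter fun t => e (Sum.inl t) ∈ S i
  have hcard : ∀ i, (S₁ i).card + (S₂ i).card = D := by
    intro i
    have h0 : ((S i).map e.symm.toEmbedding).card = D := by rw [Finset.card_map, hS1 i]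
    have h1 : (S i).map e.symm.toEmbedding = (S₂ i).disjSum (S₁ i) := by
      ext q
      rw [Finset.mem_map_equiv, Equiv.symm_symm]
      rcases q with q | q
      · rw [Finset.inl_mem_disjSum, Finset.mem_filter]
        exact ⟨fun h => ⟨Finset.mem_univ _, h⟩, fun h => h.2⟩
      · rw [Finset.inr_mem_disjSum, Finset.mem_filter]
        exact ⟨fun h => ⟨Finset.mem_univ _, h⟩, fun h => h.2⟩
    rw [h1, Finset.card_disjSum] at h0
    omega
  choose x hx0 hx1 hx2 using fun i => hN D (k + 2) (S₁ i) (S₂ i) (hcard i)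
  let τ : Fin b ⊕ Fin c → ℂ := fun s => (((finSumFinEquiv s : Fin (b + c)) : ℕ) : ℂ)
  have hτ : Function.Injective τ := by
    intro s t hst
    exact finSumFinEquiv.injective (Fin.ext (Nat.cast_injective hst))
  let W : Fin c → (Fin D × Fin (k + 1)) ⊕ Sym2 (Fin (k + 2)) :=
    fun l => Sum.inl (Fin.castLE hcD l, 0)
  have hW : Function.Injective W := by
    intro l l' h
    have h1 := congrArg Prod.fst (Sum.inl_injective h)
    exact Fin.castLE_injective hcD h1
  let R : Finset ((Fin D × Fin (k + 1)) ⊕ Sym2 (Fin (k + 2))) := (Finset.univ.image W)ᶜ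
  have hR : R.card = eo D k - c := by
    rw [Finset.card_compl, Finset.card_image_of_injective _ hW, Finset.card_univ,
      Fintype.card_fin, Fintype.card_sum, Fintype.card_prod, Fintype.card_fin, Fintype.card_fin,
      Sym2.card, Fintype.card_fin]
    rfl
  let E := R.equivFinOfCardEq hR
  -- the allowed nodes of an index
  let Al : Fin (D + (k + 2)) → Finset (Fin b ⊕ Fin c) := fun r =>
    Finset.univ.filter fun s : Fin b ⊕ Fin c => ∀ i, s = Sum.inl i → r ∉ S i
  have hAl : ∀ r, b - (Al r).card = (Finset.univ.filter fun i : Fin b => r ∈ S i).card - c := by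
    intro r
    have h1 : Al r =
        (Finset.univ.filter fun i : Fin b => ¬ r ∈ S i).disjSum (Finset.univ : Finset (Fin c)) := by
      ext s
      rw [Finset.mem_filter]
      rcases s with s | s
      · rw [Finset.inl_mem_disjSum, Finset.mem_filter]
        constructor
        · rintro ⟨-, h⟩
          exact ⟨Finset.mem_univ _, h s rfl⟩
        · rintro ⟨-, h⟩
          refine ⟨Finset.mem_univ _, fun i hi => ?_⟩
          rw [← Sum.inl_injective hi]
          exact h
      · rw [Finset.inr_mem_disjSum]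
        exact ⟨fun _ => Finset.mem_univ _, fun _ => ⟨Finset.mem_univ _, fun i hi =>
          absurd hi (by simp)⟩⟩
    rw [h1, Finset.card_disjSum, Finset.card_univ, Fintype.card_fin]
    have h3 := Finset.card_filter_add_card_filter_not (s := (Finset.univ : Finset (Fin b)))
      (fun i => r ∈ S i)
    rw [Finset.card_univ, Fintype.card_fin] at h3
    omega
  let U : Submodule ℂ ((Fin D ⊕ Fin (k + 2)) → Fin b → ℂ) :=
    Submodule.pi Set.univ fun r => UU b ((Al (e r)).image τ)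
  have hU : finrank ℂ U ≤ b * D - (D + (k + 2)) * c := by
    refine (finrank_pi_leC1 _).trans ?_
    have h1 : ∀ r : Fin D ⊕ Fin (k + 2), finrank ℂ (UU b ((Al (e r)).image τ)) ≤
        (Finset.univ.filter fun i : Fin b => e r ∈ S i).card - c := by
      intro r
      refine (finrank_UU b _).trans ?_
      rw [Finset.card_image_of_injective _ hτ, hAl]
    refine (Finset.sum_le_sum fun r _ => h1 r).trans ?_
    rw [Equiv.sum_comp e fun r => (Finset.univ.filter fun i : Fin b => r ∈ S i).card - c]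
    exact hS2 c
  let q : QQ D (k + 2) b c (eo D k - c) := (x, fun s j => τ s ^ (j : ℕ), fun l => bp (W l),
    fun t => bp ((E.symm t : R) : (Fin D × Fin (k + 1)) ⊕ Sym2 (Fin (k + 2))))
  refine ⟨q, ?_⟩
  -- every tuple in the space is a combination
  have key : ∀ g ∈ ZZ q, ∃ Γ ∈ U, Ps D (k + 2) b Γ = fun j =>
      (g j : MvPolynomial (Fin D ⊕ Fin (k + 2)) ℂ) := by
    intro g hgZ
    obtain ⟨r1, r2, r3, r4, r5⟩ := (mem_ZZ q g).1 hgZ
    have hg : ∀ j, ((g j : MvPolynomial (Fin D ⊕ Fin (k + 2)) ℂ)).totalDegree ≤ 2 :=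
      fun j => (mem_WW.1 (g j).2).1
    have hall : ∀ q' j, eval (bp q') (g j : MvPolynomial (Fin D ⊕ Fin (k + 2)) ℂ) = 0 := by
      intro q' j
      by_cases hq : q' ∈ R
      · have h1 : eval (bp ((E.symm (E ⟨q', hq⟩) : R) :
            (Fin D × Fin (k + 1)) ⊕ Sym2 (Fin (k + 2))))
              (g j : MvPolynomial (Fin D ⊕ Fin (k + 2)) ℂ) = 0 := r5 (E ⟨q', hq⟩) j
        rwa [Equiv.symm_apply_apply] at h1
      · rw [Finset.mem_compl, not_not, Finset.mem_image] at hq
        obtain ⟨l, -, rfl⟩ := hq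
        exact r3 l j
    have hqq : ∀ j, ∃ γ₁ γ₂, (g j : MvPolynomial (Fin D ⊕ Fin (k + 2)) ℂ) = qq γ₁ γ₂ := by
      intro j
      refine hQ D k _ (hg j) (r1 j) (fun i l => ?_) fun j' i => ?_
      · rw [← bp_pa]
        exact hall _ j
      · exact hall (Sum.inl (j', i)) j
    choose γ₁ γ₂ hγ using hqq
    have hsum : ∀ (a : Fin b → ℂ) (v : Fin D ⊕ Fin (k + 2)) (z : Fin D ⊕ Fin (k + 2) → ℂ),
        ∑ j, a j * eval z (pderiv v (g j : MvPolynomial (Fin D ⊕ Fin (k + 2)) ℂ)) =
          eval z (pderiv v (qq (fun t => ∑ j, a j * γ₁ j t) (fun l => ∑ j, a j * γ₂ j l))) := by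
      intro a v z
      rw [← qq_sum, pderiv_sum]
      exact Finset.sum_congr rfl fun j _ => by rw [hγ j]
    -- full points
    have hF : ∀ l : Fin c, (∀ t, ∑ j : Fin b, τ (Sum.inr l) ^ (j : ℕ) * γ₁ j t = 0) ∧
        ∀ m, ∑ j : Fin b, τ (Sum.inr l) ^ (j : ℕ) * γ₂ j m = 0 := by
      intro l
      have h := (hG D k (fun t => ∑ j : Fin b, τ (Sum.inr l) ^ (j : ℕ) * γ₁ j t)
        (fun m => ∑ j : Fin b, τ (Sum.inr l) ^ (j : ℕ) * γ₂ j m)).2.2 (Fin.castLE hcD l)
        (fun v => by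
          rw [← hsum]
          exact r4 l v)
      exact ⟨fun t => congrFun h.1 t, fun m => congrFun h.2 m⟩
    -- points of the linear space
    have hL : ∀ i : Fin b,
        (∀ t, t ∉ S₁ i → ∑ j : Fin b, τ (Sum.inl i) ^ (j : ℕ) * γ₁ j t = 0) ∧
        ∀ m, m ∉ S₂ i → ∑ j : Fin b, τ (Sum.inl i) ^ (j : ℕ) * γ₂ j m = 0 := by
      intro i
      set Γ₁ : Fin (k + 2) → ℂ := fun t => ∑ j : Fin b, τ (Sum.inl i) ^ (j : ℕ) * γ₁ j t with hΓ₁
      set Γ₂ : Fin D → ℂ := fun m => ∑ j : Fin b, τ (Sum.inl i) ^ (j : ℕ) * γ₂ j m with hΓ₂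
      have h1 : ∀ t : Fin (k + 2), Γ₁ t * (1 - ∑ j : Fin D, hh t j * x i j) +
          ∑ j : Fin D, hh t j * (Γ₂ j * x i j) = 0 := by
        intro t
        rw [← (hG D k Γ₁ Γ₂).2.1 (x i) t, hΓ₁, hΓ₂, ← hsum]
        exact r2 i t
      have h2 := hx2 i (fun t => Γ₁ t * (1 - ∑ j : Fin D, hh t j * x i j))
        (fun j => Γ₂ j * x i j) (fun t ht => by
          show Γ₁ t * (1 - ∑ j : Fin D, hh t j * x i j) = 0
          rw [(hx1 i t).2 ht, sub_self, mul_zero])
        (fun j hj => by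
          show Γ₂ j * x i j = 0
          rw [(hx0 i j).2 hj, mul_zero]) h1
      refine ⟨fun t ht => ?_, fun m hm => ?_⟩
      · have h3 : Γ₁ t * (1 - ∑ j : Fin D, hh t j * x i j) = 0 := congrFun h2.1 t
        refine (mul_eq_zero.1 h3).resolve_right fun h4 => ht ((hx1 i t).1 ?_)
        exact (sub_eq_zero.1 h4).symm
      · have h3 : Γ₂ m * x i m = 0 := congrFun h2.2 m
        exact (mul_eq_zero.1 h3).resolve_right fun h4 => hm ((hx0 i m).1 h4)
    refine ⟨fun r j => Sum.elim (γ₂ j) (γ₁ j) r, ?_, ?_⟩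
    · intro r _
      refine mem_UU.2 fun t ht => ?_
      obtain ⟨s, hs, rfl⟩ := Finset.mem_image.1 ht
      have hs' := (Finset.mem_filter.1 hs).2
      rcases r with m | t
      · show ∑ j : Fin b, τ s ^ (j : ℕ) * γ₂ j m = 0
        rcases s with i | l
        · refine (hL i).2 m fun ht => hs' i rfl (Finset.mem_filter.1 ht).2
        · exact (hF l).2 m
      · show ∑ j : Fin b, τ s ^ (j : ℕ) * γ₁ j t = 0
        rcases s with i | l
        · refine (hL i).1 t fun ht => hs' i rfl (Finset.mem_filter.1 ht).2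
        · exact (hF l).1 t
    · funext j
      rw [hγ j]
      rfl
  let ι : (Fin b → WW D (k + 2)) →ₗ[ℂ] (Fin b → MvPolynomial (Fin D ⊕ Fin (k + 2)) ℂ) :=
    LinearMap.pi fun j => (WW D (k + 2)).subtype.comp (LinearMap.proj j)
  have hι : Function.Injective ι := by
    intro g g' h
    funext j
    exact Subtype.ext (congrFun h j)
  have h1 : (ZZ q).map ι ≤ U.map (Ps D (k + 2) b) := by
    rintro _ ⟨g, hg, rfl⟩
    obtain ⟨Γ, hΓ, h⟩ := key g hg
    exact ⟨Γ, hΓ, h⟩
  calc finrank ℂ (ZZ q) = finrank ℂ ((ZZ q).map ι) :=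
        LinearEquiv.finrank_eq (Submodule.equivMapOfInjective ι hι (ZZ q))
    _ ≤ finrank ℂ (U.map (Ps D (k + 2) b)) := Submodule.finrank_mono h1
    _ ≤ finrank ℂ U := Submodule.finrank_map_le _ _
    _ ≤ _ := hU

end Pool.Agent.WarC


end

section

/-!
# Simultaneous Waring decompositions (MP_db021c_ag): trace on the linear space   (helper69)
-/

set_option autoImplicit false

open Module MvPolynomial
open Pool.Agent.War Pool.Agent.WarS

namespace Pool.Agent.WarQ

namespace LTaux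

/-- value and gradient at `0` -/
noncomputable def jet (n d : ℕ) : Pol n d →ₗ[ℂ] ℂ × (Fin n → ℂ) :=
  LinearMap.prod (ev n d 0) (LinearMap.pi fun k => dv n d k 0)

theorem jet_surj (n d : ℕ) (hd : 1 ≤ d) : Function.Surjective (jet n d) := by
  classical
  rintro ⟨c, v⟩
  have hdeg : (C c + ∑ k : Fin n, C (v k) * X k : MvPolynomial (Fin n) ℂ).totalDegree ≤ d := by
    refine (totalDegree_add _ _).trans (max_le (by rw [totalDegree_C]; omega) ?_)
    refine (totalDegree_finsetSum_le fun k _ => ?_)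
    refine (totalDegree_mul _ _).trans ?_
    rw [totalDegree_C, totalDegree_X]
    omega
  refine ⟨⟨_, mem_Pol.2 hdeg⟩, ?_⟩
  unfold jet
  ext k
  · simp [ev_apply]
  · change dv n d k 0 _ = v k
    rw [dv_apply]
    have h1 : ∀ i : Fin n, pderiv k (C (v i) * X i : MvPolynomial (Fin n) ℂ) =
        C (v i) * (if i = k then 1 else 0) := by
      intro i
      rw [pderiv_C_mul, pderiv_X]
      simp [Pi.single_apply, eq_comm]
    have h2 : ∀ i : Fin n, eval (0 : Fin n → ℂ) (C (v i) * (if i = k then 1 else 0) :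
        MvPolynomial (Fin n) ℂ) = if i = k then v i else 0 := by
      intro i
      split_ifs <;> simp
    simp only [map_add, map_sum, h1, h2, pderiv_C, zero_add]
    rw [Finset.sum_ite_eq' Finset.univ k v, if_pos (Finset.mem_univ k)]

theorem GG_one_point (n d : ℕ) (hd : 1 ≤ d) : GG n d 1 := by
  refine ⟨fun _ => 0, ?_⟩
  have h1 := LinearMap.finrank_range_add_finrank_ker (jet n d)
  have h2 : finrank ℂ (LinearMap.range (jet n d)) = n + 1 := by
    rw [LinearMap.range_eq_top.2 (jet_surj n d hd), finrank_top, Module.finrank_prod,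
      Module.finrank_self, Module.finrank_fintype_fun_eq_card, Fintype.card_fin, add_comm]
  have h3 : Dbl n d Finset.univ (fun _ : Fin 1 => (0 : Fin n → ℂ)) =
      LinearMap.ker (jet n d) := by
    ext f
    rw [mem_Dbl, LinearMap.mem_ker]
    constructor
    · rintro ⟨k1, k2⟩
      refine Prod.ext ?_ ?_
      · exact (ev_apply _ _).trans (k1 0)
      · funext k
        exact (dv_apply _ _ _).trans (k2 0 (Finset.mem_univ _) k)
    · intro h
      refine ⟨fun _ => ?_, fun _ _ k => ?_⟩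
      · exact (ev_apply _ _).symm.trans (congrArg Prod.fst h)
      · exact (dv_apply _ _ _).symm.trans (congrFun (congrArg Prod.snd h) k)
  rw [h3]
  have h4 := finrank_Pol_le n d
  omega

/-- the parameters in the form used by `TrC1` -/
def LL (D b e : ℕ) : ((Fin b → Fin D → ℂ) × (Fin b → Fin b → ℂ) × (Fin e → Fin D → ℂ)) →ₗ[ℂ]
    ((Fin b ⊕ Fin e → Fin D → ℂ) × (Fin b → Fin b → ℂ)) where
  toFun q := (Sum.elim q.1 q.2.2, q.2.1)
  map_add' p q := by
    refine Prod.ext ?_ rfl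
    funext i
    cases i <;> rfl
  map_smul' c q := by
    refine Prod.ext ?_ rfl
    funext i
    cases i <;> rfl

theorem LL_surj (D b e : ℕ) : Function.Surjective (LL D b e) := by
  rintro ⟨z, a⟩
  refine ⟨(fun i => z (Sum.inl i), a, fun i => z (Sum.inr i)), ?_⟩
  refine Prod.ext ?_ rfl
  funext i
  cases i <;> rfl

theorem trace (hSG : S_SG) (D b e : ℕ) (hD : 1 ≤ D) (he : NN D 3 ≤ D + (b + e)) :
    Gen ℂ fun x : (Fin b ⊕ Fin e → Fin D → ℂ) × (Fin b → Fin b → ℂ) => TrC1 D 3 x = ⊥ := by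
  classical
  obtain ⟨z0, hz0⟩ := (Gen.forall fun j : Fin b =>
    hSG D 3 (Fin b ⊕ Fin e) {Sum.inl j} hD (by
      rw [Finset.card_singleton]
      exact GG_one_point D 3 (by norm_num))).exists
  have hbot : ∀ j, Dbl D 3 {Sum.inl j} z0 = ⊥ := fun j =>
    Dbl_eq_botC1 (hz0 j) (by
      rw [Finset.card_singleton, Fintype.card_sum, Fintype.card_fin, Fintype.card_fin]
      omega)
  refine (PK_TrC1 D 3).gen_bot
    (x₀ := (z0, fun q => (Pi.single q 1 : Fin b → ℂ))) ?_
  rw [eq_bot_iff]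
  intro f hf
  obtain ⟨k1, k2⟩ := mem_TrC1.1 hf
  rw [Submodule.mem_bot]
  funext j
  have : f j ∈ Dbl D 3 {Sum.inl j} z0 := by
    refine mem_Dbl.2 ⟨fun i => k1 i j, fun i hi k => ?_⟩
    rw [Finset.mem_singleton] at hi
    subst hi
    have := k2 j k
    change eval (z0 (Sum.inl j)) (pderiv k (f j : MvPolynomial (Fin D) ℂ)) = 0
    simpa [Pi.single_apply] using this
  rw [hbot, Submodule.mem_bot] at this
  rw [this]
  rfl

end LTaux

open _root_.Pool.Agent.WarQ.LTaux in
theorem x_LT (hSG : S_SG) : S_LT := by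
  intro D b hD hbD
  refine ((trace hSG D b (NN D 3 - D - b) hD (by omega)).comp (LL D b (NN D 3 - D - b))
    (LL_surj _ _ _)).mono ?_
  intro q hq f hf h1 h2 h3 j
  have hmem : (fun j => (⟨f j, mem_Pol.2 (hf j)⟩ : Pol D 3)) ∈
      TrC1 D 3 (LL D b (NN D 3 - D - b) q) := by
    refine mem_TrC1.2 ⟨?_, fun i k => h2 i k⟩
    rintro (i | i) j
    · exact h1 i j
    · exact h3 i j
  rw [hq, Submodule.mem_bot] at hmem
  exact congrArg Subtype.val (congrFun hmem j)

end Pool.Agent.WarQ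


end

section

/-!
# Simultaneous Waring decompositions (MP_db021c_ag), cubics: trace on the linear space, degree 2
(helper26, after `WarQ/LT.lean`)
-/

set_option autoImplicit false

open Module MvPolynomial
open Pool.Agent.War Pool.Agent.WarS Pool.Agent.WarQ

namespace Pool.Agent.WarC

namespace LT2aux

theorem trace (hSG : S_SG) (D b e : ℕ) (hD : 1 ≤ D) (he : NN D 2 ≤ D + (b + e)) :
    Gen ℂ fun x : (Fin b ⊕ Fin e → Fin D → ℂ) × (Fin b → Fin b → ℂ) => TrC1 D 2 x = ⊥ := by
  classical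
  obtain ⟨z0, hz0⟩ := (Gen.forall fun j : Fin b =>
    hSG D 2 (Fin b ⊕ Fin e) {Sum.inl j} hD (by
      rw [Finset.card_singleton]
      exact LTaux.GG_one_point D 2 (by norm_num))).exists
  have hbot : ∀ j, Dbl D 2 {Sum.inl j} z0 = ⊥ := fun j =>
    Dbl_eq_botC1 (hz0 j) (by
      rw [Finset.card_singleton, Fintype.card_sum, Fintype.card_fin, Fintype.card_fin]
      omega)
  refine (PK_TrC1 D 2).gen_bot
    (x₀ := (z0, fun q => (Pi.single q 1 : Fin b → ℂ))) ?_
  rw [eq_bot_iff]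
  intro f hf
  obtain ⟨k1, k2⟩ := mem_TrC1.1 hf
  rw [Submodule.mem_bot]
  funext j
  have : f j ∈ Dbl D 2 {Sum.inl j} z0 := by
    refine mem_Dbl.2 ⟨fun i => k1 i j, fun i hi k => ?_⟩
    rw [Finset.mem_singleton] at hi
    subst hi
    have := k2 j k
    change eval (z0 (Sum.inl j)) (pderiv k (f j : MvPolynomial (Fin D) ℂ)) = 0
    simpa [Pi.single_apply] using this
  rw [hbot, Submodule.mem_bot] at this
  rw [this]
  rfl

end LT2aux

open LTaux in
theorem x_LT2 : S_LT2 := by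
  intro D b hD hbD
  refine ((LT2aux.trace SG D b (NN D 2 - D - b) hD (by omega)).comp (LL D b (NN D 2 - D - b))
    (LL_surj _ _ _)).mono ?_
  intro q hq f hf h1 h2 h3 j
  have hmem : (fun j => (⟨f j, mem_Pol.2 (hf j)⟩ : Pol D 2)) ∈
      TrC1 D 2 (LL D b (NN D 2 - D - b) q) := by
    refine mem_TrC1.2 ⟨?_, fun i k => h2 i k⟩
    rintro (i | i) j
    · exact h1 i j
    · exact h3 i j
  rw [hq, Submodule.mem_bot] at hmem
  exact congrArg Subtype.val (congrFun hmem j)

end Pool.Agent.WarC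


end

section

/-!
# Simultaneous Waring decompositions (MP_db021c_ag), small q: easy facts on the cubics `uu`
-/

set_option autoImplicit false

open Module MvPolynomial
open Pool.Agent.War Pool.Agent.WarS

namespace Pool.Agent.WarQ

namespace D0aux

lemma bar_zero (n : ℕ) : bar n 0 = 1 - ∑ i, X i := by
  simp [bar]

lemma bar_succ (n : ℕ) (i : Fin n) : bar n i.succ = X i := by
  simp [bar]

lemma deg_bar (n : ℕ) (l : Fin (n + 1)) : (bar n l).totalDegree ≤ 1 := by
  refine Fin.cases ?_ (fun i => ?_) l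
  · rw [bar_zero]
    refine (totalDegree_sub _ _).trans (max_le (by simp) ?_)
    refine (totalDegree_finsetSum _ _).trans ?_
    exact Finset.sup_le fun i _ => by rw [totalDegree_X]
  · rw [bar_succ, totalDegree_X]

lemma deg_uu (n : ℕ) (l : Fin (n + 1)) : (uu n l).totalDegree ≤ 3 := by
  unfold uu
  refine (totalDegree_mul _ _).trans ?_
  have h1 := deg_bar n l
  have h2 : (∑ j : Fin (n + 1), C ((l.val : ℂ) - (j.val : ℂ)) * bar n j ^ 2).totalDegree ≤ 2 := by
    refine (totalDegree_finsetSum _ _).trans (Finset.sup_le fun j _ => ?_)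
    refine (totalDegree_mul _ _).trans ?_
    rw [totalDegree_C]
    have h3 := totalDegree_pow (bar n j) 2
    have h4 := deg_bar n j
    omega
  omega

lemma eval_bar_zero (n : ℕ) (y : Fin n → ℂ) : eval y (bar n 0) = 1 - ∑ i, y i := by
  rw [bar_zero]
  simp

lemma eval_bar_succ (n : ℕ) (y : Fin n → ℂ) (i : Fin n) : eval y (bar n i.succ) = y i := by
  rw [bar_succ]
  simp

lemma eval_bar_ww (n : ℕ) (l m : Fin (n + 1)) :
    eval (ww n m) (bar n l) = if l = m then 1 else 0 := by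
  refine Fin.cases ?_ (fun i => ?_) l
  · rw [eval_bar_zero]
    refine Fin.cases ?_ (fun j => ?_) m
    · simp [ww, Fin.succ_ne_zero]
    · have h : (0 : Fin (n + 1)) ≠ j.succ := (Fin.succ_ne_zero j).symm
      simp [ww, h]
  · rw [eval_bar_succ]
    rfl

/-- derivatives of the barycentric coordinates -/
lemma pderiv_bar_zero (n : ℕ) (k : Fin n) : pderiv k (bar n 0) = -1 := by
  rw [bar_zero, map_sub, map_sum]
  have h : ∀ i : Fin n, pderiv k (X i : MvPolynomial (Fin n) ℂ) = if i = k then 1 else 0 := by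
    intro i
    by_cases hi : i = k
    · subst hi; simp
    · simp [pderiv_X_of_ne hi, hi]
  simp only [h, Finset.sum_ite_eq', Finset.mem_univ, if_true]
  simp

lemma pderiv_bar_succ (n : ℕ) (k i : Fin n) :
    pderiv k (bar n i.succ) = if i = k then 1 else 0 := by
  rw [bar_succ]
  by_cases hi : i = k
  · subst hi; simp
  · simp [pderiv_X_of_ne hi, hi]

lemma eval_sum_ww (n : ℕ) (l m : Fin (n + 1)) :
    eval (ww n m) (∑ j : Fin (n + 1), C ((l.val : ℂ) - (j.val : ℂ)) * bar n j ^ 2) =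
      (l.val : ℂ) - (m.val : ℂ) := by
  rw [map_sum]
  simp only [map_mul, map_pow, eval_C, eval_bar_ww]
  simp

lemma eval_uu_ww (n : ℕ) (l m : Fin (n + 1)) : eval (ww n m) (uu n l) = 0 := by
  unfold uu
  rw [map_mul, eval_sum_ww, eval_bar_ww]
  split_ifs with h
  · rw [h]; ring
  · ring

lemma eval_grad (n : ℕ) (l m : Fin (n + 1)) (k : Fin n) :
    eval (ww n m) (pderiv k (uu n l)) =
      ((l.val : ℂ) - (m.val : ℂ)) * eval (ww n m) (pderiv k (bar n l)) := by
  unfold uu
  rw [Derivation.leibniz, smul_eq_mul, smul_eq_mul, map_add, map_mul, map_mul, eval_sum_ww,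
    eval_bar_ww]
  have h : eval (ww n m) (pderiv k (∑ j : Fin (n + 1),
      C ((l.val : ℂ) - (j.val : ℂ)) * bar n j ^ 2)) =
      ((l.val : ℂ) - (m.val : ℂ)) * (2 * eval (ww n m) (pderiv k (bar n m))) := by
    rw [map_sum, map_sum]
    have h1 : ∀ j : Fin (n + 1), eval (ww n m) (pderiv k (C ((l.val : ℂ) - (j.val : ℂ)) *
        bar n j ^ 2)) = if j = m then
          ((l.val : ℂ) - (m.val : ℂ)) * (2 * eval (ww n m) (pderiv k (bar n m))) else 0 := by
      intro j
      rw [Derivation.leibniz, pderiv_C, smul_zero, add_zero, smul_eq_mul, Derivation.leibniz_pow,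
        map_mul, eval_C]
      simp only [Nat.add_one_sub_one, pow_one, smul_eq_mul, map_mul, nsmul_eq_mul,
        eval_bar_ww]
      split_ifs with hj
      · subst hj
        push_cast
        rw [map_ofNat]
        ring
      · simp
    simp only [h1, Finset.sum_ite_eq', Finset.mem_univ, if_true]
  rw [h]
  split_ifs with hl
  · rw [hl]; ring
  · ring

lemma indep (n : ℕ) (m : Fin (n + 1)) (γ : Fin (n + 1) → ℂ)
    (h : ∀ k : Fin n, ∑ l, γ l * eval (ww n m) (pderiv k (uu n l)) = 0) (l : Fin (n + 1))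
    (hl : l ≠ m) : γ l = 0 := by
  set δ : Fin (n + 1) → ℂ := fun l => γ l * ((l.val : ℂ) - (m.val : ℂ)) with hδ
  have h1 : ∀ k : Fin n, δ k.succ = δ 0 := by
    intro k
    have h2 := h k
    rw [Fin.sum_univ_succ] at h2
    simp only [eval_grad, pderiv_bar_zero, pderiv_bar_succ] at h2
    have h3 : ∀ i : Fin n, γ i.succ * (((i.succ.val : ℂ) - (m.val : ℂ)) *
        eval (ww n m) (if i = k then 1 else 0 : MvPolynomial (Fin n) ℂ)) =
        if i = k then δ k.succ else 0 := by
      intro i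
      split_ifs with hi
      · subst hi
        simp [hδ]
      · simp
    simp only [h3, Finset.sum_ite_eq', Finset.mem_univ, if_true, map_neg, map_one] at h2
    have h4 : γ 0 * ((((0 : Fin (n + 1)).val : ℂ) - (m.val : ℂ)) * -1) = -δ 0 := by
      simp only [hδ]
      ring
    rw [h4] at h2
    linear_combination h2
  have h2 : ∀ l, δ l = δ 0 := fun l => Fin.cases rfl h1 l
  have h3 : δ m = 0 := by simp [hδ]
  have h4 : δ l = 0 := by rw [h2 l, ← h2 m, h3]
  have h5 : (l.val : ℂ) - (m.val : ℂ) ≠ 0 := by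
    rw [sub_ne_zero]
    intro h6
    exact hl (Fin.ext (by exact_mod_cast h6))
  simp only [hδ] at h4
  exact (mul_eq_zero.1 h4).resolve_right h5

lemma nonzero (n : ℕ) (hn : 1 ≤ n) : ∃ y : Fin n → ℂ, eval y (uu n 0) ≠ 0 := by
  obtain ⟨n, rfl⟩ := Nat.exists_eq_add_of_le' hn
  refine ⟨fun i => if i = 0 then 1 / 2 else 0, ?_⟩
  unfold uu
  rw [map_mul, eval_bar_zero, map_sum, Fin.sum_univ_succ, Fin.sum_univ_succ]
  simp only [map_mul, map_pow, eval_C, eval_bar_zero, eval_bar_succ]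
  have h : ∀ j : Fin n, (if j.succ = 0 then (1 / 2 : ℂ) else 0) = 0 := by
    intro j
    rw [if_neg (Fin.succ_ne_zero j)]
  simp only [h, Finset.sum_ite_eq', Finset.mem_univ, if_true]
  norm_num

end D0aux

open _root_.Pool.Agent.WarQ.D0aux in
theorem x_D0 : S_D0 := by
  intro n
  exact ⟨deg_uu n, deg_bar n, eval_bar_ww n, fun m l => eval_uu_ww n l m,
    fun m γ h l hl => indep n m γ h l hl, nonzero n⟩

end Pool.Agent.WarQ


end

section

/-!
# Points and independence in the group model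
-/

set_option autoImplicit false

open Module MvPolynomial
open Pool.Agent.War Pool.Agent.WarS

namespace Pool.Agent.WarQ

namespace GIaux

variable {n K : ℕ} {sz : Fin K → ℕ}

/-- the point with given components -/
def pt (e : ((g : Fin K) × Fin (sz g)) ≃ Fin n) (y : ∀ g, Fin (sz g) → ℂ) : Fin n → ℂ :=
  fun v => y (e.symm v).1 (e.symm v).2

theorem pt_apply (e : ((g : Fin K) × Fin (sz g)) ≃ Fin n) (y : ∀ g, Fin (sz g) → ℂ) (g : Fin K)
    (i : Fin (sz g)) : pt e y (e ⟨g, i⟩) = y g i :=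
  congrArg (fun v : (g : Fin K) × Fin (sz g) => y v.1 v.2) (e.symm_apply_apply ⟨g, i⟩)

theorem pt_comp (e : ((g : Fin K) × Fin (sz g)) ≃ Fin n) (y : ∀ g, Fin (sz g) → ℂ) (g : Fin K) :
    (fun i => pt e y (e ⟨g, i⟩)) = y g := by
  funext i
  exact pt_apply e y g i

theorem eval_pt (e : ((g : Fin K) × Fin (sz g)) ≃ Fin n) (y : ∀ g, Fin (sz g) → ℂ) (g : Fin K)
    (f : MvPolynomial (Fin (sz g)) ℂ) :
    eval (pt e y) (rename (fun i => e ⟨g, i⟩) f) = eval (y g) f := by
  rw [eval_rename]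
  have : (pt e y ∘ fun i => e ⟨g, i⟩) = y g := pt_comp e y g
  rw [this]

theorem zz_eq {m : ℕ} (e : ((g : Fin K) × Fin (sz g)) ≃ Fin n)
    (κ : ∀ g, Fin m → Fin (sz g + 1)) (i : Fin m) :
    zz e κ i = pt e (fun g => ww (sz g) (κ g i)) := rfl

theorem inj (e : ((g : Fin K) × Fin (sz g)) ≃ Fin n) (g : Fin K) :
    Function.Injective (fun i => e ⟨g, i⟩ : Fin (sz g) → Fin n) := by
  intro i i' h
  have h1 : (⟨g, i⟩ : (g : Fin K) × Fin (sz g)) = ⟨g, i'⟩ := e.injective h
  exact eq_of_heq (Sigma.mk.inj h1).2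

theorem pd_self (e : ((g : Fin K) × Fin (sz g)) ≃ Fin n) (g : Fin K) (w : Fin (sz g + 1))
    (k : Fin (sz g)) (y : ∀ g, Fin (sz g) → ℂ) :
    eval (pt e y) (pderiv (e ⟨g, k⟩) (ug e g w)) = eval (y g) (pderiv k (uu (sz g) w)) := by
  unfold ug
  have h := pderiv_rename (R := ℂ) (inj e g) k (uu (sz g) w)
  rw [h, eval_pt]

theorem pd_ne (e : ((g : Fin K) × Fin (sz g)) ≃ Fin n) {g g' : Fin K} (h : g' ≠ g)
    (w : Fin (sz g' + 1)) (k : Fin (sz g)) : pderiv (e ⟨g, k⟩) (ug e g' w) = 0 := by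
  classical
  apply pderiv_eq_zero_of_notMem_vars
  intro hm
  have h1 := vars_rename (fun i => e ⟨g', i⟩) (uu (sz g') w) hm
  obtain ⟨i, _, hi⟩ := Finset.mem_image.1 h1
  have h2 : (⟨g', i⟩ : (g : Fin K) × Fin (sz g)) = ⟨g, k⟩ := e.injective hi
  exact h (Sigma.mk.inj h2).1

end GIaux

open _root_.Pool.Agent.WarQ.GIaux in
theorem x_GI (h0 : S_D0) : S_GI := by
  classical
  intro n K m sz e κ hsz
  refine ⟨?_, ?_, ?_, ?_, ?_⟩
  · intro i g
    rw [zz_eq, pt_comp]
    exact (h0 (sz g)).2.2.2.1 _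
  · intro g w
    refine ⟨(totalDegree_rename_le _ _).trans ((h0 (sz g)).1 w), fun p hp => ?_⟩
    unfold ug
    rw [eval_rename]
    exact hp g w
  · rw [Fintype.linearIndependent_iff]
    rintro γ hγ ⟨g, w⟩
    have hE := (h0 (sz g)).2.2.2.2.1
    have h2 := hsz g
    obtain ⟨m', hm'⟩ : ∃ m' : Fin (sz g + 1), m' ≠ w := by
      by_cases hw : w = 0
      · exact ⟨1, by rw [hw]; intro h; have := congrArg Fin.val h; simp at this; omega⟩
      · exact ⟨0, Ne.symm hw⟩
    refine hE m' (fun w => γ ⟨g, w⟩) ?_ w (Ne.symm hm')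
    intro k
    let c : ∀ g, Fin (sz g) → ℂ := Function.update (fun g => ww (sz g) 0) g (ww (sz g) m')
    have h3 := congrArg (fun f => eval (pt e c) (pderiv (e ⟨g, k⟩) f)) hγ
    simp only [map_sum, map_zero] at h3
    rw [Fintype.sum_sigma] at h3
    rw [Finset.sum_eq_single g] at h3
    · rw [← h3]
      refine Finset.sum_congr rfl fun w _ => ?_
      rw [Derivation.map_smul, smul_eval, pd_self]
      have : c g = ww (sz g) m' := Function.update_self _ _ _
      rw [this]
    · intro g' _ hg'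
      refine Finset.sum_eq_zero fun w _ => ?_
      rw [Derivation.map_smul, pd_ne e hg', smul_zero, map_zero]
    · intro h
      exact absurd (Finset.mem_univ g) h
  · intro g₁ g₂ hκ i
    refine ⟨rename (fun i => e ⟨g₁, i⟩) (bar (sz g₁) (κ g₁ i)) *
      rename (fun i => e ⟨g₂, i⟩) (bar (sz g₂) (κ g₂ i)), ?_, ?_, ?_⟩
    · have h1 := (totalDegree_rename_le (fun i => e ⟨g₁, i⟩) (bar (sz g₁) (κ g₁ i))).trans
        ((h0 (sz g₁)).2.1 _)
      have h2 := (totalDegree_rename_le (fun i => e ⟨g₂, i⟩) (bar (sz g₂) (κ g₂ i))).trans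
        ((h0 (sz g₂)).2.1 _)
      have h3 := totalDegree_mul (rename (fun i => e ⟨g₁, i⟩) (bar (sz g₁) (κ g₁ i)))
        (rename (fun i => e ⟨g₂, i⟩) (bar (sz g₂) (κ g₂ i)))
      omega
    · rw [map_mul, zz_eq, eval_pt, eval_pt, (h0 (sz g₁)).2.2.1, (h0 (sz g₂)).2.2.1, if_pos rfl,
        if_pos rfl, one_mul]
      exact one_ne_zero
    · intro i' hi'
      rw [map_mul, zz_eq, eval_pt, eval_pt, (h0 (sz g₁)).2.2.1, (h0 (sz g₂)).2.2.1]
      by_cases h1 : κ g₁ i = κ g₁ i'
      · by_cases h2 : κ g₂ i = κ g₂ i'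
        · exact absurd (hκ i i' h1 h2).symm hi'
        · rw [if_neg h2, mul_zero]
      · rw [if_neg h1, zero_mul]
  · have h1 : ∀ g, ∃ y : Fin (sz g) → ℂ, eval y (uu (sz g) 0) ≠ 0 := fun g =>
      (h0 (sz g)).2.2.2.2.2 (by have := hsz g; omega)
    choose y hy using h1
    refine ⟨pt e y, fun g => ?_⟩
    unfold ug
    rw [eval_pt]
    exact hy g

end Pool.Agent.WarQ


end

section

/-!
# Module LQ: the quadrics through the linear space and the base points
-/

set_option autoImplicit false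

open Module MvPolynomial
open Pool.Agent.War Pool.Agent.WarS

namespace Pool.Agent.WarQ

namespace LQaux

/-- Normal form of a quadric. -/
def QF {σ : Type} [Fintype σ] (g : MvPolynomial σ ℂ) : Prop :=
  ∃ (c : ℂ) (b : σ → ℂ) (M : σ → σ → ℂ), ∀ z : σ → ℂ,
    eval z g = c + ∑ i, b i * z i + ∑ i, ∑ j, M i j * (z i * z j)

variable {σ : Type} [Fintype σ]

lemma QF.add {f g : MvPolynomial σ ℂ} (hf : QF f) (hg : QF g) : QF (f + g) := by
  obtain ⟨c, b, M, h⟩ := hf
  obtain ⟨c', b', M', h'⟩ := hg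
  refine ⟨c + c', fun i => b i + b' i, fun i j => M i j + M' i j, fun z => ?_⟩
  rw [map_add, h, h']
  simp only [add_mul, Finset.sum_add_distrib]
  ring

lemma QF.zero : QF (0 : MvPolynomial σ ℂ) := ⟨0, 0, 0, fun z => by simp⟩

lemma QF.monomial (m : σ →₀ ℕ) (a : ℂ) (hm : m.degree ≤ 2) : QF (monomial m a) := by
  classical
  by_cases h0 : m = 0
  · subst h0
    exact ⟨a, 0, 0, fun z => by simp⟩
  obtain ⟨i, hi⟩ : ∃ i, m i ≠ 0 := by
    by_contra hc
    push Not at hc
    exact h0 (Finsupp.ext hc)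
  obtain ⟨m', rfl⟩ : ∃ m', m = Finsupp.single i 1 + m' := by
    refine ⟨m - Finsupp.single i 1, ?_⟩
    rw [add_tsub_cancel_of_le]
    exact Finsupp.single_le_iff.2 (Nat.one_le_iff_ne_zero.2 hi)
  have hd : m'.degree ≤ 1 := by
    rw [map_add, Finsupp.degree_single] at hm
    omega
  by_cases h1 : m' = 0
  · subst h1
    refine ⟨0, Pi.single i a, 0, fun z => ?_⟩
    rw [add_zero, eval_monomial]
    simp [Pi.single_apply]
  obtain ⟨j, hj⟩ : ∃ j, m' j ≠ 0 := by
    by_contra hc
    push Not at hc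
    exact h1 (Finsupp.ext hc)
  obtain ⟨m'', rfl⟩ : ∃ m'', m' = Finsupp.single j 1 + m'' := by
    refine ⟨m' - Finsupp.single j 1, ?_⟩
    rw [add_tsub_cancel_of_le]
    exact Finsupp.single_le_iff.2 (Nat.one_le_iff_ne_zero.2 hj)
  have hd2 : m''.degree = 0 := by
    rw [map_add, Finsupp.degree_single] at hd
    omega
  rw [Finsupp.degree_eq_zero_iff] at hd2
  subst hd2
  refine ⟨0, 0, fun s t => if s = i ∧ t = j then a else 0, fun z => ?_⟩
  have e : ∑ s, ∑ t, (if s = i ∧ t = j then a else 0) * (z s * z t) = a * (z i * z j) := by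
    rw [Finset.sum_eq_single i, Finset.sum_eq_single j]
    · simp
    · intro t _ ht
      simp [ht]
    · simp
    · intro s _ hs
      simp [hs]
    · simp
  rw [e, add_zero, eval_monomial, Finsupp.prod_add_index' (by simp) (by simp [pow_add])]
  simp

lemma QF.of_degree (g : MvPolynomial σ ℂ) (hg : g.totalDegree ≤ 2) : QF g := by
  classical
  rw [g.as_sum]
  have : ∀ s : Finset (σ →₀ ℕ), s ⊆ g.support → QF (∑ v ∈ s, MvPolynomial.monomial v (coeff v g)) := by
    intro s
    induction s using Finset.induction_on with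
    | empty => intro _; simpa using QF.zero
    | insert a s ha ih =>
      intro hs
      rw [Finset.sum_insert ha]
      refine (QF.monomial _ _ ?_).add (ih fun x hx => hs (Finset.mem_insert_of_mem hx))
      have h1 := le_totalDegree (hs (Finset.mem_insert_self a s))
      rw [Finsupp.sum_fintype _ _ (by simp)] at h1
      rw [Finsupp.degree_eq_sum]
      exact h1.trans hg
  exact this _ subset_rfl

end LQaux

open _root_.Pool.Agent.WarQ.LQaux in
theorem x_LQ : S_LQ := by
  classical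
  intro D k g hg hL hpa hpb
  obtain ⟨c, b, M, hz⟩ := QF.of_degree g hg
  have hG : ∀ (x : Fin D → ℂ) (y : Fin (k + 2) → ℂ), eval (Sum.elim x y) g =
      ∑ i, b (Sum.inr i) * y i +
      ∑ i, ∑ j, (M (Sum.inr i) (Sum.inl j) + M (Sum.inl j) (Sum.inr i)) * (x j * y i) +
      ∑ i, ∑ l, M (Sum.inr i) (Sum.inr l) * (y i * y l) := by
    intro x y
    have h0 := hL x
    rw [hz] at h0 ⊢
    simp only [Fintype.sum_sum_type, Sum.elim_inl, Sum.elim_inr, Pi.zero_apply, mul_zero,
      zero_mul, Finset.sum_const_zero, add_zero, Finset.sum_add_distrib] at h0 ⊢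
    have e1 : ∑ j : Fin D, ∑ i : Fin (k + 2), M (Sum.inl j) (Sum.inr i) * (x j * y i) =
        ∑ i, ∑ j, M (Sum.inl j) (Sum.inr i) * (x j * y i) := Finset.sum_comm
    have e2 : ∑ i : Fin (k + 2), ∑ j : Fin D, M (Sum.inr i) (Sum.inl j) * (y i * x j) =
        ∑ i, ∑ j, M (Sum.inr i) (Sum.inl j) * (x j * y i) := by
      refine Finset.sum_congr rfl fun i _ => Finset.sum_congr rfl fun j _ => ?_
      ring
    rw [e1, e2]
    simp only [add_mul, Finset.sum_add_distrib]
    linear_combination h0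
  set α : Fin (k + 2) → ℂ := fun i => b (Sum.inr i) with hα
  set β : Fin (k + 2) → Fin D → ℂ :=
    fun i j => M (Sum.inr i) (Sum.inl j) + M (Sum.inl j) (Sum.inr i) with hβ
  set δ : Fin (k + 2) → Fin (k + 2) → ℂ := fun i l => M (Sum.inr i) (Sum.inr l) with hδ
  have hG' : ∀ (x : Fin D → ℂ) (y : Fin (k + 2) → ℂ), eval (Sum.elim x y) g =
      ∑ i, α i * y i + ∑ i, ∑ j, β i j * (x j * y i) + ∑ i, ∑ l, δ i l * (y i * y l) := hG
  have hii : ∀ i, δ i i = - α i := by
    intro i
    have h := hpa i i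
    unfold pa at h
    rw [hG'] at h
    simp only [or_self, Pi.zero_apply, zero_mul, mul_zero, Finset.sum_const_zero, add_zero,
      mul_ite, mul_one, Finset.sum_ite_eq', Finset.mem_univ, if_true, ite_mul, one_mul,
      ite_self] at h
    linear_combination h
  have hil : ∀ i l, i ≠ l → δ i l + δ l i = 0 := by
    intro i l hne
    have h := hpa i l
    unfold pa at h
    rw [hG'] at h
    have e0 : ∀ t : Fin (k + 2), (if t = i ∨ t = l then (1 : ℂ) else 0) =
        (if t = i then 1 else 0) + (if t = l then 1 else 0) := by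
      intro t
      by_cases h1 : t = i
      · subst h1; simp [hne]
      · simp [h1]
    simp only [e0] at h
    simp only [Pi.zero_apply, zero_mul, mul_zero, Finset.sum_const_zero, add_zero, mul_add, add_mul,
      mul_ite, mul_one, ite_mul, one_mul, Finset.sum_add_distrib, Finset.sum_ite_eq',
      Finset.mem_univ, if_true, ite_self] at h
    have h1 := hii i
    have h2 := hii l
    linear_combination h - h1 - h2
  have hquad : ∀ y : Fin (k + 2) → ℂ, ∑ i, ∑ l, δ i l * (y i * y l) = - ∑ i, α i * y i ^ 2 := by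
    intro y
    have e1 : ∑ i, ∑ l, δ i l * (y i * y l) = ∑ i, ∑ l, δ l i * (y i * y l) := by
      rw [Finset.sum_comm]
      refine Finset.sum_congr rfl fun i _ => Finset.sum_congr rfl fun l _ => ?_
      ring
    have e2 : ∑ i, ∑ l, (δ i l + δ l i) * (y i * y l) = ∑ i, (-2 * α i) * y i ^ 2 := by
      refine Finset.sum_congr rfl fun i _ => ?_
      rw [Finset.sum_eq_single i]
      · rw [hii i]; ring
      · intro l _ hl
        rw [hil i l (Ne.symm hl), zero_mul]
      · simp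
    have e3 : ∑ i, ∑ l, (δ i l + δ l i) * (y i * y l) =
        ∑ i, ∑ l, δ i l * (y i * y l) + ∑ i, ∑ l, δ l i * (y i * y l) := by
      simp only [add_mul, Finset.sum_add_distrib]
    rw [e3, ← e1] at e2
    have e4 : ∑ i, (-2 * α i) * y i ^ 2 = -2 * ∑ i, α i * y i ^ 2 := by
      rw [Finset.mul_sum]
      exact Finset.sum_congr rfl fun i _ => by ring
    rw [e4] at e2
    linear_combination e2 / 2
  have hG2 : ∀ (x : Fin D → ℂ) (y : Fin (k + 2) → ℂ), eval (Sum.elim x y) g =
      ∑ i, (α i * (y i * (1 - y i)) + ∑ j, β i j * (x j * y i)) := by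
    intro x y
    rw [hG', hquad, Finset.sum_add_distrib]
    have : ∑ i, α i * (y i * (1 - y i)) = ∑ i, α i * y i - ∑ i, α i * y i ^ 2 := by
      rw [← Finset.sum_sub_distrib]
      exact Finset.sum_congr rfl fun i _ => by ring
    rw [this]
    ring
  -- the numbers hh
  have hhr : ∀ (i j : ℕ), (hh i j : ℂ) = (((i : ℝ) + (j : ℝ) + 1)⁻¹ : ℝ) := by
    intro i j
    unfold hh
    push_cast
    rfl
  have key : ∀ (j : Fin D) (i : Fin (k + 2)), (β i j + α i * hh i j) * hh 0 j =
      (β 0 j + α 0 * hh 0 j) * hh i j := by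
    intro j i
    refine Fin.cases rfl (fun i => ?_) i
    have h := hpb j i
    set r : ℝ := ((0 : ℕ) + (j : ℕ) + 1 : ℝ)⁻¹ with hr
    set s : ℝ := (((i.val + 1 : ℕ) : ℝ) + ((j : ℕ) : ℝ) + 1)⁻¹ with hs
    have hr0 : 0 < r := by positivity
    have hs0 : 0 < s := by positivity
    have hrs : s < r := by
      rw [hr, hs]
      apply inv_strictAnti₀ (by positivity)
      push_cast
      have : (0 : ℝ) ≤ (i.val : ℝ) := Nat.cast_nonneg _
      linarith
    have ha : (hh 0 j : ℂ) = r := hhr 0 j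
    have hb : (hh (i.val + 1) j : ℂ) = s := hhr (i.val + 1) j
    have hval : (((i.succ : Fin (k + 2)) : ℕ)) = i.val + 1 := Fin.val_succ i
    set ξ : ℂ := ((r : ℂ) + s) / ((r : ℂ) ^ 2 + (s : ℂ) ^ 2) with hξ
    have hn : (r : ℂ) ^ 2 + (s : ℂ) ^ 2 ≠ 0 := by
      have : r ^ 2 + s ^ 2 ≠ 0 := by positivity
      exact_mod_cast this
    have hn1 : (r : ℂ) + s ≠ 0 := by
      have : r + s ≠ 0 := by positivity
      exact_mod_cast this
    have hn2 : (s : ℂ) - r ≠ 0 := by
      have : s - r ≠ 0 := by linarith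
      exact_mod_cast this
    have hξ0 : ξ ≠ 0 := div_ne_zero hn1 hn
    unfold pb at h
    rw [ha, hb, ← hξ, hG2] at h
    have hne : (0 : Fin (k + 2)) ≠ i.succ := (Fin.succ_ne_zero i).symm
    rw [Finset.sum_eq_add (0 : Fin (k + 2)) i.succ hne] at h
    · have e1 : ∀ t : Fin (k + 2), ∀ u : ℂ, ∑ l : Fin D, β t l * ((if l = j then ξ else 0) * u) =
          β t j * (ξ * u) := by
        intro t u
        rw [Finset.sum_eq_single j]
        · simp
        · intro l _ hl
          simp [hl]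
        · simp
      rw [e1, e1] at h
      simp only [hval, if_true, if_neg hne.symm] at h
      have h2 : ξ * ((β 0 j + α 0 * r) * (1 - ξ * r) +
          (β i.succ j + α i.succ * s) * (1 - ξ * s)) = 0 := by
        linear_combination h
      have h3 := (mul_eq_zero.1 h2).resolve_left hξ0
      have e3 : 1 - ξ * r = s * (s - r) / ((r : ℂ) ^ 2 + (s : ℂ) ^ 2) := by
        rw [hξ]
        field_simp
        ring
      have e4 : 1 - ξ * s = - (r * (s - r)) / ((r : ℂ) ^ 2 + (s : ℂ) ^ 2) := by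
        rw [hξ]
        field_simp
        ring
      rw [e3, e4] at h3
      have h4 : ((s : ℂ) - r) * ((β 0 j + α 0 * r) * s - (β i.succ j + α i.succ * s) * r) = 0 := by
        field_simp at h3
        linear_combination h3
      have h5 := (mul_eq_zero.1 h4).resolve_left hn2
      rw [hval, ha, hb]
      linear_combination -h5
    · intro t _ ht
      have ht0 : t ≠ 0 := ht.1
      have ht1 : ¬ (t.val = i.val + 1) := by
        intro h'
        exact ht.2 (Fin.ext (h'.trans hval.symm))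
      simp [ht0, ht1]
    · simp
    · simp
  refine ⟨α, fun j => (β 0 j + α 0 * hh 0 j) / hh 0 j, ?_⟩
  apply MvPolynomial.funext
  intro z
  obtain ⟨x, y, rfl⟩ : ∃ (x : Fin D → ℂ) (y : Fin (k + 2) → ℂ), z = Sum.elim x y :=
    ⟨z ∘ Sum.inl, z ∘ Sum.inr, (Sum.elim_comp_inl_inr z).symm⟩
  have hne : ∀ j : Fin D, (hh 0 j : ℂ) ≠ 0 := by
    intro j
    rw [hhr]
    have : (((0 : ℕ) : ℝ) + ((j : ℕ) : ℝ) + 1)⁻¹ ≠ 0 := by positivity
    exact_mod_cast this
  have key' : ∀ (j : Fin D) (i : Fin (k + 2)), (β 0 j + α 0 * hh 0 j) / hh 0 j * hh i j =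
      β i j + α i * hh i j := by
    intro j i
    have h := key j i
    have h1 := hne j
    rw [div_mul_eq_mul_div, div_eq_iff h1]
    exact h.symm
  rw [hG2]
  unfold qq
  simp only [map_add, map_sum, map_mul, eval_C, eval_X, map_sub, map_one, Sum.elim_inl,
    Sum.elim_inr]
  have e1 : ∑ j : Fin D, (β 0 j + α 0 * hh 0 j) / hh 0 j * (x j * ∑ i : Fin (k + 2), hh i j * y i) =
      ∑ i : Fin (k + 2), ∑ j : Fin D, (β i j + α i * hh i j) * (x j * y i) := by
    rw [Finset.sum_comm]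
    refine Finset.sum_congr rfl fun j _ => ?_
    rw [Finset.mul_sum, Finset.mul_sum]
    refine Finset.sum_congr rfl fun i _ => ?_
    rw [← key' j i]
    ring
  rw [e1, ← Finset.sum_add_distrib]
  refine Finset.sum_congr rfl fun i _ => ?_
  have e2 : ∑ j : Fin D, (β i j + α i * hh i j) * (x j * y i) =
      ∑ j : Fin D, β i j * (x j * y i) + α i * y i * ∑ j : Fin D, hh i j * x j := by
    rw [Finset.mul_sum, ← Finset.sum_add_distrib]
    exact Finset.sum_congr rfl fun j _ => by ring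
  rw [e2]
  ring

end Pool.Agent.WarQ


end

section

/-!
# The hyperplane `x_0 = 0` in the variables `Fin (δ + 1) ⊕ Fin K`
-/

set_option autoImplicit false

open Module MvPolynomial
open Pool.Agent.War Pool.Agent.WarS

namespace Pool.Agent.WarQ

namespace LXaux

/-- the change of variables -/
def fw (δ K : ℕ) : Fin (δ + 1) ⊕ Fin K → Fin (δ + K + 1)
  | Sum.inl i => Fin.cases 0 (fun i => Fin.succ (finSumFinEquiv (Sum.inl i))) i
  | Sum.inr k => Fin.succ (finSumFinEquiv (Sum.inr k))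

/-- its inverse -/
def bw (δ K : ℕ) (j : Fin (δ + K + 1)) : Fin (δ + 1) ⊕ Fin K :=
  Fin.cases (Sum.inl 0) (fun j => Sum.map Fin.succ id (finSumFinEquiv.symm j)) j

theorem bw_fw (δ K : ℕ) (v : Fin (δ + 1) ⊕ Fin K) : bw δ K (fw δ K v) = v := by
  rcases v with i | k
  · refine Fin.cases ?_ (fun i => ?_) i
    · rfl
    · change bw δ K (Fin.succ (finSumFinEquiv (Sum.inl i))) = _
      unfold bw
      rw [Fin.cases_succ, Equiv.symm_apply_apply]
      rfl
  · change bw δ K (Fin.succ (finSumFinEquiv (Sum.inr k))) = _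
    unfold bw
    rw [Fin.cases_succ, Equiv.symm_apply_apply]
    rfl

theorem fw_bw (δ K : ℕ) (j : Fin (δ + K + 1)) : fw δ K (bw δ K j) = j := by
  refine Fin.cases ?_ (fun j => ?_) j
  · rfl
  · unfold bw
    rw [Fin.cases_succ]
    obtain ⟨v, rfl⟩ := (finSumFinEquiv (m := δ) (n := K)).surjective j
    rw [Equiv.symm_apply_apply]
    rcases v with i | k <;> rfl

/-- the equivalence -/
def ee (δ K : ℕ) : Fin (δ + 1) ⊕ Fin K ≃ Fin (δ + K + 1) :=
  ⟨fw δ K, bw δ K, bw_fw δ K, fw_bw δ K⟩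

theorem hp_ee (δ K : ℕ) (x : Fin δ → ℂ) (y : Fin K → ℂ) :
    (hp (Sum.elim x y ∘ (finSumFinEquiv (m := δ) (n := K)).symm)) ∘ (ee δ K) =
      Sum.elim (Fin.cons 0 x) y := by
  funext v
  rcases v with i | k
  · refine Fin.cases ?_ (fun i => ?_) i
    · rfl
    · change hp (Sum.elim x y ∘ (finSumFinEquiv (m := δ) (n := K)).symm)
        (Fin.succ (finSumFinEquiv (Sum.inl i))) = _
      rw [hp_succ, Function.comp_apply, Equiv.symm_apply_apply]
      rfl
  · change hp (Sum.elim x y ∘ (finSumFinEquiv (m := δ) (n := K)).symm)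
      (Fin.succ (finSumFinEquiv (Sum.inr k))) = _
    rw [hp_succ, Function.comp_apply, Equiv.symm_apply_apply]
    rfl

end LXaux

open _root_.Pool.Agent.WarQ.LXaux

theorem x_LX : S_LX := by
  intro δ K
  refine ⟨fun f => ?_, fun d f hf hv => ?_, fun g p hp0 h0 => ?_⟩
  · refine ⟨rename (finSumFinEquiv (m := δ) (n := K)).symm (res (δ + K) (rename (ee δ K) f)),
      ?_, fun x y => ?_⟩
    · exact (totalDegree_rename_le _ _).trans ((res_totalDegree_le _).trans
        (totalDegree_rename_le _ _))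
    · rw [eval_rename, ← eval_hp, eval_rename, hp_ee]
  · have h1 : res (δ + K) (rename (ee δ K) f) = 0 := by
      apply MvPolynomial.funext
      intro z
      rw [← eval_hp, eval_rename, map_zero]
      exact hv _ rfl
    obtain ⟨g', hg', hfg⟩ := exists_of_res ((totalDegree_rename_le _ _).trans hf) h1
    refine ⟨rename (ee δ K).symm g', (totalDegree_rename_le _ _).trans hg', ?_⟩
    have h2 : f = rename (ee δ K).symm (rename (ee δ K) f) := by
      rw [rename_rename]
      simp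
    have h3 : (ee δ K).symm 0 = Sum.inl 0 := rfl
    rw [h2, hfg, map_mul, rename_X, h3]
  · have h1 : eval p g = 0 := by
      rw [map_mul, eval_X] at h0
      exact (mul_eq_zero.1 h0).resolve_left hp0
    refine ⟨h1, fun v => ?_⟩
    rw [Derivation.leibniz, map_add, smul_eq_mul, smul_eq_mul, map_mul, map_mul, h1, eval_X]
    ring

end Pool.Agent.WarQ


end

section

/-!
# Simultaneous Waring decompositions (MP_db021c_ag): case B of the first model   (helper61)

`D + 1` groups of variables and one more simple point.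
-/

set_option autoImplicit false

open Module MvPolynomial
open Pool.Agent.War Pool.Agent.WarS

namespace Pool.Agent.WarQ

namespace TBaux

/-- a vector orthogonal to `b` of the vectors `(i^0, ..., i^(b-1))` is zero -/
theorem vander {b m : ℕ} (v : Fin b → ℂ) (S : Finset (Fin m)) (hS : b ≤ S.card)
    (h : ∀ i ∈ S, ∑ j : Fin b, ((i.val : ℂ)) ^ j.val * v j = 0) : v = 0 := by
  classical
  set P : Polynomial ℂ := ∑ j : Fin b, Polynomial.C (v j) * Polynomial.X ^ j.val with hP
  have hdeg : P.degree < (b : ℕ) := by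
    rw [hP, ← Polynomial.mem_degreeLT]
    refine Submodule.sum_mem _ fun j _ => ?_
    rw [Polynomial.mem_degreeLT]
    refine lt_of_le_of_lt (Polynomial.degree_C_mul_X_pow_le _ _) ?_
    exact_mod_cast j.2
  have hinj : Set.InjOn (fun i : Fin m => (i.val : ℂ)) S := by
    intro i _ i' _ hii
    have h1 : (i.val : ℂ) = (i'.val : ℂ) := hii
    exact Fin.ext (by exact_mod_cast h1)
  have hP0 : P = 0 := by
    refine Polynomial.eq_zero_of_degree_lt_of_eval_finset_eq_zero
      (S.image fun i : Fin m => (i.val : ℂ)) ?_ ?_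
    · rw [Finset.card_image_of_injOn hinj]
      exact lt_of_lt_of_le hdeg (by exact_mod_cast hS)
    · intro x hx
      obtain ⟨i, hi, rfl⟩ := Finset.mem_image.1 hx
      rw [hP, Polynomial.eval_finsetSum, ← h i hi]
      refine Finset.sum_congr rfl fun j _ => ?_
      rw [Polynomial.eval_mul, Polynomial.eval_C, Polynomial.eval_pow, Polynomial.eval_X, mul_comm]
  funext j
  have h1 : P.coeff j.val = v j := by
    rw [hP, Polynomial.finsetSum_coeff, Finset.sum_eq_single j]
    · rw [Polynomial.coeff_C_mul, Polynomial.coeff_X_pow, if_pos rfl, mul_one]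
    · intro k _ hk
      rw [Polynomial.coeff_C_mul, Polynomial.coeff_X_pow, if_neg fun h => hk (Fin.ext h.symm),
        mul_zero]
    · intro h
      exact absurd (Finset.mem_univ j) h
  rw [← h1, hP0, Polynomial.coeff_zero]
  rfl

/-- complement of a small class -/
theorem compl_card {b c : ℕ} (p : Fin (b + c) → Prop) [DecidablePred p]
    (h : (Finset.univ.filter fun i => p i).card ≤ c) :
    b ≤ (Finset.univ.filter fun i => ¬ p i).card := by
  have h1 := Finset.card_filter_add_card_filter_not (s := (Finset.univ : Finset (Fin (b + c))))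
    (fun i => p i)
  rw [Finset.card_univ, Fintype.card_fin] at h1
  omega

/-- independent elements in the kernel of a functional which does not vanish at one of them -/
theorem indep {Q V : Type} [Fintype Q] [DecidableEq Q] [AddCommGroup V] [Module ℂ V] (u : Q → V)
    (hu : LinearIndependent ℂ u) (q₀ : Q) (c : Q → ℂ) :
    LinearIndependent ℂ fun q : {q // q ≠ q₀} => u q.1 - c q.1 • u q₀ := by
  rw [Fintype.linearIndependent_iff] at hu ⊢
  intro g hg
  have h1 := hu (fun q => if h : q ≠ q₀ then g ⟨q, h⟩ else -∑ q : {q // q ≠ q₀}, g q * c q.1) ?_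
  · intro q
    have h2 := h1 q.1
    rw [dif_pos q.2] at h2
    exact h2
  · have h3 : ∀ F : Q → V, ∑ q, F q = F q₀ + ∑ q : {q // q ≠ q₀}, F q.1 := by
      intro F
      rw [← Finset.add_sum_erase Finset.univ F (Finset.mem_univ q₀)]
      congr 1
      refine Finset.sum_subtype _ (fun q => ?_) F
      simp
    rw [h3]
    have h4 : ∀ q : {q // q ≠ q₀}, (if h : q.1 ≠ q₀ then g ⟨q.1, h⟩ else
        -∑ q : {q // q ≠ q₀}, g q * c q.1) • u q.1 = g q • u q.1 := by
      intro q
      rw [dif_pos q.2]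
    simp only [h4]
    rw [dif_neg (fun h : q₀ ≠ q₀ => h rfl)]
    simp only [smul_sub, smul_smul, Finset.sum_sub_distrib] at hg
    rw [neg_smul, Finset.sum_smul, ← hg]
    abel

end TBaux

open _root_.Pool.Agent.WarQ.TBaux in
theorem x_TB (hR : S_GR) (hI : S_GI) (hS : S_SEL) : S_TB := by
  classical
  intro n b c D sz κ E _ hsum hsz hcnt hE hEc hdet
  have hcard : Fintype.card ((g : Fin (D + 1)) × Fin (sz g)) = n := by
    rw [Fintype.card_sigma]
    simp only [Fintype.card_fin]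
    exact hsum
  let e : ((g : Fin (D + 1)) × Fin (sz g)) ≃ Fin n := Fintype.equivFinOfCardEq hcard
  obtain ⟨i1, i2, i3, i4, y₀, hy₀⟩ := hI n (D + 1) (b + c) sz e κ hsz
  obtain ⟨g₁, g₂, hg⟩ := hdet
  set a : Fin (b + c) → Fin b → ℂ := fun i j => ((i.val : ℂ)) ^ j.val with ha
  let q₀ : (g : Fin (D + 1)) × Fin (sz g + 1) := ⟨0, 0⟩
  have hcard2 : Fintype.card {q : (g : Fin (D + 1)) × Fin (sz g + 1) // q ≠ q₀} = n + D := by
    rw [Fintype.card_subtype_compl, Fintype.card_sigma, Fintype.card_subtype_eq]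
    simp only [Fintype.card_fin, Finset.sum_add_distrib, hsum, Finset.sum_const,
      Finset.card_univ, smul_eq_mul, mul_one]
    omega
  let ε : Fin (n + D) ≃ {q : (g : Fin (D + 1)) × Fin (sz g + 1) // q ≠ q₀} :=
    (Fintype.equivFinOfCardEq hcard2).symm
  let u : ((g : Fin (D + 1)) × Fin (sz g + 1)) → MvPolynomial (Fin n) ℂ := fun q => ug e q.1 q.2
  let cc : ((g : Fin (D + 1)) × Fin (sz g + 1)) → ℂ := fun q => eval y₀ (u q) / eval y₀ (u q₀)
  have hu0 : eval y₀ (u q₀) ≠ 0 := hy₀ 0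
  obtain ⟨y, hyY, hy⟩ := hS n (b + c) (n + D) (PT e ∪ {y₀}) (zz e κ) ⟨y₀, Or.inr rfl⟩
    (fun i => Or.inl (i1 i)) (i4 g₁ g₂ hg)
    ⟨fun k => u (ε k).1 - cc (ε k).1 • u q₀, by
      exact (indep u i3 q₀ cc).comp ε ε.injective, by
      intro k
      refine ⟨?_, ?_⟩
      · refine (totalDegree_sub _ _).trans (max_le (i2 _ _).1 ?_)
        refine (totalDegree_smul_le _ _).trans (i2 _ _).1
      · rintro p (hp | hp)
        · rw [map_sub, smul_eval, (i2 _ _).2 p hp, (i2 _ _).2 p hp, mul_zero, sub_zero]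
        · rw [Set.mem_singleton_iff] at hp
          subst hp
          rw [map_sub, smul_eval]
          change eval p (u (ε k).1) - eval p (u (ε k).1) / eval p (u q₀) * eval p (u q₀) = 0
          rw [div_mul_cancel₀ _ hu0, sub_self]⟩
  refine ⟨zz e κ, a, y, ?_⟩
  intro f hf h1 h2 h3
  have hfY : ∀ j, ∀ p ∈ PT e ∪ {y₀}, eval p (f j) = 0 := fun j =>
    hy (f j) (hf j) (fun i => h1 i j) fun i => h3 i j
  obtain ⟨γ, hγ, hγ'⟩ := hR n (D + 1) (b + c) b sz e κ a f hsz hf
    (fun j p hp => hfY j p (Or.inl hp)) h2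
  -- the coefficients of the cubics with `w ≠ 0`
  have hw : ∀ g w, w ≠ 0 → γ g w = 0 := by
    intro g w hw
    refine vander (γ g w) (Finset.univ.filter fun i => ¬ κ g i = w)
      (compl_card _ (hcnt g w hw)) fun i hi => ?_
    exact hγ' g w i (Finset.mem_filter.1 hi).2
  -- evaluation at `y₀`
  have hev : ∀ j, ∑ g, γ g 0 j * eval y₀ (ug e g 0) = 0 := by
    intro j
    have h4 := hfY j y₀ (Or.inr rfl)
    rw [hγ j, map_sum] at h4
    rw [← h4]
    refine Finset.sum_congr rfl fun g _ => ?_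
    rw [map_sum, Finset.sum_eq_single 0]
    · rw [map_mul, eval_C]
    · intro w _ hw0
      rw [hw g w hw0, Pi.zero_apply, C_0, zero_mul, map_zero]
    · intro h
      exact absurd (Finset.mem_univ _) h
  have hs : ∀ j' : Fin D, γ (Fin.succ j') 0 = 0 := by
    intro j'
    refine vander (γ (Fin.succ j') 0)
      (Finset.univ.filter fun i => ¬ (κ (Fin.succ j') i = 0 ∧ i ∉ E j'))
      (compl_card _ (hEc j')) fun i hi => ?_
    have hi' := (Finset.mem_filter.1 hi).2
    by_cases hk : κ (Fin.succ j') i = 0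
    · have hiE : i ∈ E j' := by
        by_contra hn
        exact hi' ⟨hk, hn⟩
      obtain ⟨e1, e2⟩ := hE j' i hiE
      have h5 : ∑ g, eval y₀ (ug e g 0) * ∑ j, a i j * γ g 0 j = 0 := by
        have h6 : ∑ j, a i j * ∑ g, γ g 0 j * eval y₀ (ug e g 0) = 0 :=
          Finset.sum_eq_zero fun j _ => by rw [hev j, mul_zero]
        rw [← h6]
        simp only [Finset.mul_sum]
        rw [Finset.sum_comm]
        refine Finset.sum_congr rfl fun j _ => Finset.sum_congr rfl fun g _ => ?_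
        ring
      rw [Finset.sum_eq_single (Fin.succ j')] at h5
      · rcases mul_eq_zero.1 h5 with h7 | h7
        · exact absurd h7 (hy₀ _)
        · exact h7
      · intro g _ hgne
        rw [mul_eq_zero]
        right
        refine hγ' g 0 i ?_
        revert hgne
        refine Fin.cases ?_ (fun g' => ?_) g
        · intro _
          exact e1
        · intro hgne
          exact e2 g' fun h => hgne (by rw [h])
      · intro h
        exact absurd (Finset.mem_univ _) h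
    · exact hγ' _ 0 i hk
  have h0 : γ 0 0 = 0 := by
    funext j
    have h8 := hev j
    rw [Fin.sum_univ_succ] at h8
    simp only [hs, Pi.zero_apply, zero_mul, Finset.sum_const_zero, add_zero] at h8
    rcases mul_eq_zero.1 h8 with h9 | h9
    · exact h9
    · exact absurd h9 (hy₀ _)
  have hall : ∀ g w, γ g w = 0 := by
    intro g w
    by_cases hw0 : w = 0
    · subst hw0
      refine Fin.cases h0 (fun g' => hs g') g
    · exact hw g w hw0
  intro j
  rw [hγ j]
  refine Finset.sum_eq_zero fun g _ => Finset.sum_eq_zero fun w _ => ?_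
  rw [hall g w, Pi.zero_apply, C_0, zero_mul]

end Pool.Agent.WarQ


end

section

/-!
# Simultaneous Waring decompositions (MP_db021c_ag): change of names   (helper30)

The statement `S_TRP` of `Pool/Agent/WarQ/Stmts.lean`.
-/

set_option autoImplicit false

open Module MvPolynomial
open Pool.Agent.War Pool.Agent.WarS

namespace Pool.Agent.WarQ

theorem x_TRP : S_TRP := by
  intro V α β _ _ _ n d b m e hV hα hβ z a y h
  let σ : Fin n ≃ V := (Fintype.equivFinOfCardEq hV).symm
  let εα : Fin m ≃ α := (Fintype.equivFinOfCardEq hα).symm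
  let εβ : Fin e ≃ β := (Fintype.equivFinOfCardEq hβ).symm
  refine ⟨fun i k => z (εα i) (σ k), fun i => a (εα i), fun i k => y (εβ i) (σ k), ?_⟩
  intro f hf h1 h2 h3
  have key : ∀ (p : V → ℂ) (g : MvPolynomial (Fin n) ℂ),
      eval p (rename σ g) = eval (fun k => p (σ k)) g := fun p g => eval_rename σ p g
  have h0 := h (fun j => rename σ (f j)) (fun j => (totalDegree_rename_le σ (f j)).trans (hf j))
    ?_ ?_ ?_
  · intro j
    apply rename_injective σ σ.injective
    rw [map_zero]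
    exact h0 j
  · intro i j
    rw [key]
    have := h1 (εα.symm i) j
    simpa using this
  · intro i v
    have := h2 (εα.symm i) (σ.symm v)
    simp only [Equiv.apply_symm_apply] at this
    rw [← this]
    refine Finset.sum_congr rfl fun j _ => ?_
    congr 1
    have h4 : pderiv v (rename σ (f j)) = rename σ (pderiv (σ.symm v) (f j)) := by
      have := pderiv_rename σ.injective (σ.symm v) (f j)
      rwa [Equiv.apply_symm_apply] at this
    rw [h4, key]
  · intro i j
    rw [key]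
    have := h3 (εβ.symm i) j
    simpa using this

end Pool.Agent.WarQ


end

section

/-!
# The block lemma for small q (MP_db021c_ag)   (helper34)

Modules by helper7, 15, 18, 22, 30, 35, 48, 50, 52, 59, 61, 63, 69, 71, 75, 84, 95, 96.
-/

set_option autoImplicit false

open Pool.Agent.War Pool.Agent.WarS

namespace Pool.Agent.WarQ

theorem f_GR : S_GR := x_GR x_D0 x_D1 x_PROD

theorem f_GI : S_GI := x_GI x_D0

theorem f_T : S_T := x_T (x_TA f_GR f_GI x_SEL) (x_TB f_GR f_GI x_SEL) x_CA x_CB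

theorem f_L : S_L := x_L (x_LT SG) x_LH (x_LS (x_LR x_NOD x_LQ x_LG x_CYC)) x_LX x_TRP

theorem f_SMALL : S_SMALL := x_SMALL (x_Q3 f_T f_L) x_UP (x_SB SG)

/-- the small case of the block lemma, from the range of Alexander-Hirschowitz type -/
theorem small (hAH : WarM.S_AH) : WarM.S_SB := by
  intro n d b c q D hn hd hbn hc hcb hq hD hqD
  have hb : 0 < b := by omega
  subst hD
  have h1 : b * (n * c / b) ≤ n * c := Nat.mul_div_le _ _
  have h2 : n * c < b * (n * c / b + 1) := by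
    have h3 := Nat.div_add_mod (n * c) b
    have h4 := Nat.mod_lt (n * c) hb
    rw [Nat.mul_add, Nat.mul_one]
    omega
  exact f_SMALL hAH n d b c (n * c / b) q hd hc hcb hbn h1 h2 hq hqD

end Pool.Agent.WarQ


end

section

/-!
# Simultaneous Waring decompositions (MP_db021c_ag): at least `n + 1` forms, degree 3   (helper25)

Modules by helper7, 18, 21, 26, 33, 41, 49, 50, 51, 59, 63, 69, 74, 75, 76, 83 and others.
-/

set_option autoImplicit false

open Module MvPolynomial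
open Pool.Agent.War Pool.Agent.WarS

namespace Pool.Agent.WarC

theorem f_MRA : S_MRA :=
  x_MRA (x_LM (x_LRB WarQ.x_NOD WarQ.x_LQ WarQ.x_LG x_CY) x_LT2 x_PUR) x_MR0
    (x_STEP x_RADO x_GEN x_TRD x_TL1 x_TL0) x_B4

theorem f_SM3 : S_SM3 := x_SM3 (WarQ.x_Q3 WarQ.f_T WarQ.f_L) (WarQ.x_SB SG) f_MRA

theorem f_BLKC : S_BLKC := x_BLKC f_SM3 (x_PERT x_UK) x_COR3 x_NUMC

/-- at least `n + 1` cubic forms: no exceptions -/
theorem W_many3 (n s h : ℕ) (hn : 3 ≤ n) (hs : n + 1 ≤ s) :
    Waring.W 3 h n s ↔ min s ((n + 3).choose n) ≤ h ∧ s * (n + 3).choose n ≤ h * (n + s) := by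
  refine ⟨fun H => ⟨H.bound2, H.bound1 (by omega)⟩, fun H => ?_⟩
  by_cases hN : (n + 3).choose n ≤ h
  · exact (WarM.W_top s (by omega : 1 ≤ n)).mono hN
  · have hsN : ¬ (n + 3).choose n ≤ s := fun hle => hN (by
      rw [min_eq_right hle] at H; exact H.1)
    have hsh : s ≤ h := by
      rw [min_eq_left (by omega)] at H; exact H.1
    obtain ⟨z, a, y, hK⟩ := x_TOPC f_BLKC n s h hn hs hsh (by unfold NN; omega) H.2
    exact Waring.W_of_dual z a fun g hg h1 h2 => hK g hg h1 h2 fun i => i.elim0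

end Pool.Agent.WarC


end

section

/-!
# MP_db021c_ag, cubics: quadrics with double points and midpoints, some points on the hyperplane
(`S_UKH`)
-/

set_option autoImplicit false

open Module MvPolynomial
open Pool.Agent.War Pool.Agent.WarS Pool.Agent.WarQ

namespace Pool.Agent.WarC

namespace UKHaux

open UKaux

theorem mid_comm {n : ℕ} (u v : Fin n → ℂ) : mid u v = mid v u := by
  funext i
  simp only [mid]
  rw [add_comm]

theorem mid_self {n : ℕ} (u : Fin n → ℂ) : mid u u = u := by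
  funext i
  simp only [mid]
  ring

/-- the nodes of the simplex -/
noncomputable def nd (n : ℕ) : Sym2 (Fin (n + 1)) → (Fin n → ℂ) :=
  Sym2.lift ⟨fun j k => mid (V n j) (V n k), fun _ _ => mid_comm _ _⟩

/-- quadrics which are double at the vertices in `P` and vanish at the vertices in `Q` and at their
midpoints -/
noncomputable def W0 (n : ℕ) (P Q : Finset (Fin (n + 1))) : Submodule ℂ (Pol n 2) :=
  (⨅ i : {i // i ∈ P}, LinearMap.ker (ev n 2 (V n (i : Fin (n + 1))))) ⊓
    (⨅ i : {i // i ∈ P} × Fin n, LinearMap.ker (dv n 2 i.2 (V n (i.1 : Fin (n + 1))))) ⊓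
    ⨅ s : {i // i ∈ Q} × {i // i ∈ Q},
      LinearMap.ker (ev n 2 (mid (V n (s.1 : Fin (n + 1))) (V n (s.2 : Fin (n + 1)))))

theorem mem_W0 {n : ℕ} {P Q : Finset (Fin (n + 1))} {f : Pol n 2} : f ∈ W0 n P Q ↔
    (∀ j ∈ P, eval (V n (j : Fin (n + 1))) (f : MvPolynomial (Fin n) ℂ) = 0) ∧
    (∀ j ∈ P, ∀ k, eval (V n (j : Fin (n + 1))) (pderiv k (f : MvPolynomial (Fin n) ℂ)) = 0) ∧
    ∀ j ∈ Q, ∀ k ∈ Q,
      eval (mid (V n (j : Fin (n + 1))) (V n (k : Fin (n + 1)))) (f : MvPolynomial (Fin n) ℂ) = 0 := by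
  unfold W0
  simp only [Submodule.mem_inf, Submodule.mem_iInf, LinearMap.mem_ker, ev_apply, dv_apply,
    Prod.forall, Subtype.forall]
  constructor
  · rintro ⟨⟨h1, h2⟩, h3⟩
    exact ⟨h1, h2, fun j hj k hk => h3 j hj k hk⟩
  · rintro ⟨h1, h2, h3⟩
    exact ⟨⟨h1, h2⟩, fun j hj k hk => h3 j hj k hk⟩

theorem finrank_W0 {n : ℕ} {P Q : Finset (Fin (n + 1))} (hd : Disjoint P Q) :
    finrank ℂ ↥(W0 n P Q) ≤
      NN n 2 + P.card.choose 2 - ((n + 1) * P.card + Q.card + Q.card.choose 2) := by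
  classical
  set S : Finset (Sym2 (Fin (n + 1))) := (Pᶜ).sym2 \ Q.sym2 with hS
  let Φ : Pol n 2 →ₗ[ℂ] ({s // s ∈ S} → ℂ) := LinearMap.pi fun s => ev n 2 (nd n s)
  have hinj : ∀ f ∈ W0 n P Q, Φ f = 0 → f = 0 := by
    intro f hf hΦ
    obtain ⟨h1, h2, h3⟩ := mem_W0.1 hf
    have hdeg : (f : MvPolynomial (Fin n) ℂ).totalDegree ≤ 2 := mem_Pol.1 f.2
    apply Subtype.ext
    have hΦ' : ∀ j k : Fin (n + 1), j ∉ P → k ∉ P → ¬ (j ∈ Q ∧ k ∈ Q) →
        eval (mid (V n j) (V n k)) (f : MvPolynomial (Fin n) ℂ) = 0 := by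
      intro j k hj hk hjk
      have hs : s(j, k) ∈ S := by
        rw [hS, Finset.mem_sdiff, Finset.mk_mem_sym2_iff, Finset.mk_mem_sym2_iff,
          Finset.mem_compl, Finset.mem_compl]
        exact ⟨⟨hj, hk⟩, hjk⟩
      have h4 := congrFun hΦ ⟨s(j, k), hs⟩
      change ev n 2 (mid (V n j) (V n k)) f = 0 at h4
      rwa [ev_apply] at h4
    have hV : ∀ j : Fin (n + 1), eval (V n j) (f : MvPolynomial (Fin n) ℂ) = 0 := by
      intro j
      by_cases hj : j ∈ P
      · exact h1 j hj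
      · by_cases hq : j ∈ Q
        · have h4 := h3 j hq j hq
          rwa [mid_self] at h4
        · have h4 := hΦ' j j hj hj (fun h => hq h.1)
          rwa [mid_self] at h4
    have key : ∀ j k : Fin (n + 1),
        eval (mid (V n j) (V n k)) (f : MvPolynomial (Fin n) ℂ) = 0 := by
      intro j k
      by_cases hj : j ∈ P
      · rw [eval_mid_of_double _ hdeg _ _ (h1 j hj) (h2 j hj), hV, zero_div]
      · by_cases hk : k ∈ P
        · rw [mid_comm, eval_mid_of_double _ hdeg _ _ (h1 k hk) (h2 k hk), hV, zero_div]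
        · by_cases hjk : j ∈ Q ∧ k ∈ Q
          · exact h3 j hjk.1 k hjk.2
          · exact hΦ' j k hj hk hjk
    exact eq_zero_of_nodes _ hdeg fun j k _ hk => key ⟨j, by omega⟩ ⟨k, by omega⟩
  have hle : finrank ℂ ↥(W0 n P Q) ≤ finrank ℂ ({s // s ∈ S} → ℂ) := by
    refine LinearMap.finrank_le_finrank_of_injective (f := Φ.domRestrict _) ?_
    intro f g hfg
    have h0 : Φ ((f : Pol n 2) - (g : Pol n 2)) = 0 := by
      rw [map_sub, sub_eq_zero]
      exact hfg
    exact Subtype.ext (sub_eq_zero.1 (hinj _ (Submodule.sub_mem _ f.2 g.2) h0))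
  have hsub : Q.sym2 ⊆ (Pᶜ).sym2 := Finset.sym2_mono fun x hx => by
    rw [Finset.mem_compl]
    exact fun h => Finset.disjoint_left.1 hd h hx
  have hc : (Pᶜ).card = n + 1 - P.card := by
    rw [Finset.card_compl, Fintype.card_fin]
  have hP : P.card ≤ n + 1 := by
    have := Finset.card_le_univ P
    rwa [Fintype.card_fin] at this
  have hq : (Q.card + 1).choose 2 = Q.card + Q.card.choose 2 := by
    rw [Nat.choose_succ_succ' Q.card 1, Nat.choose_one_right]
  have e2 := count2 (n := n) (p := P.card) hP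
  rw [Module.finrank_fintype_fun_eq_card, Fintype.card_coe, hS,
    Finset.card_sdiff_of_subset hsub, Finset.card_sym2, Finset.card_sym2, hc, hq,
    show n + 1 - P.card + 1 = n + 2 - P.card by omega] at hle
  omega

theorem card_bd {I Y : Type} [Fintype I] [Fintype Y] (R : Finset (I ⊕ Y))
    [Fintype {i : I // (Sum.inl i : I ⊕ Y) ∉ R}] [Fintype {y : Y // (Sum.inr y : I ⊕ Y) ∉ R}] :
    Fintype.card I + Fintype.card Y ≤ R.card +
      (Fintype.card {i : I // (Sum.inl i : I ⊕ Y) ∉ R} +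
        Fintype.card {y : Y // (Sum.inr y : I ⊕ Y) ∉ R}) := by
  have h := Fintype.card_le_of_surjective
    (α := {q // q ∈ R} ⊕ ({i : I // (Sum.inl i : I ⊕ Y) ∉ R} ⊕ {y : Y // (Sum.inr y : I ⊕ Y) ∉ R}))
    (β := I ⊕ Y)
    (Sum.elim (fun r => r.1) (Sum.elim (fun i => Sum.inl i.1) fun y => Sum.inr y.1)) (by
      intro q
      by_cases hq : q ∈ R
      · exact ⟨Sum.inl ⟨q, hq⟩, rfl⟩
      · rcases q with i | y
        · exact ⟨Sum.inr (Sum.inl ⟨i, hq⟩), rfl⟩
        · exact ⟨Sum.inr (Sum.inr ⟨y, hq⟩), rfl⟩)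
  simpa [Fintype.card_sum, Fintype.card_coe] using h

/-- the assignment of the vertices -/
theorem exists_vert {A : Type} (R : Finset A) (n : ℕ) (hR : R.card ≤ n + 2) (q₀ : A)
    (hq₀ : q₀ ∈ R) : ∃ σ : A → Fin (n + 1 + 1), Set.InjOn σ R ∧ σ q₀ = 1 := by
  classical
  obtain ⟨f⟩ := Function.Embedding.nonempty_of_card_le (α := {q // q ∈ R})
    (β := Fin (n + 1 + 1)) (by rw [Fintype.card_coe, Fintype.card_fin]; exact hR)
  refine ⟨fun q => if h : q ∈ R then Equiv.swap (f ⟨q₀, hq₀⟩) 1 (f ⟨q, h⟩) else 1, ?_, ?_⟩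
  · intro a ha b hb hab
    have ha' : a ∈ R := ha
    have hb' : b ∈ R := hb
    simp only [dif_pos ha', dif_pos hb'] at hab
    have h1 := f.injective ((Equiv.swap (f ⟨q₀, hq₀⟩) 1).injective hab)
    exact congrArg Subtype.val h1
  · simp only [dif_pos hq₀]
    exact Equiv.swap_apply_left _ _

/-- the points as a linear function of the parameters -/
noncomputable def J (I Y : Type) (n : ℕ) :
    (I → Fin (n + 1) → ℂ) × (Y → Fin n → ℂ) →ₗ[ℂ] (I ⊕ Y → Fin (n + 1) → ℂ) where
  toFun x := jn x.1 x.2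
  map_add' x y := by
    funext q k
    rcases q with i | i
    · rfl
    · refine Fin.cases ?_ (fun k => ?_) k
      · change (0 : ℂ) = 0 + 0
        rw [add_zero]
      · rfl
  map_smul' r x := by
    funext q k
    rcases q with i | i
    · rfl
    · refine Fin.cases ?_ (fun k => ?_) k
      · change (0 : ℂ) = r • (0 : ℂ)
        rw [smul_zero]
      · rfl

theorem PK_sp {A : Type} [Finite A] (N : ℕ) (P Q : Finset A) : PK (K := ℂ)
    fun z : A → Fin N → ℂ => Dbl N 2 P z ⊓
      ⨅ q : {q : A × A // q.1 ∈ Q ∧ q.2 ∈ Q}, LinearMap.ker (ev N 2 (mid (z q.1.1) (z q.1.2))) := by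
  refine (PK_Dbl N 2 P).inf (PK.iInf fun q => ?_)
  have hev : ∀ L : (A → Fin N → ℂ) →ₗ[ℂ] (Fin N → ℂ),
      PK fun z : A → Fin N → ℂ => LinearMap.ker (ev N 2 (L z)) := by
    intro L
    refine PK.one (φ := fun z : A → Fin N → ℂ => ev N 2 (L z)) fun f => ?_
    simp only [ev_apply]
    exact (LP_eval _).comp_linear L
  refine (hev ((1 / 2 : ℂ) • (pt q.1.1 + pt q.1.2))).congr fun z => ?_
  congr 2
  funext i
  change (1 / 2 : ℂ) * (z q.1.1 i + z q.1.2 i) = (z q.1.1 i + z q.1.2 i) / 2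
  ring

/-- a quadric which vanishes on the hyperplane and is double at the vertex outside is zero -/
theorem eq_zero_of_hp {n : ℕ} (f : MvPolynomial (Fin (n + 1)) ℂ) (hf : f.totalDegree ≤ 2)
    (h0 : eval (V (n + 1) 1) f = 0) (h1 : ∀ k, eval (V (n + 1) 1) (pderiv k f) = 0)
    (h2 : ∀ y : Fin n → ℂ, eval (hp y) f = 0) : f = 0 := by
  have hV : ∀ j : ℕ, j ≠ 1 → V (n + 1) j = hp fun k => V (n + 1) j k.succ := by
    intro j hj
    funext k
    refine Fin.cases ?_ (fun k => ?_) k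
    · simp [V, hj]
    · rfl
  have hz : ∀ j : ℕ, eval (V (n + 1) j) f = 0 := by
    intro j
    by_cases hj : j = 1
    · rw [hj]
      exact h0
    · rw [hV j hj]
      exact h2 _
  refine eq_zero_of_nodes f hf fun j k _ _ => ?_
  by_cases hj : j = 1
  · subst hj
    rw [eval_mid_of_double f hf _ _ h0 h1, hz, zero_div]
  · by_cases hk : k = 1
    · subst hk
      rw [mid_comm, eval_mid_of_double f hf _ _ h0 h1, hz, zero_div]
    · have e : mid (V (n + 1) j) (V (n + 1) k) =
          hp (mid (fun i => V (n + 1) j i.succ) fun i => V (n + 1) k i.succ) := by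
        rw [hV j hj, hV k hk]
        funext i
        refine Fin.cases ?_ (fun i => ?_) i
        · simp [mid]
        · rfl
      rw [e]
      exact h2 _

end UKHaux

open _root_.Pool.Agent.WarC.UKHaux UKaux in
theorem x_UKH : S_UKH := by
  classical
  intro n I Y _ _ P Q hPQ hcard _ hi
  obtain ⟨i₀, hi₀⟩ := hi
  set R : Finset (I ⊕ Y) := P ∪ Q with hR
  have hRc : R.card = P.card + Q.card := Finset.card_union_of_disjoint hPQ
  have hq₀ : (Sum.inl i₀ : I ⊕ Y) ∈ R := Finset.mem_union_left _ hi₀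
  obtain ⟨σ, hσ, hσ₀⟩ := exists_vert R n (by omega) _ hq₀
  have hPR : ∀ q ∈ P, q ∈ R := fun q hq => Finset.mem_union_left _ hq
  have hQR : ∀ q ∈ Q, q ∈ R := fun q hq => Finset.mem_union_right _ hq
  set P' := P.image σ with hP'
  set Q' := Q.image σ with hQ'
  have hcP : P'.card = P.card := Finset.card_image_of_injOn fun a ha b hb => hσ (hPR a ha) (hPR b hb)
  have hcQ : Q'.card = Q.card := Finset.card_image_of_injOn fun a ha b hb => hσ (hQR a ha) (hQR b hb)
  have hd' : Disjoint P' Q' := by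
    rw [Finset.disjoint_left]
    intro j hj hj'
    obtain ⟨a, ha, rfl⟩ := Finset.mem_image.1 hj
    obtain ⟨b, hb, hab⟩ := Finset.mem_image.1 hj'
    have h1 := hσ (hQR b hb) (hPR a ha) hab
    subst h1
    exact Finset.disjoint_left.1 hPQ ha hb
  have hW := finrank_W0 hd'
  rw [hcP, hcQ] at hW
  -- the other points off the hyperplane
  set k1 := Fintype.card {i : I // (Sum.inl i : I ⊕ Y) ∉ R} with hk1
  set k2 := Fintype.card {y : Y // (Sum.inr y : I ⊕ Y) ∉ R} with hk2
  obtain ⟨s1, hs1⟩ := red (fun z : Fin (n + 1) → ℂ => ev (n + 1) 2 z) (W0 (n + 1) P' Q') ⊥ (by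
      intro f hf hf0
      by_contra hcon
      push Not at hcon
      apply hf0
      rw [Submodule.mem_bot]
      apply Subtype.ext
      refine MvPolynomial.funext fun z => ?_
      have := hcon z
      rw [ev_apply] at this
      rw [this]
      simp) k1
  rw [finrank_bot] at hs1
  set W1 := W0 (n + 1) P' Q' ⊓ ⨅ i, LinearMap.ker (ev (n + 1) 2 (s1 i)) with hW1
  have h1P : (1 : Fin (n + 1 + 1)) ∈ P' := by
    rw [← hσ₀]
    exact Finset.mem_image_of_mem _ hi₀
  obtain ⟨s2, hs2⟩ := red (fun z : Fin n → ℂ => ev (n + 1) 2 (hp z)) W1 ⊥ (by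
      intro f hf hf0
      by_contra hcon
      push Not at hcon
      apply hf0
      rw [Submodule.mem_bot]
      apply Subtype.ext
      obtain ⟨h1, h2, -⟩ := mem_W0.1 (Submodule.mem_inf.1 hf).1
      have e1 : ((1 : Fin (n + 1 + 1)) : ℕ) = 1 := rfl
      have h3 := h1 1 h1P
      have h4 := h2 1 h1P
      rw [e1] at h3 h4
      refine eq_zero_of_hp _ (mem_Pol.1 f.2) h3 h4 fun y => ?_
      have := hcon y
      rwa [ev_apply] at this) k2
  rw [finrank_bot] at hs2
  -- the configuration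
  let e1 := Fintype.equivFin {i : I // (Sum.inl i : I ⊕ Y) ∉ R}
  let e2 := Fintype.equivFin {y : Y // (Sum.inr y : I ⊕ Y) ∉ R}
  let x1 : I → Fin (n + 1) → ℂ := fun i =>
    if h : (Sum.inl i : I ⊕ Y) ∉ R then s1 (e1 ⟨i, h⟩) else V (n + 1) (σ (Sum.inl i))
  let x2 : Y → Fin n → ℂ := fun y =>
    if h : (Sum.inr y : I ⊕ Y) ∉ R then s2 (e2 ⟨y, h⟩) else
      fun k => V (n + 1) (σ (Sum.inr y)) k.succ
  have hx : ∀ q ∈ R, jn x1 x2 q = V (n + 1) (σ q) := by
    intro q hq
    rcases q with i | y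
    · change x1 i = _
      simp only [x1]
      rw [dif_neg (not_not.2 hq)]
    · change hp (x2 y) = _
      simp only [x2]
      rw [dif_neg (not_not.2 hq)]
      have hne : σ (Sum.inr y) ≠ 1 := by
        intro h
        have := hσ hq hq₀ (h.trans hσ₀.symm)
        exact absurd this (by simp)
      have hne' : ((σ (Sum.inr y) : Fin (n + 1 + 1)) : ℕ) ≠ 1 := fun h => hne (Fin.ext h)
      funext k
      refine Fin.cases ?_ (fun k => ?_) k
      · simp [V, hne']
      · rfl
  have hle : Dbl (n + 1) 2 P (jn x1 x2) ⊓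
      (⨅ q : {q : (I ⊕ Y) × (I ⊕ Y) // q.1 ∈ Q ∧ q.2 ∈ Q},
        LinearMap.ker (ev (n + 1) 2 (mid (jn x1 x2 q.1.1) (jn x1 x2 q.1.2)))) ≤
      W1 ⊓ ⨅ i, LinearMap.ker (ev (n + 1) 2 (hp (s2 i))) := by
    intro f hf
    obtain ⟨hf1, hf2⟩ := Submodule.mem_inf.1 hf
    obtain ⟨g1, g2⟩ := mem_Dbl.1 hf1
    have g3 : ∀ a ∈ Q, ∀ b ∈ Q,
        eval (mid (jn x1 x2 a) (jn x1 x2 b)) (f : MvPolynomial (Fin (n + 1)) ℂ) = 0 := by
      intro a ha b hb
      have := (Submodule.mem_iInf _).1 hf2 ⟨(a, b), ha, hb⟩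
      rw [LinearMap.mem_ker, ev_apply] at this
      exact this
    refine Submodule.mem_inf.2 ⟨Submodule.mem_inf.2 ⟨mem_W0.2 ⟨?_, ?_, ?_⟩, ?_⟩, ?_⟩
    · intro j hj
      obtain ⟨a, ha, rfl⟩ := Finset.mem_image.1 hj
      rw [← hx a (hPR a ha)]
      exact g1 a
    · intro j hj k
      obtain ⟨a, ha, rfl⟩ := Finset.mem_image.1 hj
      rw [← hx a (hPR a ha)]
      exact g2 a ha k
    · intro j hj k hk
      obtain ⟨a, ha, rfl⟩ := Finset.mem_image.1 hj
      obtain ⟨b, hb, rfl⟩ := Finset.mem_image.1 hk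
      rw [← hx a (hQR a ha), ← hx b (hQR b hb)]
      exact g3 a ha b hb
    · refine (Submodule.mem_iInf _).2 fun i => ?_
      rw [LinearMap.mem_ker, ev_apply]
      have h5 := g1 (Sum.inl (e1.symm i).1)
      have h6 : jn x1 x2 (Sum.inl (e1.symm i).1) = s1 i := by
        change x1 (e1.symm i).1 = _
        simp only [x1]
        rw [dif_pos (e1.symm i).2]
        exact congrArg s1 (e1.apply_symm_apply i)
      rwa [h6] at h5
    · refine (Submodule.mem_iInf _).2 fun i => ?_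
      rw [LinearMap.mem_ker, ev_apply]
      have h5 := g1 (Sum.inr (e2.symm i).1)
      have h6 : jn x1 x2 (Sum.inr (e2.symm i).1) = hp (s2 i) := by
        change hp (x2 (e2.symm i).1) = _
        simp only [x2]
        rw [dif_pos (e2.symm i).2]
        exact congrArg (fun t => hp (s2 t)) (e2.apply_symm_apply i)
      rwa [h6] at h5
  have hfin := Submodule.finrank_mono hle
  have hbd := card_bd R
  rw [← hk1, ← hk2] at hbd
  have hfinal : finrank ℂ ↥(Dbl (n + 1) 2 P (jn x1 x2) ⊓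
      (⨅ q : {q : (I ⊕ Y) × (I ⊕ Y) // q.1 ∈ Q ∧ q.2 ∈ Q},
        LinearMap.ker (ev (n + 1) 2 (mid (jn x1 x2 q.1.1) (jn x1 x2 q.1.2))))) ≤
      NN (n + 1) 2 + P.card.choose 2 -
        ((n + 1) * P.card + (Fintype.card I + Fintype.card Y) + Q.card.choose 2) := by
    have e3 : (n + 1 + 1) * P.card = (n + 1) * P.card + P.card := by ring
    rw [e3] at hW
    have a1 := hs1
    have a2 := hs2
    rw [max_eq_left (Nat.zero_le _)] at a1 a2
    omega
  exact ((PK_sp (n + 1) P Q).comp (J I Y n)).gen_finrank (x₀ := (x1, x2)) hfinal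

end Pool.Agent.WarC


end

section

/-!
# Simultaneous Waring decompositions (MP_db021c_ag), cubics: the residual space (`S_RESC`)   (helper75)
-/

set_option autoImplicit false

open Module MvPolynomial
open Pool.Agent.War Pool.Agent.WarS Pool.Agent.WarQ

namespace Pool.Agent.WarC

namespace RESCaux

/-- a finite number of functionals lowers the dimension by at most their number -/
theorem finrank_le_add {V : Type} [AddCommGroup V] [Module ℂ V] [FiniteDimensional ℂ V] {Y : Type}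
    [Fintype Y] (φ : Y → V →ₗ[ℂ] ℂ) (W : Submodule ℂ V) :
    finrank ℂ W ≤ finrank ℂ ↥(W ⊓ ⨅ i, LinearMap.ker (φ i)) + Fintype.card Y := by
  have h1 := finrank_le_map_add_ker (LinearMap.pi φ) W
  have h2 : finrank ℂ (W.map (LinearMap.pi φ)) ≤ Fintype.card Y := by
    refine (Submodule.finrank_le _).trans ?_
    rw [Module.finrank_fintype_fun_eq_card]
  have h3 : LinearMap.ker (LinearMap.pi φ) = ⨅ i, LinearMap.ker (φ i) := LinearMap.ker_pi φ
  rw [h3] at h1
  omega

/-- degree one: a double point kills everything -/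
theorem lin_zero' {n : ℕ} {g : MvPolynomial (Fin n) ℂ} (hg : g.totalDegree ≤ 1)
    {z : Fin n → ℂ} (h0 : eval z g = 0) (h1 : ∀ k, eval z (pderiv k g) = 0) : g = 0 := by
  have h2 : g - C (eval 0 g) = 0 := by
    refine War5.QDaux.lin_zero (z := z) ?_ ?_ fun k => ?_
    · refine (totalDegree_sub _ _).trans (max_le hg ?_)
      simp
    · simp
    · rw [map_sub, pderiv_C, sub_zero]
      exact h1 k
  have h3 : g = C (eval 0 g) := sub_eq_zero.1 h2
  rw [h3, eval_C] at h0
  rw [h3, h0, C_0]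

variable {n s : ℕ} {I U Y : Type}

/-- the parameters -/
abbrev AX (n s : ℕ) (I Y : Type) : Type :=
  ((I → Fin (n + 1) → ℂ) × (I → Fin s → ℂ)) × ((Y → Fin n → ℂ) × (Y → Fin s → ℂ))

theorem LP_pt (i : Y) (f : MvPolynomial (Fin (n + 1)) ℂ) :
    LP (K := ℂ) (X := (Y → Fin n → ℂ) × (Y → Fin s → ℂ)) fun x => eval (hp (x.1 i)) f :=
  (((LP_eval f).comp_linear (hpL n)).comp_linear (pt i)).comp_linear
    (LinearMap.fst ℂ (Y → Fin n → ℂ) (Y → Fin s → ℂ))

theorem LP_vec (i : Y) (j : Fin s) :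
    LP (K := ℂ) (X := (Y → Fin n → ℂ) × (Y → Fin s → ℂ)) fun x => x.2 i j :=
  LP.linear ((LinearMap.proj j : (Fin s → ℂ) →ₗ[ℂ] ℂ).comp
    ((LinearMap.proj i : (Y → Fin s → ℂ) →ₗ[ℂ] (Fin s → ℂ)).comp
      (LinearMap.snd ℂ (Y → Fin n → ℂ) (Y → Fin s → ℂ))))

theorem PK_RV [Fintype I] [Fintype Y] :
    PK (K := ℂ) fun x : AX n s I Y => RV n x.1.1 x.1.2 x.2.1 x.2.2 := by
  refine PK.inf (PK.inf ?_ ?_) ?_
  · exact (PK_FK (n + 1) 2 (s := s) (I := I)).comp
      (LinearMap.fst ℂ ((I → Fin (n + 1) → ℂ) × (I → Fin s → ℂ))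
        ((Y → Fin n → ℂ) × (Y → Fin s → ℂ)))
  · refine PK.iInf fun q => PK.one (φ := fun x : AX n s I Y => (ev (n + 1) 2 (hp (x.2.1 q.1))).comp
      (LinearMap.proj q.2 : (Fin s → Pol (n + 1) 2) →ₗ[ℂ] Pol (n + 1) 2)) fun g => ?_
    simp only [LinearMap.comp_apply, LinearMap.proj_apply, ev_apply]
    exact (LP_pt (s := s) q.1 _).comp_linear
      (LinearMap.snd ℂ ((I → Fin (n + 1) → ℂ) × (I → Fin s → ℂ))
        ((Y → Fin n → ℂ) × (Y → Fin s → ℂ)))
  · refine PK.iInf fun q => PK.one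
      (φ := fun x : AX n s I Y => gr (n + 1) 2 q.2.succ (hp (x.2.1 q.1)) (x.2.2 q.1)) fun g => ?_
    simp only [gr_apply]
    exact (LP.sum _ fun j _ => (LP_vec (n := n) q.1 j).mul (LP_pt (s := s) q.1 _)).comp_linear
      (LinearMap.snd ℂ ((I → Fin (n + 1) → ℂ) × (I → Fin s → ℂ))
        ((Y → Fin n → ℂ) × (Y → Fin s → ℂ)))

/-- the conditions missing for full points -/
theorem RV_inf_le [Fintype Y] (w : I → Fin (n + 1) → ℂ) (y : Y → Fin n → ℂ)
    (a : I ⊕ Y → Fin s → ℂ) :
    (RV n w (fun i => a (Sum.inl i)) y (fun i => a (Sum.inr i)) ⊓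
      ⨅ i, LinearMap.ker (gr (n + 1) 2 0 (hp (y i)) (a (Sum.inr i)))) ≤
    FK (n + 1) 2 (jn w y) a := by
  rintro g ⟨h1, h2⟩
  obtain ⟨h3, h4, h5⟩ := mem_RV.1 h1
  obtain ⟨h6, h7⟩ := mem_FK.1 h3
  refine mem_FK.2 ⟨?_, ?_⟩
  · rintro (i | i) j
    · exact h6 i j
    · exact h4 i j
  · rintro (i | i) k
    · exact h7 i k
    · refine Fin.cases ?_ (fun k => ?_) k
      · have h8 := (Submodule.mem_iInf _).1 h2 i
        rw [LinearMap.mem_ker, gr_apply] at h8
        exact h8
      · exact h5 i k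

/-- multiplication by `x₀` on tuples -/
noncomputable def mX (n s : ℕ) : (Fin s → Pol (n + 1) 1) →ₗ[ℂ] (Fin s → Pol (n + 1) 2) :=
  LinearMap.pi fun j => (mulX n 1).comp (LinearMap.proj j)

theorem mX_apply (l : Fin s → Pol (n + 1) 1) (j : Fin s) :
    ((mX n s l j : Pol (n + 1) 2) : MvPolynomial (Fin (n + 1)) ℂ) =
      X 0 * (l j : MvPolynomial (Fin (n + 1)) ℂ) := rfl

theorem gen_nd [Fintype I] [Fintype Y] (hs : 1 ≤ s) (hI : s ≤ Fintype.card I) :
    Gen ℂ fun x : AX n s I Y => (RV n x.1.1 x.1.2 x.2.1 x.2.2).comap (mX n s) = ⊥ := by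
  classical
  obtain ⟨κ, hκ⟩ : ∃ κ : I → Fin s, Function.Surjective κ := by
    have : Nonempty (Fin s ↪ I) :=
      Function.Embedding.nonempty_of_card_le (by rw [Fintype.card_fin]; exact hI)
    obtain ⟨e⟩ := this
    have : Nonempty (Fin s) := ⟨⟨0, hs⟩⟩
    exact ⟨Function.invFun e, Function.invFun_surjective e.injective⟩
  refine (PK_RV.comap (mX n s)).gen_bot
    (x₀ := ((fun _ => Pi.single 0 1, fun i => Pi.single (κ i) 1), (0, 0))) ?_
  rw [eq_bot_iff]
  intro l hl
  rw [Submodule.mem_comap] at hl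
  change mX n s l ∈ RV n (fun _ : I => (Pi.single 0 1 : Fin (n + 1) → ℂ))
    (fun i => (Pi.single (κ i) 1 : Fin s → ℂ)) 0 0 at hl
  obtain ⟨h1, -, -⟩ := mem_RV.1 hl
  obtain ⟨h2, h3⟩ := mem_FK.1 h1
  rw [Submodule.mem_bot]
  funext j
  obtain ⟨i, rfl⟩ := hκ j
  apply Subtype.ext
  have e0 : eval (Pi.single 0 1 : Fin (n + 1) → ℂ)
      (l (κ i) : MvPolynomial (Fin (n + 1)) ℂ) = 0 := by
    have h := h2 i (κ i)
    rw [mX_apply, eval_X_mulC1, Pi.single_eq_same, one_mul] at h
    exact h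
  refine lin_zero' (z := Pi.single 0 1) (mem_Pol.1 (l (κ i)).2) e0 fun k => ?_
  have h := h3 i k
  simp only [mX_apply, eval_pderiv_X_mulC1] at h
  rw [Finset.sum_eq_single (κ i)] at h
  · rw [Pi.single_eq_same, one_mul, e0, mul_zero, add_zero, Pi.single_eq_same, one_mul] at h
    exact h
  · intro j _ hj
    rw [Pi.single_eq_of_ne hj, zero_mul]
  · intro hj
    exact absurd (Finset.mem_univ _) hj

theorem PK_RS [Fintype I] [Fintype U] [Fintype Y] :
    PK (K := ℂ) fun x : ((I → Fin (n + 1) → ℂ) × (I → Fin s → ℂ)) ×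
      ((U → Fin n → ℂ) × (U → Fin s → ℂ)) × ((Y → Fin n → ℂ) × (Y → Fin s → ℂ)) =>
      RS n x.1.1 x.1.2 x.2.1.1 x.2.1.2 x.2.2.1 x.2.2.2 := by
  refine PK.inf ?_ ?_
  · let L : ((I → Fin (n + 1) → ℂ) × (I → Fin s → ℂ)) ×
        ((U → Fin n → ℂ) × (U → Fin s → ℂ)) × ((Y → Fin n → ℂ) × (Y → Fin s → ℂ)) →ₗ[ℂ]
        AX n s I Y := LinearMap.prodMap LinearMap.id (LinearMap.snd ℂ _ _)
    exact PK_RV.comp L
  · refine PK.iInf fun i => PK.one
      (φ := fun x : ((I → Fin (n + 1) → ℂ) × (I → Fin s → ℂ)) ×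
        ((U → Fin n → ℂ) × (U → Fin s → ℂ)) × ((Y → Fin n → ℂ) × (Y → Fin s → ℂ)) =>
        om (n + 1) 2 (hp (x.2.1.1 i)) (x.2.1.2 i)) fun g => ?_
    simp only [om_apply]
    exact (LP.sum _ fun j _ => (LP_vec (n := n) i j).mul (LP_pt (s := s) i _)).comp_linear
      ((LinearMap.fst ℂ ((U → Fin n → ℂ) × (U → Fin s → ℂ))
        ((Y → Fin n → ℂ) × (Y → Fin s → ℂ))).comp
        (LinearMap.snd ℂ ((I → Fin (n + 1) → ℂ) × (I → Fin s → ℂ)) _))

end RESCaux

open _root_.Pool.Agent.WarC.RESCaux in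
theorem x_RESC : S_RESC := by
  classical
  intro n s B I U Y _ _ _ hs hI hx
  obtain ⟨z₀, y₀, a₀, h₀⟩ := hx
  have gA : Gen ℂ fun x : AX n s I Y =>
      finrank ℂ (RV n x.1.1 x.1.2 x.2.1 x.2.2) ≤ B + Fintype.card Y := by
    refine PK_RV.gen_finrank
      (x₀ := ((z₀, fun i => a₀ (Sum.inl i)), (y₀, fun i => a₀ (Sum.inr i)))) ?_
    refine (finrank_le_add
      (fun i : Y => gr (n + 1) 2 0 (hp (y₀ i)) (a₀ (Sum.inr i))) _).trans ?_
    exact Nat.add_le_add_right ((Submodule.finrank_mono (RV_inf_le z₀ y₀ a₀)).trans h₀) _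
  obtain ⟨x, hx1, hx2⟩ := (gA.and (gen_nd hs hI)).exists
  have hred : ∀ g ∈ RV n x.1.1 x.1.2 x.2.1 x.2.2,
      g ∉ (⊥ : Submodule ℂ (Fin s → Pol (n + 1) 2)) →
      ∃ p : (Fin n → ℂ) × (Fin s → ℂ), om (n + 1) 2 (hp p.1) p.2 g ≠ 0 := by
    intro g hg hg0
    by_contra hcon
    push Not at hcon
    apply hg0
    have t2 : ∀ j, ∃ l : Pol (n + 1) 1, g j = mulX n 1 l := fun j => by
      refine exists_mulXC1 (MvPolynomial.funext fun p => ?_)
      rw [map_zero]
      have h := hcon (p, Pi.single j 1)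
      rw [om_apply] at h
      simpa [Pi.single_apply, eval_hp] using h
    choose l hl using t2
    have e1 : mX n s l = g := by
      funext j
      exact (hl j).symm
    have e2 : l ∈ (RV n x.1.1 x.1.2 x.2.1 x.2.2).comap (mX n s) := by
      rw [Submodule.mem_comap, e1]
      exact hg
    rw [hx2, Submodule.mem_bot] at e2
    rw [Submodule.mem_bot, ← e1, e2, map_zero]
  obtain ⟨yy, hyy⟩ := red (fun p : (Fin n → ℂ) × (Fin s → ℂ) => om (n + 1) 2 (hp p.1) p.2)
    _ ⊥ hred (Fintype.card U)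
  rw [finrank_bot] at hyy
  refine PK_RS.gen_finrank (x₀ := (x.1, ((fun i => (yy (Fintype.equivFin U i)).1,
    fun i => (yy (Fintype.equivFin U i)).2), x.2))) ?_
  refine le_trans (Submodule.finrank_mono ?_) (hyy.trans ?_)
  · rintro g ⟨h1, h2⟩
    refine ⟨h1, (Submodule.mem_iInf _).2 fun i => ?_⟩
    have h3 := (Submodule.mem_iInf _).1 h2 ((Fintype.equivFin U).symm i)
    simp only [Equiv.apply_symm_apply] at h3
    exact h3
  · exact max_le (Nat.sub_le_sub_right hx1 _) (Nat.zero_le _)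

end Pool.Agent.WarC


end

section

/-!
# Simultaneous Waring decompositions (MP_db021c_ag), cubics: the exceptional cases (EXF)
-/

set_option autoImplicit false

open Module MvPolynomial
open Pool.Agent.War Pool.Agent.WarS Pool.Agent.WarQ

namespace Pool.Agent.WarC

namespace EXFaux

/-- `p` full and `q` simple points: the dimension can be at most `k` -/
def BD (n b p q k : ℕ) : Prop :=
  ∃ x : (Fin p ⊕ Fin q → Fin n → ℂ) × (Fin p → Fin b → ℂ), finrank ℂ (TrC1 n 3 x) ≤ k

theorem gg {n p : ℕ} (h : (n + 1) * (p + 1) ≤ NN n 3) : GG n 3 p := WarM.CUBIC n p (Or.inl h)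

/-- the numbers of full points -/
def r2 : Fin 2 → ℕ := fun k => if k = 0 then 1 else 0

theorem sum_r2 : ∑ k, r2 k = 1 := by decide

/-- a block of two forms which is killed -/
theorem blk {ν u e w : ℕ} (hν : 1 ≤ ν) (hG : GG ν 3 u) (h1 : NN ν 3 ≤ ν * u + 2 * u)
    (h2 : ν + 2 ≤ 1 + e) (h3 : 1 + e + w = NN (ν + 1) 2) (h4 : ν + 1 ≤ w)
    (h5 : 2 * w ≤ 2 * u + (ν + 1)) : BD (ν + 1) 2 (2 * u + 1) e 0 := by
  obtain ⟨x, hx⟩ := x_PERT x_UK (ν + 1) 2 e w r2 (Equiv.swap 0 1) (by omega) (by decide)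
    (fun k => by
      have h6 : r2 k + r2 (Equiv.swap 0 1 k) ≤ 1 := by
        revert k
        decide
      omega) (by rw [sum_r2]; exact h3)
    (fun k => by
      have h6 : (r2 k).choose 2 = 0 := by
        revert k
        decide
      have h7 : r2 (Equiv.swap 0 1 k) ≤ 1 := by
        revert k
        decide
      have h8 : (ν + 1) * r2 (Equiv.swap 0 1 k) ≤ (ν + 1) * 1 := Nat.mul_le_mul_left _ h7
      omega)
  rw [sum_r2, mul_one] at hx
  obtain ⟨z, a, y, hK⟩ := x_COR3 ν 2 u e 0 ((k : Fin 2) × Fin (r2 k)) hν hG (by omega)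
    (by rw [Fintype.card_sigma]; simp only [Fintype.card_fin, sum_r2]; exact h2)
    ⟨x, by omega⟩
  have c1 : Fintype.card (Fin (2 * u + 1)) =
      Fintype.card ((Fin 2 × Fin u) ⊕ ((k : Fin 2) × Fin (r2 k))) := by
    rw [Fintype.card_sum, Fintype.card_prod, Fintype.card_sigma]
    simp only [Fintype.card_fin, sum_r2]
  have c2 : Fintype.card (Fin e) = Fintype.card (Fin 0 ⊕ Fin e) := by
    rw [Fintype.card_sum]
    simp only [Fintype.card_fin, zero_add]
  have hK' := hK.reindexC1 (Fintype.equivOfCardEq c1) (Fintype.equivOfCardEq c2)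
  refine ⟨(Sum.elim (z ∘ Fintype.equivOfCardEq c1) (y ∘ Fintype.equivOfCardEq c2),
    a ∘ Fintype.equivOfCardEq c1), ?_⟩
  rw [Nat.le_zero, Submodule.finrank_eq_zero, Submodule.eq_bot_iff]
  intro f hf
  obtain ⟨k1, k2⟩ := mem_TrC1.1 hf
  have h6 := hK' (fun j => (f j : MvPolynomial (Fin (ν + 1)) ℂ)) (fun j => mem_Pol.1 (f j).2)
    (fun i j => k1 (Sum.inl i) j) (fun i k => k2 i k) (fun i j => k1 (Sum.inr i) j)
  funext j
  exact Subtype.ext (h6 j)

/-- one full point becomes a simple one -/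
theorem drop {n b p q k : ℕ} (h : BD n b (p + 1) q k) : BD n b p (q + 1) (k + n) := by
  obtain ⟨⟨z, a⟩, hx⟩ := h
  refine ⟨(Sum.elim (fun i => z (Sum.inl i.castSucc))
    (Fin.lastCases (z (Sum.inl (Fin.last p))) fun j => z (Sum.inr j)),
    fun i => a i.castSucc), ?_⟩
  set V' := TrC1 n 3 (γ := Fin b) ((Sum.elim (fun i => z (Sum.inl i.castSucc))
    (Fin.lastCases (z (Sum.inl (Fin.last p))) fun j => z (Sum.inr j)) :
      Fin p ⊕ Fin (q + 1) → Fin n → ℂ), fun i : Fin p => a i.castSucc) with hV'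
  let ρ : (Fin b → Pol n 3) →ₗ[ℂ] (Fin n → ℂ) :=
    LinearMap.pi fun k => gr n 3 k (z (Sum.inl (Fin.last p))) (a (Fin.last p))
  have h1 := finrank_le_map_add_ker ρ V'
  have h2 : finrank ℂ (V'.map ρ) ≤ n := by
    refine (Submodule.finrank_le _).trans (le_of_eq ?_)
    rw [Module.finrank_fintype_fun_eq_card, Fintype.card_fin]
  have h3 : V' ⊓ LinearMap.ker ρ ≤ TrC1 n 3 (z, a) := by
    rintro f ⟨hf1, hf2⟩
    rw [SetLike.mem_coe, hV', mem_TrC1] at hf1
    obtain ⟨k1, k2⟩ := hf1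
    rw [SetLike.mem_coe, LinearMap.mem_ker] at hf2
    rw [mem_TrC1]
    refine ⟨?_, ?_⟩
    · rintro (i | i) j
      · refine Fin.lastCases ?_ (fun i' => ?_) i
        · have := k1 (Sum.inr (Fin.last q)) j
          simpa using this
        · exact k1 (Sum.inl i') j
      · have := k1 (Sum.inr i.castSucc) j
        simpa using this
    · intro i k
      refine Fin.lastCases ?_ (fun i' => ?_) i
      · have := congrFun hf2 k
        change gr n 3 k (z (Sum.inl (Fin.last p))) (a (Fin.last p)) f = 0 at this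
        rw [gr_apply] at this
        exact this
      · exact k2 i' k
  have h4 := Submodule.finrank_mono h3
  omega

/-- two blocks of two forms -/
theorem asm2 {n p q k₁ k₂ : ℕ} (h₁ : BD n 2 p q k₁) (h₂ : BD n 2 q p k₂) :
    ∃ (z : Fin (p + q) → Fin n → ℂ) (a : Fin (p + q) → Fin 4 → ℂ),
      finrank ℂ (FK n 3 z a) ≤ k₁ + k₂ := by
  obtain ⟨x₁, hx₁⟩ := h₁
  obtain ⟨x₂, hx₂⟩ := h₂
  let L₁ : ((Fin p ⊕ Fin q → Fin n → ℂ) × ((Fin p → Fin 2 → ℂ) × (Fin q → Fin 2 → ℂ))) →ₗ[ℂ]
      ((Fin p ⊕ Fin q → Fin n → ℂ) × (Fin p → Fin 2 → ℂ)) :=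
    LinearMap.prodMap LinearMap.id (LinearMap.fst ℂ _ _)
  let S : (Fin p ⊕ Fin q → Fin n → ℂ) →ₗ[ℂ] (Fin q ⊕ Fin p → Fin n → ℂ) :=
    LinearMap.funLeft ℂ (Fin n → ℂ) Sum.swap
  let L₂ : ((Fin p ⊕ Fin q → Fin n → ℂ) × ((Fin p → Fin 2 → ℂ) × (Fin q → Fin 2 → ℂ))) →ₗ[ℂ]
      ((Fin q ⊕ Fin p → Fin n → ℂ) × (Fin q → Fin 2 → ℂ)) :=
    LinearMap.prodMap S (LinearMap.snd ℂ _ _)
  have hL₁ : Function.Surjective L₁ := by
    rintro ⟨z, a⟩
    exact ⟨(z, (a, 0)), rfl⟩
  have hL₂ : Function.Surjective L₂ := by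
    rintro ⟨z, a⟩
    refine ⟨(z ∘ Sum.swap, (0, a)), ?_⟩
    refine Prod.ext ?_ rfl
    funext i
    change (z ∘ Sum.swap) (Sum.swap i) = z i
    rw [Function.comp_apply, Sum.swap_swap]
  obtain ⟨⟨z, a₁, a₂⟩, g1, g2⟩ := (((PK_TrC1 n 3).gen_finrank (x₀ := x₁) hx₁).comp L₁ hL₁ |>.and
    (((PK_TrC1 n 3).gen_finrank (x₀ := x₂) hx₂).comp L₂ hL₂)).exists
  have g1' : finrank ℂ (TrC1 n 3 (z, a₁)) ≤ k₁ := g1
  have g2' : finrank ℂ (TrC1 n 3 ((z ∘ Sum.swap : Fin q ⊕ Fin p → Fin n → ℂ), a₂)) ≤ k₂ := g2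
  let aa : Fin p ⊕ Fin q → Fin (2 + 2) → ℂ :=
    Sum.elim (fun i => Fin.append (a₁ i) 0) (fun i => Fin.append 0 (a₂ i))
  refine ⟨fun i => z (finSumFinEquiv.symm i), fun i => aa (finSumFinEquiv.symm i), ?_⟩
  set V := FK n 3 (s := 4) (fun i : Fin (p + q) => z (finSumFinEquiv.symm i))
    (fun i => aa (finSumFinEquiv.symm i)) with hV
  have hv : ∀ f ∈ V, (∀ i j, eval (z i) (f j : MvPolynomial (Fin n) ℂ) = 0) ∧
      ∀ i k, ∑ j : Fin (2 + 2), aa i j * eval (z i) (pderiv k (f j : MvPolynomial (Fin n) ℂ)) = 0 := by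
    intro f hf
    rw [hV, mem_FK] at hf
    refine ⟨fun i j => ?_, fun i k => ?_⟩
    · have := hf.1 (finSumFinEquiv i) j
      simpa using this
    · have := hf.2 (finSumFinEquiv i) k
      simp only [Equiv.symm_apply_apply] at this
      exact this
  have m1 : ∀ f ∈ V, (fun j : Fin 2 => f (Fin.castAdd 2 j)) ∈ TrC1 n 3 (z, a₁) := by
    intro f hf
    obtain ⟨k1, k2⟩ := hv f hf
    rw [mem_TrC1]
    refine ⟨fun i j => k1 i _, fun i k => ?_⟩
    have := k2 (Sum.inl i) k
    have e1 : ∀ j : Fin 2, aa (Sum.inl i) (Fin.castAdd 2 j) = a₁ i j := fun j =>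
      Fin.append_left (a₁ i) 0 j
    have e2 : ∀ j : Fin 2, aa (Sum.inl i) (Fin.natAdd 2 j) = 0 := fun j =>
      Fin.append_right (a₁ i) 0 j
    rw [Fin.sum_univ_add] at this
    simp only [e1, e2, zero_mul, Finset.sum_const_zero, add_zero] at this
    exact this
  have m2 : ∀ f ∈ V, (fun j : Fin 2 => f (Fin.natAdd 2 j)) ∈
      TrC1 n 3 ((z ∘ Sum.swap : Fin q ⊕ Fin p → Fin n → ℂ), a₂) := by
    intro f hf
    obtain ⟨k1, k2⟩ := hv f hf
    rw [mem_TrC1]
    refine ⟨fun i j => k1 _ _, fun i k => ?_⟩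
    have := k2 (Sum.inr i) k
    have e1 : ∀ j : Fin 2, aa (Sum.inr i) (Fin.castAdd 2 j) = 0 := fun j =>
      Fin.append_left 0 (a₂ i) j
    have e2 : ∀ j : Fin 2, aa (Sum.inr i) (Fin.natAdd 2 j) = a₂ i j := fun j =>
      Fin.append_right 0 (a₂ i) j
    rw [Fin.sum_univ_add] at this
    simp only [e1, e2, zero_mul, Finset.sum_const_zero, zero_add] at this
    exact this
  let A : (Fin (2 + 2) → Pol n 3) →ₗ[ℂ] (Fin 2 → Pol n 3) :=
    LinearMap.funLeft ℂ (Pol n 3) (Fin.castAdd 2)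
  let B : (Fin (2 + 2) → Pol n 3) →ₗ[ℂ] (Fin 2 → Pol n 3) :=
    LinearMap.funLeft ℂ (Pol n 3) (Fin.natAdd 2)
  have n1 := finrank_le_map_add_ker A V
  have n2 := finrank_le_map_add_ker B (V ⊓ LinearMap.ker A)
  have n3 : V.map A ≤ TrC1 n 3 (z, a₁) := by
    rintro _ ⟨f, hf, rfl⟩
    exact m1 f hf
  have n4 : (V ⊓ LinearMap.ker A).map B ≤
      TrC1 n 3 ((z ∘ Sum.swap : Fin q ⊕ Fin p → Fin n → ℂ), a₂) := by
    rintro _ ⟨f, hf, rfl⟩
    exact m2 f hf.1
  have n5 : V ⊓ LinearMap.ker A ⊓ LinearMap.ker B = ⊥ := by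
    rw [Submodule.eq_bot_iff]
    rintro f ⟨⟨-, hfA⟩, hfB⟩
    have e1 : A f = 0 := hfA
    have e2 : B f = 0 := hfB
    funext j
    exact Fin.addCases (m := 2) (n := 2)
      (motive := fun j => (f : Fin (2 + 2) → Pol n 3) j = 0)
      (fun i => congrFun e1 i) (fun i => congrFun e2 i) j
  have n6 := Submodule.finrank_mono n3
  have n7 := Submodule.finrank_mono n4
  rw [n5, finrank_bot] at n2
  refine le_trans n1 ?_
  omega

theorem e4 : Full 4 4 17 := by
  have h := blk (ν := 3) (u := 4) (e := 8) (w := 6) (by norm_num) (gg (by decide)) (by decide)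
    (by norm_num) (by decide) (by norm_num) (by norm_num)
  obtain ⟨z, a, hz⟩ := asm2 h (drop h)
  refine ⟨z, a, hz.trans ?_⟩
  decide

theorem e6 : Full 6 4 34 := by
  have h := blk (ν := 5) (u := 8) (e := 17) (w := 10) (by norm_num) (gg (by decide)) (by decide)
    (by norm_num) (by decide) (by norm_num) (by norm_num)
  obtain ⟨z, a, hz⟩ := asm2 h h
  refine ⟨z, a, hz.trans ?_⟩
  decide

theorem e6' : Full 6 4 33 := by
  have h := blk (ν := 5) (u := 8) (e := 16) (w := 11) (by norm_num) (gg (by decide)) (by decide)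
    (by norm_num) (by decide) (by norm_num) (by norm_num)
  obtain ⟨z, a, hz⟩ := asm2 h (drop h)
  refine ⟨z, a, hz.trans ?_⟩
  decide

/-- the form for which a point is full -/
def cls (i : Fin 24) : Fin 4 := ⟨i.val % 4, Nat.mod_lt _ (by norm_num)⟩

theorem e5 : Full 5 4 24 := by
  have hP : ∀ j : Fin 4, (Finset.univ.filter fun i : Fin 24 => cls i = j).card = 6 := by decide
  obtain ⟨z, hz⟩ := (Gen.forall fun j : Fin 4 => SG 5 3 (Fin 24)
    (Finset.univ.filter fun i : Fin 24 => cls i = j) (by norm_num)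
    (by rw [hP]; exact gg (by decide))).exists
  refine ⟨z, fun i => Pi.single (cls i) 1, ?_⟩
  have h1 : FK 5 3 z (fun i => (Pi.single (cls i) 1 : Fin 4 → ℂ)) ≤
      Submodule.pi Set.univ fun j : Fin 4 =>
        Dbl 5 3 (Finset.univ.filter fun i : Fin 24 => cls i = j) z := by
    intro f hf
    rw [mem_FK] at hf
    rw [Submodule.mem_pi]
    intro j _
    refine mem_Dbl.2 ⟨fun i => hf.1 i j, fun i hi k => ?_⟩
    have := hf.2 i k
    rw [Finset.mem_filter] at hi
    simpa [Pi.single_apply, hi.2] using this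
  refine (Submodule.finrank_mono h1).trans ((finrank_pi_leC1 _).trans ?_)
  refine (Finset.sum_le_sum fun j _ => hz j).trans ?_
  simp only [hP, Fintype.card_fin, Finset.sum_const, Finset.card_univ]
  decide

end EXFaux

theorem x_EXF : S_EXF := ⟨EXFaux.e4, EXFaux.e5, EXFaux.e6', EXFaux.e6⟩

end Pool.Agent.WarC


end

section

/-!
# Simultaneous Waring decompositions (MP_db021c_ag): triples of binary cubics   (helper44)
-/

set_option autoImplicit false

open Module MvPolynomial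
open Pool.Agent.War Pool.Agent.WarS Pool.Agent.WarQ

namespace Pool.Agent.WarC

namespace AA13aux

/-- the polynomial in one variable -/
noncomputable def uni : MvPolynomial (Fin 1) ℂ →ₐ[ℂ] Polynomial ℂ :=
  aeval (fun _ : Fin 1 => (Polynomial.X : Polynomial ℂ))

theorem uni_eval (g : MvPolynomial (Fin 1) ℂ) (t : ℂ) :
    (uni g).eval t = eval (fun _ : Fin 1 => t) g := by
  induction g using MvPolynomial.induction_on with
  | C a => simp [uni]
  | add p q hp hq => simp [hp, hq]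
  | mul_X p k hp =>
    rw [map_mul, Polynomial.eval_mul, hp, map_mul]
    simp [uni]

theorem uni_derivative (g : MvPolynomial (Fin 1) ℂ) :
    Polynomial.derivative (uni g) = uni (pderiv 0 g) := by
  induction g using MvPolynomial.induction_on with
  | C a => simp [uni]
  | add p q hp hq => simp [hp, hq]
  | mul_X p k hp =>
    have hk : k = 0 := Subsingleton.elim _ _
    subst hk
    have hX : uni (X 0) = Polynomial.X := by simp [uni]
    rw [map_mul, Polynomial.derivative_mul, hp, hX, Polynomial.derivative_X, Derivation.leibniz]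
    simp only [pderiv_X_self, smul_eq_mul, mul_one, map_add, map_mul, hX]
    ring

theorem uni_natDegree {g : MvPolynomial (Fin 1) ℂ} (hg : g.totalDegree ≤ 3) :
    (uni g).natDegree ≤ 3 := by
  have := MvPolynomial.aeval_natDegree_le g hg (fun _ : Fin 1 => (Polynomial.X : Polynomial ℂ))
    (n := 1) (fun _ => Polynomial.natDegree_X_le)
  unfold uni
  simpa using this

/-- a cubic with three simple roots and one double root among them -/
theorem cubic_zero {p : Polynomial ℂ} (hp : p.natDegree ≤ 3) (h0 : p.eval 0 = 0)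
    (h1 : p.eval 1 = 0) (h2 : p.eval 2 = 0) {j : ℕ} (hj : j < 3)
    (h3 : (Polynomial.derivative p).eval (j : ℂ) = 0) : p = 0 := by
  have e := p.as_sum_range_C_mul_X_pow' (Nat.lt_succ_of_le hp)
  rw [Finset.sum_range_succ, Finset.sum_range_succ, Finset.sum_range_succ,
    Finset.sum_range_one] at e
  generalize p.coeff 0 = a at e
  generalize p.coeff 1 = b at e
  generalize p.coeff 2 = c at e
  generalize p.coeff 3 = d at e
  subst e
  simp only [Polynomial.eval_add, Polynomial.eval_mul, Polynomial.eval_C, Polynomial.eval_pow,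
    Polynomial.eval_X, Polynomial.derivative_add, Polynomial.derivative_mul,
    Polynomial.derivative_C, Polynomial.derivative_X_pow] at h0 h1 h2 h3
  norm_num at h0 h1 h2 h3
  have key : a = 0 ∧ b = 0 ∧ c = 0 ∧ d = 0 := by
    interval_cases j
    · norm_num at h3
      subst h0 h3
      have hd : d = 0 := by linear_combination (1 / 4) * h2 - h1
      have hc : c = 0 := by linear_combination h1 - hd
      exact ⟨rfl, rfl, hc, hd⟩
    · norm_num at h3
      subst h0
      have hd : d = 0 := by linear_combination (1 / 2) * h2 - h3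
      have hc : c = 0 := by linear_combination h3 - h1 - 2 * hd
      have hb : b = 0 := by linear_combination h1 - hc - hd
      exact ⟨rfl, hb, hc, hd⟩
    · norm_num at h3
      subst h0
      have hd : d = 0 := by linear_combination (1 / 2) * h3 + h1 - (3 / 4) * h2
      have hc : c = 0 := by linear_combination (1 / 2) * h2 - h1 - 3 * hd
      have hb : b = 0 := by linear_combination h1 - hc - hd
      exact ⟨rfl, hb, hc, hd⟩
  obtain ⟨rfl, rfl, rfl, rfl⟩ := key
  simp

theorem cubic_zero_mv {g : MvPolynomial (Fin 1) ℂ} (hg : g.totalDegree ≤ 3)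
    (h : ∀ i : ℕ, i < 3 → eval (fun _ : Fin 1 => (i : ℂ)) g = 0) {j : ℕ} (hj : j < 3)
    (h3 : eval (fun _ : Fin 1 => (j : ℂ)) (pderiv 0 g) = 0) : g = 0 := by
  have h0 : uni g = 0 := by
    refine cubic_zero (uni_natDegree hg) ?_ ?_ ?_ hj ?_
    · rw [uni_eval]; simpa using h 0 (by norm_num)
    · rw [uni_eval]; simpa using h 1 (by norm_num)
    · rw [uni_eval]; simpa using h 2 (by norm_num)
    · rw [uni_derivative, uni_eval]; exact h3
  refine MvPolynomial.funext fun x => ?_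
  have hx : x = fun _ => x 0 := by
    funext i
    rw [Subsingleton.elim i 0]
  rw [hx, ← uni_eval, h0]
  simp

/-- the points `0, 1, 2, ..` -/
def pt (i : ℕ) : Fin 1 → ℂ := fun _ => (i : ℂ)

/-- the vectors `e_0, e_1, e_2, 0, ..` -/
def vt (i : ℕ) : Fin 3 → ℂ := fun j => if i = (j : ℕ) then 1 else 0

/-- the conditions of the points `h, h+1, ..` -/
noncomputable def rho (h m : ℕ) :
    (Fin 3 → Pol 1 3) →ₗ[ℂ] (Fin m × (Fin 3 ⊕ Fin 1) → ℂ) :=
  LinearMap.pi fun q => Sum.elim
    (fun j : Fin 3 => (ev 1 3 (pt (h + q.1))).comp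
      (LinearMap.proj j : (Fin 3 → Pol 1 3) →ₗ[ℂ] Pol 1 3))
    (fun k : Fin 1 => gr 1 3 k (pt (h + q.1)) (vt (h + q.1))) q.2

theorem inf_ker (h m : ℕ) (hm : 3 ≤ h + m) :
    FK 1 3 (fun i : Fin h => pt i) (fun i : Fin h => vt i) ⊓ LinearMap.ker (rho h m) = ⊥ := by
  rw [eq_bot_iff]
  rintro f ⟨h1, h2⟩
  obtain ⟨h1, h1'⟩ := mem_FK.1 h1
  have h2 : rho h m f = 0 := h2
  have key : ∀ i : ℕ, i < 3 → (∀ j, eval (pt i) (f j : MvPolynomial (Fin 1) ℂ) = 0) ∧
      ∀ k, ∑ j, vt i j * eval (pt i) (pderiv k (f j : MvPolynomial (Fin 1) ℂ)) = 0 := by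
    intro i hi
    by_cases hih : i < h
    · exact ⟨fun j => h1 ⟨i, hih⟩ j, fun k => h1' ⟨i, hih⟩ k⟩
    · have hr : i - h < m := by omega
      have e : h + (i - h) = i := by omega
      constructor
      · intro j
        have := congrFun h2 (⟨i - h, hr⟩, Sum.inl j)
        simp only [rho, LinearMap.pi_apply, Sum.elim_inl, LinearMap.comp_apply,
          LinearMap.proj_apply, ev_apply, Pi.zero_apply, e] at this
        exact this
      · intro k
        have := congrFun h2 (⟨i - h, hr⟩, Sum.inr k)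
        simp only [rho, LinearMap.pi_apply, Sum.elim_inr, gr_apply, Pi.zero_apply, e] at this
        exact this
  rw [Submodule.mem_bot]
  funext j
  apply Subtype.ext
  refine cubic_zero_mv (mem_Pol.1 (f j).2) (fun i hi => (key i hi).1 j) j.2 ?_
  have h3 := (key j j.2).2 0
  rw [Finset.sum_eq_single j] at h3
  · simp only [vt, if_true, one_mul] at h3
    exact h3
  · intro j' _ hj'
    have : (j : ℕ) ≠ (j' : ℕ) := fun he => hj' (Fin.ext he.symm)
    simp [vt, this]
  · intro hj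
    exact absurd (Finset.mem_univ j) hj

end AA13aux

open _root_.Pool.Agent.WarC.AA13aux

theorem x_AA13 : S_AA13 := by
  intro h
  refine ⟨fun i => pt i, fun i => vt i, ?_⟩
  have h1 := finrank_le_map_add_ker (rho h (3 - h))
    (FK 1 3 (fun i : Fin h => pt i) (fun i : Fin h => vt i))
  rw [inf_ker h (3 - h) (by omega), finrank_bot, add_zero] at h1
  have h2 : finrank ℂ ((FK 1 3 (fun i : Fin h => pt i) (fun i : Fin h => vt i)).map
      (rho h (3 - h))) ≤ (3 - h) * 4 := by
    refine (Submodule.finrank_le _).trans ?_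
    rw [Module.finrank_fintype_fun_eq_card, Fintype.card_prod, Fintype.card_sum, Fintype.card_fin,
      Fintype.card_fin, Fintype.card_fin]
  rw [NN_one]
  omega

end Pool.Agent.WarC


end

section

/-!
# Simultaneous Waring decompositions (MP_db021c_ag), cubics: the residual space for a linear family of
near points and vectors (`S_RESCL`)   (helper23, after `RESC.lean` of helper75)
-/

set_option autoImplicit false

open Module MvPolynomial
open Pool.Agent.War Pool.Agent.WarS Pool.Agent.WarQ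

namespace Pool.Agent.WarC

namespace RESCLaux

open RESCaux

variable {n s : ℕ} {I U Y : Type}

theorem nd_at (κ : I → Fin s) (hκ : Function.Surjective κ) (y : Y → Fin n → ℂ)
    (α : Y → Fin s → ℂ) :
    (RV n (fun _ : I => (Pi.single 0 1 : Fin (n + 1) → ℂ))
      (fun i => (Pi.single (κ i) 1 : Fin s → ℂ)) y α).comap (mX n s) = ⊥ := by
  rw [eq_bot_iff]
  intro l hl
  rw [Submodule.mem_comap] at hl
  obtain ⟨h1, -, -⟩ := mem_RV.1 hl
  obtain ⟨h2, h3⟩ := mem_FK.1 h1
  rw [Submodule.mem_bot]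
  funext j
  obtain ⟨i, rfl⟩ := hκ j
  apply Subtype.ext
  have e0 : eval (Pi.single 0 1 : Fin (n + 1) → ℂ)
      (l (κ i) : MvPolynomial (Fin (n + 1)) ℂ) = 0 := by
    have h := h2 i (κ i)
    rw [mX_apply, eval_X_mulC1, Pi.single_eq_same, one_mul] at h
    exact h
  refine lin_zero' (z := Pi.single 0 1) (mem_Pol.1 (l (κ i)).2) e0 fun k => ?_
  have h := h3 i k
  simp only [mX_apply, eval_pderiv_X_mulC1] at h
  rw [Finset.sum_eq_single (κ i)] at h
  · rw [Pi.single_eq_same, one_mul, e0, mul_zero, add_zero, Pi.single_eq_same, one_mul] at h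
    exact h
  · intro j _ hj
    rw [Pi.single_eq_of_ne hj, zero_mul]
  · intro hj
    exact absurd (Finset.mem_univ _) hj

end RESCLaux

open RESCaux _root_.Pool.Agent.WarC.RESCLaux in
theorem x_RESCL : S_RESCL := by
  classical
  intro n s B I U Y _ _ _ X _ _ L hs hI hx
  obtain ⟨z₀, b₀, x₀, h₀⟩ := hx
  have pA : PK (K := ℂ) fun x : ((I → Fin (n + 1) → ℂ) × (I → Fin s → ℂ)) × X =>
      RV n x.1.1 x.1.2 (L x.2).1 (L x.2).2 := PK_RV.comp (LinearMap.prodMap LinearMap.id L)
  have gA : Gen ℂ fun x : ((I → Fin (n + 1) → ℂ) × (I → Fin s → ℂ)) × X =>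
      finrank ℂ (RV n x.1.1 x.1.2 (L x.2).1 (L x.2).2) ≤ B + Fintype.card Y := by
    refine pA.gen_finrank (x₀ := ((z₀, b₀), x₀)) ?_
    refine (finrank_le_add
      (fun i : Y => gr (n + 1) 2 0 (hp ((L x₀).1 i)) ((L x₀).2 i)) _).trans ?_
    exact Nat.add_le_add_right ((Submodule.finrank_mono
      (RV_inf_le z₀ (L x₀).1 (Sum.elim b₀ (L x₀).2))).trans h₀) _
  have gN : Gen ℂ fun x : ((I → Fin (n + 1) → ℂ) × (I → Fin s → ℂ)) × X =>
      (RV n x.1.1 x.1.2 (L x.2).1 (L x.2).2).comap (mX n s) = ⊥ := by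
    obtain ⟨κ, hκ⟩ : ∃ κ : I → Fin s, Function.Surjective κ := by
      have : Nonempty (Fin s ↪ I) :=
        Function.Embedding.nonempty_of_card_le (by rw [Fintype.card_fin]; exact hI)
      obtain ⟨e⟩ := this
      have : Nonempty (Fin s) := ⟨⟨0, hs⟩⟩
      exact ⟨Function.invFun e, Function.invFun_surjective e.injective⟩
    exact (pA.comap (mX n s)).gen_bot
      (x₀ := ((fun _ => Pi.single 0 1, fun i => Pi.single (κ i) 1), 0))
      (nd_at κ hκ (L 0).1 (L 0).2)
  obtain ⟨x, hx1, hx2⟩ := (gA.and gN).exists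
  have hred : ∀ g ∈ RV n x.1.1 x.1.2 (L x.2).1 (L x.2).2,
      g ∉ (⊥ : Submodule ℂ (Fin s → Pol (n + 1) 2)) →
      ∃ p : (Fin n → ℂ) × (Fin s → ℂ), om (n + 1) 2 (hp p.1) p.2 g ≠ 0 := by
    intro g hg hg0
    by_contra hcon
    push Not at hcon
    apply hg0
    have t2 : ∀ j, ∃ l : Pol (n + 1) 1, g j = mulX n 1 l := fun j => by
      refine exists_mulXC1 (MvPolynomial.funext fun p => ?_)
      rw [map_zero]
      have h := hcon (p, Pi.single j 1)
      rw [om_apply] at h
      simpa [Pi.single_apply, eval_hp] using h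
    choose l hl using t2
    have e1 : mX n s l = g := by
      funext j
      exact (hl j).symm
    have e2 : l ∈ (RV n x.1.1 x.1.2 (L x.2).1 (L x.2).2).comap (mX n s) := by
      rw [Submodule.mem_comap, e1]
      exact hg
    rw [hx2, Submodule.mem_bot] at e2
    rw [Submodule.mem_bot, ← e1, e2, map_zero]
  obtain ⟨yy, hyy⟩ := red (fun p : (Fin n → ℂ) × (Fin s → ℂ) => om (n + 1) 2 (hp p.1) p.2)
    _ ⊥ hred (Fintype.card U)
  rw [finrank_bot] at hyy
  have pS : PK (K := ℂ) fun x : ((I → Fin (n + 1) → ℂ) × (I → Fin s → ℂ)) ×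
      ((U → Fin n → ℂ) × (U → Fin s → ℂ)) × X =>
      RS n x.1.1 x.1.2 x.2.1.1 x.2.1.2 (L x.2.2).1 (L x.2.2).2 :=
    PK_RS.comp (LinearMap.prodMap LinearMap.id (LinearMap.prodMap LinearMap.id L))
  refine pS.gen_finrank (x₀ := (x.1, ((fun i => (yy (Fintype.equivFin U i)).1,
    fun i => (yy (Fintype.equivFin U i)).2), x.2))) ?_
  refine le_trans (Submodule.finrank_mono ?_) (hyy.trans ?_)
  · rintro g ⟨h1, h2⟩
    refine ⟨h1, (Submodule.mem_iInf _).2 fun i => ?_⟩
    have h3 := (Submodule.mem_iInf _).1 h2 ((Fintype.equivFin U).symm i)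
    simp only [Equiv.apply_symm_apply] at h3
    exact h3
  · exact max_le (Nat.sub_le_sub_right hx1 _) (Nat.zero_le _)

end Pool.Agent.WarC


end

section

/-!
# Simultaneous Waring decompositions (MP_db021c_ag): degree 3, complete   (helper25)

Modules by helper7, 18, 21, 23, 26, 33, 37, 41, 42, 44, 45, 46, 49, 50, 51, 55, 59, 63, 67, 69, 71,
74, 75, 76, 79, 80, 83, 85, 91, 94, 96, 97 and others.
-/

set_option autoImplicit false

open Module MvPolynomial
open Pool.Agent.War Pool.Agent.WarS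

namespace Pool.Agent.WarC

theorem f_BASE : S_BASE := x_BASE (x_BLKM x_NUMB (x_PERT x_UK) x_COR3) (x_TOPC f_BLKC) x_AAH

/-- at least three cubic forms: the dimension is the expected one for every number of points -/
theorem AA_all {n s : ℕ} (hs : 3 ≤ s) (hsn : s ≤ n + 1) : AA n s :=
  AA_few x_TRC x_RESC x_DHC x_ARR (x_PERTH x_UKH) x_AAH x_NUMFa x_NUMFb x_NUMFc x_EXF x_AA13
    f_BASE hs n hsn

theorem W_few3 (n s h : ℕ) (hs : 3 ≤ s) (hsn : s ≤ n) :
    Waring.W 3 h n s ↔ min s ((n + 3).choose n) ≤ h ∧ s * (n + 3).choose n ≤ h * (n + s) := by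
  refine ⟨fun H => ⟨H.bound2, H.bound1 (by omega)⟩, fun H => ?_⟩
  exact W_of_Full (AA_all hs (by omega) h) (by rw [Nat.mul_comm (n + s)]; exact H.2)

theorem W_two3 (n h : ℕ) (hn : 3 ≤ n) :
    Waring.W 3 h n 2 ↔ min 2 ((n + 3).choose n) ≤ h ∧ 2 * (n + 3).choose n ≤ h * (n + 2) := by
  refine ⟨fun H => ⟨H.bound2, H.bound1 (by omega)⟩, fun H => ?_⟩
  obtain ⟨h₀, h1, h2, h3⟩ := two_all x_TRC x_RESC x_DHC x_ARR (x_PERTH x_UKH) (x_TRC2 x_LIN3)
    x_RESCL x_DHC2 (x_PERTH2 x_UKH) hn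
  refine (W_of_Full h1 h2).mono ?_
  have h4 := H.2
  change 2 * NN n 3 ≤ h * (n + 2) at h4
  have h5 : (n + 2) * h₀ < (n + 2) * (h + 1) := by
    rw [Nat.mul_add, Nat.mul_comm (n + 2) h]
    omega
  exact Nat.lt_succ_iff.1 (Nat.lt_of_mul_lt_mul_left h5)

theorem W_3_6_2_2 : Waring.W 3 6 2 2 := by
  have hG : GG 2 3 3 := WarM.CUBIC 2 3 (Or.inr ⟨by norm_num, by decide⟩)
  exact W_of_Full (h := 6) (Full.pure (s := 2) (by norm_num) hG) (by decide)

/-- **Degree 3.** -/
theorem W_cubic (n s h : ℕ) (hn : 2 ≤ n) (hs : 2 ≤ s) :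
    Waring.W 3 h n s ↔ (min s ((n + 3).choose n) ≤ h ∧ s * (n + 3).choose n ≤ h * (n + s)) ∧
      ¬ (n = 2 ∧ s = 2 ∧ h = 5) := by
  by_cases h22 : n = 2 ∧ s = 2
  · obtain ⟨rfl, rfl⟩ := h22
    constructor
    · intro H
      refine ⟨⟨H.bound2, H.bound1 (by omega)⟩, ?_⟩
      rintro ⟨-, -, rfl⟩
      exact WarN.not_W_3522 H
    · rintro ⟨⟨-, h2⟩, h3⟩
      have e : (2 + 3).choose 2 = 10 := by decide
      rw [e] at h2
      exact W_3_6_2_2.mono (by omega)
  · have key : Waring.W 3 h n s ↔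
        min s ((n + 3).choose n) ≤ h ∧ s * (n + 3).choose n ≤ h * (n + s) := by
      rcases Nat.lt_or_ge n s with h1 | h1
      · rcases Nat.lt_or_ge n 3 with h2 | h2
        · have hn2 : n = 2 := by omega
          subst hn2
          have := Waring.ternary 3 h s (by omega) (by omega)
          rw [Nat.add_comm 3 2, Nat.add_comm s 2] at this
          exact this
        · exact W_many3 n s h h2 h1
      · rcases Nat.lt_or_ge s 3 with h2 | h2
        · have hs2 : s = 2 := by omega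
          subst hs2
          exact W_two3 n h (by omega)
        · exact W_few3 n s h h2 h1
    rw [key]
    refine ⟨fun H => ⟨H, fun h3 => h22 ⟨h3.1, h3.2.1⟩⟩, fun H => H.1⟩

end Pool.Agent.WarC


end

section

/-!
# Simultaneous Waring decompositions, few forms, all degrees (MP_db021c_ag): the induction (AG)
-/

set_option autoImplicit false

open Module MvPolynomial
open Pool.Agent.War Pool.Agent.WarS

namespace Pool.Agent.War5

namespace AGaux

theorem NN_ratio' (n d : ℕ) : NN n d * (n + d + 1) = NN n (d + 1) * (d + 1) := by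
  have h := Nat.choose_mul_succ_eq (n + d) n
  have h1 : n + d + 1 - n = d + 1 := by omega
  rw [h1] at h
  exact h

theorem NN_le (n d : ℕ) : NN n (d + 1) ≤ (n + 1) * NN n d := by
  have h := NN_ratio' n d
  have h1 : NN n (d + 1) * (d + 1) ≤ (n + 1) * NN n d * (d + 1) := by
    rw [← h]
    have h2 : n + d + 1 ≤ (n + 1) * (d + 1) := by nlinarith
    calc NN n d * (n + d + 1) ≤ NN n d * ((n + 1) * (d + 1)) := Nat.mul_le_mul_left _ h2
      _ = _ := by ring
  exact Nat.le_of_mul_le_mul_right h1 (Nat.succ_pos d)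

theorem sn (h3 : S_SN3) (h4 : S_SN4) (h5 : S_SN5) (h6 : S_SN6) (h7 : S_SN7) (n d : ℕ)
    (hn : 1 ≤ n) (hd : 3 ≤ d) : SN n d := by
  rcases Nat.lt_or_ge d 6 with h | h
  · obtain rfl | rfl | rfl : d = 3 ∨ d = 4 ∨ d = 5 := by omega
    · exact h3 n hn
    · exact h4 n hn
    · exact h5 n hn
  · rcases Nat.lt_or_ge n 3 with h' | h'
    · exact h7 n d hn (by omega) h
    · exact h6 n d h' h

theorem AQU (hMO : S_MO) (hAK : S_AK) (hKAP : S_KAP) {n d : ℕ} (hn : 1 ≤ n) (hd : 3 ≤ d)
    (hs : SN n d) (hU : GG n (d + 1) (gg n (d + 1))) (hG : GG (n + 1) d (gg (n + 1) d))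
    (hG' : 3 ≤ d - 1 → GG (n + 1) (d - 1) (gg (n + 1) (d - 1))) :
    SWaux.A n d (gg (n + 1) (d + 1) - gg n (d + 1)) (gg n (d + 1)) := by
  obtain ⟨s1, s2, s3⟩ := hs
  rcases Nat.eq_zero_or_pos (gg (n + 1) (d + 1) - gg n (d + 1)) with h0 | h0
  · rw [h0]
    refine SWaux.A_zero ?_
    have h1 := hU.le
    have h2 := NN_le n d
    exact Nat.le_of_mul_le_mul_left (h1.trans h2) (Nat.succ_pos n)
  · obtain ⟨e, rfl⟩ : ∃ e, d = e + 1 := ⟨d - 1, by omega⟩
    rw [Nat.add_sub_cancel] at s3 hG'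
    have h1 := hMO.1 (n + 1) (e + 1) _ (gg (n + 1) (e + 1 + 1) - gg n (e + 1 + 1)) hG (by omega)
    have h2 := hKAP (n + 1) e (gg (n + 1) (e + 1 + 1) - gg n (e + 1 + 1)) (by omega) h0 (by omega)
      hG'
    exact hAK n e _ _ _ h1 h2 s3

theorem GG_of_A {n d p : ℕ} (h : SWaux.A n d p 0) : GG (n + 1) d p := by
  obtain ⟨w, y, h⟩ := h
  refine ⟨w, ?_⟩
  have h1 : SWaux.DS n d w y = Dbl (n + 1) d Finset.univ w := by
    unfold SWaux.DS
    rw [iInf_of_empty, inf_top_eq]
  rw [h1] at h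
  exact h

theorem main (hG1 : S_G1) (hC9 : S_C9) (hMO : S_MO) (hAK : S_AK) (hKAP : S_KAP)
    (hsn : ∀ n d : ℕ, 1 ≤ n → 3 ≤ d → SN n d) (k : ℕ) :
    ∀ d : ℕ, 3 ≤ d → GG (k + 1) d (gg (k + 1) d) := by
  induction k with
  | zero =>
    intro d hd
    refine hG1 d _ ?_
    have h : gg (0 + 1) d = (d + 1) / 2 := by
      unfold gg
      rw [if_pos rfl]
    rw [h]
    omega
  | succ k ihk =>
    intro d
    induction d using Nat.strong_induction_on with
    | _ d ih =>
      intro hd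
      rcases Nat.eq_or_lt_of_le hd with h | h
      · subst h
        refine hC9 _ _ ?_
        have h : gg (k + 1 + 1) 3 = (k + 1 + 1 + 3) ^ 2 / 9 := by
          unfold gg
          rw [if_neg (by omega), if_pos rfl]
        rw [h]
        exact Nat.mul_div_le _ _
      · obtain ⟨e, rfl⟩ : ∃ e, d = e + 1 := ⟨d - 1, by omega⟩
        have hs := hsn (k + 1) e (by omega) (by omega)
        have hU := ihk (e + 1) (by omega)
        have h1 := AQU hMO hAK hKAP (by omega) (by omega) hs hU (ih e (by omega) (by omega))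
          (fun h3 => ih (e - 1) (by omega) h3)
        have h2 := SWaux.A_step (l := 0) hU h1 (by have := hU.le; omega)
        rw [Nat.add_sub_cancel' hs.1] at h2
        exact GG_of_A h2

end AGaux

theorem x_AG (hG1 : S_G1) (hC9 : S_C9) (hMO : S_MO) (hAK : S_AK) (hKAP : S_KAP) (h3 : S_SN3)
    (h4 : S_SN4) (h5 : S_SN5) (h6 : S_SN6) (h7 : S_SN7) : S_AG := by
  have hsn := AGaux.sn h3 h4 h5 h6 h7
  have hm : ∀ n d : ℕ, 1 ≤ n → 3 ≤ d → GG n d (gg n d) := by
    intro n d hn hd
    obtain ⟨k, rfl⟩ : ∃ k, n = k + 1 := ⟨n - 1, by omega⟩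
    exact AGaux.main hG1 hC9 hMO hAK hKAP hsn k d hd
  refine ⟨fun n d p hn hd hp => hMO.1 n d _ p (hm n d hn hd) hp, fun n d hn hd q l hq hl => ?_⟩
  refine hMO.2 n d _ _ q l ?_ hq hl
  exact AGaux.AQU hMO hAK hKAP hn hd (hsn n d hn hd) (hm n (d + 1) hn (by omega))
    (hm (n + 1) d (by omega) hd) (fun h => hm (n + 1) (d - 1) (by omega) h)

end Pool.Agent.War5


end

section

/-!
# Module G1: one variable
-/

set_option autoImplicit false

open Module MvPolynomial
open Pool.Agent.War Pool.Agent.WarS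

namespace Pool.Agent.War5

namespace G1aux

/-- one double point on the line, degree one -/
theorem GG_one_one : GG 1 1 1 := by
  refine ⟨fun _ => 0, ?_⟩
  have h : Dbl 1 1 (Finset.univ : Finset (Fin 1)) (fun _ => (0 : Fin 1 → ℂ)) = ⊥ := by
    rw [Submodule.eq_bot_iff]
    intro f hf
    have h0 := hf.1 0
    have h1 := hf.2 0 (Finset.mem_univ _) 0
    -- the restriction to `x₀ = 0` vanishes
    have h2 : res 0 (f : MvPolynomial (Fin 1) ℂ) = 0 := by
      obtain ⟨c, hc⟩ := C_surjective (R := ℂ) (Fin 0) (res 0 (f : MvPolynomial (Fin 1) ℂ))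
      have h3 := eval_hp (n := 0) (fun i => i.elim0) (f : MvPolynomial (Fin 1) ℂ)
      have h4 : (hp (fun i : Fin 0 => (i.elim0 : ℂ))) = (0 : Fin 1 → ℂ) := by
        ext i
        refine Fin.cases rfl (fun j => j.elim0) i
      rw [h4, h0, ← hc, eval_C] at h3
      rw [← hc, ← h3, C_0]
    obtain ⟨g, hg, hfg⟩ := exists_of_res (mem_Pol.1 f.2) h2
    have hg0 : g.totalDegree = 0 := by omega
    rw [totalDegree_eq_zero_iff_eq_C] at hg0
    rw [hfg, hg0, Derivation.leibniz] at h1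
    have h5 : coeff 0 g = 0 := by
      have h6 : eval (0 : Fin 1 → ℂ) (X 0 * 0 + C (coeff 0 g)) = 0 := by
        simpa [pderiv_X_self] using h1
      simpa using h6
    apply Subtype.ext
    rw [hfg, hg0, h5, C_0, mul_zero]
    rfl
  rw [h, finrank_bot, NN_one]

end G1aux

theorem x_G1 : S_G1 := by
  intro d
  induction d using Nat.strong_induction_on with
  | _ d ih =>
    intro p hp
    rcases Nat.eq_zero_or_pos p with rfl | hp0
    · exact GG.zero _ _
    · rcases Nat.lt_or_ge d 2 with hd | hd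
      · obtain rfl : d = 1 := by omega
        obtain rfl : p = 1 := by omega
        exact G1aux.GG_one_one
      · obtain ⟨e, rfl⟩ : ∃ e, d = e + 2 := ⟨d - 2, by omega⟩
        obtain ⟨q, rfl⟩ : ∃ q, p = 1 + q := ⟨p - 1, by omega⟩
        exact horace (n := 0) (d := e) (u := 1) (q := q) (p₂ := q) (GG_zero_one _)
          (ih (e + 1) (by omega) q (by omega)) (ih e (by omega) q (by omega)) le_rfl
          (by rw [NN_one, NN_one])

end Pool.Agent.War5


end

section

/-!
# Simultaneous Waring decompositions (MP_db021c_ag), few forms: KAP   (helper54)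
-/

set_option autoImplicit false

open Module MvPolynomial
open Pool.Agent.War Pool.Agent.WarS

namespace Pool.Agent.War5

namespace KAPaux

theorem mono_pts {n d p p' k : ℕ} (h : KD n d p k) (hp : p ≤ p') : KD n d p' k := by
  obtain ⟨z, hz⟩ := h
  refine ⟨fun i => if hi : i.val < p then z ⟨i.val, hi⟩ else 0, ?_⟩
  refine (Submodule.finrank_mono (Dbl_le_comp (Fin.castLE hp) _)).trans ?_
  have h1 : (fun j : Fin p => (fun i : Fin p' =>
      if hi : i.val < p then z ⟨i.val, hi⟩ else 0) (Fin.castLE hp j)) = z := by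
    funext j
    simp
  rw [h1]
  exact hz

theorem drop (hDR : S_DR) {n d p k : ℕ} (hn : 1 ≤ n) (h : KD n d p k) :
    ∀ j : ℕ, KD n d (p + j) (k - 2 * j) := by
  intro j
  induction j with
  | zero => simpa using h
  | succ j ih =>
    have h1 := hDR n d (p + j) _ hn ih
    have e : k - 2 * j - 2 = k - 2 * (j + 1) := by omega
    rw [e] at h1
    exact h1

end KAPaux

open _root_.Pool.Agent.War5.KAPaux in
theorem x_KAP (hMO : S_MO) (hQD : S_QD) (hDR : S_DR) : S_KAP := by
  intro m d q hm hq hd hG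
  unfold kap
  by_cases h2 : d = 2
  · subst h2
    rw [if_pos rfl]
    exact hQD m q hq
  rw [if_neg h2]
  have h3 : 3 ≤ d := by omega
  have hg : GG m d (min q (gg m d)) := hMO.1 m d (gg m d) _ (hG h3) (min_le_right _ _)
  have hgq : min q (gg m d) ≤ q := min_le_left _ _
  generalize min q (gg m d) = g at hg hgq ⊢
  have hk : KD m d g (NN m d - (m + 1) * g) := by
    obtain ⟨z, hz⟩ := hg
    exact ⟨z, by omega⟩
  by_cases h4 : d = 3
  · rw [if_pos h4]
    have h5 := drop hDR (by omega) hk (q - g)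
    rwa [Nat.add_sub_cancel' hgq] at h5
  · rw [if_neg h4, Nat.sub_zero]
    exact mono_pts hk hgq

end Pool.Agent.War5


end

section

/-!
# Simultaneous Waring decompositions (MP_db021c_ag), few forms, all degrees at least 5: residual lemma

As `WarS/RES.lean` (helper76), with the lemma HD5 and with subsets of the double points.
-/

set_option autoImplicit false

open Module MvPolynomial
open Pool.Agent.War Pool.Agent.WarS

namespace Pool.Agent.War5

open WarS.RESm in
/-- the residual lemma; the first points are partly specialised to the hyperplane -/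
theorem x_RES5 (hSG : S_SG) (hHD5 : S_HD5) : S_RES5 := by
  intro n d r u v y I _ π hn hGA hGB hG1 h0 hj hT
  classical
  let P : Fin (r + 1) → Finset I := fun j => Finset.univ.filter fun i => π i = j
  have hP : ∀ j, (P j).card = fib π j := fun j => rfl
  -- the points w and z0
  obtain ⟨u', hu', hGu, hAu⟩ := hGA
  have gA := hHD5 n d u' y I (P 0) hn hu' hGu hAu
  have gB := (Gen.forall fun j : Fin (r + 1) =>
    hSG (n + 1) (d + 1) I (P j) (by omega) (hG1 j)).comp
      (LinearMap.fst ℂ (I → Fin (n + 1) → ℂ) (Fin y → Fin n → ℂ)) Prod.fst_surjective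
  choose q hq hGq hBq using hGB
  have hQ : ∀ j, ∃ Q : Finset I, Q ⊆ P j ∧ Q.card = q j := fun j =>
    Finset.exists_subset_card_eq (hq j)
  choose Q hQP hQc using hQ
  have gC := (Gen.forall fun j : Fin (r + 1) =>
    hSG (n + 1) d I (Q j) (by omega) (by rw [hQc]; exact hGq j)).comp
      (LinearMap.fst ℂ (I → Fin (n + 1) → ℂ) (Fin y → Fin n → ℂ)) Prod.fst_surjective
  have gD := (gen_off (n := n) (I := I)).comp
      (LinearMap.fst ℂ (I → Fin (n + 1) → ℂ) (Fin y → Fin n → ℂ)) Prod.fst_surjective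
  obtain ⟨⟨w, z0⟩, ⟨⟨hA, hB1⟩, hC⟩, hD⟩ := (((gA.and gB).and gC).and gD).exists
  simp only [LinearMap.fst_apply] at hA hB1 hC hD
  have hC' : ∀ j, Dbl (n + 1) d (P j) w = ⊥ := by
    intro j
    have e0 : Dbl (n + 1) d (Q j) w = ⊥ :=
      Dbl_eq_botC1 (hC j) (by rw [hQc]; have := hBq j; omega)
    rw [eq_bot_iff, ← e0]
    intro f hf
    exact ⟨hf.1, fun i hi k => hf.2 i (hQP j hi) k⟩
  have hker : ∀ (j : Fin (r + 1)) (f : Pol (n + 1) (d + 1)), f ∈ Dbl (n + 1) (d + 1) (P j) w →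
      (∀ p : Fin n → ℂ, eval p (res n (f : MvPolynomial (Fin (n + 1)) ℂ)) = 0) → f = 0 := by
    intro j f hf hp
    have e2 : res n (f : MvPolynomial (Fin (n + 1)) ℂ) = 0 :=
      MvPolynomial.funext fun p => by rw [hp, map_zero]
    obtain ⟨g, hg⟩ := exists_mulXC1 e2
    have e3 : g ∈ Dbl (n + 1) d (P j) w := Dbl_of_mulXC1 hD (by rw [← hg]; exact hf)
    rw [hC', Submodule.mem_bot] at e3
    rw [hg, e3, map_zero]
  -- the points z1
  obtain ⟨z1, hz1⟩ := red (fun z : Fin n → ℂ => ev (n + 1) (d + 1) (hp z))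
    (DblH n (d + 1) (P 0) w z0) ⊥ (by
      intro f hf hf0
      by_contra hcon
      push Not at hcon
      apply hf0
      rw [Submodule.mem_bot]
      refine hker 0 f hf.1 fun p => ?_
      have := hcon p
      rwa [ev_apply, eval_hp] at this) u
  rw [finrank_bot] at hz1
  set V0 := DblH n (d + 1) (P 0) w z0 ⊓ ⨅ i, LinearMap.ker (ev (n + 1) (d + 1) (hp (z1 i)))
    with hV0
  let V : Fin (r + 1) → Submodule ℂ (Pol (n + 1) (d + 1)) :=
    Fin.cons V0 fun j => Dbl (n + 1) (d + 1) (P j.succ) w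
  have hVD : ∀ j, V j ≤ Dbl (n + 1) (d + 1) (P j) w := by
    intro j
    refine Fin.cases ?_ (fun j => ?_) j
    · exact inf_le_left.trans inf_le_left
    · exact le_rfl
  let W : Submodule ℂ (Fin (r + 1) → Pol (n + 1) (d + 1)) := Submodule.pi Set.univ V
  have hW : finrank ℂ W ≤ v := by
    refine (finrank_pi_leC1 V).trans ?_
    rw [Fin.sum_univ_succ]
    have e1 : finrank ℂ (V 0) ≤ NN (n + 1) (d + 1) -
        ((n + 1) * fib π 0 + Fintype.card I + (n + 1) * y) - u := by
      have : finrank ℂ (V 0) = finrank ℂ V0 := rfl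
      rw [this]
      refine hz1.trans (max_le ?_ (Nat.zero_le _))
      exact Nat.sub_le_sub_right hA u
    have e2 : ∑ j : Fin r, finrank ℂ (V j.succ) ≤
        ∑ j : Fin r, (NN (n + 1) (d + 1) - ((n + 1) * fib π j.succ + Fintype.card I)) :=
      Finset.sum_le_sum fun j _ => hB1 j.succ
    refine (Nat.add_le_add e1 e2).trans ?_
    refine count (F := ∑ j : Fin r, fib π j.succ) h0 ?_ ?_ hT
    · have e3 : ∀ j : Fin r, NN (n + 1) (d + 1) - ((n + 1) * fib π j.succ + Fintype.card I) +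
          ((n + 1) * fib π j.succ + Fintype.card I) = NN (n + 1) (d + 1) := fun j =>
        Nat.sub_add_cancel (hj j.succ)
      have e4 := Finset.sum_congr (rfl : (Finset.univ : Finset (Fin r)) = Finset.univ)
        fun j _ => e3 j
      rw [Finset.sum_add_distrib, Finset.sum_add_distrib, ← Finset.mul_sum, Finset.sum_const,
        Finset.sum_const, Finset.card_univ, Fintype.card_fin, smul_eq_mul, smul_eq_mul] at e4
      exact e4
    · rw [← sum_fib π, Fin.sum_univ_succ]
  -- the points (z2, a)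
  obtain ⟨yy, hyy⟩ := red (OmC1 n (d + 1)) W ⊥ (by
    intro g hg hg0
    by_contra hcon
    push Not at hcon
    apply hg0
    rw [Submodule.mem_bot]
    funext j
    refine hker j (g j) (hVD j (hg j trivial)) fun p => ?_
    have := hcon (p, Pi.single j 1)
    rw [OmC1_apply] at this
    simpa [Pi.single_apply, eval_hp] using this) v
  rw [finrank_bot] at hyy
  have hyy' : W ⊓ ⨅ i, LinearMap.ker (OmC1 n (d + 1) (yy i)) = ⊥ :=
    Submodule.finrank_eq_zero.1 (by omega)
  -- conclusion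
  have hbot : ZZ d π ((w, z1, fun i => (yy i).1, fun i => (yy i).2, z0) :
      Pm n r u v y I) = ⊥ := by
    rw [eq_bot_iff, ← hyy']
    intro g hg
    have hg' := mem_ZZ.1 hg
    obtain ⟨k1, k2, k3, k4, k5, k6⟩ := hg'
    have kD : ∀ j, g j ∈ Dbl (n + 1) (d + 1) (P j) w := by
      intro j
      refine mem_Dbl.2 ⟨fun i => k1 i j, fun i hi k => ?_⟩
      have hij : π i = j := (Finset.mem_filter.1 hi).2
      have := k2 i k
      rwa [hij] at this
    refine ⟨fun j _ => ?_, ?_⟩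
    · refine Fin.cases ?_ (fun j => ?_) j
      · refine ⟨⟨kD 0, ?_⟩, ?_⟩
        · rw [SetLike.mem_coe, Submodule.mem_comap]
          refine mem_Dbl.2 ⟨fun i => ?_, fun i _ k => ?_⟩
          · have := k5 i
            rwa [eval_hp] at this
          · have := k6 i k
            rwa [eval_hp_pderiv] at this
        · rw [SetLike.mem_coe, Submodule.mem_iInf]
          intro i
          rw [LinearMap.mem_ker, ev_apply]
          exact k3 i
      · exact kD j.succ
    · rw [SetLike.mem_coe, Submodule.mem_iInf]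
      intro i
      rw [LinearMap.mem_ker, OmC1_apply]
      exact k4 i
  refine ((PK_ZZ d π).gen_bot hbot).mono fun x hx => ?_
  intro g hg hres j
  have h1 : (fun j => (⟨g j, mem_Pol.2 (hg j)⟩ : Pol (n + 1) (d + 1))) ∈ ZZ d π x :=
    mem_ZZ.2 hres
  rw [hx, Submodule.mem_bot] at h1
  exact congrArg Subtype.val (congrFun h1 j)

end Pool.Agent.War5


end

section

/-!
# Simultaneous Waring decompositions (MP_db021c_ag): few forms, all degrees ≥ 5   (helper54)
-/

set_option autoImplicit false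

open Module MvPolynomial
open Pool.Agent.War Pool.Agent.WarS

namespace Pool.Agent.War5

/-- many independent double points -/
theorem dbl : S_AG := x_AG x_G1 CUB x_MO x_AK (x_KAP x_MO x_QD x_DR) (x_SN3 x_CF x_P4B)
  (x_SN4 x_CF x_P4B) (x_SN5 x_CF x_P4B) (x_SN6 x_CF) x_SN7

theorem few5 : S_FEW5 := x_FEW5 dbl (x_RES5 WarS.SG x_HD5) (TRA WarS.SG) DH x_NC x_NS
  (x_NG3 x_CF x_P4B) (x_NG4 x_CF x_P4B) (x_NG5 x_CF) x_NG6

/-- at most n forms, degree at least 5 -/
theorem W_few (n d s h : ℕ) (hn : 2 ≤ n) (hs : 2 ≤ s) (hsn : s ≤ n) (hd : 5 ≤ d) :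
    Waring.W d h n s ↔ min s ((n + d).choose n) ≤ h ∧ s * (n + d).choose n ≤ h * (n + s) := by
  refine ⟨fun H => ⟨H.bound2, H.bound1 (by omega)⟩, fun H => ?_⟩
  obtain ⟨m, rfl⟩ : ∃ m, n = m + 1 := ⟨n - 1, by omega⟩
  obtain ⟨r, rfl⟩ : ∃ r, s = r + 1 := ⟨s - 1, by omega⟩
  obtain ⟨e, rfl⟩ : ∃ e, d = e + 2 := ⟨d - 2, by omega⟩
  have h2 : (r + 1) * War.NN (m + 1) (e + 2) ≤ (m + r + 2) * h := by
    have := H.2
    unfold War.NN
    calc _ ≤ _ := this
      _ = _ := by ring
  obtain ⟨z, a, y, hK⟩ := few5 m e r h (by omega) (by omega) (by omega) (by omega) h2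
  exact Waring.W_of_dual z a fun g hg h1 h2 => hK g hg h1 h2 fun i => i.elim0

end Pool.Agent.War5


end

section

/-!
# Simultaneous Waring decompositions (MP_db021c_ag), degree 4, few forms: the small cases   (helper27)
-/

set_option autoImplicit false

open Module MvPolynomial
open Pool.Agent.War Pool.Agent.WarS

namespace Pool.Agent.WarD

namespace NumF

def c2 (n : ℕ) : ℕ := (n + 1) * (n + 2) / 2
def c3 (n : ℕ) : ℕ := (n + 1) * (n + 2) * (n + 3) / 6
def c4 (n : ℕ) : ℕ := (n + 1) * (n + 2) * (n + 3) * (n + 4) / 24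

theorem c2_eq (n : ℕ) : NN n 2 = c2 n := by
  have := WarM.NNb_two n
  unfold c2
  rw [show (n + 1) * (n + 2) = 2 * NN n 2 by rw [this]; ring]
  omega

theorem c3_eq (n : ℕ) : NN n 3 = c3 n := by
  have := WarM.NNb_three n
  unfold c3
  rw [show (n + 1) * (n + 2) * (n + 3) = 6 * NN n 3 by rw [this]; ring]
  omega

theorem c4_eq (n : ℕ) : NN n 4 = c4 n := by
  have := WarM.NNb_four n
  unfold c4
  rw [show (n + 1) * (n + 2) * (n + 3) * (n + 4) = 24 * NN n 4 by rw [this]; ring]
  omega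

/-- cubics -/
def cC (n p : ℕ) : Bool :=
  decide ((n + 1) * (p + 1) ≤ c3 n) || (!decide ((n + 1) % 3 = 2) && decide ((n + 1) * p ≤ c3 n))

theorem GG_of_cC {n p : ℕ} (h : cC n p = true) : GG n 3 p := by
  refine WarM.CUBIC n p ?_
  rw [c3_eq]
  simpa [cC] using h

/-- the conditions at `j` -/
def cj (n U Y M p y : ℕ) : Bool :=
  decide ((n + 3 - p) * (n + 2 - p) ≤ 2 * (M - p)) &&
  ((cC n (p + y) && decide (p ≤ c2 n)) ||
    (decide (1 ≤ p) && (cC n (p - 1 + y) && decide (p - 1 ≤ c2 n))))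

/-- all the conditions -/
def chk (n r U Y M : ℕ) : Bool :=
  decide ((n + 2) * ((U + r) / (r + 1)) ≤ c4 n) &&
  (decide (∑ j ∈ Finset.range (r + 1), (c4 n - (n * ((U + j) / (r + 1)) + U)) ≤ Y) &&
  (decide (∀ j < r + 1, cj n U Y M ((M + j) / (r + 1)) ((Y + (r - j)) / (r + 1)) = true) &&
  (decide (∑ j ∈ Finset.range (r + 1), (c3 (n + 1) - ((n + 1) * ((M + j) / (r + 1)) + M +
    (n * ((Y + (r - j)) / (r + 1)) + Y))) ≤ U) &&
  decide ((n + r + 2) * (U + Y + M) ≤ (r + 1) * c4 (n + 1) + (n + r + 1)))))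

theorem dat_of_chk {n r U Y M : ℕ} (hn : 1 ≤ n) (h : chk n r U Y M = true) :
    Dat n r U Y M ∧ ∀ h, (r + 1) * NN (n + 1) 4 ≤ (n + r + 2) * h → U + Y + M ≤ h := by
  unfold chk at h
  simp only [Bool.and_eq_true, decide_eq_true_eq] at h
  obtain ⟨h1, h2, h3, h4, h5⟩ := h
  refine ⟨⟨fun j hj => ?_, ?_, fun j hj => ?_, fun j hj => ?_, ?_⟩, fun h hh => ?_⟩
  · refine x_Q4 n _ hn ?_
    rw [c4_eq]
    refine le_trans (Nat.mul_le_mul_left _ (Nat.div_le_div_right ?_)) h1
    omega
  · rw [c4_eq]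
    exact h2
  · have := h3 j hj
    unfold cj at this
    simp only [Bool.and_eq_true, decide_eq_true_eq] at this
    exact this.1
  · have := h3 j hj
    unfold cj at this
    simp only [Bool.and_eq_true, Bool.or_eq_true, decide_eq_true_eq] at this
    rw [c2_eq]
    rcases this.2 with ⟨a1, a2⟩ | ⟨a1, a2, a3⟩
    · exact ⟨_, le_rfl, Nat.le_succ _, GG_of_cC a1, a2⟩
    · exact ⟨(M + j) / (r + 1) - 1, Nat.sub_le _ _, by omega, GG_of_cC a2, a3⟩
  · rw [c3_eq]
    exact h4
  · rw [c4_eq] at hh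
    by_contra hc
    push Not at hc
    have : (n + r + 2) * (h + 1) ≤ (n + r + 2) * (U + Y + M) := Nat.mul_le_mul_left _ hc
    rw [Nat.mul_add, mul_one] at this
    omega

/-- symmetric choice -/
def symm (n r : ℕ) : Bool :=
  chk n r ((r + 1) * (c4 n / (n + r + 1))) ((r + 1) * (c4 n % (n + r + 1)))
    (((r + 1) * c4 (n + 1) + (n + r + 1)) / (n + r + 2) -
      (r + 1) * (c4 n / (n + r + 1)) - (r + 1) * (c4 n % (n + r + 1)))

def tab : List (ℕ × ℕ × ℕ × ℕ × ℕ) := [(3, 2, 17, 3, 10), (4, 3, 34, 8, 14), (4, 4, 38, 8, 17),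
  (5, 2, 46, 10, 14), (5, 4, 63, 6, 27), (6, 5, 105, 9, 39), (7, 6, 162, 42, 27), (8, 7, 248, 0, 89),
  (9, 6, 312, 21, 80), (9, 8, 357, 21, 97), (9, 9, 375, 35, 91), (10, 6, 411, 20, 100),
  (10, 8, 473, 32, 110), (10, 10, 522, 54, 107), (11, 7, 573, 33, 122), (12, 11, 909, 33, 201),
  (12, 12, 944, 60, 186), (16, 16, 2494, 75, 424)]

theorem tab_ok : ∀ x ∈ tab, chk x.1 x.2.1 x.2.2.1 x.2.2.2.1 x.2.2.2.2 = true := by
  decide +kernel

def exc (n r : ℕ) : Bool := (n == 1 && r == 1) || ((n == 2 && r == 1) || ((n == 4 && r == 1) ||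
  (n == 5 && r == 5)))

theorem all_ok : ∀ n < 39, ∀ r < n + 1, r = 0 ∨ n = 0 ∨ exc n r = true ∨ symm n r = true ∨
    ∃ x ∈ tab, x.1 = n ∧ x.2.1 = r := by
  decide +kernel

end NumF

end Pool.Agent.WarD


end

section

/-!
# Simultaneous Waring decompositions (MP_db021c_ag), degree 4, few forms: the module SDB   (helper80)

One form: general double and simple points in the space, points on the hyperplane which are double
along the hyperplane, and general simple points of the hyperplane.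
-/

set_option autoImplicit false

open Module MvPolynomial
open Pool.Agent.War Pool.Agent.WarS Pool.Agent.War5

namespace Pool.Agent.WarD

namespace SDBaux

theorem PK_DbS (n d : ℕ) {I Y : Type} [Finite I] [Finite Y] (P : Finset I) (R : Finset Y) :
    PK fun x : (I → Fin (n + 1) → ℂ) × (Y → Fin n → ℂ) => DbS n d P x.1 R x.2 := by
  have h1 := PK.comp (K := ℂ) (Y := (I → Fin (n + 1) → ℂ) × (Y → Fin n → ℂ))
    (PK_Dbl (n + 1) d P) (LinearMap.fst ℂ (I → Fin (n + 1) → ℂ) (Y → Fin n → ℂ))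
  have h2 := PK.comp (K := ℂ) (Y := (I → Fin (n + 1) → ℂ) × (Y → Fin n → ℂ))
    (PK_Dbl n d R) (LinearMap.snd ℂ (I → Fin (n + 1) → ℂ) (Y → Fin n → ℂ))
  exact h1.inf (h2.comap (resL n d))

/-- no element vanishes on the hyperplane -/
theorem inj {n d : ℕ} {I : Type} {P : Finset I} {w : I → Fin (n + 1) → ℂ}
    (hw : ∀ i, w i 0 ≠ 0) (h0 : Dbl (n + 1) d P w = ⊥) {f : Pol (n + 1) (d + 1)}
    (hf : f ∈ Dbl (n + 1) (d + 1) P w) (h : ∀ y : Fin n → ℂ, ev (n + 1) (d + 1) (hp y) f = 0) :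
    f = 0 := by
  have h1 : resL n (d + 1) f = 0 := by
    apply Subtype.ext
    rw [resL_coe]
    refine MvPolynomial.funext fun y => ?_
    have := h y
    rw [ev_apply, eval_hp] at this
    simpa using this
  have h2 : f ∈ LinearMap.ker (resL n (d + 1)) := LinearMap.mem_ker.2 h1
  rw [ker_resL] at h2
  obtain ⟨g, rfl⟩ := h2
  have hg : g ∈ Dbl (n + 1) d P w := by
    refine ⟨fun i => ?_, fun i hi k => ?_⟩
    · have h4 := hf.1 i
      rw [eval_mulX] at h4
      exact (mul_eq_zero.1 h4).resolve_left (hw i)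
    · exact (off_hyp (hw i) (hf.1 i) (hf.2 i hi)).2 k
  rw [h0, Submodule.mem_bot] at hg
  rw [hg, map_zero]

end SDBaux

open _root_.Pool.Agent.WarD.SDBaux

theorem x_SDB : S_SDB := by
  classical
  intro n d u I Y _ _ P R hn hu hG hA h0
  have g1 := x_HD5 n d u R.card I P hn hu hG hA
  have g2 := h0.comp (LinearMap.fst ℂ (I → Fin (n + 1) → ℂ) (Fin R.card → Fin n → ℂ))
    LinearMap.fst_surjective
  have g3 := (gen_off (n := n) (I := I)).comp
    (LinearMap.fst ℂ (I → Fin (n + 1) → ℂ) (Fin R.card → Fin n → ℂ)) LinearMap.fst_surjective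
  obtain ⟨⟨w, z⟩, ⟨hwz, hw0⟩, hw⟩ := ((g1.and g2).and g3).exists
  have hwz' : finrank ℂ (DblH n (d + 1) P w z) ≤
      NN (n + 1) (d + 1) - ((n + 1) * P.card + Fintype.card I + (n + 1) * R.card) := hwz
  have hw0' : Dbl (n + 1) d P w = ⊥ := hw0
  have hw' : ∀ i, w i 0 ≠ 0 := hw
  obtain ⟨v, hv⟩ := red (Y := Fin n → ℂ) (fun v => ev (n + 1) (d + 1) (hp v))
    (DblH n (d + 1) P w z) ⊥ (by
      intro f hf1 hf
      by_contra hc
      push Not at hc
      apply hf
      rw [Submodule.mem_bot]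
      exact inj hw' hw0' hf1.1 hc) (Fintype.card Y - R.card)
  rw [finrank_bot, Nat.max_zero] at hv
  have hRY : R.card ≤ Fintype.card Y := Finset.card_le_univ R
  have e1 : Fintype.card {i // i ∈ R} = Fintype.card (Fin R.card) := by
    rw [Fintype.card_coe, Fintype.card_fin]
  let e : {i // i ∈ R} ≃ Fin R.card := Fintype.equivOfCardEq e1
  have e2 : Fintype.card {i // ¬ i ∈ R} = Fintype.card Y - R.card := by
    rw [Fintype.card_subtype_compl, Fintype.card_coe]
  let b : {i // ¬ i ∈ R} ≃ Fin (Fintype.card Y - R.card) := Fintype.equivFinOfCardEq e2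
  let y₀ : Y → Fin n → ℂ := fun i => if hi : i ∈ R then z (e ⟨i, hi⟩) else v (b ⟨i, hi⟩)
  have key : ∀ j : Fin R.card, y₀ (e.symm j).1 = z j := by
    intro j
    simp only [y₀]
    rw [dif_pos (e.symm j).2]
    simp
  have key2 : ∀ j : Fin (Fintype.card Y - R.card), y₀ (b.symm j).1 = v j := by
    intro j
    simp only [y₀]
    rw [dif_neg (b.symm j).2]
    simp
  have hle : DbS n (d + 1) P w R y₀ ≤
      DblH n (d + 1) P w z ⊓ ⨅ i, LinearMap.ker (ev (n + 1) (d + 1) (hp (v i))) := by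
    rintro f ⟨hf1, hf2, hf3⟩
    refine ⟨⟨hf1, fun j => ?_, fun j _ k => ?_⟩, ?_⟩
    · have := hf2 (e.symm j).1
      rwa [key] at this
    · have := hf3 (e.symm j).1 (e.symm j).2 k
      rwa [key] at this
    · rw [SetLike.mem_coe, Submodule.mem_iInf]
      intro i
      rw [LinearMap.mem_ker, ev_apply, eval_hp]
      have := hf2 (b.symm i).1
      rwa [key2] at this
  refine (PK_DbS n (d + 1) P R).gen_finrank (x₀ := (w, y₀))
    ((Submodule.finrank_mono hle).trans (hv.trans ?_))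
  have h1 : (n + 1) * R.card = n * R.card + R.card := by ring
  omega

end Pool.Agent.WarD


end

section

/-!
# Simultaneous Waring decompositions (MP_db021c_ag), degree 4, few forms: module QZ   (helper46)

Quadrics which are double at the points of `P` and simple at the other points vanish.
-/

set_option autoImplicit false

open Module MvPolynomial
open Pool.Agent.War Pool.Agent.WarS Pool.Agent.War5

namespace Pool.Agent.WarD

namespace QZaux

theorem NN_two (n : ℕ) : 2 * NN n 2 = (n + 2) * (n + 1) := by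
  induction n with
  | zero => simp [NN]
  | succ n ih =>
    rw [NN_succ n 1, NN_right_one, mul_add, ih]
    ring

/-- the kernel of the double points -/
theorem kd (n p : ℕ) : ∃ k, 2 * k ≤ (n + 2 - p) * (n + 1 - p) ∧ KD n 2 p k := by
  rcases Nat.eq_zero_or_pos p with rfl | hp
  · refine ⟨NN n 2, le_of_eq (NN_two n), fun i => i.elim0, ?_⟩
    exact (Submodule.finrank_le _).trans (finrank_Pol_le n 2)
  · refine ⟨_, ?_, x_QD n p hp⟩
    split_ifs with h
    · exact Nat.zero_le _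
    · exact Nat.mul_div_le _ 2

/-- the double and the simple points -/
theorem both (n p k : ℕ) (h : (n + 2 - p) * (n + 1 - p) ≤ 2 * k) :
    ∃ (z : Fin p → Fin n → ℂ) (y : Fin k → Fin n → ℂ),
      finrank ℂ ↥(Dbl n 2 Finset.univ z ⊓ ⨅ i, LinearMap.ker (ev n 2 (y i))) ≤ 0 := by
  obtain ⟨c, hc, z, hz⟩ := kd n p
  obtain ⟨y, hy⟩ := red (Y := Fin n → ℂ) (fun y => ev n 2 y) (Dbl n 2 Finset.univ z) ⊥ (by
    intro w _ hw
    by_contra hc
    push Not at hc
    apply hw
    rw [Submodule.mem_bot]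
    apply Subtype.ext
    apply MvPolynomial.funext
    intro x
    have := hc x
    rw [ev_apply] at this
    rw [this]
    simp) k
  refine ⟨z, y, hy.trans ?_⟩
  rw [finrank_bot]
  refine max_le ?_ (Nat.zero_le _)
  omega

end QZaux

open _root_.Pool.Agent.WarD.QZaux in
theorem x_QZ : S_QZ := by
  classical
  intro n I _ P hn hP
  obtain ⟨z, y, hzy⟩ := both n P.card (Fintype.card I - P.card) hP
  have e1 : Fintype.card {i // i ∈ P} = P.card := Fintype.card_coe P
  have e2 : Fintype.card {i // ¬ i ∈ P} = Fintype.card I - P.card := by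
    rw [Fintype.card_subtype_compl, e1]
  let a : {i // i ∈ P} ≃ Fin P.card := Fintype.equivFinOfCardEq e1
  let b : {i // ¬ i ∈ P} ≃ Fin (Fintype.card I - P.card) := Fintype.equivFinOfCardEq e2
  let x₀ : I → Fin n → ℂ := fun i => if hi : i ∈ P then z (a ⟨i, hi⟩) else y (b ⟨i, hi⟩)
  have hle : Dbl n 2 P x₀ ≤ Dbl n 2 Finset.univ z ⊓ ⨅ i, LinearMap.ker (ev n 2 (y i)) := by
    intro f hf
    obtain ⟨f1, f2⟩ := mem_Dbl.1 hf
    rw [Submodule.mem_inf, Submodule.mem_iInf, mem_Dbl]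
    have key : ∀ i : Fin P.card, x₀ (a.symm i).1 = z i := by
      intro i
      simp only [x₀]
      rw [dif_pos (a.symm i).2]
      simp
    refine ⟨⟨fun i => ?_, fun i _ k => ?_⟩, fun i => ?_⟩
    · have := f1 (a.symm i).1
      rwa [key] at this
    · have := f2 (a.symm i).1 (a.symm i).2 k
      rwa [key] at this
    · rw [LinearMap.mem_ker, ev_apply]
      have := f1 (b.symm i).1
      simp only [x₀] at this
      rw [dif_neg (b.symm i).2] at this
      simpa using this
  refine (PK_Dbl n 2 P).gen_bot (x₀ := x₀) ?_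
  rw [← Submodule.finrank_eq_zero (R := ℂ)]
  have h := (Submodule.finrank_mono hle).trans hzy
  omega

end Pool.Agent.WarD


end

section

/-!
# Simultaneous Waring decompositions (MP_db021c_ag), degree 4, few forms: two special cases   (helper54)

`(n, s) = (5, 2)` and `(6, 6)` (projective dimension `n`), by the scheme of War5.
-/

set_option autoImplicit false

open Module MvPolynomial
open Pool.Agent.War Pool.Agent.WarS Pool.Agent.War5

namespace Pool.Agent.WarD

namespace SPaux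

open WarS.RESm in
/-- the residual lemma (as x_RES5, with a general hypothesis in degree `d`) -/
theorem RES5G (hSG : S_SG) (hHD5 : S_HD5) (n d r u v y : ℕ) (I : Type) [Fintype I]
    (π : I → Fin (r + 1)) (hn : 1 ≤ n)
    (hGA : ∃ u' ≤ fib π 0, GG n (d + 1) (u' + y) ∧ SWaux.A n d (fib π 0 - u') u')
    (hGB : ∀ j, Gen ℂ fun w : I → Fin (n + 1) → ℂ =>
      Dbl (n + 1) d (Finset.univ.filter fun i => π i = j) w = ⊥)
    (hG1 : ∀ j, GG (n + 1) (d + 1) (fib π j))
    (h0 : (n + 1) * fib π 0 + Fintype.card I + (n + 1) * y + u ≤ NN (n + 1) (d + 1))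
    (hj : ∀ j, (n + 1) * fib π j + Fintype.card I ≤ NN (n + 1) (d + 1))
    (hT : (r + 1) * NN (n + 1) (d + 1) ≤ (n + r + 2) * Fintype.card I + (n + 1) * y + u + v) :
    Gen ℂ fun x : (I → Fin (n + 1) → ℂ) × (Fin u → Fin n → ℂ) × (Fin v → Fin n → ℂ) ×
      (Fin v → Fin (r + 1) → ℂ) × (Fin y → Fin n → ℂ) =>
    ResZ d π x.1 x.2.1 x.2.2.1 x.2.2.2.1 x.2.2.2.2 := by
  classical
  let P : Fin (r + 1) → Finset I := fun j => Finset.univ.filter fun i => π i = j
  have hP : ∀ j, (P j).card = fib π j := fun j => rfl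
  -- the points w and z0
  obtain ⟨u', hu', hGu, hAu⟩ := hGA
  have gA := hHD5 n d u' y I (P 0) hn hu' hGu hAu
  have gB := (Gen.forall fun j : Fin (r + 1) =>
    hSG (n + 1) (d + 1) I (P j) (by omega) (hG1 j)).comp
      (LinearMap.fst ℂ (I → Fin (n + 1) → ℂ) (Fin y → Fin n → ℂ)) Prod.fst_surjective
  have gC := (Gen.forall fun j : Fin (r + 1) => hGB j).comp
      (LinearMap.fst ℂ (I → Fin (n + 1) → ℂ) (Fin y → Fin n → ℂ)) Prod.fst_surjective
  have gD := (gen_off (n := n) (I := I)).comp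
      (LinearMap.fst ℂ (I → Fin (n + 1) → ℂ) (Fin y → Fin n → ℂ)) Prod.fst_surjective
  obtain ⟨⟨w, z0⟩, ⟨⟨hA, hB1⟩, hC⟩, hD⟩ := (((gA.and gB).and gC).and gD).exists
  simp only [LinearMap.fst_apply] at hA hB1 hC hD
  have hC' : ∀ j, Dbl (n + 1) d (P j) w = ⊥ := hC
  have hker : ∀ (j : Fin (r + 1)) (f : Pol (n + 1) (d + 1)), f ∈ Dbl (n + 1) (d + 1) (P j) w →
      (∀ p : Fin n → ℂ, eval p (res n (f : MvPolynomial (Fin (n + 1)) ℂ)) = 0) → f = 0 := by
    intro j f hf hp
    have e2 : res n (f : MvPolynomial (Fin (n + 1)) ℂ) = 0 :=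
      MvPolynomial.funext fun p => by rw [hp, map_zero]
    obtain ⟨g, hg⟩ := exists_mulXC1 e2
    have e3 : g ∈ Dbl (n + 1) d (P j) w := Dbl_of_mulXC1 hD (by rw [← hg]; exact hf)
    rw [hC', Submodule.mem_bot] at e3
    rw [hg, e3, map_zero]
  -- the points z1
  obtain ⟨z1, hz1⟩ := red (fun z : Fin n → ℂ => ev (n + 1) (d + 1) (hp z))
    (DblH n (d + 1) (P 0) w z0) ⊥ (by
      intro f hf hf0
      by_contra hcon
      push Not at hcon
      apply hf0
      rw [Submodule.mem_bot]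
      refine hker 0 f hf.1 fun p => ?_
      have := hcon p
      rwa [ev_apply, eval_hp] at this) u
  rw [finrank_bot] at hz1
  set V0 := DblH n (d + 1) (P 0) w z0 ⊓ ⨅ i, LinearMap.ker (ev (n + 1) (d + 1) (hp (z1 i)))
    with hV0
  let V : Fin (r + 1) → Submodule ℂ (Pol (n + 1) (d + 1)) :=
    Fin.cons V0 fun j => Dbl (n + 1) (d + 1) (P j.succ) w
  have hVD : ∀ j, V j ≤ Dbl (n + 1) (d + 1) (P j) w := by
    intro j
    refine Fin.cases ?_ (fun j => ?_) j
    · exact inf_le_left.trans inf_le_left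
    · exact le_rfl
  let W : Submodule ℂ (Fin (r + 1) → Pol (n + 1) (d + 1)) := Submodule.pi Set.univ V
  have hW : finrank ℂ W ≤ v := by
    refine (finrank_pi_leC1 V).trans ?_
    rw [Fin.sum_univ_succ]
    have e1 : finrank ℂ (V 0) ≤ NN (n + 1) (d + 1) -
        ((n + 1) * fib π 0 + Fintype.card I + (n + 1) * y) - u := by
      have : finrank ℂ (V 0) = finrank ℂ V0 := rfl
      rw [this]
      refine hz1.trans (max_le ?_ (Nat.zero_le _))
      exact Nat.sub_le_sub_right hA u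
    have e2 : ∑ j : Fin r, finrank ℂ (V j.succ) ≤
        ∑ j : Fin r, (NN (n + 1) (d + 1) - ((n + 1) * fib π j.succ + Fintype.card I)) :=
      Finset.sum_le_sum fun j _ => hB1 j.succ
    refine (Nat.add_le_add e1 e2).trans ?_
    refine count (F := ∑ j : Fin r, fib π j.succ) h0 ?_ ?_ hT
    · have e3 : ∀ j : Fin r, NN (n + 1) (d + 1) - ((n + 1) * fib π j.succ + Fintype.card I) +
          ((n + 1) * fib π j.succ + Fintype.card I) = NN (n + 1) (d + 1) := fun j =>
        Nat.sub_add_cancel (hj j.succ)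
      have e4 := Finset.sum_congr (rfl : (Finset.univ : Finset (Fin r)) = Finset.univ)
        fun j _ => e3 j
      rw [Finset.sum_add_distrib, Finset.sum_add_distrib, ← Finset.mul_sum, Finset.sum_const,
        Finset.sum_const, Finset.card_univ, Fintype.card_fin, smul_eq_mul, smul_eq_mul] at e4
      exact e4
    · rw [← sum_fib π, Fin.sum_univ_succ]
  -- the points (z2, a)
  obtain ⟨yy, hyy⟩ := red (OmC1 n (d + 1)) W ⊥ (by
    intro g hg hg0
    by_contra hcon
    push Not at hcon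
    apply hg0
    rw [Submodule.mem_bot]
    funext j
    refine hker j (g j) (hVD j (hg j trivial)) fun p => ?_
    have := hcon (p, Pi.single j 1)
    rw [OmC1_apply] at this
    simpa [Pi.single_apply, eval_hp] using this) v
  rw [finrank_bot] at hyy
  have hyy' : W ⊓ ⨅ i, LinearMap.ker (OmC1 n (d + 1) (yy i)) = ⊥ :=
    Submodule.finrank_eq_zero.1 (by omega)
  -- conclusion
  have hbot : ZZ d π ((w, z1, fun i => (yy i).1, fun i => (yy i).2, z0) :
      Pm n r u v y I) = ⊥ := by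
    rw [eq_bot_iff, ← hyy']
    intro g hg
    have hg' := mem_ZZ.1 hg
    obtain ⟨k1, k2, k3, k4, k5, k6⟩ := hg'
    have kD : ∀ j, g j ∈ Dbl (n + 1) (d + 1) (P j) w := by
      intro j
      refine mem_Dbl.2 ⟨fun i => k1 i j, fun i hi k => ?_⟩
      have hij : π i = j := (Finset.mem_filter.1 hi).2
      have := k2 i k
      rwa [hij] at this
    refine ⟨fun j _ => ?_, ?_⟩
    · refine Fin.cases ?_ (fun j => ?_) j
      · refine ⟨⟨kD 0, ?_⟩, ?_⟩
        · rw [SetLike.mem_coe, Submodule.mem_comap]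
          refine mem_Dbl.2 ⟨fun i => ?_, fun i _ k => ?_⟩
          · have := k5 i
            rwa [eval_hp] at this
          · have := k6 i k
            rwa [eval_hp_pderiv] at this
        · rw [SetLike.mem_coe, Submodule.mem_iInf]
          intro i
          rw [LinearMap.mem_ker, ev_apply]
          exact k3 i
      · exact kD j.succ
    · rw [SetLike.mem_coe, Submodule.mem_iInf]
      intro i
      rw [LinearMap.mem_ker, OmC1_apply]
      exact k4 i
  refine ((PK_ZZ d π).gen_bot hbot).mono fun x hx => ?_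
  intro g hg hres j
  have h1 : (fun j => (⟨g j, mem_Pol.2 (hg j)⟩ : Pol (n + 1) (d + 1))) ∈ ZZ d π x :=
    mem_ZZ.2 hres
  rw [hx, Submodule.mem_bot] at h1
  exact congrArg Subtype.val (congrFun h1 j)

/-- degree 4, the scheme of War5 -/
theorem crit4 (hQZ : S_QZ) {n r : ℕ} (hn : 1 ≤ n) {h u y : ℕ} {p : Fin (r + 1) → ℕ}
    (e1 : NN n 4 = (n + r + 1) * u + y) (hu : GG n 4 u) (e2 : (r + 1) * u + y + ∑ j, p j = h)
    (hA : ∃ u' ≤ p 0, GG n 3 (u' + y) ∧ SWaux.A n 2 (p 0 - u') u')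
    (hq : ∀ j, (n + 3 - p j) * (n + 2 - p j) ≤ 2 * (∑ i, p i - p j))
    (hG : ∀ j, GG (n + 1) 3 (p j))
    (c2 : (n + 1) * p 0 + ∑ i, p i + (n + 1) * y + u ≤ NN (n + 1) 3)
    (c3 : ∀ j, (n + 1) * p j + ∑ i, p i ≤ NN (n + 1) 3)
    (h1 : (r + 1) * NN (n + 1) 4 ≤ (n + r + 2) * h) : KK n r h := by
  let I := (j : Fin (r + 1)) × Fin (p j)
  let π : I → Fin (r + 1) := fun i => i.1
  have hfib : ∀ j, fib π j = p j := FEWm.fib_sigma p
  have hcard : Fintype.card I = ∑ j, p j := by
    rw [Fintype.card_sigma]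
    simp
  have g2 : ∀ j, GG (n + 1) (2 + 1) (fib π j) := fun j => by
    rw [hfib]
    exact hG j
  have q1 : ∃ u' ≤ fib π 0, GG n (2 + 1) (u' + y) ∧ SWaux.A n 2 (fib π 0 - u') u' := by
    rw [hfib]
    exact hA
  have q2 : ∀ j, Gen ℂ fun w : I → Fin (n + 1) → ℂ =>
      Dbl (n + 1) 2 (Finset.univ.filter fun i => π i = j) w = ⊥ := by
    intro j
    refine hQZ (n + 1) I (Finset.univ.filter fun i => π i = j) (by omega) ?_
    have e : (Finset.univ.filter fun i => π i = j).card = p j := hfib j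
    rw [e, hcard]
    exact hq j
  have hN : NN (n + 1) 4 = NN n 4 + NN (n + 1) 3 := NN_succ n 3
  have key : (r + 1) * NN (n + 1) (2 + 1) ≤
      (n + r + 2) * Fintype.card I + (n + 1) * y + u + r * u := by
    rw [hcard]
    rw [← e2, hN, e1] at h1
    change (r + 1) * NN (n + 1) 3 ≤ _
    nlinarith
  have R := RES5G WarS.SG x_HD5 n 2 r u (r * u) y I π hn q1 q2 g2
    (by rw [hfib, hcard]; exact c2) (fun j => by rw [hfib, hcard]; exact c3 j) key
  have T := (TRA WarS.SG) n 2 r u y hn hu (le_of_eq e1)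
  have O : Gen ℂ fun z : I → Fin (n + 1) → ℂ => ∀ i, z i 0 ≠ 0 := gen_off
  have T' := T.comp (LinearMap.snd ℂ (I → Fin (n + 1) → ℂ) ((Fin u → Fin n → ℂ) ×
    (Fin (r * u) → Fin n → ℂ) × (Fin (r * u) → Fin (r + 1) → ℂ) × (Fin y → Fin n → ℂ)))
    Prod.snd_surjective
  have O' := O.comp (LinearMap.fst ℂ (I → Fin (n + 1) → ℂ) ((Fin u → Fin n → ℂ) ×
    (Fin (r * u) → Fin n → ℂ) × (Fin (r * u) → Fin (r + 1) → ℂ) × (Fin y → Fin n → ℂ)))
    Prod.fst_surjective
  obtain ⟨⟨w, z1, z2, a, z0⟩, ⟨hR, hT⟩, hO⟩ := ((R.and T').and O').exists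
  obtain ⟨t, ht⟩ := DH n 2 r u (r * u) y I π w z1 z2 a z0 hO hT.1 hT.2 hR
  -- all points
  let α := I ⊕ (Fin u ⊕ (Fin (r * u) ⊕ Fin y))
  have hα : Fintype.card α = h := by
    simp only [α, Fintype.card_sum, Fintype.card_fin]
    rw [hcard, ← e2]
    ring
  let e : α ≃ Fin h := Fintype.equivFinOfCardEq hα
  let Z : α → Fin (n + 1) → ℂ := Sum.elim w (Sum.elim (fun i => hp (z1 i))
    (Sum.elim (fun i => hp (z2 i)) (fun i => Fin.cons t (z0 i))))
  let A : α → Fin (r + 1) → ℂ := Sum.elim (fun i => Pi.single (π i) 1)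
    (Sum.elim (fun _ => Pi.single 0 1) (Sum.elim a (fun _ => Pi.single 0 1)))
  have hs : ∀ (k : Fin (r + 1)) (g : Fin (r + 1) → ℂ),
      ∑ j, (Pi.single k 1 : Fin (r + 1) → ℂ) j * g j = g k := by
    intro k g
    rw [Finset.sum_eq_single k]
    · rw [Pi.single_eq_same, one_mul]
    · intro j _ hj
      rw [Pi.single_eq_of_ne hj, zero_mul]
    · intro hk
      exact absurd (Finset.mem_univ k) hk
  refine ⟨fun i => Z (e.symm i), fun i => A (e.symm i), fun f hf hf0 hf1 => ?_⟩
  have k0 : ∀ x : α, ∀ j, eval (Z x) (f j) = 0 := fun x j => by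
    have := hf0 (e x) j
    simpa only [Equiv.symm_apply_apply] using this
  have k1 : ∀ x : α, ∀ k, ∑ j, A x j * eval (Z x) (pderiv k (f j)) = 0 := fun x k => by
    have := hf1 (e x) k
    simpa only [Equiv.symm_apply_apply] using this
  refine ht f hf (fun i j => k0 (Sum.inl i) j) (fun i k => ?_)
    (fun i j => k0 (Sum.inr (Sum.inl i)) j) (fun i k => ?_)
    (fun i j => k0 (Sum.inr (Sum.inr (Sum.inl i))) j)
    (fun i k => k1 (Sum.inr (Sum.inr (Sum.inl i))) k)
    (fun i j => k0 (Sum.inr (Sum.inr (Sum.inr i))) j) (fun i k => ?_)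
  · have := k1 (Sum.inl i) k
    rw [← hs (π i) (fun j => eval (w i) (pderiv k (f j)))]
    exact this
  · have := k1 (Sum.inr (Sum.inl i)) k
    rw [← hs 0 (fun j => eval (hp (z1 i)) (pderiv k (f j)))]
    exact this
  · have := k1 (Sum.inr (Sum.inr (Sum.inr i))) k
    rw [← hs 0 (fun j => eval (Fin.cons t (z0 i) : Fin (n + 1) → ℂ) (pderiv k (f j)))]
    exact this

theorem cub {n p : ℕ} (h : (n + 1) * (p + 1) ≤ NN n 3) : GG n 3 p := WarM.CUBIC n p (Or.inl h)

end SPaux

open _root_.Pool.Agent.WarD.SPaux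

/-- `(n, s) = (5, 2)` -/
theorem KK_5_2 (hQZ : S_QZ) : KK 4 1 36 := by
  have hO : GG 5 1 1 := WarM.ONE 5 1 le_rfl
  have hO2 : GG 5 2 1 := WarM.ONE 5 2 (by omega)
  have hK : KD 5 1 1 0 := by
    obtain ⟨z, hz⟩ := hO
    refine ⟨z, ?_⟩
    have : NN 5 1 = 6 := by decide +kernel
    omega
  refine crit4 hQZ (n := 4) (r := 1) (u := 11) (y := 4) (p := ![3, 7]) (by omega)
    (by decide +kernel) (x_Q4 4 11 (by omega) (by decide +kernel)) (by decide +kernel)
    ⟨2, by decide, cub (by decide +kernel), ?_⟩ (by decide +kernel) ?_ (by decide +kernel)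
    (by decide +kernel) (by decide +kernel)
  · exact x_AK 4 1 1 2 0 hO2 hK (by decide +kernel)
  · intro j
    fin_cases j
    · exact cub (n := 5) (p := 3) (by decide +kernel)
    · exact cub (n := 5) (p := 7) (by decide +kernel)

/-- `(n, s) = (6, 6)` -/
theorem KK_6_6 (hQZ : S_QZ) : KK 5 5 105 := by
  refine crit4 hQZ (n := 5) (r := 5) (u := 11) (y := 5) (p := ![1, 7, 7, 7, 6, 6]) (by omega)
    (by decide +kernel) (x_Q4 5 11 (by omega) (by decide +kernel)) (by decide +kernel)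
    ⟨1, by decide, cub (by decide +kernel), ?_⟩ (by decide +kernel) ?_ (by decide +kernel)
    (by decide +kernel) (by decide +kernel)
  · exact SWaux.A_zero (n := 5) (d := 2) (l := 1) (by decide +kernel)
  · intro j
    fin_cases j
    · exact cub (n := 6) (p := 1) (by decide +kernel)
    · exact cub (n := 6) (p := 7) (by decide +kernel)
    · exact cub (n := 6) (p := 7) (by decide +kernel)
    · exact cub (n := 6) (p := 7) (by decide +kernel)
    · exact cub (n := 6) (p := 6) (by decide +kernel)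
    · exact cub (n := 6) (p := 6) (by decide +kernel)

end Pool.Agent.WarD


end

section

/-!
# Simultaneous Waring decompositions (MP_db021c_ag), degree 4, at most `n` forms   (helper27)
-/

set_option autoImplicit false

open Module MvPolynomial
open Pool.Agent.War Pool.Agent.WarS

namespace Pool.Agent.WarD

namespace Mainaux

theorem dat_1_1 : Dat 1 1 3 1 4 := by
  have e1 : NN 1 4 = 5 := by rw [NumF.c4_eq]; rfl
  have e2 : NN 2 3 = 10 := by rw [NumF.c3_eq]; rfl
  have e3 : NN 1 2 = 3 := by rw [NumF.c2_eq]; rfl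
  refine ⟨fun j hj => ?_, by rw [e1]; decide, fun j hj => ?_, fun j hj => ?_,
    by rw [e2]; decide⟩
  · refine War5.dbl.1 1 4 _ le_rfl (by norm_num) ?_
    unfold War5.gg
    interval_cases j <;> decide
  · interval_cases j <;> decide
  · rw [e3]
    interval_cases j
    · exact ⟨1, by decide, by decide, War5.x_G1 3 2 (by norm_num), by decide⟩
    · exact ⟨2, by decide, by decide, War5.x_G1 3 2 (by norm_num), by decide⟩

theorem dat_2_1 : Dat 2 1 7 2 5 := by
  have e1 : NN 2 4 = 15 := by rw [NumF.c4_eq]; rfl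
  have e2 : NN 3 3 = 20 := by rw [NumF.c3_eq]; rfl
  have e3 : NN 2 2 = 6 := by rw [NumF.c2_eq]; rfl
  have e4 : NN 2 3 = 10 := by rw [NumF.c3_eq]; rfl
  have g3 : GG 2 3 3 := WarM.CUBIC 2 3 (Or.inr ⟨by norm_num, by rw [e4]; norm_num⟩)
  refine ⟨fun j hj => ?_, by rw [e1]; decide, fun j hj => ?_, fun j hj => ?_,
    by rw [e2]; decide⟩
  · refine War5.dbl.1 2 4 _ (by norm_num) (by norm_num) ?_
    unfold War5.gg War5.P4
    interval_cases j <;> decide
  · interval_cases j <;> decide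
  · rw [e3]
    interval_cases j
    · exact ⟨2, by decide, by decide, g3, by decide⟩
    · exact ⟨2, by decide, by decide, g3, by decide⟩

end Mainaux

open _root_.Pool.Agent.WarD.Mainaux in
/-- the critical number of points kills -/
theorem KKall (n r h : ℕ) (hn : 1 ≤ n) (hr : 1 ≤ r) (hrn : r ≤ n)
    (hh : (r + 1) * NN (n + 1) 4 ≤ (n + r + 2) * h) : KK n r h := by
  have main : (∃ U Y M, Dat n r U Y M ∧
      ∀ h, (r + 1) * NN (n + 1) 4 ≤ (n + r + 2) * h → U + Y + M ≤ h) → KK n r h := by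
    rintro ⟨U, Y, M, hD, hle⟩
    obtain ⟨u, y, p, q, hNB, hsum⟩ := hD.NB
    exact FEWB x_TRB x_REB x_SDB x_QZ hn hNB (by rw [hsum]; exact hle h hh)
  rcases Nat.lt_or_ge n 39 with hlt | hge
  · rcases NumF.all_ok n hlt r (by omega) with h0 | h0 | h0 | h0 | h0
    · omega
    · omega
    · unfold NumF.exc at h0
      simp only [Bool.or_eq_true, Bool.and_eq_true, beq_iff_eq] at h0
      rcases h0 with ⟨rfl, rfl⟩ | ⟨rfl, rfl⟩ | ⟨rfl, rfl⟩ | ⟨rfl, rfl⟩
      · refine main ⟨3, 1, 4, dat_1_1, fun h hh => ?_⟩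
        have e : NN (1 + 1) 4 = 15 := by rw [NumF.c4_eq]; rfl
        rw [e] at hh
        omega
      · refine main ⟨7, 2, 5, dat_2_1, fun h hh => ?_⟩
        have e : NN (2 + 1) 4 = 35 := by rw [NumF.c4_eq]; rfl
        rw [e] at hh
        omega
      · have e : NN (4 + 1) 4 = 126 := by rw [NumF.c4_eq]; rfl
        rw [e] at hh
        exact (KK_5_2 x_QZ).mono (by omega)
      · have e : NN (5 + 1) 4 = 210 := by rw [NumF.c4_eq]; rfl
        rw [e] at hh
        exact (KK_6_6 x_QZ).mono (by omega)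
    · exact main ⟨_, _, _, NumF.dat_of_chk hn h0⟩
    · obtain ⟨x, hx, rfl, rfl⟩ := h0
      exact main ⟨_, _, _, NumF.dat_of_chk hn (NumF.tab_ok x hx)⟩
  · exact main (NumG.gen x_Q4 n r hge hr hrn)

/-- at most `n` forms of degree 4: no exceptions -/
theorem W_few4 (n s h : ℕ) (hn : 2 ≤ n) (hs : 2 ≤ s) (hsn : s ≤ n) :
    Waring.W 4 h n s ↔ min s ((n + 4).choose n) ≤ h ∧ s * (n + 4).choose n ≤ h * (n + s) := by
  refine ⟨fun H => ⟨H.bound2, H.bound1 (by omega)⟩, fun H => ?_⟩
  obtain ⟨m, rfl⟩ : ∃ m, n = m + 1 := ⟨n - 1, by omega⟩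
  obtain ⟨r, rfl⟩ : ∃ r, s = r + 1 := ⟨s - 1, by omega⟩
  have h2 : (r + 1) * War.NN (m + 1) 4 ≤ (m + r + 2) * h := by
    have := H.2
    unfold War.NN
    calc _ ≤ _ := this
      _ = _ := by ring
  obtain ⟨z, a, hK⟩ := KKall m r h (by omega) (by omega) (by omega) h2
  exact Waring.W_of_dual z a fun g hg h1 h2 => hK g hg h1 h2

end Pool.Agent.WarD


end

section

/-!
# Simultaneous Waring decompositions (MP_db021c_ag): all degrees at least 3
-/

set_option autoImplicit false

open Pool.Agent.War Pool.Agent.WarS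

namespace Pool.Agent.WarC

theorem W_ge_four (n d s h : ℕ) (hn : 2 ≤ n) (hd : 4 ≤ d) (hs : 2 ≤ s) :
    Waring.W d h n s ↔ min s ((n + d).choose n) ≤ h ∧ s * (n + d).choose n ≤ h * (n + s) := by
  rcases Nat.lt_or_ge n s with h1 | h1
  · rcases Nat.lt_or_ge n 3 with h2 | h2
    · have hn2 : n = 2 := by omega
      subst hn2
      have := Waring.ternary d h s (by omega) (by omega)
      rw [Nat.add_comm d 2, Nat.add_comm s 2] at this
      exact this
    · exact WarM.W_many WarM.AH (WarQ.small WarM.AH) n d s h h2 hd h1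
  · rcases Nat.lt_or_ge d 5 with h2 | h2
    · have hd4 : d = 4 := by omega
      subst hd4
      exact WarD.W_few4 n s h hn hs h1
    · exact War5.W_few n d s h hn hs h1 h2

/-- all degrees `≥ 3` -/
theorem W_ge_three (n d s h : ℕ) (hn : 2 ≤ n) (hd : 3 ≤ d) (hs : 2 ≤ s) :
    Waring.W d h n s ↔ (min s ((n + d).choose n) ≤ h ∧ s * (n + d).choose n ≤ h * (n + s)) ∧
      ¬ (d = 3 ∧ n = 2 ∧ s = 2 ∧ h = 5) := by
  rcases Nat.lt_or_ge d 4 with h1 | h1
  · have hd3 : d = 3 := by omega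
    subst hd3
    rw [W_cubic n s h hn hs]
    simp
  · rw [W_ge_four n d s h hn h1 hs]
    constructor
    · intro H
      exact ⟨H, by omega⟩
    · exact fun H => H.1

end Pool.Agent.WarC


end

section

/-!
# Simultaneous Waring decompositions: binary forms, linear forms, pencils of quadrics (helper96)
-/

set_option autoImplicit false

open MvPolynomial Finset

namespace Pool.Agent.WarN

open Pool.Agent.Waring

namespace BinAux

/-- A univariate polynomial with many zeros. -/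
lemma poly_zero {d h s q j : ℕ} (hj : j < s) (hq : s * q ≤ h) (hd : d < h + q)
    (P : Polynomial ℂ) (hP : P.natDegree ≤ d) (h0 : ∀ i < h, P.eval (i : ℂ) = 0)
    (h1 : ∀ i < h, i % s = j → P.derivative.eval (i : ℂ) = 0) : P = 0 := by
  classical
  by_contra hne
  have hinj : Function.Injective (Nat.cast : ℕ → ℂ) := Nat.cast_injective
  let R : Finset ℂ := (Finset.range h).image (Nat.cast : ℕ → ℂ)
  have hsub : R ⊆ P.roots.toFinset := by
    intro x hx
    obtain ⟨i, hi, rfl⟩ := Finset.mem_image.1 hx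
    rw [Multiset.mem_toFinset, Polynomial.mem_roots hne]
    exact h0 i (Finset.mem_range.1 hi)
  have hsum : ∑ x ∈ R, P.rootMultiplicity x ≤ d := by
    calc ∑ x ∈ R, P.rootMultiplicity x ≤ ∑ x ∈ P.roots.toFinset, P.rootMultiplicity x :=
          Finset.sum_le_sum_of_subset hsub
      _ = ∑ x ∈ P.roots.toFinset, P.roots.count x := by
          refine Finset.sum_congr rfl fun x _ => ?_
          rw [Polynomial.count_roots]
      _ = Multiset.card P.roots := Multiset.toFinset_sum_count_eq _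
      _ ≤ P.natDegree := Polynomial.card_roots' P
      _ ≤ d := hP
  rw [show R = (Finset.range h).image (Nat.cast : ℕ → ℂ) from rfl,
    Finset.sum_image fun x _ y _ hxy => hinj hxy] at hsum
  have hge : ∀ i ∈ Finset.range h, 1 + (if i % s = j then 1 else 0) ≤
      P.rootMultiplicity (i : ℂ) := by
    intro i hi
    have hi' := Finset.mem_range.1 hi
    split_ifs with hij
    · have := (Polynomial.one_lt_rootMultiplicity_iff_isRoot hne).2 ⟨h0 i hi', h1 i hi' hij⟩
      omega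
    · have := (Polynomial.rootMultiplicity_pos hne).2 (h0 i hi')
      omega
  have h3 := (Finset.sum_le_sum hge).trans hsum
  rw [Finset.sum_add_distrib, Finset.sum_const, Finset.card_range, smul_eq_mul, mul_one,
    ← Finset.card_filter] at h3
  have h4 : q ≤ ((Finset.range h).filter fun i => i % s = j).card := by
    calc q = (Finset.range q).card := (Finset.card_range q).symm
      _ ≤ _ := by
        refine Finset.card_le_card_of_injOn (fun t => j + s * t) ?_ ?_
        · intro t ht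
          have ht' := Finset.mem_range.1 ht
          refine Finset.mem_coe.2 (Finset.mem_filter.2 ⟨Finset.mem_range.2 ?_, ?_⟩)
          · have : s * (t + 1) ≤ s * q := Nat.mul_le_mul_left s ht'
            have h5 : s * (t + 1) = s * t + s := by ring
            show j + s * t < h
            omega
          · show (j + s * t) % s = j
            rw [Nat.add_mul_mod_self_left, Nat.mod_eq_of_lt hj]
        · intro t _ t' _ htt
          have h5 : s * t = s * t' := by
            have : j + s * t = j + s * t' := htt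
            omega
          exact Nat.eq_of_mul_eq_mul_left (by omega) h5
  omega

/-- to one variable -/
noncomputable def U (g : MvPolynomial (Fin 1) ℂ) : Polynomial ℂ := uniqueAlgEquiv ℂ (Fin 1) g

lemma U_eval (g : MvPolynomial (Fin 1) ℂ) (x : ℂ) : (U g).eval x = eval (fun _ => x) g := by
  unfold U
  induction g using MvPolynomial.induction_on with
  | C a => simp
  | add p q hp hq => rw [map_add, Polynomial.eval_add, hp, hq, map_add]
  | mul_X p i hp =>
    rw [map_mul, Polynomial.eval_mul, hp, map_mul, eval_X]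
    congr 1
    simp

lemma U_deriv (g : MvPolynomial (Fin 1) ℂ) : (U g).derivative = U (pderiv 0 g) := by
  unfold U
  induction g using MvPolynomial.induction_on with
  | C a => simp
  | add p q hp hq => rw [map_add, Polynomial.derivative_add, hp, hq, map_add, map_add]
  | mul_X p i hp =>
    have hi : i = 0 := Subsingleton.elim _ _
    subst hi
    rw [map_mul, Polynomial.derivative_mul, hp, Derivation.leibniz, pderiv_X_self, map_add,
      smul_eq_mul, smul_eq_mul, mul_one, map_mul]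
    simp
    ring

lemma U_zero {g : MvPolynomial (Fin 1) ℂ} (h : U g = 0) : g = 0 := by
  unfold U at h
  exact (map_eq_zero_iff _ (uniqueAlgEquiv ℂ (Fin 1)).injective).1 h

lemma U_deg (g : MvPolynomial (Fin 1) ℂ) (d : ℕ) (h : g.totalDegree ≤ d) :
    (U g).natDegree ≤ d := by
  rw [Polynomial.natDegree_le_iff_coeff_eq_zero]
  intro N hN
  unfold U
  rw [coeff_uniqueAlgEquiv]
  refine coeff_eq_zero_of_totalDegree_lt ?_
  refine lt_of_le_of_lt h ?_
  have h2 : ∑ i ∈ (Finsupp.single (default : Fin 1) N).support,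
      (Finsupp.single (default : Fin 1) N) i = N := by
    have h3 : (Finsupp.single (default : Fin 1) N).sum (fun _ e => e) = N :=
      Finsupp.sum_single_index rfl
    exact h3
  rw [h2]
  exact hN

end BinAux

open _root_.Pool.Agent.WarN.BinAux

/-- **Binary forms.** There are no exceptions. -/
theorem W_binary (d h s : ℕ) (hd : 1 ≤ d) :
    W d h 1 s ↔ min s ((1 + d).choose 1) ≤ h ∧ s * (1 + d).choose 1 ≤ h * (1 + s) := by
  refine ⟨fun H => ⟨H.bound2, H.bound1 hd⟩, fun ⟨_, h2⟩ => ?_⟩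
  rw [Nat.choose_one_right] at h2
  -- the number of double points for every form
  obtain ⟨q, hq1, hq2⟩ : ∃ q, s * q ≤ h ∧ d < h + q := by
    rcases Nat.lt_or_ge d h with h3 | h3
    · exact ⟨0, by omega, by omega⟩
    · refine ⟨d + 1 - h, ?_, by omega⟩
      obtain ⟨e, rfl⟩ := Nat.exists_eq_add_of_le h3
      have h4 : h + e + 1 - h = e + 1 := by omega
      rw [h4]
      nlinarith
  refine W_of_dual (fun i _ => (i.val : ℂ)) (fun i j => if i.val % s = j.val then 1 else 0) ?_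
  intro g hg h0 h1 j
  apply U_zero
  refine poly_zero j.isLt hq1 hq2 _ (U_deg _ _ (hg j)) ?_ ?_
  · intro i hi
    rw [U_eval]
    exact h0 ⟨i, hi⟩ j
  · intro i hi hij
    rw [U_deriv, U_eval]
    have h3 := h1 ⟨i, hi⟩ 0
    rw [Finset.sum_eq_single_of_mem j (mem_univ j)] at h3
    · simpa [hij] using h3
    · intro j' _ hj'
      have : ¬ i % s = j'.val := fun h => hj' (Fin.ext (by omega))
      simp [this]

end Pool.Agent.WarN


end

section

/-!
# Simultaneous Waring decompositions (MP_db021c_ag): all degrees, from degree 2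
-/

set_option autoImplicit false

open Pool.Agent.War Pool.Agent.WarS

namespace Pool.Agent.WarC

/-- the statement in degree 2 -/
def D2 : Prop := ∀ n s h : ℕ, 2 ≤ n → 2 ≤ s →
  (Waring.W 2 h n s ↔ (min s ((n + 2).choose n) ≤ h ∧ s * (n + 2).choose n ≤ h * (n + s)) ∧
    ¬ (s = 3 ∧ Odd n ∧ 2 * h = 3 * n + 1))

theorem D2_of (hyp : ∀ n s h, 2 ≤ n → 3 ≤ s → s < NN n 2 → WarR.Crit n s h →
    (∀ h' < h, ¬ WarR.Crit n s h') → WarR.KQ ℂ (n + 1) s h 0 0) : D2 :=
  fun n s h hn hs => WarR.W_two_of hyp n s h hn hs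

/-- degree 1 -/
theorem W_one (n s h : ℕ) (hn : 1 ≤ n) :
    Waring.W 1 h n s ↔ min s ((n + 1).choose n) ≤ h ∧ s * (n + 1).choose n ≤ h * (n + s) := by
  have hN : (n + 1).choose n = n + 1 := by simp
  refine ⟨fun H => ⟨H.bound2, H.bound1 (by omega)⟩, fun H => ?_⟩
  rw [hN] at H
  rcases Nat.lt_or_ge h s with h1 | h1
  · have h2 : (n + 1).choose n ≤ h := by
      rw [hN]
      have := H.1
      omega
    exact (WarM.W_top s hn).mono h2
  · exact WarN.W_linear h n s h1

/-- **The classification** from degree 2 -/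
theorem W_all_of (h2 : D2) (n d s h : ℕ) (hn : 1 ≤ n) (hd : 1 ≤ d) (hs : 2 ≤ s) :
    Waring.W d h n s ↔
      (min s ((n + d).choose n) ≤ h ∧ s * (n + d).choose n ≤ h * (n + s)) ∧
        ¬ (d = 3 ∧ h = 5 ∧ n = 2 ∧ s = 2) ∧ ¬ (d = 2 ∧ 2 * h = 3 * n + 1 ∧ Odd n ∧ s = 3) := by
  rcases Nat.lt_or_ge n 2 with h1 | h1
  · have hn1 : n = 1 := by omega
    subst hn1
    rw [WarN.W_binary d h s hd]
    constructor
    · rintro ⟨H1, H2⟩
      refine ⟨⟨H1, H2⟩, by omega, ?_⟩
      rintro ⟨rfl, e2, -, rfl⟩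
      rw [Nat.choose_one_right] at H2
      omega
    · exact fun H => H.1
  · rcases Nat.lt_or_ge d 3 with h3 | h3
    · rcases Nat.lt_or_ge d 2 with h4 | h4
      · have hd1 : d = 1 := by omega
        subst hd1
        rw [W_one n s h hn]
        constructor
        · exact fun H => ⟨H, by omega, by omega⟩
        · exact fun H => H.1
      · have hd2 : d = 2 := by omega
        subst hd2
        rw [h2 n s h h1 hs]
        constructor
        · rintro ⟨H1, H2⟩
          exact ⟨H1, by omega, fun H3 => H2 ⟨H3.2.2.2, H3.2.2.1, H3.2.1⟩⟩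
        · rintro ⟨H1, -, H2⟩
          exact ⟨H1, fun H3 => H2 ⟨rfl, H3.2.2, H3.2.1, H3.1⟩⟩
    · rw [W_ge_three n d s h h1 h3 hs]
      constructor
      · rintro ⟨H1, H2⟩
        exact ⟨H1, fun H3 => H2 ⟨H3.1, H3.2.2.1, H3.2.2.2, H3.2.1⟩, by omega⟩
      · rintro ⟨H1, H2, -⟩
        exact ⟨H1, fun H3 => H2 ⟨H3.1, H3.2.2.2, H3.2.1, H3.2.2.1⟩⟩

end Pool.Agent.WarC


end
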